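import Pool.Agent.Lib.MP_09eaec_ag.GG.Coh
import Pool.Agent.Lib.MP_09eaec_ag.GG.LineBasic

section

/-!
# The excess of a subspace, and the invariants of a chain of line bundles

`exs μ X J = deg (X.sub J) + μ rank J`.
-/

set_option autoImplicit false

namespace Pool.Agent.MP_09eaec.GG.BG

open Module

universe u v

variable {k : Type u} {K : Type v} [Field k] [Field K] [Algebra k K]
variable {W : Type v} [AddCommGroup W] [Module K W] [Module k W] [IsScalarTower k K W]
variable {A : Type v} [AddCommGroup A] [Module K A] [Module k A] [IsScalarTower k K A]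
variable {B : Type v} [AddCommGroup B] [Module K B] [Module k B] [IsScalarTower k K B]

/-- The excess `deg + μ rank` of a subspace. -/
noncomputable def exs [Curve k K] (μ : ℝ) (X : VB k K A) (J : Submodule K A) : ℝ :=
  ((X.sub J).deg : ℝ) + μ * finrank K J

/-- All nonzero subspaces have negative excess. -/
def NegX [Curve k K] (μ : ℝ) (X : VB k K A) : Prop := ∀ J : Submodule K A, J ≠ ⊥ → exs μ X J < 0

/-- All nonzero subspaces of the kernel of `q` have negative excess. -/
def KerX [Curve k K] (μ : ℝ) (X : VB k K A) (q : A →ₗ[K] K) : Prop :=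
  ∀ J : Submodule K A, J ≠ ⊥ → J ≤ LinearMap.ker q → exs μ X J < 0

/-- `q` maps `X` onto `line D`, the excess of `X` is `ρ`, and the proper subspaces which are not
contained in the kernel of `q` have an excess `< ρ`. -/
structure TopX [Curve k K] (μ ρ : ℝ) (X : VB k K A) (q : A →ₗ[K] K) (D : Dv k K) : Prop where
  img : ∀ P y, y ∈ (line D).M P ↔ ∃ x ∈ X.M P, q x = y
  tot : (X.deg : ℝ) + μ * finrank K A = ρ
  top : ∀ J : Submodule K A, J ≠ ⊤ → ¬ J ≤ LinearMap.ker q → exs μ X J < ρ

end Pool.Agent.MP_09eaec.GG.BG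
end

section

/-!
# TASK A4: additivity of the Euler characteristic

`E : VB k K W`, `J ≤ W`. Exact sequence
`0 → H0 (E.sub J) → H0 E → H0 (E.quo J) → H1 (E.sub J) → H1 E → H1 (E.quo J) → 0`.

Details. Let `q = J.mkQ`, `X = Place →₀ W`, `X_J = Place →₀ J`. Note: for each `w : W` the set
`{P | w ∉ E.M P}` is finite (`E.lower w`, `c = 1`, `1 ∈ P.filt 0`).
(a) `H0 E → H0 (E.quo J)`, `x ↦ q x`, has kernel `H0 (E.sub J)`.
(b) Let `T = {(w, a) : W × X_J | ∀ P, (a P : W) - w ∈ E.M P}` (a `k`-submodule). The map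
    `f : T → H0 (E.quo J)`, `(w, a) ↦ q w` is surjective (for `q w ∈ H0 (E.quo J)`: for each `P` there is
    `y ∈ E.M P` with `q y = q w`; put `a P = w - y ∈ J` if `w ∉ E.M P` and `a P = 0` otherwise; then
    `a P - w` is `-y` or `-w`). The map `g : T → H1 (E.sub J)`, `(w, a) ↦ [a]` kills `ker f` (there `w ∈ J` and
    `a P - w ∈ (E.sub J).M P`). So `g = δ ∘ f` with `δ : H0 (E.quo J) → H1 (E.sub J)`;
    `ker δ = q (H0 E)` (if `a ∈ N (E.sub J)`, `a P - w' ∈ E.M P`, `w' ∈ J`, then `w - w' ∈ H0 E`).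
(c) `H1 (E.sub J) → H1 E`, `[a] ↦ [a]`, has kernel the image of `δ` (= classes of the `a : X_J` such that
    there is `w : W` with `a P - w ∈ E.M P` for all `P`).
(d) `H1 E → H1 (E.quo J)`, induced by `Finsupp.mapRange q`, is surjective, its kernel is the image of
    `H1 (E.sub J)`: if `a : X`, `q (a P) - q w ∈ (E.quo J).M P` for all `P`: choose `y_P ∈ E.M P` with
    `q y_P = q (a P - w)`, and put `b P = a P - w - y_P ∈ J` for the finitely many `P` with `a P ≠ 0` or
    `w ∉ E.M P`, `b P = 0` for the others; then `a - b ∈ N E` (with the vector `w`).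
Then count dimensions (`LinearMap.finrank_range_add_finrank_ker`), or use any lemma of Mathlib on
exact sequences. Finiteness: `Module.Finite` of a module with finite submodule and finite quotient /
finite kernel and finite range.
-/

set_option autoImplicit false

namespace Pool.Agent.MP_09eaec.GG

open Module

universe u v

variable {k : Type u} {K : Type v} [Field k] [Field K] [Algebra k K]
variable {W : Type v} [AddCommGroup W] [Module K W] [Module k W] [IsScalarTower k K W]
variable {A : Type v} [AddCommGroup A] [Module K A] [Module k A] [IsScalarTower k K A]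
variable {B : Type v} [AddCommGroup B] [Module K B] [Module k B] [IsScalarTower k K B]

namespace VB

private lemma Add_finite (E : VB k K W) (w : W) :
    ∃ S : Finset (Place k K), ∀ P, P ∉ S → w ∈ E.M P := by
  obtain ⟨e, he⟩ := E.lower w
  refine ⟨e.support, fun P hP => ?_⟩
  have h1 := he P 1 (by
    rw [Finsupp.notMem_support_iff.1 hP]
    right
    rw [P.ord_one])
  rwa [one_smul] at h1

/-- The projection to the quotient, over `k`. -/
private noncomputable def Add_q (k : Type u) {K : Type v} [Field k] [Field K] [Algebra k K] {W : Type v}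
    [AddCommGroup W] [Module K W] [Module k W] [IsScalarTower k K W] (J : Submodule K W) :
    W →ₗ[k] W ⧸ J := J.mkQ.restrictScalars k

private lemma Add_q_apply (J : Submodule K W) (w : W) : Add_q k J w = J.mkQ w := rfl

private lemma Add_q_eq (J : Submodule K W) {w z : W} (h : J.mkQ w = J.mkQ z) : w - z ∈ J := by
  rw [Submodule.mkQ_apply, Submodule.mkQ_apply, Submodule.Quotient.eq] at h
  exact h

/-- `H0 (E ∩ J) → H0 E`. -/
private noncomputable def Add_i0 (E : VB k K W) (J : Submodule K W) : (E.sub J).H0 →ₗ[k] E.H0 :=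
  ((J.subtype.restrictScalars k).domRestrict (E.sub J).H0).codRestrict E.H0 (by
    rintro ⟨x, hx⟩
    rw [mem_H0] at hx ⊢
    exact hx)

private lemma Add_i0_apply (E : VB k K W) (J : Submodule K W) (x : (E.sub J).H0) :
    ((Add_i0 E J x : E.H0) : W) = ((x : J) : W) := rfl

/-- `H0 E → H0 (E / J)`. -/
private noncomputable def Add_p0 (E : VB k K W) (J : Submodule K W) : E.H0 →ₗ[k] (E.quo J).H0 :=
  ((Add_q k J).domRestrict E.H0).codRestrict (E.quo J).H0 (by
    rintro ⟨x, hx⟩
    rw [mem_H0] at hx ⊢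
    intro P
    exact ⟨x, hx P, rfl⟩)

private lemma Add_p0_apply (E : VB k K W) (J : Submodule K W) (x : E.H0) :
    ((Add_p0 E J x : (E.quo J).H0) : W ⧸ J) = J.mkQ (x : W) := rfl

private lemma Add_i0_inj (E : VB k K W) (J : Submodule K W) : Function.Injective (Add_i0 E J) := by
  intro x y h
  have h1 := congrArg (fun z : E.H0 => (z : W)) h
  simp only [Add_i0_apply] at h1
  exact Subtype.ext (Subtype.ext h1)

private lemma Add_ker_p0 (E : VB k K W) (J : Submodule K W) :
    LinearMap.ker (Add_p0 E J) = LinearMap.range (Add_i0 E J) := by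
  ext x
  rw [LinearMap.mem_ker, LinearMap.mem_range]
  constructor
  · intro h
    have h1 : J.mkQ (x : W) = 0 := by
      rw [← Add_p0_apply, h]; rfl
    have h2 : (x : W) ∈ J := by
      rwa [Submodule.mkQ_apply, Submodule.Quotient.mk_eq_zero] at h1
    refine ⟨⟨⟨(x : W), h2⟩, ?_⟩, ?_⟩
    · rw [mem_H0]
      intro P
      exact mem_H0.1 x.2 P
    · exact Subtype.ext rfl
  · rintro ⟨y, rfl⟩
    apply Subtype.ext
    rw [Add_p0_apply, Add_i0_apply]
    show J.mkQ ((y : J) : W) = 0
    rw [Submodule.mkQ_apply, Submodule.Quotient.mk_eq_zero]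
    exact (y : J).2

/-- The pairs `(w, a)` with `a P - w ∈ E.M P`. -/
private noncomputable def Add_T (E : VB k K W) (J : Submodule K W) : Submodule k (W × (Place k K →₀ J)) where
  carrier := {t | ∀ P, ((t.2 P : J) : W) - t.1 ∈ E.M P}
  add_mem' := by
    intro s t hs ht P
    have := add_mem (hs P) (ht P)
    rw [Prod.snd_add, Prod.fst_add, Finsupp.add_apply, Submodule.coe_add, add_sub_add_comm]
    exact this
  zero_mem' := by
    intro P
    simp
  smul_mem' := by
    intro c t ht P
    have := (E.M P).smul_mem c (ht P)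
    rw [smul_sub] at this
    exact this

/-- `(w, a) ↦ q w`. -/
private noncomputable def Add_f (E : VB k K W) (J : Submodule K W) : Add_T E J →ₗ[k] (E.quo J).H0 :=
  ((Add_q k J ∘ₗ LinearMap.fst k W (Place k K →₀ J)).domRestrict (Add_T E J)).codRestrict
    (E.quo J).H0 (by
    rintro ⟨⟨w, a⟩, ht⟩
    rw [mem_H0]
    intro P
    refine ⟨w - (a P : W), ?_, ?_⟩
    · have h1 := ht P
      have := (E.M P).neg_mem h1
      rw [neg_sub] at this
      exact this
    · show J.mkQ (w - (a P : W)) = J.mkQ w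
      rw [map_sub, sub_eq_self, Submodule.mkQ_apply, Submodule.Quotient.mk_eq_zero]
      exact (a P).2)

private lemma Add_f_apply (E : VB k K W) (J : Submodule K W) (t : Add_T E J) :
    ((Add_f E J t : (E.quo J).H0) : W ⧸ J) = J.mkQ (t : W × (Place k K →₀ J)).1 := rfl

/-- `(w, a) ↦ [a]`. -/
private noncomputable def Add_g (E : VB k K W) (J : Submodule K W) : Add_T E J →ₗ[k] (E.sub J).H1 :=
  (((E.sub J).N.mkQ) ∘ₗ LinearMap.snd k W (Place k K →₀ J)).domRestrict (Add_T E J)

private lemma Add_g_apply (E : VB k K W) (J : Submodule K W) (t : Add_T E J) :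
    Add_g E J t = (E.sub J).N.mkQ (t : W × (Place k K →₀ J)).2 := rfl

private lemma Add_f_surj (E : VB k K W) (J : Submodule K W) :
    Function.Surjective (Add_f E J) := by
  classical
  rintro ⟨y, hy⟩
  obtain ⟨w, rfl⟩ := J.mkQ_surjective y
  rw [mem_H0] at hy
  obtain ⟨S, hS⟩ := Add_finite E w
  choose z hz1 hz2 using fun P => mem_quo.1 (hy P)
  let a : Place k K →₀ J := Finsupp.onFinset S
    (fun P => if P ∈ S then (⟨w - z P, Add_q_eq J (hz2 P).symm⟩ : J) else 0) (by
      intro P hP
      by_contra h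
      exact hP (if_neg h))
  have ha : ∀ P, ((a P : J) : W) - w ∈ E.M P := by
    intro P
    by_cases hP : P ∈ S
    · have h1 : ((a P : J) : W) = w - z P := by
        show (((if P ∈ S then (⟨w - z P, Add_q_eq J (hz2 P).symm⟩ : J) else 0) : J) : W) = w - z P
        rw [if_pos hP]
      rw [h1]
      have := (E.M P).neg_mem (hz1 P)
      rwa [show w - z P - w = - z P by abel]
    · have h1 : ((a P : J) : W) = 0 := by
        show (((if P ∈ S then (⟨w - z P, Add_q_eq J (hz2 P).symm⟩ : J) else 0) : J) : W) = 0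
        rw [if_neg hP]; rfl
      rw [h1, zero_sub]
      exact (E.M P).neg_mem (hS P hP)
  exact ⟨⟨(w, a), ha⟩, Subtype.ext rfl⟩

private lemma Add_ker_f (E : VB k K W) (J : Submodule K W) (t t' : Add_T E J)
    (h : Add_f E J t = Add_f E J t') : Add_g E J t = Add_g E J t' := by
  have h1 : J.mkQ (t : W × (Place k K →₀ J)).1 = J.mkQ (t' : W × (Place k K →₀ J)).1 := by
    rw [← Add_f_apply, h]; rfl
  have h2 := Add_q_eq J h1
  rw [Add_g_apply, Add_g_apply, Submodule.mkQ_apply, Submodule.mkQ_apply, Submodule.Quotient.eq,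
    mem_N]
  refine ⟨⟨_, h2⟩, fun P => ?_⟩
  rw [mem_sub]
  have h3 := sub_mem (t.2 P) (t'.2 P)
  rw [sub_sub_sub_comm] at h3
  exact h3

private lemma Add_exists_delta (E : VB k K W) (J : Submodule K W) :
    ∃ δ : (E.quo J).H0 →ₗ[k] (E.sub J).H1, ∀ t, δ (Add_f E J t) = Add_g E J t := by
  obtain ⟨s, hs⟩ := (Add_f E J).exists_rightInverse_of_surjective
    (LinearMap.range_eq_top.2 (Add_f_surj E J))
  refine ⟨Add_g E J ∘ₗ s, fun t => ?_⟩
  rw [LinearMap.comp_apply]
  apply Add_ker_f
  exact LinearMap.congr_fun hs (Add_f E J t)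

/-- `H1 (E ∩ J) → H1 E`. -/
private noncomputable def Add_i1 (E : VB k K W) (J : Submodule K W) : (E.sub J).H1 →ₗ[k] E.H1 :=
  Submodule.mapQ (E.sub J).N E.N (Finsupp.mapRange.linearMap (J.subtype.restrictScalars k)) (by
    intro a ha
    obtain ⟨w, hw⟩ := mem_N.1 ha
    rw [Submodule.mem_comap, mem_N]
    refine ⟨(w : W), fun P => ?_⟩
    have := hw P
    rw [mem_sub] at this
    exact this)

private lemma Add_i1_apply (E : VB k K W) (J : Submodule K W) (a : Place k K →₀ J) :
    Add_i1 E J ((E.sub J).N.mkQ a) =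
      E.N.mkQ (Finsupp.mapRange.linearMap (J.subtype.restrictScalars k) a) := rfl

/-- `H1 E → H1 (E / J)`. -/
private noncomputable def Add_p1 (E : VB k K W) (J : Submodule K W) : E.H1 →ₗ[k] (E.quo J).H1 :=
  Submodule.mapQ E.N (E.quo J).N (Finsupp.mapRange.linearMap (Add_q k J)) (by
    intro a ha
    obtain ⟨w, hw⟩ := mem_N.1 ha
    rw [Submodule.mem_comap, mem_N]
    refine ⟨J.mkQ w, fun P => ?_⟩
    refine ⟨a P - w, hw P, ?_⟩
    show J.mkQ (a P - w) = J.mkQ (a P) - J.mkQ w
    rw [map_sub])

private lemma Add_p1_apply (E : VB k K W) (J : Submodule K W) (a : Place k K →₀ W) :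
    Add_p1 E J (E.N.mkQ a) =
      (E.quo J).N.mkQ (Finsupp.mapRange.linearMap (Add_q k J) a) := rfl

private lemma Add_p1_surj (E : VB k K W) (J : Submodule K W) :
    Function.Surjective (Add_p1 E J) := by
  intro y
  obtain ⟨b, rfl⟩ := (E.quo J).N.mkQ_surjective y
  obtain ⟨a, ha⟩ := Finsupp.mapRange_surjective (α := Place k K) (Add_q k J) (map_zero _)
    J.mkQ_surjective b
  refine ⟨E.N.mkQ a, ?_⟩
  rw [Add_p1_apply, Finsupp.mapRange.linearMap_apply]
  rw [← ha]

private lemma Add_ker_p1 (E : VB k K W) (J : Submodule K W) :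
    LinearMap.ker (Add_p1 E J) = LinearMap.range (Add_i1 E J) := by
  classical
  ext x
  rw [LinearMap.mem_ker, LinearMap.mem_range]
  constructor
  · obtain ⟨a, rfl⟩ := E.N.mkQ_surjective x
    intro h
    rw [Add_p1_apply, Submodule.mkQ_apply, Submodule.Quotient.mk_eq_zero, mem_N] at h
    obtain ⟨w, hw⟩ := h
    obtain ⟨w, rfl⟩ := J.mkQ_surjective w
    obtain ⟨S, hS⟩ := Add_finite E w
    have hw' : ∀ P, ∃ z ∈ E.M P, J.mkQ z = J.mkQ (a P - w) := by
      intro P
      obtain ⟨z, hz, hz'⟩ := mem_quo.1 (hw P)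
      refine ⟨z, hz, hz'.trans ?_⟩
      rw [map_sub]
      rfl
    choose z hz1 hz2 using hw'
    let b : Place k K →₀ J := Finsupp.onFinset (S ∪ a.support)
      (fun P => if P ∈ S ∪ a.support then (⟨a P - w - z P, Add_q_eq J (hz2 P).symm⟩ : J) else 0)
      (by
        intro P hP
        by_contra h
        exact hP (if_neg h))
    have hb1 : ∀ P ∈ S ∪ a.support, ((b P : J) : W) = a P - w - z P := by
      intro P hP
      show (((if P ∈ S ∪ a.support then (⟨a P - w - z P, Add_q_eq J (hz2 P).symm⟩ : J) else 0) :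
        J) : W) = _
      rw [if_pos hP]
    have hb2 : ∀ P, P ∉ S ∪ a.support → ((b P : J) : W) = 0 := by
      intro P hP
      show (((if P ∈ S ∪ a.support then (⟨a P - w - z P, Add_q_eq J (hz2 P).symm⟩ : J) else 0) :
        J) : W) = _
      rw [if_neg hP]; rfl
    refine ⟨(E.sub J).N.mkQ b, ?_⟩
    rw [Add_i1_apply, Submodule.mkQ_apply, Submodule.mkQ_apply, Submodule.Quotient.eq, mem_N]
    refine ⟨-w, fun P => ?_⟩
    have hbP : (Finsupp.mapRange.linearMap (J.subtype.restrictScalars k) b - a) P =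
      ((b P : J) : W) - a P := rfl
    rw [hbP]
    by_cases hP : P ∈ S ∪ a.support
    · rw [hb1 P hP]
      have := (E.M P).neg_mem (hz1 P)
      rwa [show a P - w - z P - a P - -w = - z P by abel]
    · rw [hb2 P hP]
      have h1 : P ∉ S := fun h => hP (Finset.mem_union_left _ h)
      have h2 : a P = 0 := by
        rw [← Finsupp.notMem_support_iff]
        exact fun h => hP (Finset.mem_union_right _ h)
      rw [h2, sub_zero, zero_sub, neg_neg]
      exact hS P h1
  · rintro ⟨y, rfl⟩
    obtain ⟨b, rfl⟩ := (E.sub J).N.mkQ_surjective y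
    rw [Add_i1_apply, Add_p1_apply, Submodule.mkQ_apply, Submodule.Quotient.mk_eq_zero]
    have : Finsupp.mapRange.linearMap (Add_q k J)
        (Finsupp.mapRange.linearMap (J.subtype.restrictScalars k) b) = 0 := by
      ext P
      show J.mkQ ((b P : J) : W) = 0
      rw [Submodule.mkQ_apply, Submodule.Quotient.mk_eq_zero]
      exact (b P).2
    rw [this]
    exact zero_mem _

private lemma Add_ker_delta (E : VB k K W) (J : Submodule K W)
    (δ : (E.quo J).H0 →ₗ[k] (E.sub J).H1) (hδ : ∀ t, δ (Add_f E J t) = Add_g E J t) :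
    LinearMap.ker δ = LinearMap.range (Add_p0 E J) := by
  ext y
  rw [LinearMap.mem_ker, LinearMap.mem_range]
  constructor
  · obtain ⟨t, rfl⟩ := Add_f_surj E J y
    intro h
    rw [hδ, Add_g_apply, Submodule.mkQ_apply, Submodule.Quotient.mk_eq_zero, mem_N] at h
    obtain ⟨w', hw'⟩ := h
    refine ⟨⟨(t : W × (Place k K →₀ J)).1 - (w' : W), ?_⟩, ?_⟩
    · rw [mem_H0]
      intro P
      have h1 := hw' P
      rw [mem_sub] at h1
      have h2 := t.2 P
      have h3 := sub_mem h1 h2
      have h4 : (((t : W × (Place k K →₀ J)).2 P - w' : J) : W) -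
          ((((t : W × (Place k K →₀ J)).2 P : J) : W) - (t : W × (Place k K →₀ J)).1) =
          (t : W × (Place k K →₀ J)).1 - (w' : W) := by
        rw [Submodule.coe_sub]; abel
      rw [h4] at h3
      exact h3
    · apply Subtype.ext
      rw [Add_p0_apply, Add_f_apply]
      show J.mkQ ((t : W × (Place k K →₀ J)).1 - (w' : W)) = _
      rw [map_sub, sub_eq_self, Submodule.mkQ_apply, Submodule.Quotient.mk_eq_zero]
      exact w'.2
  · rintro ⟨x, rfl⟩
    have h1 : ((x : W), (0 : Place k K →₀ J)) ∈ Add_T E J := by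
      intro P
      show (((0 : J) : W)) - (x : W) ∈ E.M P
      rw [Submodule.coe_zero, zero_sub]
      exact (E.M P).neg_mem (mem_H0.1 x.2 P)
    have h2 : Add_p0 E J x = Add_f E J ⟨_, h1⟩ := Subtype.ext rfl
    rw [h2, hδ, Add_g_apply]
    show (E.sub J).N.mkQ 0 = 0
    rw [map_zero]

private lemma Add_ker_i1 (E : VB k K W) (J : Submodule K W)
    (δ : (E.quo J).H0 →ₗ[k] (E.sub J).H1) (hδ : ∀ t, δ (Add_f E J t) = Add_g E J t) :
    LinearMap.ker (Add_i1 E J) = LinearMap.range δ := by
  ext y
  rw [LinearMap.mem_ker, LinearMap.mem_range]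
  constructor
  · obtain ⟨a, rfl⟩ := (E.sub J).N.mkQ_surjective y
    intro h
    rw [Add_i1_apply, Submodule.mkQ_apply, Submodule.Quotient.mk_eq_zero, mem_N] at h
    obtain ⟨w, hw⟩ := h
    exact ⟨Add_f E J ⟨(w, a), hw⟩, by rw [hδ, Add_g_apply]⟩
  · rintro ⟨x, rfl⟩
    obtain ⟨t, rfl⟩ := Add_f_surj E J x
    rw [hδ, Add_g_apply, Add_i1_apply, Submodule.mkQ_apply, Submodule.Quotient.mk_eq_zero, mem_N]
    exact ⟨(t : W × (Place k K →₀ J)).1, fun P => t.2 P⟩

theorem finite_H0_of_sub_quo (E : VB k K W) (J : Submodule K W) [Module.Finite k (E.sub J).H0]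
    [Module.Finite k (E.quo J).H0] : Module.Finite k E.H0 := by
  refine ⟨Submodule.fg_of_fg_map_of_fg_inf_ker (Add_p0 E J) ?_ ?_⟩
  · exact IsNoetherian.noetherian _
  · rw [top_inf_eq, Add_ker_p0]
    exact Module.Finite.iff_fg.1 (Module.Finite.range (Add_i0 E J))

theorem finite_H1_of_sub_quo (E : VB k K W) (J : Submodule K W) [Module.Finite k (E.sub J).H1]
    [Module.Finite k (E.quo J).H1] : Module.Finite k E.H1 := by
  refine ⟨Submodule.fg_of_fg_map_of_fg_inf_ker (Add_p1 E J) ?_ ?_⟩
  · exact IsNoetherian.noetherian _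
  · rw [top_inf_eq, Add_ker_p1]
    exact Module.Finite.iff_fg.1 (Module.Finite.range (Add_i1 E J))

theorem chi_add (E : VB k K W) (J : Submodule K W) [Module.Finite k (E.sub J).H0]
    [Module.Finite k (E.quo J).H0] [Module.Finite k (E.sub J).H1]
    [Module.Finite k (E.quo J).H1] : E.chi = (E.sub J).chi + (E.quo J).chi := by
  have i1 := finite_H0_of_sub_quo E J
  have i2 := finite_H1_of_sub_quo E J
  obtain ⟨δ, hδ⟩ := Add_exists_delta E J
  have e1 := (Add_p0 E J).finrank_range_add_finrank_ker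
  have e2 := δ.finrank_range_add_finrank_ker
  have e3 := (Add_i1 E J).finrank_range_add_finrank_ker
  have e4 := (Add_p1 E J).finrank_range_add_finrank_ker
  rw [Add_ker_p0, LinearMap.finrank_range_of_inj (Add_i0_inj E J)] at e1
  rw [Add_ker_delta E J δ hδ] at e2
  rw [Add_ker_i1 E J δ hδ] at e3
  rw [Add_ker_p1, LinearMap.range_eq_top.2 (Add_p1_surj E J), finrank_top] at e4
  unfold chi h0 h1
  omega

end VB

end Pool.Agent.MP_09eaec.GG
end

section

/-!
# TASK A1: one step enlargements change the Euler characteristic by one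

Let `E ≤ E'` be equal outside of `P0`, `E'.M P0 = E.M P0 + k x`, `x ∉ E.M P0` (`OneStep`).
Two cases.

CASE A: there is `y ∈ E'.H0`, `y ∉ E.H0`. Then `y ∉ E.M P0` (the other stalks are equal), so
`y - c0 x ∈ E.M P0` with `c0 ≠ 0`, hence `x - c0⁻¹ y ∈ E.M P0`. Thus `E'.H0 = E.H0 ⊕ k y` (for
`z ∈ E'.H0`: `z - c x ∈ E.M P0`, so `z - c c0⁻¹ y ∈ E.M P0`, and it is in the other stalks), and
`E.N = E'.N`: if `a_P - w ∈ E'.M P` for all `P`, then `a_P0 - w - c x ∈ E.M P0`, and
`w' = w + c c0⁻¹ y` satisfies `a_P - w' ∈ E.M P` for all `P`.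

CASE B: `E'.H0 = E.H0`. Then `E'.N = E.N ⊕ k (single P0 x)`: if `a_P - w ∈ E'.M P` for all `P`, take
`c` with `a_P0 - w - c x ∈ E.M P0`; then `a - c single P0 x ∈ E.N`. And `single P0 x ∉ E.N`: otherwise
there is `w` with `w ∈ E.M P` for `P ≠ P0`, `x - w ∈ E.M P0`; then `w ∈ E'.H0` (`w = x - (x - w)`),
`w ∉ E.H0` (since `x ∉ E.M P0`). So `h1 E = h1 E' + 1`.

(For the finiteness and the dimension of the quotients: `(Place →₀ W) ⧸ E.N → (Place →₀ W) ⧸ E'.N` is
surjective with kernel spanned by the class of `single P0 x`; use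
`LinearMap.finrank_range_add_finrank_ker` and `Module.Finite` of kernel and quotient,
e.g. `Submodule.mapQ` / `Submodule.factor`.)
-/

set_option autoImplicit false

namespace Pool.Agent.MP_09eaec.GG

open Module

universe u v

variable {k : Type u} {K : Type v} [Field k] [Field K] [Algebra k K]
variable {W : Type v} [AddCommGroup W] [Module K W] [Module k W] [IsScalarTower k K W]
variable {A : Type v} [AddCommGroup A] [Module K A] [Module k A] [IsScalarTower k K A]
variable {B : Type v} [AddCommGroup B] [Module K B] [Module k B] [IsScalarTower k K B]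

section Step_abstract

variable {M : Type v} [AddCommGroup M] [Module k M]

private theorem Step_sup {S S' : Submodule k M} (hle : S ≤ S') {y : M} (hy : y ∈ S')
    (hs : ∀ z ∈ S', ∃ c : k, z - c • y ∈ S) : S' = S ⊔ Submodule.span k {y} := by
  apply le_antisymm
  · intro z hz
    obtain ⟨c, hc⟩ := hs z hz
    rw [show z = (z - c • y) + c • y by abel]
    exact Submodule.add_mem_sup hc (Submodule.smul_mem _ _ (Submodule.mem_span_singleton_self y))
  · exact sup_le hle ((Submodule.span_singleton_le_iff_mem _ _).2 hy)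

private theorem Step_finite {S S' : Submodule k M} (hle : S ≤ S') {y : M} (hy : y ∈ S')
    (hs : ∀ z ∈ S', ∃ c : k, z - c • y ∈ S) : Module.Finite k S ↔ Module.Finite k S' := by
  constructor
  · intro h
    rw [Step_sup hle hy hs]
    infer_instance
  · intro h
    exact Submodule.finiteDimensional_of_le hle

private theorem Step_finrank {S S' : Submodule k M} (hle : S ≤ S') {y : M} (hy : y ∈ S')
    (hy' : y ∉ S) (hs : ∀ z ∈ S', ∃ c : k, z - c • y ∈ S) [Module.Finite k S] :
    finrank k S' = finrank k S + 1 := by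
  have h1 := Submodule.finrank_sup_add_finrank_inf_eq S (Submodule.span k {y})
  have h2 : S ⊓ Submodule.span k {y} = ⊥ := by
    rw [eq_bot_iff]
    rintro z ⟨hz, hz'⟩
    obtain ⟨c, rfl⟩ := Submodule.mem_span_singleton.1 hz'
    by_cases hc : c = 0
    · simp [hc]
    · exfalso
      apply hy'
      have := S.smul_mem c⁻¹ hz
      rwa [smul_smul, inv_mul_cancel₀ hc, one_smul] at this
  have hy0 : y ≠ 0 := fun h => hy' (h ▸ S.zero_mem)
  rw [h2, finrank_bot, finrank_span_singleton hy0, ← Step_sup hle hy hs] at h1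
  omega

private theorem Step_ker {S S' : Submodule k M} (hle : S ≤ S') {y : M} (hy : y ∈ S')
    (hs : ∀ z ∈ S', ∃ c : k, z - c • y ∈ S) :
    LinearMap.ker (Submodule.factor hle) = Submodule.span k {Submodule.Quotient.mk y} := by
  ext z
  obtain ⟨z, rfl⟩ := Submodule.Quotient.mk_surjective S z
  rw [LinearMap.mem_ker]
  have h0 : Submodule.factor hle (Submodule.Quotient.mk z) = Submodule.Quotient.mk z := rfl
  rw [h0, Submodule.Quotient.mk_eq_zero, Submodule.mem_span_singleton]
  constructor
  · intro hz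
    obtain ⟨c, hc⟩ := hs z hz
    refine ⟨c, ?_⟩
    rw [← Submodule.Quotient.mk_smul, eq_comm, Submodule.Quotient.eq]
    exact hc
  · rintro ⟨c, hc⟩
    rw [← Submodule.Quotient.mk_smul, eq_comm, Submodule.Quotient.eq] at hc
    have := S'.add_mem (hle hc) (S'.smul_mem c hy)
    rwa [sub_add_cancel] at this

private theorem Step_qfinite {S S' : Submodule k M} (hle : S ≤ S') {y : M} (hy : y ∈ S')
    (hs : ∀ z ∈ S', ∃ c : k, z - c • y ∈ S) :
    Module.Finite k (M ⧸ S) ↔ Module.Finite k (M ⧸ S') := by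
  have hsurj : Function.Surjective (Submodule.factor hle) := Submodule.factor_surjective hle
  constructor
  · intro h
    exact Module.Finite.of_surjective _ hsurj
  · intro h
    haveI : Module.Finite k (LinearMap.ker (Submodule.factor hle)) := by
      rw [Step_ker hle hy hs]
      infer_instance
    haveI : Module.Finite k ((M ⧸ S) ⧸ LinearMap.ker (Submodule.factor hle)) :=
      Module.Finite.equiv ((Submodule.factor hle).quotKerEquivOfSurjective hsurj).symm
    exact Module.Finite.of_submodule_quotient (LinearMap.ker (Submodule.factor hle))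

private theorem Step_qfinrank {S S' : Submodule k M} (hle : S ≤ S') {y : M} (hy : y ∈ S')
    (hy' : y ∉ S) (hs : ∀ z ∈ S', ∃ c : k, z - c • y ∈ S) [Module.Finite k (M ⧸ S)] :
    finrank k (M ⧸ S) = finrank k (M ⧸ S') + 1 := by
  have h1 := LinearMap.finrank_range_add_finrank_ker (Submodule.factor hle)
  rw [LinearMap.range_eq_top.2 (Submodule.factor_surjective hle), finrank_top,
    Step_ker hle hy hs, finrank_span_singleton] at h1
  · exact h1.symm
  · rwa [Ne, Submodule.Quotient.mk_eq_zero]

end Step_abstract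

namespace VB

private theorem Step_H0_le {E E' : VB k K W} {P0 : Place k K} {x : W} (h : OneStep E E' P0 x) :
    E.H0 ≤ E'.H0 := fun z hz => mem_H0.2 fun P => h.le P (mem_H0.1 hz P)

private theorem Step_N_le {E E' : VB k K W} {P0 : Place k K} {x : W} (h : OneStep E E' P0 x) :
    E.N ≤ E'.N := by
  rintro a ⟨w, hw⟩
  exact ⟨w, fun P => h.le P (hw P)⟩

private theorem Step_mem {E E' : VB k K W} {P0 : Place k K} {x : W} (h : OneStep E E' P0 x)
    {z : W} (hz : z ∈ E'.H0) (hz' : z ∈ E.M P0) : z ∈ E.H0 := by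
  refine mem_H0.2 fun P => ?_
  by_cases hP : P = P0
  · rw [hP]; exact hz'
  · rw [h.eq P hP]; exact mem_H0.1 hz P

private theorem Step_span {E E' : VB k K W} {P0 : Place k K} {x : W} (h : OneStep E E' P0 x)
    {y : W} (hy : y ∈ E'.H0) (hy' : y ∉ E.H0) {z : W} (hz : z ∈ E'.M P0) :
    ∃ c : k, z - c • y ∈ E.M P0 := by
  obtain ⟨c0, hc0⟩ := h.span y (mem_H0.1 hy P0)
  have hne : c0 ≠ 0 := by
    rintro rfl
    rw [zero_smul, sub_zero] at hc0
    exact hy' (Step_mem h hy hc0)
  obtain ⟨c, hc⟩ := h.span z hz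
  refine ⟨c * c0⁻¹, ?_⟩
  have h1 := (E.M P0).sub_mem hc ((E.M P0).smul_mem (c * c0⁻¹) hc0)
  have h2 : z - c • x - (c * c0⁻¹) • (y - c0 • x) = z - (c * c0⁻¹) • y := by
    rw [smul_sub, smul_smul, mul_assoc, inv_mul_cancel₀ hne, mul_one]
    abel
  rwa [h2] at h1

private theorem Step_spanH0 {E E' : VB k K W} {P0 : Place k K} {x : W} (h : OneStep E E' P0 x)
    {y : W} (hy : y ∈ E'.H0) (hy' : y ∉ E.H0) : ∀ z ∈ E'.H0, ∃ c : k, z - c • y ∈ E.H0 := by
  intro z hz
  obtain ⟨c, hc⟩ := Step_span h hy hy' (mem_H0.1 hz P0)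
  exact ⟨c, Step_mem h (E'.H0.sub_mem hz (E'.H0.smul_mem c hy)) hc⟩

theorem OneStep.N_eq {E E' : VB k K W} {P0 : Place k K} {x : W} (h : OneStep E E' P0 x)
    (hy : ∃ y ∈ E'.H0, y ∉ E.H0) : E.N = E'.N := by
  obtain ⟨y, hy, hy'⟩ := hy
  refine le_antisymm (Step_N_le h) ?_
  rintro a ⟨w, hw⟩
  obtain ⟨c, hc⟩ := Step_span h hy hy' (hw P0)
  refine ⟨w + c • y, fun P => ?_⟩
  rw [← sub_sub]
  by_cases hP : P = P0
  · rw [hP]; exact hc
  · rw [h.eq P hP]
    exact (E'.M P).sub_mem (hw P) ((E'.M P).smul_mem c (mem_H0.1 hy P))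

private theorem Step_caseB {E E' : VB k K W} {P0 : Place k K} {x : W} (h : OneStep E E' P0 x)
    (hy : ¬ ∃ y ∈ E'.H0, y ∉ E.H0) : E'.H0 = E.H0 := by
  refine le_antisymm (fun z hz => ?_) (Step_H0_le h)
  by_contra hz'
  exact hy ⟨z, hz, hz'⟩

private theorem Step_single_mem {E E' : VB k K W} {P0 : Place k K} {x : W}
    (h : OneStep E E' P0 x) : Finsupp.single P0 x ∈ E'.N := by
  classical
  refine ⟨0, fun P => ?_⟩
  rw [sub_zero, Finsupp.single_apply]
  split_ifs with hP
  · rw [← hP]; exact h.mem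
  · exact zero_mem _

private theorem Step_single_notMem {E E' : VB k K W} {P0 : Place k K} {x : W}
    (h : OneStep E E' P0 x) (hy : ¬ ∃ y ∈ E'.H0, y ∉ E.H0) : Finsupp.single P0 x ∉ E.N := by
  classical
  rintro ⟨w, hw⟩
  have h0 : x - w ∈ E.M P0 := by simpa using hw P0
  apply hy
  refine ⟨w, mem_H0.2 fun P => ?_, fun hw' => ?_⟩
  · by_cases hP : P = P0
    · rw [hP]
      have := (E'.M P0).sub_mem h.mem (h.le P0 h0)
      rwa [sub_sub_cancel] at this
    · have := hw P
      rw [Finsupp.single_apply, if_neg (Ne.symm hP), zero_sub] at this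
      have := (E.M P).neg_mem this
      rw [neg_neg] at this
      exact h.le P this
  · apply h.notMem
    have := (E.M P0).add_mem h0 (mem_H0.1 hw' P0)
    rwa [sub_add_cancel] at this

private theorem Step_spanN {E E' : VB k K W} {P0 : Place k K} {x : W} (h : OneStep E E' P0 x) :
    ∀ a ∈ E'.N, ∃ c : k, a - c • Finsupp.single P0 x ∈ E.N := by
  classical
  rintro a ⟨w, hw⟩
  obtain ⟨c, hc⟩ := h.span _ (hw P0)
  refine ⟨c, w, fun P => ?_⟩
  rw [Finsupp.sub_apply, Finsupp.smul_apply, Finsupp.single_apply]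
  split_ifs with hP
  · rw [← hP, sub_right_comm]; exact hc
  · rw [smul_zero, sub_zero, h.eq P (Ne.symm hP)]; exact hw P

theorem OneStep.finite_H0_iff {E E' : VB k K W} {P0 : Place k K} {x : W} (h : OneStep E E' P0 x) :
    Module.Finite k E.H0 ↔ Module.Finite k E'.H0 := by
  by_cases hy : ∃ y ∈ E'.H0, y ∉ E.H0
  · obtain ⟨y, hy, hy'⟩ := hy
    exact Step_finite (Step_H0_le h) hy (Step_spanH0 h hy hy')
  · rw [Step_caseB h hy]

theorem OneStep.finite_H1_iff {E E' : VB k K W} {P0 : Place k K} {x : W} (h : OneStep E E' P0 x) :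
    Module.Finite k E.H1 ↔ Module.Finite k E'.H1 :=
  Step_qfinite (Step_N_le h) (Step_single_mem h) (Step_spanN h)

theorem OneStep.chi {E E' : VB k K W} {P0 : Place k K} {x : W} (h : OneStep E E' P0 x)
    [Module.Finite k E.H0] [Module.Finite k E.H1] : E'.chi = E.chi + 1 := by
  unfold VB.chi VB.h0 VB.h1
  by_cases hy : ∃ y ∈ E'.H0, y ∉ E.H0
  · have hN := h.N_eq hy
    obtain ⟨y, hy, hy'⟩ := hy
    have h1 := Step_finrank (Step_H0_le h) hy hy' (Step_spanH0 h hy hy')
    have h2 : finrank k E.H1 = finrank k E'.H1 := by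
      show finrank k ((Place k K →₀ W) ⧸ E.N) = finrank k ((Place k K →₀ W) ⧸ E'.N)
      rw [hN]
    rw [h1, h2]
    push_cast
    ring
  · have h1 := Step_qfinrank (Step_N_le h) (Step_single_mem h) (Step_single_notMem h hy)
      (Step_spanN h)
    have h2 : finrank k E.H1 = finrank k E'.H1 + 1 := h1
    rw [Step_caseB h hy, h2]
    push_cast
    ring

theorem OneStep.h0_le {E E' : VB k K W} {P0 : Place k K} {x : W} (h : OneStep E E' P0 x)
    [Module.Finite k E.H0] : E'.h0 ≤ E.h0 + 1 := by
  unfold VB.h0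
  by_cases hy : ∃ y ∈ E'.H0, y ∉ E.H0
  · obtain ⟨y, hy, hy'⟩ := hy
    have h1 := Step_finrank (Step_H0_le h) hy hy' (Step_spanH0 h hy hy')
    rw [h1]
    push_cast
    exact le_rfl
  · rw [Step_caseB h hy]
    omega

/-- If `h⁰` jumps, then there is a new section. -/
theorem OneStep.exists_of_h0 {E E' : VB k K W} {P0 : Place k K} {x : W} (h : OneStep E E' P0 x)
    (h0 : E'.h0 ≠ E.h0) : ∃ y ∈ E'.H0, y ∉ E.H0 := by
  by_contra hy
  apply h0
  unfold VB.h0
  rw [Step_caseB h hy]

end VB

end Pool.Agent.MP_09eaec.GG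
end

section

/-!
# TASK A3: Riemann-Roch for line bundles on a curve of genus two

Write `P+` for `D + single P 1` (`oneStep_line`, and the results of Step.lean: `χ` changes by one, `H0`
and `H1` stay finite in both directions, `h0` changes by at most one, and if it changes then `N`
does not change, `OneStep.exists_of_h0`, `OneStep.N_eq`).
1. `finite_H0_line`: choose `P0` (`infinite_places`); `D - n single P0` has negative degree for `n` large,
   `H0 = ⊥` (`H0_line_of_neg`); go up `n` steps.
2. Let `D0` be the divisor of `CurveG.attained`. For `D ≥ D0` (pointwise): `h0 D ≤ h0 D0 + ddeg D - ddeg D0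
   = ddeg D - 1 ≤ h0 D`; so for `D ≥ D0` `h0 (D + P) = h0 D + 1` and hence `N (D + P) = N D`. By induction
   `N (line D) = N (line D0)` for all `D ≥ D0`. Every `a : Place →₀ K` is in `N (line D)` for some
   `D ≥ D0` (with `w = 0`: `D P ≥ D0 P` and `D P ≥ -P.ord (a P)`). So `N (line D0) = ⊤`, `H1 = 0`,
   `χ (line D0) = ddeg D0 - 1`.
3. General `D`: let `D'' = D ⊔ D0` (pointwise maximum). Up from `D0` to `D''` and down from `D''` to `D` by
   steps: `finite_H1_line`, `chi_line`. (Prove once, by induction on `n`: for all `D, D'` with `D ≤ D'` and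
   `ddeg D' - ddeg D = n`: `H1 D` finite iff `H1 D'` finite, and then `χ D' = χ D + n`. If `D ≠ D'` there is
   `P` with `D P < D' P`, and `D + single P 1 ≤ D'`; if the degrees are equal then `D = D'`
   by `eq_of_ddeg_le`.)
4. `exists_large`: `C = ddeg D0 + 2`. If `ddeg D ≥ C` then `h0 (line (D - D0)) ≥ ddeg D - ddeg D0 - 1 ≥ 1`
   (`CurveG.riemann`), so there is `f ≠ 0` with `P.ord f ≥ D0 P - D P`; for `a : Place →₀ K` we have
   `f⁻¹ • a ∈ N (line D0) = ⊤` and `a = f • (f⁻¹ • a) ∈ N (line D)` by `smul_mem_N`.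
-/

set_option autoImplicit false

namespace Pool.Agent.MP_09eaec.GG

open Module

universe u v

variable {k : Type u} {K : Type v} [Field k] [Field K] [Algebra k K]
variable {W : Type v} [AddCommGroup W] [Module K W] [Module k W] [IsScalarTower k K W]
variable {A : Type v} [AddCommGroup A] [Module K A] [Module k A] [IsScalarTower k K A]
variable {B : Type v} [AddCommGroup B] [Module K B] [Module k B] [IsScalarTower k K B]

variable [CurveG k K]

private lemma LineRR_exists_lt {D D' : Dv k K} (h : ∀ P, D P ≤ D' P) (hd : ddeg D < ddeg D') :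
    ∃ P, D P < D' P := by
  by_contra hcon
  push Not at hcon
  have : D = D' := by
    ext P
    exact le_antisymm (h P) (hcon P)
  rw [this] at hd
  exact lt_irrefl _ hd

private lemma LineRR_up (n : ℕ) : ∀ D D' : Dv k K, (∀ P, D P ≤ D' P) → ddeg D' - ddeg D = n →
    (Module.Finite k (line D).H0 ↔ Module.Finite k (line D').H0) ∧
    (Module.Finite k (line D).H1 ↔ Module.Finite k (line D').H1) ∧
    (Module.Finite k (line D).H0 → Module.Finite k (line D).H1 →
      (line D').chi = (line D).chi + n) ∧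
    (Module.Finite k (line D).H0 → (line D').h0 ≤ (line D).h0 + n) := by
  induction n with
  | zero =>
    intro D D' h hd
    have hD : D = D' := eq_of_ddeg_le h (by push_cast at hd; omega)
    subst hD
    simp
  | succ n ih =>
    intro D D' h hd
    obtain ⟨P, hP⟩ := LineRR_exists_lt h (by push_cast at hd; omega)
    obtain ⟨x, -, -, hx⟩ := oneStep_line D P
    have h1 : ∀ Q, (D + Finsupp.single P (1 : ℤ) : Dv k K) Q ≤ D' Q := by
      classical
      intro Q
      rw [Finsupp.add_apply, Finsupp.single_apply]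
      split_ifs with hQ
      · subst hQ; omega
      · have := h Q; omega
    obtain ⟨i1, i2, i3, i4⟩ := ih (D + Finsupp.single P 1) D' h1
      (by rw [ddeg_add, ddeg_single]; push_cast at hd; omega)
    refine ⟨hx.finite_H0_iff.trans i1, hx.finite_H1_iff.trans i2, ?_, ?_⟩
    · intro a b
      have := a
      have := b
      rw [i3 (hx.finite_H0_iff.1 a) (hx.finite_H1_iff.1 b), hx.chi]
      push_cast
      ring
    · intro a
      have := a
      have e1 := i4 (hx.finite_H0_iff.1 a)
      have e2 := hx.h0_le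
      push_cast
      omega

instance finite_H0_line (D : Dv k K) : Module.Finite k (line D).H0 := by
  have hinf : Infinite (Place k K) := infinite_places
  obtain ⟨P0⟩ : Nonempty (Place k K) := inferInstance
  set n : ℕ := (ddeg D + 1).toNat with hn
  have h1 : ddeg (D - Finsupp.single P0 (n : ℤ)) < 0 := by
    rw [ddeg_sub, ddeg_single]
    omega
  have h2 := LineRR_up n (D - Finsupp.single P0 (n : ℤ)) D (by
    classical
    intro Q
    rw [Finsupp.sub_apply, Finsupp.single_apply]
    split_ifs <;> omega) (by rw [ddeg_sub, ddeg_single]; ring)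
  rw [← h2.1, H0_line_of_neg h1]
  infer_instance

private lemma LineRR_h0_le {D D' : Dv k K} (h : ∀ P, D P ≤ D' P) :
    (line D').h0 ≤ (line D).h0 + (ddeg D' - ddeg D) := by
  have h1 := ddeg_mono h
  have h2 := LineRR_up (ddeg D' - ddeg D).toNat D D' h (by omega)
  have h3 := h2.2.2.2 inferInstance
  omega

private lemma LineRR_N {D0 : Dv k K} (h0 : (line D0).h0 = ddeg D0 + 1 - gen k K) (n : ℕ) :
    ∀ D : Dv k K, (∀ P, D0 P ≤ D P) → ddeg D - ddeg D0 = n → (line D).N = (line D0).N := by
  induction n with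
  | zero =>
    intro D h hd
    have hD : D0 = D := eq_of_ddeg_le h (by push_cast at hd; omega)
    rw [hD]
  | succ n ih =>
    intro D h hd
    obtain ⟨P, hP⟩ := LineRR_exists_lt h (by push_cast at hd; omega)
    have h1 : ∀ Q, D0 Q ≤ (D - Finsupp.single P (1 : ℤ) : Dv k K) Q := by
      classical
      intro Q
      rw [Finsupp.sub_apply, Finsupp.single_apply]
      split_ifs with hQ
      · subst hQ; omega
      · have := h Q; omega
    obtain ⟨x, -, -, hx⟩ := oneStep_line (D - Finsupp.single P 1) P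
    rw [sub_add_cancel] at hx
    have e1 := LineRR_h0_le h
    have e2 := LineRR_h0_le h1
    have e3 := CurveG.riemann D
    have e4 := CurveG.riemann (D - Finsupp.single P 1)
    rw [ddeg_sub, ddeg_single] at e2 e4
    have e5 : (line D).h0 ≠ (line (D - Finsupp.single P 1)).h0 := by omega
    rw [← hx.N_eq (hx.exists_of_h0 e5)]
    exact ih _ h1 (by rw [ddeg_sub, ddeg_single]; push_cast at hd; omega)

theorem LineRR_N_top {D0 : Dv k K} (h0 : (line D0).h0 = ddeg D0 + 1 - gen k K) :
    (line D0).N = ⊤ := by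
  classical
  rw [eq_top_iff]
  rintro a -
  set e : Dv k K := Finsupp.onFinset a.support (fun P => if a P = 0 then 0 else -P.ord (a P)) (by
    intro P hP
    rw [Finsupp.mem_support_iff]
    intro h
    exact hP (by rw [if_pos h])) with he
  obtain ⟨D, hD⟩ := exists_ub (fun i : Bool => if i then D0 else e)
  have h1 : ∀ P, D0 P ≤ D P := fun P => by simpa using hD true P
  have h2 : ∀ P, e P ≤ D P := fun P => by simpa using hD false P
  have h3 := ddeg_mono h1
  rw [← LineRR_N h0 (ddeg D - ddeg D0).toNat D h1 (by omega), VB.mem_N]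
  refine ⟨0, fun P => ?_⟩
  rw [sub_zero, mem_line]
  by_cases haP : a P = 0
  · exact Or.inl haP
  · right
    have := h2 P
    rw [he, Finsupp.onFinset_apply, if_neg haP] at this
    omega

/-- If `N = ⊤` then `h¹ = 0`. -/
theorem h1_eq_zero_of_N {E : VB k K W} (h : E.N = ⊤) : E.h1 = 0 := by
  have : Subsingleton E.H1 := Submodule.Quotient.subsingleton_iff.2 h
  rw [VB.h1, Module.finrank_zero_of_subsingleton]
  rfl

instance finite_H1_line (D : Dv k K) : Module.Finite k (line D).H1 := by
  obtain ⟨D0, hD0⟩ := CurveG.attained (k := k) (K := K)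
  have hN := LineRR_N_top hD0
  have hs : Subsingleton (line D0).H1 := Submodule.Quotient.subsingleton_iff.2 hN
  obtain ⟨D', hD'⟩ := exists_ub (fun i : Bool => if i then D0 else D)
  have h1 : ∀ P, D0 P ≤ D' P := fun P => by simpa using hD' true P
  have h2 : ∀ P, D P ≤ D' P := fun P => by simpa using hD' false P
  have h3 := ddeg_mono h1
  have h4 := ddeg_mono h2
  have u1 := LineRR_up (ddeg D' - ddeg D0).toNat D0 D' h1 (by omega)
  have u2 := LineRR_up (ddeg D' - ddeg D).toNat D D' h2 (by omega)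
  exact u2.2.1.2 (u1.2.1.1 inferInstance)

theorem chi_line (D : Dv k K) : (line D).chi = ddeg D + 1 - gen k K := by
  obtain ⟨D0, hD0⟩ := CurveG.attained (k := k) (K := K)
  have hN := LineRR_N_top hD0
  obtain ⟨D', hD'⟩ := exists_ub (fun i : Bool => if i then D0 else D)
  have h1 : ∀ P, D0 P ≤ D' P := fun P => by simpa using hD' true P
  have h2 : ∀ P, D P ≤ D' P := fun P => by simpa using hD' false P
  have h3 := ddeg_mono h1
  have h4 := ddeg_mono h2
  have u1 := (LineRR_up (ddeg D' - ddeg D0).toNat D0 D' h1 (by omega)).2.2.1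
    inferInstance inferInstance
  have u2 := (LineRR_up (ddeg D' - ddeg D).toNat D D' h2 (by omega)).2.2.1
    inferInstance inferInstance
  have u3 : (line D0).chi = ddeg D0 + 1 - gen k K := by
    rw [VB.chi, hD0, h1_eq_zero_of_N hN, sub_zero]
  omega

theorem exists_large : ∃ C : ℤ, ∀ D : Dv k K, C ≤ ddeg D → (line D).N = ⊤ := by
  obtain ⟨D0, hD0⟩ := CurveG.attained (k := k) (K := K)
  have hN := LineRR_N_top hD0
  refine ⟨ddeg D0 + gen k K, fun D hD => ?_⟩
  have h1 := CurveG.riemann (D - D0)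
  rw [ddeg_sub] at h1
  have h2 : (line (D - D0)).H0 ≠ ⊥ := by
    intro hb
    have : (line (D - D0)).h0 = 0 := by
      rw [VB.h0, hb, finrank_bot]
      rfl
    omega
  obtain ⟨f, hf, hf0⟩ := Submodule.exists_mem_ne_zero_of_ne_bot h2
  rw [VB.mem_H0] at hf
  rw [eq_top_iff]
  rintro a -
  have hfa : f⁻¹ • a ∈ (line D0).N := by rw [hN]; trivial
  have h3 := smul_mem_N (D := D0) (D' := D) (f := f) (fun P => by
    have := hf P
    rw [mem_line, Finsupp.sub_apply] at this
    have e : -(D P - D0 P) = D0 P - D P := by ring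
    rw [e] at this
    exact this) hfa
  rwa [smul_smul, mul_inv_cancel₀ hf0, one_smul] at h3

theorem h0_line_of_N {D : Dv k K} (h : (line D).N = ⊤) : (line D).h0 = ddeg D + 1 - gen k K := by
  have h1 := chi_line D
  rw [VB.chi, h1_eq_zero_of_N h, sub_zero] at h1
  exact h1

end Pool.Agent.MP_09eaec.GG
end

section

/-!
# TASK A5: invariance under isomorphisms

`f : W ≃ₗ[K] A`. `H0 (E.map f)` is the image of `H0 E` under `f` (`mem_map`), `N (E.map f)` is the image
of `N E` under `Finsupp.mapRange f`. So `h0`, `h1`, `chi`, `deg` agree, finiteness is transported.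
`sub_map`: the subspace `J.map f` of `A` and the subspace `J` of `W`.
-/

set_option autoImplicit false

namespace Pool.Agent.MP_09eaec.GG

open Module

universe u v

variable {k : Type u} {K : Type v} [Field k] [Field K] [Algebra k K]
variable {W : Type v} [AddCommGroup W] [Module K W] [Module k W] [IsScalarTower k K W]
variable {A : Type v} [AddCommGroup A] [Module K A] [Module k A] [IsScalarTower k K A]
variable {B : Type v} [AddCommGroup B] [Module K B] [Module k B] [IsScalarTower k K B]

namespace VB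

private theorem MapIso_H0 (E : VB k K W) (f : W ≃ₗ[K] A) :
    (E.map f).H0 = E.H0.map ((f.restrictScalars k : W ≃ₗ[k] A) : W →ₗ[k] A) := by
  ext x
  rw [mem_H0, Submodule.mem_map]
  constructor
  · intro h
    exact ⟨f.symm x, mem_H0.2 fun P => mem_map.1 (h P), f.apply_symm_apply x⟩
  · rintro ⟨y, hy, rfl⟩ P
    rw [mem_map]
    have h1 : f.symm ((f.restrictScalars k : W ≃ₗ[k] A) y) = y := f.symm_apply_apply y
    change f.symm ((f.restrictScalars k : W ≃ₗ[k] A) y) ∈ E.M P
    rw [h1]
    exact mem_H0.1 hy P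

private noncomputable def MapIso_e0 (E : VB k K W) (f : W ≃ₗ[K] A) : E.H0 ≃ₗ[k] (E.map f).H0 :=
  ((f.restrictScalars k).submoduleMap E.H0).trans
    (LinearEquiv.ofEq _ _ (MapIso_H0 E f).symm)

private theorem MapIso_N (E : VB k K W) (f : W ≃ₗ[K] A) :
    E.N.map ((Finsupp.mapRange.linearEquiv (α := Place k K) (f.restrictScalars k : W ≃ₗ[k] A) :
      (Place k K →₀ W) ≃ₗ[k] (Place k K →₀ A)) : (Place k K →₀ W) →ₗ[k] (Place k K →₀ A)) =
      (E.map f).N := by
  ext a
  rw [Submodule.mem_map]
  constructor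
  · rintro ⟨b, ⟨w, hw⟩, rfl⟩
    refine ⟨f w, fun P => ?_⟩
    rw [mem_map]
    change f.symm (f (b P) - f w) ∈ E.M P
    rw [← map_sub, f.symm_apply_apply]
    exact hw P
  · rintro ⟨w, hw⟩
    refine ⟨(Finsupp.mapRange.linearEquiv (α := Place k K)
      (f.restrictScalars k : W ≃ₗ[k] A)).symm a, ⟨f.symm w, fun P => ?_⟩, ?_⟩
    · change f.symm (a P) - f.symm w ∈ E.M P
      rw [← map_sub]
      exact mem_map.1 (hw P)
    · exact (Finsupp.mapRange.linearEquiv (α := Place k K)
        (f.restrictScalars k : W ≃ₗ[k] A)).apply_symm_apply a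

private noncomputable def MapIso_e1 (E : VB k K W) (f : W ≃ₗ[K] A) : E.H1 ≃ₗ[k] (E.map f).H1 :=
  Submodule.Quotient.equiv E.N (E.map f).N
    (Finsupp.mapRange.linearEquiv (α := Place k K) (f.restrictScalars k : W ≃ₗ[k] A))
    (MapIso_N E f)

theorem h0_map (E : VB k K W) (f : W ≃ₗ[K] A) : (E.map f).h0 = E.h0 := by
  unfold h0
  rw [(MapIso_e0 E f).finrank_eq]

theorem h1_map (E : VB k K W) (f : W ≃ₗ[K] A) : (E.map f).h1 = E.h1 := by
  unfold h1
  rw [(MapIso_e1 E f).finrank_eq]

theorem chi_map (E : VB k K W) (f : W ≃ₗ[K] A) : (E.map f).chi = E.chi := by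
  unfold chi
  rw [h0_map, h1_map]

theorem deg_map [Curve k K] (E : VB k K W) (f : W ≃ₗ[K] A) : (E.map f).deg = E.deg := by
  unfold deg
  rw [chi_map, f.finrank_eq]

theorem finite_H0_map (E : VB k K W) (f : W ≃ₗ[K] A) :
    Module.Finite k (E.map f).H0 ↔ Module.Finite k E.H0 := by
  exact ⟨fun _ => Module.Finite.equiv (MapIso_e0 E f).symm,
    fun _ => Module.Finite.equiv (MapIso_e0 E f)⟩

theorem finite_H1_map (E : VB k K W) (f : W ≃ₗ[K] A) :
    Module.Finite k (E.map f).H1 ↔ Module.Finite k E.H1 := by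
  exact ⟨fun _ => Module.Finite.equiv (MapIso_e1 E f).symm,
    fun _ => Module.Finite.equiv (MapIso_e1 E f)⟩

/-- The degree of `(E.map f) ∩ f(J)` is the degree of `E ∩ J`. -/
theorem deg_sub_map [Curve k K] (E : VB k K W) (f : W ≃ₗ[K] A) (J : Submodule K W) :
    ((E.map f).sub (J.map f.toLinearMap)).deg = (E.sub J).deg := by
  have h : (E.sub J).map (f.submoduleMap J) = (E.map f).sub (J.map f.toLinearMap) := by
    refine ext' fun P x => ?_
    rw [mem_map, mem_sub, mem_sub, mem_map, LinearEquiv.submoduleMap_symm_apply]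
  rw [← h]
  exact deg_map (E.sub J) (f.submoduleMap J)

theorem map_symm_map (E : VB k K W) (f : W ≃ₗ[K] A) : (E.map f).map f.symm = E := by
  refine ext' fun P x => ?_
  rw [mem_map, mem_map, LinearEquiv.symm_symm, f.symm_apply_apply]

end VB

end Pool.Agent.MP_09eaec.GG
end

section

/-!
# TASK A6: finiteness, additivity of the degree

* `finite_H0`, `finite_H1`: strong induction on `finrank K W` (generalised over `W`). Rank `0`: `W` is
  trivial (`Module.finrank_zero_iff`, subsingleton), everything is trivial. Rank `1`: there is an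
  isomorphism `f : W ≃ₗ[K] K`; `E.map f = line D` (`exists_eq_line`); use `finite_H0_map`,
  `finite_H0_line` ... Rank `≥ 2`: choose `J = span {w}`, `w ≠ 0`, rank `1`; `W ⧸ J` has rank one less;
  `finite_H0_of_sub_quo`, `finite_H1_of_sub_quo`.
* `deg_add`: `chi_add` and `finrank J + finrank (W ⧸ J) = finrank W`.
* `deg_of_finrank_zero`: `h0 = h1 = 0`.
* `deg_line`: `chi_line`.
* `deg_sub_bot`, `deg_sub_top`, `deg_quo_bot`: from `deg_add` and `deg_of_finrank_zero`.
-/

set_option autoImplicit false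

namespace Pool.Agent.MP_09eaec.GG

open Module

universe u v

variable {k : Type u} {K : Type v} [Field k] [Field K] [Algebra k K]
variable {W : Type v} [AddCommGroup W] [Module K W] [Module k W] [IsScalarTower k K W]
variable {A : Type v} [AddCommGroup A] [Module K A] [Module k A] [IsScalarTower k K A]
variable {B : Type v} [AddCommGroup B] [Module K B] [Module k B] [IsScalarTower k K B]

variable [CurveG k K]

namespace VB

omit [CurveG k K] in
private theorem Deg_triv [Subsingleton W] (E : VB k K W) :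
    Module.Finite k E.H0 ∧ Module.Finite k E.H1 := by
  refine ⟨inferInstance, ?_⟩
  have h1 : Subsingleton (Place k K →₀ W) := inferInstance
  have h2 : Subsingleton E.H1 := (Submodule.mkQ_surjective E.N).subsingleton
  infer_instance

private theorem Deg_fin (n : ℕ) : ∀ (W : Type v) [AddCommGroup W] [Module K W] [Module k W]
    [IsScalarTower k K W] [FiniteDimensional K W] (E : VB k K W), finrank K W ≤ n →
    Module.Finite k E.H0 ∧ Module.Finite k E.H1 := by
  induction n with
  | zero =>
    intro W _ _ _ _ _ E h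
    have : Subsingleton W := Module.finrank_zero_iff.1 (Nat.le_zero.1 h)
    exact Deg_triv E
  | succ n ih =>
    intro W _ _ _ _ _ E h
    rcases subsingleton_or_nontrivial W with hW | hW
    · exact Deg_triv E
    obtain ⟨w, hw⟩ := exists_ne (0 : W)
    let f : (Submodule.span K {w}) ≃ₗ[K] K := (LinearEquiv.toSpanNonzeroSingleton K W w hw).symm
    obtain ⟨D, hD⟩ := exists_eq_line ((E.sub (Submodule.span K {w})).map f)
    have h1 : Module.Finite k (E.sub (Submodule.span K {w})).H0 := by
      rw [← finite_H0_map _ f, hD]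
      infer_instance
    have h2 : Module.Finite k (E.sub (Submodule.span K {w})).H1 := by
      rw [← finite_H1_map _ f, hD]
      infer_instance
    have h3 : finrank K (W ⧸ Submodule.span K {w}) ≤ n := by
      have e1 := Submodule.finrank_quotient_add_finrank (Submodule.span K {w})
      rw [finrank_span_singleton hw] at e1
      omega
    obtain ⟨h4, h5⟩ := ih (W ⧸ Submodule.span K {w}) (E.quo (Submodule.span K {w})) h3
    exact ⟨finite_H0_of_sub_quo E (Submodule.span K {w}),
      finite_H1_of_sub_quo E (Submodule.span K {w})⟩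

instance finite_H0 [FiniteDimensional K W] (E : VB k K W) : Module.Finite k E.H0 := by
  exact (Deg_fin (finrank K W) W E le_rfl).1

instance finite_H1 [FiniteDimensional K W] (E : VB k K W) : Module.Finite k E.H1 := by
  exact (Deg_fin (finrank K W) W E le_rfl).2

theorem deg_add [FiniteDimensional K W] (E : VB k K W) (J : Submodule K W) :
    E.deg = (E.sub J).deg + (E.quo J).deg := by
  have h := Submodule.finrank_quotient_add_finrank J
  unfold deg
  rw [chi_add E J]
  have h' : (finrank K (W ⧸ J) : ℤ) + finrank K J = finrank K W := by exact_mod_cast h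
  rw [← h']
  ring

theorem deg_of_finrank_zero [FiniteDimensional K W] (E : VB k K W) (h : finrank K W = 0) :
    E.deg = 0 := by
  have hW : Subsingleton W := Module.finrank_zero_iff.1 h
  have h1 : Subsingleton (Place k K →₀ W) := inferInstance
  have h2 : Subsingleton E.H1 := (Submodule.mkQ_surjective E.N).subsingleton
  have e1 : finrank k E.H0 = 0 := finrank_zero_of_subsingleton
  have e2 : finrank k E.H1 = 0 := finrank_zero_of_subsingleton
  unfold deg chi h0 VB.h1
  rw [e1, e2, h]
  simp

theorem deg_line (D : Dv k K) : (line D).deg = ddeg D := by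
  unfold deg
  rw [chi_line, finrank_self]
  push_cast
  ring

theorem deg_sub_bot [FiniteDimensional K W] (E : VB k K W) : (E.sub ⊥).deg = 0 := by
  exact deg_of_finrank_zero _ (finrank_bot K W)

theorem deg_sub_top [FiniteDimensional K W] (E : VB k K W) : (E.sub ⊤).deg = E.deg := by
  have h := deg_add E (⊤ : Submodule K W)
  have h2 : (E.quo (⊤ : Submodule K W)).deg = 0 := by
    refine deg_of_finrank_zero _ ?_
    have e1 := Submodule.finrank_quotient_add_finrank (⊤ : Submodule K W)
    rw [finrank_top] at e1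
    omega
  omega

theorem deg_quo_bot [FiniteDimensional K W] (E : VB k K W) : (E.quo ⊥).deg = E.deg := by
  have h := deg_add E (⊥ : Submodule K W)
  have h2 := deg_sub_bot E
  omega

/-- Riemann-Roch. -/
theorem rr [FiniteDimensional K W] (E : VB k K W) :
    E.h0 = E.deg - (gen k K - 1) * finrank K W + E.h1 := by
  unfold deg chi; ring

theorem h0_nonneg (E : VB k K W) : 0 ≤ E.h0 := by unfold h0; positivity

theorem h1_nonneg (E : VB k K W) : 0 ≤ E.h1 := by unfold h1; positivity

theorem h1_eq_zero_iff [FiniteDimensional K W] (E : VB k K W) : E.h1 = 0 ↔ E.N = ⊤ := by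
  unfold h1
  constructor
  · intro h
    have h2 : finrank k E.H1 = 0 := by exact_mod_cast h
    have h3 : Subsingleton E.H1 := Module.finrank_zero_iff.1 h2
    exact Submodule.Quotient.subsingleton_iff.1 h3
  · intro h
    have h3 : Subsingleton E.H1 := Submodule.Quotient.subsingleton_iff.2 h
    have e2 : finrank k E.H1 = 0 := finrank_zero_of_subsingleton
    rw [e2]
    rfl

end VB

end Pool.Agent.MP_09eaec.GG
end

section

/-!
# The inductive statements in the existence proof of stable bundles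
-/

set_option autoImplicit false

namespace Pool.Agent.MP_09eaec.GG

open Module

universe u v

variable {k : Type u} {K : Type v} [Field k] [Field K] [Algebra k K]
variable {W : Type v} [AddCommGroup W] [Module K W] [Module k W] [IsScalarTower k K W]
variable {A : Type v} [AddCommGroup A] [Module K A] [Module k A] [IsScalarTower k K A]
variable {B : Type v} [AddCommGroup B] [Module K B] [Module k B] [IsScalarTower k K B]

/-- All the nonzero subbundles of `E` (`E` included) have `r deg - d rank ≤ -1`. -/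
def Neg [Curve k K] (E : VB k K W) (r d : ℤ) : Prop :=
  ∀ J : Submodule K W, J ≠ ⊥ → r * (E.sub J).deg - d * finrank K J ≤ -1

/-- There is a stable bundle of rank `r` and degree `d` (with `r deg - d rank ≤ -1` for all proper
subbundles) with only finitely many subbundles with `r deg - d rank = -1`, and without sections if
`0 ≤ d ≤ r`. -/
def Q (k : Type u) (K : Type v) [Field k] [Field K] [Algebra k K] [Curve k K] (r : ℕ) (d : ℤ) : Prop :=
  ∃ E : VB k K (Fin r → K), E.deg = d ∧
    (∀ J : Submodule K (Fin r → K), J ≠ ⊥ → J ≠ ⊤ → (r : ℤ) * (E.sub J).deg - d * finrank K J ≤ -1) ∧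
    (E.exc r d).Finite ∧ (0 ≤ d → d ≤ r → E.H0 = ⊥)

/-- There is a bundle of rank `n` and degree `δ` all of whose subbundles have `r deg - d rank ≤ -1`,
with equality only for finitely many, and without sections if `0 ≤ d ≤ r`. -/
def HasX (k : Type u) (K : Type v) [Field k] [Field K] [Algebra k K] [Curve k K] (r d : ℤ) (n : ℕ) (δ : ℤ) :
    Prop :=
  ∃ X : VB k K (Fin n → K), X.deg = δ ∧ Neg X r d ∧ (X.exc r d).Finite ∧
    (0 ≤ d → d ≤ r → X.H0 = ⊥)

/-- The chain of bundles for integral slopes: `X` has rank `j`, degree `j deg G - 1`, all subbundles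
have `deg - (deg G) rank ≤ -1` with equality only for finitely many, and there is a quotient
`q : X → O(G')`, where `G' = G` or `deg G' = deg G - 1`; `X` has no sections if `O(G)` has none. -/
def IntChain (G : Dv k K) [Curve k K] (j : ℕ) : Prop :=
  ∃ (X : VB k K (Fin j → K)) (q : (Fin j → K) →ₗ[K] K) (G' : Dv k K),
    X.deg = j * ddeg G - 1 ∧ Neg X 1 (ddeg G) ∧ (X.exc 1 (ddeg G)).Finite ∧
    (∀ P y, y ∈ (line G').M P ↔ ∃ x ∈ X.M P, q x = y) ∧ (ddeg G' = ddeg G - 1 ∨ G' = G) ∧
    ((line G).H0 = ⊥ → X.H0 = ⊥)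

end Pool.Agent.MP_09eaec.GG
end

section

/-!
# TASK B1: transport to `Fin n → K`

Choose `f : W ≃ₗ[K] (Fin n → K)` (equal ranks, `LinearEquiv.ofFinrankEq`), `E' = E.map f`. `deg_map`. The
subspaces of `Fin n → K` are the `J.map f` (`Submodule.orderIsoMapComap`), `deg_sub_map`, ranks agree. So
`E'.exc r d` is the image of `E.exc r d`, `Neg`, `Stable` agree.
-/

set_option autoImplicit false

namespace Pool.Agent.MP_09eaec.GG

open Module

universe u v

variable {k : Type u} {K : Type v} [Field k] [Field K] [Algebra k K]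
variable {W : Type v} [AddCommGroup W] [Module K W] [Module k W] [IsScalarTower k K W]
variable {A : Type v} [AddCommGroup A] [Module K A] [Module k A] [IsScalarTower k K A]
variable {B : Type v} [AddCommGroup B] [Module K B] [Module k B] [IsScalarTower k K B]

variable [CurveG k K]

private lemma Transport_key [FiniteDimensional K W] (E : VB k K W) {n : ℕ}
    (f : W ≃ₗ[K] (Fin n → K)) (J' : Submodule K (Fin n → K)) :
    ∃ J : Submodule K W, J.map f.toLinearMap = J' ∧ ((E.map f).sub J').deg = (E.sub J).deg ∧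
      finrank K J' = finrank K J ∧ (J = ⊥ → J' = ⊥) ∧ (J = ⊤ → J' = ⊤) := by
  have h1 : (J'.comap f.toLinearMap).map f.toLinearMap = J' :=
    Submodule.map_comap_eq_of_surjective f.surjective J'
  refine ⟨J'.comap f.toLinearMap, h1, ?_, ?_, ?_, ?_⟩
  · have h2 := VB.deg_sub_map E f (J'.comap f.toLinearMap)
    rw [h1] at h2
    exact h2
  · have h2 := LinearEquiv.finrank_map_eq f (J'.comap f.toLinearMap)
    have h3 : (J'.comap f.toLinearMap).map (f : W →ₗ[K] (Fin n → K)) = J' := h1
    rw [h3] at h2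
    exact h2
  · intro h
    rw [← h1, h, Submodule.map_bot]
  · intro h
    rw [← h1, h, Submodule.map_top]
    exact LinearEquiv.range f

theorem exists_transport [FiniteDimensional K W] (E : VB k K W) {n : ℕ} (hn : finrank K W = n) :
    ∃ (E' : VB k K (Fin n → K)) (f : W ≃ₗ[K] (Fin n → K)), E' = E.map f ∧ E'.deg = E.deg ∧
      (∀ r d : ℤ, (E.exc r d).Finite → (E'.exc r d).Finite) ∧
      (∀ r d : ℤ, Neg E r d → Neg E' r d) ∧
      (∀ r d : ℤ, (∀ J : Submodule K W, J ≠ ⊥ → J ≠ ⊤ → r * (E.sub J).deg - d * finrank K J ≤ -1) →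
        ∀ J : Submodule K (Fin n → K), J ≠ ⊥ → J ≠ ⊤ →
          r * (E'.sub J).deg - d * finrank K J ≤ -1) ∧
      (E.Stable → E'.Stable) := by
  have hfn : finrank K (Fin n → K) = n := Module.finrank_fin_fun K
  have f : W ≃ₗ[K] (Fin n → K) := LinearEquiv.ofFinrankEq W (Fin n → K) (by rw [hn, hfn])
  refine ⟨E.map f, f, rfl, VB.deg_map E f, ?_, ?_, ?_, ?_⟩
  · intro r d hfin
    refine (hfin.image (fun J => J.map f.toLinearMap)).subset ?_
    rintro J' ⟨h1, h2, h3⟩
    obtain ⟨J, hJ1, hJ2, hJ3, hJ4, hJ5⟩ := Transport_key E f J'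
    refine ⟨J, ⟨fun h => h1 (hJ4 h), fun h => h2 (hJ5 h), ?_⟩, hJ1⟩
    rw [hJ2, hJ3] at h3
    exact h3
  · intro r d h J' h1
    obtain ⟨J, hJ1, hJ2, hJ3, hJ4, hJ5⟩ := Transport_key E f J'
    rw [hJ2, hJ3]
    exact h J (fun h => h1 (hJ4 h))
  · intro r d h J' h1 h2
    obtain ⟨J, hJ1, hJ2, hJ3, hJ4, hJ5⟩ := Transport_key E f J'
    rw [hJ2, hJ3]
    exact h J (fun h => h1 (hJ4 h)) (fun h => h2 (hJ5 h))
  · intro h J' h1 h2
    obtain ⟨J, hJ1, hJ2, hJ3, hJ4, hJ5⟩ := Transport_key E f J'
    rw [hJ2, hJ3, hfn, VB.deg_map E f, ← hn]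
    exact h J (fun h => h1 (hJ4 h)) (fun h => h2 (hJ5 h))

omit [CurveG k K] in
theorem H0_map_bot (E : VB k K W) {W' : Type v} [AddCommGroup W'] [Module K W'] [Module k W']
    [IsScalarTower k K W'] (f : W ≃ₗ[K] W') (h : E.H0 = ⊥) : (E.map f).H0 = ⊥ := by
  rw [eq_bot_iff]
  intro x hx
  have h1 : f.symm x ∈ E.H0 := VB.mem_H0.2 fun P => VB.mem_map.1 (VB.mem_H0.1 hx P)
  rw [h, Submodule.mem_bot] at h1
  rw [Submodule.mem_bot]
  exact (LinearEquiv.map_eq_zero_iff f.symm).1 h1

theorem Q_of [FiniteDimensional K W] (E : VB k K W) {r : ℕ} {d : ℤ} (hr : finrank K W = r)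
    (hd : E.deg = d)
    (h : ∀ J : Submodule K W, J ≠ ⊥ → J ≠ ⊤ → (r : ℤ) * (E.sub J).deg - d * finrank K J ≤ -1)
    (hf : (E.exc r d).Finite) (h0 : 0 ≤ d → d ≤ r → E.H0 = ⊥) : Q k K r d := by
  obtain ⟨E', f, hE, h1, h2, _, h3, _⟩ := exists_transport E hr
  exact ⟨E', h1.trans hd, h3 r d h, h2 r d hf, fun e1 e2 => by
    rw [hE]; exact H0_map_bot E f (h0 e1 e2)⟩

theorem HasX_of [FiniteDimensional K W] (E : VB k K W) {r d : ℤ} {n : ℕ} {δ : ℤ}
    (hn : finrank K W = n) (hd : E.deg = δ) (h : Neg E r d) (hf : (E.exc r d).Finite)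
    (h0 : 0 ≤ d → d ≤ r → E.H0 = ⊥) :
    HasX k K r d n δ := by
  obtain ⟨E', f, hE, h1, h2, h3, _, _⟩ := exists_transport E hn
  exact ⟨E', h1.trans hd, h3 r d h, h2 r d hf, fun e1 e2 => by
    rw [hE]; exact H0_map_bot E f (h0 e1 e2)⟩

end Pool.Agent.MP_09eaec.GG
end

section

/-!
# TASK Noneff: noneffective divisors

* `exists_noneff_top`: for each `m : ℕ` and each `D` with `(line D).h0 = ddeg D + 1 - gen` and `(line D).h0 = m`
  there is `D'` with `ddeg D' = gen - 1` and `(line D').H0 = ⊥`, by induction on `m` (start: `CurveG.attained`).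
  `m = 0`: `D' = D` (`finrank = 0`, finite dimensional). `m + 1`: there is `s ≠ 0` in `H0 (line D)`; there
  are infinitely many places (`infinite_places`), choose `P` outside of the (finite) supports of `D` and
  `dv s`: `D P = 0`, `P.ord s = 0`. `D1 = D - single P 1`: `s ∉ H0 (line D1)` (`s ∉ P.filt (-D1 P) = P.filt 1`), so
  `h0 (line D1) < h0 (line D)`; `oneStep_line D1 P` and `OneStep.h0_le` give `h0 (line D) ≤ h0 (line D1) + 1`.
  So `h0 (line D1) = m = ddeg D1 + 1 - gen`.
* `exists_noneff`: `d ≤ gen - 1`: `D = D' - single P (gen - 1 - d)` for any point `P`; `H0 (line D) ≤ H0 (line D')`.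
* `exists_ddeg'`: for `d ≤ 1 ≤ gen - 1` (`CurveG.two_le`) take `exists_noneff`, otherwise `single P d`.
-/

set_option autoImplicit false

namespace Pool.Agent.MP_09eaec.GG

open Module

universe u v

variable {k : Type u} {K : Type v} [Field k] [Field K] [Algebra k K]

private theorem Noneff_step [CurveG k K] (m : ℕ) : ∀ D : Dv k K,
    (line D).h0 = ddeg D + 1 - gen k K → (line D).h0 = m →
    ∃ D' : Dv k K, ddeg D' = gen k K - 1 ∧ (line D').H0 = ⊥ := by
  induction m with
  | zero =>
    intro D h1 h2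
    refine ⟨D, ?_, ?_⟩
    · push_cast at h2
      omega
    · have h3 : finrank k (line D).H0 = 0 := by
        have h4 : (line D).h0 = ((finrank k (line D).H0 : ℕ) : ℤ) := rfl
        rw [h4] at h2
        exact_mod_cast h2
      exact Submodule.finrank_eq_zero.1 h3
  | succ m ih =>
    intro D h1 h2
    have hne : (line D).H0 ≠ ⊥ := by
      intro hb
      have h3 : (line D).h0 = 0 := by
        rw [VB.h0, hb, finrank_bot]
        rfl
      rw [h3] at h2
      push_cast at h2
      omega
    obtain ⟨s, hs, hs0⟩ := Submodule.exists_mem_ne_zero_of_ne_bot hne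
    have := infinite_places (k := k) (K := K)
    classical
    obtain ⟨P, hP⟩ := Infinite.exists_notMem_finset (D.support ∪ (dv s : Dv k K).support)
    rw [Finset.mem_union, not_or, Finsupp.notMem_support_iff, Finsupp.notMem_support_iff,
      dv_apply] at hP
    obtain ⟨hPD, hPs⟩ := hP
    obtain ⟨x, -, -, hx⟩ := oneStep_line (D - Finsupp.single P 1) P
    rw [sub_add_cancel] at hx
    have hD1P : (D - Finsupp.single P 1 : Dv k K) P = -1 := by
      rw [Finsupp.sub_apply, Finsupp.single_eq_same, hPD]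
      rfl
    have hle : (line (D - Finsupp.single P 1) : VB k K K).H0 ≤ (line D).H0 := by
      intro y hy
      rw [VB.mem_H0] at hy ⊢
      intro Q
      exact hx.le Q (hy Q)
    have hs1 : s ∉ (line (D - Finsupp.single P 1) : VB k K K).H0 := by
      intro hmem
      have h3 := VB.mem_H0.1 hmem P
      rw [mem_line, hD1P] at h3
      have h4 := h3.resolve_left hs0
      omega
    have hlt : (line (D - Finsupp.single P 1) : VB k K K).h0 < (line D).h0 := by
      have h5 : finrank k (line (D - Finsupp.single P 1) : VB k K K).H0 <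
          finrank k (line D).H0 :=
        Submodule.finrank_lt_finrank_of_lt (lt_of_le_of_ne hle (fun h => hs1 (h ▸ hs)))
      unfold VB.h0
      exact_mod_cast h5
    have h6 := hx.h0_le
    have h7 : ddeg (D - Finsupp.single P 1) = ddeg D - 1 := by
      rw [ddeg_sub, ddeg_single]
    refine ih (D - Finsupp.single P 1) ?_ ?_
    · omega
    · push_cast at h2
      omega

theorem exists_noneff_top [CurveG k K] :
    ∃ D : Dv k K, ddeg D = gen k K - 1 ∧ (line D).H0 = ⊥ := by
  obtain ⟨D, hD⟩ := CurveG.attained (k := k) (K := K)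
  exact Noneff_step (finrank k (line D).H0) D hD rfl

theorem exists_noneff [CurveG k K] {d : ℤ} (hd : d ≤ gen k K - 1) :
    ∃ D : Dv k K, ddeg D = d ∧ (line D).H0 = ⊥ := by
  obtain ⟨D', h1, h2⟩ := exists_noneff_top (k := k) (K := K)
  have := infinite_places (k := k) (K := K)
  obtain ⟨P⟩ : Nonempty (Place k K) := inferInstance
  refine ⟨D' - Finsupp.single P (gen k K - 1 - d), ?_, ?_⟩
  · rw [ddeg_sub, ddeg_single, h1]
    ring
  · rw [eq_bot_iff, ← h2]
    intro y hy
    rw [VB.mem_H0] at hy ⊢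
    intro Q
    have h3 : (line (D' - Finsupp.single P (gen k K - 1 - d)) : VB k K K) ≤ line D' := by
      rw [line_le_line]
      classical
      intro R
      rw [Finsupp.sub_apply, Finsupp.single_apply]
      split_ifs <;> omega
    exact h3 Q (hy Q)

theorem exists_ddeg' [CurveG k K] (d : ℤ) :
    ∃ D : Dv k K, ddeg D = d ∧ (d ≤ 1 → (line D).H0 = ⊥) := by
  by_cases hd : d ≤ 1
  · have h1 := CurveG.two_le (k := k) (K := K)
    obtain ⟨D, h2, h3⟩ := exists_noneff (k := k) (K := K) (d := d) (by omega)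
    exact ⟨D, h2, fun _ => h3⟩
  · have := infinite_places (k := k) (K := K)
    obtain ⟨P⟩ : Nonempty (Place k K) := inferInstance
    exact ⟨Finsupp.single P d, ddeg_single P d, fun h => absurd h hd⟩

end Pool.Agent.MP_09eaec.GG
end

section

/-!
# TASK D11: transport of `α`-stable systems along an isomorphism

`f : W ≃ₗ[K] A`, `V.map f = V.map (f.toLinearMap.restrictScalars k)`. For `J ≤ A` let `J0 = J.comap f`;
`J = J0.map f`, `deg_sub_map`; `V.map f ⊓ J = (V ⊓ J0).map f`; ranks and dimensions agree.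
-/

set_option autoImplicit false

namespace Pool.Agent.MP_09eaec.GG

open Module

universe u v

variable {k : Type u} {K : Type v} [Field k] [Field K] [Algebra k K]
variable {W : Type v} [AddCommGroup W] [Module K W] [Module k W] [IsScalarTower k K W]
variable {A : Type v} [AddCommGroup A] [Module K A] [Module k A] [IsScalarTower k K A]
variable {B : Type v} [AddCommGroup B] [Module K B] [Module k B] [IsScalarTower k K B]

private theorem SysMap_finrank {V : Submodule k W} (f : W ≃ₗ[K] A) :
    finrank k (V.map (f.toLinearMap.restrictScalars k)) = finrank k V :=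
  LinearEquiv.finrank_map_eq (f.restrictScalars k : W ≃ₗ[k] A) V

private theorem SysMap_inf (f : W ≃ₗ[K] A) (V : Submodule k W) (J : Submodule K W) :
    V.map (f.toLinearMap.restrictScalars k) ⊓ (J.map f.toLinearMap).restrictScalars k =
      (V ⊓ J.restrictScalars k).map (f.toLinearMap.restrictScalars k) := by
  ext x
  rw [Submodule.mem_inf, Submodule.mem_map, Submodule.mem_map]
  constructor
  · rintro ⟨⟨y, hy, rfl⟩, ⟨z, hz, hzy⟩⟩
    have h1 : z = y := f.injective hzy
    subst h1
    exact ⟨z, ⟨hy, hz⟩, rfl⟩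
  · rintro ⟨y, ⟨hy, hz⟩, rfl⟩
    exact ⟨⟨y, hy, rfl⟩, ⟨y, hz, rfl⟩⟩

theorem stableSys_map [Curve k K] {E : VB k K W} {V : Submodule k W} {α : ℝ} (h : E.StableSys α V)
    (f : W ≃ₗ[K] A) : (E.map f).StableSys α (V.map (f.toLinearMap.restrictScalars k)) := by
  intro J hJ0 hJ1
  obtain ⟨J0, rfl⟩ : ∃ J0 : Submodule K W, J0.map f.toLinearMap = J :=
    ⟨J.comap f.toLinearMap, Submodule.map_comap_eq_of_surjective f.surjective J⟩
  have h0 : J0 ≠ ⊥ := by
    rintro rfl
    exact hJ0 (Submodule.map_bot _)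
  have h1 : J0 ≠ ⊤ := by
    rintro rfl
    refine hJ1 ?_
    rw [Submodule.map_top, LinearMap.range_eq_top]
    exact f.surjective
  have h2 := h J0 h0 h1
  rw [VB.deg_sub_map, VB.deg_map, SysMap_inf, SysMap_finrank, SysMap_finrank,
    ← f.finrank_eq, LinearEquiv.finrank_map_eq f J0]
  exact h2

theorem finrank_mapV {V : Submodule k W} (f : W ≃ₗ[K] A) :
    finrank k (V.map (f.toLinearMap.restrictScalars k)) = finrank k V := by
  exact SysMap_finrank f

theorem mapV_le_H0 {E : VB k K W} {V : Submodule k W} (h : V ≤ E.H0) (f : W ≃ₗ[K] A) :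
    V.map (f.toLinearMap.restrictScalars k) ≤ (E.map f).H0 := by
  rintro x ⟨y, hy, rfl⟩
  rw [VB.mem_H0]
  intro P
  exact ⟨y, VB.mem_H0.1 (h hy) P, rfl⟩

end Pool.Agent.MP_09eaec.GG
end
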