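import Pool.Agent.Lib.MP_09eaec_ag.Mg.G002

section

/-!
# TASK A7: the degree is monotone

Induction on the rank as in `finite_H0` (Deg.lean), both statements at once: for `E ≤ F` on `W`:
`E.deg ≤ F.deg`, and if `F.deg ≤ E.deg` then `E = F`.
Rank `0`: `deg = 0`, and `E = F` since `W` is trivial. Rank `1`: transport to `K` by an isomorphism `f`
(`deg_map`, `map_symm_map`), `E.map f = line D`, `F.map f = line D'`, `line_le_line`, `deg_line`, `ddeg_mono`,
`eq_of_ddeg_le`. Rank `≥ 2`: `J` of rank one, `E.sub J ≤ F.sub J`, `E.quo J ≤ F.quo J`, `deg_add`; if the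
degrees are equal then `E.sub J = F.sub J` and `E.quo J = F.quo J` by induction, and then `E = F`: for
`x ∈ F.M P` there is `y ∈ E.M P` with `x - y ∈ J`, `x - y ∈ F.M P`, so `x - y ∈ E.M P`.
`deg_oneStep`: from `OneStep.chi`.
-/

set_option autoImplicit false

namespace Pool.Agent.MP_09eaec.GG

open Module

universe u v

variable {k : Type u} {K : Type v} [Field k] [Field K] [Algebra k K]
variable {W : Type v} [AddCommGroup W] [Module K W] [Module k W] [IsScalarTower k K W]
variable {A : Type v} [AddCommGroup A] [Module K A] [Module k A] [IsScalarTower k K A]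
variable {B : Type v} [AddCommGroup B] [Module K B] [Module k B] [IsScalarTower k K B]

variable [CurveG k K]

namespace VB

private theorem DegLe_triv [FiniteDimensional K W] [Subsingleton W] (E F : VB k K W) :
    E.deg ≤ F.deg ∧ (F.deg ≤ E.deg → E = F) := by
  have h : finrank K W = 0 := finrank_zero_of_subsingleton
  rw [deg_of_finrank_zero E h, deg_of_finrank_zero F h]
  refine ⟨le_rfl, fun _ => ext' fun P x => ?_⟩
  rw [Subsingleton.elim x 0]
  exact ⟨fun _ => zero_mem _, fun _ => zero_mem _⟩

private theorem DegLe_one (f : W ≃ₗ[K] K) {E F : VB k K W} (h : E ≤ F) :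
    E.deg ≤ F.deg ∧ (F.deg ≤ E.deg → E = F) := by
  obtain ⟨D, hD⟩ := exists_eq_line (E.map f)
  obtain ⟨D', hD'⟩ := exists_eq_line (F.map f)
  have h1 : line D ≤ line D' := by
    rw [← hD, ← hD']
    intro P x hx
    exact mem_map.2 (h P (mem_map.1 hx))
  have h2 := line_le_line.1 h1
  have e1 : E.deg = ddeg D := by rw [← deg_map E f, hD, deg_line]
  have e2 : F.deg = ddeg D' := by rw [← deg_map F f, hD', deg_line]
  rw [e1, e2]
  refine ⟨ddeg_mono h2, fun h3 => ?_⟩
  have h4 := eq_of_ddeg_le h2 h3
  rw [← map_symm_map E f, ← map_symm_map F f, hD, hD', h4]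

private theorem DegLe_aux (n : ℕ) : ∀ (W : Type v) [AddCommGroup W] [Module K W] [Module k W]
    [IsScalarTower k K W] [FiniteDimensional K W], finrank K W ≤ n → ∀ E F : VB k K W, E ≤ F →
    E.deg ≤ F.deg ∧ (F.deg ≤ E.deg → E = F) := by
  induction n with
  | zero =>
    intro W _ _ _ _ _ h E F _
    have : Subsingleton W := Module.finrank_zero_iff.1 (Nat.le_zero.1 h)
    exact DegLe_triv E F
  | succ n ih =>
    intro W _ _ _ _ _ h E F hEF
    rcases subsingleton_or_nontrivial W with hW | hW
    · exact DegLe_triv E F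
    obtain ⟨w, hw⟩ := exists_ne (0 : W)
    have h3 : finrank K (W ⧸ Submodule.span K {w}) ≤ n := by
      have e1 := Submodule.finrank_quotient_add_finrank (Submodule.span K {w})
      rw [finrank_span_singleton hw] at e1
      omega
    have hs : E.sub (Submodule.span K {w}) ≤ F.sub (Submodule.span K {w}) := by
      intro P x hx
      exact hEF P hx
    have hq : E.quo (Submodule.span K {w}) ≤ F.quo (Submodule.span K {w}) := by
      rintro P x ⟨y, hy, rfl⟩
      exact ⟨y, hEF P hy, rfl⟩
    obtain ⟨s1, s2⟩ := DegLe_one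
      (LinearEquiv.toSpanNonzeroSingleton K W w hw).symm hs
    obtain ⟨q1, q2⟩ := ih _ h3 _ _ hq
    have dE := deg_add E (Submodule.span K {w})
    have dF := deg_add F (Submodule.span K {w})
    refine ⟨by omega, fun hd => ?_⟩
    have s3 := s2 (by omega)
    have q3 := q2 (by omega)
    refine le_antisymm' hEF fun P x hx => ?_
    have h4 : (Submodule.span K {w}).mkQ x ∈ (F.quo (Submodule.span K {w})).M P := ⟨x, hx, rfl⟩
    rw [← q3] at h4
    obtain ⟨y, hy, hyx⟩ := mem_quo.1 h4
    have h5 : x - y ∈ Submodule.span K {w} := by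
      rw [← (Submodule.span K {w}).ker_mkQ, LinearMap.mem_ker, map_sub, hyx, sub_self]
    have h6 : (⟨x - y, h5⟩ : Submodule.span K {w}) ∈ (F.sub (Submodule.span K {w})).M P :=
      sub_mem hx (hEF P hy)
    rw [← s3] at h6
    have h7 : x - y ∈ E.M P := h6
    have h8 := add_mem h7 hy
    rwa [sub_add_cancel] at h8

theorem deg_le_of_le [FiniteDimensional K W] {E F : VB k K W} (h : E ≤ F) : E.deg ≤ F.deg := by
  exact (DegLe_aux (finrank K W) W le_rfl E F h).1

theorem eq_of_le_of_deg_le [FiniteDimensional K W] {E F : VB k K W} (h : E ≤ F)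
    (hd : F.deg ≤ E.deg) : E = F := by
  exact (DegLe_aux (finrank K W) W le_rfl E F h).2 hd

theorem deg_oneStep [FiniteDimensional K W] {E F : VB k K W} {P : Place k K} {x : W}
    (h : OneStep E F P x) : F.deg = E.deg + 1 := by
  unfold deg
  rw [h.chi]
  ring

end VB

end Pool.Agent.MP_09eaec.GG
end

section

/-!
# TASK A8: degrees in exact sequences

`0 → A → W → B → 0` exact (`i` injective, `p` surjective, `range i = ker p`). Put `J = ker p`. The
isomorphisms `A ≃ J` (`LinearEquiv.ofInjective` and equality of submodules) and `W ⧸ J ≃ B`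
(`p.quotKerEquivOfSurjective`) transport `E.sub J`, `E.quo J` to bundles `≤ E1`, `≤ E2` (equal to them in
the second statement); `deg_add`, `deg_map`, `deg_le_of_le`.
-/

set_option autoImplicit false

namespace Pool.Agent.MP_09eaec.GG

open Module

universe u v

variable {k : Type u} {K : Type v} [Field k] [Field K] [Algebra k K]
variable {W : Type v} [AddCommGroup W] [Module K W] [Module k W] [IsScalarTower k K W]
variable {A : Type v} [AddCommGroup A] [Module K A] [Module k A] [IsScalarTower k K A]
variable {B : Type v} [AddCommGroup B] [Module K B] [Module k B] [IsScalarTower k K B]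

variable [CurveG k K]

namespace VB

omit [Module k B] [IsScalarTower k K B] [CurveG k K] in
private lemma exact_aux1 (E : VB k K W) (i : A →ₗ[K] W) (p : W →ₗ[K] B)
    (hi : Function.Injective i) (hip : LinearMap.range i = LinearMap.ker p) :
    ∃ g : LinearMap.ker p ≃ₗ[K] A, ∀ P x, x ∈ ((E.sub (LinearMap.ker p)).map g).M P ↔
      i x ∈ E.M P := by
  refine ⟨((LinearEquiv.ofInjective i hi).trans (LinearEquiv.ofEq _ _ hip)).symm, fun P x => ?_⟩
  rw [mem_map, mem_sub]
  rfl

omit [CurveG k K] in
private lemma exact_aux2 (E : VB k K W) (p : W →ₗ[K] B) (hp : Function.Surjective p) :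
    ∃ g : (W ⧸ LinearMap.ker p) ≃ₗ[K] B, ∀ P y, y ∈ ((E.quo (LinearMap.ker p)).map g).M P ↔
      ∃ x ∈ E.M P, p x = y := by
  refine ⟨p.quotKerEquivOfSurjective hp, fun P y => ?_⟩
  rw [mem_map, mem_quo]
  refine exists_congr fun x => and_congr_right fun _ => ?_
  rw [LinearEquiv.eq_symm_apply]
  rfl

theorem deg_exact_le [FiniteDimensional K W] [FiniteDimensional K A] [FiniteDimensional K B]
    (E : VB k K W) (E1 : VB k K A) (E2 : VB k K B) (i : A →ₗ[K] W) (p : W →ₗ[K] B)
    (hi : Function.Injective i) (hp : Function.Surjective p)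
    (hip : LinearMap.range i = LinearMap.ker p)
    (h1 : ∀ P x, i x ∈ E.M P → x ∈ E1.M P) (h2 : ∀ P x, x ∈ E.M P → p x ∈ E2.M P) :
    E.deg ≤ E1.deg + E2.deg := by
  obtain ⟨g, hg⟩ := exact_aux1 E i p hi hip
  obtain ⟨g', hg'⟩ := exact_aux2 E p hp
  rw [deg_add E (LinearMap.ker p), ← deg_map (E.sub _) g, ← deg_map (E.quo _) g']
  refine add_le_add (deg_le_of_le fun P x hx => h1 P x ((hg P x).1 hx))
    (deg_le_of_le fun P y hy => ?_)
  obtain ⟨x, hx, rfl⟩ := (hg' P y).1 hy
  exact h2 P x hx

theorem deg_exact [FiniteDimensional K W] [FiniteDimensional K A] [FiniteDimensional K B]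
    (E : VB k K W) (E1 : VB k K A) (E2 : VB k K B) (i : A →ₗ[K] W) (p : W →ₗ[K] B)
    (hi : Function.Injective i) (hp : Function.Surjective p)
    (hip : LinearMap.range i = LinearMap.ker p)
    (h1 : ∀ P x, i x ∈ E.M P ↔ x ∈ E1.M P) (h2 : ∀ P y, y ∈ E2.M P ↔ ∃ x ∈ E.M P, p x = y) :
    E.deg = E1.deg + E2.deg := by
  obtain ⟨g, hg⟩ := exact_aux1 E i p hi hip
  obtain ⟨g', hg'⟩ := exact_aux2 E p hp
  have e1 : (E.sub (LinearMap.ker p)).map g = E1 := ext' fun P x => (hg P x).trans (h1 P x)
  have e2 : (E.quo (LinearMap.ker p)).map g' = E2 := ext' fun P y => (hg' P y).trans (h2 P y).symm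
  rw [deg_add E (LinearMap.ker p), ← deg_map (E.sub _) g, ← deg_map (E.quo _) g', e1, e2]

/-- The image of a bundle under a surjective linear map. -/
theorem exists_image (E : VB k K W) (p : W →ₗ[K] B) (hp : Function.Surjective p) :
    ∃ F : VB k K B, ∀ P y, y ∈ F.M P ↔ ∃ x ∈ E.M P, p x = y := by
  obtain ⟨g', hg'⟩ := exact_aux2 E p hp
  exact ⟨_, hg'⟩

end VB

end Pool.Agent.MP_09eaec.GG
end

section

/-!
# TASK C2: the divisor of a Weil differential

There are a functional `ω ≠ 0` on `Place →₀ K` and a divisor `κ` with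
 (1) `x ∈ (line κ).M P ↔ ∀ c ∈ P.filt 0, ω (single P (c * x)) = 0`;
 (2) `ω` vanishes on `N (line κ)`.
Proof. `h1 (line 0) = h0 (line 0) - chi (line 0) = h0 + 1 > 0` (`chi_line`), so `N (line 0) ≠ ⊤`, and there is
a functional `ω ≠ 0` vanishing on `N (line 0)` (e.g. `Submodule.exists_le_ker_of_lt_top`).
(a) If `D` is a divisor such that `ω (single P c) = 0` for all `P` and `c ∈ P.filt (-D P)`, and
    `0 ≤ D`, then `ω = 0` on `N (line D)`: let `a P - w ∈ P.filt (-D P)` for all `P`. Let `S` be a finite set of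
    places containing the support of `a`, of `D` and of `dv w`. `a = Σ_(P ∈ S) single P (a P - w) +
    Σ_(P ∈ S) single P w`. `ω` is zero on the first sum; the second sum is in `N (line 0)` with the
    vector `w` (for `P ∉ S`: `0 - w ∈ P.filt 0`). The same proof gives (2) from (1) (`κ ≥ 0` by (b)).
(b) `M P = {x | ∀ c ∈ P.filt 0, ω (single P (c * x)) = 0}` contains `P.filt 0` (`single P c ∈ N (line 0)`
    with `w = 0`) and is stable under `P.filt 0`.
(c) Let `C` be as in `exists_large`. If `0 ≤ D` and `P.filt (-D P) ⊆ M P` for all `P`, then `ω = 0` on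
    `N (line D)` by (a), so `N (line D) ≠ ⊤` and `ddeg D < C`. Hence: each `x ∈ M P`, `x ≠ 0`, has
    `P.ord x ≥ -C` (otherwise take `D = single P (-P.ord x)`; `x ∈ M P` implies `P.filt (P.ord x) ⊆ M P`);
    and the set of the `P` with `M P ≠ P.filt 0` has fewer than `C` elements (for `C` such places take
    `D = Σ single P 1`), so it is finite.
(d) So `M` are the stalks of a bundle on `K` (`lower` with `e = -dv w` or `0`, `upper` with
    `e = dv (φ 1) - Σ_(P ∈ bad) single P C`), and `exists_eq_line` gives `κ`.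
-/

set_option autoImplicit false

namespace Pool.Agent.MP_09eaec.GG

open Module

universe u v

variable {k : Type u} {K : Type v} [Field k] [Field K] [Algebra k K]
variable {W : Type v} [AddCommGroup W] [Module K W] [Module k W] [IsScalarTower k K W]
variable {A : Type v} [AddCommGroup A] [Module K A] [Module k A] [IsScalarTower k K A]
variable {B : Type v} [AddCommGroup B] [Module K B] [Module k B] [IsScalarTower k K B]

variable [CurveG k K]

omit [CurveG k K] in
private lemma Kappa_one_mem (P : Place k K) : (1 : K) ∈ P.filt 0 :=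
  Or.inr (by rw [P.ord_one])

/-- Vanishing on `N (line D)` from vanishing on the local pieces. -/
private theorem Kappa_vanish {ω : (Place k K →₀ K) →ₗ[k] k}
    (hω : ∀ a ∈ (line (0 : Dv k K)).N, ω a = 0) (D : Dv k K)
    (hD : ∀ (P : Place k K) (c : K), c ∈ P.filt (-D P) → ω (Finsupp.single P c) = 0) :
    ∀ a ∈ (line D).N, ω a = 0 := by
  classical
  rintro a ⟨w, hw⟩
  let S : Finset (Place k K) := a.support ∪ (dv w : Dv k K).support
  have h1 : a = ∑ P ∈ S, Finsupp.single P (a P) := by
    have h2 : a = ∑ P ∈ a.support, Finsupp.single P (a P) := (Finsupp.sum_single a).symm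
    have h3 : ∑ P ∈ a.support, Finsupp.single P (a P) = ∑ P ∈ S, Finsupp.single P (a P) := by
      refine Finset.sum_subset (fun P hP => Finset.mem_union_left _ hP) (fun P _ hP => ?_)
      rw [Finsupp.notMem_support_iff.mp hP, Finsupp.single_zero]
    exact h2.trans h3
  have h2 : a = (∑ P ∈ S, Finsupp.single P (a P - w)) + ∑ P ∈ S, Finsupp.single P w := by
    rw [← Finset.sum_add_distrib]
    conv_lhs => rw [h1]
    refine Finset.sum_congr rfl (fun P _ => ?_)
    rw [← Finsupp.single_add, sub_add_cancel]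
  have h3 : ω (∑ P ∈ S, Finsupp.single P (a P - w)) = 0 := by
    rw [map_sum]
    exact Finset.sum_eq_zero (fun P _ => hD P _ (hw P))
  have h4 : ω (∑ P ∈ S, Finsupp.single P w) = 0 := by
    apply hω
    refine ⟨w, fun Q => ?_⟩
    rw [Finsupp.finsetSum_apply]
    by_cases hQ : Q ∈ S
    · rw [Finset.sum_eq_single Q]
      · rw [Finsupp.single_eq_same, sub_self]
        exact zero_mem _
      · intro P _ hne
        exact Finsupp.single_eq_of_ne hne.symm
      · intro h
        exact absurd hQ h
    · rw [Finset.sum_eq_zero]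
      · rw [zero_sub]
        apply neg_mem
        rw [mem_line]
        right
        have h5 : Q ∉ (dv w : Dv k K).support := fun h => hQ (Finset.mem_union_right _ h)
        have h6 := Finsupp.notMem_support_iff.mp h5
        rw [dv_apply] at h6
        rw [h6]
        simp
      · intro P hP
        have hne : P ≠ Q := fun h => hQ (h ▸ hP)
        exact Finsupp.single_eq_of_ne hne.symm
  rw [h2, map_add, h3, h4, add_zero]

theorem exists_kappa : ∃ (ω : (Place k K →₀ K) →ₗ[k] k) (κ : Dv k K), ω ≠ 0 ∧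
    (∀ (P : Place k K) (x : K), x ∈ (line κ).M P ↔
      ∀ c ∈ P.filt 0, ω (Finsupp.single P (c * x)) = 0) ∧
    ∀ a ∈ (line κ).N, ω a = 0 := by
  classical
  have hN : (line (0 : Dv k K)).N ≠ ⊤ := by
    intro h
    have h1 := h1_eq_zero_of_N h
    have h2 := chi_line (0 : Dv k K)
    have h3 := VB.h0_nonneg (line (0 : Dv k K))
    rw [ddeg_zero] at h2
    unfold VB.chi at h2
    have h4 := CurveG.two_le (k := k) (K := K)
    omega
  obtain ⟨ω, hω0, hωk⟩ := Submodule.exists_le_ker_of_lt_top _ (lt_top_iff_ne_top.mpr hN)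
  have hω : ∀ a ∈ (line (0 : Dv k K)).N, ω a = 0 := fun a ha => LinearMap.mem_ker.mp (hωk ha)
  -- the stalks
  let M : Place k K → Submodule k K := fun P =>
    { carrier := {x | ∀ c ∈ P.filt 0, ω (Finsupp.single P (c * x)) = 0}
      add_mem' := by
        intro a b ha hb c hc
        rw [mul_add, Finsupp.single_add, map_add, ha c hc, hb c hc, add_zero]
      zero_mem' := by
        intro c _
        rw [mul_zero, Finsupp.single_zero, map_zero]
      smul_mem' := by
        intro r x hx c hc
        rw [mul_smul_comm, ← Finsupp.smul_single, map_smul, hx c hc, smul_zero] }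
  have hM : ∀ (P : Place k K) (x : K), x ∈ M P ↔
      ∀ c ∈ P.filt 0, ω (Finsupp.single P (c * x)) = 0 := fun P x => Iff.rfl
  have hM1 : ∀ (P : Place k K) (x : K), x ∈ M P → ω (Finsupp.single P x) = 0 := by
    intro P x hx
    have := hx 1 (Kappa_one_mem P)
    rwa [one_mul] at this
  have hMsmul : ∀ (P : Place k K) (c x : K), c ∈ P.filt 0 → x ∈ M P → c * x ∈ M P := by
    intro P c x hc hx c' hc'
    rw [← mul_assoc]
    refine hx _ ?_
    have := mul_mem_filt P hc' hc
    simpa using this
  have hM0 : ∀ (P : Place k K) (x : K), x ∈ P.filt 0 → x ∈ M P := by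
    intro P x hx c hc
    apply hω
    refine ⟨0, fun Q => ?_⟩
    rw [sub_zero]
    by_cases hQ : Q = P
    · subst hQ
      rw [Finsupp.single_eq_same, mem_line]
      have := mul_mem_filt Q hc hx
      simpa using this
    · rw [Finsupp.single_eq_of_ne hQ]
      exact zero_mem _
  have hMord : ∀ (P : Place k K) (x : K), x ≠ 0 → x ∈ M P → ∀ y ∈ P.filt (P.ord x), y ∈ M P := by
    intro P x hx0 hx y hy
    have h1 : y = (y * x⁻¹) * x := by
      rw [mul_assoc, inv_mul_cancel₀ hx0, mul_one]
    rw [h1]
    refine hMsmul P _ _ ?_ hx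
    have h2 := mul_mem_filt P hy (Or.inr le_rfl : x⁻¹ ∈ P.filt (P.ord x⁻¹))
    rw [P.ord_inv] at h2
    simpa using h2
  obtain ⟨C, hC⟩ := exists_large (k := k) (K := K)
  have hdeg : ∀ D : Dv k K, (∀ P : Place k K, ∀ c ∈ P.filt (-D P), c ∈ M P) → ddeg D < C := by
    intro D hD
    by_contra hlt
    have h1 := hC D (not_lt.mp hlt)
    have h2 := Kappa_vanish hω D (fun P c hc => hM1 P c (hD P c hc))
    refine hω0 (LinearMap.ext (fun a => ?_))
    exact h2 a (by rw [h1]; exact Submodule.mem_top)
  have hord : ∀ (P : Place k K) (x : K), x ≠ 0 → x ∈ M P → -C ≤ P.ord x := by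
    intro P x hx0 hx
    have h1 := hdeg (Finsupp.single P (-P.ord x)) (by
      intro Q c hc
      by_cases hQ : Q = P
      · subst hQ
        rw [Finsupp.single_eq_same, neg_neg] at hc
        exact hMord Q x hx0 hx c hc
      · rw [Finsupp.single_eq_of_ne hQ, neg_zero] at hc
        exact hM0 Q c hc)
    rw [ddeg_single] at h1
    omega
  have hfin : {P : Place k K | ∃ x, x ∈ M P ∧ x ∉ P.filt 0}.Finite := by
    by_contra hinf
    obtain ⟨F, hF, hcard⟩ := Set.Infinite.exists_subset_card_eq hinf C.toNat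
    have h1 := hdeg (∑ P ∈ F, Finsupp.single P 1) (by
      intro Q c hc
      rw [Finsupp.finsetSum_apply] at hc
      by_cases hQ : Q ∈ F
      · rw [Finset.sum_eq_single Q (fun P _ hne => Finsupp.single_eq_of_ne hne.symm)
          (fun h => absurd hQ h), Finsupp.single_eq_same] at hc
        obtain ⟨x, hx, hx0⟩ := hF hQ
        have hx00 : x ≠ 0 := by
          rintro rfl
          exact hx0 (zero_mem _)
        have hx1 : Q.ord x ≤ -1 := by
          by_contra h
          exact hx0 (Or.inr (by omega))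
        exact hMord Q x hx00 hx c (filt_mono Q hx1 hc)
      · rw [Finset.sum_eq_zero, neg_zero] at hc
        · exact hM0 Q c hc
        · intro P hP
          have hne : P ≠ Q := fun h => hQ (h ▸ hP)
          exact Finsupp.single_eq_of_ne hne.symm)
    have h2 : ddeg (∑ P ∈ F, Finsupp.single P (1 : ℤ) : Dv k K) = F.card := by
      have h3 : ∀ G : Finset (Place k K), ddeg (∑ P ∈ G, Finsupp.single P (1 : ℤ) : Dv k K) = G.card := by
        intro G
        induction G using Finset.induction_on with
        | empty => simp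
        | insert a s ha ih =>
          rw [Finset.sum_insert ha, ddeg_add, ih, ddeg_single, Finset.card_insert_of_notMem ha]
          push_cast
          ring
      exact h3 F
    rw [h2, hcard] at h1
    omega
  -- the bundle
  let e0 : Dv k K := ∑ P ∈ hfin.toFinset, Finsupp.single P (-(max C 0))
  have he0 : ∀ (P : Place k K) (x : K), x ∈ M P → x ∈ P.filt (e0 P) := by
    intro P x hx
    by_cases hx0 : x = 0
    · rw [hx0]
      exact zero_mem _
    by_cases hP : P ∈ hfin.toFinset
    · right
      have h1 : e0 P = -(max C 0) := by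
        simp only [e0]
        rw [Finsupp.finsetSum_apply, Finset.sum_eq_single P
          (fun Q _ hne => Finsupp.single_eq_of_ne hne.symm) (fun h => absurd hP h),
          Finsupp.single_eq_same]
      rw [h1]
      have := hord P x hx0 hx
      have := le_max_left C 0
      omega
    · have h1 : e0 P = 0 := by
        simp only [e0]
        rw [Finsupp.finsetSum_apply]
        refine Finset.sum_eq_zero (fun Q hQ => ?_)
        have hne : Q ≠ P := fun h => hP (h ▸ hQ)
        exact Finsupp.single_eq_of_ne hne.symm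
      rw [h1]
      by_contra hnot
      exact hP (hfin.mem_toFinset.mpr ⟨x, hx, hnot⟩)
  let E : VB k K K :=
    { M := M
      smul_mem := fun P c x hc hx => hMsmul P c x hc hx
      lower := by
        intro w
        refine ⟨-dv w, fun P c hc => hM0 P _ ?_⟩
        have := mul_mem_filt P hc (Or.inr le_rfl : w ∈ P.filt (P.ord w))
        simpa [dv_apply] using this
      upper := by
        intro φ
        refine ⟨e0 + dv (φ 1), fun P x hx => ?_⟩
        have h1 : φ x = x * φ 1 := by
          rw [← smul_eq_mul, ← map_smul, smul_eq_mul, mul_one]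
        have := mul_mem_filt P (he0 P x hx) (Or.inr le_rfl : φ 1 ∈ P.filt (P.ord (φ 1)))
        rw [h1]
        simpa [dv_apply] using this }
  obtain ⟨κ, hκ⟩ := exists_eq_line E
  have h1 : ∀ (P : Place k K) (x : K), x ∈ (line κ).M P ↔
      ∀ c ∈ P.filt 0, ω (Finsupp.single P (c * x)) = 0 := by
    intro P x
    rw [← hκ]
    exact hM P x
  refine ⟨ω, κ, hω0, h1, Kappa_vanish hω κ (fun P c hc => ?_)⟩
  have h2 := (h1 P c).mp hc 1 (Kappa_one_mem P)
  rwa [one_mul] at h2

end Pool.Agent.MP_09eaec.GG
end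

section

/-!
# TASK SubSub: subbundles of subbundles

`vd V J = dim (V ∩ J)`.
* `deg_sub_sub`, `h0_sub_sub`, `h1_sub_sub`: the isomorphism `T ≃ T.map S.subtype`
  (`Submodule.equivMapOfInjective`) carries `(E.sub S).sub T` to `E.sub (T.map S.subtype)` (`VB.ext'`, `mem_map`,
  `mem_sub`); `deg_map`, `h0_map`, `h1_map`.
* `h0_sub_eq`: `(E.sub J).H0.map (J.subtype.restrictScalars k) = E.H0 ⊓ J.restrictScalars k`
  (`mem_H0`, `mem_sub`), `finrank_map_subtype_eq` or `equivMapOfInjective`.
* `h0_sub_top`, `h0_sub_bot`, `h1_sub_top`, `h1_sub_bot`: (⊤) `Submodule.topEquiv`; (⊥) everything is zero (as in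
  `deg_of_finrank_zero`, Deg.lean).
* `H0_sub_bot`: `(x : W) ∈ E.H0`.
-/

set_option autoImplicit false

namespace Pool.Agent.MP_09eaec.GG

open Module

universe u v

variable {k : Type u} {K : Type v} [Field k] [Field K] [Algebra k K]
variable {W : Type v} [AddCommGroup W] [Module K W] [Module k W] [IsScalarTower k K W]
variable {A : Type v} [AddCommGroup A] [Module K A] [Module k A] [IsScalarTower k K A]
variable {B : Type v} [AddCommGroup B] [Module K B] [Module k B] [IsScalarTower k K B]

/-- `dim (V ∩ J)`. -/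
noncomputable abbrev vd (V : Submodule k W) (J : Submodule K W) : ℕ :=
  finrank k ↥(V ⊓ J.restrictScalars k)

variable [CurveG k K]

namespace VB

omit [CurveG k K] in
private theorem SubSub_aux (E : VB k K W) (S : Submodule K W) (T : Submodule K S) :
    ((E.sub S).sub T).map (T.equivMapOfInjective S.subtype S.subtype_injective) =
      E.sub (T.map S.subtype) := by
  refine ext' fun P x => ?_
  rw [mem_map, mem_sub, mem_sub, mem_sub]
  have h : (T.equivMapOfInjective S.subtype S.subtype_injective
      ((T.equivMapOfInjective S.subtype S.subtype_injective).symm x) : W) = x := by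
    rw [LinearEquiv.apply_symm_apply]
  rw [Submodule.coe_equivMapOfInjective_apply] at h
  rw [← h]
  rfl

theorem deg_sub_sub (E : VB k K W) (S : Submodule K W) (T : Submodule K S) :
    ((E.sub S).sub T).deg = (E.sub (T.map S.subtype)).deg := by
  rw [← SubSub_aux, deg_map]

theorem h0_sub_sub (E : VB k K W) (S : Submodule K W) (T : Submodule K S) :
    ((E.sub S).sub T).h0 = (E.sub (T.map S.subtype)).h0 := by
  rw [← SubSub_aux, h0_map]

theorem h1_sub_sub (E : VB k K W) (S : Submodule K W) (T : Submodule K S) :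
    ((E.sub S).sub T).h1 = (E.sub (T.map S.subtype)).h1 := by
  rw [← SubSub_aux, h1_map]

theorem h0_sub_eq (E : VB k K W) (J : Submodule K W) : (E.sub J).h0 = vd E.H0 J := by
  have h1 : (E.sub J).H0.map (J.subtype.restrictScalars k) = E.H0 ⊓ J.restrictScalars k := by
    ext x
    rw [Submodule.mem_map, Submodule.mem_inf]
    constructor
    · rintro ⟨y, hy, rfl⟩
      exact ⟨mem_H0.2 fun P => mem_H0.1 hy P, y.2⟩
    · rintro ⟨hx, hxJ⟩
      exact ⟨⟨x, hxJ⟩, mem_H0.2 fun P => mem_H0.1 hx P, rfl⟩
  unfold h0 vd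
  rw [← h1]
  have hinj : Function.Injective (J.subtype.restrictScalars k) := J.subtype_injective
  rw [((E.sub J).H0.equivMapOfInjective (J.subtype.restrictScalars k) hinj).finrank_eq]

omit [CurveG k K] in
private theorem SubSub_top (E : VB k K W) :
    (E.sub ⊤).map (Submodule.topEquiv : (⊤ : Submodule K W) ≃ₗ[K] W) = E := by
  refine ext' fun P x => ?_
  rw [mem_map, mem_sub]
  rfl

theorem h0_sub_top (E : VB k K W) : (E.sub ⊤).h0 = E.h0 := by
  conv_rhs => rw [← SubSub_top E, h0_map]

theorem h1_sub_top (E : VB k K W) : (E.sub ⊤).h1 = E.h1 := by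
  conv_rhs => rw [← SubSub_top E, h1_map]

theorem h0_sub_bot (E : VB k K W) : (E.sub ⊥).h0 = 0 := by
  have hs : Subsingleton (⊥ : Submodule K W) := inferInstance
  have e1 : finrank k (E.sub ⊥).H0 = 0 := finrank_zero_of_subsingleton
  unfold h0
  rw [e1]
  rfl

theorem H0_sub_bot {E : VB k K W} (h : E.H0 = ⊥) (J : Submodule K W) : (E.sub J).H0 = ⊥ := by
  rw [eq_bot_iff]
  intro x hx
  have h1 : (x : W) ∈ E.H0 := mem_H0.2 fun P => mem_H0.1 hx P
  rw [h, Submodule.mem_bot] at h1
  rw [Submodule.mem_bot]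
  exact Subtype.ext h1

end VB

theorem vd_bot (V : Submodule k W) : vd V (⊥ : Submodule K W) = 0 := by
  unfold vd
  have h : V ⊓ (⊥ : Submodule K W).restrictScalars k = ⊥ := by
    rw [Submodule.restrictScalars_bot, inf_bot_eq]
  rw [h, finrank_bot]

theorem vd_top (V : Submodule k W) : vd V (⊤ : Submodule K W) = finrank k V := by
  unfold vd
  have h : V ⊓ (⊤ : Submodule K W).restrictScalars k = V := by
    rw [Submodule.restrictScalars_top, inf_top_eq]
  rw [h]

/-- `V ∩ J` is a space of global sections of `E ∩ J`. -/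
theorem vd_le_h0 [FiniteDimensional K W] {E : VB k K W} {V : Submodule k W} (hV : V ≤ E.H0)
    (J : Submodule K W) : (vd V J : ℤ) ≤ (E.sub J).h0 := by
  rw [VB.h0_sub_eq]
  have h1 : V ⊓ J.restrictScalars k ≤ E.H0 ⊓ J.restrictScalars k := inf_le_inf_right _ hV
  have h2 : Module.Finite k ↥(E.H0 ⊓ J.restrictScalars k) :=
    Submodule.finiteDimensional_of_le (inf_le_left : E.H0 ⊓ J.restrictScalars k ≤ E.H0)
  exact_mod_cast Submodule.finrank_mono h1

end Pool.Agent.MP_09eaec.GG
end

section

/-!
# TASK KerSub: kernels of homomorphisms on subbundles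

* `ker_bounds_sub`: let `T = (LinearMap.ker φ).comap S.subtype = ker (φ ∘ S.subtype)`; `T.map S.subtype =
  S ⊓ ker φ` (`Submodule.map_comap_subtype`). `ψ = φ ∘ₗ S.subtype : S →ₗ K` is nonzero, so surjective
  (`LinearMap.surjective`), exact sequence `0 → T → S → K → 0`: `deg_exact_le` with `E1 = (E.sub S).sub T`,
  `E2 = line D`, and `deg_sub_sub`, `deg_line`. Ranks: `LinearMap.finrank_range_add_finrank_ker ψ`. For `V ≤ E.H0`:
  `φ` maps `V ⊓ S` to `H0 (line D)` with kernel `V ⊓ (S ⊓ ker φ)` (rank-nullity over `k`, see `ker_bounds` in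
  SysDefs.lean for the same proof with `S = ⊤`).
-/

set_option autoImplicit false

namespace Pool.Agent.MP_09eaec.GG

open Module

universe u v

variable {k : Type u} {K : Type v} [Field k] [Field K] [Algebra k K]
variable {W : Type v} [AddCommGroup W] [Module K W] [Module k W] [IsScalarTower k K W]
variable {A : Type v} [AddCommGroup A] [Module K A] [Module k A] [IsScalarTower k K A]
variable {B : Type v} [AddCommGroup B] [Module K B] [Module k B] [IsScalarTower k K B]

variable [CurveG k K]

theorem ker_bounds_sub [FiniteDimensional K W] (E : VB k K W) (S : Submodule K W) {D : Dv k K}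
    {φ : W →ₗ[K] K} (hφ : ¬ S ≤ LinearMap.ker φ)
    (h : ∀ P, ∀ x ∈ S, x ∈ E.M P → φ x ∈ (line D).M P) :
    (E.sub S).deg ≤ (E.sub (S ⊓ LinearMap.ker φ)).deg + ddeg D ∧
    finrank K ↥(S ⊓ LinearMap.ker φ) + 1 = finrank K S ∧
    ∀ V : Submodule k W, V ≤ E.H0 →
      (vd V S : ℤ) ≤ vd V (S ⊓ LinearMap.ker φ) + (line D).h0 := by
  set ψ : S →ₗ[K] K := φ ∘ₗ S.subtype with hψ
  have hψ0 : ψ ≠ 0 := by
    intro h0
    apply hφ
    intro x hx
    have h1 : ψ ⟨x, hx⟩ = 0 := by rw [h0, LinearMap.zero_apply]
    exact h1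
  have hsurj : Function.Surjective ψ := LinearMap.surjective hψ0
  have hT : (LinearMap.ker ψ).map S.subtype = S ⊓ LinearMap.ker φ := by
    rw [hψ, LinearMap.ker_comp]
    exact Submodule.map_comap_subtype S (LinearMap.ker φ)
  refine ⟨?_, ?_, ?_⟩
  · have h1 := VB.deg_exact_le (E.sub S) ((E.sub S).sub (LinearMap.ker ψ)) (line D)
      (LinearMap.ker ψ).subtype ψ
      (Submodule.injective_subtype _) hsurj (Submodule.range_subtype _)
      (fun P x hx => hx) (fun P x hx => h P x x.2 hx)
    rwa [VB.deg_line, VB.deg_sub_sub, hT] at h1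
  · have h1 := LinearMap.finrank_range_add_finrank_ker ψ
    rw [LinearMap.range_eq_top.2 hsurj, finrank_top, finrank_self] at h1
    rw [← hT, Submodule.finrank_map_subtype_eq]
    omega
  · intro V hV
    have hfin : Module.Finite k V := Submodule.finiteDimensional_of_le hV
    have hfin2 : Module.Finite k ↥(V ⊓ S.restrictScalars k) :=
      Submodule.finiteDimensional_of_le (inf_le_left : V ⊓ S.restrictScalars k ≤ V)
    let g : ↥(V ⊓ S.restrictScalars k) →ₗ[k] K :=
      (φ.restrictScalars k) ∘ₗ (V ⊓ S.restrictScalars k).subtype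
    have h1 := LinearMap.finrank_range_add_finrank_ker g
    have h2 : LinearMap.range g ≤ (line D).H0 := by
      rintro _ ⟨x, rfl⟩
      rw [VB.mem_H0]
      intro P
      exact h P _ x.2.2 (VB.mem_H0.1 (hV x.2.1) P)
    have h3 : finrank k (LinearMap.range g) ≤ finrank k (line D).H0 := Submodule.finrank_mono h2
    have h4 : LinearMap.ker g =
        Submodule.comap (V ⊓ S.restrictScalars k).subtype
          ((LinearMap.ker φ).restrictScalars k) := by
      ext x
      rfl
    have h6 : V ⊓ (S ⊓ LinearMap.ker φ).restrictScalars k =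
        (V ⊓ S.restrictScalars k) ⊓ (LinearMap.ker φ).restrictScalars k := by
      rw [inf_assoc]
      rfl
    have h5 : finrank k (LinearMap.ker g) = vd V (S ⊓ LinearMap.ker φ) := by
      unfold vd
      have h7 : V ⊓ (S ⊓ LinearMap.ker φ).restrictScalars k =
          (LinearMap.ker g).map (V ⊓ S.restrictScalars k).subtype := by
        rw [h6, h4, Submodule.map_comap_subtype]
      rw [h7]
      exact (Submodule.finrank_map_subtype_eq (V ⊓ S.restrictScalars k) (LinearMap.ker g)).symm
    unfold VB.h0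
    unfold vd at h5 ⊢
    omega

end Pool.Agent.MP_09eaec.GG
end

section

/-!
# TASK QuoSub: quotients of quotients

* `deg_quo_sub`: `J ≤ W`, `J' ≤ W ⧸ J`, `T = J'.comap J.mkQ ≥ J`. Exact sequence `0 → J → T → J' → 0` (`Submodule.inclusion`, the
  restriction of `J.mkQ` to `T`): `VB.deg_exact` for `E.sub T` with `E1 = E.sub J`, `E2 = (E.quo J).sub J'` (an element of
  `(E.quo J).M P` is `J.mkQ x` with `x ∈ E.M P`, and `x ∈ T` if it is in `J'`).
* `finrank_comap_mkQ`: rank-nullity for the same sequence.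
-/

set_option autoImplicit false

namespace Pool.Agent.MP_09eaec.GG

open Module

universe u v

variable {k : Type u} {K : Type v} [Field k] [Field K] [Algebra k K]
variable {W : Type v} [AddCommGroup W] [Module K W] [Module k W] [IsScalarTower k K W]

variable [CurveG k K]

omit [CurveG k K] [Module k W] [IsScalarTower k K W] [Algebra k K] in
private theorem QuoSub_aux (J : Submodule K W) (J' : Submodule K (W ⧸ J)) :
    ∃ (i : J →ₗ[K] ↥(J'.comap J.mkQ)) (p : ↥(J'.comap J.mkQ) →ₗ[K] J'),
      Function.Injective i ∧ Function.Surjective p ∧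
      LinearMap.range i = LinearMap.ker p ∧
      (∀ x : J, ((i x : ↥(J'.comap J.mkQ)) : W) = x) ∧
      (∀ x : ↥(J'.comap J.mkQ), ((p x : J') : W ⧸ J) = J.mkQ (x : W)) := by
  have hJT : J ≤ J'.comap J.mkQ := by
    intro x hx
    rw [Submodule.mem_comap, Submodule.mkQ_apply, (Submodule.Quotient.mk_eq_zero J).2 hx]
    exact J'.zero_mem
  refine ⟨Submodule.inclusion hJT,
    (J.mkQ ∘ₗ (J'.comap J.mkQ).subtype).codRestrict J' (fun x => x.2),
    Submodule.inclusion_injective hJT, ?_, ?_, fun _ => rfl, fun _ => rfl⟩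
  · rintro ⟨y, hy⟩
    obtain ⟨x, rfl⟩ := J.mkQ_surjective y
    exact ⟨⟨x, hy⟩, Subtype.ext rfl⟩
  · ext x
    rw [LinearMap.mem_range, LinearMap.mem_ker]
    constructor
    · rintro ⟨y, rfl⟩
      apply Subtype.ext
      show J.mkQ (y : W) = 0
      rw [Submodule.mkQ_apply]
      exact (Submodule.Quotient.mk_eq_zero J).2 y.2
    · intro hx
      have h1 : J.mkQ (x : W) = 0 := congrArg Subtype.val hx
      rw [Submodule.mkQ_apply] at h1
      exact ⟨⟨x, (Submodule.Quotient.mk_eq_zero J).1 h1⟩, Subtype.ext rfl⟩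

theorem deg_quo_sub [FiniteDimensional K W] (E : VB k K W) (J : Submodule K W)
    (J' : Submodule K (W ⧸ J)) :
    (E.sub (J'.comap J.mkQ)).deg = (E.sub J).deg + ((E.quo J).sub J').deg := by
  obtain ⟨i, p, hi, hp, hip, h1, h2⟩ := QuoSub_aux J J'
  refine VB.deg_exact (E.sub (J'.comap J.mkQ)) (E.sub J) ((E.quo J).sub J') i p hi hp hip
    (fun P x => ?_) (fun P y => ?_)
  · rw [VB.mem_sub, VB.mem_sub, h1]
  · rw [VB.mem_sub, VB.mem_quo]
    constructor
    · rintro ⟨x, hx, hxy⟩
      have hxT : x ∈ J'.comap J.mkQ := by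
        rw [Submodule.mem_comap, hxy]
        exact y.2
      exact ⟨⟨x, hxT⟩, hx, Subtype.ext ((h2 ⟨x, hxT⟩).trans hxy)⟩
    · rintro ⟨x, hx, rfl⟩
      exact ⟨(x : W), hx, (h2 x).symm⟩

omit [CurveG k K] [Module k W] [IsScalarTower k K W] [Algebra k K] in
theorem finrank_comap_mkQ [FiniteDimensional K W] (J : Submodule K W)
    (J' : Submodule K (W ⧸ J)) :
    finrank K ↥(J'.comap J.mkQ) = finrank K J + finrank K J' := by
  obtain ⟨i, p, hi, hp, hip, -, -⟩ := QuoSub_aux J J'
  have h := LinearMap.finrank_range_add_finrank_ker p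
  rw [LinearMap.range_eq_top.2 hp, finrank_top, ← hip, LinearMap.finrank_range_of_inj hi] at h
  rw [← h, add_comm]

end Pool.Agent.MP_09eaec.GG
end
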