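import Pool.Agent.Lib.MP_09eaec_ag.Mg.G003
import Pool.Agent.Lib.MP_09eaec_ag.Mg.G002

section

/-!
# TASK A12: subbundles of extensions

`X = ext E F u` with generic fibre `A × B`.
* `deg_ext`: `deg_exact` for `LinearMap.inl`, `LinearMap.snd` (`(x, 0) ∈ X.M P ↔ x ∈ E.M P`; for
  `b ∈ F.M P` the vector `(u P b, b)` is in `X.M P`).
* `ext_sub`: `J ≤ A × B`; `JA = J.comap (inl)`, `JB = J.map (snd)`. Let `p : J → JB` be the surjection
  `(a, b) ↦ b` and `F'` the image of `X.sub J` under `p` (`exists_image`). `F' ≤ F.sub JB`. The map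
  `i : JA → J`, `a ↦ (a, 0)` is injective with range `ker p`; `deg_exact`. The map `J → A ⧸ JA`,
  `(a, b) ↦ [a]` kills `ker p`, so it factors through a linear map `σ : JB → A ⧸ JA`
  (e.g. by `(ker p).liftQ` and `p.quotKerEquivOfSurjective`). For `b ∈ F'.M P` there is `a` with
  `(a, b) ∈ J ∩ X.M P`, so `a - u P b ∈ E.M P` and `[u P b] - σ b = -[a - u P b] ∈ (E.quo JA).M P`.
-/

set_option autoImplicit false

namespace Pool.Agent.MP_09eaec.GG

open Module

universe u v

variable {k : Type u} {K : Type v} [Field k] [Field K] [Algebra k K]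
variable {W : Type v} [AddCommGroup W] [Module K W] [Module k W] [IsScalarTower k K W]
variable {A : Type v} [AddCommGroup A] [Module K A] [Module k A] [IsScalarTower k K A]
variable {B : Type v} [AddCommGroup B] [Module K B] [Module k B] [IsScalarTower k K B]

variable [CurveG k K]

private def ExtP (J : Submodule K (A × B)) : J →ₗ[K] J.map (LinearMap.snd K A B) :=
  (LinearMap.snd K A B).submoduleMap J

private def ExtI (J : Submodule K (A × B)) : J.comap (LinearMap.inl K A B) →ₗ[K] J :=
  (LinearMap.inl K A B ∘ₗ (J.comap (LinearMap.inl K A B)).subtype).codRestrict J (fun a => a.2)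

private lemma ExtP_apply (J : Submodule K (A × B)) (x : J) :
    ((ExtP J x : J.map (LinearMap.snd K A B)) : B) = (x : A × B).2 := rfl

private lemma ExtI_apply (J : Submodule K (A × B)) (a : J.comap (LinearMap.inl K A B)) :
    ((ExtI J a : J) : A × B) = ((a : A), (0 : B)) := rfl

private lemma ExtP_surj (J : Submodule K (A × B)) : Function.Surjective (ExtP J) :=
  LinearMap.submoduleMap_surjective _ _

private lemma ExtI_inj (J : Submodule K (A × B)) : Function.Injective (ExtI J) := by
  intro a b h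
  have h1 : ((ExtI J a : J) : A × B) = ((ExtI J b : J) : A × B) := by rw [h]
  rw [ExtI_apply, ExtI_apply] at h1
  exact Subtype.ext (Prod.ext_iff.1 h1).1

private lemma Ext_range_ker (J : Submodule K (A × B)) :
    LinearMap.range (ExtI J) = LinearMap.ker (ExtP J) := by
  ext x
  rw [LinearMap.mem_range, LinearMap.mem_ker]
  constructor
  · rintro ⟨a, rfl⟩
    apply Subtype.ext
    rw [ExtP_apply, ExtI_apply]
    rfl
  · intro h
    have h1 : (x : A × B).2 = 0 := by
      rw [← ExtP_apply, h]; rfl
    have h2 : ((x : A × B).1, (0 : B)) = (x : A × B) := Prod.ext rfl h1.symm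
    refine ⟨⟨(x : A × B).1, ?_⟩, ?_⟩
    · rw [Submodule.mem_comap]
      show ((x : A × B).1, (0 : B)) ∈ J
      rw [h2]; exact x.2
    · apply Subtype.ext
      rw [ExtI_apply]
      exact h2

theorem deg_ext [FiniteDimensional K A] [FiniteDimensional K B] (E : VB k K A) (F : VB k K B)
    (u : Place k K →₀ (B →ₗ[K] A)) : (ext E F u).deg = E.deg + F.deg := by
  refine VB.deg_exact (ext E F u) E F (LinearMap.inl K A B) (LinearMap.snd K A B)
    LinearMap.inl_injective LinearMap.snd_surjective ?_ ?_ ?_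
  · rw [LinearMap.range_inl]
  · intro P x
    rw [mem_ext]
    constructor
    · rintro ⟨_, h⟩
      simpa using h
    · intro h
      exact ⟨by simp, by simpa using h⟩
  · intro P y
    constructor
    · intro h
      exact ⟨(u P y, y), mem_ext.2 ⟨h, by simp⟩, rfl⟩
    · rintro ⟨x, hx, rfl⟩
      exact (mem_ext.1 hx).1

theorem ext_sub [FiniteDimensional K A] [FiniteDimensional K B] (E : VB k K A) (F : VB k K B)
    (u : Place k K →₀ (B →ₗ[K] A)) (J : Submodule K (A × B)) :
    ∃ F' : VB k K (J.map (LinearMap.snd K A B)),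
      F' ≤ F.sub (J.map (LinearMap.snd K A B)) ∧
      ((ext E F u).sub J).deg = (E.sub (J.comap (LinearMap.inl K A B))).deg + F'.deg ∧
      Null E (J.comap (LinearMap.inl K A B)) F' u := by
  obtain ⟨F', hF'⟩ := VB.exists_image ((ext E F u).sub J) (ExtP J) (ExtP_surj J)
  refine ⟨F', ?_, ?_, ?_⟩
  · intro P y hy
    obtain ⟨x, hx, rfl⟩ := (hF' P y).1 hy
    exact (mem_ext.1 (VB.mem_sub.1 hx)).1
  · refine VB.deg_exact _ _ F' (ExtI J) (ExtP J) (ExtI_inj J) (ExtP_surj J) (Ext_range_ker J) ?_ hF'
    intro P x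
    rw [VB.mem_sub, VB.mem_sub, mem_ext, ExtI_apply]
    constructor
    · rintro ⟨_, h⟩
      simpa using h
    · intro h
      exact ⟨by simp, by simpa using h⟩
  · let τ : J →ₗ[K] (A ⧸ J.comap (LinearMap.inl K A B)) :=
      (J.comap (LinearMap.inl K A B)).mkQ ∘ₗ LinearMap.fst K A B ∘ₗ J.subtype
    have hτ : LinearMap.ker (ExtP J) ≤ LinearMap.ker τ := by
      rw [← Ext_range_ker]
      rintro _ ⟨a, rfl⟩
      rw [LinearMap.mem_ker]
      show (J.comap (LinearMap.inl K A B)).mkQ (a : A) = 0
      rw [Submodule.mkQ_apply, Submodule.Quotient.mk_eq_zero]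
      exact a.2
    let σ : J.map (LinearMap.snd K A B) →ₗ[K] (A ⧸ J.comap (LinearMap.inl K A B)) :=
      (LinearMap.ker (ExtP J)).liftQ τ hτ ∘ₗ
        ((ExtP J).quotKerEquivOfSurjective (ExtP_surj J)).symm.toLinearMap
    have hσ : ∀ x : J, σ (ExtP J x) = τ x := by
      intro x
      have h1 : ((ExtP J).quotKerEquivOfSurjective (ExtP_surj J)).symm (ExtP J x) =
          Submodule.Quotient.mk x := by
        rw [LinearEquiv.symm_apply_eq]
        rfl
      show (LinearMap.ker (ExtP J)).liftQ τ hτ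
        (((ExtP J).quotKerEquivOfSurjective (ExtP_surj J)).symm (ExtP J x)) = τ x
      rw [h1]
      rfl
    refine ⟨σ, ?_⟩
    intro P b hb
    obtain ⟨x, hx, rfl⟩ := (hF' P b).1 hb
    rw [hσ]
    have h2 := (mem_ext.1 (VB.mem_sub.1 hx)).2
    refine VB.mem_quo.2 ⟨-((x : A × B).1 - u P (x : A × B).2), neg_mem h2, ?_⟩
    rw [neg_sub, map_sub]
    rfl

omit [CurveG k K] in
theorem ext_H0_bot {E : VB k K A} {F : VB k K B} (u : Place k K →₀ (B →ₗ[K] A)) (hE : E.H0 = ⊥)
    (hF : F.H0 = ⊥) : (ext E F u).H0 = ⊥ := by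
  rw [eq_bot_iff]
  intro x hx
  rw [VB.mem_H0] at hx
  have h1 : x.2 = 0 := by
    have : x.2 ∈ F.H0 := VB.mem_H0.2 fun P => (mem_ext.1 (hx P)).1
    rwa [hF, Submodule.mem_bot] at this
  have h2 : x.1 = 0 := by
    have : x.1 ∈ E.H0 := VB.mem_H0.2 fun P => by
      have := (mem_ext.1 (hx P)).2
      rwa [h1, map_zero, sub_zero] at this
    rwa [hE, Submodule.mem_bot] at this
  rw [Submodule.mem_bot]
  exact Prod.ext h2 h1

/-- The ranks. -/
theorem finrank_ext_sub [FiniteDimensional K A] [FiniteDimensional K B]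
    (J : Submodule K (A × B)) : finrank K J = finrank K (J.comap (LinearMap.inl K A B)) +
      finrank K (J.map (LinearMap.snd K A B)) := by
  have h1 := LinearMap.finrank_range_add_finrank_ker (ExtP J)
  have h2 : finrank K (LinearMap.range (ExtP J)) = finrank K (J.map (LinearMap.snd K A B)) := by
    rw [LinearMap.range_eq_top.2 (ExtP_surj J), finrank_top]
  have h3 : finrank K (LinearMap.ker (ExtP J)) = finrank K (J.comap (LinearMap.inl K A B)) := by
    rw [← Ext_range_ker, LinearMap.finrank_range_of_inj (ExtI_inj J)]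
  omega

/-- A subspace with `JB = ⊥` is `JA × 0`. -/
theorem eq_map_inl {J : Submodule K (A × B)} (h : J.map (LinearMap.snd K A B) = ⊥) :
    J = (J.comap (LinearMap.inl K A B)).map (LinearMap.inl K A B) := by
  ext x
  rw [Submodule.mem_map]
  constructor
  · intro hx
    have h1 : x.2 = 0 := by
      have : x.2 ∈ J.map (LinearMap.snd K A B) := ⟨x, hx, rfl⟩
      rw [h] at this
      exact (Submodule.mem_bot K).1 this
    have h2 : (x.1, (0 : B)) = x := Prod.ext rfl h1.symm
    refine ⟨x.1, ?_, h2⟩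
    rw [Submodule.mem_comap]
    show (x.1, (0 : B)) ∈ J
    rw [h2]; exact hx
  · rintro ⟨a, ha, rfl⟩
    exact ha

/-- A subspace with `JA = ⊤`, `JB = ⊤` is everything. -/
theorem eq_top_of {J : Submodule K (A × B)} (h : J.comap (LinearMap.inl K A B) = ⊤)
    (h' : J.map (LinearMap.snd K A B) = ⊤) : J = ⊤ := by
  rw [eq_top_iff]
  rintro x -
  have h1 : x.2 ∈ J.map (LinearMap.snd K A B) := by rw [h']; trivial
  obtain ⟨y, hy, hyx⟩ := h1
  have h2 : x.1 - y.1 ∈ J.comap (LinearMap.inl K A B) := by rw [h]; trivial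
  have h3 : ((x.1 - y.1, (0 : B)) : A × B) ∈ J := h2
  have h4 : x = (x.1 - y.1, (0 : B)) + y := by
    refine Prod.ext ?_ ?_
    · simp
    · simp only [Prod.snd_add, zero_add]
      exact hyx.symm
  rw [h4]
  exact add_mem h3 hy

/-- A subspace with `JA = ⊥`, `JB = ⊥` is zero. -/
theorem eq_bot_of {J : Submodule K (A × B)} (h : J.comap (LinearMap.inl K A B) = ⊥)
    (h' : J.map (LinearMap.snd K A B) = ⊥) : J = ⊥ := by
  rw [eq_map_inl h', h, Submodule.map_bot]

end Pool.Agent.MP_09eaec.GG
end

section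

/-!
# TASK A10: the degree of the bundle of homomorphisms (upper bound)

`deg (hom F E) ≤ rank F * deg E - rank E * deg F`. Induction on `finrank A + finrank B` (generalised
over `A`, `B`).
* `finrank A = 0` or `finrank B = 0`: `B →ₗ[K] A` has rank `0`, all degrees which occur are `0`.
* both `1`: by isomorphisms `A ≃ K`, `B ≃ K` we may assume `E = line D'`, `F = line D`; the isomorphism
  `(K →ₗ[K] K) ≃ K`, `f ↦ f 1` carries `hom (line D) (line D')` to `line (D' - D)`
  (`f x = x f 1`; take `x` of order `-D P`, `mem_filt_iff_of_ord`).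
* `finrank A ≥ 2`: let `J ≤ A` be a subspace of rank `1`. Exact sequence
  `0 → (B → J) → (B → A) → (B → A ⧸ J) → 0` (`LinearMap.compRight` with `J.subtype` and `J.mkQ`;
  surjective since `B` is projective), and `deg_exact_le` with `E1 = hom F (E.sub J)`,
  `E2 = hom F (E.quo J)`; `deg_add`.
* `finrank B ≥ 2`: `J ≤ B` of rank `1`: `0 → (B ⧸ J → A) → (B → A) → (J → A) → 0`
  (`LinearMap.lcomp` with `J.mkQ` and `J.subtype`), `E1 = hom (F.quo J) E` , `E2 = hom (F.sub J) E`.
`N_hom_ne_top`: otherwise `h1 (hom F E) = 0` (`h1_eq_zero_iff`) and `rr` gives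
`0 ≤ h0 = deg (hom F E) - finrank B * finrank A < 0`.
-/

set_option autoImplicit false

namespace Pool.Agent.MP_09eaec.GG

open Module

universe u v

variable {k : Type u} {K : Type v} [Field k] [Field K] [Algebra k K]
variable {W : Type v} [AddCommGroup W] [Module K W] [Module k W] [IsScalarTower k K W]
variable {A : Type v} [AddCommGroup A] [Module K A] [Module k A] [IsScalarTower k K A]
variable {B : Type v} [AddCommGroup B] [Module K B] [Module k B] [IsScalarTower k K B]

variable [CurveG k K]

private lemma hom_line_line_aux (D D' : Dv k K) : ∃ f : (K →ₗ[K] K) ≃ₗ[K] K, (∀ g, f g = g 1) ∧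
    (hom (line D) (line D')).map f = line (D' - D) := by
  refine ⟨LinearMap.ringLmapEquivSelf K K K, fun g => rfl, VB.ext' fun P x => ?_⟩
  rw [VB.mem_map, mem_hom, mem_line]
  have hval : ∀ b : K, ((LinearMap.ringLmapEquivSelf K K K).symm x) b = b * x := fun b => by
    simp
  constructor
  · intro h
    obtain ⟨t, ht, htm⟩ := exists_ord_eq P (-D P)
    have h1 := h t (Or.inr htm.ge)
    rw [hval, mem_line] at h1
    rw [← mem_filt_iff_of_ord P ht htm]
    convert h1 using 2
    rw [Finsupp.sub_apply]; ring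
  · intro h b hb
    rw [hval, mem_line]
    have := mul_mem_filt P (mem_line.1 hb) h
    convert this using 2
    rw [Finsupp.sub_apply]; ring

private lemma hom_map_aux [FiniteDimensional K A] [FiniteDimensional K B] (F : VB k K B)
    (E : VB k K A) (fB : B ≃ₗ[K] K) (fA : A ≃ₗ[K] K) :
    (hom F E).map (LinearEquiv.arrowCongr fB fA) = hom (F.map fB) (E.map fA) := by
  refine VB.ext' fun P g => ?_
  rw [VB.mem_map, mem_hom, mem_hom]
  have hval : ∀ b : B, ((LinearEquiv.arrowCongr fB fA).symm g) b = fA.symm (g (fB b)) :=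
    fun b => rfl
  constructor
  · intro h b hb
    rw [VB.mem_map] at hb ⊢
    have := h _ hb
    rwa [hval, fB.apply_symm_apply] at this
  · intro h b hb
    have := h (fB b) (by rw [VB.mem_map, fB.symm_apply_apply]; exact hb)
    rw [VB.mem_map] at this
    rwa [hval]

private lemma deg_hom_le_one [FiniteDimensional K A] [FiniteDimensional K B] (F : VB k K B)
    (E : VB k K A) (hA : finrank K A = 1) (hB : finrank K B = 1) :
    (hom F E).deg = E.deg - F.deg := by
  have fA : A ≃ₗ[K] K := LinearEquiv.ofFinrankEq A K (by rw [finrank_self, hA])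
  have fB : B ≃ₗ[K] K := LinearEquiv.ofFinrankEq B K (by rw [finrank_self, hB])
  obtain ⟨D', hD'⟩ := exists_eq_line (E.map fA)
  obtain ⟨D, hD⟩ := exists_eq_line (F.map fB)
  obtain ⟨f, -, hf⟩ := hom_line_line_aux D D'
  rw [← VB.deg_map (hom F E) (LinearEquiv.arrowCongr fB fA), hom_map_aux, hD, hD',
    ← VB.deg_map _ f, hf, VB.deg_line, ← VB.deg_map E fA, hD', ← VB.deg_map F fB, hD,
    VB.deg_line, VB.deg_line, ddeg_sub]

private lemma deg_hom_left [FiniteDimensional K A] [FiniteDimensional K B] (F : VB k K B)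
    (E : VB k K A) (J : Submodule K A) :
    (hom F E).deg ≤ (hom F (E.sub J)).deg + (hom F (E.quo J)).deg := by
  obtain ⟨s, hs⟩ := J.mkQ.exists_rightInverse_of_surjective (LinearMap.range_eq_top.2
    J.mkQ_surjective)
  refine VB.deg_exact_le (hom F E) (hom F (E.sub J)) (hom F (E.quo J))
    (LinearMap.compRight K J.subtype) (LinearMap.compRight K J.mkQ) ?_ ?_ ?_ ?_ ?_
  · intro f g hfg
    ext b
    exact congrArg (fun u : B →ₗ[K] A => u b) hfg
  · intro f
    refine ⟨s ∘ₗ f, ?_⟩
    ext b
    exact congrArg (fun u : (A ⧸ J) →ₗ[K] (A ⧸ J) => u (f b)) hs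
  · ext f
    rw [LinearMap.mem_range, LinearMap.mem_ker]
    constructor
    · rintro ⟨g, rfl⟩
      ext b
      exact (Submodule.Quotient.mk_eq_zero J).2 (g b).2
    · intro h
      refine ⟨f.codRestrict J fun b => ?_, ?_⟩
      · have := congrArg (fun u : B →ₗ[K] (A ⧸ J) => u b) h
        exact (Submodule.Quotient.mk_eq_zero J).1 this
      · ext b; rfl
  · intro P x hx b hb
    exact hx b hb
  · intro P x hx b hb
    exact ⟨x b, hx b hb, rfl⟩

private lemma deg_hom_right [FiniteDimensional K A] [FiniteDimensional K B] (F : VB k K B)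
    (E : VB k K A) (J : Submodule K B) :
    (hom F E).deg ≤ (hom (F.quo J) E).deg + (hom (F.sub J) E).deg := by
  refine VB.deg_exact_le (hom F E) (hom (F.quo J) E) (hom (F.sub J) E)
    (LinearMap.lcomp K A J.mkQ) (LinearMap.lcomp K A J.subtype) ?_ ?_ ?_ ?_ ?_
  · intro f g hfg
    ext b
    exact congrArg (fun u : B →ₗ[K] A => u b) hfg
  · intro f
    obtain ⟨g, hg⟩ := f.exists_extend
    exact ⟨g, hg⟩
  · ext f
    rw [LinearMap.mem_range, LinearMap.mem_ker]
    constructor
    · rintro ⟨g, rfl⟩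
      ext b
      show g (J.mkQ b) = 0
      rw [Submodule.mkQ_apply, (Submodule.Quotient.mk_eq_zero J).2 b.2, map_zero]
    · intro h
      refine ⟨J.liftQ f fun b hb => ?_, ?_⟩
      · have := congrArg (fun u : J →ₗ[K] A => u ⟨b, hb⟩) h
        exact this
      · ext b; rfl
  · intro P x hx b hb
    obtain ⟨y, hy, rfl⟩ := hb
    exact hx y hy
  · intro P x hx b hb
    exact hx b hb

theorem deg_hom_le [FiniteDimensional K A] [FiniteDimensional K B] (F : VB k K B) (E : VB k K A) :
    (hom F E).deg ≤ finrank K B * E.deg - finrank K A * F.deg := by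
  obtain ⟨n, hn⟩ : ∃ n, finrank K A + finrank K B = n := ⟨_, rfl⟩
  induction n using Nat.strong_induction_on generalizing A B with
  | _ n ih =>
    rcases Nat.eq_zero_or_pos (finrank K A) with hA | hA
    · rw [VB.deg_of_finrank_zero _ (by rw [finrank_linearMap, hA, mul_zero]),
        VB.deg_of_finrank_zero E hA, hA]
      simp
    rcases Nat.eq_zero_or_pos (finrank K B) with hB | hB
    · rw [VB.deg_of_finrank_zero _ (by rw [finrank_linearMap, hB, zero_mul]),
        VB.deg_of_finrank_zero F hB, hB]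
      simp
    rcases eq_or_lt_of_le (Nat.succ_le_of_lt hA) with hA1 | hA1
    · rcases eq_or_lt_of_le (Nat.succ_le_of_lt hB) with hB1 | hB1
      · rw [deg_hom_le_one F E hA1.symm hB1.symm, ← hA1, ← hB1]
        simp
      · have : Nontrivial B := by
          apply Module.nontrivial_of_finrank_pos (R := K); omega
        obtain ⟨w, hw⟩ := exists_ne (0 : B)
        have hJ : finrank K (K ∙ w) = 1 := finrank_span_singleton hw
        have hJ2 := Submodule.finrank_quotient_add_finrank (K ∙ w)
        have h1 := deg_hom_right F E (K ∙ w)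
        have h2 := ih _ (by omega) (F.quo (K ∙ w)) E rfl
        have h3 := ih _ (by omega) (F.sub (K ∙ w)) E rfl
        have h4 := VB.deg_add F (K ∙ w)
        rw [hJ] at hJ2 h3
        rw [← hJ2, h4]
        push_cast at h3 ⊢
        linarith
    · have : Nontrivial A := by
        apply Module.nontrivial_of_finrank_pos (R := K); omega
      obtain ⟨w, hw⟩ := exists_ne (0 : A)
      have hJ : finrank K (K ∙ w) = 1 := finrank_span_singleton hw
      have hJ2 := Submodule.finrank_quotient_add_finrank (K ∙ w)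
      have h1 := deg_hom_left F E (K ∙ w)
      have h2 := ih _ (by omega) F (E.quo (K ∙ w)) rfl
      have h3 := ih _ (by omega) F (E.sub (K ∙ w)) rfl
      have h4 := VB.deg_add E (K ∙ w)
      rw [hJ] at hJ2 h3
      rw [← hJ2, h4]
      push_cast at h3 ⊢
      linarith

theorem hom_line_line (D D' : Dv k K) : ∃ f : (K →ₗ[K] K) ≃ₗ[K] K, (∀ g, f g = g 1) ∧
    (hom (line D) (line D')).map f = line (D' - D) := hom_line_line_aux D D'

theorem N_hom_ne_top' [FiniteDimensional K A] [FiniteDimensional K B] (F : VB k K B) (E : VB k K A)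
    (h : (finrank K B : ℤ) * E.deg - finrank K A * F.deg <
      (gen k K - 1) * (finrank K B * finrank K A)) :
    (hom F E).N ≠ ⊤ := by
  intro hN
  have h1 := (VB.h1_eq_zero_iff _).2 hN
  have h2 := VB.rr (hom F E)
  have h3 := VB.h0_nonneg (hom F E)
  have h4 := deg_hom_le F E
  rw [finrank_linearMap, h1] at h2
  push_cast at h2
  linarith

theorem N_hom_ne_top [FiniteDimensional K A] [FiniteDimensional K B] (F : VB k K B) (E : VB k K A)
    (h : (finrank K B : ℤ) * E.deg - finrank K A * F.deg < finrank K B * finrank K A) :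
    (hom F E).N ≠ ⊤ := by
  refine N_hom_ne_top' F E (lt_of_lt_of_le h ?_)
  have h1 := CurveG.two_le (k := k) (K := K)
  have h2 : (0 : ℤ) ≤ finrank K B * finrank K A := by positivity
  nlinarith

end Pool.Agent.MP_09eaec.GG
end

section

/-!
# TASK A13: generic extension classes

* `null_iff`: `Null E J F u` iff the family `P ↦ J.mkQ ∘ u P ∘ L.subtype` (`Finsupp.mapRange` of the
  linear map `restr J L`) is in `N (hom F (E.quo J))` (unfold; `mem_hom`).
* `exists_generic`: for each `i` the set `{u | Null E (J i) (F i) u}` is the preimage of the submodule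
  `N (hom (F i) (E.quo (J i)))` under the `k`-linear map `Finsupp.mapRange (restr (J i) (L i))`, which is
  surjective (`restr J L : (B →ₗ A) → (L →ₗ A ⧸ J)` is a surjective linear map: extend
  `f : L → A ⧸ J` to `B` by `LinearMap.exists_extend` and lift along `J.mkQ` by a right inverse of
  `mkQ`, `LinearMap.exists_rightInverse_of_surjective`). So it is not `⊤`. `k` is infinite
  (algebraically closed: `IsAlgClosed.instInfinite`), so finitely many proper subspaces do not
  cover (`Subspace.exists_eq_top_of_iUnion_eq_univ` or a similar name).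
-/

set_option autoImplicit false

namespace Pool.Agent.MP_09eaec.GG

open Module

universe u v

variable {k : Type u} {K : Type v} [Field k] [Field K] [Algebra k K]
variable {W : Type v} [AddCommGroup W] [Module K W] [Module k W] [IsScalarTower k K W]
variable {A : Type v} [AddCommGroup A] [Module K A] [Module k A] [IsScalarTower k K A]
variable {B : Type v} [AddCommGroup B] [Module K B] [Module k B] [IsScalarTower k K B]

variable [CurveG k K]

/-- `f ↦ J.mkQ ∘ f ∘ L.subtype`, as a `k`-linear map. -/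
def restr (k : Type u) {K : Type v} [Field k] [Field K] [Algebra k K]
    {A : Type v} [AddCommGroup A] [Module K A] [Module k A] [IsScalarTower k K A]
    {B : Type v} [AddCommGroup B] [Module K B] [Module k B] [IsScalarTower k K B]
    (J : Submodule K A) (L : Submodule K B) : (B →ₗ[K] A) →ₗ[k] (L →ₗ[K] (A ⧸ J)) where
  toFun f := J.mkQ ∘ₗ f ∘ₗ L.subtype
  map_add' f g := by ext x; simp
  map_smul' c f := by
    ext x
    simp only [LinearMap.comp_apply, LinearMap.smul_apply, RingHom.id_apply]
    exact LinearMap.map_smul_of_tower _ _ _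

private lemma Generic_restr_surjective (J : Submodule K A) (L : Submodule K B) :
    Function.Surjective (restr k J L) := by
  intro f
  obtain ⟨g, hg⟩ := f.exists_extend
  obtain ⟨r, hr⟩ := LinearMap.exists_rightInverse_of_surjective J.mkQ J.range_mkQ
  refine ⟨r ∘ₗ g, ?_⟩
  ext x
  show J.mkQ (r (g (x : B))) = f x
  have h1 : J.mkQ (r (g (x : B))) = g (x : B) := LinearMap.congr_fun hr (g (x : B))
  rw [h1]
  exact LinearMap.congr_fun hg x

theorem null_iff [FiniteDimensional K A] [FiniteDimensional K B] (E : VB k K A)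
    (J : Submodule K A) {L : Submodule K B} (F : VB k K L) (u : Place k K →₀ (B →ₗ[K] A)) :
    Null E J F u ↔ u.mapRange (restr k J L) (map_zero _) ∈ (hom F (E.quo J)).N := by
  constructor
  · rintro ⟨σ, hσ⟩
    exact ⟨σ, fun P b hb => hσ P b hb⟩
  · rintro ⟨σ, hσ⟩
    exact ⟨σ, fun P b hb => hσ P b hb⟩

theorem exists_generic [FiniteDimensional K A] [FiniteDimensional K B] (E : VB k K A)
    {ι : Type*} [Finite ι] (J : ι → Submodule K A) (L : ι → Submodule K B)
    (F : ∀ i, VB k K (L i)) (h : ∀ i, (hom (F i) (E.quo (J i))).N ≠ ⊤) :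
    ∃ u : Place k K →₀ (B →ₗ[K] A), ∀ i, ¬ Null E (J i) (F i) u := by
  haveI := Curve.closed (k := k) (K := K)
  haveI : Infinite k := IsAlgClosed.instInfinite
  by_contra hcon
  push Not at hcon
  let S : ι → Submodule k (Place k K →₀ (B →ₗ[K] A)) := fun i =>
    ((hom (F i) (E.quo (J i))).N).comap (Finsupp.mapRange.linearMap (restr k (J i) (L i)))
  have hS : ⋃ i, (S i : Set (Place k K →₀ (B →ₗ[K] A))) = Set.univ := by
    rw [Set.eq_univ_iff_forall]
    intro u
    obtain ⟨i, hi⟩ := hcon u
    exact Set.mem_iUnion.2 ⟨i, (null_iff E (J i) (F i) u).1 hi⟩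
  obtain ⟨i, hi⟩ := Subspace.exists_eq_top_of_iUnion_eq_univ hS
  apply h i
  rw [eq_top_iff]
  intro a _
  obtain ⟨u, rfl⟩ := Finsupp.mapRange_surjective _ (map_zero (restr k (J i) (L i)))
    (Generic_restr_surjective (J i) (L i)) a
  have : u ∈ S i := by rw [hi]; trivial
  exact this

/-- `Null` for a smaller subsheaf and a smaller quotient. -/
theorem Null.mono {E : VB k K A} {J J' : Submodule K A} {L : Submodule K B} {F F' : VB k K L}
    {u : Place k K →₀ (B →ₗ[K] A)} (h : Null E J F u) (hJ : J ≤ J') (hF : F' ≤ F) :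
    Null E J' F' u := by
  obtain ⟨σ, hσ⟩ := h
  refine ⟨Submodule.factor hJ ∘ₗ σ, fun P b hb => ?_⟩
  obtain ⟨y, hy, hy'⟩ := hσ P b (hF P hb)
  refine ⟨y, hy, ?_⟩
  have h1 := congrArg (Submodule.factor hJ) hy'
  rw [map_sub] at h1
  exact h1

end Pool.Agent.MP_09eaec.GG
end

section

/-!
# TASK B8: `Null` for line bundles

* `null_ker_iff`: `q` maps `X` onto `O(G')` (stalk by stalk), `u P : K → A`. `A ⧸ ker q ≃ K`
  (`q.quotKerEquivOfSurjective`; `q ≠ 0` since `line G'` has nonzero elements) carries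
  `X.quo (ker q)` to `line G'`. A linear map `σ : ⊤ → A ⧸ ker q` is `b ↦ b σ0`, i.e. corresponds to `w : K`.
  The condition `q (u_P b) - w b ∈ P.filt (-G' P)` for all `b ∈ P.filt (-D P)` is equivalent to
  `q (u_P 1) - w ∈ P.filt (-(G' - D) P)` (`mem_filt_iff_of_ord`, take `b` of order `-D P`).
* `sub_top_line`: a bundle `F'` on `⊤ ≤ K` with `F' ≤ (line G).sub ⊤` is `(line D').sub ⊤` with `D' ≤ G`
  (`exists_eq_line` and the isomorphism `⊤ ≃ K`); if `F'.deg = ddeg G - 1` then `D' = G - single P 1`.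
-/

set_option autoImplicit false

namespace Pool.Agent.MP_09eaec.GG

open Module

universe u v

variable {k : Type u} {K : Type v} [Field k] [Field K] [Algebra k K]
variable {W : Type v} [AddCommGroup W] [Module K W] [Module k W] [IsScalarTower k K W]
variable {A : Type v} [AddCommGroup A] [Module K A] [Module k A] [IsScalarTower k K A]
variable {B : Type v} [AddCommGroup B] [Module K B] [Module k B] [IsScalarTower k K B]

variable [CurveG k K]

private theorem IntNull_surj (X : VB k K A) (q : A →ₗ[K] K) (G' : Dv k K)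
    (hq : ∀ P y, y ∈ (line G').M P ↔ ∃ x ∈ X.M P, q x = y) : Function.Surjective q := by
  haveI := infinite_places (k := k) (K := K)
  obtain ⟨P⟩ : Nonempty (Place k K) := inferInstance
  obtain ⟨t, ht0, ht⟩ := exists_ord_eq P (-G' P)
  obtain ⟨x, _, hx⟩ := (hq P t).mp (Or.inr ht.ge)
  intro w
  refine ⟨(w / t) • x, ?_⟩
  rw [map_smul, hx, smul_eq_mul, div_mul_cancel₀ _ ht0]

private theorem IntNull_mem (X : VB k K A) (q : A →ₗ[K] K) (G' : Dv k K)
    (hq : ∀ P y, y ∈ (line G').M P ↔ ∃ x ∈ X.M P, q x = y) (P : Place k K)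
    (z : A ⧸ LinearMap.ker q) :
    z ∈ (X.quo (LinearMap.ker q)).M P ↔
      (LinearMap.ker q).liftQ q le_rfl z ∈ (line G').M P := by
  rw [VB.mem_quo, hq]
  constructor
  · rintro ⟨y, hy, rfl⟩
    exact ⟨y, hy, rfl⟩
  · rintro ⟨y, hy, hz⟩
    obtain ⟨a, rfl⟩ := (LinearMap.ker q).mkQ_surjective z
    refine ⟨y, hy, ?_⟩
    have h1 : q y = q a := hz
    rw [Submodule.mkQ_apply, Submodule.mkQ_apply, Submodule.Quotient.eq, LinearMap.mem_ker,
      map_sub, h1, sub_self]

theorem null_ker_iff [FiniteDimensional K A] (X : VB k K A) (q : A →ₗ[K] K) (G' D : Dv k K)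
    (hq : ∀ P y, y ∈ (line G').M P ↔ ∃ x ∈ X.M P, q x = y) (u : Place k K →₀ (K →ₗ[K] A)) :
    Null X (LinearMap.ker q) ((line D).sub (⊤ : Submodule K K)) u ↔
      u.mapRange (fun f => q (f 1)) (by simp) ∈ (line (G' - D)).N := by
  classical
  constructor
  · rintro ⟨σ, hσ⟩
    rw [VB.mem_N]
    refine ⟨(LinearMap.ker q).liftQ q le_rfl (σ ⟨1, Submodule.mem_top⟩), fun P => ?_⟩
    obtain ⟨t, ht0, ht⟩ := exists_ord_eq P (-D P)
    have h1 := hσ P ⟨t, Submodule.mem_top⟩ (Or.inr ht.ge)
    rw [IntNull_mem X q G' hq, map_sub] at h1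
    have h2 : (LinearMap.ker q).liftQ q le_rfl ((LinearMap.ker q).mkQ (u P t)) = t * q (u P 1) := by
      show q (u P t) = t * q (u P 1)
      have h3 : u P t = t • u P 1 := by rw [← map_smul, smul_eq_mul, mul_one]
      rw [h3, map_smul, smul_eq_mul]
    have h4 : (⟨t, Submodule.mem_top⟩ : (⊤ : Submodule K K)) =
        t • ⟨1, Submodule.mem_top⟩ := Subtype.ext (by
      show t = t * 1
      rw [mul_one])
    have h5 : (LinearMap.ker q).liftQ q le_rfl (σ ⟨t, Submodule.mem_top⟩) =
        t * (LinearMap.ker q).liftQ q le_rfl (σ ⟨1, Submodule.mem_top⟩) := by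
      rw [h4, map_smul, map_smul, smul_eq_mul]
    rw [h2, h5, ← mul_sub, mem_line] at h1
    rw [mem_line, Finsupp.mapRange_apply, ← mem_filt_iff_of_ord P ht0 ht]
    have h6 : -(G' - D : Dv k K) P + -D P = -G' P := by
      rw [Finsupp.sub_apply]
      ring
    rw [h6]
    exact h1
  · rintro ⟨w, hw⟩
    obtain ⟨a, ha⟩ := IntNull_surj X q G' hq w
    refine ⟨(LinearMap.toSpanSingleton K _ ((LinearMap.ker q).mkQ a)) ∘ₗ
      (⊤ : Submodule K K).subtype, fun P b hb => ?_⟩
    rw [IntNull_mem X q G' hq, map_sub]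
    have h1 : (LinearMap.ker q).liftQ q le_rfl ((LinearMap.ker q).mkQ (u P (b : K))) =
        (b : K) * q (u P 1) := by
      show q (u P (b : K)) = (b : K) * q (u P 1)
      have h3 : u P (b : K) = (b : K) • u P 1 := by rw [← map_smul, smul_eq_mul, mul_one]
      rw [h3, map_smul, smul_eq_mul]
    have h2 : (LinearMap.ker q).liftQ q le_rfl
        (((LinearMap.toSpanSingleton K _ ((LinearMap.ker q).mkQ a)) ∘ₗ
          (⊤ : Submodule K K).subtype) b) = (b : K) * w := by
      show (LinearMap.ker q).liftQ q le_rfl ((b : K) • (LinearMap.ker q).mkQ a) = (b : K) * w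
      rw [map_smul, smul_eq_mul]
      show (b : K) * q a = (b : K) * w
      rw [ha]
    rw [h1, h2, ← mul_sub]
    have h3 := hw P
    rw [mem_line, Finsupp.mapRange_apply] at h3
    have h4 : (b : K) ∈ P.filt (-D P) := hb
    have h5 := mul_mem_filt P h4 h3
    have h6 : -D P + -(G' - D : Dv k K) P = -G' P := by
      rw [Finsupp.sub_apply]
      ring
    rw [h6] at h5
    exact h5

theorem quo_ker_deg [FiniteDimensional K A] (X : VB k K A) (q : A →ₗ[K] K) (G' : Dv k K)
    (hq : ∀ P y, y ∈ (line G').M P ↔ ∃ x ∈ X.M P, q x = y) :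
    (X.quo (LinearMap.ker q)).deg = ddeg G' ∧ finrank K (A ⧸ LinearMap.ker q) = 1 := by
  have hs := IntNull_surj X q G' hq
  have h1 : (X.quo (LinearMap.ker q)).map (q.quotKerEquivOfSurjective hs) = line G' := by
    refine VB.ext' fun P y => ?_
    rw [VB.mem_map, IntNull_mem X q G' hq]
    have h2 : (LinearMap.ker q).liftQ q le_rfl ((q.quotKerEquivOfSurjective hs).symm y) = y := by
      obtain ⟨z, rfl⟩ := (q.quotKerEquivOfSurjective hs).surjective y
      rw [LinearEquiv.symm_apply_apply]
      rfl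
    rw [h2]
  constructor
  · rw [← VB.deg_map _ (q.quotKerEquivOfSurjective hs), h1, VB.deg_line]
  · rw [LinearEquiv.finrank_eq (q.quotKerEquivOfSurjective hs), finrank_self]

theorem sub_top_line {G : Dv k K} {F' : VB k K (⊤ : Submodule K K)}
    (h : F' ≤ (line G).sub ⊤) (hd : F'.deg = ddeg G - 1) :
    ∃ P : Place k K, F' = (line (G - Finsupp.single P 1)).sub ⊤ := by
  obtain ⟨D', hD'⟩ := exists_eq_line (F'.map (Submodule.topEquiv : (⊤ : Submodule K K) ≃ₗ[K] K))
  have hF : F' = (line D').sub ⊤ := by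
    refine VB.ext' fun P x => ?_
    rw [VB.mem_sub, ← hD', VB.mem_map]
    have h1 : (Submodule.topEquiv : (⊤ : Submodule K K) ≃ₗ[K] K).symm (x : K) = x := rfl
    rw [h1]
  have hle : ∀ P, D' P ≤ G P := by
    rw [← line_le_line]
    intro P x hx
    have h1 : (⟨x, Submodule.mem_top⟩ : (⊤ : Submodule K K)) ∈ F'.M P := by
      rw [hF]
      exact hx
    exact h P h1
  have hdD : ddeg D' = ddeg G - 1 := by
    rw [← hd, ← VB.deg_line D', ← hD', VB.deg_map]
  obtain ⟨P, hP⟩ : ∃ P, D' P < G P := by
    by_contra hcon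
    push Not at hcon
    have h1 := ddeg_mono hcon
    omega
  refine ⟨P, ?_⟩
  rw [hF]
  have h2 : D' = G - Finsupp.single P 1 := by
    refine eq_of_ddeg_le (fun Q => ?_) ?_
    · classical
      rw [Finsupp.sub_apply, Finsupp.single_apply]
      split_ifs with hQ
      · rw [← hQ]
        omega
      · have := hle Q
        omega
    · rw [ddeg_sub, ddeg_single, hdD]
  rw [h2]

theorem deg_sub_top_line (G : Dv k K) : ((line G).sub (⊤ : Submodule K K)).deg = ddeg G ∧
    finrank K (⊤ : Submodule K K) = 1 := by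
  constructor
  · rw [VB.deg_sub_top, VB.deg_line]
  · rw [finrank_top, finrank_self]

end Pool.Agent.MP_09eaec.GG
end

section

/-!
# TASK Pw: sums of equal line bundles

`pw D n` on `Fin n → K`, stalks `{x | ∀ i, x i ∈ P.filt (-D P)}`. Degree `n * ddeg D`: induction on `n` with
`deg_exact` for `0 → (Fin n → K) → (Fin (n+1) → K) → K → 0` (`Fin.cons` / coordinate `0`), `deg_line`. See the
proof of `deg_triv` in Lib/MP_09eaec_ag/G2/Triv.lean (the case `D = 0`).
-/

set_option autoImplicit false

namespace Pool.Agent.MP_09eaec.GG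

open Module

universe u v

variable {k : Type u} {K : Type v} [Field k] [Field K] [Algebra k K]
variable {W : Type v} [AddCommGroup W] [Module K W] [Module k W] [IsScalarTower k K W]
variable {A : Type v} [AddCommGroup A] [Module K A] [Module k A] [IsScalarTower k K A]
variable {B : Type v} [AddCommGroup B] [Module K B] [Module k B] [IsScalarTower k K B]

/-- The bundle `O(D)^n`. -/
noncomputable def pw [Curve k K] (D : Dv k K) (n : ℕ) : VB k K (Fin n → K) where
  M P :=
    { carrier := {x | ∀ i, x i ∈ P.filt (-D P)}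
      add_mem' := fun ha hb i => add_mem (ha i) (hb i)
      zero_mem' := fun i => zero_mem _
      smul_mem' := fun c x hx i => (P.filt (-D P)).smul_mem c (hx i) }
  smul_mem P c x hc hx i := by
    have := mul_mem_filt P hc (hx i)
    simpa using this
  lower w := by
    obtain ⟨e, he⟩ := exists_ub (fun i => (-(D + dv (w i)) : Dv k K))
    refine ⟨e, fun P c hc i => ?_⟩
    by_cases hw : w i = 0
    · simp [hw]
    have h1 := mul_mem_filt P hc (Or.inr le_rfl : w i ∈ P.filt (P.ord (w i)))
    refine filt_mono P ?_ h1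
    have := he i P
    simp only [Finsupp.coe_neg, Pi.neg_apply, Finsupp.coe_add, Pi.add_apply, dv_apply] at this
    omega
  upper φ := by
    obtain ⟨e, he⟩ := exists_lb (fun i => (dv (φ (Pi.single i 1)) - D : Dv k K))
    refine ⟨e, fun P x hx => ?_⟩
    have h1 : φ x = ∑ i, x i * φ (Pi.single i 1) := by
      conv_lhs => rw [← Finset.univ_sum_single x, map_sum]
      refine Finset.sum_congr rfl fun i _ => ?_
      have h2 : (Pi.single i (x i) : Fin n → K) = x i • Pi.single i 1 := by
        rw [← Pi.single_smul', smul_eq_mul, mul_one]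
      rw [h2, map_smul, smul_eq_mul]
    rw [h1]
    refine Submodule.sum_mem _ fun i _ => ?_
    have h2 := mul_mem_filt P (hx i)
      (Or.inr le_rfl : φ (Pi.single i 1) ∈ P.filt (P.ord (φ (Pi.single i 1))))
    refine filt_mono P ?_ h2
    have := he i P
    simp only [Finsupp.coe_sub, Pi.sub_apply, dv_apply] at this
    omega

lemma mem_pw [Curve k K] {D : Dv k K} {n : ℕ} {P : Place k K} {x : Fin n → K} :
    x ∈ (pw D n).M P ↔ ∀ i, x i ∈ P.filt (-D P) := Iff.rfl

private def Pw_I (n : ℕ) : (Fin n → K) →ₗ[K] (Fin (n + 1) → K) where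
  toFun x := Fin.cons 0 x
  map_add' x y := by
    funext i
    refine Fin.cases ?_ (fun i => ?_) i
    · simp
    · simp
  map_smul' c x := by
    funext i
    refine Fin.cases ?_ (fun i => ?_) i
    · simp
    · simp

theorem deg_pw [CurveG k K] (D : Dv k K) (n : ℕ) : (pw D n).deg = n * ddeg D := by
  induction n with
  | zero =>
    rw [VB.deg_of_finrank_zero _ (by simp)]
    simp
  | succ n ih =>
    rw [VB.deg_exact (pw D (n + 1)) (pw D n) (line D) (Pw_I n) (LinearMap.proj 0),
      ih, VB.deg_line]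
    · push_cast; ring
    · intro x y h
      funext i
      exact congrFun h i.succ
    · intro y
      exact ⟨fun _ => y, rfl⟩
    · ext x
      rw [LinearMap.mem_range, LinearMap.mem_ker]
      constructor
      · rintro ⟨y, rfl⟩
        rfl
      · intro h
        refine ⟨fun i => x i.succ, ?_⟩
        funext i
        refine Fin.cases ?_ (fun i => ?_) i
        · exact h.symm
        · rfl
    · intro P x
      rw [mem_pw, mem_pw]
      constructor
      · intro h i
        exact h i.succ
      · intro h i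
        refine Fin.cases ?_ (fun i => ?_) i
        · exact zero_mem _
        · exact h i
    · intro P y
      rw [mem_line]
      constructor
      · intro h
        exact ⟨fun _ => y, mem_pw.2 fun _ => h, rfl⟩
      · rintro ⟨x, hx, rfl⟩
        exact mem_pw.1 hx 0

end Pool.Agent.MP_09eaec.GG
end

section

/-!
# TASK SubInl: subbundles of the first summand

`B` is the generic fibre of `F`.
* `deg_sub_inl`: the isomorphism `T ≃ T.map (LinearMap.inl K A B)` (`Submodule.equivMapOfInjective`,
  `LinearMap.inl_injective`) carries `E1.sub T` to `(ext E1 F u).sub (T.map inl)`: `(x, 0) ∈ (ext E1 F u).M P ↔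
  x ∈ E1.M P` (`mem_ext`, `map_zero`, `sub_zero`).
-/

set_option autoImplicit false

namespace Pool.Agent.MP_09eaec.GG

open Module

universe u v

variable {k : Type u} {K : Type v} [Field k] [Field K] [Algebra k K]
variable {W : Type v} [AddCommGroup W] [Module K W] [Module k W] [IsScalarTower k K W]
variable {A : Type v} [AddCommGroup A] [Module K A] [Module k A] [IsScalarTower k K A]
variable {B : Type v} [AddCommGroup B] [Module K B] [Module k B] [IsScalarTower k K B]

variable [CurveG k K]

theorem deg_sub_inl (E1 : VB k K A) (F : VB k K B) (u : Place k K →₀ (B →ₗ[K] A))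
    (T : Submodule K A) :
    ((ext E1 F u).sub (T.map (LinearMap.inl K A B))).deg = (E1.sub T).deg := by
  have h : (E1.sub T).map (Submodule.equivMapOfInjective (LinearMap.inl K A B)
      LinearMap.inl_injective T) = (ext E1 F u).sub (T.map (LinearMap.inl K A B)) := by
    refine VB.ext' fun P x => ?_
    obtain ⟨y, rfl⟩ := (Submodule.equivMapOfInjective (LinearMap.inl K A B)
      LinearMap.inl_injective T).surjective x
    rw [VB.mem_map, VB.mem_sub, VB.mem_sub, mem_ext, LinearEquiv.symm_apply_apply]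
    have e : ((Submodule.equivMapOfInjective (LinearMap.inl K A B)
        LinearMap.inl_injective T y : T.map (LinearMap.inl K A B)) : A × B) = ((y : A), (0 : B)) := rfl
    rw [e]
    constructor
    · intro hy
      exact ⟨by simp, by simpa using hy⟩
    · rintro ⟨_, hy⟩
      simpa using hy
  rw [← h]
  exact VB.deg_map (E1.sub T) _

end Pool.Agent.MP_09eaec.GG
end

section

/-!
# TASK B4: the chain for non integral slopes

`r ≥ 2`, `G` of type `(r, d)` from `hG`, `X` of type `(n, δ)` from `hX`, `r δ - d n = -1`, `e0(ρ, σ) = r σ - d ρ`.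
The new bundle is `X' = ext X G u`.

CONDITIONS on `u` (`exists_generic`): `¬ Null X J (G.sub L) u` for the pairs
 (1) `(J, ⊤)`, `J ∈ X.exc r d` or `J = ⊥`;
 (2) `(⊥, L)`, `L ∈ G.exc r d`.
Admissible by `N_hom_ne_top`: (1) `r deg (X.quo J) - rank (X.quo J) d = e0(X) - e0(X.sub J)` is `0` or `-1`,
and `< r rank (X.quo J)`, the rank is positive (`J ≠ ⊤`; for `J = ⊥` the rank is `n ≥ 1`). (2) `L` has rank
`s ≥ 1`, degree `σ`, `r σ = d s - 1`; `r (s δ - n σ) = s (d n - 1) - n (d s - 1) = n - s`, so
`s δ - n σ ≤ (n - s)/r < n ≤ s n`.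

For `J ≤ A × B`, `J ≠ ⊥`, with `JA, JB, F', t` as in TASK B3 (CoprimeStep.lean):
`e0(X'.sub J) = e0(X.sub JA) + e0(G.sub JB) - r t`; `e0(X.sub JA) ≤ -1` or `JA = ⊥` (value `0`);
`e0(G.sub JB)` is `0` if `JB = ⊥` or `JB = ⊤`, otherwise `≤ -1`; `r t ≥ 2` if `t ≥ 1`.
 * `JA = ⊥`: `JB ≠ ⊥`. `JB = ⊤`, `t = 0`: excluded by (1) with `J = ⊥`. `JB = ⊤`, `t ≥ 1`: `≤ -2`. `JB` proper:
   `≤ -1`, and `= -1` only if `t = 0`, `JB ∈ G.exc r d`: excluded by (2).
 * `JA ≠ ⊥`: `≤ -1`; `= -1` only if `e0(X.sub JA) = -1` and (`JB = ⊥`, or `JB = ⊤`, `t = 0`). In the second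
   case `JA ∈ X.exc r d` is excluded by (1), so `JA = ⊤` and `J = ⊤`.
So `Neg X' r d`, and `X'.exc r d ⊆ {JA × 0 | JA ∈ X.exc r d ∪ {⊤}}` is finite (`eq_map_inl`). `HasX_of`.
-/

set_option autoImplicit false

namespace Pool.Agent.MP_09eaec.GG

open Module

universe u v

variable {k : Type u} {K : Type v} [Field k] [Field K] [Algebra k K]
variable {W : Type v} [AddCommGroup W] [Module K W] [Module k W] [IsScalarTower k K W]
variable {A : Type v} [AddCommGroup A] [Module K A] [Module k A] [IsScalarTower k K A]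
variable {B : Type v} [AddCommGroup B] [Module K B] [Module k B] [IsScalarTower k K B]

variable [CurveG k K]

theorem chain_step {r n : ℕ} {d δ : ℤ} (hr : 2 ≤ r) (hn : 1 ≤ n) (hG : Q k K r d)
    (hX : HasX k K r d n δ) (he : (r : ℤ) * δ - d * n = -1) : HasX k K r d (n + r) (δ + d) := by
  obtain ⟨G, hGd, hG1, hG2, hG0⟩ := hG
  obtain ⟨X, hXd, hX1, hX2, hX0⟩ := hX
  have hr' : (2 : ℤ) ≤ r := by exact_mod_cast hr
  have hn' : (1 : ℤ) ≤ n := by exact_mod_cast hn
  have hfA : finrank K (Fin n → K) = n := by simp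
  have hfB : finrank K (Fin r → K) = r := by simp
  have := hX2.to_subtype
  have := hG2.to_subtype
  let Jf : (Option (X.exc r d)) ⊕ (G.exc r d) → Submodule K (Fin n → K) := fun i =>
    match i with
    | Sum.inl none => ⊥
    | Sum.inl (some J) => J.1
    | Sum.inr _ => ⊥
  let Lf : (Option (X.exc r d)) ⊕ (G.exc r d) → Submodule K (Fin r → K) := fun i =>
    match i with
    | Sum.inl none => ⊤
    | Sum.inl (some _) => ⊤
    | Sum.inr L => L.1
  obtain ⟨u, hu⟩ := exists_generic X Jf Lf (fun i => G.sub (Lf i)) (by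
    intro i
    apply N_hom_ne_top
    have hadd := X.deg_add (Jf i)
    have hfq : (finrank K ((Fin n → K) ⧸ Jf i) : ℤ) + finrank K (Jf i) = n := by
      have := Submodule.finrank_quotient_add_finrank (Jf i)
      rw [hfA] at this
      exact_mod_cast this
    rcases i with (_ | J) | L
    · show (finrank K (⊤ : Submodule K (Fin r → K)) : ℤ) * (X.quo ⊥).deg -
        finrank K ((Fin n → K) ⧸ (⊥ : Submodule K (Fin n → K))) * (G.sub ⊤).deg < _
      have h1 : (finrank K ((Fin n → K) ⧸ (⊥ : Submodule K (Fin n → K))) : ℤ) = n := by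
        have h2 : (finrank K ((Fin n → K) ⧸ (⊥ : Submodule K (Fin n → K))) : ℤ) +
          finrank K (⊥ : Submodule K (Fin n → K)) = n := hfq
        rw [finrank_bot] at h2
        simpa using h2
      rw [VB.deg_quo_bot, VB.deg_sub_top, finrank_top, hfB, h1, hXd, hGd]
      have h3 : (0 : ℤ) < r * n := by positivity
      show (r : ℤ) * δ - n * d < (r : ℤ) * n
      linarith
    · obtain ⟨J, hJ0, hJt, hJe⟩ := J
      change (finrank K (⊤ : Submodule K (Fin r → K)) : ℤ) * (X.quo J).deg -
        finrank K ((Fin n → K) ⧸ J) * (G.sub ⊤).deg <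
        (finrank K (⊤ : Submodule K (Fin r → K)) : ℤ) * finrank K ((Fin n → K) ⧸ J)
      change X.deg = (X.sub J).deg + (X.quo J).deg at hadd
      change (finrank K ((Fin n → K) ⧸ J) : ℤ) + finrank K J = n at hfq
      rw [VB.deg_sub_top, finrank_top, hfB, hGd]
      have h2 : (finrank K J : ℤ) < n := by
        have := Submodule.finrank_lt hJt
        rw [hfA] at this
        exact_mod_cast this
      have h3 : (0 : ℤ) < finrank K ((Fin n → K) ⧸ J) := by linarith
      have h4 : (X.quo J).deg = δ - (X.sub J).deg := by rw [← hXd, hadd]; ring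
      have h5 : (finrank K ((Fin n → K) ⧸ J) : ℤ) = n - finrank K J := by linarith
      have h6 : (r : ℤ) * (X.quo J).deg - finrank K ((Fin n → K) ⧸ J) * d = 0 := by
        rw [h4, h5]
        linear_combination he - hJe
      rw [h6]
      positivity
    · obtain ⟨L, hL0, hLt, hLe⟩ := L
      change (finrank K L : ℤ) * (X.quo ⊥).deg -
        finrank K ((Fin n → K) ⧸ (⊥ : Submodule K (Fin n → K))) * (G.sub L).deg <
        (finrank K L : ℤ) * finrank K ((Fin n → K) ⧸ (⊥ : Submodule K (Fin n → K)))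
      have h1 : (finrank K ((Fin n → K) ⧸ (⊥ : Submodule K (Fin n → K))) : ℤ) = n := by
        have h2 : (finrank K ((Fin n → K) ⧸ (⊥ : Submodule K (Fin n → K))) : ℤ) +
          finrank K (⊥ : Submodule K (Fin n → K)) = n := hfq
        rw [finrank_bot] at h2
        simpa using h2
      rw [VB.deg_quo_bot, h1, hXd]
      have hs : (1 : ℤ) ≤ finrank K L := by
        have := Submodule.one_le_finrank_iff.mpr hL0
        exact_mod_cast this
      have hk : (r : ℤ) * ((finrank K L : ℤ) * δ - n * (G.sub L).deg) = n - finrank K L := by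
        linear_combination (finrank K L : ℤ) * he - (n : ℤ) * hLe
      by_contra hcon
      rw [not_lt] at hcon
      have h7 : (r : ℤ) * ((finrank K L : ℤ) * n) ≤ n - finrank K L := by
        rw [← hk]
        exact mul_le_mul_of_nonneg_left hcon (by linarith)
      have h8 : (n : ℤ) ≤ (finrank K L : ℤ) * n := by nlinarith
      nlinarith)
  have hu1 : ¬ Null X ⊥ (G.sub ⊤) u := hu (Sum.inl none)
  have hu2 : ∀ J ∈ X.exc r d, ¬ Null X J (G.sub ⊤) u := fun J hJ => hu (Sum.inl (some ⟨J, hJ⟩))
  have hu3 : ∀ L ∈ G.exc r d, ¬ Null X ⊥ (G.sub L) u := fun L hL => hu (Sum.inr ⟨L, hL⟩)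
  have key : ∀ J : Submodule K ((Fin n → K) × (Fin r → K)), J ≠ ⊥ →
      (r : ℤ) * ((ext X G u).sub J).deg - d * finrank K J ≤ -1 ∧
      ((r : ℤ) * ((ext X G u).sub J).deg - d * finrank K J = -1 → J ≠ ⊤ →
        J.map (LinearMap.snd K (Fin n → K) (Fin r → K)) = ⊥ ∧
        (J.comap (LinearMap.inl K (Fin n → K) (Fin r → K)) ∈ X.exc r d ∨
          J.comap (LinearMap.inl K (Fin n → K) (Fin r → K)) = ⊤)) := by
    intro J hJ
    obtain ⟨F', hF', hdeg, hnull⟩ := ext_sub X G u J
    have hfr := finrank_ext_sub (K := K) J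
    have hbot := eq_bot_of (K := K) (J := J)
    have htop := eq_top_of (K := K) (J := J)
    have ht0 := VB.deg_le_of_le hF'
    have ht1 : (G.sub (J.map (LinearMap.snd K (Fin n → K) (Fin r → K)))).deg ≤ F'.deg →
        Null X (J.comap (LinearMap.inl K (Fin n → K) (Fin r → K)))
          (G.sub (J.map (LinearMap.snd K (Fin n → K) (Fin r → K)))) u := by
      intro h
      rw [← VB.eq_of_le_of_deg_le hF' h]
      exact hnull
    clear hnull hF'
    rw [hdeg, hfr]
    generalize J.comap (LinearMap.inl K (Fin n → K) (Fin r → K)) = JA at *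
    generalize F'.deg = f at *
    clear F'
    generalize J.map (LinearMap.snd K (Fin n → K) (Fin r → K)) = JB at *
    push_cast
    -- values
    have hB : (JB = ⊥ ∨ JB = ⊤) ∧ (r : ℤ) * (G.sub JB).deg - d * finrank K JB = 0 ∨
        (JB ≠ ⊥ ∧ JB ≠ ⊤) ∧ (r : ℤ) * (G.sub JB).deg - d * finrank K JB ≤ -1 := by
      by_cases h1 : JB = ⊥
      · left
        refine ⟨Or.inl h1, ?_⟩
        rw [h1, VB.deg_sub_bot, finrank_bot]
        simp
      · by_cases h2 : JB = ⊤
        · left
          refine ⟨Or.inr h2, ?_⟩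
          rw [h2, VB.deg_sub_top, finrank_top, hfB, hGd]
          ring
        · exact Or.inr ⟨⟨h1, h2⟩, hG1 JB h1 h2⟩
    have hrt : (r : ℤ) * ((G.sub JB).deg - f) ≥ 0 := mul_nonneg (by linarith) (by linarith)
    have hrt1 : f < (G.sub JB).deg → (r : ℤ) * ((G.sub JB).deg - f) ≥ 2 := by
      intro h
      have : 1 ≤ (G.sub JB).deg - f := by omega
      nlinarith
    have hexp : (r : ℤ) * ((X.sub JA).deg + f) - d * (finrank K JA + finrank K JB) =
        ((r : ℤ) * (X.sub JA).deg - d * finrank K JA) +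
        ((r : ℤ) * (G.sub JB).deg - d * finrank K JB) - (r : ℤ) * ((G.sub JB).deg - f) := by
      ring
    rw [hexp]
    by_cases hA : JA = ⊥
    · have hA0 : (r : ℤ) * (X.sub JA).deg - d * finrank K JA = 0 := by
        rw [hA, VB.deg_sub_bot, finrank_bot]
        simp
      rw [hA0]
      rcases hB with ⟨h1 | h1, h2⟩ | ⟨⟨h1, h1'⟩, h2⟩
      · exact absurd (hbot hA h1) hJ
      · have h3 : f < (G.sub JB).deg := by
          by_contra h4
          rw [not_lt] at h4
          have h5 := ht1 h4
          rw [hA, h1] at h5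
          exact hu1 h5
        have := hrt1 h3
        rw [h2]
        exact ⟨by linarith, fun h => by linarith⟩
      · refine ⟨by linarith, fun h _ => ?_⟩
        exfalso
        have h3 : ¬ f < (G.sub JB).deg := fun h4 => by
          have := hrt1 h4
          linarith
        have h4 := ht1 (not_lt.mp h3)
        rw [hA] at h4
        have h5 : f = (G.sub JB).deg := le_antisymm ht0 (not_lt.mp h3)
        rw [h5, sub_self, mul_zero] at h
        exact hu3 JB ⟨h1, h1', by linarith⟩ h4
    · have hA1 := hX1 JA hA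
      rcases hB with ⟨h1, h2⟩ | ⟨⟨h1, h1'⟩, h2⟩
      · rw [h2]
        refine ⟨by linarith, fun h hJt => ?_⟩
        have h3 : ¬ f < (G.sub JB).deg := fun h4 => by
          have := hrt1 h4
          linarith
        have h4 := ht1 (not_lt.mp h3)
        have h5 : f = (G.sub JB).deg := le_antisymm ht0 (not_lt.mp h3)
        rw [h5, sub_self, mul_zero] at h
        have h6 : JA ∈ X.exc r d ∨ JA = ⊤ := by
          by_cases h7 : JA = ⊤
          · exact Or.inr h7
          · exact Or.inl ⟨hA, h7, by linarith⟩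
        rcases h1 with h1 | h1
        · exact ⟨h1, h6⟩
        · exfalso
          rcases h6 with h6 | h6
          · rw [h1] at h4
            exact hu2 JA h6 h4
          · exact hJt (htop h6 h1)
      · refine ⟨by linarith, fun h _ => ?_⟩
        exfalso
        linarith
  refine HasX_of (ext X G u) ?_ ?_ (fun J hJ => (key J hJ).1) ?_
    (fun h1 h2 => ext_H0_bot u (hX0 h1 h2) (hG0 h1 h2))
  · rw [Module.finrank_prod, hfA, hfB]
  · rw [deg_ext, hXd, hGd]
  · refine Set.Finite.subset ((hX2.union (Set.finite_singleton (⊤ : Submodule K (Fin n → K)))).image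
      (fun J => J.map (LinearMap.inl K (Fin n → K) (Fin r → K)))) ?_
    intro J hJ
    obtain ⟨hJ0, hJt, hJe⟩ := hJ
    obtain ⟨h1, h2⟩ := (key J hJ0).2 hJe hJt
    exact ⟨_, h2, (eq_map_inl h1).symm⟩

end Pool.Agent.MP_09eaec.GG
end
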