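import Mathlib

section

/-!
# TASK NumBG: the numbers of the chain

`eBG μ s` is the degree of the `s`-th line bundle, `ρBG μ s = μ s - ⌊μ s⌋ - 1` the excess of the first `s` of them.
All statements are elementary (floors); `ρBG μ s = -1` means that `μ s` is an integer.
-/

set_option autoImplicit false

namespace Pool.Agent.MP_09eaec.GG.BG

/-- The degree of the `s`-th line bundle of the chain. -/
noncomputable def eBG (μ : ℝ) (s : ℕ) : ℤ :=
  ⌊μ * ((s : ℝ) - 1)⌋ - ⌊μ * s⌋ - (if s = 1 then 1 else 0)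

/-- The excess of the first `s` pieces. -/
noncomputable def rBG (μ : ℝ) (s : ℕ) : ℝ := μ * s - ⌊μ * s⌋ - 1

theorem rBG_ge (μ : ℝ) (s : ℕ) : -1 ≤ rBG μ s := by
  unfold rBG
  have := Int.floor_le (μ * (s : ℝ))
  linarith

theorem rBG_lt (μ : ℝ) (s : ℕ) : rBG μ s < 0 := by
  unfold rBG
  have := Int.lt_floor_add_one (μ * (s : ℝ))
  linarith

theorem rBG_one (μ : ℝ) : rBG μ 1 = eBG μ 1 + μ := by
  unfold rBG eBG
  have h1 : μ * (((1 : ℕ) : ℝ) - 1) = 0 := by push_cast; ring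
  have h2 : μ * ((1 : ℕ) : ℝ) = μ := by push_cast; ring
  rw [h1, h2, Int.floor_zero, if_pos rfl, Int.cast_sub, Int.cast_sub]
  rw [Int.cast_zero, Int.cast_one]
  ring

theorem rBG_succ (μ : ℝ) {s : ℕ} (hs : 1 ≤ s) : rBG μ (s + 1) = rBG μ s + eBG μ (s + 1) + μ := by
  unfold rBG eBG
  have h1 : ((s + 1 : ℕ) : ℝ) - 1 = s := by push_cast; ring
  have h2 : ¬ (s + 1 = 1) := by omega
  rw [h1, if_neg h2]
  push_cast
  ring

theorem eBG_diff {μ : ℝ} (hμ : 0 < μ) {s : ℕ} (hs : 1 ≤ s) : eBG μ s - eBG μ (s + 1) ≤ 1 := by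
  unfold eBG
  have h1 : ((s + 1 : ℕ) : ℝ) - 1 = s := by push_cast; ring
  have h2 : ¬ (s + 1 = 1) := by omega
  rw [h1, if_neg h2]
  have f1 := Int.floor_le (μ * ((s : ℝ) - 1))
  have f2 := Int.floor_le (μ * ((s + 1 : ℕ) : ℝ))
  have f3 := Int.lt_floor_add_one (μ * (s : ℝ))
  have h3 : (⌊μ * ((s : ℝ) - 1)⌋ + ⌊μ * ((s + 1 : ℕ) : ℝ)⌋ : ℤ) < 2 * ⌊μ * (s : ℝ)⌋ + 2 := by
    have : ((⌊μ * ((s : ℝ) - 1)⌋ + ⌊μ * ((s + 1 : ℕ) : ℝ)⌋ : ℤ) : ℝ) <
        ((2 * ⌊μ * (s : ℝ)⌋ + 2 : ℤ) : ℝ) := by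
      push_cast at f2 ⊢
      linarith
    exact_mod_cast this
  split_ifs <;> omega

theorem eBG_diff' {μ : ℝ} (hμ : 0 < μ) {s : ℕ} (hs : 1 ≤ s) (h : rBG μ s = -1) :
    eBG μ s ≤ eBG μ (s + 1) := by
  unfold rBG at h
  unfold eBG
  have h1 : ((s + 1 : ℕ) : ℝ) - 1 = s := by push_cast; ring
  have h2 : ¬ (s + 1 = 1) := by omega
  rw [h1, if_neg h2]
  have f1 := Int.floor_le (μ * ((s : ℝ) - 1))
  have f2 := Int.floor_le (μ * ((s + 1 : ℕ) : ℝ))
  have h3 : (⌊μ * ((s : ℝ) - 1)⌋ + ⌊μ * ((s + 1 : ℕ) : ℝ)⌋ : ℤ) ≤ 2 * ⌊μ * (s : ℝ)⌋ := by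
    have : ((⌊μ * ((s : ℝ) - 1)⌋ + ⌊μ * ((s + 1 : ℕ) : ℝ)⌋ : ℤ) : ℝ) ≤
        ((2 * ⌊μ * (s : ℝ)⌋ : ℤ) : ℝ) := by
      push_cast at f2 ⊢
      linarith
    exact_mod_cast this
  split_ifs <;> omega

/-- The last line bundle has degree `e = ⌊μ (m - 1)⌋ + 1 - δ`, where `μ (m - x) = δ`, `0 < x < 1`
(`x = a / gen`); here `s = m - 1 ≥ 1`. -/
theorem eBG_last {μ x : ℝ} (hμ : 0 < μ) (hx : 0 < x) (hx1 : x < 1) {s : ℕ} (hs : 1 ≤ s) {δ : ℤ}
    (h : μ * ((s : ℝ) + 1 - x) = δ) :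
    eBG μ s ≤ ⌊μ * s⌋ + 1 - δ ∧ ⌊μ * s⌋ + 1 - δ ≤ 0 ∧
      μ * x = rBG μ s + ((⌊μ * s⌋ + 1 - δ : ℤ) : ℝ) + μ := by
  have f1 := Int.floor_le (μ * ((s : ℝ) - 1))
  have f2 := Int.floor_le (μ * (s : ℝ))
  have f3 := Int.lt_floor_add_one (μ * (s : ℝ))
  have hxp : 0 < μ * x := mul_pos hμ hx
  have hxp1 : μ * x < μ := by nlinarith
  refine ⟨?_, ?_, ?_⟩
  · unfold eBG
    have h3 : (⌊μ * ((s : ℝ) - 1)⌋ + δ : ℤ) < 2 * ⌊μ * (s : ℝ)⌋ + 2 := by
      have : ((⌊μ * ((s : ℝ) - 1)⌋ + δ : ℤ) : ℝ) < ((2 * ⌊μ * (s : ℝ)⌋ + 2 : ℤ) : ℝ) := by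
        push_cast
        rw [← h]
        linarith
      exact_mod_cast this
    split_ifs <;> omega
  · have h3 : (⌊μ * (s : ℝ)⌋ : ℤ) < δ := by
      have : ((⌊μ * (s : ℝ)⌋ : ℤ) : ℝ) < (δ : ℝ) := by
        rw [← h]
        linarith
      exact_mod_cast this
    omega
  · unfold rBG
    push_cast
    rw [← h]
    ring

end Pool.Agent.MP_09eaec.GG.BG
end

section

/-!
# TASK Convex: convex sequences

`F : ℤ → ℤ` with `2 F s ≤ F (s - 1) + F (s + 1)`. The increments `F (s + 1) - F s` are monotone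
(`monotone_int_of_le_succ`). `F b - F a` is the sum of the `b - a` increments between `a` and `b`, each at most
`F (b + 1) - F b`; `F c - F b` is the sum of the `c - b` increments between `b` and `c`, each at least `F (b + 1) - F b`.
So `(c - b) (F b - F a) ≤ (c - b) (b - a) (F (b + 1) - F b) ≤ (b - a) (F c - F b)`. (Prove by induction on `n : ℕ`:
`F (b + n) ≥ F b + n (F (b + 1) - F b)` and `F (b - n) ≥ F b - n (F (b + 1) - F b)`.)
-/

set_option autoImplicit false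

namespace Pool.Agent.MP_09eaec.GG

private theorem Convex_mono {F : ℤ → ℤ} (h : ∀ s, 2 * F s ≤ F (s - 1) + F (s + 1)) :
    Monotone (fun s => F (s + 1) - F s) := by
  refine monotone_int_of_le_succ (fun s => ?_)
  have h1 := h (s + 1)
  have e1 : s + 1 - 1 = s := by ring
  rw [e1] at h1
  show F (s + 1) - F s ≤ F (s + 1 + 1) - F (s + 1)
  linarith

private theorem Convex_up {F : ℤ → ℤ} (h : ∀ s, 2 * F s ≤ F (s - 1) + F (s + 1)) (b : ℤ) (n : ℕ) :
    F b + n * (F (b + 1) - F b) ≤ F (b + n) := by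
  induction n with
  | zero => simp
  | succ n ih =>
    have hm := Convex_mono h (show b ≤ b + (n : ℤ) by omega)
    have hm' : F (b + 1) - F b ≤ F (b + (n : ℤ) + 1) - F (b + (n : ℤ)) := hm
    have e : b + ((n + 1 : ℕ) : ℤ) = b + (n : ℤ) + 1 := by push_cast; ring
    rw [e]
    push_cast
    linarith

private theorem Convex_down {F : ℤ → ℤ} (h : ∀ s, 2 * F s ≤ F (s - 1) + F (s + 1)) (b : ℤ) (n : ℕ) :
    F b - n * (F (b + 1) - F b) ≤ F (b - n) := by
  induction n with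
  | zero => simp
  | succ n ih =>
    have hm := Convex_mono h (show b - ((n + 1 : ℕ) : ℤ) ≤ b by push_cast; omega)
    have hm' : F (b - ((n + 1 : ℕ) : ℤ) + 1) - F (b - ((n + 1 : ℕ) : ℤ)) ≤ F (b + 1) - F b := hm
    have e : b - ((n + 1 : ℕ) : ℤ) + 1 = b - (n : ℤ) := by push_cast; ring
    rw [e] at hm'
    push_cast at hm' ⊢
    linarith

theorem convex_ineq {F : ℤ → ℤ} (h : ∀ s, 2 * F s ≤ F (s - 1) + F (s + 1)) {a b c : ℤ}
    (hab : a ≤ b) (hbc : b ≤ c) : (c - a) * F b ≤ (c - b) * F a + (b - a) * F c := by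
  obtain ⟨m, hm⟩ := Int.eq_ofNat_of_zero_le (show 0 ≤ b - a by omega)
  obtain ⟨n, hn⟩ := Int.eq_ofNat_of_zero_le (show 0 ≤ c - b by omega)
  have hc : c = b + (n : ℤ) := by linarith
  have ha : a = b - (m : ℤ) := by linarith
  have h1 := Convex_up h b n
  have h2 := Convex_down h b m
  rw [← hc] at h1
  rw [← ha] at h2
  have e1 : c - a = n + m := by linarith
  rw [e1, hn, hm]
  have hm0 : (0 : ℤ) ≤ m := Int.natCast_nonneg m
  have hn0 : (0 : ℤ) ≤ n := Int.natCast_nonneg n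
  have h3 := mul_le_mul_of_nonneg_left h2 hn0
  have h4 := mul_le_mul_of_nonneg_left h1 hm0
  nlinarith

end Pool.Agent.MP_09eaec.GG
end

section

/-!
# TASK NumE: the inequality for a destabilizing subspace

`g = gen`, `i = rank T`, `h`, `s = i + h = rank S`, `e = deg S`, `t = deg (G.sub T)`, `n = m + j = δ + g m - a`,
`μ (g m - a) = g δ`. `ε = s (2 g - 2) - e`. From `he`: `ε n ≤ s δ`. From `h1`: `ε ≥ -t`.
From `h2`: `s ≤ g i + ε`, from `h3`: `s + a ≤ g i + ε`.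
* `i = 0` (`t = 0`): `s ≤ ε`, `ε n ≤ s δ`, `δ < n` (since `g m - a > 0`), `s ≥ 1`: contradiction.
* case 2 (`t + μ i < 0`): `ε > μ i`; `ε n ≤ (g i + ε) δ`, so `ε (g m - a) ≤ g i δ = μ i (g m - a)`, contradiction.
* case 3 (`t + μ i < μ a / g`): `ε > μ (g i - a) / g`; `ε n ≤ (g i - a + ε) δ`, so `ε (g m - a) ≤ (g i - a) δ`, i.e.
  `ε ≤ (g i - a) μ / g`, contradiction.
* case 4 (`i = m`, `t = -δ`): `ε ≥ δ`, `ε (g m - a) ≤ (g m - a) δ`, so `ε = δ`, and `δ n ≤ s δ` gives `n ≤ s`.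
-/

set_option autoImplicit false

namespace Pool.Agent.MP_09eaec.GG.BG

theorem num_E {g m a δ n s e t i h : ℤ} {μ : ℝ} (hg : 2 ≤ g) (hm : 1 ≤ m) (ha : 0 ≤ a)
    (hag : a < g) (hδ : 1 ≤ δ) (hn : n = δ + g * m - a)
    (hμ : μ * ((g : ℝ) * m - a) = (g : ℝ) * δ) (hi : 0 ≤ i) (hh : 0 ≤ h) (hs : s = i + h)
    (hs1 : 1 ≤ s) (hsn : s < n) (he : s * (n * (2 * g - 2) - δ) ≤ n * e)
    (h1 : e ≤ t + (i + h) * (2 * g - 2)) (h2 : g * h ≤ (3 * g - 3) * s - e)
    (hc : (i = 0 ∧ t = 0) ∨ (1 ≤ i ∧ (t : ℝ) + μ * i < 0) ∨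
      ((t : ℝ) + μ * i < μ * (a / (g : ℝ)) ∧ g * h + a ≤ (3 * g - 3) * s - e) ∨
      (i = m ∧ t = -δ ∧ g * h + a ≤ (3 * g - 3) * s - e)) : False := by
  obtain ⟨ε, hε⟩ : ∃ ε : ℤ, ε = s * (2 * g - 2) - e := ⟨_, rfl⟩
  obtain ⟨c, hc0⟩ : ∃ c : ℤ, c = g * m - a := ⟨_, rfl⟩
  have hcpos : 0 < c := by rw [hc0]; nlinarith
  have hnc : n = δ + c := by rw [hn, hc0]; ring
  -- ε n ≤ s δ
  have e1 : ε * n ≤ s * δ := by rw [hε]; nlinarith
  have e2 : -t ≤ ε := by rw [hε, hs]; linarith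
  have e3 : s ≤ g * i + ε := by
    have : g * h ≤ (g - 1) * s + ε := by rw [hε]; linarith
    rw [hs] at this ⊢
    linarith
  have hcR : (0 : ℝ) < c := by exact_mod_cast hcpos
  have hgR : (0 : ℝ) < g := by
    have : (0 : ℤ) < g := by omega
    exact_mod_cast this
  have hδR : (0 : ℝ) < δ := by
    have : (0 : ℤ) < δ := by omega
    exact_mod_cast this
  have hμ' : μ * c = g * δ := by
    rw [← hμ, hc0]
    push_cast
    ring
  rcases hc with ⟨h3, h4⟩ | ⟨h3, h4⟩ | ⟨h3, h4⟩ | ⟨h3, h4, h5⟩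
  · -- i = 0
    rw [h3] at e3
    have : s * n ≤ s * δ := by nlinarith
    nlinarith
  · have e4 : ε * c ≤ g * i * δ := by
      have f1 : ε * n = ε * δ + ε * c := by rw [hnc]; ring
      have f2 : (s - ε) * δ ≤ (g * i) * δ := mul_le_mul_of_nonneg_right (by linarith) (by omega)
      linarith [f1, f2, e1, sub_mul s ε δ]
    have e5 : (ε : ℝ) * c ≤ g * i * δ := by exact_mod_cast e4
    have e6 : -(t : ℝ) ≤ ε := by exact_mod_cast e2
    have e7 : μ * i < ε := by linarith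
    have e8 : μ * i * c < ε * c := mul_lt_mul_of_pos_right e7 hcR
    have e9 : μ * i * c = g * i * δ := by
      calc μ * i * c = (μ * c) * i := by ring
        _ = g * i * δ := by rw [hμ']; ring
    linarith
  · have e3' : s + a ≤ g * i + ε := by
      have : g * h + a ≤ (g - 1) * s + ε := by rw [hε]; linarith
      rw [hs] at this ⊢
      linarith
    have e4 : ε * c ≤ (g * i - a) * δ := by
      have f1 : ε * n = ε * δ + ε * c := by rw [hnc]; ring
      have f2 : (s - ε) * δ ≤ (g * i - a) * δ := mul_le_mul_of_nonneg_right (by linarith) (by omega)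
      linarith [f1, f2, e1, sub_mul s ε δ]
    have e5 : (ε : ℝ) * c ≤ (g * i - a) * δ := by exact_mod_cast e4
    have e6 : -(t : ℝ) ≤ ε := by exact_mod_cast e2
    have e7 : μ * i - μ * (a / (g : ℝ)) < ε := by linarith
    have e8 : (μ * i - μ * (a / (g : ℝ))) * c < ε * c := mul_lt_mul_of_pos_right e7 hcR
    have e9 : (μ * i - μ * (a / (g : ℝ))) * c = (g * i - a) * δ := by
      calc (μ * i - μ * (a / (g : ℝ))) * c = (μ * c) * (i - a / (g : ℝ)) := by ring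
        _ = (g * i - a) * δ := by
          rw [hμ']
          field_simp
    linarith
  · have e3' : s + a ≤ g * i + ε := by
      have : g * h + a ≤ (g - 1) * s + ε := by rw [hε]; linarith
      rw [hs] at this ⊢
      linarith
    rw [h3] at e3'
    rw [h4] at e2
    have e4 : ε * c ≤ c * δ := by
      rw [hc0] at hnc ⊢
      nlinarith
    have e5 : ε ≤ δ := by
      by_contra hcon
      push Not at hcon
      nlinarith
    have e6 : ε = δ := by omega
    rw [e6] at e1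
    have : n ≤ s := by
      by_contra hcon
      push Not at hcon
      nlinarith
    omega

end Pool.Agent.MP_09eaec.GG.BG
end

section

/-!
# The choice of `α`
-/

set_option autoImplicit false

namespace Pool.Agent.MP_09eaec.GG

open Module

universe u v

variable {k : Type u} {K : Type v} [Field k] [Field K] [Algebra k K]
variable {W : Type v} [AddCommGroup W] [Module K W] [Module k W] [IsScalarTower k K W]
variable {A : Type v} [AddCommGroup A] [Module K A] [Module k A] [IsScalarTower k K A]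
variable {B : Type v} [AddCommGroup B] [Module K B] [Module k B] [IsScalarTower k K B]

/-- `T0 = 2 g - 2 - d / n`, `ρ = g - k / n`. -/
theorem exists_alpha {c T0 ρ : ℝ} (hc : 1 ≤ c) (hρ : 0 < ρ) (h : c * T0 < 1) :
    ∃ α : ℝ, 0 < α ∧ 0 < T0 + α * ρ ∧ c * (T0 + α * ρ) < 1 + α := by
  have hc0 : 0 < c := by linarith
  rcases lt_or_ge T0 0 with hT | hT
  · refine ⟨(1 / (2 * c) - T0) / ρ, ?_, ?_, ?_⟩
    · have : 0 < 1 / (2 * c) := by positivity
      exact div_pos (by linarith) hρ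
    · rw [div_mul_cancel₀ _ hρ.ne']
      have : 0 < 1 / (2 * c) := by positivity
      linarith
    · rw [div_mul_cancel₀ _ hρ.ne']
      have h1 : c * (T0 + (1 / (2 * c) - T0)) = 1 / 2 := by
        field_simp
        ring
      rw [h1]
      have h2 : 0 < (1 / (2 * c) - T0) / ρ := by
        have : 0 < 1 / (2 * c) := by positivity
        exact div_pos (by linarith) hρ
      linarith
  · refine ⟨(1 - c * T0) / (2 * c * ρ), ?_, ?_, ?_⟩
    · exact div_pos (by linarith) (by positivity)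
    · have : 0 < (1 - c * T0) / (2 * c * ρ) * ρ :=
        mul_pos (div_pos (by linarith) (by positivity)) hρ
      linarith
    · have h1 : c * (T0 + (1 - c * T0) / (2 * c * ρ) * ρ) = (1 + c * T0) / 2 := by
        field_simp
        ring
      rw [h1]
      have : 0 < (1 - c * T0) / (2 * c * ρ) := div_pos (by linarith) (by positivity)
      linarith

end Pool.Agent.MP_09eaec.GG
end

section

/-!
# TASK B2: arithmetic of Farey parents

`r = a + c`, `d = b + e`, `a e - c b = 1`. All by `nlinarith` / `linarith` / parity-free integer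
arithmetic:
* `num_A`: `a (r σ - d ρ) = r (a σ - b ρ) - ρ` (since `d a = r b + 1`), and `a σ - b ρ ≤ -1`. So
  `a (r σ - d ρ) ≤ -r - ρ < -a`, hence `r σ - d ρ ≤ -2`. If `= -2`: with `y = a σ - b ρ`: `ρ = 2a + r y`,
  `y = -1` (for `y ≤ -2`: `ρ ≤ 2a - 2r < 0`), `ρ = a - c`.
* `num_B`: `c (r σ - d ρ) = r (c σ - e ρ) + ρ` (since `r e = d c + 1`), `c σ - e ρ ≤ -1`, `ρ < c`: negative. If
  `r σ - d ρ = -1`: with `y = c σ - e ρ`: `-c = r y + ρ`, `y = -1`, `ρ = a`.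
* `num_A_quo`: the type of the quotient is `(c, e)`: `a σ = b ρ - 1`, `ρ = a - c` give `a σ = a (b - e)`.
* `num_B_sub`: `c σ = e a - 1 = c b`.
* `exists_parents`: `r ≥ 2` coprime to `d`: `d` has an inverse `a` modulo `r`, `1 ≤ a < r`, `a d = r b + 1`;
  `c = r - a`, `e = d - b`.
-/

set_option autoImplicit false

namespace Pool.Agent.MP_09eaec.GG

theorem num_A {a c b e ρ σ : ℤ} (ha : 1 ≤ a) (hc : 1 ≤ c) (hdet : a * e - c * b = 1) (hρ : 1 ≤ ρ)
    (hρa : ρ < a) (h : a * σ - b * ρ ≤ -1) :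
    (a + c) * σ - (b + e) * ρ ≤ -2 ∧
      ((a + c) * σ - (b + e) * ρ = -2 → ρ = a - c ∧ a * σ - b * ρ = -1 ∧ σ = b - e) := by
  have key : a * ((a + c) * σ - (b + e) * ρ) = (a + c) * (a * σ - b * ρ) - ρ := by
    linear_combination (-ρ) * hdet
  refine ⟨?_, fun hX => ?_⟩
  · by_contra hcon
    push Not at hcon
    have h1 : -1 ≤ (a + c) * σ - (b + e) * ρ := by omega
    nlinarith [mul_le_mul_of_nonneg_left h1 (by omega : (0 : ℤ) ≤ a),
      mul_le_mul_of_nonneg_left h (by omega : (0 : ℤ) ≤ a + c)]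
  · rw [hX] at key
    have hy : a * σ - b * ρ = -1 := by
      by_contra hne
      have h2 : a * σ - b * ρ ≤ -2 := by omega
      nlinarith [mul_le_mul_of_nonneg_left h2 (by omega : (0 : ℤ) ≤ a + c)]
    rw [hy] at key
    have hρ' : ρ = a - c := by linarith
    refine ⟨hρ', hy, ?_⟩
    have h3 : a * σ = a * (b - e) := by
      rw [hρ'] at hy
      linear_combination hy + hdet
    exact mul_left_cancel₀ (by omega) h3

theorem num_B {a c b e ρ σ : ℤ} (ha : 1 ≤ a) (hc : 1 ≤ c) (hdet : a * e - c * b = 1) (hρ : 1 ≤ ρ)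
    (hρc : ρ < c) (h : c * σ - e * ρ ≤ -1) :
    (a + c) * σ - (b + e) * ρ ≤ -1 ∧
      ((a + c) * σ - (b + e) * ρ = -1 → ρ = a ∧ c * σ - e * ρ = -1 ∧ σ = b) := by
  have key : c * ((a + c) * σ - (b + e) * ρ) = (a + c) * (c * σ - e * ρ) + ρ := by
    linear_combination ρ * hdet
  refine ⟨?_, fun hX => ?_⟩
  · by_contra hcon
    push Not at hcon
    have h1 : 0 ≤ (a + c) * σ - (b + e) * ρ := by omega
    nlinarith [mul_le_mul_of_nonneg_left h1 (by omega : (0 : ℤ) ≤ c),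
      mul_le_mul_of_nonneg_left h (by omega : (0 : ℤ) ≤ a + c)]
  · rw [hX] at key
    have hy : c * σ - e * ρ = -1 := by
      by_contra hne
      have h2 : c * σ - e * ρ ≤ -2 := by omega
      nlinarith [mul_le_mul_of_nonneg_left h2 (by omega : (0 : ℤ) ≤ a + c)]
    rw [hy] at key
    have hρ' : ρ = a := by linarith
    refine ⟨hρ', hy, ?_⟩
    have h3 : c * σ = c * b := by
      rw [hρ'] at hy
      linear_combination hy + hdet
    exact mul_left_cancel₀ (by omega) h3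

/-- The parents of a slope in `[0, 1]` are in `[0, 1]`. -/
theorem num_Z {a c b e : ℤ} (ha : 1 ≤ a) (hc : 1 ≤ c) (hdet : a * e - c * b = 1) (h0 : 0 ≤ b + e)
    (h1 : b + e ≤ a + c) : 0 ≤ b ∧ b ≤ a ∧ 0 ≤ e ∧ e ≤ c := by
  have hb : 0 ≤ b := by
    by_contra hb
    push Not at hb
    have he : 1 ≤ e := by omega
    nlinarith [mul_le_mul ha he (by omega) (by omega)]
  have he : 1 ≤ e := by
    by_contra he
    push Not at he
    nlinarith [mul_nonneg (by omega : 0 ≤ c) hb, mul_nonneg (by omega : 0 ≤ a) (by omega : 0 ≤ -e)]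
  have hec : e ≤ c := by
    by_contra hec
    push Not at hec
    have hba : b ≤ a - 1 := by omega
    nlinarith [mul_le_mul_of_nonneg_left (by omega : c + 1 ≤ e) (by omega : (0 : ℤ) ≤ a),
      mul_le_mul_of_nonneg_left hba (by omega : (0 : ℤ) ≤ c)]
  have hba : b ≤ a := by
    by_contra hba
    push Not at hba
    nlinarith [mul_le_mul_of_nonneg_left (by omega : e ≤ c - 1) (by omega : (0 : ℤ) ≤ a),
      mul_le_mul_of_nonneg_left (by omega : a + 1 ≤ b) (by omega : (0 : ℤ) ≤ c)]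
  exact ⟨hb, hba, by omega, hec⟩

theorem exists_parents {r : ℕ} {d : ℤ} (hr : 2 ≤ r) (h : IsCoprime (r : ℤ) d) :
    ∃ (a c : ℕ) (b e : ℤ), 1 ≤ a ∧ 1 ≤ c ∧ a + c = r ∧ b + e = d ∧ (a : ℤ) * e - c * b = 1 ∧
      IsCoprime (a : ℤ) b ∧ IsCoprime (c : ℤ) e := by
  obtain ⟨u, v, huv⟩ := h
  have hr0 : (0 : ℤ) < r := by exact_mod_cast (by omega : 0 < r)
  have h0 := Int.emod_nonneg v hr0.ne'
  have h1 := Int.emod_lt_of_pos v hr0
  have h2 := Int.emod_add_mul_ediv v r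
  obtain ⟨a, ha⟩ := Int.eq_ofNat_of_zero_le h0
  rw [ha] at h1 h2
  have ha1 : 1 ≤ a := by
    by_contra hcon
    have h3 : a = 0 := by omega
    subst h3
    have h2' : (r : ℤ) * (v / r) = v := by simpa using h2
    have h4 : (r : ℤ) ∣ 1 := ⟨u + v / r * d, by linear_combination (-1 : ℤ) * huv - d * h2'⟩
    have h5 := Int.le_of_dvd one_pos h4
    have h6 : r ≤ 1 := by exact_mod_cast h5
    omega
  have har : a < r := by exact_mod_cast h1
  have hc : ((r - a : ℕ) : ℤ) = r - a := by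
    push_cast [Nat.cast_sub har.le]
    ring
  have hdet : (a : ℤ) * (d - (-u - v / r * d)) - ((r - a : ℕ) : ℤ) * (-u - v / r * d) = 1 := by
    rw [hc]
    linear_combination huv + d * h2
  refine ⟨a, r - a, -u - v / r * d, d - (-u - v / r * d), ha1, by omega, by omega, by ring,
    hdet, ?_, ?_⟩
  · exact ⟨d - (-u - v / r * d), -((r - a : ℕ) : ℤ), by linear_combination hdet⟩
  · exact ⟨-(-u - v / r * d), a, by linear_combination hdet⟩

end Pool.Agent.MP_09eaec.GG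
end

section

/-!
# The numerical inequality
-/

set_option autoImplicit false

namespace Pool.Agent.MP_09eaec.GG

open Module

universe u v

variable {k : Type u} {K : Type v} [Field k] [Field K] [Algebra k K]
variable {W : Type v} [AddCommGroup W] [Module K W] [Module k W] [IsScalarTower k K W]
variable {A : Type v} [AddCommGroup A] [Module K A] [Module k A] [IsScalarTower k K A]
variable {B : Type v} [AddCommGroup B] [Module K B] [Module k B] [IsScalarTower k K B]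

/-- `X = deg + α h0 - σ rank` is negative except for the whole system. -/
theorem sys_num {g m j a e1 i h δ e : ℝ} {α σ τ : ℝ} (hm : 0 < m) (hj : 0 ≤ j)
    (ha : a = (3 * g - 3) * m - e1 - j) (ha0 : 0 ≤ a)
    (hσ : (m + j) * σ = (e1 + (2 * g - 2) * j) + α * (e1 - (g - 1) * m + g * j))
    (hτ : τ = 2 * g - 2 + α * g - σ) (hτ0 : 0 < τ) (hc : (1 + (m - 1) * a) * τ < 1 + α)
    (hm1 : 1 ≤ m) (hi : 0 ≤ i) (hh : 0 ≤ h) (hr : 1 ≤ i + h) (hrn : i + h ≤ m + j)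
    (h1 : e ≤ δ + h * (2 * g - 2)) (h2 : g * h ≤ (3 * g - 3) * (i + h) - e)
    (h3 : (i = 0 ∧ δ = 0) ∨ (i = m ∧ δ = e1) ∨ (1 ≤ i ∧ i + 1 ≤ m ∧ m * δ + 1 ≤ i * e1))
    (hX : σ * (i + h) ≤ e + α * (e - (g - 1) * (i + h) + h)) : i = m ∧ h = j := by
  have hα : 0 < 1 + α := by
    have : 0 ≤ (m - 1) * a := mul_nonneg (by linarith) ha0
    nlinarith
  have hτ1 : τ < 1 + α := by
    have : 0 ≤ (m - 1) * a * τ := mul_nonneg (mul_nonneg (by linarith) ha0) hτ0.le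
    nlinarith
  -- `(1 + α) e1 - m (α (g - 1) + σ) = - j τ`
  have hE : (1 + α) * e1 - m * (α * (g - 1) + σ) = - (j * τ) := by
    rw [hτ]; linear_combination -hσ
  rcases h3 with ⟨hi0, hδ0⟩ | ⟨hi0, hδ0⟩ | ⟨hi1, him, hδ⟩
  · exfalso
    subst hi0 hδ0
    have h4 : e ≤ (2 * g - 3) * h := by linarith
    have h5 : (1 + α) * e ≤ (1 + α) * ((2 * g - 3) * h) := mul_le_mul_of_nonneg_left h4 hα.le
    have h6 : h * (τ - 1 - α) < 0 := by
      have : 0 < h := by linarith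
      nlinarith
    rw [hτ] at h6
    nlinarith
  · subst hi0 hδ0
    have h5 : (1 + α) * e ≤ (1 + α) * (δ + h * (2 * g - 2)) :=
      mul_le_mul_of_nonneg_left h1 hα.le
    have h6 : 0 ≤ (h - j) * τ := by
      rw [hτ] at hE ⊢
      nlinarith
    have h7 : j ≤ h := by
      by_contra hcon
      push Not at hcon
      nlinarith
    exact ⟨rfl, by linarith⟩
  · exfalso
    have h4 : (1 + α) * e ≤ (1 + α - τ) * (δ + h * (2 * g - 2)) +
        τ * ((3 * g - 3) * (i + h) - g * h) := by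
      have := mul_le_mul_of_nonneg_left h1 (by linarith : 0 ≤ 1 + α - τ)
      have := mul_le_mul_of_nonneg_left (by linarith : e ≤ (3 * g - 3) * (i + h) - g * h) hτ0.le
      linarith
    have h5 : 0 ≤ (1 + α - τ) * δ + i * ((3 * g - 3) * τ - α * (g - 1) - σ) := by
      have : (1 + α - τ) * (δ + h * (2 * g - 2)) + τ * ((3 * g - 3) * (i + h) - g * h) +
          α * (-(g - 1) * (i + h) + h) - σ * (i + h) =
          (1 + α - τ) * δ + i * ((3 * g - 3) * τ - α * (g - 1) - σ) := by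
        rw [hτ]; ring
      linarith
    have h6 : 0 ≤ (1 + α - τ) * (i * e1 - 1) + m * (i * ((3 * g - 3) * τ - α * (g - 1) - σ)) := by
      have h7 := mul_nonneg hm.le h5
      have h8 := mul_le_mul_of_nonneg_left (by linarith : m * δ ≤ i * e1 - 1)
        (by linarith : 0 ≤ 1 + α - τ)
      linarith
    have h7 : (1 + α - τ) * (i * e1 - 1) + m * (i * ((3 * g - 3) * τ - α * (g - 1) - σ)) =
        i * (τ * a) - (1 + α - τ) := by
      rw [ha]; linear_combination i * hE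
    have h8 : i * (τ * a) ≤ (m - 1) * (τ * a) :=
      mul_le_mul_of_nonneg_right (by linarith) (mul_nonneg hτ0.le ha0)
    nlinarith

end Pool.Agent.MP_09eaec.GG
end

section

/-!
# TASK NumG: the numbers of the chain

`dG x i = ⌈(3 i + 1) x⌉ - 1` is the degree of the part of `F'` of rank `i`, `rG x i = dG x i - (3 i + 1) x` its excess.
`dG_diff`: `2 dG i - dG (i-1) - dG (i+1) = 2 rG i - rG (i-1) - rG (i+1) < 0 + 1 + 1`. `dG_diff'`: `rG i = -1` gives `2 rG i - ... ≤ -2 + 2 = 0`.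
`dG_last`: `2 rG i - rG (i-1) < 1`. `first_a`: `2 e - l = 2 x + 2 r2 - 3 r1` with `e = r2 - r1 + 3 x`, `l = r1 + 4 x`.
-/

set_option autoImplicit false

namespace Pool.Agent.MP_09eaec.GG.G3

open Module

universe u v

variable {k : Type u} {K : Type v} [Field k] [Field K] [Algebra k K]
variable {W : Type v} [AddCommGroup W] [Module K W] [Module k W] [IsScalarTower k K W]
variable {A : Type v} [AddCommGroup A] [Module K A] [Module k A] [IsScalarTower k K A]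
variable {B : Type v} [AddCommGroup B] [Module K B] [Module k B] [IsScalarTower k K B]

noncomputable def dG (x : ℝ) (i : ℕ) : ℤ := ⌈(3 * (i : ℝ) + 1) * x⌉ - 1

noncomputable def rG (x : ℝ) (i : ℕ) : ℝ := dG x i - (3 * (i : ℝ) + 1) * x

theorem rG_ge (x : ℝ) (i : ℕ) : -1 ≤ rG x i := by
  unfold rG dG
  have h1 := Int.le_ceil ((3 * (i : ℝ) + 1) * x)
  push_cast
  linarith

theorem rG_lt (x : ℝ) (i : ℕ) : rG x i < 0 := by
  unfold rG dG
  have h1 := Int.ceil_lt_add_one ((3 * (i : ℝ) + 1) * x)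
  push_cast
  linarith

theorem rG_succ (x : ℝ) (i : ℕ) :
    rG x (i + 1) = rG x i + ((dG x (i + 1) - dG x i : ℤ) : ℝ) + -3 * x := by
  unfold rG
  push_cast
  ring

theorem dG_diff (x : ℝ) (i : ℕ) :
    (dG x (i + 1) - dG x i) - (dG x (i + 2) - dG x (i + 1)) ≤ 1 := by
  have h0 := rG_ge x i
  have h1 := rG_lt x (i + 1)
  have h2 := rG_ge x (i + 2)
  have e1 := rG_succ x i
  have e2 := rG_succ x (i + 1)
  have h3 : (((dG x (i + 1) - dG x i) - (dG x (i + 2) - dG x (i + 1)) : ℤ) : ℝ) < 2 := by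
    push_cast at e1 e2 ⊢
    have e3 : i + 1 + 1 = i + 2 := rfl
    rw [e3] at e2
    linarith
  have h4 : (dG x (i + 1) - dG x i) - (dG x (i + 2) - dG x (i + 1)) < 2 := by exact_mod_cast h3
  omega

theorem dG_diff' (x : ℝ) (i : ℕ) (h : rG x (i + 1) = -1) :
    (dG x (i + 1) - dG x i) ≤ (dG x (i + 2) - dG x (i + 1)) := by
  have h0 := rG_ge x i
  have h2 := rG_ge x (i + 2)
  have e1 := rG_succ x i
  have e2 := rG_succ x (i + 1)
  have h3 : (((dG x (i + 1) - dG x i) : ℤ) : ℝ) ≤ ((dG x (i + 2) - dG x (i + 1) : ℤ) : ℝ) := by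
    push_cast at e1 e2 ⊢
    have e3 : i + 1 + 1 = i + 2 := rfl
    rw [e3] at e2
    linarith
  exact_mod_cast h3

theorem dG_last {x : ℝ} {i : ℕ} {δ : ℤ} (hδ : (δ : ℝ) = (3 * ((i + 2 : ℕ) : ℝ) + 1) * x) :
    (dG x (i + 1) - dG x i) ≤ δ - dG x (i + 1) := by
  have h0 := rG_ge x i
  have h1 := rG_lt x (i + 1)
  have e1 := rG_succ x i
  have e2 : rG x (i + 1) = dG x (i + 1) - (3 * ((i + 1 : ℕ) : ℝ) + 1) * x := rfl
  have h3 : (((dG x (i + 1) - dG x i) - (δ - dG x (i + 1)) : ℤ) : ℝ) < 1 := by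
    push_cast at e1 e2 hδ ⊢
    linarith
  have h4 : (dG x (i + 1) - dG x i) - (δ - dG x (i + 1)) < 1 := by exact_mod_cast h3
  omega

/-- The numbers of the first step; `e` is the degree of the second line bundle, `r2` the excess
after the step, `l` the degree of the first line bundle. -/
theorem first_step {x r1 r2 : ℝ} {l e : ℤ} (hx : 2 < x) (h1 : (l : ℝ) = r1 + 4 * x)
    (h1a : -1 ≤ r1) (h1b : r1 < 0) (he : (e : ℝ) = r2 - r1 + 3 * x) (h2a : -1 ≤ r2)
    (h2b : r2 ≤ 0) :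
    1 ≤ 2 * e - l ∧ (r1 = -1 → 5 ≤ 2 * e - l) ∧ (1 : ℝ) ≤ e - 2 - x ∧
      (r1 = -1 → (2 : ℝ) < e - 2 - x) ∧ 3 * x < e + 2 := by
  refine ⟨?_, ?_, by linarith, fun h => by linarith, by linarith⟩
  · have h3 : (2 : ℝ) < ((2 * e - l : ℤ) : ℝ) := by
      push_cast
      linarith
    have h4 : (2 : ℤ) < 2 * e - l := by exact_mod_cast h3
    omega
  · intro h
    have h3 : (5 : ℝ) < ((2 * e - l : ℤ) : ℝ) := by
      push_cast
      linarith
    have h4 : (5 : ℤ) < 2 * e - l := by exact_mod_cast h3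
    omega

end Pool.Agent.MP_09eaec.GG.G3
end

section

/-!
# TASK NumOdd: the numbers for an odd number of sections

`(3 m + 1) x = n + 3 m + 1`, `N = n + m`, `x > 2`. `σ = deg S`, `r = rank S`, `n σ ≥ r (3 n - 3 m - 1)`. Put `D = 3 m + 1`, so `3 n + D = D (3 x - 2)`,
`n = D (x - 1)`, `6 n - (3 n - 3 m - 1) = 3 n + D`.
* `num_odd_a` (first alternative, `j = rank J = ρ + 1`): `n (3 u + 1) ≤ r (3 n + D) ≤ (u - ρ) (3 n + D)`, so `u D ≥ ρ (3 n + D) + n`, `u ≥ ρ (3 x - 2) + x - 1`. If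
  `u + 3 < (3 x - 2) ρ + x + 2` this is a contradiction (this is `hbk` for a marked `J ≠ ⊤`).
* `num_odd_top`: `ρ = m`: `u ≥ m (3 x - 2) + x - 1 = N` (`D (m (3 x - 2) + x - 1) = m (3 n + D) + n = D (n + m)`), so `u = N`, and `r (3 n + D) ≥ n (3 N + 1) = n (3 n + D)`,
  `r ≥ n`.
* `num_odd_b` (second alternative, `j = rank J`): `3 n u ≤ r (3 n + D) ≤ (u - j) (3 n + D)`, so `u D ≥ j (3 n + D)`, `u ≥ j (3 x - 2)`. Contradiction to
  `u < (3 x - 2) j` (unmarked) and to `u + 3 < (3 x - 2) (j - 1) + x + 2` (marked, `≠ ⊤`; `x - 1 < 3 x - 2`).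
* `num_odd_btop`: `j = m + 1`, `u ≤ N`: `N ≥ (m + 1) (3 x - 2)`, but `D N = m (3 n + D) + n < (m + 1) (3 n + D)`.
-/

set_option autoImplicit false

namespace Pool.Agent.MP_09eaec.GG.G3

open Module

universe u v

variable {k : Type u} {K : Type v} [Field k] [Field K] [Algebra k K]
variable {W : Type v} [AddCommGroup W] [Module K W] [Module k W] [IsScalarTower k K W]
variable {A : Type v} [AddCommGroup A] [Module K A] [Module k A] [IsScalarTower k K A]
variable {B : Type v} [AddCommGroup B] [Module K B] [Module k B] [IsScalarTower k K B]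

private theorem NumOdd_x {n m : ℕ} {x : ℝ} (hx : (3 * (m : ℝ) + 1) * x = n + 3 * m + 1) :
    (3 * (n : ℝ) + (3 * m + 1)) = (3 * (m : ℝ) + 1) * (3 * x - 2) ∧
      (n : ℝ) = (3 * (m : ℝ) + 1) * (x - 1) ∧ 1 ≤ x := by
  refine ⟨by linarith, by linarith, ?_⟩
  have h1 : (0 : ℝ) ≤ n := Nat.cast_nonneg n
  have h2 : (0 : ℝ) ≤ m := Nat.cast_nonneg m
  by_contra h
  push Not at h
  nlinarith

private theorem NumOdd_r {n m r : ℕ} {σ c : ℤ} (hσ : (r : ℤ) * (3 * n - 3 * m - 1) ≤ n * σ)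
    (h1 : c ≤ 6 * r - σ) : (n : ℤ) * c ≤ r * (3 * n + (3 * m + 1)) := by
  have h2 : (n : ℤ) * c ≤ n * (6 * r - σ) := mul_le_mul_of_nonneg_left h1 (by positivity)
  nlinarith

theorem num_odd_a {n m r u j : ℕ} {σ : ℤ} {x h : ℝ} (hm : 1 ≤ m) (hn : 3 * m + 1 < n)
    (hx : (3 * (m : ℝ) + 1) * x = n + 3 * m + 1) (hσ : (r : ℤ) * (3 * n - 3 * m - 1) ≤ n * σ)
    (h1 : 3 * (u : ℤ) + 1 ≤ 6 * r - σ) (h2 : r + j ≤ u + 1) (h3 : (u : ℝ) + 3 ≤ h)
    (h4 : h < (3 * x - 2) * (j - 1) + x + 2) : False := by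
  obtain ⟨x1, x2, x3⟩ := NumOdd_x hx
  have hr := NumOdd_r hσ h1
  have hrR : (n : ℝ) * (3 * u + 1) ≤ r * (3 * n + (3 * m + 1)) := by exact_mod_cast hr
  have h2R : (r : ℝ) ≤ u - (j - 1) := by
    have : (r : ℝ) + j ≤ u + 1 := by exact_mod_cast h2
    linarith
  have hD : (0 : ℝ) < 3 * (m : ℝ) + 1 := by positivity
  have hpos : (0 : ℝ) ≤ 3 * (n : ℝ) + (3 * m + 1) := by positivity
  have h5 := mul_le_mul_of_nonneg_right h2R hpos
  have h6 : (3 * (m : ℝ) + 1) * ((3 * x - 2) * (j - 1) + (x - 1)) ≤ (3 * (m : ℝ) + 1) * u := by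
    have e1 : (3 * (m : ℝ) + 1) * ((3 * x - 2) * (j - 1) + (x - 1)) =
        ((j : ℝ) - 1) * (3 * (n : ℝ) + (3 * m + 1)) + n := by
      rw [x1]
      linear_combination (-1 : ℝ) * x2
    rw [e1]
    linarith
  have h7 := le_of_mul_le_mul_left h6 hD
  linarith

theorem num_odd_top {n m r u : ℕ} {σ : ℤ} (hm : 1 ≤ m) (hn : 3 * m + 1 < n)
    (hσ : (r : ℤ) * (3 * n - 3 * m - 1) ≤ n * σ) (h1 : 3 * (u : ℤ) + 1 ≤ 6 * r - σ)
    (h2 : r + (m + 1) ≤ u + 1) (hu : u ≤ n + m) : n ≤ r := by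
  have hr := NumOdd_r hσ h1
  have h2Z : (r : ℤ) ≤ u - m := by
    have : (r : ℤ) + (m + 1) ≤ u + 1 := by exact_mod_cast h2
    linarith
  have hD : (0 : ℤ) < 3 * (m : ℤ) + 1 := by positivity
  have hpos : (0 : ℤ) ≤ 3 * (n : ℤ) + (3 * m + 1) := by positivity
  have h5 := mul_le_mul_of_nonneg_right h2Z hpos
  have h6 : (3 * (m : ℤ) + 1) * (n + m) ≤ (3 * (m : ℤ) + 1) * u := by
    have e1 : (3 * (m : ℤ) + 1) * (n + m) = m * (3 * (n : ℤ) + (3 * m + 1)) + n := by ring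
    rw [e1]
    linarith
  have h7 := le_of_mul_le_mul_left h6 hD
  have h8 : (u : ℤ) = n + m := le_antisymm (by exact_mod_cast hu) h7
  rw [h8] at hr
  have hposS : (0 : ℤ) < 3 * (n : ℤ) + (3 * m + 1) := by positivity
  have h9 : (n : ℤ) * (3 * n + (3 * m + 1)) ≤ r * (3 * n + (3 * m + 1)) := by
    calc (n : ℤ) * (3 * n + (3 * m + 1)) = n * (3 * (n + m) + 1) := by ring
      _ ≤ _ := hr
  exact_mod_cast le_of_mul_le_mul_right h9 hposS

theorem num_odd_b {n m r u j : ℕ} {σ : ℤ} {x h : ℝ} (hm : 1 ≤ m) (hn : 3 * m + 1 < n)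
    (hx : (3 * (m : ℝ) + 1) * x = n + 3 * m + 1) (hσ : (r : ℤ) * (3 * n - 3 * m - 1) ≤ n * σ)
    (h1 : 3 * (u : ℤ) ≤ 6 * r - σ) (h2 : r + j ≤ u)
    (h : ((u : ℝ) < (3 * x - 2) * j) ∨ ((u : ℝ) + 3 < (3 * x - 2) * (j - 1) + x + 2)) :
    False := by
  obtain ⟨x1, x2, x3⟩ := NumOdd_x hx
  have hr := NumOdd_r hσ h1
  have hrR : (n : ℝ) * (3 * u) ≤ r * (3 * n + (3 * m + 1)) := by exact_mod_cast hr
  have h2R : (r : ℝ) ≤ u - j := by
    have : (r : ℝ) + j ≤ u := by exact_mod_cast h2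
    linarith
  have hD : (0 : ℝ) < 3 * (m : ℝ) + 1 := by positivity
  have hpos : (0 : ℝ) ≤ 3 * (n : ℝ) + (3 * m + 1) := by positivity
  have h5 := mul_le_mul_of_nonneg_right h2R hpos
  have h6 : (3 * (m : ℝ) + 1) * ((3 * x - 2) * j) ≤ (3 * (m : ℝ) + 1) * u := by
    have e1 : (3 * (m : ℝ) + 1) * ((3 * x - 2) * j) =
        (j : ℝ) * (3 * (n : ℝ) + (3 * m + 1)) := by
      rw [x1]
      ring
    rw [e1]
    linarith
  have h7 := le_of_mul_le_mul_left h6 hD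
  rcases h with h | h
  · linarith
  · linarith

theorem num_odd_btop {n m r u : ℕ} {σ : ℤ} (hm : 1 ≤ m) (hn : 3 * m + 1 < n)
    (hσ : (r : ℤ) * (3 * n - 3 * m - 1) ≤ n * σ) (h1 : 3 * (u : ℤ) ≤ 6 * r - σ)
    (h2 : r + (m + 1) ≤ u) (hu : u ≤ n + m) : False := by
  have hr := NumOdd_r hσ h1
  have h2Z : (r : ℤ) ≤ u - (m + 1) := by
    have : (r : ℤ) + (m + 1) ≤ u := by exact_mod_cast h2
    linarith
  have huZ : (u : ℤ) ≤ n + m := by exact_mod_cast hu
  have hD : (0 : ℤ) ≤ 3 * (m : ℤ) + 1 := by positivity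
  have hpos : (0 : ℤ) ≤ 3 * (n : ℤ) + (3 * m + 1) := by positivity
  have h5 := mul_le_mul_of_nonneg_right h2Z hpos
  have h6 := mul_le_mul_of_nonneg_left huZ hD
  have h7 : (0 : ℤ) < n := by exact_mod_cast (by omega : 0 < n)
  nlinarith

end Pool.Agent.MP_09eaec.GG.G3
end
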