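import Pool.Agent.Lib.MP_09eaec_ag.Mg.G002
import Pool.Agent.Lib.MP_09eaec_ag.Mg.G003

section

/-!
# TASK C1: the space of Weil differentials has dimension one over `K`

`ω, lam` functionals on `Place →₀ K` vanishing on `N (line D1)`, `N (line D2)`; `ω ≠ 0`. Claim:
`lam a = ω (x • a)` for some `x : K`. If `lam = 0` take `x = 0`. Otherwise choose a point `P0`
(`infinite_places`) and `T = single P0 m`, `m` large. For `x ∈ H0 (line (D1 + T))` the functional
`a ↦ ω (x • a)` vanishes on `N (line (-T))`: `x` is in `P.filt (-(D1 + T) P) = P.filt ((-T) P - D1 P)`, so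
`smul_mem_N` applies (`D = -T`, `D' = D1`). So `α x = (a ↦ ω (x • a))` is a `k`-linear map
`H0 (line (D1 + T)) → Module.Dual k (H1 (line (-T)))`; it is injective (if `x ≠ 0`, `ω (x • a) = 0` for all
`a`, replace `a` by `x⁻¹ • a`: `ω = 0`). Same for `β y = (a ↦ lam (y • a))` on `H0 (line (D2 + T))`.
Dimensions: `h0 (line (D_i + T)) ≥ ddeg D_i + m - 1` (`CurveG.riemann`), and
`h1 (line (-T)) = h0 - chi = 0 - (-m - 1) = m + 1` (`H0_line_of_neg`, `chi_line`). For `m` large
`(ddeg D1 + m - 1) + (ddeg D2 + m - 1) > m + 1`, so `(x, y) ↦ α x - β y` is not injective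
(`LinearMap.exists_ne_zero_of_...` / `finrank` inequality): `α x = β y`, `(x, y) ≠ 0`, so `x ≠ 0` and `y ≠ 0`
(injectivity). Then `lam a = lam (y • (y⁻¹ • a)) = ω (x • (y⁻¹ • a)) = ω ((x y⁻¹) • a)`.
-/

set_option autoImplicit false

namespace Pool.Agent.MP_09eaec.GG

open Module

universe u v

variable {k : Type u} {K : Type v} [Field k] [Field K] [Algebra k K]
variable {W : Type v} [AddCommGroup W] [Module K W] [Module k W] [IsScalarTower k K W]
variable {A : Type v} [AddCommGroup A] [Module K A] [Module k A] [IsScalarTower k K A]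
variable {B : Type v} [AddCommGroup B] [Module K B] [Module k B] [IsScalarTower k K B]

variable [CurveG k K]

omit [CurveG k K] in
private theorem Omega_inj {ω : (Place k K →₀ K) →ₗ[k] k} (hω0 : ω ≠ 0) {x : K}
    (h : ∀ a : Place k K →₀ K, ω (x • a) = 0) : x = 0 := by
  by_contra hx
  apply hω0
  ext1 P
  ext1 c
  have h1 := h (x⁻¹ • Finsupp.single P c)
  rw [smul_smul, mul_inv_cancel₀ hx, one_smul] at h1
  exact h1

/-- The functional `a ↦ ω (x • a)`, linear in `x`. -/
private noncomputable def Omega_act (ω : (Place k K →₀ K) →ₗ[k] k) :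
    K →ₗ[k] ((Place k K →₀ K) →ₗ[k] k) where
  toFun x :=
    { toFun := fun a => ω (x • a)
      map_add' := fun a b => by rw [smul_add, map_add]
      map_smul' := fun c a => by
        rw [smul_comm, map_smul, RingHom.id_apply] }
  map_add' x y := by
    ext1 P
    ext1 c
    show ω ((x + y) • Finsupp.single P c) = ω (x • Finsupp.single P c) + ω (y • Finsupp.single P c)
    rw [add_smul, map_add]
  map_smul' c x := by
    ext1 P
    ext1 d
    show ω ((c • x) • Finsupp.single P d) = c • ω (x • Finsupp.single P d)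
    rw [smul_assoc, map_smul]

/-- The map `α`. -/
private noncomputable def Omega_al (ω : (Place k K →₀ K) →ₗ[k] k) (D T : Dv k K)
    (hω : ∀ a ∈ (line D).N, ω a = 0) :
    (line (D + T)).H0 →ₗ[k] ((line (-T)).H1 →ₗ[k] k) where
  toFun x := (line (-T)).N.liftQ (Omega_act ω x) (by
    intro a ha
    rw [LinearMap.mem_ker]
    show ω ((x : K) • a) = 0
    apply hω
    refine smul_mem_N (D := -T) (D' := D) (fun P => ?_) ha
    have h1 := VB.mem_H0.1 x.2 P
    rw [mem_line] at h1
    have e : -(D + T) P = (-T) P - D P := by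
      simp only [Finsupp.coe_add, Pi.add_apply, Finsupp.coe_neg, Pi.neg_apply]
      ring
    rw [e] at h1
    exact h1)
  map_add' x y := by
    apply Submodule.linearMap_qext
    show Omega_act ω ((x : K) + (y : K)) = Omega_act ω (x : K) + Omega_act ω (y : K)
    rw [map_add]
  map_smul' c x := by
    apply Submodule.linearMap_qext
    show Omega_act ω (c • (x : K)) = c • Omega_act ω (x : K)
    rw [map_smul]

private theorem Omega_al_apply (ω : (Place k K →₀ K) →ₗ[k] k) (D T : Dv k K)
    (hω : ∀ a ∈ (line D).N, ω a = 0) (x : (line (D + T)).H0) (a : Place k K →₀ K) :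
    Omega_al ω D T hω x (Submodule.Quotient.mk a) = ω ((x : K) • a) := rfl

theorem omega_unique {ω lam : (Place k K →₀ K) →ₗ[k] k} {D1 D2 : Dv k K} (hω0 : ω ≠ 0)
    (hω : ∀ a ∈ (line D1).N, ω a = 0) (hlam : ∀ a ∈ (line D2).N, lam a = 0) :
    ∃ x : K, ∀ a, lam a = ω (x • a) := by
  by_cases hl0 : lam = 0
  · refine ⟨0, fun a => ?_⟩
    rw [hl0, zero_smul, map_zero]
    rfl
  have := infinite_places (k := k) (K := K)
  obtain ⟨P0⟩ : Nonempty (Place k K) := inferInstance
  have hg := CurveG.two_le (k := k) (K := K)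
  set m : ℤ := |ddeg D1| + |ddeg D2| + 3 * gen k K with hm
  set T : Dv k K := Finsupp.single P0 m with hT
  have hTd : ddeg T = m := ddeg_single P0 m
  have hm0 : 4 ≤ m := by
    have := abs_nonneg (ddeg D1)
    have := abs_nonneg (ddeg D2)
    omega
  have hn : ddeg (-T) < 0 := by rw [ddeg_neg, hTd]; omega
  -- the dimension of the space of functionals
  have hcod : (finrank k ((line (-T)).H1 →ₗ[k] k) : ℤ) = m - 1 + gen k K := by
    have h1 : finrank k ((line (-T)).H1 →ₗ[k] k) = finrank k (line (-T)).H1 :=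
      Module.finrank_linearMap_self k k _
    rw [h1]
    have h2 : (line (-T)).h0 = 0 := by
      unfold VB.h0
      rw [H0_line_of_neg hn, finrank_bot]
      rfl
    have h3 := chi_line (-T)
    unfold VB.chi at h3
    rw [h2, ddeg_neg, hTd] at h3
    have h4 : (line (-T)).h1 = m - 1 + gen k K := by linarith
    exact h4
  have hd1 : ddeg D1 + m + 1 - gen k K ≤ (finrank k (line (D1 + T)).H0 : ℤ) := by
    have := CurveG.riemann (D1 + T)
    rw [ddeg_add, hTd] at this
    exact this
  have hd2 : ddeg D2 + m + 1 - gen k K ≤ (finrank k (line (D2 + T)).H0 : ℤ) := by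
    have := CurveG.riemann (D2 + T)
    rw [ddeg_add, hTd] at this
    exact this
  let Φ : (line (D1 + T)).H0 × (line (D2 + T)).H0 →ₗ[k] ((line (-T)).H1 →ₗ[k] k) :=
    (Omega_al ω D1 T hω).coprod (-(Omega_al lam D2 T hlam))
  have hlt : finrank k ((line (-T)).H1 →ₗ[k] k) <
      finrank k ((line (D1 + T)).H0 × (line (D2 + T)).H0) := by
    rw [finrank_prod]
    have a1 := neg_abs_le (ddeg D1)
    have a2 := neg_abs_le (ddeg D2)
    zify
    rw [hcod]
    omega
  have hker : LinearMap.ker Φ ≠ ⊥ := LinearMap.ker_ne_bot_of_finrank_lt hlt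
  obtain ⟨⟨x, y⟩, hxy, hne⟩ := Submodule.exists_mem_ne_zero_of_ne_bot hker
  have hrel : ∀ a, ω ((x : K) • a) = lam ((y : K) • a) := by
    intro a
    have h1 : Φ (x, y) = 0 := hxy
    have h2 : Φ (x, y) (Submodule.Quotient.mk a) = ω ((x : K) • a) - lam ((y : K) • a) := by
      show (Omega_al ω D1 T hω x + -(Omega_al lam D2 T hlam y)) (Submodule.Quotient.mk a) = _
      rw [← sub_eq_add_neg]
      rfl
    rw [h1, LinearMap.zero_apply] at h2
    exact sub_eq_zero.1 h2.symm
  have hy : (y : K) ≠ 0 := by
    intro hy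
    have hx : (x : K) = 0 := by
      apply Omega_inj hω0
      intro a
      rw [hrel a, hy, zero_smul, map_zero]
    apply hne
    exact Prod.ext (Subtype.ext hx) (Subtype.ext hy)
  refine ⟨(x : K) * (y : K)⁻¹, fun a => ?_⟩
  rw [mul_smul, hrel, smul_smul, mul_inv_cancel₀ hy, one_smul]

/-- If `ω (x • a) = 0` for all `a` then `x = 0`. -/
theorem omega_smul_injective {ω : (Place k K →₀ K) →ₗ[k] k} (hω0 : ω ≠ 0) {x : K}
    (h : ∀ a : Place k K →₀ K, ω (x • a) = 0) : x = 0 :=
  Omega_inj hω0 h

end Pool.Agent.MP_09eaec.GG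
end

section

/-!
# TASK C3: Serre duality

`ω, κ` as in `exists_kappa`.
* `exists_hom_kappa`: `N E ≠ ⊤`: there is a functional `lam ≠ 0` on `Place →₀ W` vanishing on `N E`. For
  `w : W` let `lam_w a = lam (a • w)` (`a • w = a.mapRange (· • w)`), a functional on `Place →₀ K`. It vanishes
  on `N (line (-e))`, `e` from `E.lower w` (if `a P - y ∈ P.filt (e P)` then `a P • w - y • w ∈ E.M P`).
  By `omega_unique` there is `φ w : K` with `lam_w a = ω (φ w • a)` for all `a`, unique by
  `omega_smul_injective`; so `φ` is `K`-linear (`lam_(x w) a = lam_w (x • a)`). `φ ≠ 0`: `lam a ≠ 0` for some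
  `a`, so `lam (single P w) ≠ 0` for some `P, w` (`a` is a sum of singles), i.e. `lam_w (single P 1) ≠ 0`.
  For `x ∈ E.M P`, `c ∈ P.filt 0`: `ω (single P (c φ x)) = ω (φ x • single P c) = lam_x (single P c) =
  lam (single P (c x)) = 0` (`c x ∈ E.M P`), so `φ x ∈ (line κ).M P`.
* `serre_line`: the map `H0 (line (κ - D)) → Module.Dual k (H1 (line D))`, `x ↦ (a ↦ ω (x • a))` is well
  defined (`smul_mem_N` and (2)), injective (`omega_smul_injective`), and surjective: a functional `lam`
  vanishing on `N (line D)` is `a ↦ ω (x • a)` (`omega_unique`), and for `c ∈ P.filt (-D P)`,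
  `c' ∈ P.filt 0`: `ω (single P (c' (x c))) = lam (single P (c' c)) = 0`, so `x c ∈ P.filt (-κ P)`; with `c` of
  order `-D P`: `x ∈ P.filt (-κ P + D P)`.
-/

set_option autoImplicit false

namespace Pool.Agent.MP_09eaec.GG

open Module

universe u v

variable {k : Type u} {K : Type v} [Field k] [Field K] [Algebra k K]
variable {W : Type v} [AddCommGroup W] [Module K W] [Module k W] [IsScalarTower k K W]
variable {A : Type v} [AddCommGroup A] [Module K A] [Module k A] [IsScalarTower k K A]
variable {B : Type v} [AddCommGroup B] [Module K B] [Module k B] [IsScalarTower k K B]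

variable [CurveG k K]

/-- A vector of the stalk at `P`, placed at `P`, is in `N`. -/
private theorem Dual_single_mem_N {E : VB k K W} {P : Place k K} {x : W} (hx : x ∈ E.M P) :
    Finsupp.single P x ∈ E.N := by
  classical
  refine ⟨0, fun Q => ?_⟩
  rw [sub_zero, Finsupp.single_apply]
  split_ifs with h
  · subst h; exact hx
  · exact zero_mem _

/-- The map `a ↦ a • w`. -/
private noncomputable def Dual_sm (k : Type u) {K : Type v} [Field k] [Field K] [Algebra k K]
    {W : Type v} [AddCommGroup W] [Module K W] [Module k W] [IsScalarTower k K W] (w : W) :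
    (Place k K →₀ K) →ₗ[k] (Place k K →₀ W) :=
  Finsupp.mapRange.linearMap ((LinearMap.toSpanSingleton K W w).restrictScalars k)

private theorem Dual_sm_apply (w : W) (a : Place k K →₀ K) (P : Place k K) :
    (Dual_sm k w a) P = a P • w := rfl

private theorem Dual_sm_single (w : W) (P : Place k K) (x : K) :
    Dual_sm k w (Finsupp.single P x) = Finsupp.single P (x • w) := by
  classical
  ext Q
  rw [Dual_sm_apply, Finsupp.single_apply, Finsupp.single_apply]
  split_ifs <;> simp

theorem exists_hom_kappa {ω : (Place k K →₀ K) →ₗ[k] k} {κ : Dv k K} (h0 : ω ≠ 0)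
    (h1 : ∀ (P : Place k K) (x : K), x ∈ (line κ).M P ↔
      ∀ c ∈ P.filt 0, ω (Finsupp.single P (c * x)) = 0)
    (h2 : ∀ a ∈ (line κ).N, ω a = 0) [FiniteDimensional K W] (E : VB k K W) (hE : E.N ≠ ⊤) :
    ∃ φ : W →ₗ[K] K, φ ≠ 0 ∧ ∀ P x, x ∈ E.M P → φ x ∈ (line κ).M P := by
  obtain ⟨lam, hl0, hl⟩ := Submodule.exists_le_ker_of_lt_top E.N (lt_top_iff_ne_top.2 hE)
  have hlN : ∀ a ∈ E.N, lam a = 0 := fun a ha => hl ha
  have hex : ∀ w : W, ∃ x : K, ∀ a : Place k K →₀ K, lam (Dual_sm k w a) = ω (x • a) := by
    intro w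
    obtain ⟨e, he⟩ := E.lower w
    refine omega_unique (lam := lam ∘ₗ Dual_sm k w) (D2 := -e) h0 h2 ?_
    rintro a ⟨y, hy⟩
    refine hlN _ ⟨y • w, fun P => ?_⟩
    rw [Dual_sm_apply, ← sub_smul]
    apply he
    have := hy P
    rw [mem_line] at this
    simpa using this
  choose φ hφ using hex
  have huniq : ∀ x y : K, (∀ a : Place k K →₀ K, ω (x • a) = ω (y • a)) → x = y := by
    intro x y h
    refine sub_eq_zero.1 (omega_smul_injective h0 fun a => ?_)
    rw [sub_smul, map_sub, h a, sub_self]
  let Φ : W →ₗ[K] K :=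
    { toFun := φ
      map_add' := by
        intro w w'
        refine huniq _ _ fun a => ?_
        rw [← hφ, add_smul, map_add, ← hφ, ← hφ, ← map_add]
        congr 1
        ext P
        rw [Finsupp.add_apply, Dual_sm_apply, Dual_sm_apply, Dual_sm_apply, smul_add]
      map_smul' := by
        intro x w
        refine huniq _ _ fun a => ?_
        rw [← hφ, RingHom.id_apply, smul_eq_mul, mul_comm, mul_smul, ← hφ]
        congr 1
        ext P
        rw [Dual_sm_apply, Dual_sm_apply, Finsupp.smul_apply, smul_eq_mul, mul_comm, mul_smul] }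
  have hΦ : ∀ w a, lam (Dual_sm k w a) = ω (Φ w • a) := hφ
  refine ⟨Φ, ?_, ?_⟩
  · intro h
    apply hl0
    refine Finsupp.lhom_ext fun P w => ?_
    have := hΦ w (Finsupp.single P 1)
    rw [Dual_sm_single, one_smul, h, LinearMap.zero_apply, zero_smul, map_zero] at this
    rw [this, LinearMap.zero_apply]
  · intro P x hx
    rw [h1]
    intro c hc
    have h3 := hΦ x (Finsupp.single P c)
    rw [Dual_sm_single, hlN _ (Dual_single_mem_N (E.smul_mem P c x hc hx)),
      Finsupp.smul_single, smul_eq_mul, mul_comm] at h3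
    exact h3.symm

theorem serre_line {ω : (Place k K →₀ K) →ₗ[k] k} {κ : Dv k K} (h0 : ω ≠ 0)
    (h1 : ∀ (P : Place k K) (x : K), x ∈ (line κ).M P ↔
      ∀ c ∈ P.filt 0, ω (Finsupp.single P (c * x)) = 0)
    (h2 : ∀ a ∈ (line κ).N, ω a = 0) (D : Dv k K) : (line D).h1 = (line (κ - D)).h0 := by
  let Λ : K →ₗ[k] Module.Dual k (Place k K →₀ K) :=
    { toFun := fun x =>
        { toFun := fun a => ω (x • a)
          map_add' := fun a b => by rw [smul_add, map_add]
          map_smul' := fun c a => by rw [smul_comm, map_smul, RingHom.id_apply] }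
      map_add' := fun x y => by
        ext P
        simp [add_mul]
      map_smul' := fun c x => by
        refine LinearMap.ext fun a => ?_
        show ω ((c • x) • a) = c • ω (x • a)
        rw [smul_assoc, map_smul] }
  have hΛ : ∀ x a, Λ x a = ω (x • a) := fun _ _ => rfl
  have hinj : Function.Injective Λ := by
    rw [injective_iff_map_eq_zero]
    intro x hx
    refine omega_smul_injective h0 fun a => ?_
    rw [← hΛ, hx, LinearMap.zero_apply]
  have hmap : (line (κ - D)).H0.map Λ = (line D).N.dualAnnihilator := by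
    apply le_antisymm
    · rintro _ ⟨x, hx, rfl⟩
      rw [Submodule.mem_dualAnnihilator]
      intro a ha
      rw [hΛ]
      refine h2 _ (smul_mem_N (D := D) (D' := κ) (fun P => ?_) ha)
      have := VB.mem_H0.1 hx P
      rw [mem_line, Finsupp.sub_apply] at this
      rwa [neg_sub] at this
    · intro lam hlam
      rw [Submodule.mem_dualAnnihilator] at hlam
      obtain ⟨x, hx⟩ := omega_unique h0 h2 hlam
      refine ⟨x, VB.mem_H0.2 fun P => ?_, ?_⟩
      · obtain ⟨t, ht, htm⟩ := exists_ord_eq P (-D P)
        rw [mem_line, ← mem_filt_iff_of_ord P ht htm]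
        have h3 : t * x ∈ (line κ).M P := by
          rw [h1]
          intro c hc
          have h4 : Finsupp.single P (c * t) ∈ (line D).N := by
            apply Dual_single_mem_N
            rw [mem_line]
            have := mul_mem_filt P hc (Or.inr htm.ge : t ∈ P.filt (-D P))
            rwa [zero_add] at this
          have h5 := hx (Finsupp.single P (c * t))
          rw [hlam _ h4, Finsupp.smul_single, smul_eq_mul] at h5
          rw [show c * (t * x) = x * (c * t) by ring]
          exact h5.symm
        rw [mem_line] at h3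
        rw [Finsupp.sub_apply, show -(κ P - D P) + -D P = -κ P by ring]
        exact h3
      · refine LinearMap.ext fun a => ?_
        rw [hΛ, hx]
  have h3 : finrank k (line (κ - D)).H0 = finrank k (line D).N.dualAnnihilator := by
    rw [← hmap]
    exact (Submodule.equivMapOfInjective Λ hinj _).finrank_eq
  have h4 : finrank k (line D).H1 = finrank k (line D).N.dualAnnihilator := by
    rw [← Subspace.dual_finrank_eq]
    exact ((line D).N.dualQuotEquivDualAnnihilator).finrank_eq
  unfold VB.h1 VB.h0
  rw [h4, ← h3]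

end Pool.Agent.MP_09eaec.GG
end

section

/-!
# TASK Serre: Serre duality

`ω, κ` as in `exists_kappa`, `E` a bundle on `W`. For `φ : W → K` let `Λ φ` be the functional
`a ↦ ω (P ↦ φ (a P))` on `Place →₀ W` (`Finsupp.mapRange.linearMap`); `Λ` is `k`-linear.
* `Λ` is injective: if `Λ φ = 0`, `w : W`: `ω (φ w • b) = Λ φ (P ↦ b P • w) = 0` for all `b : Place →₀ K`, so
  `φ w = 0` (`omega_smul_injective`).
* `(hom E (line κ)).H0.map Λ = E.N.dualAnnihilator`. `≤`: if `a P - w ∈ E.M P` for all `P` then
  `φ (a P) - φ w ∈ (line κ).M P`, so `φ ∘ a ∈ (line κ).N` and `ω` vanishes on it (`h2`). `≥`: a functional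
  `lam` vanishing on `N E` is `Λ φ` with `φ` constructed as in the proof of `exists_hom_kappa` (Dual.lean: for
  `w : W` there is a unique `φ w` with `lam (a • w) = ω (φ w • a)`; copy this proof, it also shows
  `φ ∈ H0 (hom E (line κ))`); `lam = Λ φ` since both agree on all `single P w`.
* Dimensions: as at the end of `serre_line` (`Submodule.equivMapOfInjective`,
  `Submodule.dualQuotEquivDualAnnihilator`, `Subspace.dual_finrank_eq`).
-/

set_option autoImplicit false

namespace Pool.Agent.MP_09eaec.GG

open Module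

universe u v

variable {k : Type u} {K : Type v} [Field k] [Field K] [Algebra k K]
variable {W : Type v} [AddCommGroup W] [Module K W] [Module k W] [IsScalarTower k K W]
variable {A : Type v} [AddCommGroup A] [Module K A] [Module k A] [IsScalarTower k K A]
variable {B : Type v} [AddCommGroup B] [Module K B] [Module k B] [IsScalarTower k K B]

variable [CurveG k K]

private theorem Serre_single_mem_N {E : VB k K W} {P : Place k K} {x : W} (hx : x ∈ E.M P) :
    Finsupp.single P x ∈ E.N := by
  classical
  refine ⟨0, fun Q => ?_⟩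
  rw [sub_zero, Finsupp.single_apply]
  split_ifs with h
  · subst h; exact hx
  · exact zero_mem _

private noncomputable def Serre_sm (k : Type u) {K : Type v} [Field k] [Field K] [Algebra k K]
    {W : Type v} [AddCommGroup W] [Module K W] [Module k W] [IsScalarTower k K W] (w : W) :
    (Place k K →₀ K) →ₗ[k] (Place k K →₀ W) :=
  Finsupp.mapRange.linearMap ((LinearMap.toSpanSingleton K W w).restrictScalars k)

private theorem Serre_sm_apply (w : W) (a : Place k K →₀ K) (P : Place k K) :
    (Serre_sm k w a) P = a P • w := rfl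

private theorem Serre_sm_single (w : W) (P : Place k K) (x : K) :
    Serre_sm k w (Finsupp.single P x) = Finsupp.single P (x • w) := by
  classical
  ext Q
  rw [Serre_sm_apply, Finsupp.single_apply, Finsupp.single_apply]
  split_ifs <;> simp

private noncomputable def Serre_mr (φ : W →ₗ[K] K) : (Place k K →₀ W) →ₗ[k] (Place k K →₀ K) :=
  Finsupp.mapRange.linearMap (φ.restrictScalars k)

private theorem Serre_mr_apply (φ : W →ₗ[K] K) (a : Place k K →₀ W) (P : Place k K) :
    (Serre_mr φ a) P = φ (a P) := rfl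

private theorem Serre_mr_single (φ : W →ₗ[K] K) (P : Place k K) (w : W) :
    Serre_mr φ (Finsupp.single P w) = Finsupp.single P (φ w) := by
  classical
  ext Q
  rw [Serre_mr_apply, Finsupp.single_apply, Finsupp.single_apply]
  split_ifs <;> simp

private theorem Serre_mr_sm (φ : W →ₗ[K] K) (w : W) (a : Place k K →₀ K) :
    Serre_mr φ (Serre_sm k w a) = φ w • a := by
  ext Q
  rw [Serre_mr_apply, Serre_sm_apply, map_smul, Finsupp.smul_apply, smul_eq_mul, smul_eq_mul,
    mul_comm]

theorem serre {ω : (Place k K →₀ K) →ₗ[k] k} {κ : Dv k K} (h0 : ω ≠ 0)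
    (h1 : ∀ (P : Place k K) (x : K), x ∈ (line κ).M P ↔
      ∀ c ∈ P.filt 0, ω (Finsupp.single P (c * x)) = 0)
    (h2 : ∀ a ∈ (line κ).N, ω a = 0) [FiniteDimensional K W] (E : VB k K W) :
    E.h1 = (hom E (line κ)).h0 := by
  let Λ : (W →ₗ[K] K) →ₗ[k] Module.Dual k (Place k K →₀ W) :=
    { toFun := fun φ => ω ∘ₗ Serre_mr φ
      map_add' := fun φ ψ => by
        refine LinearMap.ext fun a => ?_
        show ω (Serre_mr (φ + ψ) a) = ω (Serre_mr φ a) + ω (Serre_mr ψ a)
        rw [← map_add]
        congr 1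
        ext P
        rfl
      map_smul' := fun c φ => by
        refine LinearMap.ext fun a => ?_
        show ω (Serre_mr (c • φ) a) = c • ω (Serre_mr φ a)
        rw [← map_smul]
        congr 1
        ext P
        rfl }
  have hΛ : ∀ φ a, Λ φ a = ω (Serre_mr φ a) := fun _ _ => rfl
  have hinj : Function.Injective Λ := by
    rw [injective_iff_map_eq_zero]
    intro φ hφ
    refine LinearMap.ext fun w => ?_
    refine omega_smul_injective h0 fun a => ?_
    rw [← Serre_mr_sm, ← hΛ, hφ, LinearMap.zero_apply]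
  have hmap : (hom E (line κ)).H0.map Λ = E.N.dualAnnihilator := by
    apply le_antisymm
    · rintro _ ⟨φ, hφ, rfl⟩
      rw [Submodule.mem_dualAnnihilator]
      rintro a ⟨w, hw⟩
      rw [hΛ]
      refine h2 _ ⟨φ w, fun P => ?_⟩
      rw [Serre_mr_apply, ← map_sub]
      exact mem_hom.1 (VB.mem_H0.1 hφ P) _ (hw P)
    · intro lam hlam
      rw [Submodule.mem_dualAnnihilator] at hlam
      have hex : ∀ w : W, ∃ x : K, ∀ a : Place k K →₀ K, lam (Serre_sm k w a) = ω (x • a) := by
        intro w
        obtain ⟨e, he⟩ := E.lower w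
        refine omega_unique (lam := lam ∘ₗ Serre_sm k w) (D2 := -e) h0 h2 ?_
        rintro a ⟨y, hy⟩
        refine hlam _ ⟨y • w, fun P => ?_⟩
        rw [Serre_sm_apply, ← sub_smul]
        apply he
        have := hy P
        rw [mem_line] at this
        simpa using this
      choose φ hφ using hex
      have huniq : ∀ x y : K, (∀ a : Place k K →₀ K, ω (x • a) = ω (y • a)) → x = y := by
        intro x y h
        refine sub_eq_zero.1 (omega_smul_injective h0 fun a => ?_)
        rw [sub_smul, map_sub, h a, sub_self]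
      let Φ : W →ₗ[K] K :=
        { toFun := φ
          map_add' := by
            intro w w'
            refine huniq _ _ fun a => ?_
            rw [← hφ, add_smul, map_add, ← hφ, ← hφ, ← map_add]
            congr 1
            ext P
            rw [Finsupp.add_apply, Serre_sm_apply, Serre_sm_apply, Serre_sm_apply, smul_add]
          map_smul' := by
            intro x w
            refine huniq _ _ fun a => ?_
            rw [← hφ, RingHom.id_apply, smul_eq_mul, mul_comm, mul_smul, ← hφ]
            congr 1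
            ext P
            rw [Serre_sm_apply, Serre_sm_apply, Finsupp.smul_apply, smul_eq_mul, mul_comm,
              mul_smul] }
      have hΦ : ∀ w a, lam (Serre_sm k w a) = ω (Φ w • a) := hφ
      refine ⟨Φ, VB.mem_H0.2 fun P => mem_hom.2 fun x hx => ?_, ?_⟩
      · rw [h1]
        intro c hc
        have h3 := hΦ x (Finsupp.single P c)
        rw [Serre_sm_single, hlam _ (Serre_single_mem_N (E.smul_mem P c x hc hx)),
          Finsupp.smul_single, smul_eq_mul, mul_comm] at h3
        exact h3.symm
      · refine Finsupp.lhom_ext fun P w => ?_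
        rw [hΛ, Serre_mr_single]
        have h3 := hΦ w (Finsupp.single P 1)
        rw [Serre_sm_single, one_smul, Finsupp.smul_single, smul_eq_mul, mul_one] at h3
        exact h3.symm
  have h3 : finrank k (hom E (line κ)).H0 = finrank k E.N.dualAnnihilator := by
    rw [← hmap]
    exact (Submodule.equivMapOfInjective Λ hinj _).finrank_eq
  have h4 : finrank k E.H1 = finrank k E.N.dualAnnihilator := by
    rw [← Subspace.dual_finrank_eq]
    exact (E.N.dualQuotEquivDualAnnihilator).finrank_eq
  unfold VB.h1 VB.h0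
  rw [h4, ← h3]

end Pool.Agent.MP_09eaec.GG
end

section

/-!
# TASK TransBG: transport of the invariants, and the first line bundle

* `topX_map`: `X' = X.map f`, `q' = q ∘ f.symm`. Every subspace of `A'` is `J.map f` with `J` of the same rank and the
  same degree (`deg_sub_map`), `J.map f ≤ ker q'` iff `J ≤ ker q`.
* `topX_line`: on `K` the only subspaces are `⊥` and `⊤`; `⊥ ≤ ker`; the excess of `⊤` is `ddeg D + μ = ρ`
  (`deg_sub_top`, `deg_line`).
-/

set_option autoImplicit false

namespace Pool.Agent.MP_09eaec.GG.BG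

open Module

universe u v

variable {k : Type u} {K : Type v} [Field k] [Field K] [Algebra k K]
variable {W : Type v} [AddCommGroup W] [Module K W] [Module k W] [IsScalarTower k K W]
variable {A : Type v} [AddCommGroup A] [Module K A] [Module k A] [IsScalarTower k K A]
variable {B : Type v} [AddCommGroup B] [Module K B] [Module k B] [IsScalarTower k K B]

variable [CurveG k K]

private theorem TransBG_map_symm (f : A ≃ₗ[K] W) (J : Submodule K W) :
    (J.map f.symm.toLinearMap).map f.toLinearMap = J := by
  ext x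
  simp only [Submodule.mem_map, LinearEquiv.coe_coe]
  constructor
  · rintro ⟨y, ⟨z, hz, rfl⟩, rfl⟩
    rwa [LinearEquiv.apply_symm_apply]
  · intro h
    exact ⟨f.symm x, ⟨x, h, rfl⟩, LinearEquiv.apply_symm_apply f x⟩

private theorem TransBG_exs [FiniteDimensional K A] [FiniteDimensional K W] {μ : ℝ} (X : VB k K A)
    (f : A ≃ₗ[K] W) (J : Submodule K W) :
    exs μ (X.map f) J = exs μ X (J.map f.symm.toLinearMap) := by
  have h1 := VB.deg_sub_map X f (J.map f.symm.toLinearMap)
  rw [TransBG_map_symm] at h1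
  have h2 : finrank K J = finrank K (J.map f.symm.toLinearMap) :=
    (LinearEquiv.finrank_map_eq f.symm J).symm
  unfold exs
  rw [h1, h2]

theorem topX_map [FiniteDimensional K A] [FiniteDimensional K W] {μ ρ : ℝ} {X : VB k K A}
    {q : A →ₗ[K] K} {D : Dv k K} (hT : TopX μ ρ X q D) (f : A ≃ₗ[K] W) :
    TopX μ ρ (X.map f) (q ∘ₗ f.symm.toLinearMap) D ∧
      (KerX μ X q → KerX μ (X.map f) (q ∘ₗ f.symm.toLinearMap)) ∧
      (NegX μ X → NegX μ (X.map f)) := by
  have hbot : ∀ J : Submodule K W, J ≠ ⊥ → J.map f.symm.toLinearMap ≠ ⊥ := by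
    intro J hJ h
    apply hJ
    rw [← TransBG_map_symm f J, h, Submodule.map_bot]
  have htop : ∀ J : Submodule K W, J ≠ ⊤ → J.map f.symm.toLinearMap ≠ ⊤ := by
    intro J hJ h
    apply hJ
    rw [← TransBG_map_symm f J, h, Submodule.map_top]
    exact LinearMap.range_eq_top.2 f.surjective
  have hker : ∀ J : Submodule K W, J ≤ LinearMap.ker (q ∘ₗ f.symm.toLinearMap) ↔
      J.map f.symm.toLinearMap ≤ LinearMap.ker q := by
    intro J
    constructor
    · rintro h _ ⟨x, hx, rfl⟩
      exact h hx
    · intro h x hx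
      exact h ⟨x, hx, rfl⟩
  refine ⟨⟨?_, ?_, ?_⟩, ?_, ?_⟩
  · intro P y
    rw [hT.img P y]
    constructor
    · rintro ⟨x, hx, rfl⟩
      refine ⟨f x, ?_, ?_⟩
      · rw [VB.mem_map, LinearEquiv.symm_apply_apply]
        exact hx
      · rw [LinearMap.comp_apply, LinearEquiv.coe_coe, LinearEquiv.symm_apply_apply]
    · rintro ⟨x, hx, rfl⟩
      rw [VB.mem_map] at hx
      exact ⟨f.symm x, hx, rfl⟩
  · rw [VB.deg_map, ← f.finrank_eq]
    exact hT.tot
  · intro J hJ hJ'
    rw [TransBG_exs]
    exact hT.top _ (htop J hJ) fun h => hJ' ((hker J).2 h)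
  · intro hK J hJ hJ'
    rw [TransBG_exs]
    exact hK _ (hbot J hJ) ((hker J).1 hJ')
  · intro hN J hJ
    rw [TransBG_exs]
    exact hN _ (hbot J hJ)

theorem topX_line {μ ρ : ℝ} {D : Dv k K} (h : ρ = ddeg D + μ) (h0 : ρ < 0) :
    TopX μ ρ (line D : VB k K K) (LinearMap.id : K →ₗ[K] K) D ∧ NegX μ (line D : VB k K K) := by
  have hJ : ∀ J : Submodule K K, J = ⊥ ∨ J = ⊤ := fun J => eq_bot_or_eq_top J
  refine ⟨⟨?_, ?_, ?_⟩, ?_⟩
  · intro P y
    exact ⟨fun hy => ⟨y, hy, rfl⟩, by rintro ⟨x, hx, rfl⟩; exact hx⟩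
  · rw [VB.deg_line, finrank_self, h]
    push_cast
    ring
  · intro J h1 h2
    rcases hJ J with rfl | rfl
    · exact absurd bot_le h2
    · exact absurd rfl h1
  · intro J h1
    rcases hJ J with rfl | rfl
    · exact absurd rfl h1
    · unfold exs
      rw [VB.deg_sub_top, VB.deg_line, finrank_top, finrank_self]
      push_cast
      rw [mul_one, ← h]
      exact h0

end Pool.Agent.MP_09eaec.GG.BG
end
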