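import Pool.Agent.Lib.MP_09eaec_ag.Mg.G002
import Pool.Agent.Lib.MP_09eaec_ag.GG.ToVB

section

/-!
# TASK IndepExt: independent extension classes

`G` on `A` with `j ≤ G.h1 = finrank k ((Place →₀ A) ⧸ N G)`: there are `b : Fin j → (Place →₀ A)` whose classes are
linearly independent over `k` (a basis of the quotient, `Module.finBasis`, lifted by `Submodule.mkQ_surjective`;
or `exists_linearIndependent...`). Let `S i : A → ((Fin j → K) →ₗ[K] A)`, `S i a = (x ↦ x i • a)` (a `k`-linear map,
`(LinearMap.proj i).smulRight a`), `u = ∑ i, (b i).mapRange (S i)` (`Finsupp.mapRange`, `S i 0 = 0`). Then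
`u P x = ∑ i, x i • b i P`, so for `x i = algebraMap k K (c i)`: `u P x = ∑ i, c i • b i P = (∑ i, c i • b i) P`
(`algebraMap_smul`). So the hypothesis says `∑ i, c i • b i ∈ N G`, and `c = 0`.
-/

set_option autoImplicit false

namespace Pool.Agent.MP_09eaec.GG

open Module

universe u v

variable {k : Type u} {K : Type v} [Field k] [Field K] [Algebra k K]
variable {W : Type v} [AddCommGroup W] [Module K W] [Module k W] [IsScalarTower k K W]
variable {A : Type v} [AddCommGroup A] [Module K A] [Module k A] [IsScalarTower k K A]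
variable {B : Type v} [AddCommGroup B] [Module K B] [Module k B] [IsScalarTower k K B]

variable [CurveG k K]

theorem exists_indep_ext [FiniteDimensional K A] (G : VB k K A) {j : ℕ} (hj : (j : ℤ) ≤ G.h1) :
    ∃ u : Place k K →₀ ((Fin j → K) →ₗ[K] A), ∀ c : Fin j → k,
      (∃ w : A, ∀ P, u P (fun i => algebraMap k K (c i)) - w ∈ G.M P) → c = 0 := by
  classical
  have hj' : j ≤ finrank k G.H1 := by
    have h := hj
    unfold VB.h1 at h
    exact_mod_cast h
  let bas := Module.finBasis k G.H1
  choose b hb using fun i : Fin j => Submodule.mkQ_surjective G.N (bas (Fin.castLE hj' i))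
  have hli : LinearIndependent k (fun i : Fin j => G.N.mkQ (b i)) := by
    have h1 : (fun i : Fin j => G.N.mkQ (b i)) = bas ∘ (Fin.castLE hj') := by
      funext i
      exact hb i
    rw [h1]
    exact bas.linearIndependent.comp _ (Fin.castLE_injective hj')
  let S : Fin j → A → ((Fin j → K) →ₗ[K] A) := fun i a =>
    (LinearMap.proj i : (Fin j → K) →ₗ[K] K).smulRight a
  have hS : ∀ i, S i 0 = 0 := fun i => by
    ext x
    simp [S]
  refine ⟨∑ i, (b i).mapRange (S i) (hS i), fun c hc => ?_⟩
  have hval : ∀ P, (∑ i, (b i).mapRange (S i) (hS i)) P (fun i => algebraMap k K (c i))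
      = (∑ i, c i • b i) P := by
    intro P
    rw [Finsupp.finsetSum_apply, Finsupp.finsetSum_apply, LinearMap.sum_apply]
    refine Finset.sum_congr rfl fun i _ => ?_
    rw [Finsupp.mapRange_apply, Finsupp.smul_apply]
    show algebraMap k K (c i) • b i P = c i • b i P
    rw [algebraMap_smul]
  have hmem : (∑ i, c i • b i) ∈ G.N := by
    obtain ⟨w, hw⟩ := hc
    refine ⟨w, fun P => ?_⟩
    rw [← hval P]
    exact hw P
  have h0 : ∑ i, c i • G.N.mkQ (b i) = 0 := by
    have h2 : G.N.mkQ (∑ i, c i • b i) = 0 := (Submodule.Quotient.mk_eq_zero _).2 hmem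
    rw [map_sum] at h2
    simpa only [map_smul] using h2
  funext i
  exact Fintype.linearIndependent_iff.1 hli c h0 i

end Pool.Agent.MP_09eaec.GG
end

section

/-!
# TASK B6: a nonzero class dies at only finitely many points

`D` a divisor with `ddeg D < h0 (line D)`, `a ∉ N (line D)`. Claim: `{P | a ∈ N (line (D + P))}` is finite.
Suppose it is infinite; take distinct points `x_0, x_1, …, x_M` in it, `M` large. For each `i` there is
`w_i : K` with `a_P - w_i ∈ P.filt (-(D + single x_i 1) P)` for all `P`. Put `s_i = w_i - w_0`, `i = 1..M`, and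
`T = D + Σ_(i=0..M) single x_i 1`. Then `s_i ∈ H0 (line T)`. Claim: the classes of `s_1, …, s_M` in
`H0 (line T) / H0 (line D)` are linearly independent over `k`: at `x_i` all `w_j`, `j ≠ i`, satisfy
`a_(x_i) - w_j ∈ filt (-D x_i)`, but `a_(x_i) - w_i` is not in it (otherwise `a ∈ N (line D)` with `w_i`). So
if `s = Σ c_i s_i ∈ H0 (line D)` then, modulo `filt (-D x_i)` at `x_i`, `s ≡ c_i (w_i - w_0)`, which is
`≡ c_i (w_i - a_(x_i))`, hence `c_i = 0`. So `h0 (line T) ≥ M + h0 (line D)`. For `M` large
(`exists_large`) `h0 (line T) = ddeg T + 1 - g = ddeg D + M + 2 - g ≤ ddeg D + M` (`h0_line_of_N`). So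
`h0 (line D) ≤ ddeg D`, a contradiction.
(Formally convenient: the linear map `(Fin M → k) × H0 (line D) → H0 (line T)`,
`(c, y) ↦ Σ c_i s_i + y` is injective; `LinearMap.finrank_le_finrank_of_injective`.)
-/

set_option autoImplicit false

namespace Pool.Agent.MP_09eaec.GG

open Module

universe u v

variable {k : Type u} {K : Type v} [Field k] [Field K] [Algebra k K]
variable {W : Type v} [AddCommGroup W] [Module K W] [Module k W] [IsScalarTower k K W]
variable {A : Type v} [AddCommGroup A] [Module K A] [Module k A] [IsScalarTower k K A]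
variable {B : Type v} [AddCommGroup B] [Module K B] [Module k B] [IsScalarTower k K B]

variable [CurveG k K]

omit [CurveG k K] in
private theorem Xi_ddeg_sum {ι : Type*} (s : Finset ι) (f : ι → Dv k K) :
    ddeg (∑ i ∈ s, f i) = ∑ i ∈ s, ddeg (f i) := by
  classical
  induction s using Finset.induction_on with
  | empty => rw [Finset.sum_empty, Finset.sum_empty, ddeg_zero]
  | insert i s hi ih => rw [Finset.sum_insert hi, Finset.sum_insert hi, ddeg_add, ih]

theorem finite_xi (D : Dv k K) (hD : ddeg D < (line D).h0) (a : Place k K →₀ K)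
    (ha : a ∉ (line D).N) : {P | a ∈ (line (D + Finsupp.single P 1)).N}.Finite := by
  classical
  by_contra hinf
  have hinf' : {P | a ∈ (line (D + Finsupp.single P 1)).N}.Infinite := hinf
  obtain ⟨C, hC⟩ := exists_large (k := k) (K := K)
  obtain ⟨x, hxN, hinj⟩ : ∃ x : ℕ → Place k K,
      (∀ i, a ∈ (line (D + Finsupp.single (x i) 1)).N) ∧ ∀ i j, x i = x j → i = j :=
    ⟨fun i => (Set.Infinite.natEmbedding _ hinf' i : Place k K),
      fun i => (Set.Infinite.natEmbedding _ hinf' i).2,
      fun i j h => (Set.Infinite.natEmbedding _ hinf').injective (Subtype.ext h)⟩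
  choose w hw using fun i => VB.mem_N.mp (hxN i)
  obtain ⟨M, hM⟩ : ∃ M : ℕ, C - ddeg D - 1 ≤ M := ⟨(C - ddeg D - 1).toNat, Int.self_le_toNat _⟩
  -- the divisor `T`
  obtain ⟨T, hT⟩ : ∃ T : Dv k K, T = D + ∑ i ∈ Finset.range (M + 1), Finsupp.single (x i) 1 :=
    ⟨_, rfl⟩
  have hdT : ddeg T = ddeg D + (M + 1) := by
    rw [hT, ddeg_add, Xi_ddeg_sum]
    simp [ddeg_single]
  have hTP : ∀ i, i < M + 1 → ∀ P, (D + Finsupp.single (x i) 1 : Dv k K) P ≤ T P := by
    intro i hi P
    rw [hT, Finsupp.add_apply, Finsupp.add_apply, Finsupp.finsetSum_apply]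
    have h1 : (Finsupp.single (x i) 1 : Dv k K) P ≤
        ∑ j ∈ Finset.range (M + 1), (Finsupp.single (x j) 1 : Dv k K) P := by
      refine Finset.single_le_sum (f := fun j => (Finsupp.single (x j) 1 : Dv k K) P)
        (fun j _ => ?_) (Finset.mem_range.mpr hi)
      show 0 ≤ (Finsupp.single (x j) 1 : Dv k K) P
      rw [Finsupp.single_apply]
      split_ifs <;> omega
    omega
  have hDT : ∀ P, D P ≤ T P := by
    intro P
    refine le_trans ?_ (hTP 0 (Nat.succ_pos M) P)
    rw [Finsupp.add_apply, Finsupp.single_apply]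
    split_ifs <;> omega
  -- the membership in the stalks
  have hwT : ∀ i, i < M + 1 → ∀ P, a P - w i ∈ P.filt (-T P) := by
    intro i hi P
    exact filt_mono P (neg_le_neg (hTP i hi P)) (hw i P)
  have hwD : ∀ i P, P ≠ x i → a P - w i ∈ P.filt (-D P) := by
    intro i P hP
    have h1 := hw i P
    rw [mem_line, Finsupp.add_apply, Finsupp.single_eq_of_ne hP, add_zero] at h1
    exact h1
  have hsT : ∀ i : Fin M, w (i + 1) - w 0 ∈ (line T).H0 := by
    intro i
    rw [VB.mem_H0]
    intro P
    have h1 := sub_mem (hwT 0 (Nat.succ_pos M) P) (hwT (i + 1) (by have := i.2; omega) P)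
    rw [sub_sub_sub_cancel_left] at h1
    exact h1
  have hy : ∀ y : (line D).H0, (y : K) ∈ (line T).H0 := by
    intro y
    rw [VB.mem_H0]
    intro P
    exact filt_mono P (neg_le_neg (hDT P)) (VB.mem_H0.mp y.2 P)
  -- the linear map
  let Φ : ((Fin M → k) × (line D).H0) →ₗ[k] (line T).H0 :=
    LinearMap.coprod
      (Fintype.linearCombination k (fun i : Fin M => (⟨w (i + 1) - w 0, hsT i⟩ : (line T).H0)))
      (LinearMap.codRestrict _ ((line D).H0.subtype) hy)
  have hΦ : ∀ c y, ((Φ (c, y) : (line T).H0) : K) =
      ∑ i : Fin M, c i • (w (i + 1) - w 0) + (y : K) := by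
    intro c y
    show ((Fintype.linearCombination k (fun i : Fin M =>
      (⟨w (i + 1) - w 0, hsT i⟩ : (line T).H0)) c + LinearMap.codRestrict _ ((line D).H0.subtype) hy y
        : (line T).H0) : K) = _
    rw [Fintype.linearCombination_apply, Submodule.coe_add, Submodule.coe_sum]
    rfl
  have hΦinj : Function.Injective Φ := by
    rw [← LinearMap.ker_eq_bot, LinearMap.ker_eq_bot']
    rintro ⟨c, y⟩ h0
    have h1 : ∑ i : Fin M, c i • (w (i + 1) - w 0) + (y : K) = 0 := by
      rw [← hΦ, h0]
      rfl
    have hc : ∀ j : Fin M, c j = 0 := by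
      intro j
      by_contra hcj
      set P : Place k K := x (j + 1) with hP
      have hne : ∀ i : ℕ, i ≠ j + 1 → P ≠ x i := by
        intro i hi h2
        exact hi (hinj _ _ h2).symm
      have h2 : ∀ i : Fin M, i ≠ j → c i • (w (i + 1) - w 0) ∈ P.filt (-D P) := by
        intro i hij
        refine (P.filt (-D P)).smul_mem (c i) ?_
        have h3 := sub_mem (hwD 0 P (hne 0 (by omega))) (hwD (i + 1) P (hne (i + 1) (by
          intro h4
          exact hij (Fin.ext (by omega)))))
        rw [sub_sub_sub_cancel_left] at h3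
        exact h3
      have h3 : c j • (w (j + 1) - w 0) ∈ P.filt (-D P) := by
        have h4 : c j • (w (j + 1) - w 0) = -(y : K) -
            ∑ i ∈ Finset.univ.erase j, c i • (w (i + 1) - w 0) := by
          rw [← Finset.add_sum_erase Finset.univ _ (Finset.mem_univ j)] at h1
          rw [eq_sub_iff_add_eq, eq_neg_iff_add_eq_zero]
          exact h1
        rw [h4]
        refine sub_mem (neg_mem (VB.mem_H0.mp y.2 P)) (Submodule.sum_mem _ fun i hi => ?_)
        exact h2 i (Finset.ne_of_mem_erase hi)
      have h5 : w (j + 1) - w 0 ∈ P.filt (-D P) := by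
        have h6 := (P.filt (-D P)).smul_mem (c j)⁻¹ h3
        rwa [smul_smul, inv_mul_cancel₀ hcj, one_smul] at h6
      apply ha
      rw [VB.mem_N]
      refine ⟨w (j + 1), fun Q => ?_⟩
      by_cases hQ : Q = P
      · rw [hQ]
        have h6 := sub_mem (hwD 0 P (hne 0 (by omega))) h5
        have h7 : a P - w 0 - (w (j + 1) - w 0) = a P - w (j + 1) := by abel
        rw [h7] at h6
        exact h6
      · exact hwD (j + 1) Q hQ
    have hc0 : c = 0 := funext hc
    have hy0 : y = 0 := by
      apply Subtype.ext
      rw [hc0] at h1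
      simpa using h1
    rw [hc0, hy0]
    rfl
  have h1 := LinearMap.finrank_le_finrank_of_injective hΦinj
  rw [Module.finrank_prod, Module.finrank_fin_fun] at h1
  have hg := CurveG.two_le (k := k) (K := K)
  have h2 : (line T).h0 = ddeg T + 1 - gen k K := h0_line_of_N (hC T (by rw [hdT]; omega))
  have h3 : (line T).h0 = (finrank k (line T).H0 : ℤ) := rfl
  have h4 : (line D).h0 = (finrank k (line D).H0 : ℤ) := rfl
  omega

end Pool.Agent.MP_09eaec.GG
end

section

/-!
# TASK D2: local bases

* `exists_local_basis`: for every `P` there is a `K`-basis `b` of `W` with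
  `x ∈ E.M P ↔ ∀ i, b.repr x i ∈ P.filt 0`. Induction on `finrank K W` (generalised over `W`): rank `0`
  trivial; rank `n + 1`: let `J = span {w}`, `w ≠ 0`. The stalk `{x : K | x w ∈ E.M P}` is `P.filt m` for some
  `m` (it is a `P.filt 0`-submodule of `K`, bounded by `upper` and nonzero by `lower`; see
  `exists_eq_line` for the argument, or apply `exists_eq_line` to the transport of `E.sub J` along
  `J ≃ K`); take `t` of order `m`, `b_0 = t w`. Let `b'` be the basis of `W ⧸ J` for `E.quo J`, lift
  `b'_i` (which is in the stalk) to `b_i ∈ E.M P`. Then `b_0, b_i` is a basis of `W`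
  (`Submodule` basis from `J` and `W ⧸ J`), and `x ∈ E.M P` iff all its coordinates are integral: the
  coordinates of `[x]` are integral, subtract `Σ c_i b_i ∈ E.M P`, the rest is in `J`.
* `almost_standard`: for a `VB` on `Fin n → K`: for all `P` outside of a finite set
  `x ∈ E.M P ↔ ∀ i, x i ∈ P.filt 0` (`lower` for the unit vectors, `upper` for the coordinates).
-/

set_option autoImplicit false

namespace Pool.Agent.MP_09eaec.GG

open Module

universe u v

variable {k : Type u} {K : Type v} [Field k] [Field K] [Algebra k K]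
variable {W : Type v} [AddCommGroup W] [Module K W] [Module k W] [IsScalarTower k K W]
variable {A : Type v} [AddCommGroup A] [Module K A] [Module k A] [IsScalarTower k K A]
variable {B : Type v} [AddCommGroup B] [Module K B] [Module k B] [IsScalarTower k K B]

variable [Curve k K]

/-- the stalk of a line `K w` -/
private lemma LocBasis_line (E : VB k K W) (P : Place k K) (w : W) (hw : w ≠ 0) :
    ∃ t : K, t ≠ 0 ∧ ∀ a : K, a • w ∈ E.M P ↔ a / t ∈ P.filt 0 := by
  set f : ↥(K ∙ w) ≃ₗ[K] K := (LinearEquiv.toSpanNonzeroSingleton K W w hw).symm with hf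
  obtain ⟨D, hD⟩ := exists_eq_line ((E.sub (K ∙ w)).map f)
  obtain ⟨t, ht, htm⟩ := exists_ord_eq P (-D P)
  refine ⟨t, ht, ?_⟩
  intro a
  have h1 : a ∈ (line D).M P ↔ a • w ∈ E.M P := by
    rw [← hD, VB.mem_map, VB.mem_sub]
    rfl
  rw [← h1, mem_line]
  have h2 := mem_filt_iff_of_ord P ht htm (x := a / t) 0
  rw [zero_add, mul_div_cancel₀ a ht] at h2
  exact h2

private lemma LocBasis_one_mem (P : Place k K) : (1 : K) ∈ P.filt 0 :=
  Or.inr (by rw [P.ord_one])

private theorem LocBasis_exists (n : ℕ) : ∀ (W : Type v) [AddCommGroup W] [Module K W] [Module k W]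
    [IsScalarTower k K W] [FiniteDimensional K W] (_ : finrank K W = n) (E : VB k K W)
    (P : Place k K),
    ∃ b : Basis (Fin n) K W, ∀ x, x ∈ E.M P ↔ ∀ i, b.repr x i ∈ P.filt 0 := by
  induction n with
  | zero =>
    intro W _ _ _ _ _ hW E P
    haveI : Subsingleton W := finrank_zero_iff.mp hW
    refine ⟨Basis.empty W, ?_⟩
    intro x
    constructor
    · intro _ i; exact i.elim0
    · intro _
      rw [Subsingleton.elim x 0]
      exact zero_mem _
  | succ n ih =>
    intro W _ _ _ _ _ hW E P
    classical
    haveI : Nontrivial W := by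
      apply nontrivial_of_finrank_pos (R := K)
      omega
    obtain ⟨w, hw⟩ := exists_ne (0 : W)
    obtain ⟨t, ht, hline⟩ := LocBasis_line E P w hw
    set J : Submodule K W := K ∙ w with hJ
    have hfJ : finrank K J = 1 := finrank_span_singleton hw
    have hfq : finrank K (W ⧸ J) = n := by
      have := J.finrank_quotient_add_finrank
      omega
    obtain ⟨b', hb'⟩ := ih (W ⧸ J) hfq (E.quo J) P
    have hlift : ∀ i, ∃ v ∈ E.M P, J.mkQ v = b' i := by
      intro i
      have h1 : b' i ∈ (E.quo J).M P := by
        rw [hb']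
        intro j
        rw [Basis.repr_self, Finsupp.single_apply]
        split_ifs
        · exact LocBasis_one_mem P
        · exact zero_mem _
      exact VB.mem_quo.mp h1
    choose v hv1 hv2 using hlift
    have hvli : LinearIndependent K v := by
      apply LinearIndependent.of_comp J.mkQ
      have : J.mkQ ∘ v = b' := by funext i; exact hv2 i
      rw [this]
      exact b'.linearIndependent
    have hx : t • w ∉ Submodule.span K (Set.range v) := by
      intro hmem
      rw [Submodule.mem_span_range_iff_exists_fun] at hmem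
      obtain ⟨c, hc⟩ := hmem
      have h1 : ∑ i, c i • b' i = 0 := by
        have h2 := congrArg J.mkQ hc
        rw [map_sum] at h2
        simp only [map_smul, hv2] at h2
        rw [h2]
        have h3 : w ∈ J := Submodule.mem_span_singleton_self w
        have h4 : J.mkQ w = 0 := by simpa using h3
        rw [h4, smul_zero]
      have h2 : ∀ i, c i = 0 := by
        have := (Fintype.linearIndependent_iff.mp b'.linearIndependent) c h1
        exact this
      simp only [h2, zero_smul, Finset.sum_const_zero] at hc
      have := smul_ne_zero ht hw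
      exact this hc.symm
    have huli : LinearIndependent K (Fin.cons (t • w) v : Fin (n + 1) → W) :=
      linearIndependent_finCons.mpr ⟨hvli, hx⟩
    set b : Basis (Fin (n + 1)) K W :=
      basisOfLinearIndependentOfCardEqFinrank huli (by rw [Fintype.card_fin, hW]) with hb
    have hbu : ∀ i, b i = (Fin.cons (t • w) v : Fin (n + 1) → W) i := by
      intro i
      rw [hb, coe_basisOfLinearIndependentOfCardEqFinrank]
    have hb0 : b 0 = t • w := by rw [hbu, Fin.cons_zero]
    have hbs : ∀ i : Fin n, b i.succ = v i := by intro i; rw [hbu, Fin.cons_succ]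
    have hb0mem : t • w ∈ E.M P := by
      rw [hline, div_self ht]; exact LocBasis_one_mem P
    refine ⟨b, ?_⟩
    intro x
    constructor
    · intro hxE
      have h1 : J.mkQ x ∈ (E.quo J).M P := ⟨x, hxE, rfl⟩
      rw [hb'] at h1
      set c : Fin n → K := fun i => b'.repr (J.mkQ x) i with hc
      have h2 : x - ∑ i, c i • v i ∈ J := by
        rw [← Submodule.ker_mkQ J, LinearMap.mem_ker, map_sub, map_sum]
        simp only [map_smul, hv2]
        rw [sub_eq_zero]
        exact (b'.sum_repr (J.mkQ x)).symm
      obtain ⟨a, ha⟩ := Submodule.mem_span_singleton.mp h2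
      have h3 : a • w ∈ E.M P := by
        rw [ha]
        apply sub_mem hxE
        apply Submodule.sum_mem
        intro i _
        exact E.smul_mem P _ _ (h1 i) (hv1 i)
      rw [hline] at h3
      have h4 : x = ∑ i, (Fin.cons (a / t) c : Fin (n + 1) → K) i • b i := by
        rw [Fin.sum_univ_succ]
        simp only [Fin.cons_zero, Fin.cons_succ, hb0, hbs]
        rw [smul_smul, div_mul_cancel₀ a ht, ha]
        abel
      have h5 : ∀ i, b.repr x i = (Fin.cons (a / t) c : Fin (n + 1) → K) i := by
        intro i
        conv_lhs => rw [h4]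
        rw [b.repr_sum_self]
      intro i
      rw [h5]
      refine Fin.cases ?_ (fun j => ?_) i
      · exact h3
      · exact h1 j
    · intro h
      rw [← b.sum_repr x]
      apply Submodule.sum_mem
      intro i _
      apply E.smul_mem P _ _ (h i)
      refine Fin.cases ?_ (fun j => ?_) i
      · rw [hb0]; exact hb0mem
      · rw [hbs]; exact hv1 j

namespace VB

theorem exists_local_basis [FiniteDimensional K W] (E : VB k K W) (P : Place k K) :
    ∃ b : Basis (Fin (finrank K W)) K W, ∀ x, x ∈ E.M P ↔ ∀ i, b.repr x i ∈ P.filt 0 :=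
  LocBasis_exists (finrank K W) W rfl E P

theorem almost_standard {n : ℕ} (E : VB k K (Fin n → K)) :
    {P : Place k K | ¬ ∀ x, x ∈ E.M P ↔ ∀ i, x i ∈ P.filt 0}.Finite := by
  classical
  choose e1 h1 using fun i : Fin n => E.lower (Pi.single i 1)
  choose e2 h2 using fun i : Fin n => E.upper (LinearMap.proj i)
  apply ((Set.finite_iUnion fun i : Fin n => (e1 i).support.finite_toSet).union
    (Set.finite_iUnion fun i : Fin n => (e2 i).support.finite_toSet)).subset
  intro P hP
  by_contra hcon
  simp only [Set.mem_union, Set.mem_iUnion, Finset.mem_coe, Finsupp.mem_support_iff, not_or,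
    not_not, not_exists] at hcon
  apply hP
  intro x
  constructor
  · intro hx i
    have h3 := h2 i P x hx
    rw [hcon.2 i] at h3
    exact h3
  · intro hx
    have h3 : x = ∑ i, x i • (Pi.single i 1 : Fin n → K) := by
      funext j
      simp [Finset.sum_apply, Pi.single_apply]
    rw [h3]
    apply Submodule.sum_mem
    intro i _
    apply h1 i P (x i)
    rw [hcon.1 i]
    exact hx i

end VB

end Pool.Agent.MP_09eaec.GG
end

section

/-!
# TASK D3: every `VB` on `Fin n → K` comes from a `Bundle`

`g P = 1` if `x ∈ E.M P ↔ ∀ i, x i ∈ P.filt 0` (all but finitely many `P`, `almost_standard`), otherwise the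
matrix whose columns are the vectors of a local basis (`exists_local_basis`, reindexed by
`finrank K (Fin n → K) = n`); its determinant is not zero, and `(g P)⁻¹ *ᵥ x` are the coordinates of `x`
(`Basis.toMatrix`). `P.IsInt y` is `y ∈ P.filt 0` (both are `y = 0 ∨ 0 ≤ P.ord y`).
-/

set_option autoImplicit false

namespace Pool.Agent.MP_09eaec.GG

open Module Matrix

universe u v

variable {k : Type u} {K : Type v} [Field k] [Field K] [Algebra k K]
variable {W : Type v} [AddCommGroup W] [Module K W] [Module k W] [IsScalarTower k K W]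
variable {A : Type v} [AddCommGroup A] [Module K A] [Module k A] [IsScalarTower k K A]
variable {B : Type v} [AddCommGroup B] [Module K B] [Module k B] [IsScalarTower k K B]

variable [Curve k K]

private lemma ExistsBundle_local {n : ℕ} (E : VB k K (Fin n → K)) (P : Place k K) :
    ∃ M : Matrix (Fin n) (Fin n) K, M.det ≠ 0 ∧
      (∀ x, x ∈ E.M P ↔ ∀ i, (M⁻¹ *ᵥ x) i ∈ P.filt 0) ∧
      ((∀ x, x ∈ E.M P ↔ ∀ i, x i ∈ P.filt 0) → M = 1) := by
  classical
  by_cases hst : ∀ x, x ∈ E.M P ↔ ∀ i, x i ∈ P.filt 0
  · refine ⟨1, by rw [Matrix.det_one]; exact one_ne_zero, ?_, fun _ => rfl⟩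
    intro x
    rw [inv_one, Matrix.one_mulVec]
    exact hst x
  · obtain ⟨b0, hb0⟩ := VB.exists_local_basis E P
    have hfr : finrank K (Fin n → K) = n := by simp
    set b : Basis (Fin n) K (Fin n → K) := b0.reindex (finCongr hfr) with hb
    have hbmem : ∀ x, x ∈ E.M P ↔ ∀ i, b.repr x i ∈ P.filt 0 := by
      intro x
      rw [hb0]
      constructor
      · intro h i
        rw [hb, Basis.repr_reindex_apply]
        exact h _
      · intro h i
        have := h (finCongr hfr i)
        rw [hb, Basis.repr_reindex_apply, Equiv.symm_apply_apply] at this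
        exact this
    set M : Matrix (Fin n) (Fin n) K := Matrix.of (fun a j => b j a) with hM
    have hMv : ∀ y : Fin n → K, M *ᵥ y = ∑ j, y j • b j := by
      intro y
      funext a
      rw [Matrix.mulVec, dotProduct, Finset.sum_apply]
      apply Finset.sum_congr rfl
      intro j _
      rw [Pi.smul_apply, smul_eq_mul, mul_comm]
      rfl
    have hinj : Function.Injective M.mulVec := by
      intro y y' h
      have h1 : ∑ j, y j • b j = ∑ j, y' j • b j := by
        rw [← hMv, ← hMv]; exact h
      have h2 : ∑ j, (y j - y' j) • b j = 0 := by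
        simp only [sub_smul, Finset.sum_sub_distrib]
        rw [h1, sub_self]
      have h3 := (Fintype.linearIndependent_iff.mp b.linearIndependent) _ h2
      funext j
      exact sub_eq_zero.mp (h3 j)
    have hdet : M.det ≠ 0 := by
      rw [Matrix.mulVec_injective_iff_isUnit, Matrix.isUnit_iff_isUnit_det] at hinj
      exact hinj.ne_zero
    refine ⟨M, hdet, ?_, fun h => absurd h hst⟩
    intro x
    rw [hbmem]
    have h1 : M⁻¹ *ᵥ x = fun i => b.repr x i := by
      have h2 : x = M *ᵥ (fun i => b.repr x i) := by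
        rw [hMv]; exact (b.sum_repr x).symm
      conv_lhs => rw [h2]
      rw [Matrix.mulVec_mulVec, Matrix.nonsing_inv_mul _ (isUnit_iff_ne_zero.2 hdet),
        Matrix.one_mulVec]
    rw [h1]

theorem exists_toVB_eq {n : ℕ} (E : VB k K (Fin n → K)) : ∃ E' : Bundle k K n, toVB E' = E := by
  choose M hM1 hM2 hM3 using ExistsBundle_local E
  refine ⟨⟨M, hM1, ?_⟩, ?_⟩
  · apply (VB.almost_standard E).subset
    intro P hP h
    exact hP (hM3 P h)
  · apply VB.ext'
    intro P x
    rw [mem_toVB, hM2]
    rfl

end Pool.Agent.MP_09eaec.GG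
end
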