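import Pool.Agent.Lib.MP_09eaec_ag.Mg.G002
import Pool.Agent.Lib.MP_09eaec_ag.Mg.G004
import Pool.Agent.Lib.MP_09eaec_ag.Mg.G003
import Pool.Agent.Lib.MP_09eaec_ag.Mg.G006
import Pool.Agent.Lib.MP_09eaec_ag.Mg.G008

section

/-!
# TASK StepC: one step of the chain

`q` is onto: `(line D).M P` contains a nonzero element `y` for some `P`, so there is `a0` with `q a0 = 1`.
`u P = (y ↦ (y * c P) • a0)` (`Finsupp.mapRange` of `c`), so `q (u P 1) = c P`. `X' = ext X (line D') u`,
degree `X.deg + ddeg D'` (`deg_ext`, `deg_line`), `finrank (A × K) = finrank A + 1`. img: an element of `X'.M P` is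
`(x, y)` with `y ∈ (line D').M P` and `x - u P y ∈ X.M P` (`mem_ext`), so `snd` is onto `line D'`
(take `(u P y, y)`).
For `J ≤ A × K` let `JA = J.comap inl`, `JB = J.map snd ∈ {⊥, ⊤}`, `F'` from `ext_sub`:
`F' ≤ (line D').sub JB`, `(X'.sub J).deg = (X.sub JA).deg + F'.deg`, `Null X JA F' u`.
`finrank J = finrank JA + finrank JB` (`finrank_ext_sub`).
 * `J ≤ ker snd`: `JB = ⊥`, `F'.deg = 0` (`deg_of_finrank_zero`), `JA ≠ ⊥` if `J ≠ ⊥` (`eq_bot_of`):
   `exs μ X' J = exs μ X JA < 0` by `hN`.
 * `JB = ⊤`: `F'.deg = ddeg D' - t`, `t ≥ 0` an integer (`deg_le_of_le`, `deg_sub_top_line`), so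
   `exs μ X' J = exs μ X JA + ρ' - ρ - t`.
   - `t = 0`: `F' = (line D').sub ⊤` (`eq_of_le_of_deg_le`). Then `¬ JA ≤ ker q`: otherwise `Null.mono` gives
     `Null X (ker q) ((line D').sub ⊤) u`, against `hc` (`null_ker_iff`). So `JA = ⊤` (then `J = ⊤` by
     `eq_top_of`, and `exs = ρ'`), or `exs μ X JA < ρ` by `hT.top`, so `exs μ X' J < ρ'`.
   - `t ≥ 1`, `JA ≠ ⊥`: `exs μ X JA < 0 ≤ 1 + ρ`, so `exs μ X' J < ρ'`.
   - `t ≥ 1`, `JA = ⊥` (`exs μ X ⊥ = 0`): `exs μ X' J = ρ' - ρ - t < ρ'` if `ρ > -1` or `t ≥ 2`. If `ρ = -1` and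
     `t = 1`: `F' = (line (D' - single P 1)).sub ⊤` (`sub_top_line`), `Null.mono` (`⊥ ≤ ker q`) and `null_ker_iff` with
     `D - (D' - single P 1) = D - D' + single P 1` contradict `hc'`.
   So `exs μ X' J < ρ'` for `J ≠ ⊤` and `= ρ'` for `J = ⊤`; if `ρ' < 0` it is negative.
See the proof of `int_step` in GG/IntStep.lean for the same arguments.
-/

set_option autoImplicit false

namespace Pool.Agent.MP_09eaec.GG.BG

open Module

universe u v

variable {k : Type u} {K : Type v} [Field k] [Field K] [Algebra k K]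
variable {W : Type v} [AddCommGroup W] [Module K W] [Module k W] [IsScalarTower k K W]
variable {A : Type v} [AddCommGroup A] [Module K A] [Module k A] [IsScalarTower k K A]
variable {B : Type v} [AddCommGroup B] [Module K B] [Module k B] [IsScalarTower k K B]

variable [CurveG k K]

private theorem StepC_one (X : VB k K A) (q : A →ₗ[K] K) (D : Dv k K)
    (hq : ∀ P y, y ∈ (line D).M P ↔ ∃ x ∈ X.M P, q x = y) : ∃ a0 : A, q a0 = 1 := by
  have := infinite_places (k := k) (K := K)
  obtain ⟨P⟩ : Nonempty (Place k K) := inferInstance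
  obtain ⟨t, ht0, ht⟩ := exists_ord_eq P (-D P)
  obtain ⟨x, _, hx⟩ := (hq P t).mp (Or.inr ht.ge)
  refine ⟨t⁻¹ • x, ?_⟩
  rw [map_smul, hx, smul_eq_mul, inv_mul_cancel₀ ht0]

theorem topX_step [FiniteDimensional K A] {μ ρ ρ' : ℝ} {X : VB k K A} {q : A →ₗ[K] K}
    {D D' : Dv k K} (hN : NegX μ X) (hT : TopX μ ρ X q D) (hρ : -1 ≤ ρ)
    {c : Place k K →₀ K} (hc : c ∉ (line (D - D')).N)
    (hc' : ρ = -1 → ∀ P : Place k K, c ∉ (line (D - D' + Finsupp.single P 1)).N)
    (hρ' : ρ' = ρ + ddeg D' + μ) :
    ∃ u : Place k K →₀ (K →ₗ[K] A),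
      TopX μ ρ' (ext X (line D') u) (LinearMap.snd K A K) D' ∧
      KerX μ (ext X (line D') u) (LinearMap.snd K A K) ∧
      (ρ' < 0 → NegX μ (ext X (line D') u)) := by
  classical
  obtain ⟨a0, ha0⟩ := StepC_one X q D hT.img
  let u : Place k K →₀ (K →ₗ[K] A) :=
    c.mapRange (fun a : K => LinearMap.toSpanSingleton K A (a • a0)) (by simp)
  have hu : ∀ P, q (u P 1) = c P := by
    intro P
    show q (LinearMap.toSpanSingleton K A (c P • a0) 1) = c P
    rw [LinearMap.toSpanSingleton_apply, one_smul, map_smul, ha0, smul_eq_mul, mul_one]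
  have hum : u.mapRange (fun f => q (f 1)) (by simp) = c := by
    ext P
    rw [Finsupp.mapRange_apply]
    exact hu P
  have hnull : ∀ D2 : Dv k K, Null X (LinearMap.ker q) ((line D2).sub (⊤ : Submodule K K)) u →
      c ∈ (line (D - D2)).N := by
    intro D2 h
    have h1 := (null_ker_iff X q D D2 hT.img u).1 h
    rwa [hum] at h1
  obtain ⟨hdD, hfr1⟩ := deg_sub_top_line D'
  refine ⟨u, ?_⟩
  have htot : ((ext X (line D') u).deg : ℝ) + μ * finrank K (A × K) = ρ' := by
    rw [deg_ext, VB.deg_line, Module.finrank_prod, Module.finrank_self, hρ', ← hT.tot]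
    push_cast
    ring
  -- the subspaces of the kernel
  have hbot : ∀ J : Submodule K (A × K), J ≠ ⊥ → J.map (LinearMap.snd K A K) = ⊥ →
      exs μ (ext X (line D') u) J < 0 := by
    intro J hJ hJB
    have hJA : J.comap (LinearMap.inl K A K) ≠ ⊥ := fun h => hJ (eq_bot_of h hJB)
    have hext := ext_sub X (line D') u J
    have hrk := finrank_ext_sub J
    rw [hJB] at hext hrk
    obtain ⟨F', _, hF2, _⟩ := hext
    have hF0 : F'.deg = 0 := VB.deg_of_finrank_zero F' (finrank_bot _ _)
    have h1 := hN _ hJA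
    unfold exs at h1 ⊢
    rw [hF2, hF0, hrk, finrank_bot]
    push_cast
    linarith
  -- the subspaces which are onto the new line bundle
  have htop : ∀ J : Submodule K (A × K), J ≠ ⊤ → J.map (LinearMap.snd K A K) = ⊤ →
      exs μ (ext X (line D') u) J < ρ' := by
    intro J hJ hJB
    have hext := ext_sub X (line D') u J
    have hrk := finrank_ext_sub J
    rw [hJB] at hext hrk
    obtain ⟨F', hF1, hF2, hF3⟩ := hext
    have h2 := VB.deg_le_of_le hF1
    rw [hdD] at h2
    have hex : exs μ (ext X (line D') u) J =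
        exs μ X (J.comap (LinearMap.inl K A K)) + F'.deg + μ := by
      unfold exs
      rw [hF2, hrk, hfr1]
      push_cast
      ring
    rw [hex, hρ']
    suffices hs : exs μ X (J.comap (LinearMap.inl K A K)) + F'.deg < ρ + ddeg D' by linarith
    rcases h2.lt_or_eq with h3 | h3
    · have h3' : F'.deg + 1 ≤ ddeg D' := h3
      have h3r : (F'.deg : ℝ) + 1 ≤ ddeg D' := by exact_mod_cast h3'
      by_cases hJA : J.comap (LinearMap.inl K A K) = ⊥
      · have h0 : exs μ X (J.comap (LinearMap.inl K A K)) = 0 := by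
          rw [hJA]
          unfold exs
          rw [VB.deg_sub_bot, finrank_bot]
          simp
        rw [h0, zero_add]
        rcases hρ.lt_or_eq with h4 | h4
        · linarith
        · rcases (show F'.deg = ddeg D' - 1 ∨ F'.deg + 2 ≤ ddeg D' by omega) with h5 | h5
          · exfalso
            obtain ⟨P, hP⟩ := sub_top_line hF1 h5
            rw [hP] at hF3
            have h6 := hnull _ (Null.mono hF3 (by rw [hJA]; exact bot_le) (VB.le_refl' _))
            have h7 : D - (D' - Finsupp.single P 1) = D - D' + Finsupp.single P 1 := by abel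
            rw [h7] at h6
            exact hc' h4.symm P h6
          · have h5r : (F'.deg : ℝ) + 2 ≤ ddeg D' := by exact_mod_cast h5
            linarith
      · have h4 := hN _ hJA
        linarith
    · have h4 : F' = (line D').sub ⊤ := VB.eq_of_le_of_deg_le hF1 (by rw [hdD, h3])
      rw [h4] at hF3
      have h5 : ¬ J.comap (LinearMap.inl K A K) ≤ LinearMap.ker q := fun hle =>
        hc (hnull D' (Null.mono hF3 hle (VB.le_refl' _)))
      have h6 : J.comap (LinearMap.inl K A K) ≠ ⊤ := fun h => hJ (eq_top_of h hJB)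
      have h7 := hT.top _ h6 h5
      have h8 : (F'.deg : ℝ) = ddeg D' := by exact_mod_cast h3
      rw [h8]
      linarith
  have hker : ∀ J : Submodule K (A × K), J.map (LinearMap.snd K A K) = ⊥ ↔
      J ≤ LinearMap.ker (LinearMap.snd K A K) := by
    intro J
    rw [← le_bot_iff, Submodule.map_le_iff_le_comap, Submodule.comap_bot]
  refine ⟨⟨?_, htot, ?_⟩, ?_, ?_⟩
  · intro P y
    constructor
    · intro hy
      refine ⟨(u P y, y), ?_, rfl⟩
      rw [mem_ext]
      refine ⟨hy, ?_⟩
      rw [sub_self]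
      exact zero_mem _
    · rintro ⟨x, hx, rfl⟩
      exact (mem_ext.1 hx).1
  · intro J hJ hJk
    rcases eq_bot_or_eq_top (J.map (LinearMap.snd K A K)) with hJB | hJB
    · exact absurd ((hker J).1 hJB) hJk
    · exact htop J hJ hJB
  · intro J hJ hJk
    exact hbot J hJ ((hker J).2 hJk)
  · intro hneg J hJ
    rcases eq_bot_or_eq_top (J.map (LinearMap.snd K A K)) with hJB | hJB
    · exact hbot J hJ hJB
    · by_cases ht : J = ⊤
      · rw [ht]
        unfold exs
        rw [VB.deg_sub_top, finrank_top, htot]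
        exact hneg
      · exact (htop J ht hJB).trans hneg

end Pool.Agent.MP_09eaec.GG.BG
end

section

/-!
# TASK B7: only few points `P` have a nonzero homomorphism `G(-P) → X`

* `no_degree_one`: there is no `f : K` with divisor `P' - P`, `P ≠ P'`: if `f ≠ 0`, `Q.ord f ≥ 0` for
  `Q ≠ P`, `P.ord f = -1`, then `1, f, …, f^n ∈ H0 (line (n P))` are linearly independent over `k`
  (`Place.linearIndependent_of_strictMono` for the orders, reverse the order of the powers), so
  `h0 (line (n P)) ≥ n + 1`, but it is `n - 1` for `n` large (`exists_large`, `h0_line_of_N`).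
* `finite_T`: `θ : K → W` nonzero with `θ (G(-P)) ⊆ X`. `J = range θ` has rank one, and `θ` gives an
  isomorphism of `line (G - P)` with a bundle `≤ X.sub J` on `J`, so `(X.sub J).deg ≥ ddeg G - 1`
  (`deg_map`, `deg_le_of_le`); by `Neg` it is `= ddeg G - 1`, so `J ∈ X.exc 1 (ddeg G)` or `J = ⊤`, and
  `θ (G(-P)) = X.sub J` (`eq_of_le_of_deg_le`). The map `P ↦ J` (choose `θ` for every `P`) is injective: if
  `P, P'` have the same `J`, `θ' = f θ` with `f : K`, `f ≠ 0` (both have range `J` of rank one), and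
  `f · line (G - P') = line (G - P)`, so `f` has divisor `P - P'` or `P' - P`: `P = P'` by
  `no_degree_one`. So the set injects into the finite set `X.exc 1 (ddeg G) ∪ {⊤}`.
-/

set_option autoImplicit false

namespace Pool.Agent.MP_09eaec.GG

open Module

universe u v

variable {k : Type u} {K : Type v} [Field k] [Field K] [Algebra k K]
variable {W : Type v} [AddCommGroup W] [Module K W] [Module k W] [IsScalarTower k K W]
variable {A : Type v} [AddCommGroup A] [Module K A] [Module k A] [IsScalarTower k K A]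
variable {B : Type v} [AddCommGroup B] [Module K B] [Module k B] [IsScalarTower k K B]

variable [CurveG k K]

theorem no_degree_one {P : Place k K} {f : K} (hf : f ≠ 0) (h : ∀ Q, Q ≠ P → 0 ≤ Q.ord f) :
    P.ord f ≠ -1 := by
  classical
  intro hP
  obtain ⟨C, hC⟩ := exists_large (k := k) (K := K)
  obtain ⟨n, hn⟩ : ∃ n : ℕ, C ≤ n := ⟨C.toNat, Int.self_le_toNat _⟩
  have hN : (line (Finsupp.single P (n : ℤ)) : VB k K K).N = ⊤ := hC _ (by rw [ddeg_single]; exact hn)
  have hg := CurveG.two_le (k := k) (K := K)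
  have h0 : (line (Finsupp.single P (n : ℤ)) : VB k K K).h0 = n + 1 - gen k K := by
    rw [h0_line_of_N hN, ddeg_single]
  have hord : ∀ (m : ℕ) (Q : Place k K), Q.ord (f ^ m) = m * Q.ord f := fun m Q => Q.ord_pow f hf m
  have hmem : ∀ i : Fin (n + 1), f ^ (n - (i : ℕ)) ∈
      (line (Finsupp.single P (n : ℤ)) : VB k K K).H0 := by
    intro i
    rw [VB.mem_H0]
    intro Q
    rw [mem_line]
    right
    rw [hord]
    by_cases hQ : Q = P
    · rw [hQ, hP, Finsupp.single_eq_same]
      have : ((n - (i : ℕ) : ℕ) : ℤ) ≤ n := by omega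
      omega
    · rw [Finsupp.single_eq_of_ne hQ, neg_zero]
      exact mul_nonneg (by omega) (h Q hQ)
  have hli : LinearIndependent k (fun i : Fin (n + 1) => f ^ (n - (i : ℕ))) := by
    refine P.linearIndependent_of_strictMono (n + 1) _ (fun i => pow_ne_zero _ hf) ?_
    intro i j hij
    show P.ord (f ^ (n - (i : ℕ))) < P.ord (f ^ (n - (j : ℕ)))
    rw [hord, hord, hP]
    have h1 : (i : ℕ) < j := hij
    have h2 := j.2
    omega
  have hli' : LinearIndependent k (fun i : Fin (n + 1) =>
      (⟨f ^ (n - (i : ℕ)), hmem i⟩ : (line (Finsupp.single P (n : ℤ)) : VB k K K).H0)) :=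
    LinearIndependent.of_comp (Submodule.subtype _) hli
  have h2 := hli'.fintype_card_le_finrank
  rw [Fintype.card_fin] at h2
  have h3 : (line (Finsupp.single P (n : ℤ)) : VB k K K).h0 =
    (finrank k (line (Finsupp.single P (n : ℤ)) : VB k K K).H0 : ℤ) := rfl
  omega

/-- The stalks of `X` on the range of `θ`. -/
private theorem IntT_key [FiniteDimensional K W] (X : VB k K W) (G : Dv k K)
    (hX : Neg X 1 (ddeg G)) {P : Place k K} {θ : K →ₗ[K] W} (hθ : θ ≠ 0)
    (h : ∀ Q x, x ∈ (line (G - Finsupp.single P 1)).M Q → θ x ∈ X.M Q) :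
    (LinearMap.range θ ∈ X.exc 1 (ddeg G) ∨ LinearMap.range θ = ⊤) ∧
      ∀ Q x, x ∈ (line (G - Finsupp.single P 1)).M Q ↔ θ x ∈ X.M Q := by
  have hinj : Function.Injective θ := by
    rw [← LinearMap.ker_eq_bot]
    by_contra hker
    obtain ⟨x, hx, hx0⟩ := (Submodule.ne_bot_iff _).mp hker
    apply hθ
    ext
    have h1 : θ x = x • θ 1 := by rw [← map_smul, smul_eq_mul, mul_one]
    rw [LinearMap.mem_ker, h1, smul_eq_zero] at hx
    rcases hx with h2 | h2
    · exact absurd h2 hx0
    · rw [h2]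
      rfl
  have hJ : LinearMap.range θ ≠ ⊥ := by
    rw [Ne, LinearMap.range_eq_bot]
    exact hθ
  have hrank : finrank K (LinearMap.range θ) = 1 := by
    rw [LinearMap.finrank_range_of_inj hinj, finrank_self]
  have hle : (line (G - Finsupp.single P 1)).map (LinearEquiv.ofInjective θ hinj) ≤
      X.sub (LinearMap.range θ) := by
    rintro Q _ ⟨y, hy, rfl⟩
    exact h Q y hy
  have hdeg := VB.deg_le_of_le hle
  rw [VB.deg_map, VB.deg_line, ddeg_sub, ddeg_single] at hdeg
  have hneg := hX _ hJ
  rw [hrank, Nat.cast_one, mul_one, one_mul] at hneg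
  constructor
  · by_cases htop : LinearMap.range θ = ⊤
    · exact Or.inr htop
    · left
      refine ⟨hJ, htop, ?_⟩
      rw [hrank, Nat.cast_one, mul_one, one_mul]
      omega
  · have heq := VB.eq_of_le_of_deg_le hle (by
      rw [VB.deg_map, VB.deg_line, ddeg_sub, ddeg_single]
      omega)
    intro Q x
    constructor
    · exact h Q x
    · intro hx
      have h1 : (LinearEquiv.ofInjective θ hinj x) ∈ (X.sub (LinearMap.range θ)).M Q := hx
      rw [← heq, VB.mem_map, LinearEquiv.symm_apply_apply] at h1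
      exact h1

theorem finite_T [FiniteDimensional K W] (X : VB k K W) (G : Dv k K) (hX : Neg X 1 (ddeg G))
    (hf : (X.exc 1 (ddeg G)).Finite) :
    {P : Place k K | ∃ θ : K →ₗ[K] W, θ ≠ 0 ∧
      ∀ Q x, x ∈ (line (G - Finsupp.single P 1)).M Q → θ x ∈ X.M Q}.Finite := by
  classical
  have hE : (X.exc 1 (ddeg G) ∪ {⊤}).Finite := hf.union (Set.finite_singleton _)
  have hsub : {P : Place k K | ∃ θ : K →ₗ[K] W, θ ≠ 0 ∧
      ∀ Q x, x ∈ (line (G - Finsupp.single P 1)).M Q → θ x ∈ X.M Q} ⊆
      ⋃ J ∈ X.exc 1 (ddeg G) ∪ {⊤}, {P : Place k K | ∃ θ : K →ₗ[K] W, θ ≠ 0 ∧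
        LinearMap.range θ = J ∧
        ∀ Q x, x ∈ (line (G - Finsupp.single P 1)).M Q → θ x ∈ X.M Q} := by
    rintro P ⟨θ, hθ, h⟩
    refine Set.mem_biUnion (x := LinearMap.range θ) ?_ ⟨θ, hθ, rfl, h⟩
    rcases (IntT_key X G hX hθ h).1 with h1 | h1
    · exact Or.inl h1
    · exact Or.inr h1
  refine (hE.biUnion fun J _ => Set.Subsingleton.finite ?_).subset hsub
  rintro P ⟨θ, hθ, hr, h⟩ P' ⟨θ', hθ', hr', h'⟩
  by_contra hne
  have hk := (IntT_key X G hX hθ h).2
  have hk' := (IntT_key X G hX hθ' h').2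
  obtain ⟨c, hc⟩ : ∃ c : K, θ' c = θ 1 := by
    have h1 : θ 1 ∈ LinearMap.range θ' := by
      rw [hr', ← hr]
      exact LinearMap.mem_range_self θ 1
    exact h1
  have hθ1 : θ 1 ≠ 0 := by
    intro h0
    apply hθ
    ext
    rw [h0]
    rfl
  have hc0 : c ≠ 0 := by
    rintro rfl
    rw [map_zero] at hc
    exact hθ1 hc.symm
  have hθc : ∀ x : K, θ x = θ' (c * x) := by
    intro x
    have h1 : θ x = x • θ 1 := by rw [← map_smul, smul_eq_mul, mul_one]
    rw [h1, ← hc, ← map_smul, smul_eq_mul, mul_comm]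
  have hiff : ∀ Q x, x ∈ (line (G - Finsupp.single P 1)).M Q ↔
      c * x ∈ (line (G - Finsupp.single P' 1)).M Q := by
    intro Q x
    rw [hk Q x, hθc x]
    exact (hk' Q (c * x)).symm
  have hlow : ∀ Q : Place k K, (G - Finsupp.single P 1 : Dv k K) Q -
      (G - Finsupp.single P' 1 : Dv k K) Q ≤ Q.ord c := by
    intro Q
    obtain ⟨y, hy0, hy⟩ := exists_ord_eq Q (-(G - Finsupp.single P 1 : Dv k K) Q)
    have h1 : c * y ∈ (line (G - Finsupp.single P' 1)).M Q := (hiff Q y).mp (Or.inr hy.ge)
    rcases h1 with h1 | h1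
    · exact absurd h1 (mul_ne_zero hc0 hy0)
    · rw [Q.ord_mul c y hc0 hy0, hy] at h1
      omega
  have hup : P.ord c ≤ (G - Finsupp.single P 1 : Dv k K) P -
      (G - Finsupp.single P' 1 : Dv k K) P := by
    obtain ⟨z, hz0, hz⟩ := exists_ord_eq P (-(G - Finsupp.single P' 1 : Dv k K) P)
    have h1 : c⁻¹ * z ∈ (line (G - Finsupp.single P 1)).M P := by
      rw [hiff, ← mul_assoc, mul_inv_cancel₀ hc0, one_mul]
      exact Or.inr hz.ge
    rcases h1 with h1 | h1
    · exact absurd h1 (mul_ne_zero (inv_ne_zero hc0) hz0)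
    · rw [P.ord_mul _ z (inv_ne_zero hc0) hz0, hz, P.ord_inv] at h1
      omega
  refine no_degree_one (k := k) hc0 (P := P) ?_ ?_
  · intro Q hQ
    have h1 := hlow Q
    rw [Finsupp.sub_apply, Finsupp.sub_apply, Finsupp.single_eq_of_ne hQ] at h1
    have h2 : (0 : ℤ) ≤ (Finsupp.single P' 1 : Dv k K) Q := by
      rw [Finsupp.single_apply]
      split_ifs <;> omega
    omega
  · have h1 := hlow P
    have h3 : P ≠ P' := hne
    rw [Finsupp.sub_apply, Finsupp.sub_apply, Finsupp.single_eq_same,
      Finsupp.single_eq_of_ne h3] at h1 hup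
    omega

end Pool.Agent.MP_09eaec.GG
end

section

/-!
# The canonical divisor

`κ` from `exists_kappa`; `serre_line`, `chi_line`, `h0_line_zero` (`h0 (line 0) = 1`).
* `h0 (line κ) = h1 (line 0) = 1 - (1 - g) = g`; `h1 (line κ) = h0 (line 0) = 1`, so
  `ddeg κ + 1 - g = chi = g - 1`.
* `h0 (line (single P 1)) = 1`: an element `f` not in `H0 (line 0)` has `P.ord f = -1` and no other
  poles, excluded by `no_degree_one`. So `h0 (line (κ - single P 1)) = h1 (line (single P 1)) =
  1 - (2 - g) = g - 1`. So there is `s ∈ H0 (line κ)`, not in `P.filt (-κ P + 1)`: `s ≠ 0`, `P.ord s = -κ P`.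
-/

set_option autoImplicit false

namespace Pool.Agent.MP_09eaec.GG

open Module

universe u v

variable {k : Type u} {K : Type v} [Field k] [Field K] [Algebra k K]
variable {W : Type v} [AddCommGroup W] [Module K W] [Module k W] [IsScalarTower k K W]
variable {A : Type v} [AddCommGroup A] [Module K A] [Module k A] [IsScalarTower k K A]
variable {B : Type v} [AddCommGroup B] [Module K B] [Module k B] [IsScalarTower k K B]

/-- `κ` is a canonical divisor: degree `2 g - 2`, `h⁰ = g`, no base points, Serre duality. -/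
structure IsCanonical [Curve k K] (κ : Dv k K) : Prop where
  ddeg : ddeg κ = 2 * gen k K - 2
  h0 : (line κ).h0 = gen k K
  base : ∀ P : Place k K, ∃ s ∈ (line κ).H0, s ≠ 0 ∧ P.ord s = -κ P
  h0_sub : ∀ P : Place k K, (line (κ - Finsupp.single P 1)).h0 = gen k K - 1
  dual : ∀ (W : Type v) [AddCommGroup W] [Module K W] [Module k W] [IsScalarTower k K W]
    [FiniteDimensional K W] (E : VB k K W), E.h1 = (hom E (line κ)).h0

private theorem Canon_h0_single [CurveG k K] (P : Place k K) :
    (line (Finsupp.single P 1 : Dv k K)).h0 = 1 := by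
  have h : (line (Finsupp.single P 1 : Dv k K)).H0 = (line (0 : Dv k K)).H0 := by
    classical
    ext x
    rw [VB.mem_H0, VB.mem_H0]
    constructor
    · intro hx
      by_cases h0 : x = 0
      · subst h0
        intro Q
        exact zero_mem _
      have hQ : ∀ Q, Q ≠ P → 0 ≤ Q.ord x := by
        intro Q hQP
        rcases hx Q with h1 | h1
        · exact absurd h1 h0
        · rwa [Finsupp.single_eq_of_ne hQP, neg_zero] at h1
      have hP := no_degree_one h0 hQ
      intro Q
      right
      rw [Finsupp.coe_zero, Pi.zero_apply, neg_zero]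
      by_cases hQP : Q = P
      · subst hQP
        rcases hx Q with h1 | h1
        · exact absurd h1 h0
        · rw [Finsupp.single_eq_same] at h1
          omega
      · exact hQ Q hQP
    · intro hx Q
      refine filt_mono Q ?_ (hx Q)
      rw [Finsupp.coe_zero, Pi.zero_apply, neg_zero, Finsupp.single_apply]
      split_ifs <;> omega
  have h2 := h0_line_zero (k := k) (K := K)
  unfold VB.h0 at h2 ⊢
  rw [h]
  exact h2

theorem exists_canonical [CurveG k K] : ∃ κ : Dv k K, IsCanonical κ := by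
  classical
  obtain ⟨ω, κ, h0, h1, h2⟩ := exists_kappa (k := k) (K := K)
  have hs := serre_line h0 h1 h2
  have e0 := hs 0
  rw [sub_zero] at e0
  have e1 := hs κ
  rw [sub_self] at e1
  have z := h0_line_zero (k := k) (K := K)
  have c0 := chi_line (0 : Dv k K)
  have c1 := chi_line κ
  rw [ddeg_zero] at c0
  unfold VB.chi at c0 c1
  have hκ0 : (line κ).h0 = gen k K := by omega
  refine ⟨κ, ?_, hκ0, ?_, ?_, ?_⟩
  · omega
  · intro P
    have e2 := hs (Finsupp.single P 1)
    have c2 := chi_line (Finsupp.single P 1 : Dv k K)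
    have hz := Canon_h0_single (k := k) P
    rw [ddeg_single] at c2
    unfold VB.chi at c2
    have hlt : (line (κ - Finsupp.single P 1)).h0 < (line κ).h0 := by omega
    have hex : ∃ s ∈ (line κ).H0, s ∉ (line (κ - Finsupp.single P 1)).H0 := by
      by_contra hno
      push Not at hno
      have hle : (line κ).H0 ≤ (line (κ - Finsupp.single P 1)).H0 := hno
      have := Submodule.finrank_mono hle
      unfold VB.h0 at hlt
      omega
    obtain ⟨s, hs1, hs2⟩ := hex
    have hs0 : s ≠ 0 := by
      rintro rfl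
      exact hs2 (zero_mem _)
    refine ⟨s, hs1, hs0, ?_⟩
    rw [VB.mem_H0] at hs1 hs2
    push Not at hs2
    obtain ⟨Q, hQ⟩ := hs2
    have hQP : Q = P := by
      by_contra hne
      apply hQ
      have := hs1 Q
      rw [mem_line] at this ⊢
      rwa [Finsupp.sub_apply, Finsupp.single_eq_of_ne hne, sub_zero]
    subst hQP
    rcases hs1 Q with h3 | h3
    · exact absurd h3 hs0
    refine le_antisymm ?_ h3
    by_contra h4
    apply hQ
    right
    rw [Finsupp.sub_apply, Finsupp.single_eq_same]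
    omega
  · intro P
    have e2 := hs (Finsupp.single P 1)
    have c2 := chi_line (Finsupp.single P 1 : Dv k K)
    have hz := Canon_h0_single (k := k) P
    rw [ddeg_single] at c2
    unfold VB.chi at c2
    omega
  · intro W _ _ _ _ _ E
    exact serre h0 h1 h2 E

end Pool.Agent.MP_09eaec.GG
end

section

/-!
# TASK Strong: classes which stay nonzero on all the modifications at one point

* `exists_class`: `h1 (line Δ) ≥ gen - 1 - ddeg Δ ≥ 1` (`VB.rr`, `deg_line`, `h0_nonneg`), so `N ≠ ⊤`.
* `exists_strong`: let `3 ≤ h1 (line Δ)`. Let `ω, κ` be as in `exists_kappa` (GG/Kappa.lean). As in the proof of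
  `serre` (for `E = line Δ`, with `omega_unique`, `omega_smul_injective`) every functional on `Place →₀ K` which vanishes on
  `(line Δ).N` is `a ↦ ω (s • a)` for some `s ∈ (line (κ - Δ)).H0`, and conversely.
  `h1 ≠ 0`, so there is `s0 ≠ 0` in `(line (κ - Δ)).H0` (`serre_line`). `U = ker (a ↦ ω (s0 • a)) ≥ (line Δ).N`.
  Let `Z` be the finite set of the `P` with `s0 ∈ (line (κ - Δ - single P 1)).M P` (i.e.
  `P.ord s0 + (κ - Δ) P ≥ 1`; this is the support of a divisor).
  For `P ∈ Z`: `h1 (line (Δ + single P 1)) ≥ h1 (line Δ) - 1 ≥ 2` (`oneStep_line`, `OneStep.chi`, `h0` monotone) so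
  `(line (Δ + single P 1)).N` has codimension `≥ 2` and does not contain `U` (codimension `≤ 1`); the same for
  `(line Δ).N`, codimension `≥ 3`. `k` is infinite, so there is `c ∈ U` outside these finitely many subspaces
  (`Subspace.biUnion_ne_univ_of_top_notMem` or the lemma used for `exists_generic`).
  For `P ∉ Z`: suppose `c ∈ (line (Δ + single P 1)).N`. For `s ∈ (line (κ - Δ)).H0` there is `t : k` with
  `s - t • s0 ∈ (line (κ - Δ - single P 1)).H0` (both are in `(line (κ - Δ)).M P`, `s0` is not in the smaller stalk,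
  residue field `k`; `oneStep_line` and `OneStep.span`), so `ω ((s - t • s0) • c) = 0` (`smul_mem_N` and `ω = 0` on
  `(line κ).N`) and `ω (s0 • c) = 0`, so `ω (s • c) = 0` for all `s`, so `c ∈ (line Δ).N`, a contradiction.
* `exists_strong_single`: `Δ = single P0 (e - e')`. If `e = e'`: `Δ = 0`, `h1 (line 0) = gen ≥ 3` (`VB.rr`,
  `h0_line_zero`). Otherwise `h1 ≥ gen - 1 - (e - e') ≥ gen ≥ 3`.
-/

set_option autoImplicit false

namespace Pool.Agent.MP_09eaec.GG.BG

open Module

universe u v

variable {k : Type u} {K : Type v} [Field k] [Field K] [Algebra k K]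
variable {W : Type v} [AddCommGroup W] [Module K W] [Module k W] [IsScalarTower k K W]
variable {A : Type v} [AddCommGroup A] [Module K A] [Module k A] [IsScalarTower k K A]
variable {B : Type v} [AddCommGroup B] [Module K B] [Module k B] [IsScalarTower k K B]

variable [CurveG k K]

/-- The functionals which vanish on `N (line D)` are the `a ↦ ω (s • a)` with `s` a section of `line (κ - D)`. -/
private theorem Strong_key {ω : (Place k K →₀ K) →ₗ[k] k} {κ : Dv k K} (h0 : ω ≠ 0)
    (h1 : ∀ (P : Place k K) (x : K), x ∈ (line κ).M P ↔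
      ∀ c ∈ P.filt 0, ω (Finsupp.single P (c * x)) = 0)
    (h2 : ∀ a ∈ (line κ).N, ω a = 0) (D : Dv k K) (a : Place k K →₀ K) :
    a ∈ (line D).N ↔ ∀ s ∈ (line (κ - D)).H0, ω (s • a) = 0 := by
  classical
  constructor
  · intro ha s hs
    refine h2 _ (smul_mem_N (D := D) (D' := κ) (fun P => ?_) ha)
    have := VB.mem_H0.1 hs P
    rw [mem_line, Finsupp.sub_apply] at this
    rwa [neg_sub] at this
  · intro h
    by_contra hna
    obtain ⟨lam, hl1, hl2⟩ := Submodule.exists_le_ker_of_notMem hna
    have hlam : ∀ b ∈ (line D).N, lam b = 0 := fun b hb => LinearMap.mem_ker.1 (hl2 hb)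
    obtain ⟨x, hx⟩ := omega_unique h0 h2 hlam
    have hxH : x ∈ (line (κ - D)).H0 := by
      rw [VB.mem_H0]
      intro P
      obtain ⟨t, ht, htm⟩ := exists_ord_eq P (-D P)
      rw [mem_line, ← mem_filt_iff_of_ord P ht htm]
      have h3 : t * x ∈ (line κ).M P := by
        rw [h1]
        intro c hc
        have h4 : Finsupp.single P (c * t) ∈ (line D).N := by
          refine ⟨0, fun Q => ?_⟩
          rw [sub_zero, Finsupp.single_apply]
          split_ifs with hQ
          · subst hQ
            rw [mem_line]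
            have := mul_mem_filt P hc (Or.inr htm.ge : t ∈ P.filt (-D P))
            rwa [zero_add] at this
          · exact zero_mem _
        have h5 := hx (Finsupp.single P (c * t))
        rw [hlam _ h4, Finsupp.smul_single, smul_eq_mul] at h5
        rw [show c * (t * x) = x * (c * t) by ring]
        exact h5.symm
      rw [mem_line] at h3
      rw [Finsupp.sub_apply, show -(κ P - D P) + -D P = -κ P by ring]
      exact h3
    apply hl1
    rw [hx a]
    exact h x hxH

/-- If `ker (a ↦ ω (s0 • a)) ≤ N (line D)` then `h1 (line D) ≤ 1`. -/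
private theorem Strong_ker {ω : (Place k K →₀ K) →ₗ[k] k} {κ : Dv k K} (h0 : ω ≠ 0)
    (h1 : ∀ (P : Place k K) (x : K), x ∈ (line κ).M P ↔
      ∀ c ∈ P.filt 0, ω (Finsupp.single P (c * x)) = 0)
    (h2 : ∀ a ∈ (line κ).N, ω a = 0) (D : Dv k K) {s0 : K} (hs0 : s0 ≠ 0)
    (h : ∀ a : Place k K →₀ K, ω (s0 • a) = 0 → a ∈ (line D).N) : (line D).h1 ≤ 1 := by
  have hex : ∃ b : Place k K →₀ K, ω (s0 • b) ≠ 0 := by
    by_contra hcon
    push Not at hcon
    exact hs0 (omega_smul_injective h0 hcon)
  obtain ⟨b, hb⟩ := hex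
  have hle : (line (κ - D)).H0 ≤ Submodule.span k {s0} := by
    intro s hs
    rw [Submodule.mem_span_singleton]
    refine ⟨ω (s • b) / ω (s0 • b), ?_⟩
    rw [← sub_eq_zero]
    refine omega_smul_injective h0 fun a => ?_
    set t : k := ω (s0 • a) / ω (s0 • b) with ht
    have h3 : a - t • b ∈ (line D).N := by
      apply h
      rw [smul_sub, smul_comm s0 t b, map_sub, ω.map_smul t (s0 • b), smul_eq_mul, ht,
        div_mul_cancel₀ _ hb, sub_self]
    have h4 := (Strong_key h0 h1 h2 D _).1 h3 s hs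
    rw [smul_sub, smul_comm s t b, map_sub, ω.map_smul t (s • b), smul_eq_mul, sub_eq_zero] at h4
    rw [sub_smul, map_sub, smul_assoc, ω.map_smul _ (s0 • a), smul_eq_mul, h4, ht]
    ring
  rw [serre_line h0 h1 h2 D]
  have h5 := Submodule.finrank_mono hle
  rw [finrank_span_singleton hs0] at h5
  unfold VB.h0
  exact_mod_cast h5

private theorem Strong_h1_step (Δ : Dv k K) (P : Place k K) :
    (line Δ : VB k K K).h1 - 1 ≤ (line (Δ + Finsupp.single P 1) : VB k K K).h1 := by
  classical
  have c0 := chi_line Δ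
  have c1 := chi_line (Δ + Finsupp.single P 1)
  rw [ddeg_add, ddeg_single] at c1
  unfold VB.chi at c0 c1
  have hle : (line Δ : VB k K K).H0 ≤ (line (Δ + Finsupp.single P 1) : VB k K K).H0 := by
    intro x hx
    rw [VB.mem_H0] at hx ⊢
    intro Q
    refine (line_le_line (D := Δ) (D' := Δ + Finsupp.single P 1)).2 (fun R => ?_) Q (hx Q)
    rw [Finsupp.add_apply, Finsupp.single_apply]
    split_ifs <;> omega
  have h3 := Submodule.finrank_mono hle
  have h4 : (line Δ : VB k K K).h0 ≤ (line (Δ + Finsupp.single P 1) : VB k K K).h0 := by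
    unfold VB.h0
    exact_mod_cast h3
  omega

theorem exists_class {Δ : Dv k K} (h : ddeg Δ ≤ gen k K - 2) :
    ∃ c : Place k K →₀ K, c ∉ (line Δ : VB k K K).N := by
  by_contra hcon
  push Not at hcon
  have h1 : (line Δ : VB k K K).N = ⊤ := by
    rw [eq_top_iff]
    intro a _
    exact hcon a
  have h2 := h1_eq_zero_of_N h1
  have h3 := chi_line Δ
  have h4 := VB.h0_nonneg (line Δ : VB k K K)
  unfold VB.chi at h3
  omega

theorem exists_strong {Δ : Dv k K} (h : 3 ≤ (line Δ : VB k K K).h1) :
    ∃ c : Place k K →₀ K, c ∉ (line Δ : VB k K K).N ∧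
      ∀ P : Place k K, c ∉ (line (Δ + Finsupp.single P 1) : VB k K K).N := by
  classical
  have := Curve.closed (k := k) (K := K)
  have := Curve.char (k := k) (K := K)
  have : Infinite k := IsAlgClosed.instInfinite
  obtain ⟨ω, κ, h0, h1, h2⟩ := exists_kappa (k := k) (K := K)
  have hne : (line (κ - Δ) : VB k K K).H0 ≠ ⊥ := by
    intro hb
    have h3 := serre_line h0 h1 h2 Δ
    have h4 : (line (κ - Δ) : VB k K K).h0 = 0 := by
      unfold VB.h0
      rw [hb, finrank_bot]
      rfl
    omega
  obtain ⟨s0, hs0H, hs0⟩ := Submodule.exists_mem_ne_zero_of_ne_bot hne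
  -- the functional `a ↦ ω (s0 • a)` and its kernel
  let f : (Place k K →₀ K) →ₗ[k] k :=
    { toFun := fun a => ω (s0 • a)
      map_add' := fun a b => by rw [smul_add, map_add]
      map_smul' := fun c a => by rw [smul_comm, map_smul, RingHom.id_apply] }
  have hf : ∀ a, f a = ω (s0 • a) := fun _ => rfl
  let Z : Finset (Place k K) := (dv s0 + κ - Δ).support
  let D : Option Z → Dv k K := fun i => match i with
    | none => Δ
    | some P => Δ + Finsupp.single (P : Place k K) 1
  have hD : ∀ i, 2 ≤ (line (D i) : VB k K K).h1 := by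
    rintro (_ | P)
    · show 2 ≤ (line Δ : VB k K K).h1
      omega
    · show 2 ≤ (line (Δ + Finsupp.single (P : Place k K) 1) : VB k K K).h1
      have := Strong_h1_step Δ (P : Place k K)
      omega
  have hex : ∃ c : LinearMap.ker f, ∀ i, (c : Place k K →₀ K) ∉ (line (D i) : VB k K K).N := by
    by_contra hcon
    push Not at hcon
    let S : Option Z → Submodule k (LinearMap.ker f) := fun i =>
      (line (D i) : VB k K K).N.comap (LinearMap.ker f).subtype
    have hS : ⋃ i, (S i : Set (LinearMap.ker f)) = Set.univ := by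
      rw [Set.eq_univ_iff_forall]
      intro u
      obtain ⟨i, hi⟩ := hcon u
      exact Set.mem_iUnion.2 ⟨i, hi⟩
    have hi0 := Subspace.exists_eq_top_of_iUnion_eq_univ (k := k) (E := LinearMap.ker f)
      (ι := Option Z) (p := S) hS
    obtain ⟨i, hi⟩ := hi0
    have h3 := Strong_ker h0 h1 h2 (D i) hs0 (fun a ha => by
      have h4 : (⟨a, ha⟩ : LinearMap.ker f) ∈ S i := by rw [hi]; trivial
      exact h4)
    have h4 := hD i
    omega
  obtain ⟨⟨c, hc⟩, hcD⟩ := hex
  have hcf : ω (s0 • c) = 0 := hc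
  have hc0 : c ∉ (line Δ : VB k K K).N := hcD none
  refine ⟨c, hc0, fun P hP => ?_⟩
  by_cases hZ : P ∈ Z
  · exact hcD (some ⟨P, hZ⟩) hP
  · apply hc0
    rw [Strong_key h0 h1 h2]
    intro s hs
    have hord : P.ord s0 = -(κ P - Δ P) := by
      have h3 := Finsupp.notMem_support_iff.1 hZ
      rw [Finsupp.sub_apply, Finsupp.add_apply, dv_apply] at h3
      omega
    have hsP : s ∈ P.filt (-(κ P - Δ P)) := by
      have := VB.mem_H0.1 hs P
      rwa [mem_line, Finsupp.sub_apply] at this
    have h3 : s / s0 ∈ P.filt 0 := by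
      by_cases hs1 : s = 0
      · rw [hs1, zero_div]; exact zero_mem _
      · have := hsP.resolve_left hs1
        right
        rw [P.ord_div _ _ hs1 hs0]
        omega
    obtain ⟨t, ht⟩ := exists_residue (Curve.curve (k := k) (K := K)) P (f := s / s0) h3
    have h4 : s / s0 - algebraMap k K t ∈ P.filt 1 := by
      rcases ht with ht | ht
      · exact Or.inl ht
      · exact Or.inr (by omega)
    have h5 : s - t • s0 = (s / s0 - algebraMap k K t) * s0 := by
      rw [sub_mul, div_mul_cancel₀ _ hs0, Algebra.smul_def]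
    have h6 : s - t • s0 ∈ (line (κ - (Δ + Finsupp.single P 1)) : VB k K K).H0 := by
      rw [VB.mem_H0]
      intro Q
      rw [mem_line, Finsupp.sub_apply, Finsupp.add_apply]
      by_cases hQ : Q = P
      · subst hQ
        rw [Finsupp.single_eq_same, h5]
        refine filt_mono Q ?_ (mul_mem_filt Q h4 (Or.inr hord.ge))
        omega
      · rw [Finsupp.single_eq_of_ne hQ, add_zero]
        have h7 := VB.mem_H0.1 ((line (κ - Δ) : VB k K K).H0.sub_mem hs
          ((line (κ - Δ) : VB k K K).H0.smul_mem t hs0H)) Q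
        rwa [mem_line, Finsupp.sub_apply] at h7
    have h7 := (Strong_key h0 h1 h2 _ c).1 hP _ h6
    rw [sub_smul, map_sub, smul_assoc, ω.map_smul t (s0 • c), hcf, smul_zero, sub_zero] at h7
    exact h7

theorem exists_strong_single (hg : 3 ≤ gen k K) (P0 : Place k K) {e e' : ℤ} (h : e ≤ e') :
    ∃ c : Place k K →₀ K,
      c ∉ (line (Finsupp.single P0 e - Finsupp.single P0 e') : VB k K K).N ∧
      ∀ P : Place k K,
        c ∉ (line (Finsupp.single P0 e - Finsupp.single P0 e' + Finsupp.single P 1) : VB k K K).N := by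
  apply exists_strong
  have c0 := chi_line (Finsupp.single P0 e - Finsupp.single P0 e' : Dv k K)
  rw [ddeg_sub, ddeg_single, ddeg_single] at c0
  unfold VB.chi at c0
  have h4 := VB.h0_nonneg (line (Finsupp.single P0 e - Finsupp.single P0 e') : VB k K K)
  rcases h.eq_or_lt with heq | hlt
  · subst heq
    have h5 := h0_line_zero (k := k) (K := K)
    rw [← sub_self (Finsupp.single P0 e : Dv k K)] at h5
    omega
  · omega

end Pool.Agent.MP_09eaec.GG.BG
end

section

/-!
# TASK Classes: independent extension classes, for which `a` maps to `2 κ` extend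

`h1 (line κ) = 1` (`hκ.dual`, `hom_line_line`, `h0_line_zero`, `h0_map`; or `VB.rr` and `hκ.h0`, `hκ.ddeg`), so for every
`i : Fin a` the `k`-linear map `Place →₀ A → (line κ).H1`, `b ↦ [P ↦ σ i * q (b P)]` (`Finsupp.mapRange`), has rank `≤ 1`.
Let `S ≤ (Place →₀ A)` be the intersection of their kernels, codimension `≤ a` (e.g. the kernel of the map to
`Fin a → (line κ).H1`). The image `S'` of `S` in `G.H1 = (Place →₀ A) ⧸ G.N` has codimension `≤ a` (the map
`(Place →₀ A) ⧸ S → G.H1 ⧸ S'` is onto), so `finrank S' ≥ h1 - a ≥ j`, and there are `b : Fin j → (Place →₀ A)` in `S`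
with `k`-independent classes. `u P y = ∑ l, y l • b l P` as in `exists_indep_ext` (GG/IndepExt.lean; same proof of
the first property). For `i`, `l`: `∃ c i l : K, ∀ P, σ i * q (b l P) - c i l ∈ (line κ).M P` (definition of `N`);
`ψ y = - ∑ l, c i l * y l`: `σ i * q (u P y) + ψ y = ∑ l, y l * (σ i * q (b l P) - c i l) ∈ (line κ).M P` for
`y l ∈ P.filt 0`.
-/

set_option autoImplicit false

namespace Pool.Agent.MP_09eaec.GG.BG

open Module

universe u v

variable {k : Type u} {K : Type v} [Field k] [Field K] [Algebra k K]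
variable {W : Type v} [AddCommGroup W] [Module K W] [Module k W] [IsScalarTower k K W]
variable {A : Type v} [AddCommGroup A] [Module K A] [Module k A] [IsScalarTower k K A]
variable {B : Type v} [AddCommGroup B] [Module K B] [Module k B] [IsScalarTower k K B]

variable [CurveG k K]

private noncomputable def Classes_scal (q : A →ₗ[K] K) (c : K) : A →ₗ[k] K :=
  ((LinearMap.lsmul K K c) ∘ₗ q).restrictScalars k

theorem exists_classes {κ : Dv k K} (hκ : IsCanonical κ) [FiniteDimensional K A] (G : VB k K A)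
    (q : A →ₗ[K] K) {a j : ℕ} (σ : Fin a → K) (hj : (j : ℤ) + a ≤ G.h1) :
    ∃ u : Place k K →₀ ((Fin j → K) →ₗ[K] A),
      (∀ c : Fin j → k,
        (∃ w : A, ∀ P, u P (fun i => algebraMap k K (c i)) - w ∈ G.M P) → c = 0) ∧
      ∀ i : Fin a, ∃ ψ : (Fin j → K) →ₗ[K] K, ∀ (P : Place k K) (y : Fin j → K),
        y ∈ (pw (0 : Dv k K) j).M P → σ i * q (u P y) + ψ y ∈ (line κ).M P := by
  classical
  have hj' : j + a ≤ finrank k G.H1 := by
    have h := hj
    unfold VB.h1 at h
    exact_mod_cast h
  rcases Nat.eq_zero_or_pos j with h0 | hpos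
  · subst h0
    refine ⟨0, fun c _ => Subsingleton.elim _ _, fun i => ⟨0, fun P y _ => ?_⟩⟩
    have h1 : σ i * q ((0 : Place k K →₀ ((Fin 0 → K) →ₗ[K] A)) P y)
        + (0 : (Fin 0 → K) →ₗ[K] K) y = 0 := by
      simp
    rw [h1]
    exact zero_mem _
  have hκ1 : finrank k (line κ).H1 = 1 := by
    have c1 := chi_line κ
    unfold VB.chi at c1
    have e0 := hκ.h0
    have e1 := hκ.ddeg
    have e2 : (line κ).h1 = 1 := by omega
    unfold VB.h1 at e2
    exact_mod_cast e2
  have : Module.Finite k (line κ).H1 := Module.finite_of_finrank_pos (by omega)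
  have : Module.Finite k G.H1 := Module.finite_of_finrank_pos (by omega)
  let Φ : (Place k K →₀ A) →ₗ[k] (Fin a → (line κ).H1) :=
    LinearMap.pi fun i => (line κ).N.mkQ ∘ₗ
      Finsupp.mapRange.linearMap (Classes_scal (k := k) q (σ i))
  have hΦ : ∀ b i, Φ b i = (line κ).N.mkQ
      (Finsupp.mapRange.linearMap (Classes_scal (k := k) q (σ i)) b) := fun b i => rfl
  let S' : Submodule k G.H1 := (LinearMap.ker Φ).map G.N.mkQ
  have hcod : finrank k (G.H1 ⧸ S') ≤ a := by
    have h1 : LinearMap.ker Φ ≤ LinearMap.ker (S'.mkQ ∘ₗ G.N.mkQ) := by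
      intro b hb
      rw [LinearMap.mem_ker, LinearMap.comp_apply]
      exact (Submodule.Quotient.mk_eq_zero _).2 (Submodule.mem_map_of_mem hb)
    let f := (LinearMap.ker Φ).liftQ (S'.mkQ ∘ₗ G.N.mkQ) h1
    have hf : Function.Surjective f := by
      intro x
      obtain ⟨y, rfl⟩ := S'.mkQ_surjective x
      obtain ⟨b, rfl⟩ := G.N.mkQ_surjective y
      exact ⟨(LinearMap.ker Φ).mkQ b, rfl⟩
    let e := Φ.quotKerEquivRange
    have : Module.Finite k ((Place k K →₀ A) ⧸ LinearMap.ker Φ) :=
      Module.Finite.equiv e.symm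
    have h2 := LinearMap.finrank_le_finrank_of_surjective hf
    have h3 : finrank k ((Place k K →₀ A) ⧸ LinearMap.ker Φ) = finrank k (LinearMap.range Φ) :=
      e.finrank_eq
    have h4 : finrank k (LinearMap.range Φ) ≤ finrank k (Fin a → (line κ).H1) :=
      Submodule.finrank_le _
    have h5 : finrank k (Fin a → (line κ).H1) = a := by
      rw [Module.finrank_pi_fintype]
      simp [hκ1]
    omega
  have hS' : j ≤ finrank k S' := by
    have h1 := Submodule.finrank_quotient_add_finrank S'
    omega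
  let bas := Module.finBasis k S'
  have hex : ∀ l : Fin j, ∃ b ∈ LinearMap.ker Φ, G.N.mkQ b = (bas (Fin.castLE hS' l) : G.H1) :=
    fun l => (bas (Fin.castLE hS' l)).2
  choose b hbS hb using hex
  have hli : LinearIndependent k (fun l : Fin j => G.N.mkQ (b l)) := by
    have h1 : (fun l : Fin j => G.N.mkQ (b l)) = S'.subtype ∘ bas ∘ (Fin.castLE hS') := by
      funext l
      exact hb l
    rw [h1]
    exact (bas.linearIndependent.comp _ (Fin.castLE_injective hS')).map' _
      (Submodule.ker_subtype _)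
  let S : Fin j → A → ((Fin j → K) →ₗ[K] A) := fun i a =>
    (LinearMap.proj i : (Fin j → K) →ₗ[K] K).smulRight a
  have hS : ∀ i, S i 0 = 0 := fun i => by
    ext x
    simp [S]
  have hval' : ∀ P (y : Fin j → K), (∑ i, (b i).mapRange (S i) (hS i)) P y
      = ∑ i, y i • b i P := by
    intro P y
    rw [Finsupp.finsetSum_apply, LinearMap.sum_apply]
    refine Finset.sum_congr rfl fun i _ => ?_
    rw [Finsupp.mapRange_apply]
    rfl
  refine ⟨∑ i, (b i).mapRange (S i) (hS i), fun c hc => ?_, fun i => ?_⟩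
  · have hval : ∀ P, (∑ i, (b i).mapRange (S i) (hS i)) P (fun i => algebraMap k K (c i))
        = (∑ i, c i • b i) P := by
      intro P
      rw [hval', Finsupp.finsetSum_apply]
      refine Finset.sum_congr rfl fun i _ => ?_
      rw [Finsupp.smul_apply, algebraMap_smul]
    have hmem : (∑ i, c i • b i) ∈ G.N := by
      obtain ⟨w, hw⟩ := hc
      refine ⟨w, fun P => ?_⟩
      rw [← hval P]
      exact hw P
    have h0 : ∑ i, c i • G.N.mkQ (b i) = 0 := by
      have h2 : G.N.mkQ (∑ i, c i • b i) = 0 := (Submodule.Quotient.mk_eq_zero _).2 hmem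
      rw [map_sum] at h2
      simpa only [map_smul] using h2
    funext i
    exact Fintype.linearIndependent_iff.1 hli c h0 i
  · have hc : ∀ l : Fin j, ∃ c : K, ∀ P, σ i * q (b l P) - c ∈ (line κ).M P := by
      intro l
      have h1 : Φ (b l) = 0 := hbS l
      have h2 : (line κ).N.mkQ
          (Finsupp.mapRange.linearMap (Classes_scal (k := k) q (σ i)) (b l)) = 0 := by
        rw [← hΦ, h1]
        rfl
      have h3 := (Submodule.Quotient.mk_eq_zero _).1 h2
      obtain ⟨c, hc⟩ := h3
      exact ⟨c, hc⟩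
    choose c hc using hc
    refine ⟨-∑ l, (LinearMap.proj l : (Fin j → K) →ₗ[K] K).smulRight (c l), fun P y hy => ?_⟩
    have h1 : σ i * q ((∑ i, (b i).mapRange (S i) (hS i)) P y)
        + (-∑ l, (LinearMap.proj l : (Fin j → K) →ₗ[K] K).smulRight (c l)) y
        = ∑ l, y l * (σ i * q (b l P) - c l) := by
      rw [hval', map_sum, LinearMap.neg_apply, LinearMap.sum_apply, Finset.mul_sum,
        ← sub_eq_add_neg, ← Finset.sum_sub_distrib]
      refine Finset.sum_congr rfl fun l _ => ?_
      rw [map_smul, LinearMap.smulRight_apply, LinearMap.proj_apply, smul_eq_mul, smul_eq_mul]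
      ring
    rw [h1]
    refine Submodule.sum_mem _ fun l _ => ?_
    have h2 : y l ∈ P.filt 0 := by
      have h3 := mem_pw.1 hy l
      simpa using h3
    have h3 := (line κ).smul_mem P (y l) _ h2 (hc l P)
    rwa [smul_eq_mul] at h3

end Pool.Agent.MP_09eaec.GG.BG
end

section

/-!
# TASK KIndep: independence of the homomorphisms to the canonical bundle

* `kindep`: suppose `∑ i, f i • φ i = 0` with `f : ι → K`, not all zero. Let `μ` be the minimum of the `P.ord (f i)`,
  `f i ≠ 0`; multiplying with an element of order `-μ` (`exists_ord_eq`) we may assume `f i ∈ P.filt 0` for all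
  `i` and `f i0 ≠ 0`, `P.ord (f i0) = 0` for some `i0`. Residues `c i : k`, `f i - algebraMap c i ∈ P.filt 1`
  (`exists_residue (Curve.curve (k := k) (K := K)) P`, see `oneStep_line` in LineBasic.lean), `c i0 ≠ 0`.
  `ψ = ∑ i, c i • φ i ≠ 0` (`hli`). `ψ` maps `E` to `line (κ - P)`: at `Q ≠ P` the stalks of `line κ` and
  `line (κ - P)` agree; for `x ∈ E.M P`: `ψ x = -∑ (f i - c i) φ i x ∈ P.filt (1 - κ P)` (`mul_mem_filt`). So
  `ψ = 0` by `hP`, a contradiction.
-/

set_option autoImplicit false

namespace Pool.Agent.MP_09eaec.GG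

open Module

universe u v

variable {k : Type u} {K : Type v} [Field k] [Field K] [Algebra k K]
variable {W : Type v} [AddCommGroup W] [Module K W] [Module k W] [IsScalarTower k K W]
variable {A : Type v} [AddCommGroup A] [Module K A] [Module k A] [IsScalarTower k K A]
variable {B : Type v} [AddCommGroup B] [Module K B] [Module k B] [IsScalarTower k K B]

variable [CurveG k K]

theorem kindep {κ : Dv k K} {P : Place k K} [FiniteDimensional K W] (E : VB k K W)
    (hP : ∀ φ : W →ₗ[K] K,
      (∀ Q x, x ∈ E.M Q → φ x ∈ (line (κ - Finsupp.single P 1)).M Q) → φ = 0)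
    {ι : Type} [Fintype ι] (φ : ι → (W →ₗ[K] K)) (hφ : ∀ i, φ i ∈ (hom E (line κ)).H0)
    (hli : LinearIndependent k φ) : LinearIndependent K φ := by
  classical
  have := Curve.closed (k := k) (K := K)
  have := Curve.char (k := k) (K := K)
  by_contra hcon
  rw [Fintype.not_linearIndependent_iff] at hcon
  obtain ⟨f0, hf0, i1, hi1⟩ := hcon
  obtain ⟨i0, hi0, hmin⟩ := Finset.exists_min_image (Finset.univ.filter fun i => f0 i ≠ 0)
    (fun i => P.ord (f0 i)) ⟨i1, by simp [hi1]⟩
  have hi0' : f0 i0 ≠ 0 := (Finset.mem_filter.1 hi0).2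
  obtain ⟨t, ht, htm⟩ := exists_ord_eq P (-P.ord (f0 i0))
  -- the normalised relation
  have hf : ∑ i, (t * f0 i) • φ i = 0 := by
    have : ∑ i, (t * f0 i) • φ i = t • ∑ i, f0 i • φ i := by
      rw [Finset.smul_sum]
      exact Finset.sum_congr rfl fun i _ => by rw [smul_smul]
    rw [this, hf0, smul_zero]
  have hf1 : ∀ i, t * f0 i ∈ P.filt 0 := by
    intro i
    by_cases h : f0 i = 0
    · rw [h, mul_zero]; exact zero_mem _
    · right
      rw [P.ord_mul _ _ ht h, htm]
      have := hmin i (by simp [h])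
      omega
  have hres : ∀ i, ∃ c : k, t * f0 i - algebraMap k K c ∈ P.filt 1 := by
    intro i
    obtain ⟨c, hc⟩ := exists_residue (Curve.curve (k := k) (K := K)) P (f := t * f0 i) (hf1 i)
    refine ⟨c, ?_⟩
    rcases hc with hc | hc
    · exact Or.inl hc
    · exact Or.inr (by omega)
  choose c hc using hres
  have hψ : ∑ i, c i • φ i = 0 := by
    refine hP _ fun Q x hx => ?_
    rw [mem_line]
    have hφx : ∀ i, φ i x ∈ Q.filt (-κ Q) := fun i => VB.mem_H0.1 (hφ i) Q x hx
    by_cases hQ : Q = P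
    · subst hQ
      have h0 : ((∑ i, (t * f0 i) • φ i : W →ₗ[K] K)) x = 0 := by rw [hf]; rfl
      have h1 : (∑ i, c i • φ i : W →ₗ[K] K) x =
          -∑ i, (t * f0 i - algebraMap k K (c i)) * φ i x := by
        rw [LinearMap.sum_apply] at h0 ⊢
        have h2 : ∑ i, (t * f0 i - algebraMap k K (c i)) * φ i x =
            ∑ i, ((t * f0 i) • φ i) x - ∑ i, (c i • φ i) x := by
          rw [← Finset.sum_sub_distrib]
          refine Finset.sum_congr rfl fun i _ => ?_
          rw [LinearMap.smul_apply, LinearMap.smul_apply, smul_eq_mul, Algebra.smul_def, sub_mul]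
        rw [h2, h0, zero_sub, neg_neg]
      rw [h1]
      refine Submodule.neg_mem _ (Submodule.sum_mem _ fun i _ => ?_)
      have h3 := mul_mem_filt Q (hc i) (hφx i)
      refine filt_mono Q ?_ h3
      rw [Finsupp.sub_apply, Finsupp.single_eq_same]
      omega
    · rw [Finsupp.sub_apply, Finsupp.single_eq_of_ne hQ, sub_zero, LinearMap.sum_apply]
      refine Submodule.sum_mem _ fun i _ => ?_
      rw [LinearMap.smul_apply]
      exact Submodule.smul_mem _ _ (hφx i)
  have hc0 : c i0 = 0 := Fintype.linearIndependent_iff.1 hli c hψ i0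
  have h4 := hc i0
  rw [hc0, map_zero, sub_zero] at h4
  have h5 := h4.resolve_left (mul_ne_zero ht hi0')
  rw [P.ord_mul _ _ ht hi0', htm] at h5
  omega

end Pool.Agent.MP_09eaec.GG
end

section

/-!
# TASK HomBasis: a basis of the homomorphisms to the canonical bundle

* `exists_hom_basis`: `Module.finBasis k (hom E (line κ)).H0` (finite dimensional by `finite_H0`), of dimension
  `h0 (hom E (line κ)) = E.h1` (`hκ.dual`); the vectors are `k`-independent in `W →ₗ[K] K`, `kindep`.
* `h1_le_rank`: `h ≤ finrank K (W →ₗ[K] K) = finrank K W` (`LinearIndependent.fintype_card_le_finrank`).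
-/

set_option autoImplicit false

namespace Pool.Agent.MP_09eaec.GG

open Module

universe u v

variable {k : Type u} {K : Type v} [Field k] [Field K] [Algebra k K]
variable {W : Type v} [AddCommGroup W] [Module K W] [Module k W] [IsScalarTower k K W]
variable {A : Type v} [AddCommGroup A] [Module K A] [Module k A] [IsScalarTower k K A]
variable {B : Type v} [AddCommGroup B] [Module K B] [Module k B] [IsScalarTower k K B]

variable [CurveG k K]

private theorem HomBasis_aux {F : Type u} [Field F] {M : Type v} [AddCommGroup M] [Module F M]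
    (H : Submodule F M) [Module.Finite F H] :
    ∃ φ : Fin (finrank F H) → M, (∀ i, φ i ∈ H) ∧
      (∀ ψ ∈ H, ψ ∈ Submodule.span F (Set.range φ)) ∧ LinearIndependent F φ := by
  have b := Module.finBasis F H
  refine ⟨fun i => (b i : M), fun i => (b i).2, ?_,
    b.linearIndependent.map' H.subtype (Submodule.ker_subtype _)⟩
  intro ψ hψ
  have h1 : (⟨ψ, hψ⟩ : H) ∈ Submodule.span F (Set.range b) := b.mem_span _
  have h2 := Submodule.mem_map_of_mem (f := H.subtype) h1
  rw [Submodule.map_span, ← Set.range_comp] at h2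
  exact h2

theorem exists_hom_basis {κ : Dv k K} (hκ : IsCanonical κ) {P : Place k K}
    [FiniteDimensional K W] (E : VB k K W)
    (hP : ∀ φ : W →ₗ[K] K,
      (∀ Q x, x ∈ E.M Q → φ x ∈ (line (κ - Finsupp.single P 1)).M Q) → φ = 0) :
    ∃ (h : ℕ) (φ : Fin h → (W →ₗ[K] K)), (h : ℤ) = E.h1 ∧
      (∀ i, φ i ∈ (hom E (line κ)).H0) ∧
      (∀ ψ ∈ (hom E (line κ)).H0, ψ ∈ Submodule.span k (Set.range φ)) ∧
      LinearIndependent k φ ∧ LinearIndependent K φ := by
  obtain ⟨φ, hmem, hspan, hli⟩ := HomBasis_aux (hom E (line κ)).H0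
  refine ⟨finrank k (hom E (line κ)).H0, φ, ?_, hmem, hspan, hli, kindep E hP φ hmem hli⟩
  rw [hκ.dual W E]
  rfl

theorem h1_le_rank {κ : Dv k K} (hκ : IsCanonical κ) {P : Place k K}
    [FiniteDimensional K W] (E : VB k K W)
    (hP : ∀ φ : W →ₗ[K] K,
      (∀ Q x, x ∈ E.M Q → φ x ∈ (line (κ - Finsupp.single P 1)).M Q) → φ = 0) :
    E.h1 ≤ finrank K W := by
  obtain ⟨h, φ, hh, -, -, -, hK⟩ := exists_hom_basis hκ E hP
  have h1 : Fintype.card (Fin h) ≤ finrank K (W →ₗ[K] K) := hK.fintype_card_le_finrank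
  rw [Fintype.card_fin] at h1
  have h2 : finrank K (W →ₗ[K] K) = finrank K W := by
    rw [Module.finrank_linearMap_self]
  rw [← hh]
  rw [h2] at h1
  exact_mod_cast h1

end Pool.Agent.MP_09eaec.GG
end
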