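import Pool.Agent.Lib.MP_09eaec_ag.Mg.G003
import Pool.Agent.Lib.MP_09eaec_ag.Mg.G005
import Pool.Agent.Lib.MP_09eaec_ag.Mg.G002
import Pool.Agent.Lib.MP_09eaec_ag.Mg.G004

section

/-!
# TASK A9: the degree of a twist

`(E.twist D).M P = {x | ∀ c ∈ P.filt (D P), c x ∈ E.M P}`; if `t` has order `D P` at `P`
(`exists_ord_eq`) then `x ∈ (E.twist D).M P ↔ t x ∈ E.M P` (`mem_twist_iff`: `c x = (c / t) (t x)`,
`c / t ∈ P.filt 0`). Degree: induction on the rank (generalised over `W`) as in Deg.lean: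
`(E.twist D).sub J = (E.sub J).twist D`, `(E.twist D).quo J = (E.quo J).twist D` (use the criterion),
`(E.map f).twist D = (E.twist D).map f`, `(line D').twist D = line (D' + D)` (`mem_filt_iff_of_ord`).
-/

set_option autoImplicit false

namespace Pool.Agent.MP_09eaec.GG

open Module

universe u v

variable {k : Type u} {K : Type v} [Field k] [Field K] [Algebra k K]
variable {W : Type v} [AddCommGroup W] [Module K W] [Module k W] [IsScalarTower k K W]
variable {A : Type v} [AddCommGroup A] [Module K A] [Module k A] [IsScalarTower k K A]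
variable {B : Type v} [AddCommGroup B] [Module K B] [Module k B] [IsScalarTower k K B]

variable [CurveG k K]

namespace VB

theorem mem_twist_iff {E : VB k K W} {D : Dv k K} {P : Place k K} {t : K} (ht : t ≠ 0)
    (hD : P.ord t = D P) {x : W} : x ∈ (E.twist D).M P ↔ t • x ∈ E.M P := by
  rw [mem_twist]
  constructor
  · intro h
    exact h t (Or.inr hD.ge)
  · intro h c hc
    have h1 : c * t⁻¹ ∈ P.filt 0 := by
      have := mul_mem_filt P hc (Or.inr (P.ord_inv t).ge : t⁻¹ ∈ P.filt (-P.ord t))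
      rw [hD, add_neg_cancel] at this
      exact this
    have h2 := E.smul_mem P _ _ h1 h
    rwa [smul_smul, mul_assoc, inv_mul_cancel₀ ht, mul_one] at h2

theorem twist_line (D D' : Dv k K) : (line D').twist D = line (D' + D) := by
  refine ext' fun P x => ?_
  obtain ⟨t, ht, htm⟩ := exists_ord_eq P (D P)
  rw [mem_twist_iff ht htm, mem_line, mem_line, ← mem_filt_iff_of_ord P ht htm (-(D' + D) P)]
  have : -(D' + D) P + D P = -D' P := by
    rw [Finsupp.add_apply]; ring
  rw [this]
  rfl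

theorem twist_sub (E : VB k K W) (D : Dv k K) (J : Submodule K W) :
    (E.twist D).sub J = (E.sub J).twist D := by
  refine ext' fun P x => ?_
  obtain ⟨t, ht, htm⟩ := exists_ord_eq P (D P)
  rw [mem_twist_iff ht htm, mem_sub, mem_sub, mem_twist_iff ht htm]
  rfl

theorem twist_quo (E : VB k K W) (D : Dv k K) (J : Submodule K W) :
    (E.twist D).quo J = (E.quo J).twist D := by
  refine ext' fun P x => ?_
  obtain ⟨t, ht, htm⟩ := exists_ord_eq P (D P)
  rw [mem_twist_iff ht htm, mem_quo, mem_quo]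
  constructor
  · rintro ⟨y, hy, rfl⟩
    exact ⟨t • y, (mem_twist_iff ht htm).1 hy, map_smul _ _ _⟩
  · rintro ⟨y, hy, hx⟩
    refine ⟨t⁻¹ • y, (mem_twist_iff ht htm).2 ?_, ?_⟩
    · rwa [smul_smul, mul_inv_cancel₀ ht, one_smul]
    · rw [map_smul, hx, smul_smul, inv_mul_cancel₀ ht, one_smul]

theorem twist_map (E : VB k K W) (D : Dv k K) (f : W ≃ₗ[K] A) :
    (E.map f).twist D = (E.twist D).map f := by
  refine ext' fun P x => ?_
  obtain ⟨t, ht, htm⟩ := exists_ord_eq P (D P)
  rw [mem_twist_iff ht htm, mem_map, mem_map, mem_twist_iff ht htm, map_smul]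

theorem deg_twist [FiniteDimensional K W] (E : VB k K W) (D : Dv k K) :
    (E.twist D).deg = E.deg + finrank K W * ddeg D := by
  obtain ⟨n, hn⟩ : ∃ n, finrank K W = n := ⟨_, rfl⟩
  induction n using Nat.strong_induction_on generalizing W with
  | _ n ih =>
    rcases Nat.eq_zero_or_pos n with h0 | h0
    · rw [deg_of_finrank_zero _ (hn.trans h0), deg_of_finrank_zero _ (hn.trans h0), hn, h0]
      simp
    rcases eq_or_lt_of_le (Nat.succ_le_of_lt h0) with h1 | h1
    · have hf : finrank K W = finrank K K := by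
        rw [finrank_self, hn]; exact h1.symm
      obtain ⟨D', hD'⟩ := exists_eq_line (E.map (LinearEquiv.ofFinrankEq W K hf))
      rw [← deg_map E (LinearEquiv.ofFinrankEq W K hf), hD',
        ← deg_map (E.twist D) (LinearEquiv.ofFinrankEq W K hf), ← twist_map, hD', twist_line,
        deg_line, deg_line, ddeg_add, hn, ← h1]
      simp
    · have : Nontrivial W := by
        apply Module.nontrivial_of_finrank_pos (R := K); omega
      obtain ⟨w, hw⟩ := exists_ne (0 : W)
      have hJ : finrank K (K ∙ w) = 1 := finrank_span_singleton hw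
      have hJ2 := Submodule.finrank_quotient_add_finrank (K ∙ w)
      rw [deg_add (E.twist D) (K ∙ w), deg_add E (K ∙ w), twist_sub, twist_quo,
        ih _ (by omega) (E.sub (K ∙ w)) rfl, ih _ (by omega) (E.quo (K ∙ w)) rfl, hn, hJ]
      rw [hJ, hn] at hJ2
      rw [← hJ2]
      push_cast
      ring

end VB

end Pool.Agent.MP_09eaec.GG
end

section

/-!
# TASK MulLe: multiplication with the canonical sections

* `exists_omega`: a basis of `H0 (line κ)` (finite dimensional, `finrank = gen`, `hκ.h0`); `γ = finrank`.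
* `mul_le`: for `ψ` in `H0 (hom F (line κ))` and `ω a ∈ H0 (line κ)` the map `ω a • ψ` is in
  `H0 (hom (F.twist (-κ)) (line κ))`: for `x ∈ (F.twist (-κ)).M P` and `t` of order `-κ P`: `t • x ∈ F.M P`, so
  `t ψ x ∈ P.filt (-κ P)`, `ψ x ∈ P.filt 0`, `ω a * ψ x ∈ P.filt (-κ P)`. So `ψ ↦ ∑ a, ω a • ψ a` is a `k`-linear
  map `(Fin γ → H0 (hom F (line κ))) → H0 (hom (F.twist (-κ)) (line κ))`, injective by `hinj`;
  `LinearMap.finrank_le_finrank_of_injective`, `Module.finrank_pi_fintype`, and `hκ.dual` for `F` and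
  `F.twist (-κ)`.
-/

set_option autoImplicit false

namespace Pool.Agent.MP_09eaec.GG

open Module

universe u v

variable {k : Type u} {K : Type v} [Field k] [Field K] [Algebra k K]
variable {W : Type v} [AddCommGroup W] [Module K W] [Module k W] [IsScalarTower k K W]
variable {A : Type v} [AddCommGroup A] [Module K A] [Module k A] [IsScalarTower k K A]
variable {B : Type v} [AddCommGroup B] [Module K B] [Module k B] [IsScalarTower k K B]

variable [CurveG k K]

theorem exists_omega {κ : Dv k K} (hκ : IsCanonical κ) :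
    ∃ (γ : ℕ) (ω : Fin γ → K), (γ : ℤ) = gen k K ∧ (∀ a, ω a ∈ (line κ).H0) ∧
      LinearIndependent k ω := by
  let b := Module.finBasis k (line κ).H0
  refine ⟨finrank k (line κ).H0, fun a => (b a : K), ?_, fun a => (b a).2, ?_⟩
  · have h := hκ.h0
    unfold VB.h0 at h
    exact h
  · exact b.linearIndependent.map' (line κ).H0.subtype (Submodule.ker_subtype _)

private theorem MulLe_mem {κ : Dv k K} [FiniteDimensional K W] (F : VB k K W) {ω : K}
    (hω : ω ∈ (line κ).H0) {ψ : W →ₗ[K] K} (hψ : ψ ∈ (hom F (line κ)).H0) :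
    ω • ψ ∈ (hom (F.twist (-κ)) (line κ)).H0 := by
  rw [VB.mem_H0] at hω hψ ⊢
  intro P
  rw [mem_hom]
  intro x hx
  obtain ⟨t, ht, htm⟩ := exists_ord_eq P ((-κ) P)
  have h1 := (VB.mem_twist_iff ht htm).1 hx
  have h2 := mem_hom.1 (hψ P) _ h1
  rw [map_smul, smul_eq_mul, mem_line] at h2
  have h3 : ψ x ∈ P.filt 0 := by
    rw [← mem_filt_iff_of_ord P ht htm, zero_add]
    exact h2
  have h4 := mul_mem_filt P (mem_line.1 (hω P)) h3
  rw [add_zero] at h4
  rw [LinearMap.smul_apply, smul_eq_mul, mem_line]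
  exact h4

theorem mul_le {κ : Dv k K} (hκ : IsCanonical κ) [FiniteDimensional K W] (F : VB k K W) {γ : ℕ}
    (ω : Fin γ → K) (hω : ∀ a, ω a ∈ (line κ).H0)
    (hinj : ∀ ψ : Fin γ → (W →ₗ[K] K), (∀ a, ψ a ∈ (hom F (line κ)).H0) →
      ∑ a, ω a • ψ a = 0 → ψ = 0) :
    (γ : ℤ) * F.h1 ≤ (F.twist (-κ)).h1 := by
  rw [hκ.dual W F, hκ.dual W (F.twist (-κ))]
  let T : (Fin γ → (hom F (line κ)).H0) →ₗ[k] (hom (F.twist (-κ)) (line κ)).H0 :=
    { toFun := fun ψ => ⟨∑ a, ω a • (ψ a : W →ₗ[K] K),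
        Submodule.sum_mem _ fun a _ => MulLe_mem F (hω a) (ψ a).2⟩
      map_add' := fun ψ φ => by
        apply Subtype.ext
        show ∑ a, ω a • ((ψ a : W →ₗ[K] K) + (φ a : W →ₗ[K] K)) =
          ∑ a, ω a • (ψ a : W →ₗ[K] K) + ∑ a, ω a • (φ a : W →ₗ[K] K)
        rw [← Finset.sum_add_distrib]
        exact Finset.sum_congr rfl fun a _ => smul_add _ _ _
      map_smul' := fun c ψ => by
        apply Subtype.ext
        show ∑ a, ω a • (c • (ψ a : W →ₗ[K] K)) = c • ∑ a, ω a • (ψ a : W →ₗ[K] K)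
        rw [Finset.smul_sum]
        exact Finset.sum_congr rfl fun a _ => smul_comm _ _ _ }
  have hT : Function.Injective T := by
    rw [injective_iff_map_eq_zero]
    intro ψ hψ
    have h1 : ∑ a, ω a • (ψ a : W →ₗ[K] K) = 0 := congrArg Subtype.val hψ
    have h2 := hinj (fun a => (ψ a : W →ₗ[K] K)) (fun a => (ψ a).2) h1
    funext a
    apply Subtype.ext
    exact congrFun h2 a
  have h3 := LinearMap.finrank_le_finrank_of_injective hT
  rw [Module.finrank_pi_fintype] at h3
  simp only [Finset.sum_const, Finset.card_univ, Fintype.card_fin, smul_eq_mul] at h3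
  unfold VB.h0
  exact_mod_cast h3

end Pool.Agent.MP_09eaec.GG
end

section

/-!
# TASK TwistSt: twists

* `twist_zero`, `twist_twist`: by `mem_twist_iff` with elements `t`, `t'` of orders `D P`, `D' P`
  (`exists_ord_eq`), `t t'` has order `D P + D' P` (`P.ord_mul`); for `D = 0` take `t = 1` (`P.ord_one`).
* `stable_twist`: `(E.twist D).sub J = (E.sub J).twist D` (`twist_sub`), `deg_twist`.
* `H0_twist_neg_le`: a vector of `(E.twist (-κ)).M P` times a section `ω` of `line κ` is in `E.M P`: by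
  definition of the twist, since `ω ∈ P.filt (-κ P)`.
* `h1_twist_neg`: `rr (E.twist (-κ))`, `deg_twist`, `ddeg_neg`, and `h0 = 0`.
-/

set_option autoImplicit false

namespace Pool.Agent.MP_09eaec.GG

open Module

universe u v

variable {k : Type u} {K : Type v} [Field k] [Field K] [Algebra k K]
variable {W : Type v} [AddCommGroup W] [Module K W] [Module k W] [IsScalarTower k K W]
variable {A : Type v} [AddCommGroup A] [Module K A] [Module k A] [IsScalarTower k K A]
variable {B : Type v} [AddCommGroup B] [Module K B] [Module k B] [IsScalarTower k K B]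

variable [CurveG k K]

namespace VB

theorem twist_zero (E : VB k K W) : E.twist 0 = E := by
  refine ext' fun P x => ?_
  rw [mem_twist_iff (one_ne_zero : (1 : K) ≠ 0) (by rw [P.ord_one]; rfl), one_smul]

theorem twist_twist (E : VB k K W) (D D' : Dv k K) : (E.twist D).twist D' = E.twist (D + D') := by
  refine ext' fun P x => ?_
  obtain ⟨t, ht, htm⟩ := exists_ord_eq P (D P)
  obtain ⟨t', ht', htm'⟩ := exists_ord_eq P (D' P)
  have h1 : P.ord (t * t') = (D + D') P := by
    rw [P.ord_mul _ _ ht ht', htm, htm', Finsupp.add_apply]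
  rw [mem_twist_iff ht' htm', mem_twist_iff ht htm, mem_twist_iff (mul_ne_zero ht ht') h1,
    smul_smul]

theorem stable_twist [FiniteDimensional K W] {E : VB k K W} (h : E.Stable) (D : Dv k K) :
    (E.twist D).Stable := by
  intro J h1 h2
  have h3 := h J h1 h2
  rw [twist_sub, deg_twist, deg_twist]
  have h4 : (finrank K W : ℤ) * ((E.sub J).deg + finrank K J * ddeg D) =
      finrank K W * (E.sub J).deg + finrank K J * (finrank K W * ddeg D) := by ring
  rw [h4, mul_add]
  linarith

theorem smul_mem_H0_of_twist {E : VB k K W} {κ : Dv k K} {ω : K} (hω : ω ∈ (line κ).H0) {s : W}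
    (hs : s ∈ (E.twist (-κ)).H0) : ω • s ∈ E.H0 := by
  rw [mem_H0] at hω hs ⊢
  intro P
  have h1 : ω ∈ P.filt ((-κ) P) := by
    have := hω P
    rw [mem_line] at this
    exact this
  exact (mem_twist.1 (hs P)) ω h1

theorem h1_twist_neg [FiniteDimensional K W] {E : VB k K W} {κ : Dv k K}
    (hκ : ddeg κ = 2 * gen k K - 2) (h : (E.twist (-κ)).H0 = ⊥) :
    (E.twist (-κ)).h1 = (3 * gen k K - 3) * finrank K W - E.deg := by
  have h1 := rr (E.twist (-κ))
  have h2 : (E.twist (-κ)).h0 = 0 := by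
    unfold h0
    rw [h, finrank_bot]
    rfl
  rw [h2, deg_twist, ddeg_neg, hκ] at h1
  linear_combination -h1

end VB

end Pool.Agent.MP_09eaec.GG
end

section

/-!
# TASK AIneq: `gen * h1 F ≤ (3 gen - 3) rank F - deg F`

`γ, ω` from `exists_omega`, `φ : Fin h → _` from `exists_hom_basis`. `mul_le` with `hinj`: let `ψ a ∈ H0 (hom F κ)` with
`∑ a, ω a • ψ a = 0`. `ψ a = ∑ i, c a i • φ i` with `c a i : k` (span, `Submodule.mem_span_range_iff_exists_fun`).
`∑ i, (∑ a, c a i • ω a) • φ i = 0` (scalars in `K`), so `∑ a, c a i • ω a = 0` for all `i` (`K`-independence of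
`φ`), so `c a i = 0` (`k`-independence of `ω`). So `gen * h1 F ≤ h1 (F(-κ))`, which is
`(3 gen - 3) rank F - deg F` by `h1_twist_neg`.
-/

set_option autoImplicit false

namespace Pool.Agent.MP_09eaec.GG

open Module

universe u v

variable {k : Type u} {K : Type v} [Field k] [Field K] [Algebra k K]
variable {W : Type v} [AddCommGroup W] [Module K W] [Module k W] [IsScalarTower k K W]
variable {A : Type v} [AddCommGroup A] [Module K A] [Module k A] [IsScalarTower k K A]
variable {B : Type v} [AddCommGroup B] [Module K B] [Module k B] [IsScalarTower k K B]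

variable [CurveG k K]

theorem a_ineq {κ : Dv k K} (hκ : IsCanonical κ) {P : Place k K} [FiniteDimensional K W]
    (F : VB k K W) (hF : (F.twist (-κ)).H0 = ⊥)
    (hP : ∀ φ : W →ₗ[K] K,
      (∀ Q x, x ∈ F.M Q → φ x ∈ (line (κ - Finsupp.single P 1)).M Q) → φ = 0) :
    gen k K * F.h1 ≤ (3 * gen k K - 3) * finrank K W - F.deg := by
  obtain ⟨γ, ω, hγ, hω, hli⟩ := exists_omega hκ
  obtain ⟨h, φ, hh, hφ, hspan, hlik, hliK⟩ := exists_hom_basis hκ F hP
  rw [← VB.h1_twist_neg hκ.ddeg hF, ← hγ]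
  refine mul_le hκ F ω hω fun ψ hψ hrel => ?_
  have hc : ∀ a, ∃ c : Fin h → k, ∑ i, c i • φ i = ψ a := fun a =>
    (Submodule.mem_span_range_iff_exists_fun k).1 (hspan _ (hψ a))
  choose c hc using hc
  have h1 : ∑ i, (∑ a, c a i • ω a) • φ i = 0 := by
    rw [← hrel]
    simp_rw [← hc, Finset.smul_sum, Finset.sum_smul]
    rw [Finset.sum_comm]
    refine Finset.sum_congr rfl fun a _ => Finset.sum_congr rfl fun i _ => ?_
    rw [smul_assoc, smul_comm]
  have h2 := Fintype.linearIndependent_iff.1 hliK _ h1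
  funext a
  have h3 : ∀ i, c a i = 0 := fun i => Fintype.linearIndependent_iff.1 hli _ (h2 i) a
  rw [← hc a]
  simp [h3]

end Pool.Agent.MP_09eaec.GG
end

section

/-!
# TASK Pencil: the pencil of degree two

`Pencil H x y`: `H` is a divisor of degree two, `x, y` are sections of `O(H)`, linearly independent over `k`,
without common zero.

* `exists_pencil`: `exists_gon (hK) 1` (Gonality.lean, namespace `Pool.Agent.MP_09eaec`, `hK = Curve.curve`) gives
  `h : Fin 2 → K`, linearly independent over `k`, with `2 = gon = -∑ᶠ P, P.minOrd h`. Let `H P = -P.minOrd h`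
  (`Finsupp.ofSupportFinite`, `hasFiniteSupport_minOrd`; the degree as in the proof of `ddeg_dv` in GG/Basic.lean),
  `x = h 0`, `y = h 1`; `P.minOrd h` is the minimum of the two orders.
* `Pencil.x_ne`, `Pencil.y_ne`: from the independence (`LinearIndependent.pair_iff`).
-/

set_option autoImplicit false

namespace Pool.Agent.MP_09eaec.GG

open Module

universe u v

variable {k : Type u} {K : Type v} [Field k] [Field K] [Algebra k K]
variable {W : Type v} [AddCommGroup W] [Module K W] [Module k W] [IsScalarTower k K W]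

variable [CurveG k K]

/-- A base point free pencil of degree two. -/
structure Pencil (H : Dv k K) (x y : K) : Prop where
  deg : ddeg H = 2
  memx : x ∈ (line H).H0
  memy : y ∈ (line H).H0
  base : ∀ P : Place k K, P.ord x = -H P ∨ P.ord y = -H P
  li : LinearIndependent k ![x, y]

theorem exists_pencil (h : gon k K 1 = 2) : ∃ (H : Dv k K) (x y : K), Pencil H x y := by
  haveI := Curve.closed (k := k) (K := K)
  haveI := Curve.char (k := k) (K := K)
  have hK := Curve.curve (k := k) (K := K)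
  obtain ⟨f, hf, hg⟩ := exists_gon hK 1
  have hfs := hasFiniteSupport_minOrd hK f
  have hfs' : (Function.support (fun P : Place k K => -P.minOrd f)).Finite := by
    refine Set.Finite.subset hfs ?_
    intro P hP h0
    apply hP
    have h0' : P.minOrd f = 0 := h0
    show -P.minOrd f = 0
    rw [h0', neg_zero]
  let H : Dv k K := Finsupp.ofSupportFinite (fun P : Place k K => -P.minOrd f) hfs'
  have hH : ∀ P, H P = -P.minOrd f := fun P => rfl
  refine ⟨H, f 0, f 1, ?_, ?_, ?_, ?_, ?_⟩
  · have h1 : ∑ᶠ P : Place k K, P.minOrd f = -2 := by omega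
    have h2 : ∑ᶠ P : Place k K, H P = 2 := by
      rw [finsum_congr hH, finsum_neg_distrib, h1]; rfl
    rw [finsum_eq_sum_of_support_subset (s := H.support)] at h2
    · exact h2
    · intro P hP
      simpa using hP
  · rw [VB.mem_H0]
    intro P
    rw [mem_line, hH, neg_neg]
    exact Or.inr (P.minOrd_le f 0)
  · rw [VB.mem_H0]
    intro P
    rw [mem_line, hH, neg_neg]
    exact Or.inr (P.minOrd_le f 1)
  · intro P
    rw [hH, neg_neg]
    obtain ⟨j, hj⟩ := P.exists_minOrd f
    rw [hj]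
    revert j
    intro j hj
    fin_cases j
    · left; rfl
    · right; rfl
  · have h3 : ![f 0, f 1] = f := by
      ext i; fin_cases i <;> rfl
    rw [h3]; exact hf

theorem Pencil.x_ne {H : Dv k K} {x y : K} (hp : Pencil H x y) : x ≠ 0 :=
  hp.li.ne_zero 0

theorem Pencil.y_ne {H : Dv k K} {x y : K} (hp : Pencil H x y) : y ≠ 0 :=
  hp.li.ne_zero 1

end Pool.Agent.MP_09eaec.GG
end

section

/-!
# TASK PencilH0: the base point free pencil trick

The `k`-linear map `Ψ : E.H0 × E.H0 → (E.twist H).H0`, `(v, w) ↦ x v + y w` (`x, y ∈ P.filt (-H P)`; for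
`c ∈ P.filt (H P)`: `c x ∈ P.filt 0`). Its kernel embeds into `(E.twist (-H)).H0` by `(v, w) ↦ z = y⁻¹ v`: `v = y z`,
`w = -x z`; for a point `P` let `s ∈ {x, y}` be of order `-H P` (`Pencil.base`); `s z ∈ E.M P`, and for
`c ∈ P.filt (-H P)`: `c z = (c / s) (s z)`, `c / s ∈ P.filt 0` (or `mem_twist_iff`). The map is injective (`z = 0` gives
`v = w = 0`). Rank-nullity: `2 h0 E = dim ker + dim range ≤ h0 (E(-H)) + h0 (E(H))`. (Compare with the proof of `pencil`
in Lib/MP_09eaec_ag/G2/Pencil.lean.)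
-/

set_option autoImplicit false

namespace Pool.Agent.MP_09eaec.GG

open Module

universe u v

variable {k : Type u} {K : Type v} [Field k] [Field K] [Algebra k K]
variable {W : Type v} [AddCommGroup W] [Module K W] [Module k W] [IsScalarTower k K W]

variable [CurveG k K]

private theorem PencilH0_mul {H : Dv k K} {x : K} (hx : x ∈ (line H).H0) {E : VB k K W} {v : W}
    (hv : v ∈ E.H0) : x • v ∈ (E.twist H).H0 := by
  rw [VB.mem_H0] at hx hv ⊢
  intro P
  rw [VB.mem_twist]
  intro c hc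
  rw [smul_smul]
  apply E.smul_mem P _ _ _ (hv P)
  have h1 := mul_mem_filt P hc (hx P : x ∈ P.filt (-H P))
  simpa using h1

theorem pencil_h0 {H : Dv k K} {x y : K} (hp : Pencil H x y) [FiniteDimensional K W]
    (E : VB k K W) : 2 * E.h0 ≤ (E.twist (-H)).h0 + (E.twist H).h0 := by
  have hx0 := hp.x_ne
  have hy0 := hp.y_ne
  obtain ⟨mx, hmx⟩ : ∃ m : W →ₗ[k] W, ∀ w, m w = x • w :=
    ⟨(LinearMap.lsmul K W x).restrictScalars k, fun w => rfl⟩
  obtain ⟨my, hmy⟩ : ∃ m : W →ₗ[k] W, ∀ w, m w = y • w :=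
    ⟨(LinearMap.lsmul K W y).restrictScalars k, fun w => rfl⟩
  obtain ⟨mi, hmi⟩ : ∃ m : W →ₗ[k] W, ∀ w, m w = y⁻¹ • w :=
    ⟨(LinearMap.lsmul K W y⁻¹).restrictScalars k, fun w => rfl⟩
  obtain ⟨Ψ, hΨ⟩ : ∃ Ψ : (E.H0 × E.H0) →ₗ[k] (E.twist H).H0,
      ∀ p : E.H0 × E.H0, ((Ψ p : (E.twist H).H0) : W) = x • (p.1 : W) + y • (p.2 : W) := by
    refine ⟨LinearMap.codRestrict _ (LinearMap.coprod (mx ∘ₗ E.H0.subtype) (my ∘ₗ E.H0.subtype))
      (fun p => ?_), fun p => ?_⟩
    · rw [LinearMap.coprod_apply, LinearMap.comp_apply, LinearMap.comp_apply, hmx, hmy]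
      exact add_mem (PencilH0_mul hp.memx p.1.2) (PencilH0_mul hp.memy p.2.2)
    · rw [LinearMap.codRestrict_apply, LinearMap.coprod_apply, LinearMap.comp_apply,
        LinearMap.comp_apply, hmx, hmy]
      rfl
  have hker : ∀ p : E.H0 × E.H0, p ∈ LinearMap.ker Ψ → x • (p.1 : W) + y • (p.2 : W) = 0 := by
    intro p h
    rw [← hΨ p, LinearMap.mem_ker.1 h]
    rfl
  obtain ⟨θ, hθ⟩ : ∃ θ : LinearMap.ker Ψ →ₗ[k] (E.twist (-H)).H0,
      ∀ p : LinearMap.ker Ψ, ((θ p : (E.twist (-H)).H0) : W) =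
        y⁻¹ • ((p : E.H0 × E.H0).1 : W) := by
    refine ⟨LinearMap.codRestrict _ (mi ∘ₗ E.H0.subtype ∘ₗ LinearMap.fst k E.H0 E.H0 ∘ₗ
      (LinearMap.ker Ψ).subtype) (fun p => ?_), fun p => ?_⟩
    · rw [LinearMap.comp_apply, hmi]
      have hz : x • ((p : E.H0 × E.H0).1 : W) + y • ((p : E.H0 × E.H0).2 : W) = 0 :=
        hker _ p.2
      rw [VB.mem_H0]
      intro P
      show y⁻¹ • ((p : E.H0 × E.H0).1 : W) ∈ (E.twist (-H)).M P
      rcases hp.base P with h | h
      · rw [VB.mem_twist_iff hx0 (by rw [h]; rfl)]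
        have h2 : x • y⁻¹ • ((p : E.H0 × E.H0).1 : W) = -((p : E.H0 × E.H0).2 : W) := by
          rw [smul_comm, eq_neg_of_add_eq_zero_left hz, smul_neg, smul_smul,
            inv_mul_cancel₀ hy0, one_smul]
        rw [h2]
        exact neg_mem (VB.mem_H0.1 (p : E.H0 × E.H0).2.2 P)
      · rw [VB.mem_twist_iff hy0 (by rw [h]; rfl), smul_smul, mul_inv_cancel₀ hy0, one_smul]
        exact VB.mem_H0.1 (p : E.H0 × E.H0).1.2 P
    · rw [LinearMap.codRestrict_apply, LinearMap.comp_apply, hmi]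
      rfl
  have hinj : Function.Injective θ := by
    rw [← LinearMap.ker_eq_bot, LinearMap.ker_eq_bot']
    intro p h0
    have h1 : y⁻¹ • ((p : E.H0 × E.H0).1 : W) = 0 := by
      rw [← hθ p, h0]; rfl
    have h2 : ((p : E.H0 × E.H0).1 : W) = 0 := by
      have := congrArg (fun w => y • w) h1
      simpa [smul_smul, mul_inv_cancel₀ hy0] using this
    have h3 := hker _ p.2
    rw [h2, smul_zero, zero_add] at h3
    have h4 : ((p : E.H0 × E.H0).2 : W) = 0 := by
      have := congrArg (fun w => y⁻¹ • w) h3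
      simpa [smul_smul, inv_mul_cancel₀ hy0] using this
    apply Subtype.ext
    exact Prod.ext (Subtype.ext h2) (Subtype.ext h4)
  have e1 := LinearMap.finrank_range_add_finrank_ker Ψ
  have e2 := LinearMap.finrank_le_finrank_of_injective hinj
  have e3 := Submodule.finrank_le (LinearMap.range Ψ)
  rw [Module.finrank_prod] at e1
  unfold VB.h0
  omega

end Pool.Agent.MP_09eaec.GG
end

section

/-!
# TASK MoveCanon: linearly equivalent canonical divisors

`D' = D + dv f`, `f ≠ 0`. `x ∈ (line D').M P ↔ f * x ∈ (line D).M P` (`mem_filt_iff_of_ord` with `t = f`,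
`dv_apply`): so the multiplication with `f`, as `K ≃ₗ[K] K` (`LinearEquiv.smulOfNeZero` or `LinearEquiv.smulOfUnit`),
carries `line D'` to `line D` (`VB.ext'`, `VB.mem_map`), `h0_line_move` by `VB.h0_map`. Same for `hom E (line D')` and
`hom E (line D)`: `h0_hom_move`. `move_canonical`: `ddeg` by `ddeg_add`, `ddeg_dv`; `h0`, `dual` by the first two; `h0_sub` by the
first one for `κ + dv f - single P 1 = (κ - single P 1) + dv f`; `base`: `s / f` for `s` from `hκ.base P` (`P.ord_mul`,
`P.ord_inv`).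
-/

set_option autoImplicit false

namespace Pool.Agent.MP_09eaec.GG

open Module

universe u v

variable {k : Type u} {K : Type v} [Field k] [Field K] [Algebra k K]
variable {W : Type v} [AddCommGroup W] [Module K W] [Module k W] [IsScalarTower k K W]

variable [CurveG k K]

private theorem MoveCanon_mem (D : Dv k K) {f : K} (hf : f ≠ 0) (P : Place k K) (x : K) :
    x ∈ (line (D + dv f)).M P ↔ f * x ∈ (line D).M P := by
  have h0 := mem_filt_iff_of_ord P (x := x) hf (rfl : P.ord f = P.ord f)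
    (-((D + dv f : Dv k K) P))
  have h : -((D + dv f : Dv k K) P) + P.ord f = -D P := by
    rw [Finsupp.add_apply, dv_apply]
    ring
  rw [h] at h0
  rw [mem_line, mem_line]
  exact h0.symm

theorem h0_line_move (D : Dv k K) {f : K} (hf : f ≠ 0) : (line (D + dv f)).h0 = (line D).h0 := by
  have h : (line (D + dv f)).map (LinearEquiv.smulOfNeZero K K f hf) = line D := by
    refine VB.ext' fun P x => ?_
    rw [VB.mem_map, MoveCanon_mem D hf P]
    have h1 : f * (LinearEquiv.smulOfNeZero K K f hf).symm x = x :=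
      (LinearEquiv.smulOfNeZero K K f hf).apply_symm_apply x
    rw [h1]
  rw [← h, VB.h0_map]

theorem h0_hom_move [FiniteDimensional K W] (E : VB k K W) (D : Dv k K) {f : K} (hf : f ≠ 0) :
    (hom E (line (D + dv f))).h0 = (hom E (line D)).h0 := by
  have h : (hom E (line (D + dv f))).map (LinearEquiv.smulOfNeZero K (W →ₗ[K] K) f hf) =
      hom E (line D) := by
    refine VB.ext' fun P x => ?_
    rw [VB.mem_map, mem_hom, mem_hom]
    have h1 : f • (LinearEquiv.smulOfNeZero K (W →ₗ[K] K) f hf).symm x = x :=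
      (LinearEquiv.smulOfNeZero K (W →ₗ[K] K) f hf).apply_symm_apply x
    have h2 : ∀ b : W, f * (LinearEquiv.smulOfNeZero K (W →ₗ[K] K) f hf).symm x b = x b := by
      intro b
      conv_rhs => rw [← h1]
      rw [LinearMap.smul_apply, smul_eq_mul]
    refine forall_congr' fun b => ?_
    rw [MoveCanon_mem D hf P, h2]
  rw [← h, VB.h0_map]

theorem move_canonical {κ : Dv k K} (hκ : IsCanonical κ) {f : K} (hf : f ≠ 0) :
    IsCanonical (κ + dv f) := by
  refine ⟨?_, ?_, ?_, ?_, ?_⟩
  · rw [ddeg_add, ddeg_dv, hκ.ddeg, add_zero]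
  · rw [h0_line_move κ hf, hκ.h0]
  · intro P
    obtain ⟨s, hs, hs0, hP⟩ := hκ.base P
    have hfi : f⁻¹ ≠ 0 := inv_ne_zero hf
    refine ⟨f⁻¹ * s, ?_, mul_ne_zero hfi hs0, ?_⟩
    · rw [VB.mem_H0] at hs ⊢
      intro Q
      rw [MoveCanon_mem κ hf Q, ← mul_assoc, mul_inv_cancel₀ hf, one_mul]
      exact hs Q
    · rw [P.ord_mul _ _ hfi hs0, P.ord_inv, hP, Finsupp.add_apply, dv_apply]
      ring
  · intro P
    have h : κ + dv f - Finsupp.single P 1 = κ - Finsupp.single P 1 + dv f := by abel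
    rw [h, h0_line_move _ hf, hκ.h0_sub P]
  · intro W _ _ _ _ _ E
    rw [h0_hom_move E κ hf, hκ.dual W E]

end Pool.Agent.MP_09eaec.GG
end

section

/-!
# TASK NoSec: `E(-κ)` has no sections

Let `(x, y) ∈ H0 (E(-κ))`, `E = ext E1 (pw κ j) u`. For every point `P` and `t` of order `-κ P` (`exists_ord_eq`):
`t • (x, y) ∈ E.M P` (`mem_twist_iff` for the divisor `-κ`), so `t * y i ∈ P.filt (-κ P)`, `y i ∈ P.filt 0`
(`mem_filt_iff_of_ord`), and `t • x - u P (t • y) = t • (x - u P y) ∈ E1.M P`, so `x - u P y ∈ (E1.twist (-κ)).M P`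
(`mem_twist_iff`). So `y i ∈ H0 (line 0)`, `y i = algebraMap (c i)` (`H0_line_zero`), and `hu` with `w = x` gives
`c = 0`, `y = 0`. Then `x ∈ H0 (E1.twist (-κ)) = ⊥`.
-/

set_option autoImplicit false

namespace Pool.Agent.MP_09eaec.GG

open Module

universe u v

variable {k : Type u} {K : Type v} [Field k] [Field K] [Algebra k K]
variable {W : Type v} [AddCommGroup W] [Module K W] [Module k W] [IsScalarTower k K W]
variable {A : Type v} [AddCommGroup A] [Module K A] [Module k A] [IsScalarTower k K A]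
variable {B : Type v} [AddCommGroup B] [Module K B] [Module k B] [IsScalarTower k K B]

variable [CurveG k K]

theorem H0_twist_ext_bot {κ : Dv k K} {E1 : VB k K A} {j : ℕ}
    (u : Place k K →₀ ((Fin j → K) →ₗ[K] A)) (h0 : (E1.twist (-κ)).H0 = ⊥)
    (hu : ∀ c : Fin j → k,
      (∃ w : A, ∀ P, u P (fun i => algebraMap k K (c i)) - w ∈ (E1.twist (-κ)).M P) → c = 0) :
    ((ext E1 (pw κ j) u).twist (-κ)).H0 = ⊥ := by
  rw [eq_bot_iff]
  rintro ⟨x, y⟩ hxy
  have hxy' := VB.mem_H0.1 hxy
  have key : ∀ P : Place k K, (∀ i, y i ∈ P.filt 0) ∧ x - u P y ∈ (E1.twist (-κ)).M P := by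
    intro P
    obtain ⟨t, ht, htm⟩ := exists_ord_eq P ((-κ : Dv k K) P)
    have h1 := (VB.mem_twist_iff ht htm).1 (hxy' P)
    rw [mem_ext] at h1
    obtain ⟨h2, h3⟩ := h1
    constructor
    · intro i
      have h4 : t * y i ∈ P.filt (-κ P) := (mem_pw.1 h2) i
      have h5 : t * y i ∈ P.filt (0 + (-κ : Dv k K) P) := by
        rw [zero_add]
        exact h4
      exact (mem_filt_iff_of_ord P ht htm 0).1 h5
    · rw [VB.mem_twist_iff ht htm, smul_sub, ← map_smul]
      exact h3
  have hy : ∀ i, ∃ c : k, algebraMap k K c = y i := by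
    intro i
    apply H0_line_zero
    rw [VB.mem_H0]
    intro P
    rw [mem_line, Finsupp.coe_zero, Pi.zero_apply, neg_zero]
    exact (key P).1 i
  choose c hc using hy
  have hc' : (fun i => algebraMap k K (c i)) = y := funext hc
  have h6 : c = 0 := by
    apply hu
    refine ⟨x, fun P => ?_⟩
    rw [hc', ← neg_sub]
    exact neg_mem (key P).2
  have h7 : y = 0 := by
    rw [← hc', h6]
    funext i
    simp
  have h8 : x ∈ (E1.twist (-κ)).H0 := by
    rw [VB.mem_H0]
    intro P
    have := (key P).2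
    rw [h7, map_zero, sub_zero] at this
    exact this
  rw [h0, Submodule.mem_bot] at h8
  rw [Submodule.mem_bot, h7, h8]
  rfl

end Pool.Agent.MP_09eaec.GG
end

section

/-!
# TASK C5: kernels of homomorphisms to line bundles

`φ : W → K` nonzero with `φ (E.M P) ⊆ (line D).M P`, `J = ker φ`. Exact sequence `0 → J → W → K → 0`:
`E.deg ≤ (E.sub J).deg + ddeg D` (`deg_exact_le`, `deg_line`), `finrank J = finrank W - 1`, and for a
`k`-subspace `V ≤ E.H0`: `φ` maps `V` to `H0 (line D)` with kernel `V ⊓ J`, so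
`finrank V ≤ finrank (V ⊓ J) + h0 (line D)`.
* `h1_pos_hom`: `E.h1 ≠ 0` gives `φ` with `D = κ` (`IsCanonical.dual`).
* `h1_twist_hom`: `(E.twist κ).h1 ≠ 0` gives `φ` with `D = 0`: `φ` maps `E.twist κ` to `line κ`; for
  `x ∈ E.M P` and `t` of order `κ P`: `t⁻¹ x ∈ (E.twist κ).M P` (`mem_twist_iff`), so `t⁻¹ φ x ∈ P.filt (-κ P)`,
  `φ x ∈ P.filt 0`.
-/

set_option autoImplicit false

namespace Pool.Agent.MP_09eaec.GG

open Module

universe u v

variable {k : Type u} {K : Type v} [Field k] [Field K] [Algebra k K]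
variable {W : Type v} [AddCommGroup W] [Module K W] [Module k W] [IsScalarTower k K W]
variable {A : Type v} [AddCommGroup A] [Module K A] [Module k A] [IsScalarTower k K A]
variable {B : Type v} [AddCommGroup B] [Module K B] [Module k B] [IsScalarTower k K B]

variable [CurveG k K]

theorem ker_bounds [FiniteDimensional K W] {E : VB k K W} {D : Dv k K} {φ : W →ₗ[K] K}
    (hφ : φ ≠ 0) (h : ∀ P x, x ∈ E.M P → φ x ∈ (line D).M P) :
    E.deg ≤ (E.sub (LinearMap.ker φ)).deg + ddeg D ∧
    (finrank K (LinearMap.ker φ) : ℤ) = finrank K W - 1 ∧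
    ∀ V : Submodule k W, V ≤ E.H0 →
      (finrank k V : ℤ) ≤ finrank k ↥(V ⊓ (LinearMap.ker φ).restrictScalars k) + (line D).h0 := by
  have hsurj : Function.Surjective φ := LinearMap.surjective hφ
  refine ⟨?_, ?_, ?_⟩
  · have h1 := VB.deg_exact_le E (E.sub (LinearMap.ker φ)) (line D) (LinearMap.ker φ).subtype φ
      (Submodule.injective_subtype _) hsurj (Submodule.range_subtype _)
      (fun P x hx => hx) h
    rwa [VB.deg_line] at h1
  · have h1 := LinearMap.finrank_range_add_finrank_ker φ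
    rw [LinearMap.range_eq_top.2 hsurj, finrank_top, finrank_self] at h1
    omega
  · intro V hV
    have : Module.Finite k V := Submodule.finiteDimensional_of_le hV
    let g : V →ₗ[k] K := (φ.restrictScalars k) ∘ₗ V.subtype
    have h1 := LinearMap.finrank_range_add_finrank_ker g
    have h2 : LinearMap.range g ≤ (line D).H0 := by
      rintro _ ⟨x, rfl⟩
      rw [VB.mem_H0]
      intro P
      exact h P _ (VB.mem_H0.1 (hV x.2) P)
    have h3 : finrank k (LinearMap.range g) ≤ finrank k (line D).H0 := Submodule.finrank_mono h2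
    have h4 : LinearMap.ker g =
        Submodule.comap V.subtype ((LinearMap.ker φ).restrictScalars k) := by
      ext x
      rfl
    have h5 : finrank k (LinearMap.ker g) =
        finrank k ↥(V ⊓ (LinearMap.ker φ).restrictScalars k) := by
      rw [← Submodule.map_comap_subtype, ← h4]
      exact (Submodule.finrank_map_subtype_eq V (LinearMap.ker g)).symm
    unfold VB.h0
    omega

theorem h1_pos_hom {κ : Dv k K} (hκ : IsCanonical κ) [FiniteDimensional K W] {E : VB k K W}
    (h : E.h1 ≠ 0) : ∃ φ : W →ₗ[K] K, φ ≠ 0 ∧ ∀ P x, x ∈ E.M P → φ x ∈ (line κ).M P := by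
  have h1 : (hom E (line κ)).H0 ≠ ⊥ := by
    intro h2
    apply h
    rw [hκ.dual W E, VB.h0, h2, finrank_bot]
    rfl
  obtain ⟨φ, hφ, hφ0⟩ := Submodule.exists_mem_ne_zero_of_ne_bot h1
  exact ⟨φ, hφ0, fun P x hx => VB.mem_H0.1 hφ P x hx⟩

theorem h1_twist_hom {κ : Dv k K} (hκ : IsCanonical κ) [FiniteDimensional K W] {E : VB k K W}
    (h : (E.twist κ).h1 ≠ 0) :
    ∃ φ : W →ₗ[K] K, φ ≠ 0 ∧ ∀ P x, x ∈ E.M P → φ x ∈ (line 0).M P := by
  obtain ⟨φ, hφ, h1⟩ := h1_pos_hom hκ h
  refine ⟨φ, hφ, fun P x hx => ?_⟩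
  obtain ⟨t, ht, htm⟩ := exists_ord_eq P (κ P)
  have h2 : t⁻¹ • x ∈ (E.twist κ).M P := by
    rw [VB.mem_twist_iff ht htm, smul_smul, mul_inv_cancel₀ ht, one_smul]
    exact hx
  have h3 := h1 P _ h2
  rw [mem_line, map_smul, smul_eq_mul] at h3
  have h4 := mul_mem_filt P (Or.inr htm.ge : t ∈ P.filt (κ P)) h3
  rw [← mul_assoc, mul_inv_cancel₀ ht, one_mul, add_neg_cancel] at h4
  rw [mem_line, Finsupp.coe_zero, Pi.zero_apply, neg_zero]
  exact h4

/-- A subspace `V ≤ H0 E` has finite dimension, and `finrank V ≤ h0`. -/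
theorem finrank_le_h0 [FiniteDimensional K W] {E : VB k K W} {V : Submodule k W}
    (h : V ≤ E.H0) : Module.Finite k V ∧ (finrank k V : ℤ) ≤ E.h0 := by
  refine ⟨Submodule.finiteDimensional_of_le h, ?_⟩
  unfold VB.h0
  exact_mod_cast Submodule.finrank_mono h

end Pool.Agent.MP_09eaec.GG
end

section

/-!
# TASK SpanDeg: sections of `E(-D)` and homomorphisms to `O(D)`

* `ddeg_le_sub`: `w ≠ 0`, `w ∈ H0 (E(-D))`: for `c ∈ P.filt (-D P)` : `c • w ∈ E.M P` (definition of the twist, `VB.mem_twist`). The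
  isomorphism `f : K ≃ₗ[K] K ∙ w`, `c ↦ c w` (`LinearEquiv.toSpanNonzeroSingleton`) maps `line D` into `E.sub (K ∙ w)`:
  `(line D).map f ≤ E.sub (K ∙ w)`, `VB.deg_map`, `VB.deg_le_of_le`, `VB.deg_line`.
* `twist_H0_bot`: otherwise `ddeg_le_sub` with `J = K ∙ w ≠ ⊥` of rank one (`finrank_span_singleton`).
* `hom_eq_zero_of`: `φ ≠ 0`: `ker_bounds` (SysDefs.lean) gives `E.deg ≤ (E.sub (ker φ)).deg + ddeg D`, rank `n - 1`, so
  `n c ≤ (n - 1) c + ddeg D` (the hypothesis `hE` for `J = ker φ`, also if it is `⊥`, `VB.deg_sub_bot`).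
* `hom_le_rank`: `ddeg D = c`. `kindep` (KIndep.lean) for `κ = D` and any point `P` (`infinite_places`): its hypothesis `hP` is
  `hom_eq_zero_of` for the divisor `D - single P 1` of degree `c - 1`. Take a `k`-basis of `(hom E (line D)).H0` (finite dimensional,
  `VB.finite_H0`); it is `K`-independent in `W →ₗ[K] K`, of dimension `finrank K W` (see `h1_le_rank`, `HomBasis_aux` in
  HomBasis.lean: copy).
-/

set_option autoImplicit false

namespace Pool.Agent.MP_09eaec.GG

open Module

universe u v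

variable {k : Type u} {K : Type v} [Field k] [Field K] [Algebra k K]
variable {W : Type v} [AddCommGroup W] [Module K W] [Module k W] [IsScalarTower k K W]

variable [CurveG k K]

theorem ddeg_le_sub [FiniteDimensional K W] {E : VB k K W} {D : Dv k K} {w : W} (hw0 : w ≠ 0)
    (hw : w ∈ (E.twist (-D)).H0) : ddeg D ≤ (E.sub (Submodule.span K {w})).deg := by
  let f : K ≃ₗ[K] Submodule.span K {w} := LinearEquiv.toSpanNonzeroSingleton K W w hw0
  have h1 : (line D).map f ≤ E.sub (Submodule.span K {w}) := by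
    intro P x hx
    rw [VB.mem_map, mem_line] at hx
    rw [VB.mem_sub]
    have h2 : f (f.symm x) = x := f.apply_symm_apply x
    have h3 : (x : W) = f.symm x • w := by
      conv_lhs => rw [← h2]
      rfl
    rw [h3]
    exact VB.mem_twist.1 (VB.mem_H0.1 hw P) _ (by simpa using hx)
  have h2 := VB.deg_le_of_le h1
  rwa [VB.deg_map, VB.deg_line] at h2

theorem twist_H0_bot [FiniteDimensional K W] {E : VB k K W} {D : Dv k K}
    (hE : ∀ J : Submodule K W, finrank K J = 1 → (E.sub J).deg < ddeg D) :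
    (E.twist (-D)).H0 = ⊥ := by
  rw [eq_bot_iff]
  intro w hw
  rw [Submodule.mem_bot]
  by_contra hw0
  have h1 := ddeg_le_sub hw0 hw
  have h2 := hE _ (finrank_span_singleton (K := K) hw0)
  omega

theorem hom_eq_zero_of [FiniteDimensional K W] {E : VB k K W} {c : ℤ}
    (hE : ∀ J : Submodule K W, (E.sub J).deg ≤ finrank K J * c) (hd : E.deg = finrank K W * c)
    {D : Dv k K} (hD : ddeg D < c) (φ : W →ₗ[K] K)
    (hφ : ∀ P x, x ∈ E.M P → φ x ∈ (line D).M P) : φ = 0 := by
  by_contra h0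
  obtain ⟨h1, h2, -⟩ := ker_bounds h0 hφ
  have h3 := hE (LinearMap.ker φ)
  rw [h2] at h3
  rw [hd] at h1
  have h4 : ((finrank K W : ℤ) - 1) * c = finrank K W * c - c := by ring
  rw [h4] at h3
  omega

private theorem SpanDeg_aux {F : Type u} [Field F] {M : Type v} [AddCommGroup M] [Module F M]
    (H : Submodule F M) [Module.Finite F H] :
    ∃ φ : Fin (finrank F H) → M, (∀ i, φ i ∈ H) ∧ LinearIndependent F φ := by
  have b := Module.finBasis F H
  exact ⟨fun i => (b i : M), fun i => (b i).2,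
    b.linearIndependent.map' H.subtype (Submodule.ker_subtype _)⟩

theorem hom_le_rank [FiniteDimensional K W] {E : VB k K W} {c : ℤ}
    (hE : ∀ J : Submodule K W, (E.sub J).deg ≤ finrank K J * c) (hd : E.deg = finrank K W * c)
    {D : Dv k K} (hD : ddeg D = c) : (hom E (line D)).h0 ≤ finrank K W := by
  have := infinite_places (k := k) (K := K)
  obtain ⟨P⟩ : Nonempty (Place k K) := inferInstance
  obtain ⟨φ, hmem, hli⟩ := SpanDeg_aux (hom E (line D)).H0
  have hP : ∀ φ : W →ₗ[K] K,
      (∀ Q x, x ∈ E.M Q → φ x ∈ (line (D - Finsupp.single P 1)).M Q) → φ = 0 := by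
    intro φ hφ
    refine hom_eq_zero_of hE hd ?_ φ hφ
    rw [ddeg_sub, ddeg_single]
    omega
  have hK := kindep E hP φ hmem hli
  have h1 : Fintype.card (Fin (finrank k (hom E (line D)).H0)) ≤ finrank K (W →ₗ[K] K) :=
    hK.fintype_card_le_finrank
  rw [Fintype.card_fin] at h1
  have h2 : finrank K (W →ₗ[K] K) = finrank K W := by
    rw [Module.finrank_linearMap_self]
  rw [h2] at h1
  unfold VB.h0
  exact_mod_cast h1

end Pool.Agent.MP_09eaec.GG
end

section

/-!
# TASK LowerStar: systems with `h1 ≠ 0`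

`n = finrank K W ≥ 2`. `h0 (hom E (line κ)) = E.h1 ≠ 0` (`hκ.dual`), so there is `φ ≠ 0` mapping `E` to `line κ`
(`(hom E (line κ)).H0 ≠ ⊥`). `J = ker φ`, `ker_bounds`: `(E.sub J).deg ≥ d - (2 gen - 2)` (`hκ.ddeg`), rank `n - 1`,
`dim (V ⊓ J) ≥ v - gen` (`hκ.h0`). `J ≠ ⊤` (`φ ≠ 0`), `J ≠ ⊥` (`n ≥ 2`). Stability:
`n (d - (2 gen - 2) + α (v - gen)) < (n - 1) (d + α v)`, i.e. the claim.
-/

set_option autoImplicit false

namespace Pool.Agent.MP_09eaec.GG

open Module

universe u v

variable {k : Type u} {K : Type v} [Field k] [Field K] [Algebra k K]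
variable {W : Type v} [AddCommGroup W] [Module K W] [Module k W] [IsScalarTower k K W]
variable {A : Type v} [AddCommGroup A] [Module K A] [Module k A] [IsScalarTower k K A]
variable {B : Type v} [AddCommGroup B] [Module K B] [Module k B] [IsScalarTower k K B]

variable [CurveG k K]

theorem lower_star {κ : Dv k K} (hκ : IsCanonical κ) [FiniteDimensional K W] {E : VB k K W}
    {V : Submodule k W} (hV : V ≤ E.H0) {α : ℝ} (hα : 0 < α) (hn : 2 ≤ finrank K W)
    (hst : E.StableSys α V) (h1 : E.h1 ≠ 0) :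
    (E.deg : ℝ) + α * finrank k V <
      finrank K W * (2 * (gen k K : ℝ) - 2) + finrank K W * (α * gen k K) := by
  obtain ⟨φ, hφ, hmap⟩ := h1_pos_hom hκ h1
  obtain ⟨hd, hr, hv⟩ := ker_bounds hφ hmap
  have hv' := hv V hV
  rw [hκ.h0] at hv'
  rw [hκ.ddeg] at hd
  have hbot : LinearMap.ker φ ≠ ⊥ := by
    intro h
    rw [h, finrank_bot] at hr
    push_cast at hr
    omega
  have htop : LinearMap.ker φ ≠ ⊤ := by
    intro h
    exact hφ (LinearMap.ker_eq_top.1 h)
  have hs := hst _ hbot htop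
  have hn0 : (0 : ℝ) < finrank K W := by
    have : 0 < finrank K W := by omega
    exact_mod_cast this
  have hr0 : (0 : ℝ) < finrank K (LinearMap.ker φ) := by
    have : 0 < finrank K (LinearMap.ker φ) := by omega
    exact_mod_cast this
  rw [div_lt_div_iff₀ hr0 hn0] at hs
  have hr' : (finrank K (LinearMap.ker φ) : ℝ) = finrank K W - 1 := by exact_mod_cast hr
  have hd' : (E.deg : ℝ) - (2 * (gen k K : ℝ) - 2) ≤ ((E.sub (LinearMap.ker φ)).deg : ℝ) := by
    have : E.deg - (2 * gen k K - 2) ≤ (E.sub (LinearMap.ker φ)).deg := by linarith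
    exact_mod_cast this
  have hv2 : (finrank k V : ℝ) - gen k K ≤
      (finrank k ↥(V ⊓ (LinearMap.ker φ).restrictScalars k) : ℝ) := by
    have : (finrank k V : ℤ) - gen k K ≤
      (finrank k ↥(V ⊓ (LinearMap.ker φ).restrictScalars k) : ℤ) := by linarith
    exact_mod_cast this
  rw [hr'] at hs
  have h3 : ((E.deg : ℝ) - (2 * (gen k K : ℝ) - 2) + α * ((finrank k V : ℝ) - gen k K)) *
      finrank K W ≤ (((E.sub (LinearMap.ker φ)).deg : ℝ) +
        α * finrank k ↥(V ⊓ (LinearMap.ker φ).restrictScalars k)) * finrank K W := by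
    apply mul_le_mul_of_nonneg_right _ hn0.le
    have := mul_le_mul_of_nonneg_left hv2 hα.le
    linarith
  nlinarith [h3, hs]

end Pool.Agent.MP_09eaec.GG
end
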