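import Pool.Agent.Lib.MP_09eaec_ag.Mg.G003

section

/-!
# TASK KerAll: the common kernel of independent homomorphisms

By induction on `h` (for `φ : Fin (h + 1) → _` use `φ ∘ Fin.castSucc` and `φ (Fin.last h)`; or prove for all finite
sets `s : Finset (Fin h)` the statement with `⨅ i ∈ s, ker (φ i)` and `s.card` by `Finset.induction_on`). `h = 0`:
the infimum is `⊤`, `deg_sub_top`. Step: `S = ⨅ i < h, ker (φ i)`; `S` is not contained in `ker (φ h)`: otherwise
`φ h` is in the span of the others (`mem_span_of_iInf_ker_le_ker`), contradicting the independence. So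
`ker_bounds_sub E S` with `φ h` gives `(E.sub S).deg ≤ (E.sub (S ⊓ ker (φ h))).deg + ddeg D` and the rank drops by
one.
-/

set_option autoImplicit false

namespace Pool.Agent.MP_09eaec.GG

open Module

universe u v

variable {k : Type u} {K : Type v} [Field k] [Field K] [Algebra k K]
variable {W : Type v} [AddCommGroup W] [Module K W] [Module k W] [IsScalarTower k K W]
variable {A : Type v} [AddCommGroup A] [Module K A] [Module k A] [IsScalarTower k K A]
variable {B : Type v} [AddCommGroup B] [Module K B] [Module k B] [IsScalarTower k K B]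

variable [CurveG k K]

theorem ker_all {D : Dv k K} [FiniteDimensional K W] (E : VB k K W) {h : ℕ}
    (φ : Fin h → (W →ₗ[K] K)) (hli : LinearIndependent K φ)
    (hφ : ∀ i P x, x ∈ E.M P → φ i x ∈ (line D).M P) :
    E.deg ≤ (E.sub (⨅ i, LinearMap.ker (φ i))).deg + h * ddeg D ∧
      finrank K ↥(⨅ i, LinearMap.ker (φ i)) + h = finrank K W := by
  induction h with
  | zero =>
    have e0 : (⨅ i : Fin 0, LinearMap.ker (φ i)) = (⊤ : Submodule K W) := iInf_of_empty _
    rw [e0]
    constructor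
    · rw [VB.deg_sub_top]
      simp
    · rw [finrank_top, add_zero]
  | succ n ih =>
    obtain ⟨h1, h2⟩ := linearIndependent_finSucc'.1 hli
    obtain ⟨ih1, ih2⟩ := ih (Fin.init φ) h1 (fun i P x hx => hφ _ P x hx)
    have e1 : (⨅ i : Fin (n + 1), LinearMap.ker (φ i)) =
        (⨅ i : Fin n, LinearMap.ker (Fin.init φ i)) ⊓ LinearMap.ker (φ (Fin.last n)) := by
      ext x
      simp only [Submodule.mem_iInf, Submodule.mem_inf, LinearMap.mem_ker]
      rw [Fin.forall_fin_succ']
      rfl
    have hnot : ¬ (⨅ i : Fin n, LinearMap.ker (Fin.init φ i)) ≤ LinearMap.ker (φ (Fin.last n)) := by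
      intro hle
      exact h2 (mem_span_of_iInf_ker_le_ker hle)
    obtain ⟨k1, k2, _⟩ := ker_bounds_sub E _ hnot (fun P x _ hx => hφ (Fin.last n) P x hx)
    rw [e1]
    constructor
    · push_cast
      linarith
    · omega

end Pool.Agent.MP_09eaec.GG
end

section

/-!
# TASK A11: the degrees of the subbundles are bounded above

Induction on `finrank K W` (generalised over `W`). Rank `0`: `C = 0`. Otherwise let `L ≤ W` be a
subspace of rank one, `C'` the bound for `E.quo L`; `C = max 0 (E.sub L).deg + C'`. For `J ≤ W`: exact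
sequence `0 → J ⊓ L → J → J.map L.mkQ → 0` and `deg_exact_le` for `E.sub J`, with the bundles
`E.sub (J ⊓ L)` and `(E.quo L).sub (J.map L.mkQ)`. `J ⊓ L = ⊥` or `J ⊓ L = L` (rank one), so
`(E.sub (J ⊓ L)).deg ≤ max 0 (E.sub L).deg`.
-/

set_option autoImplicit false

namespace Pool.Agent.MP_09eaec.GG

open Module

universe u v

variable {k : Type u} {K : Type v} [Field k] [Field K] [Algebra k K]
variable {W : Type v} [AddCommGroup W] [Module K W] [Module k W] [IsScalarTower k K W]
variable {A : Type v} [AddCommGroup A] [Module K A] [Module k A] [IsScalarTower k K A]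
variable {B : Type v} [AddCommGroup B] [Module K B] [Module k B] [IsScalarTower k K B]

variable [CurveG k K]

namespace VB

private theorem Bound_aux (n : ℕ) : ∀ (W : Type v) [AddCommGroup W] [Module K W] [Module k W]
    [IsScalarTower k K W] [FiniteDimensional K W] (E : VB k K W), finrank K W = n →
    ∃ C : ℤ, ∀ J : Submodule K W, (E.sub J).deg ≤ C := by
  induction n with
  | zero =>
    intro W _ _ _ _ _ E hn
    refine ⟨(E.sub ⊥).deg, fun J => ?_⟩
    have hJ : J = ⊥ := by
      have h1 : finrank K J = 0 := by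
        have := Submodule.finrank_le J
        omega
      exact Submodule.finrank_eq_zero.mp h1
    rw [hJ]
  | succ n ih =>
    intro W _ _ _ _ _ E hn
    have hnt : Nontrivial W := Module.nontrivial_of_finrank_pos (R := K) (by omega)
    obtain ⟨w, hw⟩ := exists_ne (0 : W)
    let L : Submodule K W := Submodule.span K {w}
    have hL : finrank K L = 1 := finrank_span_singleton hw
    have hq : finrank K (W ⧸ L) = n := by
      have := Submodule.finrank_quotient_add_finrank L
      omega
    obtain ⟨C', hC'⟩ := ih (W ⧸ L) (E.quo L) hq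
    refine ⟨max (E.sub ⊥).deg (E.sub L).deg + C', fun J => ?_⟩
    have hex := deg_exact_le (E.sub J) (E.sub (J ⊓ L)) ((E.quo L).sub (J.map L.mkQ))
      (Submodule.inclusion inf_le_left) (L.mkQ.submoduleMap J)
      (Submodule.inclusion_injective _) (LinearMap.submoduleMap_surjective _ _)
      (by
        ext x
        constructor
        · rintro ⟨y, rfl⟩
          rw [LinearMap.mem_ker]
          apply Subtype.ext
          show L.mkQ (y : W) = 0
          rw [Submodule.mkQ_apply, Submodule.Quotient.mk_eq_zero]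
          exact y.2.2
        · intro hx
          rw [LinearMap.mem_ker] at hx
          have h1 : L.mkQ (x : W) = 0 := congrArg Subtype.val hx
          rw [Submodule.mkQ_apply, Submodule.Quotient.mk_eq_zero] at h1
          exact ⟨⟨(x : W), ⟨x.2, h1⟩⟩, Subtype.ext rfl⟩)
      (fun P x hx => hx)
      (fun P x hx => ⟨(x : W), hx, rfl⟩)
    have h2 : (E.sub (J ⊓ L)).deg ≤ max (E.sub ⊥).deg (E.sub L).deg := by
      have h3 : finrank K (J ⊓ L : Submodule K W) ≤ 1 := by
        rw [← hL]
        exact Submodule.finrank_mono inf_le_right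
      rcases Nat.lt_or_ge (finrank K (J ⊓ L : Submodule K W)) 1 with h4 | h4
      · have h5 : J ⊓ L = ⊥ := Submodule.finrank_eq_zero.mp (by omega)
        rw [h5]
        exact le_max_left _ _
      · have h5 : J ⊓ L = L := Submodule.eq_of_le_of_finrank_eq inf_le_right (by omega)
        rw [h5]
        exact le_max_right _ _
    have h6 := hC' (J.map L.mkQ)
    linarith

theorem exists_bound [FiniteDimensional K W] (E : VB k K W) :
    ∃ C : ℤ, ∀ J : Submodule K W, (E.sub J).deg ≤ C :=
  Bound_aux (finrank K W) W E rfl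

end VB

end Pool.Agent.MP_09eaec.GG
end

section

/-!
# TASK MaxSlope: subsystems of maximal slope

* `exists_max_slope`: let `C` be the bound of `exists_bound E`, `r = finrank K W`, `v = finrank k V` (finite:
  `V ≤ E.H0`). `T` = the set of the triples `(ρ, ν, δ) : ℕ × ℕ × ℤ` such that there is `J ≠ ⊥` with
  `finrank K J = ρ`, `vd V J = ν`, `(E.sub J).deg = δ` and `(δ + α ν) / ρ ≥ s0`, where `s0` is the slope of
  `⊤`. `T` is not empty (`J = ⊤ ≠ ⊥`) and finite: `1 ≤ ρ ≤ r`, `ν ≤ v`, `δ ≤ C` and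
  `δ ≥ s0 ρ - α ν ≥ -(|s0| r + |α| v)` is bounded below. `Set.exists_max_image` for the function
  `(δ + α ν) / ρ`; the `J` with slope `< s0` are no problem.
* `exists_max_ratio`: the set of the pairs `(finrank K J, vd V J)`, `J ≠ ⊥`, is finite and not empty;
  maximize `ν / ρ` (in `ℚ`), then clear denominators.
-/

set_option autoImplicit false

namespace Pool.Agent.MP_09eaec.GG

open Module

universe u v

variable {k : Type u} {K : Type v} [Field k] [Field K] [Algebra k K]
variable {W : Type v} [AddCommGroup W] [Module K W] [Module k W] [IsScalarTower k K W]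
variable {A : Type v} [AddCommGroup A] [Module K A] [Module k A] [IsScalarTower k K A]
variable {B : Type v} [AddCommGroup B] [Module K B] [Module k B] [IsScalarTower k K B]

variable [CurveG k K]

theorem exists_max_slope [FiniteDimensional K W] [Nontrivial W] (E : VB k K W)
    {V : Submodule k W} (hV : V ≤ E.H0) (α : ℝ) :
    ∃ J0 : Submodule K W, J0 ≠ ⊥ ∧ ∀ J : Submodule K W, J ≠ ⊥ →
      (((E.sub J).deg : ℝ) + α * vd V J) / finrank K J ≤
        (((E.sub J0).deg : ℝ) + α * vd V J0) / finrank K J0 := by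
  obtain ⟨C, hC⟩ := E.exists_bound
  have hVfin : Module.Finite k V := Submodule.finiteDimensional_of_le hV
  have hvd : ∀ J : Submodule K W, vd V J ≤ finrank k V := fun J => Submodule.finrank_mono inf_le_left
  have hpos : ∀ J : Submodule K W, J ≠ ⊥ → 1 ≤ finrank K J := by
    intro J hJ
    have h1 : finrank K J ≠ 0 := fun h => hJ (Submodule.finrank_eq_zero.mp h)
    omega
  set f : Submodule K W → ℝ := fun J => (((E.sub J).deg : ℝ) + α * vd V J) / finrank K J with hf
  set g : ℕ × ℕ × ℤ → ℝ := fun t => ((t.2.2 : ℝ) + α * t.2.1) / t.1 with hg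
  set lo : ℤ := ⌊-(|f ⊤| * finrank K W) - |α| * finrank k V⌋ with hlo
  let T : Set (ℕ × ℕ × ℤ) := {t | ∃ J : Submodule K W, J ≠ ⊥ ∧
    t = (finrank K J, vd V J, (E.sub J).deg) ∧ f ⊤ ≤ f J}
  have hTfin : T.Finite := by
    refine Set.Finite.subset ((Set.finite_Icc 0 (finrank K W)).prod
      ((Set.finite_Icc 0 (finrank k V)).prod (Set.finite_Icc lo C))) ?_
    rintro _ ⟨J, hJ, rfl, hle⟩
    refine ⟨⟨Nat.zero_le _, Submodule.finrank_le J⟩, ⟨Nat.zero_le _, hvd J⟩, ?_, hC J⟩
    have h1 : (0 : ℝ) < finrank K J := by exact_mod_cast hpos J hJ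
    have h2 : f ⊤ * finrank K J ≤ ((E.sub J).deg : ℝ) + α * vd V J := by
      have h3 : f ⊤ ≤ (((E.sub J).deg : ℝ) + α * vd V J) / finrank K J := hle
      rwa [le_div_iff₀ h1] at h3
    have h3 : (finrank K J : ℝ) ≤ finrank K W := by exact_mod_cast Submodule.finrank_le J
    have h4 : (vd V J : ℝ) ≤ finrank k V := by exact_mod_cast hvd J
    have h5 : -(|f ⊤| * finrank K W) ≤ f ⊤ * finrank K J := by
      have h6 : |f ⊤| * finrank K J ≤ |f ⊤| * finrank K W :=
        mul_le_mul_of_nonneg_left h3 (abs_nonneg _)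
      have h7 : -|f ⊤| * finrank K J ≤ f ⊤ * finrank K J :=
        mul_le_mul_of_nonneg_right (neg_abs_le _) h1.le
      linarith
    have h6 : α * vd V J ≤ |α| * finrank k V :=
      (mul_le_mul_of_nonneg_right (le_abs_self α) (Nat.cast_nonneg _)).trans
        (mul_le_mul_of_nonneg_left h4 (abs_nonneg _))
    have h7 : (lo : ℝ) ≤ (E.sub J).deg := (Int.floor_le _).trans (by linarith)
    exact_mod_cast h7
  have hTne : T.Nonempty := ⟨_, ⊤, top_ne_bot, rfl, le_rfl⟩
  obtain ⟨_, ⟨J0, hJ0, rfl, hle0⟩, hmax⟩ := Set.exists_max_image T g hTfin hTne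
  refine ⟨J0, hJ0, fun J hJ => ?_⟩
  change f J ≤ f J0
  rcases le_total (f J) (f ⊤) with h1 | h1
  · exact h1.trans hle0
  · exact hmax _ ⟨J, hJ, rfl, h1⟩

theorem exists_max_ratio [FiniteDimensional K W] [Nontrivial W] {E : VB k K W}
    {V : Submodule k W} (hV : V ≤ E.H0) :
    ∃ J0 : Submodule K W, J0 ≠ ⊥ ∧ ∀ J : Submodule K W, J ≠ ⊥ →
      (vd V J : ℤ) * finrank K J0 ≤ (vd V J0 : ℤ) * finrank K J := by
  have hVfin : Module.Finite k V := Submodule.finiteDimensional_of_le hV
  have hvd : ∀ J : Submodule K W, vd V J ≤ finrank k V := fun J => Submodule.finrank_mono inf_le_left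
  have hpos : ∀ J : Submodule K W, J ≠ ⊥ → 1 ≤ finrank K J := by
    intro J hJ
    have h1 : finrank K J ≠ 0 := fun h => hJ (Submodule.finrank_eq_zero.mp h)
    omega
  let T : Set (ℕ × ℕ) := {t | ∃ J : Submodule K W, J ≠ ⊥ ∧ t = (finrank K J, vd V J)}
  have hTfin : T.Finite := by
    refine Set.Finite.subset ((Set.finite_Icc 0 (finrank K W)).prod
      (Set.finite_Icc 0 (finrank k V))) ?_
    rintro _ ⟨J, _, rfl⟩
    exact ⟨⟨Nat.zero_le _, Submodule.finrank_le J⟩, ⟨Nat.zero_le _, hvd J⟩⟩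
  have hTne : T.Nonempty := ⟨_, ⊤, top_ne_bot, rfl⟩
  obtain ⟨_, ⟨J0, hJ0, rfl⟩, hmax⟩ :=
    Set.exists_max_image T (fun t => (t.2 : ℚ) / t.1) hTfin hTne
  refine ⟨J0, hJ0, fun J hJ => ?_⟩
  have h1 : (vd V J : ℚ) / finrank K J ≤ (vd V J0 : ℚ) / finrank K J0 := hmax _ ⟨J, hJ, rfl⟩
  have h2 : (0 : ℚ) < finrank K J := by exact_mod_cast hpos J hJ
  have h3 : (0 : ℚ) < finrank K J0 := by exact_mod_cast hpos J0 hJ0
  rw [div_le_div_iff₀ h2 h3] at h1
  exact_mod_cast h1

end Pool.Agent.MP_09eaec.GG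
end

section

/-!
# TASK NoMap: subsystems of maximal slope have no maps to `O(D)`

`V = E.H0`. Let `φ : J0 →ₗ K` be nonzero, mapping `E.sub J0` to `line D`. Extend it to `Φ : W →ₗ K`
(`LinearMap.exists_extend`, `Φ x = φ x` on `J0`), `¬ J0 ≤ ker Φ`. `ker_bounds_sub E J0`, `J' = J0 ⊓ ker Φ`, `r0 = finrank J0`:
`(E.sub J0).deg ≤ (E.sub J').deg + ddeg D`, `finrank J' = r0 - 1`, `vd V J0 ≤ vd V J' + h0 (line D)`. Let `s` be the
slope of `J0`, `(E.sub J0).deg + α vd V J0 = s r0`, so `s r0 ≤ ((E.sub J').deg + α vd V J') + (ddeg D + α h0 (line D))`.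
If `J' ≠ ⊥`: `(E.sub J').deg + α vd V J' ≤ s (r0 - 1)` by maximality, so `s ≤ ddeg D + α h0 (line D)`. If `J' = ⊥`:
`r0 = 1` and `(E.sub J').deg = 0`, `vd V J' = 0` (`deg_sub_bot`, `vd_bot`), the same. This contradicts `hs`.
-/

set_option autoImplicit false

namespace Pool.Agent.MP_09eaec.GG

open Module

universe u v

variable {k : Type u} {K : Type v} [Field k] [Field K] [Algebra k K]
variable {W : Type v} [AddCommGroup W] [Module K W] [Module k W] [IsScalarTower k K W]
variable {A : Type v} [AddCommGroup A] [Module K A] [Module k A] [IsScalarTower k K A]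
variable {B : Type v} [AddCommGroup B] [Module K B] [Module k B] [IsScalarTower k K B]

variable [CurveG k K]

theorem no_map_of_max [FiniteDimensional K W] {E : VB k K W} {α : ℝ} (hα : 0 ≤ α)
    {J0 : Submodule K W} (hJ0 : J0 ≠ ⊥)
    (hmax : ∀ J : Submodule K W, J ≠ ⊥ →
      (((E.sub J).deg : ℝ) + α * vd E.H0 J) / finrank K J ≤
        (((E.sub J0).deg : ℝ) + α * vd E.H0 J0) / finrank K J0)
    {D : Dv k K}
    (hs : (ddeg D : ℝ) + α * (line D).h0 <
      (((E.sub J0).deg : ℝ) + α * vd E.H0 J0) / finrank K J0)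
    (φ : J0 →ₗ[K] K) (hφ : ∀ Q x, x ∈ (E.sub J0).M Q → φ x ∈ (line D).M Q) : φ = 0 := by
  by_contra hne
  obtain ⟨Φ, hΦ⟩ := φ.exists_extend
  have hΦ' : ∀ x : J0, Φ x = φ x := fun x => by rw [← hΦ]; rfl
  have hnle : ¬ J0 ≤ LinearMap.ker Φ := by
    intro hle
    apply hne
    ext x
    rw [← hΦ']
    exact hle x.2
  obtain ⟨h1, h2, h3⟩ := ker_bounds_sub E J0 (D := D) (φ := Φ) hnle (fun P x hx hxP => by
    have h := hφ P ⟨x, hx⟩ hxP
    rw [← hΦ'] at h
    exact h)
  have h3' := h3 E.H0 le_rfl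
  have hr : (0 : ℝ) < finrank K J0 := by
    have : 0 < finrank K J0 := by omega
    exact_mod_cast this
  have h1' : ((E.sub J0).deg : ℝ) ≤ (E.sub (J0 ⊓ LinearMap.ker Φ)).deg + ddeg D := by
    exact_mod_cast h1
  have h2' : (finrank K ↥(J0 ⊓ LinearMap.ker Φ) : ℝ) + 1 = finrank K J0 := by exact_mod_cast h2
  have h3'' : (vd E.H0 J0 : ℝ) ≤ vd E.H0 (J0 ⊓ LinearMap.ker Φ) + (line D).h0 := by
    exact_mod_cast h3'
  generalize hs0 : (((E.sub J0).deg : ℝ) + α * vd E.H0 J0) / finrank K J0 = s at hmax hs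
  have hs1 : ((E.sub J0).deg : ℝ) + α * vd E.H0 J0 = s * finrank K J0 := by
    rw [← hs0]; field_simp
  have h4 : α * vd E.H0 J0 ≤ α * vd E.H0 (J0 ⊓ LinearMap.ker Φ) + α * (line D).h0 := by
    have := mul_le_mul_of_nonneg_left h3'' hα
    rw [mul_add] at this
    exact this
  have h5 : ((E.sub (J0 ⊓ LinearMap.ker Φ)).deg : ℝ) + α * vd E.H0 (J0 ⊓ LinearMap.ker Φ) ≤
      s * finrank K ↥(J0 ⊓ LinearMap.ker Φ) := by
    by_cases hb : J0 ⊓ LinearMap.ker Φ = ⊥
    · rw [hb, VB.deg_sub_bot, vd_bot, finrank_bot]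
      simp
    · have h6 := hmax _ hb
      have h7 : (0 : ℝ) < finrank K ↥(J0 ⊓ LinearMap.ker Φ) := by
        have : 0 < finrank K ↥(J0 ⊓ LinearMap.ker Φ) := by
          rw [Module.finrank_pos_iff]
          exact Submodule.nontrivial_iff_ne_bot.mpr hb
        exact_mod_cast this
      rwa [div_le_iff₀ h7] at h6
  have h8 : (finrank K ↥(J0 ⊓ LinearMap.ker Φ) : ℝ) = finrank K J0 - 1 := by linarith
  rw [h8] at h5
  nlinarith

end Pool.Agent.MP_09eaec.GG
end

section

/-!
# TASK LowerJ0: a subsystem with the largest number of sections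

`n = finrank K W ≥ 1`, `v = finrank k V`, `d = E.deg`. `V` is finite dimensional (`V ≤ E.H0`, `finite_H0`). Choose `J0` by
`exists_max_ratio`, `r0 = finrank K J0 ≥ 1`, `v0 = vd V J0`; (R) `vd V J * r0 ≤ v0 * finrank K J` for all `J ≠ ⊥`;
for `J = ⊤`: `v * r0 ≤ v0 * n` (`vd_top`), the first inequality.
* (1) `exists_J0`, last clause: let `D` be a divisor, `b = (line D).h0`, `b * n < v`. There is no
  nonzero `φ : J0 →ₗ K` mapping `E.sub J0` to `line D`: extend `φ` to `Φ : W →ₗ K` (`LinearMap.exists_extend`),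
  `¬ J0 ≤ ker Φ`; `ker_bounds_sub E J0`: `J' = J0 ⊓ ker Φ` has rank `r0 - 1` and `v0 ≤ vd V J' + b`. If `r0 = 1` then
  `J' = ⊥` (rank `0`), `v0 ≤ b`, but `v0 * n ≥ v > b * n`. If `r0 ≥ 2`, `J' ≠ ⊥`: (R) gives
  `(v0 - b) r0 ≤ v0 (r0 - 1)`, so `v0 ≤ b r0`; but `v0 n ≥ v r0 > b n r0`.
* (2) `exists_J0`, third clause: `(E.sub J0).deg * n ≤ d * r0`: for `J0 = ⊤` by `deg_sub_top`. Otherwise
  stability: `((E.sub J0).deg + α v0) n < (d + α v) r0` and `v r0 ≤ v0 n`, `α > 0`.
-/

set_option autoImplicit false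

namespace Pool.Agent.MP_09eaec.GG

open Module

universe u v

variable {k : Type u} {K : Type v} [Field k] [Field K] [Algebra k K]
variable {W : Type v} [AddCommGroup W] [Module K W] [Module k W] [IsScalarTower k K W]
variable {A : Type v} [AddCommGroup A] [Module K A] [Module k A] [IsScalarTower k K A]
variable {B : Type v} [AddCommGroup B] [Module K B] [Module k B] [IsScalarTower k K B]

variable [CurveG k K]

theorem exists_J0 [FiniteDimensional K W] {E : VB k K W} {V : Submodule k W}
    (hV : V ≤ E.H0) {α : ℝ} (hα : 0 < α) (hn : 1 ≤ finrank K W) (hst : E.StableSys α V) :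
    ∃ J0 : Submodule K W, J0 ≠ ⊥ ∧
      (finrank k V : ℤ) * finrank K J0 ≤ (vd V J0 : ℤ) * finrank K W ∧
      (E.sub J0).deg * finrank K W ≤ E.deg * finrank K J0 ∧
      ∀ (D : Dv k K), (line D).h0 * finrank K W < finrank k V →
        ∀ φ : J0 →ₗ[K] K, (∀ P x, x ∈ (E.sub J0).M P → φ x ∈ (line D).M P) → φ = 0 := by
  haveI : Nontrivial W := by
    apply Module.nontrivial_of_finrank_pos (R := K)
    omega
  obtain ⟨J0, hJ0, hR⟩ := exists_max_ratio (E := E) hV
  have hR1 : (finrank k V : ℤ) * finrank K J0 ≤ (vd V J0 : ℤ) * finrank K W := by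
    have h1 := hR ⊤ top_ne_bot
    rw [vd_top, finrank_top] at h1
    exact h1
  have hr0 : 1 ≤ finrank K J0 := Submodule.one_le_finrank_iff.2 hJ0
  refine ⟨J0, hJ0, hR1, ?_, ?_⟩
  · by_cases htop : J0 = ⊤
    · rw [htop, VB.deg_sub_top, finrank_top]
    · have h1 := hst J0 hJ0 htop
      have hr0' : (0 : ℝ) < finrank K J0 := by exact_mod_cast hr0
      have hn' : (0 : ℝ) < finrank K W := by exact_mod_cast hn
      rw [div_lt_div_iff₀ hr0' hn'] at h1
      have h2 : ((finrank k V : ℝ)) * finrank K J0 ≤ (vd V J0 : ℝ) * finrank K W := by exact_mod_cast hR1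
      have h3 : α * (((finrank k V : ℝ)) * finrank K J0) ≤ α * ((vd V J0 : ℝ) * finrank K W) :=
        mul_le_mul_of_nonneg_left h2 hα.le
      have h4 : ((E.sub J0).deg : ℝ) * finrank K W ≤ (E.deg : ℝ) * finrank K J0 := by
        have h5 : (((E.sub J0).deg : ℝ) + α * (vd V J0 : ℝ)) * finrank K W <
          ((E.deg : ℝ) + α * finrank k V) * finrank K J0 := h1
        nlinarith
      exact_mod_cast h4
  · intro D hD φ hφ
    by_contra hne
    obtain ⟨Φ, hΦ⟩ := φ.exists_extend
    have hJ : ¬ J0 ≤ LinearMap.ker Φ := by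
      intro h
      apply hne
      ext x
      rw [← hΦ]
      exact LinearMap.mem_ker.1 (h x.2)
    obtain ⟨-, h2, h3⟩ := ker_bounds_sub E J0 (D := D) hJ (fun P x hx hxP => by
      have h := hφ P ⟨x, hx⟩ hxP
      rw [← hΦ] at h
      exact h)
    have h4 := h3 V hV
    have hDp : (0 : ℤ) ≤ (line D).h0 := by
      unfold VB.h0
      exact Int.natCast_nonneg _
    by_cases hbot : J0 ⊓ LinearMap.ker Φ = ⊥
    · rw [hbot] at h4 h2
      rw [vd_bot] at h4
      rw [finrank_bot] at h2
      have h5 : (finrank K J0 : ℤ) = 1 := by omega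
      rw [h5] at hR1
      have h6 : ((vd V J0 : ℤ)) * finrank K W ≤ (line D).h0 * finrank K W :=
        mul_le_mul_of_nonneg_right (by simpa using h4) (Int.natCast_nonneg _)
      linarith
    · have h5 := hR (J0 ⊓ LinearMap.ker Φ) hbot
      have h2' : (finrank K ↥(J0 ⊓ LinearMap.ker Φ) : ℤ) = finrank K J0 - 1 := by omega
      rw [h2'] at h5
      have hr0' : (1 : ℤ) ≤ finrank K J0 := by exact_mod_cast hr0
      have hn' : (1 : ℤ) ≤ finrank K W := by exact_mod_cast hn
      -- (v0 - b) r0 ≤ v0 (r0 - 1)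
      have h6 : ((vd V J0 : ℤ) - (line D).h0) * finrank K J0 ≤ (vd V J0 : ℤ) * (finrank K J0 - 1) := by
        refine le_trans ?_ h5
        exact mul_le_mul_of_nonneg_right (by linarith) (by linarith)
      have h7 : (vd V J0 : ℤ) ≤ (line D).h0 * finrank K J0 := by linarith
      have h8 : (vd V J0 : ℤ) * finrank K W ≤ (line D).h0 * finrank K J0 * finrank K W :=
        mul_le_mul_of_nonneg_right h7 (by linarith)
      have h9 : (line D).h0 * finrank K W * finrank K J0 < (finrank k V : ℤ) * finrank K J0 :=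
        mul_lt_mul_of_pos_right hD (by linarith)
      linarith

end Pool.Agent.MP_09eaec.GG
end

section

/-!
# Quotients of minimal slope

`exists_min_quo`: the quotients of `E` of minimal slope and, among these, of minimal rank are stable.
-/

set_option autoImplicit false

namespace Pool.Agent.MP_09eaec.GG

open Module

universe u v

variable {k : Type u} {K : Type v} [Field k] [Field K] [Algebra k K]
variable {W : Type v} [AddCommGroup W] [Module K W] [Module k W] [IsScalarTower k K W]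

variable [CurveG k K]

theorem exists_min_quo [FiniteDimensional K W] [Nontrivial W] (E : VB k K W) :
    ∃ J : Submodule K W, J ≠ ⊤ ∧ (E.quo J).Stable ∧
      ∀ J' : Submodule K W, J' ≠ ⊤ →
        (E.quo J).deg * finrank K (W ⧸ J') ≤ (E.quo J').deg * finrank K (W ⧸ J) := by
  obtain ⟨C, hC⟩ := E.exists_bound
  have hpos : ∀ J : Submodule K W, J ≠ ⊤ → 1 ≤ finrank K (W ⧸ J) := by
    intro J hJ
    have : Nontrivial (W ⧸ J) := Submodule.Quotient.nontrivial_iff.2 hJ
    exact Module.finrank_pos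
  set f : Submodule K W → ℝ := fun J => ((E.quo J).deg : ℝ) / finrank K (W ⧸ J) with hf
  set g : ℕ × ℤ → ℝ := fun t => (t.2 : ℝ) / t.1 with hg
  have hle : ∀ J : Submodule K W, finrank K (W ⧸ J) ≤ finrank K W := fun J => by
    have := Submodule.finrank_quotient_add_finrank J
    omega
  set hi : ℤ := ⌈|f ⊥| * finrank K W⌉ with hhi
  let T : Set (ℕ × ℤ) := {t | ∃ J : Submodule K W, J ≠ ⊤ ∧
    t = (finrank K (W ⧸ J), (E.quo J).deg) ∧ f J ≤ f ⊥}
  have hTfin : T.Finite := by
    refine Set.Finite.subset ((Set.finite_Icc 0 (finrank K W)).prod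
      (Set.finite_Icc (E.deg - C) hi)) ?_
    rintro _ ⟨J, hJ, rfl, hfl⟩
    refine ⟨⟨Nat.zero_le _, hle J⟩, ?_, ?_⟩
    · have h1 := E.deg_add J
      have h2 := hC J
      show E.deg - C ≤ (E.quo J).deg
      omega
    · have h1 : (0 : ℝ) < finrank K (W ⧸ J) := by exact_mod_cast hpos J hJ
      have h2 : ((E.quo J).deg : ℝ) ≤ f ⊥ * finrank K (W ⧸ J) := by
        have h3 : ((E.quo J).deg : ℝ) / finrank K (W ⧸ J) ≤ f ⊥ := hfl
        rwa [div_le_iff₀ h1] at h3
      have h3 : (finrank K (W ⧸ J) : ℝ) ≤ finrank K W := by exact_mod_cast hle J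
      have h4 : f ⊥ * finrank K (W ⧸ J) ≤ |f ⊥| * finrank K W :=
        mul_le_mul (le_abs_self _) h3 h1.le (abs_nonneg _)
      have h5 : ((E.quo J).deg : ℝ) ≤ hi := (h2.trans h4).trans (Int.le_ceil _)
      show (E.quo J).deg ≤ hi
      exact_mod_cast h5
  have hbt : (⊥ : Submodule K W) ≠ ⊤ := bot_ne_top
  have hTne : T.Nonempty := ⟨_, ⊥, hbt, rfl, le_refl _⟩
  obtain ⟨t0, ht0, hmin0⟩ := Set.exists_min_image T g hTfin hTne
  let T' : Set (ℕ × ℤ) := {t | t ∈ T ∧ g t = g t0}
  have hT'fin : T'.Finite := hTfin.subset (fun t ht => ht.1)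
  obtain ⟨t1, ht1, hmin1⟩ := Set.exists_min_image T' (fun t => t.1) hT'fin ⟨t0, ht0, rfl⟩
  obtain ⟨⟨J1, hJ1, ht1e, hfl1⟩, hg1⟩ := ht1
  have hfJ1 : f J1 = g t1 := by rw [ht1e]
  -- minimality
  have hA : ∀ J : Submodule K W, J ≠ ⊤ → f J1 ≤ f J := by
    intro J hJ
    rcases le_total (f J) (f ⊥) with h | h
    · have h1 := hmin0 (finrank K (W ⧸ J), (E.quo J).deg) ⟨J, hJ, rfl, h⟩
      rw [hfJ1, hg1]
      exact h1
    · exact hfl1.trans h
  have hB : ∀ J : Submodule K W, J ≠ ⊤ → f J ≤ f J1 →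
      finrank K (W ⧸ J1) ≤ finrank K (W ⧸ J) := by
    intro J hJ h
    have h1 : f J = f J1 := le_antisymm h (hA J hJ)
    have h2 := hmin1 (finrank K (W ⧸ J), (E.quo J).deg)
      ⟨⟨J, hJ, rfl, h.trans hfl1⟩, by
        show f J = g t0
        rw [h1, hfJ1, hg1]⟩
    rw [ht1e] at h2
    exact h2
  refine ⟨J1, hJ1, ?_, ?_⟩
  · intro J' hJ'b hJ't
    set S : Submodule K W := J'.comap J1.mkQ with hS
    have hd := deg_quo_sub E J1 J'
    have hr := finrank_comap_mkQ J1 J'
    rw [← hS] at hd hr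
    have hr' : finrank K J' < finrank K (W ⧸ J1) := Submodule.finrank_lt hJ't
    have hrp : 0 < finrank K J' := by
      have : finrank K J' ≠ 0 := fun h => hJ'b (Submodule.finrank_eq_zero.mp h)
      omega
    have h1 := Submodule.finrank_quotient_add_finrank J1
    have h2 := Submodule.finrank_quotient_add_finrank S
    have hSt : S ≠ ⊤ := by
      intro h
      have h3 : finrank K S = finrank K W := by rw [h, finrank_top]
      omega
    have h4 : finrank K (W ⧸ S) + finrank K J' = finrank K (W ⧸ J1) := by omega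
    have h5 : ¬ f S ≤ f J1 := by
      intro h
      have := hB S hSt h
      omega
    have h6 : f J1 < f S := lt_of_not_ge h5
    have h7 : (E.quo S).deg = (E.quo J1).deg - ((E.quo J1).sub J').deg := by
      have h8 := E.deg_add J1
      have h9 := E.deg_add S
      omega
    have hp1 : (0 : ℝ) < finrank K (W ⧸ J1) := by exact_mod_cast hpos J1 hJ1
    have hp2 : (0 : ℝ) < finrank K (W ⧸ S) := by exact_mod_cast hpos S hSt
    have h10 : ((E.quo J1).deg : ℝ) * finrank K (W ⧸ S) <
        (E.quo S).deg * finrank K (W ⧸ J1) := by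
      have h11 : ((E.quo J1).deg : ℝ) / finrank K (W ⧸ J1) <
        ((E.quo S).deg : ℝ) / finrank K (W ⧸ S) := h6
      rwa [div_lt_div_iff₀ hp1 hp2] at h11
    have h12 : (E.quo J1).deg * (finrank K (W ⧸ S) : ℤ) <
        (E.quo S).deg * (finrank K (W ⧸ J1) : ℤ) := by exact_mod_cast h10
    have h13 : (finrank K (W ⧸ S) : ℤ) = finrank K (W ⧸ J1) - finrank K J' := by
      have : ((finrank K (W ⧸ S) + finrank K J' : ℕ) : ℤ) = (finrank K (W ⧸ J1) : ℕ) := by
        rw [h4]
      push_cast at this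
      linarith
    rw [h13, h7] at h12
    nlinarith [h12]
  · intro J' hJ'
    have h1 := hA J' hJ'
    have hp1 : (0 : ℝ) < finrank K (W ⧸ J1) := by exact_mod_cast hpos J1 hJ1
    have hp2 : (0 : ℝ) < finrank K (W ⧸ J') := by exact_mod_cast hpos J' hJ'
    have h11 : ((E.quo J1).deg : ℝ) / finrank K (W ⧸ J1) ≤
        ((E.quo J').deg : ℝ) / finrank K (W ⧸ J') := h1
    rw [div_le_div_iff₀ hp1 hp2] at h11
    exact_mod_cast h11

end Pool.Agent.MP_09eaec.GG
end

section

/-!
# TASK SysQuo: the stable quotient of minimal slope of an `α`-stable system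

* `finrank_image_le`: the image of `V ≤ H0 E` in `W ⧸ J` is contained in `H0 (E.quo J)` and has dimension `finrank V - vd V J`
  (rank-nullity for `J.mkQ` restricted to `V`, kernel `V ⊓ J`).
* `exists_sys_quo`: `J` from `exists_min_quo` (`W` is nontrivial: `finrank_pos_iff`). The second inequality is the minimality for
  `J' = ⊥`: `(E.quo ⊥).deg = E.deg` (`VB.deg_quo_bot`), `finrank (W ⧸ ⊥) = finrank W` (`Submodule.finrank_quotient_add_finrank`).
  First inequality, `n = finrank W`, `r = finrank J`, `v = finrank V`, `v' = vd V J`: by `finrank_image_le` it suffices that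
  `v (n - r) ≤ (v - v') n`, i.e. `v' n ≤ v r`. If `J = ⊥` both sides are `0` (`VB.vd_bot`). If `J ≠ ⊥`: stability
  `((E.sub J).deg + α v') n < (E.deg + α v) r`, and `(E.sub J).deg n ≥ E.deg r` by the second inequality (`VB.deg_add`), so
  `α v' n < α v r`.
-/

set_option autoImplicit false

namespace Pool.Agent.MP_09eaec.GG

open Module

universe u v

variable {k : Type u} {K : Type v} [Field k] [Field K] [Algebra k K]
variable {W : Type v} [AddCommGroup W] [Module K W] [Module k W] [IsScalarTower k K W]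

variable [CurveG k K]

theorem finrank_image_le [FiniteDimensional K W] {E : VB k K W} {V : Submodule k W}
    (hV : V ≤ E.H0) (J : Submodule K W) :
    (finrank k V : ℤ) ≤ (E.quo J).h0 + vd V J := by
  haveI : Module.Finite k V := Submodule.finiteDimensional_of_le hV
  let f : V →ₗ[k] (W ⧸ J) := (J.mkQ.restrictScalars k).comp V.subtype
  have h1 : finrank k (LinearMap.range f) + finrank k (LinearMap.ker f) = finrank k V :=
    LinearMap.finrank_range_add_finrank_ker f
  have h2 : LinearMap.range f ≤ (E.quo J).H0 := by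
    rintro _ ⟨x, rfl⟩
    exact VB.mem_H0.2 fun P => VB.mem_quo.2 ⟨x, VB.mem_H0.1 (hV x.2) P, rfl⟩
  have h3 : finrank k (LinearMap.range f) ≤ finrank k (E.quo J).H0 := Submodule.finrank_mono h2
  have h4 : (LinearMap.ker f).map V.subtype = V ⊓ J.restrictScalars k := by
    ext x
    rw [Submodule.mem_map, Submodule.mem_inf]
    constructor
    · rintro ⟨y, hy, rfl⟩
      refine ⟨y.2, ?_⟩
      have : J.mkQ (y : W) = 0 := LinearMap.mem_ker.1 hy
      rw [Submodule.restrictScalars_mem]
      exact (Submodule.Quotient.mk_eq_zero J).1 this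
    · rintro ⟨hx, hxJ⟩
      refine ⟨⟨x, hx⟩, ?_, rfl⟩
      rw [LinearMap.mem_ker]
      exact (Submodule.Quotient.mk_eq_zero J).2 hxJ
  have h5 : finrank k (LinearMap.ker f) = vd V J := by
    unfold vd
    rw [← h4]
    exact (Submodule.finrank_map_subtype_eq V (LinearMap.ker f)).symm
  unfold VB.h0
  rw [← h5, ← h1]
  push_cast
  have : (finrank k (LinearMap.range f) : ℤ) ≤ finrank k (E.quo J).H0 := by exact_mod_cast h3
  linarith

theorem exists_sys_quo [FiniteDimensional K W] {E : VB k K W} {V : Submodule k W}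
    (hV : V ≤ E.H0) {α : ℝ} (hα : 0 < α) (hn : 1 ≤ finrank K W) (hst : E.StableSys α V) :
    ∃ J : Submodule K W, J ≠ ⊤ ∧ (E.quo J).Stable ∧
      (finrank k V : ℤ) * finrank K (W ⧸ J) ≤ (E.quo J).h0 * finrank K W ∧
      (E.quo J).deg * finrank K W ≤ E.deg * finrank K (W ⧸ J) ∧
      ∀ J' : Submodule K W, J' ≠ ⊤ →
        (E.quo J).deg * finrank K (W ⧸ J') ≤ (E.quo J').deg * finrank K (W ⧸ J) := by
  haveI : Nontrivial W := by
    apply Module.nontrivial_of_finrank_pos (R := K)
    omega
  obtain ⟨J, hJ, hJst, hmin⟩ := exists_min_quo E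
  have hq := Submodule.finrank_quotient_add_finrank J
  have hq' : (finrank K (W ⧸ J) : ℤ) + finrank K J = finrank K W := by exact_mod_cast hq
  have hbq := Submodule.finrank_quotient_add_finrank (⊥ : Submodule K W)
  rw [finrank_bot, add_zero] at hbq
  have hB : (E.quo J).deg * finrank K W ≤ E.deg * finrank K (W ⧸ J) := by
    have h := hmin ⊥ bot_ne_top
    rw [VB.deg_quo_bot, hbq] at h
    exact h
  refine ⟨J, hJ, hJst, ?_, hB, hmin⟩
  have hn0 : (0 : ℤ) ≤ finrank K W := Int.natCast_nonneg _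
  have h1 := finrank_image_le hV J
  -- it suffices that `v' n ≤ v r`
  have key : (vd V J : ℤ) * finrank K W ≤ (finrank k V : ℤ) * finrank K J := by
    by_cases hb : J = ⊥
    · rw [hb, vd_bot, finrank_bot]
      simp
    · have h2 := hst J hb hJ
      have hr0 : 1 ≤ finrank K J := Submodule.one_le_finrank_iff.2 hb
      have hr0' : (0 : ℝ) < finrank K J := by exact_mod_cast hr0
      have hn' : (0 : ℝ) < finrank K W := by exact_mod_cast hn
      rw [div_lt_div_iff₀ hr0' hn'] at h2
      have h3 : (((E.sub J).deg : ℝ) + α * (vd V J : ℝ)) * finrank K W <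
          ((E.deg : ℝ) + α * finrank k V) * finrank K J := h2
      have h4 : E.deg * finrank K J ≤ (E.sub J).deg * finrank K W := by
        have h5 := VB.deg_add E J
        have h6 : (finrank K (W ⧸ J) : ℤ) = finrank K W - finrank K J := by linarith
        rw [h6] at hB
        have h7 : (E.quo J).deg = E.deg - (E.sub J).deg := by linarith
        rw [h7] at hB
        linarith
      have h4' : (E.deg : ℝ) * finrank K J ≤ ((E.sub J).deg : ℝ) * finrank K W := by
        exact_mod_cast h4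
      have h8 : α * ((vd V J : ℝ) * finrank K W) < α * ((finrank k V : ℝ) * finrank K J) := by
        linarith
      have h9 : (vd V J : ℝ) * finrank K W < (finrank k V : ℝ) * finrank K J :=
        lt_of_mul_lt_mul_left h8 hα.le
      have h10 : (vd V J : ℤ) * finrank K W < (finrank k V : ℤ) * finrank K J := by
        exact_mod_cast h9
      exact h10.le
  have h11 : (finrank k V : ℤ) * finrank K W ≤ ((E.quo J).h0 + vd V J) * finrank K W :=
    mul_le_mul_of_nonneg_right h1 hn0
  have h12 : (finrank K (W ⧸ J) : ℤ) = finrank K W - finrank K J := by linarith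
  rw [h12]
  linarith

end Pool.Agent.MP_09eaec.GG
end
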