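import Pool.Agent.Lib.MP_09eaec_ag.Mg.G008
import Pool.Agent.Lib.MP_09eaec_ag.Mg.G003
import Pool.Agent.Lib.MP_09eaec_ag.Mg.G005
import Pool.Agent.Lib.MP_09eaec_ag.Mg.G004
import Pool.Agent.Lib.MP_09eaec_ag.Mg.G009
import Pool.Agent.Lib.MP_09eaec_ag.GG.LineBasic
import Pool.Agent.Lib.MP_09eaec_ag.GG.Coh
import Pool.Agent.Lib.MP_09eaec_ag.Mg.G002
import Pool.Agent.Lib.MP_09eaec_ag.Mg.G006

section

/-!
# TASK D4: the two degrees agree

`(toVB E).deg = E.deg` for `E : Bundle k K n`. Induction on `n`.
`n = 0`: both are zero (determinant of the empty matrix is `1`).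
`n + 1`: exact sequence `0 → (Fin n → K) → (Fin (n+1) → K) → K → 0`, `i x = Fin.cons 0 x`,
`p x = x 0`. There are a `Bundle` `F` with `F.Mem P x ↔ E.Mem P (i x)` and a divisor `D` with
`y ∈ (line D).M P ↔ ∃ x, E.Mem P x ∧ p x = y`. By `deg_exact`, `deg_line` and the induction hypothesis
`(toVB E).deg = F.deg + ddeg D`. `E1` is the `Bundle` with block triangular matrices, it has the same
stalks as `E`.
-/

set_option autoImplicit false

namespace Pool.Agent.MP_09eaec.GG

open Module Matrix

universe u v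

variable {k : Type u} {K : Type v} [Field k] [Field K] [Algebra k K]
variable {W : Type v} [AddCommGroup W] [Module K W] [Module k W] [IsScalarTower k K W]
variable {A : Type v} [AddCommGroup A] [Module K A] [Module k A] [IsScalarTower k K A]
variable {B : Type v} [AddCommGroup B] [Module K B] [Module k B] [IsScalarTower k K B]

variable [CurveG k K]

/-- the inclusion of the last coordinates -/
private def DegToVB_i (K : Type v) [Field K] (n : ℕ) : (Fin n → K) →ₗ[K] (Fin (n + 1) → K) where
  toFun x := Fin.cons 0 x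
  map_add' x y := by
    funext j
    refine Fin.cases ?_ (fun i => ?_) j
    · simp
    · simp
  map_smul' c x := by
    funext j
    refine Fin.cases ?_ (fun i => ?_) j
    · simp
    · simp

/-- the first coordinate -/
private def DegToVB_p (K : Type v) [Field K] (n : ℕ) : (Fin (n + 1) → K) →ₗ[K] K := LinearMap.proj 0

/-- the last coordinates -/
private def DegToVB_t (K : Type v) [Field K] (n : ℕ) : (Fin (n + 1) → K) →ₗ[K] (Fin n → K) where
  toFun x := Fin.tail x
  map_add' _ _ := rfl
  map_smul' _ _ := rfl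

private lemma DegToVB_i_zero (n : ℕ) (x : Fin n → K) : DegToVB_i K n x 0 = 0 := rfl

private lemma DegToVB_i_succ (n : ℕ) (x : Fin n → K) (j : Fin n) : DegToVB_i K n x j.succ = x j := rfl

private lemma DegToVB_i_eq (n : ℕ) (x : Fin (n + 1) → K) (h : x 0 = 0) :
    DegToVB_i K n (DegToVB_t K n x) = x := by
  funext j
  refine Fin.cases ?_ (fun i => ?_) j
  · rw [DegToVB_i_zero, h]
  · rfl

/-- the subbundle -/
private def DegToVB_sub {n : ℕ} (E : VB k K (Fin (n + 1) → K)) : VB k K (Fin n → K) where
  M P := (E.M P).comap ((DegToVB_i K n).restrictScalars k)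
  smul_mem P c x hc hx := by
    have := E.smul_mem P c _ hc hx
    rw [Submodule.mem_comap]
    have e : ((DegToVB_i K n).restrictScalars k) (c • x) = c • ((DegToVB_i K n).restrictScalars k) x :=
      map_smul (DegToVB_i K n) c x
    rw [e]; exact this
  lower w := by
    obtain ⟨e, he⟩ := E.lower (DegToVB_i K n w)
    refine ⟨e, fun P c hc => ?_⟩
    rw [Submodule.mem_comap]
    have e : ((DegToVB_i K n).restrictScalars k) (c • w) = c • (DegToVB_i K n) w :=
      map_smul (DegToVB_i K n) c w
    rw [e]; exact he P c hc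
  upper φ := by
    obtain ⟨e, he⟩ := E.upper (φ ∘ₗ DegToVB_t K n)
    exact ⟨e, fun P x hx => he P _ hx⟩

private lemma DegToVB_ddeg (D : Dv k K) : ∑ᶠ P, D P = ddeg D := by
  rw [finsum_eq_sum_of_support_subset (s := D.support)]
  · rfl
  · intro P hP
    simpa using hP

private lemma DegToVB_det {n : ℕ} (z : Fin (n + 1) → K) (M : Matrix (Fin n) (Fin n) K) :
    (Matrix.of (fun a b : Fin (n + 1) => Fin.cases (z a) (fun b' => DegToVB_i K n (M.col b') a) b)).det
      = z 0 * M.det := by
  rw [Matrix.det_succ_row_zero, Finset.sum_eq_single (0 : Fin (n + 1))]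
  · simp only [Fin.val_zero, pow_zero, one_mul, Matrix.of_apply, Fin.cases_zero]
    congr 1
  · intro b _ hb
    obtain ⟨b', rfl⟩ := Fin.exists_succ_eq.mpr hb
    simp only [Matrix.of_apply, Fin.cases_succ, DegToVB_i_zero]
    ring
  · intro h; exact absurd (Finset.mem_univ _) h

theorem deg_toVB {n : ℕ} (E : Bundle k K n) : (toVB E).deg = E.deg := by
  classical
  induction n with
  | zero =>
    rw [VB.deg_of_finrank_zero _ (by simp)]
    unfold Bundle.deg
    have h : ∀ P : Place k K, P.ord (E.g P).det = 0 := by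
      intro P
      rw [Matrix.det_isEmpty, P.ord_one]
    rw [finsum_congr h, finsum_zero, neg_zero]
  | succ n ih =>
    set i := DegToVB_i K n with hi
    set p := DegToVB_p K n with hp
    obtain ⟨F, hF⟩ := exists_toVB_eq (DegToVB_sub (toVB E))
    have hp_surj : Function.Surjective p := by
      intro y
      exact ⟨Pi.single 0 y, by simp [hp, DegToVB_p]⟩
    obtain ⟨F2, hF2⟩ := VB.exists_image (toVB E) p hp_surj
    obtain ⟨D, hD⟩ := exists_eq_line F2
    have hFmem : ∀ P x, F.Mem P x ↔ E.Mem P (i x) := by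
      intro P x
      have h1 : x ∈ (toVB F).M P ↔ x ∈ (DegToVB_sub (toVB E)).M P := by rw [hF]
      exact h1
    have hDmem : ∀ P y, y ∈ P.filt (-D P) ↔ ∃ x, E.Mem P x ∧ x 0 = y := by
      intro P y
      have h1 : y ∈ (line D).M P ↔ y ∈ F2.M P := by rw [hD]
      rw [← mem_line, h1, hF2]
      rfl
    -- degree of toVB E
    have hdeg : (toVB E).deg = F.deg + ddeg D := by
      rw [← ih F, ← VB.deg_line D, ← hD]
      apply VB.deg_exact (toVB E) (toVB F) F2 i p
      · intro x y h
        funext j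
        have := congrFun h j.succ
        exact this
      · exact hp_surj
      · ext x
        rw [LinearMap.mem_range, LinearMap.mem_ker]
        constructor
        · rintro ⟨y, rfl⟩; rfl
        · intro h; exact ⟨DegToVB_t K n x, DegToVB_i_eq n x h⟩
      · intro P x; exact (hFmem P x).symm
      · intro P y; exact hF2 P y
    rw [hdeg]
    -- the vectors z_P
    have hz : ∀ P : Place k K, ∃ z : Fin (n + 1) → K, E.Mem P z ∧ z 0 ≠ 0 ∧ P.ord (z 0) = - D P ∧
        (E.g P = 1 → D P = 0 → z = Pi.single 0 1) := by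
      intro P
      by_cases h : E.g P = 1 ∧ D P = 0
      · refine ⟨Pi.single 0 1, ?_, by simp, ?_, fun _ _ => rfl⟩
        · intro j
          rw [h.1, inv_one, Matrix.one_mulVec, Pi.single_apply]
          split_ifs
          · exact P.isInt_one
          · exact P.isInt_zero
        · rw [Pi.single_eq_same, P.ord_one, h.2]; rfl
      · obtain ⟨t, ht, htm⟩ := exists_ord_eq P (-D P)
        obtain ⟨z, hz1, hz2⟩ := (hDmem P t).mp (Or.inr htm.ge)
        refine ⟨z, hz1, by rw [hz2]; exact ht, by rw [hz2]; exact htm, fun h1 h2 => ?_⟩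
        exact absurd ⟨h1, h2⟩ h
    choose z hz1 hz2 hz3 hz4 using hz
    set H : Place k K → Matrix (Fin (n + 1)) (Fin (n + 1)) K := fun P =>
      Matrix.of (fun a b : Fin (n + 1) => Fin.cases (z P a) (fun b' => i ((F.g P).col b') a) b) with hH
    have hHdet : ∀ P, (H P).det = z P 0 * (F.g P).det := fun P => DegToVB_det (z P) (F.g P)
    have hHne : ∀ P, (H P).det ≠ 0 := fun P => by
      rw [hHdet]; exact mul_ne_zero (hz2 P) (F.det_ne_zero P)
    have hHfin : {P | H P ≠ 1}.Finite := by
      apply ((E.finite.union F.finite).union D.support.finite_toSet).subset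
      intro P hP
      by_contra hcon
      simp only [Set.mem_union, Set.mem_setOf_eq, Finset.mem_coe, Finsupp.mem_support_iff, not_or,
        not_not] at hcon
      obtain ⟨⟨h1, h2⟩, h3⟩ := hcon
      apply hP
      ext a b
      rw [hH]
      simp only [Matrix.of_apply]
      rw [hz4 P h1 h3, h2]
      refine Fin.cases ?_ (fun b' => ?_) b
      · simp only [Fin.cases_zero]
        rw [Pi.single_apply, Matrix.one_apply]
      · simp only [Fin.cases_succ]
        refine Fin.cases ?_ (fun a' => ?_) a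
        · rw [hi, DegToVB_i_zero, Matrix.one_apply, if_neg (Fin.succ_ne_zero b').symm]
        · rw [hi, DegToVB_i_succ]
          simp [Matrix.one_apply]
    let E1 : Bundle k K (n + 1) := ⟨H, hHne, hHfin⟩
    have hE1g : ∀ P, E1.g P = H P := fun _ => rfl
    have hmulVec : ∀ (P : Place k K) (y : Fin (n + 1) → K),
        H P *ᵥ y = y 0 • z P + i (F.g P *ᵥ (fun b => y b.succ)) := by
      intro P y
      funext a
      rw [Matrix.mulVec, dotProduct, Fin.sum_univ_succ]
      simp only [hH, Matrix.of_apply, Fin.cases_zero, Fin.cases_succ, Pi.add_apply, Pi.smul_apply,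
        smul_eq_mul]
      congr 1
      · ring
      · refine Fin.cases ?_ (fun a' => ?_) a
        · rw [hi, DegToVB_i_zero]
          apply Finset.sum_eq_zero
          intro b _
          rw [DegToVB_i_zero, zero_mul]
        · rw [hi, DegToVB_i_succ, Matrix.mulVec, dotProduct]
          apply Finset.sum_congr rfl
          intro b _
          rw [DegToVB_i_succ]
          rfl
    have hE1le : ∀ P x, E1.Mem P x → E.Mem P x := by
      intro P x hx
      have e1 : x = H P *ᵥ ((H P)⁻¹ *ᵥ x) := by
        rw [Matrix.mulVec_mulVec, Matrix.mul_nonsing_inv _ (isUnit_iff_ne_zero.2 (hHne P)),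
          Matrix.one_mulVec]
      rw [e1, hmulVec]
      apply E.mem_add
      · exact E.mem_smul P (hz1 P) (hx 0)
      · rw [← hFmem]
        exact F.mem_mulVec P (fun b => hx b.succ)
    have hE1ge : ∀ P x, E.Mem P x → E1.Mem P x := by
      intro P x hx
      -- c = x 0 / z 0
      set c : K := x 0 / z P 0 with hc
      have hcint : P.IsInt c := by
        have h1 : x 0 ∈ P.filt (-D P) := (hDmem P (x 0)).mpr ⟨x, hx, rfl⟩
        by_cases h0 : x 0 = 0
        · rw [hc, h0, zero_div]; exact P.isInt_zero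
        · rcases h1 with h1 | h1
          · exact absurd h1 h0
          · right
            rw [hc, P.ord_div _ _ h0 (hz2 P), hz3 P]
            omega
      have h2 : E.Mem P (x + (-c) • z P) := E.mem_add P hx (E.mem_smul P (hz1 P) (P.isInt_neg hcint))
      have h3 : (x + (-c) • z P) 0 = 0 := by
        rw [Pi.add_apply, Pi.smul_apply, smul_eq_mul, hc]
        field_simp [hz2 P]
        ring
      set x' := DegToVB_t K n (x + (-c) • z P) with hx'
      have h4 : i x' = x + (-c) • z P := DegToVB_i_eq n _ h3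
      have h5 : F.Mem P x' := by rw [hFmem, h4]; exact h2
      set y : Fin (n + 1) → K := Fin.cons c ((F.g P)⁻¹ *ᵥ x') with hy
      have h6 : H P *ᵥ y = x := by
        rw [hmulVec]
        have e1 : (fun b : Fin n => y b.succ) = (F.g P)⁻¹ *ᵥ x' := by
          funext b; rw [hy, Fin.cons_succ]
        have e2 : y 0 = c := by rw [hy, Fin.cons_zero]
        rw [e1, e2, Matrix.mulVec_mulVec, Matrix.mul_nonsing_inv _ (F.isUnit_det P),
          Matrix.one_mulVec, h4]
        rw [neg_smul]
        abel
      have h7 : (H P)⁻¹ *ᵥ x = y := by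
        rw [← h6, Matrix.mulVec_mulVec, Matrix.nonsing_inv_mul _ (isUnit_iff_ne_zero.2 (hHne P)),
          Matrix.one_mulVec]
      intro j
      rw [hE1g, h7]
      refine Fin.cases ?_ (fun b => ?_) j
      · rw [hy, Fin.cons_zero]; exact hcint
      · rw [hy, Fin.cons_succ]; exact h5 b
    haveI := Curve.closed (k := k) (K := K)
    haveI := Curve.char (k := k) (K := K)
    have h8 : E.deg = E1.deg := deg_eq_of_whole (Curve.curve (k := k) (K := K)) E E1 LinearMap.id
      Function.injective_id (fun P x hx => hE1le P x hx) (fun P y hy => ⟨y, hE1ge P y hy, rfl⟩)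
    rw [h8]
    unfold Bundle.deg
    have h9 : ∀ P : Place k K, P.ord (E1.g P).det = - D P + P.ord (F.g P).det := by
      intro P
      rw [hE1g, hHdet, P.ord_mul _ _ (hz2 P) (F.det_ne_zero P), hz3 P]
    have hDfs : Function.HasFiniteSupport (fun P : Place k K => - D P) := by
      apply D.support.finite_toSet.subset
      intro P hP
      simpa using hP
    rw [finsum_congr h9, finsum_add_distrib hDfs F.hasFiniteSupport]
    have h10 : ∑ᶠ P : Place k K, - D P = - ddeg D := by
      rw [← DegToVB_ddeg, finsum_neg_distrib]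
    rw [h10]
    ring

end Pool.Agent.MP_09eaec.GG
end

section

/-!
# TASK D5: the two notions of `α`-stability

* `exists_sub_bundle`: for `J ≤ Fin n → K` of rank `m` choose `f : (Fin m → K) ≃ₗ[K] J`
  (`LinearEquiv.ofFinrankEq`); `((toVB E).sub J).map f.symm = toVB F` for a `Bundle` `F`
  (`exists_toVB_eq`); `j = J.subtype ∘ f`. `F.deg = ((toVB E).sub J).deg` by `deg_toVB`, `deg_map`.
* `stableSys_of_isStable`: for `J ≠ ⊥, ⊤` apply `IsStable` to this `F, j`, and `W = V ⊓ J`. It is a
  subsystem (`w ∈ V ⊓ J`: `w = j x`, `x = f.symm w`, and `F.Mem P x ↔ E.Mem P w`, true by `IsSystem`), it is not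
  whole: otherwise `J` would contain all stalks of `E`, whose `K`-span is everything (`VB.lower`).
* `isStable_of_stableSys`: let `(m, F, j, W')` be a subsystem, `0 < m`, not whole. `J = range j`, rank
  `m`; `(toVB F).map (iso onto J) ≤ (toVB E).sub J`, so `F.deg ≤ ((toVB E).sub J).deg` (`deg_toVB`, `deg_map`,
  `deg_le_of_le`). `W' ≤ V ⊓ J`, so `finrank W' ≤ finrank (V ⊓ J)` (finite dimension: `V ≤ H0`). If `J ≠ ⊤`: done
  by `StableSys`. If `J = ⊤`: `m = n`, `F.deg ≤ E.deg`, `finrank W' ≤ finrank V`, and not both equal: otherwise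
  `W' = V` and (`eq_of_le_of_deg_le`) the stalks agree, so the subsystem is whole. With `α > 0` the
  inequality is strict.
-/

set_option autoImplicit false

namespace Pool.Agent.MP_09eaec.GG

open Module

universe u v

variable {k : Type u} {K : Type v} [Field k] [Field K] [Algebra k K]
variable {W : Type v} [AddCommGroup W] [Module K W] [Module k W] [IsScalarTower k K W]
variable {A : Type v} [AddCommGroup A] [Module K A] [Module k A] [IsScalarTower k K A]
variable {B : Type v} [AddCommGroup B] [Module K B] [Module k B] [IsScalarTower k K B]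

variable [CurveG k K]

theorem stableSys_of_isStable {n : ℕ} {α : ℝ} {E : Bundle k K n} {V : Submodule k (Fin n → K)}
    (hV : IsSystem E V) (h : IsStable α E V) : (toVB E).StableSys α V := by
  classical
  intro J hJ1 hJ2
  have hm : 0 < finrank K J := by
    rw [Nat.pos_iff_ne_zero]
    intro h0
    exact hJ1 (Submodule.finrank_eq_zero.1 h0)
  let f : (Fin (finrank K J) → K) ≃ₗ[K] J :=
    LinearEquiv.ofFinrankEq _ _ (by rw [Module.finrank_fin_fun])
  obtain ⟨F, hF⟩ := exists_toVB_eq (((toVB E).sub J).map f.symm)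
  let j : (Fin (finrank K J) → K) →ₗ[K] (Fin n → K) := J.subtype ∘ₗ f.toLinearMap
  have hmem : ∀ P x, F.Mem P x ↔ E.Mem P (j x) := by
    intro P x
    rw [← mem_toVB, hF, VB.mem_map]
    exact Iff.rfl
  have hsub : IsSubsystem E V F j (V ⊓ J.restrictScalars k) := by
    refine ⟨?_, fun P x hx => (hmem P x).1 hx, inf_le_left, ?_⟩
    · exact J.injective_subtype.comp f.injective
    · rintro w ⟨hw1, hw2⟩
      have hjw : j (f.symm ⟨w, hw2⟩) = w := by
        show ((f (f.symm ⟨w, hw2⟩) : J) : Fin n → K) = w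
        rw [f.apply_symm_apply]
      refine ⟨f.symm ⟨w, hw2⟩, hjw, fun P => ?_⟩
      rw [hmem, hjw]
      exact hV w hw1 P
  have hnw : ¬ IsWhole E V F j (V ⊓ J.restrictScalars k) := by
    rintro ⟨h1, _⟩
    apply hJ2
    rw [eq_top_iff]
    intro w _
    obtain ⟨e, he⟩ := (toVB E).lower w
    obtain ⟨P⟩ := (infinite_places (k := k) (K := K)).nonempty
    obtain ⟨t, ht, htm⟩ := exists_ord_eq P (e P)
    obtain ⟨x, _, hx⟩ := h1 P _ (he P t (Or.inr htm.ge))
    have h3 : t • w ∈ J := by
      rw [← hx]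
      exact (f x).2
    exact (J.smul_mem_iff ht).1 h3
  have h4 := h _ F j _ hm hsub hnw
  have h5 : F.deg = ((toVB E).sub J).deg := by
    rw [← deg_toVB, hF, VB.deg_map]
  rw [h5, ← deg_toVB E] at h4
  rw [Module.finrank_fin_fun]
  exact h4

theorem isStable_of_stableSys {n : ℕ} {α : ℝ} (hα : 0 < α) {E : Bundle k K n}
    {V : Submodule k (Fin n → K)} (hn : 0 < n) (hV : IsSystem E V)
    (h : (toVB E).StableSys α V) : IsStable α E V := by
  classical
  intro m F j W' hm hsub hnw
  let f : (Fin m → K) ≃ₗ[K] LinearMap.range j := LinearEquiv.ofInjective j hsub.injective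
  have hfj : ∀ x, ((f x : LinearMap.range j) : Fin n → K) = j x := fun x => rfl
  have hrk : finrank K (LinearMap.range j) = m := by
    rw [LinearMap.finrank_range_of_inj hsub.injective, Module.finrank_fin_fun]
  have hle : (toVB F).map f ≤ (toVB E).sub (LinearMap.range j) := by
    intro P y hy
    obtain ⟨x, hx, rfl⟩ := hy
    exact hsub.map_mem P x hx
  have hdeg : F.deg ≤ ((toVB E).sub (LinearMap.range j)).deg := by
    have := VB.deg_le_of_le hle
    rwa [VB.deg_map, deg_toVB] at this
  have hVH : V ≤ (toVB E).H0 := fun v hv => VB.mem_H0.2 fun P => hV v hv P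
  have hVfin : Module.Finite k V := Submodule.finiteDimensional_of_le hVH
  have hW'le : W' ≤ V ⊓ (LinearMap.range j).restrictScalars k := by
    intro w hw
    obtain ⟨x, hx, _⟩ := hsub.sections w hw
    exact ⟨hsub.le hw, ⟨x, hx⟩⟩
  have hfin2 : Module.Finite k ↥(V ⊓ (LinearMap.range j).restrictScalars k) :=
    Submodule.finiteDimensional_of_le inf_le_left
  have hrank : finrank k W' ≤ finrank k ↥(V ⊓ (LinearMap.range j).restrictScalars k) :=
    Submodule.finrank_mono hW'le
  have hmR : (0 : ℝ) < m := by exact_mod_cast hm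
  by_cases hJ : LinearMap.range j = ⊤
  · -- the subsystem has full rank
    have hmn : m = n := by
      rw [← hrk, hJ, finrank_top, Module.finrank_fin_fun]
    have hdegE : F.deg ≤ E.deg := by
      rw [hJ, VB.deg_sub_top, deg_toVB] at hdeg
      exact hdeg
    have hrkV : finrank k W' ≤ finrank k V := Submodule.finrank_mono hsub.le
    have hne : ¬ (F.deg = E.deg ∧ finrank k W' = finrank k V) := by
      rintro ⟨h1, h2⟩
      apply hnw
      refine ⟨?_, Submodule.eq_of_le_of_finrank_eq hsub.le h2⟩
      have h3 : (toVB F).map f = (toVB E).sub (LinearMap.range j) := by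
        refine VB.eq_of_le_of_deg_le hle ?_
        rw [VB.deg_map, deg_toVB, h1, ← deg_toVB E, ← VB.deg_sub_top (toVB E)]
        refine le_of_eq ?_
        rw [hJ]
      intro P y hy
      have hyJ : y ∈ LinearMap.range j := by rw [hJ]; trivial
      have h4 : (⟨y, hyJ⟩ : LinearMap.range j) ∈ ((toVB F).map f).M P := by
        rw [h3]; exact hy
      obtain ⟨x, hx, hx2⟩ := h4
      exact ⟨x, hx, congrArg Subtype.val hx2⟩
    have hlt : (F.deg : ℝ) + α * finrank k W' < (E.deg : ℝ) + α * finrank k V := by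
      have e1 : (F.deg : ℝ) ≤ E.deg := by exact_mod_cast hdegE
      have e2 : (finrank k W' : ℝ) ≤ finrank k V := by exact_mod_cast hrkV
      rcases lt_or_eq_of_le hdegE with h1 | h1
      · have e3 : (F.deg : ℝ) < E.deg := by exact_mod_cast h1
        nlinarith
      · rcases lt_or_eq_of_le hrkV with h2 | h2
        · have e3 : (finrank k W' : ℝ) < finrank k V := by exact_mod_cast h2
          nlinarith
        · exact absurd ⟨h1, h2⟩ hne
    have hmnR : (m : ℝ) = n := by exact_mod_cast hmn
    rw [hmnR] at hmR ⊢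
    exact div_lt_div_of_pos_right hlt hmR
  · have hbot : LinearMap.range j ≠ ⊥ := by
      intro h0
      rw [h0, finrank_bot] at hrk
      omega
    have h1 := h _ hbot hJ
    rw [Module.finrank_fin_fun, hrk, deg_toVB] at h1
    refine lt_of_le_of_lt ?_ h1
    refine div_le_div_of_nonneg_right ?_ hmR.le
    have e1 : (F.deg : ℝ) ≤ ((toVB E).sub (LinearMap.range j)).deg := by exact_mod_cast hdeg
    have e2 : (finrank k W' : ℝ) ≤ finrank k ↥(V ⊓ (LinearMap.range j).restrictScalars k) := by
      exact_mod_cast hrank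
    have e3 := mul_le_mul_of_nonneg_left e2 hα.le
    linarith

end Pool.Agent.MP_09eaec.GG
end

section

/-!
# Genus 3: definitions

* `NonHyp`: no line bundle of degree two has two sections.
* `ds D`: the direct sum of the line bundles `line (D i)`.
* `exk`: the excess of a subspace, with a marked vector.
-/

set_option autoImplicit false

namespace Pool.Agent.MP_09eaec.GG.G3

open Module

universe u v

variable {k : Type u} {K : Type v} [Field k] [Field K] [Algebra k K]
variable {W : Type v} [AddCommGroup W] [Module K W] [Module k W] [IsScalarTower k K W]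
variable {A : Type v} [AddCommGroup A] [Module K A] [Module k A] [IsScalarTower k K A]
variable {B : Type v} [AddCommGroup B] [Module K B] [Module k B] [IsScalarTower k K B]

/-- The curve is not hyperelliptic: line bundles of degree two have at most one section. -/
def NonHyp (k : Type u) (K : Type v) [Field k] [Field K] [Algebra k K] [Curve k K] : Prop :=
  ∀ D : Dv k K, ddeg D = 2 → (line D : VB k K K).h0 ≤ 1

/-- The direct sum of the line bundles `line (D i)`. -/
noncomputable def ds [Curve k K] {n : ℕ} (D : Fin n → Dv k K) : VB k K (Fin n → K) where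
  M P :=
    { carrier := {x | ∀ i, x i ∈ P.filt (-D i P)}
      add_mem' := fun ha hb i => add_mem (ha i) (hb i)
      zero_mem' := fun i => zero_mem _
      smul_mem' := fun c x hx i => (P.filt (-D i P)).smul_mem c (hx i) }
  smul_mem P c x hc hx i := by
    have := mul_mem_filt P hc (hx i)
    simpa using this
  lower w := by
    obtain ⟨e, he⟩ := exists_ub (fun i => (-(D i + dv (w i)) : Dv k K))
    refine ⟨e, fun P c hc i => ?_⟩
    by_cases hw : w i = 0
    · simp [hw]
    have h1 := mul_mem_filt P hc (Or.inr le_rfl : w i ∈ P.filt (P.ord (w i)))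
    refine filt_mono P ?_ h1
    have := he i P
    simp only [Finsupp.coe_neg, Pi.neg_apply, Finsupp.coe_add, Pi.add_apply, dv_apply] at this
    omega
  upper φ := by
    obtain ⟨e, he⟩ := exists_lb (fun i => (dv (φ (Pi.single i 1)) - D i : Dv k K))
    refine ⟨e, fun P x hx => ?_⟩
    have h1 : φ x = ∑ i, x i * φ (Pi.single i 1) := by
      conv_lhs => rw [← Finset.univ_sum_single x, map_sum]
      refine Finset.sum_congr rfl fun i _ => ?_
      have h2 : (Pi.single i (x i) : Fin n → K) = x i • Pi.single i 1 := by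
        rw [← Pi.single_smul', smul_eq_mul, mul_one]
      rw [h2, map_smul, smul_eq_mul]
    rw [h1]
    refine Submodule.sum_mem _ fun i _ => ?_
    have h2 := mul_mem_filt P (hx i)
      (Or.inr le_rfl : φ (Pi.single i 1) ∈ P.filt (P.ord (φ (Pi.single i 1))))
    refine filt_mono P ?_ h2
    have := he i P
    simp only [Finsupp.coe_sub, Pi.sub_apply, dv_apply] at this
    omega

lemma mem_ds [Curve k K] {n : ℕ} {D : Fin n → Dv k K} {P : Place k K} {x : Fin n → K} :
    x ∈ (ds D).M P ↔ ∀ i, x i ∈ P.filt (-D i P) := Iff.rfl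

open Classical in
/-- The excess `deg + μ rank` of a subspace, plus `c` if it contains the marked vector `s0`. -/
noncomputable def exk [Curve k K] (μ c : ℝ) (s0 : A) (X : VB k K A) (J : Submodule K A) : ℝ :=
  ((X.sub J).deg : ℝ) + μ * finrank K J + (if s0 ∈ J then c else 0)

lemma exk_of_mem [Curve k K] {μ c : ℝ} {s0 : A} {X : VB k K A} {J : Submodule K A} (h : s0 ∈ J) :
    exk μ c s0 X J = ((X.sub J).deg : ℝ) + μ * finrank K J + c := by
  unfold exk
  rw [if_pos h]

lemma exk_of_notMem [Curve k K] {μ c : ℝ} {s0 : A} {X : VB k K A} {J : Submodule K A}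
    (h : s0 ∉ J) : exk μ c s0 X J = ((X.sub J).deg : ℝ) + μ * finrank K J := by
  unfold exk
  rw [if_neg h, add_zero]

/-- All nonzero subspaces have negative excess. -/
def NegK [Curve k K] (μ c : ℝ) (s0 : A) (X : VB k K A) : Prop :=
  ∀ J : Submodule K A, J ≠ ⊥ → exk μ c s0 X J < 0

/-- `q` maps `X` onto `line D`, the excess of `X` is `ρ`, and the proper subspaces which are not
contained in the kernel of `q` have an excess `< ρ`. -/
structure TopK [Curve k K] (μ c ρ : ℝ) (s0 : A) (X : VB k K A) (q : A →ₗ[K] K) (D : Dv k K) :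
    Prop where
  img : ∀ P y, y ∈ (line D).M P ↔ ∃ x ∈ X.M P, q x = y
  tot : exk μ c s0 X ⊤ = ρ
  top : ∀ J : Submodule K A, J ≠ ⊤ → ¬ J ≤ LinearMap.ker q → exk μ c s0 X J < ρ

/-- All proper nonzero subspaces have negative excess. -/
def PropK [Curve k K] (μ c : ℝ) (s0 : A) (X : VB k K A) : Prop :=
  ∀ J : Submodule K A, J ≠ ⊥ → J ≠ ⊤ → exk μ c s0 X J < 0

/-- The bundle `G` used for the odd case: `s0` spans a copy of `line κ`, the degree is
`(3 m + 1) x + 4`, the rank `m + 1`, and all proper subspaces have negative excess. -/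
structure GoodG [Curve k K] (κ : Dv k K) (x : ℝ) (m : ℕ) (G : VB k K A) (s0 : A) : Prop where
  rank : finrank K A = m + 1
  ne : s0 ≠ 0
  mark : ∀ (P : Place k K) (c : K), c • s0 ∈ G.M P ↔ c ∈ (line κ).M P
  deg : (G.deg : ℝ) = (3 * m + 1) * x + 4
  neg : PropK (-3 * x) (2 * x - 4) s0 G

end Pool.Agent.MP_09eaec.GG.G3
end

section

/-!
# TASK StabVan: vanishing for stable bundles

`r = finrank K W ≥ 1`, `Q` stable, `δ = Q.deg`.
* `stable_twist_bot`: `δ < r ddeg D`: `twist_H0_bot`; for `J` of rank one: if `J = ⊤` then `r = 1` and `(Q.sub J).deg = δ` (`VB.deg_sub_top`),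
  otherwise `r (Q.sub J).deg < δ`.
* `stable_hom_zero`: `r ddeg D < δ`: `φ ≠ 0` in `H0 (hom Q (line D))`; `ker_bounds` (SysDefs.lean), `J = ker φ` of rank `r - 1`,
  `δ ≤ (Q.sub J).deg + ddeg D`. If `J = ⊥` then `r = 1`, `(Q.sub J).deg = 0` (`VB.deg_sub_bot`), `δ ≤ ddeg D`; otherwise
  `r (Q.sub J).deg < (r - 1) δ`, so `r δ < (r - 1) δ + r ddeg D`. Contradiction in both cases. So the bundle has no sections, `h0 = 0`.
* `stable_neg`: `δ < 0`: `stable_twist_bot` for `D = 0` (`neg_zero`, `VB.twist_zero`).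
-/

set_option autoImplicit false

namespace Pool.Agent.MP_09eaec.GG

open Module

universe u v

variable {k : Type u} {K : Type v} [Field k] [Field K] [Algebra k K]
variable {W : Type v} [AddCommGroup W] [Module K W] [Module k W] [IsScalarTower k K W]

variable [CurveG k K]

theorem stable_twist_bot [FiniteDimensional K W] {Q : VB k K W} (hQ : Q.Stable)
    (hr : 1 ≤ finrank K W) {D : Dv k K} (h : Q.deg < finrank K W * ddeg D) :
    (Q.twist (-D)).H0 = ⊥ := by
  apply twist_H0_bot
  intro J hJ
  by_cases hJT : J = ⊤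
  · subst hJT
    rw [finrank_top] at hJ
    rw [hJ, Nat.cast_one, one_mul] at h
    rw [VB.deg_sub_top]
    exact h
  · have hJ0 : J ≠ ⊥ := by
      rintro rfl
      rw [finrank_bot] at hJ
      exact absurd hJ (by norm_num)
    have h1 := hQ J hJ0 hJT
    rw [hJ, Nat.cast_one, one_mul] at h1
    have h2 : (0 : ℤ) ≤ finrank K W := Int.natCast_nonneg _
    exact lt_of_mul_lt_mul_left (h1.trans h) h2

theorem stable_hom_zero [FiniteDimensional K W] {Q : VB k K W} (hQ : Q.Stable)
    (hr : 1 ≤ finrank K W) {D : Dv k K} (h : finrank K W * ddeg D < Q.deg) :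
    (hom Q (line D)).h0 = 0 := by
  have hbot : (hom Q (line D)).H0 = ⊥ := by
    rw [Submodule.eq_bot_iff]
    intro φ hφ
    by_contra hφ0
    obtain ⟨h1, h2, -⟩ := ker_bounds (E := Q) (D := D) hφ0
      (fun P x hx => VB.mem_H0.1 hφ P x hx)
    have hr' : (1 : ℤ) ≤ finrank K W := by exact_mod_cast hr
    by_cases hJ : LinearMap.ker φ = ⊥
    · rw [hJ, finrank_bot] at h2
      rw [hJ, VB.deg_sub_bot] at h1
      have h3 : (finrank K W : ℤ) = 1 := by
        push_cast at h2
        linarith
      rw [h3, one_mul] at h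
      linarith
    · have hJT : LinearMap.ker φ ≠ ⊤ := fun hT => hφ0 (LinearMap.ker_eq_top.1 hT)
      have h3 := hQ _ hJ hJT
      rw [h2] at h3
      have h4 := mul_le_mul_of_nonneg_left h1 (by linarith : (0 : ℤ) ≤ finrank K W)
      nlinarith
  rw [VB.h0, hbot, finrank_bot]
  rfl

theorem stable_neg [FiniteDimensional K W] {Q : VB k K W} (hQ : Q.Stable)
    (hr : 1 ≤ finrank K W) (h : Q.deg < 0) : Q.h0 = 0 := by
  have h1 := stable_twist_bot hQ hr (D := 0) (by rw [ddeg_zero, mul_zero]; exact h)
  rw [neg_zero, VB.twist_zero] at h1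
  rw [VB.h0, h1, finrank_bot]
  rfl

end Pool.Agent.MP_09eaec.GG
end

section

/-!
# TASK MulV: multiplication by the differentials

* `mul_V`: the map `(Fin γ → V) → (E.twist κ).H0`, `s ↦ ∑ ω a • s a`, is injective; `ω a • s a` is a section of
  `E.twist κ` (`mem_twist`, `mul` of `P.filt`; compare `smul_mem_H0_of_twist`).
* `h0_twist_canon`: `VB.rr` for `E.twist κ`, `deg_twist`, `h1 (E.twist κ) = 0` by `h1_twist_hom`.
-/

set_option autoImplicit false

namespace Pool.Agent.MP_09eaec.GG.G3

open Module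

universe u v

variable {k : Type u} {K : Type v} [Field k] [Field K] [Algebra k K]
variable {W : Type v} [AddCommGroup W] [Module K W] [Module k W] [IsScalarTower k K W]
variable {A : Type v} [AddCommGroup A] [Module K A] [Module k A] [IsScalarTower k K A]
variable {B : Type v} [AddCommGroup B] [Module K B] [Module k B] [IsScalarTower k K B]

variable [CurveG k K]

private theorem MulV_mem {κ : Dv k K} {E : VB k K W} {ω : K} (hω : ω ∈ (line κ).H0) {x : W}
    (hx : x ∈ E.H0) : ω • x ∈ (E.twist κ).H0 := by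
  rw [VB.mem_H0]
  intro P
  obtain ⟨t, ht, htm⟩ := exists_ord_eq P (κ P)
  rw [VB.mem_twist_iff ht htm, smul_smul]
  refine E.smul_mem P _ _ ?_ (VB.mem_H0.1 hx P)
  have h1 := mul_mem_filt P (a := κ P) (b := -κ P) (x := t) (y := ω)
    (Or.inr htm.ge) (mem_line.1 (VB.mem_H0.1 hω P))
  simpa using h1

theorem mul_V {κ : Dv k K} [FiniteDimensional K W] (E : VB k K W) {V : Submodule k W}
    (hV : V ≤ E.H0) {γ : ℕ} (ω : Fin γ → K) (hω : ∀ a, ω a ∈ (line κ).H0)
    (hinj : ∀ s : Fin γ → W, (∀ a, s a ∈ V) → ∑ a, ω a • s a = 0 → s = 0) :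
    (γ : ℤ) * finrank k V ≤ (E.twist κ).h0 := by
  let T : (Fin γ → V) →ₗ[k] (E.twist κ).H0 :=
    { toFun := fun s => ⟨∑ a, ω a • (s a : W),
        Submodule.sum_mem _ fun a _ => MulV_mem (hω a) (hV (s a).2)⟩
      map_add' := fun s t => by
        apply Subtype.ext
        show ∑ a, ω a • ((s a : W) + (t a : W)) = ∑ a, ω a • (s a : W) + ∑ a, ω a • (t a : W)
        rw [← Finset.sum_add_distrib]
        exact Finset.sum_congr rfl fun a _ => smul_add _ _ _
      map_smul' := fun c s => by
        apply Subtype.ext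
        show ∑ a, ω a • (c • (s a : W)) = c • ∑ a, ω a • (s a : W)
        rw [Finset.smul_sum]
        exact Finset.sum_congr rfl fun a _ => smul_comm _ _ _ }
  have hT : Function.Injective T := by
    rw [injective_iff_map_eq_zero]
    intro s hs
    have h1 : ∑ a, ω a • (s a : W) = 0 := congrArg Subtype.val hs
    have h2 := hinj (fun a => (s a : W)) (fun a => (s a).2) h1
    funext a
    apply Subtype.ext
    exact congrFun h2 a
  have hfin : Module.Finite k V := Module.Finite.of_injective (Submodule.inclusion hV)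
    (Submodule.inclusion_injective hV)
  have h3 := LinearMap.finrank_le_finrank_of_injective hT
  rw [Module.finrank_pi_fintype] at h3
  simp only [Finset.sum_const, Finset.card_univ, Fintype.card_fin, smul_eq_mul] at h3
  unfold VB.h0
  exact_mod_cast h3

theorem h0_twist_canon {κ : Dv k K} (hκ : IsCanonical κ) [FiniteDimensional K W] {E : VB k K W}
    (h : ∀ φ : W →ₗ[K] K, (∀ P x, x ∈ E.M P → φ x ∈ (line 0).M P) → φ = 0) :
    (E.twist κ).h0 = E.deg + (gen k K - 1) * finrank K W := by
  have h1 : (E.twist κ).h1 = 0 := by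
    rw [hκ.dual W (E.twist κ)]
    have h2 : (hom (E.twist κ) (line κ)).H0 = ⊥ := by
      rw [Submodule.eq_bot_iff]
      intro φ hφ
      apply h
      intro P x hx
      obtain ⟨t, ht, htm⟩ := exists_ord_eq P (-κ P)
      have h3 : t • x ∈ (E.twist κ).M P := by
        obtain ⟨s, hs, hsm⟩ := exists_ord_eq P (κ P)
        rw [VB.mem_twist_iff hs hsm, smul_smul]
        refine E.smul_mem P _ _ (Or.inr ?_) hx
        rw [P.ord_mul _ _ hs ht, htm, hsm]
        omega
      have h4 := mem_hom.1 (VB.mem_H0.1 hφ P) _ h3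
      rw [map_smul, smul_eq_mul, mem_line] at h4
      rw [mem_line]
      have h5 := mem_filt_iff_of_ord P ht htm (x := φ x) 0
      rw [zero_add] at h5
      have h6 : φ x ∈ P.filt 0 := h5.1 h4
      simpa using h6
    unfold VB.h0
    rw [h2, finrank_bot]
    rfl
  have h2 := VB.rr (E.twist κ)
  rw [h1, VB.deg_twist, hκ.ddeg] at h2
  rw [h2]
  ring

end Pool.Agent.MP_09eaec.GG.G3
end

section

/-!
# TASK NullLine: splitting of extensions of a line bundle

`u P = (y ↦ y • a P)` (`Finsupp.mapRange` of `a : Place →₀ A`). `Null X J F u` for `F = (line D).sub ⊤`: a `K`-linear map `σ` from `K` (the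
subspace `⊤` of `K`) to `A ⧸ J`, determined by `w = σ 1`, with `mkQ (y • a P) - y • w ∈ (X.quo J).M P` for all `y ∈ (line D).M P`, i.e.
`a' P - w ∈ ((X.quo J).twist (-D)).M P`, `a' = a.mapRange mkQ` (`mem_twist_iff`). For `J = ⊥` the quotient is `A` itself.
Compare `null_ker_iff` (GG/IntNull) and `null_iff` (GG/Generic).
-/

set_option autoImplicit false

namespace Pool.Agent.MP_09eaec.GG.G3

open Module

universe u v

variable {k : Type u} {K : Type v} [Field k] [Field K] [Algebra k K]
variable {W : Type v} [AddCommGroup W] [Module K W] [Module k W] [IsScalarTower k K W]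
variable {A : Type v} [AddCommGroup A] [Module K A] [Module k A] [IsScalarTower k K A]
variable {B : Type v} [AddCommGroup B] [Module K B] [Module k B] [IsScalarTower k K B]

variable [CurveG k K]


theorem exists_u (a : Place k K →₀ A) : ∃ u : Place k K →₀ (K →ₗ[K] A), ∀ P y, u P y = y • a P := by
  refine ⟨a.mapRange (fun x => LinearMap.toSpanSingleton K A x)
    (LinearMap.toSpanSingleton_zero K A), fun P y => ?_⟩
  rw [Finsupp.mapRange_apply]
  rfl

theorem null_line_iff [FiniteDimensional K A] (X : VB k K A) (J : Submodule K A) (D : Dv k K)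
    {a : Place k K →₀ A} {u : Place k K →₀ (K →ₗ[K] A)} (hu : ∀ P y, u P y = y • a P) :
    Null X J ((line D).sub (⊤ : Submodule K K)) u ↔
      a.mapRange J.mkQ (map_zero _) ∈ ((X.quo J).twist (-D)).N := by
  constructor
  · rintro ⟨σ, hσ⟩
    rw [VB.mem_N]
    refine ⟨σ ⟨1, Submodule.mem_top⟩, fun P => ?_⟩
    obtain ⟨t, ht0, ht⟩ := exists_ord_eq P ((-D : Dv k K) P)
    rw [VB.mem_twist_iff ht0 ht, Finsupp.mapRange_apply]
    have h1 := hσ P ⟨t, Submodule.mem_top⟩ (Or.inr ht.ge)
    have h4 : (⟨t, Submodule.mem_top⟩ : (⊤ : Submodule K K)) =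
        t • ⟨1, Submodule.mem_top⟩ := Subtype.ext (by
      show t = t * 1
      rw [mul_one])
    rw [h4, map_smul] at h1
    have h2 : J.mkQ (u P ((t • (⟨1, Submodule.mem_top⟩ : (⊤ : Submodule K K)) :
        (⊤ : Submodule K K)) : K)) = t • J.mkQ (a P) := by
      rw [hu, map_smul]
      congr 1
      show t * 1 = t
      rw [mul_one]
    rw [h2, ← smul_sub] at h1
    exact h1
  · rintro ⟨w, hw⟩
    refine ⟨(LinearMap.toSpanSingleton K _ w) ∘ₗ (⊤ : Submodule K K).subtype, fun P b hb => ?_⟩
    have h1 := hw P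
    rw [Finsupp.mapRange_apply, VB.mem_twist] at h1
    have h2 := h1 (b : K) hb
    have h3 : J.mkQ (u P (b : K)) -
        ((LinearMap.toSpanSingleton K _ w) ∘ₗ (⊤ : Submodule K K).subtype) b =
        (b : K) • (J.mkQ (a P) - w) := by
      rw [hu, map_smul, smul_sub]
      rfl
    rw [h3]
    exact h2

theorem null_line_bot_iff [FiniteDimensional K A] (X : VB k K A) (D : Dv k K)
    {a : Place k K →₀ A} {u : Place k K →₀ (K →ₗ[K] A)} (hu : ∀ P y, u P y = y • a P) :
    Null X ⊥ ((line D).sub (⊤ : Submodule K K)) u ↔ a ∈ (X.twist (-D)).N := by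
  rw [null_line_iff X ⊥ D hu, ← VB.twist_quo]
  constructor
  · rintro ⟨w, hw⟩
    obtain ⟨w', rfl⟩ := (⊥ : Submodule K A).mkQ_surjective w
    refine ⟨w', fun P => ?_⟩
    obtain ⟨y, hy, hy'⟩ := hw P
    have h1 : (⊥ : Submodule K A).mkQ y = (⊥ : Submodule K A).mkQ (a P - w') := by
      rw [map_sub]
      exact hy'
    have h2 : y = a P - w' := by
      rw [Submodule.mkQ_apply, Submodule.mkQ_apply, Submodule.Quotient.eq, Submodule.mem_bot,
        sub_eq_zero] at h1
      exact h1
    rw [← h2]
    exact hy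
  · rintro ⟨w, hw⟩
    refine ⟨(⊥ : Submodule K A).mkQ w, fun P => ⟨a P - w, hw P, ?_⟩⟩
    rw [Finsupp.mapRange_apply]
    exact map_sub _ _ _

/-- Subsheaves of a line bundle. -/
theorem sub_line {D : Dv k K} {F' : VB k K (⊤ : Submodule K K)} (h : F' ≤ (line D).sub ⊤) :
    ∃ T : Dv k K, (∀ P, 0 ≤ T P) ∧ F' = (line (D - T)).sub ⊤ ∧ F'.deg = ddeg D - ddeg T := by
  obtain ⟨D', hD'⟩ := exists_eq_line (F'.map (Submodule.topEquiv : (⊤ : Submodule K K) ≃ₗ[K] K))
  have hF : F' = (line D').sub ⊤ := by
    refine VB.ext' fun P x => ?_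
    rw [VB.mem_sub, ← hD', VB.mem_map]
    have h1 : (Submodule.topEquiv : (⊤ : Submodule K K) ≃ₗ[K] K).symm (x : K) = x := rfl
    rw [h1]
  have hle : ∀ P, D' P ≤ D P := by
    rw [← line_le_line]
    intro P x hx
    have h1 : (⟨x, Submodule.mem_top⟩ : (⊤ : Submodule K K)) ∈ F'.M P := by
      rw [hF]
      exact hx
    exact h P h1
  have hdD : F'.deg = ddeg D' := by
    rw [← VB.deg_line D', ← hD', VB.deg_map]
  refine ⟨D - D', fun P => ?_, ?_, ?_⟩
  · have := hle P
    rw [Finsupp.sub_apply]
    omega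
  · rw [sub_sub_cancel]
    exact hF
  · rw [hdD, ddeg_sub]
    ring

end Pool.Agent.MP_09eaec.GG.G3
end

section

/-!
# TASK PP: principal parts

`hN`: `f : K` with `u Q - f ∈ (line (Δ + T)).M Q` for all `Q`. For `Q` different from the `P j`: `u Q = 0`. At `P j`: `e j ∈ (line (Δ + single (P j) 1)).M`, so
`f ∈ (line (Δ + T + ∑ single (P j) 1)).M Q` at all places (`T ≥ 0`); so `f = 0` by `h0`, and `e j ∈ (line (Δ + T)).M (P j)`, whose order is `-Δ - 1`.
-/

set_option autoImplicit false

namespace Pool.Agent.MP_09eaec.GG.G3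

open Module

universe u v

variable {k : Type u} {K : Type v} [Field k] [Field K] [Algebra k K]
variable {W : Type v} [AddCommGroup W] [Module K W] [Module k W] [IsScalarTower k K W]
variable {A : Type v} [AddCommGroup A] [Module K A] [Module k A] [IsScalarTower k K A]
variable {B : Type v} [AddCommGroup B] [Module K B] [Module k B] [IsScalarTower k K B]

variable [CurveG k K]

theorem pp_lemma {Δ T : Dv k K} {t : ℕ} {P : Fin t → Place k K} (hP : Function.Injective P)
    {e : Fin t → K} (he0 : ∀ j, e j ≠ 0) (he : ∀ j, (P j).ord (e j) = -Δ (P j) - 1)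
    (hT : ∀ Q, 0 ≤ T Q) (h0 : (line (Δ + T + ∑ j, Finsupp.single (P j) 1) : VB k K K).H0 = ⊥)
    (hN : (∑ j, Finsupp.single (P j) (e j)) ∈ (line (Δ + T)).N) (j : Fin t) : 1 ≤ T (P j) := by
  classical
  obtain ⟨f, hf⟩ := VB.mem_N.1 hN
  have hu : ∀ i : Fin t, (∑ j, Finsupp.single (P j) (e j) : Place k K →₀ K) (P i) = e i := by
    intro i
    rw [Finsupp.finsetSum_apply, Finset.sum_eq_single i]
    · rw [Finsupp.single_eq_same]
    · intro b _ hb
      rw [Finsupp.single_apply, if_neg (fun h => hb (hP h))]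
    · intro h
      exact absurd (Finset.mem_univ i) h
  have hs : ∀ i : Fin t, (∑ j, Finsupp.single (P j) 1 : Dv k K) (P i) = 1 := by
    intro i
    rw [Finsupp.finsetSum_apply, Finset.sum_eq_single i]
    · rw [Finsupp.single_eq_same]
    · intro b _ hb
      rw [Finsupp.single_apply, if_neg (fun h => hb (hP h))]
    · intro h
      exact absurd (Finset.mem_univ i) h
  have hfH : f ∈ (line (Δ + T + ∑ j, Finsupp.single (P j) 1) : VB k K K).H0 := by
    rw [VB.mem_H0]
    intro Q
    rw [mem_line]
    have h1 : (∑ j, Finsupp.single (P j) (e j) : Place k K →₀ K) Q - f ∈ Q.filt (-(Δ + T) Q) :=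
      hf Q
    by_cases hQ : ∃ i, P i = Q
    · obtain ⟨i, rfl⟩ := hQ
      rw [hu] at h1
      have h2 : (Δ + T + ∑ j, Finsupp.single (P j) 1 : Dv k K) (P i) = Δ (P i) + T (P i) + 1 := by
        rw [Finsupp.add_apply, Finsupp.add_apply, hs]
      rw [h2]
      have h3 : e i ∈ (P i).filt (-(Δ (P i) + T (P i) + 1)) := by
        refine Or.inr ?_
        rw [he i]
        have := hT (P i)
        omega
      have h4 : e i - f ∈ (P i).filt (-(Δ (P i) + T (P i) + 1)) := by
        refine filt_mono _ ?_ h1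
        rw [Finsupp.add_apply]
        omega
      have h5 := sub_mem h3 h4
      rwa [sub_sub_cancel] at h5
    · have h2 : (∑ j, Finsupp.single (P j) (e j) : Place k K →₀ K) Q = 0 := by
        rw [Finsupp.finsetSum_apply]
        refine Finset.sum_eq_zero fun i _ => ?_
        rw [Finsupp.single_apply, if_neg (fun h => hQ ⟨i, h⟩)]
      have h3 : (∑ j, Finsupp.single (P j) 1 : Dv k K) Q = 0 := by
        rw [Finsupp.finsetSum_apply]
        refine Finset.sum_eq_zero fun i _ => ?_
        rw [Finsupp.single_apply, if_neg (fun h => hQ ⟨i, h⟩)]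
      rw [h2, zero_sub] at h1
      have h4 := neg_mem h1
      rw [neg_neg] at h4
      rw [Finsupp.add_apply, h3, add_zero]
      exact h4
  rw [h0, Submodule.mem_bot] at hfH
  have h1 : (∑ j, Finsupp.single (P j) (e j) : Place k K →₀ K) (P j) - f ∈
      (P j).filt (-(Δ + T) (P j)) := hf (P j)
  rw [hu, hfH, sub_zero] at h1
  have h2 := h1.resolve_left (he0 j)
  rw [he j, Finsupp.add_apply] at h2
  omega

end Pool.Agent.MP_09eaec.GG.G3
end

section

/-!
# TASK MarkExt: transport of the marked vector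

* `mark_ext`: `c • (s0, 0) = (c • s0, 0)`, `mem_ext`: the second coordinate is `0`, `u P 0 = 0`.
* `topK_map`, `propK_map`, `negK_map`: as `topX_map` in BG/TransBG.lean (already proved: copy and adapt), for the isomorphism `f` and the marked
  vector `f s0`; `mark_map`: `mem_map`.
-/

set_option autoImplicit false

namespace Pool.Agent.MP_09eaec.GG.G3

open Module

universe u v

variable {k : Type u} {K : Type v} [Field k] [Field K] [Algebra k K]
variable {W : Type v} [AddCommGroup W] [Module K W] [Module k W] [IsScalarTower k K W]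
variable {A : Type v} [AddCommGroup A] [Module K A] [Module k A] [IsScalarTower k K A]
variable {B : Type v} [AddCommGroup B] [Module K B] [Module k B] [IsScalarTower k K B]

variable [CurveG k K]

private theorem MarkExt_map_symm (f : A ≃ₗ[K] W) (J : Submodule K W) :
    (J.map f.symm.toLinearMap).map f.toLinearMap = J := by
  ext x
  simp only [Submodule.mem_map, LinearEquiv.coe_coe]
  constructor
  · rintro ⟨y, ⟨z, hz, rfl⟩, rfl⟩
    rwa [LinearEquiv.apply_symm_apply]
  · intro h
    exact ⟨f.symm x, ⟨x, h, rfl⟩, LinearEquiv.apply_symm_apply f x⟩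

private theorem MarkExt_exk [FiniteDimensional K A] [FiniteDimensional K W] {μ c : ℝ} {s0 : A}
    (X : VB k K A) (f : A ≃ₗ[K] W) (J : Submodule K W) :
    exk μ c (f s0) (X.map f) J = exk μ c s0 X (J.map f.symm.toLinearMap) := by
  have h1 := VB.deg_sub_map X f (J.map f.symm.toLinearMap)
  rw [MarkExt_map_symm] at h1
  have h2 : finrank K J = finrank K (J.map f.symm.toLinearMap) :=
    (LinearEquiv.finrank_map_eq f.symm J).symm
  have h3 : f s0 ∈ J ↔ s0 ∈ J.map f.symm.toLinearMap := by
    constructor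
    · intro h
      exact ⟨f s0, h, LinearEquiv.symm_apply_apply f s0⟩
    · rintro ⟨x, hx, hxs⟩
      have h4 : f s0 = x := by
        rw [← hxs]
        exact LinearEquiv.apply_symm_apply f x
      rw [h4]
      exact hx
  by_cases h : f s0 ∈ J
  · rw [exk_of_mem h, exk_of_mem (h3.1 h), h1, h2]
  · rw [exk_of_notMem h, exk_of_notMem (fun h' => h (h3.2 h')), h1, h2]

private theorem MarkExt_bot (f : A ≃ₗ[K] W) (J : Submodule K W) (hJ : J ≠ ⊥) :
    J.map f.symm.toLinearMap ≠ ⊥ := by
  intro h
  apply hJ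
  rw [← MarkExt_map_symm f J, h, Submodule.map_bot]

private theorem MarkExt_top (f : A ≃ₗ[K] W) (J : Submodule K W) (hJ : J ≠ ⊤) :
    J.map f.symm.toLinearMap ≠ ⊤ := by
  intro h
  apply hJ
  rw [← MarkExt_map_symm f J, h, Submodule.map_top]
  exact LinearMap.range_eq_top.2 f.surjective

theorem mark_ext {X : VB k K A} {s0 : A} {κ D' : Dv k K} {u : Place k K →₀ (K →ₗ[K] A)}
    (h : ∀ (P : Place k K) (c : K), c • s0 ∈ X.M P ↔ c ∈ (line κ).M P) (P : Place k K) (c : K) :
    c • ((s0, 0) : A × K) ∈ (ext X (line D') u).M P ↔ c ∈ (line κ).M P := by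
  rw [← h P c, mem_ext]
  have h1 : (c • ((s0, 0) : A × K)).1 = c • s0 := rfl
  have h2 : (c • ((s0, 0) : A × K)).2 = 0 := smul_zero c
  rw [h1, h2, map_zero, sub_zero]
  exact ⟨fun h => h.2, fun h => ⟨zero_mem _, h⟩⟩

theorem topK_map [FiniteDimensional K A] [FiniteDimensional K W] {μ c ρ : ℝ} {s0 : A}
    {X : VB k K A} {q : A →ₗ[K] K} {D : Dv k K} (hT : TopK μ c ρ s0 X q D) (f : A ≃ₗ[K] W) :
    TopK μ c ρ (f s0) (X.map f) (q ∘ₗ f.symm.toLinearMap) D := by
  have hker : ∀ J : Submodule K W, J ≤ LinearMap.ker (q ∘ₗ f.symm.toLinearMap) ↔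
      J.map f.symm.toLinearMap ≤ LinearMap.ker q := by
    intro J
    constructor
    · rintro h _ ⟨x, hx, rfl⟩
      exact h hx
    · intro h x hx
      exact h ⟨x, hx, rfl⟩
  refine ⟨?_, ?_, ?_⟩
  · intro P y
    rw [hT.img P y]
    constructor
    · rintro ⟨x, hx, rfl⟩
      refine ⟨f x, ?_, ?_⟩
      · rw [VB.mem_map, LinearEquiv.symm_apply_apply]
        exact hx
      · rw [LinearMap.comp_apply, LinearEquiv.coe_coe, LinearEquiv.symm_apply_apply]
    · rintro ⟨x, hx, rfl⟩
      rw [VB.mem_map] at hx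
      exact ⟨f.symm x, hx, rfl⟩
  · rw [MarkExt_exk, Submodule.map_top, LinearMap.range_eq_top.2 f.symm.surjective]
    exact hT.tot
  · intro J hJ hJ'
    rw [MarkExt_exk]
    exact hT.top _ (MarkExt_top f J hJ) fun h => hJ' ((hker J).2 h)

theorem propK_map [FiniteDimensional K A] [FiniteDimensional K W] {μ c : ℝ} {s0 : A}
    {X : VB k K A} (h : PropK μ c s0 X) (f : A ≃ₗ[K] W) : PropK μ c (f s0) (X.map f) := by
  intro J hJ hJt
  rw [MarkExt_exk]
  exact h _ (MarkExt_bot f J hJ) (MarkExt_top f J hJt)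

theorem negK_map [FiniteDimensional K A] [FiniteDimensional K W] {μ c : ℝ} {s0 : A}
    {X : VB k K A} (h : NegK μ c s0 X) (f : A ≃ₗ[K] W) : NegK μ c (f s0) (X.map f) := by
  intro J hJ
  rw [MarkExt_exk]
  exact h _ (MarkExt_bot f J hJ)

theorem mark_map {X : VB k K A} {s0 : A} {κ : Dv k K} (f : A ≃ₗ[K] W)
    (h : ∀ (P : Place k K) (c : K), c • s0 ∈ X.M P ↔ c ∈ (line κ).M P) (P : Place k K) (c : K) :
    c • (f s0) ∈ (X.map f).M P ↔ c ∈ (line κ).M P := by
  rw [← h P c, VB.mem_map, map_smul, LinearEquiv.symm_apply_apply]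

end Pool.Agent.MP_09eaec.GG.G3
end
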