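import Pool.Agent.Lib.MP_09eaec_ag.Mg.G005
import Pool.Agent.Lib.MP_09eaec_ag.Mg.G006
import Pool.Agent.Lib.MP_09eaec_ag.Mg.G001
import Pool.Agent.Lib.MP_09eaec_ag.Mg.G009
import Pool.Agent.Lib.MP_09eaec_ag.Mg.G004
import Pool.Agent.Lib.MP_09eaec_ag.Mg.G002
import Pool.Agent.Lib.MP_09eaec_ag.Mg.G010
import Pool.Agent.Lib.MP_09eaec_ag.Mg.G003
import Pool.Agent.Lib.MP_09eaec_ag.Mg.G016

section

/-!
# The chain of line bundles

* `exists_step`: from `X` of rank `s` with top line `single P0 e` and excess `ρ ∈ [-1, 0)` to rank `s + 1` with top line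
  `single P0 e'`, when `e - e' ≤ 1`, and `e ≤ e'` if `ρ = -1`.
* `exists_chain`: induction on `s`.
* `exists_G`: the last step, where the excess of the whole bundle is positive.
-/

set_option autoImplicit false

namespace Pool.Agent.MP_09eaec.GG.BG

open Module

universe u v

variable {k : Type u} {K : Type v} [Field k] [Field K] [Algebra k K]
variable {W : Type v} [AddCommGroup W] [Module K W] [Module k W] [IsScalarTower k K W]
variable {A : Type v} [AddCommGroup A] [Module K A] [Module k A] [IsScalarTower k K A]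
variable {B : Type v} [AddCommGroup B] [Module K B] [Module k B] [IsScalarTower k K B]

variable [CurveG k K]

private theorem ChainAll_trans {s : ℕ} {μ ρ : ℝ} {X : VB k K (Fin s → K)} {u : Place k K →₀ (K →ₗ[K] (Fin s → K))}
    {D' : Dv k K} (hT : TopX μ ρ (ext X (line D') u) (LinearMap.snd K (Fin s → K) K) D')
    (hK : KerX μ (ext X (line D') u) (LinearMap.snd K (Fin s → K) K)) :
    ∃ (X' : VB k K (Fin (s + 1) → K)) (q' : (Fin (s + 1) → K) →ₗ[K] K), TopX μ ρ X' q' D' ∧ KerX μ X' q' ∧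
      (NegX μ (ext X (line D') u) → NegX μ X') := by
  have hfr : finrank K ((Fin s → K) × K) = finrank K (Fin (s + 1) → K) := by
    rw [Module.finrank_prod, Module.finrank_fin_fun, Module.finrank_fin_fun, Module.finrank_self]
  let f : ((Fin s → K) × K) ≃ₗ[K] (Fin (s + 1) → K) := LinearEquiv.ofFinrankEq _ _ hfr
  obtain ⟨h1, h2, h3⟩ := topX_map hT f
  exact ⟨_, _, h1, h2 hK, h3⟩

theorem exists_step (hg : 3 ≤ gen k K) (P0 : Place k K) {μ ρ ρ' : ℝ} {s : ℕ} {e e' : ℤ}
    {X : VB k K (Fin s → K)} {q : (Fin s → K) →ₗ[K] K} (hN : NegX μ X)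
    (hT : TopX μ ρ X q (Finsupp.single P0 e)) (hρ : -1 ≤ ρ) (he : e - e' ≤ 1)
    (he' : ρ = -1 → e ≤ e') (hρ' : ρ' = ρ + e' + μ) :
    ∃ (X' : VB k K (Fin (s + 1) → K)) (q' : (Fin (s + 1) → K) →ₗ[K] K),
      TopX μ ρ' X' q' (Finsupp.single P0 e') ∧ KerX μ X' q' ∧ (ρ' < 0 → NegX μ X') := by
  have hc : ∃ c : Place k K →₀ K,
      c ∉ (line (Finsupp.single P0 e - Finsupp.single P0 e') : VB k K K).N ∧
      (ρ = -1 → ∀ P : Place k K,
        c ∉ (line (Finsupp.single P0 e - Finsupp.single P0 e' + Finsupp.single P 1) : VB k K K).N) := by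
    by_cases h : ρ = -1
    · obtain ⟨c, hc1, hc2⟩ := exists_strong_single hg P0 (he' h)
      exact ⟨c, hc1, fun _ => hc2⟩
    · obtain ⟨c, hc⟩ := exists_class (k := k) (K := K)
        (Δ := Finsupp.single P0 e - Finsupp.single P0 e') (by
          rw [ddeg_sub, ddeg_single, ddeg_single]
          omega)
      exact ⟨c, hc, fun h' => absurd h' h⟩
  obtain ⟨c, hc1, hc2⟩ := hc
  obtain ⟨u, h1, h2, h3⟩ := topX_step hN hT hρ hc1 hc2 (ρ' := ρ') (by
    rw [hρ', ddeg_single])
  obtain ⟨X', q', h4, h5, h6⟩ := ChainAll_trans h1 h2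
  exact ⟨X', q', h4, h5, fun h => h6 (h3 h)⟩

theorem exists_chain (hg : 3 ≤ gen k K) (P0 : Place k K) {μ : ℝ} (hμ : 0 < μ) {s : ℕ} (hs : 1 ≤ s) :
    ∃ (X : VB k K (Fin s → K)) (q : (Fin s → K) →ₗ[K] K),
      TopX μ (rBG μ s) X q (Finsupp.single P0 (eBG μ s)) ∧ NegX μ X := by
  induction s, hs using Nat.le_induction with
  | base =>
    obtain ⟨h1, h2⟩ := topX_line (k := k) (K := K) (μ := μ) (ρ := rBG μ 1)
      (D := Finsupp.single P0 (eBG μ 1)) (by rw [ddeg_single]; exact rBG_one μ) (rBG_lt μ 1)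
    have hfr : finrank K K = finrank K (Fin 1 → K) := by
      rw [Module.finrank_fin_fun, Module.finrank_self]
    let f : K ≃ₗ[K] (Fin 1 → K) := LinearEquiv.ofFinrankEq _ _ hfr
    obtain ⟨h3, -, h4⟩ := topX_map h1 f
    exact ⟨_, _, h3, h4 h2⟩
  | succ s hs ih =>
    obtain ⟨X, q, hT, hN⟩ := ih
    obtain ⟨X', q', h1, -, h2⟩ := exists_step hg P0 hN hT (rBG_ge μ s) (eBG_diff hμ hs)
      (fun h => eBG_diff' hμ hs h) (rBG_succ μ hs)
    exact ⟨X', q', h1, h2 (rBG_lt μ (s + 1))⟩

/-- The bundle `G` of rank `m` and degree `-δ`. -/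
theorem exists_G (hg : 3 ≤ gen k K) {m : ℕ} (hm : 2 ≤ m) {a δ : ℤ} (ha : 1 ≤ a)
    (ha' : a < gen k K) (hδ : 1 ≤ δ) {μ : ℝ}
    (hμ : μ * ((gen k K : ℝ) * m - a) = (gen k K : ℝ) * δ) :
    ∃ (G : VB k K (Fin m → K)) (q : (Fin m → K) →ₗ[K] K) (D : Dv k K),
      ddeg D ≤ 0 ∧ G.deg = -δ ∧ KerX μ G q ∧ TopX μ (μ * (a / (gen k K : ℝ))) G q D := by
  obtain ⟨s, rfl⟩ : ∃ s, m = s + 1 := ⟨m - 1, by omega⟩
  have hs : 1 ≤ s := by omega
  have hgR : (0 : ℝ) < gen k K := by
    have : (0 : ℤ) < gen k K := by omega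
    exact_mod_cast this
  have haR : (0 : ℝ) < a := by exact_mod_cast (by omega : (0 : ℤ) < a)
  have hagR : (a : ℝ) < gen k K := by exact_mod_cast ha'
  have hδR : (0 : ℝ) < δ := by exact_mod_cast (by omega : (0 : ℤ) < δ)
  have hsR : (1 : ℝ) ≤ s := by exact_mod_cast hs
  have hx : (0 : ℝ) < a / (gen k K : ℝ) := div_pos haR hgR
  have hx1 : a / (gen k K : ℝ) < 1 := (div_lt_one hgR).2 hagR
  have hμ' : μ * (((s : ℝ) + 1) - a / (gen k K : ℝ)) = δ := by
    have h1 : (gen k K : ℝ) * (μ * (((s : ℝ) + 1) - a / (gen k K : ℝ))) = (gen k K : ℝ) * δ := by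
      rw [← hμ]
      push_cast
      field_simp
    exact mul_left_cancel₀ hgR.ne' h1
  have hμ0 : 0 < μ := by
    have h1 : (0 : ℝ) < ((s : ℝ) + 1) - a / (gen k K : ℝ) := by linarith
    by_contra h2
    have h3 : μ * (((s : ℝ) + 1) - a / (gen k K : ℝ)) ≤ 0 :=
      mul_nonpos_of_nonpos_of_nonneg (not_lt.1 h2) h1.le
    rw [hμ'] at h3
    linarith
  obtain ⟨h1, h2, h3⟩ := eBG_last hμ0 hx hx1 hs hμ'
  obtain ⟨P0⟩ : Nonempty (Place k K) := by
    have := infinite_places (k := k) (K := K)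
    infer_instance
  obtain ⟨X, q, hT, hN⟩ := exists_chain hg P0 hμ0 hs
  obtain ⟨G, q', h4, h5, -⟩ := exists_step hg P0 hN hT (rBG_ge μ s) (e' := ⌊μ * s⌋ + 1 - δ)
    (by omega) (fun _ => h1) h3
  refine ⟨G, q', _, by rw [ddeg_single]; exact h2, ?_, h5, h4⟩
  have h6 := h4.tot
  rw [Module.finrank_fin_fun] at h6
  have h7 : ((G.deg : ℤ) : ℝ) = ((-δ : ℤ) : ℝ) := by
    push_cast at h6 ⊢
    linarith
  exact_mod_cast h7

end Pool.Agent.MP_09eaec.GG.BG
end

section

/-!
# The function `s ↦ h0 (E(sH))`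
-/

set_option autoImplicit false

namespace Pool.Agent.MP_09eaec.GG

open Module

universe u v

variable {k : Type u} {K : Type v} [Field k] [Field K] [Algebra k K]
variable {W : Type v} [AddCommGroup W] [Module K W] [Module k W] [IsScalarTower k K W]

variable [CurveG k K]

/-- `h0 (E(sH))`. -/
noncomputable def fH (H : Dv k K) (E : VB k K W) (s : ℤ) : ℤ := (E.twist (s • H)).h0

theorem fH_zero (H : Dv k K) (E : VB k K W) : fH H E 0 = E.h0 := by
  unfold fH
  rw [zero_smul, VB.twist_zero]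

theorem fH_nonneg (H : Dv k K) (E : VB k K W) (s : ℤ) : 0 ≤ fH H E s := VB.h0_nonneg _

theorem fH_convex {H : Dv k K} {x y : K} (hp : Pencil H x y) [FiniteDimensional K W]
    (E : VB k K W) (s : ℤ) : 2 * fH H E s ≤ fH H E (s - 1) + fH H E (s + 1) := by
  have h := pencil_h0 hp (E.twist (s • H))
  rw [VB.twist_twist, VB.twist_twist] at h
  unfold fH
  rw [sub_smul, add_smul, one_smul, sub_eq_add_neg]
  exact h

theorem fH_ineq {H : Dv k K} {x y : K} (hp : Pencil H x y) [FiniteDimensional K W]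
    (E : VB k K W) {a b c : ℤ} (hab : a ≤ b) (hbc : b ≤ c) :
    (c - a) * fH H E b ≤ (c - b) * fH H E a + (b - a) * fH H E c :=
  convex_ineq (fH_convex hp E) hab hbc

theorem ddeg_zsmul (s : ℤ) (D : Dv k K) : ddeg (s • D) = s * ddeg D := by
  induction s using Int.induction_on with
  | zero => simp
  | succ n ih => rw [add_smul, one_smul, ddeg_add, ih]; ring
  | pred n ih => rw [sub_smul, one_smul, ddeg_sub, ih]; ring

theorem deg_twist_H {H : Dv k K} {x y : K} (hp : Pencil H x y) [FiniteDimensional K W]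
    (E : VB k K W) (s : ℤ) : (E.twist (s • H)).deg = E.deg + 2 * s * finrank K W := by
  rw [VB.deg_twist, ddeg_zsmul, hp.deg]; ring

/-- Sections of `E` give `(s + 1)` times as many sections of `E(sH)` if `E(-H)` has no sections. -/
theorem mul_h0_le_fH {H : Dv k K} {x y : K} (hp : Pencil H x y) [FiniteDimensional K W]
    (E : VB k K W) (h0 : (E.twist (-H)).H0 = ⊥) {s : ℤ} (hs : 0 ≤ s) :
    (s + 1) * E.h0 ≤ fH H E s := by
  have h := fH_ineq hp E (a := -1) (b := 0) (c := s) (by norm_num) hs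
  have h1 : fH H E (-1) = 0 := by
    unfold fH VB.h0
    rw [neg_smul, one_smul, h0, finrank_bot]
    rfl
  rw [h1, fH_zero] at h
  linarith

end Pool.Agent.MP_09eaec.GG
end

section

/-!
# TASK CanonH: `(g - 1) H` is canonical

Let `F s = fH H (line 0) s = h0 (line (s H))` (`twist_line`: `(line 0).twist D = line (0 + D)`). `F (-1) = 0`
(`H0_line_of_neg`), `F 0 = 1` (`h0_line_zero`).
* `le_h0_smul`: `mul_h0_le_fH` for `E = line 0`.
* `canon_H`: let `κ` be canonical (`exists_canonical`), `g = gen k K`, `D = (g - 1) H`, of degree `2 g - 2`. `h0 (line D) ≥ g`, so by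
  `VB.rr` and `VB.deg_line` `h1 (line D) = h0 - (2 g - 2) + (g - 1) ≥ 1`. `hκ.dual K (line D)` and `hom_line_line` (HomDeg.lean,
  `VB.h0_map`): `h0 (line (κ - D)) ≥ 1`, so there is `f ≠ 0` in `H0 (line (κ - D))` : `P.ord f ≥ D P - κ P` for all `P`. The degrees of
  `D - κ` and `dv f` are both `0` (`ddeg_dv`), so `D - κ = dv f` (`eq_of_ddeg_le`) and `D = κ + dv f`, `move_canonical`.
* `h0_smul`: by `fH_ineq` for `0 ≤ s ≤ g - 1`: `(g - 1) F s ≤ (g - 1 - s) F 0 + s F (g - 1) = (g - 1 - s) + s g` (`(canon_H hp).h0`), so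
  `F s ≤ s + 1`.
-/

set_option autoImplicit false

namespace Pool.Agent.MP_09eaec.GG

open Module

universe u v

variable {k : Type u} {K : Type v} [Field k] [Field K] [Algebra k K]
variable {W : Type v} [AddCommGroup W] [Module K W] [Module k W] [IsScalarTower k K W]

variable [CurveG k K]

private theorem CanonH_fH (H : Dv k K) (s : ℤ) :
    fH H (line (0 : Dv k K)) s = (line (s • H)).h0 := by
  unfold fH
  rw [VB.twist_line, zero_add]

theorem le_h0_smul {H : Dv k K} {x y : K} (hp : Pencil H x y) {s : ℤ} (hs : 0 ≤ s) :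
    s + 1 ≤ (line (s • H)).h0 := by
  have h1 : ((line (0 : Dv k K)).twist (-H)).H0 = ⊥ := by
    rw [VB.twist_line, zero_add]
    exact H0_line_of_neg (by rw [ddeg_neg, hp.deg]; norm_num)
  have h2 := mul_h0_le_fH hp (line (0 : Dv k K)) h1 hs
  rw [h0_line_zero, CanonH_fH] at h2
  linarith

theorem canon_H {H : Dv k K} {x y : K} (hp : Pencil H x y) :
    IsCanonical ((gen k K - 1) • H) := by
  obtain ⟨κ, hκ⟩ := exists_canonical (k := k) (K := K)
  have hg := CurveG.two_le (k := k) (K := K)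
  have h1' := le_h0_smul hp (s := gen k K - 1) (by omega)
  have hdeg' : ddeg ((gen k K - 1) • H) = 2 * gen k K - 2 := by
    rw [ddeg_zsmul, hp.deg]
    ring
  obtain ⟨D, hD⟩ : ∃ D : Dv k K, D = (gen k K - 1) • H := ⟨_, rfl⟩
  rw [← hD] at h1' hdeg' ⊢
  have h2 := chi_line D
  unfold VB.chi at h2
  have h3 : 1 ≤ (line D).h1 := by omega
  have h4 := hκ.dual K (line D)
  obtain ⟨e, -, he⟩ := hom_line_line D κ
  have h5 : (hom (line D) (line κ)).h0 = (line (κ - D)).h0 := by
    rw [← VB.h0_map _ e, he]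
  have h6 : (line (κ - D)).H0 ≠ ⊥ := by
    intro hb
    have h7 : (line (κ - D)).h0 = 0 := by
      rw [VB.h0, hb, finrank_bot]
      rfl
    omega
  obtain ⟨f, hf, hf0⟩ := Submodule.exists_mem_ne_zero_of_ne_bot h6
  rw [VB.mem_H0] at hf
  have h7 : ∀ P, (D - κ) P ≤ (dv f : Dv k K) P := by
    intro P
    have h8 := (mem_line.1 (hf P)).resolve_left hf0
    rw [Finsupp.sub_apply] at h8
    rw [dv_apply, Finsupp.sub_apply]
    omega
  have h8 : D - κ = dv f := eq_of_ddeg_le h7 (by
    rw [ddeg_dv, ddeg_sub, hdeg', hκ.ddeg]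
    omega)
  have h9 : D = κ + dv f := by
    rw [← h8]
    abel
  rw [h9]
  exact move_canonical hκ hf0

theorem h0_smul {H : Dv k K} {x y : K} (hp : Pencil H x y) {s : ℤ} (hs : 0 ≤ s)
    (hs' : s ≤ gen k K - 1) : (line (s • H)).h0 = s + 1 := by
  have hg := CurveG.two_le (k := k) (K := K)
  have h1 := fH_ineq hp (line (0 : Dv k K)) (a := 0) (b := s) (c := gen k K - 1) hs hs'
  rw [CanonH_fH, CanonH_fH, CanonH_fH, zero_smul, h0_line_zero, (canon_H hp).h0] at h1
  have h2 := le_h0_smul hp hs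
  refine le_antisymm ?_ h2
  refine le_of_mul_le_mul_left (a := gen k K - 1) ?_ (by omega)
  calc (gen k K - 1) * (line (s • H)).h0 = (gen k K - 1 - 0) * (line (s • H)).h0 := by ring
    _ ≤ _ := h1
    _ = (gen k K - 1) * (s + 1) := by ring

end Pool.Agent.MP_09eaec.GG
end

section

/-!
# TASK FHdual: Riemann-Roch and Serre duality for the twists

* `hom_twist_line`: both bundles have the generic fibre `W →ₗ[K] K`; `VB.ext'`. For a point `P` and `t` of order `D P`
  (`exists_ord_eq`): `x ∈ (E.twist D).M P ↔ t • x ∈ E.M P` (`VB.mem_twist_iff`). If `φ` maps `(E.twist D).M P` into `P.filt (-κ P)` and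
  `x ∈ E.M P` then `t⁻¹ x ∈ (E.twist D).M P`, so `t⁻¹ φ x ∈ P.filt (-κ P)` and `φ x ∈ P.filt (D P - κ P)`; same for the converse.
* `fH_eq`: `VB.rr`, `deg_twist_H`, `(canon_H hp).dual`, `hom_twist_line`, `(g - 1) H - s H = (g - 1 - s) H` (`sub_smul`).
-/

set_option autoImplicit false

namespace Pool.Agent.MP_09eaec.GG

open Module

universe u v

variable {k : Type u} {K : Type v} [Field k] [Field K] [Algebra k K]
variable {W : Type v} [AddCommGroup W] [Module K W] [Module k W] [IsScalarTower k K W]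

variable [CurveG k K]

theorem hom_twist_line [FiniteDimensional K W] (E : VB k K W) (D κ : Dv k K) :
    hom (E.twist D) (line κ) = hom E (line (κ - D)) := by
  refine VB.ext' fun P φ => ?_
  obtain ⟨t, ht, htm⟩ := exists_ord_eq P (D P)
  rw [mem_hom, mem_hom]
  have e1 : -(κ - D) P = -κ P + D P := by
    rw [Finsupp.sub_apply]; ring
  constructor
  · intro h x hx
    have h1 : t⁻¹ • x ∈ (E.twist D).M P := by
      rw [VB.mem_twist_iff ht htm, smul_smul, mul_inv_cancel₀ ht, one_smul]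
      exact hx
    have h2 := h _ h1
    rw [mem_line, map_smul, smul_eq_mul, ← mem_filt_iff_of_ord P ht htm, ← mul_assoc,
      mul_inv_cancel₀ ht, one_mul] at h2
    rw [mem_line, e1]
    exact h2
  · intro h x hx
    rw [VB.mem_twist_iff ht htm] at hx
    have h2 := h _ hx
    rw [mem_line, e1, map_smul, smul_eq_mul, mem_filt_iff_of_ord P ht htm] at h2
    exact h2

theorem fH_eq {H : Dv k K} {x y : K} (hp : Pencil H x y) [FiniteDimensional K W] (E : VB k K W)
    (s : ℤ) : fH H E s = E.deg + (2 * s - (gen k K - 1)) * finrank K W +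
      (hom E (line ((gen k K - 1 - s) • H))).h0 := by
  have h1 := (canon_H hp).dual W (E.twist (s • H))
  rw [hom_twist_line, ← sub_smul] at h1
  have h2 := VB.rr (E.twist (s • H))
  rw [deg_twist_H hp, h1] at h2
  unfold fH
  rw [h2]
  ring

end Pool.Agent.MP_09eaec.GG
end

section

/-!
# TASK Count: `gen * h1 F + a ≤ (3 gen - 3) rank F - deg F`, if there are `a` further maps to `2 κ`

As `a_ineq` (GG/AIneq.lean, GG/MulLe.lean), with `a` further maps `ψ i : F → 2 κ` which are `k`-independent at a vector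
`x0` killed by all maps `F → κ`. `h1 (F(-κ)) = h0 (hom (F(-κ)) κ) = h0 (hom F (2 κ))` (`hκ.dual`, `hom_twist_line` in
HY/FHdual.lean: `κ - (-κ) = κ + κ`). `γ, ω` from `exists_omega` (`γ = gen` sections of `κ`, `k`-independent),
`φ : Fin h → _` from `exists_hom_basis` (`h = F.h1`, `K`-independent). The family `ω b • φ l` (`b : Fin γ`, `l : Fin h`) and
`ψ i` in `(hom F (line (κ + κ))).H0` is `k`-independent: in a relation evaluate at `x0`: `φ l x0 = 0`, so the coefficients
of the `ψ i` are zero by `hli`; then the others by the `K`-independence of `φ` and the `k`-independence of `ω`. So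
`γ h + a ≤ h0 (hom F (2 κ)) = h1 (F(-κ)) = (3 gen - 3) rank F - deg F` (`VB.h1_twist_neg`).
-/

set_option autoImplicit false

namespace Pool.Agent.MP_09eaec.GG.BG

open Module

universe u v

variable {k : Type u} {K : Type v} [Field k] [Field K] [Algebra k K]
variable {W : Type v} [AddCommGroup W] [Module K W] [Module k W] [IsScalarTower k K W]
variable {A : Type v} [AddCommGroup A] [Module K A] [Module k A] [IsScalarTower k K A]
variable {B : Type v} [AddCommGroup B] [Module K B] [Module k B] [IsScalarTower k K B]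

variable [CurveG k K]

theorem count_ineq {κ : Dv k K} (hκ : IsCanonical κ) {P : Place k K} [FiniteDimensional K W]
    (F : VB k K W) (hF : (F.twist (-κ)).H0 = ⊥)
    (hP : ∀ φ : W →ₗ[K] K,
      (∀ Q x, x ∈ F.M Q → φ x ∈ (line (κ - Finsupp.single P 1)).M Q) → φ = 0)
    {a : ℕ} (ψ : Fin a → (W →ₗ[K] K))
    (hψ : ∀ i Q x, x ∈ F.M Q → ψ i x ∈ (line (κ + κ)).M Q) (x0 : W)
    (hx0 : ∀ φ ∈ (hom F (line κ)).H0, φ x0 = 0) (hli : LinearIndependent k (fun i => ψ i x0)) :
    gen k K * F.h1 + a ≤ (3 * gen k K - 3) * finrank K W - F.deg := by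
  classical
  obtain ⟨γ, ω, hγ, hω, hliω⟩ := exists_omega hκ
  obtain ⟨h, φ, hh, hφ, hspan, hlik, hliK⟩ := exists_hom_basis hκ F hP
  rw [← VB.h1_twist_neg hκ.ddeg hF, ← hγ, ← hh, hκ.dual W (F.twist (-κ)), hom_twist_line,
    sub_neg_eq_add]
  have hT1 : ∀ (b : Fin γ) (l : Fin h), ω b • φ l ∈ (hom F (line (κ + κ))).H0 := by
    intro b l
    rw [VB.mem_H0]
    intro Q
    rw [mem_hom]
    intro x hx
    have h1 := mem_hom.1 (VB.mem_H0.1 (hφ l) Q) x hx
    have h2 := VB.mem_H0.1 (hω b) Q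
    rw [mem_line] at h1 h2
    rw [mem_line, LinearMap.smul_apply, smul_eq_mul]
    have h3 := mul_mem_filt Q h2 h1
    have e : -(κ + κ) Q = -κ Q + -κ Q := by
      rw [Finsupp.add_apply]
      ring
    rw [e]
    exact h3
  have hT2 : ∀ i, ψ i ∈ (hom F (line (κ + κ))).H0 := by
    intro i
    rw [VB.mem_H0]
    intro Q
    rw [mem_hom]
    exact fun x hx => hψ i Q x hx
  let v : (Fin γ × Fin h) ⊕ Fin a → (hom F (line (κ + κ))).H0 :=
    Sum.elim (fun p => ⟨ω p.1 • φ p.2, hT1 p.1 p.2⟩) (fun i => ⟨ψ i, hT2 i⟩)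
  have hv : LinearIndependent k v := by
    refine LinearIndependent.of_comp (hom F (line (κ + κ))).H0.subtype ?_
    refine Fintype.linearIndependent_iff.2 fun g hg => ?_
    have h1 : ∑ p : Fin γ × Fin h, g (Sum.inl p) • (ω p.1 • φ p.2) +
        ∑ i : Fin a, g (Sum.inr i) • ψ i = 0 := by
      rw [← hg, Fintype.sum_sum_type]
      rfl
    have h3 : ∀ l, φ l x0 = 0 := fun l => hx0 _ (hφ l)
    have h4 : ∑ i : Fin a, g (Sum.inr i) • ψ i x0 = 0 := by
      have h5 := LinearMap.congr_fun h1 x0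
      rw [LinearMap.add_apply, LinearMap.sum_apply, LinearMap.sum_apply, LinearMap.zero_apply] at h5
      rw [Finset.sum_eq_zero (fun p _ => ?_), zero_add] at h5
      · exact h5
      · show g (Sum.inl p) • (ω p.1 • φ p.2 x0) = 0
        rw [h3, smul_zero, smul_zero]
    have h6 : ∀ i, g (Sum.inr i) = 0 :=
      Fintype.linearIndependent_iff.1 hli (fun i => g (Sum.inr i)) h4
    have h7 : ∑ l : Fin h, (∑ b : Fin γ, g (Sum.inl (b, l)) • ω b) • φ l = 0 := by
      rw [← h1, Finset.sum_eq_zero (s := (Finset.univ : Finset (Fin a)))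
        (fun i _ => by rw [h6, zero_smul]), add_zero, Fintype.sum_prod_type, Finset.sum_comm]
      refine Finset.sum_congr rfl fun l _ => ?_
      rw [Finset.sum_smul]
      exact Finset.sum_congr rfl fun b _ => smul_assoc _ _ _
    have h8 := Fintype.linearIndependent_iff.1 hliK _ h7
    rintro (⟨b, l⟩ | i)
    · exact Fintype.linearIndependent_iff.1 hliω (fun b => g (Sum.inl (b, l))) (h8 l) b
    · exact h6 i
  have h9 := hv.fintype_card_le_finrank
  rw [Fintype.card_sum, Fintype.card_prod, Fintype.card_fin, Fintype.card_fin,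
    Fintype.card_fin] at h9
  unfold VB.h0
  exact_mod_cast h9

end Pool.Agent.MP_09eaec.GG.BG
end

section

/-!
# TASK DataE: the numerical data of a subspace `S` of `E = ext (G.twist κ) (pw κ j) u`

The same proof as `sys_in` (GG/SysIn.lean), for `E1 = G.twist κ`: `φ : Fin h → _` from `exists_hom_basis`, `I = ⨅ ker (φ i)`,
`T = (I.map S.subtype).comap inl`, `i = finrank T`, `(E1.sub T).deg = (G.sub T).deg + i (2 gen - 2)` (`VB.twist_sub`,
`VB.deg_twist`, `hκ.ddeg`). New: the last clause. If `¬ T ≤ ker q` let `x ∈ T` with `q x ≠ 0`, `x0 = (x, 0) ∈ S`. For `i : Fin a`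
the map `(x, y) ↦ σ i * q x + ψ y` (`ψ` from `hψ i`) maps `E.M P` to `(line (κ + κ)).M P`: an element of `E.M P` is
`(x, y)`, `y ∈ (pw κ j).M P`, `x = x' + u P y`, `x' ∈ (G.twist κ).M P`. With `t`, `P.ord t = κ P`: `t • x' ∈ G.M P`, so
`q (t x') ∈ (line D).M P` and `σ i * q (t x') ∈ (line κ).M P`; `t • y ∈ (pw 0 j).M P`, so
`σ i * q (u P (t y)) + ψ (t y) ∈ (line κ).M P`; divide the sum by `t`. At `x0` the values are `σ i * q x`,
`k`-independent since the `σ i` are and `q x ≠ 0`. All maps `E.sub S → κ` kill `x0` (`hspan`, `x0 ∈ I`). So `count_ineq`.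
-/

set_option autoImplicit false

namespace Pool.Agent.MP_09eaec.GG.BG

open Module

universe u v

variable {k : Type u} {K : Type v} [Field k] [Field K] [Algebra k K]
variable {W : Type v} [AddCommGroup W] [Module K W] [Module k W] [IsScalarTower k K W]
variable {A : Type v} [AddCommGroup A] [Module K A] [Module k A] [IsScalarTower k K A]
variable {B : Type v} [AddCommGroup B] [Module K B] [Module k B] [IsScalarTower k K B]

variable [CurveG k K]

theorem data_E {κ : Dv k K} (hκ : IsCanonical κ) [FiniteDimensional K A] {G : VB k K A}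
    {q : A →ₗ[K] K} {D : Dv k K} (hq : ∀ P x, x ∈ G.M P → q x ∈ (line D).M P) {a j : ℕ}
    {σ : Fin a → K} (hσ : LinearIndependent k σ) (hσD : ∀ i, σ i ∈ (line (κ - D)).H0)
    (u : Place k K →₀ ((Fin j → K) →ₗ[K] A))
    (hψ : ∀ i : Fin a, ∃ ψ : (Fin j → K) →ₗ[K] K, ∀ (P : Place k K) (y : Fin j → K),
        y ∈ (pw (0 : Dv k K) j).M P → σ i * q (u P y) + ψ y ∈ (line κ).M P)
    (h0 : ((ext (G.twist κ) (pw κ j) u).twist (-κ)).H0 = ⊥)
    (S : Submodule K (A × (Fin j → K))) {P : Place k K}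
    (hP : ∀ φ : S →ₗ[K] K, (∀ Q x, x ∈ ((ext (G.twist κ) (pw κ j) u).sub S).M Q →
      φ x ∈ (line (κ - Finsupp.single P 1)).M Q) → φ = 0) :
    ∃ (h : ℕ) (T : Submodule K A), finrank K T + h = finrank K S ∧
      ((ext (G.twist κ) (pw κ j) u).sub S).deg ≤
        (G.sub T).deg + (finrank K T + h) * (2 * gen k K - 2) ∧
      gen k K * h ≤ (3 * gen k K - 3) * finrank K S - ((ext (G.twist κ) (pw κ j) u).sub S).deg ∧
      (¬ T ≤ LinearMap.ker q → gen k K * h + a ≤
        (3 * gen k K - 3) * finrank K S - ((ext (G.twist κ) (pw κ j) u).sub S).deg) := by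
  classical
  have hF : (((ext (G.twist κ) (pw κ j) u).sub S).twist (-κ)).H0 = ⊥ := by
    rw [← VB.twist_sub]
    exact VB.H0_sub_bot h0 S
  have hA := a_ineq hκ ((ext (G.twist κ) (pw κ j) u).sub S) hF hP
  obtain ⟨h, φ, hh, hφH, hspan, -, hli⟩ :=
    exists_hom_basis hκ ((ext (G.twist κ) (pw κ j) u).sub S) hP
  have hφ : ∀ i Q x, x ∈ ((ext (G.twist κ) (pw κ j) u).sub S).M Q → φ i x ∈ (line κ).M Q := by
    intro i Q x hx
    exact (VB.mem_H0.1 (hφH i) Q) x hx
  obtain ⟨hdeg, hrk⟩ := ker_all ((ext (G.twist κ) (pw κ j) u).sub S) φ hli hφ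
  set I : Submodule K S := ⨅ i, LinearMap.ker (φ i) with hI
  have hkill : ∀ x ∈ I, ∀ p ∈ (hom ((ext (G.twist κ) (pw κ j) u).sub S) (line κ)).H0,
      p x = 0 := by
    intro x hx p hp
    have hp2 := hspan p hp
    have hp3 : ∀ ψ ∈ Submodule.span k (Set.range φ), ψ x = 0 := by
      intro ψ hψ
      induction hψ using Submodule.span_induction with
      | mem ψ hψ =>
        obtain ⟨i, rfl⟩ := hψ
        have := (Submodule.mem_iInf _).1 hx i
        exact this
      | zero => rfl
      | add a b _ _ ha hb => rw [LinearMap.add_apply, ha, hb, add_zero]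
      | smul c a _ ha => rw [LinearMap.smul_apply, ha, smul_zero]
    exact hp3 p hp2
  have hsnd : (I.map S.subtype).map (LinearMap.snd K A (Fin j → K)) = ⊥ := by
    rw [Submodule.eq_bot_iff]
    rintro _ ⟨_, ⟨x, hx, rfl⟩, rfl⟩
    funext l
    let p : S →ₗ[K] K := (LinearMap.proj l ∘ₗ LinearMap.snd K A (Fin j → K)) ∘ₗ S.subtype
    have hp : p ∈ (hom ((ext (G.twist κ) (pw κ j) u).sub S) (line κ)).H0 := by
      rw [VB.mem_H0]
      intro Q
      rw [mem_hom]
      intro b hb
      exact (hb.1 : _) l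
    exact hkill x hx p hp
  have hinl := eq_map_inl hsnd
  set T : Submodule K A := (I.map S.subtype).comap (LinearMap.inl K A (Fin j → K)) with hT
  have hdegI : (((ext (G.twist κ) (pw κ j) u).sub S).sub I).deg = ((G.twist κ).sub T).deg := by
    rw [VB.deg_sub_sub, hinl, deg_sub_inl]
  have hrT : finrank K T = finrank K I := by
    have e1 : finrank K I = finrank K ↥(I.map S.subtype) :=
      (Submodule.equivMapOfInjective S.subtype (Submodule.injective_subtype S) I).finrank_eq
    have e2 : finrank K T = finrank K ↥(T.map (LinearMap.inl K A (Fin j → K))) :=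
      (Submodule.equivMapOfInjective (LinearMap.inl K A (Fin j → K)) LinearMap.inl_injective
        T).finrank_eq
    rw [e1, e2, ← hinl]
  refine ⟨h, T, ?_, ?_, ?_, ?_⟩
  · rw [hrT]; exact hrk
  · rw [hdegI, hκ.ddeg, VB.twist_sub, VB.deg_twist, hκ.ddeg] at hdeg
    linarith
  · rw [← hh] at hA
    exact hA
  · intro hTq
    obtain ⟨x, hxT, hxq⟩ := Set.not_subset.1 hTq
    have hq0 : q x ≠ 0 := fun h => hxq h
    obtain ⟨s, hsI, hs⟩ : ∃ s ∈ I, S.subtype s = (x, (0 : Fin j → K)) := hxT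
    choose ψ hψ' using hψ
    let ψ' : Fin a → (S →ₗ[K] K) := fun i =>
      (σ i • (q ∘ₗ LinearMap.fst K A (Fin j → K)) + ψ i ∘ₗ LinearMap.snd K A (Fin j → K)) ∘ₗ
        S.subtype
    have hψa : ∀ i (z : S), ψ' i z = σ i * q (z : A × (Fin j → K)).1 +
        ψ i (z : A × (Fin j → K)).2 := fun i z => rfl
    have h1 : ∀ i Q z, z ∈ ((ext (G.twist κ) (pw κ j) u).sub S).M Q →
        ψ' i z ∈ (line (κ + κ)).M Q := by
      intro i Q z hz
      rw [VB.mem_sub, mem_ext] at hz
      obtain ⟨hz2, hz1⟩ := hz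
      obtain ⟨t, ht, htm⟩ := exists_ord_eq Q (κ Q)
      rw [hψa]
      set x' : A := (z : A × (Fin j → K)).1
      set y : Fin j → K := (z : A × (Fin j → K)).2
      have e1 : t • (x' - u Q y) ∈ G.M Q := (VB.mem_twist.1 hz1) t (Or.inr htm.ge)
      have e2 : σ i * q (t • (x' - u Q y)) ∈ Q.filt (-(κ - D) Q + -D Q) := by
        have hs1 := VB.mem_H0.1 (hσD i) Q
        have hs2 := hq Q _ e1
        exact mul_mem_filt Q hs1 hs2
      have e3 : t • y ∈ (pw (0 : Dv k K) j).M Q := by
        rw [mem_pw]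
        intro l
        have hy := mem_pw.1 hz2 l
        have := mul_mem_filt Q (Or.inr htm.ge : t ∈ Q.filt (κ Q)) hy
        refine filt_mono Q ?_ this
        simp
      have e4 := hψ' i Q _ e3
      have e5 : t * (σ i * q x' + ψ i y) ∈ Q.filt (-κ Q) := by
        have h6 : t * (σ i * q x' + ψ i y) = σ i * q (t • (x' - u Q y)) +
            (σ i * q (u Q (t • y)) + ψ i (t • y)) := by
          simp only [map_smul, map_sub, smul_eq_mul]
          ring
        rw [h6]
        refine add_mem (filt_mono Q ?_ e2) e4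
        simp
      rw [mem_line, ← mem_filt_iff_of_ord Q ht htm]
      refine filt_mono Q ?_ e5
      simp
    have h2 : LinearIndependent k (fun i => ψ' i s) := by
      have h3 : (fun i => ψ' i s) = (LinearMap.mulRight k (q x)) ∘ σ := by
        funext i
        rw [hψa]
        have hs' : (s : A × (Fin j → K)) = (x, (0 : Fin j → K)) := hs
        rw [hs']
        simp
      rw [h3]
      refine hσ.map' _ ?_
      rw [LinearMap.ker_eq_bot']
      intro c hc
      rw [LinearMap.mulRight_apply] at hc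
      exact (mul_eq_zero.1 hc).resolve_right hq0
    have h4 := count_ineq hκ ((ext (G.twist κ) (pw κ j) u).sub S) hF hP ψ' h1 s
      (fun p hp => hkill s hsI p hp) h2
    rw [← hh] at h4
    exact h4

end Pool.Agent.MP_09eaec.GG.BG
end

section

/-!
# TASK LowerA: the first lower bound

`n = finrank K W ≥ 1`, `v = finrank k V`, `d = E.deg`; `J0` from `exists_J0` (`r0 = finrank K J0 ≥ 1`, `v0 = vd V J0`):
`v * r0 ≤ v0 * n`, `(E.sub J0).deg * n ≤ d * r0`.
* `lower_a`: `exists_J0` with `D = κ - single P 1` (any point `P`, `infinite_places`), `b = gen - 1` (`hκ.h0_sub`):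
  `h1_le_rank` for `E.sub J0`: `(E.sub J0).h1 ≤ r0`; `rr`: `v0 ≤ (E.sub J0).h0 ≤ (E.sub J0).deg - (gen - 2) r0`
  (`vd_le_h0`). So `v r0 ≤ v0 n ≤ (E.sub J0).deg n - (gen - 2) r0 n ≤ r0 (d - (gen - 2) n)`, cancel `r0`.
* `lower_a'`: `exists_J0` with `D = κ`, `b = gen`: `(hom (E.sub J0) (line κ)).H0 = ⊥`, so
  `(E.sub J0).h1 = 0` (`hκ.dual`), `v0 ≤ (E.sub J0).deg - (gen - 1) r0`, the rest is the same.
-/

set_option autoImplicit false

namespace Pool.Agent.MP_09eaec.GG

open Module

universe u v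

variable {k : Type u} {K : Type v} [Field k] [Field K] [Algebra k K]
variable {W : Type v} [AddCommGroup W] [Module K W] [Module k W] [IsScalarTower k K W]
variable {A : Type v} [AddCommGroup A] [Module K A] [Module k A] [IsScalarTower k K A]
variable {B : Type v} [AddCommGroup B] [Module K B] [Module k B] [IsScalarTower k K B]

variable [CurveG k K]

theorem lower_a {κ : Dv k K} (hκ : IsCanonical κ) [FiniteDimensional K W] {E : VB k K W}
    {V : Submodule k W} (hV : V ≤ E.H0) {α : ℝ} (hα : 0 < α) (hn : 1 ≤ finrank K W)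
    (hst : E.StableSys α V) (hk : (gen k K - 1) * finrank K W < finrank k V) :
    (finrank k V : ℤ) + (gen k K - 2) * finrank K W ≤ E.deg := by
  obtain ⟨J0, hJ0, h1, h2, h3⟩ := exists_J0 hV hα hn hst
  have hinf : Infinite (Place k K) := infinite_places (k := k) (K := K)
  obtain ⟨P⟩ : Nonempty (Place k K) := inferInstance
  have h4 := h3 (κ - Finsupp.single P 1) (by rw [hκ.h0_sub]; exact hk)
  have h5 := h1_le_rank hκ (E.sub J0) h4
  have h6 := VB.rr (E.sub J0)
  have h7 := vd_le_h0 hV J0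
  have hr0 : (0 : ℤ) < finrank K J0 := by
    have : 0 < finrank K J0 := by
      rw [Nat.pos_iff_ne_zero]
      intro h
      exact hJ0 (Submodule.finrank_eq_zero.1 h)
    exact_mod_cast this
  have h8 : (vd V J0 : ℤ) ≤ (E.sub J0).deg - (gen k K - 2) * finrank K J0 := by linarith
  have hn0 : (0 : ℤ) ≤ finrank K W := by positivity
  have h9 := mul_le_mul_of_nonneg_right h8 hn0
  have h10 : ((finrank k V : ℤ) + (gen k K - 2) * finrank K W) * finrank K J0 ≤
      E.deg * finrank K J0 := by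
    nlinarith
  exact le_of_mul_le_mul_right h10 hr0

theorem lower_a' {κ : Dv k K} (hκ : IsCanonical κ) [FiniteDimensional K W] {E : VB k K W}
    {V : Submodule k W} (hV : V ≤ E.H0) {α : ℝ} (hα : 0 < α) (hn : 1 ≤ finrank K W)
    (hst : E.StableSys α V) (hk : gen k K * finrank K W < finrank k V) :
    (finrank k V : ℤ) + (gen k K - 1) * finrank K W ≤ E.deg := by
  obtain ⟨J0, hJ0, h1, h2, h3⟩ := exists_J0 hV hα hn hst
  have h4 := h3 κ (by rw [hκ.h0]; exact hk)
  have h5 : (E.sub J0).h1 = 0 := by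
    rw [hκ.dual J0 (E.sub J0)]
    have : (hom (E.sub J0) (line κ)).H0 = ⊥ := by
      rw [eq_bot_iff]
      intro φ hφ
      rw [Submodule.mem_bot]
      exact h4 φ fun Q x hx => VB.mem_H0.1 hφ Q x hx
    rw [VB.h0, this, finrank_bot]
    rfl
  have h6 := VB.rr (E.sub J0)
  have h7 := vd_le_h0 hV J0
  have hr0 : (0 : ℤ) < finrank K J0 := by
    have : 0 < finrank K J0 := by
      rw [Nat.pos_iff_ne_zero]
      intro h
      exact hJ0 (Submodule.finrank_eq_zero.1 h)
    exact_mod_cast this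
  have h8 : (vd V J0 : ℤ) ≤ (E.sub J0).deg - (gen k K - 1) * finrank K J0 := by linarith
  have hn0 : (0 : ℤ) ≤ finrank K W := by positivity
  have h9 := mul_le_mul_of_nonneg_right h8 hn0
  have h10 : ((finrank k V : ℤ) + (gen k K - 1) * finrank K W) * finrank K J0 ≤
      E.deg * finrank K J0 := by
    nlinarith
  exact le_of_mul_le_mul_right h10 hr0

end Pool.Agent.MP_09eaec.GG
end

section

/-!
# TASK HB0: sections of the subspaces of a stable bundle of large slope

`m = finrank K A`, `G` stable, `(2 g - 1) m < deg G`.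
* `hb0`: strong induction on `finrank K J`. `Y = G.sub J`. `G` stable: `m deg Y < deg G rank J`. If `Y.h1 = 0`:
  `Y.h0 = deg Y - (g - 1) rank J` (`VB.rr`), done. Otherwise there is `φ ≠ 0` from `Y` to `line κ` (`h1_pos_hom`, GG/SysDefs),
  `ker_bounds` with `V = Y.H0`: `Y.h0 ≤ h0 (kernel) + g` (`hκ.h0`), the kernel is `G.sub J1`, `J1 = (ker φ).map J.subtype`, of rank one less
  (`h0_sub_sub`, `h0_sub_eq`). If `J1 = ⊥` its `h0` is `0`, otherwise the induction applies; and `m g < deg G - (g - 1) m`.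
* `stable_h1`: `h1 G = (hom G (line κ)).h0 = 0`, `stable_hom_zero` (HY/StabVan) with `D = κ`.
* `stable_h1_point`: `h1 (G.twist (-single P 1)) = (hom (G.twist (-single P 1)) (line κ)).h0 = (hom G (line (κ + single P 1))).h0
  = 0` (`hom_twist_line` in HY/FHdual, `stable_hom_zero`, `ddeg = 2 g - 1`).
-/

set_option autoImplicit false

namespace Pool.Agent.MP_09eaec.GG.G3

open Module

universe u v

variable {k : Type u} {K : Type v} [Field k] [Field K] [Algebra k K]
variable {W : Type v} [AddCommGroup W] [Module K W] [Module k W] [IsScalarTower k K W]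
variable {A : Type v} [AddCommGroup A] [Module K A] [Module k A] [IsScalarTower k K A]
variable {B : Type v} [AddCommGroup B] [Module K B] [Module k B] [IsScalarTower k K B]

variable [CurveG k K]

private theorem HB0_aux {κ : Dv k K} (hκ : IsCanonical κ) [FiniteDimensional K A] {G : VB k K A}
    (hG : G.Stable) (hm : 1 ≤ finrank K A) (hd : (2 * gen k K - 1) * finrank K A < G.deg) :
    ∀ (r : ℕ) (J : Submodule K A), finrank K J = r → J ≠ ⊥ → J ≠ ⊤ →
      finrank K A * (G.sub J).h0 < (G.deg - (gen k K - 1) * finrank K A) * finrank K J := by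
  intro r
  induction r using Nat.strong_induction_on with
  | _ r ih =>
    intro J hr hJ hJ'
    have hst := hG J hJ hJ'
    have hm' : (1 : ℤ) ≤ finrank K A := by exact_mod_cast hm
    have hr1 : 1 ≤ finrank K J := Nat.pos_of_ne_zero fun h => hJ (Submodule.finrank_eq_zero.1 h)
    by_cases h1 : (G.sub J).h1 = 0
    · have h2 := VB.rr (G.sub J)
      rw [h1, add_zero] at h2
      rw [h2]
      linear_combination hst
    · obtain ⟨φ, hφ, hφ'⟩ := h1_pos_hom hκ h1
      obtain ⟨-, h2, h3⟩ := ker_bounds hφ hφ'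
      have h4 := h3 (G.sub J).H0 le_rfl
      rw [hκ.h0] at h4
      have h5 : (G.sub J).h0 ≤ (G.sub ((LinearMap.ker φ).map J.subtype)).h0 + gen k K := by
        rw [← VB.h0_sub_sub, VB.h0_sub_eq (G.sub J) (LinearMap.ker φ)]
        exact h4
      have h6 : finrank K ((LinearMap.ker φ).map J.subtype) = finrank K (LinearMap.ker φ) :=
        Submodule.finrank_map_subtype_eq J (LinearMap.ker φ)
      have hMh : (finrank K A : ℤ) * (G.sub J).h0 ≤
          finrank K A * ((G.sub ((LinearMap.ker φ).map J.subtype)).h0 + gen k K) :=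
        mul_le_mul_of_nonneg_left h5 (by linarith)
      by_cases h7 : (LinearMap.ker φ).map J.subtype = ⊥
      · rw [h7, finrank_bot] at h6
        rw [← h6] at h2
        rw [h7, VB.h0_sub_bot, zero_add] at hMh
        have h8 : (finrank K J : ℤ) = 1 := by
          push_cast at h2
          linarith
        rw [h8, mul_one]
        linarith
      · have h8 : (LinearMap.ker φ).map J.subtype ≠ ⊤ := by
          intro h9
          apply hJ'
          rw [eq_top_iff, ← h9]
          exact Submodule.map_subtype_le J _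
        have h9 := ih (finrank K ((LinearMap.ker φ).map J.subtype)) (by omega)
          ((LinearMap.ker φ).map J.subtype) rfl h7 h8
        rw [h6, h2] at h9
        linarith

theorem hb0 {κ : Dv k K} (hκ : IsCanonical κ) [FiniteDimensional K A] {G : VB k K A}
    (hG : G.Stable) (hm : 1 ≤ finrank K A) (hd : (2 * gen k K - 1) * finrank K A < G.deg)
    {J : Submodule K A} (hJ : J ≠ ⊥) (hJ' : J ≠ ⊤) :
    finrank K A * (G.sub J).h0 < (G.deg - (gen k K - 1) * finrank K A) * finrank K J :=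
  HB0_aux hκ hG hm hd _ J rfl hJ hJ'

theorem stable_h1 {κ : Dv k K} (hκ : IsCanonical κ) [FiniteDimensional K A] {G : VB k K A}
    (hG : G.Stable) (hm : 1 ≤ finrank K A) (hd : (2 * gen k K - 1) * finrank K A < G.deg) :
    G.h1 = 0 := by
  have hm' : (1 : ℤ) ≤ finrank K A := by exact_mod_cast hm
  rw [hκ.dual A G]
  refine stable_hom_zero hG hm ?_
  rw [hκ.ddeg]
  linarith

theorem stable_h1_point {κ : Dv k K} (hκ : IsCanonical κ) [FiniteDimensional K A] {G : VB k K A}
    (hG : G.Stable) (hm : 1 ≤ finrank K A) (hd : (2 * gen k K - 1) * finrank K A < G.deg)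
    (P : Place k K) : (G.twist (-Finsupp.single P 1)).h1 = 0 := by
  have hm' : (1 : ℤ) ≤ finrank K A := by exact_mod_cast hm
  rw [hκ.dual A (G.twist (-Finsupp.single P 1)), hom_twist_line]
  refine stable_hom_zero hG hm ?_
  rw [ddeg_sub, ddeg_neg, ddeg_single, hκ.ddeg]
  linarith

end Pool.Agent.MP_09eaec.GG.G3
end
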