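import Pool.Agent.Lib.MP_09eaec_ag.Mg.G005
import Pool.Agent.Lib.MP_09eaec_ag.Mg.G004
import Pool.Agent.Lib.MP_09eaec_ag.Mg.G003
import Pool.Agent.Lib.MP_09eaec_ag.Mg.G009

section

/-!
# TASK SysH1: `h1 ≥ j`

`E = ext E1 (pw κ j) u`. The `j` maps `p_l : (x, y) ↦ y l` are in `H0 (hom E (line κ))` (`mem_ext`, `mem_pw`,
`mem_line`), they are `k`-independent in `(A × (Fin j → K)) →ₗ[K] K` (evaluate at `(0, Pi.single l 1)`),
`hκ.dual`, finite dimension (`finite_H0`): `LinearIndependent.fintype_card_le_finrank`.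
-/

set_option autoImplicit false

namespace Pool.Agent.MP_09eaec.GG

open Module

universe u v

variable {k : Type u} {K : Type v} [Field k] [Field K] [Algebra k K]
variable {W : Type v} [AddCommGroup W] [Module K W] [Module k W] [IsScalarTower k K W]
variable {A : Type v} [AddCommGroup A] [Module K A] [Module k A] [IsScalarTower k K A]
variable {B : Type v} [AddCommGroup B] [Module K B] [Module k B] [IsScalarTower k K B]

variable [CurveG k K]

omit [CurveG k K] in
/-- the projections -/
private def SysH1_p (j : ℕ) (l : Fin j) : (A × (Fin j → K)) →ₗ[K] K :=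
  (LinearMap.proj l : (Fin j → K) →ₗ[K] K) ∘ₗ LinearMap.snd K A (Fin j → K)

theorem le_h1_ext {κ : Dv k K} (hκ : IsCanonical κ) [FiniteDimensional K A] (E1 : VB k K A)
    {j : ℕ} (u : Place k K →₀ ((Fin j → K) →ₗ[K] A)) : (j : ℤ) ≤ (ext E1 (pw κ j) u).h1 := by
  classical
  rw [hκ.dual _ (ext E1 (pw κ j) u)]
  have hmem : ∀ l : Fin j, SysH1_p (K := K) (A := A) j l ∈
      (hom (ext E1 (pw κ j) u) (line κ)).H0 := by
    intro l
    rw [VB.mem_H0]
    intro P
    rw [mem_hom]
    intro b hb
    rw [mem_line]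
    exact mem_pw.1 (mem_ext.1 hb).1 l
  set H : Submodule k ((A × (Fin j → K)) →ₗ[K] K) :=
    (hom (ext E1 (pw κ j) u) (line κ)).H0 with hH
  let f : (Fin j → k) →ₗ[k] H :=
    { toFun := fun c => ⟨∑ l, c l • SysH1_p (K := K) (A := A) j l,
        Submodule.sum_mem _ fun l _ => Submodule.smul_mem _ _ (hmem l)⟩
      map_add' := by
        intro c d
        apply Subtype.ext
        show ∑ l, (c l + d l) • SysH1_p (K := K) (A := A) j l =
          ∑ l, c l • SysH1_p (K := K) (A := A) j l + ∑ l, d l • SysH1_p (K := K) (A := A) j l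
        rw [← Finset.sum_add_distrib]
        exact Finset.sum_congr rfl fun l _ => add_smul _ _ _
      map_smul' := by
        intro c d
        apply Subtype.ext
        show ∑ l, (c * d l) • SysH1_p (K := K) (A := A) j l =
          c • ∑ l, d l • SysH1_p (K := K) (A := A) j l
        rw [Finset.smul_sum]
        exact Finset.sum_congr rfl fun l _ => mul_smul _ _ _ }
  have hf : Function.Injective f := by
    rw [injective_iff_map_eq_zero]
    intro c hc
    have h1 : ∑ l, c l • SysH1_p (K := K) (A := A) j l = 0 := congrArg Subtype.val hc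
    funext i
    have h3 := LinearMap.congr_fun h1 ((0 : A), (Pi.single i (1 : K) : Fin j → K))
    rw [LinearMap.sum_apply] at h3
    have h4 : ∑ l, (c l • SysH1_p (K := K) (A := A) j l)
        ((0 : A), (Pi.single i (1 : K) : Fin j → K)) = c i • (1 : K) := by
      rw [Finset.sum_eq_single i]
      · rw [LinearMap.smul_apply]
        simp [SysH1_p]
      · intro l _ hl
        rw [LinearMap.smul_apply]
        simp [SysH1_p, hl]
      · intro h
        exact absurd (Finset.mem_univ i) h
    rw [h4] at h3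
    have h5 : c i • (1 : K) = 0 := h3
    rw [smul_eq_zero] at h5
    exact h5.resolve_right one_ne_zero
  have h6 := f.finrank_le_finrank_of_injective hf
  rw [finrank_fin_fun] at h6
  unfold VB.h0
  exact_mod_cast h6

end Pool.Agent.MP_09eaec.GG
end

section

/-!
# TASK B11: adding a generic vector at a point

* `exists_oneStep`: `E'.M P0 = E.M P0 + k w0`, `E'.M P = E.M P` for `P ≠ P0`. It is stable under
  multiplication by `c ∈ P0.filt 0`: `c = c0 + c1` with `c0 : k`, `c1 ∈ P0.filt 1` (`exists_residue`,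
  file Residue.lean), `c1 w0 ∈ E.M P0`. `lower` from `E`; `upper`: `e - ` something at `P0`: for `x = y + c w0`,
  `t x ∈ E.M P0` for `t` of order one, so `φ x ∈ P0.filt (e P0 - 1)`.
* `exists_generic_vector`: let `M1 = {w | ∀ c ∈ P0.filt 1, c w ∈ E.M P0} = t⁻¹ E.M P0` (`t` of order one).
  For `J ≠ ⊤` the `k`-subspace `S_J = {w ∈ M1 | ∃ j ∈ J, w - j ∈ E.M P0}` of `M1` is proper: otherwise in
  `W ⧸ J ≠ 0` the stalk `M' = (E.quo J).M P0` satisfies `t⁻¹ M' ⊆ M'`, so `t^(-n) M' ⊆ M'` for all `n`; take a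
  functional `φ` and `x ∈ M'` with `φ x ≠ 0` (`lower` gives nonzero multiples of every vector in `M'`):
  `φ (t^(-n) x)` contradicts `upper`. `k` is infinite, so there is `w0 ∈ M1` outside the finitely many
  `S_J`, `J ∈ S ∪ {⊥}` (`Subspace.exists_eq_top_of_iUnion_eq_univ` or similar name, applied in `M1`).
  (`W` nontrivial is needed for `J = ⊥ ≠ ⊤`.)
* `deg_sub_oneStep`: `E.sub J ≤ E'.sub J` and either they are equal, or it is a `OneStep` with the vector
  `y ∈ J ∩ E'.M P0`, `y ∉ E.M P0`; then `y = x + c w0`, `c ≠ 0`, `x ∈ E.M P0`, so `w0 - c⁻¹ y ∈ E.M P0`.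
-/

set_option autoImplicit false

namespace Pool.Agent.MP_09eaec.GG

open Module

universe u v

variable {k : Type u} {K : Type v} [Field k] [Field K] [Algebra k K]
variable {W : Type v} [AddCommGroup W] [Module K W] [Module k W] [IsScalarTower k K W]
variable {A : Type v} [AddCommGroup A] [Module K A] [Module k A] [IsScalarTower k K A]
variable {B : Type v} [AddCommGroup B] [Module K B] [Module k B] [IsScalarTower k K B]

variable [CurveG k K]

namespace VB

private lemma AddVec_filt_one {P : Place k K} {c : K} (hc : c ∈ P.filt 0) :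
    ∃ c0 : k, c - algebraMap k K c0 ∈ P.filt 1 := by
  have := Curve.closed (k := k) (K := K)
  have := Curve.char (k := k) (K := K)
  obtain ⟨c0, h⟩ := exists_residue (Curve.curve (k := k) (K := K)) P (f := c) hc
  refine ⟨c0, ?_⟩
  rcases h with h | h
  · exact Or.inl h
  · exact Or.inr (by omega)

theorem exists_oneStep (E : VB k K W) (P0 : Place k K) (w0 : W)
    (h : ∀ c ∈ P0.filt 1, c • w0 ∈ E.M P0) (h' : w0 ∉ E.M P0) :
    ∃ E' : VB k K W, OneStep E E' P0 w0 := by
  classical
  have key : ∀ (c : K) (x : W), c ∈ P0.filt 0 → x ∈ E.M P0 ⊔ Submodule.span k {w0} →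
      c • x ∈ E.M P0 ⊔ Submodule.span k {w0} := by
    intro c x hc hx
    obtain ⟨y, hy, z, hz, rfl⟩ := Submodule.mem_sup.1 hx
    obtain ⟨a, rfl⟩ := Submodule.mem_span_singleton.1 hz
    obtain ⟨c0, hc0⟩ := AddVec_filt_one hc
    rw [smul_add]
    refine add_mem (Submodule.mem_sup_left (E.smul_mem P0 c y hc hy)) ?_
    have h1 : c • a • w0 = a • ((c - algebraMap k K c0) • w0) + a • c0 • w0 := by
      rw [← smul_add, ← algebraMap_smul K c0 w0, ← add_smul, sub_add_cancel, smul_comm]
    rw [h1]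
    exact add_mem (Submodule.mem_sup_left ((E.M P0).smul_mem a (h _ hc0)))
      (Submodule.mem_sup_right (Submodule.smul_mem _ a (Submodule.smul_mem _ c0
        (Submodule.mem_span_singleton_self w0))))
  refine ⟨{ M := fun P => if P = P0 then E.M P0 ⊔ Submodule.span k {w0} else E.M P
            smul_mem := ?_
            lower := ?_
            upper := ?_ }, ?_⟩
  · intro P c x hc hx
    by_cases hP : P = P0
    · subst hP
      rw [if_pos rfl] at hx ⊢
      exact key c x hc hx
    · rw [if_neg hP] at hx ⊢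
      exact E.smul_mem P c x hc hx
  · intro w
    obtain ⟨e, he⟩ := E.lower w
    refine ⟨e, fun P c hc => ?_⟩
    by_cases hP : P = P0
    · subst hP
      rw [if_pos rfl]
      exact Submodule.mem_sup_left (he P c hc)
    · rw [if_neg hP]
      exact he P c hc
  · intro φ
    obtain ⟨e, he⟩ := E.upper φ
    refine ⟨e - Finsupp.single P0 1, fun P x hx => ?_⟩
    by_cases hP : P = P0
    · subst hP
      rw [if_pos rfl] at hx
      obtain ⟨t, ht, htm⟩ := exists_ord_eq P 1
      have ht1 : t ∈ P.filt 1 := Or.inr htm.ge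
      have h1 : t • x ∈ E.M P := by
        obtain ⟨y, hy, z, hz, rfl⟩ := Submodule.mem_sup.1 hx
        obtain ⟨a, rfl⟩ := Submodule.mem_span_singleton.1 hz
        rw [smul_add, smul_comm]
        exact add_mem (E.smul_mem P t y (filt_mono P (by omega) ht1) hy)
          ((E.M P).smul_mem a (h t ht1))
      have h2 := he P _ h1
      rw [map_smul, smul_eq_mul] at h2
      rw [← mem_filt_iff_of_ord P ht htm]
      convert h2 using 2
      simp
    · rw [if_neg hP] at hx
      have h1 := he P x hx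
      have h2 : (e - Finsupp.single P0 1 : Dv k K) P = e P := by
        rw [Finsupp.sub_apply, Finsupp.single_apply, if_neg (Ne.symm hP), sub_zero]
      rw [h2]; exact h1
  · refine ⟨?_, ?_, ?_, h', ?_⟩
    · intro P x hx
      by_cases hP : P = P0
      · subst hP
        show x ∈ if P = P then E.M P ⊔ Submodule.span k {w0} else E.M P
        rw [if_pos rfl]
        exact Submodule.mem_sup_left hx
      · show x ∈ if P = P0 then E.M P0 ⊔ Submodule.span k {w0} else E.M P
        rw [if_neg hP]; exact hx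
    · intro P hP
      show E.M P = if P = P0 then E.M P0 ⊔ Submodule.span k {w0} else E.M P
      rw [if_neg hP]
    · show w0 ∈ if P0 = P0 then E.M P0 ⊔ Submodule.span k {w0} else E.M P0
      rw [if_pos rfl]
      exact Submodule.mem_sup_right (Submodule.mem_span_singleton_self w0)
    · intro y hy
      have hy' : y ∈ if P0 = P0 then E.M P0 ⊔ Submodule.span k {w0} else E.M P0 := hy
      rw [if_pos rfl] at hy'
      obtain ⟨x, hx, z, hz, rfl⟩ := Submodule.mem_sup.1 hy'
      obtain ⟨a, rfl⟩ := Submodule.mem_span_singleton.1 hz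
      exact ⟨a, by rwa [add_sub_cancel_right]⟩

private lemma AddVec_not_le (E : VB k K W) (P0 : Place k K) {J : Submodule K W} (hJ : J ≠ ⊤) :
    ∃ w : W, (∀ c ∈ P0.filt 1, c • w ∈ E.M P0) ∧
      w ∉ E.M P0 ⊔ J.restrictScalars k := by
  by_contra hcon
  push Not at hcon
  obtain ⟨t, ht, htm⟩ := exists_ord_eq P0 1
  have step : ∀ x ∈ (E.quo J).M P0, t⁻¹ • x ∈ (E.quo J).M P0 := by
    intro x hx
    obtain ⟨y, hy, rfl⟩ := mem_quo.1 hx
    have h1 : t⁻¹ • y ∈ E.M P0 ⊔ J.restrictScalars k := by
      apply hcon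
      intro c hc
      rw [← mul_smul]
      apply E.smul_mem P0 _ _ _ hy
      have := mul_mem_filt P0 hc
        (Or.inr (by rw [P0.ord_inv, htm]) : t⁻¹ ∈ P0.filt (-1))
      simpa using this
    obtain ⟨a, ha, b, hb, hab⟩ := Submodule.mem_sup.1 h1
    refine mem_quo.2 ⟨a, ha, ?_⟩
    have hb' : J.mkQ b = 0 := by
      rw [Submodule.mkQ_apply, Submodule.Quotient.mk_eq_zero]; exact hb
    rw [← map_smul, ← hab, map_add, hb', add_zero]
  have steps : ∀ (n : ℕ) (x : W ⧸ J), x ∈ (E.quo J).M P0 → (t⁻¹ ^ n) • x ∈ (E.quo J).M P0 := by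
    intro n
    induction n with
    | zero => intro x hx; simpa using hx
    | succ n ih =>
      intro x hx
      rw [pow_succ', mul_smul]
      exact step _ (ih x hx)
  obtain ⟨w, hw⟩ : ∃ w : W, w ∉ J := by
    by_contra h
    push Not at h
    exact hJ (eq_top_iff.2 fun x _ => h x)
  have hw' : J.mkQ w ≠ 0 := by
    rw [Submodule.mkQ_apply, Ne, Submodule.Quotient.mk_eq_zero]; exact hw
  obtain ⟨φ, hφ⟩ : ∃ φ : (W ⧸ J) →ₗ[K] K, φ (J.mkQ w) ≠ 0 := by
    by_contra h
    push Not at h
    exact hw' ((Module.forall_dual_apply_eq_zero_iff K _).1 h)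
  obtain ⟨e, he⟩ := (E.quo J).lower (J.mkQ w)
  obtain ⟨c, hc, hcm⟩ := exists_ord_eq P0 (e P0)
  have hx := he P0 c (Or.inr hcm.ge)
  obtain ⟨e', he'⟩ := (E.quo J).upper φ
  have hne : c * φ (J.mkQ w) ≠ 0 := mul_ne_zero hc hφ
  have h3 := he' P0 _ (steps ((P0.ord (c * φ (J.mkQ w)) - e' P0).toNat + 1) _ hx)
  rw [map_smul, map_smul, smul_eq_mul, smul_eq_mul] at h3
  have hpn : t⁻¹ ^ ((P0.ord (c * φ (J.mkQ w)) - e' P0).toNat + 1) ≠ 0 :=
    pow_ne_zero _ (inv_ne_zero ht)
  rcases h3 with h3 | h3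
  · exact mul_ne_zero hpn hne h3
  · rw [P0.ord_mul _ _ hpn hne, ← zpow_natCast, P0.ord_zpow (inv_ne_zero ht), P0.ord_inv, htm] at h3
    push_cast at h3
    omega

theorem exists_generic_vector [FiniteDimensional K W] [Nontrivial W] (E : VB k K W)
    (P0 : Place k K) {S : Set (Submodule K W)} (hS : S.Finite) (hS' : ∀ J ∈ S, J ≠ ⊤) :
    ∃ w0 : W, (∀ c ∈ P0.filt 1, c • w0 ∈ E.M P0) ∧ w0 ∉ E.M P0 ∧
      ∀ J ∈ S, ∀ j ∈ J, w0 - j ∉ E.M P0 := by
  classical
  have := Curve.char (k := k) (K := K)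
  let M1 : Submodule k W := (E.twist (Finsupp.single P0 1)).M P0
  have hM1 : ∀ w : W, w ∈ M1 ↔ ∀ c ∈ P0.filt 1, c • w ∈ E.M P0 := by
    intro w
    have h1 : (Finsupp.single P0 (1 : ℤ)) P0 = 1 := Finsupp.single_eq_same
    show w ∈ (E.twist (Finsupp.single P0 1)).M P0 ↔ _
    rw [mem_twist, h1]
  let T : Set (Submodule K W) := insert ⊥ S
  have hT : T.Finite := hS.insert _
  have hT' : ∀ J ∈ T, J ≠ ⊤ := by
    rintro J (rfl | hJ)
    · exact bot_ne_top
    · exact hS' J hJ
  have : Finite T := hT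
  let p : T → Submodule k M1 := fun J =>
    (E.M P0 ⊔ (J : Submodule K W).restrictScalars k).comap M1.subtype
  have hp : ∀ i, p i ≠ ⊤ := by
    rintro ⟨J, hJ⟩ htop
    obtain ⟨w, hw, hw'⟩ := AddVec_not_le E P0 (hT' J hJ)
    apply hw'
    have : (⟨w, (hM1 w).2 hw⟩ : M1) ∈ p ⟨J, hJ⟩ := by rw [htop]; trivial
    exact this
  have hne : ⋃ i, (p i : Set M1) ≠ Set.univ := by
    intro h
    obtain ⟨i, hi⟩ := Subspace.exists_eq_top_of_iUnion_eq_univ h
    exact hp i hi
  obtain ⟨w, hw⟩ := (Set.ne_univ_iff_exists_notMem _).1 hne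
  rw [Set.mem_iUnion] at hw
  push Not at hw
  refine ⟨w, (hM1 w).1 w.2, ?_, ?_⟩
  · intro h
    exact hw ⟨⊥, Set.mem_insert _ _⟩ (Submodule.mem_sup_left h)
  · intro J hJ j hj h
    apply hw ⟨J, Set.mem_insert_of_mem _ hJ⟩
    show (w : W) ∈ E.M P0 ⊔ J.restrictScalars k
    have h1 : (w : W) = (w - j) + j := by abel
    rw [h1]
    exact add_mem (Submodule.mem_sup_left h) (Submodule.mem_sup_right hj)

theorem deg_sub_oneStep [FiniteDimensional K W] {E E' : VB k K W} {P0 : Place k K} {w0 : W}
    (h : OneStep E E' P0 w0) (J : Submodule K W) :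
    (E'.sub J).deg = (E.sub J).deg ∨
      ((E'.sub J).deg = (E.sub J).deg + 1 ∧ ∃ j ∈ J, w0 - j ∈ E.M P0) := by
  by_cases hex : ∃ y ∈ J, y ∈ E'.M P0 ∧ y ∉ E.M P0
  · right
    obtain ⟨y, hyJ, hy', hy⟩ := hex
    obtain ⟨c, hc⟩ := h.span y hy'
    have hc0 : c ≠ 0 := by
      rintro rfl
      rw [zero_smul, sub_zero] at hc
      exact hy hc
    refine ⟨?_, c⁻¹ • y, Submodule.smul_of_tower_mem J c⁻¹ hyJ, ?_⟩
    · refine deg_oneStep (P := P0) (x := (⟨y, hyJ⟩ : J)) ⟨?_, ?_, hy', hy, ?_⟩
      · intro P x hx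
        exact h.le P hx
      · intro P hP
        ext x
        show (x : W) ∈ E.M P ↔ (x : W) ∈ E'.M P
        rw [h.eq P hP]
      · intro z hz
        obtain ⟨c1, hc1⟩ := h.span z hz
        refine ⟨c1 * c⁻¹, ?_⟩
        show (z : W) - (c1 * c⁻¹) • y ∈ E.M P0
        have h1 : (z : W) - (c1 * c⁻¹) • y = (z - c1 • w0) - (c1 * c⁻¹) • (y - c • w0) := by
          rw [smul_sub, ← mul_smul, inv_mul_cancel_right₀ hc0]
          abel
        rw [h1]
        exact sub_mem hc1 ((E.M P0).smul_mem _ hc)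
    · have h1 : w0 - c⁻¹ • y = -(c⁻¹ • (y - c • w0)) := by
        rw [smul_sub, ← mul_smul, inv_mul_cancel₀ hc0, one_smul]
        abel
      rw [h1]
      exact neg_mem ((E.M P0).smul_mem _ hc)
  · left
    push Not at hex
    congr 1
    apply ext'
    intro P x
    by_cases hP : P = P0
    · subst hP
      exact ⟨fun hx => hex x x.2 hx, fun hx => h.le P hx⟩
    · show (x : W) ∈ E'.M P ↔ (x : W) ∈ E.M P
      rw [h.eq P hP]

end VB

end Pool.Agent.MP_09eaec.GG
end

section

/-!
# TASK LowerB: sections of `E(-κ)`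

`n = finrank K W ≥ 2`, `G = E.twist (-κ)`; `γ, ω` from `exists_omega`, `γ = gen`. Let `V' ≤ E.H0` be `V` as a
subspace of `E.H0` (`V.comap E.H0.subtype`, dimension `finrank k V`, `Submodule.comapSubtypeEquivOfLe`). The map
`T : G.H0 → (Fin γ → E.H0 ⧸ V')`, `s ↦ (a ↦ [ω a • s])` is well defined (`ω a • s ∈ E.H0`: `s ∈ G.M P` means
`c • s ∈ E.M P` for all `c ∈ P.filt (-κ P)`) and `k`-linear. It is injective: let `s ≠ 0`, `ω a • s ∈ V` for all
`a`. `J = K ∙ s`. (1) `(E.sub J).deg ≥ 2 gen - 2`: the isomorphism `K ≃ J`, `c ↦ c • s`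
(`LinearEquiv.toSpanNonzeroSingleton`) maps `line κ` into `E.sub J` (`c ∈ P.filt (-κ P)` implies `c • s ∈ E.M P`);
`deg_le_of_le`, `deg_map`, `deg_line`, `hκ.ddeg`. (2) `vd V J ≥ γ`: the `ω a • s` are `γ` `k`-independent vectors of
`V ⊓ J`. (3) `J ≠ ⊥`, `J ≠ ⊤` (rank `1 < n`), so stability gives `((E.sub J).deg + α vd V J) n < d + α v`, so
`n (2 gen - 2 + α gen) < d + α v`, contradicting `hstar`. So
`h0 G ≤ γ * (finrank E.H0 - finrank V)` (`Module.finrank_pi_fintype`, `Submodule.finrank_quotient_add_finrank`).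
-/

set_option autoImplicit false

namespace Pool.Agent.MP_09eaec.GG

open Module

universe u v

variable {k : Type u} {K : Type v} [Field k] [Field K] [Algebra k K]
variable {W : Type v} [AddCommGroup W] [Module K W] [Module k W] [IsScalarTower k K W]
variable {A : Type v} [AddCommGroup A] [Module K A] [Module k A] [IsScalarTower k K A]
variable {B : Type v} [AddCommGroup B] [Module K B] [Module k B] [IsScalarTower k K B]

variable [CurveG k K]

/-- A section of `E(-κ)` all of whose multiples are in `V` vanishes. -/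
private theorem LowerB_aux {κ : Dv k K} (hκ : IsCanonical κ) [FiniteDimensional K W] {E : VB k K W}
    {V : Submodule k W} (hV : V ≤ E.H0) {α : ℝ} (hα : 0 < α) (hn : 2 ≤ finrank K W)
    (hst : E.StableSys α V)
    (hstar : (E.deg : ℝ) + α * finrank k V <
      finrank K W * (2 * (gen k K : ℝ) - 2) + finrank K W * (α * gen k K))
    {γ : ℕ} {ω : Fin γ → K} (hγ : (γ : ℤ) = gen k K) (hli : LinearIndependent k ω) {s : W}
    (hs : ∀ P, ∀ c ∈ P.filt (-κ P), c • s ∈ E.M P) (hsV : ∀ a, ω a • s ∈ V) : s = 0 := by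
  by_contra hs0
  obtain ⟨J, hJ⟩ : ∃ J : Submodule K W, J = Submodule.span K {s} := ⟨_, rfl⟩
  have hdeg : 2 * gen k K - 2 ≤ (E.sub J).deg := by
    subst hJ
    have h1 : (line κ).map (LinearEquiv.toSpanNonzeroSingleton K W s hs0) ≤
        E.sub (Submodule.span K {s}) := by
      intro P x hx
      obtain ⟨c, hc, rfl⟩ := hx
      exact hs P c hc
    have h2 := VB.deg_le_of_le h1
    rw [VB.deg_map, VB.deg_line, hκ.ddeg] at h2
    exact h2
  have hvd : γ ≤ finrank k ↥(V ⊓ J.restrictScalars k) := by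
    have hfin : Module.Finite k ↥(V ⊓ J.restrictScalars k) :=
      Submodule.finiteDimensional_of_le (inf_le_left.trans hV)
    have h1 : LinearIndependent k (fun a => ω a • s) := by
      refine hli.map' ((LinearMap.toSpanSingleton K W s).restrictScalars k) ?_
      rw [LinearMap.ker_eq_bot']
      intro c hc
      have h2 : c • s = 0 := hc
      rcases smul_eq_zero.1 h2 with h3 | h3
      · exact h3
      · exact absurd h3 hs0
    have h2 : ∀ a, ω a • s ∈ V ⊓ J.restrictScalars k := by
      intro a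
      refine ⟨hsV a, ?_⟩
      show ω a • s ∈ J
      rw [hJ]
      exact Submodule.smul_mem _ _ (Submodule.mem_span_singleton_self s)
    have h3 : LinearIndependent k
        (fun a => (⟨ω a • s, h2 a⟩ : ↥(V ⊓ J.restrictScalars k))) :=
      LinearIndependent.of_comp (V ⊓ J.restrictScalars k).subtype h1
    have h4 := h3.fintype_card_le_finrank
    rwa [Fintype.card_fin] at h4
  have hr : finrank K J = 1 := by
    rw [hJ]
    exact finrank_span_singleton hs0
  have hJb : J ≠ ⊥ := by
    intro h0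
    rw [h0, finrank_bot] at hr
    omega
  have hJt : J ≠ ⊤ := by
    intro h0
    rw [h0, finrank_top] at hr
    omega
  have h1 := hst J hJb hJt
  have hn0 : (0 : ℝ) < finrank K W := by
    have : 0 < finrank K W := by omega
    exact_mod_cast this
  rw [hr, Nat.cast_one, div_one, lt_div_iff₀ hn0] at h1
  have h2 : (2 * (gen k K : ℝ) - 2) ≤ (E.sub J).deg := by exact_mod_cast hdeg
  have h3 : (gen k K : ℝ) ≤ finrank k ↥(V ⊓ J.restrictScalars k) := by
    rw [← hγ]
    exact_mod_cast hvd
  have h4 := mul_le_mul_of_nonneg_left h3 hα.le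
  have h5 := mul_le_mul_of_nonneg_right (add_le_add h2 h4) hn0.le
  linarith

theorem lower_b {κ : Dv k K} (hκ : IsCanonical κ) [FiniteDimensional K W] {E : VB k K W}
    {V : Submodule k W} (hV : V ≤ E.H0) {α : ℝ} (hα : 0 < α) (hn : 2 ≤ finrank K W)
    (hst : E.StableSys α V)
    (hstar : (E.deg : ℝ) + α * finrank k V <
      finrank K W * (2 * (gen k K : ℝ) - 2) + finrank K W * (α * gen k K)) :
    (E.twist (-κ)).h0 ≤ gen k K * (E.h0 - finrank k V) := by
  obtain ⟨γ, ω, hγ, hω, hli⟩ := exists_omega hκ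
  have hs : ∀ s ∈ (E.twist (-κ)).H0, ∀ P, ∀ c ∈ P.filt (-κ P), c • s ∈ E.M P := by
    intro s hs P c hc
    exact (VB.mem_H0.1 hs P) c hc
  have hωs : ∀ a, ∀ s ∈ (E.twist (-κ)).H0, ω a • s ∈ E.H0 := by
    intro a s hs'
    rw [VB.mem_H0]
    intro P
    exact hs s hs' P _ (VB.mem_H0.1 (hω a) P)
  obtain ⟨V', hV'⟩ : ∃ V' : Submodule k E.H0, V' = V.comap E.H0.subtype := ⟨_, rfl⟩
  let T : (E.twist (-κ)).H0 →ₗ[k] (Fin γ → E.H0 ⧸ V') :=
    { toFun := fun s a => V'.mkQ ⟨ω a • (s : W), hωs a s s.2⟩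
      map_add' := fun s t => by
        funext a
        rw [Pi.add_apply, ← map_add]
        congr 1
        ext
        show ω a • ((s : W) + t) = ω a • (s : W) + ω a • (t : W)
        rw [smul_add]
      map_smul' := fun c s => by
        funext a
        rw [Pi.smul_apply, RingHom.id_apply, ← map_smul]
        congr 1
        ext
        show ω a • (c • (s : W)) = c • (ω a • (s : W))
        rw [smul_comm] }
  have hT : Function.Injective T := by
    rw [← LinearMap.ker_eq_bot, LinearMap.ker_eq_bot']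
    intro s hs0
    have h1 : ∀ a, ω a • (s : W) ∈ V := by
      intro a
      have h2 : V'.mkQ ⟨ω a • (s : W), hωs a s s.2⟩ = 0 := congrFun hs0 a
      rw [Submodule.mkQ_apply, Submodule.Quotient.mk_eq_zero, hV'] at h2
      exact h2
    ext
    exact LowerB_aux hκ hV hα hn hst hstar hγ hli (hs s s.2) h1
  have h1 := LinearMap.finrank_le_finrank_of_injective hT
  have h2 : finrank k (Fin γ → E.H0 ⧸ V') = γ * finrank k (E.H0 ⧸ V') := by
    rw [Module.finrank_pi_fintype, Finset.sum_const, Finset.card_univ, Fintype.card_fin,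
      smul_eq_mul]
  have h3 := Submodule.finrank_quotient_add_finrank V'
  have h4 : finrank k V' = finrank k V := by
    rw [hV']
    exact (Submodule.comapSubtypeEquivOfLe hV).finrank_eq
  rw [h2] at h1
  have h5 : (finrank k (E.H0 ⧸ V') : ℤ) = E.h0 - finrank k V := by
    unfold VB.h0
    omega
  rw [← h5, ← hγ]
  unfold VB.h0
  exact_mod_cast h1

end Pool.Agent.MP_09eaec.GG
end

section

/-!
# TASK Point: relations between homomorphisms to the canonical bundle

For a point `P` let `t_P ∈ K` be of order `-κ P`; `ω a / t_P ∈ P.filt 0` has a residue `lam_P a : k`: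
`ω a / t_P - lam_P a ∈ P.filt 1` (`exists_residue (Curve.curve (k := k) (K := K)) P`), i.e.
`ω a - lam_P a • t_P ∈ P.filt (1 - κ P)`.
* (1) For each point `P` the map `ψ_P = ∑ a, lam_P a • ψ a` maps `E ∩ S` to `line (κ - P)`: at `Q ≠ P` the stalks of
  `line κ` and `line (κ - P)` agree. At `P`, `x ∈ S ∩ E.M P`:
  `t_P * ψ_P x = ∑ (lam_P a • t_P - ω a) * ψ a x + 0 ∈ P.filt (1 - κ P - κ P)` (`hrel`, `mul_mem_filt`), so
  `ψ_P x ∈ P.filt (1 - κ P)` (`mem_filt_iff_of_ord`).
* (2) There is a point `P` with `¬ S ≤ ker ψ_P`. Otherwise: `N0 = {c : Fin γ → k | S ≤ ker (∑ a, c a • ψ a)}` is a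
  `k`-subspace of `Fin γ → k`, it is not `⊤` (`hne`: it does not contain some `Pi.single a 1`), and
  `lam_P ∈ N0` for all `P`. So there is a nonzero functional `c ↦ ∑ a, b a * c a` on `Fin γ → k` vanishing on all
  `lam_P` (e.g. `Submodule.exists_le_ker_of_lt_top` and `b a = f (Pi.single a 1)`). The section
  `s = ∑ a, b a • ω a ∈ H0 (line κ)` is not zero (`hli`), and `s = ∑ b a • (ω a - lam_P a • t_P) ∈ P.filt (1 - κ P)`
  for every point `P`. So `P.ord s ≥ 1 - κ P` for all `P`; but outside of the (finite) supports of `κ` and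
  `dv s` both `P.ord s` and `κ P` are zero, and there are infinitely many points (`infinite_places`).
-/

set_option autoImplicit false

namespace Pool.Agent.MP_09eaec.GG

open Module

universe u v

variable {k : Type u} {K : Type v} [Field k] [Field K] [Algebra k K]
variable {W : Type v} [AddCommGroup W] [Module K W] [Module k W] [IsScalarTower k K W]
variable {A : Type v} [AddCommGroup A] [Module K A] [Module k A] [IsScalarTower k K A]
variable {B : Type v} [AddCommGroup B] [Module K B] [Module k B] [IsScalarTower k K B]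

variable [CurveG k K]

private lemma Point_res {κ : Dv k K} {γ : ℕ} {ω : Fin γ → K} (hω : ∀ a, ω a ∈ (line κ).H0)
    (P : Place k K) : ∃ (t : K) (lam : Fin γ → k), t ≠ 0 ∧ P.ord t = -κ P ∧
      ∀ a, ω a - algebraMap k K (lam a) * t ∈ P.filt (1 - κ P) := by
  have := Curve.closed (k := k) (K := K)
  have := Curve.char (k := k) (K := K)
  obtain ⟨t, ht, htm⟩ := exists_ord_eq P (-κ P)
  have h : ∀ a, ∃ c : k, ω a - algebraMap k K c * t ∈ P.filt (1 - κ P) := by
    intro a
    have h1 : ω a ∈ P.filt (-κ P) := VB.mem_H0.1 (hω a) P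
    have h2 : t⁻¹ * ω a ∈ P.filt 0 := by
      have h3 := mul_mem_filt P
        (Or.inr (by rw [P.ord_inv, htm, neg_neg]) : t⁻¹ ∈ P.filt (κ P)) h1
      rwa [add_neg_cancel] at h3
    obtain ⟨c, hc⟩ := exists_residue (Curve.curve (k := k) (K := K)) P (f := t⁻¹ * ω a) h2
    refine ⟨c, ?_⟩
    have h4 : t⁻¹ * ω a - algebraMap k K c ∈ P.filt 1 := by
      rcases hc with h | h
      · exact Or.inl h
      · exact Or.inr (by omega)
    have h5 := (mem_filt_iff_of_ord P ht htm 1).2 h4
    have h6 : t * (t⁻¹ * ω a - algebraMap k K c) = ω a - algebraMap k K c * t := by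
      rw [mul_sub, ← mul_assoc, mul_inv_cancel₀ ht, one_mul, mul_comm t]
    rw [h6] at h5
    exact h5
  choose lam hlam using h
  exact ⟨t, lam, ht, htm, hlam⟩

omit [Module k W] [IsScalarTower k K W] [CurveG k K] in
private lemma Point_apply {γ : ℕ} (c : Fin γ → k) (ψ : Fin γ → (W →ₗ[K] K)) (x : W) :
    (∑ a, algebraMap k K (c a) • ψ a) x = ∑ a, c a • ψ a x := by
  rw [LinearMap.sum_apply]
  refine Finset.sum_congr rfl fun a _ => ?_
  rw [LinearMap.smul_apply, algebraMap_smul]

theorem point_lemma {κ : Dv k K} {γ : ℕ} {ω : Fin γ → K} (hω : ∀ a, ω a ∈ (line κ).H0)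
    (hli : LinearIndependent k ω) (E : VB k K W) (S : Submodule K W)
    (ψ : Fin γ → (W →ₗ[K] K)) (hψ : ∀ a P, ∀ x ∈ S, x ∈ E.M P → ψ a x ∈ (line κ).M P)
    (hrel : ∀ x ∈ S, ∑ a, ω a * ψ a x = 0) (hne : ∃ a, ¬ S ≤ LinearMap.ker (ψ a)) :
    ∃ (P : Place k K) (φ : W →ₗ[K] K), ¬ S ≤ LinearMap.ker φ ∧
      (∀ Q, ∀ x ∈ S, x ∈ E.M Q → φ x ∈ (line (κ - Finsupp.single P 1)).M Q) ∧
      (⨅ a, LinearMap.ker (ψ a)) ≤ LinearMap.ker φ := by
  classical
  choose t lam ht htm hlam using fun P : Place k K => Point_res hω P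
  -- (1)
  have h1 : ∀ P Q, ∀ x ∈ S, x ∈ E.M Q →
      (∑ a, algebraMap k K (lam P a) • ψ a) x ∈ (line (κ - Finsupp.single P 1)).M Q := by
    intro P Q x hxS hx
    rw [Point_apply, mem_line, Finsupp.sub_apply]
    by_cases hQ : Q = P
    · subst hQ
      rw [Finsupp.single_eq_same, neg_sub]
      rw [← mem_filt_iff_of_ord Q (ht Q) (htm Q)]
      have e : t Q * ∑ a, lam Q a • ψ a x =
          -∑ a, (ω a - algebraMap k K (lam Q a) * t Q) * ψ a x := by
        have e1 : ∀ a, (ω a - algebraMap k K (lam Q a) * t Q) * ψ a x =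
            ω a * ψ a x - t Q * (lam Q a • ψ a x) := by
          intro a
          rw [Algebra.smul_def]
          ring
        rw [Finset.sum_congr rfl fun a _ => e1 a, Finset.sum_sub_distrib, hrel x hxS,
          ← Finset.mul_sum]
        ring
      rw [e]
      refine Submodule.neg_mem _ (Submodule.sum_mem _ fun a _ => ?_)
      exact mul_mem_filt Q (hlam Q a) (hψ a Q x hxS hx)
    · rw [Finsupp.single_eq_of_ne hQ, sub_zero]
      exact Submodule.sum_mem _ fun a _ => Submodule.smul_mem _ _ (hψ a Q x hxS hx)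
  -- (2)
  have h2 : ∃ P, ¬ S ≤ LinearMap.ker (∑ a, algebraMap k K (lam P a) • ψ a) := by
    by_contra hcon
    push Not at hcon
    let N0 : Submodule k (Fin γ → k) :=
      { carrier := {c | ∀ x ∈ S, ∑ a, c a • ψ a x = 0}
        zero_mem' := by
          intro x _
          simp
        add_mem' := by
          intro c d hc hd x hx
          simp only [Pi.add_apply, add_smul, Finset.sum_add_distrib]
          rw [hc x hx, hd x hx, add_zero]
        smul_mem' := by
          intro r c hc x hx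
          simp only [Pi.smul_apply, smul_eq_mul, mul_smul]
          rw [← Finset.smul_sum, hc x hx, smul_zero] }
    have hN0 : N0 < ⊤ := by
      rw [lt_top_iff_ne_top]
      intro htop
      obtain ⟨a, ha⟩ := hne
      apply ha
      intro x hx
      have h3 : Pi.single a (1 : k) ∈ N0 := htop ▸ Submodule.mem_top
      have h4 := h3 x hx
      rw [Finset.sum_eq_single a] at h4
      · simpa using h4
      · intro b _ hb
        rw [Pi.single_eq_of_ne hb, zero_smul]
      · intro h; exact absurd (Finset.mem_univ a) h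
    obtain ⟨f, hf, hfN⟩ := Submodule.exists_le_ker_of_lt_top N0 hN0
    let b : Fin γ → k := fun a => f (Pi.single a 1)
    have hfc : ∀ c : Fin γ → k, f c = ∑ a, c a * b a := by
      intro c
      conv_lhs => rw [← Finset.univ_sum_single c]
      rw [map_sum]
      refine Finset.sum_congr rfl fun a _ => ?_
      have e : Pi.single a (c a) = c a • (Pi.single a (1 : k) : Fin γ → k) := by
        rw [← Pi.single_smul', smul_eq_mul, mul_one]
      rw [e, map_smul, smul_eq_mul]
    set s : K := ∑ a, b a • ω a with hs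
    have hs0 : s ≠ 0 := by
      intro h0
      apply hf
      have hb := Fintype.linearIndependent_iff.1 hli b h0
      ext c
      rw [LinearMap.comp_apply]
      show f (Pi.single c 1) = _
      have := hb c
      simpa [b] using this
    have hsP : ∀ P : Place k K, s ∈ P.filt (1 - κ P) := by
      intro P
      have h5 : lam P ∈ N0 := by
        intro x hx
        rw [← Point_apply]
        exact hcon P hx
      have h6 : ∑ a, lam P a * b a = 0 := by
        rw [← hfc]
        exact hfN h5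
      have h7 : s = ∑ a, b a • (ω a - algebraMap k K (lam P a) * t P) := by
        have e1 : ∀ a, b a • (ω a - algebraMap k K (lam P a) * t P) =
            b a • ω a - algebraMap k K (lam P a * b a) * t P := by
          intro a
          rw [smul_sub, Algebra.smul_def (b a) (algebraMap k K (lam P a) * t P), map_mul]
          ring
        rw [Finset.sum_congr rfl fun a _ => e1 a, Finset.sum_sub_distrib, ← Finset.sum_mul,
          ← map_sum, h6, map_zero, zero_mul, sub_zero]
      rw [h7]
      exact Submodule.sum_mem _ fun a _ => Submodule.smul_mem _ _ (hlam P a)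
    haveI := infinite_places (k := k) (K := K)
    obtain ⟨P, hP⟩ := Infinite.exists_notMem_finset (κ.support ∪ (dv s : Dv k K).support)
    rw [Finset.notMem_union, Finsupp.notMem_support_iff, Finsupp.notMem_support_iff] at hP
    rcases hsP P with h8 | h8
    · exact hs0 h8
    · have h9 := hP.2
      rw [dv_apply] at h9
      rw [hP.1, h9] at h8
      omega
  obtain ⟨P, hP⟩ := h2
  refine ⟨P, _, hP, h1 P, ?_⟩
  intro x hx
  rw [LinearMap.mem_ker, Point_apply]
  refine Finset.sum_eq_zero fun a _ => ?_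
  have : x ∈ LinearMap.ker (ψ a) := (Submodule.mem_iInf _).1 hx a
  rw [LinearMap.mem_ker.1 this, smul_zero]

end Pool.Agent.MP_09eaec.GG
end
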