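import Pool.Agent.Lib.MP_09eaec_ag.Mg.G002
import Pool.Agent.Lib.MP_09eaec_ag.Mg.G001
import Pool.Agent.Lib.MP_09eaec_ag.Mg.G004
import Pool.Agent.Lib.MP_09eaec_ag.Mg.G008
import Pool.Agent.Lib.MP_09eaec_ag.Mg.G005
import Pool.Agent.Lib.MP_09eaec_ag.Mg.G009
import Pool.Agent.Lib.MP_09eaec_ag.Mg.G010

section

/-!
# TASK B3: the Farey step

`E` of type `(a, b)`, `F` of type `(c, e)` from `hA`, `hB`; `r = a + c ≥ 3`, `d = b + e`, write
`e0(ρ, σ) = r σ - d ρ` for a bundle of rank `ρ`, degree `σ`. `e0(a, b) = -1`, `e0(c, e) = 1`.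

CONDITIONS on `u` (`exists_generic`, finite index type): `¬ Null E J (F.sub L) u` for the pairs `(J, L)`:
 (1) `(⊥, ⊤)`;
 (2) `(⊥, L)`, `L ∈ F.exc c e` with `finrank L = a` (then `(F.sub L).deg = b` by `num_B`, or directly:
     `c σ = e a - 1 = c b`);
 (3) `(J, ⊤)`, `J ∈ E.exc a b` with `finrank J = a - c` (then `(E.quo J).deg = e`, rank `c`).
They are admissible by `N_hom_ne_top`: (1) `c b - a e = -1 < c a`. (2) `a b - a b = 0 < a a`. (3)
`c e - c e = 0 < c c`. (`deg_sub_top`, `deg_quo_bot`, `deg_add`.)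

Let `X = ext E F u`, `J ≤ A × B`, `J ≠ ⊥, ⊤`, `JA = J.comap inl`, `JB = J.map snd`, and `F'` from `ext_sub`;
`t = (F.sub JB).deg - F'.deg ≥ 0` (`deg_le_of_le`), and if `t = 0` then `F' = F.sub JB`
(`eq_of_le_of_deg_le`) so `Null E JA (F.sub JB) u`. `e0(X.sub J) = e0(E.sub JA) + e0(F.sub JB) - r t`.
 * `e0(E.sub JA)`: `0` if `JA = ⊥`; `-1` if `JA = ⊤`; otherwise `≤ -2`, and `= -2` only if `JA` is in (3)
   (`num_A`).
 * `e0(F.sub JB)`: `0` if `JB = ⊥`; `1` if `JB = ⊤`; otherwise `≤ -1`, and `= -1` only if `JB` is in (2).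
 * if `t ≥ 1` then `e0(F.sub JB) - r t ≤ 1 - r ≤ -2`.
So `e0(X.sub J) ≤ -1`, with equality only for `JA = ⊤, JB = ⊥`, i.e. `J = A × 0` (`eq_map_inl`):
 * `JA = ⊥`: `JB = ⊥` gives `J = ⊥` (`eq_bot_of`); `JB = ⊤`, `t = 0` contradicts (1); `JB = ⊤`, `t ≥ 1`: `≤ -2`;
   `JB` proper: `≤ -1`, and `= -1` only if `t = 0` and `JB` in (2): excluded.
 * `JA = ⊤`: `JB = ⊥`: `-1`, `J = A × 0`; `JB = ⊤`: `J = ⊤` if `t = 0` (in any case `eq_top_of`); `JB` proper: `≤ -2`.
 * `JA` proper: `≤ -2` plus `e0(F') ≤ 1`; `= -1` only if `JB = ⊤`, `t = 0`, `JA` in (3): excluded.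
Then `Q_of`.
-/

set_option autoImplicit false

namespace Pool.Agent.MP_09eaec.GG

open Module

universe u v

variable {k : Type u} {K : Type v} [Field k] [Field K] [Algebra k K]
variable {W : Type v} [AddCommGroup W] [Module K W] [Module k W] [IsScalarTower k K W]
variable {A : Type v} [AddCommGroup A] [Module K A] [Module k A] [IsScalarTower k K A]
variable {B : Type v} [AddCommGroup B] [Module K B] [Module k B] [IsScalarTower k K B]

variable [CurveG k K]

theorem coprime_step {a c : ℕ} {b e : ℤ} (ha : 1 ≤ a) (hc : 1 ≤ c) (hac : 3 ≤ a + c)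
    (hdet : (a : ℤ) * e - c * b = 1) (hA : Q k K a b) (hB : Q k K c e) :
    Q k K (a + c) (b + e) := by
  obtain ⟨E, hEd, hEs, hEf, hE0⟩ := hA
  obtain ⟨F, hFd, hFs, hFf, hF0⟩ := hB
  have haz : (1 : ℤ) ≤ a := by exact_mod_cast ha
  have hcz : (1 : ℤ) ≤ c := by exact_mod_cast hc
  have hacz : (3 : ℤ) ≤ a + c := by exact_mod_cast hac
  have hrA : finrank K (Fin a → K) = a := Module.finrank_fin_fun K
  have hrB : finrank K (Fin c → K) = c := Module.finrank_fin_fun K
  -- the exceptional subspaces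
  have hfin1 : Finite {J : Submodule K (Fin a → K) //
      J ∈ E.exc a b ∧ (finrank K J : ℤ) = a - c} :=
    (hEf.subset (fun J hJ => hJ.1 : {J : Submodule K (Fin a → K) |
      J ∈ E.exc a b ∧ (finrank K J : ℤ) = a - c} ⊆ E.exc a b)).to_subtype
  have hfin2 : Finite {L : Submodule K (Fin c → K) //
      L ∈ F.exc c e ∧ (finrank K L : ℤ) = a} :=
    (hFf.subset (fun J hJ => hJ.1 : {L : Submodule K (Fin c → K) |
      L ∈ F.exc c e ∧ (finrank K L : ℤ) = a} ⊆ F.exc c e)).to_subtype
  let ι := Option ({J : Submodule K (Fin a → K) // J ∈ E.exc a b ∧ (finrank K J : ℤ) = a - c} ⊕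
    {L : Submodule K (Fin c → K) // L ∈ F.exc c e ∧ (finrank K L : ℤ) = a})
  let Jf : ι → Submodule K (Fin a → K) := fun i => match i with
    | none => ⊥
    | some (Sum.inl J) => J.1
    | some (Sum.inr _) => ⊥
  let Lf : ι → Submodule K (Fin c → K) := fun i => match i with
    | none => ⊤
    | some (Sum.inl _) => ⊤
    | some (Sum.inr L) => L.1
  have hadm : ∀ i, (hom (F.sub (Lf i)) (E.quo (Jf i))).N ≠ ⊤ := by
    intro i
    apply N_hom_ne_top
    rcases i with _ | (J | L)
    · change ((finrank K (⊤ : Submodule K (Fin c → K)) : ℕ) : ℤ) * (E.quo ⊥).deg -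
        (finrank K ((Fin a → K) ⧸ (⊥ : Submodule K (Fin a → K))) : ℕ) * (F.sub ⊤).deg <
        (finrank K (⊤ : Submodule K (Fin c → K)) : ℕ) *
          (finrank K ((Fin a → K) ⧸ (⊥ : Submodule K (Fin a → K))) : ℕ)
      have h1 : finrank K ((Fin a → K) ⧸ (⊥ : Submodule K (Fin a → K))) = a := by
        have := Submodule.finrank_quotient_add_finrank (⊥ : Submodule K (Fin a → K))
        rw [finrank_bot, hrA] at this
        simpa using this
      rw [finrank_top, VB.deg_quo_bot, VB.deg_sub_top, h1, hrB, hEd, hFd]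
      nlinarith
    · obtain ⟨J, hJ, hJr⟩ := J
      change ((finrank K (⊤ : Submodule K (Fin c → K)) : ℕ) : ℤ) * (E.quo J).deg -
        (finrank K ((Fin a → K) ⧸ J) : ℕ) * (F.sub ⊤).deg <
        (finrank K (⊤ : Submodule K (Fin c → K)) : ℕ) * (finrank K ((Fin a → K) ⧸ J) : ℕ)
      have h1 : (finrank K ((Fin a → K) ⧸ J) : ℤ) = c := by
        have := Submodule.finrank_quotient_add_finrank J
        rw [hrA] at this
        have h2 : ((finrank K ((Fin a → K) ⧸ J) : ℕ) : ℤ) + (finrank K J : ℕ) = a := by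
          exact_mod_cast this
        linarith
      have h3 := hJ.2.2
      rw [hJr] at h3
      have h4 : (a : ℤ) * (E.sub J).deg = a * (b - e) := by linarith
      have h5 : (E.sub J).deg = b - e := mul_left_cancel₀ (by omega) h4
      have h6 : (E.quo J).deg = e := by
        have := VB.deg_add E J
        rw [h5, hEd] at this
        linarith
      rw [finrank_top, VB.deg_sub_top, h1, hrB, h6, hFd]
      nlinarith
    · obtain ⟨L, hL, hLr⟩ := L
      change ((finrank K L : ℕ) : ℤ) * (E.quo ⊥).deg -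
        (finrank K ((Fin a → K) ⧸ (⊥ : Submodule K (Fin a → K))) : ℕ) * (F.sub L).deg <
        (finrank K L : ℕ) * (finrank K ((Fin a → K) ⧸ (⊥ : Submodule K (Fin a → K))) : ℕ)
      have h1 : finrank K ((Fin a → K) ⧸ (⊥ : Submodule K (Fin a → K))) = a := by
        have := Submodule.finrank_quotient_add_finrank (⊥ : Submodule K (Fin a → K))
        rw [finrank_bot, hrA] at this
        simpa using this
      have h3 := hL.2.2
      rw [hLr] at h3
      have h4 : (c : ℤ) * (F.sub L).deg = c * b := by linarith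
      have h5 : (F.sub L).deg = b := mul_left_cancel₀ (by omega) h4
      rw [VB.deg_quo_bot, h1, hLr, h5, hEd]
      nlinarith
  obtain ⟨u, hu⟩ := exists_generic E Jf Lf (fun i => F.sub (Lf i)) hadm
  have hu1 : ∀ (J : Submodule K (Fin a → K)) (L : Submodule K (Fin c → K)), J = ⊥ → L = ⊤ →
      ¬ Null E J (F.sub L) u := by
    rintro _ _ rfl rfl
    exact hu none
  have hu2 : ∀ (J : Submodule K (Fin a → K)) (L : Submodule K (Fin c → K)), J = ⊥ →
      L ∈ F.exc c e → (finrank K L : ℤ) = a → ¬ Null E J (F.sub L) u := by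
    rintro _ L rfl hL hLr
    exact hu (some (Sum.inr ⟨L, hL, hLr⟩))
  have hu3 : ∀ (J : Submodule K (Fin a → K)) (L : Submodule K (Fin c → K)),
      J ∈ E.exc a b → (finrank K J : ℤ) = a - c → L = ⊤ → ¬ Null E J (F.sub L) u := by
    rintro J _ hJ hJr rfl
    exact hu (some (Sum.inl ⟨J, hJ, hJr⟩))
  -- the values of `e0` for the subbundles of `E` and `F`
  have fA : ∀ JA : Submodule K (Fin a → K),
      (JA = ⊥ ∧ ((a : ℤ) + c) * (E.sub JA).deg - (b + e) * finrank K JA = 0) ∨
      (JA = ⊤ ∧ ((a : ℤ) + c) * (E.sub JA).deg - (b + e) * finrank K JA = -1) ∨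
      (((a : ℤ) + c) * (E.sub JA).deg - (b + e) * finrank K JA ≤ -2 ∧
        (((a : ℤ) + c) * (E.sub JA).deg - (b + e) * finrank K JA = -2 →
          JA ∈ E.exc a b ∧ (finrank K JA : ℤ) = a - c)) := by
    intro JA
    by_cases h1 : JA = ⊥
    · left
      subst h1
      refine ⟨rfl, ?_⟩
      rw [VB.deg_sub_bot, finrank_bot]
      simp
    by_cases h2 : JA = ⊤
    · right; left
      subst h2
      refine ⟨rfl, ?_⟩
      rw [VB.deg_sub_top, finrank_top, hrA, hEd]
      linarith
    right; right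
    have h3 : (1 : ℤ) ≤ finrank K JA := by
      have : 0 < finrank K JA := Nat.pos_of_ne_zero (fun h0 => h1 (Submodule.finrank_eq_zero.1 h0))
      exact_mod_cast this
    have h4 : (finrank K JA : ℤ) < a := by
      have := Submodule.finrank_lt h2
      rw [hrA] at this
      exact_mod_cast this
    have h5 := hEs JA h1 h2
    obtain ⟨h6, h7⟩ := num_A haz hcz hdet h3 h4 h5
    exact ⟨h6, fun h8 => ⟨⟨h1, h2, (h7 h8).2.1⟩, (h7 h8).1⟩⟩
  have fB : ∀ JB : Submodule K (Fin c → K),
      (JB = ⊥ ∧ ((a : ℤ) + c) * (F.sub JB).deg - (b + e) * finrank K JB = 0) ∨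
      (JB = ⊤ ∧ ((a : ℤ) + c) * (F.sub JB).deg - (b + e) * finrank K JB = 1) ∨
      (((a : ℤ) + c) * (F.sub JB).deg - (b + e) * finrank K JB ≤ -1 ∧
        (((a : ℤ) + c) * (F.sub JB).deg - (b + e) * finrank K JB = -1 →
          JB ∈ F.exc c e ∧ (finrank K JB : ℤ) = a)) := by
    intro JB
    by_cases h1 : JB = ⊥
    · left
      subst h1
      refine ⟨rfl, ?_⟩
      rw [VB.deg_sub_bot, finrank_bot]
      simp
    by_cases h2 : JB = ⊤
    · right; left
      subst h2
      refine ⟨rfl, ?_⟩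
      rw [VB.deg_sub_top, finrank_top, hrB, hFd]
      linarith
    right; right
    have h3 : (1 : ℤ) ≤ finrank K JB := by
      have : 0 < finrank K JB := Nat.pos_of_ne_zero (fun h0 => h1 (Submodule.finrank_eq_zero.1 h0))
      exact_mod_cast this
    have h4 : (finrank K JB : ℤ) < c := by
      have := Submodule.finrank_lt h2
      rw [hrB] at this
      exact_mod_cast this
    have h5 := hFs JB h1 h2
    obtain ⟨h6, h7⟩ := num_B haz hcz hdet h3 h4 h5
    exact ⟨h6, fun h8 => ⟨⟨h1, h2, (h7 h8).2.1⟩, (h7 h8).1⟩⟩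
  have hr : finrank K ((Fin a → K) × (Fin c → K)) = a + c := by
    rw [Module.finrank_prod, hrA, hrB]
  have hd : (ext E F u).deg = b + e := by rw [deg_ext, hEd, hFd]
  have key : ∀ J : Submodule K ((Fin a → K) × (Fin c → K)), J ≠ ⊥ → J ≠ ⊤ →
      ((a : ℤ) + c) * ((ext E F u).sub J).deg - (b + e) * finrank K J ≤ -1 ∧
      (((a : ℤ) + c) * ((ext E F u).sub J).deg - (b + e) * finrank K J = -1 →
        J = (⊤ : Submodule K (Fin a → K)).map (LinearMap.inl K (Fin a → K) (Fin c → K))) := by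
    intro J hJ0 hJ1
    obtain ⟨F', hF', hdeg, hnull⟩ := ext_sub E F u J
    have hfr := finrank_ext_sub J
    have hfrz : (finrank K J : ℤ) = finrank K (J.comap (LinearMap.inl K (Fin a → K) (Fin c → K))) +
        finrank K (J.map (LinearMap.snd K (Fin a → K) (Fin c → K))) := by exact_mod_cast hfr
    have ht0 : F'.deg ≤ (F.sub (J.map (LinearMap.snd K (Fin a → K) (Fin c → K)))).deg :=
      VB.deg_le_of_le hF'
    have ht1 : (F.sub (J.map (LinearMap.snd K (Fin a → K) (Fin c → K)))).deg ≤ F'.deg →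
        Null E (J.comap (LinearMap.inl K (Fin a → K) (Fin c → K)))
          (F.sub (J.map (LinearMap.snd K (Fin a → K) (Fin c → K)))) u := by
      intro h
      rw [← VB.eq_of_le_of_deg_le hF' h]
      exact hnull
    have hinl := eq_map_inl (J := J)
    have htop := eq_top_of (J := J)
    have hbot := eq_bot_of (J := J)
    have hA' := fA (J.comap (LinearMap.inl K (Fin a → K) (Fin c → K)))
    have hB' := fB (J.map (LinearMap.snd K (Fin a → K) (Fin c → K)))
    have hn1 := hu1 (J.comap (LinearMap.inl K (Fin a → K) (Fin c → K)))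
      (J.map (LinearMap.snd K (Fin a → K) (Fin c → K)))
    have hn2 := hu2 (J.comap (LinearMap.inl K (Fin a → K) (Fin c → K)))
      (J.map (LinearMap.snd K (Fin a → K) (Fin c → K)))
    have hn3 := hu3 (J.comap (LinearMap.inl K (Fin a → K) (Fin c → K)))
      (J.map (LinearMap.snd K (Fin a → K) (Fin c → K)))
    rw [hdeg, hfrz]
    generalize F'.deg = τ at hdeg ht0 ht1 ⊢
    clear hF' hnull hdeg F'
    set JA := J.comap (LinearMap.inl K (Fin a → K) (Fin c → K)) with hJA
    set JB := J.map (LinearMap.snd K (Fin a → K) (Fin c → K)) with hJB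
    set σA := (E.sub JA).deg with hσA
    set σB := (F.sub JB).deg with hσB
    set ρA : ℤ := (finrank K JA : ℤ) with hρA
    set ρB : ℤ := (finrank K JB : ℤ) with hρB
    have hsplit : ((a : ℤ) + c) * (σA + τ) - (b + e) * (ρA + ρB) =
        (((a : ℤ) + c) * σA - (b + e) * ρA) + (((a : ℤ) + c) * σB - (b + e) * ρB) -
          ((a : ℤ) + c) * (σB - τ) := by ring
    rw [hsplit]
    have hrt : 3 * (σB - τ) ≤ ((a : ℤ) + c) * (σB - τ) :=
      mul_le_mul_of_nonneg_right hacz (by linarith)
    set eA := ((a : ℤ) + c) * σA - (b + e) * ρA with heA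
    set eB := ((a : ℤ) + c) * σB - (b + e) * ρB with heB
    set rt := ((a : ℤ) + c) * (σB - τ) with hrtdef
    rcases hA' with ⟨hA1, hA2⟩ | ⟨hA1, hA2⟩ | ⟨hA1, hA2⟩
    · rcases hB' with ⟨hB1, hB2⟩ | ⟨hB1, hB2⟩ | ⟨hB1, hB2⟩
      · exact absurd (hbot hA1 hB1) hJ0
      · -- `JA = ⊥`, `JB = ⊤`
        have h9 : τ < σB := by
          by_contra hcon
          exact hn1 hA1 hB1 (ht1 (not_lt.1 hcon))
        constructor
        · omega
        · intro h10
          omega
      · by_cases h9 : τ < σB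
        · constructor
          · omega
          · intro h10
            omega
        · have h10 := ht1 (not_lt.1 h9)
          have h11 : eB ≠ -1 := fun h12 => hn2 hA1 (hB2 h12).1 (hB2 h12).2 h10
          constructor
          · omega
          · intro h12
            omega
    · rcases hB' with ⟨hB1, hB2⟩ | ⟨hB1, hB2⟩ | ⟨hB1, hB2⟩
      · constructor
        · omega
        · intro _
          rw [← hA1]
          exact hinl hB1
      · exact absurd (htop hA1 hB1) hJ1
      · constructor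
        · omega
        · intro h12
          omega
    · rcases hB' with ⟨hB1, hB2⟩ | ⟨hB1, hB2⟩ | ⟨hB1, hB2⟩
      · constructor
        · omega
        · intro h12
          omega
      · by_cases h9 : τ < σB
        · constructor
          · omega
          · intro h10
            omega
        · have h10 := ht1 (not_lt.1 h9)
          have h11 : eA ≠ -2 := fun h12 => hn3 (hA2 h12).1 (hA2 h12).2 hB1 h10
          constructor
          · omega
          · intro h12
            omega
      · constructor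
        · omega
        · intro h12
          omega
  refine Q_of (ext E F u) hr hd ?_ ?_ (fun h1 h2 => by
    have h3 := num_Z haz hcz hdet h1 (by push_cast at h2; exact h2)
    exact ext_H0_bot u (hE0 h3.1 h3.2.1) (hF0 h3.2.2.1 h3.2.2.2))
  · intro J hJ0 hJ1
    have := (key J hJ0 hJ1).1
    push_cast
    exact this
  · refine (Set.finite_singleton ((⊤ : Submodule K (Fin a → K)).map
      (LinearMap.inl K (Fin a → K) (Fin c → K)))).subset ?_
    rintro J ⟨hJ0, hJ1, hJ2⟩
    rw [Set.mem_singleton_iff]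
    apply (key J hJ0 hJ1).2
    push_cast at hJ2
    exact hJ2

end Pool.Agent.MP_09eaec.GG
end

section

/-!
# TASK B9: the chain for integral slopes, the step

`X, q, G'` from `IntChain G j`, `d0 = ddeg G`, `F = line G`, generic fibre `B = K`; `u : Place →₀ (K → A)`.
`T` = the finite set of `finite_T`.
CONDITIONS on `u` (`exists_generic`, all with `L = ⊤`): `¬ Null X J F1 u` for
 (1) `J ∈ X.exc 1 d0` or `J = ⊥`, `F1 = (line G).sub ⊤`;
 (2) `J = ⊥`, `F1 = (line (G - single P 1)).sub ⊤`, `P ∈ T`;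
 (3) `J = ker q`, `F1 = (line G).sub ⊤`.
Admissible by `N_hom_ne_top` (`j ≥ 1`): (1) `J ∈ exc` of rank `ν < j`: `deg (X.quo J) = d0 (j - ν)`:
`d0 (j - ν) - (j - ν) d0 = 0 < j - ν`; `J = ⊥`: `j d0 - 1 - j d0 < j`. (2) `j d0 - 1 - j (d0 - 1) = j - 1 < j`.
(3) `quo_ker_deg`: `ddeg G' - d0 ≤ 0 < 1`.

`X' = ext X (line G) u` on `A × K`, degree `(j + 1) d0 - 1`, `q' = snd` maps `X'` onto `line G` (`(u P b, b)`).
`Ξ = {P | Null X ⊥ ((line (G - single P 1)).sub ⊤) u}` is finite: `Null.mono` to `ker q`, `null_ker_iff`: with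
`a = q(u 1)`: `a ∈ (line (G' - G + single P 1)).N`, whereas `a ∉ (line (G' - G)).N` by (3); `finite_xi` for
`D = G' - G`: if `G' = G` then `ddeg D = 0 < 1 = h0` (`h0_line_zero`), otherwise `ddeg D = -1 < 0 ≤ h0`.
`Ξ ∩ T = ∅` by (2).

For `J ≤ A × K`, `J ≠ ⊥`, `JA = J.comap inl`, `JB = J.map snd ∈ {⊥, ⊤}`, `F'` from `ext_sub`,
`t = (F.sub JB).deg - F'.deg ≥ 0`, `e(ρ, σ) = σ - d0 ρ`:
`e(X'.sub J) = e(X.sub JA) - t` in both cases (`deg_sub_top_line`).
 * `JB = ⊥`: `JA ≠ ⊥`, `t = 0`, `e ≤ -1`; `= -1` only if `JA ∈ exc` or `JA = ⊤`; `J = JA × 0` (`eq_map_inl`).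
 * `JB = ⊤`, `JA ≠ ⊥`: `e ≤ -1 - t`; `= -1` only if `t = 0` and `e(X.sub JA) = -1`; then `JA ∈ exc` is excluded
   by (1) (`eq_of_le_of_deg_le`), `JA = ⊤` is `J = ⊤`.
 * `JB = ⊤`, `JA = ⊥`: `e = -t`; `t = 0` is excluded by (1); `t = 1`: `F' = (line (G - single P 1)).sub ⊤`
   (`sub_top_line`) with `P ∈ Ξ`. For a fixed `P ∈ Ξ` there is at most one such `J`: `J` is the graph of a
   linear map `σ : K → A`, and `σ b - u Q b ∈ X.M Q` for `b ∈ (line (G - P)).M Q` (elements of `J` over `F'` are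
   in `X'`); for two such maps `θ = σ1 - σ2` maps `G(-P)` to `X`; if `θ ≠ 0` then `P ∈ T`, a contradiction.
So `Neg X' 1 d0` and `X'.exc 1 d0` is finite. Transport to `Fin (j + 1) → K` (`exists_transport`;
the new `q` is `snd ∘ f⁻¹`).
-/

set_option autoImplicit false

namespace Pool.Agent.MP_09eaec.GG

open Module

universe u v

variable {k : Type u} {K : Type v} [Field k] [Field K] [Algebra k K]
variable {W : Type v} [AddCommGroup W] [Module K W] [Module k W] [IsScalarTower k K W]
variable {A : Type v} [AddCommGroup A] [Module K A] [Module k A] [IsScalarTower k K A]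
variable {B : Type v} [AddCommGroup B] [Module K B] [Module k B] [IsScalarTower k K B]

variable [CurveG k K]

private theorem IntStep_null (X : VB k K A) (D : Dv k K) (u : Place k K →₀ (K →ₗ[K] A))
    (σ : K →ₗ[K] A) (h : ∀ Q b, b ∈ (line D).M Q → σ b - u Q b ∈ X.M Q) :
    Null X ⊥ ((line D).sub (⊤ : Submodule K K)) u := by
  refine ⟨(⊥ : Submodule K A).mkQ ∘ₗ σ ∘ₗ (⊤ : Submodule K K).subtype, fun P b hb => ?_⟩
  rw [VB.mem_quo]
  refine ⟨u P b - σ b, ?_, ?_⟩
  · have h1 := neg_mem (h P b (VB.mem_sub.1 hb))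
    rwa [neg_sub] at h1
  · rw [map_sub]
    rfl

private theorem IntStep_graph (X : VB k K A) (G : Dv k K) (u : Place k K →₀ (K →ₗ[K] A))
    (J : Submodule K (A × K)) (hA : J.comap (LinearMap.inl K A K) = ⊥)
    (hB : J.map (LinearMap.snd K A K) = ⊤) :
    ∃ (σ : K →ₗ[K] A) (D' : Dv k K), J = LinearMap.range (σ.prod LinearMap.id) ∧
      (∀ P, D' P ≤ G P) ∧ ((ext X (line G) u).sub J).deg = ddeg D' ∧
      ∀ Q b, b ∈ (line D').M Q → σ b - u Q b ∈ X.M Q := by
  let p : J →ₗ[K] K := (LinearMap.snd K A K).domRestrict J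
  have hp : ∀ x : J, p x = (x : A × K).2 := fun x => rfl
  have hinj : Function.Injective p := by
    rw [← LinearMap.ker_eq_bot, LinearMap.ker_eq_bot']
    intro x hx
    rw [hp] at hx
    have h1 : (x : A × K).1 ∈ J.comap (LinearMap.inl K A K) := by
      rw [Submodule.mem_comap]
      have h2 : LinearMap.inl K A K (x : A × K).1 = (x : A × K) := Prod.ext rfl hx.symm
      rw [h2]; exact x.2
    rw [hA, Submodule.mem_bot] at h1
    exact Subtype.ext (Prod.ext h1 hx)
  have hsurj : Function.Surjective p := by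
    intro b
    have h1 : b ∈ J.map (LinearMap.snd K A K) := by rw [hB]; exact Submodule.mem_top
    obtain ⟨x, hx, hxb⟩ := h1
    exact ⟨⟨x, hx⟩, hxb⟩
  let e : J ≃ₗ[K] K := LinearEquiv.ofBijective p ⟨hinj, hsurj⟩
  have he : ∀ x : J, e x = (x : A × K).2 := fun x => rfl
  have he2 : ∀ b : K, (e.symm b : A × K).2 = b := fun b => by rw [← he, e.apply_symm_apply]
  let σ : K →ₗ[K] A := LinearMap.fst K A K ∘ₗ J.subtype ∘ₗ e.symm.toLinearMap
  have hσ : ∀ b : K, σ b = (e.symm b : A × K).1 := fun b => rfl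
  obtain ⟨D', hD'⟩ := exists_eq_line (((ext X (line G) u).sub J).map e)
  have hmem : ∀ Q b, b ∈ (line D').M Q → (e.symm b : A × K) ∈ (ext X (line G) u).M Q := by
    intro Q b hb
    rw [← hD', VB.mem_map, VB.mem_sub] at hb
    exact hb
  refine ⟨σ, D', ?_, ?_, ?_, ?_⟩
  · ext x
    rw [LinearMap.mem_range]
    constructor
    · intro hx
      refine ⟨x.2, ?_⟩
      have h1 : e.symm x.2 = ⟨x, hx⟩ := by
        rw [LinearEquiv.symm_apply_eq]; rfl
      refine Prod.ext ?_ rfl
      show σ x.2 = x.1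
      rw [hσ, h1]
    · rintro ⟨b, rfl⟩
      have h1 : ((σ.prod LinearMap.id) b : A × K) = (e.symm b : A × K) :=
        Prod.ext rfl (he2 b).symm
      rw [h1]; exact (e.symm b).2
  · rw [← line_le_line]
    intro P b hb
    have h1 := (mem_ext.1 (hmem P b hb)).1
    rwa [he2] at h1
  · rw [← VB.deg_map _ e, hD', VB.deg_line]
  · intro Q b hb
    have h1 := (mem_ext.1 (hmem Q b hb)).2
    rwa [he2] at h1

theorem int_step (G : Dv k K) {j : ℕ} (hj : 1 ≤ j) (h : IntChain G j) : IntChain G (j + 1) := by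
  classical
  obtain ⟨X, q, G', hXd, hN, hf, hq, hG', hX0⟩ := h
  have hfr : finrank K (Fin j → K) = j := by rw [Module.finrank_fintype_fun_eq_card, Fintype.card_fin]
  have hG'le : ddeg G' ≤ ddeg G := by
    rcases hG' with h | h
    · omega
    · rw [h]
  have hT := finite_T X G hN hf
  set T : Set (Place k K) := {P : Place k K | ∃ θ : K →ₗ[K] (Fin j → K), θ ≠ 0 ∧
      ∀ Q x, x ∈ (line (G - Finsupp.single P 1)).M Q → θ x ∈ X.M Q} with hTdef
  -- the conditions on the class
  let S1 : Set (Submodule K (Fin j → K)) := X.exc 1 (ddeg G) ∪ {⊥, LinearMap.ker q}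
  have hS1 : S1.Finite := hf.union (Set.toFinite _)
  have : Finite S1 := hS1.to_subtype
  have : Finite T := hT.to_subtype
  obtain ⟨hdG, hfr1⟩ := deg_sub_top_line G
  have hquo : ∀ J : Submodule K (Fin j → K), (X.quo J).deg = j * ddeg G - 1 - (X.sub J).deg ∧
      (finrank K ((Fin j → K) ⧸ J) : ℤ) = j - finrank K J := by
    intro J
    refine ⟨?_, ?_⟩
    · have := VB.deg_add X J
      omega
    · have := Submodule.finrank_quotient_add_finrank J
      rw [hfr] at this
      omega
  have hadm : ∀ i : S1 ⊕ T, (hom (Sum.elim (fun _ : S1 => (line G).sub (⊤ : Submodule K K))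
      (fun P : T => (line (G - Finsupp.single P.1 1)).sub (⊤ : Submodule K K)) i)
      (X.quo (Sum.elim (fun s : S1 => s.1) (fun _ : T => ⊥) i))).N ≠ ⊤ := by
    rintro (⟨J, hJ⟩ | ⟨P, hP⟩)
    · show (hom ((line G).sub (⊤ : Submodule K K)) (X.quo J)).N ≠ ⊤
      apply N_hom_ne_top
      rw [hfr1, hdG]
      obtain ⟨h1, h2⟩ := hquo J
      rcases hJ with hJ | hJ
      · obtain ⟨hb, ht, he⟩ := hJ
        have h3 : finrank K J < j := by
          have := Submodule.finrank_lt ht
          rwa [hfr] at this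
        rw [h1, h2]
        push_cast
        have h4 : (X.sub J).deg = ddeg G * finrank K J - 1 := by linarith
        rw [h4]
        have h5 : (finrank K J : ℤ) < j := by exact_mod_cast h3
        nlinarith
      · rcases hJ with hJ | hJ
        · subst hJ
          rw [h1, h2, VB.deg_sub_bot, finrank_bot]
          push_cast
          have h5 : (1 : ℤ) ≤ j := by exact_mod_cast hj
          nlinarith
        · rw [Set.mem_singleton_iff] at hJ
          subst hJ
          obtain ⟨h3, h4⟩ := quo_ker_deg X q G' hq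
          rw [h3, h4]
          push_cast
          linarith
    · show (hom ((line (G - Finsupp.single P 1)).sub (⊤ : Submodule K K)) (X.quo ⊥)).N ≠ ⊤
      apply N_hom_ne_top
      obtain ⟨h5, h6⟩ := deg_sub_top_line (G - Finsupp.single P 1)
      obtain ⟨h1, h2⟩ := hquo ⊥
      rw [h6, h5, h1, h2, VB.deg_sub_bot, finrank_bot, ddeg_sub, ddeg_single]
      push_cast
      have h7 : (1 : ℤ) ≤ j := by exact_mod_cast hj
      nlinarith
  obtain ⟨u, hu⟩ := exists_generic (B := K) X (fun i : S1 ⊕ T => Sum.elim (fun s : S1 => s.1) (fun _ : T => ⊥) i)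
    (fun _ => (⊤ : Submodule K K)) (fun i : S1 ⊕ T => Sum.elim (fun _ : S1 => (line G).sub (⊤ : Submodule K K))
      (fun P : T => (line (G - Finsupp.single P.1 1)).sub (⊤ : Submodule K K)) i) hadm
  have hu1 : ∀ J ∈ S1, ¬ Null X J ((line G).sub (⊤ : Submodule K K)) u := fun J hJ => hu (Sum.inl ⟨J, hJ⟩)
  have hu2 : ∀ P ∈ T, ¬ Null X ⊥ ((line (G - Finsupp.single P 1)).sub (⊤ : Submodule K K)) u :=
    fun P hP => hu (Sum.inr ⟨P, hP⟩)
  -- the points where the class dies
  set Ξ : Set (Place k K) := {P | Null X ⊥ ((line (G - Finsupp.single P 1)).sub (⊤ : Submodule K K)) u}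
    with hΞdef
  have hΞ : Ξ.Finite := by
    have ha : u.mapRange (fun f => q (f 1)) (by simp) ∉ (line (G' - G)).N := by
      rw [← null_ker_iff X q G' G hq u]
      exact hu1 _ (Or.inr (Or.inr rfl))
    refine (finite_xi (G' - G) ?_ _ ha).subset fun P hP => ?_
    · rcases hG' with h | h
      · have := VB.h0_nonneg (line (G' - G))
        rw [ddeg_sub, h]
        linarith
      · rw [h, sub_self, h0_line_zero, ddeg_zero]
        norm_num
    · have h1 := (null_ker_iff X q G' (G - Finsupp.single P 1) hq u).1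
        (Null.mono (hP : Null X ⊥ _ u) bot_le (VB.le_refl' _))
      have h2 : G' - (G - Finsupp.single P 1) = G' - G + Finsupp.single P 1 := by abel
      rw [h2] at h1
      exact h1
  have hΞT : ∀ P ∈ Ξ, P ∉ T := fun P hP hPT => hu2 P hPT hP
  let X' : VB k K ((Fin j → K) × K) := ext X (line G) u
  have hX'd : X'.deg = ((j + 1 : ℕ) : ℤ) * ddeg G - 1 := by
    show (ext X (line G) u).deg = _
    rw [deg_ext, hXd, VB.deg_line]
    push_cast
    ring
  -- the exceptional subspaces
  let SP : Place k K → Set (Submodule K ((Fin j → K) × K)) := fun P =>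
    {J | ∃ σ : K →ₗ[K] (Fin j → K), J = LinearMap.range (σ.prod LinearMap.id) ∧
      ∀ Q b, b ∈ (line (G - Finsupp.single P 1)).M Q → σ b - u Q b ∈ X.M Q}
  have hSP : ∀ P ∈ Ξ, (SP P).Subsingleton := by
    rintro P hP J1 ⟨σ1, h1, h1'⟩ J2 ⟨σ2, h2, h2'⟩
    by_contra hne
    apply hΞT P hP
    refine ⟨σ1 - σ2, ?_, ?_⟩
    · intro h0
      apply hne
      rw [h1, h2, sub_eq_zero.1 h0]
    · intro Q b hb
      have h3 := sub_mem (h1' Q b hb) (h2' Q b hb)
      rw [sub_sub_sub_cancel_right] at h3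
      exact h3
  let S : Set (Submodule K ((Fin j → K) × K)) :=
    (fun J0 : Submodule K (Fin j → K) => J0.map (LinearMap.inl K (Fin j → K) K)) ''
      (X.exc 1 (ddeg G) ∪ {⊤}) ∪ ⋃ P ∈ Ξ, SP P
  have hS : S.Finite := ((hf.union (Set.finite_singleton _)).image _).union
    (hΞ.biUnion fun P hP => (hSP P hP).finite)
  have key : ∀ J : Submodule K ((Fin j → K) × K), J ≠ ⊥ →
      1 * (X'.sub J).deg - ddeg G * finrank K J ≤ -1 ∧
      (1 * (X'.sub J).deg - ddeg G * finrank K J = -1 → J ≠ ⊤ → J ∈ S) := by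
    intro J hJ
    have hext := ext_sub X (line G) u J
    have hrk := finrank_ext_sub J
    have hXJ : (X'.sub J).deg = ((ext X (line G) u).sub J).deg := rfl
    rw [hXJ]
    rcases eq_bot_or_eq_top (J.map (LinearMap.snd K (Fin j → K) K)) with hJB | hJB
    · -- `J = JA × 0`
      have hJA : J.comap (LinearMap.inl K (Fin j → K) K) ≠ ⊥ := fun h => hJ (eq_bot_of h hJB)
      have hJeq := eq_map_inl hJB
      rw [hJB] at hext hrk
      obtain ⟨F', _, hF2, _⟩ := hext
      have hF0 : F'.deg = 0 := VB.deg_of_finrank_zero F' (finrank_bot _ _)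
      have h1 := hN _ hJA
      rw [hF2, hF0, hrk, finrank_bot]
      push_cast
      refine ⟨by linarith, fun he _ => Or.inl ?_⟩
      refine ⟨J.comap (LinearMap.inl K (Fin j → K) K), ?_, hJeq.symm⟩
      by_cases ht : J.comap (LinearMap.inl K (Fin j → K) K) = ⊤
      · exact Or.inr ht
      · exact Or.inl ⟨hJA, ht, by linarith⟩
    · by_cases hJA : J.comap (LinearMap.inl K (Fin j → K) K) = ⊥
      · -- a graph
        obtain ⟨σ, D', hg1, hg2, hg3, hg4⟩ := IntStep_graph X G u J hJA hJB
        have hDG : D' ≠ G := by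
          intro h0
          rw [h0] at hg4
          exact hu1 ⊥ (Or.inr (Or.inl rfl)) (IntStep_null X G u σ hg4)
        have hdD : ddeg D' ≤ ddeg G - 1 := by
          by_contra hcon
          exact hDG (eq_of_ddeg_le hg2 (by omega))
        rw [hJA, hJB, finrank_bot, hfr1] at hrk
        rw [hg3, hrk]
        push_cast
        refine ⟨by linarith, fun he _ => Or.inr ?_⟩
        -- `D' = G - P`
        obtain ⟨P, hP⟩ : ∃ P, D' P < G P := by
          by_contra hcon
          push Not at hcon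
          exact hDG (Finsupp.ext fun P => le_antisymm (hg2 P) (hcon P))
        have hDP : D' + Finsupp.single P 1 = G := by
          refine eq_of_ddeg_le (fun Q => ?_) ?_
          · rw [Finsupp.add_apply, Finsupp.single_apply]
            split_ifs with hQ
            · subst hQ; omega
            · have := hg2 Q; omega
          · rw [ddeg_add, ddeg_single]; linarith
        have hDP' : D' = G - Finsupp.single P 1 := eq_sub_of_add_eq hDP
        rw [hDP'] at hg4
        exact Set.mem_biUnion (show P ∈ Ξ from IntStep_null X _ u σ hg4) ⟨σ, hg1, hg4⟩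
      · rw [hJB] at hext hrk
        obtain ⟨F', hF1, hF2, hF3⟩ := hext
        have h1 := hN _ hJA
        have h2 := VB.deg_le_of_le hF1
        rw [hdG] at h2
        rw [hF2, hrk, hfr1]
        push_cast
        refine ⟨by linarith, fun he ht => ?_⟩
        exfalso
        have h3 : F'.deg = ddeg G := by linarith
        have h4 : F' = (line G).sub ⊤ := VB.eq_of_le_of_deg_le hF1 (by rw [hdG, h3])
        rw [h4] at hF3
        by_cases hJt : J.comap (LinearMap.inl K (Fin j → K) K) = ⊤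
        · exact ht (eq_top_of hJt hJB)
        · exact hu1 _ (Or.inl ⟨hJA, hJt, by linarith⟩) hF3
  have hNeg : Neg X' 1 (ddeg G) := fun J hJ => (key J hJ).1
  have hexc : (X'.exc 1 (ddeg G)).Finite := hS.subset fun J hJ => (key J hJ.1).2 hJ.2.2 hJ.2.1
  have hfr' : finrank K ((Fin j → K) × K) = j + 1 := by
    rw [Module.finrank_prod, hfr, Module.finrank_self]
  obtain ⟨E', f, hE', hd', hfin', hneg', -, -⟩ := exists_transport X' hfr'
  refine ⟨E', (LinearMap.snd K (Fin j → K) K) ∘ₗ f.symm.toLinearMap, G, ?_, hneg' _ _ hNeg, hfin' _ _ hexc,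
    ?_, Or.inr rfl, fun e1 => by rw [hE']; exact H0_map_bot _ f (ext_H0_bot u (hX0 e1) e1)⟩
  · rw [hd', hX'd]
  · intro P y
    rw [hE']
    constructor
    · intro hy
      refine ⟨f (u P y, y), ?_, ?_⟩
      · rw [VB.mem_map, f.symm_apply_apply]
        show (u P y, y) ∈ (ext X (line G) u).M P
        rw [mem_ext]
        refine ⟨hy, ?_⟩
        rw [sub_self]
        exact zero_mem _
      · show (f.symm (f (u P y, y))).2 = y
        rw [f.symm_apply_apply]
    · rintro ⟨x, hx, rfl⟩
      rw [VB.mem_map] at hx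
      exact (mem_ext.1 hx).1

end Pool.Agent.MP_09eaec.GG
end

section

/-!
# TASK B10: the chain for integral slopes; small ranks

* `int_one`: `j = 1`: choose a point `P` (`infinite_places`), `G' = G - single P 1`, `X` = `line G'`
  transported to `Fin 1 → K` (`LinearEquiv.funUnique (Fin 1) K K`), `q x = x 0`. The only subspaces are
  `⊥` and `⊤` (rank one), `exc = ∅`.
* `int_chain`: induction with `int_step`.
* `Q_one`: `Q k K 1 d`: a line bundle of degree `d` (e.g. `line (single P d)`).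
* `Q_two`: `d` odd, `d = 2 d0 - 1`; `G = single P d0`, `X` from `int_chain G 2`: degree `2 d0 - 1`; for `J` of
  rank `1`: `deg ≤ d0 - 1` is `2 deg - d ≤ -1`, with equality in one iff in the other
  (a proper nonzero subspace of `Fin 2 → K` has rank `1`).
-/

set_option autoImplicit false

namespace Pool.Agent.MP_09eaec.GG

open Module

universe u v

variable {k : Type u} {K : Type v} [Field k] [Field K] [Algebra k K]
variable {W : Type v} [AddCommGroup W] [Module K W] [Module k W] [IsScalarTower k K W]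
variable {A : Type v} [AddCommGroup A] [Module K A] [Module k A] [IsScalarTower k K A]
variable {B : Type v} [AddCommGroup B] [Module K B] [Module k B] [IsScalarTower k K B]

variable [CurveG k K]

private lemma IntBase_bot_or_top (J : Submodule K (Fin 1 → K)) : J = ⊥ ∨ J = ⊤ := by
  have h1 : finrank K (Fin 1 → K) = 1 := by simp
  have h2 := Submodule.finrank_le J
  rw [h1] at h2
  rcases Nat.eq_zero_or_pos (finrank K J) with h | h
  · left; exact Submodule.finrank_eq_zero.1 h
  · right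
    apply Submodule.eq_top_of_finrank_eq
    rw [h1]; omega

private noncomputable def IntBase_line1 (D : Dv k K) : VB k K (Fin 1 → K) :=
  (line D).map (LinearEquiv.funUnique (Fin 1) K K).symm

private lemma IntBase_mem (D : Dv k K) (P : Place k K) (x : Fin 1 → K) :
    x ∈ (IntBase_line1 D).M P ↔ x 0 ∈ (line D).M P := by
  unfold IntBase_line1
  rw [VB.mem_map]
  rfl

private lemma IntBase_deg (D : Dv k K) : (IntBase_line1 D).deg = ddeg D := by
  unfold IntBase_line1
  rw [VB.deg_map, VB.deg_line]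

private lemma IntBase_exc (E : VB k K (Fin 1 → K)) (r d : ℤ) : (E.exc r d).Finite := by
  have : E.exc r d = ∅ := by
    ext J
    simp only [VB.exc, Set.mem_ofPred_eq, Set.mem_empty_iff_false, iff_false]
    rintro ⟨h1, h2, -⟩
    rcases IntBase_bot_or_top J with h | h
    · exact h1 h
    · exact h2 h
  rw [this]
  exact Set.finite_empty

theorem int_one (G : Dv k K) : IntChain G 1 := by
  have := infinite_places (k := k) (K := K)
  obtain ⟨P⟩ : Nonempty (Place k K) := inferInstance
  refine ⟨IntBase_line1 (G - Finsupp.single P 1), LinearMap.proj 0, G - Finsupp.single P 1,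
    ?_, ?_, IntBase_exc _ _ _, ?_, Or.inl ?_, fun hG => H0_map_bot _ _ ?_⟩
  · rw [IntBase_deg, ddeg_sub, ddeg_single]; simp
  · intro J hJ
    rcases IntBase_bot_or_top J with h | h
    · exact absurd h hJ
    · subst h
      rw [VB.deg_sub_top, IntBase_deg, ddeg_sub, ddeg_single, finrank_top]
      simp
  · intro Q y
    constructor
    · intro hy
      exact ⟨fun _ => y, (IntBase_mem _ _ _).2 hy, rfl⟩
    · rintro ⟨x, hx, rfl⟩
      exact (IntBase_mem _ _ _).1 hx
  · rw [ddeg_sub, ddeg_single]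
  · classical
    rw [eq_bot_iff, ← hG]
    intro x hx
    refine VB.mem_H0.2 fun Q => filt_mono Q ?_ (VB.mem_H0.1 hx Q)
    rw [Finsupp.sub_apply, Finsupp.single_apply]
    split_ifs <;> omega

theorem int_chain (G : Dv k K) {j : ℕ} (hj : 1 ≤ j) : IntChain G j := by
  induction j, hj using Nat.le_induction with
  | base => exact int_one G
  | succ n hn ih => exact int_step G hn ih

theorem exists_ddeg (d : ℤ) : ∃ D : Dv k K, ddeg D = d := by
  have := infinite_places (k := k) (K := K)
  obtain ⟨P⟩ : Nonempty (Place k K) := inferInstance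
  exact ⟨Finsupp.single P d, ddeg_single P d⟩

theorem Q_one (d : ℤ) : Q k K 1 d := by
  obtain ⟨D, hD, hD0⟩ := exists_ddeg' (k := k) (K := K) d
  refine ⟨IntBase_line1 D, ?_, ?_, IntBase_exc _ _ _, fun _ h1 => H0_map_bot _ _ (hD0 (by
    exact_mod_cast h1))⟩
  · rw [IntBase_deg, hD]
  · intro J h1 h2
    rcases IntBase_bot_or_top J with h | h
    · exact absurd h h1
    · exact absurd h h2

theorem stable_one (d : ℤ) :
    ∃ E : VB k K (Fin 1 → K), E.deg = d ∧ E.Stable ∧ (d < 1 → E.H0 = ⊥) := by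
  obtain ⟨D, hD, hD0⟩ := exists_ddeg' (k := k) (K := K) d
  refine ⟨IntBase_line1 D, by rw [IntBase_deg, hD], ?_, fun h1 => H0_map_bot _ _ (hD0 (by omega))⟩
  intro J h1 h2
  rcases IntBase_bot_or_top J with h | h
  · exact absurd h h1
  · exact absurd h h2

private lemma IntBase_rank {J : Submodule K (Fin 2 → K)} (h1 : J ≠ ⊥) (h2 : J ≠ ⊤) :
    finrank K J = 1 := by
  have h3 : finrank K (Fin 2 → K) = 2 := by simp
  have h4 := Submodule.finrank_lt h2
  rw [h3] at h4
  have h5 : finrank K J ≠ 0 := fun h => h1 (Submodule.finrank_eq_zero.1 h)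
  omega

theorem Q_two {d : ℤ} (hd : IsCoprime (2 : ℤ) d) : Q k K 2 d := by
  obtain ⟨d0, hd0⟩ : ∃ d0 : ℤ, d = 2 * d0 - 1 := by
    obtain ⟨a, b, hab⟩ := hd
    rcases Int.even_or_odd d with ⟨m, hm⟩ | ⟨m, hm⟩
    · exfalso
      have : 2 * (a + b * m) = 1 := by rw [← hab, hm]; ring
      omega
    · exact ⟨m + 1, by rw [hm]; ring⟩
  obtain ⟨G, hG, hG0⟩ := exists_ddeg' (k := k) (K := K) d0
  obtain ⟨X, q, G', hdeg, hneg, hfin, -, -, hX0⟩ := int_chain G (j := 2) (by norm_num)
  rw [hG] at hdeg hneg hfin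
  refine ⟨X, ?_, ?_, ?_, fun _ h1 => hX0 (hG0 (by push_cast at h1; omega))⟩
  · rw [hdeg, hd0]; norm_num
  · intro J h1 h2
    have h3 := hneg J h1
    rw [IntBase_rank h1 h2] at h3 ⊢
    push_cast at h3 ⊢
    omega
  · refine hfin.subset ?_
    rintro J ⟨h1, h2, h3⟩
    refine ⟨h1, h2, ?_⟩
    rw [IntBase_rank h1 h2] at h3 ⊢
    push_cast at h3 ⊢
    omega

end Pool.Agent.MP_09eaec.GG
end

section

/-!
# TASK SysIn: the numerical data of a subsystem

`E = ext E1 (pw κ j) u` on `A × (Fin j → K)`, `S` a subspace, `F = E.sub S`, `r = finrank K S`.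
* `sys_in`: `(F.twist (-κ)).H0 = ⊥`: `F.twist (-κ) = (E.twist (-κ)).sub S` (`VB.twist_sub`), `H0_sub_bot`. So
  `a_ineq` holds for `F`. `exists_hom_basis` for `F`: `φ : Fin h → (S →ₗ[K] K)`, `h = F.h1`. `ker_all` for `F`, `φ`,
  `D = κ`: `I = ⨅ i, ker (φ i)`, `F.deg ≤ (F.sub I).deg + h (2 gen - 2)`, `finrank I + h = r`.
  For `l : Fin j` the map `p_l : S →ₗ K`, `(x, y) ↦ y l` is in `H0 (hom F (line κ))` (`mem_ext`, `mem_pw`,
  `mem_line`), so it is in the `k`-span of the `φ i` and vanishes on `I`. So every element of `I` is of the form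
  `(x, 0)`: `I.map S.subtype = T.map (LinearMap.inl ..)` with `T = (I.map S.subtype).comap inl`
  (`eq_map_inl`), `(F.sub I).deg = (E.sub (I.map S.subtype)).deg = (E1.sub T).deg` (`deg_sub_sub`,
  `deg_sub_inl`), `finrank T = finrank I`. Take `i = finrank K T`, `δ = (E1.sub T).deg`. If `T = ⊥`: `i = 0`,
  `δ = 0` (`deg_sub_bot`). If `T = ⊤`: `i = finrank K A`, `δ = E1.deg` (`deg_sub_top`). Otherwise
  `1 ≤ i < finrank K A` and stability `finrank A * δ < i * E1.deg`.
-/

set_option autoImplicit false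

namespace Pool.Agent.MP_09eaec.GG

open Module

universe u v

variable {k : Type u} {K : Type v} [Field k] [Field K] [Algebra k K]
variable {W : Type v} [AddCommGroup W] [Module K W] [Module k W] [IsScalarTower k K W]
variable {A : Type v} [AddCommGroup A] [Module K A] [Module k A] [IsScalarTower k K A]
variable {B : Type v} [AddCommGroup B] [Module K B] [Module k B] [IsScalarTower k K B]

variable [CurveG k K]

private theorem SysIn_aux [FiniteDimensional K A] {E1 : VB k K A}
    (hE1 : E1.Stable) (T : Submodule K A) :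
    (finrank K T = 0 ∧ (E1.sub T).deg = 0) ∨ (finrank K T = finrank K A ∧ (E1.sub T).deg = E1.deg) ∨
        (1 ≤ finrank K T ∧ finrank K T < finrank K A ∧
          (finrank K A : ℤ) * (E1.sub T).deg < finrank K T * E1.deg) := by
  by_cases h1 : T = ⊥
  · left
    subst h1
    exact ⟨finrank_bot K A, VB.deg_sub_bot E1⟩
  by_cases h2 : T = ⊤
  · right; left
    subst h2
    exact ⟨finrank_top K A, VB.deg_sub_top E1⟩
  right; right
  refine ⟨?_, Submodule.finrank_lt h2, hE1 T h1 h2⟩
  exact Submodule.one_le_finrank_iff.2 h1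

theorem sys_in {κ : Dv k K} (hκ : IsCanonical κ) [FiniteDimensional K A] {E1 : VB k K A}
    (hE1 : E1.Stable) {j : ℕ} (u : Place k K →₀ ((Fin j → K) →ₗ[K] A))
    (h0 : ((ext E1 (pw κ j) u).twist (-κ)).H0 = ⊥) (S : Submodule K (A × (Fin j → K)))
    {P : Place k K}
    (hP : ∀ φ : S →ₗ[K] K, (∀ Q x, x ∈ ((ext E1 (pw κ j) u).sub S).M Q →
      φ x ∈ (line (κ - Finsupp.single P 1)).M Q) → φ = 0) :
    ∃ (i h : ℕ) (δ : ℤ), (h : ℤ) = ((ext E1 (pw κ j) u).sub S).h1 ∧ i + h = finrank K S ∧
      ((ext E1 (pw κ j) u).sub S).deg ≤ δ + h * (2 * gen k K - 2) ∧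
      gen k K * h ≤ (3 * gen k K - 3) * (i + h) - ((ext E1 (pw κ j) u).sub S).deg ∧
      ((i = 0 ∧ δ = 0) ∨ (i = finrank K A ∧ δ = E1.deg) ∨
        (1 ≤ i ∧ i < finrank K A ∧ (finrank K A : ℤ) * δ < i * E1.deg)) := by
  classical
  have hF : (((ext E1 (pw κ j) u).sub S).twist (-κ)).H0 = ⊥ := by
    rw [← VB.twist_sub]
    exact VB.H0_sub_bot h0 S
  have hA := a_ineq hκ ((ext E1 (pw κ j) u).sub S) hF hP
  obtain ⟨h, φ, hh, hφH, hspan, -, hli⟩ := exists_hom_basis hκ ((ext E1 (pw κ j) u).sub S) hP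
  have hφ : ∀ i Q x, x ∈ ((ext E1 (pw κ j) u).sub S).M Q → φ i x ∈ (line κ).M Q := by
    intro i Q x hx
    exact (VB.mem_H0.1 (hφH i) Q) x hx
  obtain ⟨hdeg, hrk⟩ := ker_all ((ext E1 (pw κ j) u).sub S) φ hli hφ
  set I : Submodule K S := ⨅ i, LinearMap.ker (φ i) with hI
  have hsnd : (I.map S.subtype).map (LinearMap.snd K A (Fin j → K)) = ⊥ := by
    rw [Submodule.eq_bot_iff]
    rintro _ ⟨_, ⟨x, hx, rfl⟩, rfl⟩
    funext l
    let p : S →ₗ[K] K := (LinearMap.proj l ∘ₗ LinearMap.snd K A (Fin j → K)) ∘ₗ S.subtype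
    have hp : p ∈ (hom ((ext E1 (pw κ j) u).sub S) (line κ)).H0 := by
      rw [VB.mem_H0]
      intro Q
      rw [mem_hom]
      intro b hb
      exact (hb.1 : _) l
    have hp2 := hspan p hp
    have hp3 : ∀ ψ ∈ Submodule.span k (Set.range φ), ψ x = 0 := by
      intro ψ hψ
      induction hψ using Submodule.span_induction with
      | mem ψ hψ =>
        obtain ⟨i, rfl⟩ := hψ
        have := (Submodule.mem_iInf _).1 hx i
        exact this
      | zero => rfl
      | add a b _ _ ha hb => rw [LinearMap.add_apply, ha, hb, add_zero]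
      | smul c a _ ha => rw [LinearMap.smul_apply, ha, smul_zero]
    exact hp3 p hp2
  have hinl := eq_map_inl hsnd
  set T : Submodule K A := (I.map S.subtype).comap (LinearMap.inl K A (Fin j → K)) with hT
  have hdegI : (((ext E1 (pw κ j) u).sub S).sub I).deg = (E1.sub T).deg := by
    rw [VB.deg_sub_sub, hinl, deg_sub_inl]
  have hrT : finrank K T = finrank K I := by
    have e1 : finrank K I = finrank K ↥(I.map S.subtype) :=
      (Submodule.equivMapOfInjective S.subtype (Submodule.injective_subtype S) I).finrank_eq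
    have e2 : finrank K T = finrank K ↥(T.map (LinearMap.inl K A (Fin j → K))) :=
      (Submodule.equivMapOfInjective (LinearMap.inl K A (Fin j → K)) LinearMap.inl_injective
        T).finrank_eq
    rw [e1, e2, ← hinl]
  refine ⟨finrank K T, h, (E1.sub T).deg, hh, ?_, ?_, ?_, SysIn_aux hE1 T⟩
  · rw [hrT]; exact hrk
  · rw [hdegI, hκ.ddeg] at hdeg
    exact hdeg
  · rw [← hh, ← hrk, ← hrT] at hA
    push_cast at hA
    exact hA

end Pool.Agent.MP_09eaec.GG
end

section

/-!
# TASK High: complete systems of stable bundles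

`E` stable of rank `n ≥ 2`, degree `m + (g - 1) n`, `g = gen k K`, `m ≥ g n`; `κ` canonical. `h1 E = 0`: otherwise
`φ` from `h1_pos_hom`, `J = ker φ`: `(E.sub J).deg ≥ m + (g - 1) n - (2 g - 2)`, rank `n - 1`; stability
`n (E.sub J).deg < (n - 1) (m + (g - 1) n)` gives `m + (g - 1) n < (2 g - 2) n`, i.e. `m < (g - 1) n`, a
contradiction. So `h0 E = m` (`rr`), `V = H0 E`. `α = 1 / (2 n m)`: for `J ≠ ⊥, ⊤` of rank `r`:
`n (E.sub J).deg ≤ r (m + (g - 1) n) - 1` (integers), and `finrank (V ⊓ J) ≤ m`, so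
`n ((E.sub J).deg + α finrank (V ⊓ J)) ≤ r (m + (g - 1) n) - 1 + α n m < r (m + (g - 1) n) ≤
r (m + (g - 1) n + α m)`. (This is the proof of `high_system` in Lib/MP_09eaec_ag/G2/High.lean, the case
`g = 2`: copy it.)
-/

set_option autoImplicit false

namespace Pool.Agent.MP_09eaec.GG

open Module

universe u v

variable {k : Type u} {K : Type v} [Field k] [Field K] [Algebra k K]
variable {W : Type v} [AddCommGroup W] [Module K W] [Module k W] [IsScalarTower k K W]
variable {A : Type v} [AddCommGroup A] [Module K A] [Module k A] [IsScalarTower k K A]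
variable {B : Type v} [AddCommGroup B] [Module K B] [Module k B] [IsScalarTower k K B]

variable [CurveG k K]

theorem high_system {n m : ℕ} (hn : 2 ≤ n) (hm : gen k K * n ≤ m) {E : VB k K (Fin n → K)}
    (hd : E.deg = m + (gen k K - 1) * n) (hE : E.Stable) :
    ∃ (V : Submodule k (Fin n → K)) (α : ℝ), 0 < α ∧ V ≤ E.H0 ∧ finrank k V = m ∧
      E.StableSys α V := by
  obtain ⟨κ, hκ⟩ := exists_canonical (k := k) (K := K)
  have hg := CurveG.two_le (k := k) (K := K)
  set g : ℤ := gen k K with hgdef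
  have hfr : finrank K (Fin n → K) = n := Module.finrank_fin_fun K
  have h1 : E.h1 = 0 := by
    by_contra h
    obtain ⟨φ, hφ0, hφ⟩ := h1_pos_hom hκ h
    obtain ⟨b1, b2, -⟩ := ker_bounds hφ0 hφ
    rw [hκ.ddeg, hd] at b1
    rw [hfr] at b2
    have hJt : LinearMap.ker φ ≠ ⊤ := by
      intro ht
      exact hφ0 (LinearMap.ker_eq_top.1 ht)
    have hJb : LinearMap.ker φ ≠ ⊥ := by
      intro hb
      rw [hb, finrank_bot] at b2
      push_cast at b2
      omega
    have hs := hE _ hJb hJt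
    rw [hfr, b2, hd] at hs
    have hn' : (2 : ℤ) ≤ n := by exact_mod_cast hn
    have h3 : (n : ℤ) * (m + (g - 1) * n - (2 * g - 2)) ≤ n * (E.sub (LinearMap.ker φ)).deg :=
      mul_le_mul_of_nonneg_left (by linarith) (by positivity)
    have h4 : (n : ℤ) * (m + (g - 1) * n - (2 * g - 2)) < ((n : ℤ) - 1) * (m + (g - 1) * n) :=
      lt_of_le_of_lt h3 hs
    have h5 : (m : ℤ) < (g - 1) * n := by nlinarith
    nlinarith
  have hh0 : E.h0 = m := by
    rw [VB.rr, h1, hd, hfr]
    ring
  have hfV : finrank k E.H0 = m := by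
    unfold VB.h0 at hh0
    exact_mod_cast hh0
  have hm0 : 0 < m := by
    have h2 : (0 : ℤ) < g * n := by
      have : (2 : ℤ) ≤ n := by exact_mod_cast hn
      positivity
    have h3 : (0 : ℤ) < m := lt_of_lt_of_le h2 hm
    exact_mod_cast h3
  have hnR : (0 : ℝ) < n := by
    have : 0 < n := by omega
    exact_mod_cast this
  have hmR : (0 : ℝ) < m := by
    exact_mod_cast hm0
  refine ⟨E.H0, 1 / (2 * n * m), by positivity, le_rfl, hfV, ?_⟩
  intro J hJb hJt
  have hs := hE J hJb hJt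
  rw [hfr, hd] at hs
  have hr0 : 0 < finrank K J := by
    rw [Nat.pos_iff_ne_zero]
    intro h0
    exact hJb (Submodule.finrank_eq_zero.1 h0)
  have hrR : (0 : ℝ) < finrank K J := by exact_mod_cast hr0
  have hle : finrank k ↥(E.H0 ⊓ J.restrictScalars k) ≤ m := by
    have : Module.Finite k E.H0 := by
      refine Module.finite_of_finrank_pos ?_
      rw [hfV]
      exact hm0
    rw [← hfV]
    exact Submodule.finrank_mono inf_le_left
  have hleR : (finrank k ↥(E.H0 ⊓ J.restrictScalars k) : ℝ) ≤ m := by exact_mod_cast hle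
  have hs' : (n : ℤ) * (E.sub J).deg + 1 ≤ finrank K J * (m + (g - 1) * n) := hs
  have hsR : (n : ℝ) * ((E.sub J).deg : ℝ) + 1 ≤ finrank K J * (m + ((g : ℝ) - 1) * n) := by
    exact_mod_cast hs'
  rw [hfV, hd, hfr, div_lt_div_iff₀ hrR hnR]
  have e1 : (1 / (2 * n * m) : ℝ) * m * n = 1 / 2 := by
    field_simp
  have e2 : (1 / (2 * n * m) : ℝ) * (finrank k ↥(E.H0 ⊓ J.restrictScalars k) : ℝ) * n ≤
      (1 / (2 * n * m) : ℝ) * m * n := by gcongr
  have e3 : (0 : ℝ) ≤ (1 / (2 * n * m) : ℝ) * m * finrank K J := by positivity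
  push_cast
  nlinarith

end Pool.Agent.MP_09eaec.GG
end
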