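import Pool.Agent.Lib.MP_09eaec_ag.Mg.G012
import Pool.Agent.Lib.MP_09eaec_ag.Mg.G009
import Pool.Agent.Lib.MP_09eaec_ag.Mg.G007
import Pool.Agent.Lib.MP_09eaec_ag.Mg.G004
import Pool.Agent.Lib.MP_09eaec_ag.Residue
import Pool.Agent.Lib.MP_09eaec_ag.Mg.G010
import Pool.Agent.Lib.MP_09eaec_ag.Mg.G003
import Pool.Agent.Lib.MP_09eaec_ag.Mg.G002
import Pool.Agent.Lib.MP_09eaec_ag.Mg.G016
import Pool.Agent.Lib.MP_09eaec_ag.Mg.G005
import Pool.Agent.Lib.MP_09eaec_ag.Mg.G008
import Pool.Agent.Lib.MP_09eaec_ag.GG.Coh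

section

/-!
# TASK RelSub: the bundles with a relation

`J = ⨅ a, ker (ψ a)`. Induction on `finrank K S` (for all `S ≥ J`; `Nat.strong_induction_on` or induction on
`N = finrank K S - finrank K J`). If all `ψ a` vanish on `S` then `S ≤ J`, `S = J`, trivial. Otherwise
`point_lemma` for `S` gives `P`, `φ`; `S' = S ⊓ ker φ ≥ J`, of rank `finrank K S - 1`; `ker_bounds_sub E S` with
`D = κ - single P 1`: `(E.sub S).deg ≤ (E.sub S').deg + (2 gen - 3)` (`hκ.ddeg`, `ddeg_sub`, `ddeg_single`),
`vd V S ≤ vd V S' + (gen - 1)` (`hκ.h0_sub`), and the induction hypothesis for `S'`.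
-/

set_option autoImplicit false

namespace Pool.Agent.MP_09eaec.GG

open Module

universe u v

variable {k : Type u} {K : Type v} [Field k] [Field K] [Algebra k K]
variable {W : Type v} [AddCommGroup W] [Module K W] [Module k W] [IsScalarTower k K W]
variable {A : Type v} [AddCommGroup A] [Module K A] [Module k A] [IsScalarTower k K A]
variable {B : Type v} [AddCommGroup B] [Module K B] [Module k B] [IsScalarTower k K B]

variable [CurveG k K]

theorem rel_sub {κ : Dv k K} (hκ : IsCanonical κ) {γ : ℕ} {ω : Fin γ → K}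
    (hω : ∀ a, ω a ∈ (line κ).H0) (hli : LinearIndependent k ω) [FiniteDimensional K W]
    (E : VB k K W) {V : Submodule k W} (hV : V ≤ E.H0) (ψ : Fin γ → (W →ₗ[K] K))
    (hψ : ∀ a P x, x ∈ E.M P → ψ a x ∈ (line κ).M P) (hrel : ∑ a, ω a • ψ a = 0)
    (S : Submodule K W) (hS : (⨅ a, LinearMap.ker (ψ a)) ≤ S) :
    (E.sub S).deg ≤ (E.sub (⨅ a, LinearMap.ker (ψ a))).deg +
      (2 * gen k K - 3) * (finrank K S - finrank K ↥(⨅ a, LinearMap.ker (ψ a))) ∧
    (vd V S : ℤ) ≤ vd V (⨅ a, LinearMap.ker (ψ a)) +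
      (gen k K - 1) * (finrank K S - finrank K ↥(⨅ a, LinearMap.ker (ψ a))) := by
  have hrel' : ∀ x : W, ∑ a, ω a * ψ a x = 0 := by
    intro x
    have h := LinearMap.congr_fun hrel x
    simpa [LinearMap.sum_apply] using h
  have key : ∀ (n : ℕ) (S : Submodule K W), finrank K S = n →
      (⨅ a, LinearMap.ker (ψ a)) ≤ S →
      (E.sub S).deg ≤ (E.sub (⨅ a, LinearMap.ker (ψ a))).deg +
        (2 * gen k K - 3) * (finrank K S - finrank K ↥(⨅ a, LinearMap.ker (ψ a))) ∧
      (vd V S : ℤ) ≤ vd V (⨅ a, LinearMap.ker (ψ a)) +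
        (gen k K - 1) * (finrank K S - finrank K ↥(⨅ a, LinearMap.ker (ψ a))) := by
    intro n
    induction n with
    | zero =>
      intro S hn hS
      have h0 : S = ⊥ := Submodule.finrank_eq_zero.1 hn
      have h1 : S = ⨅ a, LinearMap.ker (ψ a) := by
        apply le_antisymm _ hS
        rw [h0]
        exact bot_le
      rw [← h1, sub_self]
      simp
    | succ n ih =>
      intro S hn hS
      by_cases hall : ∀ a, S ≤ LinearMap.ker (ψ a)
      · have h1 : S = ⨅ a, LinearMap.ker (ψ a) := le_antisymm (le_iInf hall) hS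
        rw [← h1, sub_self]
        simp
      · push Not at hall
        obtain ⟨P, φ, hφ, hφP, hker⟩ := point_lemma hω hli E S ψ
          (fun a P x _ hx => hψ a P x hx) (fun x _ => hrel' x) hall
        obtain ⟨hd, hf, hv⟩ := ker_bounds_sub E S hφ hφP
        have hJ : (⨅ a, LinearMap.ker (ψ a)) ≤ S ⊓ LinearMap.ker φ := le_inf hS hker
        obtain ⟨i1, i2⟩ := ih (S ⊓ LinearMap.ker φ) (by omega) hJ
        have hv' := hv V hV
        rw [hκ.h0_sub] at hv'
        rw [ddeg_sub, ddeg_single, hκ.ddeg] at hd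
        have hf' : (finrank K S : ℤ) = finrank K ↥(S ⊓ LinearMap.ker φ) + 1 := by
          exact_mod_cast hf.symm
        rw [hf']
        constructor
        · calc (E.sub S).deg ≤ _ := hd
            _ ≤ (E.sub (⨅ a, LinearMap.ker (ψ a))).deg +
                (2 * gen k K - 3) * (finrank K ↥(S ⊓ LinearMap.ker φ) -
                  finrank K ↥(⨅ a, LinearMap.ker (ψ a))) + (2 * gen k K - 2 - 1) := by
              linarith
            _ = _ := by ring
        · calc (vd V S : ℤ) ≤ _ := hv'
            _ ≤ vd V (⨅ a, LinearMap.ker (ψ a)) +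
                (gen k K - 1) * (finrank K ↥(S ⊓ LinearMap.ker φ) -
                  finrank K ↥(⨅ a, LinearMap.ker (ψ a))) + (gen k K - 1) := by
              linarith
            _ = _ := by ring
  exact key _ S rfl hS

end Pool.Agent.MP_09eaec.GG
end

section

/-!
# TASK LowerC: `gen * h1 E ≤ h1 (E(-κ))`

`n = finrank K W`, `v = finrank k V`, `d = E.deg`, `γ, ω` from `exists_omega`; `mul_le`. `hinj`: let `ψ a ∈ H0 (hom E κ)`,
`∑ ω a • ψ a = 0`, `J = ⨅ a, ker (ψ a)`. If `J = ⊤` then all `ψ a = 0`. Otherwise `rel_sub` for `S = ⊤`, `r = finrank K J < n`: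
`d ≤ (E.sub J).deg + (2 gen - 3) (n - r)`, `v ≤ vd V J + (gen - 1) (n - r)` (`deg_sub_top`, `vd_top`). If `J = ⊥` then
`d ≤ (2 gen - 3) n` (`deg_sub_bot`), contradicting `hd`. If `J ≠ ⊥`: stability
`((E.sub J).deg + α vd V J) n < (d + α v) r` gives, with `c = (2 gen - 3) + α (gen - 1)`,
`n (d + α v - (n - r) c) < r (d + α v)`, so `(n - r) (d + α v) < (n - r) n c`, `d + α v < n c`, contradicting `hd`, `hk`.
-/

set_option autoImplicit false

namespace Pool.Agent.MP_09eaec.GG

open Module

universe u v

variable {k : Type u} {K : Type v} [Field k] [Field K] [Algebra k K]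
variable {W : Type v} [AddCommGroup W] [Module K W] [Module k W] [IsScalarTower k K W]
variable {A : Type v} [AddCommGroup A] [Module K A] [Module k A] [IsScalarTower k K A]
variable {B : Type v} [AddCommGroup B] [Module K B] [Module k B] [IsScalarTower k K B]

variable [CurveG k K]

theorem lower_c {κ : Dv k K} (hκ : IsCanonical κ) [FiniteDimensional K W] {E : VB k K W}
    {V : Submodule k W} (hV : V ≤ E.H0) {α : ℝ} (hα : 0 < α) (hst : E.StableSys α V)
    (hd : (2 * gen k K - 3) * finrank K W < E.deg)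
    (hk : (gen k K - 1) * finrank K W < finrank k V) :
    gen k K * E.h1 ≤ (E.twist (-κ)).h1 := by
  obtain ⟨γ, ω, hγ, hω, hli⟩ := exists_omega hκ
  rw [← hγ]
  refine mul_le hκ E ω hω fun ψ hψ hrel => ?_
  have hψ' : ∀ a P x, x ∈ E.M P → ψ a x ∈ (line κ).M P := fun a P x hx =>
    VB.mem_H0.1 (hψ a) P x hx
  obtain ⟨J, hJ⟩ : ∃ J : Submodule K W, J = ⨅ a, LinearMap.ker (ψ a) := ⟨_, rfl⟩
  by_cases hJt : J = ⊤
  · funext a
    ext x
    have h1 : x ∈ J := by rw [hJt]; trivial
    rw [hJ] at h1
    exact (Submodule.mem_iInf _).1 h1 a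
  exfalso
  obtain ⟨h1, h2⟩ := rel_sub hκ hω hli E hV ψ hψ' hrel ⊤ le_top
  rw [← hJ, VB.deg_sub_top, finrank_top] at h1
  rw [← hJ, vd_top, finrank_top] at h2
  have hlt : finrank K J < finrank K W := Submodule.finrank_lt hJt
  have hg := CurveG.two_le (k := k) (K := K)
  by_cases hJb : J = ⊥
  · rw [hJb, VB.deg_sub_bot, finrank_bot] at h1
    simp only [Nat.cast_zero, sub_zero, zero_add] at h1
    omega
  have hst' := hst J hJb hJt
  have hr0 : 0 < finrank K J := by
    rw [Nat.pos_iff_ne_zero]
    intro h0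
    exact hJb (Submodule.finrank_eq_zero.1 h0)
  have hn0 : 0 < finrank K W := hr0.trans hlt
  obtain ⟨n, hn⟩ : ∃ n : ℝ, n = finrank K W := ⟨_, rfl⟩
  obtain ⟨r, hr⟩ : ∃ r : ℝ, r = finrank K J := ⟨_, rfl⟩
  obtain ⟨d, hd'⟩ : ∃ d : ℝ, d = E.deg := ⟨_, rfl⟩
  obtain ⟨e, he⟩ : ∃ e : ℝ, e = (E.sub J).deg := ⟨_, rfl⟩
  obtain ⟨v, hv⟩ : ∃ v : ℝ, v = finrank k V := ⟨_, rfl⟩
  obtain ⟨w, hw⟩ : ∃ w : ℝ, w = finrank k ↥(V ⊓ J.restrictScalars k) := ⟨_, rfl⟩
  obtain ⟨g, hg'⟩ : ∃ g : ℝ, g = gen k K := ⟨_, rfl⟩
  have a1 : d ≤ e + (2 * g - 3) * (n - r) := by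
    rw [hd', he, hg', hn, hr]
    exact_mod_cast h1
  have a2 : v ≤ w + (g - 1) * (n - r) := by
    rw [hv, hw, hg', hn, hr]
    exact_mod_cast h2
  have a3 : (2 * g - 3) * n < d := by
    rw [hd', hg', hn]
    exact_mod_cast hd
  have a4 : (g - 1) * n < v := by
    rw [hv, hg', hn]
    exact_mod_cast hk
  rw [← he, ← hd', ← hn, ← hr, ← hv, ← hw] at hst'
  have a5 : 0 < r := by rw [hr]; exact_mod_cast hr0
  have a6 : 0 < n := by rw [hn]; exact_mod_cast hn0
  have a7 : 0 < n - r := by rw [hn, hr, sub_pos]; exact_mod_cast hlt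
  rw [div_lt_div_iff₀ a5 a6] at hst'
  have b1 := mul_le_mul_of_nonneg_right a1 a6.le
  have b2 := mul_le_mul_of_nonneg_right (mul_le_mul_of_nonneg_left a2 hα.le) a6.le
  have b3 := mul_lt_mul_of_pos_left a3 a7
  have b4 := mul_lt_mul_of_pos_left (mul_lt_mul_of_pos_left a4 hα) a7
  nlinarith

end Pool.Agent.MP_09eaec.GG
end

section

/-!
# The lower bounds

* `lower_i`: `v ≥ gen n`. `v > gen n`: `lower_a'`. `v = gen n`: if `h1 E ≠ 0`, `lower_star` gives
  `d < n (2 gen - 2)`, but `lower_a` gives `d ≥ gen n + (gen - 2) n`. So `h1 E = 0`, `v ≤ h0 E = d - (gen - 1) n`.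
* `lower_ii`: if `h1 E = 0`: `d ≥ v + (gen - 1) n`. Otherwise `lower_star`, `lower_b`, `lower_c` and `rr` for `E`, `E(-κ)`.
-/

set_option autoImplicit false

namespace Pool.Agent.MP_09eaec.GG

open Module

universe u v

variable {k : Type u} {K : Type v} [Field k] [Field K] [Algebra k K]
variable {W : Type v} [AddCommGroup W] [Module K W] [Module k W] [IsScalarTower k K W]
variable {A : Type v} [AddCommGroup A] [Module K A] [Module k A] [IsScalarTower k K A]
variable {B : Type v} [AddCommGroup B] [Module K B] [Module k B] [IsScalarTower k K B]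

variable [CurveG k K]

theorem lower_i [FiniteDimensional K W] {E : VB k K W}
    {V : Submodule k W} (hV : V ≤ E.H0) {α : ℝ} (hα : 0 < α) (hn : 2 ≤ finrank K W)
    (hst : E.StableSys α V) (hk : gen k K * finrank K W ≤ finrank k V) :
    (finrank k V : ℤ) + (gen k K - 1) * finrank K W ≤ E.deg := by
  obtain ⟨κ, hκ⟩ := exists_canonical (k := k) (K := K)
  rcases lt_or_eq_of_le hk with h | h
  · exact lower_a' hκ hV hα (by omega) hst h
  by_cases h1 : E.h1 = 0
  · have h2 := (finrank_le_h0 hV).2
    have h3 := VB.rr E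
    rw [h1] at h3
    omega
  · exfalso
    have h2 := lower_star hκ hV hα hn hst h1
    have h4 : (0 : ℤ) < finrank K W := by
      exact_mod_cast (by omega : 0 < finrank K W)
    have h3 := lower_a hκ hV hα (by omega) hst (by rw [← h]; nlinarith)
    rw [← h] at h3
    have h5 : (finrank k V : ℝ) = gen k K * finrank K W := by exact_mod_cast h.symm
    have h6 : ((gen k K : ℝ) * finrank K W) + (gen k K - 2) * finrank K W ≤ E.deg := by
      exact_mod_cast h3
    rw [h5] at h2
    nlinarith

theorem lower_ii [FiniteDimensional K W] {E : VB k K W}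
    {V : Submodule k W} (hV : V ≤ E.H0) {α : ℝ} (hα : 0 < α) (hn : 2 ≤ finrank K W)
    (hst : E.StableSys α V) (hk : (gen k K - 1) * finrank K W < finrank k V)
    (hk' : (finrank k V : ℤ) ≤ gen k K * finrank K W) :
    gen k K * finrank k V + (gen k K - 1) * (gen k K - 3) * finrank K W ≤
      (gen k K - 1) * E.deg := by
  obtain ⟨κ, hκ⟩ := exists_canonical (k := k) (K := K)
  have hg := CurveG.two_le (k := k) (K := K)
  have h4 : (0 : ℤ) < finrank K W := by
    exact_mod_cast (by omega : 0 < finrank K W)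
  have hr := VB.rr E
  have hv := (finrank_le_h0 hV).2
  by_cases h1 : E.h1 = 0
  · rw [h1] at hr
    have h2 : (finrank k V : ℤ) + (gen k K - 1) * finrank K W ≤ E.deg := by omega
    nlinarith
  · have ha := lower_a hκ hV hα (by omega) hst hk
    have hs := lower_star hκ hV hα hn hst h1
    have hb := lower_b hκ hV hα hn hst hs
    have hc := lower_c hκ hV hα hst (by nlinarith) hk
    have hr2 := VB.rr (E.twist (-κ))
    rw [VB.deg_twist, ddeg_neg, hκ.ddeg] at hr2
    nlinarith

end Pool.Agent.MP_09eaec.GG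
end

section

/-!
# Subbundles of rank one of bundles bigger than `O(D)^r`

If `O(D)^r ⊊ F` then there is a subbundle of rank one and degree `≥ deg D + 1`: some constant vector, multiplied with an element
of order `-D P - 1`, is in the stalk of `F` at `P`.
-/

set_option autoImplicit false

namespace Pool.Agent.MP_09eaec.GG

open Module

universe u v

variable {k : Type u} {K : Type v} [Field k] [Field K] [Algebra k K]

variable [CurveG k K]

theorem filt_residue {P : Place k K} {c : K} (hc : c ∈ P.filt 0) :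
    ∃ c0 : k, c - algebraMap k K c0 ∈ P.filt 1 := by
  have := Curve.closed (k := k) (K := K)
  have := Curve.char (k := k) (K := K)
  obtain ⟨c0, h⟩ := exists_residue (Curve.curve (k := k) (K := K)) P (f := c) hc
  refine ⟨c0, ?_⟩
  rcases h with h | h
  · exact Or.inl h
  · exact Or.inr (by omega)

omit [CurveG k K] in
theorem ord_not_mem_filt {P : Place k K} {t : K} {m : ℤ} (ht : t ≠ 0) (htm : P.ord t = m) {a : ℤ}
    (h : m < a) : t ∉ P.filt a := by
  rintro (h1 | h1)
  · exact ht h1
  · omega

omit [CurveG k K] in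
theorem algebraMap_mem_filt (P : Place k K) (c : k) : algebraMap k K c ∈ P.filt 0 :=
  P.isInt_algebraMap c

theorem exists_rank_one_of_lt {D : Dv k K} {r : ℕ} {F : VB k K (Fin r → K)} (h : pw D r ≤ F)
    (hd : (pw D r).deg < F.deg) :
    ∃ J : Submodule K (Fin r → K), finrank K J = 1 ∧ ddeg D + 1 ≤ (F.sub J).deg := by
  classical
  obtain ⟨P, x, hx, hx'⟩ : ∃ P, ∃ x, x ∈ F.M P ∧ x ∉ (pw D r).M P := by
    by_contra hcon
    push Not at hcon
    have h1 : F ≤ pw D r := fun P x hx => hcon P x hx
    have h2 := VB.deg_le_of_le h1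
    linarith
  rw [mem_pw] at hx'
  push Not at hx'
  obtain ⟨i1, hi1⟩ := hx'
  have hi1' : x i1 ≠ 0 ∧ P.ord (x i1) < -D P := by
    constructor
    · intro h1; exact hi1 (Or.inl h1)
    · by_contra h1
      push Not at h1
      exact hi1 (Or.inr h1)
  obtain ⟨i0, hi0, hmin⟩ := (Finset.univ.filter fun i => x i ≠ 0).exists_min_image
    (fun i => P.ord (x i)) ⟨i1, by simpa using hi1'.1⟩
  rw [Finset.mem_filter] at hi0
  have hm : P.ord (x i0) < -D P := lt_of_le_of_lt (hmin i1 (by simpa using hi1'.1)) hi1'.2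
  obtain ⟨s, hs, hsm⟩ := exists_ord_eq P (-D P - 1 - P.ord (x i0))
  obtain ⟨t, ht, htm⟩ := exists_ord_eq P (-D P - 1)
  have hy : s • x ∈ F.M P := F.smul_mem P s x (Or.inr (by omega)) hx
  have hy1 : ∀ i, s * x i ∈ P.filt (-D P - 1) := by
    intro i
    by_cases h0 : x i = 0
    · rw [h0, mul_zero]; exact zero_mem _
    · have h1 := hmin i (by simpa using h0)
      refine Or.inr ?_
      rw [P.ord_mul s (x i) hs h0, hsm]
      omega
  have hy2 : ∀ i, ∃ c : k, s * x i - algebraMap k K c * t ∈ P.filt (-D P) := by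
    intro i
    have h1 : (s * x i) / t ∈ P.filt 0 := by
      have h2 := mem_filt_iff_of_ord P ht htm (x := (s * x i) / t) 0
      rw [zero_add] at h2
      apply h2.1
      rw [mul_div_cancel₀ _ ht]
      exact hy1 i
    obtain ⟨c, hc⟩ := filt_residue h1
    refine ⟨c, ?_⟩
    have h3 := mem_filt_iff_of_ord P ht htm (x := (s * x i) / t - algebraMap k K c) 1
    have h4 := h3.2 hc
    have e1 : t * (s * x i / t - algebraMap k K c) = s * x i - algebraMap k K c * t := by
      field_simp
    have e2 : (1 : ℤ) + (-D P - 1) = -D P := by ring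
    rw [e1, e2] at h4
    exact h4
  choose c hc using hy2
  set w : Fin r → K := fun i => algebraMap k K (c i) with hwdef
  have hw0 : w ≠ 0 := by
    intro h0
    have h1 : algebraMap k K (c i0) = 0 := congrFun h0 i0
    have h2 := hc i0
    rw [h1, zero_mul, sub_zero] at h2
    refine ord_not_mem_filt (mul_ne_zero hs hi0.2) (m := -D P - 1) ?_ (by omega) h2
    rw [P.ord_mul s (x i0) hs hi0.2, hsm]
    ring
  have htw : t • w ∈ F.M P := by
    have h1 : s • x - t • w ∈ (pw D r).M P := by
      rw [mem_pw]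
      intro i
      have e : (s • x - t • w) i = s * x i - algebraMap k K (c i) * t := by
        show s * x i - t * algebraMap k K (c i) = _
        ring
      rw [e]
      exact hc i
    have h2 := sub_mem hy (h P h1)
    rwa [sub_sub_cancel] at h2
  refine ⟨Submodule.span K {w}, finrank_span_singleton hw0, ?_⟩
  have h3 : w ∈ (F.twist (-(D + Finsupp.single P 1))).H0 := by
    rw [VB.mem_H0]
    intro Q
    rw [VB.mem_twist]
    intro a ha
    by_cases hQ : Q = P
    · subst hQ
      have h4 : a / t ∈ Q.filt 0 := by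
        have h5 := mem_filt_iff_of_ord Q ht htm (x := a / t) 0
        rw [zero_add] at h5
        apply h5.1
        rw [mul_div_cancel₀ _ ht]
        have e : (-(D + Finsupp.single Q 1) : Dv k K) Q = -D Q - 1 := by
          rw [Finsupp.neg_apply, Finsupp.add_apply, Finsupp.single_eq_same]
          ring
        rw [e] at ha
        exact ha
      have h5 := F.smul_mem Q (a / t) _ h4 htw
      rw [smul_smul, div_mul_cancel₀ _ ht] at h5
      exact h5
    · apply h Q
      rw [mem_pw]
      intro i
      have e : (-(D + Finsupp.single P 1) : Dv k K) Q = -D Q := by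
        rw [Finsupp.neg_apply, Finsupp.add_apply, Finsupp.single_eq_of_ne hQ, add_zero]
      rw [e] at ha
      have h5 := mul_mem_filt Q ha (algebraMap_mem_filt Q (c i))
      rw [add_zero] at h5
      exact h5
  have h4 := ddeg_le_sub hw0 h3
  rw [ddeg_add, ddeg_single] at h4
  exact h4

end Pool.Agent.MP_09eaec.GG
end

section

/-!
# TASK MaxSt: stability from the subspaces of maximal slope

* `stable_of_max`: `exists_max_slope` with `V = ⊥`, `α = 0`: `J0` of maximal slope; its slope is at least that of `⊤` (`deg_sub_top`), so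
  `J0 = ⊤` by `h`. Suppose `J ≠ ⊥, ⊤` has `n deg J ≥ rank J deg E`. Then `J` has maximal slope too, so `h` gives `J = ⊤`.
* `max_quo`: `T ≤ S`, `T' = T.map S.subtype`: `deg T' / rank T' ≤ deg S / rank S` (if `T ≠ ⊥`), `deg_sub_sub`, `VB.deg_add`.
-/

set_option autoImplicit false

namespace Pool.Agent.MP_09eaec.GG.G3

open Module

universe u v

variable {k : Type u} {K : Type v} [Field k] [Field K] [Algebra k K]
variable {W : Type v} [AddCommGroup W] [Module K W] [Module k W] [IsScalarTower k K W]
variable {A : Type v} [AddCommGroup A] [Module K A] [Module k A] [IsScalarTower k K A]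
variable {B : Type v} [AddCommGroup B] [Module K B] [Module k B] [IsScalarTower k K B]

variable [CurveG k K]

theorem stable_of_max [FiniteDimensional K W] [Nontrivial W] {E : VB k K W}
    (h : ∀ S : Submodule K W, S ≠ ⊥ →
      (∀ J : Submodule K W, J ≠ ⊥ → (E.sub J).deg * finrank K S ≤ (E.sub S).deg * finrank K J) →
      E.deg * finrank K S ≤ (E.sub S).deg * finrank K W → S = ⊤) : E.Stable := by
  obtain ⟨J0, hJ0, hmax⟩ := exists_max_slope E (V := ⊥) bot_le 0
  have hpos : ∀ J : Submodule K W, J ≠ ⊥ → (0 : ℤ) < finrank K J := by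
    intro J hJ
    have h1 : finrank K J ≠ 0 := fun h => hJ (Submodule.finrank_eq_zero.mp h)
    omega
  have hm : ∀ J : Submodule K W, J ≠ ⊥ →
      (E.sub J).deg * finrank K J0 ≤ (E.sub J0).deg * finrank K J := by
    intro J hJ
    have h1 := hmax J hJ
    have h2 : (0 : ℝ) < finrank K J := by exact_mod_cast hpos J hJ
    have h3 : (0 : ℝ) < finrank K J0 := by exact_mod_cast hpos J0 hJ0
    rw [zero_mul, add_zero, zero_mul, add_zero, div_le_div_iff₀ h2 h3] at h1
    exact_mod_cast h1
  have hnt : (⊤ : Submodule K W) ≠ ⊥ := top_ne_bot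
  have hT : J0 = ⊤ := by
    refine h J0 hJ0 hm ?_
    have h1 := hm ⊤ hnt
    rwa [VB.deg_sub_top, finrank_top] at h1
  subst hT
  rw [VB.deg_sub_top, finrank_top] at hm
  have hn : (0 : ℤ) < finrank K W := by
    have := hpos ⊤ hnt
    rwa [finrank_top] at this
  intro J hJ hJt
  by_contra hcon
  push Not at hcon
  have h1 := hm J hJ
  have h2 : (E.sub J).deg * finrank K W = E.deg * finrank K J := by
    apply le_antisymm h1
    linarith [mul_comm (finrank K W : ℤ) (E.sub J).deg, mul_comm (finrank K J : ℤ) E.deg]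
  refine hJt (h J hJ (fun J' hJ' => ?_) h2.symm.le)
  have h3 := hm J' hJ'
  have h4 := hpos J hJ
  have h5 : ((E.sub J').deg * finrank K J) * finrank K W ≤ ((E.sub J).deg * finrank K J') * finrank K W := by
    calc ((E.sub J').deg * finrank K J) * finrank K W
        = ((E.sub J').deg * finrank K W) * finrank K J := by ring
      _ ≤ (E.deg * finrank K J') * finrank K J := mul_le_mul_of_nonneg_right h3 h4.le
      _ = (E.deg * finrank K J) * finrank K J' := by ring
      _ = ((E.sub J).deg * finrank K W) * finrank K J' := by rw [h2]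
      _ = ((E.sub J).deg * finrank K J') * finrank K W := by ring
  exact le_of_mul_le_mul_right h5 hn

theorem max_quo [FiniteDimensional K W] {E : VB k K W} {S : Submodule K W}
    (h : ∀ J : Submodule K W, J ≠ ⊥ → (E.sub J).deg * finrank K S ≤ (E.sub S).deg * finrank K J)
    (T : Submodule K S) :
    (E.sub S).deg * finrank K (S ⧸ T) ≤ ((E.sub S).quo T).deg * finrank K S := by
  have h1 := VB.deg_add (E.sub S) T
  have h2 := Submodule.finrank_quotient_add_finrank T
  have h3 : ((E.sub S).sub T).deg * finrank K S ≤ (E.sub S).deg * finrank K T := by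
    by_cases hT : T = ⊥
    · subst hT
      rw [VB.deg_sub_bot, finrank_bot]
      simp
    · have h4 := h (T.map S.subtype) (fun h0 => hT (by
        exact Submodule.map_injective_of_injective S.subtype_injective
          (h0.trans (Submodule.map_bot S.subtype).symm)))
      rw [VB.deg_sub_sub]
      rwa [Submodule.finrank_map_subtype_eq] at h4
  have h5 : (finrank K (S ⧸ T) : ℤ) + finrank K T = finrank K S := by exact_mod_cast h2
  have h6 : (finrank K (S ⧸ T) : ℤ) = finrank K S - finrank K T := by linarith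
  have h7 : ((E.sub S).quo T).deg = (E.sub S).deg - ((E.sub S).sub T).deg := by linarith
  rw [h6, h7]
  nlinarith

end Pool.Agent.MP_09eaec.GG.G3
end

section

/-!
# TASK VanHom: a map which vanishes at a point

* `van_hom`: `f : W ≃ₗ[K] (Fin n → K)`, `f x i = φ i x` (`LinearEquiv.ofBijective`, from `hli` and `hr`);
  `E.map f ≤ pw D n` and `(E.map f).deg < (pw D n).deg` (`deg_map`, `deg_pw`), so there is `P` with
  `(E.map f).M P ≠ (pw D n).M P`. Let `t ≠ 0` with `P.ord t = D P` (`exists_ord_eq`). The `k`-subspace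
  `C = {c : Fin n → k | ∃ z ∈ (E.map f).M P, t • z - c ∈ filt 1 in all coordinates}` of `k^n` is not everything:
  otherwise, by Nakayama, `(E.map f).M P = (pw D n).M P` (every `w` of `(pw D n).M P` is in
  `(E.map f).M P + filt m • (pw D n).M P` for all `m`, by induction, and `filt m • (pw D n).M P ≤ (E.map f).M P` for large
  `m`, `VB.lower` for the standard basis vectors; residue field `k`: `filt_residue` in HE/RankOne).
  So there is `c ≠ 0` with `∑ c i * z i = 0` for `z ∈ C`, and then `∑ c i φ i` maps `E.M P` to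
  `(line (D - single P 1)).M P`.
* `exists_map_van`: if for some place `P` there is a nonzero map `E → line (κ - P)` we are done. Otherwise
  `exists_hom_basis` (GG/HomBasis) gives `h = h1 (E)` maps, linearly independent over `K`, `h ≥ n`, so (restrict to `n` of
  them; `h ≤ n` by `LinearIndependent K`) `van_hom` with `D = κ` applies.
-/

set_option autoImplicit false

namespace Pool.Agent.MP_09eaec.GG.G3

open Module

universe u v

variable {k : Type u} {K : Type v} [Field k] [Field K] [Algebra k K]
variable {W : Type v} [AddCommGroup W] [Module K W] [Module k W] [IsScalarTower k K W]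
variable {A : Type v} [AddCommGroup A] [Module K A] [Module k A] [IsScalarTower k K A]
variable {B : Type v} [AddCommGroup B] [Module K B] [Module k B] [IsScalarTower k K B]

variable [CurveG k K]

omit [CurveG k K] in
private theorem VanHom_naka [Curve k K] {D : Dv k K} {n : ℕ} {F : VB k K (Fin n → K)} {P : Place k K}
    {t : K} (ht : t ≠ 0) (htm : P.ord t = D P)
    (hres : ∀ c : K, c ∈ P.filt 0 → ∃ c0 : k, c - algebraMap k K c0 ∈ P.filt 1)
    (hC : ∀ c : Fin n → k, ∃ z ∈ F.M P, ∀ i, t * z i - algebraMap k K (c i) ∈ P.filt 1)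
    (w : Fin n → K) (hw : w ∈ (pw D n).M P) : w ∈ F.M P := by
  classical
  have h1 : ∀ m : ℕ, ∃ z ∈ F.M P, ∀ i, (w - z) i ∈ P.filt (-D P + m) := by
    intro m
    induction m with
    | zero =>
      refine ⟨0, zero_mem _, fun i => ?_⟩
      rw [sub_zero]
      have := mem_pw.1 hw i
      simpa using this
    | succ m ih =>
      obtain ⟨z, hz, hzi⟩ := ih
      obtain ⟨s, hs, hsm⟩ := exists_ord_eq P (m : ℤ)
      have h2 : ∀ i, ∃ c : k, t * ((w - z) i / s) - algebraMap k K c ∈ P.filt 1 := by
        intro i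
        apply hres
        have h3 := mem_filt_iff_of_ord P hs hsm (x := (w - z) i / s) (-D P)
        rw [mul_div_cancel₀ _ hs] at h3
        have h4 := h3.1 (hzi i)
        have h5 := (mem_filt_iff_of_ord P ht htm (x := (w - z) i / s) (-D P)).2 h4
        simpa using h5
      choose c hc using h2
      obtain ⟨z', hz', hzi'⟩ := hC c
      refine ⟨z + s • z', add_mem hz (F.smul_mem P s z' (Or.inr (by rw [hsm]; positivity)) hz'),
        fun i => ?_⟩
      have h3 : t * ((w - z) i / s - z' i) ∈ P.filt 1 := by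
        have := sub_mem (hc i) (hzi' i)
        have e : t * ((w - z) i / s) - algebraMap k K (c i) - (t * z' i - algebraMap k K (c i)) =
          t * ((w - z) i / s - z' i) := by ring
        rwa [e] at this
      have h4 : (w - z) i / s - z' i ∈ P.filt (1 - D P) := by
        rw [← mem_filt_iff_of_ord P ht htm]
        simpa using h3
      have h5 := (mem_filt_iff_of_ord P hs hsm (x := (w - z) i / s - z' i) (1 - D P)).2 h4
      have e1 : s * ((w - z) i / s - z' i) = (w - (z + s • z')) i := by
        rw [mul_sub, mul_div_cancel₀ _ hs]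
        simp only [Pi.sub_apply, Pi.add_apply, Pi.smul_apply, smul_eq_mul]
        ring
      have e2 : (1 - D P : ℤ) + m = -D P + ((m + 1 : ℕ) : ℤ) := by push_cast; ring
      rw [e1, e2] at h5
      exact h5
  choose e he using fun i : Fin n => F.lower (Pi.single i 1)
  obtain ⟨e0, he0⟩ := exists_ub e
  obtain ⟨m, hm⟩ : ∃ m : ℕ, e0 P ≤ -D P + m := by
    refine ⟨(e0 P + D P).toNat, ?_⟩
    have := Int.self_le_toNat (e0 P + D P)
    omega
  obtain ⟨z, hz, hzi⟩ := h1 m
  have h3 : w - z ∈ F.M P := by
    have e1 : w - z = ∑ i, (w - z) i • (Pi.single i 1 : Fin n → K) := by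
      funext j
      simp [Finset.sum_apply, Pi.single_apply]
    rw [e1]
    refine Submodule.sum_mem _ fun i _ => he i P _ ?_
    exact filt_mono P ((he0 i P).trans hm) (hzi i)
  have h4 := add_mem h3 hz
  rwa [sub_add_cancel] at h4

theorem van_hom {D : Dv k K} [FiniteDimensional K W] {E : VB k K W} {n : ℕ}
    (hr : finrank K W = n) {φ : Fin n → (W →ₗ[K] K)} (hφ : ∀ i P x, x ∈ E.M P → φ i x ∈ (line D).M P)
    (hli : LinearIndependent K φ) (hd : E.deg < n * ddeg D) :
    ∃ (P : Place k K) (c : Fin n → k), c ≠ 0 ∧ ∀ Q x, x ∈ E.M Q →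
      (∑ i, c i • φ i) x ∈ (line (D - Finsupp.single P 1)).M Q := by
  classical
  -- the isomorphism
  let f0 : W →ₗ[K] (Fin n → K) := LinearMap.pi φ
  have hsur : Function.Bijective f0 := by
    have hsurj : Function.Surjective f0 := by
      by_contra hcon
      have hlt : LinearMap.range f0 < ⊤ := by
        rw [lt_top_iff_ne_top]
        intro h
        exact hcon (LinearMap.range_eq_top.1 h)
      obtain ⟨g, hg0, hg⟩ := Submodule.exists_le_ker_of_lt_top _ hlt
      apply hg0
      have h1 : ∑ i, g (Pi.single i 1) • φ i = 0 := by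
        ext x
        have h2 : g (f0 x) = 0 := hg (LinearMap.mem_range_self f0 x)
        have h3 : f0 x = ∑ i, φ i x • (Pi.single i 1 : Fin n → K) := by
          funext j
          simp [f0, Finset.sum_apply, Pi.single_apply]
        rw [h3, map_sum] at h2
        rw [LinearMap.sum_apply, LinearMap.zero_apply, ← h2]
        refine Finset.sum_congr rfl fun i _ => ?_
        rw [LinearMap.smul_apply, map_smul, smul_eq_mul, smul_eq_mul, mul_comm]
      have h2 := Fintype.linearIndependent_iff.1 hli _ h1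
      apply (Pi.basisFun K (Fin n)).ext
      intro i
      simpa using h2 i
    have hfr : finrank K W = finrank K (Fin n → K) := by
      rw [hr]; simp
    exact ⟨(LinearMap.injective_iff_surjective_of_finrank_eq_finrank hfr).2 hsurj, hsurj⟩
  let f : W ≃ₗ[K] (Fin n → K) := LinearEquiv.ofBijective f0 hsur
  have hf : ∀ x i, f x i = φ i x := fun x i => rfl
  have hle : E.map f ≤ pw D n := by
    rintro P y ⟨x, hx, rfl⟩
    rw [mem_pw]
    intro i
    exact hφ i P x hx
  have hne : E.map f ≠ pw D n := by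
    intro h
    have h1 := VB.deg_map E f
    rw [h, deg_pw] at h1
    omega
  obtain ⟨P, w, hw, hw'⟩ : ∃ P, ∃ w, w ∈ (pw D n).M P ∧ w ∉ (E.map f).M P := by
    by_contra hcon
    push Not at hcon
    exact hne (VB.le_antisymm' hle fun P x hx => hcon P x hx)
  obtain ⟨t, ht, htm⟩ := exists_ord_eq P (D P)
  let C : Submodule k (Fin n → k) :=
    { carrier := {c | ∃ z ∈ (E.map f).M P, ∀ i, t * z i - algebraMap k K (c i) ∈ P.filt 1}
      add_mem' := by
        rintro a b ⟨z, hz, hzi⟩ ⟨z', hz', hzi'⟩
        refine ⟨z + z', add_mem hz hz', fun i => ?_⟩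
        have := add_mem (hzi i) (hzi' i)
        have e : t * z i - algebraMap k K (a i) + (t * z' i - algebraMap k K (b i)) =
          t * (z + z') i - algebraMap k K ((a + b) i) := by
          simp only [Pi.add_apply, map_add]
          ring
        rwa [e] at this
      zero_mem' := ⟨0, zero_mem _, fun i => by simp⟩
      smul_mem' := by
        rintro a b ⟨z, hz, hzi⟩
        refine ⟨a • z, ((E.map f).M P).smul_mem a hz, fun i => ?_⟩
        have := (P.filt 1).smul_mem a (hzi i)
        have e : a • (t * z i - algebraMap k K (b i)) =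
          t * (a • z) i - algebraMap k K ((a • b) i) := by
          simp only [Pi.smul_apply, smul_eq_mul, map_mul, Algebra.smul_def]
          ring
        rwa [e] at this }
  have hC : C < ⊤ := by
    rw [lt_top_iff_ne_top]
    intro h
    apply hw'
    refine VanHom_naka ht htm (fun c hc => filt_residue hc) (fun c => ?_) w hw
    have : c ∈ C := by rw [h]; trivial
    exact this
  obtain ⟨g, hg0, hg⟩ := Submodule.exists_le_ker_of_lt_top _ hC
  have hgs : ∀ r : Fin n → k, g r = ∑ i, r i * g (Pi.single i 1) := by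
    intro r
    have h3 : r = ∑ i, r i • (Pi.single i 1 : Fin n → k) := by
      funext j
      simp [Finset.sum_apply, Pi.single_apply]
    conv_lhs => rw [h3, map_sum]
    refine Finset.sum_congr rfl fun i _ => ?_
    rw [map_smul, smul_eq_mul]
  refine ⟨P, fun i => g (Pi.single i 1), ?_, ?_⟩
  · intro h
    apply hg0
    apply LinearMap.ext
    intro r
    rw [hgs, LinearMap.zero_apply]
    refine Finset.sum_eq_zero fun i _ => ?_
    have := congrFun h i
    simp only [Pi.zero_apply] at this
    rw [this, mul_zero]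
  · intro Q x hx
    rw [mem_line]
    have hsum : (∑ i, g (Pi.single i 1) • φ i) x = ∑ i, g (Pi.single i 1) • φ i x := by
      rw [LinearMap.sum_apply]
      rfl
    rw [hsum]
    by_cases hQ : Q = P
    · subst hQ
      have hz : f x ∈ (E.map f).M Q := ⟨x, hx, rfl⟩
      have h1 : ∀ i, ∃ c : k, t * φ i x - algebraMap k K c ∈ Q.filt 1 := by
        intro i
        apply filt_residue
        have h2 := (mem_filt_iff_of_ord Q ht htm (x := φ i x) (-D Q)).2 (hφ i Q x hx)
        simpa using h2
      choose r hr' using h1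
      have hrC : r ∈ C := ⟨f x, hz, fun i => hr' i⟩
      have h2 : g r = 0 := hg hrC
      rw [hgs] at h2
      have h3 : t * ∑ i, g (Pi.single i 1) • φ i x ∈ Q.filt 1 := by
        have e : t * ∑ i, g (Pi.single i 1) • φ i x =
            ∑ i, g (Pi.single i 1) • (t * φ i x - algebraMap k K (r i)) := by
          have e1 : ∑ i, g (Pi.single i 1) • algebraMap k K (r i) = 0 := by
            have e2 : ∑ i, g (Pi.single i 1) • algebraMap k K (r i) =
              algebraMap k K (∑ i, r i * g (Pi.single i 1)) := by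
              rw [map_sum]
              refine Finset.sum_congr rfl fun i _ => ?_
              rw [Algebra.smul_def, map_mul, mul_comm]
            rw [e2, h2, map_zero]
          simp only [smul_sub]
          rw [Finset.sum_sub_distrib, e1, sub_zero, Finset.mul_sum]
          refine Finset.sum_congr rfl fun i _ => ?_
          rw [mul_smul_comm]
        rw [e]
        exact Submodule.sum_mem _ fun i _ => (Q.filt 1).smul_mem _ (hr' i)
      have h4 : ∑ i, g (Pi.single i 1) • φ i x ∈ Q.filt (1 - D Q) := by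
        rw [← mem_filt_iff_of_ord Q ht htm]
        simpa using h3
      have e : -(D - Finsupp.single Q 1 : Dv k K) Q = 1 - D Q := by
        rw [Finsupp.sub_apply, Finsupp.single_eq_same]
        ring
      rw [e]
      exact h4
    · have e : -(D - Finsupp.single P 1 : Dv k K) Q = -D Q := by
        rw [Finsupp.sub_apply, Finsupp.single_eq_of_ne hQ, sub_zero]
      rw [e]
      exact Submodule.sum_mem _ fun i _ => (Q.filt (-D Q)).smul_mem _ (hφ i Q x hx)

theorem exists_map_van {κ : Dv k K} (hκ : IsCanonical κ) [FiniteDimensional K W] {E : VB k K W}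
    (hn : 1 ≤ finrank K W) (h1 : (finrank K W : ℤ) ≤ E.h1)
    (hd : E.deg < finrank K W * (2 * gen k K - 2)) :
    ∃ (P : Place k K) (φ : W →ₗ[K] K), φ ≠ 0 ∧
      ∀ Q x, x ∈ E.M Q → φ x ∈ (line (κ - Finsupp.single P 1)).M Q := by
  classical
  by_contra hcon
  push Not at hcon
  have hinf := infinite_places (k := k) (K := K)
  obtain ⟨P0⟩ : Nonempty (Place k K) := hinf.nonempty
  obtain ⟨h, φ, hh, hφ, -, hk, hK⟩ := exists_hom_basis hκ (P := P0) E (fun φ hφ => by
    by_contra h0
    obtain ⟨Q, x, hx, hx'⟩ := hcon P0 φ h0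
    exact hx' (hφ Q x hx))
  have h2 : h ≤ finrank K W := by
    have h3 : Fintype.card (Fin h) ≤ finrank K (W →ₗ[K] K) := hK.fintype_card_le_finrank
    rw [Fintype.card_fin, Module.finrank_linearMap_self] at h3
    exact h3
  have h3 : finrank K W = h := by
    rw [← hh] at h1
    have : finrank K W ≤ h := by exact_mod_cast h1
    omega
  obtain ⟨P, c, hc, hv⟩ := van_hom (D := κ) (E := E) h3 (φ := φ)
    (fun i P x hx => VB.mem_H0.1 (hφ i) P x hx) hK (by rw [hκ.ddeg, ← h3]; exact hd)
  obtain ⟨Q, x, hx, hx'⟩ := hcon P (∑ i, c i • φ i) (by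
    intro h0
    apply hc
    funext i
    exact Fintype.linearIndependent_iff.1 hk c h0 i)
  exact hx' (hv Q x hx)

end Pool.Agent.MP_09eaec.GG.G3
end

section

/-!
# TASK DownStep: the kernel of a functional at a point

`E'.M P = E.M P` for `P ≠ P0`, `E'.M P0 = {y ∈ E.M P0 | φ y ∈ P0.filt 1}`. `lower`: `e' = e + single P0 1` (`φ (c • w) =
c • φ w`; for `w` take `e` also for which `c • w ∈ E.M P0` gives `φ (c • w)` integral). `upper`: from `E`. `OneStep`: `span`: for
`y ∈ E.M P0`, `φ y` and `φ x` are integral at `P0`, `φ x` is a unit, residue field `k` (`filt_residue` in HE/RankOne).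
-/

set_option autoImplicit false

namespace Pool.Agent.MP_09eaec.GG.G3

open Module

universe u v

variable {k : Type u} {K : Type v} [Field k] [Field K] [Algebra k K]
variable {W : Type v} [AddCommGroup W] [Module K W] [Module k W] [IsScalarTower k K W]
variable {A : Type v} [AddCommGroup A] [Module K A] [Module k A] [IsScalarTower k K A]
variable {B : Type v} [AddCommGroup B] [Module K B] [Module k B] [IsScalarTower k K B]

variable [CurveG k K]

private lemma DownStep_res {P : Place k K} {c : K} (hc : c ∈ P.filt 0) :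
    ∃ c0 : k, c - algebraMap k K c0 ∈ P.filt 1 := by
  have := Curve.closed (k := k) (K := K)
  have := Curve.char (k := k) (K := K)
  obtain ⟨c0, h⟩ := exists_residue (Curve.curve (k := k) (K := K)) P (f := c) hc
  refine ⟨c0, ?_⟩
  rcases h with h | h
  · exact Or.inl h
  · exact Or.inr (by omega)

theorem exists_down_step (E : VB k K W) (P0 : Place k K) (φ : W →ₗ[K] K)
    (h1 : ∀ y ∈ E.M P0, φ y ∈ P0.filt 0) {x : W} (hx : x ∈ E.M P0) (hx' : φ x ∉ P0.filt 1) :
    ∃ E' : VB k K W, VB.OneStep E' E P0 x ∧ ∀ y, y ∈ E'.M P0 ↔ y ∈ E.M P0 ∧ φ y ∈ P0.filt 1 := by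
  classical
  let S : Submodule k W :=
    { carrier := {y | y ∈ E.M P0 ∧ φ y ∈ P0.filt 1}
      add_mem' := by
        rintro a b ⟨ha, ha'⟩ ⟨hb, hb'⟩
        refine ⟨add_mem ha hb, ?_⟩
        rw [map_add]
        exact add_mem ha' hb'
      zero_mem' := ⟨zero_mem _, by rw [map_zero]; exact zero_mem _⟩
      smul_mem' := by
        rintro c a ⟨ha, ha'⟩
        refine ⟨(E.M P0).smul_mem c ha, ?_⟩
        rw [LinearMap.map_smul_of_tower]
        exact (P0.filt 1).smul_mem c ha' }
  have hS : ∀ y, y ∈ S ↔ y ∈ E.M P0 ∧ φ y ∈ P0.filt 1 := fun y => Iff.rfl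
  have hM0 : ∀ y, (y ∈ if P0 = P0 then S else E.M P0) ↔ y ∈ E.M P0 ∧ φ y ∈ P0.filt 1 := by
    intro y
    rw [if_pos rfl]
    exact hS y
  refine ⟨{ M := fun P => if P = P0 then S else E.M P
            smul_mem := ?_
            lower := ?_
            upper := ?_ }, ⟨?_, ?_, hx, ?_, ?_⟩, hM0⟩
  · intro P c y hc hy
    by_cases hP : P = P0
    · subst hP
      rw [hM0] at hy ⊢
      refine ⟨E.smul_mem P c y hc hy.1, ?_⟩
      rw [map_smul, smul_eq_mul]
      have h2 := mul_mem_filt P hc hy.2
      rwa [zero_add] at h2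
    · rw [if_neg hP] at hy ⊢
      exact E.smul_mem P c y hc hy
  · intro w
    obtain ⟨e, he⟩ := E.lower w
    refine ⟨e + Finsupp.single P0 1, fun P c hc => ?_⟩
    by_cases hP : P = P0
    · subst hP
      rw [Finsupp.add_apply, Finsupp.single_eq_same] at hc
      obtain ⟨t, ht, htm⟩ := exists_ord_eq P 1
      have h2 : t⁻¹ * c ∈ P.filt (e P) := by
        rw [← mem_filt_iff_of_ord P ht htm, mul_inv_cancel_left₀ ht]
        exact hc
      have h3 := he P _ h2
      have h4 : c • w = t • ((t⁻¹ * c) • w) := by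
        rw [smul_smul, mul_inv_cancel_left₀ ht]
      have ht1 : t ∈ P.filt 1 := Or.inr htm.ge
      rw [hM0, h4]
      refine ⟨E.smul_mem P t _ (filt_mono P (by omega) ht1) h3, ?_⟩
      rw [map_smul, smul_eq_mul]
      have h5 := mul_mem_filt P ht1 (h1 _ h3)
      rwa [add_zero] at h5
    · rw [if_neg hP]
      have h2 : (e + Finsupp.single P0 1 : Dv k K) P = e P := by
        rw [Finsupp.add_apply, Finsupp.single_apply, if_neg (Ne.symm hP), add_zero]
      rw [h2] at hc
      exact he P c hc
  · intro ψ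
    obtain ⟨e, he⟩ := E.upper ψ
    refine ⟨e, fun P y hy => ?_⟩
    by_cases hP : P = P0
    · subst hP
      rw [hM0] at hy
      exact he P y hy.1
    · rw [if_neg hP] at hy
      exact he P y hy
  · intro P y hy
    by_cases hP : P = P0
    · subst hP
      exact ((hM0 y).1 hy).1
    · have hy' : y ∈ if P = P0 then S else E.M P := hy
      rw [if_neg hP] at hy'
      exact hy'
  · intro P hP
    show (if P = P0 then S else E.M P) = E.M P
    rw [if_neg hP]
  · intro h
    exact hx' ((hM0 x).1 h).2
  · intro y hy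
    have hφ0 : φ x ≠ 0 := by
      intro h
      apply hx'
      rw [h]
      exact zero_mem _
    have hord : P0.ord (φ x) = 0 := by
      have h2 : 0 ≤ P0.ord (φ x) := by
        rcases h1 x hx with h | h
        · exact absurd h hφ0
        · exact h
      have h3 : ¬ 1 ≤ P0.ord (φ x) := fun h => hx' (Or.inr h)
      omega
    have hq : φ y * (φ x)⁻¹ ∈ P0.filt 0 := by
      have h2 : (φ x)⁻¹ ∈ P0.filt 0 := Or.inr (by rw [P0.ord_inv, hord, neg_zero])
      have h3 := mul_mem_filt P0 (h1 y hy) h2
      rwa [add_zero] at h3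
    obtain ⟨c, hc⟩ := DownStep_res hq
    refine ⟨c, (hM0 _).2 ⟨sub_mem hy ((E.M P0).smul_mem c hx), ?_⟩⟩
    have h2 : φ (y - c • x) = φ x * (φ y * (φ x)⁻¹ - algebraMap k K c) := by
      rw [map_sub, LinearMap.map_smul_of_tower, Algebra.smul_def, mul_sub]
      field_simp
    rw [h2]
    have h3 := mul_mem_filt P0 (h1 x hx) hc
    rwa [zero_add] at h3

end Pool.Agent.MP_09eaec.GG.G3
end
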