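import Pool.Agent.Lib.MP_09eaec_ag.Mg.G009
import Pool.Agent.Lib.MP_09eaec_ag.Mg.G003
import Pool.Agent.Lib.MP_09eaec_ag.Mg.G008
import Pool.Agent.Lib.MP_09eaec_ag.Mg.G002
import Pool.Agent.Lib.MP_09eaec_ag.Mg.G015
import Pool.Agent.Lib.MP_09eaec_ag.Mg.G012
import Pool.Agent.Lib.MP_09eaec_ag.Mg.G016
import Pool.Agent.Lib.MP_09eaec_ag.Mg.G004

section

/-!
# Extensions of trivial bundles by bundles of negative degree

`0 → G → E' → O^m → 0` with independent classes: `E'` has no sections, and is stable if `G` is stable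
and has rank one or `m = h¹(G)`.
-/

set_option autoImplicit false

namespace Pool.Agent.MP_09eaec.GG

open Module

universe u v

variable {k : Type u} {K : Type v} [Field k] [Field K] [Algebra k K]
variable {W : Type v} [AddCommGroup W] [Module K W] [Module k W] [IsScalarTower k K W]
variable {A : Type v} [AddCommGroup A] [Module K A] [Module k A] [IsScalarTower k K A]
variable {B : Type v} [AddCommGroup B] [Module K B] [Module k B] [IsScalarTower k K B]

variable [CurveG k K]

/-- `H¹` is right exact. -/
theorem h1_le_of_map [FiniteDimensional K W] [FiniteDimensional K B] (E : VB k K W)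
    (F : VB k K B) (p : W →ₗ[K] B) (hp : Function.Surjective p)
    (h : ∀ P x, x ∈ E.M P → p x ∈ F.M P) : F.h1 ≤ E.h1 := by
  let f : (Place k K →₀ W) →ₗ[k] (Place k K →₀ B) :=
    Finsupp.mapRange.linearMap (p.restrictScalars k)
  have hf : Function.Surjective f := by
    intro b
    obtain ⟨a, ha⟩ := Finsupp.mapRange_surjective (p : W → B) (map_zero p) hp b
    exact ⟨a, ha⟩
  have hN : E.N ≤ F.N.comap f := by
    intro a ha
    obtain ⟨w, hw⟩ := VB.mem_N.1 ha
    rw [Submodule.mem_comap, VB.mem_N]
    refine ⟨p w, fun P => ?_⟩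
    have h1 : f a P - p w = p (a P - w) := by
      rw [map_sub]
      rfl
    rw [h1]
    exact h P _ (hw P)
  have hs : Function.Surjective (Submodule.mapQ E.N F.N f hN) := by
    intro y
    obtain ⟨b, rfl⟩ := Submodule.Quotient.mk_surjective _ y
    obtain ⟨a, rfl⟩ := hf b
    exact ⟨Submodule.Quotient.mk a, by simp [Submodule.mapQ_apply]⟩
  have h2 : finrank k F.H1 ≤ finrank k E.H1 := by
    have := LinearMap.finrank_range_le (Submodule.mapQ E.N F.N f hN)
    rw [LinearMap.range_eq_top.2 hs, finrank_top] at this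
    exact this
  unfold VB.h1
  exact_mod_cast h2

theorem h1_le_of_le [FiniteDimensional K W] {E F : VB k K W} (h : E ≤ F) : F.h1 ≤ E.h1 :=
  h1_le_of_map E F LinearMap.id Function.surjective_id fun P _ hx => h P hx

theorem h0_sub_deg_le [FiniteDimensional K W] {E F : VB k K W} (h : E ≤ F) :
    F.h0 - F.deg ≤ E.h0 - E.deg := by
  have h1 := h1_le_of_le h
  have h2 := VB.rr E
  have h3 := VB.rr F
  linarith

/-- `h⁰(X) ≥ χ(E) + h⁰(F)` for an extension `X` of `F` by `E`. -/
theorem le_h0_ext [FiniteDimensional K A] [FiniteDimensional K B] (E : VB k K A) (F : VB k K B)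
    (u : Place k K →₀ (B →ₗ[K] A)) : E.chi + F.h0 ≤ (ext E F u).h0 := by
  have h1 : F.h1 ≤ (ext E F u).h1 := by
    refine h1_le_of_map (ext E F u) F (LinearMap.snd K A B) LinearMap.snd_surjective ?_
    intro P x hx
    exact (mem_ext.1 hx).1
  have h2 := deg_ext E F u
  have h3 := VB.rr (ext E F u)
  have h4 := VB.rr F
  have h5 : E.chi = E.deg - (gen k K - 1) * finrank K A := by
    have := VB.rr E
    unfold VB.chi
    linarith
  have h6 : finrank K (A × B) = finrank K A + finrank K B := Module.finrank_prod
  rw [h6] at h3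
  push_cast at h3
  rw [h5]
  linarith

/-- A subspace of `K^m` of dimension `w` is isomorphic to `K^w` by some of the coordinates. -/
theorem exists_coords {m : ℕ} (L : Submodule K (Fin m → K)) {w : ℕ} (hw : finrank K L = w) :
    ∃ (a : Fin w → Fin m) (f : L ≃ₗ[K] (Fin w → K)), Function.Injective a ∧
      ∀ x i, f x i = (x : Fin m → K) (a i) := by
  classical
  let v : Fin m → Module.Dual K L := fun i => (LinearMap.proj i : (Fin m → K) →ₗ[K] K) ∘ₗ L.subtype
  obtain ⟨κ, a, ha, hspan, hli⟩ := exists_linearIndependent' K v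
  have : Finite κ := Finite.of_injective a ha
  have : Fintype κ := Fintype.ofFinite κ
  have hinj : ∀ x : L, (∀ i, (x : Fin m → K) (a i) = 0) → x = 0 := by
    intro x hx
    have h1 : ∀ φ ∈ Submodule.span K (Set.range v), φ x = 0 := by
      intro φ hφ
      rw [← hspan] at hφ
      induction hφ using Submodule.span_induction with
      | mem φ h =>
        obtain ⟨i, rfl⟩ := h
        exact hx i
      | zero => rfl
      | add φ ψ _ _ h1 h2 => rw [LinearMap.add_apply, h1, h2, add_zero]
      | smul c φ _ h1 => rw [LinearMap.smul_apply, h1, smul_zero]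
    apply Subtype.ext
    funext i
    exact h1 (v i) (Submodule.subset_span ⟨i, rfl⟩)
  let f0 : L →ₗ[K] (κ → K) := LinearMap.pi fun i => (LinearMap.proj (a i) : (Fin m → K) →ₗ[K] K) ∘ₗ L.subtype
  have hf0 : Function.Injective f0 := by
    rw [injective_iff_map_eq_zero]
    intro x hx
    exact hinj x fun i => congrFun hx i
  have h2 : finrank K L ≤ Fintype.card κ := by
    have := LinearMap.finrank_le_finrank_of_injective hf0
    rwa [finrank_fintype_fun_eq_card] at this
  have h3 : Fintype.card κ ≤ finrank K L := by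
    have := hli.fintype_card_le_finrank
    rwa [Subspace.dual_finrank_eq] at this
  have h4 : Fintype.card κ = w := by omega
  let e : Fin w ≃ κ := (finCongr h4.symm).trans (Fintype.equivFin κ).symm
  let f1 : L →ₗ[K] (Fin w → K) := LinearMap.pi fun i => (LinearMap.proj (a (e i)) : (Fin m → K) →ₗ[K] K) ∘ₗ L.subtype
  have hf1 : Function.Injective f1 := by
    rw [injective_iff_map_eq_zero]
    intro x hx
    refine hinj x fun i => ?_
    have := congrFun hx (e.symm i)
    simpa [f1] using this
  refine ⟨a ∘ e, LinearMap.linearEquivOfInjective f1 hf1 (by rw [hw, finrank_fin_fun]),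
    ha.comp e.injective, fun x i => ?_⟩
  rw [LinearMap.linearEquivOfInjective_apply]
  rfl

theorem le_h0_pw {D : Dv k K} (n : ℕ) : (n : ℤ) * (line D).h0 ≤ (pw D n).h0 := by
  let f : (Fin n → (line D).H0) →ₗ[k] (pw D n).H0 :=
    { toFun := fun s => ⟨fun i => (s i : K), VB.mem_H0.2 fun P => mem_pw.2 fun i =>
        mem_line.1 (VB.mem_H0.1 (s i).2 P)⟩
      map_add' := fun _ _ => rfl
      map_smul' := fun _ _ => rfl }
  have hf : Function.Injective f := by
    intro s t h
    funext i
    apply Subtype.ext
    exact congrFun (congrArg Subtype.val h) i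
  have h1 := LinearMap.finrank_le_finrank_of_injective hf
  rw [Module.finrank_pi_fintype] at h1
  simp only [Finset.sum_const, Finset.card_univ, Fintype.card_fin, smul_eq_mul] at h1
  unfold VB.h0
  exact_mod_cast h1

/-- Subsheaves of a trivial bundle. -/
theorem finrank_le_of_le_pw {m : ℕ} (L : Submodule K (Fin m → K)) (F : VB k K L)
    (h : F ≤ (pw 0 m).sub L) : (finrank K L : ℤ) ≤ F.h0 - F.deg := by
  obtain ⟨w, hw⟩ : ∃ w, finrank K L = w := ⟨_, rfl⟩
  obtain ⟨a, f, -, hf⟩ := exists_coords L hw
  have h1 : (pw (0 : Dv k K) w).h1 ≤ F.h1 := by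
    refine h1_le_of_map F (pw 0 w) f.toLinearMap f.surjective ?_
    intro P x hx
    rw [mem_pw]
    intro i
    have h2 := VB.mem_sub.1 (h P hx)
    have h3 : f.toLinearMap x i = (x : Fin m → K) (a i) := hf x i
    rw [h3]
    exact mem_pw.1 h2 (a i)
  have h2 := VB.rr (pw (0 : Dv k K) w)
  have h3 := le_h0_pw (k := k) (K := K) (D := 0) w
  rw [deg_pw, ddeg_zero, finrank_fin_fun] at h2
  have h4 : (line (0 : Dv k K)).h0 = 1 := h0_line_zero
  rw [h4] at h3
  have h5 := VB.rr F
  rw [hw] at h5 ⊢
  nlinarith

theorem deg_le_zero_of_le_pw {m : ℕ} (L : Submodule K (Fin m → K)) (F : VB k K L)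
    (h : F ≤ (pw 0 m).sub L) : F.deg ≤ 0 := by
  obtain ⟨w, hw⟩ : ∃ w, finrank K L = w := ⟨_, rfl⟩
  obtain ⟨a, f, -, hf⟩ := exists_coords L hw
  have h1 : F.map f ≤ pw 0 w := by
    intro P y hy
    rw [VB.mem_map] at hy
    rw [mem_pw]
    intro i
    have h2 := VB.mem_sub.1 (h P hy)
    have h3 : y i = (f.symm y : Fin m → K) (a i) := by
      rw [← hf, f.apply_symm_apply]
    rw [h3]
    exact mem_pw.1 h2 (a i)
  have h2 := VB.deg_le_of_le h1
  rw [VB.deg_map, deg_pw, ddeg_zero, mul_zero] at h2
  exact h2

private def ExtLow_P (J : Submodule K (A × B)) : J →ₗ[K] J.map (LinearMap.snd K A B) :=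
  (LinearMap.snd K A B).submoduleMap J

private def ExtLow_I (J : Submodule K (A × B)) : J.comap (LinearMap.inl K A B) →ₗ[K] J :=
  (LinearMap.inl K A B ∘ₗ (J.comap (LinearMap.inl K A B)).subtype).codRestrict J (fun a => a.2)

omit [CurveG k K] in
private lemma ExtLow_P_apply (J : Submodule K (A × B)) (x : J) :
    ((ExtLow_P J x : J.map (LinearMap.snd K A B)) : B) = (x : A × B).2 := rfl

omit [CurveG k K] in
private lemma ExtLow_I_apply (J : Submodule K (A × B)) (a : J.comap (LinearMap.inl K A B)) :
    ((ExtLow_I J a : J) : A × B) = ((a : A), (0 : B)) := rfl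

omit [CurveG k K] in
private lemma ExtLow_P_surj (J : Submodule K (A × B)) : Function.Surjective (ExtLow_P J) := by
  rintro ⟨b, ⟨x, hx, rfl⟩⟩
  exact ⟨⟨x, hx⟩, rfl⟩

omit [CurveG k K] in
private lemma ExtLow_I_inj (J : Submodule K (A × B)) : Function.Injective (ExtLow_I J) := by
  intro a b h
  apply Subtype.ext
  have := congrArg (fun x : J => (x : A × B).1) h
  exact this

omit [CurveG k K] in
private lemma ExtLow_range (J : Submodule K (A × B)) :
    LinearMap.range (ExtLow_I J) = LinearMap.ker (ExtLow_P J) := by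
  ext x
  rw [LinearMap.mem_range, LinearMap.mem_ker]
  constructor
  · rintro ⟨a, rfl⟩
    rfl
  · intro h
    have h2 : (x : A × B).2 = 0 := congrArg Subtype.val h
    refine ⟨⟨(x : A × B).1, ?_⟩, ?_⟩
    · rw [Submodule.mem_comap]
      have h3 : LinearMap.inl K A B (x : A × B).1 = (x : A × B) := by
        rw [LinearMap.inl_apply, ← h2]
      rw [h3]
      exact x.2
    · apply Subtype.ext
      rw [ExtLow_I_apply]
      exact Prod.ext rfl h2.symm

/-- The image of a subbundle of an extension. -/
theorem ext_sub_image [FiniteDimensional K A] [FiniteDimensional K B] (E : VB k K A)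
    (F : VB k K B) (u : Place k K →₀ (B →ₗ[K] A)) (J : Submodule K (A × B)) :
    ∃ F' : VB k K (J.map (LinearMap.snd K A B)),
      F' ≤ F.sub (J.map (LinearMap.snd K A B)) ∧
      ((ext E F u).sub J).deg = (E.sub (J.comap (LinearMap.inl K A B))).deg + F'.deg ∧
      F'.h1 ≤ ((ext E F u).sub J).h1 := by
  obtain ⟨F', hF'⟩ := VB.exists_image ((ext E F u).sub J) (ExtLow_P J) (ExtLow_P_surj J)
  refine ⟨F', ?_, ?_, ?_⟩
  · intro P y hy
    obtain ⟨x, hx, rfl⟩ := (hF' P y).1 hy
    exact (mem_ext.1 (VB.mem_sub.1 hx)).1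
  · refine VB.deg_exact _ _ F' (ExtLow_I J) (ExtLow_P J) (ExtLow_I_inj J) (ExtLow_P_surj J)
      (ExtLow_range J) ?_ hF'
    intro P x
    rw [VB.mem_sub, VB.mem_sub, mem_ext, ExtLow_I_apply]
    constructor
    · rintro ⟨_, h⟩
      simpa using h
    · intro h
      exact ⟨by simp, by simpa using h⟩
  · exact h1_le_of_map _ F' (ExtLow_P J) (ExtLow_P_surj J) fun P x hx => (hF' P _).2 ⟨x, hx, rfl⟩

/-- The subbundles of an extension of `O^m` by `G` without sections. -/
theorem ext_pw_sub [FiniteDimensional K A] {G : VB k K A} {m : ℕ}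
    {u : Place k K →₀ ((Fin m → K) →ₗ[K] A)} (h0 : (ext G (pw 0 m) u).H0 = ⊥)
    (J : Submodule K (A × (Fin m → K))) :
    ∃ c : ℤ, 0 ≤ c ∧
      ((ext G (pw 0 m) u).sub J).deg =
        (G.sub (J.comap (LinearMap.inl K A (Fin m → K)))).deg - c ∧
      (finrank K (J.map (LinearMap.snd K A (Fin m → K))) : ℤ) ≤
        c - (G.sub (J.comap (LinearMap.inl K A (Fin m → K)))).deg +
          (gen k K - 1) * finrank K (J.comap (LinearMap.inl K A (Fin m → K))) := by
  obtain ⟨F', h1, h2, h3⟩ := ext_sub_image G (pw 0 m) u J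
  refine ⟨- F'.deg, ?_, ?_, ?_⟩
  · have := deg_le_zero_of_le_pw _ F' h1
    omega
  · rw [h2]; ring
  · have h4 := finrank_le_of_le_pw _ F' h1
    have h5 := VB.rr F'
    have h6 := VB.rr ((ext G (pw 0 m) u).sub J)
    have h7 : ((ext G (pw 0 m) u).sub J).h0 = 0 := by
      unfold VB.h0
      rw [VB.H0_sub_bot h0 J, finrank_bot]
      rfl
    have h8 : (finrank K J : ℤ) = finrank K (J.comap (LinearMap.inl K A (Fin m → K))) +
        finrank K (J.map (LinearMap.snd K A (Fin m → K))) := by
      exact_mod_cast finrank_ext_sub J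
    rw [h7, h8, h2] at h6
    nlinarith

/-- The extension of `O^m` by a stable bundle `G` of negative degree is stable if it has no sections
and `G` has rank one or `m = h¹(G)`. -/
theorem ext_pw_stable [FiniteDimensional K A] {G : VB k K A} {m : ℕ}
    {u : Place k K →₀ ((Fin m → K) →ₗ[K] A)} (hG : G.Stable) (hd : G.deg < 0)
    (hr : 1 ≤ finrank K A) (h0 : (ext G (pw 0 m) u).H0 = ⊥)
    (hc : (finrank K A = 1 ∧ - G.deg < 1 + m) ∨
      (m : ℤ) = - G.deg + (gen k K - 1) * finrank K A) :
    (ext G (pw 0 m) u).Stable := by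
  intro J hJ hJ'
  have hdeg : (ext G (pw 0 m) u).deg = G.deg := by
    rw [deg_ext, deg_pw, ddeg_zero, mul_zero, add_zero]
  have hrk : (finrank K (A × (Fin m → K)) : ℤ) = finrank K A + m := by
    rw [Module.finrank_prod, finrank_fin_fun]
    push_cast
    rfl
  have hg : (2 : ℤ) ≤ gen k K := CurveG.two_le
  obtain ⟨c, c0, c1, c2⟩ := ext_pw_sub h0 J
  have c3 : (finrank K J : ℤ) = finrank K (J.comap (LinearMap.inl K A (Fin m → K))) +
      finrank K (J.map (LinearMap.snd K A (Fin m → K))) := by
    exact_mod_cast finrank_ext_sub J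
  have hr' : (1 : ℤ) ≤ finrank K A := by exact_mod_cast hr
  have hm : (0 : ℤ) ≤ m := by positivity
  rw [hdeg, hrk, c1, c3]
  by_cases hA : J.comap (LinearMap.inl K A (Fin m → K)) = ⊥
  · have hB : 0 < finrank K (J.map (LinearMap.snd K A (Fin m → K))) := by
      rw [Nat.pos_iff_ne_zero]
      intro h
      exact hJ (eq_bot_of hA (Submodule.finrank_eq_zero.1 h))
    rw [hA, VB.deg_sub_bot, finrank_bot] at c2 ⊢
    have hB' : (1 : ℤ) ≤ finrank K (J.map (LinearMap.snd K A (Fin m → K))) := by exact_mod_cast hB
    generalize (finrank K (J.map (LinearMap.snd K A (Fin m → K))) : ℤ) = b at *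
    have hlt : - G.deg < finrank K A + m := by
      rcases hc with ⟨e1, e2⟩ | e
      · rw [e1]; push_cast; exact e2
      · rw [e]; nlinarith
    push_cast at c2 ⊢
    have hbc : b ≤ c := by linarith
    nlinarith
  · by_cases hA' : J.comap (LinearMap.inl K A (Fin m → K)) = ⊤
    · have hB : finrank K (J.map (LinearMap.snd K A (Fin m → K))) < m := by
        have h1 := Submodule.finrank_le (J.map (LinearMap.snd K A (Fin m → K)))
        rw [finrank_fin_fun] at h1
        refine lt_of_le_of_ne h1 fun h => hJ' (eq_top_of hA' ?_)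
        apply Submodule.eq_top_of_finrank_eq
        rw [h, finrank_fin_fun]
      rw [hA', VB.deg_sub_top, finrank_top]
      have hB' : (finrank K (J.map (LinearMap.snd K A (Fin m → K))) : ℤ) + 1 ≤ m := by
        exact_mod_cast hB
      generalize (finrank K (J.map (LinearMap.snd K A (Fin m → K))) : ℤ) = b at *
      nlinarith
    · have h1 := hG _ hA hA'
      have h2 : 0 < finrank K (J.comap (LinearMap.inl K A (Fin m → K))) := by
        rw [Nat.pos_iff_ne_zero]
        intro h
        exact hA (Submodule.finrank_eq_zero.1 h)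
      have h3 : finrank K (J.comap (LinearMap.inl K A (Fin m → K))) < finrank K A :=
        Submodule.finrank_lt hA'
      rcases hc with ⟨e1, e2⟩ | e
      · omega
      · rw [e]
        generalize (finrank K (J.map (LinearMap.snd K A (Fin m → K))) : ℤ) = b at *
        generalize (G.sub (J.comap (LinearMap.inl K A (Fin m → K)))).deg = dA at *
        have h4 : (0 : ℤ) < finrank K (J.comap (LinearMap.inl K A (Fin m → K))) := by
          exact_mod_cast h2
        generalize (finrank K (J.comap (LinearMap.inl K A (Fin m → K))) : ℤ) = a at *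
        generalize (finrank K A : ℤ) = r at *
        generalize gen k K = g at *
        generalize G.deg = d at *
        have h5 : a + b ≤ (c - dA) + g * a := by linarith
        have h6 : (-d) * (a + b) ≤ (-d) * ((c - dA) + g * a) :=
          mul_le_mul_of_nonneg_left h5 (by linarith)
        have h7 : 0 < g * (r * c + (a * d - r * dA)) := by
          apply mul_pos (by linarith)
          have : 0 ≤ r * c := mul_nonneg (by linarith) c0
          linarith
        nlinarith

/-- The extension with independent classes. -/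
theorem exists_ext_pw [FiniteDimensional K A] {G : VB k K A} (hG0 : G.H0 = ⊥) {m : ℕ}
    (hm : (m : ℤ) ≤ G.h1) :
    ∃ u : Place k K →₀ ((Fin m → K) →ₗ[K] A), (ext G (pw 0 m) u).H0 = ⊥ := by
  obtain ⟨u, hu⟩ := exists_indep_ext G hm
  refine ⟨u, ?_⟩
  have h1 : ((ext G (pw 0 m) u).twist (-(0 : Dv k K))).H0 = ⊥ := by
    apply H0_twist_ext_bot
    · rw [neg_zero, VB.twist_zero]
      exact hG0
    · intro c hc
      rw [neg_zero, VB.twist_zero] at hc
      exact hu c hc
  rwa [neg_zero, VB.twist_zero] at h1

/-- The twist of an extension of `O^m` by `G`. -/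
theorem twist_ext_pw {G : VB k K A} {m : ℕ} (u : Place k K →₀ ((Fin m → K) →ₗ[K] A))
    (D : Dv k K) : (ext G (pw 0 m) u).twist D = ext (G.twist D) (pw D m) u := by
  apply VB.ext'
  intro P x
  obtain ⟨t, ht, htm⟩ := exists_ord_eq P (D P)
  rw [VB.mem_twist_iff ht htm, mem_ext, mem_ext, VB.mem_twist_iff ht htm, mem_pw, mem_pw]
  have h1 : (t • x).1 - u P (t • x).2 = t • (x.1 - u P x.2) := by
    rw [smul_sub, ← map_smul]
    rfl
  rw [h1]
  have h2 : (∀ i, (t • x).2 i ∈ P.filt (-(0 : Dv k K) P)) ↔ ∀ i, x.2 i ∈ P.filt (-D P) := by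
    refine forall_congr' fun i => ?_
    have h3 : (t • x).2 i = t * x.2 i := rfl
    rw [h3]
    have := mem_filt_iff_of_ord P ht htm (x := x.2 i) (-D P)
    rw [neg_add_cancel] at this
    simpa using this
  rw [h2]

/-- The sections of the twists. -/
theorem le_h0_twist_ext_pw [FiniteDimensional K A] {G : VB k K A} {m : ℕ}
    (u : Place k K →₀ ((Fin m → K) →ₗ[K] A)) (D : Dv k K) :
    G.deg + finrank K A * ddeg D - (gen k K - 1) * finrank K A + m * (line D).h0 ≤
      ((ext G (pw 0 m) u).twist D).h0 := by
  rw [twist_ext_pw]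
  have h1 := le_h0_ext (G.twist D) (pw D m) u
  have h2 := le_h0_pw (k := k) (K := K) (D := D) m
  have h3 := VB.rr (G.twist D)
  rw [VB.deg_twist] at h3
  unfold VB.chi at h1
  linarith

end Pool.Agent.MP_09eaec.GG
end

section

/-!
# Elementary modifications of `O(D)^n` in constant directions at different points
-/

set_option autoImplicit false

namespace Pool.Agent.MP_09eaec.GG

open Module

universe u v

variable {k : Type u} {K : Type v} [Field k] [Field K] [Algebra k K]

variable [CurveG k K]

/-- Modification of `O(D)^n` at `N` different points in the directions `c 0, …, c (N - 1)`. -/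
theorem exists_mod (D : Dv k K) {n : ℕ} (c : ℕ → Fin n → k) (N : ℕ) (hc : ∀ l < N, c l ≠ 0) :
    ∃ (E : VB k K (Fin n → K)) (B : Finset (Place k K)), pw D n ≤ E ∧
      (∀ P, P ∉ B → E.M P = (pw D n).M P) ∧ E.deg = n * ddeg D + N ∧
      ∀ J : Submodule K (Fin n → K), ∃ S ⊆ Finset.range N,
        (E.sub J).deg ≤ ((pw D n).sub J).deg + S.card ∧
        ∀ l ∈ S, ∃ (P : Place k K) (t : K), t ≠ 0 ∧ P.ord t = -D P - 1 ∧
          ∃ z ∈ J, t • (fun i => algebraMap k K (c l i)) - z ∈ (pw D n).M P := by
  classical
  induction N with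
  | zero =>
    refine ⟨pw D n, ∅, VB.le_refl' _, fun _ _ => rfl, by rw [deg_pw]; simp, fun J =>
      ⟨∅, by simp, by simp, by simp⟩⟩
  | succ N ih =>
    obtain ⟨E, B, h1, h2, h3, h4⟩ := ih fun l hl => hc l (by omega)
    have : Infinite (Place k K) := infinite_places
    obtain ⟨P, hP⟩ := Infinite.exists_notMem_finset B
    obtain ⟨t, ht, htm⟩ := exists_ord_eq P (-D P - 1)
    set w : Fin n → K := t • (fun i => algebraMap k K (c N i)) with hwdef
    have hw1 : ∀ a ∈ P.filt 1, a • w ∈ E.M P := by
      intro a ha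
      rw [h2 P hP, mem_pw]
      intro i
      have e : (a • w) i = (a * t) * algebraMap k K (c N i) := by
        show a * (t * algebraMap k K (c N i)) = _
        ring
      rw [e]
      have a1 := mul_mem_filt P (mul_mem_filt P ha (Or.inr htm.ge : t ∈ P.filt (-D P - 1)))
        (algebraMap_mem_filt P (c N i))
      refine filt_mono P (by omega) a1
    have hw2 : w ∉ E.M P := by
      rw [h2 P hP, mem_pw]
      intro hcon
      obtain ⟨i, hi⟩ : ∃ i, c N i ≠ 0 := by
        by_contra hh
        push Not at hh
        exact hc N (by omega) (funext hh)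
      have hi' : algebraMap k K (c N i) ≠ 0 := by
        rw [Ne, map_eq_zero]
        exact hi
      refine ord_not_mem_filt (mul_ne_zero ht hi') (m := -D P - 1) ?_ (by omega) (hcon i)
      rw [P.ord_mul t _ ht hi', htm, P.ord_algebraMap, add_zero]
    obtain ⟨E', hE'⟩ := VB.exists_oneStep E P w hw1 hw2
    refine ⟨E', insert P B, VB.le_trans' h1 hE'.le, ?_, ?_, ?_⟩
    · intro Q hQ
      rw [Finset.mem_insert] at hQ
      push Not at hQ
      rw [← hE'.eq Q hQ.1, h2 Q hQ.2]
    · rw [VB.deg_oneStep hE', h3]
      push_cast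
      ring
    · intro J
      obtain ⟨S, hS, hS1, hS2⟩ := h4 J
      rcases VB.deg_sub_oneStep hE' J with e | ⟨e, z, hz, hz'⟩
      · refine ⟨S, hS.trans (Finset.range_mono (by omega)), by rw [e]; exact hS1, hS2⟩
      · have hNS : N ∉ S := fun h => by
          have := hS h
          rw [Finset.mem_range] at this
          omega
        refine ⟨insert N S, ?_, ?_, ?_⟩
        · intro l hl
          rw [Finset.mem_insert] at hl
          rw [Finset.mem_range]
          rcases hl with rfl | hl
          · omega
          · have := hS hl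
            rw [Finset.mem_range] at this
            omega
        · rw [e, Finset.card_insert_of_notMem hNS]
          push_cast
          linarith
        · intro l hl
          rw [Finset.mem_insert] at hl
          rcases hl with rfl | hl
          · refine ⟨P, t, ht, htm, z, hz, ?_⟩
            rw [← h2 P hP]
            exact hz'
          · exact hS2 l hl

/-- The sections of `O(D)^n`. -/
theorem h0_pw (D : Dv k K) (n : ℕ) : (pw D n).h0 = n * (line D).h0 := by
  refine le_antisymm ?_ (le_h0_pw n)
  let f : (pw D n).H0 →ₗ[k] (Fin n → (line D).H0) :=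
    { toFun := fun s i => ⟨(s : Fin n → K) i, VB.mem_H0.2 fun P =>
        mem_line.2 (mem_pw.1 (VB.mem_H0.1 s.2 P) i)⟩
      map_add' := fun _ _ => rfl
      map_smul' := fun _ _ => rfl }
  have hf : Function.Injective f := by
    intro s t h
    apply Subtype.ext
    funext i
    exact congrArg Subtype.val (congrFun h i)
  have h1 := LinearMap.finrank_le_finrank_of_injective hf
  rw [Module.finrank_pi_fintype] at h1
  simp only [Finset.sum_const, Finset.card_univ, Fintype.card_fin, smul_eq_mul] at h1
  unfold VB.h0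
  exact_mod_cast h1

theorem h0_le_of_le {W : Type v} [AddCommGroup W] [Module K W] [Module k W]
    [IsScalarTower k K W] [FiniteDimensional K W] {E F : VB k K W} (h : E ≤ F) :
    E.h0 ≤ F.h0 := by
  have h1 : E.H0 ≤ F.H0 := fun x hx => VB.mem_H0.2 fun P => h P (VB.mem_H0.1 hx P)
  unfold VB.h0
  exact_mod_cast Submodule.finrank_mono h1

/-- Subbundles of `O(D)^n` have at most `rank * h⁰(O(D))` sections, with equality only if the degree
is maximal (`D` without base points). -/
theorem h0_pw_sub {D : Dv k K} (hbase : ∀ P : Place k K, ∃ s ∈ (line D).H0, s ≠ 0 ∧ P.ord s = -D P)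
    {n : ℕ} (J : Submodule K (Fin n → K)) :
    ((pw D n).sub J).h0 ≤ finrank K J * (line D).h0 ∧
      (((pw D n).sub J).deg < finrank K J * ddeg D →
        ((pw D n).sub J).h0 < finrank K J * (line D).h0) := by
  classical
  obtain ⟨w, hw⟩ : ∃ w, finrank K J = w := ⟨_, rfl⟩
  obtain ⟨a, f, ha, hf⟩ := exists_coords J hw
  have h1 : ((pw D n).sub J).map f ≤ pw D w := by
    intro P y hy
    rw [VB.mem_map] at hy
    rw [mem_pw]
    intro i
    have h2 := VB.mem_sub.1 hy
    have h3 : y i = (f.symm y : Fin n → K) (a i) := by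
      rw [← hf, f.apply_symm_apply]
    rw [h3]
    exact mem_pw.1 h2 (a i)
  have h2 := h0_le_of_le h1
  rw [VB.h0_map, h0_pw] at h2
  rw [hw]
  refine ⟨h2, fun hdeg => lt_of_le_of_ne h2 fun heq => ?_⟩
  have h3 : (((pw D n).sub J).map f).H0 = (pw D w).H0 := by
    apply Submodule.eq_of_le_of_finrank_eq
    · exact fun x hx => VB.mem_H0.2 fun P => h1 P (VB.mem_H0.1 hx P)
    · have e1 : (((pw D n).sub J).map f).h0 = (pw D w).h0 := by rw [VB.h0_map, h0_pw, heq]
      unfold VB.h0 at e1
      exact_mod_cast e1
  have h4 : pw D w ≤ ((pw D n).sub J).map f := by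
    intro P x hx
    obtain ⟨s, hs, hs0, hsP⟩ := hbase P
    have e1 : x = ∑ i, (x i / s) • (Pi.single i s : Fin w → K) := by
      funext l
      rw [Finset.sum_apply, Finset.sum_eq_single l]
      · simp [div_mul_cancel₀ _ hs0]
      · intro i _ hil
        simp [Pi.single_eq_of_ne (Ne.symm hil)]
      · intro h; exact absurd (Finset.mem_univ l) h
    rw [e1]
    refine Submodule.sum_mem _ fun i _ => ?_
    refine (((pw D n).sub J).map f).smul_mem P _ _ ?_ ?_
    · have h5 := mem_filt_iff_of_ord P hs0 hsP (x := x i / s) 0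
      rw [zero_add, mul_div_cancel₀ _ hs0] at h5
      exact h5.1 (mem_pw.1 hx i)
    · have h5 : (Pi.single i s : Fin w → K) ∈ (pw D w).H0 := by
        rw [VB.mem_H0]
        intro Q
        rw [mem_pw]
        intro l
        rw [Pi.single_apply]
        split_ifs
        · exact mem_line.1 (VB.mem_H0.1 hs Q)
        · exact zero_mem _
      rw [← h3] at h5
      exact VB.mem_H0.1 h5 P
  have h5 := VB.deg_le_of_le h4
  rw [VB.deg_map, deg_pw] at h5
  linarith

end Pool.Agent.MP_09eaec.GG
end

section

/-!
# TASK GenSec: generation by sections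

Let `P` be a place and `y ∈ G.M P`. Step 1: there is a section `s` of `G` with `y - s ∈ (G.twist (-single P 1)).M P`: the class of
`Finsupp.single P y` lies in `(G.twist (-single P 1)).N = ⊤` (`h1_eq_zero_iff`), so there is `w` with `y - w` in the stalk of the
twist at `P` and `-w` in the stalks of the twist (= those of `G`) at the other places; `w ∈ G.H0`. `s = ∑ c i • v i` with
`c i : k` (`hspan`).
Step 2: the `O_P`-module `M' = {∑ c i • v i | c i ∈ P.filt 0}` has `G.M P ≤ M' + filt 1 • G.M P`, so by iteration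
`G.M P ≤ M' + filt j • G.M P` for all `j` (`exists_ord_eq` for a uniformizer; `G.M P` is finitely generated over `O_P`,
`exists_local_basis`), and `filt j • G.M P ≤ M'` for large `j`, since the `v i` span `A` over `K` (step 1 and
`exists_local_basis`; or apply `VB.upper` to the coordinates of a basis chosen among the `v i`). So `M' = G.M P`.
-/

set_option autoImplicit false

namespace Pool.Agent.MP_09eaec.GG.G3

open Module

universe u v

variable {k : Type u} {K : Type v} [Field k] [Field K] [Algebra k K]
variable {W : Type v} [AddCommGroup W] [Module K W] [Module k W] [IsScalarTower k K W]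
variable {A : Type v} [AddCommGroup A] [Module K A] [Module k A] [IsScalarTower k K A]
variable {B : Type v} [AddCommGroup B] [Module K B] [Module k B] [IsScalarTower k K B]

variable [CurveG k K]

theorem gen_sec [FiniteDimensional K A] {G : VB k K A}
    (h1 : ∀ P : Place k K, (G.twist (-Finsupp.single P 1)).h1 = 0) {N : ℕ} {v : Fin N → A}
    (hspan : G.H0 ≤ Submodule.span k (Set.range v)) (P : Place k K) {y : A} (hy : y ∈ G.M P) :
    ∃ c : Fin N → K, (∀ i, c i ∈ P.filt 0) ∧ ∑ i, c i • v i = y := by
  classical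
  let GM : Submodule P.valuationSubring A :=
    { carrier := {x | x ∈ G.M P}
      add_mem' := fun ha hb => (G.M P).add_mem ha hb
      zero_mem' := (G.M P).zero_mem
      smul_mem' := fun c x hx => G.smul_mem P (c : K) x c.2 hx }
  have hGM : ∀ x, x ∈ GM ↔ x ∈ G.M P := fun x => Iff.rfl
  -- finite generation
  have hFG : GM.FG := by
    obtain ⟨b, hb⟩ := G.exists_local_basis P
    refine ⟨Finset.univ.image b, ?_⟩
    apply le_antisymm
    · rw [Submodule.span_le]
      intro x hx
      simp only [Finset.coe_image, Finset.coe_univ, Set.image_univ, Set.mem_range] at hx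
      obtain ⟨i, rfl⟩ := hx
      rw [SetLike.mem_coe, hGM, hb]
      intro j
      rw [Basis.repr_self, Finsupp.single_apply]
      split_ifs
      · exact Or.inr (by rw [P.ord_one])
      · exact zero_mem _
    · intro x hx
      rw [hGM, hb] at hx
      rw [← b.sum_repr x]
      refine Submodule.sum_mem _ fun i _ => ?_
      have h2 : (b.repr x) i • b i = (⟨b.repr x i, hx i⟩ : P.valuationSubring) • b i := rfl
      rw [h2]
      refine Submodule.smul_mem _ _ (Submodule.subset_span ?_)
      simp
  -- step one
  have hle : GM ≤ Submodule.span P.valuationSubring (Set.range v) ⊔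
      IsLocalRing.maximalIdeal P.valuationSubring • GM := by
    intro z hz
    rw [hGM] at hz
    have hN : Finsupp.single P z ∈ (G.twist (-Finsupp.single P 1)).N := by
      rw [(VB.h1_eq_zero_iff _).1 (h1 P)]
      trivial
    obtain ⟨w, hw⟩ := hN
    obtain ⟨t, ht, hto⟩ := exists_ord_eq P (-1)
    have hwP : t • (z - w) ∈ G.M P := by
      have h2 := hw P
      rw [Finsupp.single_eq_same] at h2
      rwa [VB.mem_twist_iff ht (by rw [hto]; simp)] at h2
    have htinv : P.ord t⁻¹ = 1 := by rw [P.ord_inv, hto]; norm_num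
    have hzw : z - w ∈ G.M P := by
      have h2 := G.smul_mem P t⁻¹ _ (Or.inr (by rw [htinv]; norm_num)) hwP
      rwa [smul_smul, inv_mul_cancel₀ ht, one_smul] at h2
    have hw0 : w ∈ G.H0 := by
      rw [VB.mem_H0]
      intro Q
      by_cases hQ : Q = P
      · subst hQ
        have h2 := sub_mem hz hzw
        rwa [sub_sub_cancel] at h2
      · have h2 := hw Q
        rw [Finsupp.single_eq_of_ne hQ, zero_sub,
          VB.mem_twist_iff (t := 1) one_ne_zero (by
            rw [Q.ord_one]
            simp [hQ]), one_smul] at h2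
        simpa using neg_mem h2
    have hwN : w ∈ Submodule.span P.valuationSubring (Set.range v) := by
      have h2 := hspan hw0
      refine Submodule.span_induction (p := fun x _ => x ∈ Submodule.span P.valuationSubring
        (Set.range v)) (fun x hx => Submodule.subset_span hx) (zero_mem _)
        (fun x y _ _ hx hy => add_mem hx hy) (fun c x _ hx => ?_) h2
      have h3 : c • x = (⟨algebraMap k K c, algebraMap_mem_filt P c⟩ : P.valuationSubring) • x :=
        (algebraMap_smul K c x).symm
      rw [h3]
      exact Submodule.smul_mem _ _ hx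
    have hti : (⟨t⁻¹, Or.inr (by rw [htinv]; norm_num)⟩ : P.valuationSubring) ∈
        IsLocalRing.maximalIdeal P.valuationSubring := by
      rw [IsLocalRing.mem_maximalIdeal, mem_nonunits_iff]
      intro hu
      obtain ⟨r, hr⟩ := hu.exists_right_inv
      have h4 : t⁻¹ * (r : K) = 1 := congrArg Subtype.val hr
      have h5 : (r : K) = t := by
        field_simp at h4
        exact h4
      have h6 := r.2
      rw [P.mem_valuationSubring, h5] at h6
      rcases h6 with h6 | h6
      · exact ht h6
      · rw [hto] at h6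
        omega
    have h7 : z = w + (z - w) := by abel
    rw [h7]
    refine Submodule.add_mem_sup hwN ?_
    have h8 : z - w = (⟨t⁻¹, Or.inr (by rw [htinv]; norm_num)⟩ : P.valuationSubring) • (t • (z - w)) := by
      change z - w = t⁻¹ • (t • (z - w))
      rw [smul_smul, inv_mul_cancel₀ ht, one_smul]
    rw [h8]
    exact Submodule.smul_mem_smul hti hwP
  have hfin := Submodule.le_of_le_smul_of_le_jacobson_bot hFG
    (IsLocalRing.maximalIdeal_le_jacobson ⊥) hle
  obtain ⟨c, hc⟩ := (Submodule.mem_span_range_iff_exists_fun _).1 (hfin ((hGM y).2 hy))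
  exact ⟨fun i => (c i : K), fun i => (c i).2, hc⟩

end Pool.Agent.MP_09eaec.GG.G3
end

section

/-!
# TASK KerDeg: the kernel bundle of sections which generate `G`

`ev = Fintype.linearCombination K v : (Fin N → K) → A`, onto by `hgen` (every `a : A` is in some stalk after scaling by a nonzero element:
`VB.lower`). `T = LinearMap.ker ev`.
* `ker_rank`: rank and nullity.
* `ker_deg`: `deg_exact` with `E = pw κ N`, `E1 = (pw κ N).sub T`, `E2 = G.twist κ`, `i = T.subtype`, `p = ev`. `h2`:
  `y ∈ (G.twist κ).M P` iff `t • y ∈ G.M P` for `t` with `P.ord t = κ P` (`mem_twist_iff`), and then `t • y = ∑ c i • v i` with integral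
  `c i` (`hgen`), `x i = t⁻¹ * c i`. `deg_pw`, `deg_twist`.
* `ker_h0`: `(pw κ N).H0 → (G.twist κ).H0`, `x ↦ ev x`, has the kernel `((pw κ N).sub T).H0`; `h0_pw` (HE/ModPw).
-/

set_option autoImplicit false

namespace Pool.Agent.MP_09eaec.GG.G3

open Module

universe u v

variable {k : Type u} {K : Type v} [Field k] [Field K] [Algebra k K]
variable {W : Type v} [AddCommGroup W] [Module K W] [Module k W] [IsScalarTower k K W]
variable {A : Type v} [AddCommGroup A] [Module K A] [Module k A] [IsScalarTower k K A]
variable {B : Type v} [AddCommGroup B] [Module K B] [Module k B] [IsScalarTower k K B]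

variable [CurveG k K]

theorem ker_rank [FiniteDimensional K A] {G : VB k K A} {N : ℕ} {v : Fin N → A}
    (hgen : ∀ (P : Place k K) (y : A), y ∈ G.M P →
      ∃ c : Fin N → K, (∀ i, c i ∈ P.filt 0) ∧ ∑ i, c i • v i = y) :
    Function.Surjective (Fintype.linearCombination K v) ∧
      finrank K (LinearMap.ker (Fintype.linearCombination K v)) + finrank K A = N := by
  have hinf := infinite_places (k := k) (K := K)
  obtain ⟨P⟩ : Nonempty (Place k K) := hinf.nonempty
  have hs : Function.Surjective (Fintype.linearCombination K v) := by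
    intro a
    obtain ⟨e, he⟩ := G.lower a
    obtain ⟨t, ht, htm⟩ := exists_ord_eq P (e P)
    obtain ⟨c, -, hc⟩ := hgen P _ (he P t (Or.inr htm.ge))
    refine ⟨fun i => t⁻¹ * c i, ?_⟩
    rw [Fintype.linearCombination_apply]
    have h1 : ∑ i, (t⁻¹ * c i) • v i = t⁻¹ • ∑ i, c i • v i := by
      rw [Finset.smul_sum]
      exact Finset.sum_congr rfl fun i _ => by rw [mul_smul]
    rw [h1, hc, smul_smul, inv_mul_cancel₀ ht, one_smul]
  refine ⟨hs, ?_⟩
  have h := LinearMap.finrank_range_add_finrank_ker (Fintype.linearCombination K v)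
  rw [LinearMap.range_eq_top.2 hs, finrank_top, finrank_fin_fun] at h
  omega

theorem ker_deg [FiniteDimensional K A] {G : VB k K A} {N : ℕ} {v : Fin N → A} (κ : Dv k K)
    (hv : ∀ i, v i ∈ G.H0)
    (hgen : ∀ (P : Place k K) (y : A), y ∈ G.M P →
      ∃ c : Fin N → K, (∀ i, c i ∈ P.filt 0) ∧ ∑ i, c i • v i = y) :
    ((pw κ N).sub (LinearMap.ker (Fintype.linearCombination K v))).deg =
      N * ddeg κ - (G.deg + finrank K A * ddeg κ) := by
  have hs := (ker_rank hgen).1
  have h := VB.deg_exact (pw κ N) ((pw κ N).sub (LinearMap.ker (Fintype.linearCombination K v)))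
    (G.twist κ) (LinearMap.ker (Fintype.linearCombination K v)).subtype
    (Fintype.linearCombination K v) (Submodule.subtype_injective _) hs
    (Submodule.range_subtype _) (fun P x => Iff.rfl) (fun P y => by
      obtain ⟨t, ht, htm⟩ := exists_ord_eq P (κ P)
      rw [VB.mem_twist_iff ht htm]
      constructor
      · intro hy
        obtain ⟨c, hc, hcy⟩ := hgen P _ hy
        refine ⟨fun i => t⁻¹ * c i, ?_, ?_⟩
        · rw [mem_pw]
          intro i
          have h1 := mul_mem_filt P (a := -κ P) (b := 0)
            (x := t⁻¹) (y := c i) (Or.inr (by rw [P.ord_inv, htm])) (hc i)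
          simpa using h1
        · rw [Fintype.linearCombination_apply]
          have h1 : ∑ i, (t⁻¹ * c i) • v i = t⁻¹ • ∑ i, c i • v i := by
            rw [Finset.smul_sum]
            exact Finset.sum_congr rfl fun i _ => by rw [mul_smul]
          rw [h1, hcy, smul_smul, inv_mul_cancel₀ ht, one_smul]
      · rintro ⟨x, hx, rfl⟩
        rw [Fintype.linearCombination_apply, Finset.smul_sum]
        refine Submodule.sum_mem _ fun i _ => ?_
        rw [smul_smul]
        refine G.smul_mem P _ _ ?_ (VB.mem_H0.1 (hv i) P)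
        have h1 := mul_mem_filt P (a := κ P) (b := -κ P) (x := t) (y := x i)
          (Or.inr htm.ge) (mem_pw.1 hx i)
        simpa using h1)
  rw [deg_pw, VB.deg_twist] at h
  linarith

theorem ker_h0 [FiniteDimensional K A] {G : VB k K A} {N : ℕ} {v : Fin N → A} (κ : Dv k K)
    (hv : ∀ i, v i ∈ G.H0) :
    N * (line κ).h0 - (G.twist κ).h0 ≤
      ((pw κ N).sub (LinearMap.ker (Fintype.linearCombination K v))).h0 := by
  have hmem : ∀ x ∈ (pw κ N).H0, Fintype.linearCombination K v x ∈ (G.twist κ).H0 := by
    intro x hx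
    rw [VB.mem_H0]
    intro P
    obtain ⟨t, ht, htm⟩ := exists_ord_eq P (κ P)
    rw [VB.mem_twist_iff ht htm, Fintype.linearCombination_apply, Finset.smul_sum]
    refine Submodule.sum_mem _ fun i _ => ?_
    rw [smul_smul]
    refine G.smul_mem P _ _ ?_ (VB.mem_H0.1 (hv i) P)
    have h1 := mul_mem_filt P (a := κ P) (b := -κ P) (x := t) (y := x i)
      (Or.inr htm.ge) (mem_pw.1 (VB.mem_H0.1 hx P) i)
    simpa using h1
  let f : (pw κ N).H0 →ₗ[k] (G.twist κ).H0 :=
    ((Fintype.linearCombination K v).restrictScalars k).restrict hmem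
  have hf := LinearMap.finrank_range_add_finrank_ker f
  have h1 : finrank k (LinearMap.range f) ≤ finrank k (G.twist κ).H0 := Submodule.finrank_le _
  let g : LinearMap.ker f →ₗ[k]
      ((pw κ N).sub (LinearMap.ker (Fintype.linearCombination K v))).H0 :=
    { toFun := fun x => ⟨⟨((x : (pw κ N).H0) : Fin N → K), by
          have := x.2
          rw [LinearMap.mem_ker] at this
          rw [LinearMap.mem_ker]
          exact congrArg Subtype.val this⟩, VB.mem_H0.2 fun P =>
            VB.mem_H0.1 (x : (pw κ N).H0).2 P⟩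
      map_add' := fun x y => rfl
      map_smul' := fun c x => rfl }
  have hg : Function.Injective g := by
    intro x y hxy
    apply Subtype.ext
    apply Subtype.ext
    exact congrArg (fun z : ((pw κ N).sub (LinearMap.ker (Fintype.linearCombination K v))).H0 =>
      ((z : LinearMap.ker (Fintype.linearCombination K v)) : Fin N → K)) hxy
  have h2 := LinearMap.finrank_le_finrank_of_injective hg
  have h3 := h0_pw κ N
  rw [← h3]
  unfold VB.h0
  have h4 : finrank k (pw κ N).H0 ≤ finrank k (G.twist κ).H0 +
      finrank k ((pw κ N).sub (LinearMap.ker (Fintype.linearCombination K v))).H0 := by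
    omega
  have h5 : (finrank k (pw κ N).H0 : ℤ) ≤ finrank k (G.twist κ).H0 +
      finrank k ((pw κ N).sub (LinearMap.ker (Fintype.linearCombination K v))).H0 := by
    exact_mod_cast h4
  linarith

end Pool.Agent.MP_09eaec.GG.G3
end
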