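import Pool.Agent.Lib.MP_09eaec_ag.Mg.G007
import Pool.Agent.Lib.MP_09eaec_ag.Mg.G001
import Pool.Agent.Lib.MP_09eaec_ag.Mg.G010
import Pool.Agent.Lib.MP_09eaec_ag.Mg.G005
import Pool.Agent.Lib.MP_09eaec_ag.Mg.G009
import Pool.Agent.Lib.MP_09eaec_ag.Mg.G012
import Pool.Agent.Lib.MP_09eaec_ag.Mg.G002
import Pool.Agent.Lib.MP_09eaec_ag.Mg.G013
import Pool.Agent.Lib.MP_09eaec_ag.Mg.G016
import Pool.Agent.Lib.MP_09eaec_ag.Mg.G003
import Pool.Agent.Lib.MP_09eaec_ag.Mg.G018
import Pool.Agent.Lib.MP_09eaec_ag.GG.LineBasic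

section

/-!
# TASK StabE: `E = ext (G.twist κ) (pw κ j) u` is stable

`n = m + j = finrank (A × (Fin j → K))`, `E.deg = n (2 gen - 2) - δ` (`deg_ext`, `deg_pw`, `VB.deg_twist`).
CLAIM: let `S ≠ ⊥`, `S ≠ ⊤` have maximal slope (`deg (E.sub J) / finrank J ≤ deg (E.sub S) / finrank S` for all
`J ≠ ⊥`). Then `n * deg (E.sub S) < finrank S * E.deg`. Proof: otherwise `s (n (2 gen - 2) - δ) ≤ n e`
(`s = finrank S`, `e = deg (E.sub S)`), so `e / s ≥ 2 gen - 2 - δ / n > 2 gen - 3` (`δ < n`), and there is no nonzero map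
`E.sub S → line (κ - single P 1)` (`no_map_of_max` with `α = 0`; `ddeg (κ - single P 1) = 2 gen - 3`). Take `h, T` from
`data_E`, `i = finrank T`, `t = deg (G.sub T)`. `T = ⊥`: `i = t = 0` (`VB.deg_sub_bot`). `T ≤ ker q`, `T ≠ ⊥`: `hKer`.
`¬ T ≤ ker q`, `T ≠ ⊤`: `hTop.top`. `T = ⊤` and `¬ T ≤ ker q`: `i = m`, `t = -δ` (`VB.deg_sub_top`); `T = ⊤ ≤ ker q` is
impossible (`hTop.img`: `q` is onto a nonzero bundle; or `hKer` would give `-δ + μ m < 0`, but
`μ m ≥ μ (m - a / gen) = δ`). `num_E`.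
Then: let `J ≠ ⊥, ⊤` with `n * deg (E.sub J) ≥ finrank J * E.deg`. `S` of maximal slope (`exists_max_slope` with `V = ⊥`,
`α = 0`). If `S ≠ ⊤`, the claim gives slope(S) < slope(E) ≤ slope(J) ≤ slope(S), a contradiction. If `S = ⊤`, then `J`
has the same slope as `⊤`, so it is also of maximal slope, and the claim for `J` is a contradiction.
-/

set_option autoImplicit false

namespace Pool.Agent.MP_09eaec.GG.BG

open Module

universe u v

variable {k : Type u} {K : Type v} [Field k] [Field K] [Algebra k K]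
variable {W : Type v} [AddCommGroup W] [Module K W] [Module k W] [IsScalarTower k K W]
variable {A : Type v} [AddCommGroup A] [Module K A] [Module k A] [IsScalarTower k K A]
variable {B : Type v} [AddCommGroup B] [Module K B] [Module k B] [IsScalarTower k K B]

variable [CurveG k K]

theorem stable_E {κ : Dv k K} (hκ : IsCanonical κ) [FiniteDimensional K A] {G : VB k K A}
    {q : A →ₗ[K] K} {D : Dv k K} {a j : ℕ} {δ : ℤ} {μ : ℝ} (hm : 1 ≤ finrank K A)
    (hag : (a : ℤ) < gen k K) (hδ : 1 ≤ δ) (hdeg : G.deg = -δ)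
    (hj : (j : ℤ) = δ + (gen k K - 1) * finrank K A - a)
    (hμ : μ * ((gen k K : ℝ) * finrank K A - a) = (gen k K : ℝ) * δ)
    (hKer : KerX μ G q) (hTop : TopX μ (μ * (a / (gen k K : ℝ))) G q D)
    {σ : Fin a → K} (hσ : LinearIndependent k σ) (hσD : ∀ i, σ i ∈ (line (κ - D)).H0)
    (u : Place k K →₀ ((Fin j → K) →ₗ[K] A))
    (hψ : ∀ i : Fin a, ∃ ψ : (Fin j → K) →ₗ[K] K, ∀ (P : Place k K) (y : Fin j → K),
        y ∈ (pw (0 : Dv k K) j).M P → σ i * q (u P y) + ψ y ∈ (line κ).M P)
    (h0 : ((ext (G.twist κ) (pw κ j) u).twist (-κ)).H0 = ⊥) :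
    (ext (G.twist κ) (pw κ j) u).Stable ∧
      (ext (G.twist κ) (pw κ j) u).deg = ((finrank K A : ℤ) + j) * (2 * gen k K - 2) - δ := by
  have hg := CurveG.two_le (k := k) (K := K)
  have hmZ : (1 : ℤ) ≤ finrank K A := by exact_mod_cast hm
  have hEd : (ext (G.twist κ) (pw κ j) u).deg =
      ((finrank K A : ℤ) + j) * (2 * gen k K - 2) - δ := by
    rw [deg_ext, deg_pw, VB.deg_twist, hdeg, hκ.ddeg]; ring
  refine ⟨?_, hEd⟩
  have hn : finrank K (A × (Fin j → K)) = finrank K A + j := by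
    rw [Module.finrank_prod, Module.finrank_fin_fun]
  have hnZ : (finrank K (A × (Fin j → K)) : ℤ) = finrank K A + j := by exact_mod_cast hn
  have hpos : (a : ℤ) < gen k K * finrank K A := by nlinarith
  have hδn : δ < (finrank K A : ℤ) + j := by
    rw [hj]; nlinarith
  have hrk : ∀ J : Submodule K (A × (Fin j → K)), J ≠ ⊥ → 1 ≤ finrank K J := by
    intro J hJ
    have h1 : finrank K J ≠ 0 := fun h => hJ (Submodule.finrank_eq_zero.mp h)
    omega
  have claim : ∀ S : Submodule K (A × (Fin j → K)), S ≠ ⊥ → S ≠ ⊤ →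
      (∀ J : Submodule K (A × (Fin j → K)), J ≠ ⊥ →
        (((ext (G.twist κ) (pw κ j) u).sub J).deg : ℝ) / finrank K J ≤
          (((ext (G.twist κ) (pw κ j) u).sub S).deg : ℝ) / finrank K S) →
      ((finrank K A : ℤ) + j) * ((ext (G.twist κ) (pw κ j) u).sub S).deg <
        finrank K S * (ext (G.twist κ) (pw κ j) u).deg := by
    intro S hS hS' hmax
    by_contra hcon
    push Not at hcon
    have hs1 := hrk S hS
    have hs1Z : (1 : ℤ) ≤ finrank K S := by exact_mod_cast hs1
    have hsn : finrank K S < finrank K A + j := by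
      rw [← hn]; exact Submodule.finrank_lt hS'
    have hsnZ : (finrank K S : ℤ) < finrank K A + j := by exact_mod_cast hsn
    rw [hEd] at hcon
    have hslopeZ : (2 * gen k K - 3) * (finrank K S : ℤ) <
        ((ext (G.twist κ) (pw κ j) u).sub S).deg := by
      by_contra h1
      push Not at h1
      have h2 : ((finrank K A : ℤ) + j) * ((ext (G.twist κ) (pw κ j) u).sub S).deg ≤
          ((finrank K A : ℤ) + j) * ((2 * gen k K - 3) * (finrank K S : ℤ)) :=
        mul_le_mul_of_nonneg_left h1 (by omega)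
      have h3 : (0 : ℤ) < finrank K S * ((finrank K A : ℤ) + j - δ) :=
        mul_pos (by omega) (by omega)
      have h4 : (finrank K S : ℤ) * (((finrank K A : ℤ) + j) * (2 * gen k K - 2) - δ) =
          ((finrank K A : ℤ) + j) * ((2 * gen k K - 3) * (finrank K S : ℤ)) +
          finrank K S * ((finrank K A : ℤ) + j - δ) := by ring
      omega
    have hsR : (0 : ℝ) < finrank K S := by exact_mod_cast hs1
    have hslope : ((2 * gen k K - 3 : ℤ) : ℝ) <
        (((ext (G.twist κ) (pw κ j) u).sub S).deg : ℝ) / finrank K S := by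
      rw [lt_div_iff₀ hsR]
      exact_mod_cast hslopeZ
    have hinf : Infinite (Place k K) := infinite_places
    obtain ⟨P⟩ := hinf.nonempty
    have hP : ∀ φ : S →ₗ[K] K, (∀ Q x, x ∈ ((ext (G.twist κ) (pw κ j) u).sub S).M Q →
        φ x ∈ (line (κ - Finsupp.single P 1)).M Q) → φ = 0 := by
      intro φ hφ
      refine no_map_of_max (α := 0) le_rfl hS (fun J hJ => ?_) (D := κ - Finsupp.single P 1)
        ?_ φ hφ
      · simpa using hmax J hJ
      · have h1 : ddeg (κ - Finsupp.single P 1) = 2 * gen k K - 3 := by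
          rw [ddeg_sub, hκ.ddeg, ddeg_single]; ring
        rw [h1]
        simpa using hslope
    obtain ⟨h, T, hT1, hT2, hT3, hT4⟩ := data_E hκ
      (fun P x hx => (hTop.img P (q x)).2 ⟨x, hx, rfl⟩) hσ hσD u hψ h0 S hP
    have hT1Z : (finrank K T : ℤ) + h = finrank K S := by exact_mod_cast hT1
    refine num_E (g := gen k K) (m := finrank K A) (a := a) (δ := δ)
      (n := (finrank K A : ℤ) + j) (s := finrank K S)
      (e := ((ext (G.twist κ) (pw κ j) u).sub S).deg) (t := (G.sub T).deg) (i := finrank K T)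
      (h := h) (μ := μ) hg hmZ (by omega) hag hδ (by rw [hj]; ring) (by exact_mod_cast hμ)
      (by omega) (by omega) hT1Z.symm hs1Z hsnZ hcon hT2 hT3 ?_
    by_cases hTb : T = ⊥
    · left
      rw [hTb]
      refine ⟨?_, VB.deg_sub_bot G⟩
      rw [finrank_bot]; rfl
    right
    by_cases hTk : T ≤ LinearMap.ker q
    · left
      have h1 := hKer T hTb hTk
      unfold exs at h1
      have h2 : finrank K T ≠ 0 := fun h => hTb (Submodule.finrank_eq_zero.mp h)
      refine ⟨by omega, ?_⟩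
      exact_mod_cast h1
    right
    by_cases hTt : T = ⊤
    · right
      have h1 := hT4 hTk
      refine ⟨?_, ?_, h1⟩
      · rw [hTt, finrank_top]
      · rw [hTt, VB.deg_sub_top, hdeg]
    · left
      have h1 := hTop.top T hTt hTk
      unfold exs at h1
      refine ⟨?_, hT4 hTk⟩
      exact_mod_cast h1
  intro J hJ hJ'
  by_contra hcon
  push Not at hcon
  rw [hnZ] at hcon
  have hnt : Nontrivial (A × (Fin j → K)) := by
    rw [← Module.finrank_pos_iff (R := K), hn]; omega
  obtain ⟨S, hS, hmax0⟩ := exists_max_slope (ext (G.twist κ) (pw κ j) u) (V := ⊥) bot_le 0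
  have hmax : ∀ J : Submodule K (A × (Fin j → K)), J ≠ ⊥ →
      (((ext (G.twist κ) (pw κ j) u).sub J).deg : ℝ) / finrank K J ≤
        (((ext (G.twist κ) (pw κ j) u).sub S).deg : ℝ) / finrank K S := by
    intro J hJ
    simpa using hmax0 J hJ
  have hJR : (0 : ℝ) < finrank K J := by exact_mod_cast hrk J hJ
  have hSR : (0 : ℝ) < finrank K S := by exact_mod_cast hrk S hS
  have hnR : (0 : ℝ) < (finrank K A : ℝ) + j := by
    have : 0 < finrank K A + j := by omega
    exact_mod_cast this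
  -- the slope of `J` is at least the slope of `E`
  have hcR : (finrank K J : ℝ) * (ext (G.twist κ) (pw κ j) u).deg ≤
      ((finrank K A : ℝ) + j) * ((ext (G.twist κ) (pw κ j) u).sub J).deg := by
    exact_mod_cast hcon
  have hJS := hmax J hJ
  rw [div_le_div_iff₀ hJR hSR] at hJS
  by_cases hSt : S = ⊤
  · refine absurd (claim J hJ hJ' (fun L hL => ?_)) (not_lt.mpr hcon)
    refine (hmax L hL).trans ?_
    rw [hSt, VB.deg_sub_top, finrank_top, hn, div_le_div_iff₀ _ hJR]
    · push_cast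
      linarith
    · push_cast
      exact hnR
  · have h1 := claim S hS hSt hmax
    have h1R : ((finrank K A : ℝ) + j) * ((ext (G.twist κ) (pw κ j) u).sub S).deg <
        finrank K S * (ext (G.twist κ) (pw κ j) u).deg := by exact_mod_cast h1
    have h2 := mul_lt_mul_of_pos_left h1R hJR
    have h3 := mul_le_mul_of_nonneg_left hcR hSR.le
    have h4 := mul_le_mul_of_nonneg_left hJS hnR.le
    linarith

end Pool.Agent.MP_09eaec.GG.BG
end

section

/-!
# TASK FinalBG: stable bundles with many sections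

`G, q, D` from `exists_G` with `μ = gen δ / (gen m - a)`. `G.H0 = ⊥`: let `s ≠ 0` be a section, `J = span {s}`: rank 1,
degree `≥ 0` (`ddeg_le_sub` with `D = 0`, `VB.twist_zero`), so `exs μ G J ≥ μ > 0`; `J ≤ ker q` contradicts `KerX`;
otherwise `J ≠ ⊤` (rank `m ≥ 2`) and `exs μ G J < μ a / gen < μ`. `G.h1 = δ + (gen - 1) m` (`VB.rr`), `j = n - m`:
`j + a = G.h1`. `κ` from `exists_canonical`, `h0 (line (κ - D)) ≥ 2 gen - 2 - ddeg D - (gen - 1) ≥ gen - 1 ≥ a`
(`VB.rr`, `deg_line`, `h1_nonneg`), so there are `a` independent `σ i` in `(line (κ - D)).H0` (basis,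
`Module.finBasis`). `exists_classes`. `H0_twist_ext_bot` (with `(G.twist κ).twist (-κ) = G`, see GG/ExistsII.lean).
`stable_E`. `h0 E = deg E - (gen - 1) n + h1 E`, `h1 E ≥ j` (`le_h1_ext`), so `h0 E ≥ (gen - 1) (n + m) - a`.
Transport to `Fin n → K` (`exists_transport`, `h0_map`; see GG/ExistsII.lean).
-/

set_option autoImplicit false

namespace Pool.Agent.MP_09eaec.GG.BG

open Module

universe u v

variable {k : Type u} {K : Type v} [Field k] [Field K] [Algebra k K]
variable {W : Type v} [AddCommGroup W] [Module K W] [Module k W] [IsScalarTower k K W]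
variable {A : Type v} [AddCommGroup A] [Module K A] [Module k A] [IsScalarTower k K A]
variable {B : Type v} [AddCommGroup B] [Module K B] [Module k B] [IsScalarTower k K B]

variable [CurveG k K]

omit [CurveG k K] in
private theorem FinalBG_indep (H : Submodule k A) [Module.Finite k H] {a : ℕ}
    (ha : a ≤ finrank k H) :
    ∃ σ : Fin a → A, (∀ i, σ i ∈ H) ∧ LinearIndependent k σ := by
  let b := Module.finBasis k H
  have h1 : LinearIndependent k (fun i => (b i : A)) :=
    b.linearIndependent.map' H.subtype (Submodule.ker_subtype _)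
  exact ⟨fun i => (b (Fin.castLE ha i) : A), fun i => (b _).2,
    h1.comp (Fin.castLE ha) (Fin.castLE_injective ha)⟩

private theorem FinalBG_H0 [FiniteDimensional K A] {G : VB k K A} {q : A →ₗ[K] K} {D : Dv k K}
    {μ ρ : ℝ} (hρ : ρ < μ) (hμ0 : 0 < μ) (hm : 2 ≤ finrank K A) (hKer : KerX μ G q)
    (hTop : TopX μ ρ G q D) : G.H0 = ⊥ := by
  rw [eq_bot_iff]
  intro s hs
  rw [Submodule.mem_bot]
  by_contra hs0
  have h1 : finrank K (Submodule.span K {s}) = 1 := finrank_span_singleton hs0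
  have h2 : ddeg (0 : Dv k K) ≤ (G.sub (Submodule.span K {s})).deg :=
    ddeg_le_sub hs0 (by rw [neg_zero, VB.twist_zero]; exact hs)
  rw [ddeg_zero] at h2
  have h3 : μ ≤ exs μ G (Submodule.span K {s}) := by
    unfold exs
    rw [h1]
    have h4 : (0 : ℝ) ≤ ((G.sub (Submodule.span K {s})).deg : ℝ) := by exact_mod_cast h2
    push_cast
    linarith
  have hne : Submodule.span K {s} ≠ ⊥ := by
    rw [Ne, Submodule.span_singleton_eq_bot]
    exact hs0
  by_cases hk : Submodule.span K {s} ≤ LinearMap.ker q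
  · have h4 := hKer _ hne hk
    linarith
  · have hnt : Submodule.span K {s} ≠ ⊤ := by
      intro h
      rw [h, finrank_top] at h1
      omega
    have h4 := hTop.top _ hnt hk
    linarith

theorem exists_bgn (hg : 3 ≤ gen k K) {m n a : ℕ} {δ : ℤ} (hm : 2 ≤ m) (ha : 1 ≤ a)
    (ha' : (a : ℤ) ≤ gen k K - 2) (hδ : 1 ≤ δ) (hn : (n : ℤ) = δ + gen k K * m - a) :
    ∃ E : VB k K (Fin n → K), E.Stable ∧ E.deg = n * (2 * gen k K - 2) - δ ∧
      (gen k K - 1) * ((n : ℤ) + m) - a ≤ E.h0 := by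
  classical
  have hmZ : (2 : ℤ) ≤ m := by exact_mod_cast hm
  have haZ : (1 : ℤ) ≤ a := by exact_mod_cast ha
  have hgR : (0 : ℝ) < gen k K := by
    have : (0 : ℤ) < gen k K := by omega
    exact_mod_cast this
  have hδR : (0 : ℝ) < δ := by
    have : (0 : ℤ) < δ := by omega
    exact_mod_cast this
  have haR : (0 : ℝ) < a := by
    have : (0 : ℤ) < a := by omega
    exact_mod_cast this
  have hagR : (a : ℝ) < gen k K := by
    have : (a : ℤ) < gen k K := by omega
    exact_mod_cast this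
  have hgm : (gen k K - 1) * 2 ≤ (gen k K - 1) * (m : ℤ) :=
    mul_le_mul_of_nonneg_left hmZ (by omega)
  have hden : (0 : ℝ) < (gen k K : ℝ) * m - a := by
    have : (0 : ℤ) < gen k K * m - a := by
      have h1 : (gen k K - 1) * (m : ℤ) = gen k K * m - m := by ring
      omega
    exact_mod_cast this
  obtain ⟨μ, hμd⟩ : ∃ μ : ℝ, μ = (gen k K : ℝ) * δ / ((gen k K : ℝ) * m - a) := ⟨_, rfl⟩
  have hμ : μ * ((gen k K : ℝ) * m - a) = (gen k K : ℝ) * δ := by
    rw [hμd, div_mul_cancel₀ _ hden.ne']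
  have hμ0 : 0 < μ := by
    rw [hμd]
    exact div_pos (mul_pos hgR hδR) hden
  obtain ⟨G, q, D, hD, hGd, hKer, hTop⟩ := exists_G (k := k) (K := K) hg hm (a := (a : ℤ))
    (δ := δ) haZ (by omega) hδ (μ := μ) (by push_cast; exact hμ)
  rw [Int.cast_natCast] at hTop
  have hfm : finrank K (Fin m → K) = m := Module.finrank_fin_fun K
  have hG0 : G.H0 = ⊥ := by
    refine FinalBG_H0 (?_ : μ * (a / (gen k K : ℝ)) < μ) hμ0 (by rw [hfm]; exact hm) hKer hTop
    have h1 : (a : ℝ) / (gen k K : ℝ) < 1 := (div_lt_one hgR).2 hagR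
    nlinarith
  obtain ⟨κ, hκ⟩ := exists_canonical (k := k) (K := K)
  obtain ⟨j, hj⟩ : ∃ j : ℕ, n = m + j := ⟨n - m, by
    have h1 : (gen k K - 1) * (m : ℤ) = gen k K * m - m := by ring
    have h2 : (m : ℤ) ≤ n := by omega
    have h3 : m ≤ n := by exact_mod_cast h2
    omega⟩
  have hjZ : (n : ℤ) = m + j := by exact_mod_cast hj
  have hjG : (j : ℤ) = δ + (gen k K - 1) * m - a := by
    have h1 : (gen k K - 1) * (m : ℤ) = gen k K * m - m := by ring
    rw [h1]
    omega
  have hfj : finrank K (Fin j → K) = j := Module.finrank_fin_fun K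
  have hGh1 : G.h1 = δ + (gen k K - 1) * m := by
    have h1 := VB.rr G
    have h2 : G.h0 = 0 := by rw [VB.h0, hG0, finrank_bot]; rfl
    rw [h2, hGd, hfm] at h1
    linarith
  -- the sections
  have hsec : (a : ℤ) ≤ (line (κ - D)).h0 := by
    have h1 := VB.rr (line (κ - D))
    rw [VB.deg_line, ddeg_sub, hκ.ddeg, finrank_self] at h1
    have h2 := VB.h1_nonneg (line (κ - D))
    push_cast at h1
    linarith
  have hsec' : a ≤ finrank k (line (κ - D)).H0 := by
    unfold VB.h0 at hsec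
    exact_mod_cast hsec
  obtain ⟨σ, hσD, hσ⟩ := FinalBG_indep (line (κ - D)).H0 hsec'
  obtain ⟨u, hu, hψ⟩ := exists_classes hκ G q σ (j := j) (by rw [hGh1, hjG]; linarith)
  have hback : (G.twist κ).twist (-κ) = G := by
    rw [VB.twist_twist, add_neg_cancel, VB.twist_zero]
  have h0 : ((ext (G.twist κ) (pw κ j) u).twist (-κ)).H0 = ⊥ :=
    H0_twist_ext_bot u (by rw [hback]; exact hG0) (by rw [hback]; exact hu)
  obtain ⟨hst, hdeg⟩ := stable_E hκ (G := G) (q := q) (D := D) (a := a) (j := j) (δ := δ) (μ := μ)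
    (by rw [hfm]; omega) (by omega) hδ hGd (by rw [hfm]; exact hjG) (by rw [hfm]; exact hμ)
    hKer hTop hσ hσD u hψ h0
  rw [hfm, ← hjZ] at hdeg
  have hfr : finrank K ((Fin m → K) × (Fin j → K)) = n := by
    rw [Module.finrank_prod, hfm, hfj, hj]
  obtain ⟨E', f, hE', h1, -, -, -, h2⟩ :=
    exists_transport (ext (G.twist κ) (pw κ j) u) hfr
  refine ⟨E', h2 hst, h1.trans hdeg, ?_⟩
  rw [hE', VB.h0_map, VB.rr, hdeg, hfr]
  have h3 := le_h1_ext hκ (G.twist κ) u
  rw [hjG] at h3
  have h4 : (n : ℤ) * (2 * gen k K - 2) - δ - (gen k K - 1) * n =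
    (gen k K - 1) * ((n : ℤ) + m) - a - (δ + (gen k K - 1) * m - a) := by ring
  rw [h4]
  linarith

end Pool.Agent.MP_09eaec.GG.BG
end

section

/-!
# TASK SysMax: the subsystems of maximal slope of the extension

`W = A × (Fin j → K)`, `E = ext E1 (pw κ j) u`, `m = finrank K A`, `n = finrank K W = m + j`, `g = gen k K`, `e1 = E1.deg`,
`d = E.deg = e1 + (2 g - 2) j` (`deg_ext`, `deg_pw`, `hκ.ddeg`), `kk = e1 - (g - 1) m + g j`, `a = (3 g - 3) m - e1 - j`,
`n σ = d + α kk`.
* `E.h0 = d - (g - 1) n + E.h1 ≥ kk` (`rr`, `le_h1_ext`).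
* Let `s` be the slope of `J0`; `s ≥` slope of `⊤` `= (d + α h0 E) / n ≥ σ` (`hmax ⊤`, `vd_top`, `deg_sub_top`;
  `⊤ ≠ ⊥` since `m ≥ 1`). `σ > (2 g - 3) + α (g - 1)` since `τ < 1 + α`, which follows from `hc`, `0 < τ` and
  `(m - 1) a ≥ 0`. So by `no_map_of_max` for `D = κ - single P 1` (`hκ.h0_sub`, `ddeg_sub`, `ddeg_single`) and any
  point `P` (`infinite_places`) the hypothesis `hP` of `sys_in` holds for `S = J0`: `i, h, δ`.
* `vd E.H0 J0 = (E.sub J0).h0 = (E.sub J0).deg - (g - 1) (i + h) + h` (`h0_sub_eq`, `rr`), `i + h = finrank J0`,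
  `1 ≤ i + h ≤ n`. `sys_num` over `ℝ` (`e = (E.sub J0).deg`; in the third case `m * δ + 1 ≤ i * e1`,
  `i + 1 ≤ m`; `hX` is `σ (i + h) ≤ s (i + h)`): `i = m`, `h = j`. So `finrank J0 = n`, `J0 = ⊤`
  (`Submodule.eq_top_of_finrank_eq`), `E.h1 = (E.sub ⊤).h1 = h = j` (`h1_sub_top`), `E.h0 = kk` (`rr`).
-/

set_option autoImplicit false

namespace Pool.Agent.MP_09eaec.GG

open Module

universe u v

variable {k : Type u} {K : Type v} [Field k] [Field K] [Algebra k K]
variable {W : Type v} [AddCommGroup W] [Module K W] [Module k W] [IsScalarTower k K W]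
variable {A : Type v} [AddCommGroup A] [Module K A] [Module k A] [IsScalarTower k K A]
variable {B : Type v} [AddCommGroup B] [Module K B] [Module k B] [IsScalarTower k K B]

variable [CurveG k K]

theorem sys_max {κ : Dv k K} (hκ : IsCanonical κ) [FiniteDimensional K A] {E1 : VB k K A}
    (hE1 : E1.Stable) {j : ℕ} (u : Place k K →₀ ((Fin j → K) →ₗ[K] A))
    (h0 : ((ext E1 (pw κ j) u).twist (-κ)).H0 = ⊥) (hm : 1 ≤ finrank K A)
    (ha : 0 ≤ (3 * gen k K - 3) * finrank K A - E1.deg - j)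
    {α σ τ : ℝ} (hα : 0 < α)
    (hσ : ((finrank K A : ℝ) + j) * σ = ((E1.deg : ℝ) + (2 * gen k K - 2) * j) +
      α * (E1.deg - (gen k K - 1) * finrank K A + gen k K * j))
    (hτ : τ = 2 * gen k K - 2 + α * gen k K - σ) (hτ0 : 0 < τ)
    (hc : (1 + ((finrank K A : ℝ) - 1) * ((3 * gen k K - 3) * finrank K A - E1.deg - j)) * τ <
      1 + α)
    {J0 : Submodule K (A × (Fin j → K))} (hJ0 : J0 ≠ ⊥)
    (hmax : ∀ J : Submodule K (A × (Fin j → K)), J ≠ ⊥ →
      ((((ext E1 (pw κ j) u).sub J).deg : ℝ) + α * vd (ext E1 (pw κ j) u).H0 J) / finrank K J ≤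
        ((((ext E1 (pw κ j) u).sub J0).deg : ℝ) + α * vd (ext E1 (pw κ j) u).H0 J0) /
          finrank K J0) :
    J0 = ⊤ ∧
      (ext E1 (pw κ j) u).h0 = E1.deg - (gen k K - 1) * finrank K A + gen k K * j := by
  classical
  have hn : finrank K (A × (Fin j → K)) = finrank K A + j := by
    rw [Module.finrank_prod, Module.finrank_fin_fun]
  have hdeg : (ext E1 (pw κ j) u).deg = E1.deg + j * (2 * gen k K - 2) := by
    rw [deg_ext, deg_pw, hκ.ddeg]
  have hh1 := le_h1_ext hκ E1 u
  have hrr := VB.rr (ext E1 (pw κ j) u)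
  rw [hn, hdeg] at hrr
  push_cast at hrr
  have hg2 := (CurveG.two_le (k := k) (K := K))
  -- real versions
  have hmR : (1 : ℝ) ≤ (finrank K A : ℝ) := by exact_mod_cast hm
  have hjR : (0 : ℝ) ≤ (j : ℝ) := Nat.cast_nonneg j
  have haR : (0 : ℝ) ≤ (3 * (gen k K : ℝ) - 3) * (finrank K A : ℝ) - (E1.deg : ℝ) - (j : ℝ) := by
    exact_mod_cast ha
  have hrrR : ((ext E1 (pw κ j) u).h0 : ℝ) = (E1.deg : ℝ) + (j : ℝ) * (2 * (gen k K : ℝ) - 2) -
      ((gen k K : ℝ) - 1) * ((finrank K A : ℝ) + (j : ℝ)) + ((ext E1 (pw κ j) u).h1 : ℝ) := by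
    exact_mod_cast hrr
  have hh1R : (j : ℝ) ≤ ((ext E1 (pw κ j) u).h1 : ℝ) := by exact_mod_cast hh1
  have hnpos : (0 : ℝ) < (finrank K A : ℝ) + (j : ℝ) := by linarith
  -- the slope
  obtain ⟨s, hs⟩ : ∃ s : ℝ, s = ((((ext E1 (pw κ j) u).sub J0).deg : ℝ) +
      α * vd (ext E1 (pw κ j) u).H0 J0) / finrank K J0 := ⟨_, rfl⟩
  have htop : (⊤ : Submodule K (A × (Fin j → K))) ≠ ⊥ := by
    intro h
    have h2 : finrank K (A × (Fin j → K)) = 0 := by
      rw [← finrank_top K (A × (Fin j → K)), h, finrank_bot]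
    omega
  have hT := hmax ⊤ htop
  rw [← hs, VB.deg_sub_top, vd_top, finrank_top, hn, hdeg] at hT
  have hT0 : (finrank k (ext E1 (pw κ j) u).H0 : ℝ) = ((ext E1 (pw κ j) u).h0 : ℝ) := by
    unfold VB.h0
    push_cast
    rfl
  rw [hT0] at hT
  push_cast at hT
  rw [div_le_iff₀ hnpos] at hT
  have hσs : σ ≤ s := by
    have h1 : α * ((E1.deg : ℝ) - ((gen k K : ℝ) - 1) * (finrank K A : ℝ) + (gen k K : ℝ) * (j : ℝ)) ≤
        α * ((ext E1 (pw κ j) u).h0 : ℝ) := by
      refine mul_le_mul_of_nonneg_left ?_ hα.le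
      rw [hrrR]
      linarith
    have h2 : ((finrank K A : ℝ) + (j : ℝ)) * σ ≤ ((finrank K A : ℝ) + (j : ℝ)) * s := by
      linarith
    exact le_of_mul_le_mul_left h2 hnpos
  have hτ1 : τ < 1 + α := by
    have h1 : 0 ≤ ((finrank K A : ℝ) - 1) *
        ((3 * (gen k K : ℝ) - 3) * (finrank K A : ℝ) - (E1.deg : ℝ) - (j : ℝ)) * τ :=
      mul_nonneg (mul_nonneg (by linarith) haR) hτ0.le
    linarith
  obtain ⟨P⟩ := (infinite_places (k := k) (K := K)).nonempty
  have hddeg : ((ddeg (κ - Finsupp.single P 1) : ℤ) : ℝ) = 2 * (gen k K : ℝ) - 3 := by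
    rw [ddeg_sub, ddeg_single, hκ.ddeg]
    push_cast
    ring
  have hlh0 : (((line (κ - Finsupp.single P 1)).h0 : ℤ) : ℝ) = (gen k K : ℝ) - 1 := by
    rw [hκ.h0_sub P]
    push_cast
    ring
  have hP : ∀ φ : J0 →ₗ[K] K, (∀ Q x, x ∈ ((ext E1 (pw κ j) u).sub J0).M Q →
      φ x ∈ (line (κ - Finsupp.single P 1)).M Q) → φ = 0 := by
    intro φ hφ
    refine no_map_of_max hα.le hJ0 hmax ?_ φ hφ
    rw [← hs, hddeg, hlh0]
    linarith
  obtain ⟨i, h, δ, hh, hir, hd1, hd2, hcase⟩ := sys_in hκ hE1 u h0 J0 hP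
  -- ranks
  have hr1 : 1 ≤ finrank K J0 := by
    rcases Nat.eq_zero_or_pos (finrank K J0) with hz | hz
    · exact absurd (Submodule.finrank_eq_zero.1 hz) hJ0
    · exact hz
  have hr2 : finrank K J0 ≤ finrank K A + j := by
    rw [← hn]
    exact Submodule.finrank_le J0
  have hvd : (((ext E1 (pw κ j) u).sub J0).h0 : ℤ) = vd (ext E1 (pw κ j) u).H0 J0 :=
    VB.h0_sub_eq _ J0
  have hrrJ := VB.rr ((ext E1 (pw κ j) u).sub J0)
  rw [hvd, ← hir, ← hh] at hrrJ
  have hrrJR : ((vd (ext E1 (pw κ j) u).H0 J0 : ℕ) : ℝ) =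
      (((ext E1 (pw κ j) u).sub J0).deg : ℝ) - ((gen k K : ℝ) - 1) * ((i : ℝ) + (h : ℝ)) +
        (h : ℝ) := by
    exact_mod_cast hrrJ
  have hrJ : (0 : ℝ) < (i : ℝ) + (h : ℝ) := by
    have : 0 < i + h := by omega
    exact_mod_cast this
  have hsr : s * ((i : ℝ) + (h : ℝ)) = (((ext E1 (pw κ j) u).sub J0).deg : ℝ) +
      α * vd (ext E1 (pw κ j) u).H0 J0 := by
    rw [hs, ← hir]
    push_cast
    rw [div_mul_cancel₀ _ hrJ.ne']
  rw [hrrJR] at hsr
  have hX : σ * ((i : ℝ) + (h : ℝ)) ≤ (((ext E1 (pw κ j) u).sub J0).deg : ℝ) +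
      α * ((((ext E1 (pw κ j) u).sub J0).deg : ℝ) - ((gen k K : ℝ) - 1) * ((i : ℝ) + (h : ℝ)) +
        (h : ℝ)) := by
    rw [← hsr]
    exact mul_le_mul_of_nonneg_right hσs hrJ.le
  have h3 : ((i : ℝ) = 0 ∧ (δ : ℝ) = 0) ∨ ((i : ℝ) = (finrank K A : ℝ) ∧ (δ : ℝ) = (E1.deg : ℝ)) ∨
      (1 ≤ (i : ℝ) ∧ (i : ℝ) + 1 ≤ (finrank K A : ℝ) ∧
        (finrank K A : ℝ) * (δ : ℝ) + 1 ≤ (i : ℝ) * (E1.deg : ℝ)) := by
    rcases hcase with ⟨c1, c2⟩ | ⟨c1, c2⟩ | ⟨c1, c2, c3⟩
    · left
      exact ⟨by exact_mod_cast c1, by exact_mod_cast c2⟩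
    · right; left
      exact ⟨by exact_mod_cast c1, by exact_mod_cast c2⟩
    · right; right
      have c2' : i + 1 ≤ finrank K A := c2
      have c3' : (finrank K A : ℤ) * δ + 1 ≤ i * E1.deg := c3
      exact ⟨by exact_mod_cast c1, by exact_mod_cast c2', by exact_mod_cast c3'⟩
  have hres := sys_num (g := (gen k K : ℝ)) (m := (finrank K A : ℝ)) (j := (j : ℝ))
    (a := (3 * (gen k K : ℝ) - 3) * (finrank K A : ℝ) - (E1.deg : ℝ) - (j : ℝ))
    (e1 := (E1.deg : ℝ)) (i := (i : ℝ)) (h := (h : ℝ)) (δ := (δ : ℝ))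
    (e := (((ext E1 (pw κ j) u).sub J0).deg : ℝ)) (α := α) (σ := σ) (τ := τ)
    (by linarith) hjR rfl haR hσ hτ hτ0 hc hmR (Nat.cast_nonneg i) (Nat.cast_nonneg h)
    (by have : 1 ≤ i + h := by omega
        exact_mod_cast this)
    (by have : i + h ≤ finrank K A + j := by omega
        exact_mod_cast this)
    (by exact_mod_cast hd1) (by exact_mod_cast hd2) h3 hX
  obtain ⟨hi, hhj⟩ := hres
  have hi' : i = finrank K A := by exact_mod_cast hi
  have hj' : h = j := by exact_mod_cast hhj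
  have hJtop : J0 = ⊤ := by
    refine Submodule.eq_top_of_finrank_eq ?_
    rw [hn, ← hir, hi', hj']
  refine ⟨hJtop, ?_⟩
  have hE1' : (ext E1 (pw κ j) u).h1 = j := by
    rw [← VB.h1_sub_top, ← hJtop, ← hh, hj']
  rw [hrr, hE1']
  ring

end Pool.Agent.MP_09eaec.GG
end

section

/-!
# TASK Sys: `α`-stability of the extension

`E = ext E1 (pw κ j) u`, `V = E.H0`. Let `J0` be a subspace of maximal slope (`exists_max_slope`; `A × (Fin j → K)` is
nontrivial since `finrank K A ≥ 1`). `sys_max`: `J0 = ⊤` and the value of `E.h0`.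
`StableSys`: let `J ≠ ⊥, ⊤`. If the slope of `J` is `≥` the slope of `⊤` then `J` is also of maximal slope
(transitivity), so `J = ⊤` by `sys_max`, a contradiction. (`vd V J` is by definition `finrank k (V ⊓ J)`,
`finrank k E.H0 = vd E.H0 ⊤` by `vd_top`, `deg_sub_top`, `finrank_top`.)
-/

set_option autoImplicit false

namespace Pool.Agent.MP_09eaec.GG

open Module

universe u v

variable {k : Type u} {K : Type v} [Field k] [Field K] [Algebra k K]
variable {W : Type v} [AddCommGroup W] [Module K W] [Module k W] [IsScalarTower k K W]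
variable {A : Type v} [AddCommGroup A] [Module K A] [Module k A] [IsScalarTower k K A]
variable {B : Type v} [AddCommGroup B] [Module K B] [Module k B] [IsScalarTower k K B]

variable [CurveG k K]

theorem sys_stable {κ : Dv k K} (hκ : IsCanonical κ) [FiniteDimensional K A] {E1 : VB k K A}
    (hE1 : E1.Stable) {j : ℕ} (u : Place k K →₀ ((Fin j → K) →ₗ[K] A))
    (h0 : ((ext E1 (pw κ j) u).twist (-κ)).H0 = ⊥) (hm : 1 ≤ finrank K A)
    (ha : 0 ≤ (3 * gen k K - 3) * finrank K A - E1.deg - j)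
    {α σ τ : ℝ} (hα : 0 < α)
    (hσ : ((finrank K A : ℝ) + j) * σ = ((E1.deg : ℝ) + (2 * gen k K - 2) * j) +
      α * (E1.deg - (gen k K - 1) * finrank K A + gen k K * j))
    (hτ : τ = 2 * gen k K - 2 + α * gen k K - σ) (hτ0 : 0 < τ)
    (hc : (1 + ((finrank K A : ℝ) - 1) * ((3 * gen k K - 3) * finrank K A - E1.deg - j)) * τ <
      1 + α) :
    (ext E1 (pw κ j) u).h0 = E1.deg - (gen k K - 1) * finrank K A + gen k K * j ∧
      (ext E1 (pw κ j) u).StableSys α (ext E1 (pw κ j) u).H0 := by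
  have : FiniteDimensional K (A × (Fin j → K)) := inferInstance
  have hA : Nontrivial A := Module.nontrivial_of_finrank_pos (R := K) (by omega)
  have : Nontrivial (A × (Fin j → K)) := inferInstance
  obtain ⟨J0, hJ0, hmax⟩ := exists_max_slope (ext E1 (pw κ j) u)
    (V := (ext E1 (pw κ j) u).H0) le_rfl α
  obtain ⟨htop, hh0⟩ := sys_max hκ hE1 u h0 hm ha hα hσ hτ hτ0 hc hJ0 hmax
  refine ⟨hh0, ?_⟩
  intro J hJ hJt
  by_contra hcon
  push Not at hcon
  subst htop
  have hmax' : ∀ J' : Submodule K (A × (Fin j → K)), J' ≠ ⊥ →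
      ((((ext E1 (pw κ j) u).sub J').deg : ℝ) + α * vd (ext E1 (pw κ j) u).H0 J') /
        finrank K J' ≤
        ((((ext E1 (pw κ j) u).sub J).deg : ℝ) + α * vd (ext E1 (pw κ j) u).H0 J) /
          finrank K J := by
    intro J' hJ'
    refine (hmax J' hJ').trans ?_
    rw [VB.deg_sub_top, vd_top, finrank_top]
    exact hcon
  exact hJt (sys_max hκ hE1 u h0 hm ha hα hσ hτ hτ0 hc hJ hmax').1

end Pool.Agent.MP_09eaec.GG
end

section

/-!
# TASK DsBasic: direct sums of line bundles

* `deg_ds`: induction on `n` with `deg_exact` as in `deg_pw` (GG/Pw.lean).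
* `le_h0_ds`: the map `∏ (line (D i)).H0 → (ds D).H0` is injective (compare `le_h0_pw` in HY/ExtLow, `h0_pw` in HE/ModPw).
* `ds_sub_le`: induction on `n`. `J ≤ Fin (n+1) → K`; `J0 = {x ∈ J | x (last) = 0}`, `J / J0` embeds into `line (D last)`:
  `ker_bounds_sub` (GG/KerSub) or `deg_exact_le`.
* `h0_single_sub`: `f` a section of `line (single P 1 - single Q 1)`, `P ≠ Q`: if `f ≠ 0` then `f` has no pole outside `P`,
  a zero at `Q`, so it is not constant, and `P.ord f = -1`: `no_degree_one` (GG/IntT) (degree of `dv f` is zero).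
-/

set_option autoImplicit false

namespace Pool.Agent.MP_09eaec.GG.G3

open Module

universe u v

variable {k : Type u} {K : Type v} [Field k] [Field K] [Algebra k K]
variable {W : Type v} [AddCommGroup W] [Module K W] [Module k W] [IsScalarTower k K W]
variable {A : Type v} [AddCommGroup A] [Module K A] [Module k A] [IsScalarTower k K A]
variable {B : Type v} [AddCommGroup B] [Module K B] [Module k B] [IsScalarTower k K B]

variable [CurveG k K]

private def DsBasic_I (n : ℕ) : (Fin n → K) →ₗ[K] (Fin (n + 1) → K) where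
  toFun x := Fin.cons 0 x
  map_add' x y := by
    funext i
    refine Fin.cases ?_ (fun i => ?_) i
    · simp
    · simp
  map_smul' c x := by
    funext i
    refine Fin.cases ?_ (fun i => ?_) i
    · simp
    · simp

theorem deg_ds {n : ℕ} (D : Fin n → Dv k K) : (ds D).deg = ∑ i, ddeg (D i) := by
  classical
  induction n with
  | zero =>
    rw [VB.deg_of_finrank_zero _ (by simp)]
    simp
  | succ n ih =>
    rw [VB.deg_exact (ds D) (ds (fun i => D i.succ)) (line (D 0)) (DsBasic_I n)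
      (LinearMap.proj 0), ih, VB.deg_line, Fin.sum_univ_succ]
    · ring
    · intro x y h
      funext i
      exact congrFun h i.succ
    · intro y
      exact ⟨fun _ => y, rfl⟩
    · ext x
      rw [LinearMap.mem_range, LinearMap.mem_ker]
      constructor
      · rintro ⟨y, rfl⟩
        rfl
      · intro h
        refine ⟨fun i => x i.succ, ?_⟩
        funext i
        refine Fin.cases ?_ (fun i => ?_) i
        · exact h.symm
        · rfl
    · intro P x
      rw [mem_ds, mem_ds]
      constructor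
      · intro h i
        exact h i.succ
      · intro h i
        refine Fin.cases ?_ (fun i => ?_) i
        · exact zero_mem _
        · exact h i
    · intro P y
      rw [mem_line]
      constructor
      · intro h
        refine ⟨Pi.single 0 y, mem_ds.2 fun i => ?_, ?_⟩
        · by_cases hi : i = 0
          · subst hi
            rw [Pi.single_eq_same]
            exact h
          · rw [Pi.single_eq_of_ne hi]
            exact zero_mem _
        · rw [LinearMap.proj_apply, Pi.single_eq_same]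
      · rintro ⟨x, hx, rfl⟩
        exact mem_ds.1 hx 0

theorem le_h0_ds {n : ℕ} (D : Fin n → Dv k K) : ∑ i, (line (D i)).h0 ≤ (ds D).h0 := by
  let f : ((i : Fin n) → (line (D i)).H0) →ₗ[k] (ds D).H0 :=
    { toFun := fun s => ⟨fun i => (s i : K), VB.mem_H0.2 fun P => mem_ds.2 fun i =>
        mem_line.1 (VB.mem_H0.1 (s i).2 P)⟩
      map_add' := fun _ _ => rfl
      map_smul' := fun _ _ => rfl }
  have hf : Function.Injective f := by
    intro s t h
    funext i
    apply Subtype.ext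
    exact congrFun (congrArg Subtype.val h) i
  have h1 := LinearMap.finrank_le_finrank_of_injective hf
  rw [Module.finrank_pi_fintype] at h1
  unfold VB.h0
  exact_mod_cast h1

theorem ds_sub_le {n : ℕ} {D : Fin n → Dv k K} {e : ℤ} (he : ∀ i, ddeg (D i) = e)
    (J : Submodule K (Fin n → K)) : ((ds D).sub J).deg ≤ finrank K J * e := by
  obtain ⟨w, hw⟩ : ∃ w, finrank K J = w := ⟨_, rfl⟩
  obtain ⟨a, f, ha, hf⟩ := exists_coords J hw
  have h1 : ((ds D).sub J).map f ≤ ds (fun i => D (a i)) := by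
    intro P y hy
    rw [VB.mem_map] at hy
    rw [mem_ds]
    intro i
    have h2 := VB.mem_sub.1 hy
    have h3 : y i = (f.symm y : Fin n → K) (a i) := by
      rw [← hf, f.apply_symm_apply]
    rw [h3]
    exact mem_ds.1 h2 (a i)
  have h2 := VB.deg_le_of_le h1
  rw [VB.deg_map, deg_ds] at h2
  simp only [he, Finset.sum_const, Finset.card_univ, Fintype.card_fin, nsmul_eq_mul] at h2
  rw [hw]
  exact h2

theorem h0_single_sub (hg : 1 ≤ gen k K) {P Q : Place k K} (hPQ : P ≠ Q) :
    (line (Finsupp.single P 1 - Finsupp.single Q 1) : VB k K K).H0 = ⊥ := by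
  classical
  rw [eq_bot_iff]
  intro f hf
  rw [Submodule.mem_bot]
  by_contra hf0
  have h1 : ∀ R : Place k K, -((Finsupp.single P 1 - Finsupp.single Q 1 : Dv k K) R) ≤ R.ord f := by
    intro R
    exact (mem_line.1 (VB.mem_H0.1 hf R)).resolve_left hf0
  have h2 : ∀ R, R ≠ P → 0 ≤ R.ord f := by
    intro R hR
    have := h1 R
    rw [Finsupp.sub_apply, Finsupp.single_eq_of_ne hR, Finsupp.single_apply] at this
    split_ifs at this <;> omega
  have h3 : -1 ≤ P.ord f := by
    have := h1 P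
    rw [Finsupp.sub_apply, Finsupp.single_eq_same, Finsupp.single_apply] at this
    split_ifs at this <;> omega
  have h4 : 1 ≤ Q.ord f := by
    have := h1 Q
    rw [Finsupp.sub_apply, Finsupp.single_eq_of_ne (Ne.symm hPQ), Finsupp.single_eq_same] at this
    omega
  have h5 := no_degree_one hf0 h2
  have h6 : 0 ≤ P.ord f := by omega
  have h7 : ddeg (Finsupp.single Q 1 : Dv k K) ≤ ddeg (dv f : Dv k K) := by
    apply ddeg_mono
    intro R
    rw [dv_apply, Finsupp.single_apply]
    split_ifs with hR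
    · subst hR
      exact h4
    · by_cases hRP : R = P
      · rw [hRP]; exact h6
      · exact h2 R hRP
  rw [ddeg_single, ddeg_dv] at h7
  omega

end Pool.Agent.MP_09eaec.GG.G3
end

section

/-!
# TASK DsCoord: subspaces of maximal degree are coordinate subspaces

Induction on `n`. `J ≤ Fin (n+1) → K` with `((ds D).sub J).deg = e * finrank J` (`ds_sub_le` gives `≤` for every subspace).
Let `l` be the last coordinate, `J0 = {x ∈ J | x l = 0}`.
 * `J0 = J`: apply the induction to `J0` as a subspace of `Fin n → K`.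
 * otherwise `finrank J0 = finrank J - 1`, `deg J ≤ deg J0 + e` (`ker_bounds_sub`), so `deg J0 = e * finrank J0` and `J0` is a
   coordinate subspace `{x | x l = 0, x i = 0 for i ∉ I}` by induction. Let `y ∈ J` with `y l = 1`; we may assume `y i = 0`
   for `i ∈ I` (subtract an element of `J0`), and then `y` is unique. For `P` and `c ∈ (line (D l)).M P` the element `c • y`
   differs from an element of `(ds D).M P ∩ J` by an element of `J0` (the map `J / J0 → line (D l)` is onto, by degrees: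
   `eq_of_le_of_deg_le` for the image in `line (D l)`), so `c * y i ∈ (line (D i)).M P` for `i ∉ I`. So multiplication by `y i`
   maps `line (D l)` to `line (D i)`, `y i ∈ (line (D i - D l)).H0 = ⊥` for `i ≠ l`, and `y = e_l`.
-/

set_option autoImplicit false

namespace Pool.Agent.MP_09eaec.GG.G3

open Module

universe u v

variable {k : Type u} {K : Type v} [Field k] [Field K] [Algebra k K]
variable {W : Type v} [AddCommGroup W] [Module K W] [Module k W] [IsScalarTower k K W]
variable {A : Type v} [AddCommGroup A] [Module K A] [Module k A] [IsScalarTower k K A]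
variable {B : Type v} [AddCommGroup B] [Module K B] [Module k B] [IsScalarTower k K B]

variable [CurveG k K]

private theorem DsCoord_onto [FiniteDimensional K W] (E : VB k K W) (S : Submodule K W)
    {D : Dv k K} {φ : W →ₗ[K] K} (hφ : ¬ S ≤ LinearMap.ker φ)
    (h : ∀ P, ∀ x ∈ S, x ∈ E.M P → φ x ∈ (line D).M P)
    (hd : (E.sub (S ⊓ LinearMap.ker φ)).deg + ddeg D ≤ (E.sub S).deg) (P : Place k K) {c : K}
    (hc : c ∈ (line D).M P) : ∃ x ∈ S, x ∈ E.M P ∧ φ x = c := by
  set ψ : S →ₗ[K] K := φ ∘ₗ S.subtype with hψ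
  have hψ0 : ψ ≠ 0 := by
    intro h0
    apply hφ
    intro x hx
    have h1 : ψ ⟨x, hx⟩ = 0 := by rw [h0, LinearMap.zero_apply]
    exact h1
  have hsurj : Function.Surjective ψ := LinearMap.surjective hψ0
  have hT : (LinearMap.ker ψ).map S.subtype = S ⊓ LinearMap.ker φ := by
    rw [hψ, LinearMap.ker_comp]
    exact Submodule.map_comap_subtype S (LinearMap.ker φ)
  let e : (S ⧸ LinearMap.ker ψ) ≃ₗ[K] K := ψ.quotKerEquivOfSurjective hsurj
  let G : VB k K K := ((E.sub S).quo (LinearMap.ker ψ)).map e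
  have hG : ∀ (Q : Place k K) (y : K), y ∈ G.M Q ↔ ∃ x ∈ (E.sub S).M Q, ψ x = y := by
    intro Q y
    constructor
    · rintro ⟨z, ⟨x, hx, rfl⟩, rfl⟩
      exact ⟨x, hx, rfl⟩
    · rintro ⟨x, hx, rfl⟩
      exact ⟨_, ⟨x, hx, rfl⟩, rfl⟩
  have hle : G ≤ line D := by
    intro Q y hy
    obtain ⟨x, hx, rfl⟩ := (hG Q y).1 hy
    exact h Q x x.2 hx
  have h1 := VB.deg_add (E.sub S) (LinearMap.ker ψ)
  rw [VB.deg_sub_sub, hT] at h1
  have h2 : G.deg = ((E.sub S).quo (LinearMap.ker ψ)).deg := VB.deg_map _ _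
  have h3 : G = line D := VB.eq_of_le_of_deg_le hle (by rw [VB.deg_line]; omega)
  have h4 : c ∈ G.M P := by rw [h3]; exact hc
  obtain ⟨x, hx, hxc⟩ := (hG P c).1 h4
  exact ⟨x, x.2, hx, hxc⟩

private theorem DsCoord_aux {n : ℕ} {D : Fin n → Dv k K} {e : ℤ} (he : ∀ i, ddeg (D i) = e)
    (hD : ∀ i j, i ≠ j → (line (D i - D j) : VB k K K).H0 = ⊥) (S : Finset (Fin n)) :
    ∀ J : Submodule K (Fin n → K), (∀ x ∈ J, ∀ i, i ∉ S → x i = 0) →
      ((ds D).sub J).deg = finrank K J * e →
      ∃ I : Finset (Fin n), ∀ x, x ∈ J ↔ ∀ i, i ∉ I → x i = 0 := by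
  classical
  induction S using Finset.induction_on with
  | empty =>
    intro J hJ0 _
    refine ⟨∅, fun x => ⟨fun hx i _ => hJ0 x hx i (Finset.notMem_empty i), fun hx => ?_⟩⟩
    have : x = 0 := funext fun i => hx i (Finset.notMem_empty i)
    rw [this]; exact zero_mem _
  | insert l S hl ih =>
    intro J hJS hJ
    let φ : (Fin n → K) →ₗ[K] K := LinearMap.proj l
    by_cases hle : J ≤ LinearMap.ker φ
    · refine ih J (fun x hx i hi => ?_) hJ
      by_cases hil : i = l
      · subst hil; exact LinearMap.mem_ker.1 (hle hx)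
      · exact hJS x hx i (fun hmem => by
          rcases Finset.mem_insert.1 hmem with h | h
          · exact hil h
          · exact hi h)
    · have hmem : ∀ P, ∀ x ∈ J, x ∈ (ds D).M P → φ x ∈ (line (D l)).M P := fun P x _ hx => hx l
      obtain ⟨h1, h2, -⟩ := ker_bounds_sub (ds D) J (D := D l) (φ := φ) hle hmem
      have h3 := ds_sub_le he (J ⊓ LinearMap.ker φ)
      rw [hJ, he] at h1
      have h4 : (finrank K J : ℤ) = finrank K ↥(J ⊓ LinearMap.ker φ) + 1 := by
        exact_mod_cast h2.symm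
      rw [h4] at h1
      have h5 : ((ds D).sub (J ⊓ LinearMap.ker φ)).deg =
          finrank K ↥(J ⊓ LinearMap.ker φ) * e := by
        refine le_antisymm h3 ?_
        linarith
      obtain ⟨I0, hI0⟩ := ih (J ⊓ LinearMap.ker φ) (fun x hx i hi => by
        by_cases hil : i = l
        · subst hil; exact LinearMap.mem_ker.1 hx.2
        · exact hJS x hx.1 i (fun hm => by
            rcases Finset.mem_insert.1 hm with h | h
            · exact hil h
            · exact hi h)) h5
      have hlI : l ∉ I0 := by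
        intro hm
        have h6 : (Pi.single l 1 : Fin n → K) ∈ J ⊓ LinearMap.ker φ := by
          rw [hI0]
          intro i hi
          have : i ≠ l := fun h => hi (h ▸ hm)
          simp [this]
        have h7 : φ (Pi.single l 1 : Fin n → K) = 0 := LinearMap.mem_ker.1 h6.2
        have h8 : φ (Pi.single l 1 : Fin n → K) = 1 := by
          show (Pi.single l 1 : Fin n → K) l = 1
          simp
        rw [h8] at h7
        exact one_ne_zero h7
      have honto : ∀ (P : Place k K) (c : K), c ∈ (line (D l)).M P →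
          ∃ x ∈ J, x ∈ (ds D).M P ∧ φ x = c := fun P c hc =>
        DsCoord_onto (ds D) J hle hmem (by rw [h5, hJ, he, h4]; linarith) P hc
      obtain ⟨y0, hy0, hy0l⟩ : ∃ y ∈ J, y l ≠ 0 := by
        by_contra hcon
        push Not at hcon
        exact hle fun x hx => LinearMap.mem_ker.2 (hcon x hx)
      let y : Fin n → K := fun i => if i ∈ I0 then 0 else (y0 l)⁻¹ * y0 i
      have hyl : y l = 1 := by
        simp only [y, if_neg hlI]
        exact inv_mul_cancel₀ hy0l
      have hyI : ∀ i ∈ I0, y i = 0 := fun i hi => by simp only [y, if_pos hi]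
      have hyJ : y ∈ J := by
        have h6 : (y0 l)⁻¹ • y0 - y ∈ J ⊓ LinearMap.ker φ := by
          rw [hI0]
          intro i hi
          simp only [Pi.sub_apply, Pi.smul_apply, smul_eq_mul, y, if_neg hi, sub_self]
        have h7 : y = (y0 l)⁻¹ • y0 - ((y0 l)⁻¹ • y0 - y) := by abel
        rw [h7]
        exact sub_mem (J.smul_mem _ hy0) h6.1
      have hdiff : ∀ x ∈ J, ∀ i, i ∉ I0 → x i = x l * y i := by
        intro x hx i hi
        have h6 : x - x l • y ∈ J ⊓ LinearMap.ker φ := by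
          refine ⟨sub_mem hx (J.smul_mem _ hyJ), LinearMap.mem_ker.2 ?_⟩
          show x l - x l * y l = 0
          rw [hyl]; ring
        have h7 := (hI0 _).1 h6 i hi
        simp only [Pi.sub_apply, Pi.smul_apply, smul_eq_mul] at h7
        linear_combination h7
      have hyz : ∀ i, i ≠ l → y i = 0 := by
        intro i hil
        by_cases hi : i ∈ I0
        · exact hyI i hi
        have h6 : y i ∈ (line (D i - D l) : VB k K K).H0 := by
          rw [VB.mem_H0]
          intro P
          obtain ⟨t, ht, htm⟩ := exists_ord_eq P (-(D l) P)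
          obtain ⟨x, hxJ, hxP, hxt⟩ := honto P t (show t ∈ P.filt (-(D l) P) from Or.inr htm.ge)
          have h7 : x i = t * y i := by
            rw [hdiff x hxJ i hi]
            have : x l = t := hxt
            rw [this]
          have h8 : t * y i ∈ P.filt (-(D i) P) := by rw [← h7]; exact hxP i
          show y i ∈ P.filt (-(D i - D l) P)
          have h9 : (-(D i) P) = (-(D i) P + (D l) P) + (-(D l) P) := by ring
          rw [h9] at h8
          have h10 := (mem_filt_iff_of_ord P ht htm _).1 h8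
          have h11 : (-(D i - D l) P) = -(D i) P + (D l) P := by
            rw [Finsupp.sub_apply]; ring
          rw [h11]
          exact h10
        rw [hD i l hil] at h6
        exact (Submodule.mem_bot k).1 h6
      refine ⟨insert l I0, fun x => ⟨fun hx i hi => ?_, fun hx => ?_⟩⟩
      · have hil : i ≠ l := fun h => hi (Finset.mem_insert.2 (Or.inl h))
        have hiI : i ∉ I0 := fun h => hi (Finset.mem_insert.2 (Or.inr h))
        rw [hdiff x hx i hiI, hyz i hil, mul_zero]
      · have h6 : x - x l • y ∈ J ⊓ LinearMap.ker φ := by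
          rw [hI0]
          intro i hi
          simp only [Pi.sub_apply, Pi.smul_apply, smul_eq_mul]
          by_cases hil : i = l
          · subst hil; rw [hyl]; ring
          · rw [hyz i hil, hx i (fun h => by
              rcases Finset.mem_insert.1 h with h | h
              · exact hil h
              · exact hi h)]
            ring
        have h7 : x = (x - x l • y) + x l • y := by abel
        rw [h7]
        exact add_mem h6.1 (J.smul_mem _ hyJ)

theorem ds_coord {n : ℕ} {D : Fin n → Dv k K} {e : ℤ} (he : ∀ i, ddeg (D i) = e)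
    (hD : ∀ i j, i ≠ j → (line (D i - D j) : VB k K K).H0 = ⊥) {J : Submodule K (Fin n → K)}
    (hJ : ((ds D).sub J).deg = finrank K J * e) :
    ∃ I : Finset (Fin n), ∀ x, x ∈ J ↔ ∀ i, i ∉ I → x i = 0 :=
  DsCoord_aux he hD Finset.univ J (fun _ _ i hi => absurd (Finset.mem_univ i) hi) hJ

end Pool.Agent.MP_09eaec.GG.G3
end
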