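import Pool.Agent.Lib.MP_09eaec_ag.Mg.G002
import Pool.Agent.Lib.MP_09eaec_ag.Mg.G004
import Pool.Agent.Lib.MP_09eaec_ag.Mg.G013
import Pool.Agent.Lib.MP_09eaec_ag.Mg.G012
import Pool.Agent.Lib.MP_09eaec_ag.Mg.G011
import Pool.Agent.Lib.MP_09eaec_ag.Mg.G001
import Pool.Agent.Lib.MP_09eaec_ag.Mg.G008
import Pool.Agent.Lib.MP_09eaec_ag.Mg.G009
import Pool.Agent.Lib.MP_09eaec_ag.Mg.G018

section

/-!
# TASK B5: the last extension for non integral slopes

`X` of type `(n, δ)` with `r δ - d n = -1`, `F` of type `(c, e)`, `1 ≤ c < r`, `r e - d c = 1`,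
`e0(ρ, σ) = r σ - d ρ`. `Z = ext X F u` has `e0(Z) = 0`.
CONDITIONS on `u`: `¬ Null X J (F.sub ⊤) u` for `J ∈ X.exc r d` and `J = ⊥`. Admissible: let `(ρ, σ)` be the
type of `X.quo J`, `ε = e0(ρ, σ) ∈ {0, -1}`; `r (c σ - ρ e) = c (d ρ + ε) - ρ (1 + d c) = c ε - ρ < 0`, so
`c σ - ρ e < 0 < c ρ`.
For a proper subspace `L ≠ ⊥` of the generic fibre of `F`, type `(ρ, σ)`: `c σ - e ρ ≤ -1`, `ρ < c < r`, and
`c e0(ρ, σ) = r (c σ - e ρ) + ρ ≤ -r + ρ < 0`, so `e0 ≤ -1`.
For `J ≤ A × B`, `J ≠ ⊥, ⊤` (`JA, JB, F', t` as in TASK B3): `e0(Z.sub J) = e0(X.sub JA) + e0(F.sub JB) - r t`.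
 * `JA = ⊥`: `JB ≠ ⊥`; `JB = ⊤`, `t = 0` is excluded; `JB = ⊤`, `t ≥ 1`: `1 - r t ≤ -1`; `JB` proper: `≤ -1`.
 * `JA ≠ ⊥`: `e0(X.sub JA) ≤ -1`; the sum is `≤ 0`, and `= 0` only if `e0(X.sub JA) = -1`, `JB = ⊤`, `t = 0`: then
   `JA ∈ X.exc r d` is excluded, `JA = ⊤` means `J = ⊤`.
So `e0(Z.sub J) ≤ -1`: `r (Z.sub J).deg < d finrank J`; with `m = n + c`, `r (δ + e) = d m`, this gives
`m (Z.sub J).deg < finrank J (δ + e)` (multiply by `m`, cancel `r > 0`), i.e. `Z.Stable`.
Transport by `exists_transport`.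
-/

set_option autoImplicit false

namespace Pool.Agent.MP_09eaec.GG

open Module

universe u v

variable {k : Type u} {K : Type v} [Field k] [Field K] [Algebra k K]
variable {W : Type v} [AddCommGroup W] [Module K W] [Module k W] [IsScalarTower k K W]
variable {A : Type v} [AddCommGroup A] [Module K A] [Module k A] [IsScalarTower k K A]
variable {B : Type v} [AddCommGroup B] [Module K B] [Module k B] [IsScalarTower k K B]

variable [CurveG k K]

theorem final_step {r n c : ℕ} {d δ e : ℤ} (hc : 1 ≤ c) (hcr : c < r) (hn : 1 ≤ n)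
    (hX : HasX k K r d n δ) (he : (r : ℤ) * δ - d * n = -1) (hF : Q k K c e)
    (hFe : (r : ℤ) * e - d * c = 1) :
    ∃ Z : VB k K (Fin (n + c) → K), Z.deg = δ + e ∧ Z.Stable ∧ (0 ≤ d → d ≤ r → Z.H0 = ⊥) := by
  classical
  obtain ⟨X, hXd, hXneg, hXfin, hX0⟩ := hX
  obtain ⟨F, hFd, hFq, -, hF0⟩ := hF
  have hr0 : (0 : ℤ) < r := by omega
  have hr2 : (2 : ℤ) ≤ r := by omega
  have hc0 : (0 : ℤ) < c := by omega
  have hn0 : (0 : ℤ) < n := by omega
  have hcr' : (c : ℤ) < r := by omega
  have hfA : (finrank K (Fin n → K) : ℤ) = n := by simp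
  have hfB : (finrank K (Fin c → K) : ℤ) = c := by simp
  -- the index type
  have hfin : (X.exc r d ∪ {⊥}).Finite := hXfin.union (Set.finite_singleton _)
  haveI : Finite ↥(X.exc r d ∪ {⊥}) := hfin.to_subtype
  obtain ⟨u, hu⟩ := exists_generic X (fun i : ↥(X.exc r d ∪ {⊥}) => i.1)
    (fun _ => (⊤ : Submodule K (Fin c → K))) (fun _ => F.sub ⊤) (by
      rintro ⟨J, hJ⟩
      apply N_hom_ne_top
      have h1 : (finrank K (⊤ : Submodule K (Fin c → K)) : ℤ) = c := by
        rw [finrank_top]; exact hfB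
      have h2 : (F.sub ⊤).deg = e := by rw [VB.deg_sub_top, hFd]
      have h3 := VB.deg_add X J
      have h4 : (finrank K ((Fin n → K) ⧸ J) : ℤ) + finrank K J = n := by
        rw [← hfA]
        exact_mod_cast J.finrank_quotient_add_finrank
      have h6 : (0 : ℤ) ≤ finrank K J := by positivity
      rw [h1, h2]
      simp only
      rcases hJ with hJ | hJ
      · obtain ⟨hJb, hJt, hJe⟩ := hJ
        have h5 : 0 < finrank K ((Fin n → K) ⧸ J) := by
          rw [finrank_pos_iff]
          exact Submodule.Quotient.nontrivial_iff.2 hJt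
        have h5' : (0 : ℤ) < finrank K ((Fin n → K) ⧸ J) := by exact_mod_cast h5
        have h7 : (r : ℤ) * ((c : ℤ) * (X.quo J).deg - finrank K ((Fin n → K) ⧸ J) * e) =
            - finrank K ((Fin n → K) ⧸ J) := by
          have h8 : (r : ℤ) * (X.quo J).deg = d * finrank K ((Fin n → K) ⧸ J) := by
            have : (X.quo J).deg = δ - (X.sub J).deg := by omega
            rw [this]
            have h9 : (finrank K ((Fin n → K) ⧸ J) : ℤ) = n - finrank K J := by omega
            rw [h9]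
            linear_combination he - hJe
          linear_combination (c : ℤ) * h8 - (finrank K ((Fin n → K) ⧸ J) : ℤ) * hFe
        nlinarith [mul_pos hc0 h5']
      · have hJ' : J = ⊥ := hJ
        have h6' : (finrank K J : ℤ) = 0 := by
          rw [hJ', finrank_bot]; rfl
        have h7' : (X.sub J).deg = 0 := by rw [hJ', VB.deg_sub_bot]
        have h9 : (finrank K ((Fin n → K) ⧸ J) : ℤ) = n := by omega
        have h10 : (X.quo J).deg = δ := by omega
        rw [h9, h10]
        have h7 : (r : ℤ) * ((c : ℤ) * δ - n * e) = - c - n := by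
          linear_combination (c : ℤ) * he - (n : ℤ) * hFe
        nlinarith [mul_pos hc0 hn0])
  have hnull : ∀ J : Submodule K (Fin n → K), J ∈ X.exc r d ∨ J = ⊥ → ¬ Null X J (F.sub ⊤) u := by
    intro J hJ
    exact hu ⟨J, hJ⟩
  -- the values of e0 on the subbundles of `F`
  have hFtop : ∀ L : Submodule K (Fin c → K), L = ⊤ → (F.sub L).deg = e := by
    rintro _ rfl
    rw [VB.deg_sub_top, hFd]
  have hFbot : ∀ L : Submodule K (Fin c → K), L = ⊥ → (F.sub L).deg = 0 := by
    rintro _ rfl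
    rw [VB.deg_sub_bot]
  have hXbot : ∀ L : Submodule K (Fin n → K), L = ⊥ → (X.sub L).deg = 0 := by
    rintro _ rfl
    rw [VB.deg_sub_bot]
  have hFprop : ∀ L : Submodule K (Fin c → K), L ≠ ⊥ → L ≠ ⊤ →
      (r : ℤ) * (F.sub L).deg - d * finrank K L ≤ -1 := by
    intro L hb ht
    have h1 := hFq L hb ht
    have h2 : (finrank K L : ℤ) < c := by
      rw [← hfB]
      exact_mod_cast Submodule.finrank_lt ht
    by_contra h3
    have h3' : 0 ≤ (r : ℤ) * (F.sub L).deg - d * finrank K L := by omega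
    have h4 : (c : ℤ) * ((r : ℤ) * (F.sub L).deg - d * finrank K L) =
        r * (c * (F.sub L).deg - e * finrank K L) + finrank K L := by
      linear_combination (finrank K L : ℤ) * hFe
    have h5 := mul_nonneg hc0.le h3'
    nlinarith
  have hNullTop : ∀ (JA : Submodule K (Fin n → K)) (L : Submodule K (Fin c → K)), L = ⊤ →
      Null X JA (F.sub L) u → Null X JA (F.sub ⊤) u := by
    rintro JA _ rfl h
    exact h
  have hrank : finrank K ((Fin n → K) × (Fin c → K)) = n + c := by simp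
  have hkey : ∀ J : Submodule K ((Fin n → K) × (Fin c → K)), J ≠ ⊥ → J ≠ ⊤ →
      (r : ℤ) * ((ext X F u).sub J).deg - d * finrank K J ≤ -1 := by
    intro J hJb hJt
    obtain ⟨F', hle, hdeg, hN⟩ := ext_sub X F u J
    have hfr := finrank_ext_sub (K := K) J
    have ht0 : F'.deg ≤ (F.sub (J.map (LinearMap.snd K (Fin n → K) (Fin c → K)))).deg :=
      VB.deg_le_of_le hle
    have hfr' : (finrank K J : ℤ) = finrank K (J.comap (LinearMap.inl K (Fin n → K) (Fin c → K))) +
        finrank K (J.map (LinearMap.snd K (Fin n → K) (Fin c → K))) := by exact_mod_cast hfr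
    have heq : (F.sub (J.map (LinearMap.snd K (Fin n → K) (Fin c → K)))).deg ≤ F'.deg →
        Null X (J.comap (LinearMap.inl K (Fin n → K) (Fin c → K)))
          (F.sub (J.map (LinearMap.snd K (Fin n → K) (Fin c → K)))) u := by
      intro h
      rw [← VB.eq_of_le_of_deg_le hle h]
      exact hN
    have hbot := eq_bot_of (K := K) (J := J)
    have htop := eq_top_of (K := K) (J := J)
    rw [hdeg, hfr']
    generalize J.comap (LinearMap.inl K (Fin n → K) (Fin c → K)) = JA at *
    revert F' ht0 heq hbot htop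
    generalize J.map (LinearMap.snd K (Fin n → K) (Fin c → K)) = JB at *
    intro F' hle ht0 hdeg hN heq hbot htop
    have hX1 : JA ≠ ⊥ → (r : ℤ) * (X.sub JA).deg - d * finrank K JA ≤ -1 := fun h => hXneg JA h
    have hrt : ∀ t : ℤ, 1 ≤ t → (r : ℤ) ≤ r * t := fun t ht => by nlinarith
    by_cases hA : JA = ⊥
    · have hA1 : (X.sub JA).deg = 0 := hXbot _ hA
      have hA2 : (finrank K JA : ℤ) = 0 := by rw [hA, finrank_bot]; rfl
      by_cases hB : JB = ⊥
      · exact absurd (hbot hA hB) hJb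
      · by_cases hB' : JB = ⊤
        · have hB1 := hFtop JB hB'
          have hB2 : (finrank K JB : ℤ) = c := by rw [hB', finrank_top]; exact hfB
          have h1 : ¬ (F.sub JB).deg ≤ F'.deg := by
            intro h
            exact hnull JA (Or.inr hA) (hNullTop JA JB hB' (heq h))
          have h2 := hrt ((F.sub JB).deg - F'.deg) (by omega)
          have h3 : (r : ℤ) * F'.deg = r * e - r * ((F.sub JB).deg - F'.deg) := by rw [hB1]; ring
          rw [hA1, hA2, hB2]
          nlinarith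
        · have h1 := hFprop JB hB hB'
          have h2 : (r : ℤ) * F'.deg ≤ r * (F.sub JB).deg := mul_le_mul_of_nonneg_left ht0 hr0.le
          rw [hA1, hA2]
          nlinarith
    · have h0 := hX1 hA
      by_cases hB : JB = ⊥
      · have hB1 := hFbot JB hB
        have hB2 : (finrank K JB : ℤ) = 0 := by rw [hB, finrank_bot]; rfl
        have h2 : (r : ℤ) * F'.deg ≤ r * (F.sub JB).deg := mul_le_mul_of_nonneg_left ht0 hr0.le
        rw [hB1] at h2
        rw [hB2]
        nlinarith
      · by_cases hB' : JB = ⊤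
        · have hB1 := hFtop JB hB'
          have hB2 : (finrank K JB : ℤ) = c := by rw [hB', finrank_top]; exact hfB
          by_cases h : (F.sub JB).deg ≤ F'.deg
          · have h4 : F'.deg = e := by rw [← hB1]; omega
            have h5 : (r : ℤ) * (X.sub JA).deg - d * finrank K JA ≠ -1 := by
              intro h6
              by_cases hAt : JA = ⊤
              · exact hJt (htop hAt hB')
              · exact hnull JA (Or.inl ⟨hA, hAt, h6⟩) (hNullTop JA JB hB' (heq h))
            have h7 : (r : ℤ) * (X.sub JA).deg - d * finrank K JA ≤ -2 := by omega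
            rw [h4, hB2]
            nlinarith
          · have h2 := hrt ((F.sub JB).deg - F'.deg) (by omega)
            have h3 : (r : ℤ) * F'.deg = r * e - r * ((F.sub JB).deg - F'.deg) := by rw [hB1]; ring
            rw [hB2]
            nlinarith
        · have h1 := hFprop JB hB hB'
          have h2 : (r : ℤ) * F'.deg ≤ r * (F.sub JB).deg := mul_le_mul_of_nonneg_left ht0 hr0.le
          nlinarith
  obtain ⟨Z, f, hZ, hZd, -, -, -, hZs⟩ := exists_transport (ext X F u) hrank
  refine ⟨Z, ?_, hZs ?_, fun e1 e2 => ?_⟩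
  · rw [hZd, deg_ext, hXd, hFd]
  · intro J hJb hJt
    have h1 := hkey J hJb hJt
    rw [hrank, deg_ext, hXd, hFd]
    have h2 : (r : ℤ) * (δ + e) = d * (n + c) := by linear_combination he + hFe
    have h3 : (0 : ℤ) < n + c := by omega
    have h4 : (r : ℤ) * (((n + c : ℕ) : ℤ) * ((ext X F u).sub J).deg) <
        r * (finrank K J * (δ + e)) := by
      push_cast
      have h5 : (r : ℤ) * (((n : ℤ) + c) * ((ext X F u).sub J).deg) =
          (n + c) * (r * ((ext X F u).sub J).deg - d * finrank K J) + r * (finrank K J * (δ + e)) := by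
        linear_combination (-(finrank K J : ℤ)) * h2
      rw [h5]
      nlinarith
    exact lt_of_mul_lt_mul_left h4 hr0.le
  · have h3 : 0 ≤ e := by
      by_contra hcon
      push Not at hcon
      nlinarith [mul_nonneg e1 hc0.le, mul_nonneg hr0.le (by omega : 0 ≤ -e)]
    have h4 : e ≤ c := by
      by_contra hcon
      push Not at hcon
      nlinarith [mul_le_mul_of_nonneg_right e2 hc0.le,
        mul_le_mul_of_nonneg_left (by omega : (c : ℤ) + 1 ≤ e) hr0.le]
    rw [hZ]
    exact H0_map_bot _ f (ext_H0_bot u (hX0 e1 e2) (hF0 h3 h4))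

end Pool.Agent.MP_09eaec.GG
end

section

/-!
# TASK B12: stable bundles of all ranks and degrees

* `Q_coprime`: strong induction on `r`: `r = 1`: `Q_one`; `r = 2`: `Q_two`; `r ≥ 3`: `exists_parents` and
  `coprime_step`.
* `stable_of_Q`: `r deg - d rank ≤ -1` for the proper subbundles is stability (`finrank K (Fin r → K) = r`).
* `stable_int`: rank `h ≥ 2`, degree `h d0`: `G` of degree `d0` (`exists_ddeg`), `X` from `int_chain G h`, a point
  `P0`, `w0` from `exists_generic_vector` for `S = X.exc 1 d0`, `Z` from `exists_oneStep`. `Z.deg = h d0`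
  (`deg_oneStep`). For `J ≠ ⊥, ⊤`: `deg_sub_oneStep`: if `(X.sub J).deg = d0 rank J - 1` then `J ∈ exc`, so
  the degree does not jump; otherwise `(X.sub J).deg ≤ d0 rank J - 2`. So `(Z.sub J).deg < d0 rank J`.
* `hasX_first`: `a e - c b = 1`, `r = a + c`, `d = b + e`: a bundle from `Q k K a b` gives `HasX k K r d a b`, with
  `exc = ∅` (`num_A`; for `J = ⊤` the value is `r b - d a = -1`).
* `hasX_chain`: from `hasX_first` and `chain_step`: `HasX k K r d (a + i r) (b + i d)` for all `i` (`r ≥ 2`).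
* `exists_stable`: let `h = gcd`, `r = h r0`, `d = h d0`. `r0 = 1`: `h = 1`: `Q_one`; `h ≥ 2`: `stable_int`.
  `r0 ≥ 2`, `h = 1`: `Q_coprime`. `r0 ≥ 2`, `h ≥ 2`: parents `(a, b), (c, e)` of `(r0, d0)`;
  `hasX_chain` with `i = h - 1`, then `final_step` with `(c, e)`: rank `a + (h-1) r0 + c = h r0`.
-/

set_option autoImplicit false

namespace Pool.Agent.MP_09eaec.GG

open Module

universe u v

variable {k : Type u} {K : Type v} [Field k] [Field K] [Algebra k K]
variable {W : Type v} [AddCommGroup W] [Module K W] [Module k W] [IsScalarTower k K W]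
variable {A : Type v} [AddCommGroup A] [Module K A] [Module k A] [IsScalarTower k K A]
variable {B : Type v} [AddCommGroup B] [Module K B] [Module k B] [IsScalarTower k K B]

variable [CurveG k K]

theorem Q_coprime {r : ℕ} {d : ℤ} (hr : 1 ≤ r) (h : IsCoprime (r : ℤ) d) : Q k K r d := by
  induction r using Nat.strong_induction_on generalizing d with
  | _ r ih =>
    rcases Nat.lt_or_ge r 3 with h3 | h3
    · interval_cases r
      · exact Q_one d
      · exact Q_two (by exact_mod_cast h)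
    · obtain ⟨a, c, b, e, ha, hc, hac, hbe, hdet, hab, hce⟩ := exists_parents (by omega) h
      subst hac
      subst hbe
      exact coprime_step ha hc h3 hdet (ih a (by omega) ha hab) (ih c (by omega) hc hce)

theorem stable_of_Q {r : ℕ} {d : ℤ} (h : Q k K r d) :
    ∃ E : VB k K (Fin r → K), E.deg = d ∧ E.Stable ∧ (0 ≤ d → d ≤ r → E.H0 = ⊥) := by
  obtain ⟨E, hd, hE, -, hE0⟩ := h
  refine ⟨E, hd, fun J h1 h2 => ?_, hE0⟩
  have h3 := hE J h1 h2
  rw [hd]
  have h4 : finrank K (Fin r → K) = r := by simp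
  rw [h4]
  linarith

theorem stable_int {h : ℕ} (hh : 2 ≤ h) (d0 : ℤ) :
    ∃ E : VB k K (Fin h → K), E.deg = h * d0 ∧ E.Stable := by
  obtain ⟨G, hG⟩ := exists_ddeg (k := k) (K := K) d0
  obtain ⟨X, q, G', hdeg, hneg, hfin, -, -, -⟩ := int_chain G (j := h) (by omega)
  rw [hG] at hdeg hneg hfin
  have := infinite_places (k := k) (K := K)
  obtain ⟨P0⟩ : Nonempty (Place k K) := inferInstance
  have : Nonempty (Fin h) := ⟨⟨0, by omega⟩⟩
  obtain ⟨w0, hw1, hw2, hw3⟩ := VB.exists_generic_vector X P0 hfin (fun J hJ => hJ.2.1)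
  obtain ⟨Z, hZ⟩ := VB.exists_oneStep X P0 w0 hw1 hw2
  have hZd : Z.deg = h * d0 := by
    rw [VB.deg_oneStep hZ, hdeg]; ring
  refine ⟨Z, hZd, fun J h1 h2 => ?_⟩
  have h3 : (Z.sub J).deg < d0 * finrank K J := by
    have h4 := hneg J h1
    rcases VB.deg_sub_oneStep hZ J with h5 | ⟨h5, j, hj, hj'⟩
    · rw [h5]; linarith
    · have h6 : J ∉ X.exc 1 d0 := fun h6 => hw3 J h6 j hj hj'
      have h7 : 1 * (X.sub J).deg - d0 * finrank K J ≠ -1 := fun h7 => h6 ⟨h1, h2, h7⟩
      have h8 : 1 * (X.sub J).deg - d0 * finrank K J ≤ -2 := by omega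
      rw [h5]; linarith
  rw [hZd]
  have h4 : finrank K (Fin h → K) = h := by simp
  rw [h4]
  have h5 : (0 : ℤ) < h := by exact_mod_cast (by omega : 0 < h)
  nlinarith

private lemma ExistsStable_rank {a : ℕ} {J : Submodule K (Fin a → K)} (h1 : J ≠ ⊥) (h2 : J ≠ ⊤) :
    (1 : ℤ) ≤ finrank K J ∧ (finrank K J : ℤ) < a := by
  have h3 : finrank K (Fin a → K) = a := by simp
  have h4 := Submodule.finrank_lt h2
  rw [h3] at h4
  have h5 : finrank K J ≠ 0 := fun h => h1 (Submodule.finrank_eq_zero.1 h)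
  constructor
  · have : 1 ≤ finrank K J := by omega
    exact_mod_cast this
  · exact_mod_cast h4

theorem hasX_first {a c : ℕ} {b e : ℤ} (ha : 1 ≤ a) (hc : 1 ≤ c) (hdet : (a : ℤ) * e - c * b = 1)
    (hA : Q k K a b) : HasX k K (a + c) (b + e) a b := by
  obtain ⟨E, hd, hE, -, hE0⟩ := hA
  have ha' : (1 : ℤ) ≤ a := by exact_mod_cast ha
  have hc' : (1 : ℤ) ≤ c := by exact_mod_cast hc
  have key : ∀ J : Submodule K (Fin a → K), J ≠ ⊥ → J ≠ ⊤ →
      ((a : ℤ) + c) * (E.sub J).deg - (b + e) * finrank K J ≤ -2 := by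
    intro J h1 h2
    obtain ⟨h3, h4⟩ := ExistsStable_rank h1 h2
    exact (num_A ha' hc' hdet h3 h4 (hE J h1 h2)).1
  refine ⟨E, hd, ?_, ?_, fun e1 e2 => hE0 (num_Z ha' hc' hdet e1 e2).1 (num_Z ha' hc' hdet e1 e2).2.1⟩
  · intro J h1
    by_cases h2 : J = ⊤
    · subst h2
      rw [VB.deg_sub_top, hd, finrank_top]
      have h4 : finrank K (Fin a → K) = a := by simp
      rw [h4]
      linarith
    · have := key J h1 h2
      linarith
  · have : E.exc ((a : ℤ) + c) (b + e) = ∅ := by
      ext J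
      simp only [Set.mem_empty_iff_false, iff_false]
      rintro ⟨h1, h2, h3⟩
      have := key J h1 h2
      linarith
    rw [this]
    exact Set.finite_empty

private lemma ExistsStable_num {a c : ℕ} {b e : ℤ} (hdet : (a : ℤ) * e - c * b = 1) (i : ℕ) :
    ((a : ℤ) + c) * (b + i * (b + e)) - (b + e) * ((a + i * (a + c) : ℕ) : ℤ) = -1 := by
  push_cast
  linear_combination -hdet

theorem hasX_chain {a c : ℕ} {b e : ℤ} (ha : 1 ≤ a) (hc : 1 ≤ c) (hdet : (a : ℤ) * e - c * b = 1)
    (hA : Q k K a b) (hG : Q k K (a + c) (b + e)) (i : ℕ) :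
    HasX k K (a + c) (b + e) (a + i * (a + c)) (b + i * (b + e)) := by
  induction i with
  | zero =>
    have := hasX_first ha hc hdet hA
    simpa using this
  | succ i ih =>
    have h1 := chain_step (r := a + c) (n := a + i * (a + c)) (d := b + e)
      (δ := b + i * (b + e)) (by omega) (by omega) hG (by push_cast; exact ih)
      (by rw [Nat.cast_add]; exact ExistsStable_num hdet i)
    have h2 : a + (i + 1) * (a + c) = a + i * (a + c) + (a + c) := by ring
    have h3 : b + ((i + 1 : ℕ) : ℤ) * (b + e) = b + i * (b + e) + (b + e) := by push_cast; ring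
    rw [h2, h3]
    rw [Nat.cast_add] at h1
    exact h1

/-- A stable bundle of rank at least two and degree at most zero has no sections. -/
theorem H0_bot_of_stable {r : ℕ} (hr : 2 ≤ r) {E : VB k K (Fin r → K)} (hE : E.Stable)
    (hd : E.deg ≤ 0) : E.H0 = ⊥ := by
  rw [eq_bot_iff]
  intro x hx
  rw [Submodule.mem_bot]
  by_contra hx0
  have hf : finrank K (Fin r → K) = r := by simp
  have h1 : (Submodule.span K {x}) ≠ ⊥ := by
    rw [Ne, Submodule.span_singleton_eq_bot]
    exact hx0
  have h1' : finrank K (Submodule.span K {x}) = 1 := finrank_span_singleton hx0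
  have h2 : (Submodule.span K {x}) ≠ ⊤ := by
    intro h
    rw [h, finrank_top, hf] at h1'
    omega
  have h3 := hE _ h1 h2
  rw [h1', hf] at h3
  have h4 : 0 ≤ (E.sub (Submodule.span K {x})).deg := by
    let f : (Submodule.span K {x}) ≃ₗ[K] K := (LinearEquiv.toSpanNonzeroSingleton K _ x hx0).symm
    have h5 : line (0 : Dv k K) ≤ (E.sub (Submodule.span K {x})).map f := by
      intro P c hc
      rw [VB.mem_map, VB.mem_sub]
      have h6 : ((f.symm c : Submodule.span K {x}) : Fin r → K) = c • x := rfl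
      rw [h6]
      refine E.smul_mem P c x ?_ (VB.mem_H0.1 hx P)
      rw [mem_line] at hc
      simpa using hc
    have h7 := VB.deg_le_of_le h5
    rw [VB.deg_line, ddeg_zero, VB.deg_map] at h7
    exact h7
  have h8 : (0 : ℤ) < r := by omega
  nlinarith

private theorem ExistsStable_aux {r : ℕ} (hr : 1 ≤ r) (d : ℤ) :
    ∃ E : VB k K (Fin r → K), E.deg = d ∧ E.Stable ∧ (0 < d → d < r → E.H0 = ⊥) := by
  have hg : 0 < Int.gcd (r : ℤ) d := Int.gcd_pos_of_ne_zero_left _ (by exact_mod_cast (by omega))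
  obtain ⟨h, hh⟩ : ∃ h : ℕ, h = Int.gcd (r : ℤ) d := ⟨_, rfl⟩
  rw [← hh] at hg
  have hdr : h ∣ r := by
    have := Int.gcd_dvd_left (a := (r : ℤ)) (b := d)
    rw [← hh] at this
    exact_mod_cast this
  have hdd : (h : ℤ) ∣ d := by
    have := Int.gcd_dvd_right (a := (r : ℤ)) (b := d)
    rw [← hh] at this
    exact this
  obtain ⟨r0, rfl⟩ := hdr
  obtain ⟨d0, rfl⟩ := hdd
  have hcop : IsCoprime (r0 : ℤ) d0 := by
    rw [Int.isCoprime_iff_gcd_eq_one]
    rw [Nat.cast_mul, Int.gcd_mul_left] at hh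
    simp only [Int.natAbs_natCast] at hh
    have : h * 1 = h * Int.gcd (r0 : ℤ) d0 := by rw [mul_one]; exact hh
    exact (Nat.eq_of_mul_eq_mul_left hg this).symm
  have hr0 : 1 ≤ r0 := by
    rcases Nat.eq_zero_or_pos r0 with h0 | h0
    · subst h0; simp at hr
    · exact h0
  rcases Nat.lt_or_ge r0 2 with h2 | h2
  · have h3 : r0 = 1 := by omega
    subst h3
    rcases Nat.lt_or_ge h 2 with h4 | h4
    · have h5 : h = 1 := by omega
      subst h5
      obtain ⟨E, h6, h7, -⟩ := stable_of_Q (Q_one (k := k) (K := K) ((1 : ℕ) * d0))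
      exact ⟨E, h6, h7, fun e1 e2 => by push_cast at e1 e2; omega⟩
    · rw [mul_one]
      obtain ⟨E, h6, h7⟩ := stable_int (k := k) (K := K) h4 d0
      refine ⟨E, h6, h7, fun e1 e2 => ?_⟩
      exfalso
      have h8 : (0 : ℤ) < h := by omega
      have h9 : 0 < d0 := by
        by_contra hcon
        push Not at hcon
        nlinarith
      nlinarith
  · rcases Nat.lt_or_ge h 2 with h4 | h4
    · have h5 : h = 1 := by omega
      subst h5
      rw [one_mul r0, Nat.cast_one, one_mul d0]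
      obtain ⟨E, h6, h7, h8⟩ := stable_of_Q (Q_coprime (k := k) (K := K) hr0 hcop)
      exact ⟨E, h6, h7, fun e1 e2 => h8 e1.le e2.le⟩
    · obtain ⟨a, c, b, e, ha, hc, hac, hbe, hdet, hab, hce⟩ := exists_parents h2 hcop
      subst hac
      subst hbe
      have hX := hasX_chain ha hc hdet (Q_coprime ha hab) (Q_coprime hr0 hcop) (h - 1)
        (k := k) (K := K)
      have hcast : (((h - 1 : ℕ) : ℤ)) = h - 1 := by
        rw [Nat.cast_sub (by omega)]; simp
      obtain ⟨Z, hZ1, hZ2, hZ0⟩ := final_step (r := a + c) (n := a + (h - 1) * (a + c)) (c := c)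
        (d := b + e) (δ := b + ((h - 1 : ℕ) : ℤ) * (b + e)) (e := e) hc (by omega) (by omega)
        (by rw [Nat.cast_add]; exact hX)
        (by rw [Nat.cast_add]; exact ExistsStable_num hdet (h - 1)) (Q_coprime hc hce)
        (by push_cast; linear_combination hdet)
      have hn : a + (h - 1) * (a + c) + c = h * (a + c) := by
        obtain ⟨m, rfl⟩ : ∃ m, h = m + 1 := ⟨h - 1, by omega⟩
        simp only [Nat.add_sub_cancel]
        ring
      have hZ3 : Z.deg = h * (b + e) := by
        rw [hZ1, hcast]; ring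
      rw [← hn]
      refine ⟨Z, hZ3, hZ2, fun e1 e2 => ?_⟩
      have h8 : (0 : ℤ) < h := by omega
      rw [hn] at e2
      apply hZ0
      · by_contra hcon
        push Not at hcon
        nlinarith
      · by_contra hcon
        push Not at hcon
        push_cast at e2 hcon
        nlinarith

/-- Stable bundles of all ranks and degrees exist, without sections if the slope is less than one. -/
theorem exists_stable {r : ℕ} (hr : 1 ≤ r) (d : ℤ) :
    ∃ E : VB k K (Fin r → K), E.deg = d ∧ E.Stable ∧ (d < r → E.H0 = ⊥) := by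
  rcases Nat.lt_or_ge r 2 with h2 | h2
  · have h3 : r = 1 := by omega
    subst h3
    obtain ⟨E, h4, h5, h6⟩ := stable_one (k := k) (K := K) d
    exact ⟨E, h4, h5, fun e1 => h6 (by exact_mod_cast e1)⟩
  · obtain ⟨E, h4, h5, h6⟩ := ExistsStable_aux (k := k) (K := K) hr d
    refine ⟨E, h4, h5, fun e1 => ?_⟩
    rcases lt_or_ge 0 d with h7 | h7
    · exact h6 h7 e1
    · exact H0_bot_of_stable h2 h5 (by rw [h4]; exact h7)

end Pool.Agent.MP_09eaec.GG
end

section

/-!
# The extensions of sums of canonical bundles by stable bundles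

`x` sections more than `(g - 1) n`, `m = ⌈x / (g - 1)⌉`, `a = (g - 1) m - x`: the bundle `E1(-κ)` is stable of rank `m`,
degree `x + m - n < m`, without sections, `E = ext E1 (κ^j) u`, `j = n - m`.
-/

set_option autoImplicit false

namespace Pool.Agent.MP_09eaec.GG

open Module

universe u v

variable {k : Type u} {K : Type v} [Field k] [Field K] [Algebra k K]
variable {W : Type v} [AddCommGroup W] [Module K W] [Module k W] [IsScalarTower k K W]
variable {A : Type v} [AddCommGroup A] [Module K A] [Module k A] [IsScalarTower k K A]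
variable {B : Type v} [AddCommGroup B] [Module K B] [Module k B] [IsScalarTower k K B]

variable [CurveG k K]

theorem exists_ii {n m x kk : ℕ} (hm : 1 ≤ m) (hmn : m ≤ n)
    (hx : (kk : ℤ) = (gen k K - 1) * n + x) (hxn : x < n) (ha0 : (x : ℤ) ≤ (gen k K - 1) * m)
    (hU : (1 + ((m : ℤ) - 1) * ((gen k K - 1) * m - x)) * ((n : ℤ) - x - m) < n) :
    ∃ (E : VB k K (Fin n → K)) (V : Submodule k (Fin n → K)) (α : ℝ), 0 < α ∧ V ≤ E.H0 ∧
      finrank k V = kk ∧ E.deg = kk + (gen k K - 2) * n + m ∧ E.StableSys α V := by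
  obtain ⟨κ, hκ⟩ := exists_canonical (k := k) (K := K)
  obtain ⟨j, hj⟩ : ∃ j : ℕ, n = m + j := ⟨n - m, by omega⟩
  have hg := CurveG.two_le (k := k) (K := K)
  have hjz : (n : ℤ) = m + j := by exact_mod_cast hj
  have hmz : (1 : ℤ) ≤ m := by exact_mod_cast hm
  have hxz : (x : ℤ) < n := by exact_mod_cast hxn
  obtain ⟨G, hGd, hGs, hG0⟩ := exists_stable (k := k) (K := K) hm ((x : ℤ) + m - n)
  have hG0 := hG0 (by omega)
  have hfm : finrank K (Fin m → K) = m := Module.finrank_fin_fun K
  have hfj : finrank K (Fin j → K) = j := Module.finrank_fin_fun K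
  have hback : (G.twist κ).twist (-κ) = G := by
    rw [VB.twist_twist, add_neg_cancel, VB.twist_zero]
  have hE1d : (G.twist κ).deg = (x : ℤ) + m - n + m * (2 * gen k K - 2) := by
    rw [VB.deg_twist, hGd, hκ.ddeg, hfm]
  have hGh1 : G.h1 = (gen k K - 1) * m - x - m + n := by
    have h1 := VB.rr G
    have h2 : G.h0 = 0 := by rw [VB.h0, hG0, finrank_bot]; rfl
    rw [h2, hGd, hfm] at h1
    linarith
  obtain ⟨u, hu⟩ := exists_indep_ext G (j := j) (by rw [hGh1]; linarith)
  have h0 : ((ext (G.twist κ) (pw κ j) u).twist (-κ)).H0 = ⊥ :=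
    H0_twist_ext_bot u (by rw [hback]; exact hG0) (by rw [hback]; exact hu)
  -- the numbers
  obtain ⟨d, hd⟩ : ∃ d : ℤ, d = kk + (gen k K - 2) * n + m := ⟨_, rfl⟩
  have hnR : (0 : ℝ) < n := by
    have : 0 < n := by omega
    exact_mod_cast this
  obtain ⟨α, hα, hα1, hα2⟩ := exists_alpha
    (c := 1 + ((m : ℝ) - 1) * ((gen k K - 1) * m - x))
    (T0 := (((n : ℝ) - x - m) / n)) (ρ := ((n : ℝ) - x) / n) (by
      have h1 : (0 : ℝ) ≤ (m : ℝ) - 1 := by
        have : (1 : ℝ) ≤ m := by exact_mod_cast hm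
        linarith
      have h2 : (0 : ℝ) ≤ ((gen k K : ℝ) - 1) * m - x := by
        have : (x : ℝ) ≤ ((gen k K : ℝ) - 1) * m := by exact_mod_cast ha0
        linarith
      have := mul_nonneg h1 h2
      linarith) (by
      apply div_pos _ hnR
      have : (x : ℝ) < n := by exact_mod_cast hxn
      linarith) (by
      rw [← mul_div_assoc, div_lt_one hnR]
      exact_mod_cast hU)
  have hjR : (n : ℝ) = m + j := by exact_mod_cast hj
  have hxR : (kk : ℝ) = ((gen k K : ℝ) - 1) * n + x := by exact_mod_cast hx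
  have hE1R : ((G.twist κ).deg : ℝ) = (x : ℝ) + m - n + m * (2 * (gen k K : ℝ) - 2) := by
    exact_mod_cast hE1d
  have hmj : (m : ℝ) + j ≠ 0 := by rw [← hjR]; exact hnR.ne'
  obtain ⟨h2, h3⟩ := sys_stable hκ (VB.stable_twist hGs κ) u h0 (by rw [hfm]; exact hm)
    (by
      rw [hE1d, hfm]
      have : (3 * gen k K - 3) * (m : ℤ) - ((x : ℤ) + m - n + m * (2 * gen k K - 2)) - j =
        (gen k K - 1) * m - x := by rw [hjz]; ring
      rw [this]; linarith)
    (α := α) (σ := 2 * gen k K - 2 + α * gen k K - ((((n : ℝ) - x - m) / n) + α * (((n : ℝ) - x) / n)))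
    (τ := (((n : ℝ) - x - m) / n) + α * (((n : ℝ) - x) / n)) hα
    (by
      rw [hfm, hE1R, hjR]
      field_simp
      ring) (by ring) hα1 (by
      rw [hfm, hE1R]
      have h5 : (3 * (gen k K : ℝ) - 3) * m - ((x : ℝ) + m - n + m * (2 * (gen k K : ℝ) - 2)) - j =
        ((gen k K : ℝ) - 1) * m - x := by rw [hjR]; ring
      rw [h5]
      exact hα2)
  have hEd : (ext (G.twist κ) (pw κ j) u).deg = kk + (gen k K - 2) * n + m := by
    rw [deg_ext, deg_pw, hE1d, hκ.ddeg, hx, hjz]; ring
  have hfr : finrank K ((Fin m → K) × (Fin j → K)) = finrank K (Fin n → K) := by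
    rw [Module.finrank_prod, hfm, hfj, Module.finrank_fin_fun, hj]
  let f : ((Fin m → K) × (Fin j → K)) ≃ₗ[K] (Fin n → K) := LinearEquiv.ofFinrankEq _ _ hfr
  refine ⟨(ext (G.twist κ) (pw κ j) u).map f,
    (ext (G.twist κ) (pw κ j) u).H0.map (f.toLinearMap.restrictScalars k), α, hα,
    mapV_le_H0 le_rfl f, ?_, ?_, stableSys_map h3 f⟩
  · rw [finrank_mapV]
    have h6 : ((finrank k (ext (G.twist κ) (pw κ j) u).H0 : ℕ) : ℤ) = kk := by
      have h7 : (ext (G.twist κ) (pw κ j) u).h0 =
        ((finrank k (ext (G.twist κ) (pw κ j) u).H0 : ℕ) : ℤ) := rfl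
      rw [← h7, h2, hfm, hE1d, hx, hjz]; ring
    exact_mod_cast h6
  · rw [VB.deg_map, hEd]

end Pool.Agent.MP_09eaec.GG
end

section

/-!
# Stable bundles of small negative degree with many maps to `O`, and the ramps
-/

set_option autoImplicit false

namespace Pool.Agent.MP_09eaec.GG

open Module

universe u v

variable {k : Type u} {K : Type v} [Field k] [Field K] [Algebra k K]

variable [CurveG k K]

/-- The stable extensions `0 → G → E → O^(n-i) → 0` and their sections. -/
theorem exists_low_stable {n i : ℕ} {d : ℤ} (hi : 1 ≤ i) (hin : i ≤ n) (hd : d < 0)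
    (hdn : -(n : ℤ) < d)
    (hc : (i = 1 ∧ (n : ℤ) - 1 ≤ - d + (gen k K - 1)) ∨ (n : ℤ) - i = - d + (gen k K - 1) * i) :
    ∃ E : VB k K (Fin n → K), E.Stable ∧ E.deg = d ∧ E.H0 = ⊥ ∧
      ∀ D : Dv k K, d + i * ddeg D - (gen k K - 1) * i + (n - i) * (line D).h0 ≤
        (E.twist D).h0 := by
  obtain ⟨G, hG1, hG2, hG3⟩ := exists_stable (k := k) (K := K) hi d
  have hG0 : G.H0 = ⊥ := hG3 (by
    have : (1 : ℤ) ≤ i := by exact_mod_cast hi
    omega)
  obtain ⟨m, rfl⟩ : ∃ m, n = i + m := ⟨n - i, by omega⟩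
  have h1 : G.h1 = - d + (gen k K - 1) * i := by
    have h2 := VB.rr G
    have h3 : G.h0 = 0 := by
      unfold VB.h0
      rw [hG0, finrank_bot]
      rfl
    rw [h3, hG1, finrank_fin_fun] at h2
    linarith
  have hm : (m : ℤ) ≤ G.h1 := by
    rw [h1]
    rcases hc with ⟨rfl, e⟩ | e
    · push_cast at e ⊢; linarith
    · push_cast at e ⊢; linarith
  obtain ⟨u, hu⟩ := exists_ext_pw hG0 hm
  have hst : (ext G (pw 0 m) u).Stable := by
    refine ext_pw_stable hG2 (by rw [hG1]; exact hd) (by rw [finrank_fin_fun]; exact hi) hu ?_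
    rw [hG1, finrank_fin_fun]
    rcases hc with ⟨rfl, e⟩ | e
    · left
      refine ⟨rfl, ?_⟩
      push_cast at hdn ⊢; linarith
    · right
      push_cast at e ⊢; linarith
  have hrk : finrank K ((Fin i → K) × (Fin m → K)) = i + m := by
    rw [Module.finrank_prod, finrank_fin_fun, finrank_fin_fun]
  obtain ⟨E', f, hE', hdeg, -, -, -, hst'⟩ := exists_transport (ext G (pw 0 m) u) hrk
  refine ⟨E', hst' hst, ?_, ?_, ?_⟩
  · rw [hdeg, deg_ext, deg_pw, ddeg_zero, mul_zero, add_zero, hG1]
  · rw [hE']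
    exact H0_map_bot _ f hu
  · intro D
    have h4 := le_h0_twist_ext_pw (G := G) u D
    rw [hE', VB.twist_map, VB.h0_map]
    rw [hG1, finrank_fin_fun] at h4
    push_cast
    linarith

/-- The ramps: a stable bundle of rank `n` and degree `n + g i` with `n + i` sections. -/
theorem exists_ramp_aux {H : Dv k K} (hH : ddeg H = 2) (hH0 : 2 ≤ (line H).h0) {n i : ℕ}
    (hi : 1 ≤ i) (hgi : gen k K * i < n) :
    ∃ E : VB k K (Fin n → K), E.Stable ∧ E.deg = n + gen k K * i ∧ (n : ℤ) + i ≤ E.h0 := by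
  have hg : (2 : ℤ) ≤ gen k K := CurveG.two_le
  have hi' : (1 : ℤ) ≤ i := by exact_mod_cast hi
  obtain ⟨E, h1, h2, -, h3⟩ := exists_low_stable (k := k) (K := K) (n := n) (i := i)
    (d := gen k K * i - n) hi (by
      have : (i : ℤ) ≤ n := by nlinarith
      exact_mod_cast this) (by linarith) (by nlinarith) (Or.inr (by ring))
  refine ⟨E.twist H, VB.stable_twist h1 H, ?_, ?_⟩
  · rw [VB.deg_twist, h2, hH, finrank_fin_fun]; ring
  · have h4 := h3 H
    rw [hH] at h4
    have h5 : (0 : ℤ) ≤ n - i := by nlinarith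
    have h6 := mul_le_mul_of_nonneg_left hH0 h5
    linarith

end Pool.Agent.MP_09eaec.GG
end
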