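import Pool.Agent.Lib.MP_09eaec_ag.Mg.G019
import Pool.Agent.Lib.MP_09eaec_ag.Mg.G004
import Pool.Agent.Lib.MP_09eaec_ag.Mg.G005
import Pool.Agent.Lib.MP_09eaec_ag.Mg.G003
import Pool.Agent.Lib.MP_09eaec_ag.Mg.G016
import Pool.Agent.Lib.MP_09eaec_ag.GG.LineBasic
import Pool.Agent.Lib.MP_09eaec_ag.Mg.G002
import Pool.Agent.Lib.MP_09eaec_ag.Mg.G009
import Pool.Agent.Lib.MP_09eaec_ag.Mg.G006
import Pool.Agent.Lib.MP_09eaec_ag.Mg.G007

section

/-!
# TASK MinU: the smallest constant subspace which contains `S`

`L = {a : Fin N → k | ∀ x ∈ S, ∑ i, a i • x i = 0}` and `U = {c | ∀ a ∈ L, ∑ i, a i * c i = 0}` its orthogonal, so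
`finrank U = N - finrank L` and the orthogonal of `U` is `L` (dimension; `mem_KU_iff` in HY/KUmem). `S ≤ KU K U` by `mem_KU_iff`.
The functionals `x ↦ ∑ a i • x i` on `S` (for `a : Fin N → k`) are maps `(pw κ N).sub S → line κ`, and they form a `k`-space of dimension
`N - finrank L = finrank U` inside `(hom ((pw κ N).sub S) (line κ)).H0`, whose dimension is `h1` (`hκ.dual`); if the dimensions are
equal the two spaces are equal.
-/

set_option autoImplicit false

namespace Pool.Agent.MP_09eaec.GG.G3

open Module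

universe u v

variable {k : Type u} {K : Type v} [Field k] [Field K] [Algebra k K]
variable {W : Type v} [AddCommGroup W] [Module K W] [Module k W] [IsScalarTower k K W]
variable {A : Type v} [AddCommGroup A] [Module K A] [Module k A] [IsScalarTower k K A]
variable {B : Type v} [AddCommGroup B] [Module K B] [Module k B] [IsScalarTower k K B]

variable [CurveG k K]

/-- The functional with constant coefficients `a`, restricted to `S`. -/
private noncomputable def MinU_T {N : ℕ} (S : Submodule K (Fin N → K)) :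
    (Fin N → k) →ₗ[k] (S →ₗ[K] K) where
  toFun a :=
    { toFun := fun x => ∑ i, a i • (x : Fin N → K) i
      map_add' := fun x y => by
        rw [← Finset.sum_add_distrib]
        refine Finset.sum_congr rfl fun i _ => ?_
        rw [Submodule.coe_add, Pi.add_apply, smul_add]
      map_smul' := fun c x => by
        rw [RingHom.id_apply, smul_eq_mul, Finset.mul_sum]
        refine Finset.sum_congr rfl fun i _ => ?_
        rw [Submodule.coe_smul, Pi.smul_apply, smul_eq_mul, mul_smul_comm] }
  map_add' a b := by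
    ext x
    show ∑ i, (a i + b i) • (x : Fin N → K) i = ∑ i, a i • (x : Fin N → K) i +
      ∑ i, b i • (x : Fin N → K) i
    rw [← Finset.sum_add_distrib]
    exact Finset.sum_congr rfl fun i _ => add_smul _ _ _
  map_smul' c a := by
    ext x
    show ∑ i, (c • a i) • (x : Fin N → K) i = c • ∑ i, a i • (x : Fin N → K) i
    rw [Finset.smul_sum]
    exact Finset.sum_congr rfl fun i _ => smul_assoc _ _ _

omit [CurveG k K] in
private lemma MinU_T_apply {N : ℕ} (S : Submodule K (Fin N → K)) (a : Fin N → k) (x : S) :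
    MinU_T S a x = ∑ i, a i • (x : Fin N → K) i := rfl

theorem exists_minU {κ : Dv k K} (hκ : IsCanonical κ) {N : ℕ} (S : Submodule K (Fin N → K)) :
    ∃ U : Submodule k (Fin N → k), S ≤ KU K U ∧
      (finrank k U : ℤ) ≤ ((pw κ N).sub S).h1 ∧
      (((pw κ N).sub S).h1 = finrank k U →
        ∀ φ ∈ (hom ((pw κ N).sub S) (line κ)).H0, ∃ a : Fin N → k, ∀ x : S,
          φ x = ∑ i, a i • (x : Fin N → K) i) := by
  classical
  set L : Submodule k (Fin N → k) := LinearMap.ker (MinU_T (k := k) S) with hL
  set e := dotProductEquiv k (Fin N) with he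
  set U : Submodule k (Fin N → k) := L.dualAnnihilator.comap e.toLinearMap with hU
  have hUmem : ∀ c : Fin N → k, c ∈ U ↔ ∀ a ∈ L, ∑ i, a i * c i = 0 := by
    intro c
    rw [hU, Submodule.mem_comap, Submodule.mem_dualAnnihilator]
    refine forall₂_congr fun a _ => ?_
    have h1 : e.toLinearMap c a = ∑ i, a i * c i := by
      show c ⬝ᵥ a = _
      rw [dotProduct]
      exact Finset.sum_congr rfl fun i _ => mul_comm _ _
    rw [h1]
  have hperp : ∀ a : Fin N → k, (∀ c ∈ U, ∑ i, a i * c i = 0) → a ∈ L := by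
    intro a ha
    rw [← Subspace.dualAnnihilator_dualCoannihilator_eq (W := L), Submodule.mem_dualCoannihilator]
    intro f hf
    have h1 : e.symm f ∈ U := by
      rw [hU, Submodule.mem_comap]
      show e (e.symm f) ∈ _
      rw [e.apply_symm_apply]
      exact hf
    have h2 := ha _ h1
    have h3 : f a = e (e.symm f) a := by rw [e.apply_symm_apply]
    rw [h3]
    show (e.symm f) ⬝ᵥ a = 0
    rw [dotProduct, ← h2]
    exact Finset.sum_congr rfl fun i _ => mul_comm _ _
  have hfin : finrank k U = finrank k L.dualAnnihilator := by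
    have h1 : U.map e.toLinearMap = L.dualAnnihilator :=
      Submodule.map_comap_eq_of_surjective e.surjective _
    rw [← h1]
    exact (LinearEquiv.finrank_map_eq e U).symm
  have hdim := Subspace.finrank_add_finrank_dualAnnihilator_eq L
  rw [← hfin, Module.finrank_fin_fun] at hdim
  have hrk := LinearMap.finrank_range_add_finrank_ker (MinU_T (k := k) S)
  rw [Module.finrank_fin_fun, ← hL] at hrk
  have hrange : LinearMap.range (MinU_T (k := k) S) ≤ (hom ((pw κ N).sub S) (line κ)).H0 := by
    rintro _ ⟨a, rfl⟩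
    rw [VB.mem_H0]
    intro P
    rw [mem_hom]
    intro x hx
    rw [MinU_T_apply, mem_line]
    exact Submodule.sum_mem _ fun i _ => Submodule.smul_mem _ _ (mem_pw.1 (VB.mem_sub.1 hx) i)
  have hdual := hκ.dual S ((pw κ N).sub S)
  have hle : finrank k (LinearMap.range (MinU_T (k := k) S)) ≤
      finrank k (hom ((pw κ N).sub S) (line κ)).H0 := Submodule.finrank_mono hrange
  have hUr : finrank k U = finrank k (LinearMap.range (MinU_T (k := k) S)) := by omega
  refine ⟨U, fun x hx => ?_, ?_, ?_⟩
  · rw [mem_KU_iff]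
    intro a ha
    have h1 := hperp a ha
    rw [hL, LinearMap.mem_ker] at h1
    have h2 := LinearMap.congr_fun h1 ⟨x, hx⟩
    rw [MinU_T_apply] at h2
    exact h2
  · rw [hdual, hUr]
    unfold VB.h0
    exact_mod_cast hle
  · intro heq φ hφ
    have h1 : finrank k (hom ((pw κ N).sub S) (line κ)).H0 =
        finrank k (LinearMap.range (MinU_T (k := k) S)) := by
      rw [hdual] at heq
      unfold VB.h0 at heq
      rw [← hUr]
      exact_mod_cast heq
    have h2 : LinearMap.range (MinU_T (k := k) S) = (hom ((pw κ N).sub S) (line κ)).H0 :=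
      Submodule.eq_of_le_of_finrank_le hrange h1.le
    rw [← h2] at hφ
    obtain ⟨a, rfl⟩ := hφ
    exact ⟨a, fun x => MinU_T_apply S a x⟩

end Pool.Agent.MP_09eaec.GG.G3
end

section

/-!
# TASK TwoSec: rank one bundles with two sections

`E` of rank one: `E.map f = line D` for `f : W ≃ K` (`LinearEquiv.ofFinrankEq`, `exists_eq_line`), same `deg`, `h0`
(`deg_map`, `h0_map`, `deg_line`). So the statements are about `line D`.
* `two_sec`: `ddeg D < 0`: `H0_line_of_neg`. Otherwise take a section `s ≠ 0`, `D' = D + dv s` is effective of degree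
  `ddeg D` (`ddeg_dv`) and the sections of `line D'` contain `1`; if `ddeg D' ≤ 1` then `D' = 0` (`h0_line_zero`) or
  `D' = single P 1`, and a second section `f` (not constant) has a single simple pole: `no_degree_one` in GG/IntT.
* `three_sec`: `two_sec` and `NonHyp` (degree two excluded).
* `pencil_or_nonhyp`: if some `D` of degree two has `h0 ≥ 2`, take independent sections `x, y`; a common zero `P`
  gives two independent sections of `line (D - single P 1)` of degree one, against `two_sec`.
-/

set_option autoImplicit false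

namespace Pool.Agent.MP_09eaec.GG.G3

open Module

universe u v

variable {k : Type u} {K : Type v} [Field k] [Field K] [Algebra k K]
variable {W : Type v} [AddCommGroup W] [Module K W] [Module k W] [IsScalarTower k K W]
variable {A : Type v} [AddCommGroup A] [Module K A] [Module k A] [IsScalarTower k K A]
variable {B : Type v} [AddCommGroup B] [Module K B] [Module k B] [IsScalarTower k K B]

variable [CurveG k K]

private theorem TwoSec_single (P : Place k K) :
    (line (Finsupp.single P 1 : Dv k K)).h0 = 1 := by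
  have h : (line (Finsupp.single P 1 : Dv k K)).H0 = (line (0 : Dv k K)).H0 := by
    classical
    ext x
    rw [VB.mem_H0, VB.mem_H0]
    constructor
    · intro hx
      by_cases h0 : x = 0
      · subst h0
        intro Q
        exact zero_mem _
      have hQ : ∀ Q, Q ≠ P → 0 ≤ Q.ord x := by
        intro Q hQP
        rcases hx Q with h1 | h1
        · exact absurd h1 h0
        · rwa [Finsupp.single_eq_of_ne hQP, neg_zero] at h1
      have hP := no_degree_one h0 hQ
      intro Q
      right
      rw [Finsupp.coe_zero, Pi.zero_apply, neg_zero]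
      by_cases hQP : Q = P
      · subst hQP
        rcases hx Q with h1 | h1
        · exact absurd h1 h0
        · rw [Finsupp.single_eq_same] at h1
          omega
      · exact hQ Q hQP
    · intro hx Q
      refine filt_mono Q ?_ (hx Q)
      rw [Finsupp.coe_zero, Pi.zero_apply, neg_zero, Finsupp.single_apply]
      split_ifs <;> omega
  have h2 := h0_line_zero (k := k) (K := K)
  unfold VB.h0 at h2 ⊢
  rw [h]
  exact h2

private theorem TwoSec_line {D : Dv k K} (h : 2 ≤ (line D).h0) : 2 ≤ ddeg D := by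
  by_contra hcon
  push Not at hcon
  have h1 : (line D).H0 ≠ ⊥ := by
    intro h2
    unfold VB.h0 at h
    rw [h2, finrank_bot] at h
    norm_num at h
  obtain ⟨s, hs, hs0⟩ := Submodule.exists_mem_ne_zero_of_ne_bot h1
  have h3 := h0_line_move D hs0
  have h4 : ddeg (D + dv s) = ddeg D := by rw [ddeg_add, ddeg_dv, add_zero]
  have h5 : ∀ P, (0 : Dv k K) P ≤ (D + dv s : Dv k K) P := by
    intro P
    have h6 := (VB.mem_H0.1 hs P).resolve_left hs0
    rw [Finsupp.add_apply, dv_apply, Finsupp.coe_zero, Pi.zero_apply]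
    omega
  by_cases h7 : ddeg (D + dv s) ≤ 0
  · have h8 := eq_of_ddeg_le h5 (by rw [ddeg_zero]; exact h7)
    rw [← h8, h0_line_zero] at h3
    omega
  · push Not at h7
    obtain ⟨P, hP⟩ : ∃ P, 0 < (D + dv s : Dv k K) P := by
      by_contra hno
      push Not at hno
      have h8 := ddeg_mono (D := D + dv s) (D' := 0) (fun P => by
        have := hno P
        rw [Finsupp.coe_zero, Pi.zero_apply]
        exact this)
      rw [ddeg_zero] at h8
      omega
    have h9 : Finsupp.single P 1 = (D + dv s : Dv k K) := by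
      refine eq_of_ddeg_le (fun Q => ?_) ?_
      · classical
        rw [Finsupp.single_apply]
        split_ifs with hQ
        · rw [← hQ]
          omega
        · have := h5 Q
          rw [Finsupp.coe_zero, Pi.zero_apply] at this
          exact this
      · rw [ddeg_single]
        omega
    rw [← h9, TwoSec_single] at h3
    omega

theorem two_sec (hg : 1 ≤ gen k K) [FiniteDimensional K W] {E : VB k K W} (h1 : finrank K W = 1)
    (h : 2 ≤ E.h0) : 2 ≤ E.deg := by
  have hf : finrank K W = finrank K K := by rw [finrank_self, h1]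
  obtain ⟨D, hD⟩ := exists_eq_line (E.map (LinearEquiv.ofFinrankEq W K hf))
  rw [← VB.deg_map E (LinearEquiv.ofFinrankEq W K hf), hD, VB.deg_line]
  rw [← VB.h0_map E (LinearEquiv.ofFinrankEq W K hf), hD] at h
  exact TwoSec_line h

theorem three_sec (hg : 1 ≤ gen k K) (hnh : NonHyp k K) [FiniteDimensional K W] {E : VB k K W}
    (h1 : finrank K W = 1) (h : 2 ≤ E.h0) : 3 ≤ E.deg := by
  have hf : finrank K W = finrank K K := by rw [finrank_self, h1]
  obtain ⟨D, hD⟩ := exists_eq_line (E.map (LinearEquiv.ofFinrankEq W K hf))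
  rw [← VB.deg_map E (LinearEquiv.ofFinrankEq W K hf), hD, VB.deg_line]
  rw [← VB.h0_map E (LinearEquiv.ofFinrankEq W K hf), hD] at h
  have h2 := TwoSec_line h
  by_contra hcon
  have h3 := hnh D (by omega)
  omega

theorem pencil_or_nonhyp (hg : 1 ≤ gen k K) :
    (∃ (H : Dv k K) (x y : K), Pencil H x y) ∨ NonHyp k K := by
  by_cases hn : NonHyp k K
  · exact Or.inr hn
  left
  unfold NonHyp at hn
  push Not at hn
  obtain ⟨D, hD, hD2⟩ := hn
  have h2 : 1 < finrank k (line D : VB k K K).H0 := by
    unfold VB.h0 at hD2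
    exact_mod_cast hD2
  let b := Module.finBasis k (line D : VB k K K).H0
  let j : Fin 2 → Fin (finrank k (line D : VB k K K).H0) := ![⟨0, by omega⟩, ⟨1, h2⟩]
  have hj : Function.Injective j := by
    intro a c hac
    fin_cases a <;> fin_cases c <;> simp_all [j]
  have hli0 : LinearIndependent k (fun i => ((b (j i) : (line D : VB k K K).H0) : K)) :=
    (b.linearIndependent.comp j hj).map' (line D : VB k K K).H0.subtype
      (by rw [Submodule.ker_subtype])
  have hli : LinearIndependent k ![((b (j 0) : (line D : VB k K K).H0) : K),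
      ((b (j 1) : (line D : VB k K K).H0) : K)] := by
    have h3 : ![((b (j 0) : (line D : VB k K K).H0) : K),
        ((b (j 1) : (line D : VB k K K).H0) : K)] =
        (fun i => ((b (j i) : (line D : VB k K K).H0) : K)) := by
      funext i
      fin_cases i <;> rfl
    rw [h3]
    exact hli0
  set x : K := ((b (j 0) : (line D : VB k K K).H0) : K) with hxd
  set y : K := ((b (j 1) : (line D : VB k K K).H0) : K) with hyd
  have hx : x ∈ (line D : VB k K K).H0 := (b (j 0)).2
  have hy : y ∈ (line D : VB k K K).H0 := (b (j 1)).2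
  have hx0 : x ≠ 0 := hli.ne_zero 0
  have hy0 : y ≠ 0 := hli.ne_zero 1
  refine ⟨D, x, y, hD, hx, hy, fun P => ?_, hli⟩
  by_contra hcon
  push Not at hcon
  have key : ∀ z : K, z ≠ 0 → z ∈ (line D : VB k K K).H0 → P.ord z ≠ -D P →
      z ∈ (line (D - Finsupp.single P 1) : VB k K K).H0 := by
    classical
    intro z hz0 hz hne
    rw [VB.mem_H0]
    intro Q
    have h4 := (VB.mem_H0.1 hz Q).resolve_left hz0
    rw [mem_line]
    right
    rw [Finsupp.sub_apply, Finsupp.single_apply]
    split_ifs with hQ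
    · subst hQ
      omega
    · omega
  have hx' := key x hx0 hx hcon.1
  have hy' := key y hy0 hy hcon.2
  have h5 : 2 ≤ (line (D - Finsupp.single P 1) : VB k K K).h0 := by
    let f : Fin 2 → (line (D - Finsupp.single P 1) : VB k K K).H0 := ![⟨x, hx'⟩, ⟨y, hy'⟩]
    have hf : LinearIndependent k f := by
      refine LinearIndependent.of_comp (line (D - Finsupp.single P 1) : VB k K K).H0.subtype ?_
      have h6 : ((line (D - Finsupp.single P 1) : VB k K K).H0.subtype ∘ f) = ![x, y] := by
        funext i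
        fin_cases i <;> rfl
      rw [h6]
      exact hli
    have h7 := hf.fintype_card_le_finrank
    rw [Fintype.card_fin] at h7
    unfold VB.h0
    exact_mod_cast h7
  have h8 := TwoSec_line h5
  rw [ddeg_sub, ddeg_single, hD] at h8
  omega

end Pool.Agent.MP_09eaec.GG.G3
end

section

/-!
# TASK RelCore: a relation between sections and differentials

`J = span K (range s)`. `finrank K J ≤ 2`: `s` is not linearly independent over `K` (`hrel`, `ω ≠ 0` from `hli`).
`finrank K J ≥ 1` (`hs0`). `s a ∈ V ⊓ J`.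
* `finrank K J = 1`: the `k`-span of the `s a` has dimension `≥ 2`: otherwise `s a = c a • s0` with `c a : k` and
  `∑ c a • ω a = 0`, so `c = 0` (`hli`), `s = 0`. So `2 ≤ vd V J` and `2 ≤ (E.sub J).h0` (`vd_le_h0`), `two_sec`.
* `finrank K J = 2`: `s` is linearly independent over `k`: if `∑ c a • s a = 0` with, say, `c 2 ≠ 0`, substitute
  `s 2` in `hrel`: a relation between `s 0`, `s 1` with coefficients `ω a - (c a / c 2) ω 2`, which are independent over
  `k`, hence nonzero; so `s 0`, `s 1` and then `J` have rank `≤ 1`. So `3 ≤ vd V J`.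
  Degree: `deg_exact_le` (GG/Exact) for `E := pw 0 3`, `E1 := line (-κ)`, `E2 := E.sub J`, `i : K → (Fin 3 → K)`,
  `c ↦ c • ω`, `p x = ∑ x a • s a` (as a map onto `J`). The kernel of `p` has rank one and contains `ω`, so it is
  `range i`. `h1`: if all `c * ω a` are integral at `P`, take (with `hκ.base P` and the fact that the `ω a` are a basis
  of `(line κ).H0`, `hκ.h0`) an `a` with `P.ord (ω a) = -κ P`; then `c ∈ P.filt (κ P)`. `h2`: `s a ∈ E.H0`.
  `deg_pw`, `deg_line`: `0 ≤ -4 + (E.sub J).deg` (`hκ.ddeg`, `gen = 3`).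
-/

set_option autoImplicit false

namespace Pool.Agent.MP_09eaec.GG.G3

open Module

universe u v

variable {k : Type u} {K : Type v} [Field k] [Field K] [Algebra k K]
variable {W : Type v} [AddCommGroup W] [Module K W] [Module k W] [IsScalarTower k K W]
variable {A : Type v} [AddCommGroup A] [Module K A] [Module k A] [IsScalarTower k K A]
variable {B : Type v} [AddCommGroup B] [Module K B] [Module k B] [IsScalarTower k K B]

variable [CurveG k K]

private def RelCore_i (ω : Fin 3 → K) : K →ₗ[K] (Fin 3 → K) := LinearMap.toSpanSingleton K _ ω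

private lemma RelCore_i_apply (ω : Fin 3 → K) (c : K) : RelCore_i ω c = c • ω := rfl

/-- The divisibility of the coefficient. -/
private theorem RelCore_line (hg : gen k K = 3) {κ : Dv k K} (hκ : IsCanonical κ) {ω : Fin 3 → K}
    (hω : ∀ a, ω a ∈ (line κ).H0) (hli : LinearIndependent k ω) (P : Place k K) (x : K)
    (hx : ∀ a, x * ω a ∈ P.filt 0) : x ∈ P.filt (κ P) := by
  obtain ⟨t, ht, ht0, htm⟩ := hκ.base P
  let b : Fin 3 → (line κ).H0 := fun a => ⟨ω a, hω a⟩
  have hb : LinearIndependent k b := by
    apply LinearIndependent.of_comp (line κ).H0.subtype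
    exact hli
  have hcard : Fintype.card (Fin 3) = finrank k (line κ).H0 := by
    have h1 : ((finrank k (line κ).H0 : ℕ) : ℤ) = 3 := by
      have h2 := hκ.h0
      rw [hg] at h2
      exact h2
    rw [Fintype.card_fin]
    omega
  have hspan := hb.span_eq_top_of_card_eq_finrank hcard
  have h1 : (⟨t, ht⟩ : (line κ).H0) ∈ Submodule.span k (Set.range b) := by
    rw [hspan]; exact Submodule.mem_top
  obtain ⟨c, hc⟩ := (Submodule.mem_span_range_iff_exists_fun k).1 h1
  have hc' : ∑ a, c a • ω a = t := by
    have := congrArg ((line κ).H0.subtype) hc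
    rw [map_sum] at this
    simpa [b] using this
  have h2 : t * x ∈ P.filt (κ P + -κ P) := by
    rw [add_neg_cancel, ← hc', Finset.sum_mul]
    refine Submodule.sum_mem _ fun a _ => ?_
    rw [smul_mul_assoc, mul_comm]
    exact (P.filt 0).smul_mem (c a) (hx a)
  exact (mem_filt_iff_of_ord P ht0 htm (κ P)).1 h2

theorem rel_core (hg : gen k K = 3) {κ : Dv k K} (hκ : IsCanonical κ) {ω : Fin 3 → K}
    (hω : ∀ a, ω a ∈ (line κ).H0) (hli : LinearIndependent k ω) [FiniteDimensional K W]
    {E : VB k K W} {V : Submodule k W} (hV : V ≤ E.H0) {s : Fin 3 → W} (hs : ∀ a, s a ∈ V)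
    (hrel : ∑ a, ω a • s a = 0) (hs0 : s ≠ 0) :
    ∃ J : Submodule K W, (finrank K J = 1 ∧ 2 ≤ vd V J ∧ 2 ≤ (E.sub J).deg) ∨
      (finrank K J = 2 ∧ 3 ≤ vd V J ∧ 4 ≤ (E.sub J).deg) := by
  classical
  set J : Submodule K W := Submodule.span K (Set.range s) with hJ
  have hsJ : ∀ a, s a ∈ J := fun a => Submodule.subset_span ⟨a, rfl⟩
  have hω0 : ∀ a, ω a ≠ 0 := fun a => hli.ne_zero a
  have hωne : ω ≠ 0 := fun h => hω0 0 (congrFun h 0)
  -- the rank of J
  have hle : finrank K J ≤ 2 := by
    have h1 : (Set.range s).finrank K ≤ Fintype.card (Fin 3) := finrank_range_le_card s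
    have h2 : ¬ LinearIndependent K s := by
      intro h
      exact hω0 0 (Fintype.linearIndependent_iff.1 h ω hrel 0)
    have h3 : Fintype.card (Fin 3) ≠ (Set.range s).finrank K := fun h =>
      h2 (linearIndependent_iff_card_eq_finrank_span.2 h)
    rw [Fintype.card_fin] at h1 h3
    have h4 : (Set.range s).finrank K = finrank K J := rfl
    omega
  have hge : 1 ≤ finrank K J := by
    rw [Nat.one_le_iff_ne_zero]
    intro h
    have h1 : J = ⊥ := Submodule.finrank_eq_zero.1 h
    apply hs0
    funext a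
    have h2 := hsJ a
    rw [h1, Submodule.mem_bot] at h2
    exact h2
  have hfin : Module.Finite k ↥(V ⊓ J.restrictScalars k) :=
    Submodule.finiteDimensional_of_le ((inf_le_left.trans hV : V ⊓ J.restrictScalars k ≤ E.H0))
  let u : Fin 3 → ↥(V ⊓ J.restrictScalars k) := fun a => ⟨s a, hs a, hsJ a⟩
  refine ⟨J, ?_⟩
  rcases (show finrank K J = 1 ∨ finrank K J = 2 by omega) with h1 | h2
  · left
    have hvd : 2 ≤ vd V J := by
      by_contra hcon
      have h3 : finrank k ↥(V ⊓ J.restrictScalars k) ≤ 1 := by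
        unfold vd at hcon
        omega
      obtain ⟨v, hv⟩ := finrank_le_one_iff.1 h3
      choose c hc using fun a => hv (u a)
      have hc' : ∀ a, c a • (v : W) = s a := fun a => congrArg Subtype.val (hc a)
      have h4 : (∑ a, c a • ω a) • (v : W) = 0 := by
        rw [Finset.sum_smul, ← hrel]
        refine Finset.sum_congr rfl fun a _ => ?_
        rw [← hc' a, smul_assoc, smul_comm]
      rcases smul_eq_zero.1 h4 with h5 | h5
      · have h6 := Fintype.linearIndependent_iff.1 hli c h5
        apply hs0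
        funext a
        rw [← hc' a, h6 a, zero_smul]
        rfl
      · apply hs0
        funext a
        rw [← hc' a, h5, smul_zero]
        rfl
    refine ⟨h1, hvd, ?_⟩
    refine two_sec (by omega) h1 ?_
    have h3 := vd_le_h0 hV J
    omega
  · right
    let p : (Fin 3 → K) →ₗ[K] J := Fintype.linearCombination K (fun a => (⟨s a, hsJ a⟩ : J))
    have hp : ∀ x, ((p x : J) : W) = ∑ a, x a • s a := by
      intro x
      show ((Fintype.linearCombination K (fun a => (⟨s a, hsJ a⟩ : J)) x : J) : W) = _
      rw [Fintype.linearCombination_apply]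
      simp
    have hps : Function.Surjective p := by
      intro y
      obtain ⟨c, hc⟩ := (Submodule.mem_span_range_iff_exists_fun K).1 y.2
      exact ⟨c, Subtype.ext ((hp c).trans hc)⟩
    have hker : finrank K (LinearMap.ker p) = 1 := by
      have h3 := LinearMap.finrank_range_add_finrank_ker p
      rw [LinearMap.range_eq_top.2 hps, finrank_top, h2, finrank_fin_fun] at h3
      omega
    have hωk : ω ∈ LinearMap.ker p := by
      rw [LinearMap.mem_ker]
      exact Subtype.ext ((hp ω).trans hrel)
    have hrange : LinearMap.range (RelCore_i ω) = LinearMap.ker p := by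
      have h3 : LinearMap.range (RelCore_i ω) = Submodule.span K {ω} :=
        (LinearMap.span_singleton_eq_range K (Fin 3 → K) ω).symm
      rw [h3]
      refine Submodule.eq_of_le_of_finrank_eq ?_ ?_
      · rw [Submodule.span_singleton_le_iff_mem]
        exact hωk
      · rw [finrank_span_singleton hωne, hker]
    have hsli : LinearIndependent k s := by
      rw [Fintype.linearIndependent_iff]
      intro c hc
      have h3 : (fun a => algebraMap k K (c a)) ∈ LinearMap.ker p := by
        rw [LinearMap.mem_ker]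
        refine Subtype.ext ((hp _).trans ?_)
        refine Eq.trans ?_ hc
        exact Finset.sum_congr rfl fun a _ => algebraMap_smul K (c a) (s a)
      rw [← hrange] at h3
      obtain ⟨l, hl⟩ := h3
      have hl' : ∀ a, l * ω a = algebraMap k K (c a) := fun a => congrFun hl a
      by_cases hl0 : l = 0
      · intro a
        have := hl' a
        rw [hl0, zero_mul] at this
        exact (map_eq_zero (algebraMap k K)).1 this.symm
      · exfalso
        have key : ∀ a b, c b • ω a - c a • ω b = 0 := by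
          intro a b
          apply mul_left_cancel₀ hl0
          rw [mul_zero, mul_sub, Algebra.smul_def, Algebra.smul_def, ← hl' a, ← hl' b]
          ring
        have h01 := Fintype.linearIndependent_iff.1 hli ![c 1, - c 0, 0] (by
          rw [Fin.sum_univ_three]
          simp only [Matrix.cons_val_zero, Matrix.cons_val_one, Matrix.cons_val]
          rw [zero_smul, add_zero, neg_smul, ← sub_eq_add_neg]
          exact key 0 1)
        have h10 : c 1 = 0 := h01 0
        have := hl' 1
        rw [h10, map_zero] at this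
        rcases mul_eq_zero.1 this with h | h
        · exact hl0 h
        · exact hω0 1 h
    have huli : LinearIndependent k u := by
      apply LinearIndependent.of_comp (V ⊓ J.restrictScalars k).subtype
      exact hsli
    have hvd : 3 ≤ vd V J := by
      have h3 := huli.fintype_card_le_finrank
      rw [Fintype.card_fin] at h3
      exact h3
    refine ⟨h2, hvd, ?_⟩
    have hdeg := VB.deg_exact_le (pw (0 : Dv k K) 3) (line (-κ)) (E.sub J) (RelCore_i ω) p
      (by
        intro x y hxy
        have h3 : x * ω 0 = y * ω 0 := congrFun hxy 0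
        exact mul_right_cancel₀ (hω0 0) h3) hps hrange
      (by
        intro P x hx
        rw [mem_line, Finsupp.coe_neg, Pi.neg_apply, neg_neg]
        refine RelCore_line hg hκ hω hli P x fun a => ?_
        have h3 := mem_pw.1 hx a
        rw [Finsupp.coe_zero, Pi.zero_apply, neg_zero] at h3
        exact h3)
      (by
        intro P x hx
        rw [VB.mem_sub, hp]
        refine Submodule.sum_mem _ fun a _ => ?_
        refine E.smul_mem P _ _ ?_ (VB.mem_H0.1 (hV (hs a)) P)
        have h3 := mem_pw.1 hx a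
        rw [Finsupp.coe_zero, Pi.zero_apply, neg_zero] at h3
        exact h3)
    rw [deg_pw, VB.deg_line, ddeg_zero, ddeg_neg, hκ.ddeg, hg] at hdeg
    push_cast at hdeg
    omega

end Pool.Agent.MP_09eaec.GG.G3
end

section

/-!
# TASK Ex23: rank two, three sections, degree four (genus three, every curve)

`ω` a basis of `(line κ).H0` (`exists_omega`, `γ = 3`), `R = span K {ω} ≤ Fin 3 → K` (`ω` as the vector `(ω a)`), `E = (pw 0 3).quo R` of
rank two on `(Fin 3 → K) ⧸ R`, `V` = the image of the constant vectors `k^3`: dimension three (a constant vector `c = f • ω`, `c ≠ 0`: two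
coordinates of `c`, or `ω b = 0`... : if `f ≠ 0` then `ω = f⁻¹ c` has `k`-dependent coordinates, against `hli`).
Degree: `E.deg = 0 - ((pw 0 3).sub R).deg` (`VB.deg_add`, `deg_pw`), and `-4 ≤ ((pw 0 3).sub R).deg`: `f • ω` is integral at `P` iff
`f ∈ P.filt (κ P)` (base point freeness), so `(pw 0 3).sub R` is `line (-κ)` up to the isomorphism `f ↦ f • ω`. So `E.deg = 4`.
Stability, any `α > 0`: `T ≤ (Fin 3 → K) ⧸ R` of rank one, `J = T.comap R.mkQ` of rank two. `Q = (pw 0 3).quo J` of rank one. The constant vectors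
map to sections of `Q`; the kernel `C = {c : Fin 3 → k | c ∈ J}` has dimension at most one: if it had dimension `≥ 2` then `J = KU K C` and, by
`mem_KU_iff`, a nonzero `a : Fin 3 → k` with `∑ a i • ω i = 0`. So `Q.h0 ≥ 2`, `Q.deg ≥ 2` (`two_sec`), `(E.sub T).deg = ((pw 0 3).sub J).deg -
((pw 0 3).sub R).deg ≤ -2 + 4 = 2` (`deg_quo_sub`, `VB.deg_add`), `vd V T ≤ 1`, and `2 + α < (4 + 3 α) / 2`.
Transport to `Fin 2 → K`.
-/

set_option autoImplicit false

namespace Pool.Agent.MP_09eaec.GG.G3

open Module

universe u v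

variable {k : Type u} {K : Type v} [Field k] [Field K] [Algebra k K]
variable {W : Type v} [AddCommGroup W] [Module K W] [Module k W] [IsScalarTower k K W]
variable {A : Type v} [AddCommGroup A] [Module K A] [Module k A] [IsScalarTower k K A]
variable {B : Type v} [AddCommGroup B] [Module K B] [Module k B] [IsScalarTower k K B]

variable [CurveG k K]

/-- Some coordinate of `ω` generates the canonical bundle at `P`. -/
private theorem Ex23_base {κ : Dv k K} (hκ : IsCanonical κ) (hg : gen k K = 3) {ω : Fin 3 → K}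
    (hω : ∀ a, ω a ∈ (line κ).H0) (hli : LinearIndependent k ω) (P : Place k K) :
    ∃ a, ω a ≠ 0 ∧ P.ord (ω a) = -κ P := by
  by_contra hcon
  push Not at hcon
  have hfin : Module.Finite k (line κ : VB k K K).H0 :=
    (finrank_le_h0 (E := (line κ : VB k K K)) le_rfl).1
  have hspan : Submodule.span k (Set.range ω) = (line κ : VB k K K).H0 := by
    refine Submodule.eq_of_le_of_finrank_eq ?_ ?_
    · rw [Submodule.span_le]
      rintro _ ⟨a, rfl⟩
      exact hω a
    · rw [finrank_span_eq_card hli, Fintype.card_fin]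
      have h1 := hκ.h0
      rw [hg, VB.h0] at h1
      exact_mod_cast h1.symm
  obtain ⟨s, hs, hs0, hord⟩ := hκ.base P
  rw [← hspan] at hs
  have hle : Submodule.span k (Set.range ω) ≤ P.filt (-κ P + 1) := by
    rw [Submodule.span_le]
    rintro _ ⟨a, rfl⟩
    have h1 := VB.mem_H0.1 (hω a) P
    rw [mem_line] at h1
    by_cases h0 : ω a = 0
    · exact Or.inl h0
    · have h2 := h1.resolve_left h0
      have h3 := hcon a h0
      right
      omega
  have h4 := (hle hs).resolve_left hs0
  omega

/-- The constant vectors on the line of `ω`. -/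
private theorem Ex23_const {ω : Fin 3 → K} (hli : LinearIndependent k ω) {c : Fin 3 → k}
    (hc : constL k K 3 c ∈ Submodule.span K {ω}) : c = 0 := by
  obtain ⟨f, hf⟩ := Submodule.mem_span_singleton.1 hc
  have hfi : ∀ i, f * ω i = algebraMap k K (c i) := fun i => congrFun hf i
  by_cases hf0 : f = 0
  · funext i
    have h1 := hfi i
    rw [hf0, zero_mul] at h1
    exact (map_eq_zero_iff _ (algebraMap k K).injective).1 h1.symm
  · have h01 : ∑ i, (![c 1, -c 0, 0] : Fin 3 → k) i • ω i = 0 := by
      rw [Fin.sum_univ_three]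
      show c 1 • ω 0 + (-c 0) • ω 1 + (0 : k) • ω 2 = 0
      apply mul_left_cancel₀ hf0
      rw [zero_smul, Algebra.smul_def, Algebra.smul_def, map_neg, mul_zero]
      linear_combination (algebraMap k K (c 1)) * hfi 0 - (algebraMap k K (c 0)) * hfi 1
    have h02 : ∑ i, (![c 2, 0, -c 0] : Fin 3 → k) i • ω i = 0 := by
      rw [Fin.sum_univ_three]
      show c 2 • ω 0 + (0 : k) • ω 1 + (-c 0) • ω 2 = 0
      apply mul_left_cancel₀ hf0
      rw [zero_smul, Algebra.smul_def, Algebra.smul_def, map_neg, mul_zero]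
      linear_combination (algebraMap k K (c 2)) * hfi 0 - (algebraMap k K (c 0)) * hfi 2
    have a1 := Fintype.linearIndependent_iff.1 hli _ h01
    have a2 := Fintype.linearIndependent_iff.1 hli _ h02
    have b1 : c 1 = 0 := a1 0
    have b0 : -c 0 = 0 := a1 1
    have b2 : c 2 = 0 := a2 0
    rw [neg_eq_zero] at b0
    funext i
    fin_cases i
    · exact b0
    · exact b1
    · exact b2

private theorem Ex23_degR {κ : Dv k K} (hκ : IsCanonical κ) (hg : gen k K = 3) {ω : Fin 3 → K}
    (hω : ∀ a, ω a ∈ (line κ).H0) (hli : LinearIndependent k ω) :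
    ((pw (0 : Dv k K) 3).sub (Submodule.span K {ω})).deg = -4 := by
  have hω0 : ω ≠ 0 := fun h => hli.ne_zero 0 (congrFun h 0)
  let f := LinearEquiv.toSpanNonzeroSingleton K (Fin 3 → K) ω hω0
  have hf : ∀ c, ((f c : Submodule.span K {ω}) : Fin 3 → K) = c • ω := fun c => rfl
  have h1 : (line (-κ)).map f = (pw (0 : Dv k K) 3).sub (Submodule.span K {ω}) := by
    refine VB.ext' fun P x => ?_
    obtain ⟨c, rfl⟩ := f.surjective x
    rw [VB.mem_map, f.symm_apply_apply, VB.mem_sub, hf, mem_pw, mem_line]
    rw [Finsupp.coe_neg, Pi.neg_apply, neg_neg, Finsupp.coe_zero, Pi.zero_apply, neg_zero]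
    constructor
    · intro hc i
      have h2 := mul_mem_filt P hc (mem_line.1 (VB.mem_H0.1 (hω i) P))
      rw [add_neg_cancel] at h2
      exact h2
    · intro h
      obtain ⟨a, ha0, ha⟩ := Ex23_base hκ hg hω hli P
      rw [← mem_filt_iff_of_ord P ha0 ha, add_neg_cancel, mul_comm]
      exact h a
  rw [← h1, VB.deg_map, VB.deg_line, ddeg_neg, hκ.ddeg, hg]
  norm_num

/-- At most one constant vector in a subspace of rank two which contains `ω`. -/
private theorem Ex23_C {ω : Fin 3 → K} (hli : LinearIndependent k ω)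
    {J : Submodule K (Fin 3 → K)} (hJ : finrank K J = 2) (hωJ : ω ∈ J) :
    finrank k (constIn k J) ≤ 1 := by
  by_contra hcon
  have h2 : finrank K J ≤ finrank k (constIn k J) := by omega
  have h3 := finrank_constIn_le (k := k) J
  have hlt : constIn k J < ⊤ := by
    rw [lt_top_iff_ne_top]
    intro htop
    rw [htop, finrank_top, Module.finrank_fin_fun] at h3
    omega
  obtain ⟨μ, hμ0, hμ⟩ := Submodule.exists_le_ker_of_lt_top _ hlt
  have h4 := le_span_constIn J h2
  have h5 : J ≤ LinearMap.ker (extF K μ) := by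
    refine h4.trans ?_
    rw [Submodule.span_le]
    rintro _ ⟨c, hc, rfl⟩
    show extF K μ (constL k K 3 c) = 0
    rw [extF_constL, show μ c = 0 from hμ hc, map_zero]
  have h6 : extF K μ ω = 0 := h5 hωJ
  rw [extF_apply] at h6
  have h7 : ∑ i, μ (Pi.single i 1) • ω i = 0 := by
    rw [← h6]
    refine Finset.sum_congr rfl fun i _ => ?_
    rw [Algebra.smul_def, mul_comm]
  have h8 := Fintype.linearIndependent_iff.1 hli _ h7
  apply hμ0
  ext i
  exact h8 i

theorem exists_23 (hg : gen k K = 3) :
    ∃ (E : VB k K (Fin 2 → K)) (V : Submodule k (Fin 2 → K)) (α : ℝ), 0 < α ∧ V ≤ E.H0 ∧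
      finrank k V = 3 ∧ E.deg = 4 ∧ E.StableSys α V := by
  obtain ⟨κ, hκ⟩ := exists_canonical (k := k) (K := K)
  obtain ⟨γ, ω, hγ, hω, hli⟩ := exists_omega hκ
  have hγ3 : γ = 3 := by omega
  subst hγ3
  have hω0 : ω ≠ 0 := fun h => hli.ne_zero 0 (congrFun h 0)
  set R : Submodule K (Fin 3 → K) := Submodule.span K {ω} with hR
  set X : VB k K (Fin 3 → K) := pw 0 3 with hX
  have hXdeg : X.deg = 0 := by
    rw [hX, deg_pw, ddeg_zero, mul_zero]
  have hRdeg : (X.sub R).deg = -4 := Ex23_degR hκ hg hω hli
  have hRr : finrank K R = 1 := finrank_span_singleton hω0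
  have hEdeg : (X.quo R).deg = 4 := by
    have h1 := VB.deg_add X R
    omega
  have hEr : finrank K ((Fin 3 → K) ⧸ R) = 2 := by
    have h1 := Submodule.finrank_quotient_add_finrank R
    rw [hRr, Module.finrank_fin_fun] at h1
    omega
  have hcX : ∀ (c : Fin 3 → k) (P : Place k K), constL k K 3 c ∈ X.M P := by
    intro c P i
    rw [constL_apply]
    right
    rw [P.ord_algebraMap]
    simp
  -- the constant sections
  let g0 : (Fin 3 → k) →ₗ[k] ((Fin 3 → K) ⧸ R) := (R.mkQ.restrictScalars k) ∘ₗ constL k K 3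
  have hg0 : ∀ c, g0 c = R.mkQ (constL k K 3 c) := fun c => rfl
  have hg0i : Function.Injective g0 := by
    rw [← LinearMap.ker_eq_bot, LinearMap.ker_eq_bot']
    intro c hc
    rw [hg0, Submodule.mkQ_apply, Submodule.Quotient.mk_eq_zero] at hc
    exact Ex23_const hli hc
  have hVr : finrank k (LinearMap.range g0) = 3 := by
    rw [LinearMap.finrank_range_of_inj hg0i, Module.finrank_fin_fun]
  have hVH : LinearMap.range g0 ≤ (X.quo R).H0 := by
    rintro _ ⟨c, rfl⟩
    rw [VB.mem_H0]
    intro P
    exact VB.mem_quo.2 ⟨constL k K 3 c, hcX c P, rfl⟩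
  have hst : (X.quo R).StableSys 1 (LinearMap.range g0) := by
    intro T hT0 hT1
    have hTr : finrank K T = 1 := by
      have h1 : finrank K T < finrank K ((Fin 3 → K) ⧸ R) := Submodule.finrank_lt hT1
      have h2 : 0 < finrank K T := by
        have := Submodule.nontrivial_iff_ne_bot.2 hT0
        exact finrank_pos
      omega
    have hJr : finrank K ↥(T.comap R.mkQ) = 2 := by
      rw [finrank_comap_mkQ, hRr, hTr]
    have hωJ : ω ∈ T.comap R.mkQ := by
      rw [Submodule.mem_comap]
      have h1 : R.mkQ ω = 0 := by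
        rw [Submodule.mkQ_apply, Submodule.Quotient.mk_eq_zero]
        exact Submodule.mem_span_singleton_self ω
      rw [h1]
      exact T.zero_mem
    have hC := Ex23_C hli hJr hωJ
    have hQr : finrank K ((Fin 3 → K) ⧸ T.comap R.mkQ) = 1 := by
      have h1 := Submodule.finrank_quotient_add_finrank (T.comap R.mkQ)
      rw [hJr, Module.finrank_fin_fun] at h1
      omega
    let g1 : (Fin 3 → k) →ₗ[k] ((Fin 3 → K) ⧸ T.comap R.mkQ) :=
      ((T.comap R.mkQ).mkQ.restrictScalars k) ∘ₗ constL k K 3
    have hg1k : LinearMap.ker g1 = constIn k (T.comap R.mkQ) := by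
      ext c
      rw [LinearMap.mem_ker, mem_constIn]
      show (T.comap R.mkQ).mkQ (constL k K 3 c) = 0 ↔ _
      rw [Submodule.mkQ_apply, Submodule.Quotient.mk_eq_zero]
    have hg1H : LinearMap.range g1 ≤ (X.quo (T.comap R.mkQ)).H0 := by
      rintro _ ⟨c, rfl⟩
      rw [VB.mem_H0]
      intro P
      exact VB.mem_quo.2 ⟨constL k K 3 c, hcX c P, rfl⟩
    have hQ0 : 2 ≤ (X.quo (T.comap R.mkQ)).h0 := by
      have h1 := (finrank_le_h0 hg1H).2
      have h2 := LinearMap.finrank_range_add_finrank_ker g1
      rw [hg1k, Module.finrank_fin_fun] at h2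
      omega
    have hQd := two_sec (by omega) hQr hQ0
    have hd1 := VB.deg_add X (T.comap R.mkQ)
    have hd2 := deg_quo_sub X R T
    have hd3 : ((X.quo R).sub T).deg ≤ 2 := by omega
    have hv : finrank k ↥(LinearMap.range g0 ⊓ T.restrictScalars k) ≤ 1 := by
      have h1 : LinearMap.range g0 ⊓ T.restrictScalars k =
          (constIn k (T.comap R.mkQ)).map g0 := by
        have h2 : constIn k (T.comap R.mkQ) = (T.restrictScalars k).comap g0 := rfl
        rw [h2, Submodule.map_comap_eq]
      rw [h1]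
      exact (Submodule.finrank_map_le _ _).trans hC
    rw [hTr, hVr, hEr, hEdeg]
    have hd3' : (((X.quo R).sub T).deg : ℝ) ≤ 2 := by exact_mod_cast hd3
    have hv' : (finrank k ↥(LinearMap.range g0 ⊓ T.restrictScalars k) : ℝ) ≤ 1 := by
      exact_mod_cast hv
    push_cast
    rw [div_one, one_mul, one_mul]
    linarith
  let f : ((Fin 3 → K) ⧸ R) ≃ₗ[K] (Fin 2 → K) :=
    LinearEquiv.ofFinrankEq _ _ (by rw [hEr, Module.finrank_fin_fun])
  refine ⟨(X.quo R).map f, (LinearMap.range g0).map (f.toLinearMap.restrictScalars k), 1, one_pos,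
    mapV_le_H0 hVH f, ?_, ?_, stableSys_map hst f⟩
  · rw [finrank_mapV, hVr]
  · rw [VB.deg_map, hEdeg]

end Pool.Agent.MP_09eaec.GG.G3
end

section

/-!
# TASK PR: slopes below two

Either `3 h0 (F) ≤ h0 (F.twist κ) = deg F + 2 rank` (`mul_V` with `V = F.H0`, `ω` from `exists_omega`, `h0_twist_canon`),
or there is a relation `s ≠ 0`, and `rel_core` gives `J` of rank one and degree `≥ 2` or rank two and degree `≥ 4`,
against `hsub`.
-/

set_option autoImplicit false

namespace Pool.Agent.MP_09eaec.GG.G3

open Module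

universe u v

variable {k : Type u} {K : Type v} [Field k] [Field K] [Algebra k K]
variable {W : Type v} [AddCommGroup W] [Module K W] [Module k W] [IsScalarTower k K W]
variable {A : Type v} [AddCommGroup A] [Module K A] [Module k A] [IsScalarTower k K A]
variable {B : Type v} [AddCommGroup B] [Module K B] [Module k B] [IsScalarTower k K B]

variable [CurveG k K]

private theorem PR_aux (hg : gen k K = 3) {κ : Dv k K} (hκ : IsCanonical κ) [FiniteDimensional K W]
    {F : VB k K W} {V : Submodule k W} (hV : V ≤ F.H0)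
    (h0 : ∀ φ : W →ₗ[K] K, (∀ P x, x ∈ F.M P → φ x ∈ (line 0).M P) → φ = 0) :
    3 * (finrank k V : ℤ) ≤ F.deg + 2 * finrank K W ∨
    ∃ J : Submodule K W, (finrank K J = 1 ∧ 2 ≤ vd V J ∧ 2 ≤ (F.sub J).deg) ∨
      (finrank K J = 2 ∧ 3 ≤ vd V J ∧ 4 ≤ (F.sub J).deg) := by
  obtain ⟨γ, ω, hγ, hω, hli⟩ := exists_omega hκ
  have hγ3 : γ = 3 := by
    rw [hg] at hγ
    exact_mod_cast hγ
  subst hγ3
  by_cases hinj : ∀ s : Fin 3 → W, (∀ a, s a ∈ V) → ∑ a, ω a • s a = 0 → s = 0
  · left
    have h1 := mul_V (κ := κ) F hV ω hω hinj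
    have h2 := h0_twist_canon hκ (E := F) h0
    rw [h2, hg] at h1
    have e : ((3 : ℤ) - 1) = 2 := by norm_num
    rw [e] at h1
    exact_mod_cast h1
  · right
    push Not at hinj
    obtain ⟨s, hs, hrel, hs0⟩ := hinj
    exact rel_core hg hκ hω hli hV hs hrel hs0

theorem pr (hg : gen k K = 3) {κ : Dv k K} (hκ : IsCanonical κ) [FiniteDimensional K W]
    {F : VB k K W} (hsub : ∀ J : Submodule K W, J ≠ ⊥ → (F.sub J).deg < 2 * finrank K J)
    (h0 : ∀ φ : W →ₗ[K] K, (∀ P x, x ∈ F.M P → φ x ∈ (line 0).M P) → φ = 0) :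
    3 * F.h0 ≤ F.deg + 2 * finrank K W := by
  rcases PR_aux hg hκ (le_refl F.H0) h0 with h | ⟨J, ⟨hJ, _, hd⟩ | ⟨hJ, _, hd⟩⟩
  · exact h
  · have hne : J ≠ ⊥ := by
      rintro rfl
      rw [finrank_bot] at hJ
      omega
    have := hsub J hne
    rw [hJ] at this
    push_cast at this
    linarith
  · have hne : J ≠ ⊥ := by
      rintro rfl
      rw [finrank_bot] at hJ
      omega
    have := hsub J hne
    rw [hJ] at this
    push_cast at this
    linarith

/-- The same, without a hypothesis on the slopes: a subspace of slope at least two, or the bound. -/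
theorem pr_or (hg : gen k K = 3) {κ : Dv k K} (hκ : IsCanonical κ) [FiniteDimensional K W]
    {F : VB k K W} {V : Submodule k W} (hV : V ≤ F.H0)
    (h0 : ∀ φ : W →ₗ[K] K, (∀ P x, x ∈ F.M P → φ x ∈ (line 0).M P) → φ = 0) :
    3 * (finrank k V : ℤ) ≤ F.deg + 2 * finrank K W ∨
    ∃ J : Submodule K W, (finrank K J = 1 ∧ 2 ≤ vd V J ∧ 2 ≤ (F.sub J).deg) ∨
      (finrank K J = 2 ∧ 3 ≤ vd V J ∧ 4 ≤ (F.sub J).deg) := by
  exact PR_aux hg hκ hV h0

end Pool.Agent.MP_09eaec.GG.G3
end

section

/-!
# TASK PairK: two independent maps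

`X` of rank two, `Z = X.twist (-D')`. Suppose any two elements of `(hom Z (line κ)).H0` are dependent over `K`. `(hom Z (line κ)).h0 = Z.h1 ≥ 1`
(`serre`), let `φ ≠ 0` be one, `T = ker φ` of rank one: all of them vanish on `T`, so `(hom (Z.quo T) (line κ)).h0 = (hom Z (line κ)).h0`
(`f ↦ f ∘ mkQ` is a bijection), `(Z.quo T).h1 = Z.h1`. By `VB.rr`: `Z.h0 = deg Z - 2 (g - 1) + h1`, `(Z.quo T).h0 = deg (Z.quo T) - (g - 1) + h1`, and
`deg Z = deg (Z.sub T) + deg (Z.quo T)`: `deg (Z.sub T) = (g - 1) + Z.h0 - (Z.quo T).h0`. With `g = 3`: if `(Z.quo T).h0 = 0` then `deg (Z.sub T) ≥ 2`,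
`(X.sub T).deg ≥ 2 + ddeg D'`, against `hsub`. If `(Z.quo T).h0 ≠ 0` then `deg (Z.quo T) ≥ 0` and `(Z.quo T).h1 ≤ 3` (rank one, the `h1` of an
effective line bundle is at most `g`), against `h5`.
-/

set_option autoImplicit false

namespace Pool.Agent.MP_09eaec.GG.G3

open Module

universe u v

variable {k : Type u} {K : Type v} [Field k] [Field K] [Algebra k K]
variable {W : Type v} [AddCommGroup W] [Module K W] [Module k W] [IsScalarTower k K W]
variable {A : Type v} [AddCommGroup A] [Module K A] [Module k A] [IsScalarTower k K A]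
variable {B : Type v} [AddCommGroup B] [Module K B] [Module k B] [IsScalarTower k K B]

variable [CurveG k K]

private def PairK_F (T : Submodule K A) : ((A ⧸ T) →ₗ[K] K) →ₗ[k] (A →ₗ[K] K) where
  toFun f := f ∘ₗ T.mkQ
  map_add' _ _ := rfl
  map_smul' _ _ := rfl

/-- The homomorphisms which vanish on `T` come from the quotient. -/
private theorem PairK_h0 [FiniteDimensional K A] {Z : VB k K A} {κ : Dv k K} (T : Submodule K A)
    (hT : ∀ ψ ∈ (hom Z (line κ)).H0, T ≤ LinearMap.ker ψ) :
    (hom Z (line κ)).h0 ≤ (hom (Z.quo T) (line κ)).h0 := by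
  have h1 : (hom Z (line κ)).H0 ≤ (hom (Z.quo T) (line κ)).H0.map (PairK_F (k := k) T) := by
    intro ψ hψ
    refine ⟨T.liftQ ψ (hT ψ hψ), ?_, ?_⟩
    · rw [SetLike.mem_coe, VB.mem_H0]
      intro P
      rw [mem_hom]
      intro b hb
      obtain ⟨y, hy, rfl⟩ := VB.mem_quo.1 hb
      exact mem_hom.1 (VB.mem_H0.1 hψ P) y hy
    · exact T.liftQ_mkQ ψ (hT ψ hψ)
  have h2 := Submodule.finrank_mono h1
  have h3 := Submodule.finrank_map_le (PairK_F (k := k) T) (hom (Z.quo T) (line κ)).H0
  unfold VB.h0
  exact_mod_cast h2.trans h3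

/-- A rank one bundle with a section has fewer maps to the canonical bundle. -/
private theorem PairK_one [FiniteDimensional K B] {Q : VB k K B} {κ : Dv k K}
    (hB : finrank K B = 1) {x : B} (hx0 : x ≠ 0) (hx : x ∈ Q.H0) :
    (hom Q (line κ)).h0 ≤ (line κ).h0 := by
  let g : ↥(hom Q (line κ)).H0 →ₗ[k] ↥(line κ).H0 :=
    { toFun := fun f => ⟨(f : B →ₗ[K] K) x,
        VB.mem_H0.2 fun P => mem_hom.1 (VB.mem_H0.1 f.2 P) x (VB.mem_H0.1 hx P)⟩
      map_add' := fun _ _ => rfl
      map_smul' := fun _ _ => rfl }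
  have hg : Function.Injective g := by
    intro f f' hf
    have h1 : (f : B →ₗ[K] K) x = (f' : B →ₗ[K] K) x := congrArg Subtype.val hf
    apply Subtype.ext
    apply LinearMap.ext
    intro y
    obtain ⟨c, rfl⟩ := (finrank_eq_one_iff_of_nonzero' x hx0).1 hB y
    rw [map_smul, map_smul, h1]
  have h2 := LinearMap.finrank_le_finrank_of_injective hg
  unfold VB.h0
  exact_mod_cast h2

theorem pairK (hg : gen k K = 3) {ω : (Place k K →₀ K) →ₗ[k] k} {κ : Dv k K} (h0 : ω ≠ 0)
    (h1 : ∀ (P : Place k K) (x : K), x ∈ (line κ).M P ↔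
      ∀ c ∈ P.filt 0, ω (Finsupp.single P (c * x)) = 0)
    (h2 : ∀ a ∈ (line κ).N, ω a = 0) [FiniteDimensional K A] (hA : finrank K A = 2)
    {X : VB k K A} {D' : Dv k K} (h5 : 5 ≤ (X.twist (-D')).h1)
    (hsub : ∀ J : Submodule K A, finrank K J = 1 → (X.sub J).deg < ddeg D' + 2) :
    ∃ s : Fin 2 → (A →ₗ[K] K), (∀ i, s i ∈ (hom (X.twist (-D')) (line κ)).H0) ∧
      LinearIndependent K s := by
  by_contra hcon
  set Z := X.twist (-D') with hZ
  have hsZ := serre h0 h1 h2 Z
  -- a nonzero homomorphism
  have hne : (hom Z (line κ)).H0 ≠ ⊥ := by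
    intro h
    have h3 : (hom Z (line κ)).h0 = 0 := by
      rw [VB.h0, h, finrank_bot]
      rfl
    rw [← hsZ] at h3
    linarith
  obtain ⟨φ, hφ, hφ0⟩ := Submodule.exists_mem_ne_zero_of_ne_bot hne
  have hdep : ∀ ψ ∈ (hom Z (line κ)).H0, ∃ a : K, a • φ = ψ := by
    intro ψ hψ
    by_contra h
    push Not at h
    refine hcon ⟨![φ, ψ], ?_, (LinearIndependent.pair_iff' hφ0).2 h⟩
    intro i
    fin_cases i
    · exact hφ
    · exact hψ
  set T := LinearMap.ker φ with hT
  have hTψ : ∀ ψ ∈ (hom Z (line κ)).H0, T ≤ LinearMap.ker ψ := by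
    intro ψ hψ x hx
    obtain ⟨a, rfl⟩ := hdep ψ hψ
    rw [hT, LinearMap.mem_ker] at hx
    rw [LinearMap.mem_ker, LinearMap.smul_apply, hx, smul_zero]
  have hTr : finrank K T = 1 := by
    have h3 := LinearMap.finrank_range_add_finrank_ker φ
    rw [LinearMap.range_eq_top.2 (LinearMap.surjective hφ0), finrank_top, finrank_self, hA] at h3
    rw [hT]
    omega
  have hQr : finrank K (A ⧸ T) = 1 := by
    have := Submodule.finrank_quotient_add_finrank T
    omega
  have hsQ := serre h0 h1 h2 (Z.quo T)
  have hle := PairK_h0 (Z := Z) (κ := κ) T hTψ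
  by_cases hQ : (Z.quo T).H0 = ⊥
  · have hQ0 : (Z.quo T).h0 = 0 := by
      rw [VB.h0, hQ, finrank_bot]
      rfl
    have r1 := VB.rr Z
    have r2 := VB.rr (Z.quo T)
    have d1 := VB.deg_add Z T
    have hZT : Z.sub T = (X.sub T).twist (-D') := VB.ext' fun P x => Iff.rfl
    have d2 := VB.deg_twist (X.sub T) (-D')
    rw [← hZT, hTr, ddeg_neg] at d2
    have d3 := hsub T hTr
    have hZ0 := VB.h0_nonneg Z
    rw [hA, hg] at r1
    rw [hQr, hg] at r2
    push_cast at r1 r2 d2
    linarith
  · obtain ⟨x, hx, hx0⟩ := Submodule.exists_mem_ne_zero_of_ne_bot hQ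
    have h3 := PairK_one (κ := κ) hQr hx0 hx
    have h4 : (line κ).h0 = 3 := by
      have e0 := serre_line h0 h1 h2 0
      rw [sub_zero] at e0
      have z := h0_line_zero (k := k) (K := K)
      have c0 := chi_line (0 : Dv k K)
      rw [ddeg_zero] at c0
      unfold VB.chi at c0
      omega
    omega

end Pool.Agent.MP_09eaec.GG.G3
end
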