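import Pool.Agent.Lib.MP_09eaec_ag.GG.Main
import Pool.Agent.Lib.MP_09eaec_ag.Mg.G007
import Pool.Agent.Lib.MP_09eaec_ag.Mg.G018
import Pool.Agent.Lib.MP_09eaec_ag.Mg.G014
import Pool.Agent.Lib.MP_09eaec_ag.Mg.G002
import Pool.Agent.Lib.MP_09eaec_ag.Mg.G020
import Pool.Agent.Lib.MP_09eaec_ag.Mg.G004
import Pool.Agent.Lib.MP_09eaec_ag.Mg.G003
import Pool.Agent.Lib.MP_09eaec_ag.Mg.G009
import Pool.Agent.Lib.MP_09eaec_ag.Mg.G015
import Pool.Agent.Lib.MP_09eaec_ag.GG.LineBasic
import Pool.Agent.Lib.MP_09eaec_ag.Mg.G024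
import Pool.Agent.Lib.MP_09eaec_ag.Mg.G010

section

/-!
# TASK StMem: stable bundles with many sections give stable systems

`E` stable on `Fin n → K`, `1 ≤ n`, `d ≤ h0 E`. Choose `V ≤ E.H0` with `finrank V = d` (`Submodule.exists_finrank_eq...`, or
`exists_submodule_le_finrank_eq`, or take the span of a part of a basis). `α = 1 / (2 n (d + 1))`. For `J ≠ ⊥, ⊤` of rank `r`: `n (E.sub J).deg ≤
r E.deg - 1` (integers), `finrank (V ⊓ J) ≤ d`, so `n ((E.sub J).deg + α finrank (V ⊓ J)) ≤ r E.deg - 1 + α n d < r E.deg ≤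
r (E.deg + α d)` (see `high_system` in GG/High.lean). Then `mem_stableDegrees` (GG/Main.lean).
-/

set_option autoImplicit false

namespace Pool.Agent.MP_09eaec.GG

open Module

universe u v

variable {k : Type u} {K : Type v} [Field k] [Field K] [Algebra k K]

variable [CurveG k K]

theorem stable_mem {n d : ℕ} (hn : 1 ≤ n) {E : VB k K (Fin n → K)} (hE : E.Stable)
    (hd : (d : ℤ) ≤ E.h0) : E.deg ∈ stableDegrees k K n d := by
  have hfr : finrank K (Fin n → K) = n := Module.finrank_fin_fun K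
  have hd' : d ≤ finrank k E.H0 := by
    unfold VB.h0 at hd
    exact_mod_cast hd
  obtain ⟨f, hf⟩ := exists_linearIndependent_of_le_finrank hd'
  set V : Submodule k (Fin n → K) := Submodule.span k (Set.range (E.H0.subtype ∘ f)) with hVdef
  have hV : V ≤ E.H0 := by
    rw [hVdef, Submodule.span_le]
    rintro _ ⟨i, rfl⟩
    exact (f i).2
  have hli : LinearIndependent k (E.H0.subtype ∘ f) :=
    hf.map' E.H0.subtype (Submodule.ker_subtype _)
  have hfV : finrank k V = d := by
    rw [hVdef, finrank_span_eq_card hli, Fintype.card_fin]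
  have hnR : (0 : ℝ) < n := by exact_mod_cast hn
  have hdR : (0 : ℝ) ≤ d := Nat.cast_nonneg d
  refine mem_stableDegrees (α := 1 / (2 * n * (d + 1))) hn (by positivity) hV hfV ?_
  intro J hJb hJt
  have hs := hE J hJb hJt
  rw [hfr] at hs
  have hr0 : 0 < finrank K J := by
    rw [Nat.pos_iff_ne_zero]
    intro h0
    exact hJb (Submodule.finrank_eq_zero.1 h0)
  have hrR : (0 : ℝ) < finrank K J := by exact_mod_cast hr0
  have hle : finrank k ↥(V ⊓ J.restrictScalars k) ≤ d := by
    have : Module.Finite k V := by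
      rw [hVdef]
      exact Module.Finite.span_of_finite k (Set.finite_range _)
    rw [← hfV]
    exact Submodule.finrank_mono inf_le_left
  have hleR : (finrank k ↥(V ⊓ J.restrictScalars k) : ℝ) ≤ d := by exact_mod_cast hle
  have hs' : (n : ℤ) * (E.sub J).deg + 1 ≤ finrank K J * E.deg := hs
  have hsR : (n : ℝ) * ((E.sub J).deg : ℝ) + 1 ≤ finrank K J * (E.deg : ℝ) := by
    exact_mod_cast hs'
  rw [hfV, hfr, div_lt_div_iff₀ hrR hnR]
  have e1 : (1 / (2 * n * (d + 1)) : ℝ) * d * n ≤ 1 / 2 := by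
    have h1 : (1 / (2 * n * (d + 1)) : ℝ) * (d + 1) * n = 1 / 2 := by
      field_simp
    rw [← h1]
    gcongr
    linarith
  have e2 : (1 / (2 * n * (d + 1)) : ℝ) * (finrank k ↥(V ⊓ J.restrictScalars k) : ℝ) * n ≤
      (1 / (2 * n * (d + 1)) : ℝ) * d * n := by gcongr
  have e3 : (0 : ℝ) ≤ (1 / (2 * n * (d + 1)) : ℝ) * d * finrank K J := by positivity
  nlinarith

end Pool.Agent.MP_09eaec.GG
end

section

/-!
# TASK EvenData: the stable bundle used for an even number of sections

`exists_stable (hr : 1 ≤ m) (n + 3 m)`: `G` on `Fin m → K`. `5 m < deg G` as `3 m < n`. `h1 G = 0` (`stable_h1`), so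
`h0 G = n + 3 m - 2 m = n + m` (`VB.rr`). `v` = a `k`-basis of `G.H0` (`Module.finBasis`). `hgen` from `gen_sec` and
`stable_h1_point`. `(G.twist κ).h0 = deg + 4 m - 2 m + h1` and `h1 (G.twist κ) = (hom G (line 0)).h0 = 0` (`hom_twist_line`
in HY/FHdual with `κ - κ = 0`; `stable_hom_zero` in HY/StabVan with `D = 0`). `hb`: `hb0`.
-/

set_option autoImplicit false

namespace Pool.Agent.MP_09eaec.GG.G3

open Module

universe u v

variable {k : Type u} {K : Type v} [Field k] [Field K] [Algebra k K]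
variable {W : Type v} [AddCommGroup W] [Module K W] [Module k W] [IsScalarTower k K W]
variable {A : Type v} [AddCommGroup A] [Module K A] [Module k A] [IsScalarTower k K A]
variable {B : Type v} [AddCommGroup B] [Module K B] [Module k B] [IsScalarTower k K B]

variable [CurveG k K]

theorem even_data (hg : gen k K = 3) {κ : Dv k K} (hκ : IsCanonical κ) {n m : ℕ} (hm : 1 ≤ m)
    (hmn : 3 * m < n) : ∃ (G : VB k K (Fin m → K)) (v : Fin (n + m) → (Fin m → K)),
      G.deg = n + 3 * m ∧ (∀ i, v i ∈ G.H0) ∧ LinearIndependent k v ∧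
      (∀ (P : Place k K) (y : Fin m → K), y ∈ G.M P →
        ∃ c : Fin (n + m) → K, (∀ i, c i ∈ P.filt 0) ∧ ∑ i, c i • v i = y) ∧
      (G.twist κ).h0 = n + 5 * m ∧
      ∀ J : Submodule K (Fin m → K), J ≠ ⊥ → J ≠ ⊤ →
        m * (G.sub J).h0 < (n + m) * finrank K J := by
  obtain ⟨G, hdeg, hst, -⟩ := exists_stable (k := k) (K := K) hm ((n : ℤ) + 3 * m)
  have hfr : finrank K (Fin m → K) = m := by
    rw [Module.finrank_fin_fun]
  have hfr1 : 1 ≤ finrank K (Fin m → K) := by rw [hfr]; exact hm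
  have hmnZ : (3 : ℤ) * m < n := by exact_mod_cast hmn
  have hmZ : (1 : ℤ) ≤ m := by exact_mod_cast hm
  have hd : (2 * gen k K - 1) * finrank K (Fin m → K) < G.deg := by
    rw [hg, hfr, hdeg]
    linarith
  have hh1 : G.h1 = 0 := stable_h1 hκ hst hfr1 hd
  have hh0 : G.h0 = n + m := by
    rw [VB.rr, hh1, hdeg, hg, hfr]
    ring
  have hfin : finrank k G.H0 = n + m := by
    have h1 : ((finrank k G.H0 : ℕ) : ℤ) = n + m := hh0
    exact_mod_cast h1
  let b := Module.finBasisOfFinrankEq k G.H0 hfin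
  have hspan : G.H0 ≤ Submodule.span k (Set.range fun i => (b i : Fin m → K)) := by
    intro x hx
    have h1 : (⟨x, hx⟩ : G.H0) ∈ Submodule.span k (Set.range b) := by
      rw [b.span_eq]
      exact Submodule.mem_top
    have h2 := Submodule.mem_map_of_mem (f := G.H0.subtype) h1
    rw [Submodule.map_span, ← Set.range_comp] at h2
    exact h2
  refine ⟨G, fun i => (b i : Fin m → K), hdeg, fun i => (b i).2, ?_, ?_, ?_, ?_⟩
  · exact b.linearIndependent.map' G.H0.subtype (Submodule.ker_subtype _)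
  · intro P y hy
    exact gen_sec (fun P => stable_h1_point hκ hst hfr1 hd P) hspan P hy
  · have h1 : (G.twist κ).h1 = 0 := by
      rw [hκ.dual, hom_twist_line, sub_self]
      refine stable_hom_zero hst hfr1 ?_
      rw [ddeg_zero, mul_zero, hdeg]
      linarith
    rw [VB.rr, h1, VB.deg_twist, hκ.ddeg, hg, hfr, hdeg]
    ring
  · intro J hJ hJ'
    have h1 := hb0 hκ hst hfr1 hd hJ hJ'
    rw [hfr, hdeg, hg] at h1
    have e1 : (n : ℤ) + 3 * m - (3 - 1) * m = n + m := by ring
    rw [e1] at h1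
    exact h1

end Pool.Agent.MP_09eaec.GG.G3
end

section

/-!
# TASK DualRel: a relation between maps to the canonical bundle

`X = hom S (line κ)` on `W →ₗ[K] K`, `V = X.H0`. `rel_core` for `X`, `s = φ` gives `J ≤ (W →ₗ[K] K)`, of rank one with
`deg ≥ 2` or of rank two with `deg ≥ 4`. Let `T = ⨅ f ∈ J, ker f` (`Submodule.dualCoannihilator`), so
`finrank (W ⧸ T) = finrank J` and `J` is the set of functionals which vanish on `T` (finite dimension). The
isomorphism `(W ⧸ T →ₗ[K] K) ≃ J`, `f ↦ f ∘ T.mkQ`, maps `hom (S.quo T) (line κ)` onto `X.sub J` (`mem_hom`, `mem_quo`),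
so `(X.sub J).deg = (hom (S.quo T) (line κ)).deg ≤ finrank (W ⧸ T) * 4 - (S.quo T).deg` (`deg_hom_le`, `deg_line`,
`hκ.ddeg`). Rank one: `(S.quo T).deg ≤ 2`; rank two: `(S.quo T).deg ≤ 4`.
-/

set_option autoImplicit false

namespace Pool.Agent.MP_09eaec.GG.G3

open Module

universe u v

variable {k : Type u} {K : Type v} [Field k] [Field K] [Algebra k K]
variable {W : Type v} [AddCommGroup W] [Module K W] [Module k W] [IsScalarTower k K W]
variable {A : Type v} [AddCommGroup A] [Module K A] [Module k A] [IsScalarTower k K A]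
variable {B : Type v} [AddCommGroup B] [Module K B] [Module k B] [IsScalarTower k K B]

variable [CurveG k K]

private noncomputable def DualRel_equiv [FiniteDimensional K W]
    (J : Submodule K (W →ₗ[K] K)) :
    ((W ⧸ Submodule.dualCoannihilator J) →ₗ[K] K) ≃ₗ[K] J :=
  (Submodule.dualQuotEquivDualAnnihilator (Submodule.dualCoannihilator J)).trans
    (LinearEquiv.ofEq _ _ Subspace.dualCoannihilator_dualAnnihilator_eq)

omit [Algebra k K] [Module k W] [IsScalarTower k K W] [CurveG k K] in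
private lemma DualRel_equiv_symm [FiniteDimensional K W]
    (J : Submodule K (W →ₗ[K] K)) (x : J) (y : W) :
    (DualRel_equiv J).symm x ((Submodule.dualCoannihilator J).mkQ y) = (x : W →ₗ[K] K) y :=
  rfl

private lemma DualRel_map [FiniteDimensional K W] (S : VB k K W) (κ : Dv k K)
    (J : Submodule K (W →ₗ[K] K)) :
    (hom (S.quo (Submodule.dualCoannihilator J)) (line κ)).map (DualRel_equiv J) =
      (hom S (line κ)).sub J := by
  refine VB.ext' fun P x => ?_
  rw [VB.mem_map, VB.mem_sub, mem_hom, mem_hom]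
  constructor
  · intro h b hb
    have h1 := h ((Submodule.dualCoannihilator J).mkQ b) ⟨b, hb, rfl⟩
    rwa [DualRel_equiv_symm] at h1
  · rintro h b ⟨y, hy, rfl⟩
    exact h y hy

private lemma DualRel_finrank [FiniteDimensional K W] (J : Submodule K (W →ₗ[K] K)) :
    finrank K (W ⧸ Submodule.dualCoannihilator J) = finrank K J := by
  have h1 : finrank K J + finrank K (Submodule.dualCoannihilator J) = finrank K W :=
    Subspace.finrank_add_finrank_dualCoannihilator_eq J
  have h2 := Submodule.finrank_quotient_add_finrank (Submodule.dualCoannihilator J)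
  omega

theorem dual_rel (hg : gen k K = 3) {κ : Dv k K} (hκ : IsCanonical κ) {ω : Fin 3 → K}
    (hω : ∀ a, ω a ∈ (line κ).H0) (hli : LinearIndependent k ω) [FiniteDimensional K W]
    (S : VB k K W) {φ : Fin 3 → (W →ₗ[K] K)} (hφ : ∀ a, φ a ∈ (hom S (line κ)).H0)
    (hrel : ∑ a, ω a • φ a = 0) (hφ0 : φ ≠ 0) :
    ∃ T : Submodule K W, T ≠ ⊤ ∧ (S.quo T).deg ≤ 2 * finrank K (W ⧸ T) := by
  obtain ⟨J, hJ⟩ := rel_core hg hκ hω hli (E := hom S (line κ)) le_rfl hφ hrel hφ0
  have h1 := deg_hom_le (S.quo (Submodule.dualCoannihilator J)) (line κ)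
  have h2 : (hom (S.quo (Submodule.dualCoannihilator J)) (line κ)).deg =
      ((hom S (line κ)).sub J).deg := by
    rw [← DualRel_map S κ J, VB.deg_map]
  rw [h2, VB.deg_line, hκ.ddeg, hg, finrank_self, DualRel_finrank] at h1
  have h3 : 1 ≤ finrank K J ∧ (2 * finrank K J : ℤ) ≤ ((hom S (line κ)).sub J).deg := by
    rcases hJ with ⟨e1, -, e2⟩ | ⟨e1, -, e2⟩
    · rw [e1]
      exact ⟨le_rfl, by push_cast; omega⟩
    · rw [e1]
      exact ⟨by omega, by push_cast; omega⟩
  refine ⟨Submodule.dualCoannihilator J, ?_, ?_⟩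
  · intro htop
    have h4 := DualRel_finrank J
    have h5 := Submodule.finrank_quotient_add_finrank (Submodule.dualCoannihilator J)
    rw [htop, finrank_top] at h5
    rw [htop] at h4
    omega
  · rw [DualRel_finrank]
    push_cast at h1
    have h4 := h3.2
    omega

end Pool.Agent.MP_09eaec.GG.G3
end

section

/-!
# TASK PRd: slopes above two

`hquo` and `dual_rel`: the map `ψ ↦ ∑ ω a • ψ a` is injective on triples of maps `S → K` (canonical).
* `prd`: `mul_le` (GG/MulLe).
* `prd_extra`: `(S.twist (-κ)).h1 = (hom (S.twist (-κ)) (line κ)).h0 = (hom S (line (κ + κ))).h0` (`hκ.dual`,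
  `hom_twist_line` in HY/FHdual). The image of the injective map has dimension `3 * S.h1` and does not contain `Ψ`.
* `prd_deg`: if moreover `(S.twist (-κ)).H0 = ⊥` then `(S.twist (-κ)).h1 = 6 rank - deg` (`h1_twist_neg`).
-/

set_option autoImplicit false

namespace Pool.Agent.MP_09eaec.GG.G3

open Module

universe u v

variable {k : Type u} {K : Type v} [Field k] [Field K] [Algebra k K]
variable {W : Type v} [AddCommGroup W] [Module K W] [Module k W] [IsScalarTower k K W]
variable {A : Type v} [AddCommGroup A] [Module K A] [Module k A] [IsScalarTower k K A]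
variable {B : Type v} [AddCommGroup B] [Module K B] [Module k B] [IsScalarTower k K B]

variable [CurveG k K]

private theorem PRd_inj (hg : gen k K = 3) {κ : Dv k K} (hκ : IsCanonical κ) {ω : Fin 3 → K}
    (hω : ∀ a, ω a ∈ (line κ).H0) (hli : LinearIndependent k ω) [FiniteDimensional K W]
    {S : VB k K W} (hquo : ∀ T : Submodule K W, T ≠ ⊤ → 2 * (finrank K (W ⧸ T) : ℤ) < (S.quo T).deg)
    (ψ : Fin 3 → (W →ₗ[K] K)) (hψ : ∀ a, ψ a ∈ (hom S (line κ)).H0)
    (hrel : ∑ a, ω a • ψ a = 0) : ψ = 0 := by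
  by_contra hne
  obtain ⟨T, hT, hT2⟩ := dual_rel hg hκ hω hli S hψ hrel hne
  have := hquo T hT
  omega

omit [CurveG k K] [Field K] [Algebra k K] in
private theorem PRd_lin {V X : Type*} [AddCommGroup V] [Module k V] [AddCommGroup X] [Module k X]
    [FiniteDimensional k X] (T : V →ₗ[k] X) (hT : Function.Injective T) {x : X}
    (hx : ∀ v, T v ≠ x) : finrank k V + 1 ≤ finrank k X := by
  have hne : LinearMap.range T ≠ ⊤ := by
    intro htop
    have h1 : x ∈ LinearMap.range T := by
      rw [htop]; exact Submodule.mem_top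
    obtain ⟨v, hv⟩ := h1
    exact hx v hv
  have h3 := Submodule.finrank_lt hne
  rw [LinearMap.finrank_range_of_inj hT] at h3
  omega

private theorem PRd_mem {κ : Dv k K} [FiniteDimensional K W] (S : VB k K W) {ω : K}
    (hω : ω ∈ (line κ).H0) {ψ : W →ₗ[K] K} (hψ : ψ ∈ (hom S (line κ)).H0) :
    ω • ψ ∈ (hom S (line (κ + κ))).H0 := by
  rw [VB.mem_H0] at hω hψ ⊢
  intro P
  rw [mem_hom]
  intro x hx
  have h2 := mem_hom.1 (hψ P) _ hx
  have h4 := mul_mem_filt P (mem_line.1 (hω P)) (mem_line.1 h2)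
  rw [LinearMap.smul_apply, smul_eq_mul, mem_line]
  convert h4 using 2
  rw [Finsupp.add_apply]
  ring

theorem prd (hg : gen k K = 3) {κ : Dv k K} (hκ : IsCanonical κ) [FiniteDimensional K W]
    {S : VB k K W} (hquo : ∀ T : Submodule K W, T ≠ ⊤ → 2 * (finrank K (W ⧸ T) : ℤ) < (S.quo T).deg) :
    3 * S.h1 ≤ (S.twist (-κ)).h1 := by
  obtain ⟨γ, ω, hγ, hω, hli⟩ := exists_omega hκ
  obtain rfl : γ = 3 := by omega
  have h := mul_le hκ S ω hω (PRd_inj hg hκ hω hli hquo)
  exact_mod_cast h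

theorem prd_extra (hg : gen k K = 3) {κ : Dv k K} (hκ : IsCanonical κ) {ω : Fin 3 → K}
    (hω : ∀ a, ω a ∈ (line κ).H0) (hli : LinearIndependent k ω) [FiniteDimensional K W]
    {S : VB k K W} (hquo : ∀ T : Submodule K W, T ≠ ⊤ → 2 * (finrank K (W ⧸ T) : ℤ) < (S.quo T).deg)
    {Ψ : W →ₗ[K] K} (hΨ : ∀ P x, x ∈ S.M P → Ψ x ∈ (line (κ + κ)).M P)
    (hne : ∀ ψ : Fin 3 → (W →ₗ[K] K), (∀ a, ψ a ∈ (hom S (line κ)).H0) → ∑ a, ω a • ψ a ≠ Ψ) :
    3 * S.h1 + 1 ≤ (S.twist (-κ)).h1 := by
  have e1 : κ - -κ = κ + κ := by rw [sub_neg_eq_add]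
  have e2 : (S.twist (-κ)).h1 = (hom S (line (κ + κ))).h0 := by
    rw [hκ.dual W (S.twist (-κ)), hom_twist_line, e1]
  rw [hκ.dual W S, e2]
  have hfin : Module.Finite k (hom S (line (κ + κ))).H0 := VB.finite_H0 _
  have hfin1 : Module.Finite k (hom S (line κ)).H0 := VB.finite_H0 _
  let T : (Fin 3 → (hom S (line κ)).H0) →ₗ[k] (hom S (line (κ + κ))).H0 :=
    { toFun := fun ψ => ⟨∑ a, ω a • (ψ a : W →ₗ[K] K),
        Submodule.sum_mem _ fun a _ => PRd_mem S (hω a) (ψ a).2⟩
      map_add' := fun ψ φ => by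
        apply Subtype.ext
        show ∑ a, ω a • ((ψ a : W →ₗ[K] K) + (φ a : W →ₗ[K] K)) =
          ∑ a, ω a • (ψ a : W →ₗ[K] K) + ∑ a, ω a • (φ a : W →ₗ[K] K)
        rw [← Finset.sum_add_distrib]
        exact Finset.sum_congr rfl fun a _ => smul_add _ _ _
      map_smul' := fun c ψ => by
        apply Subtype.ext
        show ∑ a, ω a • (c • (ψ a : W →ₗ[K] K)) = c • ∑ a, ω a • (ψ a : W →ₗ[K] K)
        rw [Finset.smul_sum]
        exact Finset.sum_congr rfl fun a _ => smul_comm _ _ _ }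
  have hT : Function.Injective T := by
    rw [injective_iff_map_eq_zero]
    intro ψ hψ
    have h1 : ∑ a, ω a • (ψ a : W →ₗ[K] K) = 0 := congrArg Subtype.val hψ
    have h2 := PRd_inj hg hκ hω hli hquo (fun a => (ψ a : W →ₗ[K] K)) (fun a => (ψ a).2) h1
    funext a
    apply Subtype.ext
    exact congrFun h2 a
  have hΨm : Ψ ∈ (hom S (line (κ + κ))).H0 :=
    VB.mem_H0.2 fun P => mem_hom.2 (hΨ P)
  have hne2 : ∀ ψ : Fin 3 → (hom S (line κ)).H0, T ψ ≠ ⟨Ψ, hΨm⟩ := by
    intro ψ hψ
    have h2 : ∑ a, ω a • (ψ a : W →ₗ[K] K) = Ψ := congrArg Subtype.val hψ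
    exact hne (fun a => (ψ a : W →ₗ[K] K)) (fun a => (ψ a).2) h2
  have h3 := PRd_lin (k := k) (V := Fin 3 → ↥(hom S (line κ)).H0)
    (X := ↥(hom S (line (κ + κ))).H0) (x := ⟨Ψ, hΨm⟩) T hT hne2
  rw [Module.finrank_pi_fintype] at h3
  simp only [Finset.sum_const, Finset.card_univ, Fintype.card_fin, smul_eq_mul] at h3
  unfold VB.h0
  exact_mod_cast h3

theorem prd_deg (hg : gen k K = 3) {κ : Dv k K} (hκ : IsCanonical κ) [FiniteDimensional K W]
    {S : VB k K W} (h : (S.twist (-κ)).H0 = ⊥) :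
    (S.twist (-κ)).h1 = 6 * finrank K W - S.deg := by
  rw [VB.h1_twist_neg hκ.ddeg h, hg]
  norm_num

end Pool.Agent.MP_09eaec.GG.G3
end

section

/-!
# TASK MaxKer: a subspace of maximal slope of a kernel bundle

`T0 ≤ Fin N → K` a subspace, `E = (pw κ N).sub T0`. `S ≤ T0` (as a subspace of `T0`), `S' = S.map T0.subtype`,
`(E.sub S).deg = ((pw κ N).sub S').deg` (`deg_sub_sub`). The quotients of `(pw κ N).sub S'` have slope at least `slope S` (`max_quo`,
transported along `S ≃ S'`, or `max_quo` for `E.sub S` and `h1_sub_sub`, `h0_sub_sub`), which is greater than two.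
`((pw κ N).sub S').twist (-κ)` is contained in `pw 0 N`, whose sections are constant vectors, and `T0` contains no nonzero constant
vector. So `(S'.twist (-κ)).H0 = ⊥`, and `prd`, `prd_deg`: `3 h1 ≤ 6 r - deg`. `hquo` is also given for later use.
-/

set_option autoImplicit false

namespace Pool.Agent.MP_09eaec.GG.G3

open Module

universe u v

variable {k : Type u} {K : Type v} [Field k] [Field K] [Algebra k K]
variable {W : Type v} [AddCommGroup W] [Module K W] [Module k W] [IsScalarTower k K W]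
variable {A : Type v} [AddCommGroup A] [Module K A] [Module k A] [IsScalarTower k K A]
variable {B : Type v} [AddCommGroup B] [Module K B] [Module k B] [IsScalarTower k K B]

variable [CurveG k K]

/-- The quotients have slope above two. -/
private lemma MaxKer_quo {E0 : VB k K W} [FiniteDimensional K W]
    {T0 : Submodule K W} {S : Submodule K T0} (hS : S ≠ ⊥)
    (hmax : ∀ J : Submodule K T0, J ≠ ⊥ → ((E0.sub T0).sub J).deg * finrank K S ≤
      ((E0.sub T0).sub S).deg * finrank K J)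
    (hsl : 2 * (finrank K S : ℤ) < ((E0.sub T0).sub S).deg)
    {S' : Submodule K W} (hS' : S' = S.map T0.subtype)
    (T : Submodule K S') (hT : T ≠ ⊤) :
    2 * (finrank K (↥S' ⧸ T) : ℤ) < ((E0.sub S').quo T).deg := by
  set T' := T.map S'.subtype with hT'
  have hle1 : T' ≤ S' := Submodule.map_subtype_le S' T
  have hle2 : S' ≤ T0 := by
    rw [hS']
    exact Submodule.map_subtype_le T0 S
  set J : Submodule K T0 := T'.comap T0.subtype with hJ
  have hJmap : J.map T0.subtype = T' := by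
    rw [hJ, Submodule.map_comap_subtype]
    exact inf_eq_right.2 (hle1.trans hle2)
  have hrS : finrank K S' = finrank K S := by
    rw [hS']
    exact Submodule.finrank_map_subtype_eq T0 S
  have hrT : finrank K T' = finrank K T := Submodule.finrank_map_subtype_eq S' T
  have hrJ : finrank K J = finrank K T := by
    rw [← hrT, ← hJmap]
    exact (Submodule.finrank_map_subtype_eq T0 J).symm
  have hdS : ((E0.sub T0).sub S).deg = (E0.sub S').deg := by
    rw [hS']
    exact VB.deg_sub_sub E0 T0 S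
  have hdT : ((E0.sub S').sub T).deg = (E0.sub T').deg := VB.deg_sub_sub E0 S' T
  have hdJ : ((E0.sub T0).sub J).deg = (E0.sub T').deg := by
    rw [VB.deg_sub_sub E0 T0 J, hJmap]
  have hadd := VB.deg_add (E0.sub S') T
  have hfr := Submodule.finrank_quotient_add_finrank T
  have hlt : finrank K T < finrank K S' := Submodule.finrank_lt hT
  have hs0 : 0 < finrank K S := by
    rw [← hrS]
    omega
  have hineq : ((E0.sub T0).sub J).deg * finrank K S ≤
      ((E0.sub T0).sub S).deg * finrank K J := by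
    by_cases hJ0 : J = ⊥
    · have h1 : ((E0.sub T0).sub J).deg = 0 := by
        rw [hJ0]
        exact VB.deg_sub_bot _
      have h2 : finrank K J = 0 := by
        rw [hJ0]
        exact finrank_bot K T0
      rw [h1, h2]
      simp
    · exact hmax J hJ0
  rw [hdJ, hdS, hrJ] at hineq
  rw [hdS] at hsl
  rw [hdT] at hadd
  have hfr' : (finrank K (↥S' ⧸ T) : ℤ) + finrank K T = finrank K S := by
    rw [← hrS]
    exact_mod_cast hfr
  have hqpos : (0 : ℤ) < finrank K (↥S' ⧸ T) := by
    have : 0 < finrank K (↥S' ⧸ T) := by omega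
    exact_mod_cast this
  have hs0' : (0 : ℤ) < finrank K S := by exact_mod_cast hs0
  by_contra hcon
  push Not at hcon
  have h1 : ((E0.sub S').quo T).deg * finrank K S ≤
      2 * (finrank K (↥S' ⧸ T) : ℤ) * finrank K S := mul_le_mul_of_nonneg_right hcon hs0'.le
  have h2 : 2 * (finrank K S : ℤ) * finrank K (↥S' ⧸ T) <
      (E0.sub S').deg * finrank K (↥S' ⧸ T) := mul_lt_mul_of_pos_right hsl hqpos
  have h3 : (E0.sub S').deg * (finrank K S : ℤ) =
      (E0.sub T').deg * finrank K S + ((E0.sub S').quo T).deg * finrank K S := by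
    rw [hadd]
    ring
  have h4 : (E0.sub S').deg * (finrank K S : ℤ) =
      (E0.sub S').deg * finrank K (↥S' ⧸ T) + (E0.sub S').deg * finrank K T := by
    rw [← hfr']
    ring
  linarith

/-- No sections after the twist. -/
private lemma MaxKer_H0 {κ : Dv k K} {N : ℕ}
    {T0 : Submodule K (Fin N → K)}
    (hT0 : ∀ c : Fin N → k, (fun i => algebraMap k K (c i)) ∈ T0 → c = 0)
    {S' : Submodule K (Fin N → K)} (hle : S' ≤ T0) :
    ((((pw κ N).sub S')).twist (-κ)).H0 = ⊥ := by
  rw [eq_bot_iff]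
  intro x hx
  rw [Submodule.mem_bot]
  rw [VB.mem_H0] at hx
  have h1 : ∀ i, (x : Fin N → K) i ∈ (line (0 : Dv k K)).H0 := by
    intro i
    rw [VB.mem_H0]
    intro P
    rw [mem_line]
    obtain ⟨t, ht, htm⟩ := exists_ord_eq P ((-κ) P)
    have h2 := hx P t (Or.inr htm.ge)
    have h3 : t * (x : Fin N → K) i ∈ P.filt (-κ P) := h2 i
    have h4 : t * (x : Fin N → K) i ∈ P.filt (0 + (-κ) P) := by
      rw [zero_add]
      exact h3
    have h5 := (mem_filt_iff_of_ord P ht htm 0).1 h4
    simpa using h5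
  choose c hc using fun i => H0_line_zero (h1 i)
  have h6 : (fun i => algebraMap k K (c i)) = (x : Fin N → K) := funext hc
  have h7 : c = 0 := hT0 c (by rw [h6]; exact hle x.2)
  apply Subtype.ext
  rw [← h6, h7]
  funext i
  simp

theorem max_ker (hg : gen k K = 3) {κ : Dv k K} (hκ : IsCanonical κ) {N : ℕ}
    {T0 : Submodule K (Fin N → K)}
    (hT0 : ∀ c : Fin N → k, (fun i => algebraMap k K (c i)) ∈ T0 → c = 0)
    {S : Submodule K T0} (hS : S ≠ ⊥)
    (hmax : ∀ J : Submodule K T0, J ≠ ⊥ → (((pw κ N).sub T0).sub J).deg * finrank K S ≤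
      (((pw κ N).sub T0).sub S).deg * finrank K J)
    (hsl : 2 * (finrank K S : ℤ) < (((pw κ N).sub T0).sub S).deg) :
    let X := (pw κ N).sub (S.map T0.subtype)
    3 * X.h1 ≤ 6 * finrank K S - X.deg ∧ (X.twist (-κ)).H0 = ⊥ ∧
      X.deg = (((pw κ N).sub T0).sub S).deg ∧ finrank K (S.map T0.subtype) = finrank K S ∧
      ∀ T : Submodule K (S.map T0.subtype), T ≠ ⊤ →
        2 * (finrank K (↥(S.map T0.subtype) ⧸ T) : ℤ) < (X.quo T).deg := by
  intro X
  have hquo : ∀ T : Submodule K (S.map T0.subtype), T ≠ ⊤ →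
        2 * (finrank K (↥(S.map T0.subtype) ⧸ T) : ℤ) < (X.quo T).deg :=
    fun T hT => MaxKer_quo hS hmax hsl rfl T hT
  have hH0 : (X.twist (-κ)).H0 = ⊥ := MaxKer_H0 hT0 (Submodule.map_subtype_le T0 S)
  have hr : finrank K (S.map T0.subtype) = finrank K S := Submodule.finrank_map_subtype_eq T0 S
  have hdeg : X.deg = (((pw κ N).sub T0).sub S).deg := (VB.deg_sub_sub (pw κ N) T0 S).symm
  refine ⟨?_, hH0, hdeg, hr, hquo⟩
  have h1 := prd hg hκ hquo
  have h2 := prd_deg hg hκ hH0
  rw [hr] at h2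
  linarith

end Pool.Agent.MP_09eaec.GG.G3
end

section

/-!
# TASK Mid: slopes between two and four

`(S.twist (-κ)).H0 = ⊥` (`twist_H0_bot` in HY/SpanDeg with `D = κ`, `hsub` for rank one), so `prd` and `prd_deg` give
`3 h1 ≤ 6 r - d`, and `h0 = d - 2 r + h1` (`VB.rr`).
-/

set_option autoImplicit false

namespace Pool.Agent.MP_09eaec.GG.G3

open Module

universe u v

variable {k : Type u} {K : Type v} [Field k] [Field K] [Algebra k K]
variable {W : Type v} [AddCommGroup W] [Module K W] [Module k W] [IsScalarTower k K W]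
variable {A : Type v} [AddCommGroup A] [Module K A] [Module k A] [IsScalarTower k K A]
variable {B : Type v} [AddCommGroup B] [Module K B] [Module k B] [IsScalarTower k K B]

variable [CurveG k K]

theorem mid (hg : gen k K = 3) [FiniteDimensional K W] {S : VB k K W}
    (hquo : ∀ T : Submodule K W, T ≠ ⊤ → 2 * (finrank K (W ⧸ T) : ℤ) < (S.quo T).deg)
    (hsub : ∀ J : Submodule K W, J ≠ ⊥ → (S.sub J).deg < 4 * finrank K J) :
    3 * S.h0 ≤ 2 * S.deg := by
  obtain ⟨κ, hκ⟩ := exists_canonical (k := k) (K := K)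
  have hH0 : (S.twist (-κ)).H0 = ⊥ := by
    refine twist_H0_bot fun J hJ => ?_
    have hJb : J ≠ ⊥ := by
      rintro rfl
      rw [finrank_bot] at hJ
      omega
    have h1 := hsub J hJb
    rw [hJ] at h1
    rw [hκ.ddeg, hg]
    push_cast at h1
    linarith
  have h1 := prd hg hκ hquo
  rw [prd_deg hg hκ hH0] at h1
  have h2 := VB.rr S
  rw [hg] at h2
  linarith

end Pool.Agent.MP_09eaec.GG.G3
end

section

/-!
# TASK TwoDeg: `3 k ≤ 2 deg`

`slope_part` with `c = 4`: `J`. Let `Q = E.quo J`. If `J ≠ ⊤`: `mid` for `Q` (its quotients are quotients of `E`: for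
`T ≤ W ⧸ J`, `(Q.quo T).deg = (E.quo J').deg` with `J' = T.comap J.mkQ`, from `deg_quo_sub` and `VB.deg_add`, and the
same for the ranks), so `3 Q.h0 ≤ 2 Q.deg`, and `k ≤ Q.h0 + vd V J` (`finrank_image_le`).
 * `J = ⊥`: `vd = 0`, `Q.deg = d`.
 * `J = ⊤`: `d ≥ 4 n`, `3 k ≤ 6 n`.
 * otherwise the stability inequality for `J` (`d' = deg J ≥ 4 r'`, `k' = vd V J`): `(d' + α k') / r' < (d + α k) / n`.
   `hsub` of `slope_part` for `⊤`: `Q.deg < 4 (n - r')`, so `d' / r' ≥ 4 > Q.deg / (n - r')` and `d' / r' > d / n`. So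
   `k' / r' < k / n ≤ 2`, `3 k' < 6 r' ≤ 8 r' ≤ 2 d'`.
-/

set_option autoImplicit false

namespace Pool.Agent.MP_09eaec.GG.G3

open Module

universe u v

variable {k : Type u} {K : Type v} [Field k] [Field K] [Algebra k K]
variable {W : Type v} [AddCommGroup W] [Module K W] [Module k W] [IsScalarTower k K W]
variable {A : Type v} [AddCommGroup A] [Module K A] [Module k A] [IsScalarTower k K A]
variable {B : Type v} [AddCommGroup B] [Module K B] [Module k B] [IsScalarTower k K B]

variable [CurveG k K]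

private theorem TwoDeg_quo [FiniteDimensional K W] {E : VB k K W}
    (hquo : ∀ J : Submodule K W, J ≠ ⊤ → 2 * (finrank K (W ⧸ J) : ℤ) < (E.quo J).deg)
    (J : Submodule K W) (T : Submodule K (W ⧸ J)) (hT : T ≠ ⊤) :
    2 * (finrank K ((W ⧸ J) ⧸ T) : ℤ) < ((E.quo J).quo T).deg := by
  have h1 : T.comap J.mkQ ≠ ⊤ := by
    intro h
    apply hT
    rw [Submodule.eq_top_iff']
    intro x
    obtain ⟨y, rfl⟩ := J.mkQ_surjective x
    have h2 : y ∈ T.comap J.mkQ := by rw [h]; exact Submodule.mem_top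
    exact h2
  have h2 := hquo _ h1
  have d1 := VB.deg_add E J
  have d2 := VB.deg_add (E.quo J) T
  have d3 := deg_quo_sub E J T
  have d4 := VB.deg_add E (T.comap J.mkQ)
  have r1 := Submodule.finrank_quotient_add_finrank J
  have r2 := Submodule.finrank_quotient_add_finrank T
  have r3 := finrank_comap_mkQ J T
  have r4 := Submodule.finrank_quotient_add_finrank (T.comap J.mkQ)
  have h3 : (finrank K ((W ⧸ J) ⧸ T) : ℤ) = finrank K (W ⧸ T.comap J.mkQ) := by
    have : finrank K ((W ⧸ J) ⧸ T) = finrank K (W ⧸ T.comap J.mkQ) := by omega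
    exact_mod_cast this
  rw [h3]
  linarith

theorem two_deg (hg : gen k K = 3) [FiniteDimensional K W] {E : VB k K W} {V : Submodule k W}
    (hV : V ≤ E.H0) {α : ℝ} (hα : 0 < α) (hn : 1 ≤ finrank K W) (hst : E.StableSys α V)
    (hk : finrank k V ≤ 2 * finrank K W)
    (hquo : ∀ J : Submodule K W, J ≠ ⊤ → 2 * (finrank K (W ⧸ J) : ℤ) < (E.quo J).deg) :
    3 * (finrank k V : ℤ) ≤ 2 * E.deg := by
  obtain ⟨J, hJ1, hJ2⟩ := slope_part E 4
  have dadd := VB.deg_add E J
  have rJ := Submodule.finrank_quotient_add_finrank J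
  have hk' : (finrank k V : ℤ) ≤ 2 * finrank K W := by exact_mod_cast hk
  by_cases htop : J = ⊤
  · have h1 : finrank K J = finrank K W := by rw [htop, finrank_top]
    have h2 : finrank K (W ⧸ J) = 0 := by omega
    have h3 := VB.deg_of_finrank_zero (E.quo J) h2
    rw [h1] at hJ1
    rw [h3] at dadd
    linarith
  have hmid := mid hg (S := E.quo J) (TwoDeg_quo hquo J) hJ2
  have himg := finrank_image_le hV J
  by_cases hbot : J = ⊥
  · have h1 : finrank K J = 0 := by rw [hbot, finrank_bot]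
    have h2 := VB.deg_of_finrank_zero (E.sub J) h1
    have h3 : vd V J = 0 := by rw [hbot]; exact vd_bot V
    rw [h3] at himg
    rw [h2] at dadd
    push_cast at himg
    linarith
  have hr' : 1 ≤ finrank K J := by
    rw [Nat.one_le_iff_ne_zero]
    intro h
    exact hbot (Submodule.finrank_eq_zero.1 h)
  have hr'' : 1 ≤ finrank K (W ⧸ J) := by
    rw [Nat.one_le_iff_ne_zero]
    intro h
    apply htop
    apply Submodule.eq_top_of_finrank_eq
    omega
  have hQ : (E.quo J).deg < 4 * finrank K (W ⧸ J) := by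
    have hne : (⊤ : Submodule K (W ⧸ J)) ≠ ⊥ := by
      intro h
      have h1 : finrank K (⊤ : Submodule K (W ⧸ J)) = 0 := by rw [h, finrank_bot]
      rw [finrank_top] at h1
      omega
    have h1 := hJ2 ⊤ hne
    have h2 := VB.deg_add (E.quo J) ⊤
    have h3 : finrank K ((W ⧸ J) ⧸ (⊤ : Submodule K (W ⧸ J))) = 0 := by
      have := Submodule.finrank_quotient_add_finrank (⊤ : Submodule K (W ⧸ J))
      rw [finrank_top] at this
      omega
    have h4 := VB.deg_of_finrank_zero ((E.quo J).quo ⊤) h3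
    rw [finrank_top] at h1
    rw [h4] at h2
    linarith
  have hs := hst J hbot htop
  have hvd : (finrank k ↥(V ⊓ J.restrictScalars k) : ℝ) = (vd V J : ℝ) := rfl
  rw [hvd, div_lt_div_iff₀ (by exact_mod_cast hr') (by exact_mod_cast hn)] at hs
  have e1 : (4 : ℝ) * finrank K J ≤ (E.sub J).deg := by exact_mod_cast hJ1
  have e2 : ((E.quo J).deg : ℝ) < 4 * finrank K (W ⧸ J) := by exact_mod_cast hQ
  have e3 : (E.deg : ℝ) = (E.sub J).deg + (E.quo J).deg := by exact_mod_cast dadd
  have e4 : (finrank K (W ⧸ J) : ℝ) + finrank K J = finrank K W := by exact_mod_cast rJ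
  have e5 : (1 : ℝ) ≤ finrank K J := by exact_mod_cast hr'
  have e6 : (1 : ℝ) ≤ finrank K (W ⧸ J) := by exact_mod_cast hr''
  have e7 : (finrank k V : ℝ) ≤ 2 * finrank K W := by exact_mod_cast hk
  have f1 : (E.deg : ℝ) * finrank K J < (E.sub J).deg * finrank K W := by
    rw [e3, ← e4]
    have g1 := mul_le_mul_of_nonneg_right e1 (by linarith : (0 : ℝ) ≤ finrank K (W ⧸ J))
    have g2 := mul_lt_mul_of_pos_right e2 (by linarith : (0 : ℝ) < finrank K J)
    nlinarith
  have f2 : α * ((vd V J : ℝ) * finrank K W) < α * ((finrank k V : ℝ) * finrank K J) := by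
    nlinarith
  have f3 : (vd V J : ℝ) * finrank K W < (finrank k V : ℝ) * finrank K J :=
    lt_of_mul_lt_mul_left f2 hα.le
  have hW : (0 : ℝ) < finrank K W := by linarith
  have f4 : (vd V J : ℝ) * finrank K W < (2 * finrank K J) * finrank K W := by
    have := mul_le_mul_of_nonneg_right e7 (by linarith : (0 : ℝ) ≤ finrank K J)
    nlinarith
  have f5 : (vd V J : ℝ) < 2 * finrank K J := lt_of_mul_lt_mul_right f4 hW.le
  have f6 : (vd V J : ℤ) < 2 * finrank K J := by exact_mod_cast f5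
  linarith

end Pool.Agent.MP_09eaec.GG.G3
end
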