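import Pool.Agent.Lib.MP_09eaec_ag.Lattice

section

/-!
# Circuits: minimal families of vectors which are independent over the constants and dependent over
the function field
-/

set_option autoImplicit false

namespace Pool.Agent.MP_09eaec

open Function

universe u v w

section

variable {k : Type u} {K : Type v} [Field k] [Field K] [Algebra k K]
variable {M : Type w} [AddCommGroup M] [Module K M] [Module k M] [IsScalarTower k K M]

/-- There is a minimal circuit. -/
theorem exists_circuit (V : Submodule k M)
    (hdep : ∃ (m : ℕ) (y : Fin m → M), (∀ i, y i ∈ V) ∧ LinearIndependent k y ∧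
      ¬ LinearIndependent K y) :
    ∃ (r : ℕ) (y : Fin (r + 1) → M) (h : Fin (r + 1) → K), 1 ≤ r ∧ (∀ i, y i ∈ V) ∧
      LinearIndependent k y ∧ LinearIndependent k h ∧ LinearIndependent K (fun i => y (Fin.succ i)) ∧
      ∑ i, h i • y i = 0 := by
  classical
  obtain ⟨m, ⟨y, hyV, hyk, hyK⟩, hmin⟩ : ∃ m, (∃ y : Fin m → M, (∀ i, y i ∈ V) ∧
      LinearIndependent k y ∧ ¬ LinearIndependent K y) ∧
      ∀ m' < m, ∀ y : Fin m' → M, (∀ i, y i ∈ V) → LinearIndependent k y →
      LinearIndependent K y := by
    refine ⟨Nat.find hdep, Nat.find_spec hdep, ?_⟩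
    intro m' hm' y h1 h2
    by_contra h3
    exact Nat.find_min hdep hm' ⟨y, h1, h2, h3⟩
  cases m with
  | zero => exact absurd linearIndependent_empty_type hyK
  | succ r =>
    obtain ⟨h, hsum, i1, hi1⟩ := Fintype.not_linearIndependent_iff.1 hyK
    -- `h` is independent over `k`
    have hh : LinearIndependent k h := by
      by_contra hcon
      obtain ⟨c, hc, i0, hi0⟩ := Fintype.not_linearIndependent_iff.1 hcon
      let y' : Fin r → M := fun i => y (i0.succAbove i) - (c (i0.succAbove i) / c i0) • y i0
      have h1 : ∀ i, y' i ∈ V := fun i =>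
        V.sub_mem (hyV _) (V.smul_mem _ (hyV _))
      have h2 : LinearIndependent k y' := by
        rw [Fintype.linearIndependent_iff] at hyk ⊢
        intro a ha i
        have h3 := hyk (i0.insertNth (- ∑ i, a i * (c (i0.succAbove i) / c i0)) a) (by
          rw [Fin.sum_univ_succAbove _ i0, Fin.insertNth_apply_same]
          simp only [Fin.insertNth_apply_succAbove]
          have h4 : ∑ i, a i • y' i = ∑ i, a i • y (i0.succAbove i) -
              (∑ i, a i * (c (i0.succAbove i) / c i0)) • y i0 := by
            rw [Finset.sum_smul, ← Finset.sum_sub_distrib]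
            apply Finset.sum_congr rfl
            intro i _
            simp only [y', smul_sub, smul_smul]
          rw [h4] at ha
          rw [neg_smul, neg_add_eq_sub]
          exact ha) (i0.succAbove i)
        rwa [Fin.insertNth_apply_succAbove] at h3
      have h3 := hmin r (Nat.lt_succ_self r) y' h1 h2
      rw [Fintype.linearIndependent_iff] at h3
      have h4 := h3 (fun i => h (i0.succAbove i)) (by
        have h5 : ∑ i, h (i0.succAbove i) • y' i = ∑ i, h (i0.succAbove i) • y (i0.succAbove i) -
            (∑ i, (c (i0.succAbove i) / c i0) • h (i0.succAbove i)) • y i0 := by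
          rw [Finset.sum_smul, ← Finset.sum_sub_distrib]
          apply Finset.sum_congr rfl
          intro i _
          simp only [y', smul_sub]
          congr 1
          rw [← algebraMap_smul K (c (i0.succAbove i) / c i0) (y i0), smul_smul, Algebra.smul_def,
            mul_comm]
        rw [h5]
        have h6 : (∑ i, (c (i0.succAbove i) / c i0) • h (i0.succAbove i)) = - h i0 := by
          have h7 : c i0 • h i0 + ∑ i, c (i0.succAbove i) • h (i0.succAbove i) = 0 := by
            rw [← Fin.sum_univ_succAbove (fun i => c i • h i) i0]; exact hc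
          have h8 : (∑ i, (c (i0.succAbove i) / c i0) • h (i0.succAbove i)) =
              (c i0)⁻¹ • ∑ i, c (i0.succAbove i) • h (i0.succAbove i) := by
            rw [Finset.smul_sum]
            apply Finset.sum_congr rfl
            intro i _
            rw [smul_smul, div_eq_inv_mul]
          rw [h8, eq_neg_of_add_eq_zero_right h7, smul_neg, smul_smul, inv_mul_cancel₀ hi0, one_smul]
        rw [h6, neg_smul, sub_neg_eq_add, add_comm, ← Fin.sum_univ_succAbove (fun i => h i • y i) i0]
        exact hsum)
      have h5 : h i0 = 0 := by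
        have h7 : c i0 • h i0 + ∑ i, c (i0.succAbove i) • h (i0.succAbove i) = 0 := by
          rw [← Fin.sum_univ_succAbove (fun i => c i • h i) i0]; exact hc
        have h8 : ∀ i, h (i0.succAbove i) = 0 := h4
        simp only [h8, smul_zero, Finset.sum_const_zero, add_zero] at h7
        exact (smul_eq_zero.1 h7).resolve_left hi0
      apply hi1
      rcases Fin.eq_self_or_eq_succAbove i0 i1 with h6 | ⟨i, h6⟩
      · rw [h6]; exact h5
      · rw [h6]; exact h4 i
    have hr : 1 ≤ r := by
      rcases Nat.eq_zero_or_pos r with h0 | h0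
      · subst h0
        exfalso
        rw [Fin.sum_univ_one] at hsum
        rcases smul_eq_zero.1 hsum with h1 | h1
        · exact hh.ne_zero 0 h1
        · exact hyk.ne_zero 0 h1
      · exact h0
    refine ⟨r, y, h, hr, hyV, hyk, hh, ?_, hsum⟩
    exact hmin r (Nat.lt_succ_self r) _ (fun i => hyV _)
      (hyk.comp Fin.succ (Fin.succ_injective r))

end

end Pool.Agent.MP_09eaec
end

section

/-!
# Splitting off circuits
-/

set_option autoImplicit false

namespace Pool.Agent.MP_09eaec

open Function Matrix

universe u v w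

variable {k : Type u} {K : Type v} [Field k] [Field K] [Algebra k K]

lemma exists_coeff {n : ℕ} (A : Finset (Fin n)) (f0 : Fin n → Fin n → K) {x : Fin n → K}
    (hx : x ∈ Submodule.span K (f0 '' (A : Set (Fin n)))) :
    ∃ a : Fin n → K, (∀ i, i ∉ A → a i = 0) ∧ x = ∑ i, a i • f0 i := by
  classical
  rw [Submodule.mem_span_image_finset_iff_exists_fun] at hx
  obtain ⟨c, hc⟩ := hx
  refine ⟨fun i => if h : i ∈ A then c ⟨i, h⟩ else 0, fun i hi => dif_neg hi, ?_⟩
  rw [← hc, ← Finset.sum_subset (Finset.subset_univ A), ← Finset.sum_coe_sort A]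
  · apply Finset.sum_congr rfl
    rintro ⟨i, hi⟩ _
    simp [hi]
  · intro i _ hi
    show (if h : i ∈ A then c ⟨i, h⟩ else 0) • f0 i = 0
    rw [dif_neg hi, zero_smul]

lemma extend_of_mem {n d : ℕ} (A : Finset (Fin n)) (g : Fin d → Fin n) (hgA : ∀ l, g l ∉ A)
    {β : Type*} (v : Fin d → β) (f0 : Fin n → β) {i : Fin n} (hi : i ∈ A) :
    extend g v f0 i = f0 i := by
  apply extend_apply'
  rintro ⟨l, rfl⟩
  exact hgA l hi

lemma indep_extend {n d : ℕ} (A : Finset (Fin n)) (f0 : Fin n → Fin n → K)
    (h0 : LinearIndepOn K f0 (A : Set (Fin n))) (g : Fin d → Fin n) (hg : Injective g)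
    (hgA : ∀ l, g l ∉ A) (v : Fin d → Fin n → K)
    (hv : LinearIndependent K
      (fun l => (Submodule.span K (f0 '' (A : Set (Fin n)))).mkQ (v l))) :
    LinearIndepOn K (extend g v f0) ((A : Set (Fin n)) ∪ Set.range g) := by
  have heq : Set.EqOn f0 (extend g v f0) (A : Set (Fin n)) := fun i hi =>
    (extend_of_mem A g hgA v f0 hi).symm
  apply LinearIndepOn.union_of_quotient
  · exact h0.congr heq
  · rw [← heq.image_eq, linearIndepOn_range_iff hg]
    have h1 : (((Submodule.span K (f0 '' (A : Set (Fin n)))).mkQ : (Fin n → K) → _) ∘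
        extend g v f0) ∘ g = fun l => (Submodule.span K (f0 '' (A : Set (Fin n)))).mkQ (v l) := by
      funext l
      show (Submodule.span K (f0 '' (A : Set (Fin n)))).mkQ (extend g v f0 (g l)) = _
      rw [hg.extend_apply]
    rw [h1]
    exact hv

/-- The output of the splitting process, see `exists_split`. -/
structure IsSplit {n : ℕ} (V : Submodule k (Fin n → K)) (x : ℝ) (A : Finset (Fin n))
    (f0 : Fin n → Fin n → K) (T : Finset (Fin n)) (f : Fin n → Fin n → K)
    (G : Place k K → Fin n → Fin n → K) (H : Place k K → K) : Prop where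
  disj : Disjoint A T
  f_eq : ∀ i ∈ A, f i = f0 i
  f_mem : ∀ i, i ∉ A → f i ∈ V
  indep : LinearIndependent K f
  G_eq : ∀ P, ∀ i ∈ A, G P i = f0 i
  G_mem : ∀ P, ∀ i, i ∉ A → G P i ∈ V
  H_ne : ∀ P, H P ≠ 0
  H_fin : HasFiniteSupport (fun P : Place k K => P.ord (H P))
  H_sum : ((∑ᶠ P : Place k K, P.ord (H P) : ℤ) : ℝ) ≤ - x * (n - A.card - T.card)
  det_eq : ∀ P τ, (Matrix.of (T.piecewise τ (G P))).det =
    H P * (Matrix.of (T.piecewise τ f)).det
  coord : ∀ v ∈ V, ∃ c : Fin n → K, v = ∑ i, c i • f i ∧
    ∀ i ∈ T, c i ∈ Set.range (algebraMap k K)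
  func : ∀ μ : (Fin n → K) →ₗ[K] K, (∀ i ∈ A, μ (f0 i) = 0) →
    (∀ v ∈ V, μ v ∈ Set.range (algebraMap k K)) → ∀ i, i ∉ T → μ (f i) = 0

lemma split_base {n : ℕ} (V : Submodule k (Fin n → K)) (hVf : Module.Finite k V)
    (hV : Submodule.span K (V : Set (Fin n → K)) = ⊤) (x : ℝ) (A : Finset (Fin n))
    (f0 : Fin n → Fin n → K) (h0 : LinearIndepOn K f0 (A : Set (Fin n)))
    (hno : ∀ (m : ℕ) (y : Fin m → (Fin n → K) ⧸ Submodule.span K (f0 '' (A : Set (Fin n)))),
      (∀ i, y i ∈ V.map ((Submodule.span K (f0 '' (A : Set (Fin n)))).mkQ.restrictScalars k)) →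
      LinearIndependent k y → LinearIndependent K y) :
    ∃ (T : Finset (Fin n)) (f : Fin n → Fin n → K) (G : Place k K → Fin n → Fin n → K)
      (H : Place k K → K), IsSplit V x A f0 T f G H := by
  classical
  set J := Submodule.span K (f0 '' (A : Set (Fin n))) with hJ
  set V' := V.map (J.mkQ.restrictScalars k) with hV'
  have hJr : Module.finrank K J = A.card := by
    rw [hJ, Set.image_eq_range]
    have h1 := finrank_span_eq_card (R := K) (b := fun i : (A : Set (Fin n)) => f0 i) h0
    rw [h1]; simp
  have hQr : Module.finrank K ((Fin n → K) ⧸ J) + A.card = n := by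
    have h1 := J.finrank_quotient_add_finrank
    rw [hJr, Module.finrank_fin_fun] at h1
    exact h1
  obtain ⟨d, hd⟩ : ∃ d, Module.finrank k V' = d := ⟨_, rfl⟩
  let b := Module.finBasisOfFinrankEq k V' hd
  let y : Fin d → (Fin n → K) ⧸ J := fun i => (b i : (Fin n → K) ⧸ J)
  have hyV : ∀ i, y i ∈ V' := fun i => (b i).2
  have hyk : LinearIndependent k y :=
    b.linearIndependent.map' V'.subtype (Submodule.ker_subtype V')
  have hyK : LinearIndependent K y := hno d y hyV hyk
  have hspank : ∀ z ∈ V', ∃ c : Fin d → k, z = ∑ i, c i • y i := by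
    intro z hz
    refine ⟨b.repr ⟨z, hz⟩, ?_⟩
    have h1 := congrArg Subtype.val (b.sum_repr ⟨z, hz⟩)
    rw [AddSubmonoidClass.coe_finsetSum] at h1
    exact h1.symm
  have hspan : ⊤ ≤ Submodule.span K (Set.range y) := by
    have h1 : Submodule.span K (V : Set (Fin n → K)) ≤ (Submodule.span K (Set.range y)).comap J.mkQ := by
      rw [Submodule.span_le]
      intro v hv
      obtain ⟨c, hc⟩ := hspank (J.mkQ v) ⟨v, hv, rfl⟩
      show J.mkQ v ∈ Submodule.span K (Set.range y)
      rw [hc]
      apply Submodule.sum_mem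
      intro i _
      rw [← algebraMap_smul K (c i) (y i)]
      exact Submodule.smul_mem _ _ (Submodule.subset_span ⟨i, rfl⟩)
    rw [hV] at h1
    intro z _
    obtain ⟨v, rfl⟩ := J.mkQ_surjective z
    exact h1 trivial
  let bK : Module.Basis (Fin d) K ((Fin n → K) ⧸ J) := Module.Basis.mk hyK hspan
  have hdr : Module.finrank K ((Fin n → K) ⧸ J) = d := by
    rw [Module.finrank_eq_card_basis bK, Fintype.card_fin]
  have hcard : (Aᶜ : Finset (Fin n)).card = d := by
    rw [Finset.card_compl, Fintype.card_fin]; omega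
  let ε := Finset.equivFinOfCardEq hcard
  let g : Fin d → Fin n := fun l => (ε.symm l : Fin n)
  have hg : Injective g := Subtype.val_injective.comp ε.symm.injective
  have hgA : ∀ l, g l ∉ A := fun l => Finset.mem_compl.1 (ε.symm l).2
  have hrange : ∀ i, i ∉ A → ∃ l, g l = i := fun i hi =>
    ⟨ε ⟨i, Finset.mem_compl.2 hi⟩, by simp [g]⟩
  have hlift : ∀ i, ∃ v ∈ V, J.mkQ v = y i := fun i => hyV i
  choose v hvV hvy using hlift
  set f : Fin n → Fin n → K := extend g v f0 with hf
  have hfA : ∀ i ∈ A, f i = f0 i := fun i hi => extend_of_mem A g hgA v f0 hi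
  have hfg : ∀ l, f (g l) = v l := fun l => hg.extend_apply v f0 l
  have hind : LinearIndependent K f := by
    have h1 := indep_extend A f0 h0 g hg hgA v (by
      have : (fun l => J.mkQ (v l)) = y := funext hvy
      rw [← hJ, this]; exact hyK)
    rw [← linearIndepOn_univ_iff]
    apply h1.mono
    intro i _
    by_cases hi : i ∈ A
    · left; exact hi
    · right; exact hrange i hi
  refine ⟨Aᶜ, f, fun _ => f, fun _ => 1, ?_⟩
  refine ⟨disjoint_compl_right, hfA, ?_, hind, fun _ => hfA, ?_, fun _ => one_ne_zero, ?_, ?_, ?_,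
    ?_, ?_⟩
  · intro i hi
    obtain ⟨l, rfl⟩ := hrange i hi
    rw [hfg]; exact hvV l
  · intro _ i hi
    obtain ⟨l, rfl⟩ := hrange i hi
    rw [hfg]; exact hvV l
  · have : (fun P : Place k K => P.ord 1) = fun _ => 0 := funext fun P => P.ord_one
    rw [this]
    show (support fun _ : Place k K => (0 : ℤ)).Finite
    simp
  · have : ∀ P : Place k K, P.ord 1 = 0 := fun P => P.ord_one
    rw [finsum_congr this, finsum_zero, hcard]
    have h2 : (n : ℝ) = d + A.card := by rw [← hdr]; exact_mod_cast hQr.symm
    rw [h2]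
    simp
  · intro P τ; rw [one_mul]
  · intro z hz
    obtain ⟨c, hc⟩ := hspank (J.mkQ z) ⟨z, hz, rfl⟩
    have h1 : z - ∑ l, c l • v l ∈ J := by
      rw [← Submodule.ker_mkQ J, LinearMap.mem_ker, map_sub, map_sum, hc, sub_eq_zero]
      apply Finset.sum_congr rfl
      intro l _
      rw [← algebraMap_smul K (c l) (v l), map_smul, hvy, algebraMap_smul]
    obtain ⟨a, ha, ha2⟩ := exists_coeff A f0 h1
    refine ⟨fun i => if i ∈ A then a i else extend g (fun l => algebraMap k K (c l)) 0 i, ?_, ?_⟩
    · rw [← Finset.sum_add_sum_compl A]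
      have h3 : ∑ i ∈ A, (if i ∈ A then a i else extend g (fun l => algebraMap k K (c l)) 0 i) • f i =
          ∑ i, a i • f0 i := by
        rw [← Finset.sum_subset (Finset.subset_univ A)]
        · apply Finset.sum_congr rfl
          intro i hi
          rw [if_pos hi, hfA i hi]
        · intro i _ hi
          rw [ha i hi, zero_smul]
      have h4 : ∑ i ∈ Aᶜ, (if i ∈ A then a i else extend g (fun l => algebraMap k K (c l)) 0 i) • f i =
          ∑ l, c l • v l := by
        rw [← Finset.sum_coe_sort, ← ε.symm.sum_comp]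
        apply Finset.sum_congr rfl
        intro l _
        have h5 : ((ε.symm l : (Aᶜ : Finset (Fin n))) : Fin n) = g l := rfl
        rw [h5, if_neg (hgA l), hg.extend_apply, hfg, algebraMap_smul]
      rw [h3, h4, ← ha2]
      abel
    · intro i hi
      have hi' : i ∉ A := Finset.mem_compl.1 hi
      obtain ⟨l, rfl⟩ := hrange i hi'
      show (if g l ∈ A then a (g l) else extend g (fun l => algebraMap k K (c l)) 0 (g l)) ∈ _
      rw [if_neg hi', hg.extend_apply]
      exact ⟨c l, rfl⟩
  · intro μ hμ _ i hi
    have hi' : i ∈ A := by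
      by_contra h; exact hi (Finset.mem_compl.2 h)
    rw [hfA i hi']
    exact hμ i hi'

lemma split_step [IsAlgClosed k] [CharZero k] (hK : IsCurveField k K) {n : ℕ}
    (V : Submodule k (Fin n → K)) (x : ℝ) (A : Finset (Fin n)) (f0 : Fin n → Fin n → K) {r : ℕ}
    (g : Fin r → Fin n) (hg : Injective g) (hgA : ∀ l, g l ∉ A) (w : Fin (r + 1) → Fin n → K)
    (hw : ∀ i, w i ∈ V) (h : Fin (r + 1) → K) (hh : LinearIndependent k h)
    (hrel : ∑ i, h i • w i ∈ Submodule.span K (f0 '' (A : Set (Fin n))))
    (hxr : x * r ≤ gon k K r)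
    (hS : ∃ (T : Finset (Fin n)) (f : Fin n → Fin n → K) (G : Place k K → Fin n → Fin n → K)
      (H : Place k K → K), IsSplit V x (A ∪ Finset.univ.image g)
        (extend g (fun l : Fin r => w l.succ) f0) T f G H) :
    ∃ (T : Finset (Fin n)) (f : Fin n → Fin n → K) (G : Place k K → Fin n → Fin n → K)
      (H : Place k K → K), IsSplit V x A f0 T f G H := by
  classical
  obtain ⟨T, f, G, H, S⟩ := hS
  set A1 := A ∪ Finset.univ.image g with hA1
  set f1 := extend g (fun l : Fin r => w l.succ) f0 with hf1
  have f1A : ∀ i ∈ A, f1 i = f0 i := fun i hi => extend_of_mem A g hgA _ f0 hi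
  have f1g : ∀ l, f1 (g l) = w l.succ := fun l => hg.extend_apply _ f0 l
  have gA1 : ∀ l, g l ∈ A1 := fun l =>
    Finset.mem_union_right _ (Finset.mem_image_of_mem _ (Finset.mem_univ l))
  have AA1 : ∀ i ∈ A, i ∈ A1 := fun i hi => Finset.mem_union_left _ hi
  have A1cases : ∀ i ∈ A1, i ∈ A ∨ ∃ l, g l = i := by
    intro i hi
    rcases Finset.mem_union.1 hi with h1 | h1
    · left; exact h1
    · right
      obtain ⟨l, _, hl⟩ := Finset.mem_image.1 h1
      exact ⟨l, hl⟩
  have h00 : h 0 ≠ 0 := hh.ne_zero 0
  obtain ⟨a, ha, ha2⟩ := exists_coeff A f0 hrel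
  -- coefficients of `w 0`
  let c : Fin n → K := fun i =>
    (h 0)⁻¹ * a i + ∑ l : Fin r, (- h l.succ / h 0) * (if g l = i then 1 else 0)
  have hc0 : ∀ i, i ∉ A1 → c i = 0 := by
    intro i hi
    have h1 : a i = 0 := ha i fun hh => hi (AA1 i hh)
    have h2 : ∀ l, g l ≠ i := fun l hl => hi (hl ▸ gA1 l)
    simp [c, h1, h2]
  have hcg : ∀ l, c (g l) = - h l.succ / h 0 := by
    intro l
    have h1 : a (g l) = 0 := ha _ (hgA l)
    simp only [c, h1, mul_zero, zero_add, hg.eq_iff, mul_ite, mul_one, Finset.sum_ite_eq',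
      Finset.mem_univ, if_true]
  have hw0 : w 0 = ∑ i, c i • f1 i := by
    have h1 : ∑ i, c i • f1 i = (h 0)⁻¹ • ∑ i, a i • f0 i +
        ∑ l : Fin r, (- h l.succ / h 0) • w l.succ := by
      simp only [c, add_smul, Finset.sum_add_distrib, Finset.sum_smul]
      congr 1
      · rw [Finset.smul_sum]
        apply Finset.sum_congr rfl
        intro i _
        by_cases hi : i ∈ A
        · rw [f1A i hi, mul_smul]
        · rw [ha i hi, mul_zero, zero_smul, zero_smul, smul_zero]
      · rw [Finset.sum_comm]
        apply Finset.sum_congr rfl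
        intro l _
        simp only [mul_ite, mul_one, mul_zero, ite_smul, zero_smul, Finset.sum_ite_eq,
          Finset.mem_univ, if_true]
        rw [f1g]
    rw [h1, ← ha2, Fin.sum_univ_succ, smul_add, smul_smul, inv_mul_cancel₀ h00, one_smul,
      Finset.smul_sum, add_assoc, ← Finset.sum_add_distrib]
    have h2 : ∑ i : Fin r, ((h 0)⁻¹ • h i.succ • w i.succ + (- h i.succ / h 0) • w i.succ) = 0 := by
      apply Finset.sum_eq_zero
      intro i _
      rw [smul_smul, ← add_smul]
      have : (h 0)⁻¹ * h i.succ + - h i.succ / h 0 = 0 := by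
        field_simp
        ring
      rw [this, zero_smul]
    rw [h2, add_zero]
  have hGH : ∀ P : Place k K, ∃ (G' : Fin n → Fin n → K) (H' : K),
      (G' = G P ∧ H' = H P ∧ P.minOrd h = P.ord (h 0)) ∨
      (∃ l : Fin r, G' = update (G P) (g l) (w 0) ∧ H' = H P * (- h l.succ / h 0) ∧
        P.minOrd h = P.ord (h l.succ)) := by
    intro P
    obtain ⟨j, hj⟩ := P.exists_minOrd h
    revert hj
    refine Fin.cases ?_ ?_ j
    · intro hj
      exact ⟨_, _, Or.inl ⟨rfl, rfl, hj⟩⟩
    · intro l hj
      exact ⟨_, _, Or.inr ⟨l, rfl, rfl, hj⟩⟩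
  choose G' H' hGH using hGH
  have hne : ∀ l : Fin r, - h l.succ / h 0 ≠ 0 := fun l =>
    div_ne_zero (neg_ne_zero.2 (hh.ne_zero _)) h00
  have hord : ∀ P : Place k K, P.ord (H' P) = P.ord (H P) + (P.minOrd h - P.ord (h 0)) := by
    intro P
    rcases hGH P with ⟨-, h2, h3⟩ | ⟨l, -, h2, h3⟩
    · rw [h2, h3]; ring
    · rw [h2, h3, P.ord_mul _ _ (S.H_ne P) (hne l), P.ord_div _ _ (neg_ne_zero.2 (hh.ne_zero _)) h00,
        P.ord_neg]
  have hfs : HasFiniteSupport (fun P : Place k K => P.minOrd h - P.ord (h 0)) :=
    (hasFiniteSupport_minOrd hK h).fun_sub (hasFiniteSupport_ord hK (h 0))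
  refine ⟨T, f, G', H', ?_⟩
  refine ⟨?_, ?_, ?_, S.indep, ?_, ?_, ?_, ?_, ?_, ?_, S.coord, ?_⟩
  · exact Finset.disjoint_of_subset_left Finset.subset_union_left S.disj
  · intro i hi
    rw [S.f_eq i (AA1 i hi), f1A i hi]
  · intro i hi
    by_cases hi1 : i ∈ A1
    · rcases A1cases i hi1 with h1 | ⟨l, rfl⟩
      · exact absurd h1 hi
      · rw [S.f_eq _ hi1, f1g]; exact hw _
    · exact S.f_mem i hi1
  · intro P i hi
    rcases hGH P with ⟨h1, -, -⟩ | ⟨l, h1, -, -⟩
    · rw [h1, S.G_eq P i (AA1 i hi), f1A i hi]
    · rw [h1, update_of_ne, S.G_eq P i (AA1 i hi), f1A i hi]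
      rintro rfl
      exact hgA l hi
  · intro P i hi
    have h0 : G P i ∈ V := by
      by_cases hi1 : i ∈ A1
      · rcases A1cases i hi1 with h1 | ⟨l, rfl⟩
        · exact absurd h1 hi
        · rw [S.G_eq P _ hi1, f1g]; exact hw _
      · exact S.G_mem P i hi1
    rcases hGH P with ⟨h1, -, -⟩ | ⟨l, h1, -, -⟩
    · rw [h1]; exact h0
    · rw [h1]
      by_cases hil : i = g l
      · rw [hil, update_self]; exact hw 0
      · rw [update_of_ne hil]; exact h0
  · intro P
    rcases hGH P with ⟨-, h2, -⟩ | ⟨l, -, h2, -⟩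
    · rw [h2]; exact S.H_ne P
    · rw [h2]; exact mul_ne_zero (S.H_ne P) (hne l)
  · have : (fun P : Place k K => P.ord (H' P)) =
        fun P => P.ord (H P) + (P.minOrd h - P.ord (h 0)) := funext hord
    rw [this]
    exact S.H_fin.fun_add hfs
  · rw [finsum_congr hord, finsum_add_distrib S.H_fin hfs,
      finsum_sub_distrib (hasFiniteSupport_minOrd hK h) (hasFiniteSupport_ord hK (h 0)),
      finsum_ord hK, sub_zero]
    have h1 := S.H_sum
    have h2 := gon_le_minOrd hK h hh
    have h3 : ((∑ᶠ P : Place k K, P.minOrd h : ℤ) : ℝ) ≤ - (gon k K r : ℝ) := by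
      have : ∑ᶠ P : Place k K, P.minOrd h ≤ - gon k K r := by omega
      exact_mod_cast this
    have h4 : (A1.card : ℝ) = A.card + r := by
      rw [hA1, Finset.card_union_of_disjoint, Finset.card_image_of_injective _ hg,
        Finset.card_univ, Fintype.card_fin]
      · push_cast; ring
      · rw [Finset.disjoint_right]
        intro i hi hi2
        obtain ⟨l, _, rfl⟩ := Finset.mem_image.1 hi
        exact hgA l hi2
    rw [h4] at h1
    push_cast
    nlinarith
  · intro P τ
    rcases hGH P with ⟨h1, h2, -⟩ | ⟨l, h1, h2, -⟩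
    · rw [h1, h2]; exact S.det_eq P τ
    · have hglT : g l ∉ T := fun hT => Finset.disjoint_left.1 S.disj (gA1 l) hT
      have h3 : T.piecewise τ (G' P) = update (T.piecewise τ (G P)) (g l) (w 0) := by
        rw [h1]
        funext i
        by_cases hil : i = g l
        · rw [hil, Finset.piecewise_eq_of_notMem _ _ _ hglT, update_self, update_self]
        · rw [update_of_ne hil]
          by_cases hiT : i ∈ T
          · rw [Finset.piecewise_eq_of_mem _ _ _ hiT, Finset.piecewise_eq_of_mem _ _ _ hiT]
          · rw [Finset.piecewise_eq_of_notMem _ _ _ hiT, Finset.piecewise_eq_of_notMem _ _ _ hiT,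
              update_of_ne hil]
      have h4 : w 0 = ∑ i, c i • (Matrix.of (T.piecewise τ (G P))) i := by
        rw [hw0]
        apply Finset.sum_congr rfl
        intro i _
        by_cases hi1 : i ∈ A1
        · have hiT : i ∉ T := fun hT => Finset.disjoint_left.1 S.disj hi1 hT
          have h5 : (Matrix.of (T.piecewise τ (G P))) i = f1 i := by
            show (T.piecewise τ (G P)) i = f1 i
            rw [Finset.piecewise_eq_of_notMem _ _ _ hiT, S.G_eq P i hi1]
          rw [h5]
        · rw [hc0 i hi1, zero_smul, zero_smul]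
      have h5 : Matrix.of (T.piecewise τ (G' P)) =
          (Matrix.of (T.piecewise τ (G P))).updateRow (g l) (w 0) := by
        rw [h3]; rfl
      rw [h5, h4, det_updateRow_sum, hcg, S.det_eq P τ, h2, smul_eq_mul]
      ring
  · intro μ hμ hμV i hi
    apply S.func μ _ hμV i hi
    have hμ' : ∀ i, ∃ m : k, algebraMap k K m = μ (w i) := fun i => hμV _ (hw i)
    choose m hm using hμ'
    have h1 : ∑ i, m i • h i = 0 := by
      have h2 := congrArg μ ha2
      rw [map_sum, map_sum] at h2
      have h3 : ∑ i, μ (a i • f0 i) = 0 := by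
        apply Finset.sum_eq_zero
        intro i _
        by_cases hi : i ∈ A
        · rw [map_smul, hμ i hi, smul_zero]
        · rw [ha i hi, zero_smul, map_zero]
      rw [h3] at h2
      rw [← h2]
      apply Finset.sum_congr rfl
      intro i _
      rw [map_smul, smul_eq_mul, Algebra.smul_def, hm, mul_comm]
    have h4 := Fintype.linearIndependent_iff.1 hh m h1
    intro i hi
    rcases A1cases i hi with h5 | ⟨l, rfl⟩
    · rw [f1A i h5]; exact hμ i h5
    · rw [f1g, ← hm, h4, map_zero]

/-- **Splitting lemma.** `V` is a space of sections of a vector bundle of rank `n`, spanning the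
generic fibre, and `f0 i`, `i ∈ A`, are independent vectors. We find a basis `f` of the generic
fibre, extending the given vectors by elements of `V`, and for each place `P` a modification `G P`
of `f`, such that the quotient is as positive as possible, except for a trivial quotient, with
basis `f i`, `i ∈ T`. -/
theorem exists_split [IsAlgClosed k] [CharZero k] (hK : IsCurveField k K) {n : ℕ}
    (V : Submodule k (Fin n → K)) (hVf : Module.Finite k V)
    (hV : Submodule.span K (V : Set (Fin n → K)) = ⊤) (x : ℝ)
    (hx : ∀ r : ℕ, 1 ≤ r → r ≤ n → x * r ≤ gon k K r) :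
    ∀ (N : ℕ) (A : Finset (Fin n)) (f0 : Fin n → Fin n → K), n - A.card = N →
      LinearIndepOn K f0 (A : Set (Fin n)) →
    ∃ (T : Finset (Fin n)) (f : Fin n → Fin n → K) (G : Place k K → Fin n → Fin n → K)
      (H : Place k K → K), IsSplit V x A f0 T f G H := by
  classical
  intro N
  induction N using Nat.strong_induction_on with
  | _ N ih =>
  intro A f0 hN h0
  by_cases hno : ∀ (m : ℕ) (y : Fin m → (Fin n → K) ⧸ Submodule.span K (f0 '' (A : Set (Fin n)))),
      (∀ i, y i ∈ V.map ((Submodule.span K (f0 '' (A : Set (Fin n)))).mkQ.restrictScalars k)) →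
      LinearIndependent k y → LinearIndependent K y
  · exact split_base V hVf hV x A f0 h0 hno
  push Not at hno
  set J := Submodule.span K (f0 '' (A : Set (Fin n))) with hJ
  have hJr : Module.finrank K J = A.card := by
    rw [hJ, Set.image_eq_range]
    have h1 := finrank_span_eq_card (R := K) (b := fun i : (A : Set (Fin n)) => f0 i) h0
    rw [h1]; simp
  have hQr : Module.finrank K ((Fin n → K) ⧸ J) + A.card = n := by
    have h1 := J.finrank_quotient_add_finrank
    rw [hJr, Module.finrank_fin_fun] at h1
    exact h1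
  obtain ⟨r, y, h, hr, hyV, hyk, hh, hyK, hsum⟩ := exists_circuit _ hno
  have hlift : ∀ i, ∃ v ∈ V, J.mkQ v = y i := fun i => hyV i
  choose w hwV hwy using hlift
  have hrle : r ≤ n - A.card := by
    have h1 := hyK.fintype_card_le_finrank
    rw [Fintype.card_fin] at h1
    omega
  have hcard : Fintype.card (Fin r) ≤ Fintype.card (Aᶜ : Finset (Fin n)) := by
    rw [Fintype.card_fin, Fintype.card_coe, Finset.card_compl, Fintype.card_fin]
    exact hrle
  obtain ⟨ε⟩ := Embedding.nonempty_of_card_le hcard
  let g : Fin r → Fin n := fun l => (ε l : Fin n)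
  have hg : Injective g := Subtype.val_injective.comp ε.injective
  have hgA : ∀ l, g l ∉ A := fun l => Finset.mem_compl.1 (ε l).2
  apply split_step hK V x A f0 g hg hgA w hwV h hh
  · rw [← Submodule.ker_mkQ (Submodule.span K (f0 '' (A : Set (Fin n)))), LinearMap.mem_ker, map_sum,
      ← hsum]
    apply Finset.sum_congr rfl
    intro i _
    rw [map_smul]
    exact congrArg (fun z => h i • z) (hwy i)
  · exact hx r hr (by omega)
  · have hAn : A.card ≤ n := by
      have := A.card_le_univ
      rwa [Fintype.card_fin] at this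
    have hcu : (A ∪ Finset.univ.image g).card = A.card + r := by
      rw [Finset.card_union_of_disjoint, Finset.card_image_of_injective _ hg,
        Finset.card_univ, Fintype.card_fin]
      rw [Finset.disjoint_right]
      intro i hi hi2
      obtain ⟨l, _, rfl⟩ := Finset.mem_image.1 hi
      exact hgA l hi2
    apply ih (n - (A ∪ Finset.univ.image g).card) (by rw [hcu]; omega) _ _ rfl
    have h1 := indep_extend A f0 h0 g hg hgA (fun l => w l.succ) (by
      have : (fun l : Fin r => J.mkQ (w l.succ)) = fun l : Fin r => y l.succ :=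
        funext fun l => hwy _
      rw [← hJ, this]; exact hyK)
    rw [Finset.coe_union, Finset.coe_image, Finset.coe_univ, Set.image_univ]
    exact h1

end Pool.Agent.MP_09eaec
end

section

/-!
# Dual span bundles and their elementary modifications
-/

set_option autoImplicit false

namespace Pool.Agent.MP_09eaec

open Function Matrix

universe u v

variable {k : Type u} {K : Type v} [Field k] [Field K] [Algebra k K]

lemma det_one_updateCol {n : ℕ} (i : Fin n) (y : Fin n → K) :
    ((1 : Matrix (Fin n) (Fin n) K).updateCol i y).det = y i := by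
  have h := det_updateCol_sum (1 : Matrix (Fin n) (Fin n) K) i y
  have h1 : (fun a => ∑ b, y b • (1 : Matrix (Fin n) (Fin n) K) a b) = y := by
    funext a
    simp [one_apply]
  rw [h1, det_one, smul_eq_mul, mul_one] at h
  exact h

/-- The bundle whose stalk at `P` is generated by `y P` and the standard vectors `e_i`,
`i ≠ ip P`. -/
noncomputable def elemBundle {n : ℕ} (ip : Place k K → Fin n) (y : Place k K → Fin n → K)
    (hy : ∀ P, y P (ip P) ≠ 0) (hfin : {P | y P ≠ Pi.single (ip P) 1}.Finite) :
    Bundle k K n where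
  g P := (1 : Matrix (Fin n) (Fin n) K).updateCol (ip P) (y P)
  det_ne_zero P := by rw [det_one_updateCol]; exact hy P
  finite := by
    refine hfin.subset ?_
    intro P hP h
    apply hP
    show (1 : Matrix (Fin n) (Fin n) K).updateCol (ip P) (y P) = 1
    rw [h]
    ext a b
    rw [updateCol_apply]
    split_ifs with hb
    · rw [hb, Pi.single_apply, one_apply]
    · rfl

section elem

variable {n : ℕ} {ip : Place k K → Fin n} {y : Place k K → Fin n → K}
  {hy : ∀ P, y P (ip P) ≠ 0} {hfin : {P | y P ≠ Pi.single (ip P) 1}.Finite}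

lemma deg_elemBundle :
    (elemBundle ip y hy hfin).deg = - ∑ᶠ P : Place k K, P.ord (y P (ip P)) := by
  unfold Bundle.deg
  have : ∀ P : Place k K, P.ord ((elemBundle ip y hy hfin).g P).det = P.ord (y P (ip P)) := by
    intro P
    show P.ord ((1 : Matrix (Fin n) (Fin n) K).updateCol (ip P) (y P)).det = _
    rw [det_one_updateCol]
  rw [finsum_congr this]

lemma mem_elemBundle_y (P : Place k K) : (elemBundle ip y hy hfin).Mem P (y P) := by
  have h := (elemBundle ip y hy hfin).mem_col P (ip P)
  have h1 : ((elemBundle ip y hy hfin).g P).col (ip P) = y P := by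
    ext a
    show (1 : Matrix (Fin n) (Fin n) K).updateCol (ip P) (y P) a (ip P) = y P a
    rw [updateCol_self]
  rwa [h1] at h

lemma mem_elemBundle_single_of_ne (P : Place k K) (i : Fin n) (hi : i ≠ ip P) :
    (elemBundle ip y hy hfin).Mem P (Pi.single i 1) := by
  have h := (elemBundle ip y hy hfin).mem_col P i
  have h1 : ((elemBundle ip y hy hfin).g P).col i = Pi.single i 1 := by
    ext a
    show (1 : Matrix (Fin n) (Fin n) K).updateCol (ip P) (y P) a i = (Pi.single i 1 : Fin n → K) a
    rw [updateCol_ne hi, one_apply, Pi.single_apply]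
  rwa [h1] at h

lemma sum_smul_single {n : ℕ} (x : Fin n → K) : x = ∑ i, x i • (Pi.single i 1 : Fin n → K) := by
  ext a
  simp [Finset.sum_apply, Pi.single_apply]

lemma mem_elemBundle_of_isInt (P : Place k K) (h1 : P.IsInt (y P (ip P))⁻¹)
    (h2 : ∀ i, P.IsInt (y P i / y P (ip P))) (x : Fin n → K) (hx : ∀ i, P.IsInt (x i)) :
    (elemBundle ip y hy hfin).Mem P x := by
  set E := elemBundle ip y hy hfin with hE
  have hs : ∀ i, E.Mem P (Pi.single i 1) := by
    intro i
    by_cases hi : i = ip P
    · subst hi
      have h3 : (Pi.single (ip P) 1 : Fin n → K) = (y P (ip P))⁻¹ • y P +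
          ∑ i ∈ Finset.univ.erase (ip P), (- (y P i / y P (ip P))) • (Pi.single i 1 : Fin n → K) := by
        have h4 : (y P (ip P))⁻¹ • y P = ∑ i, (y P i / y P (ip P)) • (Pi.single i 1 : Fin n → K) := by
          rw [← sum_smul_single ((fun i => y P i / y P (ip P)) : Fin n → K)]
          ext a
          rw [Pi.smul_apply, smul_eq_mul, div_eq_inv_mul]
        rw [h4, ← Finset.add_sum_erase _ _ (Finset.mem_univ (ip P)), div_self (hy P), one_smul,
          add_assoc, ← Finset.sum_add_distrib]
        simp
      rw [h3]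
      apply E.mem_add P
      · exact E.mem_smul P (mem_elemBundle_y P) h1
      · apply E.mem_sum P
        intro i hi
        exact E.mem_smul P (mem_elemBundle_single_of_ne P i (Finset.ne_of_mem_erase hi))
          (P.isInt_neg (h2 i))
    · exact mem_elemBundle_single_of_ne P i hi
  rw [sum_smul_single x]
  apply E.mem_sum P
  intro i _
  exact E.mem_smul P (hs i) (hx i)

lemma exists_of_mem_elemBundle (P : Place k K) (x : Fin n → K)
    (hx : (elemBundle ip y hy hfin).Mem P x) :
    ∃ (a0 : K) (a : Fin n → K), P.IsInt a0 ∧ (∀ i, P.IsInt (a i)) ∧ x = a0 • y P + a := by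
  set E := elemBundle ip y hy hfin with hE
  set z := (E.g P)⁻¹ *ᵥ x with hz
  have h1 : x = E.g P *ᵥ z := by
    rw [hz, mulVec_mulVec, mul_nonsing_inv _ (E.isUnit_det P), one_mulVec]
  refine ⟨z (ip P), fun i => if i = ip P then 0 else z i, hx (ip P), ?_, ?_⟩
  · intro i
    show P.IsInt (if i = ip P then 0 else z i)
    split_ifs
    · exact P.isInt_zero
    · exact hx i
  · rw [h1]
    ext a
    show ∑ b, (1 : Matrix (Fin n) (Fin n) K).updateCol (ip P) (y P) a b * z b = _
    rw [← Finset.add_sum_erase _ _ (Finset.mem_univ (ip P)), updateCol_self, Pi.add_apply,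
      Pi.smul_apply, smul_eq_mul, mul_comm]
    congr 1
    by_cases ha : a = ip P
    · rw [if_pos ha]
      apply Finset.sum_eq_zero
      intro b hb
      have hb' := Finset.ne_of_mem_erase hb
      rw [updateCol_ne hb', one_apply, if_neg (by rw [ha]; exact hb'.symm), zero_mul]
    · rw [if_neg ha, Finset.sum_eq_single a]
      · rw [updateCol_ne ha, one_apply_eq, one_mul]
      · intro b hb hba
        have hb' := Finset.ne_of_mem_erase hb
        rw [updateCol_ne hb', one_apply, if_neg hba.symm, zero_mul]
      · intro h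
        exact absurd (Finset.mem_erase.2 ⟨ha, Finset.mem_univ _⟩) h

end elem

/-- The vector `-(h_1/h_0, …, h_r/h_0, 0, …, 0)`. -/
noncomputable def dualVec {r s n : ℕ} (e : Fin r ⊕ Fin s ≃ Fin n) (h : Fin (r + 1) → K) :
    Fin n → K := fun i => Sum.elim (fun l : Fin r => - h l.succ / h 0) (fun _ => 0) (e.symm i)

lemma dualVec_inl {r s n : ℕ} (e : Fin r ⊕ Fin s ≃ Fin n) (h : Fin (r + 1) → K) (l : Fin r) :
    dualVec e h (e (Sum.inl l)) = - h l.succ / h 0 := by
  simp [dualVec]

lemma dualVec_inr {r s n : ℕ} (e : Fin r ⊕ Fin s ≃ Fin n) (h : Fin (r + 1) → K) (l : Fin s) :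
    dualVec e h (e (Sum.inr l)) = 0 := by
  simp [dualVec]

theorem exists_bundle [IsAlgClosed k] [CharZero k] (hK : IsCurveField k K) {r s n : ℕ}
    (e : Fin r ⊕ Fin s ≃ Fin n) (h : Fin (r + 1) → K) (hh : LinearIndependent k h) {m : ℕ}
    (p : Fin m → Place k K) (hp : Injective p) (hpm : ∀ q, (p q).minOrd h = (p q).ord (h 0))
    (z : Fin m → Fin n → K) (iz : Fin n) (hz0 : ∀ q, z q iz ≠ 0)
    (hz1 : ∀ q, (p q).ord (z q iz) = -1) (hz2 : ∀ q i, (p q).IsInt (z q i / z q iz)) :
    ∃ E : Bundle k K n, E.deg = - ∑ᶠ P : Place k K, P.minOrd h + m ∧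
      (∀ P x, (∀ i, P.IsInt (x i)) → E.Mem P x) ∧ (∀ P, E.Mem P (dualVec e h)) ∧
      (∀ q, E.Mem (p q) (z q)) ∧
      (∀ P, (∀ q, p q ≠ P) → ∀ x, E.Mem P x → ∃ (a0 : K) (a : Fin n → K), P.IsInt a0 ∧
        (∀ i, P.IsInt (a i)) ∧ x = a0 • dualVec e h + a) := by
  classical
  have h00 : h 0 ≠ 0 := hh.ne_zero 0
  have hu : ∀ P : Place k K, ∀ l : Fin r, P.ord (- h l.succ / h 0) = P.ord (h l.succ) - P.ord (h 0) := by
    intro P l
    rw [P.ord_div _ _ (neg_ne_zero.2 (hh.ne_zero _)) h00, P.ord_neg]
  have hune : ∀ l : Fin r, - h l.succ / h 0 ≠ 0 := fun l =>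
    div_ne_zero (neg_ne_zero.2 (hh.ne_zero _)) h00
  have hcases : ∀ i : Fin n, (∃ l : Fin r, i = e (Sum.inl l)) ∨ (∃ l : Fin s, i = e (Sum.inr l)) := by
    intro i
    rcases hi : e.symm i with l | l
    · left; exact ⟨l, by rw [← hi, Equiv.apply_symm_apply]⟩
    · right; exact ⟨l, by rw [← hi, Equiv.apply_symm_apply]⟩
  have hdvint : ∀ P : Place k K, P.minOrd h = P.ord (h 0) → ∀ i, P.IsInt (dualVec e h i) := by
    intro P hP i
    rcases hcases i with ⟨l, rfl⟩ | ⟨l, rfl⟩
    · rw [dualVec_inl]
      right
      rw [hu, ← hP]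
      have := P.minOrd_le h l.succ
      omega
    · rw [dualVec_inr]; exact P.isInt_zero
  have hloc : ∀ P : Place k K, ∃ (ip : Fin n) (y : Fin n → K), y ip ≠ 0 ∧ P.IsInt (y ip)⁻¹ ∧
      (∀ i, P.IsInt (y i / y ip)) ∧
      (y = dualVec e h ∨ ∀ i, P.IsInt (dualVec e h i)) ∧
      P.ord (y ip) = P.minOrd h - P.ord (h 0) - (if P ∈ Finset.univ.image p then 1 else 0) ∧
      (∀ q, p q = P → y = z q) ∧
      ((∀ q, p q ≠ P) → P.minOrd h = P.ord (h 0) → y = Pi.single ip 1) ∧
      ((∀ q, p q ≠ P) → y = dualVec e h ∨ y = Pi.single ip 1) := by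
    intro P
    by_cases hPp : ∃ q, p q = P
    · obtain ⟨q, rfl⟩ := hPp
      have hmem : p q ∈ Finset.univ.image p := Finset.mem_image_of_mem _ (Finset.mem_univ q)
      refine ⟨iz, z q, hz0 q, ?_, hz2 q, Or.inr (hdvint _ (hpm q)), ?_, ?_, ?_, ?_⟩
      · right; rw [Place.ord_inv, hz1 q]; omega
      · rw [if_pos hmem, hz1 q, hpm q]; ring
      · intro q' hq'
        rw [hp hq']
      · intro hcon; exact absurd rfl (hcon q)
      · intro hcon; exact absurd rfl (hcon q)
    · push Not at hPp
      have hmem : P ∉ Finset.univ.image p := by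
        intro hm
        obtain ⟨q, _, hq⟩ := Finset.mem_image.1 hm
        exact hPp q hq
      by_cases hm : P.minOrd h = P.ord (h 0)
      · refine ⟨iz, Pi.single iz 1, ?_, ?_, ?_, Or.inr (hdvint P hm), ?_, ?_, ?_, ?_⟩
        · simp
        · simp [P.isInt_one]
        · intro i
          rw [Pi.single_eq_same, div_one, Pi.single_apply]
          split_ifs
          · exact P.isInt_one
          · exact P.isInt_zero
        · rw [if_neg hmem, Pi.single_eq_same, P.ord_one, hm]; ring
        · intro q hq; exact absurd hq (hPp q)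
        · intro _ _; rfl
        · intro _; right; rfl
      · obtain ⟨j, hj⟩ := P.exists_minOrd h
        obtain ⟨l, rfl⟩ : ∃ l : Fin r, j = l.succ := by
          rcases Fin.eq_zero_or_eq_succ j with h1 | h1
          · exact absurd (by rw [hj, h1]) hm
          · exact h1
        have hlt : P.minOrd h < P.ord (h 0) := lt_of_le_of_ne (P.minOrd_le h 0) hm
        refine ⟨e (Sum.inl l), dualVec e h, ?_, ?_, ?_, Or.inl rfl, ?_, ?_, ?_, ?_⟩
        · rw [dualVec_inl]; exact hune l
        · right
          rw [dualVec_inl, P.ord_inv, hu]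
          omega
        · intro i
          rw [dualVec_inl]
          rcases hcases i with ⟨l', rfl⟩ | ⟨l', rfl⟩
          · rw [dualVec_inl]
            right
            rw [P.ord_div _ _ (hune l') (hune l), hu, hu]
            have := P.minOrd_le h l'.succ
            omega
          · rw [dualVec_inr, zero_div]; exact P.isInt_zero
        · rw [if_neg hmem, dualVec_inl, hu, hj]; ring
        · intro q hq; exact absurd hq (hPp q)
        · intro _ h2; exact absurd h2 hm
        · intro _; left; rfl
  choose ip y hy0 hy1 hy2 hy3 hy4 hy5 hy6 hy7 using hloc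
  have hfin : {P | y P ≠ Pi.single (ip P) 1}.Finite := by
    have h1 : ((Finset.univ.image p : Finset (Place k K)) : Set (Place k K)).Finite :=
      Finset.finite_toSet _
    refine ((h1.union (hasFiniteSupport_minOrd hK h)).union (hasFiniteSupport_ord hK (h 0))).subset ?_
    intro P hP
    by_contra hcon
    rw [Set.mem_union, Set.mem_union, not_or, not_or] at hcon
    obtain ⟨⟨h2, h3⟩, h4⟩ := hcon
    apply hP
    apply hy6 P
    · intro q hq
      apply h2
      rw [← hq]
      exact Finset.mem_coe.2 (Finset.mem_image_of_mem _ (Finset.mem_univ q))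
    · have h5 : P.minOrd h = 0 := by
        by_contra h; exact h3 h
      have h6 : P.ord (h 0) = 0 := by
        by_contra h; exact h4 h
      rw [h5, h6]
  refine ⟨elemBundle ip y hy0 hfin, ?_, ?_, ?_, ?_, ?_⟩
  · rw [deg_elemBundle, finsum_congr hy4]
    have h1 : HasFiniteSupport (fun P : Place k K => if P ∈ Finset.univ.image p then (1 : ℤ) else 0) := by
      refine (Finset.finite_toSet (Finset.univ.image p)).subset ?_
      intro P hP
      by_contra h2
      apply hP
      exact if_neg h2
    have h2 : ∑ᶠ P : Place k K, (if P ∈ Finset.univ.image p then (1 : ℤ) else 0) = m := by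
      rw [finsum_eq_sum_of_support_subset (s := Finset.univ.image p)]
      · rw [Finset.sum_ite_mem, Finset.inter_self, Finset.sum_const, 
          Finset.card_image_of_injective _ hp]
        simp
      · intro P hP
        by_contra h2
        apply hP
        exact if_neg h2
    rw [finsum_sub_distrib ((hasFiniteSupport_minOrd hK h).fun_sub (hasFiniteSupport_ord hK (h 0))) h1,
      finsum_sub_distrib (hasFiniteSupport_minOrd hK h) (hasFiniteSupport_ord hK (h 0)),
      finsum_ord hK, h2]
    ring
  · intro P x hx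
    exact mem_elemBundle_of_isInt P (hy1 P) (hy2 P) x hx
  · intro P
    rcases hy3 P with h1 | h1
    · have h2 := mem_elemBundle_y (hy := hy0) (hfin := hfin) P
      rwa [h1] at h2
    · exact mem_elemBundle_of_isInt P (hy1 P) (hy2 P) _ h1
  · intro q
    have h2 := mem_elemBundle_y (hy := hy0) (hfin := hfin) (p q)
    rwa [hy5 (p q) q rfl] at h2
  · intro P hP x hx
    obtain ⟨a0, a, ha0, ha, hxa⟩ := exists_of_mem_elemBundle P x hx
    rcases hy7 P hP with h1 | h1
    · exact ⟨a0, a, ha0, ha, by rw [hxa, h1]⟩
    · refine ⟨0, a0 • y P + a, P.isInt_zero, ?_, by rw [hxa, zero_smul, zero_add]⟩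
      intro i
      rw [Pi.add_apply, Pi.smul_apply, h1]
      apply P.isInt_add _ (ha i)
      apply P.isInt_mul ha0
      rw [Pi.single_apply]
      split_ifs
      · exact P.isInt_one
      · exact P.isInt_zero

end Pool.Agent.MP_09eaec
end

section

/-!
# The lower bound
-/

set_option autoImplicit false

namespace Pool.Agent.MP_09eaec

open Function Matrix

universe u v

variable {k : Type u} {K : Type v} [Field k] [Field K] [Algebra k K] [IsAlgClosed k] [CharZero k]

theorem lower_bound (hK : IsCurveField k K) {n : ℕ} (E : Bundle k K n)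
    (V : Submodule k (Fin n → K)) (hsys : IsSystem E V) (hV : Module.finrank k V = n + 1)
    (α : ℝ) (hα : 0 < α) (hst : IsStable α E V) :
    gon k K n ≤ E.deg ∨ ∃ r, 1 ≤ r ∧ r < n ∧ n * gon k K r < r * E.deg := by
  have hdep : ∃ (m : ℕ) (y : Fin m → (Fin n → K)), (∀ i, y i ∈ V) ∧ LinearIndependent k y ∧
      ¬ LinearIndependent K y := by
    have hfin : Module.Finite k V := Module.finite_of_finrank_pos (by omega)
    let b := Module.finBasisOfFinrankEq k V hV
    refine ⟨n + 1, fun i => (b i : Fin n → K), fun i => (b i).2,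
      b.linearIndependent.map' V.subtype (Submodule.ker_subtype V), ?_⟩
    intro h
    have h1 := h.fintype_card_le_finrank
    rw [Fintype.card_fin, Module.finrank_fin_fun] at h1
    omega
  obtain ⟨r, y, h, hr, hyV, hyk, hh, hyK, hsum⟩ := exists_circuit V hdep
  have hrn : r ≤ n := by
    have h1 := hyK.fintype_card_le_finrank
    rw [Fintype.card_fin, Module.finrank_fin_fun] at h1
    exact h1
  have h00 : h 0 ≠ 0 := hh.ne_zero 0
  let e : Fin r ⊕ Fin 0 ≃ Fin r := Equiv.sumEmpty (Fin r) (Fin 0)
  obtain ⟨F, hFdeg, hFint, hFd, -, hFmem⟩ := exists_bundle hK e h hh (m := 0)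
    (fun q => q.elim0) (fun q => q.elim0) (fun q => q.elim0) (fun q => q.elim0) ⟨0, hr⟩
    (fun q => q.elim0) (fun q => q.elim0) (fun q => q.elim0)
  have hFge : gon k K r ≤ F.deg := by
    rw [hFdeg]
    have := gon_le_minOrd hK h hh
    push_cast
    omega
  let j : (Fin r → K) →ₗ[K] (Fin n → K) := Fintype.linearCombination K (fun l : Fin r => y l.succ)
  have hj : Injective j := (linearIndependent_iff_injective_fintypeLinearCombination).1 hyK
  have hjx : ∀ x, j x = ∑ l, x l • y l.succ := fun x => rfl
  have hjd : j (dualVec e h) = y 0 := by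
    have h1 : y 0 = - ((h 0)⁻¹ • ∑ l : Fin r, h l.succ • y l.succ) := by
      rw [Fin.sum_univ_succ] at hsum
      rw [eq_neg_of_add_eq_zero_right hsum, smul_neg, smul_smul, inv_mul_cancel₀ h00, one_smul,
        neg_neg]
    rw [h1, hjx, Finset.smul_sum, ← Finset.sum_neg_distrib]
    apply Finset.sum_congr rfl
    intro l _
    have h2 : dualVec e h l = - h l.succ / h 0 := dualVec_inl e h l
    rw [h2, smul_smul, ← neg_smul]
    congr 1
    rw [neg_div, div_eq_inv_mul]
  let W : Submodule k (Fin n → K) := Submodule.span k (Set.range y)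
  have hWr : Module.finrank k W = r + 1 := by
    have := finrank_span_eq_card hyk
    rw [Fintype.card_fin] at this
    exact this
  have hWV : W ≤ V := by
    rw [Submodule.span_le]
    rintro _ ⟨i, rfl⟩
    exact hyV i
  have hsub : IsSubsystem E V F j W := by
    refine ⟨hj, ?_, hWV, ?_⟩
    · intro P x hx
      obtain ⟨a0, a, ha0, ha, rfl⟩ := hFmem P (fun q => q.elim0) x hx
      rw [map_add, map_smul, hjd, hjx]
      apply E.mem_add P
      · exact E.mem_smul P (hsys _ (hyV 0) P) ha0
      · apply E.mem_sum P
        intro l _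
        exact E.mem_smul P (hsys _ (hyV _) P) (ha l)
    · intro w hw
      obtain ⟨c, rfl⟩ := (Submodule.mem_span_range_iff_exists_fun k).1 hw
      refine ⟨algebraMap k K (c 0) • dualVec e h + fun l => algebraMap k K (c l.succ), ?_, ?_⟩
      · rw [map_add, map_smul, hjd, hjx, Fin.sum_univ_succ]
        congr 1
        · rw [algebraMap_smul]
        · apply Finset.sum_congr rfl
          intro l _
          rw [algebraMap_smul]
      · intro P
        apply F.mem_add P
        · exact F.mem_smul P (hFd P) (P.isInt_algebraMap _)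
        · exact hFint P _ (fun i => P.isInt_algebraMap _)
  rcases hrn.lt_or_eq with hlt | heq
  · right
    refine ⟨r, hr, hlt, ?_⟩
    have hnw : ¬ IsWhole E V F j W := by
      rintro ⟨-, h2⟩
      rw [h2, hV] at hWr
      omega
    have h3 := hst r F j W (by omega) hsub hnw
    rw [hWr, hV] at h3
    have hr0 : (0 : ℝ) < r := by exact_mod_cast (show 0 < r by omega)
    have hn0 : (0 : ℝ) < n := by exact_mod_cast (show 0 < n by omega)
    rw [div_lt_div_iff₀ hr0 hn0] at h3
    have hlt' : (r : ℝ) < n := by exact_mod_cast hlt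
    have h4 : (n : ℝ) * F.deg < r * E.deg := by
      push_cast at h3
      nlinarith [mul_pos hα (sub_pos.2 hlt')]
    have h5 : (n : ℤ) * F.deg < r * E.deg := by exact_mod_cast h4
    have h6 : (n : ℤ) * gon k K r ≤ n * F.deg := by
      apply mul_le_mul_of_nonneg_left hFge
      positivity
    omega
  · left
    subst heq
    by_cases hw : IsWhole E V F j W
    · rw [deg_eq_of_whole hK E F j hj hsub.map_mem hw.1]
      exact hFge
    · have h3 := hst r F j W (by omega) hsub hw
      rw [hWr, hV] at h3
      have hr0 : (0 : ℝ) < r := by exact_mod_cast (show 0 < r by omega)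
      rw [div_lt_div_iff_of_pos_right hr0] at h3
      have h4 : (F.deg : ℝ) < E.deg := by linarith
      have h5 : F.deg < E.deg := by exact_mod_cast h4
      omega

end Pool.Agent.MP_09eaec
end

section

/-!
# The space of sections
-/

set_option autoImplicit false

namespace Pool.Agent.MP_09eaec

open Function Matrix

universe u v

variable {k : Type u} {K : Type v} [Field k] [Field K] [Algebra k K]

/-- Constant vectors. -/
noncomputable def constL (k : Type u) (K : Type v) [Field k] [Field K] [Algebra k K] (n : ℕ) :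
    (Fin n → k) →ₗ[k] (Fin n → K) := (Algebra.linearMap k K).compLeft (Fin n)

lemma constL_apply {n : ℕ} (c : Fin n → k) (i : Fin n) :
    constL k K n c i = algebraMap k K (c i) := rfl

/-- `K`-linear extension of a functional on constant vectors. -/
noncomputable def extF (K : Type v) [Field K] [Algebra k K] {n : ℕ} (μ : (Fin n → k) →ₗ[k] k) :
    (Fin n → K) →ₗ[K] K :=
  Fintype.linearCombination K (fun i => algebraMap k K (μ (Pi.single i 1)))

lemma extF_apply {n : ℕ} (μ : (Fin n → k) →ₗ[k] k) (x : Fin n → K) :
    extF K μ x = ∑ i, x i * algebraMap k K (μ (Pi.single i 1)) := rfl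

lemma extF_constL {n : ℕ} (μ : (Fin n → k) →ₗ[k] k) (c : Fin n → k) :
    extF K μ (constL k K n c) = algebraMap k K (μ c) := by
  rw [extF_apply]
  have h1 : μ c = ∑ i, c i * μ (Pi.single i 1) := by
    conv_lhs => rw [sum_smul_single c, map_sum]
    apply Finset.sum_congr rfl
    intro i _
    rw [map_smul, smul_eq_mul]
  rw [h1, map_sum]
  apply Finset.sum_congr rfl
  intro i _
  rw [constL_apply, map_mul]

lemma extF_single {n : ℕ} (μ : (Fin n → k) →ₗ[k] k) (i : Fin n) :
    extF K μ (Pi.single i 1) = algebraMap k K (μ (Pi.single i 1)) := by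
  rw [extF_apply, Finset.sum_eq_single i]
  · simp
  · intro j _ hj; rw [Pi.single_eq_of_ne hj, zero_mul]
  · intro h; exact absurd (Finset.mem_univ i) h

/-- Constant vectors which are independent over `k` are independent over `K`. -/
lemma const_independent {n d : ℕ} (b : Fin d → Fin n → k) (hb : LinearIndependent k b) :
    LinearIndependent K (fun i => constL k K n (b i)) := by
  classical
  have h1 : Injective (Fintype.linearCombination k b) :=
    linearIndependent_iff_injective_fintypeLinearCombination.1 hb
  obtain ⟨g, hg⟩ := LinearMap.exists_leftInverse_of_injective _ (LinearMap.ker_eq_bot.2 h1)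
  rw [Fintype.linearIndependent_iff]
  intro c hc i
  have h2 : ∀ j, (LinearMap.proj i ∘ₗ g) (b j) = if j = i then 1 else 0 := by
    intro j
    have h3 : b j = Fintype.linearCombination k b (Pi.single j 1) := by
      rw [Fintype.linearCombination_apply, Finset.sum_eq_single j]
      · simp
      · intro l _ hl; rw [Pi.single_eq_of_ne hl, zero_smul]
      · intro h; exact absurd (Finset.mem_univ j) h
    rw [LinearMap.comp_apply, h3, ← LinearMap.comp_apply g, hg, LinearMap.id_apply,
      LinearMap.proj_apply, Pi.single_apply]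
    simp only [eq_comm]
  have h4 := congrArg (extF K (LinearMap.proj i ∘ₗ g)) hc
  rw [map_sum, map_zero] at h4
  simp only [map_smul, extF_constL, h2, smul_eq_mul] at h4
  rw [Finset.sum_eq_single i] at h4
  · simpa using h4
  · intro j _ hj; rw [if_neg hj, map_zero, mul_zero]
  · intro h; exact absurd (Finset.mem_univ i) h

section

variable {r s n : ℕ} (e : Fin r ⊕ Fin s ≃ Fin n) (h : Fin (r + 1) → K)

/-- The parametrisation of the space of sections. -/
noncomputable def Phi (k : Type u) {K : Type v} [Field k] [Field K] [Algebra k K] {r s n : ℕ}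
    (e : Fin r ⊕ Fin s ≃ Fin n) (h : Fin (r + 1) → K) : (k × (Fin n → k)) →ₗ[k] (Fin n → K) :=
  (LinearMap.toSpanSingleton k _ (dualVec e h)).coprod (constL k K n)

lemma Phi_apply (c0 : k) (c : Fin n → k) :
    Phi k e h (c0, c) = c0 • dualVec e h + constL k K n c := rfl

/-- The space of sections: the constant vectors and the dual vector. -/
noncomputable def secV (k : Type u) {K : Type v} [Field k] [Field K] [Algebra k K] {r s n : ℕ}
    (e : Fin r ⊕ Fin s ≃ Fin n) (h : Fin (r + 1) → K) : Submodule k (Fin n → K) :=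
  LinearMap.range (Phi k e h)

variable {e h}

lemma const_mem_secV (c : Fin n → k) : constL k K n c ∈ secV k e h :=
  ⟨(0, c), by rw [Phi_apply, zero_smul, zero_add]⟩

lemma dualVec_mem_secV : dualVec e h ∈ secV k e h :=
  ⟨(1, 0), by rw [Phi_apply, one_smul, map_zero, add_zero]⟩

lemma constL_single (i : Fin n) : constL k K n (Pi.single i 1) = Pi.single i 1 := by
  ext j
  rw [constL_apply, Pi.single_apply, Pi.single_apply]
  split_ifs <;> simp

lemma single_mem_secV (i : Fin n) : (Pi.single i 1 : Fin n → K) ∈ secV k e h := by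
  rw [← constL_single (k := k) i]
  exact const_mem_secV _

lemma span_secV : Submodule.span K (secV k e h : Set (Fin n → K)) = ⊤ := by
  rw [eq_top_iff]
  intro x _
  rw [sum_smul_single x]
  apply Submodule.sum_mem
  intro i _
  exact Submodule.smul_mem _ _ (Submodule.subset_span (single_mem_secV i))

/-- Constant functionals kill the circuit. -/
lemma functional_zero (hh : LinearIndependent k h) (μ : (Fin n → K) →ₗ[K] K)
    (m0 : k) (h0 : μ (dualVec e h) = algebraMap k K m0) (m : Fin r → k)
    (hm : ∀ l, μ (Pi.single (e (Sum.inl l)) 1) = algebraMap k K (m l)) :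
    m0 = 0 ∧ ∀ l, m l = 0 := by
  have h00 : h 0 ≠ 0 := hh.ne_zero 0
  have h1 : μ (dualVec e h) = ∑ l : Fin r, (- h l.succ / h 0) * algebraMap k K (m l) := by
    conv_lhs => rw [sum_smul_single (dualVec e h), map_sum]
    rw [← e.sum_comp, Fintype.sum_sum_type]
    have h2 : ∑ j : Fin s, μ (dualVec e h (e (Sum.inr j)) • Pi.single (e (Sum.inr j)) 1) = 0 := by
      apply Finset.sum_eq_zero
      intro j _
      rw [dualVec_inr, zero_smul, map_zero]
    rw [h2, add_zero]
    apply Finset.sum_congr rfl
    intro l _
    rw [map_smul, dualVec_inl, hm, smul_eq_mul]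
  have h2 : ∑ i, (Fin.cons m0 m : Fin (r + 1) → k) i • h i = 0 := by
    rw [Fin.sum_univ_succ]
    simp only [Fin.cons_zero, Fin.cons_succ]
    have h3 : ∑ l : Fin r, m l • h l.succ = - (h 0 * μ (dualVec e h)) := by
      rw [h1, Finset.mul_sum, ← Finset.sum_neg_distrib]
      apply Finset.sum_congr rfl
      intro l _
      rw [Algebra.smul_def]
      field_simp
    rw [h3, h0, Algebra.smul_def]
    ring
  have h3 := Fintype.linearIndependent_iff.1 hh _ h2
  refine ⟨?_, ?_⟩
  · have := h3 0
    rwa [Fin.cons_zero] at this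
  · intro l
    have := h3 l.succ
    rwa [Fin.cons_succ] at this

lemma functional_zero' (hh : LinearIndependent k h) (μ : (Fin n → K) →ₗ[K] K)
    (hμ : ∀ v ∈ secV k e h, μ v ∈ Set.range (algebraMap k K)) :
    μ (dualVec e h) = 0 ∧ ∀ l, μ (Pi.single (e (Sum.inl l)) 1) = 0 := by
  obtain ⟨m0, hm0⟩ := hμ _ dualVec_mem_secV
  have h1 : ∀ l : Fin r, ∃ m : k, algebraMap k K m = μ (Pi.single (e (Sum.inl l)) 1) := fun l =>
    hμ _ (single_mem_secV _)
  choose m hm using h1
  have h2 := functional_zero hh μ m0 hm0.symm m (fun l => (hm l).symm)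
  refine ⟨?_, ?_⟩
  · rw [← hm0, h2.1, map_zero]
  · intro l; rw [← hm, h2.2, map_zero]

lemma Phi_injective (hr : 1 ≤ r) (hh : LinearIndependent k h) : Injective (Phi k e h) := by
  rw [← LinearMap.ker_eq_bot, LinearMap.ker_eq_bot']
  rintro ⟨c0, c⟩ hc
  rw [Phi_apply] at hc
  have h00 : h 0 ≠ 0 := hh.ne_zero 0
  have h1 : ∀ l : Fin r, c0 • (- h l.succ / h 0) + algebraMap k K (c (e (Sum.inl l))) = 0 := by
    intro l
    have := congrFun hc (e (Sum.inl l))
    rwa [Pi.add_apply, Pi.smul_apply, dualVec_inl, constL_apply] at this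
  have hc0 : c0 = 0 := by
    have h2 := h1 ⟨0, hr⟩
    set l : Fin r := ⟨0, hr⟩
    rw [Algebra.smul_def] at h2
    have h3 : c0 • h l.succ + (- c (e (Sum.inl l))) • h 0 = 0 := by
      rw [Algebra.smul_def, Algebra.smul_def, map_neg]
      field_simp at h2
      linear_combination -h2
    have h4 := hh.comp ![l.succ, 0] (by
      intro a b hab
      fin_cases a <;> fin_cases b
      · rfl
      · exact (Fin.succ_ne_zero l (show l.succ = 0 from hab)).elim
      · exact (Fin.succ_ne_zero l (show l.succ = 0 from hab.symm)).elim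
      · rfl)
    rw [Fintype.linearIndependent_iff] at h4
    have h5 := h4 ![c0, - c (e (Sum.inl l))] (by
      rw [Fin.sum_univ_two]
      exact h3) 0
    exact h5
  subst hc0
  rw [zero_smul, zero_add] at hc
  have : c = 0 := by
    funext i
    have h2 := congrFun hc i
    rw [constL_apply] at h2
    exact (map_eq_zero_iff _ (algebraMap k K).injective).1 h2
  rw [this]; rfl

lemma finrank_secV (hr : 1 ≤ r) (hh : LinearIndependent k h) :
    Module.finrank k (secV k e h) = n + 1 := by
  unfold secV
  rw [LinearMap.finrank_range_of_inj (Phi_injective hr hh), Module.finrank_prod,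
    Module.finrank_self, Module.finrank_fin_fun]
  ring

instance : Module.Finite k (secV k e h) := by
  unfold secV; infer_instance

/-- The constant vectors in a subspace. -/
noncomputable def constIn (k : Type u) {K : Type v} [Field k] [Field K] [Algebra k K] {n : ℕ}
    (J : Submodule K (Fin n → K)) : Submodule k (Fin n → k) :=
  (J.restrictScalars k).comap (constL k K n)

lemma mem_constIn {J : Submodule K (Fin n → K)} {c : Fin n → k} :
    c ∈ constIn k J ↔ constL k K n c ∈ J := Iff.rfl

lemma finrank_constIn_le (J : Submodule K (Fin n → K)) :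
    Module.finrank k (constIn k J) ≤ Module.finrank K J := by
  let b := Module.finBasis k (constIn k J)
  have h1 : LinearIndependent k (fun i => (b i : Fin n → k)) :=
    b.linearIndependent.map' (constIn k J).subtype (Submodule.ker_subtype _)
  have h2 := const_independent (K := K) _ h1
  have h3 : LinearIndependent K (fun i => (⟨constL k K n (b i), (b i).2⟩ : J)) := by
    apply LinearIndependent.of_comp J.subtype
    exact h2
  have h4 := h3.fintype_card_le_finrank
  rwa [Fintype.card_fin] at h4

/-- If there are as many constant vectors as possible they span. -/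
lemma le_span_constIn (J : Submodule K (Fin n → K))
    (hJ : Module.finrank K J ≤ Module.finrank k (constIn k J)) :
    J ≤ Submodule.span K (constL k K n '' (constIn k J : Set (Fin n → k))) := by
  let b := Module.finBasis k (constIn k J)
  have h1 : LinearIndependent k (fun i => (b i : Fin n → k)) :=
    b.linearIndependent.map' (constIn k J).subtype (Submodule.ker_subtype _)
  have h2 := const_independent (K := K) _ h1
  have hle : Submodule.span K (Set.range fun i => constL k K n (b i)) ≤ J := by
    rw [Submodule.span_le]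
    rintro _ ⟨i, rfl⟩
    exact (b i).2
  have h3 : Submodule.span K (Set.range fun i => constL k K n (b i)) = J := by
    apply Submodule.eq_of_le_of_finrank_le hle
    rw [finrank_span_eq_card h2, Fintype.card_fin]
    exact hJ
  refine le_trans h3.ge ?_
  apply Submodule.span_mono
  rintro _ ⟨i, rfl⟩
  exact ⟨_, (b i).2, rfl⟩

/-- The sections in a subspace. -/
noncomputable def secIn (k : Type u) {K : Type v} [Field k] [Field K] [Algebra k K] {r s n : ℕ}
    (e : Fin r ⊕ Fin s ≃ Fin n) (h : Fin (r + 1) → K)
    (J : Submodule K (Fin n → K)) : Submodule k (k × (Fin n → k)) :=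
  (J.restrictScalars k).comap (Phi k e h)

lemma mem_secIn {J : Submodule K (Fin n → K)} {c : k × (Fin n → k)} :
    c ∈ secIn k e h J ↔ Phi k e h c ∈ J := Iff.rfl

lemma finrank_secIn (hr : 1 ≤ r) (hh : LinearIndependent k h) (J : Submodule K (Fin n → K)) :
    Module.finrank k (secV k e h ⊓ J.restrictScalars k : Submodule k (Fin n → K)) =
      Module.finrank k (secIn k e h J) := by
  have h1 : secV k e h ⊓ J.restrictScalars k = (secIn k e h J).map (Phi k e h) := by
    unfold secIn secV
    rw [Submodule.map_comap_eq]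
  rw [h1]
  exact (Submodule.equivMapOfInjective _ (Phi_injective hr hh) _).finrank_eq.symm

/-- The projection of the sections in `J` to the coefficient of the dual vector. -/
lemma finrank_secIn_le (J : Submodule K (Fin n → K)) :
    Module.finrank k (secIn k e h J) ≤ Module.finrank k (constIn k J) + 1 ∧
    ((∀ c ∈ secIn k e h J, c.1 = 0) →
      Module.finrank k (secIn k e h J) ≤ Module.finrank k (constIn k J)) := by
  let p : (secIn k e h J) →ₗ[k] k := (LinearMap.fst k k (Fin n → k)).domRestrict _
  have hker : Module.finrank k (LinearMap.ker p) ≤ Module.finrank k (constIn k J) := by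
    let q : (LinearMap.ker p) →ₗ[k] (constIn k J) :=
      LinearMap.codRestrict (constIn k J)
        ((LinearMap.snd k k (Fin n → k)) ∘ₗ (secIn k e h J).subtype ∘ₗ (LinearMap.ker p).subtype)
        (by
          rintro ⟨⟨⟨c0, c⟩, hc⟩, hc2⟩
          have h1 : c0 = 0 := hc2
          subst h1
          have h2 : Phi k e h (0, c) ∈ J := hc
          rw [Phi_apply, zero_smul, zero_add] at h2
          exact h2)
    have hq : Injective q := by
      rintro ⟨⟨⟨c0, c⟩, hc⟩, hc2⟩ ⟨⟨⟨c0', c'⟩, hc'⟩, hc2'⟩ h3
      have h1 : c0 = 0 := hc2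
      have h1' : c0' = 0 := hc2'
      subst h1 h1'
      have h4 : c = c' := congrArg Subtype.val h3
      subst h4
      rfl
    exact LinearMap.finrank_le_finrank_of_injective hq
  have hrk := LinearMap.finrank_range_add_finrank_ker p
  refine ⟨?_, ?_⟩
  · have h1 : Module.finrank k (LinearMap.range p) ≤ 1 := by
      have := Submodule.finrank_le (LinearMap.range p)
      rwa [Module.finrank_self] at this
    omega
  · intro h0
    have h1 : LinearMap.range p = ⊥ := by
      rw [LinearMap.range_eq_bot]
      ext ⟨c, hc⟩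
      exact h0 c hc
    rw [h1, finrank_bot] at hrk
    omega

theorem factA (hr : 1 ≤ r) (hh : LinearIndependent k h) (J : Submodule K (Fin n → K)) :
    Module.finrank k (secV k e h ⊓ J.restrictScalars k : Submodule k (Fin n → K)) ≤
      Module.finrank K J + 1 := by
  rw [finrank_secIn hr hh]
  have h1 := (finrank_secIn_le (e := e) (h := h) (k := k) J).1
  have h2 := finrank_constIn_le (k := k) J
  omega

theorem factA' (hr : 1 ≤ r) (hh : LinearIndependent k h) (J : Submodule K (Fin n → K))
    (hJ : Module.finrank K J + 1 ≤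
      Module.finrank k (secV k e h ⊓ J.restrictScalars k : Submodule k (Fin n → K))) :
    Module.finrank K J ≤ Module.finrank k (constIn k J) ∧
    (∀ μ : (Fin n → k) →ₗ[k] k, (∀ c ∈ constIn k J, μ c = 0) →
      (∀ z ∈ J, extF K μ z = 0) ∧ extF K μ (dualVec e h) = 0 ∧
      ∀ l, μ (Pi.single (e (Sum.inl l)) 1) = 0) ∧ r ≤ Module.finrank K J := by
  rw [finrank_secIn hr hh] at hJ
  obtain ⟨h1, h2⟩ := finrank_secIn_le (e := e) (h := h) (k := k) J
  have h3 := finrank_constIn_le (k := k) J
  have h4 : Module.finrank K J ≤ Module.finrank k (constIn k J) := by omega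
  have hspan := le_span_constIn J h4
  have hex : ∃ c ∈ secIn k e h J, c.1 ≠ 0 := by
    by_contra hcon
    push Not at hcon
    have := h2 hcon
    omega
  obtain ⟨⟨c0, c⟩, hc, hc0⟩ := hex
  have hkey : ∀ μ : (Fin n → k) →ₗ[k] k, (∀ c ∈ constIn k J, μ c = 0) →
      (∀ z ∈ J, extF K μ z = 0) ∧ extF K μ (dualVec e h) = 0 ∧
      ∀ l, μ (Pi.single (e (Sum.inl l)) 1) = 0 := by
    intro μ hμ
    have hμJ : ∀ z ∈ J, extF K μ z = 0 := by
      have h5 : J ≤ LinearMap.ker (extF K μ) := by
        refine le_trans hspan ?_
        rw [Submodule.span_le]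
        rintro _ ⟨c, hc, rfl⟩
        show extF K μ (constL k K n c) = 0
        rw [extF_constL, hμ c hc, map_zero]
      intro z hz
      exact h5 hz
    have h6 : extF K μ (dualVec e h) = algebraMap k K (- (c0⁻¹ * μ c)) := by
      have h7 := hμJ _ (mem_secIn.1 hc)
      rw [Phi_apply, map_add, extF_constL, ← algebraMap_smul K c0 (dualVec e h), map_smul,
        smul_eq_mul] at h7
      have h8 : algebraMap k K c0 ≠ 0 := by
        rw [Ne, map_eq_zero_iff _ (algebraMap k K).injective]; exact hc0
      rw [map_neg, map_mul, map_inv₀]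
      field_simp
      linear_combination h7
    obtain ⟨h9, h10⟩ := functional_zero hh (extF K μ) _ h6
      (fun l => μ (Pi.single (e (Sum.inl l)) 1)) (fun l => extF_single μ _)
    refine ⟨hμJ, ?_, h10⟩
    rw [h6, h9, map_zero]
  refine ⟨h4, hkey, ?_⟩
  have hmem : ∀ l : Fin r, (Pi.single (e (Sum.inl l)) 1 : Fin n → k) ∈ constIn k J := by
    intro l
    by_contra hcon
    obtain ⟨μ, h5, h6⟩ := Submodule.exists_le_ker_of_notMem hcon
    exact h5 ((hkey μ fun c hc => h6 hc).2.2 l)
  have hind : LinearIndependent k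
      (fun l : Fin r => (⟨Pi.single (e (Sum.inl l)) 1, hmem l⟩ : constIn k J)) := by
    apply LinearIndependent.of_comp (constIn k J).subtype
    have h7 : LinearIndependent k (fun i : Fin n => (Pi.single i 1 : Fin n → k)) := by
      have := (Pi.basisFun k (Fin n)).linearIndependent
      convert this using 1
      funext i
      rw [Pi.basisFun_apply]
    exact h7.comp (fun l : Fin r => e (Sum.inl l)) (e.injective.comp Sum.inl_injective)
  have h8 := hind.fintype_card_le_finrank
  rw [Fintype.card_fin] at h8
  omega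

theorem factB (hr : 1 ≤ r) (hh : LinearIndependent k h) (J : Submodule K (Fin n → K))
    (hJn : Module.finrank K J < n)
    (hb : ∀ μ : (Fin n → K) →ₗ[K] K, (∀ z ∈ J, μ z = 0) →
      (∀ v ∈ secV k e h, μ v ∈ Set.range (algebraMap k K)) → μ = 0) :
    Module.finrank k (secV k e h ⊓ J.restrictScalars k : Submodule k (Fin n → K)) ≤
      Module.finrank K J ∧
    (Module.finrank K J ≤
        Module.finrank k (secV k e h ⊓ J.restrictScalars k : Submodule k (Fin n → K)) →
      r + 1 ≤ Module.finrank K J ∨
      ∃ σ : Fin s → k × (Fin n → k), ∀ j, Phi k e h (σ j) ∈ J ∧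
        ∀ j', (σ j).2 (e (Sum.inr j')) = if j = j' then 1 else 0) := by
  classical
  constructor
  · by_contra hcon
    push Not at hcon
    obtain ⟨h1, h2, h3⟩ := factA' hr hh J hcon
    have hlt : constIn k J < ⊤ := by
      rw [lt_top_iff_ne_top]
      intro htop
      have h4 := finrank_constIn_le (k := k) J
      rw [htop, finrank_top, Module.finrank_fin_fun] at h4
      omega
    obtain ⟨μ, hμ0, hμ⟩ := Submodule.exists_le_ker_of_lt_top _ hlt
    obtain ⟨h5, h6, h7⟩ := h2 μ (fun c hc => hμ hc)
    have h8 := hb (extF K μ) h5 (by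
      rintro _ ⟨⟨c0, c⟩, rfl⟩
      rw [Phi_apply, map_add, extF_constL, ← algebraMap_smul K c0 (dualVec e h), map_smul, h6,
        smul_zero, zero_add]
      exact ⟨_, rfl⟩)
    apply hμ0
    ext i
    have h9 := congrArg (fun f => f (Pi.single i 1 : Fin n → K)) h8
    simp only [extF_single, LinearMap.zero_apply] at h9
    exact (map_eq_zero_iff _ (algebraMap k K).injective).1 h9
  · intro hv
    set U := secV k e h ⊓ J.restrictScalars k with hU
    set J' := Submodule.span K (U : Set (Fin n → K)) with hJ'
    have hJ'J : J' ≤ J := by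
      rw [hJ', Submodule.span_le]
      intro z hz
      exact hz.2
    by_cases hcase : J' = J
    · right
      -- the projection of the sections in `J` to the constant quotient is surjective
      let pr : (k × (Fin n → k)) →ₗ[k] (Fin s → k) :=
        (LinearMap.funLeft k k (fun j : Fin s => e (Sum.inr j))) ∘ₗ (LinearMap.snd k k (Fin n → k))
      have hpr : ∀ c j, pr c j = c.2 (e (Sum.inr j)) := fun c j => rfl
      have htop : (secIn k e h J).map pr = ⊤ := by
        by_contra hne
        obtain ⟨μ, hμ0, hμ⟩ := Submodule.exists_le_ker_of_lt_top _ (lt_top_iff_ne_top.2 hne)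
        let ν : (Fin n → k) →ₗ[k] k := μ ∘ₗ (LinearMap.funLeft k k (fun j : Fin s => e (Sum.inr j)))
        have hνd : extF K ν (dualVec e h) = 0 := by
          rw [extF_apply, ← e.sum_comp, Fintype.sum_sum_type]
          have h1 : ∀ l : Fin r, ν (Pi.single (e (Sum.inl l)) 1) = 0 := by
            intro l
            have h2 : LinearMap.funLeft k k (fun j : Fin s => e (Sum.inr j))
                (Pi.single (e (Sum.inl l)) 1 : Fin n → k) = 0 := by
              funext j
              rw [LinearMap.funLeft_apply, Pi.single_eq_of_ne]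
              · rfl
              · intro h3
                have := e.injective h3
                cases this
            show μ _ = 0
            rw [h2, map_zero]
          have h3 : ∑ l : Fin r, dualVec e h (e (Sum.inl l)) *
              algebraMap k K (ν (Pi.single (e (Sum.inl l)) 1)) = 0 := by
            apply Finset.sum_eq_zero
            intro l _
            rw [h1, map_zero, mul_zero]
          have h4 : ∑ l : Fin s, dualVec e h (e (Sum.inr l)) *
              algebraMap k K (ν (Pi.single (e (Sum.inr l)) 1)) = 0 := by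
            apply Finset.sum_eq_zero
            intro l _
            rw [dualVec_inr, zero_mul]
          rw [h3, h4, add_zero]
        have hνΦ : ∀ c : k × (Fin n → k), extF K ν (Phi k e h c) = algebraMap k K (μ (pr c)) := by
          rintro ⟨c0, c⟩
          rw [Phi_apply, map_add, extF_constL, ← algebraMap_smul K c0 (dualVec e h), map_smul, hνd,
            smul_zero, zero_add]
          rfl
        have hνJ : ∀ z ∈ J, extF K ν z = 0 := by
          have h5 : J ≤ LinearMap.ker (extF K ν) := by
            rw [← hcase, hJ', Submodule.span_le]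
            rintro z ⟨⟨c, rfl⟩, hz⟩
            show extF K ν (Phi k e h c) = 0
            rw [hνΦ]
            have h6 : μ (pr c) = 0 := hμ ⟨c, hz, rfl⟩
            rw [h6, map_zero]
          intro z hz
          exact h5 hz
        have h8 := hb (extF K ν) hνJ (by
          rintro _ ⟨c, rfl⟩
          rw [hνΦ]
          exact ⟨_, rfl⟩)
        apply hμ0
        ext j
        have h9 := congrArg (fun f => f (Pi.single (e (Sum.inr j)) 1 : Fin n → K)) h8
        simp only [extF_single, LinearMap.zero_apply] at h9
        have h10 := (map_eq_zero_iff _ (algebraMap k K).injective).1 h9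
        have h11 : LinearMap.funLeft k k (fun j : Fin s => e (Sum.inr j))
            (Pi.single (e (Sum.inr j)) 1 : Fin n → k) = Pi.single j 1 := by
          funext j'
          rw [LinearMap.funLeft_apply, Pi.single_apply, Pi.single_apply]
          simp only [e.injective.eq_iff, Sum.inr.injEq]
        have h12 : ν (Pi.single (e (Sum.inr j)) 1) = μ (Pi.single j 1) := by
          show μ _ = _
          rw [h11]
        rw [h12] at h10
        exact h10
      have hex : ∀ j : Fin s, ∃ c ∈ secIn k e h J, pr c = Pi.single j 1 := by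
        intro j
        have : (Pi.single j 1 : Fin s → k) ∈ (secIn k e h J).map pr := by rw [htop]; trivial
        exact this
      choose σ hσ1 hσ2 using hex
      refine ⟨σ, fun j => ⟨hσ1 j, ?_⟩⟩
      intro j'
      rw [← hpr, hσ2, Pi.single_apply]
      simp only [eq_comm]
    · left
      have hlt : Module.finrank K J' < Module.finrank K J :=
        Submodule.finrank_lt_finrank_of_lt (lt_of_le_of_ne hJ'J hcase)
      have h1 : U ≤ secV k e h ⊓ J'.restrictScalars k := by
        intro z hz
        exact ⟨hz.1, Submodule.subset_span hz⟩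
      have hfin : Module.Finite k (secV k e h ⊓ J'.restrictScalars k : Submodule k (Fin n → K)) :=
        Submodule.finiteDimensional_inf_left _ _
      have h2 := Submodule.finrank_mono h1
      have h3 := (factA' (e := e) hr hh J' (by omega)).2.2
      omega

end

end Pool.Agent.MP_09eaec
end
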