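import Pool.Agent.Lib.MP_09eaec_ag.Mg.G045
import Pool.Agent.Lib.MP_09eaec_ag.Mg.G004
import Pool.Agent.Lib.MP_09eaec_ag.Mg.G003
import Pool.Agent.Lib.MP_09eaec_ag.Mg.G016
import Pool.Agent.Lib.MP_09eaec_ag.Mg.G009

section

/-!
# TASK KU: subspaces defined over the constants

`KU K U`: the `K`-span of (the images of) the constant vectors `c ∈ U ≤ (Fin n → k)`.
* `finrank_KU`: a `k`-basis of `U` gives constant vectors which are independent over `K` (`const_independent` in Space.lean) and span.
* `KU_ne_top`, `KU_ne_bot`: from `finrank_KU`.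
* `deg_pw_KU`: a basis `c_1, …, c_d` of `U` gives `f : (Fin d → K) ≃ₗ[K] KU K U`, and `(pw D d).map f ≤ (pw D n).sub (KU K U)`
  (coordinates `∑ x_l * algebraMap (c_l i)`). `deg_pw`, `VB.deg_map`, `VB.deg_le_of_le`.
-/

set_option autoImplicit false

namespace Pool.Agent.MP_09eaec.GG

open Module

universe u v

variable {k : Type u} {K : Type v} [Field k] [Field K] [Algebra k K]

/-- The `K`-span of the constant vectors of `U`. -/
noncomputable def KU (K : Type v) [Field K] [Algebra k K] {n : ℕ} (U : Submodule k (Fin n → k)) :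
    Submodule K (Fin n → K) :=
  Submodule.span K ((U.map (constL k K n) : Submodule k (Fin n → K)) : Set (Fin n → K))

private lemma KU_aux_li {n : ℕ} (U : Submodule k (Fin n → k)) :
    LinearIndependent K (fun i => constL k K n (Module.finBasis k U i : Fin n → k)) := by
  refine const_independent (k := k) (K := K) (fun i => (Module.finBasis k U i : Fin n → k)) ?_
  exact (Module.finBasis k U).linearIndependent.map' U.subtype (Submodule.ker_subtype U)

private lemma KU_aux_span {n : ℕ} (U : Submodule k (Fin n → k)) :
    Submodule.span K (Set.range fun i => constL k K n (Module.finBasis k U i : Fin n → k)) =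
      KU K U := by
  apply le_antisymm
  · rw [Submodule.span_le]
    rintro _ ⟨i, rfl⟩
    exact Submodule.subset_span ⟨_, (Module.finBasis k U i).2, rfl⟩
  · unfold KU
    rw [Submodule.span_le]
    rintro _ ⟨c, hc, rfl⟩
    have h1 : c = ∑ i, (Module.finBasis k U).repr ⟨c, hc⟩ i •
        (Module.finBasis k U i : Fin n → k) := by
      have h2 := congrArg U.subtype ((Module.finBasis k U).sum_repr ⟨c, hc⟩)
      rw [map_sum] at h2
      simpa using h2.symm
    rw [h1, map_sum]
    refine Submodule.sum_mem _ fun i _ => ?_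
    rw [map_smul]
    exact Submodule.smul_of_tower_mem _ _ (Submodule.subset_span ⟨i, rfl⟩)

theorem finrank_KU {n : ℕ} (U : Submodule k (Fin n → k)) :
    finrank K (KU K U) = finrank k U := by
  rw [← KU_aux_span, finrank_span_eq_card (KU_aux_li U), Fintype.card_fin]

theorem KU_ne_top {n : ℕ} {U : Submodule k (Fin n → k)} (h : U ≠ ⊤) : KU K U ≠ ⊤ := by
  intro h1
  apply h
  apply Submodule.eq_top_of_finrank_eq
  rw [← finrank_KU (K := K) U, h1, finrank_top, Module.finrank_fin_fun, Module.finrank_fin_fun]

theorem KU_ne_bot {n : ℕ} {U : Submodule k (Fin n → k)} (h : U ≠ ⊥) : KU K U ≠ ⊥ := by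
  intro h1
  apply h
  rw [← Submodule.finrank_eq_zero (R := k), ← finrank_KU (K := K) U, h1, finrank_bot]

theorem deg_pw_KU [CurveG k K] (D : Dv k K) {n : ℕ} (U : Submodule k (Fin n → k)) :
    finrank k U * ddeg D ≤ ((pw D n).sub (KU K U)).deg := by
  let b := Basis.span (KU_aux_li (K := K) U)
  let f : (Fin (finrank k U) → K) ≃ₗ[K] KU K U :=
    b.equivFun.symm.trans (LinearEquiv.ofEq _ _ (KU_aux_span U))
  have hf : ∀ y, ((f y : KU K U) : Fin n → K) =
      ∑ l, y l • constL k K n (Module.finBasis k U l : Fin n → k) := by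
    intro y
    show ((b.equivFun.symm y : Submodule.span K _) : Fin n → K) = _
    rw [Basis.equivFun_symm_apply]
    have h2 : ∀ l, ((b l : Submodule.span K (Set.range fun i =>
        constL k K n (Module.finBasis k U i : Fin n → k))) : Fin n → K) =
        constL k K n (Module.finBasis k U l : Fin n → k) := fun l =>
    congrArg Subtype.val (Basis.span_apply (KU_aux_li (K := K) U) l)
    push_cast
    exact Finset.sum_congr rfl fun l _ => by rw [h2]
  rw [← deg_pw D (finrank k U), ← VB.deg_map (pw D (finrank k U)) f]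
  refine VB.deg_le_of_le fun P x hx => ?_
  rw [VB.mem_map] at hx
  rw [VB.mem_sub, mem_pw]
  intro i
  have h3 : (x : Fin n → K) = _ := (congrArg Subtype.val (f.apply_symm_apply x)).symm.trans (hf _)
  rw [h3, Finset.sum_apply]
  refine Submodule.sum_mem _ fun l _ => ?_
  rw [Pi.smul_apply, smul_eq_mul, constL_apply, mul_comm, ← Algebra.smul_def]
  exact (P.filt (-D P)).smul_mem _ (hx l)

end Pool.Agent.MP_09eaec.GG
end

section

/-!
# TASK KUmem: subspaces defined over the constants, equations

* `mem_KU_iff`: `→`: a functional `v ↦ ∑ a i • v i` vanishes on the constant vectors of `U` (`Submodule.span_induction`). `←`: let `U⊥` be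
  the space of the `a` with `∑ a i * c i = 0` for all `c ∈ U`, of dimension `n - dim U` (`Submodule.dualAnnihilator`, or the orthogonal of a
  nondegenerate bilinear form). The space of the `v : Fin n → K` with `∑ a i • v i = 0` for all `a ∈ U⊥` contains `KU K U` and has
  dimension `n - dim U⊥ = dim U` (the functionals of a basis of `U⊥` are independent over `K`, `const_independent` in Space.lean), so
  it is equal to `KU K U` (`Submodule.eq_of_le_of_finrank_le`, `finrank_KU`). Alternative proof of `←`: extend a basis of `U` to a basis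
  `b` of `k^n`, with dual coordinate functionals `μ_l`; for `b_l ∉ U` the coordinates of `μ_l` are in `U⊥`; over `K`: `v = ∑ (extF μ_l v) •
  constL (b_l)` (`extF`, `extF_constL` in Space.lean), and the terms with `b_l ∉ U` vanish.
-/

set_option autoImplicit false

namespace Pool.Agent.MP_09eaec.GG

open Module

universe u v

variable {k : Type u} {K : Type v} [Field k] [Field K] [Algebra k K]

theorem mem_KU_iff {n : ℕ} (U : Submodule k (Fin n → k)) (v : Fin n → K) :
    v ∈ KU K U ↔ ∀ a : Fin n → k, (∀ c ∈ U, ∑ i, a i * c i = 0) → ∑ i, a i • v i = 0 := by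
  classical
  constructor
  · intro hv a ha
    unfold KU at hv
    induction hv using Submodule.span_induction with
    | mem x hx =>
      obtain ⟨c, hc, rfl⟩ := hx
      have h1 : ∑ i, a i • constL k K n c i = algebraMap k K (∑ i, a i * c i) := by
        rw [map_sum]
        refine Finset.sum_congr rfl fun i _ => ?_
        rw [constL_apply, Algebra.smul_def, map_mul]
      rw [h1, ha c hc, map_zero]
    | zero => simp
    | add x y _ _ hx hy =>
      have h1 : ∑ i, a i • (x + y) i = ∑ i, a i • x i + ∑ i, a i • y i := by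
        rw [← Finset.sum_add_distrib]
        refine Finset.sum_congr rfl fun i _ => ?_
        rw [Pi.add_apply, smul_add]
      rw [h1, hx, hy, add_zero]
    | smul r x _ hx =>
      have h1 : ∑ i, a i • (r • x) i = r * ∑ i, a i • x i := by
        rw [Finset.mul_sum]
        refine Finset.sum_congr rfl fun i _ => ?_
        rw [Pi.smul_apply, smul_eq_mul, mul_smul_comm]
      rw [h1, hx, mul_zero]
  · intro h
    obtain ⟨g, hg⟩ := LinearMap.exists_leftInverse_of_injective U.subtype
      (LinearMap.ker_eq_bot.2 U.injective_subtype)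
    have hg' : ∀ c (hc : c ∈ U), g c = ⟨c, hc⟩ := fun c hc => LinearMap.congr_fun hg ⟨c, hc⟩
    -- the functionals which vanish on `U`
    have h1 : ∀ j : Fin n, ∑ i, v i * algebraMap k K
        ((Pi.single i (1 : k) : Fin n → k) j - (g (Pi.single i 1) : Fin n → k) j) = 0 := by
      intro j
      have h2 := h (fun i => (Pi.single i (1 : k) : Fin n → k) j - (g (Pi.single i 1) : Fin n → k) j) (by
        intro c hc
        have h3 : c = ∑ i, c i • (Pi.single i (1 : k) : Fin n → k) := sum_smul_single c
        have h4 : (g c : Fin n → k) = c := by rw [hg' c hc]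
        have h5 : (g c : Fin n → k) j = ∑ i, c i * (g (Pi.single i 1) : Fin n → k) j := by
          conv_lhs => rw [h3, map_sum]
          rw [Submodule.coe_sum, Finset.sum_apply]
          refine Finset.sum_congr rfl fun i _ => ?_
          rw [map_smul, Submodule.coe_smul, Pi.smul_apply, smul_eq_mul]
        have h6 : c j = ∑ i, c i * (Pi.single i (1 : k) : Fin n → k) j := by
          conv_lhs => rw [h3]
          rw [Finset.sum_apply]
          refine Finset.sum_congr rfl fun i _ => ?_
          rw [Pi.smul_apply, smul_eq_mul]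
        have h7 : ∑ i, ((Pi.single i (1 : k) : Fin n → k) j - (g (Pi.single i 1) : Fin n → k) j) * c i =
            c j - (g c : Fin n → k) j := by
          rw [h5, h6, ← Finset.sum_sub_distrib]
          refine Finset.sum_congr rfl fun i _ => ?_
          ring
        rw [h7, h4, sub_self])
      rw [← h2]
      refine Finset.sum_congr rfl fun i _ => ?_
      rw [Algebra.smul_def, mul_comm]
    have h8 : v = ∑ i, v i • constL k K n (g (Pi.single i 1) : Fin n → k) := by
      funext j
      rw [Finset.sum_apply]
      have h9 : v j = ∑ i, v i * algebraMap k K ((Pi.single i (1 : k) : Fin n → k) j) := by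
        rw [Finset.sum_eq_single j]
        · rw [Pi.single_eq_same, map_one, mul_one]
        · intro i _ hi
          rw [Pi.single_eq_of_ne (Ne.symm hi), map_zero, mul_zero]
        · intro hj
          exact absurd (Finset.mem_univ j) hj
      rw [h9, ← sub_eq_zero, ← Finset.sum_sub_distrib, ← h1 j]
      refine Finset.sum_congr rfl fun i _ => ?_
      rw [Pi.smul_apply, smul_eq_mul, constL_apply, map_sub, mul_sub]
    rw [h8]
    refine Submodule.sum_mem _ fun i _ => Submodule.smul_mem _ _ (Submodule.subset_span ?_)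
    exact ⟨_, (g (Pi.single i 1)).2, rfl⟩

end Pool.Agent.MP_09eaec.GG
end

section

/-!
# TASK RankU: ranks and sections

`ev = Fintype.linearCombination K v`.
* `rank_U`: `S ≤ ker ev ⊓ KU K U`, and `finrank (ker ev ⊓ KU K U) + finrank ((KU K U).map ev) = finrank (KU K U) = finrank U`
  (`finrank_KU`).
* `sec_U`: the map `U → (G.sub J).H0`, `c ↦ ∑ c i • v i`, is injective (`hli`), and the values lie in `J` (they are `ev` of elements of
  `KU K U`); together with the `w a`: `(c, b) ↦ ∑ c i • v i + ∑ b a • w a` is injective on `U × (Fin l → k)`.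
  `Module.Finite k G.H0` is an instance (GG/Deg).
-/

set_option autoImplicit false

namespace Pool.Agent.MP_09eaec.GG.G3

open Module

universe u v

variable {k : Type u} {K : Type v} [Field k] [Field K] [Algebra k K]
variable {W : Type v} [AddCommGroup W] [Module K W] [Module k W] [IsScalarTower k K W]
variable {A : Type v} [AddCommGroup A] [Module K A] [Module k A] [IsScalarTower k K A]
variable {B : Type v} [AddCommGroup B] [Module K B] [Module k B] [IsScalarTower k K B]

variable [CurveG k K]

theorem rank_U [FiniteDimensional K A] {N : ℕ} {v : Fin N → A} {S : Submodule K (Fin N → K)}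
    {U : Submodule k (Fin N → k)} (hS : S ≤ LinearMap.ker (Fintype.linearCombination K v))
    (hSU : S ≤ KU K U) :
    finrank K S + finrank K ((KU K U).map (Fintype.linearCombination K v)) ≤ finrank k U := by
  set ev : (Fin N → K) →ₗ[K] A := Fintype.linearCombination K v with hev
  have h1 := LinearMap.finrank_range_add_finrank_ker (ev.domRestrict (KU K U))
  rw [finrank_KU, LinearMap.range_domRestrict] at h1
  have h2 : finrank K S ≤ finrank K (LinearMap.ker (ev.domRestrict (KU K U))) := by
    have h3 : finrank K (S.comap (KU K U).subtype) = finrank K S :=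
      (Submodule.comapSubtypeEquivOfLe hSU).finrank_eq
    rw [← h3]
    refine Submodule.finrank_mono fun x hx => ?_
    rw [LinearMap.mem_ker, LinearMap.domRestrict_apply]
    exact hS hx
  omega

theorem sec_U [FiniteDimensional K A] {G : VB k K A} {N l : ℕ} {v : Fin N → A} {w : Fin l → A}
    (hv : ∀ i, v i ∈ G.H0) (hw : ∀ a, w a ∈ G.H0) (hli : LinearIndependent k (Sum.elim v w))
    (U : Submodule k (Fin N → k)) {J : Submodule K A}
    (hJ : (KU K U).map (Fintype.linearCombination K v) ≤ J) (hwJ : ∀ a, w a ∈ J) :
    (finrank k U : ℤ) + l ≤ (G.sub J).h0 := by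
  classical
  let ψ : (Fin N → k) × (Fin l → k) →ₗ[k] A :=
    (Fintype.linearCombination k v).coprod (Fintype.linearCombination k w)
  have hψ : ∀ c b, ψ (c, b) = ∑ i, c i • v i + ∑ a, b a • w a := fun c b => by
    simp [ψ, LinearMap.coprod_apply, Fintype.linearCombination_apply]
  have hinj : Function.Injective ψ := by
    rw [injective_iff_map_eq_zero]
    rintro ⟨c, b⟩ h
    rw [hψ] at h
    have h1 := Fintype.linearIndependent_iff.1 hli (Sum.elim c b) (by
      rw [Fintype.sum_sum_type]
      exact h)
    refine Prod.ext (funext fun i => ?_) (funext fun a => ?_)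
    · exact h1 (Sum.inl i)
    · exact h1 (Sum.inr a)
  let ψ' : U × (Fin l → k) →ₗ[k] A := ψ ∘ₗ (U.subtype.prodMap LinearMap.id)
  have hψ' : ∀ (c : U) b, ψ' (c, b) = ψ ((c : Fin N → k), b) := fun _ _ => rfl
  have hinj' : Function.Injective ψ' := by
    rintro ⟨c, b⟩ ⟨c', b'⟩ h
    rw [hψ', hψ'] at h
    have h8 := hinj h
    rw [Prod.mk.injEq] at h8
    exact Prod.ext (Subtype.ext h8.1) h8.2
  have h2 : finrank k (LinearMap.range ψ') = finrank k U + l := by
    rw [LinearMap.finrank_range_of_inj hinj', finrank_prod, finrank_fin_fun]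
  set ι : J →ₗ[k] A := J.subtype.restrictScalars k with hι
  have hιinj : Function.Injective ι := fun x y h => Subtype.ext h
  have h3 : finrank k ((G.sub J).H0.map ι) = finrank k (G.sub J).H0 :=
    (Submodule.equivMapOfInjective ι hιinj _).finrank_eq.symm
  have hle : LinearMap.range ψ' ≤ (G.sub J).H0.map ι := by
    rintro _ ⟨⟨⟨c, hc⟩, b⟩, rfl⟩
    rw [hψ']
    have hJ1 : ∑ i, c i • v i ∈ J := by
      have h4 : constL k K N c ∈ KU K U := Submodule.subset_span ⟨c, hc, rfl⟩
      have h5 := hJ (Submodule.mem_map_of_mem h4)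
      rw [Fintype.linearCombination_apply] at h5
      have h6 : ∑ i, constL k K N c i • v i = ∑ i, c i • v i := by
        refine Finset.sum_congr rfl fun i _ => ?_
        rw [constL_apply, algebraMap_smul]
      rw [← h6]
      exact h5
    have hJ2 : ∑ a, b a • w a ∈ J :=
      Submodule.sum_mem _ fun a _ => Submodule.smul_of_tower_mem _ _ (hwJ a)
    refine ⟨⟨ψ (c, b), by rw [hψ]; exact add_mem hJ1 hJ2⟩, ?_, rfl⟩
    refine VB.mem_H0.2 fun P => ?_
    rw [VB.mem_sub]
    show ψ (c, b) ∈ G.M P
    rw [hψ]
    exact add_mem (Submodule.sum_mem _ fun i _ => (G.M P).smul_mem _ (VB.mem_H0.1 (hv i) P))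
      (Submodule.sum_mem _ fun a _ => (G.M P).smul_mem _ (VB.mem_H0.1 (hw a) P))
  have hfin : Module.Finite k ((G.sub J).H0.map ι) := inferInstance
  have h7 := Submodule.finrank_mono hle
  rw [h2, h3] at h7
  unfold VB.h0
  exact_mod_cast h7

end Pool.Agent.MP_09eaec.GG.G3
end

section

/-!
# TASK Brick: stable Kronecker modules are bricks

`S ≤ K` a finite dimensional `k`-subspace, `V ≤ (Fin n → K)` a `k`-subspace of vectors with coordinates in `S`; stable: `n dim (V ∩ KU U) <
dim V dim U` for all `0 ≠ U ≠ k^n`. Claim: `n² + (dim V)² ≤ (dim S) n (dim V) + 1`.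
For `A : Matrix (Fin n) (Fin n) k` let `A • v = (∑ j, A i j • v j)_i` (`v : Fin n → K`), a `k`-linear map `T_A` of `Fin n → K`. It maps
`S^n = {v | ∀ i, v i ∈ S}` to itself. `S^n` has dimension `n dim S` and contains `V`. The `k`-linear map
`Θ : Matrix → (V →ₗ[k] (S^n ⧸ V))`, `A ↦ (v ↦ [T_A v])` has a target of dimension `dim V (n dim S - dim V)`. Its kernel `R` consists of the `A` with
`T_A V ≤ V`. CLAIM: every `A ∈ R` is scalar. `k` is algebraically closed, `n ≥ 1`: `A` has an eigenvalue `c`; let `B = A - c 1 ∈ R`, suppose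
`B ≠ 0`. `N = ker B`, `I = range B` (as subspaces of `Fin n → k`, `Matrix.toLin'`/`mulVecLin`), `0 < dim N < n`, `dim N + dim I = n`. If `T_B v = 0`
then `v ∈ KU N` (`mem_KU_iff`: if `a` annihilates `ker B` then `a` is a combination `∑ b l * B l ·` of the rows of `B`, so
`∑ a i • v i = ∑ b l • (T_B v) l = 0`); and `T_B v ∈ KU I` for all `v` (`mem_KU_iff`: if `a` annihilates `range B` then
`∑ i, a i * B i j = 0` for all `j`). So `dim V = dim (V ∩ ker T_B) + dim (T_B V) ≤ dim (V ∩ KU N) + dim (V ∩ KU I)`, and
`n dim V < dim V (dim N + dim I) = n dim V`, a contradiction. So `dim R ≤ 1` and `n² - 1 ≤ dim V (n dim S - dim V)`.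
(For `n = 1` there is no proper `U`, but then `A` is scalar anyway: `B = 0`.)
-/

set_option autoImplicit false

namespace Pool.Agent.MP_09eaec.GG

open Module

universe u v

variable {k : Type u} {K : Type v} [Field k] [Field K] [Algebra k K]

/-- the action of a matrix over `k` on the vectors over a `k`-module -/
private noncomputable def brickT (n : ℕ) (E : Type v) [AddCommGroup E] [Module k E] :
    Matrix (Fin n) (Fin n) k →ₗ[k] ((Fin n → E) →ₗ[k] (Fin n → E)) :=
  LinearMap.mk₂ k (fun A w i => ∑ j, A i j • w j)
    (fun A B w => by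
      funext i
      simp only [Matrix.add_apply, add_smul, Finset.sum_add_distrib, Pi.add_apply])
    (fun c A w => by
      funext i
      simp only [Matrix.smul_apply, Pi.smul_apply, Finset.smul_sum, smul_assoc])
    (fun A w w' => by
      funext i
      simp only [Pi.add_apply, smul_add, Finset.sum_add_distrib])
    (fun c A w => by
      funext i
      simp only [Pi.smul_apply, Finset.smul_sum]
      exact Finset.sum_congr rfl fun j _ => smul_comm _ _ _)

private theorem brickT_apply (n : ℕ) (E : Type v) [AddCommGroup E] [Module k E]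
    (A : Matrix (Fin n) (Fin n) k) (w : Fin n → E) (i : Fin n) :
    brickT n E A w i = ∑ j, A i j • w j := rfl

private theorem brick_ker {n : ℕ} (B : Matrix (Fin n) (Fin n) k) (v : Fin n → K)
    (hv : brickT n K B v = 0) : v ∈ KU K (LinearMap.ker (Matrix.toLin' B)) := by
  classical
  rw [mem_KU_iff]
  intro a ha
  -- the functional of `a`
  let φ : Module.Dual k (Fin n → k) := ∑ i, a i • LinearMap.proj i
  have hφ : ∀ c, φ c = ∑ i, a i * c i := by
    intro c
    simp [φ, LinearMap.sum_apply]
  have hmem : φ ∈ (LinearMap.ker (Matrix.toLin' B)).dualAnnihilator := by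
    rw [Submodule.mem_dualAnnihilator]
    intro c hc
    rw [hφ]
    exact ha c hc
  rw [← LinearMap.range_dualMap_eq_dualAnnihilator_ker] at hmem
  obtain ⟨ψ, hψ⟩ := hmem
  have haj : ∀ j, a j = ∑ l, ψ (Pi.single l 1) * B l j := by
    intro j
    have h1 : φ (Pi.single j 1) = a j := by
      rw [hφ]
      simp [Pi.single_apply]
    rw [← h1, ← hψ, LinearMap.dualMap_apply]
    have h2 : Matrix.toLin' B (Pi.single j 1) = ∑ l, B l j • (Pi.single l (1 : k) : Fin n → k) := by
      funext i
      simp [Matrix.toLin'_apply, Matrix.mulVec_single, Finset.sum_apply, Pi.single_apply]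
    rw [h2, map_sum]
    refine Finset.sum_congr rfl fun l _ => ?_
    rw [map_smul, smul_eq_mul, mul_comm]
  calc ∑ j, a j • v j = ∑ j, ∑ l, (ψ (Pi.single l 1) * B l j) • v j := by
        refine Finset.sum_congr rfl fun j _ => ?_
        rw [← Finset.sum_smul, ← haj j]
    _ = ∑ l, ∑ j, (ψ (Pi.single l 1) * B l j) • v j := Finset.sum_comm
    _ = ∑ l, ψ (Pi.single l 1) • brickT n K B v l := by
        refine Finset.sum_congr rfl fun l _ => ?_
        rw [brickT_apply, Finset.smul_sum]
        exact Finset.sum_congr rfl fun j _ => (smul_smul _ _ _).symm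
    _ = 0 := by
        rw [hv]
        simp

private theorem brick_range {n : ℕ} (B : Matrix (Fin n) (Fin n) k) (v : Fin n → K) :
    brickT n K B v ∈ KU K (LinearMap.range (Matrix.toLin' B)) := by
  classical
  rw [mem_KU_iff]
  intro a ha
  have haj : ∀ j, ∑ i, a i * B i j = 0 := by
    intro j
    have := ha (Matrix.toLin' B (Pi.single j 1)) ⟨_, rfl⟩
    simpa [Matrix.toLin'_apply, Matrix.mulVec_single] using this
  calc ∑ i, a i • brickT n K B v i = ∑ i, ∑ j, (a i * B i j) • v j := by
        refine Finset.sum_congr rfl fun i _ => ?_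
        rw [brickT_apply, Finset.smul_sum]
        exact Finset.sum_congr rfl fun j _ => smul_smul _ _ _
    _ = ∑ j, ∑ i, (a i * B i j) • v j := Finset.sum_comm
    _ = 0 := by
        refine Finset.sum_eq_zero fun j _ => ?_
        rw [← Finset.sum_smul, haj j, zero_smul]

/-- the scalar matrices are the only ones preserving `V` -/
private theorem brick_scalar [IsAlgClosed k] {n : ℕ} (hn : 1 ≤ n)
    {V : Submodule k (Fin n → K)} [Module.Finite k V]
    (hst : ∀ U : Submodule k (Fin n → k), U ≠ ⊥ → U ≠ ⊤ →
      n * finrank k ↥(V ⊓ (KU K U).restrictScalars k) < finrank k V * finrank k U)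
    (A : Matrix (Fin n) (Fin n) k) (hA : ∀ v ∈ V, brickT n K A v ∈ V) :
    ∃ c : k, A = c • (1 : Matrix (Fin n) (Fin n) k) := by
  classical
  have : Nonempty (Fin n) := ⟨⟨0, hn⟩⟩
  obtain ⟨c, hc⟩ := Module.End.exists_eigenvalue (Matrix.toLin' A)
  refine ⟨c, ?_⟩
  by_contra hne
  set B : Matrix (Fin n) (Fin n) k := A - c • 1 with hB
  have hB0 : B ≠ 0 := fun h => hne (sub_eq_zero.1 h)
  have hBV : ∀ v ∈ V, brickT n K B v ∈ V := by
    intro v hv
    have h1 : brickT n K B v = brickT n K A v - c • v := by
      funext i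
      rw [Pi.sub_apply, brickT_apply, brickT_apply, Pi.smul_apply]
      simp only [hB, Matrix.sub_apply, Matrix.smul_apply, Matrix.one_apply, sub_smul,
        Finset.sum_sub_distrib]
      congr 1
      simp
    rw [h1]
    exact V.sub_mem (hA v hv) (V.smul_mem c hv)
  have hN0 : LinearMap.ker (Matrix.toLin' B) ≠ ⊥ := by
    obtain ⟨x, hx⟩ := hc.exists_hasEigenvector
    intro h
    have hx1 : Matrix.toLin' A x = c • x := hx.apply_eq_smul
    have hx2 : x ∈ LinearMap.ker (Matrix.toLin' B) := by
      rw [LinearMap.mem_ker, hB, map_sub, LinearMap.sub_apply, hx1, map_smul,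
        Matrix.toLin'_one, LinearMap.smul_apply, LinearMap.id_apply, sub_self]
    rw [h, Submodule.mem_bot] at hx2
    exact hx.2 hx2
  have hI0 : LinearMap.range (Matrix.toLin' B) ≠ ⊥ := by
    intro h
    rw [LinearMap.range_eq_bot] at h
    exact hB0 (Matrix.toLin'.injective (by rw [h, map_zero]))
  have hN1 : LinearMap.ker (Matrix.toLin' B) ≠ ⊤ := by
    intro h
    rw [LinearMap.ker_eq_top] at h
    exact hB0 (Matrix.toLin'.injective (by rw [h, map_zero]))
  have hI1 : LinearMap.range (Matrix.toLin' B) ≠ ⊤ := by
    intro h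
    exact hN0 (LinearMap.ker_eq_bot_iff_range_eq_top.2 h)
  have hdim : finrank k (LinearMap.range (Matrix.toLin' B)) +
      finrank k (LinearMap.ker (Matrix.toLin' B)) = n := by
    rw [LinearMap.finrank_range_add_finrank_ker]
    simp
  have h1 := hst _ hN0 hN1
  have h2 := hst _ hI0 hI1
  -- the map on `V`
  let τ : V →ₗ[k] (Fin n → K) := (brickT n K B).comp V.subtype
  have hτ : ∀ v : V, τ v = brickT n K B v := fun v => rfl
  have hrn := LinearMap.finrank_range_add_finrank_ker τ
  have f1 : Module.Finite k ↥(V ⊓ (KU K (LinearMap.ker (Matrix.toLin' B))).restrictScalars k) :=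
    Submodule.finiteDimensional_inf_left _ _
  have f2 : Module.Finite k ↥(V ⊓ (KU K (LinearMap.range (Matrix.toLin' B))).restrictScalars k) :=
    Submodule.finiteDimensional_inf_left _ _
  have hle1 : finrank k (LinearMap.ker τ) ≤
      finrank k ↥(V ⊓ (KU K (LinearMap.ker (Matrix.toLin' B))).restrictScalars k) := by
    have hmap : (LinearMap.ker τ).map V.subtype ≤
        V ⊓ (KU K (LinearMap.ker (Matrix.toLin' B))).restrictScalars k := by
      rintro _ ⟨v, hv, rfl⟩
      have hv0 : brickT n K B (v : Fin n → K) = 0 := LinearMap.mem_ker.1 hv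
      exact ⟨v.2, brick_ker B (v : Fin n → K) hv0⟩
    rw [(LinearEquiv.finrank_eq (Submodule.equivMapOfInjective V.subtype V.injective_subtype
      (LinearMap.ker τ)))]
    exact Submodule.finrank_mono hmap
  have hle2 : finrank k (LinearMap.range τ) ≤
      finrank k ↥(V ⊓ (KU K (LinearMap.range (Matrix.toLin' B))).restrictScalars k) := by
    refine Submodule.finrank_mono ?_
    rintro _ ⟨v, rfl⟩
    exact ⟨hBV v v.2, brick_range B (v : Fin n → K)⟩
  nlinarith [Nat.mul_le_mul_left n (Nat.add_le_add hle1 hle2), hrn, h1, h2, hdim]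

theorem brick [IsAlgClosed k] {n : ℕ} (hn : 1 ≤ n) {S : Submodule k K} [Module.Finite k S]
    {V : Submodule k (Fin n → K)} (hV : ∀ v ∈ V, ∀ i, v i ∈ S)
    (hst : ∀ U : Submodule k (Fin n → k), U ≠ ⊥ → U ≠ ⊤ →
      n * finrank k ↥(V ⊓ (KU K U).restrictScalars k) < finrank k V * finrank k U) :
    (n : ℤ) ^ 2 + (finrank k V : ℤ) ^ 2 ≤ finrank k S * n * finrank k V + 1 := by
  classical
  -- the finite dimensional ambient space
  let ι : (Fin n → S) →ₗ[k] (Fin n → K) := S.subtype.compLeft (Fin n)
  have hι : ∀ (w : Fin n → S) (i : Fin n), ι w i = (w i : K) := fun w i => rfl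
  have hιinj : Function.Injective ι := by
    intro w w' h
    funext i
    exact Subtype.ext (congrFun h i)
  let V' : Submodule k (Fin n → S) := V.comap ι
  have hmapV : V'.map ι = V := by
    refine Submodule.map_comap_eq_of_le ?_
    intro v hv
    exact ⟨fun i => ⟨v i, hV v hv i⟩, by funext i; rfl⟩
  have hfr : finrank k V' = finrank k V := by
    rw [← hmapV]
    exact (LinearEquiv.finrank_eq (Submodule.equivMapOfInjective ι hιinj V'))
  have : Module.Finite k V := by
    rw [← hmapV]
    exact Module.Finite.equiv (Submodule.equivMapOfInjective ι hιinj V')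
  have hcomm : ∀ (A : Matrix (Fin n) (Fin n) k) (w : Fin n → S),
      ι (brickT n S A w) = brickT n K A (ι w) := by
    intro A w
    funext i
    rw [hι, brickT_apply, brickT_apply]
    simp only [Submodule.coe_sum, Submodule.coe_smul, hι]
  let Θ : Matrix (Fin n) (Fin n) k →ₗ[k] (V' →ₗ[k] ((Fin n → S) ⧸ V')) :=
    LinearMap.mk₂ k (fun A v => V'.mkQ (brickT n S A v))
      (fun A B v => by rw [map_add, LinearMap.add_apply, map_add])
      (fun c A v => by rw [map_smul, LinearMap.smul_apply, map_smul])
      (fun A v w => by rw [Submodule.coe_add, map_add, map_add])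
      (fun c A v => by rw [Submodule.coe_smul, map_smul, map_smul])
  have hΘ : ∀ A v, Θ A v = V'.mkQ (brickT n S A v) := fun A v => rfl
  have hker : LinearMap.ker Θ ≤ Submodule.span k {(1 : Matrix (Fin n) (Fin n) k)} := by
    intro A hA
    obtain ⟨c, hc⟩ := brick_scalar hn hst A (by
      intro v hv
      rw [← hmapV] at hv
      obtain ⟨w, hw, rfl⟩ := hv
      have h0 : Θ A ⟨w, hw⟩ = 0 := by
        rw [LinearMap.mem_ker.1 hA]
        rfl
      rw [hΘ, Submodule.mkQ_apply, Submodule.Quotient.mk_eq_zero] at h0
      have h1 : ι (brickT n S A w) ∈ V := h0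
      rw [hcomm] at h1
      exact h1)
    rw [hc]
    exact Submodule.smul_mem _ _ (Submodule.mem_span_singleton_self _)
  have hk1 : finrank k (LinearMap.ker Θ) ≤ 1 :=
    (Submodule.finrank_mono hker).trans
      ((finrank_span_le_card {(1 : Matrix (Fin n) (Fin n) k)}).trans (by simp))
  have hr := LinearMap.finrank_range_add_finrank_ker Θ
  have hr1 : finrank k (LinearMap.range Θ) ≤
      finrank k V' * finrank k ((Fin n → S) ⧸ V') := by
    refine (Submodule.finrank_le _).trans ?_
    have hfree : Module.Free k ↥V' := Module.Free.of_divisionRing k ↥V'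
    have hfin : Module.Finite k ↥V' := inferInstance
    have hfree2 : Module.Free k ((Fin n → S) ⧸ V') := Module.Free.of_divisionRing k _
    exact le_of_eq (Module.finrank_linearMap k k V' ((Fin n → S) ⧸ V'))
  have hm : finrank k (Matrix (Fin n) (Fin n) k) = n * n := by
    rw [Module.finrank_matrix]
    simp
  have hq := Submodule.finrank_quotient_add_finrank V'
  have hS : finrank k (Fin n → S) = n * finrank k S := by
    rw [Module.finrank_pi_fintype]
    simp
  rw [hS] at hq
  rw [hm] at hr
  rw [hfr] at hr1 hq
  have h1 : (finrank k (LinearMap.range Θ) : ℤ) + finrank k (LinearMap.ker Θ) = n * n := by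
    exact_mod_cast hr
  have h2 : (finrank k (LinearMap.range Θ) : ℤ) ≤
      finrank k V * finrank k ((Fin n → S) ⧸ V') := by exact_mod_cast hr1
  have h3 : (finrank k ((Fin n → S) ⧸ V') : ℤ) + finrank k V = n * finrank k S := by
    exact_mod_cast hq
  have h4 : (finrank k (LinearMap.ker Θ) : ℤ) ≤ 1 := by exact_mod_cast hk1
  have h5 : (finrank k V : ℤ) * finrank k ((Fin n → S) ⧸ V') =
      finrank k V * (n * finrank k S - finrank k V) := by
    rw [← h3]
    ring
  rw [h5] at h2
  nlinarith [h1, h2, h4]

end Pool.Agent.MP_09eaec.GG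
end

section

/-!
# TASK SecIndep: independence of the sections of a semistable bundle of degree zero

All subbundles `J` of `E` have degree `≤ rank J * ddeg D`. The sections of `E(-D)` which are independent over `k` are independent
over `K`. Proof (as for `kindep` in GG/KIndep.lean): let `∑ i, f i • w i = 0` with `f : ι → K` not all zero; choose a point `P`
(`infinite_places`). Multiplying with an element of `K` we may assume `f i ∈ P.filt 0` for all `i` and
`P.ord (f i0) = 0` for some `i0`. Residues `c i : k` (`exists_residue (Curve.curve (k := k) (K := K)) P`), `f i - algebraMap c i ∈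
P.filt 1`, `c i0 ≠ 0`. `z = ∑ c i • w i ≠ 0` (`hli`), `z = -∑ (f i - c i) • w i`. So `z ∈ H0 (E(-(D + P)))`: at a point `Q ≠ P` the
divisors `D` and `D + single P 1` agree; at `P`, `t • w i ∈ E.M P` for `t` of order `-D P` (`VB.mem_twist`), so
`t' • ((f i - c i) • w i) ∈ E.M P` for `t'` of order `-D P - 1`. `ddeg_le_sub` for `D + single P 1`: a subspace of rank one of degree
`≥ ddeg D + 1`, contradicting `hE`.
-/

set_option autoImplicit false

namespace Pool.Agent.MP_09eaec.GG

open Module

universe u v

variable {k : Type u} {K : Type v} [Field k] [Field K] [Algebra k K]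
variable {W : Type v} [AddCommGroup W] [Module K W] [Module k W] [IsScalarTower k K W]

variable [CurveG k K]

theorem sec_indep [FiniteDimensional K W] {E : VB k K W} {D : Dv k K}
    (hE : ∀ J : Submodule K W, finrank K J = 1 → (E.sub J).deg ≤ ddeg D)
    {ι : Type} [Fintype ι] (w : ι → W) (hw : ∀ i, w i ∈ (E.twist (-D)).H0)
    (hli : LinearIndependent k w) : LinearIndependent K w := by
  classical
  have := Curve.closed (k := k) (K := K)
  have := Curve.char (k := k) (K := K)
  by_contra hcon
  rw [Fintype.not_linearIndependent_iff] at hcon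
  obtain ⟨f0, hf0, i1, hi1⟩ := hcon
  have hinf := infinite_places (k := k) (K := K)
  obtain ⟨P⟩ : Nonempty (Place k K) := inferInstance
  obtain ⟨i0, hi0, hmin⟩ := Finset.exists_min_image (Finset.univ.filter fun i => f0 i ≠ 0)
    (fun i => P.ord (f0 i)) ⟨i1, by simp [hi1]⟩
  have hi0' : f0 i0 ≠ 0 := (Finset.mem_filter.1 hi0).2
  obtain ⟨t, ht, htm⟩ := exists_ord_eq P (-P.ord (f0 i0))
  -- the normalised relation
  have hf : ∑ i, (t * f0 i) • w i = 0 := by
    have : ∑ i, (t * f0 i) • w i = t • ∑ i, f0 i • w i := by
      rw [Finset.smul_sum]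
      exact Finset.sum_congr rfl fun i _ => by rw [smul_smul]
    rw [this, hf0, smul_zero]
  have hf1 : ∀ i, t * f0 i ∈ P.filt 0 := by
    intro i
    by_cases h : f0 i = 0
    · rw [h, mul_zero]; exact zero_mem _
    · right
      rw [P.ord_mul _ _ ht h, htm]
      have := hmin i (by simp [h])
      omega
  have hres : ∀ i, ∃ c : k, t * f0 i - algebraMap k K c ∈ P.filt 1 := by
    intro i
    obtain ⟨c, hc⟩ := exists_residue (Curve.curve (k := k) (K := K)) P (f := t * f0 i) (hf1 i)
    refine ⟨c, ?_⟩
    rcases hc with hc | hc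
    · exact Or.inl hc
    · exact Or.inr (by omega)
  choose c hc using hres
  have hz : ∑ i, c i • w i = 0 := by
    by_contra hz0
    have hzH : ∑ i, c i • w i ∈ (E.twist (-(D + Finsupp.single P 1))).H0 := by
      rw [VB.mem_H0]
      intro Q
      rw [VB.mem_twist]
      intro a ha
      have hwQ : ∀ i, ∀ b ∈ Q.filt ((-D) Q), b • w i ∈ E.M Q := fun i =>
        VB.mem_twist.1 (VB.mem_H0.1 (hw i) Q)
      by_cases hQ : Q = P
      · subst hQ
        have h1 : ∑ i, c i • w i = -∑ i, (t * f0 i - algebraMap k K (c i)) • w i := by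
          have h2 : ∑ i, (t * f0 i - algebraMap k K (c i)) • w i =
              ∑ i, (t * f0 i) • w i - ∑ i, c i • w i := by
            rw [← Finset.sum_sub_distrib]
            refine Finset.sum_congr rfl fun i _ => ?_
            rw [sub_smul, algebraMap_smul]
          rw [h2, hf, zero_sub, neg_neg]
        rw [h1, smul_neg, Finset.smul_sum]
        refine Submodule.neg_mem _ (Submodule.sum_mem _ fun i _ => ?_)
        rw [smul_smul]
        refine hwQ i _ ?_
        have h3 := mul_mem_filt Q ha (hc i)
        refine filt_mono Q ?_ h3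
        rw [Finsupp.neg_apply, Finsupp.neg_apply, Finsupp.add_apply, Finsupp.single_eq_same]
        omega
      · rw [Finset.smul_sum]
        refine Submodule.sum_mem _ fun i _ => ?_
        rw [smul_comm]
        refine Submodule.smul_mem _ _ (hwQ i a ?_)
        refine filt_mono Q ?_ ha
        rw [Finsupp.neg_apply, Finsupp.neg_apply, Finsupp.add_apply, Finsupp.single_eq_of_ne hQ]
        omega
    have h5 := ddeg_le_sub hz0 hzH
    have h6 := hE _ (finrank_span_singleton (K := K) hz0)
    rw [ddeg_add, ddeg_single] at h5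
    omega
  have hc0 : c i0 = 0 := Fintype.linearIndependent_iff.1 hli c hz i0
  have h4 := hc i0
  rw [hc0, map_zero, sub_zero] at h4
  have h5 := h4.resolve_left (mul_ne_zero ht hi0')
  rw [P.ord_mul _ _ ht hi0', htm] at h5
  omega

end Pool.Agent.MP_09eaec.GG
end

section

/-!
# TASK PwSub: the subbundles of `O(D)^n`

`J ≤ (Fin n → K)` of rank `m`. There are `m` coordinates such that the projection `J → (Fin m → K)` to them is an isomorphism `f`
(e.g. induction, or: the restrictions to `J` of the coordinate functionals span the dual of `J`; choose a basis among them,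
`exists_linearIndependent` or `Module.Basis.exists...`). `((pw D n).sub J).map f ≤ pw D m`, so the degree of
`(pw D n).sub J` is `≤ m ddeg D` (`VB.deg_map`, `VB.deg_le_of_le`, `deg_pw`). If it is equal then `((pw D n).sub J).map f = pw D m`
(`VB.eq_of_le_of_deg_le`). Then for `z : Fin m → K` in `(pw D m).M P` the vector `f.symm z` is in `(pw D n).M P`: so
for each `i : Fin n`, `l : Fin m` the element `g i l = (f.symm (Pi.single l 1)) i` is in `P.filt 0` for all `P` (multiply with `t` of order
`-D P`), so it is constant (`H0_line_zero` : `g i l ∈ H0 (line 0)`). So `J` is spanned by the `m` constant vectors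
`f.symm (Pi.single l 1)`: `J = KU K U`, `U` = the span of the constants.
(Other possible proof: induction on `n` with the kernel and the image of the last coordinate.)
-/

set_option autoImplicit false

namespace Pool.Agent.MP_09eaec.GG

open Module

universe u v

variable {k : Type u} {K : Type v} [Field k] [Field K] [Algebra k K]

private theorem PwSub_iso {n : ℕ} (J : Submodule K (Fin n → K)) :
    ∃ (s : Fin (finrank K J) → Fin n) (f : J ≃ₗ[K] (Fin (finrank K J) → K)),
      ∀ x l, f x l = (x : Fin n → K) (s l) := by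
  let v : Fin n → Module.Dual K J := fun i => (LinearMap.proj i).comp J.subtype
  obtain ⟨κ, a, ha, hspan, hli⟩ := exists_linearIndependent' K v
  have hfin : Finite κ := Finite.of_injective a ha
  have : Fintype κ := Fintype.ofFinite κ
  let F : J →ₗ[K] (κ → K) := LinearMap.pi fun l => v (a l)
  have hF : Function.Injective F := by
    rw [← LinearMap.ker_eq_bot, LinearMap.ker_eq_bot']
    intro x hx
    have h1 : ∀ w ∈ Submodule.span K (Set.range (v ∘ a)), w x = 0 := by
      intro w hw
      induction hw using Submodule.span_induction with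
      | mem w hw =>
        obtain ⟨l, rfl⟩ := hw
        exact congrFun hx l
      | zero => rfl
      | add w w' _ _ h h' => rw [LinearMap.add_apply, h, h', add_zero]
      | smul c w _ h => rw [LinearMap.smul_apply, h, smul_zero]
    apply Subtype.ext
    funext i
    exact h1 (v i) (by rw [hspan]; exact Submodule.subset_span ⟨i, rfl⟩)
  have hc1 : finrank K J ≤ Fintype.card κ := by
    have := LinearMap.finrank_le_finrank_of_injective hF
    rwa [finrank_fintype_fun_eq_card] at this
  have hc2 : Fintype.card κ ≤ finrank K J := by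
    have h1 := hli.fintype_card_le_finrank
    rwa [Subspace.dual_finrank_eq] at h1
  have hc : Fintype.card κ = finrank K J := le_antisymm hc2 hc1
  let e : κ ≃ Fin (finrank K J) := Fintype.equivFinOfCardEq hc
  have hdim : finrank K J = finrank K (κ → K) := by rw [finrank_fintype_fun_eq_card, hc]
  refine ⟨fun l => a (e.symm l),
    (F.linearEquivOfInjective hF hdim).trans (LinearEquiv.funCongrLeft K K e.symm), fun x l => ?_⟩
  rfl

private theorem PwSub_mono [Curve k K] (D : Dv k K) {n m : ℕ} (J : Submodule K (Fin n → K))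
    (s : Fin m → Fin n) (f : J ≃ₗ[K] (Fin m → K))
    (hf : ∀ x l, f x l = (x : Fin n → K) (s l)) : ((pw D n).sub J).map f ≤ pw D m := by
  intro P x hx
  have h1 := mem_pw.1 (VB.mem_sub.1 (VB.mem_map.1 hx))
  rw [mem_pw]
  intro l
  have h2 := hf (f.symm x) l
  rw [f.apply_symm_apply] at h2
  rw [h2]
  exact h1 (s l)

variable [CurveG k K]

theorem pw_sub_le (D : Dv k K) {n : ℕ} (J : Submodule K (Fin n → K)) :
    ((pw D n).sub J).deg ≤ finrank K J * ddeg D := by
  obtain ⟨s, f, hf⟩ := PwSub_iso J
  rw [← VB.deg_map _ f, ← deg_pw]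
  exact VB.deg_le_of_le (PwSub_mono D J s f hf)

private theorem PwSub_const (D : Dv k K) {n m : ℕ} (J : Submodule K (Fin n → K))
    (f : J ≃ₗ[K] (Fin m → K)) (hf : ((pw D n).sub J).map f = pw D m) (l : Fin m) :
    ∃ c : Fin n → k, constL k K n c = (f.symm (Pi.single l 1) : Fin n → K) := by
  have h1 : ∀ i : Fin n, ∃ c : k,
      algebraMap k K c = (f.symm (Pi.single l 1) : Fin n → K) i := by
    intro i
    refine H0_line_zero (VB.mem_H0.2 fun P => ?_)
    obtain ⟨t, ht, htm⟩ := exists_ord_eq P (- D P)
    have h2 : (t • Pi.single l 1 : Fin m → K) ∈ (pw D m).M P := by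
      rw [mem_pw]
      intro j
      rw [Pi.smul_apply, Pi.single_apply, smul_eq_mul]
      split_ifs
      · rw [mul_one]
        exact Or.inr htm.ge
      · rw [mul_zero]
        exact zero_mem _
    rw [← hf] at h2
    have h3 := mem_pw.1 (VB.mem_sub.1 (VB.mem_map.1 h2)) i
    rw [map_smul, Submodule.coe_smul, Pi.smul_apply, smul_eq_mul] at h3
    rw [mem_line, Finsupp.zero_apply, neg_zero, ← mem_filt_iff_of_ord P ht htm, zero_add]
    exact h3
  choose c hc using h1
  exact ⟨c, funext hc⟩

theorem pw_sub_eq (D : Dv k K) {n : ℕ} (J : Submodule K (Fin n → K))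
    (h : finrank K J * ddeg D ≤ ((pw D n).sub J).deg) :
    ∃ U : Submodule k (Fin n → k), J = KU K U := by
  obtain ⟨s, f, hf⟩ := PwSub_iso J
  have h1 : ((pw D n).sub J).map f = pw D (finrank K J) := by
    refine VB.eq_of_le_of_deg_le (PwSub_mono D J s f hf) ?_
    rw [deg_pw, VB.deg_map]
    exact h
  choose c hc using PwSub_const D J f h1
  refine ⟨Submodule.span k (Set.range c), le_antisymm (fun x hx => ?_) ?_⟩
  · have h2 : (⟨x, hx⟩ : J) = ∑ l, (f ⟨x, hx⟩ l) • f.symm (Pi.single l 1) := by
      conv_lhs => rw [← f.symm_apply_apply ⟨x, hx⟩, sum_smul_single (f ⟨x, hx⟩), map_sum]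
      refine Finset.sum_congr rfl fun l _ => ?_
      rw [map_smul]
    have h3 : x = ∑ l, (f ⟨x, hx⟩ l) • constL k K n (c l) := by
      have h4 := congrArg Subtype.val h2
      rw [AddSubmonoidClass.coe_finsetSum] at h4
      simp only [Submodule.coe_smul, ← hc] at h4
      exact h4
    rw [h3]
    refine Submodule.sum_mem _ fun l _ => Submodule.smul_mem _ _ (Submodule.subset_span ?_)
    exact ⟨c l, Submodule.subset_span ⟨l, rfl⟩, rfl⟩
  · unfold KU
    rw [Submodule.span_le]
    rintro _ ⟨u, hu, rfl⟩
    have h2 : Submodule.span k (Set.range c) ≤ (J.restrictScalars k).comap (constL k K n) := by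
      rw [Submodule.span_le]
      rintro _ ⟨l, rfl⟩
      change constL k K n (c l) ∈ J
      rw [hc]
      exact (f.symm (Pi.single l 1)).2
    exact h2 hu

end Pool.Agent.MP_09eaec.GG
end
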