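import Pool.Agent.Lib.MP_09eaec_ag.Mg.G009
import Pool.Agent.Lib.MP_09eaec_ag.Mg.G004
import Pool.Agent.Lib.MP_09eaec_ag.GG.Coh
import Pool.Agent.Lib.MP_09eaec_ag.Mg.G016
import Pool.Agent.Lib.MP_09eaec_ag.Mg.G007
import Pool.Agent.Lib.MP_09eaec_ag.Mg.G010
import Pool.Agent.Lib.MP_09eaec_ag.Mg.G020
import Pool.Agent.Lib.MP_09eaec_ag.Mg.G003

section

/-!
# TASK MulSec: products of sections

`w : Fin u → W` sections of `E(-D)`, independent over `K`, `J = span K (range w)`, `s = (line D).h0`. For `f ∈ H0 (line D)`: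
`f • w i ∈ E.H0` (`f ∈ P.filt (-D P)`, definition of the twist), and in `J`. The `k`-linear map
`Ψ : (Fin u → (line D).H0) → W`, `Ψ c = ∑ i, c i • w i` is injective (`K`-independence), so its range `T ≤ E.H0 ⊓ J` has dimension
`u s`. `V, T ≤ E.H0`: `dim V + dim T = dim (V ⊔ T) + dim (V ⊓ T) ≤ h0 E + vd V J` (`Submodule.finrank_sup_add_finrank_inf_eq`,
`Submodule.finrank_mono`; everything is finite dimensional since it is `≤ E.H0`, `VB.finite_H0`).
* `deg_span_ge`: `(E.sub J).deg ≥ u ddeg D`: the map `f : (Fin u → K) ≃ₗ[K] J`, `c ↦ ∑ c i • w i` carries `pw D u` into `E.sub J`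
  (`mem_pw`, definition of the twist), `deg_pw`, `VB.deg_map`, `VB.deg_le_of_le`.
-/

set_option autoImplicit false

namespace Pool.Agent.MP_09eaec.GG

open Module

universe u v

variable {k : Type u} {K : Type v} [Field k] [Field K] [Algebra k K]
variable {W : Type v} [AddCommGroup W] [Module K W] [Module k W] [IsScalarTower k K W]

variable [CurveG k K]

private theorem MulSec_smul {E : VB k K W} {D : Dv k K} {x : W}
    (hx : x ∈ (E.twist (-D)).H0) {f : K} (hf : f ∈ (line D).H0) : f • x ∈ E.H0 := by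
  rw [VB.mem_H0] at hx hf ⊢
  intro P
  refine hx P f ?_
  have := hf P
  rw [mem_line] at this
  simpa using this

private noncomputable def MulSec_psi (D : Dv k K) {u : ℕ} (w : Fin u → W) :
    (Fin u → ↥(line D).H0) →ₗ[k] W where
  toFun c := ∑ i, ((c i : K)) • w i
  map_add' a b := by
    simp only [Pi.add_apply, Submodule.coe_add, add_smul, Finset.sum_add_distrib]
  map_smul' a c := by
    simp only [Pi.smul_apply, Submodule.coe_smul, RingHom.id_apply, Finset.smul_sum, smul_assoc]

private theorem MulSec_psi_apply (D : Dv k K) {u : ℕ} (w : Fin u → W)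
    (c : Fin u → ↥(line D).H0) : MulSec_psi D w c = ∑ i, ((c i : K)) • w i := rfl

theorem mul_sec [FiniteDimensional K W] {E : VB k K W} {D : Dv k K} {u : ℕ} {w : Fin u → W}
    (hw : ∀ i, w i ∈ (E.twist (-D)).H0) (hli : LinearIndependent K w) {V : Submodule k W}
    (hV : V ≤ E.H0) :
    (finrank k V : ℤ) + u * (line D).h0 ≤
      E.h0 + vd V (Submodule.span K (Set.range w)) := by
  have hfE : Module.Finite k E.H0 := VB.finite_H0 E
  have hfL : Module.Finite k (line D).H0 := VB.finite_H0 (line D)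
  set T : Submodule k W := LinearMap.range (MulSec_psi D w) with hT
  have hinj : Function.Injective (MulSec_psi D w) := by
    rw [injective_iff_map_eq_zero]
    intro c hc
    rw [MulSec_psi_apply] at hc
    have h1 := (Fintype.linearIndependent_iff.1 hli) (fun i => (c i : K)) hc
    funext i
    exact Subtype.ext (h1 i)
  have hTE : T ≤ E.H0 := by
    rintro _ ⟨c, rfl⟩
    rw [MulSec_psi_apply]
    exact Submodule.sum_mem _ fun i _ => MulSec_smul (hw i) (c i).2
  have hTJ : T ≤ (Submodule.span K (Set.range w)).restrictScalars k := by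
    rintro _ ⟨c, rfl⟩
    rw [MulSec_psi_apply, Submodule.restrictScalars_mem]
    exact Submodule.sum_mem _ fun i _ => Submodule.smul_mem _ _ (Submodule.subset_span ⟨i, rfl⟩)
  have hdT : (finrank k T : ℤ) = u * (line D).h0 := by
    rw [hT, LinearMap.finrank_range_of_inj hinj, Module.finrank_pi_fintype]
    unfold VB.h0
    simp
  have hfV : Module.Finite k V := Submodule.finiteDimensional_of_le hV
  have hfT : Module.Finite k T := Submodule.finiteDimensional_of_le hTE
  have h1 := Submodule.finrank_sup_add_finrank_inf_eq V T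
  have h2 : finrank k ↥(V ⊔ T) ≤ finrank k E.H0 := Submodule.finrank_mono (sup_le hV hTE)
  have hfJ : Module.Finite k ↥(V ⊓ (Submodule.span K (Set.range w)).restrictScalars k) :=
    Submodule.finiteDimensional_of_le inf_le_left
  have h3 : finrank k ↥(V ⊓ T) ≤ vd V (Submodule.span K (Set.range w)) :=
    Submodule.finrank_mono (inf_le_inf le_rfl hTJ)
  rw [← hdT]
  unfold VB.h0
  have h1' : (finrank k ↥(V ⊔ T) : ℤ) + finrank k ↥(V ⊓ T) = finrank k V + finrank k T := by
    exact_mod_cast h1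
  have h2' : (finrank k ↥(V ⊔ T) : ℤ) ≤ finrank k E.H0 := by exact_mod_cast h2
  have h3' : (finrank k ↥(V ⊓ T) : ℤ) ≤ vd V (Submodule.span K (Set.range w)) := by
    exact_mod_cast h3
  linarith

theorem deg_span_ge [FiniteDimensional K W] {E : VB k K W} {D : Dv k K} {u : ℕ} {w : Fin u → W}
    (hw : ∀ i, w i ∈ (E.twist (-D)).H0) (hli : LinearIndependent K w) :
    u * ddeg D ≤ (E.sub (Submodule.span K (Set.range w))).deg := by
  set b := Module.Basis.span hli with hb
  have h1 : (pw D u).map b.equivFun.symm ≤ E.sub (Submodule.span K (Set.range w)) := by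
    intro P x hx
    obtain ⟨y, hy, rfl⟩ := hx
    rw [VB.mem_sub]
    have h2 : ((b.equivFun.symm y : ↥(Submodule.span K (Set.range w))) : W) =
        ∑ i, y i • w i := by
      rw [Module.Basis.equivFun_symm_apply, Submodule.coe_sum]
      refine Finset.sum_congr rfl fun i _ => ?_
      rw [Submodule.coe_smul, hb, Module.Basis.span_apply]
    change ((b.equivFun.symm y : ↥(Submodule.span K (Set.range w))) : W) ∈ E.M P
    rw [h2]
    refine Submodule.sum_mem _ fun i _ => ?_
    have h3 := VB.mem_H0.1 (hw i) P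
    refine h3 (y i) ?_
    have h4 := mem_pw.1 hy i
    simpa using h4
  have h5 := VB.deg_le_of_le h1
  rw [VB.deg_map, deg_pw] at h5
  exact h5

end Pool.Agent.MP_09eaec.GG
end

section

/-!
# TASK NoO: first properties of a stable system

* `deg_nonneg_sys`: `J = span K V`. Choose a `K`-basis `w` of `J` in `V` (`exists_linearIndependent` or
  `Submodule.exists_fun_fin_finrank_span_eq`), `deg_span_ge` (HY/MulSec) with `D = 0` (`neg_zero`, `VB.twist_zero`):
  `0 ≤ (E.sub J).deg`. `V ⊓ J = V`. If `J = ⊤`: `deg_sub_top`. If `J = ⊥`: `V = ⊥`, against `hV0`. Otherwise the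
  stability inequality for `J`: `α k / finrank J ≤ (deg J + α k) / finrank J < (deg E + α k) / n`, `finrank J < n`.
* `no_map_O`: `φ ≠ 0`, `J = ker φ`, `ker_bounds` (GG/SysDefs) with `D = 0` (`h0_line_zero`): `deg E ≤ deg J`,
  `k ≤ vd V J + 1`, `finrank J = n - 1`. `J ≠ ⊤`, `J ≠ ⊥` (`n ≥ 2`). The stability inequality gives
  `n (d + α (k - 1)) < (n - 1) (d + α k)`, i.e. `d + α (k - n) < 0`, against `0 ≤ d`, `n ≤ k`.
-/

set_option autoImplicit false

namespace Pool.Agent.MP_09eaec.GG.G3

open Module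

universe u v

variable {k : Type u} {K : Type v} [Field k] [Field K] [Algebra k K]
variable {W : Type v} [AddCommGroup W] [Module K W] [Module k W] [IsScalarTower k K W]
variable {A : Type v} [AddCommGroup A] [Module K A] [Module k A] [IsScalarTower k K A]
variable {B : Type v} [AddCommGroup B] [Module K B] [Module k B] [IsScalarTower k K B]

variable [CurveG k K]

theorem deg_nonneg_sys [FiniteDimensional K W] {E : VB k K W} {V : Submodule k W} (hV : V ≤ E.H0)
    {α : ℝ} (hα : 0 < α) (hst : E.StableSys α V) (hV0 : 1 ≤ finrank k V) : 0 ≤ E.deg := by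
  have hfV : Module.Finite k V := (finrank_le_h0 hV).1
  obtain ⟨b, hbV, hspan, hli⟩ := exists_linearIndependent K (V : Set W)
  have hbfin : b.Finite := hli.setFinite
  have : Fintype b := hbfin.fintype
  let e := Fintype.equivFin b
  let w : Fin (Fintype.card b) → W := fun i => (e.symm i : W)
  have hrange : Set.range w = b := by
    ext x
    constructor
    · rintro ⟨i, rfl⟩
      exact (e.symm i).2
    · intro hx
      exact ⟨e ⟨x, hx⟩, by simp [w]⟩
  have hliw : LinearIndependent K w := hli.comp e.symm e.symm.injective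
  have h1 : (0 : ℤ) ≤ (E.sub (Submodule.span K (V : Set W))).deg := by
    have h2 := deg_span_ge (E := E) (D := 0) (w := w) (fun i => by
      rw [neg_zero, VB.twist_zero]
      exact hV (hbV (e.symm i).2)) hliw
    rw [hrange, hspan, ddeg_zero, mul_zero] at h2
    exact h2
  set J : Submodule K W := Submodule.span K (V : Set W) with hJ
  have hVJ : V ⊓ J.restrictScalars k = V :=
    inf_eq_left.2 fun x hx => Submodule.subset_span hx
  by_cases htop : J = ⊤
  · rw [htop, VB.deg_sub_top] at h1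
    exact h1
  have hbot : J ≠ ⊥ := by
    intro hb
    have h3 : V = ⊥ := by
      rw [eq_bot_iff]
      intro x hx
      have h4 : x ∈ J := Submodule.subset_span hx
      rw [hb, Submodule.mem_bot] at h4
      exact (Submodule.mem_bot k).2 h4
    rw [h3, finrank_bot] at hV0
    omega
  have h5 := hst J hbot htop
  rw [hVJ] at h5
  have h6 : finrank K J < finrank K W := Submodule.finrank_lt htop
  have h7 : 0 < finrank K J := by
    have : Nontrivial J := (Submodule.nontrivial_iff_ne_bot).2 hbot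
    exact finrank_pos
  have h8 : (0 : ℝ) < finrank K J := by exact_mod_cast h7
  have h9 : (finrank K J : ℝ) < finrank K W := by exact_mod_cast h6
  have h10 : (1 : ℝ) ≤ finrank k V := by exact_mod_cast hV0
  have h11 : (0 : ℝ) ≤ (E.sub J).deg := by exact_mod_cast h1
  rw [div_lt_div_iff₀ h8 (h8.trans h9)] at h5
  by_contra hneg
  push Not at hneg
  have h12 : (E.deg : ℝ) < 0 := by exact_mod_cast hneg
  have h13 : 0 < α * finrank k V := mul_pos hα (by linarith)
  have h14 : 0 ≤ ((E.sub J).deg : ℝ) * finrank K W := mul_nonneg h11 (by linarith)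
  have h15 : (E.deg : ℝ) * finrank K J < 0 := mul_neg_of_neg_of_pos h12 h8
  have h16 : α * finrank k V * finrank K J < α * finrank k V * finrank K W :=
    mul_lt_mul_of_pos_left h9 h13
  nlinarith

theorem no_map_O [FiniteDimensional K W] {E : VB k K W} {V : Submodule k W} (hV : V ≤ E.H0)
    {α : ℝ} (hα : 0 < α) (hn : 2 ≤ finrank K W) (hst : E.StableSys α V)
    (hk : finrank K W ≤ finrank k V) (φ : W →ₗ[K] K)
    (hφ : ∀ P x, x ∈ E.M P → φ x ∈ (line 0).M P) : φ = 0 := by
  by_contra hφ0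
  obtain ⟨h1, h2, h3⟩ := ker_bounds hφ0 hφ
  have h3 := h3 V hV
  rw [h0_line_zero] at h3
  rw [ddeg_zero, add_zero] at h1
  set J : Submodule K W := LinearMap.ker φ with hJ
  have htop : J ≠ ⊤ := by
    intro h
    exact hφ0 (LinearMap.ker_eq_top.1 h)
  have hbot : J ≠ ⊥ := by
    intro h
    rw [h, finrank_bot] at h2
    omega
  have h5 := hst J hbot htop
  have h6 : (finrank K J : ℝ) = finrank K W - 1 := by exact_mod_cast h2
  have hn' : (2 : ℝ) ≤ finrank K W := by exact_mod_cast hn
  have hk' : (finrank K W : ℝ) ≤ finrank k V := by exact_mod_cast hk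
  have hd : (0 : ℤ) ≤ E.deg := deg_nonneg_sys hV hα hst (by omega)
  have hd' : (0 : ℝ) ≤ E.deg := by exact_mod_cast hd
  have h1' : (E.deg : ℝ) ≤ (E.sub J).deg := by exact_mod_cast h1
  have h3' : (finrank k V : ℝ) ≤ finrank k ↥(V ⊓ J.restrictScalars k) + 1 := by exact_mod_cast h3
  rw [div_lt_div_iff₀ (by rw [h6]; linarith) (by linarith), h6] at h5
  have h7 : α * ((finrank k V : ℝ) - 1) ≤ α * finrank k ↥(V ⊓ J.restrictScalars k) :=
    mul_le_mul_of_nonneg_left (by linarith) hα.le
  have h8 : ((E.deg : ℝ) + α * (finrank k V - 1)) * finrank K W ≤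
      ((E.sub J).deg + α * finrank k ↥(V ⊓ J.restrictScalars k)) * finrank K W :=
    mul_le_mul_of_nonneg_right (by linarith) (by linarith)
  have h9 : 0 ≤ α * ((finrank k V : ℝ) - finrank K W) := mul_nonneg hα.le (by linarith)
  nlinarith

end Pool.Agent.MP_09eaec.GG.G3
end

section

/-!
# TASK HypSurj: maps to the pencil bundle

Let `φ : Fin p → (W →ₗ[K] K)` be a `k`-basis of `(hom E (line H)).H0`. For `v ∈ V`: `φ i v ∈ (line H).H0 = k x + k y`
(`h0_smul` with `s = 1`), `φ i v = a i v • x + b i v • y` with linear `a i, b i : V → k` (uniqueness: `hp.li`).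
Suppose `k < 2 p`. Then `v ↦ (a i v, b i v)` is not onto, so there are `c, e : Fin p → k`, not both zero, with
`∑ c i * a i v + e i * b i v = 0` for all `v ∈ V`. Let `φ1 = ∑ c i • φ i`, `φ2 = ∑ e i • φ i`: the `x`-coordinate of
`φ1 v` plus the `y`-coordinate of `φ2 v` is zero.
 * `φ1, φ2` dependent over `k`: both are multiples of one `χ ≠ 0`, and the values `χ v` (`v ∈ V`) lie in a subspace of
   dimension one of `(line H).H0`. `J = ker χ`: `deg J ≥ d - 2` (`ker_bounds`), `vd V J ≥ k - 1`, rank `n - 1`. Then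
   (`J ≠ ⊥`, `n ≥ 2`) stability gives `(d + α k) / n < 2 + α`, against `hμ`.
 * independent over `k`, dependent over `K`: `J = ker φ1 = ker φ2` has rank `n - 1`; `E.quo J` is `line D` up to an
   isomorphism (`exists_eq_line`), with two independent maps to `line H`, so `(line (H - D)).h0 ≥ 2` and
   `ddeg D ≤ 0` (`two_sec` for `line (H - D)`), `(line D).h0 ≤ 1` (`two_sec`), so stability and `finrank_image_le`:
   `(d + α k) / n < α`, against `hμ`.
 * independent over `K`: `J = ker φ1 ⊓ ker φ2`, rank `n - 2`, `deg J ≥ d - 4` (`ker_all` with `h = 2`), and the image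
   of `V` under `(φ1, φ2)` has dimension `≤ 3` (one linear condition on `(k x + k y)^2`), so `vd V J ≥ k - 3`. If
   `n > 2` stability for `J` gives `(d + α k) / n < (4 + 3 α) / 2`, against `hμ`. If `n = 2` then `J = ⊥`, `k ≤ 3`,
   against `h3`.
-/

set_option autoImplicit false

namespace Pool.Agent.MP_09eaec.GG.G3

open Module

universe u v

variable {k : Type u} {K : Type v} [Field k] [Field K] [Algebra k K]
variable {W : Type v} [AddCommGroup W] [Module K W] [Module k W] [IsScalarTower k K W]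
variable {A : Type v} [AddCommGroup A] [Module K A] [Module k A] [IsScalarTower k K A]
variable {B : Type v} [AddCommGroup B] [Module K B] [Module k B] [IsScalarTower k K B]

variable [CurveG k K]

omit [CurveG k K] in
/-- Rank-nullity on `V`. -/
private lemma HypSurj_dim {Z : Type v} [AddCommGroup Z] [Module k Z] {V : Submodule k W}
    [Module.Finite k V] (g : W →ₗ[k] Z) (J : Submodule K W)
    (hJ : ∀ v ∈ V, g v = 0 → v ∈ J) (R : Submodule k Z) [Module.Finite k R]
    (hR : ∀ v ∈ V, g v ∈ R) :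
    finrank k V ≤ finrank k ↥(V ⊓ J.restrictScalars k) + finrank k R := by
  let f : V →ₗ[k] Z := g ∘ₗ V.subtype
  have h1 : finrank k (LinearMap.range f) + finrank k (LinearMap.ker f) = finrank k V :=
    LinearMap.finrank_range_add_finrank_ker f
  have h2 : LinearMap.range f ≤ R := by
    rintro _ ⟨x, rfl⟩
    exact hR x x.2
  have h3 : finrank k (LinearMap.range f) ≤ finrank k R := Submodule.finrank_mono h2
  have h4 : (LinearMap.ker f).map V.subtype ≤ V ⊓ J.restrictScalars k := by
    rintro x ⟨y, hy, rfl⟩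
    refine ⟨y.2, ?_⟩
    exact hJ y y.2 (LinearMap.mem_ker.1 hy)
  have : Module.Finite k ↥(V ⊓ J.restrictScalars k) :=
    Submodule.finiteDimensional_of_le inf_le_left
  have h5 : finrank k (LinearMap.ker f) ≤ finrank k ↥(V ⊓ J.restrictScalars k) := by
    rw [← Submodule.finrank_map_subtype_eq V (LinearMap.ker f)]
    exact Submodule.finrank_mono h4
  omega

/-- Coordinates of the sections of `line H`. -/
private lemma HypSurj_coord {H : Dv k K} {x y : K} (hp : Pencil H x y) :
    ∃ X Y : K →ₗ[k] k, ∀ z ∈ (line H).H0, z = X z • x + Y z • y := by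
  have hg := CurveG.two_le (k := k) (K := K)
  have h2 : finrank k (line H).H0 = 2 := by
    have h := h0_smul hp (s := 1) (by norm_num) (by omega)
    rw [one_smul, VB.h0] at h
    exact_mod_cast h
  let c : Fin 2 → (line H).H0 := ![⟨x, hp.memx⟩, ⟨y, hp.memy⟩]
  have hc : LinearIndependent k c := by
    have h3 : LinearIndependent k ((line H).H0.subtype ∘ c) := by
      have h4 : ((line H).H0.subtype ∘ c : Fin 2 → K) = ![x, y] := by
        funext i
        fin_cases i <;> rfl
      rw [h4]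
      exact hp.li
    exact h3.of_comp _
  let b := basisOfLinearIndependentOfCardEqFinrank hc (by rw [h2, Fintype.card_fin])
  have hb : ∀ i, b i = c i := fun i => by
    rw [coe_basisOfLinearIndependentOfCardEqFinrank]
  obtain ⟨X, hX⟩ := (b.coord 0).exists_extend
  obtain ⟨Y, hY⟩ := (b.coord 1).exists_extend
  refine ⟨X, Y, fun z hz => ?_⟩
  have h5 := congrArg (Subtype.val) (b.sum_repr ⟨z, hz⟩)
  rw [Fin.sum_univ_two, hb, hb] at h5
  have h6 : X z = b.repr ⟨z, hz⟩ 0 := by
    have := LinearMap.congr_fun hX ⟨z, hz⟩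
    exact this
  have h7 : Y z = b.repr ⟨z, hz⟩ 1 := by
    have := LinearMap.congr_fun hY ⟨z, hz⟩
    exact this
  rw [h6, h7]
  exact h5.symm

omit [CurveG k K] in
private lemma HypSurj_lin {M : Type v} [AddCommGroup M] [Module k M] {U : Type v}
    [AddCommGroup U] [Module k U] [Module.Finite k U] (L : Submodule k M) [Module.Finite k L]
    (T1 T2 : M →ₗ[k] (U →ₗ[k] k)) (h : finrank k U < 2 * finrank k L) :
    ∃ p ∈ L, ∃ q ∈ L, (p ≠ 0 ∨ q ≠ 0) ∧ ∀ v, T1 p v + T2 q v = 0 := by
  let T : (L × L) →ₗ[k] (U →ₗ[k] k) := (T1 ∘ₗ L.subtype).coprod (T2 ∘ₗ L.subtype)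
  have hni : LinearMap.ker T ≠ ⊥ := by
    intro hb
    have h1 := LinearMap.finrank_le_finrank_of_injective (LinearMap.ker_eq_bot.1 hb)
    rw [Module.finrank_prod, Module.finrank_linearMap, finrank_self, mul_one] at h1
    omega
  obtain ⟨p, hp, hp0⟩ := Submodule.exists_mem_ne_zero_of_ne_bot hni
  refine ⟨p.1, p.1.2, p.2, p.2.2, ?_, ?_⟩
  · by_contra hcon
    push Not at hcon
    apply hp0
    apply Prod.ext
    · exact Subtype.ext hcon.1
    · exact Subtype.ext hcon.2
  · intro v
    exact LinearMap.congr_fun (LinearMap.mem_ker.1 hp) v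

/-- Two maps with one linear relation on `V`. -/
private lemma HypSurj_pair {H : Dv k K} [FiniteDimensional K W] {E : VB k K W}
    {V : Submodule k W} (hV : V ≤ E.H0) (X Y : K →ₗ[k] k)
    (h : (finrank k V : ℤ) < 2 * (hom E (line H)).h0) :
    ∃ φ1 φ2 : W →ₗ[K] K, φ1 ∈ (hom E (line H)).H0 ∧ φ2 ∈ (hom E (line H)).H0 ∧
      (φ1 ≠ 0 ∨ φ2 ≠ 0) ∧ ∀ v ∈ V, X (φ1 v) + Y (φ2 v) = 0 := by
  have : Module.Finite k V := Submodule.finiteDimensional_of_le hV
  have hfin : Module.Finite k (hom E (line H)).H0 := VB.finite_H0 _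
  let TT : (K →ₗ[k] k) → ((W →ₗ[K] K) →ₗ[k] (V →ₗ[k] k)) := fun X =>
    { toFun := fun p => X ∘ₗ (p.restrictScalars k) ∘ₗ V.subtype
      map_add' := by
        intro p q
        ext v
        simp only [LinearMap.add_apply, LinearMap.comp_apply, LinearMap.restrictScalars_apply,
          map_add]
      map_smul' := by
        intro c p
        ext v
        simp only [LinearMap.comp_apply, LinearMap.restrictScalars_apply,
          LinearMap.smul_apply, map_smul, RingHom.id_apply] }
  have h2 : ((hom E (line H)).h0 : ℤ) = (finrank k (hom E (line H)).H0 : ℤ) := rfl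
  rw [h2] at h
  obtain ⟨p, hp, q, hq, h0, hrel⟩ := HypSurj_lin (hom E (line H)).H0 (TT X) (TT Y) (by omega)
  exact ⟨p, q, hp, hq, h0, fun v hv => hrel ⟨v, hv⟩⟩

private lemma HypSurj_num {N r δ ν d dJ kv vJ α : ℝ} (hN : 0 ≤ N) (hα : 0 < α)
    (h1 : d ≤ dJ + δ) (h2 : kv ≤ vJ + ν) (hs : (dJ + α * vJ) * N < (d + α * kv) * r) :
    (N - r) * (d + α * kv) < N * (δ + α * ν) := by
  have h3 : α * kv ≤ α * (vJ + ν) := mul_le_mul_of_nonneg_left h2 hα.le
  have h4 : d - δ + α * kv - α * ν ≤ dJ + α * vJ := by linarith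
  have h5 := mul_le_mul_of_nonneg_right h4 hN
  linarith

/-- Case 1. -/
private lemma HypSurj_case1 {H : Dv k K} {x y : K} (hp : Pencil H x y)
    [FiniteDimensional K W] {E : VB k K W} {V : Submodule k W} (hV : V ≤ E.H0) {α : ℝ}
    (hα : 0 < α) (hn : 2 ≤ finrank K W) (hst : E.StableSys α V)
    (hμ : (4 + 3 * α) * finrank K W < 2 * ((E.deg : ℝ) + α * finrank k V))
    {X Y : K →ₗ[k] k} (hXY : ∀ z ∈ (line H).H0, z = X z • x + Y z • y)
    {χ : W →ₗ[K] K} (hχ : χ ∈ (hom E (line H)).H0) (hχ0 : χ ≠ 0) {c e : k}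
    (hce : c ≠ 0 ∨ e ≠ 0) (hrel : ∀ v ∈ V, c * X (χ v) + e * Y (χ v) = 0) : False := by
  have : Module.Finite k V := Submodule.finiteDimensional_of_le hV
  have hχ' : ∀ P z, z ∈ E.M P → χ z ∈ (line H).M P := fun P z hz =>
    mem_hom.1 (VB.mem_H0.1 hχ P) z hz
  obtain ⟨b1, b2, -⟩ := ker_bounds hχ0 hχ'
  rw [hp.deg] at b1
  have hval : ∀ v ∈ V, χ v ∈ (line H).H0 := fun v hv =>
    VB.mem_H0.2 fun P => hχ' P v (VB.mem_H0.1 (hV hv) P)
  obtain ⟨r, hr⟩ : ∃ r : K, ∀ v ∈ V, χ v ∈ Submodule.span k {r} := by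
    by_cases hc : c = 0
    · have he : e ≠ 0 := hce.resolve_left (fun h => h hc)
      refine ⟨x, fun v hv => ?_⟩
      have h1 := hrel v hv
      rw [hc, zero_mul, zero_add] at h1
      have h2 : Y (χ v) = 0 := (mul_eq_zero.1 h1).resolve_left he
      have h4 := hXY _ (hval v hv)
      rw [h2, zero_smul, add_zero] at h4
      rw [h4]
      exact Submodule.smul_mem _ _ (Submodule.mem_span_singleton_self x)
    · refine ⟨(-(e / c)) • x + y, fun v hv => ?_⟩
      have h1 := hrel v hv
      have h2 : X (χ v) = Y (χ v) * (-(e / c)) := by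
        field_simp
        linear_combination h1
      have h4 := hXY _ (hval v hv)
      rw [h2, mul_smul, ← smul_add] at h4
      rw [h4]
      exact Submodule.smul_mem _ _ (Submodule.mem_span_singleton_self _)
  have hfr : finrank k (Submodule.span k {r}) ≤ 1 := by
    have := finrank_span_le_card (R := k) ({r} : Set K)
    simpa using this
  have hd := HypSurj_dim (V := V) (χ.restrictScalars k) (LinearMap.ker χ)
    (fun v _ h => LinearMap.mem_ker.2 h) (Submodule.span k {r}) hr
  have hJt : LinearMap.ker χ ≠ ⊤ := by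
    intro h
    exact hχ0 (LinearMap.ker_eq_top.1 h)
  have hJb : LinearMap.ker χ ≠ ⊥ := by
    intro h
    rw [h, finrank_bot] at b2
    omega
  have hs := hst _ hJb hJt
  obtain ⟨n, hn'⟩ : ∃ n : ℕ, finrank K W = n + 2 := ⟨finrank K W - 2, by omega⟩
  have hJn : finrank K (LinearMap.ker χ) = n + 1 := by omega
  rw [hJn, hn'] at hs
  rw [hn'] at hμ
  have hvd : (finrank k V : ℝ) ≤ finrank k ↥(V ⊓ (LinearMap.ker χ).restrictScalars k) + 1 := by
    have : finrank k V ≤ finrank k ↥(V ⊓ (LinearMap.ker χ).restrictScalars k) + 1 := by omega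
    exact_mod_cast this
  have hb1 : (E.deg : ℝ) ≤ (E.sub (LinearMap.ker χ)).deg + 2 := by exact_mod_cast b1
  push_cast at hs hμ
  have hn0 : (0 : ℝ) ≤ n := Nat.cast_nonneg n
  rw [div_lt_div_iff₀ (by positivity) (by positivity)] at hs
  have hf := HypSurj_num (by positivity) hα hb1 hvd hs
  have hf2 : 0 < α * ((n : ℝ) + 2) := by positivity
  linarith

/-- Case 2a. -/
private lemma HypSurj_case2 (hg : gen k K = 3) {H : Dv k K} {x y : K} (hp : Pencil H x y)
    [FiniteDimensional K W] {E : VB k K W} {V : Submodule k W} (hV : V ≤ E.H0) {α : ℝ}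
    (hα : 0 < α) (hn : 2 ≤ finrank K W) (hst : E.StableSys α V)
    (hμ : (4 + 3 * α) * finrank K W < 2 * ((E.deg : ℝ) + α * finrank k V))
    {φ : W →ₗ[K] K} {t : K} (hφ : φ ∈ (hom E (line H)).H0) (hφt : t • φ ∈ (hom E (line H)).H0)
    (hφ0 : φ ≠ 0) (ht : ∀ c : k, t ≠ algebraMap k K c) : False := by
  have : Module.Finite k V := Submodule.finiteDimensional_of_le hV
  have h1' : ∀ P z, z ∈ E.M P → φ z ∈ (line H).M P := fun P z hz =>
    mem_hom.1 (VB.mem_H0.1 hφ P) z hz
  have h2' : ∀ P z, z ∈ E.M P → t * φ z ∈ (line H).M P := fun P z hz =>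
    mem_hom.1 (VB.mem_H0.1 hφt P) z hz
  have hsurj : Function.Surjective φ := LinearMap.surjective hφ0
  let f : (W ⧸ LinearMap.ker φ) ≃ₗ[K] K := φ.quotKerEquivOfSurjective hsurj
  obtain ⟨D, hD⟩ := exists_eq_line ((E.quo (LinearMap.ker φ)).map f)
  have hD1 : ∀ P z, z ∈ E.M P → φ z ∈ (line D).M P := by
    intro P z hz
    rw [← hD]
    exact ⟨(LinearMap.ker φ).mkQ z, ⟨z, hz, rfl⟩, rfl⟩
  have hD2 : ∀ P c, c ∈ (line D).M P → ∃ z ∈ E.M P, φ z = c := by
    intro P c hc
    rw [← hD] at hc
    obtain ⟨w, ⟨z, hz, rfl⟩, rfl⟩ := hc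
    exact ⟨z, hz, rfl⟩
  have hle : ∀ (s : K), (∀ P z, z ∈ E.M P → s * φ z ∈ (line H).M P) →
      s ∈ (line (H - D)).H0 := by
    intro s hs
    rw [VB.mem_H0]
    intro P
    rw [mem_line]
    obtain ⟨u, hu, hum⟩ := exists_ord_eq P (-D P)
    have h1 : u ∈ (line D).M P := mem_line.2 (Or.inr hum.ge)
    obtain ⟨z, hz, hzu⟩ := hD2 P u h1
    have h2 := hs P z hz
    rw [hzu, mem_line, mul_comm] at h2
    rw [← mem_filt_iff_of_ord P hu hum]
    have e1 : -(H - D) P + -D P = -H P := by
      rw [Finsupp.sub_apply]; ring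
    rw [e1]
    exact h2
  have m1 : (1 : K) ∈ (line (H - D)).H0 := hle 1 (fun P z hz => by rw [one_mul]; exact h1' P z hz)
  have m2 : t ∈ (line (H - D)).H0 := hle t h2'
  have hlin : LinearIndependent k ![(⟨1, m1⟩ : (line (H - D)).H0), ⟨t, m2⟩] := by
    rw [LinearIndependent.pair_iff]
    intro a b hab
    have h1 : a • (1 : K) + b • t = 0 := congrArg Subtype.val hab
    by_cases hb : b = 0
    · rw [hb, zero_smul, add_zero] at h1
      refine ⟨?_, hb⟩
      rwa [smul_eq_zero, or_iff_left one_ne_zero] at h1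
    · exfalso
      apply ht (-(a / b))
      rw [Algebra.smul_def, Algebra.smul_def, mul_one] at h1
      have hb' : algebraMap k K b ≠ 0 := by
        rwa [Ne, map_eq_zero]
      rw [map_neg, map_div₀]
      field_simp
      linear_combination h1
  have h2 : 2 ≤ (line (H - D)).h0 := by
    have := hlin.fintype_card_le_finrank
    rw [Fintype.card_fin] at this
    unfold VB.h0
    exact_mod_cast this
  have h4 := two_sec (by omega) (finrank_self K) h2
  rw [VB.deg_line, ddeg_sub, hp.deg] at h4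
  have h5 : (line D).h0 ≤ 1 := by
    by_contra hcon
    have := two_sec (E := line D) (by omega) (finrank_self K) (by omega)
    rw [VB.deg_line] at this
    omega
  obtain ⟨b1, b2, b3⟩ := ker_bounds hφ0 hD1
  have b4 := b3 V hV
  have hJt : LinearMap.ker φ ≠ ⊤ := by
    intro h
    exact hφ0 (LinearMap.ker_eq_top.1 h)
  have hJb : LinearMap.ker φ ≠ ⊥ := by
    intro h
    rw [h, finrank_bot] at b2
    omega
  have hs := hst _ hJb hJt
  obtain ⟨n, hn'⟩ : ∃ n : ℕ, finrank K W = n + 2 := ⟨finrank K W - 2, by omega⟩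
  have hJn : finrank K (LinearMap.ker φ) = n + 1 := by omega
  rw [hJn, hn'] at hs
  rw [hn'] at hμ
  have hvd : (finrank k V : ℝ) ≤ finrank k ↥(V ⊓ (LinearMap.ker φ).restrictScalars k) + 1 := by
    have : finrank k V ≤ finrank k ↥(V ⊓ (LinearMap.ker φ).restrictScalars k) + 1 := by omega
    exact_mod_cast this
  have hb1 : (E.deg : ℝ) ≤ (E.sub (LinearMap.ker φ)).deg + 0 := by
    have : E.deg ≤ (E.sub (LinearMap.ker φ)).deg + 0 := by omega
    exact_mod_cast this
  push_cast at hs hμ
  have hn0 : (0 : ℝ) ≤ n := Nat.cast_nonneg n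
  rw [div_lt_div_iff₀ (by positivity) (by positivity)] at hs
  have hf := HypSurj_num (by positivity) hα hb1 hvd hs
  have hf2 : 0 < α * ((n : ℝ) + 2) := by positivity
  linarith

/-- Case 2b. -/
private lemma HypSurj_case3 {H : Dv k K} {x y : K} (hp : Pencil H x y)
    [FiniteDimensional K W] {E : VB k K W} {V : Submodule k W} (hV : V ≤ E.H0) {α : ℝ}
    (hα : 0 < α) (hn : 2 ≤ finrank K W) (hst : E.StableSys α V)
    (hμ : (4 + 3 * α) * finrank K W < 2 * ((E.deg : ℝ) + α * finrank k V))
    (h3 : finrank K W = 2 → 4 ≤ finrank k V)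
    {X Y : K →ₗ[k] k} (hXY : ∀ z ∈ (line H).H0, z = X z • x + Y z • y)
    {φ1 φ2 : W →ₗ[K] K} (h1 : φ1 ∈ (hom E (line H)).H0) (h2 : φ2 ∈ (hom E (line H)).H0)
    (hli : LinearIndependent K ![φ1, φ2])
    (hrel : ∀ v ∈ V, X (φ1 v) + Y (φ2 v) = 0) : False := by
  have : Module.Finite k V := Submodule.finiteDimensional_of_le hV
  have h1' : ∀ P z, z ∈ E.M P → φ1 z ∈ (line H).M P := fun P z hz =>
    mem_hom.1 (VB.mem_H0.1 h1 P) z hz
  have h2' : ∀ P z, z ∈ E.M P → φ2 z ∈ (line H).M P := fun P z hz =>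
    mem_hom.1 (VB.mem_H0.1 h2 P) z hz
  obtain ⟨b1, b2⟩ := ker_all E ![φ1, φ2] hli (D := H) (by
    intro i P z hz
    fin_cases i
    · exact h1' P z hz
    · exact h2' P z hz)
  set J : Submodule K W := ⨅ i, LinearMap.ker ((![φ1, φ2] : Fin 2 → (W →ₗ[K] K)) i) with hJdef
  have hmJ : ∀ v, v ∈ J ↔ φ1 v = 0 ∧ φ2 v = 0 := by
    intro v
    rw [hJdef, Submodule.mem_iInf, Fin.forall_fin_two]
    rfl
  rw [hp.deg] at b1
  let R : Submodule k (K × K) := Submodule.span k {(x, -y), (y, 0), (0, x)}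
  have hR : ∀ v ∈ V, (((φ1.restrictScalars k).prod (φ2.restrictScalars k)) v : K × K) ∈ R := by
    intro v hv
    have e1 := hXY _ (VB.mem_H0.2 fun P => h1' P v (VB.mem_H0.1 (hV hv) P))
    have e2 := hXY _ (VB.mem_H0.2 fun P => h2' P v (VB.mem_H0.1 (hV hv) P))
    have e3 : Y (φ2 v) = - X (φ1 v) := by
      have := hrel v hv
      linear_combination this
    rw [e3] at e2
    have e4 : (((φ1.restrictScalars k).prod (φ2.restrictScalars k)) v : K × K) =
        X (φ1 v) • (x, -y) + Y (φ1 v) • (y, 0) + X (φ2 v) • ((0 : K), x) := by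
      apply Prod.ext
      · show φ1 v = _
        conv_lhs => rw [e1]
        simp
      · show φ2 v = _
        conv_lhs => rw [e2]
        simp [add_comm]
    rw [e4]
    refine Submodule.add_mem _ (Submodule.add_mem _ ?_ ?_) ?_
    · exact Submodule.smul_mem _ _ (Submodule.subset_span (by simp))
    · exact Submodule.smul_mem _ _ (Submodule.subset_span (by simp))
    · exact Submodule.smul_mem _ _ (Submodule.subset_span (by simp))
  have hRf : Module.Finite k R := by
    refine Module.Finite.span_of_finite k ?_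
    exact Set.toFinite _
  have hfr : finrank k R ≤ 3 := by
    classical
    have h5 : R = Submodule.span k ((({(x, -y), (y, 0), (0, x)} : Finset (K × K))) : Set (K × K)) := by
      simp [R]
    rw [h5]
    refine (finrank_span_finset_le_card _).trans ?_
    exact Finset.card_le_three
  have hd := HypSurj_dim (V := V) ((φ1.restrictScalars k).prod (φ2.restrictScalars k)) J
    (fun v _ h => (hmJ v).2 ⟨congrArg Prod.fst h, congrArg Prod.snd h⟩) R hR
  obtain ⟨n, hn'⟩ : ∃ n : ℕ, finrank K W = n + 2 := ⟨finrank K W - 2, by omega⟩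
  have hJn : finrank K J = n := by omega
  rcases Nat.eq_zero_or_pos n with h0 | h0
  · have hJb : J = ⊥ := by
      rw [← Submodule.finrank_eq_zero (R := K), hJn, h0]
    have h6 : finrank k ↥(V ⊓ J.restrictScalars k) = 0 := by
      rw [hJb]
      have : V ⊓ (⊥ : Submodule K W).restrictScalars k = ⊥ := by
        rw [Submodule.restrictScalars_bot, inf_bot_eq]
      rw [this, finrank_bot]
    have := h3 (by omega)
    omega
  · have hJb : J ≠ ⊥ := by
      intro h
      rw [h, finrank_bot] at hJn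
      omega
    have hJt : J ≠ ⊤ := by
      intro h
      rw [h, finrank_top] at hJn
      omega
    have hs := hst _ hJb hJt
    rw [hJn, hn'] at hs
    rw [hn'] at hμ
    have hvd : (finrank k V : ℝ) ≤ finrank k ↥(V ⊓ J.restrictScalars k) + 3 := by
      have : finrank k V ≤ finrank k ↥(V ⊓ J.restrictScalars k) + 3 := by omega
      exact_mod_cast this
    have hb1 : (E.deg : ℝ) ≤ (E.sub J).deg + 4 := by
      have : E.deg ≤ (E.sub J).deg + 4 := by
        push_cast at b1
        linarith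
      exact_mod_cast this
    push_cast at hs hμ
    have hn0 : (0 : ℝ) < n := by exact_mod_cast h0
    rw [div_lt_div_iff₀ (by positivity) (by positivity)] at hs
    have hf := HypSurj_num (by positivity) hα hb1 hvd hs
    linarith

theorem hyp_surj (hg : gen k K = 3) {H : Dv k K} {x y : K} (hp : Pencil H x y)
    [FiniteDimensional K W] {E : VB k K W} {V : Submodule k W} (hV : V ≤ E.H0) {α : ℝ}
    (hα : 0 < α) (hn : 2 ≤ finrank K W) (hst : E.StableSys α V)
    (hμ : (4 + 3 * α) * finrank K W < 2 * ((E.deg : ℝ) + α * finrank k V))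
    (hk : finrank K W < finrank k V) (h3 : finrank K W = 2 → 4 ≤ finrank k V) :
    2 * (hom E (line H)).h0 ≤ finrank k V := by
  by_contra hcon
  have hcon' : (finrank k V : ℤ) < 2 * (hom E (line H)).h0 := not_le.1 hcon
  obtain ⟨X, Y, hXY⟩ := HypSurj_coord hp
  obtain ⟨φ1, φ2, h1, h2, h0, hrel⟩ := HypSurj_pair hV X Y hcon'
  by_cases hli : LinearIndependent K ![φ1, φ2]
  · exact HypSurj_case3 hp hV hα hn hst hμ h3 hXY h1 h2 hli hrel
  by_cases hφ1 : φ1 = 0
  · refine HypSurj_case1 hp hV hα hn hst hμ hXY h2 (h0.resolve_left (fun h => h hφ1))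
      (c := 0) (e := 1) (Or.inr one_ne_zero) (fun v hv => ?_)
    have h4 := hrel v hv
    rw [hφ1, LinearMap.zero_apply, map_zero, zero_add] at h4
    rw [zero_mul, one_mul, zero_add, h4]
  · obtain ⟨t, ht⟩ : ∃ t : K, φ2 = t • φ1 := by
      by_contra hno
      push Not at hno
      apply hli
      rw [LinearIndependent.pair_iff' hφ1]
      intro a ha
      exact hno a ha.symm
    by_cases hc : ∃ c : k, t = algebraMap k K c
    · obtain ⟨c, rfl⟩ := hc
      refine HypSurj_case1 hp hV hα hn hst hμ hXY h1 hφ1 (c := 1) (e := c)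
        (Or.inl one_ne_zero) (fun v hv => ?_)
      have h4 := hrel v hv
      have h5 : φ2 v = c • φ1 v := by
        rw [ht, LinearMap.smul_apply, smul_eq_mul, Algebra.smul_def]
      rw [h5, map_smul, smul_eq_mul] at h4
      rw [one_mul, h4]
    · push Not at hc
      rw [ht] at h2
      exact HypSurj_case2 hg hp hV hα hn hst hμ h1 h2 hφ1 hc

end Pool.Agent.MP_09eaec.GG.G3
end

section

/-!
# TASK StableB: sections of stable bundles

`r = finrank K W ≥ 1`, `Q` stable, `δ = Q.deg`, `g = gen k K`.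
* `stable_window`: `2 i r < δ < 2 (i + 1) r`. `fH H Q (-(i + 1)) = 0` (`stable_twist_bot` for `D = (i + 1) • H`, of degree `2 (i + 1)`, `ddeg_zsmul`,
  `neg_smul`), `fH H Q (g - 1 - i) = δ + (g - 1 - 2 i) r` (`fH_eq`, `stable_hom_zero` for `D = i • H`). `fH_ineq` for `a = -(i + 1)`, `b = 0`,
  `c = g - 1 - i` and `fH_zero`.
* `stable_even`: `δ = 2 i r`. For all `J`: `(Q.sub J).deg ≤ rank J * (2 i)` (stability, `⊥`, `⊤`), so `hom_le_rank` (`c = 2 i`, `D = i • H`) and
  `fH_eq`: `fH H Q (g - 1 - i) ≤ (g - 1) r + r = g r`. `fH H Q (-(i + 1)) = 0` as before. `fH_ineq`: `g h0 Q ≤ (i + 1) g r`.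
-/

set_option autoImplicit false

namespace Pool.Agent.MP_09eaec.GG

open Module

universe u v

variable {k : Type u} {K : Type v} [Field k] [Field K] [Algebra k K]
variable {W : Type v} [AddCommGroup W] [Module K W] [Module k W] [IsScalarTower k K W]

variable [CurveG k K]

private theorem StableB_fm {H : Dv k K} {x y : K} (hp : Pencil H x y) [FiniteDimensional K W]
    {Q : VB k K W} (hQ : Q.Stable) (hr : 1 ≤ finrank K W) {i : ℤ}
    (h : Q.deg < 2 * (i + 1) * finrank K W) : fH H Q (-(i + 1)) = 0 := by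
  unfold fH VB.h0
  rw [neg_smul, stable_twist_bot hQ hr, finrank_bot]
  · rfl
  · rw [ddeg_zsmul, hp.deg]; linarith

private theorem StableB_sub [FiniteDimensional K W] {Q : VB k K W} (hQ : Q.Stable)
    (hr : 1 ≤ finrank K W) {c : ℤ} (hd : Q.deg = finrank K W * c) (J : Submodule K W) :
    (Q.sub J).deg ≤ finrank K J * c := by
  by_cases h1 : J = ⊥
  · rw [h1, VB.deg_sub_bot, finrank_bot]; simp
  by_cases h2 : J = ⊤
  · rw [h2, VB.deg_sub_top, finrank_top, hd]
  have h3 := hQ J h1 h2
  rw [hd] at h3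
  have hr1 : (0 : ℤ) < finrank K W := by exact_mod_cast hr
  have h4 : (finrank K W : ℤ) * (Q.sub J).deg < finrank K W * (finrank K J * c) := by
    linarith
  exact (lt_of_mul_lt_mul_left h4 hr1.le).le

theorem stable_window {H : Dv k K} {x y : K} (hp : Pencil H x y) [FiniteDimensional K W]
    {Q : VB k K W} (hQ : Q.Stable) (hr : 1 ≤ finrank K W) {i : ℤ} (hi : 0 ≤ i)
    (hi' : i ≤ gen k K - 1) (h1 : 2 * i * finrank K W < Q.deg)
    (h2 : Q.deg < 2 * (i + 1) * finrank K W) :
    gen k K * Q.h0 ≤ (i + 1) * (Q.deg + (gen k K - 1 - 2 * i) * finrank K W) := by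
  have hfm := StableB_fm hp hQ hr h2
  have hf : fH H Q (gen k K - 1 - i) = Q.deg + (gen k K - 1 - 2 * i) * finrank K W := by
    rw [fH_eq hp]
    have e : gen k K - 1 - (gen k K - 1 - i) = i := by ring
    rw [e, stable_hom_zero hQ hr (D := i • H) (by rw [ddeg_zsmul, hp.deg]; linarith)]
    ring
  have h3 := fH_ineq hp Q (a := -(i + 1)) (b := 0) (c := gen k K - 1 - i) (by omega) (by omega)
  rw [hfm, hf, fH_zero] at h3
  linarith

theorem stable_even {H : Dv k K} {x y : K} (hp : Pencil H x y) [FiniteDimensional K W]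
    {Q : VB k K W} (hQ : Q.Stable) (hr : 1 ≤ finrank K W) {i : ℤ} (hi : 0 ≤ i)
    (hi' : i ≤ gen k K - 1) (h1 : Q.deg = 2 * i * finrank K W) :
    Q.h0 ≤ (i + 1) * finrank K W := by
  have hg := CurveG.two_le (k := k) (K := K)
  have hr1 : (0 : ℤ) < finrank K W := by exact_mod_cast hr
  have hfm := StableB_fm hp hQ hr (i := i) (by rw [h1]; nlinarith)
  have hd : Q.deg = finrank K W * (2 * i) := by rw [h1]; ring
  have hdeg : ddeg (i • H) = 2 * i := by rw [ddeg_zsmul, hp.deg]; ring
  have hf : fH H Q (gen k K - 1 - i) ≤ gen k K * finrank K W := by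
    rw [fH_eq hp]
    have e : gen k K - 1 - (gen k K - 1 - i) = i := by ring
    have h2 := hom_le_rank (StableB_sub hQ hr hd) hd hdeg
    rw [e, h1]
    linarith
  have h3 := fH_ineq hp Q (a := -(i + 1)) (b := 0) (c := gen k K - 1 - i) (by omega) (by omega)
  rw [hfm, fH_zero] at h3
  have h4 := mul_le_mul_of_nonneg_left hf (show (0 : ℤ) ≤ i + 1 by omega)
  have h5 : gen k K * Q.h0 ≤ gen k K * ((i + 1) * finrank K W) := by linarith
  exact le_of_mul_le_mul_left h5 (by omega)

end Pool.Agent.MP_09eaec.GG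
end
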