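import Pool.Agent.Lib.MP_09eaec_ag.Mg.G004
import Pool.Agent.Lib.MP_09eaec_ag.Mg.G003
import Pool.Agent.Lib.MP_09eaec_ag.Mg.G002
import Pool.Agent.Lib.MP_09eaec_ag.Mg.G010

section

/-!
# TASK Frame: bundles with `n` independent sections of `E(-D)`

`w : Fin n → W`, `n = finrank K W`, sections of `E(-D)`, independent over `K`: a basis of `W`
(`basisOfLinearIndependentOfCardEqFinrank`). `f = (its equivFun : W ≃ₗ[K] (Fin n → K))`, `f.symm c = ∑ c i • w i`. For `c i ∈ P.filt (-D P)`:
`c i • w i ∈ E.M P` (definition of the twist), so `pw D n ≤ E.map f` (`VB.mem_map`, `mem_pw`). `deg_pw`, `VB.deg_map`: the degrees are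
equal, so `E.map f = pw D n` by `VB.eq_of_le_of_deg_le`.
-/

set_option autoImplicit false

namespace Pool.Agent.MP_09eaec.GG

open Module

universe u v

variable {k : Type u} {K : Type v} [Field k] [Field K] [Algebra k K]
variable {W : Type v} [AddCommGroup W] [Module K W] [Module k W] [IsScalarTower k K W]

variable [CurveG k K]

theorem exists_frame [FiniteDimensional K W] {E : VB k K W} {D : Dv k K}
    (hd : E.deg ≤ finrank K W * ddeg D) {w : Fin (finrank K W) → W}
    (hw : ∀ i, w i ∈ (E.twist (-D)).H0) (hli : LinearIndependent K w) :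
    ∃ f : W ≃ₗ[K] (Fin (finrank K W) → K), E.map f = pw D (finrank K W) := by
  classical
  let b : Basis (Fin (finrank K W)) K W :=
    basisOfLinearIndependentOfCardEqFinrank' w hli (by simp)
  have hb : ∀ i, b i = w i := fun i => by
    simp [b]
  refine ⟨b.equivFun, ?_⟩
  have hle : pw D (finrank K W) ≤ E.map b.equivFun := by
    intro P x hx
    rw [VB.mem_map, b.equivFun_symm_apply]
    refine Submodule.sum_mem _ fun i _ => ?_
    rw [hb]
    have h1 := VB.mem_H0.1 (hw i) P
    have h2 := mem_pw.1 hx i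
    rw [VB.mem_twist] at h1
    exact h1 _ h2
  refine (VB.eq_of_le_of_deg_le hle ?_).symm
  rw [VB.deg_map, deg_pw]
  exact hd

end Pool.Agent.MP_09eaec.GG
end

section

/-!
# TASK SlopePart: the part of slope at least `c`

Let `m J = (E.sub J).deg - c * finrank J`. It is bounded above (`exists_bound`, `finrank J ≤ finrank W`). Choose `J` with
`m J` maximal and, among these, of maximal rank. `m ⊥ = 0` (`deg_sub_bot`), so `m J ≥ 0`.
For `T ≤ W ⧸ J`, `T ≠ ⊥`: `J' = T.comap J.mkQ` is larger than `J`, so `m J' < m J`; `deg_quo_sub`, `finrank_comap_mkQ`.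
-/

set_option autoImplicit false

namespace Pool.Agent.MP_09eaec.GG.G3

open Module

universe u v

variable {k : Type u} {K : Type v} [Field k] [Field K] [Algebra k K]
variable {W : Type v} [AddCommGroup W] [Module K W] [Module k W] [IsScalarTower k K W]
variable {A : Type v} [AddCommGroup A] [Module K A] [Module k A] [IsScalarTower k K A]
variable {B : Type v} [AddCommGroup B] [Module K B] [Module k B] [IsScalarTower k K B]

variable [CurveG k K]

theorem slope_part [FiniteDimensional K W] (E : VB k K W) (c : ℤ) :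
    ∃ J : Submodule K W, c * finrank K J ≤ (E.sub J).deg ∧
      ∀ T : Submodule K (W ⧸ J), T ≠ ⊥ → ((E.quo J).sub T).deg < c * finrank K T := by
  obtain ⟨C, hC⟩ := E.exists_bound
  have hR : ∀ J : Submodule K W, (finrank K J : ℤ) ≤ finrank K W := fun J => by
    exact_mod_cast Submodule.finrank_le J
  have hbdd : ∃ b : ℤ, ∀ z : ℤ, (∃ J : Submodule K W,
      ((finrank K W : ℤ) + 1) * ((E.sub J).deg - c * finrank K J) + finrank K J = z) → z ≤ b := by
    refine ⟨((finrank K W : ℤ) + 1) * (C + |c| * finrank K W) + finrank K W, ?_⟩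
    rintro _ ⟨J, rfl⟩
    have h1 : -(c * (finrank K J : ℤ)) ≤ |c| * finrank K W := by
      have h2 : -(c * (finrank K J : ℤ)) ≤ |c| * finrank K J := by
        have h3 := neg_abs_le c
        have h4 : -|c| * (finrank K J : ℤ) ≤ c * finrank K J :=
          mul_le_mul_of_nonneg_right h3 (by positivity)
        linarith
      exact h2.trans (mul_le_mul_of_nonneg_left (hR J) (abs_nonneg c))
    have h2 : (E.sub J).deg - c * finrank K J ≤ C + |c| * finrank K W := by
      have h3 := hC J
      linarith
    have h3 := mul_le_mul_of_nonneg_left h2 (by positivity : (0 : ℤ) ≤ (finrank K W : ℤ) + 1)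
    have h4 := hR J
    linarith
  obtain ⟨z, ⟨J, hJ⟩, hmax⟩ := Int.exists_greatest_of_bdd hbdd ⟨_, ⊥, rfl⟩
  refine ⟨J, ?_, fun T hT => ?_⟩
  · have h1 := hmax _ ⟨⊥, rfl⟩
    rw [VB.deg_sub_bot, finrank_bot, ← hJ] at h1
    have h2 := hR J
    by_contra hcon
    push Not at hcon
    have h3 : (E.sub J).deg - c * finrank K J ≤ -1 := by omega
    have h4 := mul_le_mul_of_nonneg_left h3 (by positivity : (0 : ℤ) ≤ (finrank K W : ℤ) + 1)
    push_cast at h1
    linarith
  · have h1 := hmax _ ⟨T.comap J.mkQ, rfl⟩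
    have h2 : 1 ≤ finrank K T := Nat.pos_of_ne_zero fun h => hT (Submodule.finrank_eq_zero.1 h)
    have h2' : (1 : ℤ) ≤ finrank K T := by exact_mod_cast h2
    rw [deg_quo_sub, finrank_comap_mkQ, ← hJ] at h1
    by_contra hcon
    push Not at hcon
    have h3 : (0 : ℤ) ≤ ((E.quo J).sub T).deg - c * finrank K T := by linarith
    have h4 := mul_nonneg (by positivity : (0 : ℤ) ≤ (finrank K W : ℤ) + 1) h3
    push_cast at h1
    linarith

end Pool.Agent.MP_09eaec.GG.G3
end
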