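import Pool.Agent.Lib.MP_09eaec_ag.Mg.G007
import Pool.Agent.Lib.MP_09eaec_ag.Mg.G018
import Pool.Agent.Lib.MP_09eaec_ag.Mg.G014
import Pool.Agent.Lib.MP_09eaec_ag.Mg.G002
import Pool.Agent.Lib.MP_09eaec_ag.Mg.G004
import Pool.Agent.Lib.MP_09eaec_ag.Mg.G003
import Pool.Agent.Lib.MP_09eaec_ag.Mg.G019
import Pool.Agent.Lib.MP_09eaec_ag.Mg.G016
import Pool.Agent.Lib.MP_09eaec_ag.Mg.G010
import Pool.Agent.Lib.MP_09eaec_ag.Mg.G009
import Pool.Agent.Lib.MP_09eaec_ag.Mg.G045
import Pool.Agent.Lib.MP_09eaec_ag.Mg.G021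
import Pool.Agent.Lib.MP_09eaec_ag.Mg.G023
import Pool.Agent.Lib.MP_09eaec_ag.Mg.G024
import Pool.Agent.Lib.MP_09eaec_ag.Mg.G015

section

/-!
# TASK LowSpan: the dual span (`n < k ≤ 4 n / 3`, any genus)

This is the proof of `dual_span` in Lib/MP_09eaec_ag/G2 (files Eval, FProp, Ratio, DualSpan; genus two, degree `n + 2 m`) in genus `g`:
`F` stable on `Fin m → K` of degree `n + g m` (`exists_stable`), `(2 g - 1) m < n + g m` because `g m ≤ n`, so `h1 F = 0`, `h0 F = n + m`, and
for `J ≠ ⊥, ⊤`: `m (F.sub J).h0 < (n + m) rank J` (`hb0`). `u` a `k`-basis of `F.H0`; it spans `A` over `K` (otherwise the span `J` has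
`h0 = n + m`, against `hb0`; or use `gen_sec`). `evT : (A →ₗ[K] K) → (Fin N → K)`, `φ ↦ (φ (u i))`, `R = range evT`, rank `m`.
`E = (pw 0 N).quo R` (`N = n + m`; `triv` in G2 is `pw 0`), `V` = image of the constant vectors. `E.deg ≤ F.deg`, `finrank V = N`, and
for `R < J < ⊤`: `n finrank (constant vectors in J) < (n + m) (rank J - m)` (`ratio` in G2/Ratio). So `(E, V)` is stable for large `α`
(the degrees of the subspaces are bounded, `exists_bound`). Copy these files and adapt them (namespace GG, `Curve2` becomes `CurveG`, `2` becomes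
`gen k K`). If `g m ≤ n` and `n = 1` there is nothing special (`m ≥ 1`, `g ≥ 1`).
-/

set_option autoImplicit false

namespace Pool.Agent.MP_09eaec.GG.G3

open Module

universe u v

variable {k : Type u} {K : Type v} [Field k] [Field K] [Algebra k K]
variable {W : Type v} [AddCommGroup W] [Module K W] [Module k W] [IsScalarTower k K W]
variable {A : Type v} [AddCommGroup A] [Module K A] [Module k A] [IsScalarTower k K A]
variable {B : Type v} [AddCommGroup B] [Module K B] [Module k B] [IsScalarTower k K B]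

variable [CurveG k K]

open scoped Matrix in
private theorem LowSpan_deg_dual {m : ℕ} (F : VB k K (Fin m → K)) : (hom F (line 0)).deg = - F.deg := by
  obtain ⟨F', rfl⟩ := exists_toVB_eq F
  let F'' : Bundle k K m :=
    { g := fun P => ((F'.g P)⁻¹)ᵀ
      det_ne_zero := fun P => by
        rw [Matrix.det_transpose, Matrix.det_nonsing_inv, Ring.inverse_eq_inv']
        exact inv_ne_zero (F'.det_ne_zero P)
      finite := by
        refine F'.finite.subset ?_
        intro P hP h
        apply hP
        show ((F'.g P)⁻¹)ᵀ = 1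
        rw [h, inv_one, Matrix.transpose_one] }
  have hinv : ∀ P, (F''.g P)⁻¹ = (F'.g P)ᵀ := by
    intro P
    show (((F'.g P)⁻¹)ᵀ)⁻¹ = (F'.g P)ᵀ
    rw [← Matrix.transpose_nonsing_inv, Matrix.nonsing_inv_nonsing_inv _ (F'.isUnit_det P)]
  let e : ((Fin m → K) →ₗ[K] K) ≃ₗ[K] (Fin m → K) := ((Pi.basisFun K (Fin m)).constr K).symm
  have he : ∀ (x y : Fin m → K), e.symm x y = y ⬝ᵥ x := by
    intro x y
    show (Pi.basisFun K (Fin m)).constr K x y = y ⬝ᵥ x
    rw [Module.Basis.constr_apply_fintype]
    simp [dotProduct]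
  have hmap : (hom (toVB F') (line 0)).map e = toVB F'' := by
    apply VB.ext'
    intro P x
    rw [VB.mem_map, mem_hom, mem_toVB]
    have h0 : ∀ y : K, y ∈ (line (0 : Dv k K)).M P ↔ P.IsInt y := by
      intro y
      rw [mem_line]
      simp only [Finsupp.coe_zero, Pi.zero_apply, neg_zero]
      exact Iff.rfl
    constructor
    · intro h i
      have h1 := h ((F'.g P).col i) (F'.mem_col P i)
      rw [h0, he] at h1
      rw [hinv]
      exact h1
    · intro h b hb
      rw [mem_toVB] at hb
      rw [h0, he]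
      have h1 : b = F'.g P *ᵥ ((F'.g P)⁻¹ *ᵥ b) := by
        rw [Matrix.mulVec_mulVec, Matrix.mul_nonsing_inv _ (F'.isUnit_det P), Matrix.one_mulVec]
      have h2 : b ⬝ᵥ x = ((F'.g P)⁻¹ *ᵥ b) ⬝ᵥ ((F'.g P)ᵀ *ᵥ x) := by
        conv_lhs => rw [h1]
        rw [Matrix.mulVec_transpose, dotProduct_comm, Matrix.dotProduct_mulVec, dotProduct_comm]
      rw [h2]
      refine P.isInt_sum _ _ fun i _ => P.isInt_mul (hb i) ?_
      have h3 := h i
      rw [hinv] at h3
      exact h3
  rw [← VB.deg_map (hom (toVB F') (line 0)) e, hmap, deg_toVB, deg_toVB]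
  unfold Bundle.deg
  have hfs : ∑ᶠ P : Place k K, P.ord (F''.g P).det = - ∑ᶠ P : Place k K, P.ord (F'.g P).det := by
    rw [← finsum_neg_distrib]
    refine finsum_congr fun P => ?_
    show P.ord (((F'.g P)⁻¹)ᵀ).det = - P.ord (F'.g P).det
    rw [Matrix.det_transpose, Matrix.det_nonsing_inv, Ring.inverse_eq_inv', P.ord_inv]
  rw [hfs]

/-- `φ ↦ (φ (u i))_i`. -/
def LowSpan_evT {m N : ℕ} (u : Fin N → (Fin m → K)) : ((Fin m → K) →ₗ[K] K) →ₗ[K] (Fin N → K) where
  toFun φ i := φ (u i)
  map_add' _ _ := rfl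
  map_smul' _ _ := rfl

lemma LowSpan_evT_apply {m N : ℕ} (u : Fin N → (Fin m → K)) (φ : (Fin m → K) →ₗ[K] K) (i : Fin N) :
    LowSpan_evT u φ i = φ (u i) := rfl

theorem LowSpan_evT_inj {m N : ℕ} {u : Fin N → (Fin m → K)}
    (hu : Submodule.span K (Set.range u) = ⊤) : Function.Injective (LowSpan_evT u) := by
  intro φ ψ h
  exact LinearMap.ext_on_range hu fun i => congrFun h i

theorem LowSpan_finrank_range {m N : ℕ} {u : Fin N → (Fin m → K)}
    (hu : Submodule.span K (Set.range u) = ⊤) : finrank K (LinearMap.range (LowSpan_evT u)) = m := by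
  rw [LinearMap.finrank_range_of_inj (LowSpan_evT_inj hu), finrank_linearMap, finrank_fin_fun,
    finrank_self, mul_one]

theorem LowSpan_deg_quo_le {m N : ℕ} {F : VB k K (Fin m → K)} {u : Fin N → (Fin m → K)}
    (hu : Submodule.span K (Set.range u) = ⊤) (hF : ∀ i, u i ∈ F.H0) :
    ((pw (0 : Dv k K) N).quo (LinearMap.range (LowSpan_evT u))).deg ≤ F.deg := by
  have h1 := VB.deg_add (pw (0 : Dv k K) N) (LinearMap.range (LowSpan_evT u))
  rw [deg_pw, ddeg_zero, mul_zero] at h1
  have h2 : (hom F (line 0)).map (LinearEquiv.ofInjective (LowSpan_evT u) (LowSpan_evT_inj hu)) ≤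
      (pw (0 : Dv k K) N).sub (LinearMap.range (LowSpan_evT u)) := by
    intro P x hx
    rw [VB.mem_map] at hx
    rw [VB.mem_sub, mem_pw]
    intro i
    have h3 := hx (u i) (VB.mem_H0.1 (hF i) P)
    have h4 : (x : Fin N → K) = LowSpan_evT u
        ((LinearEquiv.ofInjective (LowSpan_evT u) (LowSpan_evT_inj hu)).symm x) := by
      rw [← LinearEquiv.ofInjective_apply (LowSpan_evT u) (h := LowSpan_evT_inj hu),
        LinearEquiv.apply_symm_apply]
    rw [h4, LowSpan_evT_apply]
    rw [mem_line] at h3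
    simpa using h3
  have h3 := VB.deg_le_of_le h2
  rw [VB.deg_map, LowSpan_deg_dual] at h3
  linarith

private theorem LowSpan_span_H0 {n m : ℕ} (hm : 1 ≤ m) (hmn : m < n) {F : VB k K (Fin m → K)}
    (hd : F.deg = n + gen k K * m) (hh0 : F.h0 = n + m)
    (hb : ∀ J : Submodule K (Fin m → K), J ≠ ⊥ → J ≠ ⊤ →
      (m : ℤ) * (F.sub J).h0 < (n + m) * finrank K J) :
    Submodule.span K (F.H0 : Set (Fin m → K)) = ⊤ := by
  have hrk : finrank K (Fin m → K) = m := Module.finrank_fin_fun K
  have hmz : (1 : ℤ) ≤ m := by exact_mod_cast hm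
  have hmnz : (m : ℤ) < n := by exact_mod_cast hmn
  have h0 := hh0
  by_contra hJ'
  have hJ : Submodule.span K (F.H0 : Set (Fin m → K)) ≠ ⊥ := by
    intro h
    rw [Submodule.span_eq_bot] at h
    have h1 : F.H0 = ⊥ := by
      rw [Submodule.eq_bot_iff]
      exact h
    have h2 : F.h0 = 0 := by
      unfold VB.h0
      rw [h1, finrank_bot]
      rfl
    rw [h2] at h0
    linarith
  have h1 := hb _ hJ hJ'
  have h2 : F.h0 ≤ (F.sub (Submodule.span K (F.H0 : Set (Fin m → K)))).h0 := by
    let f : F.H0 →ₗ[k] (F.sub (Submodule.span K (F.H0 : Set (Fin m → K)))).H0 :=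
      { toFun := fun x => ⟨⟨(x : Fin m → K), Submodule.subset_span x.2⟩, by
          have h1 := x.2
          rw [VB.mem_H0] at h1 ⊢
          intro P
          exact h1 P⟩
        map_add' := fun x y => rfl
        map_smul' := fun c x => rfl }
    have hf : Function.Injective f := by
      intro x y hxy
      have h1 : (((f x : (F.sub (Submodule.span K (F.H0 : Set (Fin m → K)))).H0) :
          Submodule.span K (F.H0 : Set (Fin m → K))) : Fin m → K) =
        (((f y : (F.sub (Submodule.span K (F.H0 : Set (Fin m → K)))).H0) :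
          Submodule.span K (F.H0 : Set (Fin m → K))) : Fin m → K) := by
        rw [hxy]
      exact Subtype.ext h1
    have := LinearMap.finrank_le_finrank_of_injective hf
    unfold VB.h0
    exact_mod_cast this
  have h3 : (finrank K (Submodule.span K (F.H0 : Set (Fin m → K))) : ℤ) ≤ m := by
    have := Submodule.finrank_le (Submodule.span K (F.H0 : Set (Fin m → K)))
    rw [hrk] at this
    exact_mod_cast this
  rw [h0] at h2
  nlinarith

theorem LowSpan_basis {n m : ℕ} (hm : 1 ≤ m) (hmn : m < n) {F : VB k K (Fin m → K)}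
    (hd : F.deg = n + gen k K * m) (hh0 : F.h0 = n + m)
    (hb : ∀ J : Submodule K (Fin m → K), J ≠ ⊥ → J ≠ ⊤ →
      (m : ℤ) * (F.sub J).h0 < (n + m) * finrank K J) :
    ∃ u : Fin (n + m) → (Fin m → K), LinearIndependent k u ∧
      Submodule.span k (Set.range u) = F.H0 ∧ Submodule.span K (Set.range u) = ⊤ := by
  have h := hh0
  unfold VB.h0 at h
  have h' : finrank k F.H0 = n + m := by exact_mod_cast h
  let b := Module.finBasisOfFinrankEq k F.H0 h'
  have h1 : Submodule.span k (Set.range fun i => (b i : Fin m → K)) = F.H0 := by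
    have h2 := congrArg (Submodule.map F.H0.subtype) b.span_eq
    rw [Submodule.map_span, ← Set.range_comp, Submodule.map_top, Submodule.range_subtype] at h2
    exact h2
  refine ⟨fun i => (b i : Fin m → K), b.linearIndependent.map' F.H0.subtype
    (Submodule.ker_subtype _), h1, ?_⟩
  have h3 := LowSpan_span_H0 hm hmn hd hh0 hb
  rw [← h1, Submodule.span_span_of_tower] at h3
  exact h3

/-- Independent sections in a subspace. -/
private lemma LowSpan_le_h0_sub {m N : ℕ} {F : VB k K (Fin m → K)} {u : Fin N → (Fin m → K)}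
    (hu : LinearIndependent k u) (hu2 : ∀ i, u i ∈ F.H0) (L : Submodule K (Fin m → K))
    (U : Submodule k (Fin N → k)) (hU : ∀ b ∈ U, Fintype.linearCombination k u b ∈ L) :
    (finrank k U : ℤ) ≤ (F.sub L).h0 := by
  have hmem : ∀ b, Fintype.linearCombination k u b ∈ F.H0 := fun b => by
    rw [Fintype.linearCombination_apply]
    exact Submodule.sum_mem _ fun i _ => Submodule.smul_mem _ _ (hu2 i)
  have hinj : Function.Injective (Fintype.linearCombination k u) :=
    linearIndependent_iff_injective_fintypeLinearCombination.1 hu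
  let g : U →ₗ[k] (F.sub L).H0 :=
    { toFun := fun b => ⟨⟨Fintype.linearCombination k u b, hU b b.2⟩, VB.mem_H0.2 fun P =>
        VB.mem_H0.1 (hmem b) P⟩
      map_add' := fun b c => by
        apply Subtype.ext
        apply Subtype.ext
        exact map_add (Fintype.linearCombination k u) (b : Fin N → k) c
      map_smul' := fun a b => by
        apply Subtype.ext
        apply Subtype.ext
        exact map_smul (Fintype.linearCombination k u) a (b : Fin N → k) }
  have hg : Function.Injective g := by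
    intro b c h
    apply Subtype.ext
    apply hinj
    exact congrArg (fun z : (F.sub L).H0 => ((z : L) : Fin m → K)) h
  unfold VB.h0
  exact_mod_cast LinearMap.finrank_le_finrank_of_injective hg

omit [CurveG k K] in
private lemma LowSpan_h0_bot {m : ℕ} {F : VB k K (Fin m → K)} : (F.sub ⊥).h0 = 0 := by
  unfold VB.h0
  have : Subsingleton (F.sub ⊥).H0 := by
    refine ⟨fun a b => ?_⟩
    apply Subtype.ext
    exact Subsingleton.elim _ _
  rw [finrank_zero_of_subsingleton]
  rfl

theorem LowSpan_const {n m : ℕ} (hm : 1 ≤ m) (hmn : m < n) {F : VB k K (Fin m → K)}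
    (hd : F.deg = n + gen k K * m) (hh0 : F.h0 = n + m)
    (hb : ∀ J : Submodule K (Fin m → K), J ≠ ⊥ → J ≠ ⊤ →
      (m : ℤ) * (F.sub J).h0 < (n + m) * finrank K J) {u : Fin (n + m) → (Fin m → K)}
    (hu : LinearIndependent k u) (hu2 : Submodule.span k (Set.range u) = F.H0)
    (hu3 : Submodule.span K (Set.range u) = ⊤) {c : Fin (n + m) → k}
    (hc : constL k K (n + m) c ∈ LinearMap.range (LowSpan_evT u)) : c = 0 := by
  obtain ⟨φ, hφ⟩ := hc
  have hφ' : ∀ i, φ (u i) = algebraMap k K (c i) := fun i => congrFun hφ i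
  have hui : ∀ i, u i ∈ F.H0 := fun i => by
    rw [← hu2]; exact Submodule.subset_span ⟨i, rfl⟩
  by_cases h0 : φ = 0
  · funext i
    have := hφ' i
    rw [h0, LinearMap.zero_apply] at this
    exact ((map_eq_zero_iff _ (algebraMap k K).injective).1 this.symm)
  exfalso
  -- the kernel
  have hrange : finrank K (LinearMap.range φ) = 1 := by
    have : LinearMap.range φ = ⊤ := by
      rw [LinearMap.range_eq_top]
      exact LinearMap.surjective h0
    rw [this, finrank_top, finrank_self]
  have hker := LinearMap.finrank_range_add_finrank_ker φ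
  rw [hrange, finrank_fin_fun] at hker
  let ψ : (Fin (n + m) → k) →ₗ[k] k := Fintype.linearCombination k c
  have hψ : n + m ≤ finrank k (LinearMap.ker ψ) + 1 := by
    have h1 := LinearMap.finrank_range_add_finrank_ker ψ
    rw [finrank_fin_fun] at h1
    have h2 : finrank k (LinearMap.range ψ) ≤ 1 := by
      have := Submodule.finrank_le (LinearMap.range ψ)
      rwa [finrank_self] at this
    omega
  have h1 := LowSpan_le_h0_sub hu hui (LinearMap.ker φ) (LinearMap.ker ψ) (by
    intro b hb
    rw [LinearMap.mem_ker] at hb ⊢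
    have hb' : ∑ i, b i * c i = 0 := by
      have : Fintype.linearCombination k c b = 0 := hb
      rw [Fintype.linearCombination_apply] at this
      exact this
    rw [Fintype.linearCombination_apply, map_sum]
    have h3 : ∀ i, φ (b i • u i) = algebraMap k K (b i * c i) := fun i => by
      rw [LinearMap.map_smul_of_tower, hφ', map_mul, Algebra.smul_def]
    rw [Finset.sum_congr rfl fun i _ => h3 i, ← map_sum, hb', map_zero])
  rcases eq_or_lt_of_le hm with hm1 | hm1
  · have h2 : LinearMap.ker φ = ⊥ := by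
      rw [← Submodule.finrank_eq_zero (R := K)]
      omega
    rw [h2, LowSpan_h0_bot] at h1
    omega
  · have h2 := hb (LinearMap.ker φ) (by
      intro h
      rw [h, finrank_bot] at hker
      omega) (by
      intro h
      exact h0 (LinearMap.ker_eq_top.1 h))
    have h3 : (finrank K (LinearMap.ker φ) : ℤ) = m - 1 := by omega
    rw [h3] at h2
    have h4 : (n : ℤ) + m - 1 ≤ (F.sub (LinearMap.ker φ)).h0 := by
      have : ((n + m : ℕ) : ℤ) ≤ finrank k (LinearMap.ker ψ) + 1 := by exact_mod_cast hψ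
      push_cast at this
      linarith
    have h5 : (m : ℤ) * (n + m - 1) ≤ m * (F.sub (LinearMap.ker φ)).h0 :=
      mul_le_mul_of_nonneg_left h4 (by positivity)
    have h6 : (m : ℤ) < n := by exact_mod_cast hmn
    have h7 : (0 : ℤ) ≤ m := by positivity
    nlinarith

theorem LowSpan_ratio {n m : ℕ} (hm : 1 ≤ m) (hmn : m < n) {F : VB k K (Fin m → K)}
    (hd : F.deg = n + gen k K * m) (hh0 : F.h0 = n + m)
    (hb : ∀ J : Submodule K (Fin m → K), J ≠ ⊥ → J ≠ ⊤ →
      (m : ℤ) * (F.sub J).h0 < (n + m) * finrank K J) {u : Fin (n + m) → (Fin m → K)}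
    (hu : LinearIndependent k u) (hu2 : Submodule.span k (Set.range u) = F.H0)
    (hu3 : Submodule.span K (Set.range u) = ⊤) {J : Submodule K (Fin (n + m) → K)}
    (hJ : LinearMap.range (LowSpan_evT u) ≤ J) (hJ1 : J ≠ LinearMap.range (LowSpan_evT u)) (hJ2 : J ≠ ⊤) :
    (n : ℤ) * finrank k (constIn k J) < (n + m) * ((finrank K J : ℤ) - m) := by
  have hui : ∀ i, u i ∈ F.H0 := fun i => by
    rw [← hu2]; exact Submodule.subset_span ⟨i, rfl⟩
  have hR : finrank K (LinearMap.range (LowSpan_evT u)) = m := LowSpan_finrank_range hu3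
  have hJm : m < finrank K J := by
    have := Submodule.finrank_lt_finrank_of_lt (lt_of_le_of_ne hJ hJ1.symm)
    rwa [hR] at this
  have hJN : finrank K J < n + m := by
    have := Submodule.finrank_lt hJ2
    rwa [finrank_fin_fun] at this
  -- the orthogonal complement of the constant vectors
  let D : (Fin (n + m) → k) →ₗ[k] (constIn k J →ₗ[k] k) :=
    { toFun := fun b => (Fintype.linearCombination k b) ∘ₗ (constIn k J).subtype
      map_add' := fun b c => by
        ext a
        simp [Fintype.linearCombination_apply, mul_add, Finset.sum_add_distrib]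
      map_smul' := fun r b => by
        ext a
        simp only [LinearMap.comp_apply, Submodule.subtype_apply, Fintype.linearCombination_apply,
          LinearMap.smul_apply, Pi.smul_apply, smul_eq_mul, RingHom.id_apply, Finset.mul_sum]
        refine Finset.sum_congr rfl fun i _ => ?_
        ring }
  have hD : ∀ b, b ∈ LinearMap.ker D → ∀ a ∈ constIn k J, ∑ i, a i * b i = 0 := by
    intro b hb a ha
    have h1 : D b = 0 := hb
    have h2 := congrArg (fun f : constIn k J →ₗ[k] k => f ⟨a, ha⟩) h1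
    have h3 : Fintype.linearCombination k b a = 0 := h2
    rw [Fintype.linearCombination_apply] at h3
    exact h3
  have hAp : n + m ≤ finrank k (LinearMap.ker D) + finrank k (constIn k J) := by
    have h1 := LinearMap.finrank_range_add_finrank_ker D
    rw [finrank_fin_fun] at h1
    have h2 := Submodule.finrank_le (LinearMap.range D)
    rw [finrank_linearMap, finrank_self, mul_one] at h2
    omega
  obtain ⟨L, hL⟩ : ∃ L : Submodule K (Fin m → K), L = Submodule.span K
      (Fintype.linearCombination k u '' (LinearMap.ker D : Set (Fin (n + m) → k))) := ⟨_, rfl⟩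
  have h1 : (finrank k (LinearMap.ker D) : ℤ) ≤ (F.sub L).h0 := by
    refine LowSpan_le_h0_sub hu hui L (LinearMap.ker D) fun b hb => ?_
    rw [hL]
    exact Submodule.subset_span ⟨b, hb, rfl⟩
  -- the span of the constant vectors
  obtain ⟨AK, hAK⟩ : ∃ AK : Submodule K (Fin (n + m) → K), AK = Submodule.span K
      (constL k K (n + m) '' (constIn k J : Set (Fin (n + m) → k))) := ⟨_, rfl⟩
  have hAKJ : AK ≤ J := by
    rw [hAK, Submodule.span_le]
    rintro _ ⟨a, ha, rfl⟩
    exact ha
  have hAKr : finrank k (constIn k J) ≤ finrank K AK := by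
    let b := Module.finBasis k (constIn k J)
    have h1 : LinearIndependent k (fun i => (b i : Fin (n + m) → k)) :=
      b.linearIndependent.map' (constIn k J).subtype (Submodule.ker_subtype _)
    have h2 := const_independent (K := K) _ h1
    have h3 : Submodule.span K (Set.range fun i => constL k K (n + m) (b i)) ≤ AK := by
      rw [hAK]
      apply Submodule.span_mono
      rintro _ ⟨i, rfl⟩
      exact ⟨_, (b i).2, rfl⟩
    have h4 := Submodule.finrank_mono h3
    rwa [finrank_span_eq_card h2, Fintype.card_fin] at h4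
  have hvan : ∀ φ : (Fin m → K) →ₗ[K] K, LowSpan_evT u φ ∈ AK → ∀ x ∈ L, φ x = 0 := by
    intro φ hφ x hx
    rw [hL] at hx
    refine Submodule.span_induction (p := fun x _ => φ x = 0) ?_ (map_zero φ)
      (fun x y _ _ hx hy => by rw [map_add, hx, hy, add_zero])
      (fun a x _ hx => by rw [map_smul, hx, smul_zero]) hx
    rintro _ ⟨b, hb, rfl⟩
    have h2 : φ (Fintype.linearCombination k u b) = ∑ i, algebraMap k K (b i) * LowSpan_evT u φ i := by
      rw [Fintype.linearCombination_apply, map_sum]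
      refine Finset.sum_congr rfl fun i _ => ?_
      rw [LinearMap.map_smul_of_tower, Algebra.smul_def, LowSpan_evT_apply]
    rw [h2]
    have h3 : ∀ y ∈ AK, ∑ i, algebraMap k K (b i) * y i = 0 := by
      intro y hy
      rw [hAK] at hy
      refine Submodule.span_induction (p := fun y _ => ∑ i, algebraMap k K (b i) * y i = 0)
        ?_ (by simp) ?_ ?_ hy
      · rintro _ ⟨a, ha, rfl⟩
        have h4 := congrArg (algebraMap k K) (hD b hb a ha)
        rw [map_sum, map_zero] at h4
        rw [← h4]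
        refine Finset.sum_congr rfl fun i _ => ?_
        rw [constL_apply, map_mul, mul_comm]
      · intro y z _ _ hy hz
        simp only [Pi.add_apply, mul_add, Finset.sum_add_distrib, hy, hz, add_zero]
      · intro a y _ hy
        have h5 : ∑ i, algebraMap k K (b i) * (a • y) i =
            a * ∑ i, algebraMap k K (b i) * y i := by
          rw [Finset.mul_sum]
          refine Finset.sum_congr rfl fun i _ => ?_
          rw [Pi.smul_apply, smul_eq_mul]
          ring
        rw [h5, hy, mul_zero]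
    exact h3 _ hφ
  have hinf : finrank K ↥(AK ⊓ LinearMap.range (LowSpan_evT u)) + finrank K L ≤ m := by
    have h2 : AK ⊓ LinearMap.range (LowSpan_evT u) ≤ (L.dualAnnihilator).map (LowSpan_evT u) := by
      rintro _ ⟨hx, ⟨φ, rfl⟩⟩
      refine ⟨φ, ?_, rfl⟩
      rw [SetLike.mem_coe, Submodule.mem_dualAnnihilator]
      exact hvan φ hx
    have h3 := Submodule.finrank_mono h2
    have h4 : finrank K (L.dualAnnihilator.map (LowSpan_evT u)) ≤ finrank K L.dualAnnihilator :=
      Submodule.finrank_map_le _ _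
    have h5 := Subspace.finrank_add_finrank_dualAnnihilator_eq L
    rw [finrank_fin_fun] at h5
    omega
  have hsum := Submodule.finrank_sup_add_finrank_inf_eq AK (LinearMap.range (LowSpan_evT u))
  have hsup : finrank K ↥(AK ⊔ LinearMap.range (LowSpan_evT u)) ≤ finrank K J :=
    Submodule.finrank_mono (sup_le hAKJ hJ)
  have h2 : finrank k (constIn k J) + finrank K L ≤ finrank K J := by omega
  have h2' : (finrank k (constIn k J) : ℤ) + finrank K L ≤ finrank K J := by exact_mod_cast h2
  have hn0 : (0 : ℤ) < n := by omega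
  have hm0 : (0 : ℤ) < m := by omega
  have hJm' : (m : ℤ) + 1 ≤ finrank K J := by exact_mod_cast hJm
  have hAp' : (n : ℤ) + m ≤ finrank k (LinearMap.ker D) + finrank k (constIn k J) := by
    exact_mod_cast hAp
  by_cases hL0 : L = ⊥
  · exfalso
    rw [hL0, LowSpan_h0_bot] at h1
    omega
  by_cases hL1 : L = ⊤
  · rw [hL1, finrank_top, finrank_fin_fun] at h2'
    have h3 : (n : ℤ) * finrank k (constIn k J) ≤ n * (finrank K J - m) :=
      mul_le_mul_of_nonneg_left (by linarith) hn0.le
    have h4 : (0 : ℤ) < m * (finrank K J - m) := mul_pos hm0 (by linarith)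
    linarith
  · have h3 := hb L hL0 hL1
    have h4 : (m : ℤ) * ((n + m) - finrank k (constIn k J)) ≤ m * (F.sub L).h0 :=
      mul_le_mul_of_nonneg_left (by linarith) hm0.le
    have h5 : ((n : ℤ) + m) * (finrank k (constIn k J) + finrank K L) ≤
        (n + m) * finrank K J := mul_le_mul_of_nonneg_left h2' (by linarith)
    nlinarith

theorem LowSpan_dual {n m : ℕ} (hm : 1 ≤ m) (hmn : m < n) {F : VB k K (Fin m → K)}
    (hd : F.deg = n + gen k K * m) (hh0 : F.h0 = n + m)
    (hb : ∀ J : Submodule K (Fin m → K), J ≠ ⊥ → J ≠ ⊤ →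
      (m : ℤ) * (F.sub J).h0 < (n + m) * finrank K J) :
    ∃ (E : VB k K (Fin n → K)) (V : Submodule k (Fin n → K)) (α : ℝ), 0 < α ∧ V ≤ E.H0 ∧
      finrank k V = n + m ∧ E.deg ≤ n + gen k K * m ∧ E.StableSys α V := by
  classical
  obtain ⟨u, hu, hu2, hu3⟩ := LowSpan_basis hm hmn hd hh0 hb
  set R : Submodule K (Fin (n + m) → K) := LinearMap.range (LowSpan_evT u) with hRdef
  have hR : finrank K R = m := LowSpan_finrank_range hu3
  have hQ : finrank K ((Fin (n + m) → K) ⧸ R) = n := by
    have h1 := R.finrank_quotient_add_finrank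
    rw [hR, finrank_fin_fun] at h1
    omega
  have hmk : ∀ J : Submodule K ((Fin (n + m) → K) ⧸ R), (J.comap R.mkQ).map R.mkQ = J := fun J =>
    Submodule.map_comap_eq_of_surjective R.mkQ_surjective J
  set q : (Fin (n + m) → k) →ₗ[k] ((Fin (n + m) → K) ⧸ R) :=
    (R.mkQ.restrictScalars k) ∘ₗ constL k K (n + m) with hqdef
  have hq : ∀ c, q c = R.mkQ (constL k K (n + m) c) := fun c => rfl
  have hqinj : Function.Injective q := by
    refine (injective_iff_map_eq_zero q).2 fun c hc => ?_
    rw [hq, Submodule.mkQ_apply, Submodule.Quotient.mk_eq_zero] at hc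
    exact LowSpan_const hm hmn hd hh0 hb hu hu2 hu3 hc
  set E0 : VB k K ((Fin (n + m) → K) ⧸ R) := (pw (0 : Dv k K) (n + m)).quo R with hE0
  set V0 : Submodule k ((Fin (n + m) → K) ⧸ R) := LinearMap.range q with hV0
  have hV0r : finrank k V0 = n + m := by
    rw [hV0, LinearMap.finrank_range_of_inj hqinj, finrank_fin_fun]
  have hV0H : V0 ≤ E0.H0 := by
    rintro _ ⟨c, rfl⟩
    rw [VB.mem_H0]
    intro P
    refine VB.mem_quo.2 ⟨constL k K (n + m) c, ?_, rfl⟩
    intro i
    rw [constL_apply]
    exact Or.inr (P.ord_algebraMap _).ge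
  have hE0d : E0.deg ≤ n + gen k K * m := by
    rw [← hd]
    refine LowSpan_deg_quo_le hu3 fun i => ?_
    rw [← hu2]
    exact Submodule.subset_span ⟨i, rfl⟩
  obtain ⟨C, hC⟩ := VB.exists_bound E0
  set α : ℝ := n * |(C : ℝ)| + n * |(E0.deg : ℝ)| + 1 with hα
  have hα0 : 0 < α := by positivity
  have hn0 : (0 : ℝ) < n := by
    have : 0 < n := by omega
    exact_mod_cast this
  have hst : E0.StableSys α V0 := by
    intro J hJ hJ'
    set Jt := J.comap R.mkQ with hJt
    have h1 : R ≤ Jt := by
      intro x hx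
      have : R.mkQ x = 0 := by rwa [Submodule.mkQ_apply, Submodule.Quotient.mk_eq_zero]
      rw [hJt, Submodule.mem_comap, this]
      exact J.zero_mem
    have h2 : Jt ≠ R := by
      intro h
      apply hJ
      rw [← hmk J, ← hJt, h, Submodule.mkQ_map_self]
    have h3 : Jt ≠ ⊤ := by
      intro h
      apply hJ'
      rw [← hmk J, ← hJt, h, Submodule.map_top, Submodule.range_mkQ]
    have h4 : finrank K Jt = finrank K J + m := by
      set f : Jt →ₗ[K] J := R.mkQ.restrict (fun x hx => hx) with hf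
      have hfs : LinearMap.range f = ⊤ := by
        rw [LinearMap.range_eq_top]
        rintro ⟨y, hy⟩
        obtain ⟨x, rfl⟩ := R.mkQ_surjective y
        exact ⟨⟨x, hy⟩, rfl⟩
      have hfk : finrank K (LinearMap.ker f) = m := by
        have e1 : (LinearMap.ker f) = R.comap Jt.subtype := by
          ext x
          rw [LinearMap.mem_ker, Submodule.mem_comap]
          constructor
          · intro hx
            have : R.mkQ (x : Fin (n + m) → K) = 0 := congrArg Subtype.val hx
            rwa [Submodule.mkQ_apply, Submodule.Quotient.mk_eq_zero] at this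
          · intro hx
            apply Subtype.ext
            change R.mkQ (x : Fin (n + m) → K) = 0
            rwa [Submodule.mkQ_apply, Submodule.Quotient.mk_eq_zero]
        rw [e1, (Submodule.comapSubtypeEquivOfLe h1).finrank_eq, hR]
      have h5 := f.finrank_range_add_finrank_ker
      rw [hfs, hfk, finrank_top] at h5
      exact h5.symm
    have h5 : V0 ⊓ J.restrictScalars k = (constIn k Jt).map q := by
      ext x
      constructor
      · rintro ⟨⟨c, rfl⟩, hx⟩
        exact ⟨c, hx, rfl⟩
      · rintro ⟨c, hc, rfl⟩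
        exact ⟨⟨c, rfl⟩, hc⟩
    have h6 : finrank k ↥(V0 ⊓ J.restrictScalars k) = finrank k (constIn k Jt) := by
      rw [h5]
      exact ((Submodule.equivMapOfInjective q hqinj (constIn k Jt)).finrank_eq).symm
    have h7 := LowSpan_ratio hm hmn hd hh0 hb hu hu2 hu3 h1 h2 h3
    rw [← h6, h4] at h7
    set s := finrank K J with hs
    set k' := finrank k ↥(V0 ⊓ J.restrictScalars k) with hk'
    have hs1 : 1 ≤ s := Submodule.one_le_finrank_iff.2 hJ
    have hsn : s ≤ n := by
      rw [← hQ]
      exact Submodule.finrank_le J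
    have h8 : (n : ℝ) * k' + 1 ≤ (n + m) * s := by
      have h9 : (n : ℤ) * k' + 1 ≤ (n + m) * s := by
        push_cast at h7
        have : ((s : ℤ) + m - m) = s := by ring
        rw [this] at h7
        omega
      exact_mod_cast h9
    have hs0 : (0 : ℝ) < s := by exact_mod_cast hs1
    have hsn' : (s : ℝ) ≤ n := by exact_mod_cast hsn
    rw [hV0r, hQ, div_lt_div_iff₀ hs0 hn0]
    have c1 : ((E0.sub J).deg : ℝ) ≤ C := by exact_mod_cast hC J
    have c2 : (C : ℝ) * n ≤ n * |(C : ℝ)| := by
      rw [mul_comm]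
      exact mul_le_mul_of_nonneg_left (le_abs_self _) hn0.le
    have c3 : -((E0.deg : ℝ) * s) ≤ n * |(E0.deg : ℝ)| := by
      have d1 : -((E0.deg : ℝ) * s) ≤ s * |(E0.deg : ℝ)| := by
        have := neg_abs_le (E0.deg : ℝ)
        nlinarith
      exact d1.trans (mul_le_mul_of_nonneg_right hsn' (abs_nonneg _))
    have c4 : ((E0.sub J).deg : ℝ) * n ≤ C * n := mul_le_mul_of_nonneg_right c1 hn0.le
    have c5 : α * (n * k' + 1) ≤ α * ((n + m) * s) := mul_le_mul_of_nonneg_left h8 hα0.le
    push_cast
    nlinarith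
  set f : ((Fin (n + m) → K) ⧸ R) ≃ₗ[K] (Fin n → K) :=
    LinearEquiv.ofFinrankEq _ _ (by rw [hQ, finrank_fin_fun]) with hf
  refine ⟨E0.map f, V0.map (f.toLinearMap.restrictScalars k), α, hα0, mapV_le_H0 hV0H f, ?_, ?_,
    stableSys_map hst f⟩
  · rw [finrank_mapV, hV0r]
  · rw [VB.deg_map]
    exact hE0d


theorem low_span (hg : 2 ≤ gen k K) {n m : ℕ} (hm : 1 ≤ m) (hmn : gen k K * m ≤ n) :
    ∃ (E : VB k K (Fin n → K)) (V : Submodule k (Fin n → K)) (α : ℝ), 0 < α ∧ V ≤ E.H0 ∧
      finrank k V = n + m ∧ E.deg ≤ n + gen k K * m ∧ E.StableSys α V := by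
  obtain ⟨κ, hκ⟩ := exists_canonical (k := k) (K := K)
  obtain ⟨F, hd, hF, -⟩ := exists_stable (k := k) (K := K) hm (n + gen k K * m)
  have hrk : finrank K (Fin m → K) = m := Module.finrank_fin_fun K
  have hmz : (1 : ℤ) ≤ m := by exact_mod_cast hm
  have hmn' : (m : ℤ) < n := by nlinarith
  have hm1 : 1 ≤ finrank K (Fin m → K) := by rw [hrk]; exact hm
  have hd1 : (2 * gen k K - 1) * finrank K (Fin m → K) < F.deg := by
    rw [hrk, hd]
    nlinarith
  have h1 := stable_h1 hκ hF hm1 hd1
  have hh0 : F.h0 = n + m := by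
    have h2 := VB.rr F
    rw [h1, hd, hrk] at h2
    rw [h2]
    ring
  have hb : ∀ J : Submodule K (Fin m → K), J ≠ ⊥ → J ≠ ⊤ →
      (m : ℤ) * (F.sub J).h0 < (n + m) * finrank K J := by
    intro J hJ hJ'
    have h3 := hb0 hκ hF hm1 hd1 hJ hJ'
    rw [hrk, hd] at h3
    have e : ((n : ℤ) + gen k K * m - (gen k K - 1) * m) = n + m := by ring
    rw [e] at h3
    exact h3
  exact LowSpan_dual hm (by exact_mod_cast hmn') hd hh0 hb

end Pool.Agent.MP_09eaec.GG.G3
end

section

/-!
# `α`-stable systems of slope `2 j`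
-/

set_option autoImplicit false

namespace Pool.Agent.MP_09eaec.GG

open Module

universe u v

variable {k : Type u} {K : Type v} [Field k] [Field K] [Algebra k K]
variable {W : Type v} [AddCommGroup W] [Module K W] [Module k W] [IsScalarTower k K W]

variable [CurveG k K]

/-- The numerical contradiction: `h = h0 E`, `u = h0 E(-jH)`, `v = dim V`, `v' = dim (V ∩ J)`. -/
theorem classify_num {g j n v h u v' : ℤ} (hj : 1 ≤ j) (hjg : j + 2 ≤ g) (hn : 1 ≤ n)
    (hk : j * g * n < (g - 1) * v) (hvh : v ≤ h) (hh : h ≤ (j + 1) * n)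
    (hc : (g - 1) * h ≤ (g - 1 - j) * u + j * g * n) (hu : 1 ≤ u)
    (hm : v + u * (j + 1) ≤ h + v') (hs : v' * n < v * u) : False := by
  have h1 : ((j + 1) * n - v) * u < (h - v) * n := by nlinarith
  have hy : 0 ≤ (j + 1) * n - v := by linarith
  have h2 : ((j + 1) * n - v) * ((g - 1) * h - j * g * n) ≤
      ((j + 1) * n - v) * ((g - 1 - j) * u) :=
    mul_le_mul_of_nonneg_left (by linarith) hy
  have h3 : ((j + 1) * n - v) * ((g - 1 - j) * u) < (g - 1 - j) * ((h - v) * n) := by
    have := mul_lt_mul_of_pos_left h1 (show 0 < g - 1 - j by omega)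
    linarith
  have h4 : 0 ≤ ((j + 1) * n - h) * ((g - 1) * v - j * g * n) :=
    mul_nonneg (by linarith) (by linarith)
  nlinarith

theorem exists_frame_sections {H : Dv k K} {x y : K} (hp : Pencil H x y)
    [FiniteDimensional K W] {E : VB k K W} {V : Submodule k W} (hV : V ≤ E.H0) {α : ℝ}
    (hα : 0 < α) (hn : 1 ≤ finrank K W) (hst : E.StableSys α V) {j : ℤ} (hj : 1 ≤ j)
    (hj' : j + 2 ≤ gen k K) (hd : E.deg = 2 * j * finrank K W)
    (hk : j * gen k K * finrank K W < (gen k K - 1) * finrank k V) :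
    ∃ w : Fin (finrank K W) → W, (∀ i, w i ∈ (E.twist (-(j • H))).H0) ∧
      LinearIndependent K w := by
  have hg := CurveG.two_le (k := k) (K := K)
  set g := gen k K with hgdef
  set n : ℤ := (finrank K W : ℤ) with hndef
  have hn1 : 1 ≤ n := by rw [hndef]; exact_mod_cast hn
  -- the quotients have slope `≥ 2 j`
  have hk' : j * (gen k K + 1) * finrank K W ≤ gen k K * finrank k V := by
    rw [← hgdef, ← hndef]
    have a1 : g * (j * g * n) < g * ((g - 1) * finrank k V) :=
      mul_lt_mul_of_pos_left hk (by omega)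
    have a2 : (g - 1) * (j * (g + 1) * n) < (g - 1) * (g * finrank k V) := by
      have : 0 ≤ j * n := mul_nonneg (by omega) (by omega)
      nlinarith
    exact (lt_of_mul_lt_mul_left a2 (by omega)).le
  have hsub : ∀ J : Submodule K W, (E.sub J).deg ≤ finrank K J * (2 * j) := by
    intro J
    by_cases hJ : J = ⊤
    · subst hJ
      rw [VB.deg_sub_top, finrank_top, hd, ← hndef]
      exact le_of_eq (by ring)
    · have h1 := quo_deg_ge hp hV hα hn hst hj (by omega) hk' hJ
      have h2 := VB.deg_add E J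
      have h3 : (finrank K (W ⧸ J) : ℤ) + finrank K J = n := by
        rw [hndef]
        exact_mod_cast Submodule.finrank_quotient_add_finrank J
      have h4 : 2 * j * (finrank K (W ⧸ J) : ℤ) + 2 * j * finrank K J = 2 * j * n := by
        rw [← mul_add, h3]
      rw [h2] at hd
      linarith
  have hrank1 : ∀ (D : Dv k K), 2 * j ≤ ddeg D → ∀ J : Submodule K W, finrank K J = 1 →
      (E.sub J).deg ≤ ddeg D := by
    intro D hD J hJ
    have := hsub J
    rw [hJ] at this
    push_cast at this
    linarith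
  have hdegj : ddeg (j • H) = 2 * j := by rw [ddeg_zsmul, hp.deg]; ring
  -- the four values
  have hfJ : fH H E (g - 1 - j) ≤ g * n := by
    rw [fH_eq hp]
    have h1 := hom_le_rank hsub (by rw [hd]; ring) hdegj
    have h2 : gen k K - 1 - (g - 1 - j) = j := by rw [← hgdef]; ring
    rw [h2, hd, ← hgdef, ← hndef]
    rw [← hndef] at h1
    nlinarith
  have hfm : fH H E (-(j + 1)) = 0 := by
    unfold fH VB.h0
    rw [neg_smul, twist_H0_bot, finrank_bot]
    · rfl
    intro J hJ
    have h1 := hsub J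
    rw [hJ] at h1
    rw [ddeg_zsmul, hp.deg]
    push_cast at h1
    linarith
  obtain ⟨hVfin, hVle⟩ := finrank_le_h0 hV
  have hh : E.h0 ≤ (j + 1) * n := by
    have h1 := fH_ineq hp E (a := -(j + 1)) (b := 0) (c := g - 1 - j) (by omega) (by omega)
    rw [hfm, fH_zero] at h1
    have h2 := mul_le_mul_of_nonneg_left hfJ (show (0 : ℤ) ≤ j + 1 by omega)
    have h3 : g * E.h0 ≤ g * ((j + 1) * n) := by nlinarith
    exact le_of_mul_le_mul_left h3 (by omega)
  have hc : (g - 1) * E.h0 ≤ (g - 1 - j) * fH H E (-j) + j * g * n := by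
    have h1 := fH_ineq hp E (a := -j) (b := 0) (c := g - 1 - j) (by omega) (by omega)
    rw [fH_zero] at h1
    have h2 := mul_le_mul_of_nonneg_left hfJ (show (0 : ℤ) ≤ j by omega)
    nlinarith
  -- sections of `E(-jH)`
  obtain ⟨u, hu⟩ : ∃ u : ℕ, u = finrank k (E.twist (-(j • H))).H0 := ⟨_, rfl⟩
  have hfu : fH H E (-j) = u := by
    unfold fH VB.h0
    rw [neg_smul, hu]
  let b := finBasisOfFinrankEq k (E.twist (-(j • H))).H0 hu.symm
  let w : Fin u → W := fun i => (b i : W)
  have hw : ∀ i, w i ∈ (E.twist (-(j • H))).H0 := fun i => (b i).2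
  have hwk : LinearIndependent k w := by
    have := b.linearIndependent.map' (E.twist (-(j • H))).H0.subtype
      (Submodule.ker_subtype _)
    exact this
  have hwK : LinearIndependent K w := sec_indep (hrank1 _ hdegj.ge) w hw hwk
  have hun : u ≤ finrank K W := by
    have := hwK.fintype_card_le_finrank
    simpa using this
  by_cases hu0 : u = finrank K W
  · subst hu0
    exact ⟨w, hw, hwK⟩
  exfalso
  have hun' : u < finrank K W := lt_of_le_of_ne hun hu0
  by_cases hu1 : u = 0
  · rw [hfu, hu1] at hc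
    push_cast at hc
    have h1 := mul_le_mul_of_nonneg_left hVle (show (0 : ℤ) ≤ g - 1 by omega)
    linarith
  have hm := mul_sec hw hwK hV
  have hh0 : (line (j • H)).h0 = j + 1 := h0_smul hp (by omega) (by omega)
  rw [hh0] at hm
  set J := Submodule.span K (Set.range w) with hJdef
  have hJr : finrank K J = u := by
    rw [hJdef, finrank_span_eq_card hwK, Fintype.card_fin]
  have hJ1 : J ≠ ⊥ := by
    intro h
    rw [h, finrank_bot] at hJr
    exact hu1 hJr.symm
  have hJ2 : J ≠ ⊤ := by
    intro h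
    rw [h, finrank_top] at hJr
    exact hu0 hJr.symm
  have hdegJ : (u : ℤ) * (2 * j) ≤ (E.sub J).deg := by
    have := deg_span_ge hw hwK
    rwa [hdegj] at this
  have hst' := hst J hJ1 hJ2
  rw [hJr, hd] at hst'
  have hu' : (0 : ℝ) < u := by exact_mod_cast Nat.pos_of_ne_zero hu1
  have hn' : (0 : ℝ) < (finrank K W : ℝ) := by exact_mod_cast hn
  rw [div_lt_div_iff₀ hu' hn'] at hst'
  have hdegJ' : (u : ℝ) * (2 * j) ≤ ((E.sub J).deg : ℝ) := by exact_mod_cast hdegJ
  have h7 : α * ((vd V J : ℝ) * finrank K W) < α * ((finrank k V : ℝ) * u) := by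
    rw [hndef] at hst'
    push_cast at hst'
    have := mul_le_mul_of_nonneg_right hdegJ' hn'.le
    have e1 : ((vd V J : ℕ) : ℝ) = (finrank k ↥(V ⊓ J.restrictScalars k) : ℝ) := rfl
    rw [e1]
    nlinarith
  have h8 : (vd V J : ℝ) * finrank K W < (finrank k V : ℝ) * u := lt_of_mul_lt_mul_left h7 hα.le
  have h9 : (vd V J : ℤ) * n < (finrank k V : ℤ) * u := by
    rw [hndef]
    exact_mod_cast h8
  refine classify_num hj hj' hn1 hk hVle hh (u := u) ?_ (by exact_mod_cast Nat.pos_of_ne_zero hu1)
    hm h9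
  rw [← hfu]
  exact hc

end Pool.Agent.MP_09eaec.GG
end

section

/-!
# The lower bound (C)
-/

set_option autoImplicit false

namespace Pool.Agent.MP_09eaec.GG

open Module

universe u v

variable {k : Type u} {K : Type v} [Field k] [Field K] [Algebra k K]
variable {W : Type v} [AddCommGroup W] [Module K W] [Module k W] [IsScalarTower k K W]

variable [CurveG k K]

/-- `α`-stable systems of slope `2 j`: `n² + v² ≤ (j + 1) n v + 1`. -/
theorem root_of_plateau {H : Dv k K} {x y : K} (hp : Pencil H x y) [FiniteDimensional K W]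
    {E : VB k K W} {V : Submodule k W} (hV : V ≤ E.H0) {α : ℝ} (hα : 0 < α)
    (hn : 1 ≤ finrank K W) (hst : E.StableSys α V) {j : ℤ} (hj : 1 ≤ j)
    (hj' : j + 2 ≤ gen k K) (hd : E.deg = 2 * j * finrank K W)
    (hk : j * gen k K * finrank K W < (gen k K - 1) * finrank k V) :
    (finrank K W : ℤ) ^ 2 + (finrank k V : ℤ) ^ 2 ≤ (j + 1) * finrank K W * finrank k V + 1 := by
  have := Curve.closed (k := k) (K := K)
  have hg := CurveG.two_le (k := k) (K := K)
  obtain ⟨w, hw, hwK⟩ := exists_frame_sections hp hV hα hn hst hj hj' hd hk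
  have hdegj : ddeg (j • H) = 2 * j := by rw [ddeg_zsmul, hp.deg]; ring
  have hfr := exists_frame (by rw [hd, hdegj]; exact le_of_eq (by ring)) hw hwK
  obtain ⟨n, hndef⟩ : ∃ n : ℕ, n = finrank K W := ⟨_, rfl⟩
  rw [← hndef] at hfr hn hd hk ⊢
  obtain ⟨f, hf⟩ := hfr
  have hst' := stableSys_map hst f
  have hV' := mapV_le_H0 hV f
  rw [hf] at hst' hV'
  set V' := V.map (f.toLinearMap.restrictScalars k) with hV'def
  have hfin : finrank k V' = finrank k V := finrank_mapV f
  have hS : (finrank k (line (j • H)).H0 : ℤ) = j + 1 := by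
    have := h0_smul hp (s := j) (by omega) (by omega)
    unfold VB.h0 at this
    exact this
  have hdegE : (pw (j • H) n).deg = n * (2 * j) := by rw [deg_pw, hdegj]
  have key := brick (S := (line (j • H)).H0) (V := V') hn ?_ ?_
  · rw [hfin, hS] at key
    exact key
  · intro v hv i
    rw [VB.mem_H0]
    intro P
    exact mem_pw.1 (VB.mem_H0.1 (hV' hv) P) i
  · intro U hU hU'
    have h1 := hst' (KU K U) (KU_ne_bot hU) (KU_ne_top hU')
    have h2 := deg_pw_KU (k := k) (K := K) (j • H) U
    rw [hdegj] at h2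
    have h3 : 0 < finrank k U := by
      rw [Nat.pos_iff_ne_zero]
      intro h0
      exact hU (Submodule.finrank_eq_zero.1 h0)
    have h3' : (0 : ℝ) < finrank k U := by exact_mod_cast h3
    have hn' : (0 : ℝ) < n := by exact_mod_cast hn
    rw [finrank_KU, hdegE, Module.finrank_fin_fun, div_lt_div_iff₀ h3' hn'] at h1
    have h4 : ((finrank k U : ℝ) * (2 * j)) ≤ (((pw (j • H) n).sub (KU K U)).deg : ℝ) := by
      exact_mod_cast h2
    push_cast at h1
    have h5 : α * ((n : ℝ) * finrank k ↥(V' ⊓ (KU K U).restrictScalars k)) <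
        α * ((finrank k V' : ℝ) * finrank k U) := by
      have := mul_le_mul_of_nonneg_right h4 hn'.le
      nlinarith
    have h6 := lt_of_mul_lt_mul_left h5 hα.le
    exact_mod_cast h6

end Pool.Agent.MP_09eaec.GG
end

section

/-!
# The lower bound for `(j + 1) n` sections

`d = (j + 1) n`, `n ≥ 2`, `1 ≤ j ≤ g - 2`. The degree of an `α`-stable system is bigger than `(2 j + 1) n`.
-/

set_option autoImplicit false

namespace Pool.Agent.MP_09eaec.GG

open Module

universe u v

variable {k : Type u} {K : Type v} [Field k] [Field K] [Algebra k K]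
variable {W : Type v} [AddCommGroup W] [Module K W] [Module k W] [IsScalarTower k K W]

variable [CurveG k K]

/-- A quotient of small slope with few sections is everything. -/
theorem eq_bot_of_quo [FiniteDimensional K W] {E : VB k K W} {V : Submodule k W}
    (hV : V ≤ E.H0) {α : ℝ} (hα : 0 < α) (hn : 1 ≤ finrank K W) (hst : E.StableSys α V) {c : ℤ}
    (hk : (finrank k V : ℤ) = c * finrank K W) {J : Submodule K W} (hJ : J ≠ ⊤)
    (h1 : (E.quo J).h0 ≤ c * finrank K (W ⧸ J))
    (h2 : (E.quo J).deg * finrank K W ≤ E.deg * finrank K (W ⧸ J)) : J = ⊥ := by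
  by_contra hJ'
  have h3 := hst J hJ' hJ
  have h4 := finrank_image_le hV J
  have h5 := VB.deg_add E J
  have h6 : (finrank K (W ⧸ J) : ℤ) + finrank K J = finrank K W := by
    exact_mod_cast Submodule.finrank_quotient_add_finrank J
  have h7 : 0 < finrank K J := by
    rw [Nat.pos_iff_ne_zero]
    intro h
    exact hJ' (Submodule.finrank_eq_zero.1 h)
  have h7' : (0 : ℝ) < finrank K J := by exact_mod_cast h7
  have hn' : (0 : ℝ) < finrank K W := by exact_mod_cast hn
  rw [div_lt_div_iff₀ h7' hn'] at h3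
  have e1 : (finrank k ↥(V ⊓ J.restrictScalars k) : ℝ) = (vd V J : ℝ) := rfl
  rw [e1] at h3
  have h8 : c * (finrank K J : ℤ) ≤ vd V J := by
    have : c * (finrank K (W ⧸ J) : ℤ) + c * finrank K J = c * finrank K W := by
      rw [← mul_add, h6]
    linarith
  have h9 : E.deg * finrank K J ≤ (E.sub J).deg * finrank K W := by
    have e2 : (E.sub J).deg = E.deg - (E.quo J).deg := by linarith
    have e3 : (finrank K J : ℤ) = finrank K W - finrank K (W ⧸ J) := by linarith
    rw [e2, e3]
    nlinarith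
  have h8' : (c : ℝ) * finrank K J ≤ vd V J := by exact_mod_cast h8
  have h9' : (E.deg : ℝ) * finrank K J ≤ (E.sub J).deg * finrank K W := by exact_mod_cast h9
  have hk' : (finrank k V : ℝ) = c * finrank K W := by exact_mod_cast hk
  rw [hk'] at h3
  have h10 : α * ((c : ℝ) * finrank K J * finrank K W) ≤ α * (vd V J * finrank K W) :=
    mul_le_mul_of_nonneg_left (mul_le_mul_of_nonneg_right h8' hn'.le) hα.le
  nlinarith

/-- `r` independent sections of `E(-D)`: `O(D)^r ≤ E`. -/
theorem exists_frame_le [FiniteDimensional K W] {E : VB k K W} {D : Dv k K} {r : ℕ}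
    (hr : finrank K W = r) {w : Fin r → W} (hw : ∀ i, w i ∈ (E.twist (-D)).H0)
    (hli : LinearIndependent K w) : ∃ f : W ≃ₗ[K] (Fin r → K), pw D r ≤ E.map f := by
  rcases Nat.eq_zero_or_pos r with h0 | h0
  · subst h0
    refine ⟨LinearEquiv.ofFinrankEq _ _ (by rw [hr, finrank_fin_fun]), fun P x _ => ?_⟩
    have : x = 0 := Subsingleton.elim _ _
    rw [this]; exact zero_mem _
  have : Nonempty (Fin r) := ⟨⟨0, h0⟩⟩
  let b := basisOfLinearIndependentOfCardEqFinrank hli (by rw [Fintype.card_fin, hr])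
  refine ⟨b.equivFun, fun P x hx => ?_⟩
  rw [VB.mem_map]
  have h1 : b.equivFun.symm x = ∑ i, x i • w i := by
    rw [Basis.equivFun_symm_apply]
    refine Finset.sum_congr rfl fun i _ => ?_
    rw [coe_basisOfLinearIndependentOfCardEqFinrank]
  rw [h1]
  refine Submodule.sum_mem _ fun i _ => ?_
  have h2 := VB.mem_twist.1 (VB.mem_H0.1 (hw i) P)
  apply h2
  have h3 := mem_pw.1 hx i
  have e : (-D : Dv k K) P = -D P := rfl
  rw [e]
  exact h3

/-- A stable bundle of rank `r ≥ 2` and slope `2 j + 1` has fewer than `(j + 1) r` sections. -/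
theorem stable_odd {H : Dv k K} {x y : K} (hp : Pencil H x y) [FiniteDimensional K W]
    {Q : VB k K W} (hQ : Q.Stable) (hr : 2 ≤ finrank K W) {j : ℤ} (hj : 1 ≤ j)
    (hj' : j + 2 ≤ gen k K) (h1 : Q.deg = (2 * j + 1) * finrank K W) :
    Q.h0 < (j + 1) * finrank K W := by
  by_contra hcon
  push Not at hcon
  have hg := CurveG.two_le (k := k) (K := K)
  obtain ⟨r, hrdef⟩ : ∃ r : ℕ, finrank K W = r := ⟨_, rfl⟩
  rw [hrdef] at h1 hcon hr
  have hr0 : (2 : ℤ) ≤ r := by exact_mod_cast hr
  have hdegj : ddeg (j • H) = 2 * j := by rw [ddeg_zsmul, hp.deg]; ring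
  have hfg : fH H Q (gen k K - 1 - j) = gen k K * r := by
    rw [fH_eq hp, stable_hom_zero hQ (by omega)]
    · rw [h1, hrdef]; ring
    · have e : gen k K - 1 - (gen k K - 1 - j) = j := by ring
      rw [e, hdegj, h1, hrdef]
      nlinarith
  have h2 := fH_ineq hp Q (a := -j) (b := 0) (c := gen k K - 1 - j) (by omega) (by omega)
  rw [fH_zero, hfg] at h2
  have h3 : (r : ℤ) ≤ fH H Q (-j) := by
    by_contra hc
    push Not at hc
    have a1 : (gen k K - 1 - j) * fH H Q (-j) < (gen k K - 1 - j) * r :=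
      mul_lt_mul_of_pos_left hc (by omega)
    have a2 : (gen k K - 1) * ((j + 1) * r) ≤ (gen k K - 1) * Q.h0 :=
      mul_le_mul_of_nonneg_left hcon (by omega)
    nlinarith
  have h4 : r ≤ finrank k (Q.twist (-(j • H))).H0 := by
    unfold fH VB.h0 at h3
    rw [neg_smul] at h3
    exact_mod_cast h3
  have hrank1 : ∀ J : Submodule K W, finrank K J = 1 → (Q.sub J).deg ≤ ddeg (j • H) := by
    intro J hJ
    have a1 : J ≠ ⊥ := by
      intro h; rw [h, finrank_bot] at hJ; omega
    have a2 : J ≠ ⊤ := by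
      intro h; rw [h, finrank_top] at hJ; omega
    have a3 := hQ J a1 a2
    rw [hJ, hrdef, h1] at a3
    rw [hdegj]
    by_contra hc
    push Not at hc
    have a4 : (r : ℤ) * (2 * j + 1) ≤ r * (Q.sub J).deg :=
      mul_le_mul_of_nonneg_left (by omega) (by omega)
    push_cast at a3
    linarith
  obtain ⟨w, hw, hwk⟩ : ∃ w : Fin r → W, (∀ i, w i ∈ (Q.twist (-(j • H))).H0) ∧
      LinearIndependent k w := by
    let b := Module.finBasis k (Q.twist (-(j • H))).H0
    refine ⟨fun i => ((b (Fin.castLE h4 i) : (Q.twist (-(j • H))).H0) : W), fun i => (b _).2, ?_⟩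
    have a1 : LinearIndependent k fun i => ((b i : (Q.twist (-(j • H))).H0) : W) :=
      b.linearIndependent.map' (Q.twist (-(j • H))).H0.subtype (Submodule.ker_subtype _)
    exact a1.comp (Fin.castLE h4) (Fin.castLE_injective h4)
  have hwK : LinearIndependent K w := sec_indep hrank1 w hw hwk
  obtain ⟨f, hf⟩ := exists_frame_le hrdef hw hwK
  obtain ⟨J, hJ1, hJ2⟩ := exists_rank_one_of_lt hf (by
    rw [VB.deg_map, deg_pw, hdegj, h1]
    linarith)
  have a1 : (J.comap f.toLinearMap).map f.toLinearMap = J :=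
    Submodule.map_comap_eq_of_surjective f.surjective J
  have a2 := VB.deg_sub_map Q f (J.comap f.toLinearMap)
  rw [a1] at a2
  have a3 : finrank K (J.comap f.toLinearMap) = 1 := by
    rw [← hJ1]
    conv_rhs => rw [← a1]
    exact (LinearEquiv.finrank_map_eq f _).symm
  have a4 := hrank1 _ a3
  linarith

theorem lower_top {H : Dv k K} {x y : K} (hp : Pencil H x y) [FiniteDimensional K W]
    {E : VB k K W} {V : Submodule k W} (hV : V ≤ E.H0) {α : ℝ} (hα : 0 < α)
    (hn : 2 ≤ finrank K W) (hst : E.StableSys α V) {j : ℤ} (hj : 1 ≤ j)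
    (hj' : j + 2 ≤ gen k K) (hk : (finrank k V : ℤ) = (j + 1) * finrank K W) :
    (2 * j + 1) * finrank K W < E.deg := by
  by_contra hcon
  push Not at hcon
  have hg := CurveG.two_le (k := k) (K := K)
  have hn1 : 1 ≤ finrank K W := by omega
  obtain ⟨J, h1, h2, h3, h4, -⟩ := exists_sys_quo hV hα hn1 hst
  have hr0 := finrank_quo_pos h1
  obtain ⟨n, hndef⟩ : ∃ n : ℤ, (finrank K W : ℤ) = n := ⟨_, rfl⟩
  obtain ⟨r, hrdef⟩ : ∃ r : ℤ, (finrank K (W ⧸ J) : ℤ) = r := ⟨_, rfl⟩
  have hn' : (0 : ℤ) < n := by rw [← hndef]; exact_mod_cast hn1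
  have hn2 : (2 : ℤ) ≤ n := by rw [← hndef]; exact_mod_cast hn
  have hr' : (0 : ℤ) < r := by rw [← hrdef]; exact_mod_cast hr0
  have hh : (j + 1) * r ≤ (E.quo J).h0 := by
    rw [hk, hndef, hrdef] at h3
    have : ((j + 1) * r) * n ≤ (E.quo J).h0 * n := by
      calc ((j + 1) * r) * n = (j + 1) * n * r := by ring
        _ ≤ _ := h3
    exact le_of_mul_le_mul_right this hn'
  have hlow : 2 * j * r ≤ (E.quo J).deg := by
    have := quo_deg_ge hp hV hα hn1 hst hj (by omega) (by
      rw [hk, hndef]; nlinarith) h1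
    rwa [hrdef] at this
  have hup : (E.quo J).deg ≤ (2 * j + 1) * r := by
    rw [hndef, hrdef] at h4
    rw [hndef] at hcon
    have : (E.quo J).deg * n ≤ ((2 * j + 1) * r) * n := by
      calc (E.quo J).deg * n ≤ E.deg * r := h4
        _ ≤ ((2 * j + 1) * n) * r := mul_le_mul_of_nonneg_right hcon hr'.le
        _ = _ := by ring
    exact le_of_mul_le_mul_right this hn'
  rcases eq_or_lt_of_le hlow with e | e
  · -- slope `2 j`
    have h5 := stable_even hp h2 hr0 (i := j) (by omega) (by omega) (by rw [hrdef]; exact e.symm)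
    have h6 := eq_bot_of_quo hV hα hn1 hst hk h1 h5 h4
    subst h6
    have h7 : r = n := by
      have := Submodule.finrank_quotient_add_finrank (⊥ : Submodule K W)
      rw [finrank_bot, add_zero] at this
      rw [← hrdef, ← hndef, this]
    rw [VB.deg_quo_bot, h7] at e
    have h8 := root_of_plateau hp hV hα hn1 hst hj hj' (by rw [hndef]; exact e.symm) (by
      rw [hk, hndef]
      nlinarith)
    rw [hk, hndef] at h8
    nlinarith
  · -- slope `2 j + 1`
    have h5 := stable_window hp h2 hr0 (i := j) (by omega) (by omega) (by rw [hrdef]; exact e)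
      (by rw [hrdef]; nlinarith)
    rw [hrdef] at h5
    have h6 : (E.quo J).deg = (2 * j + 1) * r := by
      have a1 : gen k K * ((j + 1) * r) ≤ gen k K * (E.quo J).h0 :=
        mul_le_mul_of_nonneg_left hh (by omega)
      have a2 : (j + 1) * (gen k K * r) ≤
          (j + 1) * ((E.quo J).deg + (gen k K - 1 - 2 * j) * r) := by linarith
      have a3 := le_of_mul_le_mul_left a2 (by omega : (0 : ℤ) < j + 1)
      linarith
    have h7 : (E.quo J).h0 ≤ (j + 1) * r := by
      rw [h6] at h5
      have : gen k K * (E.quo J).h0 ≤ gen k K * ((j + 1) * r) := by linarith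
      exact le_of_mul_le_mul_left this (by omega)
    have h8 := eq_bot_of_quo hV hα hn1 hst hk h1 (by rw [hrdef]; exact h7) h4
    subst h8
    have h9 : r = n := by
      have := Submodule.finrank_quotient_add_finrank (⊥ : Submodule K W)
      rw [finrank_bot, add_zero] at this
      rw [← hrdef, ← hndef, this]
    have h10 := stable_odd hp h2 (by
      have : (2 : ℤ) ≤ finrank K (W ⧸ (⊥ : Submodule K W)) := by rw [hrdef, h9]; exact hn2
      exact_mod_cast this) hj hj' (by rw [hrdef]; exact h6)
    rw [hrdef] at h10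
    linarith

end Pool.Agent.MP_09eaec.GG
end
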