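import Pool.Agent.Lib.MP_09eaec_ag.Mg.G010
import Pool.Agent.Lib.MP_09eaec_ag.Mg.G005
import Pool.Agent.Lib.MP_09eaec_ag.Mg.G009
import Pool.Agent.Lib.MP_09eaec_ag.Mg.G020
import Pool.Agent.Lib.MP_09eaec_ag.GG.LineBasic
import Pool.Agent.Lib.MP_09eaec_ag.Mg.G003
import Pool.Agent.Lib.MP_09eaec_ag.Mg.G018
import Pool.Agent.Lib.MP_09eaec_ag.Mg.G007
import Pool.Agent.Lib.MP_09eaec_ag.Mg.G019
import Pool.Agent.Lib.MP_09eaec_ag.GG.Main
import Pool.Agent.Lib.MP_09eaec_ag.Mg.G014
import Pool.Agent.Lib.MP_09eaec_ag.Mg.G004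

section

/-!
# TASK TopNH: `(g - 1) n` sections on a curve which is not hyperelliptic

`κ` canonical, `g = gen ≥ 3`. For every `P` the bundle `line (κ - P)` has `h0 = g - 1` (`hκ.h0_sub`) and no base point: `h0 (line (κ - P - Q)) = g - 2`, because by
`VB.rr` and duality it is `g - 3 + h0 (line (single P 1 + single Q 1))` and the last `h0` is `1` (`hnh`).
* `deg_of_ratio`: induction on `finrank K W` (all `W`); rank `0`: trivial. If for some `P` there is no nonzero map `E → line (κ - P)`: `h1_le_rank` (GG/HomBasis), `h1 ≤ n`,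
  `(g - 1) n = finrank V ≤ h0 = deg - (g - 1) n + h1` (`finrank_le_h0`, `VB.rr`). Otherwise let `P`, `φ ≠ 0`: `J = ker φ`, `ker_bounds`: `(g - 1) n ≤ vd V J + (g - 1)`, `vd V J ≤ (g - 1) (n - 1)`
  (`h`; `J = ⊥`: `vd = 0`), so `vd V J = (g - 1) (n - 1)` and `φ` maps `V` onto `(line (κ - P)).H0` (dimension `g - 1`). So (no base point) `φ` maps `E.M Q` onto
  `(line (κ - P)).M Q` for every `Q`, `deg E = deg (E.sub J) + 2 g - 3` (`deg_exact`, or `ker_bounds` and the opposite inequality), and the induction applies to `E.sub J` with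
  `V ⊓ J` (as a subspace of `J`: `V.comap J.subtype`).
* `low_top_nh`: `exists_max_ratio` (GG/MaxSlope): `J0 ≠ ⊥` with maximal `vd V J / rank J`. If `vd V J0 ≤ (g - 1) rank J0` then `deg_of_ratio` applies to `E`. Otherwise there is no nonzero
  map `E.sub J0 → line (κ - P)`: the kernel `J1` of such a map (as a subspace of `W`, `J1 < J0`) has `vd V J1 ≥ vd V J0 - (g - 1)`, rank one less, so if `J1 ≠ ⊥` its ratio is
  larger, and if `J1 = ⊥` then `vd V J0 ≤ g - 1`. So `h1 (E.sub J0) ≤ rank J0` (`h1_le_rank`), `vd V J0 ≤ h0 (E.sub J0) ≤ deg J0 - (g - 2) rank J0` (`vd_le_h0`), so `deg J0 > (2 g - 3) rank J0`.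
  If `J0 = ⊤` done. Otherwise the stability inequality for `J0` with `vd V J0 / rank J0 > (g - 1) = k / n` gives `deg J0 / rank J0 < d / n`.
-/

set_option autoImplicit false

namespace Pool.Agent.MP_09eaec.GG.G3

open Module

universe u v

variable {k : Type u} {K : Type v} [Field k] [Field K] [Algebra k K]
variable {W : Type v} [AddCommGroup W] [Module K W] [Module k W] [IsScalarTower k K W]
variable {A : Type v} [AddCommGroup A] [Module K A] [Module k A] [IsScalarTower k K A]
variable {B : Type v} [AddCommGroup B] [Module K B] [Module k B] [IsScalarTower k K B]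

variable [CurveG k K]

private theorem TopNH_h1 {κ : Dv k K} (hκ : IsCanonical κ) (D : Dv k K) :
    (line D : VB k K K).h1 = (line (κ - D) : VB k K K).h0 := by
  obtain ⟨e, -, he⟩ := hom_line_line D κ
  rw [hκ.dual K (line D), ← he, VB.h0_map]

private theorem TopNH_base (hnh : NonHyp k K) {κ : Dv k K} (hκ : IsCanonical κ)
    (P Q : Place k K) : ∃ s ∈ (line (κ - Finsupp.single P 1) : VB k K K).H0, s ≠ 0 ∧
      Q.ord s = -((κ - Finsupp.single P 1 : Dv k K) Q) := by
  classical
  set D : Dv k K := κ - Finsupp.single P 1 with hD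
  have h1 : (line D : VB k K K).h0 = gen k K - 1 := hκ.h0_sub P
  have h2 : (line (D - Finsupp.single Q 1) : VB k K K).h0 ≤ gen k K - 2 := by
    have r := VB.rr (line (D - Finsupp.single Q 1) : VB k K K)
    rw [VB.deg_line, finrank_self, TopNH_h1 hκ, ddeg_sub, hD, ddeg_sub, ddeg_single, ddeg_single,
      hκ.ddeg] at r
    have e : κ - (κ - Finsupp.single P 1 - Finsupp.single Q 1) =
        Finsupp.single P 1 + Finsupp.single Q 1 := by abel
    rw [e] at r
    have h3 := hnh (Finsupp.single P 1 + Finsupp.single Q 1) (by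
      rw [ddeg_add, ddeg_single, ddeg_single]; norm_num)
    rw [hD]
    push_cast at r
    linarith
  have hlt : (line (D - Finsupp.single Q 1) : VB k K K).h0 < (line D : VB k K K).h0 := by omega
  have hex : ∃ s ∈ (line D : VB k K K).H0, s ∉ (line (D - Finsupp.single Q 1) : VB k K K).H0 := by
    by_contra hno
    push Not at hno
    have hle : (line D : VB k K K).H0 ≤ (line (D - Finsupp.single Q 1) : VB k K K).H0 := hno
    have := Submodule.finrank_mono hle
    unfold VB.h0 at hlt
    omega
  obtain ⟨s, hs1, hs2⟩ := hex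
  have hs0 : s ≠ 0 := by
    rintro rfl
    exact hs2 (zero_mem _)
  refine ⟨s, hs1, hs0, ?_⟩
  rw [VB.mem_H0] at hs1 hs2
  push Not at hs2
  obtain ⟨R, hR⟩ := hs2
  have hRQ : R = Q := by
    by_contra hne
    apply hR
    have := hs1 R
    rw [mem_line] at this ⊢
    rwa [Finsupp.sub_apply, Finsupp.single_eq_of_ne hne, sub_zero]
  subst hRQ
  rcases hs1 R with h3 | h3
  · exact absurd h3 hs0
  refine le_antisymm ?_ h3
  by_contra h4
  apply hR
  right
  rw [Finsupp.sub_apply, Finsupp.single_eq_same]
  omega

omit [CurveG k K] in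
private theorem TopNH_vd (V : Submodule k W) (J : Submodule K W) (T : Submodule K J) :
    vd (V.comap (J.subtype.restrictScalars k)) T = vd V (T.map J.subtype) := by
  have hinj : Function.Injective (J.subtype.restrictScalars k) := J.subtype_injective
  have h1 : (V.comap (J.subtype.restrictScalars k) ⊓ T.restrictScalars k).map
      (J.subtype.restrictScalars k) = V ⊓ (T.map J.subtype).restrictScalars k := by
    ext x
    rw [Submodule.mem_map, Submodule.mem_inf]
    constructor
    · rintro ⟨y, hy, rfl⟩
      exact ⟨hy.1, ⟨y, hy.2, rfl⟩⟩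
    · rintro ⟨hx, y, hy, rfl⟩
      exact ⟨y, ⟨hx, hy⟩, rfl⟩
  unfold vd
  rw [← h1]
  exact ((V.comap (J.subtype.restrictScalars k) ⊓ T.restrictScalars k).equivMapOfInjective _
    hinj).finrank_eq

private theorem TopNH_aux (hg : 3 ≤ gen k K) (hnh : NonHyp k K) {κ : Dv k K}
    (hκ : IsCanonical κ) (n : ℕ) :
    ∀ (W : Type v) [AddCommGroup W] [Module K W] [Module k W] [IsScalarTower k K W]
      [FiniteDimensional K W] (E : VB k K W) (V : Submodule k W), V ≤ E.H0 →
      (∀ J : Submodule K W, (vd V J : ℤ) ≤ (gen k K - 1) * finrank K J) →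
      (finrank k V : ℤ) = (gen k K - 1) * finrank K W → finrank K W = n →
      (2 * gen k K - 3) * finrank K W ≤ E.deg := by
  induction n with
  | zero =>
    intro W _ _ _ _ _ E V hV h hk hn
    rw [VB.deg_of_finrank_zero E hn, hn]
    simp
  | succ n ih =>
    intro W _ _ _ _ _ E V hV h hk hn
    have hinf := infinite_places (k := k) (K := K)
    obtain ⟨P⟩ : Nonempty (Place k K) := inferInstance
    by_cases hP : ∀ φ : W →ₗ[K] K,
      (∀ Q x, x ∈ E.M Q → φ x ∈ (line (κ - Finsupp.single P 1)).M Q) → φ = 0
    · have h1 := h1_le_rank hκ E hP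
      have h2 := (finrank_le_h0 hV).2
      have h3 := VB.rr E
      linarith
    · push Not at hP
      obtain ⟨φ, hφ, hφ0⟩ := hP
      obtain ⟨-, hJn, hJV⟩ := ker_bounds hφ0 hφ
      have hJV1 := hJV V hV
      have hJ0 := h (LinearMap.ker φ)
      have hh0 := hκ.h0_sub P
      have hVfin : Module.Finite k V := Submodule.finiteDimensional_of_le hV
      have hsurj : Function.Surjective φ := LinearMap.surjective hφ0
      set J : Submodule K W := LinearMap.ker φ with hJ
      set D : Dv k K := κ - Finsupp.single P 1 with hD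
      have hJn' : finrank K J = n := by omega
      have hvd : (vd V J : ℤ) = (gen k K - 1) * n := by
        have e1 : (finrank K W : ℤ) = n + 1 := by exact_mod_cast hn
        rw [e1] at hk
        rw [hJn'] at hJ0
        have e2 : (finrank k V : ℤ) ≤ (vd V J : ℤ) + (line D).h0 := hJV1
        linarith
      -- the sections of `V` map onto the sections of `line D`
      let f : V →ₗ[k] K := (φ.restrictScalars k) ∘ₗ V.subtype
      have r1 := LinearMap.finrank_range_add_finrank_ker f
      have r2 : LinearMap.range f ≤ (line D).H0 := by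
        rintro _ ⟨x, rfl⟩
        rw [VB.mem_H0]
        intro Q
        exact hφ Q _ (VB.mem_H0.1 (hV x.2) Q)
      have r5 : finrank k (LinearMap.ker f) = vd V J := by
        have h4 : LinearMap.ker f =
            Submodule.comap V.subtype ((LinearMap.ker φ).restrictScalars k) := by
          ext x
          rfl
        unfold vd
        rw [← Submodule.map_comap_subtype, hJ, ← h4]
        exact (Submodule.finrank_map_subtype_eq V (LinearMap.ker f)).symm
      have r6 : LinearMap.range f = (line D).H0 := by
        refine Submodule.eq_of_le_of_finrank_eq r2 ?_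
        have e1 : (finrank K W : ℤ) = n + 1 := by exact_mod_cast hn
        rw [e1] at hk
        have e3 : ((finrank k (LinearMap.range f) : ℕ) : ℤ) + (vd V J : ℤ) = finrank k V := by
          rw [← r5]
          exact_mod_cast r1
        have e4 : ((finrank k (line D).H0 : ℕ) : ℤ) = gen k K - 1 := hh0
        have e5 : ((finrank k (LinearMap.range f) : ℕ) : ℤ) = (finrank k (line D).H0 : ℕ) := by
          linarith
        exact_mod_cast e5
      have hdeg : E.deg = (E.sub J).deg + (line D).deg := by
        refine VB.deg_exact E (E.sub J) (line D) J.subtype φ (Submodule.injective_subtype _) hsurj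
          (Submodule.range_subtype _) (fun Q x => Iff.rfl) (fun Q y => ⟨fun hy => ?_, ?_⟩)
        · obtain ⟨s, hs, hs0, hsQ⟩ := TopNH_base hnh hκ P Q
          rw [← hD] at hs hsQ
          rw [← r6] at hs
          obtain ⟨w, hw⟩ := hs
          have hw' : φ (w : W) = s := hw
          by_cases hy0 : y = 0
          · exact ⟨0, zero_mem _, by rw [hy0, map_zero]⟩
          refine ⟨(y / s) • (w : W), E.smul_mem Q _ _ (Or.inr ?_) (VB.mem_H0.1 (hV w.2) Q), ?_⟩
          · rw [Q.ord_div _ _ hy0 hs0, hsQ]
            have h5 := hy.resolve_left hy0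
            omega
          · rw [map_smul, hw', smul_eq_mul, div_mul_cancel₀ _ hs0]
        · rintro ⟨x, hx, rfl⟩
          exact hφ Q x hx
      have hJsub : J = (⊤ : Submodule K J).map J.subtype := by
        rw [Submodule.map_top, Submodule.range_subtype]
      have hIH := ih J (E.sub J) (V.comap (J.subtype.restrictScalars k))
        (fun x hx => VB.mem_H0.2 fun R => VB.mem_H0.1 (hV hx) R)
        (fun T => by
          rw [TopNH_vd, ← Submodule.finrank_map_subtype_eq J T]
          exact h _)
        (by
          rw [← vd_top (K := K) (V.comap (J.subtype.restrictScalars k)), TopNH_vd, ← hJsub, hvd,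
            hJn'])
        hJn'
      rw [hdeg, VB.deg_line, hD, ddeg_sub, ddeg_single, hκ.ddeg, hn]
      rw [hJn'] at hIH
      push_cast
      linarith

theorem deg_of_ratio (hg : 3 ≤ gen k K) (hnh : NonHyp k K) {κ : Dv k K} (hκ : IsCanonical κ)
    [FiniteDimensional K W] {E : VB k K W} {V : Submodule k W} (hV : V ≤ E.H0)
    (h : ∀ J : Submodule K W, (vd V J : ℤ) ≤ (gen k K - 1) * finrank K J)
    (hk : (finrank k V : ℤ) = (gen k K - 1) * finrank K W) :
    (2 * gen k K - 3) * finrank K W ≤ E.deg := by
  exact TopNH_aux hg hnh hκ _ W E V hV h hk rfl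

theorem low_top_nh (hg : 3 ≤ gen k K) (hnh : NonHyp k K) [FiniteDimensional K W] {E : VB k K W}
    {V : Submodule k W} (hV : V ≤ E.H0) {α : ℝ} (hα : 0 < α) (hn : 2 ≤ finrank K W)
    (hst : E.StableSys α V) (hk : (finrank k V : ℤ) = (gen k K - 1) * finrank K W) :
    (2 * gen k K - 3) * finrank K W ≤ E.deg := by
  obtain ⟨κ, hκ⟩ := exists_canonical (k := k) (K := K)
  have : Nontrivial W := by
    apply Module.nontrivial_of_finrank_pos (R := K)
    omega
  obtain ⟨J0, hJ0, hR⟩ := exists_max_ratio (E := E) hV
  have hr0 : 1 ≤ finrank K J0 := Submodule.one_le_finrank_iff.2 hJ0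
  have hr0' : (1 : ℤ) ≤ finrank K J0 := by exact_mod_cast hr0
  by_cases hc : (vd V J0 : ℤ) ≤ (gen k K - 1) * finrank K J0
  · refine deg_of_ratio hg hnh hκ hV (fun J => ?_) hk
    by_cases hJ : J = ⊥
    · rw [hJ, vd_bot, finrank_bot]
      simp
    · have h1 := hR J hJ
      have h2 : (vd V J0 : ℤ) * finrank K J ≤ (gen k K - 1) * finrank K J0 * finrank K J :=
        mul_le_mul_of_nonneg_right hc (Int.natCast_nonneg _)
      have h3 : (vd V J : ℤ) * finrank K J0 ≤ ((gen k K - 1) * finrank K J) * finrank K J0 := by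
        linarith
      exact le_of_mul_le_mul_right h3 (by linarith)
  · push Not at hc
    have hinf := infinite_places (k := k) (K := K)
    obtain ⟨P⟩ : Nonempty (Place k K) := inferInstance
    have hh0 := hκ.h0_sub P
    have hP : ∀ φ : J0 →ₗ[K] K,
        (∀ Q x, x ∈ (E.sub J0).M Q → φ x ∈ (line (κ - Finsupp.single P 1)).M Q) → φ = 0 := by
      intro φ hφ
      by_contra hne
      obtain ⟨Φ, hΦ⟩ := φ.exists_extend
      have hJ : ¬ J0 ≤ LinearMap.ker Φ := by
        intro h
        apply hne
        ext x
        rw [← hΦ]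
        exact LinearMap.mem_ker.1 (h x.2)
      obtain ⟨-, h2, h3⟩ := ker_bounds_sub E J0 (D := κ - Finsupp.single P 1) hJ
        (fun Q x hx hxQ => by
          have h := hφ Q ⟨x, hx⟩ hxQ
          rw [← hΦ] at h
          exact h)
      have h4 := h3 V hV
      rw [hh0] at h4
      by_cases hbot : J0 ⊓ LinearMap.ker Φ = ⊥
      · rw [hbot] at h4 h2
        rw [vd_bot] at h4
        rw [finrank_bot] at h2
        have h5 : (finrank K J0 : ℤ) = 1 := by omega
        rw [h5] at hc
        push_cast at h4
        linarith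
      · have h5 := hR (J0 ⊓ LinearMap.ker Φ) hbot
        have h2' : (finrank K ↥(J0 ⊓ LinearMap.ker Φ) : ℤ) = finrank K J0 - 1 := by omega
        rw [h2'] at h5
        have h6 : ((vd V J0 : ℤ) - (gen k K - 1)) * finrank K J0 ≤
            (vd V J0 : ℤ) * (finrank K J0 - 1) := by
          refine le_trans ?_ h5
          exact mul_le_mul_of_nonneg_right (by linarith) (by linarith)
        have h7 : (vd V J0 : ℤ) ≤ (gen k K - 1) * finrank K J0 := by linarith
        linarith
    have h1 := h1_le_rank hκ (E.sub J0) hP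
    have h2 := vd_le_h0 hV J0
    have h3 := VB.rr (E.sub J0)
    have h4 : (2 * gen k K - 3) * finrank K J0 < (E.sub J0).deg := by linarith
    by_cases htop : J0 = ⊤
    · rw [htop, VB.deg_sub_top, finrank_top] at h4
      exact h4.le
    · have h5 := hst J0 hJ0 htop
      have hr : (0 : ℝ) < finrank K J0 := by exact_mod_cast hr0
      have hn' : (0 : ℝ) < finrank K W := by
        have : 0 < finrank K W := by omega
        exact_mod_cast this
      rw [div_lt_div_iff₀ hr hn'] at h5
      have h6 : (((E.sub J0).deg : ℝ) + α * (vd V J0 : ℝ)) * finrank K W <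
          ((E.deg : ℝ) + α * finrank k V) * finrank K J0 := h5
      have hk' : (finrank k V : ℝ) = ((gen k K : ℝ) - 1) * finrank K W := by exact_mod_cast hk
      have hc' : ((gen k K : ℝ) - 1) * finrank K J0 < (vd V J0 : ℝ) := by exact_mod_cast hc
      have h4' : (2 * (gen k K : ℝ) - 3) * finrank K J0 < ((E.sub J0).deg : ℝ) := by
        exact_mod_cast h4
      rw [hk'] at h6
      have h7 : α * (((gen k K : ℝ) - 1) * finrank K J0) * finrank K W ≤
          α * (vd V J0 : ℝ) * finrank K W := by
        gcongr
      have h8 : (2 * (gen k K : ℝ) - 3) * finrank K J0 * finrank K W <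
          ((E.sub J0).deg : ℝ) * finrank K W := by
        gcongr
      have h9 : (2 * (gen k K : ℝ) - 3) * finrank K W * finrank K J0 <
          (E.deg : ℝ) * finrank K J0 := by
        linarith
      have h10 : (2 * (gen k K : ℝ) - 3) * finrank K W < (E.deg : ℝ) :=
        lt_of_mul_lt_mul_right h9 hr.le
      have h11 : (2 * gen k K - 3) * finrank K W < E.deg := by exact_mod_cast h10
      exact h11.le

end Pool.Agent.MP_09eaec.GG.G3
end

section

/-!
# Systems of degree `2 j n + n + 1` with `(j + 1) n` sections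

`O(jH)^n` modified at `n + 1` points in general constant directions, `V = H⁰(O(jH)^n)`, `α = n`.
-/

set_option autoImplicit false

namespace Pool.Agent.MP_09eaec.GG

open Module

universe u v

variable {k : Type u} {K : Type v} [Field k] [Field K] [Algebra k K]

/-- `n + 1` vectors in general position: the standard basis and `(1, …, 1)`. -/
def gvec (k : Type u) [Field k] (n l : ℕ) : Fin n → k :=
  fun i => if l = n then 1 else if (i : ℕ) = l then 1 else 0

theorem gvec_ne {n l : ℕ} (hn : 1 ≤ n) (hl : l < n + 1) : gvec k n l ≠ 0 := by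
  intro h
  by_cases e : l = n
  · have := congrFun h ⟨0, by omega⟩
    simp [gvec, e] at this
  · have := congrFun h ⟨l, by omega⟩
    simp [gvec, e] at this

/-- A proper subspace of dimension `w` contains at most `w` of the vectors. -/
theorem card_gvec_le {n : ℕ} {J : Submodule K (Fin n → K)} (hJ : J ≠ ⊤)
    {S : Finset ℕ} (hS : S ⊆ Finset.range (n + 1))
    (h : ∀ l ∈ S, (fun i => algebraMap k K (gvec k n l i)) ∈ J) : S.card ≤ finrank K J := by
  classical
  set c : ℕ → Fin n → K := fun l i => algebraMap k K (gvec k n l i) with hcdef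
  have hc : ∀ l i, c l i = if l = n then 1 else if (i : ℕ) = l then 1 else 0 := by
    intro l i
    simp only [hcdef, gvec]
    split_ifs <;> simp
  -- not all the vectors are in `J`
  obtain ⟨l0, hl0, hl0'⟩ : ∃ l0 ∈ Finset.range (n + 1), l0 ∉ S := by
    by_contra hcon
    push Not at hcon
    apply hJ
    rw [eq_top_iff]
    intro x _
    have e : x = ∑ i, x i • (Pi.single i 1 : Fin n → K) := by
      funext l
      rw [Finset.sum_apply, Finset.sum_eq_single l]
      · simp
      · intro i _ hil
        simp [Pi.single_eq_of_ne (Ne.symm hil)]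
      · intro h; exact absurd (Finset.mem_univ l) h
    rw [e]
    refine Submodule.sum_mem _ fun i _ => Submodule.smul_mem _ _ ?_
    have h1 := h i (hcon i (by rw [Finset.mem_range]; omega))
    have h2 : c i = (Pi.single i 1 : Fin n → K) := by
      funext l
      rw [hc, if_neg (by omega), Pi.single_apply]
      congr 1
      rw [Fin.ext_iff]
    rw [← h2]
    exact h1
  have hli : LinearIndependent K (fun l : S => (⟨c l, h l l.2⟩ : J)) := by
    rw [Fintype.linearIndependent_iff]
    intro a ha
    have h1 : ∑ l : S, a l • c l = 0 := by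
      have := congrArg (fun z : J => (z : Fin n → K)) ha
      simpa using this
    -- the coefficients extended by zero
    set b : ℕ → K := fun l => if hl : l ∈ S then a ⟨l, hl⟩ else 0 with hbdef
    have hb : ∀ l : S, b l = a l := by
      intro l
      simp only [hbdef, dif_pos l.2]
    have h2 : ∑ l ∈ Finset.range (n + 1), b l • c l = 0 := by
      have h3 : ∑ l ∈ S, b l • c l = 0 := by
        rw [← Finset.sum_coe_sort S (fun l => b l • c l)]
        rw [← h1]
        exact Finset.sum_congr rfl fun l _ => by rw [hb]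
      rw [← h3]
      symm
      apply Finset.sum_subset hS
      intro l _ hl
      simp only [hbdef, dif_neg hl, zero_smul]
    have h4 : ∀ i : Fin n, b i + b n = 0 := by
      intro i
      have h5 := congrFun h2 i
      rw [Finset.sum_apply, Finset.sum_range_succ] at h5
      simp only [Pi.smul_apply, smul_eq_mul, Pi.zero_apply, hc] at h5
      rw [Finset.sum_eq_single (i : ℕ)] at h5
      · simpa [show (i : ℕ) ≠ n by omega] using h5
      · intro l hl hli
        rw [Finset.mem_range] at hl
        rw [if_neg (by omega), if_neg (fun e => hli e.symm), mul_zero]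
      · intro h6
        exact absurd (Finset.mem_range.2 i.2) h6
    have h5 : b l0 = 0 := by simp only [hbdef, dif_neg hl0']
    have h6 : b n = 0 := by
      by_cases e : l0 = n
      · rw [← e]; exact h5
      · have h7 := h4 ⟨l0, by rw [Finset.mem_range] at hl0; omega⟩
        have h8 : b l0 + b n = 0 := h7
        rwa [h5, zero_add] at h8
    intro l
    rw [← hb l]
    by_cases e : (l : ℕ) = n
    · rw [e]; exact h6
    · have h7 := hS l.2
      rw [Finset.mem_range] at h7
      have h8 := h4 ⟨l, by omega⟩
      rw [h6, add_zero] at h8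
      exact h8
  have := hli.fintype_card_le_finrank
  simpa using this

variable [CurveG k K]

/-- Constant vectors in `J`. -/
theorem const_mem_of {D : Dv k K} {n : ℕ} {J : Submodule K (Fin n → K)}
    (hJ : finrank K J * ddeg D ≤ ((pw D n).sub J).deg) {c : Fin n → k} {P : Place k K} {t : K}
    (ht : t ≠ 0) (htm : P.ord t = -D P - 1) {z : Fin n → K} (hz : z ∈ J)
    (h : t • (fun i => algebraMap k K (c i)) - z ∈ (pw D n).M P) :
    (fun i => algebraMap k K (c i)) ∈ J := by
  obtain ⟨U, rfl⟩ := pw_sub_eq D J hJ
  rw [mem_KU_iff] at hz ⊢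
  intro a ha
  have h1 := hz a ha
  have h2 : ∑ i, a i • algebraMap k K (c i) = algebraMap k K (∑ i, a i * c i) := by
    rw [map_sum]
    refine Finset.sum_congr rfl fun i _ => ?_
    rw [map_mul, Algebra.smul_def]
  rw [h2]
  by_contra hne
  have h3 : t * algebraMap k K (∑ i, a i * c i) =
      ∑ i, a i • (t • (fun i => algebraMap k K (c i)) - z) i := by
    have h4 : ∀ i, a i • (t • (fun i => algebraMap k K (c i)) - z) i =
        t * (a i • algebraMap k K (c i)) - a i • z i := by
      intro i
      rw [Pi.sub_apply, smul_sub, Pi.smul_apply, smul_eq_mul, mul_smul_comm]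
    rw [Finset.sum_congr rfl fun i _ => h4 i, Finset.sum_sub_distrib, h1, sub_zero, ← h2,
      Finset.mul_sum]
  have h5 : t * algebraMap k K (∑ i, a i * c i) ∈ P.filt (-D P) := by
    rw [h3]
    exact Submodule.sum_mem _ fun i _ => Submodule.smul_mem _ _ (mem_pw.1 h i)
  refine ord_not_mem_filt (mul_ne_zero ht hne) (m := -D P - 1) ?_ (by omega) h5
  rw [P.ord_mul t _ ht hne, htm, P.ord_algebraMap, add_zero]

/-- `jH` has no base points. -/
theorem base_smul {H : Dv k K} {x y : K} (hp : Pencil H x y) (j : ℕ) (P : Place k K) :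
    ∃ s ∈ (line ((j : ℤ) • H)).H0, s ≠ 0 ∧ P.ord s = -((j : ℤ) • H) P := by
  have hmem : ∀ z : K, z ≠ 0 → z ∈ (line H).H0 → z ^ j ∈ (line ((j : ℤ) • H)).H0 := by
    intro z hz0 hz
    rw [VB.mem_H0]
    intro Q
    rw [mem_line]
    right
    have h1 := mem_line.1 (VB.mem_H0.1 hz Q)
    rcases h1 with h1 | h1
    · exact absurd h1 hz0
    · have e : Q.ord (z ^ j) = j * Q.ord z := by
        have := Q.ord_zpow hz0 j
        rwa [zpow_natCast] at this
      have e2 : ((j : ℤ) • H : Dv k K) Q = j * H Q := by simp
      rw [e, e2]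
      have h2 : (j : ℤ) * (-H Q) ≤ j * Q.ord z := mul_le_mul_of_nonneg_left h1 (by positivity)
      linarith
  have hord : ∀ z : K, z ≠ 0 → P.ord z = -H P → P.ord (z ^ j) = -((j : ℤ) • H : Dv k K) P := by
    intro z hz0 hz
    have e : P.ord (z ^ j) = j * P.ord z := by
      have := P.ord_zpow hz0 j
      rwa [zpow_natCast] at this
    have e2 : ((j : ℤ) • H : Dv k K) P = j * H P := by simp
    rw [e, e2, hz]
    ring
  rcases hp.base P with h | h
  · exact ⟨x ^ j, hmem x hp.x_ne hp.memx, pow_ne_zero _ hp.x_ne, hord x hp.x_ne h⟩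
  · exact ⟨y ^ j, hmem y hp.y_ne hp.memy, pow_ne_zero _ hp.y_ne, hord y hp.y_ne h⟩

theorem upper_mult {H : Dv k K} {x y : K} (hp : Pencil H x y) {n j : ℕ} (hn : 1 ≤ n)
    (hj : (j : ℤ) ≤ gen k K - 1) :
    ((2 * j + 1) * n + 1 : ℤ) ∈ stableDegrees k K n ((j + 1) * n) := by
  set D : Dv k K := (j : ℤ) • H with hD
  have hdegD : ddeg D = 2 * j := by rw [hD, ddeg_zsmul, hp.deg]; ring
  have hh0 : (line D).h0 = j + 1 := h0_smul hp (by positivity) hj
  have hn0 : (0 : ℝ) < n := by exact_mod_cast hn
  obtain ⟨E, B, h1, -, h3, h4⟩ := exists_mod D (gvec k n) (n + 1) fun l hl => gvec_ne hn hl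
  have hV : (pw D n).H0 ≤ E.H0 := fun z hz => VB.mem_H0.2 fun P => h1 P (VB.mem_H0.1 hz P)
  have hfV : finrank k (pw D n).H0 = (j + 1) * n := by
    have := h0_pw D n
    rw [hh0] at this
    unfold VB.h0 at this
    have e : (finrank k (pw D n).H0 : ℤ) = (((j + 1) * n : ℕ) : ℤ) := by
      rw [this]; push_cast; ring
    exact_mod_cast e
  have hdegE : E.deg = (2 * j + 1) * n + 1 := by
    rw [h3, hdegD]; push_cast; ring
  rw [← hdegE]
  refine mem_stableDegrees (α := (n : ℝ)) (by omega) hn0 hV hfV ?_
  intro J hJ hJ'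
  obtain ⟨S, hS, hS1, hS2⟩ := h4 J
  have hw0 : 0 < finrank K J := by
    rw [Nat.pos_iff_ne_zero]
    intro h
    exact hJ (Submodule.finrank_eq_zero.1 h)
  have hw0' : (0 : ℝ) < finrank K J := by exact_mod_cast hw0
  obtain ⟨hb1, hb2⟩ := h0_pw_sub (D := D) (fun P => base_smul hp j P) J
  have hvd : ((pw D n).sub J).h0 = vd (pw D n).H0 J := VB.h0_sub_eq _ J
  rw [hvd, hh0] at hb1 hb2
  rw [hdegE, hfV, Module.finrank_fin_fun, div_lt_div_iff₀ hw0' hn0]
  have e1 : (finrank k ↥((pw D n).H0 ⊓ J.restrictScalars k) : ℝ) = (vd (pw D n).H0 J : ℝ) := rfl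
  rw [e1]
  have hcard : S.card ≤ n + 1 := by
    have := Finset.card_le_card hS
    rwa [Finset.card_range] at this
  have hpw := pw_sub_le D J
  rw [hdegD] at hpw
  by_cases hc : (finrank K J : ℤ) * ddeg D ≤ ((pw D n).sub J).deg
  · have hcard2 : S.card ≤ finrank K J := by
      refine card_gvec_le (k := k) hJ' hS fun l hl => ?_
      obtain ⟨P, t, ht, htm, z, hz, hz'⟩ := hS2 l hl
      exact const_mem_of hc ht htm hz hz'
    have h5 : (E.sub J).deg ≤ finrank K J * (2 * j) + finrank K J := by
      have : (S.card : ℤ) ≤ finrank K J := by exact_mod_cast hcard2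
      linarith
    have h5' : ((E.sub J).deg : ℝ) ≤ finrank K J * (2 * j) + finrank K J := by exact_mod_cast h5
    have h6' : (vd (pw D n).H0 J : ℝ) ≤ finrank K J * (j + 1) := by exact_mod_cast hb1
    have h7 : (((E.sub J).deg : ℝ) + n * vd (pw D n).H0 J) * n ≤
        ((finrank K J * (2 * j) + finrank K J) + n * (finrank K J * (j + 1))) * n := by
      gcongr
    push_cast
    nlinarith
  · push Not at hc
    have h8 := hb2 hc
    rw [hdegD] at hc
    have h5 : (E.sub J).deg ≤ finrank K J * (2 * j) + n := by
      have : (S.card : ℤ) ≤ n + 1 := by exact_mod_cast hcard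
      linarith
    have h6 : (vd (pw D n).H0 J : ℤ) ≤ finrank K J * (j + 1) - 1 := by linarith
    have h5' : ((E.sub J).deg : ℝ) ≤ finrank K J * (2 * j) + n := by exact_mod_cast h5
    have h6' : (vd (pw D n).H0 J : ℝ) ≤ finrank K J * (j + 1) - 1 := by exact_mod_cast h6
    have h7 : (((E.sub J).deg : ℝ) + n * vd (pw D n).H0 J) * n ≤
        ((finrank K J * (2 * j) + n) + n * (finrank K J * (j + 1) - 1)) * n := by
      gcongr
    push_cast
    nlinarith

end Pool.Agent.MP_09eaec.GG
end

section

/-!
# Stable bundles of degree one with many sections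
-/

set_option autoImplicit false

namespace Pool.Agent.MP_09eaec.GG

open Module

universe u v

variable {k : Type u} {K : Type v} [Field k] [Field K] [Algebra k K]
variable {W : Type v} [AddCommGroup W] [Module K W] [Module k W] [IsScalarTower k K W]
variable {A : Type v} [AddCommGroup A] [Module K A] [Module k A] [IsScalarTower k K A]
variable {B : Type v} [AddCommGroup B] [Module K B] [Module k B] [IsScalarTower k K B]

variable [CurveG k K]

/-- A subbundle of degree zero of `O^c` is defined over `k`: it is generated by constant vectors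
`v i`, which are dual to some of the coordinates. -/
theorem const_basis {D : Dv k K} {c w : ℕ} (J : Submodule K (Fin c → K)) (hw : finrank K J = w)
    (hdeg : (w : ℤ) * ddeg D ≤ ((pw D c).sub J).deg) :
    ∃ (a : Fin w → Fin c) (u : Fin w → Fin c → k), Function.Injective a ∧
      (∀ i, (fun l => algebraMap k K (u i l)) ∈ J) ∧
      ∀ x ∈ J, ∀ l, x l = ∑ i, x (a i) * algebraMap k K (u i l) := by
  classical
  obtain ⟨a, f, ha, hf⟩ := exists_coords J hw
  have h1 : ((pw D c).sub J).map f ≤ pw D w := by
    intro P y hy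
    rw [VB.mem_map] at hy
    rw [mem_pw]
    intro i
    have h2 := VB.mem_sub.1 hy
    have h3 : y i = (f.symm y : Fin c → K) (a i) := by
      rw [← hf, f.apply_symm_apply]
    rw [h3]
    exact mem_pw.1 h2 (a i)
  have h2 : ((pw D c).sub J).map f = pw D w := by
    apply VB.eq_of_le_of_deg_le h1
    rw [VB.deg_map, deg_pw]
    exact hdeg
  have h3 : ∀ (i : Fin w) (l : Fin c), ∃ b : k, algebraMap k K b =
      (f.symm (Pi.single i 1) : Fin c → K) l := by
    intro i l
    apply H0_line_zero
    rw [VB.mem_H0]
    intro P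
    rw [mem_line, Finsupp.coe_zero, Pi.zero_apply, neg_zero]
    obtain ⟨t, ht, htm⟩ := exists_ord_eq P (-D P)
    have h4 : t • (Pi.single i 1 : Fin w → K) ∈ (((pw D c).sub J).map f).M P := by
      rw [h2, mem_pw]
      intro j
      rw [Pi.smul_apply, smul_eq_mul, Pi.single_apply]
      split_ifs
      · rw [mul_one]
        exact Or.inr htm.ge
      · rw [mul_zero]
        exact zero_mem _
    rw [VB.mem_map, map_smul] at h4
    have h5 : t * (f.symm (Pi.single i 1) : Fin c → K) l ∈ P.filt (-D P) :=
      mem_pw.1 (VB.mem_sub.1 h4) l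
    have h6 := mem_filt_iff_of_ord P ht htm (x := (f.symm (Pi.single i 1) : Fin c → K) l) 0
    rw [zero_add] at h6
    exact h6.1 h5
  choose u hu using h3
  refine ⟨a, u, ha, fun i => ?_, fun x hx l => ?_⟩
  · have h4 : (fun l => algebraMap k K (u i l)) = (f.symm (Pi.single i 1) : Fin c → K) :=
      funext fun l => hu i l
    rw [h4]
    exact (f.symm (Pi.single i 1)).2
  · have h4 : (⟨x, hx⟩ : J) = ∑ i, x (a i) • f.symm (Pi.single i 1) := by
      apply f.injective
      rw [map_sum]
      have h5 : ∀ i, f (x (a i) • f.symm (Pi.single i 1)) = Pi.single i (x (a i)) := by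
        intro i
        rw [map_smul, f.apply_symm_apply, ← Pi.single_smul', smul_eq_mul, mul_one]
      rw [Finset.sum_congr rfl fun i _ => h5 i, Finset.univ_sum_single (fun i => x (a i))]
      funext i
      exact hf ⟨x, hx⟩ i
    have h5 := congrArg (fun z : J => (z : Fin c → K) l) h4
    have h6 : ((∑ i, x (a i) • f.symm (Pi.single i 1) : J) : Fin c → K) l =
        ∑ i, x (a i) * algebraMap k K (u i l) := by
      rw [Submodule.coe_sum, Finset.sum_apply]
      refine Finset.sum_congr rfl fun i _ => ?_
      rw [hu i l]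
      rfl
    rw [← h6]
    exact h5

/-- A proper subbundle of degree zero of `O^c` is in the kernel of a constant functional. -/
theorem exists_const_functional {D : Dv k K} {c w : ℕ} (J : Submodule K (Fin c → K))
    (hw : finrank K J = w) (hJ : J ≠ ⊤) (hdeg : (w : ℤ) * ddeg D ≤ ((pw D c).sub J).deg) :
    ∃ b : Fin c → k, b ≠ 0 ∧ ∀ x ∈ J, ∑ l, algebraMap k K (b l) * x l = 0 := by
  classical
  obtain ⟨a, u, ha, -, h⟩ := const_basis J hw hdeg
  have h1 : ¬ Function.Surjective a := by
    intro hs
    have h2 := Fintype.card_of_bijective ⟨ha, hs⟩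
    rw [Fintype.card_fin, Fintype.card_fin] at h2
    apply hJ
    apply Submodule.eq_top_of_finrank_eq
    rw [hw, h2, finrank_fin_fun]
  rw [Function.Surjective] at h1
  push Not at h1
  obtain ⟨l, hl⟩ := h1
  refine ⟨fun m => (if m = l then 1 else 0) - ∑ i, if m = a i then u i l else 0, ?_, ?_⟩
  · intro h2
    have h3 := congrFun h2 l
    simp only [if_true, Pi.zero_apply] at h3
    rw [Finset.sum_eq_zero] at h3
    · simp at h3
    · intro i _
      rw [if_neg]
      exact fun h4 => hl i h4.symm
  · intro x hx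
    have h2 : ∀ m, algebraMap k K ((if m = l then 1 else 0) - ∑ i, if m = a i then u i l else 0) *
        x m = (if m = l then x m else 0) - ∑ i, if m = a i then x m * algebraMap k K (u i l) else 0 := by
      intro m
      rw [map_sub, map_sum, sub_mul, Finset.sum_mul]
      congr 1
      · split_ifs <;> simp
      · refine Finset.sum_congr rfl fun i _ => ?_
        split_ifs <;> simp [mul_comm]
    rw [Finset.sum_congr rfl fun m _ => h2 m, Finset.sum_sub_distrib, Finset.sum_ite_eq',
      if_pos (Finset.mem_univ l), Finset.sum_comm]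
    have h3 : ∀ i, (∑ m, if m = a i then x m * algebraMap k K (u i l) else 0) =
        x (a i) * algebraMap k K (u i l) := by
      intro i
      rw [Finset.sum_ite_eq', if_pos (Finset.mem_univ _)]
    rw [Finset.sum_congr rfl fun i _ => h3 i, ← h x hx l, sub_self]

theorem le_h0_ext_left (E : VB k K A) (F : VB k K B) (u : Place k K →₀ (B →ₗ[K] A))
    [FiniteDimensional K A] [FiniteDimensional K B] : E.h0 ≤ (ext E F u).h0 := by
  let f : E.H0 →ₗ[k] (ext E F u).H0 :=
    { toFun := fun s => ⟨((s : A), (0 : B)), VB.mem_H0.2 fun P => mem_ext.2 ⟨zero_mem _, by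
        simpa using VB.mem_H0.1 s.2 P⟩⟩
      map_add' := fun s t => Subtype.ext (by simp)
      map_smul' := fun c s => Subtype.ext (by simp) }
  have hf : Function.Injective f := by
    intro s t h
    apply Subtype.ext
    exact congrArg Prod.fst (congrArg Subtype.val h)
  have h1 := LinearMap.finrank_le_finrank_of_injective hf
  unfold VB.h0
  exact_mod_cast h1

omit [CurveG k K] [Module k B] [IsScalarTower k K B] in
/-- The class with values in `O^c` assembled from the components. -/
private lemma DegOne_flip {c : ℕ} (u : Place k K →₀ ((Fin c → K) →ₗ[K] (B →ₗ[K] K))) :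
    ∃ u' : Place k K →₀ (B →ₗ[K] (Fin c → K)), ∀ P b i, u' P b i = u P (Pi.single i 1) b := by
  refine ⟨u.mapRange (fun φ => LinearMap.pi fun i => φ (Pi.single i 1)) ?_, fun P b i => ?_⟩
  · ext b i
    simp
  · simp

/-- A stable bundle of rank `n` and degree one with `c` sections. -/
theorem exists_deg_one {n c : ℕ} (hcn : c < n) (hc : gen k K * c ≤ (gen k K - 1) * n + 1) :
    ∃ E : VB k K (Fin n → K), E.Stable ∧ E.deg = 1 ∧ (c : ℤ) ≤ E.h0 := by
  classical
  obtain ⟨r, rfl⟩ : ∃ r, n = c + r := ⟨n - c, by omega⟩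
  have hr : 1 ≤ r := by omega
  obtain ⟨F, hF1, hF2, -⟩ := exists_stable (k := k) (K := K) hr 1
  have h1 : (c : ℤ) ≤ (hom F (line (0 : Dv k K))).h1 := by
    have h2 := VB.rr (hom F (line (0 : Dv k K)))
    have h3 := deg_hom_le F (line (0 : Dv k K))
    have h4 := VB.h0_nonneg (hom F (line (0 : Dv k K)))
    have h5 : finrank K ((Fin r → K) →ₗ[K] K) = r := by
      rw [Module.finrank_linearMap, finrank_fin_fun, finrank_self, mul_one]
    rw [h5] at h2
    rw [VB.deg_line, ddeg_zero, hF1, finrank_fin_fun, finrank_self] at h3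
    push_cast at hc h3
    linarith
  obtain ⟨u, hu⟩ := exists_indep_ext (hom F (line (0 : Dv k K))) h1
  obtain ⟨u', hu'⟩ := DegOne_flip u
  have hdeg : (ext (pw (0 : Dv k K) c) F u').deg = 1 := by
    rw [deg_ext, deg_pw, ddeg_zero, mul_zero, zero_add, hF1]
  have hrk : finrank K ((Fin c → K) × (Fin r → K)) = c + r := by
    rw [Module.finrank_prod, finrank_fin_fun, finrank_fin_fun]
  have hst : (ext (pw (0 : Dv k K) c) F u').Stable := by
    intro J hJ hJ'
    rw [hdeg, hrk]
    suffices h2 : ((ext (pw (0 : Dv k K) c) F u').sub J).deg ≤ 0 by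
      have h3 : 0 < finrank K J := by
        rw [Nat.pos_iff_ne_zero]
        intro h
        exact hJ (Submodule.finrank_eq_zero.1 h)
      have h4 : (0 : ℤ) < finrank K J := by exact_mod_cast h3
      have h5 : (0 : ℤ) ≤ ((c + r : ℕ) : ℤ) := by positivity
      nlinarith
    obtain ⟨F', e1, e2, σ, hσ⟩ := ext_sub (pw (0 : Dv k K) c) F u' J
    have e3 := deg_le_zero_of_le_pw _ _ (VB.le_refl' ((pw (0 : Dv k K) c).sub
      (J.comap (LinearMap.inl K (Fin c → K) (Fin r → K)))))
    have e4 := VB.deg_le_of_le e1
    by_cases hB : J.map (LinearMap.snd K (Fin c → K) (Fin r → K)) = ⊤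
    · by_contra hcon
      push Not at hcon
      have e5 : (F.sub (J.map (LinearMap.snd K (Fin c → K) (Fin r → K)))).deg = 1 := by
        rw [hB, VB.deg_sub_top, hF1]
      have e6 : F' = F.sub (J.map (LinearMap.snd K (Fin c → K) (Fin r → K))) :=
        VB.eq_of_le_of_deg_le e1 (by rw [e5]; linarith)
      by_cases hA : J.comap (LinearMap.inl K (Fin c → K) (Fin r → K)) = ⊤
      · exact hJ' (eq_top_of hA hB)
      · obtain ⟨b, hb, hb'⟩ := exists_const_functional (D := (0 : Dv k K)) _ rfl hA
          (by rw [ddeg_zero, mul_zero]; linarith)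
        apply hb
        apply hu
        let lam : (Fin c → K) →ₗ[K] K := ∑ l, algebraMap k K (b l) • LinearMap.proj l
        have hlam : ∀ x, lam x = ∑ l, algebraMap k K (b l) * x l := by
          intro x
          simp only [lam, LinearMap.sum_apply]
          rfl
        have hker : J.comap (LinearMap.inl K (Fin c → K) (Fin r → K)) ≤ LinearMap.ker lam := by
          intro x hx
          rw [LinearMap.mem_ker, hlam]
          exact hb' x hx
        let lamq : ((Fin c → K) ⧸ J.comap (LinearMap.inl K (Fin c → K) (Fin r → K))) →ₗ[K] K :=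
          Submodule.liftQ _ lam hker
        let w : (Fin r → K) →ₗ[K] K := lamq ∘ₗ σ ∘ₗ
          (LinearMap.id.codRestrict (J.map (LinearMap.snd K (Fin c → K) (Fin r → K)))
            (fun x => by rw [hB]; exact Submodule.mem_top))
        refine ⟨w, fun P => ?_⟩
        rw [mem_hom]
        intro x hx
        have hx' : x ∈ J.map (LinearMap.snd K (Fin c → K) (Fin r → K)) := by
          rw [hB]; exact Submodule.mem_top
        have e7 := hσ P ⟨x, hx'⟩ (by rw [e6]; exact hx)
        obtain ⟨y, hy, hy'⟩ := VB.mem_quo.1 e7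
        have e8 : (u P (fun i => algebraMap k K (b i)) - w) x = lam y := by
          have e9 : lam y = lamq ((J.comap (LinearMap.inl K (Fin c → K) (Fin r → K))).mkQ y) := rfl
          rw [e9, hy', map_sub]
          have e10 : lamq ((J.comap (LinearMap.inl K (Fin c → K) (Fin r → K))).mkQ (u' P x)) =
              lam (u' P x) := rfl
          rw [e10, hlam, LinearMap.sub_apply]
          congr 1
          have e11 : (fun i => algebraMap k K (b i)) =
              ∑ i, algebraMap k K (b i) • (Pi.single i 1 : Fin c → K) := by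
            funext l
            rw [Finset.sum_apply, Finset.sum_eq_single l]
            · simp
            · intro i _ hil
              simp [Pi.single_eq_of_ne (Ne.symm hil)]
            · intro h; exact absurd (Finset.mem_univ l) h
          rw [e11, map_sum, LinearMap.sum_apply]
          refine Finset.sum_congr rfl fun i _ => ?_
          rw [map_smul, LinearMap.smul_apply, smul_eq_mul, hu']
        rw [e8, hlam, mem_line, Finsupp.coe_zero, Pi.zero_apply, neg_zero]
        refine Submodule.sum_mem _ fun l _ => ?_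
        have e12 := mem_pw.1 hy l
        rw [Finsupp.coe_zero, Pi.zero_apply, neg_zero] at e12
        rw [← Algebra.smul_def]
        exact Submodule.smul_mem _ _ e12
    · by_cases hB0 : J.map (LinearMap.snd K (Fin c → K) (Fin r → K)) = ⊥
      · have e5 : (F.sub (J.map (LinearMap.snd K (Fin c → K) (Fin r → K)))).deg = 0 := by
          rw [hB0, VB.deg_sub_bot]
        linarith
      · have e5 := hF2 _ hB0 hB
        have e6 : finrank K (J.map (LinearMap.snd K (Fin c → K) (Fin r → K))) < finrank K (Fin r → K) :=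
          Submodule.finrank_lt hB
        rw [hF1, mul_one] at e5
        rw [finrank_fin_fun] at e5 e6
        have e7 : (F.sub (J.map (LinearMap.snd K (Fin c → K) (Fin r → K)))).deg ≤ 0 := by
          by_contra hcon
          push Not at hcon
          have e8 : (r : ℤ) * 1 ≤ r * (F.sub (J.map (LinearMap.snd K (Fin c → K) (Fin r → K)))).deg :=
            mul_le_mul_of_nonneg_left (by omega) (by positivity)
          have e9 : (finrank K (J.map (LinearMap.snd K (Fin c → K) (Fin r → K))) : ℤ) < r := by
            exact_mod_cast e6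
          linarith
        linarith
  obtain ⟨E', f, hE', hdeg', -, -, -, hst'⟩ := exists_transport (ext (pw (0 : Dv k K) c) F u') hrk
  refine ⟨E', hst' hst, by rw [hdeg', hdeg], ?_⟩
  rw [hE', VB.h0_map]
  have h6 := le_h0_ext_left (pw (0 : Dv k K) c) F u'
  have h7 := le_h0_pw (k := k) (K := K) (D := 0) c
  rw [h0_line_zero] at h7
  linarith

end Pool.Agent.MP_09eaec.GG
end
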