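import Pool.Agent.Lib.MP_09eaec_ag.Mg.G017
import Pool.Agent.Lib.MP_09eaec_ag.Mg.G018
import Pool.Agent.Lib.MP_09eaec_ag.Mg.G020
import Pool.Agent.Lib.MP_09eaec_ag.Mg.G019
import Pool.Agent.Lib.MP_09eaec_ag.Mg.G002
import Pool.Agent.Lib.MP_09eaec_ag.Mg.G023
import Pool.Agent.Lib.MP_09eaec_ag.Mg.G010

section

/-!
# TASK Even: stable bundles with an even number of sections (`k = 2 n - 2 m`)

`even_data`: `G, v`, `N = n + m`, `T0 = ker (Fintype.linearCombination K v)`, `E = (pw κ N).sub T0`: rank `n` (`ker_rank`), degree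
`4 (n + m) - (n + 3 m + 4 m) = 3 n - 3 m` (`ker_deg`, `hκ.ddeg = 4`), `h0 ≥ 3 (n + m) - (n + 5 m) = 2 n - 2 m` (`ker_h0`,
`hκ.h0 = 3`). `T0` contains no nonzero constant vector (`v` is linearly independent over `k`).
Stability: `stable_of_max` (`T0` is nontrivial, `n ≥ 1`): let `S ≠ ⊥` be of maximal slope with slope `≥ (3 n - 3 m) / n > 2`. `max_ker`:
`3 h1 ≤ 6 r - σ`, `X = (pw κ N).sub S'`, `S' = S.map T0.subtype`, `r = rank S`, `σ = deg`. `exists_minU` for `S'`: `U`, `u = finrank U ≤ h1`.
`rank_U`: `J = (KU K U).map ev`, `ρ = rank J`: `r + ρ ≤ u`. `sec_U` with `l = 0`, `w = Fin.elim0`: `u ≤ (G.sub J).h0`. Numbers: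
`n σ ≥ r (3 n - 3 m)`, so `3 n u ≤ 6 n r - r (3 n - 3 m) = 3 r (n + m)`, `n u ≤ r (n + m) ≤ (u - ρ) (n + m)`, `ρ (n + m) ≤ m u`.
`J = ⊥`: `u = 0`, `r = 0`, no. `J ≠ ⊥, ⊤`: `m u < (n + m) ρ`, no. `J = ⊤`: `ρ = m`, `u ≥ n + m`; `u ≤ N` so `u = n + m` and
`n (n + m) ≤ r (n + m)`, `r ≥ n`, so `S = ⊤` (`Submodule.eq_top_of_finrank_eq`).
Transport to `Fin n → K` (`exists_transport`, `h0_map`).
-/

set_option autoImplicit false

namespace Pool.Agent.MP_09eaec.GG.G3

open Module

universe u v

variable {k : Type u} {K : Type v} [Field k] [Field K] [Algebra k K]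
variable {W : Type v} [AddCommGroup W] [Module K W] [Module k W] [IsScalarTower k K W]
variable {A : Type v} [AddCommGroup A] [Module K A] [Module k A] [IsScalarTower k K A]
variable {B : Type v} [AddCommGroup B] [Module K B] [Module k B] [IsScalarTower k K B]

variable [CurveG k K]

/-- The numbers. -/
private lemma Even_num {n m r σ h u : ℤ} (hn : 0 < n) (h1 : 3 * h ≤ 6 * r - σ) (h2 : u ≤ h)
    (h3 : (3 * n - 3 * m) * r ≤ σ * n) : n * u ≤ r * (n + m) := by
  have e1 : n * (3 * u) ≤ n * (6 * r - σ) := mul_le_mul_of_nonneg_left (by linarith) hn.le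
  nlinarith

/-- The kernel bundle is stable. -/
private lemma Even_stable (hg : gen k K = 3) {κ : Dv k K} (hκ : IsCanonical κ) {n m : ℕ}
    (hm : 1 ≤ m) (hmn : 3 * m < n) {G : VB k K (Fin m → K)} {v : Fin (n + m) → (Fin m → K)}
    (hv : ∀ i, v i ∈ G.H0) (hli : LinearIndependent k v)
    (hb : ∀ J : Submodule K (Fin m → K), J ≠ ⊥ → J ≠ ⊤ →
        m * (G.sub J).h0 < (n + m) * finrank K J)
    (hrk : finrank K (LinearMap.ker (Fintype.linearCombination K v)) = n)
    (hdeg : ((pw κ (n + m)).sub (LinearMap.ker (Fintype.linearCombination K v))).deg =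
      3 * n - 3 * m) :
    ((pw κ (n + m)).sub (LinearMap.ker (Fintype.linearCombination K v))).Stable := by
  have hT0 : ∀ c : Fin (n + m) → k, (fun i => algebraMap k K (c i)) ∈
      LinearMap.ker (Fintype.linearCombination K v) → c = 0 := by
    intro c hc
    rw [LinearMap.mem_ker, Fintype.linearCombination_apply] at hc
    have h1 : ∑ i, c i • v i = 0 := by
      rw [← hc]
      refine Finset.sum_congr rfl fun i _ => ?_
      rw [algebraMap_smul]
    funext i
    exact Fintype.linearIndependent_iff.1 hli c h1 i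
  have hn0 : 0 < n := by omega
  have hnt : Nontrivial (LinearMap.ker (Fintype.linearCombination K v)) :=
    Module.nontrivial_of_finrank_pos (R := K) (by rw [hrk]; exact hn0)
  refine stable_of_max ?_
  intro S hS hmax hsl0
  rw [hdeg, hrk] at hsl0
  have hr0 : 0 < finrank K S := by
    rw [Nat.pos_iff_ne_zero]
    intro h0
    exact hS ((Submodule.finrank_eq_zero (R := K)).1 h0)
  have hr0' : (0 : ℤ) < finrank K S := by exact_mod_cast hr0
  have hn0' : (0 : ℤ) < n := by exact_mod_cast hn0
  have hmn' : 3 * (m : ℤ) < n := by exact_mod_cast hmn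
  have hm' : (1 : ℤ) ≤ m := by exact_mod_cast hm
  have hsl : 2 * (finrank K S : ℤ) <
      (((pw κ (n + m)).sub (LinearMap.ker (Fintype.linearCombination K v))).sub S).deg := by
    by_contra hcon
    push Not at hcon
    have e1 := mul_le_mul_of_nonneg_right hcon hn0'.le
    nlinarith
  obtain ⟨k1, _, k3, k4, _⟩ := max_ker hg hκ hT0 hS hmax hsl
  rw [k3] at k1
  obtain ⟨U, hSU, hU, _⟩ := exists_minU hκ
    (S.map (LinearMap.ker (Fintype.linearCombination K v)).subtype)
  have hker : S.map (LinearMap.ker (Fintype.linearCombination K v)).subtype ≤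
      LinearMap.ker (Fintype.linearCombination K v) := Submodule.map_subtype_le _ _
  have hrU := rank_U hker hSU
  rw [k4] at hrU
  have hli2 : LinearIndependent k (Sum.elim v (Fin.elim0 : Fin 0 → (Fin m → K))) := by
    have h1 := hli.comp (Equiv.sumEmpty (Fin (n + m)) (Fin 0))
      (Equiv.sumEmpty (Fin (n + m)) (Fin 0)).injective
    have h2 : Sum.elim v (Fin.elim0 : Fin 0 → (Fin m → K)) =
        v ∘ (Equiv.sumEmpty (Fin (n + m)) (Fin 0)) := by
      funext x
      rcases x with x | x
      · rfl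
      · exact x.elim0
    rw [h2]
    exact h1
  have hsec := sec_U (w := (Fin.elim0 : Fin 0 → (Fin m → K))) hv (fun a => a.elim0) hli2 U
    (le_refl ((KU K U).map (Fintype.linearCombination K v))) (fun a => a.elim0)
  set J := (KU K U).map (Fintype.linearCombination K v) with hJ
  have hrU' : (finrank K S : ℤ) + finrank K J ≤ finrank k U := by exact_mod_cast hrU
  have hsec' : (finrank k U : ℤ) ≤ (G.sub J).h0 := by
    have := hsec
    simpa using this
  have hnum : (n : ℤ) * finrank k U ≤ finrank K S * (n + m) := Even_num hn0' k1 hU hsl0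
  have hkey : (finrank K J : ℤ) * (n + m) ≤ m * finrank k U := by
    have e1 : (finrank K S : ℤ) * (n + m) ≤ (finrank k U - finrank K J) * (n + m) :=
      mul_le_mul_of_nonneg_right (by linarith) (by positivity)
    nlinarith
  by_cases hJ0 : J = ⊥
  · exfalso
    rw [hJ0, VB.h0_sub_bot] at hsec'
    have h1 : (0 : ℤ) ≤ finrank K J := by positivity
    linarith
  by_cases hJ1 : J = ⊤
  · have hρ : finrank K J = m := by
      rw [hJ1, finrank_top, Module.finrank_fin_fun]
    have hUle : finrank k U ≤ n + m := by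
      have := Submodule.finrank_le U
      rwa [Module.finrank_fin_fun] at this
    have hUle' : (finrank k U : ℤ) ≤ n + m := by exact_mod_cast hUle
    rw [hρ] at hkey
    have hUge : (n : ℤ) + m ≤ finrank k U := by
      by_contra hcon
      push Not at hcon
      have := mul_lt_mul_of_pos_left hcon (by linarith : (0 : ℤ) < m)
      linarith
    have hUeq : (finrank k U : ℤ) = n + m := le_antisymm hUle' hUge
    rw [hUeq] at hnum
    have hrn : (n : ℤ) ≤ finrank K S := by
      by_contra hcon
      push Not at hcon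
      have := mul_lt_mul_of_pos_right hcon (by linarith : (0 : ℤ) < n + m)
      linarith
    have hrn' : n ≤ finrank K S := by exact_mod_cast hrn
    apply Submodule.eq_top_of_finrank_eq
    have h1 := Submodule.finrank_le S
    rw [hrk] at h1 ⊢
    omega
  · exfalso
    have h1 := hb J hJ0 hJ1
    have h2 : (m : ℤ) * finrank k U ≤ m * (G.sub J).h0 :=
      mul_le_mul_of_nonneg_left hsec' (by positivity)
    linarith

theorem exists_even (hg : gen k K = 3) {n m : ℕ} (hm : 1 ≤ m) (hmn : 3 * m < n) :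
    ∃ E : VB k K (Fin n → K), E.Stable ∧ E.deg = 3 * n - 3 * m ∧ 2 * (n : ℤ) - 2 * m ≤ E.h0 := by
  obtain ⟨κ, hκ⟩ := exists_canonical (k := k) (K := K)
  obtain ⟨G, v, hGd, hv, hli, hgen, hGh, hb⟩ := even_data hg hκ hm hmn
  have hrk0 := (ker_rank hgen).2
  rw [Module.finrank_fin_fun] at hrk0
  have hrk : finrank K (LinearMap.ker (Fintype.linearCombination K v)) = n := by omega
  have hκd : ddeg κ = 4 := by rw [hκ.ddeg, hg]; norm_num
  have hdeg : ((pw κ (n + m)).sub (LinearMap.ker (Fintype.linearCombination K v))).deg =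
      3 * n - 3 * m := by
    rw [ker_deg κ hv hgen, hκd, hGd, Module.finrank_fin_fun]
    push_cast
    ring
  have hh0 : 2 * (n : ℤ) - 2 * m ≤
      ((pw κ (n + m)).sub (LinearMap.ker (Fintype.linearCombination K v))).h0 := by
    have h1 := ker_h0 κ hv
    rw [hκ.h0, hg, hGh] at h1
    push_cast at h1
    linarith
  have hst := Even_stable hg hκ hm hmn hv hli hb hrk hdeg
  obtain ⟨E', f, hE, h1, _, _, _, h5⟩ := exists_transport
    ((pw κ (n + m)).sub (LinearMap.ker (Fintype.linearCombination K v))) hrk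
  refine ⟨E', h5 hst, h1.trans hdeg, ?_⟩
  rw [hE, VB.h0_map]
  exact hh0

end Pool.Agent.MP_09eaec.GG.G3
end

section

/-!
# TASK Dich: the two cases of the lower bound

`pr_or` (with `no_map_O`). In the second case let `J` be as there. If `J ≠ ⊤` (`J ≠ ⊥`) the stability inequality for `J`:
rank one: `2 + 2 α ≤ deg J + α vd < (d + α k) / n`, rank two: `(4 + 3 α) / 2 < (d + α k) / n`. If `J = ⊤`: `n ≥ 2`, so
`n = 2`, `3 ≤ vd V ⊤ = k` (`vd_top`), `4 ≤ d` (`deg_sub_top`).
-/

set_option autoImplicit false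

namespace Pool.Agent.MP_09eaec.GG.G3

open Module

universe u v

variable {k : Type u} {K : Type v} [Field k] [Field K] [Algebra k K]
variable {W : Type v} [AddCommGroup W] [Module K W] [Module k W] [IsScalarTower k K W]
variable {A : Type v} [AddCommGroup A] [Module K A] [Module k A] [IsScalarTower k K A]
variable {B : Type v} [AddCommGroup B] [Module K B] [Module k B] [IsScalarTower k K B]

variable [CurveG k K]

theorem dich (hg : gen k K = 3) [FiniteDimensional K W] {E : VB k K W} {V : Submodule k W}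
    (hV : V ≤ E.H0) {α : ℝ} (hα : 0 < α) (hn : 2 ≤ finrank K W) (hst : E.StableSys α V)
    (hk : finrank K W ≤ finrank k V) :
    3 * (finrank k V : ℤ) ≤ E.deg + 2 * finrank K W ∨
    (4 + 3 * α) * finrank K W < 2 * ((E.deg : ℝ) + α * finrank k V) ∨
    (finrank K W = 2 ∧ 3 ≤ finrank k V ∧ 4 ≤ E.deg) := by
  obtain ⟨κ, hκ⟩ := exists_canonical (k := k) (K := K)
  have hnR : (0 : ℝ) < finrank K W := by exact_mod_cast (by omega : 0 < finrank K W)
  rcases pr_or hg hκ hV (fun φ hφ => no_map_O hV hα hn hst hk φ hφ) with h | ⟨J, h⟩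
  · exact Or.inl h
  refine Or.inr ?_
  by_cases hJt : J = ⊤
  · subst hJt
    rw [vd_top, VB.deg_sub_top, finrank_top] at h
    rcases h with ⟨h1, -, -⟩ | ⟨h1, h2, h3⟩
    · omega
    · exact Or.inr ⟨h1, h2, h3⟩
  refine Or.inl ?_
  have hJb : J ≠ ⊥ := by
    rintro rfl
    rw [finrank_bot] at h
    rcases h with ⟨h1, -⟩ | ⟨h1, -⟩ <;> omega
  have h2 := hst J hJb hJt
  have hvd : (vd V J : ℝ) = (finrank k ↥(V ⊓ J.restrictScalars k) : ℝ) := rfl
  rw [← hvd] at h2
  rcases h with ⟨h3, h4, h5⟩ | ⟨h3, h4, h5⟩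
  · rw [h3, div_lt_div_iff₀ (by norm_num) hnR] at h2
    have h4' : (2 : ℝ) ≤ vd V J := by exact_mod_cast h4
    have h5' : (2 : ℝ) ≤ (E.sub J).deg := by exact_mod_cast h5
    have h6 := mul_le_mul_of_nonneg_left h4' hα.le
    have h7 := mul_le_mul_of_nonneg_right (add_le_add h5' h6) hnR.le
    have h8 : 0 < α * finrank K W := mul_pos hα hnR
    push_cast at h2
    nlinarith
  · rw [h3, div_lt_div_iff₀ (by norm_num) hnR] at h2
    have h4' : (3 : ℝ) ≤ vd V J := by exact_mod_cast h4
    have h5' : (4 : ℝ) ≤ (E.sub J).deg := by exact_mod_cast h5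
    have h6 := mul_le_mul_of_nonneg_left h4' hα.le
    have h7 := mul_le_mul_of_nonneg_right (add_le_add h5' h6) hnR.le
    push_cast at h2
    nlinarith

end Pool.Agent.MP_09eaec.GG.G3
end

section

/-!
# Numerical consequences of the bounds for stable bundles
-/

set_option autoImplicit false

namespace Pool.Agent.MP_09eaec.GG

open Module

universe u v

variable {k : Type u} {K : Type v} [Field k] [Field K] [Algebra k K]
variable {W : Type v} [AddCommGroup W] [Module K W] [Module k W] [IsScalarTower k K W]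

variable [CurveG k K]

/-- Stable bundles of slope smaller than `2 j` have fewer than `j (g + 1) / g` sections per rank. -/
theorem stable_lt {H : Dv k K} {x y : K} (hp : Pencil H x y) [FiniteDimensional K W]
    {Q : VB k K W} (hQ : Q.Stable) (hr : 1 ≤ finrank K W) {j : ℤ} (hj : 1 ≤ j)
    (hj' : j ≤ gen k K) (h : Q.deg < 2 * j * finrank K W) :
    gen k K * Q.h0 < j * (gen k K + 1) * finrank K W := by
  have hg := CurveG.two_le (k := k) (K := K)
  set g := gen k K with hgdef
  set r : ℤ := (finrank K W : ℤ) with hrdef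
  have hr1 : 1 ≤ r := by rw [hrdef]; exact_mod_cast hr
  by_cases h0 : Q.deg < 0
  · rw [stable_neg hQ hr h0]
    nlinarith [mul_pos (show (0 : ℤ) < j by omega) (show (0 : ℤ) < g + 1 by omega)]
  push Not at h0
  obtain ⟨i, hi⟩ : ∃ i : ℤ, i = Q.deg / (2 * r) := ⟨_, rfl⟩
  have hi0 : 0 ≤ i := by rw [hi]; exact Int.ediv_nonneg h0 (by omega)
  have e1 : 2 * r * i ≤ Q.deg := by rw [hi]; exact Int.mul_ediv_self_le (by omega)
  have e2 : Q.deg < 2 * r * i + 2 * r := by
    rw [hi]; exact Int.lt_mul_ediv_self_add (by omega)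
  have hij : i ≤ j - 1 := by
    by_contra hcon
    push Not at hcon
    nlinarith
  rcases eq_or_lt_of_le e1 with e | e
  · have h3 := stable_even hp hQ hr hi0 (by omega) (by rw [← e]; ring)
    nlinarith [mul_le_mul_of_nonneg_left h3 (show (0 : ℤ) ≤ g by omega),
      mul_nonneg (mul_nonneg (show (0 : ℤ) ≤ g by omega) (show (0 : ℤ) ≤ j - 1 - i by omega))
        (show (0 : ℤ) ≤ r by omega), mul_pos (show (0 : ℤ) < j by omega) (show (0 : ℤ) < r by omega)]
  · have h3 := stable_window hp hQ hr hi0 (by omega) (by rw [← hrdef]; linarith)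
      (by rw [← hrdef]; linarith)
    rw [← hgdef, ← hrdef] at h3
    have h4 : (i + 1) * (Q.deg + (g - 1 - 2 * i) * r) < (i + 1) * ((g + 1) * r) := by
      apply mul_lt_mul_of_pos_left _ (by omega)
      linarith
    nlinarith [mul_nonneg (mul_nonneg (show (0 : ℤ) ≤ g + 1 by omega)
      (show (0 : ℤ) ≤ j - 1 - i by omega)) (show (0 : ℤ) ≤ r by omega)]

/-- Stable bundles with more than `j` sections per rank, of slope smaller than `2 j`. -/
theorem stable_ramp {H : Dv k K} {x y : K} (hp : Pencil H x y) [FiniteDimensional K W]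
    {Q : VB k K W} (hQ : Q.Stable) (hr : 1 ≤ finrank K W) {j : ℤ} (hj : 1 ≤ j)
    (hj' : j ≤ gen k K) (h : Q.deg < 2 * j * finrank K W) (hk : j * finrank K W < Q.h0) :
    gen k K * Q.h0 ≤ j * (Q.deg + (gen k K + 1 - 2 * j) * finrank K W) := by
  have hg := CurveG.two_le (k := k) (K := K)
  set g := gen k K with hgdef
  set r : ℤ := (finrank K W : ℤ) with hrdef
  have hr1 : 1 ≤ r := by rw [hrdef]; exact_mod_cast hr
  by_cases h1 : Q.deg < 2 * (j - 1) * r
  · exfalso
    by_cases hj1 : j = 1
    · subst hj1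
      have h0 : Q.deg < 0 := by simpa using h1
      rw [stable_neg hQ hr h0] at hk
      omega
    · have h3 := stable_lt hp hQ hr (j := j - 1) (by omega) (by omega) h1
      rw [← hgdef, ← hrdef] at h3
      nlinarith [mul_lt_mul_of_pos_left hk (show (0 : ℤ) < g by omega)]
  push Not at h1
  rcases eq_or_lt_of_le h1 with e | e
  · exfalso
    have h3 := stable_even hp hQ hr (i := j - 1) (by omega) (by omega) e.symm
    rw [← hrdef] at h3
    linarith
  · have h3 := stable_window hp hQ hr (i := j - 1) (by omega) (by omega) e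
      (by rw [← hrdef]; linarith)
    rw [← hgdef, ← hrdef] at h3
    linarith

end Pool.Agent.MP_09eaec.GG
end

section

/-!
# The lower bounds (A) and (B)
-/

set_option autoImplicit false

namespace Pool.Agent.MP_09eaec.GG

open Module

universe u v

variable {k : Type u} {K : Type v} [Field k] [Field K] [Algebra k K]
variable {W : Type v} [AddCommGroup W] [Module K W] [Module k W] [IsScalarTower k K W]

variable [CurveG k K]

theorem finrank_quo_pos [FiniteDimensional K W] {J : Submodule K W} (hJ : J ≠ ⊤) :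
    1 ≤ finrank K (W ⧸ J) := by
  have : Nontrivial (W ⧸ J) := Submodule.Quotient.nontrivial_iff.2 hJ
  exact Module.finrank_pos

/-- The quotients of an `α`-stable system with at least `j (g + 1) / g` sections per rank have slope
at least `2 j`. -/
theorem quo_deg_ge {H : Dv k K} {x y : K} (hp : Pencil H x y) [FiniteDimensional K W]
    {E : VB k K W} {V : Submodule k W} (hV : V ≤ E.H0) {α : ℝ} (hα : 0 < α)
    (hn : 1 ≤ finrank K W) (hst : E.StableSys α V) {j : ℤ} (hj : 1 ≤ j) (hj' : j ≤ gen k K)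
    (hk : j * (gen k K + 1) * finrank K W ≤ gen k K * finrank k V) {J : Submodule K W}
    (hJ : J ≠ ⊤) : 2 * j * finrank K (W ⧸ J) ≤ (E.quo J).deg := by
  obtain ⟨J0, h1, h2, h3, h4, h5⟩ := exists_sys_quo hV hα hn hst
  have hg := CurveG.two_le (k := k) (K := K)
  have hr0 := finrank_quo_pos h1
  have hr := finrank_quo_pos hJ
  have h6 : 2 * j * finrank K (W ⧸ J0) ≤ (E.quo J0).deg := by
    by_contra hcon
    push Not at hcon
    have h7 := stable_lt hp h2 hr0 hj hj' hcon
    have hn' : (0 : ℤ) < finrank K W := by exact_mod_cast hn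
    have hr0' : (0 : ℤ) < finrank K (W ⧸ J0) := by exact_mod_cast hr0
    have a1 := mul_lt_mul_of_pos_right h7 hn'
    have a2 := mul_le_mul_of_nonneg_left h3 (show (0 : ℤ) ≤ gen k K by omega)
    have a3 := mul_le_mul_of_nonneg_right hk hr0'.le
    nlinarith
  have h7 := h5 J hJ
  have hr0' : (0 : ℤ) < finrank K (W ⧸ J0) := by exact_mod_cast hr0
  have hr' : (0 : ℤ) < finrank K (W ⧸ J) := by exact_mod_cast hr
  have h8 := mul_le_mul_of_nonneg_right h6 hr'.le
  have h9 : (2 * j * finrank K (W ⧸ J)) * finrank K (W ⧸ J0) ≤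
      (E.quo J).deg * finrank K (W ⧸ J0) := by
    calc (2 * j * (finrank K (W ⧸ J) : ℤ)) * finrank K (W ⧸ J0)
        = 2 * j * finrank K (W ⧸ J0) * finrank K (W ⧸ J) := by ring
      _ ≤ (E.quo J0).deg * finrank K (W ⧸ J) := h8
      _ ≤ _ := h7
  exact le_of_mul_le_mul_right h9 hr0'

/-- The lower bound (B). -/
theorem lower_plateau {H : Dv k K} {x y : K} (hp : Pencil H x y) [FiniteDimensional K W]
    {E : VB k K W} {V : Submodule k W} (hV : V ≤ E.H0) {α : ℝ} (hα : 0 < α)
    (hn : 1 ≤ finrank K W) (hst : E.StableSys α V) {j : ℤ} (hj : 1 ≤ j) (hj' : j ≤ gen k K)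
    (hk : j * (gen k K + 1) * finrank K W ≤ gen k K * finrank k V) :
    2 * j * finrank K W ≤ E.deg := by
  have : Nontrivial W := Module.nontrivial_of_finrank_pos (R := K) hn
  have h1 := quo_deg_ge hp hV hα hn hst hj hj' hk (J := ⊥) bot_ne_top
  rw [VB.deg_quo_bot] at h1
  have h2 := Submodule.finrank_quotient_add_finrank (⊥ : Submodule K W)
  rw [finrank_bot, add_zero] at h2
  rwa [h2] at h1

/-- The lower bound (A). -/
theorem lower_ramp {H : Dv k K} {x y : K} (hp : Pencil H x y) [FiniteDimensional K W]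
    {E : VB k K W} {V : Submodule k W} (hV : V ≤ E.H0) {α : ℝ} (hα : 0 < α)
    (hn : 1 ≤ finrank K W) (hst : E.StableSys α V) {j : ℤ} (hj : 1 ≤ j) (hj' : j ≤ gen k K)
    (hk0 : j * finrank K W < finrank k V)
    (hk : gen k K * finrank k V ≤ j * (gen k K + 1) * finrank K W) :
    gen k K * finrank k V ≤ j * (E.deg + (gen k K + 1 - 2 * j) * finrank K W) := by
  obtain ⟨J0, h1, h2, h3, h4, h5⟩ := exists_sys_quo hV hα hn hst
  have hg := CurveG.two_le (k := k) (K := K)
  have hr0 := finrank_quo_pos h1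
  have hn' : (0 : ℤ) < finrank K W := by exact_mod_cast hn
  have hr0' : (0 : ℤ) < finrank K (W ⧸ J0) := by exact_mod_cast hr0
  by_cases h6 : (E.quo J0).deg < 2 * j * finrank K (W ⧸ J0)
  · have h7 : j * finrank K (W ⧸ J0) < (E.quo J0).h0 := by
      have a1 := mul_lt_mul_of_pos_right hk0 hr0'
      have a2 : (j * finrank K (W ⧸ J0)) * finrank K W < (E.quo J0).h0 * finrank K W := by
        calc (j * (finrank K (W ⧸ J0) : ℤ)) * finrank K W
            = j * finrank K W * finrank K (W ⧸ J0) := by ring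
          _ < finrank k V * finrank K (W ⧸ J0) := a1
          _ ≤ _ := h3
      exact lt_of_mul_lt_mul_right a2 hn'.le
    have h8 := stable_ramp hp h2 hr0 hj hj' h6 h7
    have b1 := mul_le_mul_of_nonneg_right h8 hn'.le
    have b2 := mul_le_mul_of_nonneg_left h3 (show (0 : ℤ) ≤ gen k K by omega)
    have b3 := mul_le_mul_of_nonneg_left h4 (show (0 : ℤ) ≤ j by omega)
    have b4 : (gen k K * finrank k V) * finrank K (W ⧸ J0) ≤
        (j * (E.deg + (gen k K + 1 - 2 * j) * finrank K W)) * finrank K (W ⧸ J0) := by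
      nlinarith
    exact le_of_mul_le_mul_right b4 hr0'
  · push Not at h6
    have c1 := mul_le_mul_of_nonneg_right h6 hn'.le
    have c2 : (2 * j * finrank K W) * finrank K (W ⧸ J0) ≤ E.deg * finrank K (W ⧸ J0) := by
      calc (2 * j * (finrank K W : ℤ)) * finrank K (W ⧸ J0)
          = 2 * j * finrank K (W ⧸ J0) * finrank K W := by ring
        _ ≤ (E.quo J0).deg * finrank K W := c1
        _ ≤ _ := h4
    have c3 : 2 * j * finrank K W ≤ E.deg := le_of_mul_le_mul_right c2 hr0'
    have c4 := mul_le_mul_of_nonneg_left c3 (show (0 : ℤ) ≤ j by omega)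
    nlinarith

end Pool.Agent.MP_09eaec.GG
end

section

/-!
# Stable bundles with more than `j` sections per rank: the rounded bound

`Q` stable of rank `r` and degree `δ < 2 j r`, `h = h⁰(Q) > j r`. Then `f(-j) = 0`, so the increment `f(1) - f(0) ≥ f(0) / j > r`,
and `h + (g - j)(r + 1) ≤ f(g - j) = δ + (g + 1 - 2 j) r`.
-/

set_option autoImplicit false

namespace Pool.Agent.MP_09eaec.GG

open Module

universe u v

variable {k : Type u} {K : Type v} [Field k] [Field K] [Algebra k K]
variable {W : Type v} [AddCommGroup W] [Module K W] [Module k W] [IsScalarTower k K W]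

variable [CurveG k K]

theorem stable_round {H : Dv k K} {x y : K} (hp : Pencil H x y) [FiniteDimensional K W]
    {Q : VB k K W} (hQ : Q.Stable) (hr : 1 ≤ finrank K W) {j : ℤ} (hj : 1 ≤ j)
    (hj' : j ≤ gen k K) (h : Q.deg < 2 * j * finrank K W) (hk : j * finrank K W < Q.h0) :
    Q.h0 + (gen k K - j) * (finrank K W + 1) ≤
      Q.deg + (gen k K + 1 - 2 * j) * finrank K W := by
  have hg := CurveG.two_le (k := k) (K := K)
  set g := gen k K with hgdef
  set r : ℤ := (finrank K W : ℤ) with hrdef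
  have hr1 : 1 ≤ r := by rw [hrdef]; exact_mod_cast hr
  have hlow : 2 * (j - 1) * r < Q.deg := by
    by_contra hcon
    push Not at hcon
    rcases eq_or_lt_of_le hcon with e | e
    · have h3 := stable_even hp hQ hr (i := j - 1) (by omega) (by omega) e
      rw [← hrdef] at h3
      linarith
    · by_cases hj1 : j = 1
      · subst hj1
        have h0 : Q.deg < 0 := by simpa using e
        rw [stable_neg hQ hr h0] at hk
        omega
      · have h3 := stable_lt hp hQ hr (j := j - 1) (by omega) (by omega) e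
        rw [← hgdef, ← hrdef] at h3
        nlinarith [mul_lt_mul_of_pos_left hk (show (0 : ℤ) < g by omega)]
  have hf0 : fH H Q (-j) = 0 := by
    unfold fH VB.h0
    rw [neg_smul, stable_twist_bot hQ hr, finrank_bot]
    · rfl
    · rw [ddeg_zsmul, hp.deg, ← hrdef]
      linarith
  have hfg : fH H Q (g - j) = Q.deg + (g + 1 - 2 * j) * r := by
    rw [fH_eq hp, stable_hom_zero hQ hr]
    · rw [← hgdef, ← hrdef]; ring
    · rw [ddeg_zsmul, hp.deg, ← hgdef, ← hrdef]
      have e : g - 1 - (g - j) = j - 1 := by ring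
      rw [e]
      linarith
  have h1 := fH_ineq hp Q (a := -j) (b := 0) (c := 1) (by omega) (by omega)
  rw [hf0, fH_zero] at h1
  have h2 : Q.h0 + r + 1 ≤ fH H Q 1 := by
    by_contra hcon
    push Not at hcon
    have h3 : j * fH H Q 1 ≤ j * (Q.h0 + r) := mul_le_mul_of_nonneg_left (by omega) (by omega)
    linarith
  rw [← hfg]
  rcases eq_or_lt_of_le hj' with e | e
  · rw [e, sub_self, fH_zero, zero_mul, add_zero]
  · have h3 := fH_ineq hp Q (a := 0) (b := 1) (c := g - j) (by omega) (by omega)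
    rw [fH_zero] at h3
    have h4 : (g - j) * (Q.h0 + r + 1) ≤ (g - j) * fH H Q 1 :=
      mul_le_mul_of_nonneg_left h2 (by omega)
    linarith

end Pool.Agent.MP_09eaec.GG
end
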