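import Pool.Agent.Lib.MP_09eaec_ag.Mg.G007
import Pool.Agent.Lib.MP_09eaec_ag.GG.Main
import Pool.Agent.Lib.MP_09eaec_ag.Mg.G009
import Pool.Agent.Lib.MP_09eaec_ag.Mg.G015
import Pool.Agent.Lib.MP_09eaec_ag.Mg.G005
import Pool.Agent.Lib.MP_09eaec_ag.Mg.G011
import Pool.Agent.Lib.MP_09eaec_ag.Mg.G012
import Pool.Agent.Lib.MP_09eaec_ag.Mg.G003
import Pool.Agent.Lib.MP_09eaec_ag.Mg.G002

section

/-!
# The base point free pencil trick for subspaces of sections

`V_i = {w | x^a y^b w ∈ V for a + b = i}`. `2 dim V_i ≤ dim V_(i-1) + dim V_(i+1)`, with `V_(-1) = H⁰(E(H))`. If `V_j = 0` then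
`(j + 1) dim V ≤ j h⁰(E(H))`.
-/

set_option autoImplicit false

namespace Pool.Agent.MP_09eaec.GG

open Module

universe u v

variable {k : Type u} {K : Type v} [Field k] [Field K] [Algebra k K]
variable {W : Type v} [AddCommGroup W] [Module K W] [Module k W] [IsScalarTower k K W]

/-- The pencil trick for three subspaces. -/
theorem pencil_dim {x y : K} (hy : y ≠ 0) {A B C : Submodule k W}
    [Module.Finite k A] [Module.Finite k B] [Module.Finite k C]
    (h1 : ∀ a ∈ A, ∀ b ∈ A, x • a + y • b ∈ C)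
    (h2 : ∀ z : W, x • z ∈ A → y • z ∈ A → z ∈ B) :
    2 * finrank k A ≤ finrank k B + finrank k C := by
  let Ψ : (A × A) →ₗ[k] C :=
    { toFun := fun p => ⟨x • (p.1 : W) + y • (p.2 : W), h1 _ p.1.2 _ p.2.2⟩
      map_add' := by
        intro p q
        apply Subtype.ext
        simp only [Prod.fst_add, Prod.snd_add, Submodule.coe_add, smul_add]
        abel
      map_smul' := by
        intro c p
        apply Subtype.ext
        simp only [Prod.smul_fst, Prod.smul_snd, Submodule.coe_smul, RingHom.id_apply, smul_add]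
        rw [smul_comm x c, smul_comm y c] }
  have hker : ∀ p : LinearMap.ker Ψ, y⁻¹ • ((p : A × A).1 : W) ∈ B ∧
      ((p : A × A).2 : W) = -(x • y⁻¹ • ((p : A × A).1 : W)) := by
    intro p
    have h3 : x • ((p : A × A).1 : W) + y • ((p : A × A).2 : W) = 0 :=
      congrArg Subtype.val (LinearMap.mem_ker.1 p.2)
    have h4 : ((p : A × A).2 : W) = -(x • y⁻¹ • ((p : A × A).1 : W)) := by
      have h5 : y • ((p : A × A).2 : W) = -(x • ((p : A × A).1 : W)) := by
        rw [eq_neg_iff_add_eq_zero, add_comm]; exact h3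
      have h6 : ((p : A × A).2 : W) = y⁻¹ • y • ((p : A × A).2 : W) := by
        rw [smul_smul, inv_mul_cancel₀ hy, one_smul]
      rw [h6, h5, smul_neg, smul_smul, smul_smul, mul_comm]
    refine ⟨h2 _ ?_ ?_, h4⟩
    · have h5 : x • y⁻¹ • ((p : A × A).1 : W) = -((p : A × A).2 : W) := by rw [h4, neg_neg]
      rw [h5]
      exact neg_mem (p : A × A).2.2
    · rw [smul_smul, mul_inv_cancel₀ hy, one_smul]
      exact (p : A × A).1.2
  let f : LinearMap.ker Ψ →ₗ[k] B :=
    { toFun := fun p => ⟨y⁻¹ • ((p : A × A).1 : W), (hker p).1⟩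
      map_add' := by
        intro p q
        apply Subtype.ext
        simp only [Submodule.coe_add, Prod.fst_add, smul_add]
      map_smul' := by
        intro c p
        apply Subtype.ext
        simp only [Submodule.coe_smul, Prod.smul_fst, RingHom.id_apply]
        rw [smul_comm] }
  have hf : Function.Injective f := by
    rw [injective_iff_map_eq_zero]
    intro p hp
    have h3 : y⁻¹ • ((p : A × A).1 : W) = 0 := congrArg Subtype.val hp
    have h4 : ((p : A × A).1 : W) = 0 := (smul_eq_zero.1 h3).resolve_left (inv_ne_zero hy)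
    have h5 := (hker p).2
    rw [h3, smul_zero, neg_zero] at h5
    apply Subtype.ext
    exact Prod.ext (Subtype.ext h4) (Subtype.ext h5)
  have h3 := LinearMap.finrank_range_add_finrank_ker Ψ
  have h4 := LinearMap.finrank_le_finrank_of_injective hf
  have h5 : finrank k (LinearMap.range Ψ) ≤ finrank k C := Submodule.finrank_le _
  rw [Module.finrank_prod] at h3
  omega

/-- The `w` with `x^a y^b w ∈ V` for all `a + b = i`. -/
def divs (x y : K) (V : Submodule k W) (i : ℕ) : Submodule k W where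
  carrier := {w | ∀ a b : ℕ, a + b = i → (x ^ a * y ^ b) • w ∈ V}
  add_mem' := by
    intro v w hv hw a b hab
    rw [smul_add]
    exact add_mem (hv a b hab) (hw a b hab)
  zero_mem' := by
    intro a b _
    rw [smul_zero]
    exact zero_mem _
  smul_mem' := by
    intro c w hw a b hab
    rw [smul_comm]
    exact V.smul_mem c (hw a b hab)

theorem mem_divs {x y : K} {V : Submodule k W} {i : ℕ} {w : W} :
    w ∈ divs x y V i ↔ ∀ a b : ℕ, a + b = i → (x ^ a * y ^ b) • w ∈ V := Iff.rfl

theorem divs_zero (x y : K) (V : Submodule k W) : divs x y V 0 = V := by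
  ext w
  rw [mem_divs]
  constructor
  · intro h
    simpa using h 0 0 rfl
  · intro h a b hab
    obtain ⟨rfl, rfl⟩ : a = 0 ∧ b = 0 := by omega
    simpa using h

theorem finite_divs {x : K} (hx : x ≠ 0) (y : K) (V : Submodule k W) [Module.Finite k V]
    (i : ℕ) : Module.Finite k (divs x y V i) := by
  let f : divs x y V i →ₗ[k] V :=
    { toFun := fun w => ⟨(x ^ i) • (w : W), by simpa using w.2 i 0 rfl⟩
      map_add' := by
        intro v w
        apply Subtype.ext
        simp only [Submodule.coe_add, smul_add]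
      map_smul' := by
        intro c w
        apply Subtype.ext
        simp only [Submodule.coe_smul, RingHom.id_apply]
        rw [smul_comm] }
  have hf : Function.Injective f := by
    rw [injective_iff_map_eq_zero]
    intro w hw
    have h1 : (x ^ i) • (w : W) = 0 := congrArg Subtype.val hw
    exact Subtype.ext ((smul_eq_zero.1 h1).resolve_left (pow_ne_zero _ hx))
  exact Module.Finite.of_injective f hf

theorem divs_convex {x y : K} (hx : x ≠ 0) (hy : y ≠ 0) (V : Submodule k W)
    [Module.Finite k V] (i : ℕ) : 2 * finrank k (divs x y V (i + 1)) ≤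
      finrank k (divs x y V (i + 2)) + finrank k (divs x y V i) := by
  have f1 := finite_divs hx y V i
  have f2 := finite_divs hx y V (i + 1)
  have f3 := finite_divs hx y V (i + 2)
  refine pencil_dim (x := x) hy ?_ ?_
  · intro v hv w hw a b hab
    rw [smul_add, smul_smul, smul_smul]
    have e1 : x ^ a * y ^ b * x = x ^ (a + 1) * y ^ b := by ring
    have e2 : x ^ a * y ^ b * y = x ^ a * y ^ (b + 1) := by ring
    rw [e1, e2]
    exact add_mem (hv (a + 1) b (by omega)) (hw a (b + 1) (by omega))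
  · intro z hx' hy' a b hab
    rcases Nat.eq_zero_or_pos a with h0 | h0
    · subst h0
      obtain ⟨b', rfl⟩ : ∃ b', b = b' + 1 := ⟨b - 1, by omega⟩
      have := hy' 0 b' (by omega)
      rw [smul_smul] at this
      have e : x ^ 0 * y ^ b' * y = x ^ 0 * y ^ (b' + 1) := by ring
      rwa [e] at this
    · obtain ⟨a', rfl⟩ : ∃ a', a = a' + 1 := ⟨a - 1, by omega⟩
      have := hx' a' b (by omega)
      rw [smul_smul] at this
      have e : x ^ a' * y ^ b * x = x ^ (a' + 1) * y ^ b := by ring
      rwa [e] at this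

variable [CurveG k K]

theorem divs_top {H : Dv k K} {x y : K} (hp : Pencil H x y) [FiniteDimensional K W]
    {E : VB k K W} {V : Submodule k W} (hV : V ≤ E.H0) :
    2 * (finrank k V : ℤ) ≤ finrank k (divs x y V 1) + (E.twist H).h0 := by
  obtain ⟨f0, -⟩ := finrank_le_h0 hV
  have f1 := finite_divs hp.x_ne y V 1
  have h := pencil_dim (x := x) (A := V) (B := divs x y V 1) (C := (E.twist H).H0) hp.y_ne ?_ ?_
  · unfold VB.h0
    exact_mod_cast h
  · intro v hv w hw
    rw [VB.mem_H0]
    intro P c hc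
    rw [smul_add, smul_smul, smul_smul]
    have hx := mem_line.1 (VB.mem_H0.1 hp.memx P)
    have hy := mem_line.1 (VB.mem_H0.1 hp.memy P)
    have h1 := mul_mem_filt P hc hx
    have h2 := mul_mem_filt P hc hy
    rw [add_neg_cancel] at h1 h2
    exact add_mem (E.smul_mem P _ _ h1 (VB.mem_H0.1 (hV hv) P))
      (E.smul_mem P _ _ h2 (VB.mem_H0.1 (hV hw) P))
  · intro z hx hy a b hab
    rcases Nat.eq_zero_or_pos a with h0 | h0
    · obtain ⟨rfl, rfl⟩ : a = 0 ∧ b = 1 := by omega
      simpa using hy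
    · obtain ⟨rfl, rfl⟩ : a = 1 ∧ b = 0 := by omega
      simpa using hx

/-- The chain. -/
theorem mul_finrank_le {H : Dv k K} {x y : K} (hp : Pencil H x y) [FiniteDimensional K W]
    {E : VB k K W} {V : Submodule k W} (hV : V ≤ E.H0) {j : ℕ}
    (h0 : divs x y V j = ⊥) : (j + 1) * (finrank k V : ℤ) ≤ j * (E.twist H).h0 := by
  obtain ⟨f0, -⟩ := finrank_le_h0 hV
  have h1 := divs_top hp hV
  set F : ℕ → ℤ := fun i => (finrank k (divs x y V i) : ℤ) with hF
  have hF0 : F 0 = finrank k V := by
    show ((finrank k (divs x y V 0) : ℕ) : ℤ) = _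
    rw [divs_zero]
  have hFj : F j = 0 := by
    show ((finrank k (divs x y V j) : ℕ) : ℤ) = _
    rw [h0, finrank_bot]
    rfl
  have hc : ∀ i, 2 * F (i + 1) ≤ F (i + 2) + F i := by
    intro i
    have := divs_convex hp.x_ne hp.y_ne V i
    simp only [hF]
    exact_mod_cast this
  have hd : ∀ i, F i - F (i + 1) ≤ F 0 - F 1 := by
    intro i
    induction i with
    | zero => exact le_rfl
    | succ i ih => have := hc i; linarith
  have hs : ∀ i : ℕ, F 0 - F i ≤ i * (F 0 - F 1) := by
    intro i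
    induction i with
    | zero => simp
    | succ i ih =>
      have := hd i
      push_cast
      linarith
  have h2 := hs j
  rw [hFj, hF0] at h2
  have h3 : (finrank k V : ℤ) - F 1 ≤ (E.twist H).h0 - finrank k V := by
    have e : F 1 = (finrank k (divs x y V 1) : ℤ) := rfl
    rw [e]
    linarith
  have h4 : (j : ℤ) * ((finrank k V : ℤ) - F 1) ≤ j * ((E.twist H).h0 - finrank k V) :=
    mul_le_mul_of_nonneg_left h3 (by positivity)
  linarith

end Pool.Agent.MP_09eaec.GG
end

section

/-!
# No subsystem `(jH, S_j)` in an `α`-stable system of smaller `α`-slope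
-/

set_option autoImplicit false

namespace Pool.Agent.MP_09eaec.GG

open Module

universe u v

variable {k : Type u} {K : Type v} [Field k] [Field K] [Algebra k K]
variable {W : Type v} [AddCommGroup W] [Module K W] [Module k W] [IsScalarTower k K W]

variable [CurveG k K]

/-- The monomials `x^a y^(j-a)` are independent over `k`. -/
theorem mono_indep {H : Dv k K} {x y : K} (hp : Pencil H x y) (j : ℕ) :
    LinearIndependent k (fun a : Fin (j + 1) => x ^ (a : ℕ) * y ^ (j - (a : ℕ))) := by
  classical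
  have := Curve.closed (k := k) (K := K)
  rw [Fintype.linearIndependent_iff]
  intro c hc
  set P : Polynomial k := ∑ a : Fin (j + 1), Polynomial.monomial (a : ℕ) (c a) with hP
  have h1 : Polynomial.aeval (x / y) P = 0 := by
    rw [hP, map_sum]
    have h2 : ∀ a : Fin (j + 1), Polynomial.aeval (x / y) (Polynomial.monomial (a : ℕ) (c a)) =
        (y ^ j)⁻¹ * (c a • (x ^ (a : ℕ) * y ^ (j - (a : ℕ)))) := by
      intro a
      rw [Polynomial.aeval_monomial, Algebra.smul_def]
      have h3 : y ^ j = y ^ (a : ℕ) * y ^ (j - (a : ℕ)) := by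
        rw [← pow_add]
        congr 1
        omega
      rw [h3, div_pow]
      have hy := hp.y_ne
      field_simp
    rw [Finset.sum_congr rfl fun a _ => h2 a, ← Finset.mul_sum, hc, mul_zero]
  have h2 : P = 0 := by
    by_contra hne
    have h3 : ¬ Transcendental k (x / y) := by
      intro ht
      exact ht ⟨P, hne, h1⟩
    obtain ⟨b, hb⟩ := exists_algebraMap_eq h3
    have hli := LinearIndependent.pair_iff.1 hp.li
    have h4 := hli 1 (-b) (by
      have hy := hp.y_ne
      have h5 : x = algebraMap k K b * y := by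
        rw [hb, div_mul_cancel₀ _ hy]
      rw [one_smul, neg_smul, Algebra.smul_def, ← h5, add_neg_cancel])
    exact one_ne_zero h4.1
  intro a
  have h3 : P.coeff (a : ℕ) = c a := by
    rw [hP, Polynomial.finsetSum_coeff, Finset.sum_eq_single a]
    · rw [Polynomial.coeff_monomial, if_pos rfl]
    · intro b _ hb
      rw [Polynomial.coeff_monomial, if_neg]
      exact fun e => hb (Fin.ext e)
    · intro h; exact absurd (Finset.mem_univ a) h
  rw [← h3, h2, Polynomial.coeff_zero]

/-- The vectors of `V_j` are sections of `E(-jH)`. -/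
theorem mem_twist_of_divs {H : Dv k K} {x y : K} (hp : Pencil H x y)
    {E : VB k K W} {V : Submodule k W} (hV : V ≤ E.H0) {j : ℕ} {w : W}
    (hw : w ∈ divs x y V j) : w ∈ (E.twist (-((j : ℤ) • H))).H0 := by
  rw [VB.mem_H0]
  intro P
  rw [VB.mem_twist]
  intro c hc
  have key : ∀ s : K, s ≠ 0 → P.ord s = -H P → (s ^ j) • w ∈ E.M P → c • w ∈ E.M P := by
    intro s hs hsP h1
    have h2 : c / s ^ j ∈ P.filt 0 := by
      have e : P.ord (s ^ j) = -((j : ℤ) • H : Dv k K) P := by
        have h3 := P.ord_zpow hs j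
        rw [zpow_natCast, hsP] at h3
        rw [h3]
        simp
      have h3 := mem_filt_iff_of_ord P (pow_ne_zero j hs) e (x := c / s ^ j) 0
      rw [zero_add] at h3
      apply h3.1
      rw [mul_div_cancel₀ _ (pow_ne_zero j hs)]
      exact hc
    have h3 := E.smul_mem P _ _ h2 h1
    rwa [smul_smul, div_mul_cancel₀ _ (pow_ne_zero j hs)] at h3
  rcases hp.base P with h | h
  · refine key x hp.x_ne h ?_
    have h1 := hw j 0 (by omega)
    rw [pow_zero, mul_one] at h1
    exact VB.mem_H0.1 (hV h1) P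
  · refine key y hp.y_ne h ?_
    have h1 := hw 0 j (by omega)
    rw [pow_zero, one_mul] at h1
    exact VB.mem_H0.1 (hV h1) P

theorem divs_eq_bot {H : Dv k K} {x y : K} (hp : Pencil H x y) [FiniteDimensional K W]
    {E : VB k K W} {V : Submodule k W} (hV : V ≤ E.H0) {α : ℝ} (hα : 0 < α)
    (hn : 2 ≤ finrank K W) (hst : E.StableSys α V) {j : ℕ}
    (hreg : (E.deg : ℝ) + α * finrank k V ≤ finrank K W * (2 * j + α * (j + 1))) :
    divs x y V j = ⊥ := by
  rw [eq_bot_iff]
  intro w hw
  rw [Submodule.mem_bot]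
  by_contra hw0
  obtain ⟨f0, -⟩ := finrank_le_h0 hV
  set J : Submodule K W := Submodule.span K {w} with hJ
  have hr : finrank K J = 1 := finrank_span_singleton hw0
  have hJ1 : J ≠ ⊥ := by
    intro h
    rw [h, finrank_bot] at hr
    omega
  have hJ2 : J ≠ ⊤ := by
    intro h
    rw [h, finrank_top] at hr
    omega
  have hdeg := ddeg_le_sub hw0 (mem_twist_of_divs hp hV hw)
  rw [ddeg_zsmul, hp.deg] at hdeg
  have hvd : j + 1 ≤ vd V J := by
    let f : Fin (j + 1) → ↥(V ⊓ J.restrictScalars k) := fun a =>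
      ⟨(x ^ (a : ℕ) * y ^ (j - (a : ℕ))) • w, hw a (j - a) (by omega),
        J.smul_mem _ (Submodule.mem_span_singleton_self w)⟩
    have hf : LinearIndependent k f := by
      rw [Fintype.linearIndependent_iff]
      intro c hc
      have h1 : (∑ a, c a • (x ^ (a : ℕ) * y ^ (j - (a : ℕ)))) • w = 0 := by
        have h2 := congrArg (fun z : ↥(V ⊓ J.restrictScalars k) => (z : W)) hc
        rw [Finset.sum_smul]
        have h3 : ((∑ a, c a • f a : ↥(V ⊓ J.restrictScalars k)) : W) =
            ∑ a, (c a • (x ^ (a : ℕ) * y ^ (j - (a : ℕ)))) • w := by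
          rw [Submodule.coe_sum]
          refine Finset.sum_congr rfl fun a _ => ?_
          rw [Submodule.coe_smul, smul_assoc]
        rw [← h3]
        exact h2
      have h2 := (smul_eq_zero.1 h1).resolve_right hw0
      exact (Fintype.linearIndependent_iff.1 (mono_indep hp j)) c h2
    have h1 := hf.fintype_card_le_finrank
    rwa [Fintype.card_fin] at h1
  have h1 := hst J hJ1 hJ2
  have hn' : (0 : ℝ) < finrank K W := by exact_mod_cast (by omega : 0 < finrank K W)
  rw [hr, Nat.cast_one, div_one, lt_div_iff₀ hn'] at h1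
  have h2 : (2 * j : ℝ) ≤ (E.sub J).deg := by
    have h3 : (2 * j : ℤ) ≤ (E.sub J).deg := by linarith
    exact_mod_cast h3
  have h3 : ((j : ℝ) + 1) ≤ (finrank k ↥(V ⊓ J.restrictScalars k) : ℝ) := by exact_mod_cast hvd
  have h4 : (2 * j + α * (j + 1)) * finrank K W ≤
      (((E.sub J).deg : ℝ) + α * finrank k ↥(V ⊓ J.restrictScalars k)) * finrank K W := by
    apply mul_le_mul_of_nonneg_right _ hn'.le
    have := mul_le_mul_of_nonneg_left h3 hα.le
    linarith
  linarith

end Pool.Agent.MP_09eaec.GG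
end

section

/-!
# TASK TopStrict: the degree `(2 g - 3) n` is excluded for `(g - 1) n` sections

Suppose `E.deg = (2 g - 3) n`. `E.h0 ≥ k = (g - 1) n` (`finrank_le_h0`), `E.h1 = h0 - deg + (g - 1) n ≥ n` (`VB.rr`), so
`exists_map_van` gives `φ ≠ 0`, `E → line (κ - P)`. `ker_bounds` with `D = κ - P` (`ddeg = 2 g - 3`, `h0 = g - 1` by
`hκ.h0_sub`): `J = ker φ`, `deg J ≥ d - (2 g - 3)`, `vd V J ≥ k - (g - 1)`, rank `n - 1 ≥ 1`. Stability for `J`:
`(d + α k) / n < (2 g - 3) + α (g - 1)`, but both sides are equal.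
-/

set_option autoImplicit false

namespace Pool.Agent.MP_09eaec.GG.G3

open Module

universe u v

variable {k : Type u} {K : Type v} [Field k] [Field K] [Algebra k K]
variable {W : Type v} [AddCommGroup W] [Module K W] [Module k W] [IsScalarTower k K W]
variable {A : Type v} [AddCommGroup A] [Module K A] [Module k A] [IsScalarTower k K A]
variable {B : Type v} [AddCommGroup B] [Module K B] [Module k B] [IsScalarTower k K B]

variable [CurveG k K]

theorem top_strict [FiniteDimensional K W] {E : VB k K W} {V : Submodule k W} (hV : V ≤ E.H0)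
    {α : ℝ} (hα : 0 < α) (hn : 2 ≤ finrank K W) (hst : E.StableSys α V)
    (hk : (finrank k V : ℤ) = (gen k K - 1) * finrank K W) :
    E.deg ≠ (2 * gen k K - 3) * finrank K W := by
  intro hdeg
  obtain ⟨κ, hκ⟩ := exists_canonical (k := k) (K := K)
  have h0 := (finrank_le_h0 hV).2
  have hrr := VB.rr E
  have hnZ : (0 : ℤ) < finrank K W := by exact_mod_cast (by omega : 0 < finrank K W)
  obtain ⟨P, φ, hφ0, hφ⟩ := exists_map_van hκ (E := E) (by omega)
    (by rw [hk] at h0; rw [hdeg] at hrr; nlinarith) (by rw [hdeg]; nlinarith)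
  obtain ⟨b1, b2, b3⟩ := ker_bounds hφ0 hφ
  have b4 := b3 V hV
  rw [hκ.h0_sub] at b4
  have hdd : ddeg (κ - Finsupp.single P 1) = 2 * gen k K - 3 := by
    rw [ddeg_sub, ddeg_single, hκ.ddeg]
    ring
  rw [hdd] at b1
  set J := LinearMap.ker φ with hJdef
  have hJb : J ≠ ⊥ := by
    intro h
    rw [h, finrank_bot] at b2
    omega
  have hJt : J ≠ ⊤ := by
    intro h
    rw [h, finrank_top] at b2
    omega
  have h2 := hst J hJb hJt
  have hnR : (0 : ℝ) < finrank K W := by exact_mod_cast hnZ
  have hJR : (0 : ℝ) < finrank K J := by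
    exact_mod_cast (by omega : 0 < finrank K J)
  rw [div_lt_div_iff₀ hJR hnR] at h2
  have c1 : ((E.deg : ℤ) : ℝ) = (2 * (gen k K : ℝ) - 3) * finrank K W := by
    rw [hdeg]; push_cast; ring
  have c2 : ((finrank k V : ℕ) : ℝ) = ((gen k K : ℝ) - 1) * finrank K W := by
    exact_mod_cast hk
  have c3 : ((finrank K J : ℕ) : ℝ) = finrank K W - 1 := by exact_mod_cast b2
  have c4 : (2 * (gen k K : ℝ) - 3) * (finrank K W - 1) ≤ (E.sub J).deg := by
    have : ((E.deg : ℤ) : ℝ) ≤ (E.sub J).deg + (2 * (gen k K : ℝ) - 3) := by exact_mod_cast b1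
    rw [c1] at this
    linarith
  have c5 : ((gen k K : ℝ) - 1) * (finrank K W - 1) ≤
      (finrank k ↥(V ⊓ J.restrictScalars k) : ℝ) := by
    have : ((finrank k V : ℕ) : ℝ) ≤ (finrank k ↥(V ⊓ J.restrictScalars k) : ℝ) +
        ((gen k K : ℝ) - 1) := by exact_mod_cast b4
    rw [c2] at this
    linarith
  rw [c1, c2, c3] at h2
  have c6 := mul_le_mul_of_nonneg_left c5 hα.le
  have c7 := mul_le_mul_of_nonneg_right (add_le_add c4 c6) hnR.le
  nlinarith

end Pool.Agent.MP_09eaec.GG.G3
end

section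

/-!
# TASK ModStable: elementary modifications of a sum of the bundles `κ - P_i`

`κ` from `exists_canonical`, distinct places `P 0, ..., P (n-1)` and `Q` (`infinite_places`), `D i = κ - single (P i) 1`,
`X = ds D`: all of degree `e = 2 g - 3`, `h0 = g - 1` (`hκ.h0_sub`), so `X.deg = n e`, `X.h0 ≥ n (g - 1)`. For `i ≠ j`
`D i - D j = single (P j) 1 - single (P i) 1` has no sections (`h0_single_sub`).
Let `t ≠ 0` with `Q.ord t = -κ Q - 1` (`exists_ord_eq`).
* `exists_up`: `w0 = fun _ => t`; `exists_oneStep X Q w0`: `E`, degree `n e + 1` (`deg_oneStep`), `X ≤ E`, so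
  `h0 E ≥ h0 X` (`h0_le_of_le` in HE/ModPw). For `J ≠ ⊥, ⊤`: `deg_sub_oneStep`: the degree of `J` goes up by at most one, and if
  it does there is `j ∈ J` with `w0 - j ∈ X.M Q`. If `((ds D).sub J).deg = e rank J` then `ds_coord` gives `I`, `I ≠ univ`, a
  coordinate `i ∉ I` with `j i = 0`, and `w0 i = t` is not in `Q.filt (-D i Q)`. So `(E.sub J).deg ≤ e rank J` in all cases
  and `n (E.sub J).deg ≤ n e rank J < rank J (n e + 1)`.
* `exists_down`: let `s ≠ 0`, `Q.ord s = κ Q`, `φ y = s * ∑ y i`, `x = Pi.single 0 (s⁻¹)`; `exists_down_step`: `E`, degree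
  `n e - 1`, `h0 X ≤ h0 E + 1` (`OneStep.h0_le`). For `J ≠ ⊥, ⊤`: `(E.sub J).deg ≤ (X.sub J).deg ≤ e rank J`. If both are equal:
  `ds_coord`: `I ≠ ∅`, `i ∈ I`, `Pi.single i s⁻¹ ∈ J`, and `E.sub J = X.sub J` (`eq_of_le_of_deg_le`), so `Pi.single i s⁻¹ ∈
  E.M Q` but `φ` of it is `1`. So `(E.sub J).deg ≤ e rank J - 1`, and `n (e rank J - 1) < rank J (n e - 1)` as `rank J < n`.
-/

set_option autoImplicit false

namespace Pool.Agent.MP_09eaec.GG.G3

open Module

universe u v

variable {k : Type u} {K : Type v} [Field k] [Field K] [Algebra k K]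
variable {W : Type v} [AddCommGroup W] [Module K W] [Module k W] [IsScalarTower k K W]
variable {A : Type v} [AddCommGroup A] [Module K A] [Module k A] [IsScalarTower k K A]
variable {B : Type v} [AddCommGroup B] [Module K B] [Module k B] [IsScalarTower k K B]

variable [CurveG k K]

private lemma ModStable_places (n : ℕ) : ∃ (P : Fin n → Place k K) (Q : Place k K),
    Function.Injective P ∧ ∀ i, P i ≠ Q := by
  classical
  have : Infinite (Place k K) := infinite_places
  obtain ⟨f⟩ : Nonempty (Fin (n + 1) ↪ Place k K) :=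
    ⟨(Fin.valEmbedding).trans (Infinite.natEmbedding (Place k K))⟩
  refine ⟨fun i => f i.castSucc, f (Fin.last n), fun i j h => ?_, fun i h => ?_⟩
  · exact Fin.castSucc_injective n (f.injective h)
  · exact (Fin.castSucc_lt_last i).ne (f.injective h)

/-- The data of both constructions. -/
private lemma ModStable_data (hg : 1 ≤ gen k K) (n : ℕ) :
    ∃ (κ : Dv k K) (D : Fin n → Dv k K) (Q : Place k K), (∀ i, D i Q = κ Q) ∧
      (ds D).deg = n * (2 * gen k K - 3) ∧ n * (gen k K - 1) ≤ (ds D).h0 ∧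
      (∀ J : Submodule K (Fin n → K),
        ((ds D).sub J).deg ≤ finrank K J * (2 * gen k K - 3)) ∧
      (∀ J : Submodule K (Fin n → K), ((ds D).sub J).deg = finrank K J * (2 * gen k K - 3) →
        ∃ I : Finset (Fin n), ∀ x, x ∈ J ↔ ∀ i, i ∉ I → x i = 0) := by
  classical
  obtain ⟨κ, hκ⟩ := exists_canonical (k := k) (K := K)
  obtain ⟨P, Q, hP, hQ⟩ := ModStable_places (k := k) (K := K) n
  have he : ∀ i, ddeg (κ - Finsupp.single (P i) 1) = 2 * gen k K - 3 := by
    intro i
    rw [ddeg_sub, ddeg_single, hκ.ddeg]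
    ring
  refine ⟨κ, fun i => κ - Finsupp.single (P i) 1, Q, ?_, ?_, ?_, ?_, ?_⟩
  · intro i
    rw [Finsupp.sub_apply, Finsupp.single_eq_of_ne (hQ i).symm, sub_zero]
  · rw [deg_ds, Finset.sum_congr rfl fun i _ => he i, Finset.sum_const, Finset.card_univ,
      Fintype.card_fin, nsmul_eq_mul]
  · refine le_trans ?_ (le_h0_ds _)
    rw [Finset.sum_congr rfl fun i _ => hκ.h0_sub (P i), Finset.sum_const, Finset.card_univ,
      Fintype.card_fin, nsmul_eq_mul]
  · intro J
    exact ds_sub_le he J
  · intro J hJ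
    refine ds_coord he ?_ hJ
    intro i j hij
    have h1 : (κ - Finsupp.single (P i) 1 - (κ - Finsupp.single (P j) 1) : Dv k K) =
        Finsupp.single (P j) 1 - Finsupp.single (P i) 1 := by abel
    rw [h1]
    exact h0_single_sub hg fun h => hij (hP h).symm

theorem exists_up (hg : 1 ≤ gen k K) {n : ℕ} (hn : 1 ≤ n) : ∃ E : VB k K (Fin n → K), E.Stable ∧
    E.deg = n * (2 * gen k K - 3) + 1 ∧ n * (gen k K - 1) ≤ E.h0 := by
  classical
  obtain ⟨κ, D, Q, hD, hdeg, hh0, hle, hco⟩ := ModStable_data (k := k) (K := K) hg n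
  obtain ⟨t, ht, htm⟩ := exists_ord_eq Q (-κ Q - 1)
  have hnot : t ∉ Q.filt (-κ Q) := by
    rintro (h | h)
    · exact ht h
    · omega
  obtain ⟨E, hE⟩ := VB.exists_oneStep (ds D) Q (fun _ => t)
    (by
      intro c hc
      rw [mem_ds]
      intro i
      have h1 : (c • (fun _ => t : Fin n → K)) i = c * t := rfl
      rw [h1, hD i]
      have h2 := mul_mem_filt Q hc (Or.inr htm.ge : t ∈ Q.filt (-κ Q - 1))
      exact filt_mono Q (by omega) h2)
    (by
      rw [mem_ds]
      intro h
      have h1 := h ⟨0, hn⟩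
      rw [hD] at h1
      exact hnot h1)
  have hEd : E.deg = n * (2 * gen k K - 3) + 1 := by rw [VB.deg_oneStep hE, hdeg]
  refine ⟨E, ?_, hEd, hh0.trans (h0_le_of_le hE.le)⟩
  intro J hJ hJ'
  have hr : 1 ≤ finrank K J := by
    rw [Nat.one_le_iff_ne_zero]
    intro h
    exact hJ (Submodule.finrank_eq_zero.1 h)
  have key : (E.sub J).deg ≤ finrank K J * (2 * gen k K - 3) := by
    have h1 := hle J
    rcases VB.deg_sub_oneStep hE J with h2 | ⟨h2, j, hj, hj'⟩
    · rw [h2]; exact h1
    · by_contra hcon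
      have h3 : ((ds D).sub J).deg = finrank K J * (2 * gen k K - 3) := by omega
      obtain ⟨I, hI⟩ := hco J h3
      have h4 : ∃ i, i ∉ I := by
        by_contra hno
        push Not at hno
        apply hJ'
        rw [eq_top_iff]
        intro x _
        rw [hI]
        intro i hi
        exact absurd (hno i) hi
      obtain ⟨i, hi⟩ := h4
      have h5 := (hI j).1 hj i hi
      have h6 := mem_ds.1 hj' i
      rw [Pi.sub_apply, h5, sub_zero, hD] at h6
      exact hnot h6
  rw [hEd, Module.finrank_fin_fun]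
  have h7 : (n : ℤ) * (E.sub J).deg ≤ n * (finrank K J * (2 * gen k K - 3)) :=
    mul_le_mul_of_nonneg_left key (by positivity)
  have h8 : (1 : ℤ) ≤ finrank K J := by exact_mod_cast hr
  calc (n : ℤ) * (E.sub J).deg ≤ n * (finrank K J * (2 * gen k K - 3)) := h7
    _ < n * (finrank K J * (2 * gen k K - 3)) + finrank K J := by linarith
    _ = finrank K J * (n * (2 * gen k K - 3) + 1) := by ring

theorem exists_down (hg : 1 ≤ gen k K) {n : ℕ} (hn : 1 ≤ n) : ∃ E : VB k K (Fin n → K), E.Stable ∧
    E.deg = n * (2 * gen k K - 3) - 1 ∧ n * (gen k K - 1) - 1 ≤ E.h0 := by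
  classical
  obtain ⟨κ, D, Q, hD, hdeg, hh0, hle, hco⟩ := ModStable_data (k := k) (K := K) hg n
  obtain ⟨s, hs, hsm⟩ := exists_ord_eq Q (κ Q)
  have hinv : s⁻¹ ∈ Q.filt (-κ Q) := Or.inr (by rw [Q.ord_inv, hsm])
  have hone : (1 : K) ∉ Q.filt 1 := by
    rintro (h | h)
    · exact one_ne_zero h
    · rw [Q.ord_one] at h
      omega
  let φ : (Fin n → K) →ₗ[K] K := s • ∑ i, LinearMap.proj i
  have hφ : ∀ y, φ y = s * ∑ i, y i := by
    intro y
    simp [φ]
  have hφs : ∀ i, φ (Pi.single i s⁻¹) = 1 := by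
    intro i
    rw [hφ, Finset.sum_pi_single']
    simp [hs]
  have hmem : ∀ i, (Pi.single i s⁻¹ : Fin n → K) ∈ (ds D).M Q := by
    intro i
    rw [mem_ds]
    intro j
    rw [hD]
    by_cases hij : j = i
    · subst hij
      rw [Pi.single_eq_same]
      exact hinv
    · rw [Pi.single_eq_of_ne hij]
      exact zero_mem _
  obtain ⟨E, hE, hEQ⟩ := exists_down_step (ds D) Q φ
    (by
      intro y hy
      rw [mem_ds] at hy
      rw [hφ]
      have h1 : ∑ i, y i ∈ Q.filt (-κ Q) := by
        refine Submodule.sum_mem _ fun i _ => ?_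
        have := hy i
        rwa [hD] at this
      have h2 := mul_mem_filt Q (Or.inr hsm.ge : s ∈ Q.filt (κ Q)) h1
      rwa [add_neg_cancel] at h2)
    (hmem ⟨0, hn⟩)
    (by rw [hφs]; exact hone)
  have hEd : E.deg = n * (2 * gen k K - 3) - 1 := by
    have h1 := VB.deg_oneStep hE
    rw [hdeg] at h1
    omega
  have hEh := hE.h0_le
  refine ⟨E, ?_, hEd, by omega⟩
  intro J hJ hJ'
  have hr : finrank K J < n := by
    have := Submodule.finrank_lt hJ'
    rwa [Module.finrank_fin_fun] at this
  have hsub : E.sub J ≤ (ds D).sub J := fun P x hx => hE.le P hx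
  have key : (E.sub J).deg ≤ finrank K J * (2 * gen k K - 3) - 1 := by
    have h1 := hle J
    have h2 := VB.deg_le_of_le hsub
    by_contra hcon
    have h3 : ((ds D).sub J).deg = finrank K J * (2 * gen k K - 3) := by omega
    have h4 := VB.eq_of_le_of_deg_le hsub (by omega)
    obtain ⟨I, hI⟩ := hco J h3
    have h5 : ∃ i, i ∈ I := by
      by_contra hno
      push Not at hno
      apply hJ
      rw [eq_bot_iff]
      intro x hx
      rw [Submodule.mem_bot]
      funext i
      exact (hI x).1 hx i (hno i)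
    obtain ⟨i, hi⟩ := h5
    have h6 : (Pi.single i s⁻¹ : Fin n → K) ∈ J := by
      rw [hI]
      intro j hj
      rw [Pi.single_eq_of_ne]
      rintro rfl
      exact hj hi
    have h7 : (⟨Pi.single i s⁻¹, h6⟩ : J) ∈ ((ds D).sub J).M Q := hmem i
    rw [← h4] at h7
    have h8 : (Pi.single i s⁻¹ : Fin n → K) ∈ E.M Q := h7
    have h9 := ((hEQ _).1 h8).2
    rw [hφs] at h9
    exact hone h9
  rw [hEd, Module.finrank_fin_fun]
  have h7 : (n : ℤ) * (E.sub J).deg ≤ n * (finrank K J * (2 * gen k K - 3) - 1) :=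
    mul_le_mul_of_nonneg_left key (by positivity)
  have h8 : (finrank K J : ℤ) < n := by exact_mod_cast hr
  calc (n : ℤ) * (E.sub J).deg ≤ n * (finrank K J * (2 * gen k K - 3) - 1) := h7
    _ = n * (finrank K J * (2 * gen k K - 3)) - n := by ring
    _ < n * (finrank K J * (2 * gen k K - 3)) - finrank K J := by linarith
    _ = finrank K J * (n * (2 * gen k K - 3) - 1) := by ring

end Pool.Agent.MP_09eaec.GG.G3
end
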