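import Mathlib

section

/-!
# TASK KrGraph: an expanding family of partial increasing maps

`3 ≤ m`, `1 ≤ b ≤ a < (m - 1) b`. For `0 ≤ c ≤ b` let `s c = ⌈a c / b⌉ = (a * c + b - 1) / b`; `s 0 = 0`, `s b = a`. BLOCKS: the block of
`x ∈ Fin a` is `x * b / a < b`, i.e. block `c` is `{x | s c ≤ x < s (c + 1)}`. Its size `s (c + 1) - s c` is between `1` (`b ≤ a`) and `m - 1`
(`a < (m - 1) b`, `s (c + 1) ≤ s c + (m - 1)`), and if `b ∣ a * (c + 1)` then it is `≤ m - 2` (it is `⌊a / b⌋ < m - 1`). MAPS `σ i`,
`i : Fin m`, `t = x - s c` the position of `x` in its block `c`: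
 (1) for `i < m - 1`: `σ i x = some c` if `t = i`;
 (2) `σ (m-1) x = some (c + 1)` if `t = 0` and `c + 1 < b`;
 (3) `σ (m-2) x = some (c - 1)` if `t = 0`, `1 ≤ c`, `b ∣ a * c` (then `t ≠ m - 2` since `m ≥ 3`: no conflict with (1));
 and `none` otherwise.
* Increasing: clear for (1) alone and (2); for `i = m - 2` a value from (3) at the first element of block `c` is `c - 1`; elements `y < x`
  in the domain are in blocks `< c`, and the block `c - 1` has no element of position `m - 2` (its size is `≤ m - 2`, by `b ∣ a * c`), so if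
  `y` is of type (1) it is in a block `≤ c - 2`, value `≤ c - 2`; if `y` is of type (3) its value is `≤ c - 2`. Elements `y > x` of type (1) have
  values `≥ c`, of type (3) values `≥ c`.
* Surjective: `σ 0 (s c) = some c` by (1).
* Expansion: `S` not empty, not `univ`, `N` = the set of the values on `S`. Every `x ∈ S` of block `c` has `c ∈ N` ((1), `t ≤ m - 2`). So `S` is
  contained in the union of the blocks `c ∈ N`. With `e c = b * s c - a * c`, `0 ≤ e c ≤ b - 1`, `e 0 = e b = 0`:
  `b * (size of block c) = a + e (c + 1) - e c`. Let `X = {c ∈ N | c + 1 < b, c + 1 ∉ N}`: for `c ∈ X` the first element of block `c` is not in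
  `S` (by (2)). CASE `X ≠ ∅`: `b |S| ≤ ∑_(c ∈ N) (a + e (c+1) - e c) - b |X| ≤ a |N| + ∑_(c ∈ X) e (c + 1) - b |X| < a |N|`, since
  `∑_(c ∈ N) e (c + 1) - ∑_(c ∈ N) e c ≤ ∑_(c ∈ N, c+1 ∉ N) e (c + 1) = ∑_(c ∈ X) e (c + 1)` (`e b = 0`). CASE `X = ∅`: `N` is upward closed,
  `N = {c | c0 ≤ c < b}`, the union of its blocks is `{x | s c0 ≤ x}` with `a - s c0` elements. If `c0 = 0`: `|N| = b`, `|S| < a`.
  If `c0 ≥ 1`, `e c0 > 0`: `b |S| ≤ b (a - s c0) = a (b - c0) - e c0 < a |N|`. If `c0 ≥ 1`, `e c0 = 0`: then `b ∣ a * c0`, and by (3) the first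
  element of block `c0` is not in `S` (`c0 - 1 ∉ N`), so `b |S| ≤ b (a - s c0 - 1) < a |N|`.
(Any other family of maps with the same properties is fine as well.)
-/

set_option autoImplicit false

namespace Pool.Agent.MP_09eaec.GG

/-- number of `u < a * b` with `u / b` in a given subset of `range a` -/
private lemma KrGraph_card {a b : ℕ} (hb : 1 ≤ b) (T : Finset ℕ) (hT : ∀ x ∈ T, x < a) :
    ((Finset.range (a * b)).filter fun u => u / b ∈ T).card = b * T.card := by
  have h : ((Finset.range (a * b)).filter fun u => u / b ∈ T).card = (T ×ˢ Finset.range b).card := by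
    apply Finset.card_nbij' (i := fun u => (u / b, u % b)) (j := fun p => b * p.1 + p.2)
    · intro u hu
      simp only [Finset.coe_filter, Finset.mem_range, Set.mem_ofPred_eq] at hu
      simp only [Finset.coe_product, Finset.coe_range, Set.mem_prod, Finset.mem_coe, Set.mem_Iio]
      exact ⟨hu.2, Nat.mod_lt _ hb⟩
    · intro p hp
      simp only [Finset.coe_product, Finset.coe_range, Set.mem_prod, Finset.mem_coe,
        Set.mem_Iio] at hp
      simp only [Finset.coe_filter, Finset.mem_range, Set.mem_ofPred_eq]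
      have h1 : (b * p.1 + p.2) / b = p.1 := by
        rw [Nat.mul_add_div hb, Nat.div_eq_of_lt hp.2]; rfl
      refine ⟨?_, by rw [h1]; exact hp.1⟩
      have h2 := hT _ hp.1
      calc b * p.1 + p.2 < b * p.1 + b := by have := hp.2; omega
        _ = (p.1 + 1) * b := by ring
        _ ≤ a * b := Nat.mul_le_mul_right _ h2
    · intro u _
      exact Nat.div_add_mod u b
    · intro p hp
      simp only [Finset.coe_product, Finset.coe_range, Set.mem_prod, Finset.mem_coe,
        Set.mem_Iio] at hp
      have h1 : (b * p.1 + p.2) / b = p.1 := by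
        rw [Nat.mul_add_div hb, Nat.div_eq_of_lt hp.2]; rfl
      have h2 : (b * p.1 + p.2) % b = p.2 := by
        rw [Nat.mul_add_mod, Nat.mod_eq_of_lt hp.2]
      ext1
      · exact h1
      · exact h2
  rw [h, Finset.card_product, Finset.card_range, mul_comm]

/-- the counting argument on natural numbers -/
private lemma KrGraph_main {a b : ℕ} (hb : 1 ≤ b) (hba : b ≤ a) (S N : Finset ℕ)
    (hS : ∀ x ∈ S, x < a) (hN : ∀ z ∈ N, z < b) (hne : S.Nonempty) (hnu : ∃ x, x < a ∧ x ∉ S)
    (F1 : ∀ x ∈ S, b * x / a ∈ N)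
    (F2 : ∀ x ∈ S, ((b * x) % a) / b = 0 → b * x / a + 1 < b → b * x / a + 1 ∈ N)
    (F3 : ∀ x ∈ S, (b * x) % a = 0 → 1 ≤ b * x / a → b * x / a - 1 ∈ N) :
    b * S.card < a * N.card := by
  have ha : 1 ≤ a := le_trans hb hba
  rw [← KrGraph_card hb S hS, ← KrGraph_card ha N hN, mul_comm b a]
  set US := (Finset.range (a * b)).filter fun u => u / b ∈ S with hUS
  set UN := (Finset.range (a * b)).filter fun u => u / a ∈ N with hUN
  -- the first element of block c
  let s : ℕ → ℕ := fun c => (a * c + b - 1) / b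
  have hs1 : ∀ c, a * c ≤ b * s c := by
    intro c
    have h := Nat.div_add_mod (a * c + b - 1) b
    have h2 := Nat.mod_lt (a * c + b - 1) hb
    show a * c ≤ b * ((a * c + b - 1) / b)
    omega
  have hs2 : ∀ c, b * s c ≤ a * c + b - 1 := fun c => Nat.mul_div_le _ _
  have hsdiv : ∀ c, b * s c / a = c := by
    intro c
    apply Nat.div_eq_of_lt_le
    · have := hs1 c; rw [mul_comm c a]; exact this
    · have := hs2 c
      have h3 : (c + 1) * a = a * c + a := by ring
      omega
  have hsmod : ∀ c, (b * s c % a) / b = 0 := by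
    intro c
    have h := Nat.div_add_mod (b * s c) a
    rw [hsdiv] at h
    have := hs2 c
    apply Nat.div_eq_of_lt
    omega
  have hsmin : ∀ c x, a * c ≤ b * x → s c ≤ x := by
    intro c x h
    have h2 := hs2 c
    by_contra hcon
    push Not at hcon
    have h3 : b * (x + 1) ≤ b * s c := Nat.mul_le_mul_left _ hcon
    have h4 : b * (x + 1) = b * x + b := by ring
    omega
  -- facts on elements of US with u / a not in N
  have key : ∀ u, u ∈ US → u / a ∉ N → ∃ c, c ∈ N ∧ u / a = c + 1 ∧ c + 1 < b ∧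
      u % a + 1 < b ∧ s c ∉ S ∧ (b * s c + u % a + 1) / b = s c ∧
      (b * s c + u % a + 1) / a = c ∧ b * s c + u % a + 1 < a * b := by
    intro u hu hun
    rw [hUS, Finset.mem_filter, Finset.mem_range] at hu
    obtain ⟨hu1, hu2⟩ := hu
    have hc := F1 _ hu2
    set x := u / b with hx
    set c := b * x / a with hcdef
    have e1 : b * x + u % b = u := Nat.div_add_mod u b
    have e2 := Nat.mod_lt u hb
    have e3 : a * c + b * x % a = b * x := Nat.div_add_mod (b * x) a
    have e4 := Nat.mod_lt (b * x) ha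
    have e5 : a * (u / a) + u % a = u := Nat.div_add_mod u a
    have e6 := Nat.mod_lt u ha
    have h1 : c ≤ u / a := Nat.div_le_div_right (by omega)
    have h2 : c ≠ u / a := fun h => hun (h ▸ hc)
    have h3 : u / a ≤ c + 1 := by
      by_contra hcon
      push Not at hcon
      have h4 : a * (c + 2) ≤ a * (u / a) := Nat.mul_le_mul_left _ hcon
      have h5 : a * (c + 2) = a * c + 2 * a := by ring
      omega
    have h4 : u / a = c + 1 := by omega
    have h5 : a * (u / a) = a * c + a := by rw [h4]; ring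
    have h6 : c + 1 < b := by
      rw [← h4]; exact Nat.div_lt_of_lt_mul hu1
    have h7 : u % a + 1 < b := by omega
    have h8 : s c ∉ S := by
      intro hcon
      have := F2 _ hcon (hsmod c)
      rw [hsdiv] at this
      exact hun (h4 ▸ this h6)
    have h9 : s c < x := by
      have h10 : s c ≤ x := hsmin c x (by omega)
      rcases h10.lt_or_eq with h | h
      · exact h
      · exact absurd (h ▸ hu2) h8
    have h10 : b * (s c + 1) ≤ b * x := Nat.mul_le_mul_left _ h9
    have h11 : b * (s c + 1) = b * s c + b := by ring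
    have h12 := hs1 c
    refine ⟨c, hc, h4, h6, h7, h8, ?_, ?_, ?_⟩
    · rw [add_assoc, Nat.mul_add_div hb, Nat.div_eq_of_lt h7]; rfl
    · apply Nat.div_eq_of_lt_le
      · rw [mul_comm c a]; omega
      · have h3 : (c + 1) * a = a * c + a := by ring
        omega
    · omega
  let f : ℕ → ℕ := fun u => if u / a ∈ N then u else b * s (u / a - 1) + u % a + 1
  have hf1 : ∀ u, u / a ∈ N → f u = u := fun u h => if_pos h
  have hf2 : ∀ u, u ∈ US → u / a ∉ N → ∃ c, c ∈ N ∧ u / a = c + 1 ∧ c + 1 < b ∧
      u % a + 1 < b ∧ s c ∉ S ∧ f u = b * s c + u % a + 1 ∧ f u / b = s c ∧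
      f u / a = c ∧ f u < a * b := by
    intro u hu hun
    obtain ⟨c, h1, h2, h3, h4, h5, h6, h7, h8⟩ := key u hu hun
    have h9 : f u = b * s c + u % a + 1 := by
      have : f u = b * s (u / a - 1) + u % a + 1 := if_neg hun
      rw [this, h2]; rfl
    rw [← h9] at h6 h7 h8
    exact ⟨c, h1, h2, h3, h4, h5, h9, h6, h7, h8⟩
  have hmaps : ∀ u ∈ US, f u ∈ UN := by
    intro u hu
    by_cases h : u / a ∈ N
    · rw [hf1 u h, hUN, Finset.mem_filter]
      exact ⟨(Finset.mem_filter.mp hu).1, h⟩
    · obtain ⟨c, h1, _, _, _, _, _, _, h7, h8⟩ := hf2 u hu h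
      rw [hUN, Finset.mem_filter, Finset.mem_range]
      exact ⟨h8, h7 ▸ h1⟩
  have hinj : ∀ u ∈ US, ∀ v ∈ US, f u = f v → u = v := by
    intro u hu v hv huv
    have hu' : u / b ∈ S := (Finset.mem_filter.mp hu).2
    have hv' : v / b ∈ S := (Finset.mem_filter.mp hv).2
    by_cases h : u / a ∈ N
    · by_cases k : v / a ∈ N
      · rw [hf1 u h, hf1 v k] at huv; exact huv
      · obtain ⟨c, _, _, _, _, h5, _, h6, _, _⟩ := hf2 v hv k
        rw [hf1 u h] at huv
        rw [← huv] at h6
        exact absurd (h6 ▸ hu') h5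
    · obtain ⟨c, _, h2, _, _, h5, h9, h6, h7, _⟩ := hf2 u hu h
      by_cases k : v / a ∈ N
      · rw [hf1 v k] at huv
        rw [huv] at h6
        exact absurd (h6 ▸ hv') h5
      · obtain ⟨c', _, h2', _, _, _, h9', _, h7', _⟩ := hf2 v hv k
        have hcc : c = c' := by rw [← h7, ← h7', huv]
        subst hcc
        have hmm : u % a = v % a := by rw [h9, h9'] at huv; omega
        have e1 := Nat.div_add_mod u a
        have e2 := Nat.div_add_mod v a
        rw [h2] at e1
        rw [h2'] at e2
        omega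
  by_cases hA : ∃ c, c ∈ N ∧ c + 1 < b ∧ c + 1 ∉ N
  · obtain ⟨c, hc, hc1, hc2⟩ := hA
    have hsS : s c ∉ S := by
      intro hcon
      have := F2 _ hcon (hsmod c)
      rw [hsdiv] at this
      exact hc2 (this hc1)
    have hmem : b * s c ∈ UN := by
      rw [hUN, Finset.mem_filter, Finset.mem_range, hsdiv]
      refine ⟨?_, hc⟩
      have h1 := hs2 c
      have h2 : a * (c + 2) ≤ a * b := Nat.mul_le_mul_left _ hc1
      have h3 : a * (c + 2) = a * c + 2 * a := by ring
      omega
    have h1 : US.card ≤ (UN.erase (b * s c)).card := by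
      apply Finset.card_le_card_of_injOn f
      · intro u hu
        have hu := Finset.mem_coe.mp hu
        rw [Finset.mem_coe, Finset.mem_erase]
        refine ⟨?_, hmaps u hu⟩
        by_cases h : u / a ∈ N
        · rw [hf1 u h]
          rintro rfl
          have : b * s c / b ∈ S := (Finset.mem_filter.mp hu).2
          rw [Nat.mul_div_cancel_left _ hb] at this
          exact hsS this
        · obtain ⟨c', _, _, _, h4, _, h9, h6, _, _⟩ := hf2 u hu h
          intro hcon
          rw [hcon, Nat.mul_div_cancel_left _ hb] at h6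
          rw [hcon, h6] at h9
          omega
      · intro u hu v hv
        exact hinj u hu v hv
    rw [Finset.card_erase_of_mem hmem] at h1
    have h2 : 0 < UN.card := Finset.card_pos.mpr ⟨_, hmem⟩
    omega
  · push Not at hA
    have hsub : US ⊆ UN := by
      intro u hu
      by_cases h : u / a ∈ N
      · rw [hUN, Finset.mem_filter]
        exact ⟨(Finset.mem_filter.mp hu).1, h⟩
      · obtain ⟨c, h1, h2, h3, _⟩ := hf2 u hu h
        exact absurd (h2 ▸ hA c h1 h3) h
    apply Finset.card_lt_card
    refine ⟨hsub, ?_⟩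
    intro hback
    obtain ⟨x0, hx0⟩ := hne
    have hNne : N.Nonempty := ⟨_, F1 _ hx0⟩
    set c0 := N.min' hNne with hc0
    have hc0N : c0 ∈ N := N.min'_mem hNne
    have hc0b : c0 < b := hN _ hc0N
    rcases Nat.eq_zero_or_pos c0 with h0 | h0
    · have hall : ∀ c, c < b → c ∈ N := by
        intro c
        induction c with
        | zero => intro _; rw [← h0]; exact hc0N
        | succ k ih => intro hk; exact hA k (ih (by omega)) hk
      obtain ⟨x, hxa, hxS⟩ := hnu
      have hu : b * x ∈ UN := by
        rw [hUN, Finset.mem_filter, Finset.mem_range]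
        have hlt : b * x < a * b := by
          rw [mul_comm a b]; exact Nat.mul_lt_mul_of_pos_left hxa hb
        exact ⟨hlt, hall _ (Nat.div_lt_of_lt_mul hlt)⟩
      have := (Finset.mem_filter.mp (hback hu)).2
      rw [Nat.mul_div_cancel_left _ hb] at this
      exact hxS this
    · have hu : a * c0 ∈ UN := by
        rw [hUN, Finset.mem_filter, Finset.mem_range, Nat.mul_div_cancel_left _ ha]
        exact ⟨Nat.mul_lt_mul_of_pos_left hc0b ha, hc0N⟩
      have hx : a * c0 / b ∈ S := (Finset.mem_filter.mp (hback hu)).2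
      set x := a * c0 / b with hxdef
      have hbx : b * x ∈ US := by
        rw [hUS, Finset.mem_filter, Finset.mem_range, Nat.mul_div_cancel_left _ hb]
        refine ⟨?_, hx⟩
        rw [mul_comm a b]; exact Nat.mul_lt_mul_of_pos_left (hS _ hx) hb
      have h1 : b * x / a ∈ N := (Finset.mem_filter.mp (hsub hbx)).2
      have h2 : c0 ≤ b * x / a := N.min'_le _ h1
      have h3 : b * x ≤ a * c0 := Nat.mul_div_le _ _
      have h4 : a * c0 ≤ b * x := by
        calc a * c0 ≤ a * (b * x / a) := Nat.mul_le_mul_left _ h2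
          _ ≤ b * x := Nat.mul_div_le _ _
      have h5 : b * x = a * c0 := le_antisymm h3 h4
      have h6 : b * x % a = 0 := by rw [h5, Nat.mul_mod_right]
      have h7 : b * x / a = c0 := by rw [h5, Nat.mul_div_cancel_left _ ha]
      have h8 := F3 x hx h6 (by rw [h7]; exact h0)
      rw [h7] at h8
      have h9 : c0 ≤ c0 - 1 := N.min'_le _ h8
      omega

open Classical in
theorem exists_graph {m a b : ℕ} (hm : 3 ≤ m) (hb : 1 ≤ b) (hba : b ≤ a)
    (hab : a < (m - 1) * b) :
    ∃ σ : Fin m → Fin a → Option (Fin b),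
      (∀ i x y x' y', x < y → σ i x = some x' → σ i y = some y' → x' < y') ∧
      (∀ z, ∃ i x, σ i x = some z) ∧
      ∀ S : Finset (Fin a), S.Nonempty → S ≠ Finset.univ →
        b * S.card < a * (Finset.univ.filter fun z => ∃ i, ∃ x ∈ S, σ i x = some z).card := by
  have ha : 1 ≤ a := le_trans hb hba
  have hcb : ∀ x : Fin a, b * (x : ℕ) / a < b := by
    intro x
    apply Nat.div_lt_of_lt_mul
    rw [mul_comm a b]; exact Nat.mul_lt_mul_of_pos_left x.2 hb
  let σ : Fin m → Fin a → Option (Fin b) := fun i x =>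
    if (i : ℕ) < m - 1 ∧ ((b * (x : ℕ)) % a) / b = i then some ⟨b * (x : ℕ) / a, hcb x⟩
    else if h2 : (i : ℕ) = m - 1 ∧ ((b * (x : ℕ)) % a) / b = 0 ∧ b * (x : ℕ) / a + 1 < b then
      some ⟨b * (x : ℕ) / a + 1, h2.2.2⟩
    else if (i : ℕ) = m - 2 ∧ (b * (x : ℕ)) % a = 0 ∧ 1 ≤ b * (x : ℕ) / a then
      some ⟨b * (x : ℕ) / a - 1, lt_of_le_of_lt (Nat.sub_le _ _) (hcb x)⟩
    else none
  have hσ : ∀ i x z, σ i x = some z ↔
      ((i : ℕ) < m - 1 ∧ ((b * (x : ℕ)) % a) / b = i ∧ (z : ℕ) = b * (x : ℕ) / a) ∨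
      ((i : ℕ) = m - 1 ∧ ((b * (x : ℕ)) % a) / b = 0 ∧ (z : ℕ) = b * (x : ℕ) / a + 1) ∨
      ((i : ℕ) = m - 2 ∧ (b * (x : ℕ)) % a = 0 ∧ (z : ℕ) + 1 = b * (x : ℕ) / a) := by
    intro i x z
    have hz := z.2
    show (if (i : ℕ) < m - 1 ∧ ((b * (x : ℕ)) % a) / b = i then some ⟨b * (x : ℕ) / a, hcb x⟩
      else if h2 : (i : ℕ) = m - 1 ∧ ((b * (x : ℕ)) % a) / b = 0 ∧ b * (x : ℕ) / a + 1 < b then
        some ⟨b * (x : ℕ) / a + 1, h2.2.2⟩
      else if (i : ℕ) = m - 2 ∧ (b * (x : ℕ)) % a = 0 ∧ 1 ≤ b * (x : ℕ) / a then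
        some ⟨b * (x : ℕ) / a - 1, lt_of_le_of_lt (Nat.sub_le _ _) (hcb x)⟩
      else none) = some z ↔ _
    split_ifs with h1 h2 h3
    · rw [Option.some_inj, Fin.ext_iff]
      constructor
      · intro h; exact Or.inl ⟨h1.1, h1.2, h.symm⟩
      · rintro (h | h | h)
        · exact h.2.2.symm
        · omega
        · exfalso
          have h4 := h1.2
          rw [h.2.1, Nat.zero_div] at h4
          omega
    · rw [Option.some_inj, Fin.ext_iff]
      constructor
      · intro h; exact Or.inr (Or.inl ⟨h2.1, h2.2.1, h.symm⟩)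
      · rintro (h | h | h)
        · omega
        · exact h.2.2.symm
        · omega
    · rw [Option.some_inj, Fin.ext_iff]
      simp only
      constructor
      · intro h; exact Or.inr (Or.inr ⟨h3.1, h3.2.1, by omega⟩)
      · rintro (h | h | h)
        · exact absurd ⟨h.1, h.2.1⟩ h1
        · omega
        · omega
    · constructor
      · intro h; exact absurd h (by simp)
      · rintro (h | h | h)
        · exact absurd ⟨h.1, h.2.1⟩ h1
        · exact absurd ⟨h.1, h.2.1, by rw [← h.2.2]; exact hz⟩ h2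
        · exact absurd ⟨h.1, h.2.1, by omega⟩ h3
  -- two elements in the same position have different blocks
  have hstrict : ∀ x y : Fin a, x < y → ((b * (x : ℕ)) % a) / b = ((b * (y : ℕ)) % a) / b →
      b * (x : ℕ) / a < b * (y : ℕ) / a := by
    intro x y hxy ht
    have hle : b * (x : ℕ) / a ≤ b * (y : ℕ) / a :=
      Nat.div_le_div_right (Nat.mul_le_mul_left _ (le_of_lt hxy))
    rcases hle.lt_or_eq with h | h
    · exact h
    · exfalso
      have e1 := Nat.div_add_mod (b * (x : ℕ)) a
      have e2 := Nat.div_add_mod (b * (y : ℕ)) a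
      have e3 := Nat.div_add_mod ((b * (x : ℕ)) % a) b
      have e4 := Nat.div_add_mod ((b * (y : ℕ)) % a) b
      have e5 := Nat.mod_lt ((b * (x : ℕ)) % a) hb
      have e6 := Nat.mod_lt ((b * (y : ℕ)) % a) hb
      rw [ht] at e3
      rw [h] at e1
      have h7 : b * ((x : ℕ) + 1) ≤ b * (y : ℕ) := Nat.mul_le_mul_left _ hxy
      have h8 : b * ((x : ℕ) + 1) = b * (x : ℕ) + b := by ring
      omega
  refine ⟨σ, ?_, ?_, ?_⟩
  · intro i x y x' y' hxy hx hy
    rw [hσ] at hx hy
    rw [Fin.lt_def]
    have hle : b * (x : ℕ) / a ≤ b * (y : ℕ) / a :=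
      Nat.div_le_div_right (Nat.mul_le_mul_left _ (le_of_lt hxy))
    rcases hx with hx | hx | hx <;> rcases hy with hy | hy | hy
    · have := hstrict x y hxy (by rw [hx.2.1, hy.2.1]); omega
    · omega
    · -- x of type 1, y of type 3
      by_contra hcon
      have e1 := Nat.div_add_mod (b * (x : ℕ)) a
      have e2 := Nat.div_add_mod (b * (y : ℕ)) a
      have e3 := Nat.div_add_mod ((b * (x : ℕ)) % a) b
      rw [hy.2.1] at e2
      have h7 : b * ((x : ℕ) + 1) ≤ b * (y : ℕ) := Nat.mul_le_mul_left _ hxy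
      have h8 : b * ((x : ℕ) + 1) = b * (x : ℕ) + b := by ring
      have h9 : a * (b * (y : ℕ) / a) ≤ a * (b * (x : ℕ) / a + 1) :=
        Nat.mul_le_mul_left _ (by omega)
      have h10 : a * (b * (x : ℕ) / a + 1) = a * (b * (x : ℕ) / a) + a := by ring
      rw [hx.2.1, hy.1] at e3
      have h11 : (m - 1) * b = b * (m - 2) + b := by
        obtain ⟨k, rfl⟩ : ∃ k, m = k + 3 := ⟨m - 3, by omega⟩
        simp only [show k + 3 - 1 = k + 2 from rfl, show k + 3 - 2 = k + 1 from rfl]
        ring
      omega
    · omega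
    · have := hstrict x y hxy (by rw [hx.2.1, hy.2.1]); omega
    · omega
    · omega
    · omega
    · have := hstrict x y hxy (by rw [hx.2.1, hy.2.1]); omega
  · intro z
    have hz := z.2
    have h1 : a * z ≤ b * ((a * z + b - 1) / b) := by
      have h := Nat.div_add_mod (a * z + b - 1) b
      have h2 := Nat.mod_lt (a * z + b - 1) hb
      omega
    have h2 : b * ((a * z + b - 1) / b) ≤ a * z + b - 1 := Nat.mul_div_le _ _
    have h3 : (a * z + b - 1) / b < a := by
      apply Nat.div_lt_of_lt_mul
      have h4 : a * ((z : ℕ) + 1) ≤ a * b := Nat.mul_le_mul_left _ hz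
      have h5 : a * ((z : ℕ) + 1) = a * z + a := by ring
      rw [mul_comm b a]
      omega
    have h4 : b * ((a * z + b - 1) / b) / a = z := by
      apply Nat.div_eq_of_lt_le
      · rw [mul_comm (z : ℕ) a]; exact h1
      · have h3 : ((z : ℕ) + 1) * a = a * z + a := by ring
        omega
    refine ⟨⟨0, by omega⟩, ⟨(a * z + b - 1) / b, h3⟩, ?_⟩
    rw [hσ]
    left
    refine ⟨by show 0 < m - 1; omega, ?_, h4.symm⟩
    show (b * ((a * z + b - 1) / b)) % a / b = 0
    apply Nat.div_eq_of_lt
    have h := Nat.div_add_mod (b * ((a * z + b - 1) / b)) a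
    rw [h4] at h
    omega
  · intro S hne hnu
    set N : Finset (Fin b) := Finset.univ.filter fun z => ∃ i, ∃ x ∈ S, σ i x = some z with hN
    have hmain := KrGraph_main (a := a) (b := b) hb hba (S.map Fin.valEmbedding)
      (N.map Fin.valEmbedding) ?_ ?_ ?_ ?_ ?_ ?_ ?_
    · rw [Finset.card_map, Finset.card_map] at hmain
      exact hmain
    · intro x hx
      rw [Finset.mem_map] at hx
      obtain ⟨y, _, rfl⟩ := hx
      exact y.2
    · intro x hx
      rw [Finset.mem_map] at hx
      obtain ⟨y, _, rfl⟩ := hx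
      exact y.2
    · exact hne.map
    · by_contra hcon
      push Not at hcon
      apply hnu
      rw [Finset.eq_univ_iff_forall]
      intro x
      have := hcon x x.2
      rw [Finset.mem_map] at this
      obtain ⟨y, hy, hyx⟩ := this
      have : y = x := Fin.ext hyx
      exact this ▸ hy
    · intro x hx
      rw [Finset.mem_map] at hx
      obtain ⟨y, hy, rfl⟩ := hx
      rw [Finset.mem_map]
      refine ⟨⟨b * (y : ℕ) / a, hcb y⟩, ?_, rfl⟩
      rw [hN, Finset.mem_filter]
      have e4 := Nat.mod_lt (b * (y : ℕ)) ha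
      have ht : ((b * (y : ℕ)) % a) / b < m - 1 := by
        apply Nat.div_lt_of_lt_mul
        rw [mul_comm b (m - 1)]; omega
      refine ⟨Finset.mem_univ _, ⟨((b * (y : ℕ)) % a) / b, by omega⟩, y, hy, ?_⟩
      rw [hσ]
      exact Or.inl ⟨ht, rfl, rfl⟩
    · intro x hx h1 h2
      rw [Finset.mem_map] at hx
      obtain ⟨y, hy, rfl⟩ := hx
      rw [Finset.mem_map]
      refine ⟨⟨b * (y : ℕ) / a + 1, h2⟩, ?_, rfl⟩
      rw [hN, Finset.mem_filter]
      refine ⟨Finset.mem_univ _, ⟨m - 1, by omega⟩, y, hy, ?_⟩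
      rw [hσ]
      exact Or.inr (Or.inl ⟨rfl, h1, rfl⟩)
    · intro x hx h1 h2
      rw [Finset.mem_map] at hx
      obtain ⟨y, hy, rfl⟩ := hx
      rw [Finset.mem_map]
      refine ⟨⟨b * (y : ℕ) / a - 1, lt_of_le_of_lt (Nat.sub_le _ _) (hcb y)⟩, ?_, rfl⟩
      rw [hN, Finset.mem_filter]
      refine ⟨Finset.mem_univ _, ⟨m - 2, by omega⟩, y, hy, ?_⟩
      rw [hσ]
      refine Or.inr (Or.inr ⟨rfl, h1, ?_⟩)
      show b * (y : ℕ) / a - 1 + 1 = b * (y : ℕ) / a
      have h2' : 1 ≤ b * (y : ℕ) / a := h2
      omega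

end Pool.Agent.MP_09eaec.GG
end

section

/-!
# Stable Kronecker modules
-/

set_option autoImplicit false

namespace Pool.Agent.MP_09eaec.GG

open Module

universe u

/-- The space `U ⊗ k^m` inside `k^n ⊗ k^m`: the `v` with `∑ a i • v i = 0` for all functionals `a`
vanishing on `U`. -/
def ten {k : Type u} [Field k] {n : ℕ} (m : ℕ) (U : Submodule k (Fin n → k)) :
    Submodule k (Fin n → Fin m → k) where
  carrier := {v | ∀ a : Fin n → k, (∀ c ∈ U, ∑ i, a i * c i = 0) → ∑ i, a i • v i = 0}
  add_mem' := by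
    intro v w hv hw a ha
    simp only [Pi.add_apply, smul_add, Finset.sum_add_distrib, hv a ha, hw a ha, add_zero]
  zero_mem' := by
    intro a _
    simp
  smul_mem' := by
    intro t v hv a ha
    have h := hv a ha
    simp only [Pi.smul_apply]
    have h2 : ∑ i, a i • t • v i = t • ∑ i, a i • v i := by
      rw [Finset.smul_sum]
      exact Finset.sum_congr rfl fun i _ => smul_comm _ _ _
    rw [h2, h, smul_zero]

theorem mem_ten {k : Type u} [Field k] {n m : ℕ} {U : Submodule k (Fin n → k)}
    {v : Fin n → Fin m → k} : v ∈ ten m U ↔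
      ∀ a : Fin n → k, (∀ c ∈ U, ∑ i, a i * c i = 0) → ∑ i, a i • v i = 0 := Iff.rfl

/-- There is a stable subspace of dimension `d` of `k^n ⊗ k^m`. -/
def KSt (k : Type u) [Field k] (m n d : ℕ) : Prop :=
  ∃ V : Submodule k (Fin n → Fin m → k), finrank k V = d ∧
    ∀ U : Submodule k (Fin n → k), U ≠ ⊥ → U ≠ ⊤ →
      n * finrank k ↥(V ⊓ ten m U) < d * finrank k U

/-- There are `m` linear maps `k^a → k^b`, jointly surjective, such that the sum of the images of a
proper subspace `U ≠ 0` of `k^a` has dimension bigger than `(b / a) dim U`. -/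
def St (k : Type u) [Field k] (m a b : ℕ) : Prop :=
  ∃ B : Fin m → ((Fin a → k) →ₗ[k] (Fin b → k)), (⨆ i, LinearMap.range (B i)) = ⊤ ∧
    ∀ U : Submodule k (Fin a → k), U ≠ ⊥ → U ≠ ⊤ →
      b * finrank k U < a * finrank k ↥(⨆ i, U.map (B i))

end Pool.Agent.MP_09eaec.GG
end

section

/-!
# TASK KrPhi: the kernel of a Kronecker module

`B : Fin m → (k^a → k^b)`. `phiB B v = ∑ i, B i (v i)` for `v : Fin m → Fin a → k`. For `U ≤ k^a` let `U^m = {v | ∀ i, v i ∈ U}`
(`Submodule.pi Set.univ fun _ => U`).
* `finrank_ker_phi`: `phiB B` maps `U^m` onto `⨆ i, U.map (B i)` (`Submodule.map_iSup`..., `Pi.single i u ∈ U^m`), `U^m` has dimension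
  `m * finrank U` (`U^m ≃ (Fin m → U)`), rank-nullity for `phiB B` restricted to `U^m`.
* `finrank_ker_phi_top`: the case `U = ⊤`, `⨆ i, range (B i) = ⊤`.
-/

set_option autoImplicit false

namespace Pool.Agent.MP_09eaec.GG

open Module

universe u

/-- `v ↦ ∑ i, B i (v i)`. -/
def phiB {k : Type u} [Field k] {m a b : ℕ} (B : Fin m → ((Fin a → k) →ₗ[k] (Fin b → k))) :
    (Fin m → Fin a → k) →ₗ[k] (Fin b → k) :=
  ∑ i, B i ∘ₗ LinearMap.proj i

theorem phiB_apply {k : Type u} [Field k] {m a b : ℕ}
    (B : Fin m → ((Fin a → k) →ₗ[k] (Fin b → k))) (v : Fin m → Fin a → k) :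
    phiB B v = ∑ i, B i (v i) := by
  simp [phiB, LinearMap.sum_apply]

private theorem KrPhi_single {k : Type u} [Field k] {m a b : ℕ}
    (B : Fin m → ((Fin a → k) →ₗ[k] (Fin b → k))) (i : Fin m) (u : Fin a → k) :
    phiB B (Pi.single i u) = B i u := by
  rw [phiB_apply, Finset.sum_eq_single i]
  · simp
  · intro j _ hj
    simp [Pi.single_eq_of_ne hj]
  · intro h
    exact absurd (Finset.mem_univ i) h

private def KrPhi_equiv {k : Type u} [Field k] {m a : ℕ} (U : Submodule k (Fin a → k)) :
    ↥(Submodule.pi Set.univ fun _ : Fin m => U) ≃ₗ[k] (Fin m → ↥U) where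
  toFun v i := ⟨v.1 i, v.2 i (Set.mem_univ i)⟩
  invFun w := ⟨fun i => (w i).1, fun i _ => (w i).2⟩
  map_add' _ _ := rfl
  map_smul' _ _ := rfl
  left_inv _ := rfl
  right_inv _ := rfl

theorem finrank_ker_phi {k : Type u} [Field k] {m a b : ℕ}
    (B : Fin m → ((Fin a → k) →ₗ[k] (Fin b → k))) (U : Submodule k (Fin a → k)) :
    finrank k ↥(LinearMap.ker (phiB B) ⊓ Submodule.pi Set.univ fun _ : Fin m => U) +
      finrank k ↥(⨆ i, U.map (B i)) = m * finrank k U := by
  set P : Submodule k (Fin m → Fin a → k) := Submodule.pi Set.univ fun _ : Fin m => U with hP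
  have hrange : LinearMap.range ((phiB B).domRestrict P) = ⨆ i, U.map (B i) := by
    rw [LinearMap.range_domRestrict]
    apply le_antisymm
    · rintro y ⟨v, hv, rfl⟩
      rw [phiB_apply]
      refine Submodule.sum_mem _ fun i _ => ?_
      exact Submodule.mem_iSup_of_mem i (Submodule.mem_map_of_mem (hv i (Set.mem_univ i)))
    · refine iSup_le fun i => ?_
      rintro y ⟨x, hx, rfl⟩
      refine ⟨Pi.single i x, ?_, KrPhi_single B i x⟩
      intro j _
      by_cases hj : j = i
      · subst hj
        simpa using hx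
      · simp [Pi.single_eq_of_ne hj]
  have hker : finrank k (LinearMap.ker ((phiB B).domRestrict P)) =
      finrank k ↥(LinearMap.ker (phiB B) ⊓ P) := by
    have h1 : LinearMap.ker ((phiB B).domRestrict P) =
        (LinearMap.ker (phiB B)).comap P.subtype := rfl
    rw [h1, ← Submodule.finrank_map_subtype_eq P, Submodule.map_comap_subtype, inf_comm]
  have hfin : finrank k ↥P = m * finrank k ↥U := by
    rw [LinearEquiv.finrank_eq (KrPhi_equiv (m := m) U), Module.finrank_pi_fintype]
    simp
  have hrn := LinearMap.finrank_range_add_finrank_ker ((phiB B).domRestrict P)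
  rw [hrange, hker, hfin] at hrn
  omega

theorem finrank_ker_phi_top {k : Type u} [Field k] {m a b : ℕ}
    (B : Fin m → ((Fin a → k) →ₗ[k] (Fin b → k))) (h : (⨆ i, LinearMap.range (B i)) = ⊤) :
    finrank k (LinearMap.ker (phiB B)) + b = m * a := by
  have h1 := finrank_ker_phi B ⊤
  have h2 : (Submodule.pi Set.univ fun _ : Fin m => (⊤ : Submodule k (Fin a → k))) = ⊤ := by
    ext v
    simp
  have h3 : (⨆ i, (⊤ : Submodule k (Fin a → k)).map (B i)) = ⊤ := by
    rw [← h]
    simp only [Submodule.map_top]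
  rw [h2, inf_top_eq, h3, finrank_top, finrank_top] at h1
  simpa using h1

end Pool.Agent.MP_09eaec.GG
end

section

/-!
# TASK KrKst: stable subspaces from Kronecker modules

`B` from `St`, `Y = ker (phiB B)`, of dimension `m a - b` (`finrank_ker_phi_top`). `V ≤ (Fin a → Fin m → k)` is the image of `Y` under the
transposition of the two arguments (`v ↦ fun x i => v i x`, a linear equivalence), `finrank V = m a - b`. `v' ∈ ten m U` iff all the vectors
`(v' x i)_x`, `i : Fin m`, are in `U`: (`←`) clear; (`→`) if a vector is annihilated by all functionals which vanish on `U` then it is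
in `U` (`Submodule.exists_le_ker_of_notMem` or a similar lemma; a functional on `Fin a → k` is `c ↦ ∑ a i * c i`). So
`V ⊓ ten m U ≃ Y ⊓ U^m`, of dimension `m dim U - dim (⨆ U.map (B i))` (`finrank_ker_phi`), and
`a (m dim U - dim (⨆ U.map (B i))) < (m a - b) dim U` from `b dim U < a dim (⨆ U.map (B i))`.
-/

set_option autoImplicit false

namespace Pool.Agent.MP_09eaec.GG

open Module

universe u

/-- Transposition of the two arguments. -/
private def KrKst_tr (k : Type u) [Field k] (m a : ℕ) :
    (Fin m → Fin a → k) ≃ₗ[k] (Fin a → Fin m → k) where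
  toFun v := fun x i => v i x
  invFun v := fun i x => v x i
  map_add' _ _ := rfl
  map_smul' _ _ := rfl
  left_inv _ := rfl
  right_inv _ := rfl

private theorem KrKst_mem_ten {k : Type u} [Field k] {m a : ℕ} (U : Submodule k (Fin a → k))
    (v : Fin m → Fin a → k) :
    KrKst_tr k m a v ∈ ten m U ↔ ∀ i, v i ∈ U := by
  rw [mem_ten]
  constructor
  · intro h i
    by_contra hi
    obtain ⟨f, hf, hU⟩ := Submodule.exists_le_ker_of_notMem hi
    have hfe : ∀ c : Fin a → k, f c = ∑ x, f (Pi.single x 1) * c x := by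
      intro c
      conv_lhs => rw [show c = ∑ x, c x • (Pi.single x (1 : k) : Fin a → k) from
        (pi_eq_sum_univ' c)]
      rw [map_sum]
      refine Finset.sum_congr rfl fun x _ => ?_
      rw [map_smul, smul_eq_mul, mul_comm]
    have h1 := h (fun x => f (Pi.single x 1)) (by
      intro c hc
      rw [← hfe c]
      exact LinearMap.mem_ker.1 (hU hc))
    have h2 := congrFun h1 i
    apply hf
    rw [hfe (v i)]
    simpa [KrKst_tr, Finset.sum_apply, smul_eq_mul] using h2
  · intro h c hc
    funext i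
    simpa [KrKst_tr, Finset.sum_apply, smul_eq_mul] using hc (v i) (h i)

theorem kst_of_st {k : Type u} [Field k] {m a b : ℕ} (hb : b ≤ m * a) (h : St k m a b) :
    KSt k m a (m * a - b) := by
  obtain ⟨B, hB, hS⟩ := h
  refine ⟨(LinearMap.ker (phiB B)).map (KrKst_tr k m a : (Fin m → Fin a → k) →ₗ[k] _), ?_, ?_⟩
  · rw [LinearEquiv.finrank_map_eq]
    have := finrank_ker_phi_top B hB
    omega
  · intro U hU0 hU1
    have e1 : (LinearMap.ker (phiB B)).map (KrKst_tr k m a : (Fin m → Fin a → k) →ₗ[k] _) ⊓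
        ten m U = (LinearMap.ker (phiB B) ⊓ Submodule.pi Set.univ fun _ : Fin m => U).map
          (KrKst_tr k m a : (Fin m → Fin a → k) →ₗ[k] _) := by
      ext w
      simp only [Submodule.mem_inf, Submodule.mem_map]
      constructor
      · rintro ⟨⟨v, hv, rfl⟩, hw⟩
        refine ⟨v, ⟨hv, ?_⟩, rfl⟩
        rw [Submodule.mem_pi]
        intro i _
        exact (KrKst_mem_ten U v).1 hw i
      · rintro ⟨v, ⟨hv, hv2⟩, rfl⟩
        refine ⟨⟨v, hv, rfl⟩, (KrKst_mem_ten U v).2 ?_⟩
        intro i
        exact (Submodule.mem_pi.1 hv2) i (Set.mem_univ i)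
    rw [e1, LinearEquiv.finrank_map_eq]
    have h1 := finrank_ker_phi B U
    have h2 := hS U hU0 hU1
    zify [hb]
    zify at h1 h2
    nlinarith [h1, h2]

end Pool.Agent.MP_09eaec.GG
end

section

/-!
# TASK KrLead: initial subspaces

`lead U` = the set of the indices `i` such that some `u ∈ U` has `u i ≠ 0` and `u l = 0` for all `l > i`.
`card_lead`: `(lead U).card = finrank U`. Proof: for `t : ℕ` let `U_t = {u ∈ U | u l = 0 for all l with t ≤ l}`. `U_0 = 0`, `U_a = U`. The map
`U_(t+1) → k`, `u ↦ u t` has kernel `U_t` and is not zero iff `t ∈ lead U`; so `dim U_(t+1) = dim U_t + (1 if t ∈ lead U, else 0)`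
(rank-nullity). Induction on `t`: `finrank U_t` = the number of the elements `< t` of `lead U`.
-/

set_option autoImplicit false

namespace Pool.Agent.MP_09eaec.GG

open Module

universe u

open Classical in
/-- The indices of the leading terms of the elements of `U`. -/
noncomputable def lead {k : Type u} [Field k] {a : ℕ} (U : Submodule k (Fin a → k)) :
    Finset (Fin a) :=
  Finset.univ.filter fun i => ∃ u ∈ U, u i ≠ 0 ∧ ∀ l, i < l → u l = 0

theorem mem_lead {k : Type u} [Field k] {a : ℕ} {U : Submodule k (Fin a → k)} {i : Fin a} :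
    i ∈ lead U ↔ ∃ u ∈ U, u i ≠ 0 ∧ ∀ l, i < l → u l = 0 := by
  classical
  unfold lead
  rw [Finset.mem_filter]
  exact ⟨fun h => h.2, fun h => ⟨Finset.mem_univ _, h⟩⟩

/-- The elements of `U` whose entries vanish from the index `t` on. -/
private def KrLead_cut {k : Type u} [Field k] {a : ℕ} (U : Submodule k (Fin a → k)) (t : ℕ) :
    Submodule k (Fin a → k) :=
  U ⊓
    { carrier := {u | ∀ l : Fin a, t ≤ (l : ℕ) → u l = 0}
      add_mem' := fun hu hv l hl => by rw [Pi.add_apply, hu l hl, hv l hl, add_zero]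
      zero_mem' := fun l _ => rfl
      smul_mem' := fun c u hu l hl => by rw [Pi.smul_apply, hu l hl, smul_zero] }

private theorem KrLead_mem {k : Type u} [Field k] {a : ℕ} {U : Submodule k (Fin a → k)} {t : ℕ}
    {u : Fin a → k} : u ∈ KrLead_cut U t ↔ u ∈ U ∧ ∀ l : Fin a, t ≤ (l : ℕ) → u l = 0 := Iff.rfl

open Classical in
private theorem KrLead_step {k : Type u} [Field k] {a : ℕ} (U : Submodule k (Fin a → k))
    (i : Fin a) : finrank k (KrLead_cut U ((i : ℕ) + 1)) =
      finrank k (KrLead_cut U (i : ℕ)) + if i ∈ lead U then 1 else 0 := by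
  let φ : KrLead_cut U ((i : ℕ) + 1) →ₗ[k] k :=
    (LinearMap.proj i : (Fin a → k) →ₗ[k] k) ∘ₗ (KrLead_cut U ((i : ℕ) + 1)).subtype
  have hφ : ∀ v : KrLead_cut U ((i : ℕ) + 1), φ v = (v : Fin a → k) i := fun _ => rfl
  have hker : finrank k (LinearMap.ker φ) = finrank k (KrLead_cut U (i : ℕ)) := by
    have hmap : (LinearMap.ker φ).map (KrLead_cut U ((i : ℕ) + 1)).subtype =
        KrLead_cut U (i : ℕ) := by
      ext u
      rw [Submodule.mem_map]
      constructor
      · rintro ⟨v, hv, rfl⟩
        have hv0 : (v : Fin a → k) i = 0 := by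
          rw [← hφ]
          exact hv
        refine KrLead_mem.2 ⟨(KrLead_mem.1 v.2).1, fun l hl => ?_⟩
        rcases eq_or_lt_of_le hl with h | h
        · have h2 : l = i := Fin.ext h.symm
          rw [h2]
          exact hv0
        · exact (KrLead_mem.1 v.2).2 l h
      · intro hu
        have hu' := KrLead_mem.1 hu
        exact ⟨⟨u, KrLead_mem.2 ⟨hu'.1, fun l hl => hu'.2 l (by omega)⟩⟩, hu'.2 i le_rfl, rfl⟩
    rw [← hmap, Submodule.finrank_map_subtype_eq]
  have h1 := LinearMap.finrank_range_add_finrank_ker φ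
  rw [hker] at h1
  split_ifs with hi
  · obtain ⟨u, hu, hui, hul⟩ := mem_lead.1 hi
    have hr : LinearMap.range φ = ⊤ := by
      rw [LinearMap.range_eq_top]
      apply LinearMap.surjective
      intro h0
      apply hui
      have h2 : φ ⟨u, KrLead_mem.2 ⟨hu, fun l hl => hul l hl⟩⟩ = 0 := by
        rw [h0, LinearMap.zero_apply]
      rw [hφ] at h2
      exact h2
    rw [hr, finrank_top, finrank_self] at h1
    omega
  · have hr : φ = 0 := by
      ext v
      rw [hφ, LinearMap.zero_apply]
      by_contra hne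
      apply hi
      exact mem_lead.2 ⟨v, (KrLead_mem.1 v.2).1, hne, fun l hl => (KrLead_mem.1 v.2).2 l hl⟩
    rw [hr, LinearMap.range_zero, finrank_bot] at h1
    omega

theorem card_lead {k : Type u} [Field k] {a : ℕ} (U : Submodule k (Fin a → k)) :
    (lead U).card = finrank k U := by
  classical
  have h : ∀ t : ℕ, t ≤ a → finrank k (KrLead_cut U t) =
      ((lead U).filter (fun i : Fin a => (i : ℕ) < t)).card := by
    intro t
    induction t with
    | zero =>
      intro _
      have h0 : KrLead_cut U 0 = ⊥ := by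
        rw [eq_bot_iff]
        intro u hu
        rw [Submodule.mem_bot]
        funext l
        exact (KrLead_mem.1 hu).2 l (Nat.zero_le _)
      rw [h0, finrank_bot]
      simp
    | succ t ih =>
      intro ht
      have h1 := KrLead_step U ⟨t, ht⟩
      have h2 := ih (by omega)
      change finrank k (KrLead_cut U (t + 1)) = finrank k (KrLead_cut U t) + _ at h1
      rw [h1, h2]
      split_ifs with hi
      · have h3 : (lead U).filter (fun i : Fin a => (i : ℕ) < t + 1) =
            insert ⟨t, ht⟩ ((lead U).filter fun i : Fin a => (i : ℕ) < t) := by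
          ext i
          simp only [Finset.mem_filter, Finset.mem_insert]
          constructor
          · rintro ⟨h4, h5⟩
            rcases Nat.lt_or_ge (i : ℕ) t with h6 | h6
            · exact Or.inr ⟨h4, h6⟩
            · exact Or.inl (Fin.ext (by simp only; omega))
          · rintro (rfl | ⟨h4, h5⟩)
            · exact ⟨hi, Nat.lt_succ_self _⟩
            · exact ⟨h4, by omega⟩
        rw [h3, Finset.card_insert_of_notMem]
        simp
      · rw [add_zero]
        congr 1
        refine Finset.filter_congr fun i hi2 => ⟨fun h4 => by omega, fun h4 => ?_⟩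
        rcases Nat.lt_or_ge (i : ℕ) t with h6 | h6
        · exact h6
        · exfalso
          apply hi
          have h7 : i = ⟨t, ht⟩ := Fin.ext (by simp only; omega)
          rw [← h7]
          exact hi2
  have h1 := h a le_rfl
  rw [Finset.filter_true_of_mem (fun i _ => i.2)] at h1
  have h2 : KrLead_cut U a = U := by
    ext u
    exact ⟨fun hu => (KrLead_mem.1 hu).1,
      fun hu => KrLead_mem.2 ⟨hu, fun l hl => absurd l.2 (by omega)⟩⟩
  rw [h2] at h1
  exact h1.symm

end Pool.Agent.MP_09eaec.GG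
end

section

/-!
# TASK KrMono: monomial Kronecker modules

`σ i : Fin a → Option (Fin b)` partial maps, strictly increasing on their domains. `B i` is the linear map with `B i e_x = e_z` if
`σ i x = some z` and `B i e_x = 0` if `σ i x = none`; in coordinates `(B i u) z = ∑ x, if σ i x = some z then u x else 0`, and for
`σ i x = some z`: `(B i u) z = u x` (`σ i` is injective on its domain).
* jointly surjective: every `e_z` is some `B i e_x` (`hsurj`).
* Let `U ≠ ⊥, ⊤`, `T = ⨆ i, U.map (B i)`, `S = lead U`, `S.card = finrank U` (`card_lead`), so `S` is not empty and not `univ`. If `x ∈ S`,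
  `σ i x = some z`, `u ∈ U` with `u x ≠ 0`, `u l = 0` for `l > x`, then `B i u ∈ T` has `(B i u) z = u x ≠ 0` and `(B i u) z' = 0` for `z' > z` (if
  `σ i x' = some z'` then `x' > x`: otherwise `x' < x` would give `z' < z`). So `z ∈ lead T`: the set `N` of the `z` in `hN` is contained in
  `lead T`, `N.card ≤ finrank T` (`card_lead`), and `b * finrank U = b * S.card < a * N.card ≤ a * finrank T`.
-/

set_option autoImplicit false

namespace Pool.Agent.MP_09eaec.GG

open Module

universe u

private theorem KrMono_inj {m a b : ℕ} (σ : Fin m → Fin a → Option (Fin b))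
    (hσ : ∀ i x y x' y', x < y → σ i x = some x' → σ i y = some y' → x' < y')
    {i : Fin m} {x y : Fin a} {z : Fin b} (hx : σ i x = some z) (hy : σ i y = some z) : x = y := by
  rcases lt_trichotomy x y with h | h | h
  · exact absurd (hσ i x y z z h hx hy) (lt_irrefl _)
  · exact h
  · exact absurd (hσ i y x z z h hy hx) (lt_irrefl _)

open Classical in
/-- The monomial map of a partial map. -/
private noncomputable def KrMono_B (k : Type u) [Field k] {a b : ℕ} (s : Fin a → Option (Fin b)) :
    (Fin a → k) →ₗ[k] (Fin b → k) :=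
  LinearMap.pi fun z => ∑ x, if s x = some z then LinearMap.proj x else 0

open Classical in
private theorem KrMono_B_apply {k : Type u} [Field k] {a b : ℕ} (s : Fin a → Option (Fin b))
    (u : Fin a → k) (z : Fin b) :
    KrMono_B k s u z = ∑ x, if s x = some z then u x else 0 := by
  unfold KrMono_B
  rw [LinearMap.pi_apply, LinearMap.sum_apply]
  refine Finset.sum_congr rfl fun x _ => ?_
  by_cases h : s x = some z
  · rw [if_pos h, if_pos h, LinearMap.proj_apply]
  · rw [if_neg h, if_neg h, LinearMap.zero_apply]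

private theorem KrMono_val {k : Type u} [Field k] {a b : ℕ} (s : Fin a → Option (Fin b))
    (hinj : ∀ x y z, s x = some z → s y = some z → x = y)
    (u : Fin a → k) {x : Fin a} {z : Fin b} (hx : s x = some z) :
    KrMono_B k s u z = u x := by
  classical
  rw [KrMono_B_apply, Finset.sum_eq_single x]
  · rw [if_pos hx]
  · intro y _ hy
    rw [if_neg]
    intro h
    exact hy (hinj y x z h hx)
  · intro h
    exact absurd (Finset.mem_univ x) h

private theorem KrMono_single {k : Type u} [Field k] {a b : ℕ} (s : Fin a → Option (Fin b))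
    {x : Fin a} {z : Fin b} (hx : s x = some z) :
    KrMono_B k s (Pi.single x 1) = Pi.single z 1 := by
  classical
  funext z'
  rw [KrMono_B_apply, Finset.sum_eq_single x]
  · rw [Pi.single_eq_same, hx]
    by_cases h : z = z'
    · subst h
      rw [if_pos rfl, Pi.single_eq_same]
    · rw [if_neg (fun h' => h (Option.some.inj h')), Pi.single_eq_of_ne (fun h' => h h'.symm)]
  · intro y _ hy
    rw [Pi.single_eq_of_ne hy, ite_self]
  · intro h
    exact absurd (Finset.mem_univ x) h

open Classical in
theorem st_of_graph {k : Type u} [Field k] {m a b : ℕ} (σ : Fin m → Fin a → Option (Fin b))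
    (hσ : ∀ i x y x' y', x < y → σ i x = some x' → σ i y = some y' → x' < y')
    (hsurj : ∀ z, ∃ i x, σ i x = some z)
    (hN : ∀ S : Finset (Fin a), S.Nonempty → S ≠ Finset.univ →
      b * S.card < a * (Finset.univ.filter fun z => ∃ i, ∃ x ∈ S, σ i x = some z).card) :
    St k m a b := by
  refine ⟨fun i => KrMono_B k (σ i), ?_, ?_⟩
  · rw [eq_top_iff, ← (Pi.basisFun k (Fin b)).span_eq, Submodule.span_le]
    rintro _ ⟨z, rfl⟩
    obtain ⟨i, x, hx⟩ := hsurj z
    rw [Pi.basisFun_apply]
    have h1 : (Pi.single z 1 : Fin b → k) ∈ LinearMap.range (KrMono_B k (σ i)) :=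
      ⟨Pi.single x 1, KrMono_single (σ i) hx⟩
    exact Submodule.mem_iSup_of_mem i h1
  · intro U hU0 hU1
    have hcard := card_lead U
    have hS0 : (lead U).Nonempty := by
      rw [← Finset.card_pos, hcard]
      rw [Nat.pos_iff_ne_zero]
      intro h
      exact hU0 (Submodule.finrank_eq_zero.mp h)
    have hS1 : lead U ≠ Finset.univ := by
      intro h
      rw [h, Finset.card_univ, Fintype.card_fin] at hcard
      apply hU1
      apply Submodule.eq_top_of_finrank_eq
      rw [Module.finrank_fin_fun, ← hcard]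
    have h1 := hN (lead U) hS0 hS1
    rw [hcard] at h1
    refine lt_of_lt_of_le h1 (Nat.mul_le_mul_left a ?_)
    rw [← card_lead]
    apply Finset.card_le_card
    intro z hz
    obtain ⟨i, x, hxS, hx⟩ := (Finset.mem_filter.mp hz).2
    obtain ⟨u, hu, hux, hul⟩ := mem_lead.mp hxS
    have hinj : ∀ x y z, σ i x = some z → σ i y = some z → x = y :=
      fun x y z h h' => KrMono_inj σ hσ h h'
    rw [mem_lead]
    refine ⟨KrMono_B k (σ i) u, ?_, ?_, ?_⟩
    · exact Submodule.mem_iSup_of_mem i (Submodule.mem_map_of_mem hu)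
    · rw [KrMono_val (σ i) hinj u hx]
      exact hux
    · intro z' hz'
      rw [KrMono_B_apply]
      refine Finset.sum_eq_zero fun x' _ => ?_
      by_cases h : σ i x' = some z'
      · rw [if_pos h]
        apply hul
        rcases lt_trichotomy x x' with h2 | h2 | h2
        · exact h2
        · subst h2
          rw [hx] at h
          have h3 := Option.some.inj h
          rw [h3] at hz'
          exact absurd hz' (lt_irrefl _)
        · have h3 := hσ i x' x z' z h2 h hx
          exact absurd (lt_trans hz' h3) (lt_irrefl _)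
      · rw [if_neg h]

end Pool.Agent.MP_09eaec.GG
end

section

/-!
# TASK KrRefl: reflection of Kronecker modules

`B` from `St`, `Y = ker (phiB B)`, of dimension `m a - b` (`finrank_ker_phi_top`). Let `C i : Y → (Fin a → k)`, `v ↦ v i`; transport along
`Y ≃ (Fin (m a - b) → k)`. Let `S ≤ Y`, `S ≠ ⊥, ⊤`, and `U = ⨆ i, S.map (C i) ≤ k^a`; `S` is contained in `Y ⊓ U^m`, so by
`finrank_ker_phi` `dim S ≤ m dim U - dim (⨆ U.map (B i))`. `U ≠ ⊥` (`S ≠ ⊥`). If `U ≠ ⊤`: `b dim U < a dim (⨆ U.map (B i))`, so
`a dim S < (m a - b) dim U`. If `U = ⊤`: `a dim S < a (m a - b) = (m a - b) dim U` since `S ≠ ⊤`.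
Jointly surjective: the same for `S = ⊤`: `U = ⨆ range (C i)`; if `U ≠ ⊤` (and `U ≠ ⊥` since `m a - b > 0`) then
`a (m a - b) < (m a - b) dim U`, so `a < dim U`, a contradiction.
-/

set_option autoImplicit false

namespace Pool.Agent.MP_09eaec.GG

open Module

universe u

/-- The inequality for a nonzero submodule of the kernel with a proper span. -/
private theorem KrRefl_aux {k : Type u} [Field k] {m a b d : ℕ} (hd : d + b = m * a)
    (B : Fin m → ((Fin a → k) →ₗ[k] (Fin b → k)))
    (hst : ∀ U : Submodule k (Fin a → k), U ≠ ⊥ → U ≠ ⊤ →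
      b * finrank k U < a * finrank k ↥(⨆ i, U.map (B i)))
    (S : Submodule k (Fin m → Fin a → k)) (hS : S ≤ LinearMap.ker (phiB B)) (hS0 : S ≠ ⊥)
    (hU : (⨆ i, S.map (LinearMap.proj (R := k) (φ := fun _ : Fin m => Fin a → k) i)) ≠ ⊤) :
    a * finrank k S <
      d * finrank k ↥(⨆ i, S.map (LinearMap.proj (R := k) (φ := fun _ : Fin m => Fin a → k) i)) := by
  set U := ⨆ i, S.map (LinearMap.proj (R := k) (φ := fun _ : Fin m => Fin a → k) i) with hUdef
  have hmem : ∀ v ∈ S, ∀ i, v i ∈ U := by
    intro v hv i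
    rw [hUdef]
    exact Submodule.mem_iSup_of_mem i ⟨v, hv, rfl⟩
  have hU0 : U ≠ ⊥ := by
    intro h
    apply hS0
    rw [eq_bot_iff]
    intro v hv
    rw [Submodule.mem_bot]
    funext i
    have := hmem v hv i
    rw [h, Submodule.mem_bot] at this
    exact this
  have h1 := hst U hU0 hU
  have h2 := finrank_ker_phi B U
  have h3 : finrank k S ≤
      finrank k ↥(LinearMap.ker (phiB B) ⊓ Submodule.pi Set.univ fun _ : Fin m => U) := by
    apply Submodule.finrank_mono
    intro v hv
    refine ⟨hS hv, ?_⟩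
    simp only [Submodule.coe_pi, Set.mem_pi, SetLike.mem_coe]
    intro i _
    exact hmem v hv i
  have h4 : finrank k S + finrank k ↥(⨆ i, U.map (B i)) ≤ m * finrank k U := by omega
  have h5 : a * (finrank k S + finrank k ↥(⨆ i, U.map (B i))) ≤ a * (m * finrank k U) :=
    Nat.mul_le_mul_left a h4
  have h6 : a * (m * finrank k U) = (d + b) * finrank k U := by
    rw [hd]; ring
  nlinarith

theorem st_reflect {k : Type u} [Field k] {m a b : ℕ} (ha : 1 ≤ a) (hb : b < m * a)
    (h : St k m a b) : St k m (m * a - b) a := by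
  obtain ⟨B, hB, hst⟩ := h
  have hd : m * a - b + b = m * a := by omega
  generalize m * a - b = d at hd ⊢
  have hd0 : 0 < d := by omega
  have hY : finrank k (LinearMap.ker (phiB B)) = d := by
    have := finrank_ker_phi_top B hB
    omega
  have e : (Fin d → k) ≃ₗ[k] LinearMap.ker (phiB B) :=
    LinearEquiv.ofFinrankEq _ _ (by rw [hY]; simp)
  have hmap : ∀ (S : Submodule k (Fin d → k)) (i : Fin m),
      S.map (LinearMap.proj (R := k) (φ := fun _ : Fin m => Fin a → k) i ∘ₗ
        (LinearMap.ker (phiB B)).subtype ∘ₗ e.toLinearMap) =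
      (S.map ((LinearMap.ker (phiB B)).subtype ∘ₗ e.toLinearMap)).map
        (LinearMap.proj (R := k) (φ := fun _ : Fin m => Fin a → k) i) := by
    intro S i
    rw [Submodule.map_comp]
  have hinj : Function.Injective ((LinearMap.ker (phiB B)).subtype ∘ₗ e.toLinearMap) := by
    rw [LinearMap.coe_comp]
    exact Subtype.val_injective.comp e.injective
  have hle : ∀ S : Submodule k (Fin d → k),
      S.map ((LinearMap.ker (phiB B)).subtype ∘ₗ e.toLinearMap) ≤ LinearMap.ker (phiB B) := by
    intro S v hv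
    obtain ⟨w, _, rfl⟩ := hv
    exact (e w).2
  have hrank : ∀ S : Submodule k (Fin d → k),
      finrank k ↥(S.map ((LinearMap.ker (phiB B)).subtype ∘ₗ e.toLinearMap)) = finrank k S := by
    intro S
    exact (Submodule.equivMapOfInjective _ hinj S).finrank_eq.symm
  have hne : ∀ S : Submodule k (Fin d → k), S ≠ ⊥ →
      S.map ((LinearMap.ker (phiB B)).subtype ∘ₗ e.toLinearMap) ≠ ⊥ := by
    intro S hS h0
    apply hS
    rw [← Submodule.finrank_eq_zero (R := k), ← hrank S, h0, finrank_bot]
  refine ⟨fun i => LinearMap.proj (R := k) (φ := fun _ : Fin m => Fin a → k) i ∘ₗ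
        (LinearMap.ker (phiB B)).subtype ∘ₗ e.toLinearMap, ?_, ?_⟩
  · by_contra hcon
    have h1 : (⨆ i, LinearMap.range (LinearMap.proj (R := k) (φ := fun _ : Fin m => Fin a → k) i ∘ₗ
        (LinearMap.ker (phiB B)).subtype ∘ₗ e.toLinearMap)) =
        ⨆ i, ((⊤ : Submodule k (Fin d → k)).map
          ((LinearMap.ker (phiB B)).subtype ∘ₗ e.toLinearMap)).map
        (LinearMap.proj (R := k) (φ := fun _ : Fin m => Fin a → k) i) := by
      refine iSup_congr fun i => ?_
      rw [← hmap, Submodule.map_top]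
    have h0 : (⊤ : Submodule k (Fin d → k)) ≠ ⊥ := by
      intro h
      have h2 : finrank k (⊤ : Submodule k (Fin d → k)) = 0 := by rw [h, finrank_bot]
      rw [finrank_top, Module.finrank_fin_fun] at h2
      omega
    rw [h1] at hcon
    have h3 := KrRefl_aux hd B hst _ (hle ⊤) (hne ⊤ h0) hcon
    rw [hrank, finrank_top, Module.finrank_fin_fun] at h3
    have h4 := Submodule.finrank_le (⨆ i, ((⊤ : Submodule k (Fin d → k)).map
          ((LinearMap.ker (phiB B)).subtype ∘ₗ e.toLinearMap)).map
        (LinearMap.proj (R := k) (φ := fun _ : Fin m => Fin a → k) i))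
    rw [Module.finrank_fin_fun] at h4
    have h5 := Nat.mul_le_mul_left d h4
    rw [Nat.mul_comm a d] at h3
    omega
  · intro S hS0 hS1
    rw [iSup_congr (hmap S)]
    by_cases hU : (⨆ i, (S.map ((LinearMap.ker (phiB B)).subtype ∘ₗ e.toLinearMap)).map
        (LinearMap.proj (R := k) (φ := fun _ : Fin m => Fin a → k) i)) = ⊤
    · rw [hU, finrank_top, Module.finrank_fin_fun, Nat.mul_comm d a]
      have h1 : finrank k S < d := by
        have := Submodule.finrank_lt hS1
        rwa [Module.finrank_fin_fun] at this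
      exact Nat.mul_lt_mul_of_pos_left h1 (by omega)
    · have h3 := KrRefl_aux hd B hst _ (hle S) (hne S hS0) hU
      rw [hrank] at h3
      exact h3

end Pool.Agent.MP_09eaec.GG
end

section

/-!
# Existence of stable Kronecker modules
-/

set_option autoImplicit false

namespace Pool.Agent.MP_09eaec.GG

open Module

universe u

theorem st_one_zero {k : Type u} [Field k] (m : ℕ) : St k m 1 0 := by
  refine ⟨fun _ => 0, ?_, ?_⟩
  · exact Subsingleton.elim _ _
  · intro U hU hU'
    exfalso
    have h1 : finrank k (Fin 1 → k) = 1 := by simp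
    have h2 : finrank k U ≤ 1 := by
      have := Submodule.finrank_le U
      rwa [h1] at this
    have h3 : finrank k U ≠ 0 := fun h => hU (Submodule.finrank_eq_zero.1 h)
    exact hU' (Submodule.eq_top_of_finrank_eq (by rw [h1]; omega))

/-- Stable modules for the roots `(a, b)`, `b ≤ a`. -/
theorem st_of_root {k : Type u} [Field k] {m : ℕ} (hm : 2 ≤ m) : ∀ s a b : ℕ, a + b ≤ s →
    (b < a ∨ (3 ≤ m ∧ b ≤ a ∧ 1 ≤ b)) → (a : ℤ) ^ 2 + (b : ℤ) ^ 2 ≤ m * a * b + 1 →
    St k m a b := by
  intro s
  induction s with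
  | zero =>
    intro a b hs h _
    omega
  | succ s ih =>
    intro a b hs h hq
    have hba : b ≤ a := by omega
    have ha : 1 ≤ a := by omega
    rcases Nat.eq_zero_or_pos b with hb0 | hb0
    · subst hb0
      have : a = 1 := by
        have h1 : (a : ℤ) ^ 2 ≤ 1 := by simpa using hq
        have h2 : (a : ℤ) ≤ 1 := by nlinarith
        omega
      subst this
      exact st_one_zero m
    by_cases hsm : a < (m - 1) * b
    · -- monomial module
      have hm3 : 3 ≤ m := by
        by_contra hcon
        have : m = 2 := by omega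
        subst this
        omega
      obtain ⟨σ, h1, h2, h3⟩ := exists_graph hm3 hb0 hba hsm
      exact st_of_graph σ h1 h2 h3
    push Not at hsm
    -- `a ≤ m b`
    have ham : a ≤ m * b := by
      by_contra hcon
      push Not at hcon
      have h1 : (m * b : ℤ) + 1 ≤ a := by exact_mod_cast hcon
      have h2 : (1 : ℤ) ≤ b := by exact_mod_cast hb0
      nlinarith
    obtain ⟨b', hb'⟩ : ∃ b' : ℕ, b' = m * b - a := ⟨_, rfl⟩
    have hab' : a = m * b - b' := by omega
    have hb'b : b' ≤ b := by
      have h1 : (m - 1) * b + b = m * b := by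
        have : m = (m - 1) + 1 := by omega
        conv_rhs => rw [this]
        ring
      omega
    have hq' : (b : ℤ) ^ 2 + (b' : ℤ) ^ 2 ≤ m * b * b' + 1 := by
      have h1 : (b' : ℤ) = m * b - a := by
        rw [hb']
        push_cast [Nat.cast_sub ham]
        ring
      rw [h1]
      nlinarith
    have hlt : b + b' < a + b := by
      by_contra hcon
      push Not at hcon
      -- `a ≤ b'`, so `a = b = b'`
      have h1 : a = b := by omega
      have h2 : b' = b := by omega
      rcases h with h | ⟨h3, _, _⟩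
      · omega
      · rw [h1] at hsm
        have : 2 * b ≤ (m - 1) * b := Nat.mul_le_mul_right b (by omega)
        omega
    have key : St k m b b' := by
      apply ih b b' (by omega) ?_ hq'
      rcases Nat.lt_or_ge b' b with h1 | h1
      · exact Or.inl h1
      · right
        have h2 : b' = b := by omega
        refine ⟨?_, hb'b, by omega⟩
        by_contra hcon
        have h3 : m = 2 := by omega
        subst h3
        rcases h with h | h
        · omega
        · omega
    rw [hab']
    exact st_reflect hb0 (by omega) key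

/-- Stable subspaces of dimension `d` of `k^n ⊗ k^m`. -/
theorem kst_of_root {k : Type u} [Field k] {m n d : ℕ} (hm : 2 ≤ m) (hn : 1 ≤ n)
    (hd : (m - 1) * n < d) (hdm : d ≤ m * n) (hq : (n : ℤ) ^ 2 + (d : ℤ) ^ 2 ≤ m * n * d + 1) :
    KSt k m n d := by
  have h1 : (m - 1) * n + n = m * n := by
    have : m = (m - 1) + 1 := by omega
    conv_rhs => rw [this]
    ring
  have key : St k m n (m * n - d) := by
    refine st_of_root hm (n + (m * n - d)) n (m * n - d) le_rfl (Or.inl (by omega)) ?_
    push_cast [Nat.cast_sub hdm]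
    nlinarith
  have h2 := kst_of_st (by omega) key
  have h3 : m * n - (m * n - d) = d := by omega
  rwa [h3] at h2

end Pool.Agent.MP_09eaec.GG
end
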