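import Pool.Agent.Lib.MP_09eaec_ag.Mg.G006
import Pool.Agent.Lib.MP_09eaec_ag.Mg.G003
import Pool.Agent.Lib.MP_09eaec_ag.Mg.G005
import Pool.Agent.Lib.MP_09eaec_ag.GG.Coh
import Pool.Agent.Lib.MP_09eaec_ag.Mg.G016
import Pool.Agent.Lib.MP_09eaec_ag.Mg.G008
import Pool.Agent.Lib.MP_09eaec_ag.Mg.G012
import Pool.Agent.Lib.MP_09eaec_ag.Mg.G002
import Pool.Agent.Lib.MP_09eaec_ag.Mg.G009
import Pool.Agent.Lib.MP_09eaec_ag.Mg.G018
import Pool.Agent.Lib.MP_09eaec_ag.Mg.G007
import Pool.Agent.Lib.MP_09eaec_ag.Mg.G020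
import Pool.Agent.Lib.MP_09eaec_ag.Mg.G004

section

/-!
# TASK Pairing: Serre duality with the explicit pairing

`ω, κ` as in `exists_kappa` (GG/Kappa.lean). For `φ ∈ (hom Z (line κ)).H0` and `a ∈ Z.N`: `φ ∘ a ∈ (line κ).N`, so `ω (φ ∘ a) = 0`. The map
`φ ↦ (a ↦ ω (φ ∘ a))` from `(hom Z (line κ)).H0` to the dual of `Z.H1` is injective: if `ω (φ ∘ a) = 0` for all `a` then, for every `w : A`, with `x = φ w`:
`ω (x • b) = 0` for all `b : Place →₀ K` (take `a = b` times `w`), so `x = 0` (`omega_smul_injective` in GG/Omega). The dimensions agree (`serre`), so it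
is onto, and an `a` which is killed by all functionals is in `Z.N`.
-/

set_option autoImplicit false

namespace Pool.Agent.MP_09eaec.GG.G3

open Module

universe u v

variable {k : Type u} {K : Type v} [Field k] [Field K] [Algebra k K]
variable {W : Type v} [AddCommGroup W] [Module K W] [Module k W] [IsScalarTower k K W]
variable {A : Type v} [AddCommGroup A] [Module K A] [Module k A] [IsScalarTower k K A]
variable {B : Type v} [AddCommGroup B] [Module K B] [Module k B] [IsScalarTower k K B]

variable [CurveG k K]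

private noncomputable def Pairing_sm (k : Type u) {K : Type v} [Field k] [Field K] [Algebra k K]
    {W : Type v} [AddCommGroup W] [Module K W] [Module k W] [IsScalarTower k K W] (w : W) :
    (Place k K →₀ K) →ₗ[k] (Place k K →₀ W) :=
  Finsupp.mapRange.linearMap ((LinearMap.toSpanSingleton K W w).restrictScalars k)

omit [CurveG k K] in
private theorem Pairing_sm_apply (w : W) (a : Place k K →₀ K) (P : Place k K) :
    (Pairing_sm k w a) P = a P • w := rfl

private noncomputable def Pairing_mr (φ : W →ₗ[K] K) :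
    (Place k K →₀ W) →ₗ[k] (Place k K →₀ K) :=
  Finsupp.mapRange.linearMap (φ.restrictScalars k)

omit [CurveG k K] in
private theorem Pairing_mr_apply (φ : W →ₗ[K] K) (a : Place k K →₀ W) (P : Place k K) :
    (Pairing_mr φ a) P = φ (a P) := rfl

omit [CurveG k K] in
private theorem Pairing_mr_sm (φ : W →ₗ[K] K) (w : W) (a : Place k K →₀ K) :
    Pairing_mr φ (Pairing_sm k w a) = φ w • a := by
  ext Q
  rw [Pairing_mr_apply, Pairing_sm_apply, map_smul, Finsupp.smul_apply, smul_eq_mul, smul_eq_mul,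
    mul_comm]

theorem pairing {ω : (Place k K →₀ K) →ₗ[k] k} {κ : Dv k K} (h0 : ω ≠ 0)
    (h1 : ∀ (P : Place k K) (x : K), x ∈ (line κ).M P ↔
      ∀ c ∈ P.filt 0, ω (Finsupp.single P (c * x)) = 0)
    (h2 : ∀ a ∈ (line κ).N, ω a = 0) [FiniteDimensional K A] (Z : VB k K A)
    (a : Place k K →₀ A) :
    a ∈ Z.N ↔ ∀ φ ∈ (hom Z (line κ)).H0, ω (a.mapRange φ (map_zero _)) = 0 := by
  let Λ : (A →ₗ[K] K) →ₗ[k] Module.Dual k (Place k K →₀ A) :=
    { toFun := fun φ => ω ∘ₗ Pairing_mr φ
      map_add' := fun φ ψ => by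
        refine LinearMap.ext fun a => ?_
        show ω (Pairing_mr (φ + ψ) a) = ω (Pairing_mr φ a) + ω (Pairing_mr ψ a)
        rw [← map_add]
        congr 1
        ext P
        rfl
      map_smul' := fun c φ => by
        refine LinearMap.ext fun a => ?_
        show ω (Pairing_mr (c • φ) a) = c • ω (Pairing_mr φ a)
        rw [← map_smul]
        congr 1
        ext P
        rfl }
  have hΛ : ∀ φ a, Λ φ a = ω (Pairing_mr φ a) := fun _ _ => rfl
  have hinj : Function.Injective Λ := by
    rw [injective_iff_map_eq_zero]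
    intro φ hφ
    refine LinearMap.ext fun w => ?_
    refine omega_smul_injective h0 fun a => ?_
    rw [← Pairing_mr_sm, ← hΛ, hφ, LinearMap.zero_apply]
  have hle : (hom Z (line κ)).H0.map Λ ≤ Z.N.dualAnnihilator := by
    rintro _ ⟨φ, hφ, rfl⟩
    rw [Submodule.mem_dualAnnihilator]
    rintro a ⟨w, hw⟩
    rw [hΛ]
    refine h2 _ ⟨φ w, fun P => ?_⟩
    rw [Pairing_mr_apply, ← map_sub]
    exact mem_hom.1 (VB.mem_H0.1 hφ P) _ (hw P)
  have h3 : finrank k (hom Z (line κ)).H0 = finrank k ((hom Z (line κ)).H0.map Λ) :=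
    (Submodule.equivMapOfInjective Λ hinj _).finrank_eq
  have h4 : finrank k Z.H1 = finrank k Z.N.dualAnnihilator := by
    rw [← Subspace.dual_finrank_eq]
    exact (Z.N.dualQuotEquivDualAnnihilator).finrank_eq
  have h5 : Module.Finite k Z.N.dualAnnihilator :=
    Module.Finite.equiv (Z.N.dualQuotEquivDualAnnihilator)
  have h6 : finrank k Z.H1 = finrank k (hom Z (line κ)).H0 := by
    have := serre h0 h1 h2 Z
    unfold VB.h1 VB.h0 at this
    exact_mod_cast this
  have heq : (hom Z (line κ)).H0.map Λ = Z.N.dualAnnihilator := by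
    refine Submodule.eq_of_le_of_finrank_eq hle ?_
    rw [← h3, ← h4, h6]
  constructor
  · intro ha φ hφ
    have h7 := hle ⟨φ, hφ, rfl⟩
    rw [Submodule.mem_dualAnnihilator] at h7
    exact h7 a ha
  · intro h
    rw [← Subspace.forall_mem_dualAnnihilator_apply_eq_zero_iff]
    intro f hf
    rw [← heq] at hf
    obtain ⟨φ, hφ, rfl⟩ := hf
    exact h φ hφ

end Pool.Agent.MP_09eaec.GG.G3
end

section

/-!
# TASK Strong2: strong classes for a bundle of rank two

`ω, κ` from `exists_kappa`. `(hom Z (line κ)).h0 = Z.h1` (`serre`). Let `s 0, s 1` be as in `hs` (given for this `κ`: the statement takes `κ` and its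
properties as hypotheses). `U = {a | ω (s i ∘ a) = 0, i = 0, 1} ≥ Z.N`, of codimension at most two in `Place →₀ A`.
 * `P` is good if `y ∈ Z.M P` iff `s 0 y, s 1 y ∈ (line κ).M P`. All but finitely many `P` are good (`(s 0, s 1) : A ≃ (Fin 2 → K)`, two bundles on
   `Fin 2 → K` have the same stalks almost everywhere: `almost_standard` in GG/LocBasis for both).
 * If `P` is good, `a ∈ U` and `a ∈ (Z.twist (single P 1)).N` then `a ∈ Z.N`: there is `w` with `a Q - w` in the stalks of `Z.twist (single P 1)`; modulo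
   `Z.N` the element `a` is `Finsupp.single P z`, `z = a P - w ∈ (Z.twist (single P 1)).M P`. `y i = s i z` is in `(line (κ + single P 1)).M P` and
   `ω (single P (y i)) = 0`; for `c ∈ P.filt 0`, `c = c0 + c1`, `c0 : k`, `c1 ∈ P.filt 1` (`filt_residue`): `ω (single P (c * y i)) = 0` because
   `c1 * y i ∈ (line κ).M P`. So `y i ∈ (line κ).M P` for both `i`, `z ∈ Z.M P`, `a ∈ Z.N`.
 * For each of the finitely many bad `P`: `U` is not contained in `(Z.twist (single P 1)).N`: its codimension over `Z.N`: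
   `Z.h1 - (Z.twist (single P 1)).h1 ≤ 2` (`VB.rr`, `h0` monotone) and `U / Z.N` has dimension `≥ Z.h1 - 2 ≥ 3`.
 * `U` is not contained in `{a | a mod Y' ∈ (Z.quo Y').N}`, of codimension `(Z.quo Y').h1 ≥ 3`.
 `k` is infinite: choose `a ∈ U` outside `Z.N` and these finitely many subspaces (as in BG/Strong.lean).
-/

set_option autoImplicit false

namespace Pool.Agent.MP_09eaec.GG.G3

open Module

universe u v

variable {k : Type u} {K : Type v} [Field k] [Field K] [Algebra k K]
variable {W : Type v} [AddCommGroup W] [Module K W] [Module k W] [IsScalarTower k K W]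
variable {A : Type v} [AddCommGroup A] [Module K A] [Module k A] [IsScalarTower k K A]
variable {B : Type v} [AddCommGroup B] [Module K B] [Module k B] [IsScalarTower k K B]

variable [CurveG k K]

/-- `a ↦ (P ↦ φ (a P))`. -/
private noncomputable def Strong2_mr (φ : A →ₗ[K] B) :
    (Place k K →₀ A) →ₗ[k] (Place k K →₀ B) where
  toFun a := a.mapRange φ (map_zero _)
  map_add' a b := by
    ext P
    simp
  map_smul' c a := by
    ext P
    rw [Finsupp.mapRange_apply, Finsupp.smul_apply, RingHom.id_apply, Finsupp.smul_apply,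
      Finsupp.mapRange_apply, LinearMap.map_smul_of_tower]

omit [CurveG k K] in
private theorem Strong2_mr_apply (φ : A →ₗ[K] B) (a : Place k K →₀ A) (P : Place k K) :
    Strong2_mr φ a P = φ (a P) := Finsupp.mapRange_apply (hf := map_zero φ)

omit [CurveG k K] in
private theorem Strong2_mr_surjective {φ : A →ₗ[K] B} (h : Function.Surjective φ) :
    Function.Surjective (Strong2_mr (k := k) φ) := by
  intro b
  classical
  choose g hg using h
  refine ⟨b.mapRange (fun x => if x = 0 then 0 else g x) (by simp), ?_⟩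
  ext P
  rw [Strong2_mr_apply, Finsupp.mapRange_apply]
  split_ifs with h0
  · rw [h0, map_zero]
  · exact hg _

/-- A subspace which contains the kernels of two functionals has codimension at most two. -/
private theorem Strong2_codim {V : Type v} [AddCommGroup V] [Module k V] (f : Fin 2 → (V →ₗ[k] k))
    {S : Submodule k V} (h : ∀ a, (∀ i, f i a = 0) → a ∈ S) : finrank k (V ⧸ S) ≤ 2 := by
  have hker : LinearMap.ker (LinearMap.pi f) ≤ S := by
    intro a ha
    apply h
    intro i
    have := LinearMap.mem_ker.1 ha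
    exact congrFun this i
  have h1 : finrank k (V ⧸ LinearMap.ker (LinearMap.pi f)) ≤ 2 := by
    rw [(LinearMap.quotKerEquivRange (LinearMap.pi f)).finrank_eq]
    have := Submodule.finrank_le (LinearMap.range (LinearMap.pi f))
    rwa [Module.finrank_fin_fun] at this
  have hfin : Module.Finite k (V ⧸ LinearMap.ker (LinearMap.pi f)) :=
    Module.Finite.equiv (LinearMap.quotKerEquivRange (LinearMap.pi f)).symm
  have h2 := LinearMap.finrank_le_finrank_of_surjective (f := Submodule.factor hker)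
    (Submodule.factor_surjective hker)
  exact h2.trans h1

theorem strong2 {ω : (Place k K →₀ K) →ₗ[k] k} {κ : Dv k K} (h0 : ω ≠ 0)
    (h1 : ∀ (P : Place k K) (x : K), x ∈ (line κ).M P ↔
      ∀ c ∈ P.filt 0, ω (Finsupp.single P (c * x)) = 0)
    (h2 : ∀ a ∈ (line κ).N, ω a = 0) [FiniteDimensional K A] (hA : finrank K A = 2)
    {Z : VB k K A} (hZ : 5 ≤ Z.h1) {s : Fin 2 → (A →ₗ[K] K)}
    (hs : ∀ i, s i ∈ (hom Z (line κ)).H0) (hsli : LinearIndependent K s) {Y' : Submodule K A}
    (hY' : 3 ≤ (Z.quo Y').h1) :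
    ∃ a : Place k K →₀ A, a ∉ Z.N ∧ a.mapRange Y'.mkQ (map_zero _) ∉ (Z.quo Y').N ∧
      ∀ P : Place k K, a ∉ (Z.twist (Finsupp.single P 1)).N := by
  classical
  have := Curve.closed (k := k) (K := K)
  have := Curve.char (k := k) (K := K)
  have : Infinite k := IsAlgClosed.instInfinite
  -- the two functionals
  let f : Fin 2 → ((Place k K →₀ A) →ₗ[k] k) := fun i => ω ∘ₗ Strong2_mr (s i)
  have hf : ∀ i a, f i a = ω (Strong2_mr (s i) a) := fun _ _ => rfl
  -- the isomorphism of `A` with `K ^ 2`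
  have hinj : Function.Injective (LinearMap.pi s) := by
    rw [← LinearMap.ker_eq_bot]
    have h3 : finrank K (Dual K A) = 2 := by rw [Subspace.dual_finrank_eq, hA]
    let b : Basis (Fin 2) K (Dual K A) := basisOfLinearIndependentOfCardEqFinrank hsli (by
      rw [Fintype.card_fin]; exact h3.symm)
    have hb : ∀ i, b i = s i := fun i => by
      show basisOfLinearIndependentOfCardEqFinrank hsli _ i = s i
      rw [coe_basisOfLinearIndependentOfCardEqFinrank]
    rw [eq_bot_iff]
    intro x hx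
    rw [Submodule.mem_bot, ← Module.forall_dual_apply_eq_zero_iff K]
    intro φ
    rw [← b.sum_repr φ, LinearMap.sum_apply]
    apply Finset.sum_eq_zero
    intro i _
    rw [LinearMap.smul_apply, hb]
    have h4 := congrFun (LinearMap.mem_ker.1 hx) i
    rw [show s i x = 0 from h4, smul_zero]
  let e : A ≃ₗ[K] (Fin 2 → K) := LinearEquiv.ofInjectiveOfFinrankEq (LinearMap.pi s) hinj (by
    rw [hA, Module.finrank_fin_fun])
  have he : ∀ x i, e x i = s i x := fun _ _ => rfl
  -- the bad points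
  have hfin : ({P : Place k K | ¬ ∀ x, x ∈ (Z.map e).M P ↔ ∀ i, x i ∈ P.filt 0} ∪
      (κ.support : Set (Place k K))).Finite :=
    (VB.almost_standard (Z.map e)).union (Finset.finite_toSet _)
  let T : Finset (Place k K) := hfin.toFinset
  have hgood : ∀ P, P ∉ T → ∀ x : A, (∀ i, s i x ∈ (line κ).M P) → x ∈ Z.M P := by
    intro P hP x hx
    have h3 : P ∉ ({P : Place k K | ¬ ∀ x, x ∈ (Z.map e).M P ↔ ∀ i, x i ∈ P.filt 0} ∪
      (κ.support : Set (Place k K))) := fun h => hP (hfin.mem_toFinset.2 h)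
    rw [Set.mem_union, not_or, Set.mem_ofPred_eq, not_not, Finset.mem_coe,
      Finsupp.notMem_support_iff] at h3
    have h4 : e x ∈ (Z.map e).M P := by
      rw [h3.1]
      intro i
      have := hx i
      rw [mem_line, h3.2, neg_zero] at this
      rw [he]
      exact this
    rw [VB.mem_map, LinearEquiv.symm_apply_apply] at h4
    exact h4
  -- the subspaces to be avoided
  let S : Option (Option T) → Submodule k (Place k K →₀ A) := fun i => match i with
    | none => Z.N
    | some none => (Z.quo Y').N.comap (Strong2_mr Y'.mkQ)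
    | some (some P) => (Z.twist (Finsupp.single (P : Place k K) 1)).N
  have hS : ∀ i, 3 ≤ finrank k ((Place k K →₀ A) ⧸ S i) := by
    rintro (_ | _ | P)
    · show 3 ≤ finrank k ((Place k K →₀ A) ⧸ Z.N)
      unfold VB.h1 at hZ
      have : (3 : ℤ) ≤ (finrank k Z.H1 : ℤ) := by omega
      exact_mod_cast this
    · show 3 ≤ finrank k ((Place k K →₀ A) ⧸ (Z.quo Y').N.comap (Strong2_mr Y'.mkQ))
      have h3 : Function.Surjective ((Z.quo Y').N.mkQ ∘ₗ Strong2_mr (k := k) Y'.mkQ) :=
        (Submodule.mkQ_surjective _).comp (Strong2_mr_surjective Y'.mkQ_surjective)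
      have h4 : LinearMap.ker ((Z.quo Y').N.mkQ ∘ₗ Strong2_mr (k := k) Y'.mkQ) =
          (Z.quo Y').N.comap (Strong2_mr Y'.mkQ) := by
        rw [LinearMap.ker_comp, Submodule.ker_mkQ]
      have h5 := (LinearMap.quotKerEquivOfSurjective _ h3).finrank_eq
      rw [h4] at h5
      rw [h5]
      unfold VB.h1 at hY'
      exact_mod_cast hY'
    · show 3 ≤ finrank k ((Place k K →₀ A) ⧸ (Z.twist (Finsupp.single (P : Place k K) 1)).N)
      have h3 := VB.rr Z
      have h4 := VB.rr (Z.twist (Finsupp.single (P : Place k K) 1))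
      rw [VB.deg_twist, ddeg_single, hA] at h4
      rw [hA] at h3
      have h5 : Z ≤ Z.twist (Finsupp.single (P : Place k K) 1) := by
        intro Q x hx
        rw [VB.mem_twist]
        intro c hc
        refine Z.smul_mem Q c x (filt_mono Q ?_ hc) hx
        rw [Finsupp.single_apply]
        split_ifs <;> omega
      have h6 := h0_le_of_le h5
      have h7 : (3 : ℤ) ≤ (Z.twist (Finsupp.single (P : Place k K) 1)).h1 := by
        push_cast at h3 h4
        omega
      unfold VB.h1 at h7
      exact_mod_cast h7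
  -- the choice of `a`
  let U : Submodule k (Place k K →₀ A) := LinearMap.ker (LinearMap.pi f)
  have hU : ∀ a, a ∈ U ↔ ∀ i, f i a = 0 := by
    intro a
    rw [LinearMap.mem_ker]
    exact ⟨fun h i => congrFun h i, fun h => funext h⟩
  have hex : ∃ a : U, ∀ i, (a : Place k K →₀ A) ∉ S i := by
    by_contra hcon
    push Not at hcon
    let S' : Option (Option T) → Submodule k U := fun i => (S i).comap U.subtype
    have hS' : ⋃ i, (S' i : Set U) = Set.univ := by
      rw [Set.eq_univ_iff_forall]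
      intro u
      obtain ⟨i, hi⟩ := hcon u
      exact Set.mem_iUnion.2 ⟨i, hi⟩
    obtain ⟨i, hi⟩ := Subspace.exists_eq_top_of_iUnion_eq_univ (k := k) (E := U)
      (ι := Option (Option T)) (p := S') hS'
    have h3 := Strong2_codim f (S := S i) (fun a ha => by
      have h4 : (⟨a, (hU a).2 ha⟩ : U) ∈ S' i := by rw [hi]; trivial
      exact h4)
    have h4 := hS i
    omega
  obtain ⟨⟨a, haU⟩, haS⟩ := hex
  have ha0 : a ∉ Z.N := haS none
  have ha1 : a.mapRange Y'.mkQ (map_zero _) ∉ (Z.quo Y').N := haS (some none)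
  refine ⟨a, ha0, ha1, fun P hP => ?_⟩
  by_cases hT : P ∈ T
  · exact haS (some (some ⟨P, hT⟩)) hP
  · apply ha0
    obtain ⟨w, hw⟩ := hP
    have hw1 : ∀ Q, Q ≠ P → a Q - w ∈ Z.M Q := by
      intro Q hQ
      have h3 := VB.mem_twist.1 (hw Q) 1 (by
        rw [Finsupp.single_eq_of_ne hQ]
        right
        rw [Q.ord_one])
      rwa [one_smul] at h3
    have hw2 : ∀ c ∈ P.filt 1, c • (a P - w) ∈ Z.M P := by
      intro c hc
      exact VB.mem_twist.1 (hw P) c (by rwa [Finsupp.single_eq_same])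
    have hsM : ∀ i Q x, x ∈ Z.M Q → s i x ∈ (line κ).M Q := fun i Q x hx =>
      mem_hom.1 (VB.mem_H0.1 (hs i) Q) x hx
    have hz : a P - w ∈ Z.M P := by
      apply hgood P hT
      intro i
      -- `ω (single P (s i z)) = 0`
      have h3 : ω (Finsupp.single P (s i (a P - w))) = 0 := by
        have h4 : Strong2_mr (s i) (a - Finsupp.single P (a P - w)) ∈ (line κ).N := by
          refine ⟨s i w, fun Q => ?_⟩
          rw [Strong2_mr_apply, ← map_sub]
          apply hsM
          by_cases hQ : Q = P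
          · subst hQ
            rw [Finsupp.sub_apply, Finsupp.single_eq_same]
            have : a Q - (a Q - w) - w = 0 := by abel
            rw [this]
            exact zero_mem _
          · rw [Finsupp.sub_apply, Finsupp.single_eq_of_ne hQ, sub_zero]
            exact hw1 Q hQ
        have h5 := h2 _ h4
        rw [map_sub, map_sub] at h5
        have h6 : ω (Strong2_mr (s i) a) = 0 := (hU a).1 haU i
        have h7 : Strong2_mr (k := k) (s i) (Finsupp.single P (a P - w)) =
            Finsupp.single P (s i (a P - w)) := by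
          ext Q
          rw [Strong2_mr_apply, Finsupp.single_apply, Finsupp.single_apply]
          split_ifs
          · rfl
          · exact map_zero _
        rw [h6, h7, zero_sub, neg_eq_zero] at h5
        exact h5
      rw [h1]
      intro c hc
      obtain ⟨c0, hc0⟩ := filt_residue hc
      have h4 : ω (Finsupp.single P ((c - algebraMap k K c0) * s i (a P - w))) = 0 := by
        have h5 := hsM i P _ (hw2 _ hc0)
        rw [map_smul, smul_eq_mul] at h5
        have h6 := (h1 P _).1 h5 1 (Or.inr (by rw [P.ord_one]))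
        rwa [one_mul] at h6
      have h5 : c * s i (a P - w) = (c - algebraMap k K c0) * s i (a P - w) +
          c0 • s i (a P - w) := by
        rw [Algebra.smul_def]
        ring
      rw [h5, Finsupp.single_add, map_add, h4, zero_add, ← Finsupp.smul_single, map_smul, h3,
        smul_zero]
    refine ⟨w, fun Q => ?_⟩
    by_cases hQ : Q = P
    · subst hQ
      exact hz
    · exact hw1 Q hQ


/-- Without the strong condition: two proper subspaces are avoided. -/
theorem weak2 [FiniteDimensional K A] {Z : VB k K A} {Y' : Submodule K A} (hY' : 1 ≤ (Z.quo Y').h1) :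
    ∃ a : Place k K →₀ A, a ∉ Z.N ∧ a.mapRange Y'.mkQ (map_zero _) ∉ (Z.quo Y').N := by
  have h1 : (Z.quo Y').N ≠ ⊤ := by
    intro h
    have := (VB.h1_eq_zero_iff (Z.quo Y')).2 h
    omega
  obtain ⟨b, hb⟩ : ∃ b, b ∉ (Z.quo Y').N := by
    by_contra hcon
    push Not at hcon
    exact h1 (eq_top_iff.2 fun b _ => hcon b)
  obtain ⟨a, rfl⟩ := Strong2_mr_surjective Y'.mkQ_surjective b
  refine ⟨a, fun ha => hb ?_, hb⟩
  obtain ⟨w, hw⟩ := ha
  refine ⟨Y'.mkQ w, fun P => ?_⟩
  rw [Strong2_mr_apply, ← map_sub]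
  exact VB.mem_quo.2 ⟨_, hw P, rfl⟩

end Pool.Agent.MP_09eaec.GG.G3
end

section

/-!
# TASK HBK: sections of the subspaces of a good bundle

`Y = G.sub J`, `r = rank J`. `exk < 0` means `deg Y < 3 x r` (unmarked), `deg Y < 3 x r - 2 x + 4` (marked, `J ≠ ⊤`).
* `hbk`: strong induction on `finrank K J`, both statements together. If `Y.h1 = 0`: `Y.h0 = deg Y - 2 r` (`VB.rr`, `gen = 3`): unmarked `< (3 x - 2) r`; marked
  `< 3 x r - 2 x + 4 - 2 r = (3 x - 2) (r - 1) + x + 2`. Otherwise `φ ≠ 0` from `Y` to `line κ` (`h1_pos_hom`), kernel `G.sub J1` of rank `r - 1`, `J1 = (ker φ).map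
  J.subtype`, `Y.h0 ≤ (G.sub J1).h0 + 3` (`ker_bounds` with `V = Y.H0`, `h0_sub_sub`, `h0_sub_eq`). `J1 = ⊥`: `h0 = 0`; note `3 < 3 x - 2` and `3 < x + 2`. `J` unmarked:
  `J1` is unmarked. `J` marked, `J1` marked: add `3 ≤ 3 x - 2`. `J` marked, `J1` unmarked (or `⊥`): `h0 ≤ (3 x - 2) (r - 1) + 3`.
* `good_h1`: if `G.h1 ≠ 0`: `φ ≠ 0` from `G` to `line κ`, `J1 = ker φ` of rank `m`: `G.h0 ≤ (G.sub J1).h0 + 3 < (3 x - 2) m + 3` (unmarked) or `≤ (3 x - 2) (m - 1) + x + 2 + 3`
  (marked; `hbk`; `m ≥ 1`, `J1 ≠ ⊥`), but `G.h0 ≥ deg G - 2 (m + 1) = (3 x - 2) m + x + 2`. `x > 2`.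
* `good_h1_point`: if `h1 (G.twist (-single P 1)) ≠ 0`: `φ ≠ 0` from `G` to `line (κ + single P 1)` (`hκ.dual`, `hom_twist_line`), whose `h0` is at most three (degree five:
  `VB.rr`, `h1 (line (κ + single P 1)) = h0 (line (-single P 1)) = 0`). As before.
-/

set_option autoImplicit false

namespace Pool.Agent.MP_09eaec.GG.G3

open Module

universe u v

variable {k : Type u} {K : Type v} [Field k] [Field K] [Algebra k K]
variable {W : Type v} [AddCommGroup W] [Module K W] [Module k W] [IsScalarTower k K W]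
variable {A : Type v} [AddCommGroup A] [Module K A] [Module k A] [IsScalarTower k K A]
variable {B : Type v} [AddCommGroup B] [Module K B] [Module k B] [IsScalarTower k K B]

variable [CurveG k K]

/-- The kernel of a homomorphism from a subbundle to a line bundle. -/
private theorem HBK_step [FiniteDimensional K A] (G : VB k K A) (J : Submodule K A) {D : Dv k K}
    {ψ : J →ₗ[K] K} (hψ : ψ ≠ 0) (h : ∀ P x, x ∈ (G.sub J).M P → ψ x ∈ (line D).M P) :
    ∃ J1 : Submodule K A, J1 ≤ J ∧ finrank K J1 + 1 = finrank K J ∧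
      (G.sub J).h0 ≤ (G.sub J1).h0 + (line D).h0 := by
  obtain ⟨-, h2, h3⟩ := ker_bounds hψ h
  have h4 := h3 (G.sub J).H0 le_rfl
  have h5 : (finrank k (G.sub J).H0 : ℤ) = (G.sub J).h0 := rfl
  have h6 : (finrank k ↥((G.sub J).H0 ⊓ (LinearMap.ker ψ).restrictScalars k) : ℤ) =
      (G.sub ((LinearMap.ker ψ).map J.subtype)).h0 := by
    rw [← VB.h0_sub_sub, VB.h0_sub_eq]
  rw [h5, h6] at h4
  refine ⟨(LinearMap.ker ψ).map J.subtype, Submodule.map_subtype_le J _, ?_, h4⟩
  rw [Submodule.finrank_map_subtype_eq]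
  omega

private theorem HBK_pos {J : Submodule K A} [FiniteDimensional K A] (hJ : J ≠ ⊥) :
    1 ≤ finrank K J := by
  haveI := Submodule.nontrivial_iff_ne_bot.2 hJ
  exact finrank_pos

private theorem HBK_main (hg : gen k K = 3) {κ : Dv k K} (hκ : IsCanonical κ) {x : ℝ}
    (hx : 2 < x) {m : ℕ} [FiniteDimensional K A] {G : VB k K A} {s0 : A} (hG : GoodG κ x m G s0)
    (n : ℕ) : ∀ J : Submodule K A, finrank K J = n →
    (J ≠ ⊥ → s0 ∉ J → ((G.sub J).h0 : ℝ) < (3 * x - 2) * finrank K J) ∧
    (J ≠ ⊤ → s0 ∈ J → ((G.sub J).h0 : ℝ) < (3 * x - 2) * (finrank K J - 1) + x + 2) := by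
  induction n using Nat.strong_induction_on with
  | _ n ih =>
    intro J hJn
    have hcase : J ≠ ⊥ → (G.sub J).h1 = 0 ∨ ∃ J1 : Submodule K A, J1 ≤ J ∧
        finrank K J1 + 1 = finrank K J ∧ (G.sub J).h0 ≤ (G.sub J1).h0 + 3 := by
      intro _
      by_cases h1 : (G.sub J).h1 = 0
      · exact Or.inl h1
      · obtain ⟨ψ, hψ, h⟩ := h1_pos_hom hκ h1
        obtain ⟨J1, a1, a2, a3⟩ := HBK_step G J hψ h
        rw [hκ.h0, hg] at a3
        exact Or.inr ⟨J1, a1, a2, a3⟩
    have hrr := VB.rr (G.sub J)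
    rw [hg] at hrr
    constructor
    · intro hJ hs
      have hJT : J ≠ ⊤ := by
        rintro rfl
        exact hs trivial
      have hneg := hG.neg J hJ hJT
      rw [exk_of_notMem hs] at hneg
      rcases hcase hJ with h1 | ⟨J1, a1, a2, a3⟩
      · rw [h1] at hrr
        have h2 : ((G.sub J).h0 : ℝ) = (G.sub J).deg - 2 * finrank K J := by
          rw [hrr]
          push_cast
          ring
        rw [h2]
        linarith
      · have a3' : ((G.sub J).h0 : ℝ) ≤ (G.sub J1).h0 + 3 := by exact_mod_cast a3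
        have a2' : (finrank K J : ℝ) = finrank K J1 + 1 := by exact_mod_cast a2.symm
        by_cases hJ1 : J1 = ⊥
        · subst hJ1
          rw [VB.h0_sub_bot] at a3'
          rw [finrank_bot] at a2'
          rw [a2']
          push_cast at a3' ⊢
          linarith
        · have h3 := (ih (finrank K J1) (by omega) J1 rfl).1 hJ1 (fun h => hs (a1 h))
          rw [a2']
          linarith
    · intro hJT hs
      have hJ : J ≠ ⊥ := by
        rintro rfl
        exact hG.ne ((Submodule.mem_bot K).1 hs)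
      have hneg := hG.neg J hJ hJT
      rw [exk_of_mem hs] at hneg
      rcases hcase hJ with h1 | ⟨J1, a1, a2, a3⟩
      · rw [h1] at hrr
        have h2 : ((G.sub J).h0 : ℝ) = (G.sub J).deg - 2 * finrank K J := by
          rw [hrr]
          push_cast
          ring
        rw [h2]
        linarith
      · have a3' : ((G.sub J).h0 : ℝ) ≤ (G.sub J1).h0 + 3 := by exact_mod_cast a3
        have a2' : (finrank K J : ℝ) = finrank K J1 + 1 := by exact_mod_cast a2.symm
        by_cases hs1 : s0 ∈ J1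
        · have hJ1T : J1 ≠ ⊤ := by
            rintro rfl
            exact hJT (top_le_iff.1 a1)
          have h3 := (ih (finrank K J1) (by omega) J1 rfl).2 hJ1T hs1
          rw [a2']
          linarith
        · by_cases hJ1 : J1 = ⊥
          · subst hJ1
            rw [VB.h0_sub_bot] at a3'
            rw [finrank_bot] at a2'
            rw [a2']
            push_cast at a3' ⊢
            linarith
          · have h3 := (ih (finrank K J1) (by omega) J1 rfl).1 hJ1 hs1
            rw [a2']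
            linarith

theorem hbk (hg : gen k K = 3) {κ : Dv k K} (hκ : IsCanonical κ) {x : ℝ} (hx : 2 < x) {m : ℕ}
    [FiniteDimensional K A] {G : VB k K A} {s0 : A} (hG : GoodG κ x m G s0) (J : Submodule K A) :
    (J ≠ ⊥ → s0 ∉ J → ((G.sub J).h0 : ℝ) < (3 * x - 2) * finrank K J) ∧
    (J ≠ ⊤ → s0 ∈ J → ((G.sub J).h0 : ℝ) < (3 * x - 2) * (finrank K J - 1) + x + 2) := by
  exact HBK_main hg hκ hx hG (finrank K J) J rfl

/-- The common part of the two vanishing statements. -/
private theorem HBK_van (hg : gen k K = 3) {κ : Dv k K} (hκ : IsCanonical κ) {x : ℝ}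
    (hx : 2 < x) {m : ℕ} (hm : 1 ≤ m) [FiniteDimensional K A] {G : VB k K A} {s0 : A}
    (hG : GoodG κ x m G s0) {D : Dv k K} (hD : (line D : VB k K K).h0 ≤ 3) {φ : A →ₗ[K] K}
    (hφ : φ ≠ 0) (h : ∀ P x, x ∈ G.M P → φ x ∈ (line D).M P) : False := by
  obtain ⟨-, h2, h3⟩ := ker_bounds hφ h
  have h4 := h3 G.H0 le_rfl
  have h5 : (finrank k G.H0 : ℤ) = G.h0 := rfl
  have h6 : (finrank k ↥(G.H0 ⊓ (LinearMap.ker φ).restrictScalars k) : ℤ) =
      (G.sub (LinearMap.ker φ)).h0 := by
    rw [VB.h0_sub_eq]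
  rw [h5, h6] at h4
  rw [hG.rank] at h2
  have h7 : finrank K (LinearMap.ker φ) = m := by
    push_cast at h2
    omega
  have hT : LinearMap.ker φ ≠ ⊤ := fun hT => hφ (LinearMap.ker_eq_top.1 hT)
  have hB : LinearMap.ker φ ≠ ⊥ := by
    intro hB
    rw [hB, finrank_bot] at h7
    omega
  have hrr := VB.rr G
  rw [hg, hG.rank] at hrr
  have h1n := VB.h1_nonneg G
  have h8 : (G.h0 : ℝ) = G.deg - 2 * (m + 1) + G.h1 := by
    rw [hrr]
    push_cast
    ring
  have h9 : (0 : ℝ) ≤ G.h1 := by exact_mod_cast h1n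
  have h10 := hG.deg
  have h11 : (G.h0 : ℝ) ≤ (G.sub (LinearMap.ker φ)).h0 + 3 := by
    have : G.h0 ≤ (G.sub (LinearMap.ker φ)).h0 + 3 := by omega
    exact_mod_cast this
  by_cases hs : s0 ∈ LinearMap.ker φ
  · have h12 := (hbk hg hκ hx hG (LinearMap.ker φ)).2 hT hs
    rw [h7] at h12
    nlinarith
  · have h12 := (hbk hg hκ hx hG (LinearMap.ker φ)).1 hB hs
    rw [h7] at h12
    nlinarith

theorem good_h1 (hg : gen k K = 3) {κ : Dv k K} (hκ : IsCanonical κ) {x : ℝ} (hx : 2 < x)
    {m : ℕ} (hm : 1 ≤ m) [FiniteDimensional K A] {G : VB k K A} {s0 : A}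
    (hG : GoodG κ x m G s0) : G.h1 = 0 := by
  by_contra h1
  obtain ⟨φ, hφ, h⟩ := h1_pos_hom hκ h1
  exact HBK_van hg hκ hx hm hG (by rw [hκ.h0, hg]) hφ h

theorem good_h1_point (hg : gen k K = 3) {κ : Dv k K} (hκ : IsCanonical κ) {x : ℝ}
    (hx : 2 < x) {m : ℕ} (hm : 1 ≤ m) [FiniteDimensional K A] {G : VB k K A} {s0 : A}
    (hG : GoodG κ x m G s0) (P : Place k K) : (G.twist (-Finsupp.single P 1)).h1 = 0 := by
  by_contra h1
  rw [hκ.dual A (G.twist (-Finsupp.single P 1)), hom_twist_line, sub_neg_eq_add] at h1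
  have h2 : (hom G (line (κ + Finsupp.single P 1))).H0 ≠ ⊥ := by
    intro h3
    apply h1
    rw [VB.h0, h3, finrank_bot]
    rfl
  obtain ⟨φ, hφ, hφ0⟩ := Submodule.exists_mem_ne_zero_of_ne_bot h2
  have h3 : (line (κ + Finsupp.single P 1) : VB k K K).h1 = 0 := by
    obtain ⟨f, -, hf⟩ := hom_line_line (κ + Finsupp.single P 1) κ
    rw [hκ.dual K, ← VB.h0_map _ f, hf, VB.h0, H0_line_of_neg, finrank_bot]
    · rfl
    · rw [ddeg_sub, ddeg_add, ddeg_single]
      omega
  have h4 : (line (κ + Finsupp.single P 1) : VB k K K).h0 ≤ 3 := by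
    rw [VB.rr, h3, VB.deg_line, ddeg_add, ddeg_single, hκ.ddeg, hg, finrank_self]
    norm_num
  exact HBK_van hg hκ hx hm hG h4 hφ0 (fun Q y hy => VB.mem_H0.1 hφ Q y hy)

end Pool.Agent.MP_09eaec.GG.G3
end
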