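import Pool.Agent.Lib.MP_09eaec_ag.Mg.G027
import Pool.Agent.Lib.MP_09eaec_ag.Mg.G001
import Pool.Agent.Lib.MP_09eaec_ag.Mg.G016
import Pool.Agent.Lib.MP_09eaec_ag.Mg.G028
import Pool.Agent.Lib.MP_09eaec_ag.Mg.G020
import Pool.Agent.Lib.MP_09eaec_ag.Mg.G007
import Pool.Agent.Lib.MP_09eaec_ag.Mg.G002
import Pool.Agent.Lib.MP_09eaec_ag.Mg.G018
import Pool.Agent.Lib.MP_09eaec_ag.Mg.G003

section

/-!
# The chain (assembled by helper22)
-/

set_option autoImplicit false

namespace Pool.Agent.MP_09eaec.GG.G3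

open Module

universe u v

variable {k : Type u} {K : Type v} [Field k] [Field K] [Algebra k K]
variable {W : Type v} [AddCommGroup W] [Module K W] [Module k W] [IsScalarTower k K W]
variable {A : Type v} [AddCommGroup A] [Module K A] [Module k A] [IsScalarTower k K A]
variable {B : Type v} [AddCommGroup B] [Module K B] [Module k B] [IsScalarTower k K B]

variable [CurveG k K]

/-- The class for the first step. -/
private theorem ChainG_class (hg : gen k K = 3) {x r1 r2 : ℝ} (hx : 2 < x) {l e : ℤ}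
    (h1 : (l : ℝ) = r1 + 4 * x) (h1a : -1 ≤ r1) (h1b : r1 < 0) (he : (e : ℝ) = r2 - r1 + 3 * x)
    (h2a : -1 ≤ r2) (h2b : r2 ≤ 0) {X : VB k K (K × K)} {Y' : Submodule K (K × K)}
    (hX : X.deg = 4 + l)
    (hall : ∀ J : Submodule K (K × K), J ≠ ⊥ → J ≠ ⊤ → J ≠ Y' →
        exk (-3 * x) (2 * x - 4) ((1, 0) : K × K) X J < l - 4 * x)
    (hY : Y' = ⊥ ∨ (finrank K Y' = 1 ∧ exk (-3 * x) (2 * x - 4) ((1, 0) : K × K) X Y' < 0 ∧
        ((X.quo Y').deg : ℝ) ≤ 4 + x)) (P0 : Place k K) :
    ∃ a : Place k K →₀ (K × K), a ∉ (X.twist (-Finsupp.single P0 e)).N ∧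
      a.mapRange Y'.mkQ (map_zero _) ∉ ((X.quo Y').twist (-Finsupp.single P0 e)).N ∧
      (r1 = -1 → ∀ P : Place k K,
        a ∉ (X.twist (-(Finsupp.single P0 e - Finsupp.single P 1))).N) := by
  obtain ⟨f1, f2, f3, f4, f5⟩ := first_step hx h1 h1a h1b he h2a h2b
  have hA : finrank K (K × K) = 2 := by rw [Module.finrank_prod, Module.finrank_self]
  set Z := X.twist (-Finsupp.single P0 e) with hZdef
  have hZq : Z.quo Y' = (X.quo Y').twist (-Finsupp.single P0 e) := VB.twist_quo X _ Y'
  have hdneg : ddeg (-Finsupp.single P0 e : Dv k K) = -e := by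
    rw [ddeg_neg, ddeg_single]
  have hZd : Z.deg = 4 + l - 2 * e := by
    rw [hZdef, VB.deg_twist, hA, hX, hdneg]
    push_cast
    ring
  have hZ1 : 2 * e - l ≤ Z.h1 := by
    have h := VB.rr Z
    have h' := VB.h0_nonneg Z
    rw [hA, hg, hZd] at h
    push_cast at h
    linarith
  -- the quotient
  have hq1 : (1 ≤ (Z.quo Y').h1) ∧ (r1 = -1 → 3 ≤ (Z.quo Y').h1) := by
    have hr := VB.rr (Z.quo Y')
    have h' := VB.h0_nonneg (Z.quo Y')
    rcases hY with rfl | ⟨hY1, -, hY2⟩
    · have hfr : finrank K ((K × K) ⧸ (⊥ : Submodule K (K × K))) = 2 := by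
        have := Submodule.finrank_quotient_add_finrank (⊥ : Submodule K (K × K))
        rw [finrank_bot, hA] at this
        omega
      rw [hfr, hg, VB.deg_quo_bot, hZd] at hr
      push_cast at hr
      refine ⟨by linarith, fun h => ?_⟩
      have := f2 h
      linarith
    · have hfr : finrank K ((K × K) ⧸ Y') = 1 := by
        have := Submodule.finrank_quotient_add_finrank Y'
        rw [hY1, hA] at this
        omega
      have hdq : (Z.quo Y').deg = (X.quo Y').deg - e := by
        rw [hZq, VB.deg_twist, hfr, hdneg]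
        push_cast
        ring
      rw [hfr, hg, hdq] at hr
      push_cast at hr
      have hge : (e : ℤ) - (X.quo Y').deg + 2 ≤ (Z.quo Y').h1 := by linarith
      have hgeR : (e : ℝ) - (X.quo Y').deg + 2 ≤ (Z.quo Y').h1 := by exact_mod_cast hge
      constructor
      · have : (1 : ℝ) ≤ (Z.quo Y').h1 := by linarith
        exact_mod_cast this
      · intro h
        have h4 := f4 h
        have : (2 : ℝ) < (Z.quo Y').h1 := by linarith
        have h5 : (2 : ℤ) < (Z.quo Y').h1 := by exact_mod_cast this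
        omega
  by_cases hr1 : r1 = -1
  · -- strong case
    obtain ⟨ω, κ', k0, k1, k2⟩ := exists_kappa (k := k) (K := K)
    have h5 : 5 ≤ Z.h1 := by
      have := f2 hr1
      linarith
    have hsub : ∀ J : Submodule K (K × K), finrank K J = 1 →
        (X.sub J).deg < ddeg (Finsupp.single P0 e : Dv k K) + 2 := by
      intro J hJ
      rw [ddeg_single]
      have hJb : J ≠ ⊥ := by
        rintro rfl
        rw [finrank_bot] at hJ
        omega
      have hJt : J ≠ ⊤ := by
        rintro rfl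
        rw [finrank_top, hA] at hJ
        omega
      have hex : exk (-3 * x) (2 * x - 4) ((1, 0) : K × K) X J < 0 := by
        by_cases hJY : J = Y'
        · rcases hY with h | ⟨-, h, -⟩
          · exact absurd (hJY.trans h) hJb
          · rw [hJY]; exact h
        · have := hall J hJb hJt hJY
          linarith
      have hlt : ((X.sub J).deg : ℝ) < 3 * x := by
        unfold exk at hex
        rw [hJ] at hex
        split_ifs at hex <;> push_cast at hex <;> linarith
      have : ((X.sub J).deg : ℝ) < e + 2 := by linarith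
      exact_mod_cast this
    obtain ⟨s, hs1, hs2⟩ := pairK hg k0 k1 k2 hA h5 hsub
    obtain ⟨a, a1, a2, a3⟩ := strong2 k0 k1 k2 hA h5 hs1 hs2 (hq1.2 hr1)
    refine ⟨a, a1, ?_, fun _ P => ?_⟩
    · rw [← hZq]; exact a2
    · have h := a3 P
      rw [hZdef, VB.twist_twist] at h
      rwa [neg_sub, sub_eq_neg_add]
  · obtain ⟨a, a1, a2⟩ := weak2 (Z := Z) hq1.1
    refine ⟨a, a1, ?_, fun h => absurd h hr1⟩
    rw [← hZq]; exact a2

/-- The data which are carried along the chain. -/
private def ChainG_P (κ : Dv k K) (x ρ : ℝ) (s : ℕ) (e : ℤ) (P0 : Place k K)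
    (X : VB k K (Fin s → K)) (s0 : Fin s → K) (q : (Fin s → K) →ₗ[K] K) : Prop :=
  s0 ≠ 0 ∧ (∀ (P : Place k K) (c : K), c • s0 ∈ X.M P ↔ c ∈ (line κ).M P) ∧
    TopK (-3 * x) (2 * x - 4) ρ s0 X q (Finsupp.single P0 e) ∧
    PropK (-3 * x) (2 * x - 4) s0 X ∧ (ρ < 0 → NegK (-3 * x) (2 * x - 4) s0 X)

private theorem ChainG_transport {κ : Dv k K} {x ρ : ℝ} {s : ℕ} {e : ℤ} {P0 : Place k K}
    [FiniteDimensional K A] (hA : finrank K A = s) {X : VB k K A} {s0 : A} {q : A →ₗ[K] K}
    (h0 : s0 ≠ 0) (h1 : ∀ (P : Place k K) (c : K), c • s0 ∈ X.M P ↔ c ∈ (line κ).M P)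
    (h2 : TopK (-3 * x) (2 * x - 4) ρ s0 X q (Finsupp.single P0 e))
    (h3 : PropK (-3 * x) (2 * x - 4) s0 X) (h4 : ρ < 0 → NegK (-3 * x) (2 * x - 4) s0 X) :
    ∃ (X' : VB k K (Fin s → K)) (s0' : Fin s → K) (q' : (Fin s → K) →ₗ[K] K),
      ChainG_P κ x ρ s e P0 X' s0' q' := by
  have hfr : finrank K A = finrank K (Fin s → K) := by rw [hA, Module.finrank_fin_fun]
  let f : A ≃ₗ[K] (Fin s → K) := LinearEquiv.ofFinrankEq _ _ hfr
  exact ⟨X.map f, f s0, q ∘ₗ f.symm.toLinearMap, fun h => h0 (by simpa using h),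
    mark_map f h1, topK_map h2 f, propK_map h3 f, fun h => negK_map (h4 h) f⟩

private theorem ChainG_first (hg : gen k K = 3) {κ : Dv k K} (hκ : IsCanonical κ) {x r2 : ℝ}
    (hx : 2 < x) {e : ℤ} (he : (e : ℝ) = r2 - rG x 1 + 3 * x)
    (h2a : -1 ≤ r2) (h2b : r2 ≤ 0) (P0 : Place k K) :
    ∃ (X : VB k K (Fin 3 → K)) (s0 : Fin 3 → K) (q : (Fin 3 → K) →ₗ[K] K),
      ChainG_P κ x r2 3 e P0 X s0 q := by
  have hl : dG x 1 = ⌈4 * x⌉ - 1 := by
    unfold dG
    norm_num
  have hr : (dG x 1 : ℝ) = rG x 1 + 4 * x := by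
    unfold rG
    push_cast
    ring
  obtain ⟨X, Y', hmark, hX, hall, hY⟩ := exists_G1 hg hκ hx hl
  have hA : finrank K (K × K) = 2 := by rw [Module.finrank_prod, Module.finrank_self]
  have hs0 : ((1, 0) : K × K) ≠ 0 := by simp
  have htot : exk (-3 * x) (2 * x - 4) ((1, 0) : K × K) X ⊤ = rG x 1 := by
    rw [exk_of_mem (Submodule.mem_top), VB.deg_sub_top, finrank_top, hA, hX]
    push_cast
    linarith
  have hall' : ∀ J : Submodule K (K × K), J ≠ ⊥ → J ≠ ⊤ → J ≠ Y' →
      exk (-3 * x) (2 * x - 4) ((1, 0) : K × K) X J < rG x 1 := by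
    intro J h1 h2 h3
    have := hall J h1 h2 h3
    linarith
  have hN : NegK (-3 * x) (2 * x - 4) ((1, 0) : K × K) X := by
    intro J hJ
    by_cases hJt : J = ⊤
    · rw [hJt, htot]
      exact rG_lt x 1
    by_cases hJY : J = Y'
    · rcases hY with h | ⟨-, h, -⟩
      · exact absurd (hJY.trans h) hJ
      · rw [hJY]; exact h
    · exact (hall' J hJ hJt hJY).trans (rG_lt x 1)
  obtain ⟨a, a1, a2, a3⟩ := ChainG_class hg hx hr (rG_ge x 1) (rG_lt x 1) he h2a h2b hX hall hY P0
  obtain ⟨u, u1, u2, u3⟩ := topR_step hs0 hN htot hall' (rG_ge x 1) a1 a2 a3 (ρ' := r2) (by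
    rw [ddeg_single, he]
    ring) h2b
  have hA3 : finrank K ((K × K) × K) = 3 := by rw [Module.finrank_prod, hA, Module.finrank_self]
  exact ChainG_transport hA3 (fun h => hs0 (congrArg Prod.fst h)) (mark_ext hmark) u1 u2 u3

private theorem ChainG_step (hg : gen k K = 3) {κ : Dv k K} {x ρ ρ' : ℝ} {s : ℕ} {e e' : ℤ}
    {P0 : Place k K} {X : VB k K (Fin s → K)} {s0 : Fin s → K} {q : (Fin s → K) →ₗ[K] K}
    (h : ChainG_P κ x ρ s e P0 X s0 q) (hρ : -1 ≤ ρ) (hρ0 : ρ < 0) (he : e - e' ≤ 1)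
    (he' : ρ = -1 → e ≤ e') (hρ' : ρ' = ρ + e' + -3 * x) (h0 : ρ' ≤ 0) :
    ∃ (X' : VB k K (Fin (s + 1) → K)) (s0' : Fin (s + 1) → K) (q' : (Fin (s + 1) → K) →ₗ[K] K),
      ChainG_P κ x ρ' (s + 1) e' P0 X' s0' q' := by
  obtain ⟨hs0, hmark, hT, -, hN⟩ := h
  have hc : ∃ c : Place k K →₀ K,
      c ∉ (line (Finsupp.single P0 e - Finsupp.single P0 e') : VB k K K).N ∧
      (ρ = -1 → ∀ P : Place k K,
        c ∉ (line (Finsupp.single P0 e - Finsupp.single P0 e' + Finsupp.single P 1) : VB k K K).N) := by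
    by_cases h : ρ = -1
    · obtain ⟨c, hc1, hc2⟩ := BG.exists_strong_single (by omega) P0 (he' h)
      exact ⟨c, hc1, fun _ => hc2⟩
    · obtain ⟨c, hc⟩ := BG.exists_class (k := k) (K := K)
        (Δ := Finsupp.single P0 e - Finsupp.single P0 e') (by
          rw [ddeg_sub, ddeg_single, ddeg_single]
          omega)
      exact ⟨c, hc, fun h' => absurd h' h⟩
  obtain ⟨c, hc1, hc2⟩ := hc
  obtain ⟨u, h1, h2, h3⟩ := topK_step hs0 (hN hρ0) hT hρ hc1 hc2 (ρ' := ρ') (by
    rw [hρ', ddeg_single]) h0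
  have hfr : finrank K ((Fin s → K) × K) = s + 1 := by
    rw [Module.finrank_prod, Module.finrank_fin_fun, Module.finrank_self]
  exact ChainG_transport hfr (fun h => hs0 (congrArg Prod.fst h)) (mark_ext hmark) h1 h2 h3

private theorem ChainG_chain (hg : gen k K = 3) {κ : Dv k K} (hκ : IsCanonical κ) {x : ℝ}
    (hx : 2 < x) (P0 : Place k K) (i : ℕ) :
    ∃ (X : VB k K (Fin (i + 3) → K)) (s0 : Fin (i + 3) → K) (q : (Fin (i + 3) → K) →ₗ[K] K),
      ChainG_P κ x (rG x (i + 2)) (i + 3) (dG x (i + 2) - dG x (i + 1)) P0 X s0 q := by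
  induction i with
  | zero =>
    refine ChainG_first hg hκ hx ?_ (rG_ge x 2) (rG_lt x 2).le P0
    have := rG_succ x 1
    norm_num at this ⊢
    linarith
  | succ i ih =>
    obtain ⟨X, s0, q, h⟩ := ih
    exact ChainG_step hg h (rG_ge x (i + 2)) (rG_lt x (i + 2)) (dG_diff x (i + 1))
      (fun h' => dG_diff' x (i + 1) h') (rG_succ x (i + 2)) (rG_lt x (i + 3)).le

private theorem ChainG_good {κ : Dv k K} {x : ℝ} {m : ℕ} {X : VB k K (Fin (m + 1) → K)}
    {s0 : Fin (m + 1) → K} (hs0 : s0 ≠ 0)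
    (hmark : ∀ (P : Place k K) (c : K), c • s0 ∈ X.M P ↔ c ∈ (line κ).M P)
    (htot : exk (-3 * x) (2 * x - 4) s0 X ⊤ = 0) (hP : PropK (-3 * x) (2 * x - 4) s0 X) :
    GoodG κ x m X s0 where
  rank := Module.finrank_fin_fun K
  ne := hs0
  mark := hmark
  deg := by
    rw [exk_of_mem (Submodule.mem_top), VB.deg_sub_top, finrank_top, Module.finrank_fin_fun] at htot
    push_cast at htot
    linarith
  neg := hP

theorem exists_goodG (hg : gen k K = 3) {κ : Dv k K} (hκ : IsCanonical κ) {n m : ℕ} (hm : 1 ≤ m)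
    (hmn : 3 * m + 1 < n) : ∃ (G : VB k K (Fin (m + 1) → K)) (s0 : Fin (m + 1) → K),
      GoodG κ (((n : ℝ) + 3 * m + 1) / (3 * m + 1)) m G s0 := by
  set x : ℝ := ((n : ℝ) + 3 * m + 1) / (3 * m + 1) with hxdef
  have hmR : (0 : ℝ) < 3 * m + 1 := by positivity
  have hmul : (3 * (m : ℝ) + 1) * x = n + 3 * m + 1 := by
    rw [hxdef]
    field_simp
  have hnR : 3 * (m : ℝ) + 1 < n := by exact_mod_cast hmn
  have hx : 2 < x := by
    rw [hxdef, lt_div_iff₀ hmR]
    linarith
  rcases Nat.lt_or_ge m 2 with h1 | h2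
  · obtain rfl : m = 1 := by omega
    have hx4 : x = (((n : ℤ) + 4 : ℤ) : ℝ) / 4 := by
      rw [hxdef]
      push_cast
      norm_num
      ring
    obtain ⟨X, hmark, hX, hall⟩ := exists_G1_one hg hκ (δ := (n : ℤ) + 4) (by omega)
    rw [← hx4] at hall
    have hA : finrank K (K × K) = 2 := by rw [Module.finrank_prod, Module.finrank_self]
    have hfr : finrank K (K × K) = finrank K (Fin (1 + 1) → K) := by
      rw [hA, Module.finrank_fin_fun]
    let f : (K × K) ≃ₗ[K] (Fin (1 + 1) → K) := LinearEquiv.ofFinrankEq _ _ hfr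
    refine ⟨X.map f, f (1, 0), ChainG_good (fun h => ?_) (mark_map f hmark) ?_
      (propK_map hall f)⟩
    · simp at h
    · rw [exk_of_mem (Submodule.mem_top), VB.deg_sub_top, finrank_top, Module.finrank_fin_fun,
        VB.deg_map, hX]
      rw [hx4]
      push_cast
      ring
  · obtain ⟨P0⟩ : Nonempty (Place k K) := by
      have := infinite_places (k := k) (K := K)
      infer_instance
    rcases Nat.lt_or_ge m 3 with h3 | h3
    · obtain rfl : m = 2 := by omega
      obtain ⟨X, s0, q, h⟩ := ChainG_first hg hκ hx (r2 := 0) (e := (n : ℤ) + 7 - dG x 1) (by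
        have h4 : (dG x 1 : ℝ) = rG x 1 + 4 * x := by
          unfold rG
          push_cast
          ring
        push_cast at hmul ⊢
        linarith) (by norm_num) le_rfl P0
      exact ⟨X, s0, ChainG_good h.1 h.2.1 h.2.2.1.tot h.2.2.2.1⟩
    · obtain ⟨i, rfl⟩ : ∃ i, m = i + 3 := ⟨m - 3, by omega⟩
      obtain ⟨X, s0, q, h⟩ := ChainG_chain hg hκ hx P0 i
      set δ : ℤ := (n : ℤ) + 3 * ((i + 3 : ℕ) : ℤ) + 1 with hδdef
      have hδ : (δ : ℝ) = (3 * ((i + 1 + 2 : ℕ) : ℝ) + 1) * x := by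
        rw [hδdef]
        push_cast at hmul ⊢
        linarith
      have hlast : dG x (i + 2) - dG x (i + 1) ≤ δ - dG x (i + 2) := dG_last hδ
      have hr := rG_lt x (i + 2)
      have hrd : rG x (i + 2) = dG x (i + 2) - (3 * ((i + 2 : ℕ) : ℝ) + 1) * x := rfl
      obtain ⟨X', s0', q', h'⟩ := ChainG_step hg h (rG_ge x (i + 2)) (rG_lt x (i + 2))
        (e' := δ - dG x (i + 2)) (ρ' := 0) (by omega) (fun _ => hlast) (by
          push_cast
          rw [hrd, hδ]
          push_cast
          ring) le_rfl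
      exact ⟨X', s0', ChainG_good h'.1 h'.2.1 h'.2.2.1.tot h'.2.2.2.1⟩

end Pool.Agent.MP_09eaec.GG.G3
end

section

/-!
# TASK OddData: a basis of the sections of a good bundle

`G.h1 = 0` (`good_h1`), `G.h0 = deg G - 2 (m + 1) = n + m + 3` (`hdeg`). The three sections `ω a • s0` are independent over `k` (`hG.mark`, `hG.ne`, `hli`) and
lie in `G.H0`; extend them to a basis: `v : Fin (n + m) → A`. `R = span K {s0}`. `hgen` for `G.quo R`: `y = mkQ z`, `z ∈ G.M P` (`mem_quo`), `z = ∑ c i • v i + ∑ b a • (ω a • s0)`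
(`gen_sec` with `good_h1_point`, applied to the family `Sum.elim`, reindexed), apply `mkQ`. `(G.quo R).deg = deg G - 4` (`VB.deg_add`, `(G.sub R).deg = ddeg κ`: `G.sub R` is `line κ` up to
the isomorphism `c ↦ c • s0`). `((G.quo R).twist κ).h1 = 0`: `(hom (G.quo R) (line 0)).h0` (`hom_twist_line`); a nonzero map `G.quo R → line 0` gives a nonzero map `G → line κ`
(compose with `mkQ`, multiply by `ω 0`), against `G.h1 = (hom G (line κ)).h0 = 0`. So `h0 = (n + 3 m + 1) + 4 m - 2 m`.
-/

set_option autoImplicit false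

namespace Pool.Agent.MP_09eaec.GG.G3

open Module

universe u v

variable {k : Type u} {K : Type v} [Field k] [Field K] [Algebra k K]
variable {W : Type v} [AddCommGroup W] [Module K W] [Module k W] [IsScalarTower k K W]
variable {A : Type v} [AddCommGroup A] [Module K A] [Module k A] [IsScalarTower k K A]
variable {B : Type v} [AddCommGroup B] [Module K B] [Module k B] [IsScalarTower k K B]

/-- Extension of an independent family of a finite dimensional space. -/
private theorem OddData_extend {V : Type v} [AddCommGroup V] [Module k V] (H : Submodule k V)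
    [Module.Finite k H] {a N : ℕ} (hN : finrank k H = N + a) {w : Fin a → V} (hw : ∀ i, w i ∈ H)
    (hli : LinearIndependent k w) :
    ∃ v : Fin N → V, (∀ i, v i ∈ H) ∧ LinearIndependent k (Sum.elim v w) := by
  let w' : Fin a → H := fun i => ⟨w i, hw i⟩
  have hw' : LinearIndependent k w' := by
    refine LinearIndependent.of_comp H.subtype ?_
    exact hli
  set M' : Submodule k H := Submodule.span k (Set.range w') with hM'
  have hfin : finrank k M' = a := by
    have := finrank_span_eq_card hw'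
    rw [Fintype.card_fin] at this
    exact this
  have hq : finrank k (H ⧸ M') = N := by
    have := Submodule.finrank_quotient_add_finrank M'
    omega
  let b := Module.finBasisOfFinrankEq k (H ⧸ M') hq
  choose g hg using fun i => M'.mkQ_surjective (b i)
  let f : Fin a → M' := fun i => ⟨w' i, Submodule.subset_span ⟨i, rfl⟩⟩
  have hf : LinearIndependent k f := by
    refine LinearIndependent.of_comp M'.subtype ?_
    exact hw'
  have hgi : LinearIndependent k (Submodule.Quotient.mk (p := M') ∘ g) := by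
    have : Submodule.Quotient.mk (p := M') ∘ g = b := by
      funext i
      exact hg i
    rw [this]
    exact b.linearIndependent
  have h1 := LinearIndependent.sumElim_of_quotient hf g hgi
  refine ⟨fun i => (g i : V), fun i => (g i).2, ?_⟩
  have h2 : LinearIndependent k (H.subtype ∘ Sum.elim (fun i => (f i : H)) g) :=
    h1.map' H.subtype (by rw [Submodule.ker_subtype])
  have h3 := h2.comp (Equiv.sumComm (Fin N) (Fin a)) (Equiv.injective _)
  have h4 : Sum.elim (fun i => (g i : V)) w =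
      (H.subtype ∘ Sum.elim (fun i => (f i : H)) g) ∘ (Equiv.sumComm (Fin N) (Fin a)) := by
    funext i
    rcases i with i | i <;> rfl
  rw [h4]
  exact h3

variable [CurveG k K]

theorem odd_data (hg : gen k K = 3) {κ : Dv k K} (hκ : IsCanonical κ) {ω : Fin 3 → K}
    (hω : ∀ a, ω a ∈ (line κ).H0) (hli : LinearIndependent k ω) {x : ℝ} (hx : 2 < x) {n m : ℕ}
    (hm : 1 ≤ m) [FiniteDimensional K A] {G : VB k K A} {s0 : A} (hG : GoodG κ x m G s0)
    (hdeg : G.deg = n + 3 * m + 5) :
    ∃ v : Fin (n + m) → A, (∀ i, v i ∈ G.H0) ∧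
      LinearIndependent k (Sum.elim v (fun a => ω a • s0)) ∧
      (∀ (P : Place k K) (y : A ⧸ Submodule.span K {s0}), y ∈ (G.quo (Submodule.span K {s0})).M P →
        ∃ c : Fin (n + m) → K, (∀ i, c i ∈ P.filt 0) ∧
          ∑ i, c i • (Submodule.span K {s0}).mkQ (v i) = y) ∧
      (G.quo (Submodule.span K {s0})).deg = n + 3 * m + 1 ∧
      ((G.quo (Submodule.span K {s0})).twist κ).h0 = n + 5 * m + 1 := by
  have hh1 : G.h1 = 0 := good_h1 hg hκ hx hm hG
  have hrr := VB.rr G
  rw [hh1, hg, hG.rank, hdeg] at hrr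
  have hN : finrank k G.H0 = (n + m) + 3 := by
    unfold VB.h0 at hrr
    push_cast at hrr
    omega
  -- the marked sections
  have hwm : ∀ a : Fin 3, ω a • s0 ∈ G.H0 := by
    intro a
    rw [VB.mem_H0]
    intro P
    exact (hG.mark P (ω a)).2 (VB.mem_H0.1 (hω a) P)
  have hwli : LinearIndependent k (fun a : Fin 3 => ω a • s0) := by
    let T : K →ₗ[k] A := (LinearMap.toSpanSingleton K A s0).restrictScalars k
    have hT : LinearMap.ker T = ⊥ := by
      rw [LinearMap.ker_eq_bot']
      intro c hc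
      have hc' : c • s0 = 0 := hc
      exact (smul_eq_zero.1 hc').resolve_right hG.ne
    exact hli.map' T hT
  obtain ⟨v, hv, hvli⟩ := OddData_extend G.H0 hN hwm hwli
  -- the spanning family
  let vv : Fin (n + m + 3) → A := Sum.elim v (fun a => ω a • s0) ∘ finSumFinEquiv.symm
  have hvv : LinearIndependent k vv := hvli.comp _ (Equiv.injective _)
  have hvvm : ∀ i, vv i ∈ G.H0 := by
    intro i
    show Sum.elim v (fun a => ω a • s0) (finSumFinEquiv.symm i) ∈ G.H0
    rcases finSumFinEquiv.symm i with j | j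
    · exact hv j
    · exact hwm j
  have hspan : G.H0 ≤ Submodule.span k (Set.range vv) := by
    have h1 : Submodule.span k (Set.range vv) ≤ G.H0 := by
      rw [Submodule.span_le]
      rintro _ ⟨i, rfl⟩
      exact hvvm i
    have h2 : finrank k (Submodule.span k (Set.range vv)) = finrank k G.H0 := by
      rw [finrank_span_eq_card hvv, Fintype.card_fin, hN]
    exact (Submodule.eq_of_le_of_finrank_eq h1 h2).ge
  -- the degree of the quotient
  have hquo : (G.quo (Submodule.span K {s0})).deg = n + 3 * m + 1 := by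
    have h1 := VB.deg_exact G (line κ) (G.quo (Submodule.span K {s0}))
      (LinearMap.toSpanSingleton K A s0) (Submodule.span K {s0}).mkQ
      (by
        rw [← LinearMap.ker_eq_bot, LinearMap.ker_eq_bot']
        intro c hc
        have hc' : c • s0 = 0 := hc
        exact (smul_eq_zero.1 hc').resolve_right hG.ne)
      (Submodule.mkQ_surjective _)
      (by rw [Submodule.ker_mkQ, LinearMap.span_singleton_eq_range])
      (fun P c => hG.mark P c)
      (fun P y => VB.mem_quo)
    rw [VB.deg_line, hκ.ddeg, hg, hdeg] at h1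
    omega
  have hrank : finrank K (A ⧸ Submodule.span K {s0}) = m := by
    have h1 := Submodule.finrank_quotient_add_finrank (Submodule.span K {s0})
    rw [finrank_span_singleton hG.ne, hG.rank] at h1
    omega
  have hω0 : ω 0 ≠ 0 := hli.ne_zero 0
  have htw : ((G.quo (Submodule.span K {s0})).twist κ).h1 = 0 := by
    by_contra hne
    obtain ⟨φ, hφ, h1⟩ := h1_twist_hom hκ hne
    have h2 : (hom G (line κ)).h0 = 0 := by
      rw [← hκ.dual A G, hh1]
    have h3 : (hom G (line κ)).H0 = ⊥ := by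
      have h4 : finrank k (hom G (line κ)).H0 = 0 := by
        unfold VB.h0 at h2
        exact_mod_cast h2
      exact Submodule.finrank_eq_zero.1 h4
    have h5 : (ω 0 • (φ ∘ₗ (Submodule.span K {s0}).mkQ)) ∈ (hom G (line κ)).H0 := by
      rw [VB.mem_H0]
      intro P
      rw [mem_hom]
      intro b hb
      have h6 := h1 P ((Submodule.span K {s0}).mkQ b) (VB.mem_quo.2 ⟨b, hb, rfl⟩)
      rw [mem_line, Finsupp.coe_zero, Pi.zero_apply, neg_zero] at h6
      have h7 := VB.mem_H0.1 (hω 0) P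
      rw [mem_line] at h7
      have h8 := mul_mem_filt P h7 h6
      rw [add_zero] at h8
      rw [mem_line]
      exact h8
    rw [h3, Submodule.mem_bot] at h5
    apply hφ
    have h9 : φ ∘ₗ (Submodule.span K {s0}).mkQ = 0 := (smul_eq_zero.1 h5).resolve_left hω0
    refine LinearMap.ext fun y => ?_
    obtain ⟨z, rfl⟩ := Submodule.mkQ_surjective _ y
    exact LinearMap.congr_fun h9 z
  refine ⟨v, hv, hvli, ?_, ?_, ?_⟩
  · rintro P y hy
    obtain ⟨z, hz, rfl⟩ := VB.mem_quo.1 hy
    obtain ⟨c, hc, hcz⟩ := gen_sec (fun P => good_h1_point hg hκ hx hm hG P) hspan P hz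
    refine ⟨fun i => c (finSumFinEquiv (Sum.inl i)), fun i => hc _, ?_⟩
    have hs : ∑ j, (Submodule.span K {s0}).mkQ (c j • vv j) =
        ∑ i : Fin (n + m), (Submodule.span K {s0}).mkQ
          (c (finSumFinEquiv (Sum.inl i)) • vv (finSumFinEquiv (Sum.inl i))) +
        ∑ a : Fin 3, (Submodule.span K {s0}).mkQ
          (c (finSumFinEquiv (Sum.inr a)) • vv (finSumFinEquiv (Sum.inr a))) := by
      rw [← Equiv.sum_comp finSumFinEquiv, Fintype.sum_sum_type]
    rw [← hcz, map_sum, hs]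
    have h1 : ∀ a : Fin 3, (Submodule.span K {s0}).mkQ
        (c (finSumFinEquiv (Sum.inr a)) • vv (finSumFinEquiv (Sum.inr a))) = 0 := by
      intro a
      have h2 : vv (finSumFinEquiv (Sum.inr a)) = ω a • s0 := by
        show Sum.elim v (fun a => ω a • s0) (finSumFinEquiv.symm (finSumFinEquiv (Sum.inr a))) = _
        rw [Equiv.symm_apply_apply]
        rfl
      rw [h2, Submodule.mkQ_apply, Submodule.Quotient.mk_eq_zero]
      exact Submodule.smul_mem _ _ (Submodule.smul_mem _ _ (Submodule.mem_span_singleton_self s0))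
    rw [Finset.sum_eq_zero (fun a _ => h1 a), add_zero]
    refine Finset.sum_congr rfl fun i _ => ?_
    have h2 : vv (finSumFinEquiv (Sum.inl i)) = v i := by
      show Sum.elim v (fun a => ω a • s0) (finSumFinEquiv.symm (finSumFinEquiv (Sum.inl i))) = _
      rw [Equiv.symm_apply_apply]
      rfl
    rw [h2, map_smul]
  · exact hquo
  · rw [VB.rr, VB.deg_twist, hquo, hrank, hκ.ddeg, hg, htw]
    push_cast
    ring

end Pool.Agent.MP_09eaec.GG.G3
end
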