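import Pool.Agent.Lib.MP_09eaec_ag.Mg.G017
import Pool.Agent.Lib.MP_09eaec_ag.Mg.G020
import Pool.Agent.Lib.MP_09eaec_ag.Mg.G019
import Pool.Agent.Lib.MP_09eaec_ag.Mg.G016
import Pool.Agent.Lib.MP_09eaec_ag.Mg.G009
import Pool.Agent.Lib.MP_09eaec_ag.Mg.G003
import Pool.Agent.Lib.MP_09eaec_ag.Mg.G029
import Pool.Agent.Lib.MP_09eaec_ag.Mg.G001
import Pool.Agent.Lib.MP_09eaec_ag.Mg.G018
import Pool.Agent.Lib.MP_09eaec_ag.Mg.G002
import Pool.Agent.Lib.MP_09eaec_ag.Mg.G021
import Pool.Agent.Lib.MP_09eaec_ag.Mg.G031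
import Pool.Agent.Lib.MP_09eaec_ag.HY.KronSys
import Pool.Agent.Lib.MP_09eaec_ag.Mg.G032
import Pool.Agent.Lib.MP_09eaec_ag.Mg.G023

section

/-!
# TASK OddSplit: the extra map

`R = span K {s0}`, `vb i = R.mkQ (v i)`. For `z ∈ T0 = ker (Fintype.linearCombination K vb)`: `∑ z i • v i = Ψ z • s0` with a linear `Ψ : T0 → K` (`s0 ≠ 0`).
`S ≤ T0`, `X = (pw κ N).sub S`. `Ψ` restricted to `S` maps `X` to `line (κ + κ)`: for `z ∈ X.M P`, `t` with `P.ord t = κ P`: `t * z i` is integral, so
`t • ∑ z i • v i ∈ G.M P`, `t * Ψ z ∈ (line κ).M P` (`hmark`), `Ψ z ∈ (line (κ + κ)).M P`.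
`exists_minU` for `S`: `U`, `u = finrank U ≤ X.h1`.
 * `Ψ` not of the form `∑ ω a • ψ a` with `ψ a ∈ (hom X (line κ)).H0`: `prd_extra`, `prd_deg`: `3 u + 1 ≤ 6 r - deg X`. First alternative with `J = ((KU K U).map ev_vb).comap R.mkQ`
   (`s0 ∈ J`, rank one more than its image), `rank_U` for `vb`, `sec_U` for `v`, `w a = ω a • s0`, `l = 3`.
 * otherwise, if `X.h1 ≠ u`, i.e. `≥ u + 1`: `prd`, `prd_deg`: `3 u + 3 ≤ 6 r - deg X`, the same first alternative.
 * otherwise `X.h1 = u` and `ψ a z = ∑ i, c a i • z i` on `S` with `c a i : k`. Let `v' i = v i - ∑ a, (c a i) • (ω a • s0)`. Then `S ≤ ker (Fintype.linearCombination K v')` and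
   `Sum.elim v' w` is linearly independent over `k`. Second alternative with `J = (KU K U).map ev_v'`: `rank_U` for `v'`; `sec_U` for `v'` with `l = 0` (unmarked) or `l = 3` (`s0 ∈ J`).
   `3 u ≤ 6 r - deg X` by `prd`, `prd_deg`.
 `U ≠ ⊥` because `S ≠ ⊥`, so `J ≠ ⊥` in the second alternative (`h0 ≥ u ≥ 1`).
-/

set_option autoImplicit false

namespace Pool.Agent.MP_09eaec.GG.G3

open Module

universe u v

variable {k : Type u} {K : Type v} [Field k] [Field K] [Algebra k K]
variable {W : Type v} [AddCommGroup W] [Module K W] [Module k W] [IsScalarTower k K W]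
variable {A : Type v} [AddCommGroup A] [Module K A] [Module k A] [IsScalarTower k K A]
variable {B : Type v} [AddCommGroup B] [Module K B] [Module k B] [IsScalarTower k K B]

variable [CurveG k K]

/-- Changing the vectors `v i` by combinations of the `w a`. -/
private theorem OddSplit_li {M : Type v} [AddCommGroup M] [Module k M] {N l : ℕ} {v : Fin N → M}
    {w : Fin l → M} (h : LinearIndependent k (Sum.elim v w)) (c : Fin l → Fin N → k) :
    LinearIndependent k (Sum.elim (fun i => v i - ∑ a, c a i • w a) w) := by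
  rw [Fintype.linearIndependent_iff] at h ⊢
  intro g hg
  rw [Fintype.sum_sum_type] at hg
  simp only [Sum.elim_inl, Sum.elim_inr] at hg
  have h1 := h (Sum.elim (fun i => g (Sum.inl i))
    (fun a => g (Sum.inr a) - ∑ i, g (Sum.inl i) * c a i)) (by
      rw [Fintype.sum_sum_type]
      simp only [Sum.elim_inl, Sum.elim_inr]
      have h2 : ∑ i, g (Sum.inl i) • (v i - ∑ a, c a i • w a) =
          ∑ i, g (Sum.inl i) • v i - ∑ a, (∑ i, g (Sum.inl i) * c a i) • w a := by
        simp only [smul_sub, Finset.sum_sub_distrib, Finset.smul_sum, Finset.sum_smul, smul_smul]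
        rw [Finset.sum_comm]
      rw [h2] at hg
      simp only [sub_smul, Finset.sum_sub_distrib]
      rw [← hg]
      abel)
  have h3 : ∀ i, g (Sum.inl i) = 0 := fun i => h1 (Sum.inl i)
  rintro (i | a)
  · exact h3 i
  · have h4 := h1 (Sum.inr a)
    simp only [Sum.elim_inr, h3, zero_mul, Finset.sum_const_zero, sub_zero] at h4
    exact h4

private theorem OddSplit_li0 {M : Type v} [AddCommGroup M] [Module k M] {N l : ℕ} {v : Fin N → M}
    {w : Fin l → M} (h : LinearIndependent k (Sum.elim v w)) (w0 : Fin 0 → M) :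
    LinearIndependent k (Sum.elim v w0) := by
  rw [Fintype.linearIndependent_iff] at h ⊢
  intro g hg
  have h1 := h (Sum.elim (fun i => g (Sum.inl i)) (fun _ => 0)) (by
    rw [Fintype.sum_sum_type] at hg ⊢
    simpa using hg)
  rintro (i | a)
  · exact h1 (Sum.inl i)
  · exact a.elim0

theorem odd_split (hg : gen k K = 3) {κ : Dv k K} (hκ : IsCanonical κ) {ω : Fin 3 → K}
    (hω : ∀ a, ω a ∈ (line κ).H0) (hli : LinearIndependent k ω) [FiniteDimensional K A]
    {G : VB k K A} {s0 : A} (hs0 : s0 ≠ 0)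
    (hmark : ∀ (P : Place k K) (c : K), c • s0 ∈ G.M P ↔ c ∈ (line κ).M P) {N : ℕ}
    {v : Fin N → A} (hv : ∀ i, v i ∈ G.H0)
    (hvli : LinearIndependent k (Sum.elim v (fun a => ω a • s0))) {S : Submodule K (Fin N → K)}
    (hS0 : S ≠ ⊥)
    (hS : S ≤ LinearMap.ker (Fintype.linearCombination K
      (fun i => (Submodule.span K {s0}).mkQ (v i))))
    (h0 : (((pw κ N).sub S).twist (-κ)).H0 = ⊥)
    (hquo : ∀ T : Submodule K S, T ≠ ⊤ →
      2 * (finrank K (S ⧸ T) : ℤ) < (((pw κ N).sub S).quo T).deg) :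
    ∃ (u : ℕ) (J : Submodule K A), 1 ≤ u ∧ u ≤ N ∧
      ((3 * (u : ℤ) + 1 ≤ 6 * finrank K S - ((pw κ N).sub S).deg ∧ s0 ∈ J ∧
          finrank K S + finrank K J ≤ u + 1 ∧ (u : ℤ) + 3 ≤ (G.sub J).h0) ∨
        (3 * (u : ℤ) ≤ 6 * finrank K S - ((pw κ N).sub S).deg ∧ J ≠ ⊥ ∧
          finrank K S + finrank K J ≤ u ∧ (s0 ∉ J → (u : ℤ) ≤ (G.sub J).h0) ∧
          (s0 ∈ J → (u : ℤ) + 3 ≤ (G.sub J).h0))) := by
  classical
  set R : Submodule K A := Submodule.span K {s0} with hR
  set ev : (Fin N → K) →ₗ[K] A := Fintype.linearCombination K v with hev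
  set evb : (Fin N → K) →ₗ[K] (A ⧸ R) := Fintype.linearCombination K (fun i => R.mkQ (v i)) with hevb
  have ev_apply : ∀ z, ev z = ∑ i, z i • v i := fun z => by
    rw [hev, Fintype.linearCombination_apply]
  have evb_apply : ∀ z, evb z = R.mkQ (ev z) := fun z => by
    rw [hevb, Fintype.linearCombination_apply, ev_apply, map_sum]
    exact Finset.sum_congr rfl fun i _ => (map_smul _ _ _).symm
  have hs0R : s0 ∈ R := Submodule.mem_span_singleton_self s0
  have hmem : ∀ z : S, ev (z : Fin N → K) ∈ R := fun z => by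
    have h1 : evb z = 0 := hS z.2
    rw [evb_apply] at h1
    exact (Submodule.Quotient.mk_eq_zero R).1 h1
  -- the extra map
  obtain ⟨Ψ, hΨ⟩ : ∃ Ψ : S →ₗ[K] K, ∀ z : S, Ψ z • s0 = ev (z : Fin N → K) := by
    refine ⟨(LinearEquiv.toSpanNonzeroSingleton K A s0 hs0).symm.toLinearMap ∘ₗ
      ((ev ∘ₗ S.subtype).codRestrict R hmem), fun z => ?_⟩
    have h1 := (LinearEquiv.toSpanNonzeroSingleton K A s0 hs0).apply_symm_apply
      (((ev ∘ₗ S.subtype).codRestrict R hmem) z)
    have h2 := congrArg Subtype.val h1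
    rw [LinearEquiv.toSpanNonzeroSingleton_apply] at h2
    exact h2
  have hw : ∀ a, ω a • s0 ∈ G.H0 := fun a => by
    rw [VB.mem_H0]
    intro P
    exact (hmark P (ω a)).2 (VB.mem_H0.1 (hω a) P)
  have hΨ2 : ∀ P x, x ∈ ((pw κ N).sub S).M P → Ψ x ∈ (line (κ + κ)).M P := by
    intro P x hx
    obtain ⟨t, ht, htm⟩ := exists_ord_eq P (κ P)
    have h1 : t • ev (x : Fin N → K) ∈ G.M P := by
      rw [ev_apply, Finset.smul_sum]
      refine Submodule.sum_mem _ fun i _ => ?_
      rw [smul_smul]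
      refine G.smul_mem P _ _ ?_ (VB.mem_H0.1 (hv i) P)
      have h2 := mem_pw.1 (VB.mem_sub.1 hx) i
      have h3 := mul_mem_filt P (Or.inr htm.ge : t ∈ P.filt (κ P)) h2
      rwa [add_neg_cancel] at h3
    rw [← hΨ, smul_smul] at h1
    have h4 := (hmark P _).1 h1
    rw [mem_line] at h4 ⊢
    rw [← mem_filt_iff_of_ord P ht htm]
    have h5 : -(κ + κ) P + κ P = -κ P := by
      rw [Finsupp.add_apply]
      ring
    rw [h5]
    exact h4
  obtain ⟨U, hSU, hUle, hUeq⟩ := exists_minU hκ S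
  have hu1 : 1 ≤ finrank k U := by
    have h1 : 0 < finrank K S := Module.finrank_pos_iff.2 (Submodule.nontrivial_iff_ne_bot.2 hS0)
    have h2 := Submodule.finrank_mono hSU
    rw [finrank_KU] at h2
    omega
  have huN : finrank k U ≤ N := by
    have h1 := Submodule.finrank_le U
    rwa [Module.finrank_fin_fun] at h1
  have hdeg := prd_deg hg hκ h0
  have hprd := prd hg hκ hquo
  by_cases hcase : (∀ ψ : Fin 3 → (S →ₗ[K] K), (∀ a, ψ a ∈ (hom ((pw κ N).sub S) (line κ)).H0) →
      ∑ a, ω a • ψ a ≠ Ψ) ∨ ((pw κ N).sub S).h1 ≠ finrank k U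
  · -- the first alternative
    have hnum : 3 * (finrank k U : ℤ) + 1 ≤ 6 * finrank K S - ((pw κ N).sub S).deg := by
      rcases hcase with h1 | h1
      · have h2 := prd_extra hg hκ hω hli hquo hΨ2 h1
        omega
      · omega
    refine ⟨finrank k U, ((KU K U).map evb).comap R.mkQ, hu1, huN, Or.inl ⟨hnum, ?_, ?_, ?_⟩⟩
    · rw [Submodule.mem_comap]
      have h1 : R.mkQ s0 = 0 := (Submodule.Quotient.mk_eq_zero R).2 hs0R
      rw [h1]
      exact zero_mem _
    · have h1 : finrank K S + finrank K ((KU K U).map evb) ≤ finrank k U := rank_U (K := K) hS hSU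
      have h2 := finrank_comap_mkQ R ((KU K U).map evb)
      have h3 : finrank K R = 1 := finrank_span_singleton hs0
      omega
    · have h1 := sec_U (l := 3) (w := fun a => ω a • s0) hv hw hvli U
        (J := ((KU K U).map evb).comap R.mkQ) (by
          rintro _ ⟨z, hz, rfl⟩
          rw [Submodule.mem_comap]
          exact ⟨z, hz, evb_apply z⟩) (fun a => by
          refine Submodule.smul_mem _ _ ?_
          rw [Submodule.mem_comap]
          have h1 : R.mkQ s0 = 0 := (Submodule.Quotient.mk_eq_zero R).2 hs0R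
          rw [h1]
          exact zero_mem _)
      exact_mod_cast h1
  · -- the second alternative
    push Not at hcase
    obtain ⟨⟨ψ, hψ, hsum⟩, hh1⟩ := hcase
    choose c hc using fun a => hUeq hh1 (ψ a) (hψ a)
    set v' : Fin N → A := fun i => v i - ∑ a, c a i • (ω a • s0) with hv'
    have hli' : LinearIndependent k (Sum.elim v' (fun a => ω a • s0)) := OddSplit_li hvli c
    have hv'0 : ∀ i, v' i ∈ G.H0 := fun i =>
      sub_mem (hv i) (Submodule.sum_mem _ fun a _ => Submodule.smul_mem _ _ (hw a))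
    have hS' : S ≤ LinearMap.ker (Fintype.linearCombination K v') := by
      intro z hz
      rw [LinearMap.mem_ker, Fintype.linearCombination_apply]
      have h1 : Ψ ⟨z, hz⟩ = ∑ a, ω a * ∑ i, c a i • z i := by
        rw [← hsum, LinearMap.sum_apply]
        refine Finset.sum_congr rfl fun a _ => ?_
        rw [LinearMap.smul_apply, hc a ⟨z, hz⟩]
        rfl
      have h2 : ∑ i, z i • v' i = ev z - (∑ a, ω a * ∑ i, c a i • z i) • s0 := by
        rw [ev_apply, hv']
        simp only [smul_sub, Finset.sum_sub_distrib, Finset.smul_sum, Finset.sum_smul, Finset.mul_sum]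
        congr 1
        rw [Finset.sum_comm]
        refine Finset.sum_congr rfl fun a _ => Finset.sum_congr rfl fun i _ => ?_
        rw [← smul_assoc (c a i) (ω a) s0, smul_smul, mul_smul_comm, mul_smul_comm, mul_comm]
      rw [h2, ← h1]
      have h3 := hΨ ⟨z, hz⟩
      rw [h3, sub_self]
    have hnum : 3 * (finrank k U : ℤ) ≤ 6 * finrank K S - ((pw κ N).sub S).deg := by
      omega
    have hrank := rank_U (K := K) hS' hSU
    have hsec0 := sec_U (l := 0) (w := fun a => a.elim0) hv'0 (fun a => a.elim0)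
      (OddSplit_li0 hli' _) U (J := (KU K U).map (Fintype.linearCombination K v')) le_rfl
      (fun a => a.elim0)
    refine ⟨finrank k U, (KU K U).map (Fintype.linearCombination K v'), hu1, huN,
      Or.inr ⟨hnum, ?_, hrank, ?_, ?_⟩⟩
    · intro hbot
      rw [hbot] at hsec0
      have h1 : (G.sub (⊥ : Submodule K A)).h0 = 0 := by
        unfold VB.h0
        have h2 : (G.sub (⊥ : Submodule K A)).H0 = ⊥ := by
          rw [Submodule.eq_bot_iff]
          intro x _
          exact Subsingleton.elim x 0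
        rw [h2, finrank_bot]
        rfl
      rw [h1] at hsec0
      push_cast at hsec0
      omega
    · intro _
      push_cast at hsec0
      omega
    · intro hs0J
      have h1 := sec_U (l := 3) (w := fun a => ω a • s0) hv'0 hw hli' U
        (J := (KU K U).map (Fintype.linearCombination K v')) le_rfl
        (fun a => Submodule.smul_mem _ _ hs0J)
      exact_mod_cast h1

end Pool.Agent.MP_09eaec.GG.G3
end

section

/-!
# TASK Odd: stable bundles with an odd number of sections (`k = 2 n - 2 m - 1`)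

`exists_goodG`: `G, s0`, `x = (n + 3 m + 1) / (3 m + 1) > 2`, `G.deg = n + 3 m + 5` (`hG.deg`). `odd_data`: `v`, `N = n + m`. `R = span K {s0}`, `vb i = R.mkQ (v i)`,
`finrank (A ⧸ R) = m`, `T0 = ker (Fintype.linearCombination K vb)`, `E = (pw κ N).sub T0`: rank `n` (`ker_rank`), degree `4 (n + m) - (n + 3 m + 1 + 4 m) = 3 n - 3 m - 1`
(`ker_deg`), `h0 ≥ 3 (n + m) - (n + 5 m + 1) = 2 n - 2 m - 1` (`ker_h0`). `T0` contains no nonzero constant vector: `∑ c i • v i = f • s0`, the left side is a section of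
`G`, so `f` is a section of `line κ` (`hG.mark`), a combination of the `ω a` (`hκ.h0 = 3`), against the independence of `Sum.elim v w`.
Stability: `stable_of_max`: `S ≠ ⊥` of maximal slope `≥ (3 n - 3 m - 1) / n > 2`. `max_ker`, `odd_split` (for `S.map T0.subtype`): `u, J`. First alternative: `J ≠ ⊤`: `hbk`, `num_odd_a`;
`J = ⊤` (rank `m + 1`): `num_odd_top`, `r ≥ n`, `S = ⊤`. Second alternative: `J ≠ ⊤`: `hbk`, `num_odd_b`; `J = ⊤`: `num_odd_btop`.
Transport to `Fin n → K` (`exists_transport`, `h0_map`).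
-/

set_option autoImplicit false

namespace Pool.Agent.MP_09eaec.GG.G3

open Module

universe u v

variable {k : Type u} {K : Type v} [Field k] [Field K] [Algebra k K]
variable {W : Type v} [AddCommGroup W] [Module K W] [Module k W] [IsScalarTower k K W]
variable {A : Type v} [AddCommGroup A] [Module K A] [Module k A] [IsScalarTower k K A]
variable {B : Type v} [AddCommGroup B] [Module K B] [Module k B] [IsScalarTower k K B]

variable [CurveG k K]

theorem exists_odd (hg : gen k K = 3) {n m : ℕ} (hm : 1 ≤ m) (hmn : 3 * m + 1 < n) :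
    ∃ E : VB k K (Fin n → K), E.Stable ∧ E.deg = 3 * n - 3 * m - 1 ∧
      2 * (n : ℤ) - 2 * m - 1 ≤ E.h0 := by
  obtain ⟨κ, hκ⟩ := exists_canonical (k := k) (K := K)
  have hκd : ddeg κ = 4 := by rw [hκ.ddeg, hg]; norm_num
  have hκ0 : (line κ).h0 = 3 := by rw [hκ.h0, hg]
  have hfr : finrank k (line κ : VB k K K).H0 = 3 := by
    unfold VB.h0 at hκ0
    exact_mod_cast hκ0
  have hfd : Module.Finite k (line κ : VB k K K).H0 :=
    Module.finite_of_finrank_pos (by rw [hfr]; norm_num)
  obtain ⟨G, s0, hG⟩ := exists_goodG hg hκ hm hmn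
  have hm1 : (1 : ℝ) ≤ m := by exact_mod_cast hm
  have hmn1 : (3 : ℝ) * m + 1 < n := by exact_mod_cast hmn
  have hD : (0 : ℝ) < 3 * m + 1 := by positivity
  have hx2 : 2 < ((n : ℝ) + 3 * m + 1) / (3 * m + 1) := by
    rw [lt_div_iff₀ hD]
    linarith
  have hxe : (3 * (m : ℝ) + 1) * (((n : ℝ) + 3 * m + 1) / (3 * m + 1)) = n + 3 * m + 1 :=
    mul_div_cancel₀ _ hD.ne'
  have hdeg : G.deg = n + 3 * m + 5 := by
    have h1 := hG.deg
    rw [hxe] at h1
    have h2 : (G.deg : ℝ) = ((n + 3 * m + 5 : ℤ) : ℝ) := by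
      rw [h1]; push_cast; ring
    exact_mod_cast h2
  generalize ((n : ℝ) + 3 * m + 1) / (3 * m + 1) = x at hG hx2 hxe
  let b := Module.finBasisOfFinrankEq k (line κ : VB k K K).H0 hfr
  have hω : ∀ a, ((b a : (line κ : VB k K K).H0) : K) ∈ (line κ : VB k K K).H0 := fun a => (b a).2
  have hli : LinearIndependent k (fun a => ((b a : (line κ : VB k K K).H0) : K)) :=
    b.linearIndependent.map' (Submodule.subtype _) (Submodule.ker_subtype _)
  obtain ⟨v, hv, hvli, hgen, hqdeg, hqh0⟩ := odd_data hg hκ hω hli hx2 hm hG hdeg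
  have hAf : finrank K (Fin (m + 1) → K) = m + 1 := Module.finrank_fin_fun K
  have hRf : finrank K (Submodule.span K {s0}) = 1 := finrank_span_singleton hG.ne
  have hQf : finrank K ((Fin (m + 1) → K) ⧸ Submodule.span K {s0}) = m := by
    have h1 := Submodule.finrank_quotient_add_finrank (Submodule.span K {s0})
    omega
  have hgen' : ∀ (P : Place k K) (y : (Fin (m + 1) → K) ⧸ Submodule.span K {s0}),
      y ∈ (G.quo (Submodule.span K {s0})).M P →
        ∃ c : Fin (n + m) → K, (∀ i, c i ∈ P.filt 0) ∧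
          ∑ i, c i • (fun i => (Submodule.span K {s0}).mkQ (v i)) i = y := hgen
  have hvb : ∀ i, (fun i => (Submodule.span K {s0}).mkQ (v i)) i ∈
      (G.quo (Submodule.span K {s0})).H0 := fun i =>
    VB.mem_H0.2 fun P => VB.mem_quo.2 ⟨v i, VB.mem_H0.1 (hv i) P, rfl⟩
  have hrank := (ker_rank hgen').2
  have hkdeg := ker_deg κ hvb hgen'
  have hkh0 := ker_h0 (G := G.quo (Submodule.span K {s0})) κ hvb
  have hT0 : ∀ c : Fin (n + m) → k, (fun i => algebraMap k K (c i)) ∈
      LinearMap.ker (Fintype.linearCombination K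
        (fun i => (Submodule.span K {s0}).mkQ (v i))) → c = 0 := by
    intro c hc
    rw [LinearMap.mem_ker, Fintype.linearCombination_apply] at hc
    have h1 : (Submodule.span K {s0}).mkQ (∑ i, algebraMap k K (c i) • v i) = 0 := by
      rw [map_sum, ← hc]
      exact Finset.sum_congr rfl fun i _ => map_smul _ _ _
    rw [Submodule.mkQ_apply, Submodule.Quotient.mk_eq_zero, Submodule.mem_span_singleton] at h1
    obtain ⟨f, hf⟩ := h1
    have h2 : ∑ i, algebraMap k K (c i) • v i = ∑ i, c i • v i :=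
      Finset.sum_congr rfl fun i _ => algebraMap_smul K (c i) (v i)
    rw [h2] at hf
    have h3 : f ∈ (line κ : VB k K K).H0 := by
      refine VB.mem_H0.2 fun P => (hG.mark P f).1 ?_
      rw [hf]
      exact Submodule.sum_mem _ fun i _ => (G.M P).smul_mem (c i) (VB.mem_H0.1 (hv i) P)
    obtain ⟨e, h4⟩ : ∃ e : Fin 3 → k, f = ∑ a, e a • ((b a : (line κ : VB k K K).H0) : K) := by
      have h5 := congrArg (Subtype.val) (b.sum_repr ⟨f, h3⟩)
      rw [AddSubmonoidClass.coe_finsetSum] at h5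
      exact ⟨fun a => b.repr ⟨f, h3⟩ a, h5.symm⟩
    have h6 : ∑ i : Fin (n + m) ⊕ Fin 3, (Sum.elim c (fun a => -e a)) i •
        (Sum.elim v (fun a => ((b a : (line κ : VB k K K).H0) : K) • s0)) i = 0 := by
      rw [Fintype.sum_sum_type]
      simp only [Sum.elim_inl, Sum.elim_inr]
      rw [← hf, h4, Finset.sum_smul, ← Finset.sum_add_distrib]
      refine Finset.sum_eq_zero fun a _ => ?_
      rw [neg_smul, smul_assoc, add_neg_cancel]
    have h7 := Fintype.linearIndependent_iff.1 hvli _ h6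
    funext i
    exact h7 (Sum.inl i)
  generalize hT : LinearMap.ker (Fintype.linearCombination K
        (fun i => (Submodule.span K {s0}).mkQ (v i))) = T0 at hT0 hrank hkdeg hkh0
  rw [hQf] at hrank
  rw [hqdeg, hQf, hκd] at hkdeg
  rw [hqh0, hκ0] at hkh0
  have hr : finrank K T0 = n := by omega
  have hEdeg : ((pw κ (n + m)).sub T0).deg = 3 * n - 3 * m - 1 := by
    rw [hkdeg]; push_cast; ring
  have hEh0 : 2 * (n : ℤ) - 2 * m - 1 ≤ ((pw κ (n + m)).sub T0).h0 := by
    push_cast at hkh0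
    linarith
  have hnt : Nontrivial T0 := Module.nontrivial_of_finrank_pos (R := K) (by omega)
  have hst : ((pw κ (n + m)).sub T0).Stable := by
    refine stable_of_max fun S hS hmax hge => ?_
    rw [hr, hEdeg] at hge
    have hSpos : 0 < finrank K S :=
      Nat.pos_of_ne_zero fun h => hS (Submodule.finrank_eq_zero.1 h)
    have hsl : 2 * (finrank K S : ℤ) < (((pw κ (n + m)).sub T0).sub S).deg := by
      by_contra hcon
      push Not at hcon
      have h1 : (((pw κ (n + m)).sub T0).sub S).deg * (n : ℤ) ≤ 2 * (finrank K S : ℤ) * n :=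
        mul_le_mul_of_nonneg_right hcon (by positivity)
      have h2 : (0 : ℤ) < ((n : ℤ) - 3 * m - 1) * finrank K S :=
        mul_pos (by omega) (by exact_mod_cast hSpos)
      nlinarith
    obtain ⟨hX1, hX2, hX3, hX4, hX5⟩ := max_ker hg hκ hT0 hS hmax hsl
    have hS0' : S.map T0.subtype ≠ ⊥ := by
      intro h
      rw [h, finrank_bot] at hX4
      omega
    have hle : S.map T0.subtype ≤ LinearMap.ker (Fintype.linearCombination K
        (fun i => (Submodule.span K {s0}).mkQ (v i))) := by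
      rw [hT]
      exact Submodule.map_subtype_le T0 S
    obtain ⟨u, J, hu1, huN, hJ⟩ := odd_split hg hκ hω hli hG.ne hG.mark hv hvli hS0' hle hX2 hX5
    rw [hX3, hX4] at hJ
    have hge' : (finrank K S : ℤ) * (3 * n - 3 * m - 1) ≤
        n * (((pw κ (n + m)).sub T0).sub S).deg := by linarith
    rcases hJ with ⟨h1, h2, h3, h4⟩ | ⟨h1, h2, h3, h4, h5⟩
    · by_cases hJt : J = ⊤
      · subst hJt
        rw [finrank_top, hAf] at h3
        have h6 := num_odd_top hm hmn hge' h1 h3 huN
        exact Submodule.eq_top_of_finrank_eq (le_antisymm (Submodule.finrank_le S) (by omega))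
      · exfalso
        have h6 := (hbk hg hκ hx2 hG J).2 hJt h2
        have h4' : (u : ℝ) + 3 ≤ ((G.sub J).h0 : ℝ) := by exact_mod_cast h4
        exact num_odd_a hm hmn hxe hge' h1 h3 h4' h6
    · exfalso
      by_cases hJt : J = ⊤
      · subst hJt
        rw [finrank_top, hAf] at h3
        exact num_odd_btop hm hmn hge' h1 h3 huN
      · by_cases hs : s0 ∈ J
        · have h6 := (hbk hg hκ hx2 hG J).2 hJt hs
          have h4' : (u : ℝ) + 3 ≤ ((G.sub J).h0 : ℝ) := by exact_mod_cast h5 hs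
          exact @num_odd_b n m _ u (finrank K J) _ x 0 hm hmn hxe hge' h1 h3 (Or.inr (lt_of_le_of_lt h4' h6))
        · have h6 := (hbk hg hκ hx2 hG J).1 h2 hs
          have h4' : (u : ℝ) ≤ ((G.sub J).h0 : ℝ) := by exact_mod_cast h4 hs
          exact @num_odd_b n m _ u (finrank K J) _ x 0 hm hmn hxe hge' h1 h3 (Or.inl (lt_of_le_of_lt h4' h6))
  obtain ⟨E', f, hE, h1, _, _, _, h2⟩ := exists_transport ((pw κ (n + m)).sub T0) hr
  refine ⟨E', h2 hst, h1.trans hEdeg, ?_⟩
  rw [hE, VB.h0_map]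
  exact hEh0

end Pool.Agent.MP_09eaec.GG.G3
end

section

/-!
# The lower bound `min (2 j n) (d + (j - 1) n + (g - j))`
-/

set_option autoImplicit false

namespace Pool.Agent.MP_09eaec.GG

open Module

universe u v

variable {k : Type u} {K : Type v} [Field k] [Field K] [Algebra k K]
variable {W : Type v} [AddCommGroup W] [Module K W] [Module k W] [IsScalarTower k K W]

variable [CurveG k K]

theorem lower_round {H : Dv k K} {x y : K} (hp : Pencil H x y) [FiniteDimensional K W]
    {E : VB k K W} {V : Submodule k W} (hV : V ≤ E.H0) {α : ℝ} (hα : 0 < α)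
    (hn : 1 ≤ finrank K W) (hst : E.StableSys α V) {j : ℤ} (hj : 1 ≤ j) (hj' : j ≤ gen k K)
    (hk0 : j * finrank K W < finrank k V) (hd : E.deg < 2 * j * finrank K W) :
    (finrank k V : ℤ) + (j - 1) * finrank K W + (gen k K - j) ≤ E.deg := by
  obtain ⟨J0, h1, h2, h3, h4, -⟩ := exists_sys_quo hV hα hn hst
  have hr0 := finrank_quo_pos h1
  have hle : finrank K (W ⧸ J0) ≤ finrank K W := Submodule.finrank_quotient_le J0
  obtain ⟨n, hndef⟩ : ∃ n : ℤ, n = (finrank K W : ℤ) := ⟨_, rfl⟩
  obtain ⟨r, hrdef⟩ : ∃ r : ℤ, r = (finrank K (W ⧸ J0) : ℤ) := ⟨_, rfl⟩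
  have hn' : (0 : ℤ) < n := by rw [hndef]; exact_mod_cast hn
  have hr' : (0 : ℤ) < r := by rw [hrdef]; exact_mod_cast hr0
  have hrn : r ≤ n := by rw [hndef, hrdef]; exact_mod_cast hle
  have h6 : (E.quo J0).deg < 2 * j * finrank K (W ⧸ J0) := by
    rw [← hrdef]
    rw [← hndef] at h4 hd
    rw [← hrdef] at h4
    have a1 := mul_lt_mul_of_pos_right hd hr'
    have a2 : (E.quo J0).deg * n < (2 * j * r) * n := by
      calc (E.quo J0).deg * n ≤ E.deg * r := h4
        _ < 2 * j * n * r := a1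
        _ = _ := by ring
    exact lt_of_mul_lt_mul_right a2 hn'.le
  have h7 : j * finrank K (W ⧸ J0) < (E.quo J0).h0 := by
    rw [← hrdef]
    rw [← hndef] at h3 hk0
    rw [← hrdef] at h3
    have a1 := mul_lt_mul_of_pos_right hk0 hr'
    have a2 : (j * r) * n < (E.quo J0).h0 * n := by
      calc (j * r) * n = j * n * r := by ring
        _ < finrank k V * r := a1
        _ ≤ _ := h3
    exact lt_of_mul_lt_mul_right a2 hn'.le
  have h8 := stable_round hp h2 hr0 hj hj' h6 h7
  rw [← hndef] at h3 h4 ⊢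
  rw [← hrdef] at h3 h4 h8
  set g := gen k K
  have b1 := mul_le_mul_of_nonneg_right h8 hn'.le
  have b2 : (g - j) * r ≤ (g - j) * n := mul_le_mul_of_nonneg_left hrn (by linarith)
  have b3 : ((finrank k V : ℤ) + (j - 1) * n + (g - j)) * r ≤ E.deg * r := by nlinarith
  exact le_of_mul_le_mul_right b3 hr'

end Pool.Agent.MP_09eaec.GG
end

section

/-!
# Existence
-/

set_option autoImplicit false

namespace Pool.Agent.MP_09eaec.GG

open Module

universe u v

variable {k : Type u} {K : Type v} [Field k] [Field K] [Algebra k K]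

variable [CurveG k K]

/-- Twisting a stable bundle of slope smaller than two. -/
theorem twist_mem {H : Dv k K} {x y : K} (hp : Pencil H x y) {n d s c : ℕ} (hn : 1 ≤ n)
    {E : VB k K (Fin n → K)} (hE : E.Stable) (hd : E.deg < 2 * n) (hc : (c : ℤ) ≤ E.h0)
    (hs : d ≤ (s + 1) * c) : E.deg + 2 * s * n ∈ stableDegrees k K n d := by
  have hrank : finrank K (Fin n → K) = n := Module.finrank_fin_fun K
  have h1 : (E.twist (-H)).H0 = ⊥ := by
    refine stable_twist_bot hE (by rw [hrank]; exact hn) ?_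
    rw [hrank, hp.deg]
    linarith
  have h2 := mul_h0_le_fH hp E h1 (s := s) (by positivity)
  have h3 := stable_mem (d := d) hn (E := E.twist ((s : ℤ) • H)) (VB.stable_twist hE _) (by
    have h4 : (d : ℤ) ≤ (s + 1) * c := by exact_mod_cast hs
    have h5 : ((s : ℤ) + 1) * c ≤ (s + 1) * E.h0 :=
      mul_le_mul_of_nonneg_left hc (by positivity)
    unfold fH at h2
    linarith)
  rw [deg_twist_H hp, hrank] at h3
  exact h3

/-- Existence in (B). -/
theorem upper_plateau {H : Dv k K} {x y : K} (hp : Pencil H x y) {n d j : ℕ} (hn : 1 ≤ n)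
    (hj : 1 ≤ j) (hjg : (j : ℤ) ≤ gen k K - 1) (h1 : j * n < d) (h2 : d ≤ (j + 1) * n)
    (hq : (n : ℤ) ^ 2 + (d : ℤ) ^ 2 ≤ (j + 1) * n * d + 1) :
    (2 * j * n : ℤ) ∈ stableDegrees k K n d := by
  have hk : KSt k (j + 1) n d := by
    refine kst_of_root (by omega) hn (by simpa using h1) h2 ?_
    push_cast
    exact hq
  obtain ⟨V, α, hα, hV, hd, hst⟩ := kron_sys hp hn hjg hk
  have := mem_stableDegrees (by omega) hα hV hd hst
  rw [deg_pw, ddeg_zsmul, hp.deg] at this
  have e : (2 * j * n : ℤ) = n * (j * 2) := by ring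
  rw [e]
  exact this

/-- Existence in (C). -/
theorem upper_top {H : Dv k K} {x y : K} (hp : Pencil H x y) {n d j c : ℕ}
    (hc : c < n) (h : gen k K * c ≤ (gen k K - 1) * n + 1) (hd : d ≤ (j + 1) * c) :
    (2 * j * n + 1 : ℤ) ∈ stableDegrees k K n d := by
  obtain ⟨E, h2, h1, h3⟩ := exists_deg_one (k := k) (K := K) hc h
  have := twist_mem hp (s := j) (by omega) h2 (by rw [h1]; omega) h3 hd
  rw [h1] at this
  have e : (2 * j * n + 1 : ℤ) = 1 + 2 * j * n := by ring
  rw [e]
  exact this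

end Pool.Agent.MP_09eaec.GG
end
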