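import Pool.Agent.Lib.MP_09eaec_ag.Mg.G023
import Pool.Agent.Lib.MP_09eaec_ag.Mg.G010
import Pool.Agent.Lib.MP_09eaec_ag.Mg.G021
import Pool.Agent.Lib.MP_09eaec_ag.Mg.G026
import Pool.Agent.Lib.MP_09eaec_ag.Mg.G031

section

/-!
# Clifford's inequality for bundles with quotients of slope `≥ 0` and subbundles of slope `≤ 2 g`
-/

set_option autoImplicit false

namespace Pool.Agent.MP_09eaec.GG

open Module

universe u v

variable {k : Type u} {K : Type v} [Field k] [Field K] [Algebra k K]
variable {W : Type v} [AddCommGroup W] [Module K W] [Module k W] [IsScalarTower k K W]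

variable [CurveG k K]

theorem stable_clifford {H : Dv k K} {x y : K} (hp : Pencil H x y) [FiniteDimensional K W]
    {Q : VB k K W} (hQ : Q.Stable) (hr : 1 ≤ finrank K W) (h1 : 0 ≤ Q.deg)
    (h2 : Q.deg ≤ 2 * gen k K * finrank K W) : 2 * Q.h0 ≤ 2 * finrank K W + Q.deg := by
  have hg := CurveG.two_le (k := k) (K := K)
  have hr0 : (0 : ℤ) < finrank K W := by exact_mod_cast hr
  rcases h2.eq_or_lt with h2 | h2
  · have h3 := fH_eq hp Q 0
    rw [fH_zero, stable_hom_zero hQ hr (by
      rw [ddeg_zsmul, hp.deg, h2]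
      nlinarith)] at h3
    rw [h2] at h3 ⊢
    linarith
  · set r : ℤ := ((finrank K W : ℕ) : ℤ) with hrdef
    set i : ℤ := Q.deg / (2 * r) with hi
    have e1 : 2 * r * i ≤ Q.deg := Int.mul_ediv_self_le (by omega)
    have e2 : Q.deg < 2 * r * i + 2 * r := Int.lt_mul_ediv_self_add (by omega)
    have hi0 : 0 ≤ i := Int.ediv_nonneg h1 (by omega)
    have hi1 : i ≤ gen k K - 1 := by
      by_contra hh
      push Not at hh
      have : gen k K ≤ i := by omega
      nlinarith
    rcases e1.eq_or_lt with e1 | e1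
    · have h3 := stable_even hp hQ hr hi0 hi1 (by rw [← e1]; ring)
      nlinarith
    · have h3 := stable_window hp hQ hr hi0 hi1 (by linarith) (by linarith)
      have hg0 : (0 : ℤ) < gen k K := by omega
      obtain ⟨ε, hε⟩ : ∃ ε : ℤ, Q.deg = 2 * r * i + ε := ⟨Q.deg - 2 * r * i, by ring⟩
      rw [hε] at h3 e1 e2 ⊢
      have h4 : 0 ≤ (i + 1) * (2 * r - ε) + (gen k K - 1 - i) * ε := by
        apply add_nonneg
        · exact mul_nonneg (by omega) (by linarith)
        · exact mul_nonneg (by linarith) (by linarith)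
      have h5 : gen k K * (2 * Q.h0) ≤ gen k K * (2 * r + (2 * r * i + ε)) := by
        nlinarith
      exact le_of_mul_le_mul_left h5 hg0

private theorem clifford_aux {H : Dv k K} {x y : K} (hp : Pencil H x y) (n : ℕ) :
    ∀ (W : Type v) [AddCommGroup W] [Module K W] [Module k W]
    [IsScalarTower k K W] [FiniteDimensional K W] (B : VB k K W), finrank K W = n →
    (∀ J : Submodule K W, J ≠ ⊤ → 0 ≤ (B.quo J).deg) →
    (∀ J : Submodule K W, (B.sub J).deg ≤ 2 * gen k K * finrank K J) →
    2 * B.h0 ≤ 2 * finrank K W + B.deg := by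
  induction n using Nat.strong_induction_on with
  | _ n ih =>
  intro W _ _ _ _ _ B hn h1 h2
  rcases Nat.eq_zero_or_pos n with h0 | hpos
  · have hW : finrank K W = 0 := by omega
    have : Subsingleton W := Module.finrank_zero_iff.1 hW
    rw [VB.deg_of_finrank_zero B hW, hW]
    have e : B.h0 = 0 := by
      unfold VB.h0
      rw [finrank_zero_of_subsingleton]
      rfl
    rw [e]
    simp
  have : Nontrivial W := Module.finrank_pos_iff.1 (by omega : 0 < finrank K W)
  obtain ⟨J, hJ, hst, hmin⟩ := exists_min_quo B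
  have hr := finrank_quo_pos hJ
  have hfr : finrank K J + finrank K (W ⧸ J) = finrank K W := by
    have := Submodule.finrank_quotient_add_finrank J
    omega
  have hd := VB.deg_add B J
  have hd1 := h1 J hJ
  have hr0 : (0 : ℤ) < finrank K (W ⧸ J) := by exact_mod_cast hr
  have hn0 : (0 : ℤ) < finrank K W := by exact_mod_cast (by omega : 0 < finrank K W)
  have hd2 : (B.quo J).deg ≤ 2 * gen k K * finrank K (W ⧸ J) := by
    have h3 := hmin ⊥ (by
      intro h
      have := bot_ne_top (α := Submodule K W)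
      exact this h)
    rw [VB.deg_quo_bot] at h3
    have h4 := h2 ⊤
    rw [VB.deg_sub_top, finrank_top] at h4
    have h5 : finrank K (W ⧸ (⊥ : Submodule K W)) = finrank K W := by
      have := Submodule.finrank_quotient_add_finrank (⊥ : Submodule K W)
      rw [finrank_bot] at this
      omega
    rw [h5] at h3
    have h6 : (B.quo J).deg * finrank K W ≤
        (2 * gen k K * finrank K (W ⧸ J)) * finrank K W := by
      have := mul_le_mul_of_nonneg_right h4 hr0.le
      linarith
    exact le_of_mul_le_mul_right h6 hn0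
  have hc := stable_clifford hp hst hr hd1 hd2
  have hV := finrank_image_le (le_refl B.H0) J
  rw [← VB.h0_sub_eq] at hV
  have hV' : B.h0 ≤ (B.quo J).h0 + (B.sub J).h0 := hV
  have hsub : 2 * (B.sub J).h0 ≤ 2 * finrank K J + (B.sub J).deg := by
    refine ih (finrank K J) (by omega) J (B.sub J) rfl ?_ ?_
    · intro T hT
      have h3 := VB.deg_add (B.sub J) T
      rw [VB.deg_sub_sub] at h3
      set T' := T.map J.subtype with hT'
      have hT1 : T' ≠ ⊤ := by
        intro h
        apply hT
        rw [eq_top_iff]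
        intro z _
        have h4 : (z : W) ∈ T' := by rw [h]; trivial
        obtain ⟨z', hz', e⟩ := h4
        have : z' = z := Subtype.ext e
        rwa [← this]
      have h4 := hmin T' hT1
      have h5 := VB.deg_add B T'
      have h6 : finrank K T' = finrank K T := by
        rw [hT']
        exact Submodule.finrank_map_subtype_eq J T
      have h7 := Submodule.finrank_quotient_add_finrank T'
      have h8 : finrank K T ≤ finrank K J := Submodule.finrank_le T
      have h9 : (finrank K (W ⧸ T') : ℤ) = finrank K W - finrank K T := by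
        rw [← h6]; omega
      rw [h9] at h4
      have h10 : (finrank K (W ⧸ J) : ℤ) ≤ finrank K W - finrank K T := by omega
      have h11 : (B.quo J).deg * finrank K (W ⧸ J) ≤ (B.quo T').deg * finrank K (W ⧸ J) := by
        have := mul_le_mul_of_nonneg_left h10 hd1
        linarith
      have h12 : (B.quo J).deg ≤ (B.quo T').deg := le_of_mul_le_mul_right h11 hr0
      linarith
    · intro T
      rw [VB.deg_sub_sub]
      have h3 := h2 (T.map J.subtype)
      have h6 : finrank K (T.map J.subtype) = finrank K T :=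
        Submodule.finrank_map_subtype_eq J T
      rwa [h6] at h3
  have hfr' : (finrank K J : ℤ) + finrank K (W ⧸ J) = finrank K W := by exact_mod_cast hfr
  linarith

/-- Clifford's inequality. -/
theorem clifford {H : Dv k K} {x y : K} (hp : Pencil H x y) [FiniteDimensional K W]
    {B : VB k K W} (h1 : ∀ J : Submodule K W, J ≠ ⊤ → 0 ≤ (B.quo J).deg)
    (h2 : ∀ J : Submodule K W, (B.sub J).deg ≤ 2 * gen k K * finrank K J) :
    2 * B.h0 ≤ 2 * finrank K W + B.deg :=
  clifford_aux hp _ W B rfl h1 h2

end Pool.Agent.MP_09eaec.GG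
end

section

/-!
# The lower bound for `(j + 1) n - u` sections, `u ≤ j`
-/

set_option autoImplicit false

namespace Pool.Agent.MP_09eaec.GG

open Module

universe u v

variable {k : Type u} {K : Type v} [Field k] [Field K] [Algebra k K]
variable {W : Type v} [AddCommGroup W] [Module K W] [Module k W] [IsScalarTower k K W]

variable [CurveG k K]

/-- A stable bundle of slope in `(2 j, 2 j + 2)` with more than `(j + 1) (r - 1)` sections. -/
theorem stable_step {H : Dv k K} {x y : K} (hp : Pencil H x y) [FiniteDimensional K W]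
    {Q : VB k K W} (hQ : Q.Stable) (hr : 1 ≤ finrank K W) {j : ℤ} (hj : 0 ≤ j)
    (hj' : j + 2 ≤ gen k K) (h1 : 2 * j * finrank K W < Q.deg)
    (h2 : Q.deg < 2 * (j + 1) * finrank K W)
    (h3 : (j + 1) * ((finrank K W : ℤ) - 1) < Q.h0) : Q.h0 + j * finrank K W ≤ Q.deg := by
  have e0 : fH H Q (-(j + 1)) = 0 := by
    have h4 := stable_twist_bot hQ hr (D := (j + 1) • H) (by
      rw [ddeg_zsmul, hp.deg]; linarith)
    show (Q.twist ((-(j + 1)) • H)).h0 = 0
    rw [neg_smul]
    unfold VB.h0
    rw [h4, finrank_bot]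
    rfl
  have e1 := fH_ineq hp Q (a := -(j + 1)) (b := 0) (c := 1) (by omega) (by omega)
  have e2 := fH_ineq hp Q (a := 0) (b := 1) (c := gen k K - 1 - j) (by omega) (by omega)
  have e3 := fH_eq hp Q (gen k K - 1 - j)
  have e4 : gen k K - 1 - (gen k K - 1 - j) = j := by ring
  rw [e4, stable_hom_zero hQ hr (by rw [ddeg_zsmul, hp.deg]; linarith)] at e3
  rw [e0, fH_zero] at e1
  rw [fH_zero] at e2
  have h4 : (j + 1) * ((finrank K W : ℤ) - 1) < (j + 1) * (fH H Q 1 - Q.h0) := by linarith
  have h5 : (finrank K W : ℤ) - 1 < fH H Q 1 - Q.h0 := lt_of_mul_lt_mul_left h4 (by omega)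
  have h6 : (finrank K W : ℤ) ≤ fH H Q 1 - Q.h0 := by omega
  have h7 : (gen k K - 1 - j) * (finrank K W : ℤ) ≤ (gen k K - 1 - j) * (fH H Q 1 - Q.h0) :=
    mul_le_mul_of_nonneg_left h6 (by omega)
  linarith

theorem lower_F {H : Dv k K} {x y : K} (hp : Pencil H x y) [FiniteDimensional K W]
    {E : VB k K W} {V : Submodule k W} (hV : V ≤ E.H0) {α : ℝ} (hα : 0 < α)
    (hn : 2 ≤ finrank K W) (hst : E.StableSys α V) {j u : ℕ} {y0 : ℤ} (hj : 1 ≤ j)
    (huj : u ≤ j) (hk : (finrank k V : ℤ) + u = (j + 1) * finrank K W)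
    (hy0 : 1 ≤ y0) (hyg : y0 + j + 1 ≤ gen k K)
    (hy : j * (y0 - 1) < finrank K W - (j + 1) * u) :
    2 * j * finrank K W + min (2 * y0) ((finrank K W : ℤ) - u) ≤ E.deg := by
  by_contra hcon
  push Not at hcon
  obtain ⟨n, hnn⟩ : ∃ n : ℤ, n = (finrank K W : ℤ) := ⟨_, rfl⟩
  obtain ⟨g, hgg⟩ : ∃ g : ℤ, g = gen k K := ⟨_, rfl⟩
  obtain ⟨t, ht⟩ : ∃ t : ℤ, E.deg = 2 * j * n + t := ⟨E.deg - 2 * j * n, by ring⟩
  rw [← hnn] at hcon hk hy
  rw [← hgg] at hyg
  have hn2 : 2 ≤ n := by rw [hnn]; exact_mod_cast hn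
  have hj1 : (1 : ℤ) ≤ j := by exact_mod_cast hj
  have hu0 : (0 : ℤ) ≤ u := by positivity
  have huj' : (u : ℤ) ≤ j := by exact_mod_cast huj
  have ht1 : t < 2 * y0 := by
    have := min_le_left (2 * y0) (n - (u : ℤ))
    linarith
  have ht2 : t < n - u := by
    have := min_le_right (2 * y0) (n - (u : ℤ))
    linarith
  have hjy : (0 : ℤ) ≤ j * (y0 - 1) := mul_nonneg (by omega) (by omega)
  have hnu : (j + 1) * (u : ℤ) < n := by linarith
  have hk' : j * (g + 1) * n ≤ g * (finrank k V : ℤ) := by
    have e1 : (finrank k V : ℤ) = (j + 1) * n - u := by linarith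
    rw [e1]
    have e2 : g ≤ (g - j) * (j + 1) := by nlinarith
    have e3 : g * (u : ℤ) ≤ (g - j) * (j + 1) * u := mul_le_mul_of_nonneg_right e2 hu0
    have e4 : (g - j) * ((j + 1) * (u : ℤ)) ≤ (g - j) * n :=
      mul_le_mul_of_nonneg_left hnu.le (by omega)
    nlinarith
  have hk'' : (j : ℤ) * (gen k K + 1) * finrank K W ≤ gen k K * finrank k V := by
    rw [← hgg, ← hnn]; exact hk'
  have hquo : ∀ J : Submodule K W, J ≠ ⊤ → 2 * (j : ℤ) * finrank K (W ⧸ J) ≤ (E.quo J).deg :=
    fun J hJ => quo_deg_ge hp hV hα (by omega) hst hj1 (by rw [← hgg]; omega) hk'' hJ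
  have hpl : 2 * (j : ℤ) * finrank K W ≤ E.deg :=
    lower_plateau hp hV hα (by omega) hst hj1 (by rw [← hgg]; omega) hk''
  rw [← hnn] at hpl
  have hfr : ∀ J : Submodule K W, (finrank K J : ℤ) + finrank K (W ⧸ J) = n := by
    intro J
    have := Submodule.finrank_quotient_add_finrank J
    rw [hnn]
    omega
  rcases le_or_gt ((t : ℝ)) (α * u) with hcase | hcase
  · -- regime I
    have hb := divs_eq_bot hp hV hα hn hst (j := j) (by
      have e1 : (E.deg : ℝ) = 2 * j * n + t := by rw [ht]; push_cast; ring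
      have e2 : (finrank k V : ℝ) = (j + 1) * n - u := by
        have : ((finrank k V : ℤ) : ℝ) = ((j + 1) * n - u : ℤ) := by
          congr 1
          linarith
        push_cast at this
        exact this
      have e3 : (finrank K W : ℝ) = n := by rw [hnn]; norm_cast
      rw [e1, e2, e3]
      linarith)
    have h1 := mul_finrank_le hp hV hb
    have h2 := clifford hp (B := E.twist H) (by
        intro J hJ
        rw [VB.twist_quo, VB.deg_twist, hp.deg]
        have := hquo J hJ
        have h3 : (0 : ℤ) ≤ 2 * j * finrank K (W ⧸ J) := by positivity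
        have h4 : (0 : ℤ) ≤ (finrank K (W ⧸ J) : ℤ) * 2 := by positivity
        linarith) (by
        intro J
        rw [VB.twist_sub, VB.deg_twist, hp.deg, ← hgg]
        rcases eq_or_ne J ⊥ with rfl | hJb
        · rw [VB.deg_sub_bot, finrank_bot]
          simp
        have hw1 : (1 : ℤ) ≤ finrank K J := by
          have : 0 < finrank K J := Submodule.one_le_finrank_iff.2 hJb
          exact_mod_cast this
        have hq : 2 * (j : ℤ) * finrank K (W ⧸ J) ≤ (E.quo J).deg := by
          rcases eq_or_ne J ⊤ with h | h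
          · have h5 : finrank K (W ⧸ J) = 0 := by
              have := Submodule.finrank_quotient_add_finrank J
              rw [h, finrank_top] at this
              rw [h]
              omega
            rw [VB.deg_of_finrank_zero _ h5, h5]
            simp
          · exact hquo J h
        have h3 := VB.deg_add E J
        have h4 := hfr J
        rw [ht] at h3
        have h5 : (E.sub J).deg ≤ 2 * j * finrank K J + t := by
          have h6 : (finrank K (W ⧸ J) : ℤ) = n - finrank K J := by linarith
          rw [h6] at hq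
          nlinarith
        have h6 : t ≤ 2 * (g - 1 - j) := by linarith
        have h7 : (g - 1 - j) * 1 ≤ (g - 1 - j) * (finrank K J : ℤ) :=
          mul_le_mul_of_nonneg_left hw1 (by omega)
        linarith)
    rw [VB.deg_twist, hp.deg, ht, ← hnn] at h2
    have h3 : (E.twist H).h0 ≤ (j + 2) * n + (y0 - 1) := by
      have h4 : 2 * (E.twist H).h0 ≤ 2 * ((j + 2) * n + (y0 - 1)) + 1 := by linarith
      omega
    have h4 : (j : ℤ) * (E.twist H).h0 ≤ j * ((j + 2) * n + (y0 - 1)) :=
      mul_le_mul_of_nonneg_left h3 (by omega)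
    have h5 : (finrank k V : ℤ) = (j + 1) * n - u := by linarith
    rw [h5] at h1
    nlinarith
  · -- regime II
    have ht0 : (0 : ℝ) < t := lt_of_le_of_lt (by positivity) hcase
    have ht0' : 0 < t := by exact_mod_cast ht0
    obtain ⟨J, hJ, hQ, h1, h2, -⟩ := exists_sys_quo hV hα (by omega) hst
    have hr := finrank_quo_pos hJ
    have h3 := hquo J hJ
    obtain ⟨r, hrr⟩ : ∃ r : ℤ, r = (finrank K (W ⧸ J) : ℤ) := ⟨_, rfl⟩
    have hr1 : 1 ≤ r := by rw [hrr]; exact_mod_cast hr
    have hfJ := hfr J
    rw [← hrr] at h1 h2 h3 hfJ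
    rw [← hnn] at h1 h2
    have hrn : r ≤ n := by
      have : (0 : ℤ) ≤ finrank K J := by positivity
      linarith
    have hk1 : (finrank k V : ℤ) = (j + 1) * n - u := by linarith
    rcases h3.eq_or_lt with h3 | h3
    · -- slope `2 j`
      have h4 : (E.quo J).h0 ≤ (j + 1) * finrank K (W ⧸ J) :=
        stable_even hp hQ hr (i := j) (by omega) (by rw [← hgg]; omega) (by rw [← hrr, h3])
      rw [← hrr] at h4
      have h5 := VB.deg_add E J
      rcases eq_or_ne J ⊥ with hJb | hJb
      · have h6 : (E.sub J).deg = 0 := by rw [hJb]; exact VB.deg_sub_bot E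
        have h7 : (finrank K J : ℤ) = 0 := by rw [hJb, finrank_bot]; rfl
        have h8 : r = n := by linarith
        rw [h6, ← h3, h8, ht] at h5
        linarith
      · have h6 := hst J hJb hJ
        have h7 := finrank_image_le hV J
        have hw1 : 0 < finrank K J := Submodule.one_le_finrank_iff.2 hJb
        rw [div_lt_div_iff₀ (by exact_mod_cast hw1) (by exact_mod_cast (by omega : 0 < finrank K W))]
          at h6
        have e1 : (finrank K W : ℝ) = n := by rw [hnn]; norm_cast
        have e2 : (finrank K J : ℝ) = n - r := by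
          have : (finrank K J : ℤ) = n - r := by linarith
          have h8 : ((finrank K J : ℤ) : ℝ) = ((n - r : ℤ) : ℝ) := by rw [this]
          push_cast at h8
          exact h8
        have e3 : (E.deg : ℝ) = 2 * j * n + t := by rw [ht]; push_cast; ring
        have e4 : ((E.sub J).deg : ℝ) = 2 * j * n + t - 2 * j * r := by
          have : (E.sub J).deg = 2 * j * n + t - 2 * j * r := by linarith
          rw [this]; push_cast; ring
        have e5 : (finrank k V : ℝ) = (j + 1) * n - u := by
          have h8 : ((finrank k V : ℤ) : ℝ) = (((j + 1) * n - u : ℤ) : ℝ) := by rw [hk1]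
          push_cast at h8
          exact h8
        have e6 : ((j + 1) * n - u - (j + 1) * r : ℝ) ≤
            (finrank k ↥(V ⊓ J.restrictScalars k) : ℝ) := by
          have h8 : (j + 1) * n - u - (j + 1) * r ≤ (vd V J : ℤ) := by linarith
          have h9 : (((j + 1) * n - u - (j + 1) * r : ℤ) : ℝ) ≤ ((vd V J : ℤ) : ℝ) := by
            exact_mod_cast h8
          push_cast at h9
          exact h9
        rw [e1, e2, e3, e4, e5] at h6
        have hn0 : (0 : ℝ) < n := by exact_mod_cast (by omega : 0 < n)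
        have hr0 : (0 : ℝ) < r := by exact_mod_cast (by omega : 0 < r)
        have h8 := mul_le_mul_of_nonneg_left e6 hα.le
        have h9 := mul_le_mul_of_nonneg_right h8 hn0.le
        have h10 : r * (t - α * u) < 0 := by nlinarith
        have h11 : 0 < r * (t - α * u) := mul_pos hr0 (by linarith)
        linarith
    · rcases le_or_gt (2 * (j + 1) * r) (E.quo J).deg with h4 | h4
      · have h5 : (2 * (j + 1) * n) * r ≤ E.deg * r := by
          have := mul_le_mul_of_nonneg_right h4 (by omega : 0 ≤ n)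
          linarith
        have h6 : 2 * (j + 1) * n ≤ E.deg := le_of_mul_le_mul_right h5 (by omega)
        linarith
      · have h5 : (j + 1) * (r - 1) < (E.quo J).h0 := by
          have h6 : ((j + 1) * (r - 1)) * n < (E.quo J).h0 * n := by
            rw [hk1] at h1
            have h7 : (u : ℤ) * r ≤ j * n := mul_le_mul huj' hrn (by omega) (by omega)
            nlinarith
          exact lt_of_mul_lt_mul_right h6 (by omega)
        have h6 := stable_step hp hQ hr (j := j) (by omega) (by rw [← hgg]; omega)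
          (by rw [← hrr]; exact h3) (by rw [← hrr]; exact h4) (by rw [← hrr]; exact h5)
        rw [← hrr] at h6
        have h7 : ((finrank k V : ℤ) + j * n) * r ≤ E.deg * r := by
          have := mul_le_mul_of_nonneg_right h6 (by omega : 0 ≤ n)
          linarith
        have h8 : (finrank k V : ℤ) + j * n ≤ E.deg := le_of_mul_le_mul_right h7 (by omega)
        linarith

end Pool.Agent.MP_09eaec.GG
end

section

/-!
# The spaces of sections `{(s, v) | φ(s) = ∑ ψ_i(v_i)}` of `O(L) ⊕ O(D)^n`
-/

set_option autoImplicit false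

namespace Pool.Agent.MP_09eaec.GG

open Module

universe u v

theorem exists_indep_mod {F : Type*} [Field F] {M : Type*} [AddCommGroup M] [Module F M]
    [FiniteDimensional F M] (X : Submodule F M) {p : ℕ} (h : p + finrank F X ≤ finrank F M) :
    ∃ ψ : Fin p → M, ∀ c : Fin p → F, (∑ i, c i • ψ i) ∈ X → c = 0 := by
  have h1 := Submodule.finrank_quotient_add_finrank X
  obtain ⟨f, hf⟩ := exists_linearIndependent_of_le_finrank (R := F) (M := M ⧸ X) (n := p)
    (by omega)
  choose ψ hψ using fun i => X.mkQ_surjective (f i)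
  refine ⟨ψ, fun c hc => ?_⟩
  have h2 : ∑ i, c i • f i = 0 := by
    have h3 : X.mkQ (∑ i, c i • ψ i) = 0 := by
      rw [Submodule.mkQ_apply, Submodule.Quotient.mk_eq_zero]
      exact hc
    rw [map_sum] at h3
    rw [← h3]
    refine Finset.sum_congr rfl fun i _ => ?_
    rw [map_smul, hψ]
  exact funext ((Fintype.linearIndependent_iff.1 hf) c h2)

theorem exists_surj {F : Type*} [Field F] {M : Type*} [AddCommGroup M] [Module F M]
    [FiniteDimensional F M] {N : ℕ} (h : N ≤ finrank F M) :
    ∃ φ : M →ₗ[F] (Fin N → F), Function.Surjective φ := by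
  have e : finrank F M = finrank F (Fin (finrank F M) → F) := by
    rw [Module.finrank_fin_fun]
  let f := LinearEquiv.ofFinrankEq M (Fin (finrank F M) → F) e
  refine ⟨(LinearMap.funLeft F F (Fin.castLE h)).comp f.toLinearMap, ?_⟩
  exact (LinearMap.funLeft_surjective_of_injective F F _ (Fin.castLE_injective h)).comp
    f.surjective

variable {k : Type u} {K : Type v} [Field k] [Field K] [Algebra k K]

section

variable {S T : Submodule k K} {N n : ℕ}

/-- The inclusion. -/
def RegI (S T : Submodule k K) (n : ℕ) : (S × (Fin n → T)) →ₗ[k] (K × (Fin n → K)) where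
  toFun p := ((p.1 : K), fun i => (p.2 i : K))
  map_add' _ _ := rfl
  map_smul' _ _ := rfl

theorem RegI_inj : Function.Injective (RegI S T n) := by
  intro p q h
  have h1 := congrArg Prod.fst h
  have h2 := congrArg Prod.snd h
  refine Prod.ext (Subtype.ext h1) ?_
  funext i
  exact Subtype.ext (congrFun h2 i)

/-- The equations. -/
def RegT (φ : S →ₗ[k] (Fin N → k)) (ψ : Fin n → (T →ₗ[k] (Fin N → k))) :
    (S × (Fin n → T)) →ₗ[k] (Fin N → k) where
  toFun p := φ p.1 - ∑ i, ψ i (p.2 i)
  map_add' p q := by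
    simp only [Prod.fst_add, Prod.snd_add, map_add, Pi.add_apply, Finset.sum_add_distrib]
    abel
  map_smul' c p := by
    simp only [Prod.smul_fst, Prod.smul_snd, map_smul, Pi.smul_apply, ← Finset.smul_sum,
      RingHom.id_apply, smul_sub]

/-- The space. -/
def RegV (φ : S →ₗ[k] (Fin N → k)) (ψ : Fin n → (T →ₗ[k] (Fin N → k))) :
    Submodule k (K × (Fin n → K)) := (LinearMap.ker (RegT φ ψ)).map (RegI S T n)

theorem mem_RegV {φ : S →ₗ[k] (Fin N → k)} {ψ : Fin n → (T →ₗ[k] (Fin N → k))}
    {z : K × (Fin n → K)} : z ∈ RegV φ ψ ↔ ∃ (hs : z.1 ∈ S) (hv : ∀ i, z.2 i ∈ T),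
      φ ⟨z.1, hs⟩ = ∑ i, ψ i ⟨z.2 i, hv i⟩ := by
  constructor
  · rintro ⟨p, hp, rfl⟩
    exact ⟨p.1.2, fun i => (p.2 i).2, sub_eq_zero.1 (LinearMap.mem_ker.1 hp)⟩
  · rintro ⟨hs, hv, h⟩
    refine ⟨(⟨z.1, hs⟩, fun i => ⟨z.2 i, hv i⟩), ?_, rfl⟩
    exact LinearMap.mem_ker.2 (sub_eq_zero.2 h)

theorem finrank_RegV [FiniteDimensional k S] [FiniteDimensional k T]
    {φ : S →ₗ[k] (Fin N → k)} (hφ : Function.Surjective φ)
    (ψ : Fin n → (T →ₗ[k] (Fin N → k))) :
    finrank k (RegV φ ψ) + N = finrank k S + n * finrank k T := by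
  have h1 : finrank k (RegV φ ψ) = finrank k (LinearMap.ker (RegT φ ψ)) :=
    (Submodule.equivMapOfInjective _ RegI_inj _).finrank_eq.symm
  have h2 := LinearMap.finrank_range_add_finrank_ker (RegT φ ψ)
  have h3 : LinearMap.range (RegT φ ψ) = ⊤ := by
    rw [LinearMap.range_eq_top]
    intro y
    obtain ⟨s, hs⟩ := hφ y
    refine ⟨(s, 0), ?_⟩
    show φ s - ∑ i, ψ i ((0 : Fin n → T) i) = y
    simp [hs]
  rw [h3, finrank_top, Module.finrank_fin_fun, Module.finrank_prod,
    Module.finrank_pi_fintype] at h2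
  simp only [Finset.sum_const, Finset.card_univ, Fintype.card_fin, smul_eq_mul] at h2
  omega

end

variable [CurveG k K]

theorem exists_reg {D M L : Dv k K}
    (hbase : ∀ P : Place k K, ∃ s ∈ (line D).H0, s ≠ 0 ∧ P.ord s = -D P) {a m0 s0 N n : ℕ}
    (ha : (line D).h0 = a) (hm : (line M).h0 = m0) (hs : (line (D + M)).h0 = s0) (hNs : N ≤ s0)
    (hNn : n + m0 ≤ a * N) (hL : ∀ P, (D + M) P ≤ L P) :
    ∃ V : Submodule k (K × (Fin n → K)), V ≤ (ext (line L) (pw D n) 0).H0 ∧
      finrank k V + N = s0 + n * a ∧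
      ∀ J : Submodule K (K × (Fin n → K)),
        vd V J + N ≤ a * finrank K (J.map (LinearMap.snd K K (Fin n → K))) + s0 ∧
        (J ≠ ⊥ → J.comap (LinearMap.inl K K (Fin n → K)) = ⊥ →
          vd V J < a * finrank K (J.map (LinearMap.snd K K (Fin n → K)))) := by
  classical
  set S : Submodule k K := (line (D + M)).H0 with hS
  set T : Submodule k K := (line D).H0 with hT
  have fS : FiniteDimensional k S := inferInstance
  have fT : FiniteDimensional k T := inferInstance
  have hfS : finrank k S = s0 := by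
    have : ((finrank k S : ℕ) : ℤ) = s0 := hs
    exact_mod_cast this
  have hfT : finrank k T = a := by
    have : ((finrank k T : ℕ) : ℤ) = a := ha
    exact_mod_cast this
  obtain ⟨φ, hφ⟩ := exists_surj (F := k) (M := S) (N := N) (by omega)
  -- multiplication by sections of `M`
  have hmul : ∀ l ∈ (line M).H0, ∀ s ∈ T, s * l ∈ S := by
    intro l hl s hs'
    rw [hS, VB.mem_H0]
    intro P
    have h1 := mem_line.1 (VB.mem_H0.1 hl P)
    have h2 := mem_line.1 (VB.mem_H0.1 hs' P)
    have h3 := mul_mem_filt P h2 h1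
    rw [mem_line]
    have e : -D P + -M P = -(D + M) P := by rw [Finsupp.add_apply]; ring
    rwa [e] at h3
  let μ : (line M).H0 →ₗ[k] (T →ₗ[k] (Fin N → k)) :=
    { toFun := fun l =>
        { toFun := fun s => φ ⟨(s : K) * (l : K), hmul l l.2 s s.2⟩
          map_add' := by
            intro s s'
            rw [← map_add]
            congr 1
            exact Subtype.ext (add_mul _ _ _)
          map_smul' := by
            intro c s
            rw [RingHom.id_apply, ← map_smul]
            congr 1
            exact Subtype.ext (smul_mul_assoc _ _ _) }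
      map_add' := by
        intro l l'
        apply LinearMap.ext
        intro s
        show φ _ = φ _ + φ _
        rw [← map_add]
        congr 1
        exact Subtype.ext (mul_add _ _ _)
      map_smul' := by
        intro c l
        apply LinearMap.ext
        intro s
        show φ _ = c • φ _
        rw [← map_smul]
        congr 1
        exact Subtype.ext (mul_smul_comm _ _ _) }
  have hμ : ∀ (l : (line M).H0) (s : T), μ l s = φ ⟨(s : K) * (l : K), hmul l l.2 s s.2⟩ :=
    fun l s => rfl
  have hX : n + finrank k (LinearMap.range μ) ≤ finrank k (T →ₗ[k] (Fin N → k)) := by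
    rw [Module.finrank_linearMap, Module.finrank_fin_fun, hfT]
    have h1 := LinearMap.finrank_range_le μ
    have h2 : finrank k (line M).H0 = m0 := by
      have : ((finrank k (line M).H0 : ℕ) : ℤ) = m0 := hm
      exact_mod_cast this
    omega
  obtain ⟨ψ, hψ⟩ := exists_indep_mod (LinearMap.range μ) hX
  refine ⟨RegV φ ψ, ?_, ?_, ?_⟩
  · intro z hz
    obtain ⟨h1, h2, -⟩ := mem_RegV.1 hz
    rw [VB.mem_H0]
    intro P
    rw [mem_ext]
    refine ⟨fun i => mem_line.1 (VB.mem_H0.1 (h2 i) P), ?_⟩
    have h3 := mem_line.1 (VB.mem_H0.1 h1 P)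
    have h4 : z.1 - (0 : Place k K →₀ ((Fin n → K) →ₗ[K] K)) P z.2 = z.1 := by
      rw [Finsupp.zero_apply, LinearMap.zero_apply, sub_zero]
    rw [h4, mem_line]
    exact filt_mono P (neg_le_neg (hL P)) h3
  · rw [finrank_RegV hφ ψ, hfS, hfT]
  · intro J
    set JB := J.map (LinearMap.snd K K (Fin n → K)) with hJB
    have hVfin : Module.Finite k (RegV φ ψ) := by
      unfold RegV
      infer_instance
    have hfin : Module.Finite k ↥(RegV φ ψ ⊓ J.restrictScalars k) :=
      Submodule.finiteDimensional_of_le inf_le_left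
    let p : ↥(RegV φ ψ ⊓ J.restrictScalars k) →ₗ[k] ((pw D n).sub JB).H0 :=
      { toFun := fun e => ⟨⟨(e : K × (Fin n → K)).2, ⟨(e : K × (Fin n → K)), e.2.2, rfl⟩⟩, by
          rw [VB.mem_H0]
          intro P
          rw [VB.mem_sub]
          obtain ⟨-, h2, -⟩ := mem_RegV.1 e.2.1
          exact fun i => mem_line.1 (VB.mem_H0.1 (h2 i) P)⟩
        map_add' := fun _ _ => rfl
        map_smul' := fun _ _ => rfl }
    have hpval : ∀ e, (((p e : ((pw D n).sub JB).H0) : JB) : Fin n → K) =
        (e : K × (Fin n → K)).2 := fun e => rfl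
    have h1 := LinearMap.finrank_range_add_finrank_ker (K := k)
      (V := ↥(RegV φ ψ ⊓ J.restrictScalars k)) (V₂ := ((pw D n).sub JB).H0) p
    obtain ⟨hb1, hb2⟩ := h0_pw_sub hbase JB
    rw [ha] at hb1 hb2
    have hrange : finrank k (LinearMap.range p) ≤ finrank k ((pw D n).sub JB).H0 :=
      Submodule.finrank_le _
    have hb1' : finrank k ((pw D n).sub JB).H0 ≤ finrank K JB * a := by
      have : ((finrank k ((pw D n).sub JB).H0 : ℕ) : ℤ) ≤ ((finrank K JB * a : ℕ) : ℤ) := by
        push_cast
        exact hb1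
      exact_mod_cast this
    refine ⟨?_, ?_⟩
    · -- the kernel
      have hk : ∀ e : LinearMap.ker p, ((e : ↥(RegV φ ψ ⊓ J.restrictScalars k)) :
          K × (Fin n → K)).2 = 0 := by
        intro e
        have h2 := LinearMap.mem_ker.1 e.2
        have h3 := congrArg (fun q : ((pw D n).sub JB).H0 => ((q : JB) : Fin n → K)) h2
        exact h3
      let q : LinearMap.ker p →ₗ[k] LinearMap.ker φ :=
        { toFun := fun e => ⟨⟨((e : ↥(RegV φ ψ ⊓ J.restrictScalars k)) : K × (Fin n → K)).1,
            (mem_RegV.1 (e : ↥(RegV φ ψ ⊓ J.restrictScalars k)).2.1).1⟩, by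
            obtain ⟨h1, h2, h3⟩ := mem_RegV.1 (e : ↥(RegV φ ψ ⊓ J.restrictScalars k)).2.1
            rw [LinearMap.mem_ker, h3]
            refine Finset.sum_eq_zero fun i _ => ?_
            have h4 : (⟨((e : ↥(RegV φ ψ ⊓ J.restrictScalars k)) : K × (Fin n → K)).2 i, h2 i⟩ :
                T) = 0 := Subtype.ext (congrFun (hk e) i)
            rw [h4, map_zero]⟩
          map_add' := fun _ _ => rfl
          map_smul' := fun _ _ => rfl }
      have hq : Function.Injective q := by
        rw [injective_iff_map_eq_zero]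
        intro e he
        have h2 := congrArg (fun z : LinearMap.ker φ => ((z : S) : K)) he
        apply Subtype.ext
        apply Subtype.ext
        exact Prod.ext h2 (hk e)
      have h2 := LinearMap.finrank_le_finrank_of_injective hq
      have h3 := LinearMap.finrank_range_add_finrank_ker φ
      rw [LinearMap.range_eq_top.2 hφ, finrank_top, Module.finrank_fin_fun, hfS] at h3
      show finrank k ↥(RegV φ ψ ⊓ J.restrictScalars k) + N ≤ _
      have h4 : finrank K JB * a = a * finrank K JB := mul_comm _ _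
      omega
    · intro hJ hJA
      have hpi : Function.Injective p := by
        rw [injective_iff_map_eq_zero]
        intro e he
        have h2 : (e : K × (Fin n → K)).2 = 0 :=
          congrArg (fun q : ((pw D n).sub JB).H0 => ((q : JB) : Fin n → K)) he
        have h3 : (e : K × (Fin n → K)).1 ∈ J.comap (LinearMap.inl K K (Fin n → K)) := by
          rw [Submodule.mem_comap]
          have h4 : (LinearMap.inl K K (Fin n → K)) (e : K × (Fin n → K)).1 =
              (e : K × (Fin n → K)) := Prod.ext rfl h2.symm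
          rw [h4]
          exact e.2.2
        rw [hJA, Submodule.mem_bot] at h3
        exact Subtype.ext (Prod.ext h3 h2)
      have h2 := LinearMap.finrank_le_finrank_of_injective hpi
      have h4 : finrank K JB * a = a * finrank K JB := mul_comm _ _
      show finrank k ↥(RegV φ ψ ⊓ J.restrictScalars k) < _
      rw [← h4]
      refine lt_of_le_of_ne (h2.trans hb1') fun heq => ?_
      have h5 : finrank k ↥(RegV φ ψ ⊓ J.restrictScalars k) =
          finrank k ((pw D n).sub JB).H0 := by omega
      have hps : Function.Surjective p :=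
        (LinearMap.injective_iff_surjective_of_finrank_eq_finrank (K := k)
          (V := ↥(RegV φ ψ ⊓ J.restrictScalars k)) (V₂ := ((pw D n).sub JB).H0) (f := p) h5).1 hpi
      have hdeg : (finrank K JB : ℤ) * ddeg D ≤ ((pw D n).sub JB).deg := by
        by_contra hlt
        push Not at hlt
        have h6 := hb2 hlt
        have h7 : (((pw D n).sub JB).h0) = ((finrank K JB * a : ℕ) : ℤ) := by
          unfold VB.h0
          rw [← h5, heq]
        rw [h7] at h6
        push_cast at h6
        exact lt_irrefl _ h6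
      obtain ⟨U, hU⟩ := pw_sub_eq D JB hdeg
      have hJBne : JB ≠ ⊥ := fun h => hJ (eq_bot_of hJA h)
      have hUne : U ≠ ⊥ := by
        rintro rfl
        apply hJBne
        rw [hU, ← Submodule.finrank_eq_zero (R := K), finrank_KU, finrank_bot]
      obtain ⟨c, hc, hc0⟩ := (Submodule.ne_bot_iff U).1 hUne
      have hcJ : (fun i => algebraMap k K (c i)) ∈ JB := by
        rw [hU]
        exact Submodule.subset_span ⟨c, hc, rfl⟩
      obtain ⟨z, hz, hz2⟩ := hcJ
      have hz2' : z.2 = fun i => algebraMap k K (c i) := hz2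
      have key : ∀ s ∈ T, ∃ e ∈ RegV φ ψ, e = s • z := by
        intro s hs'
        have h8 : s • z.2 ∈ JB := JB.smul_mem s ⟨z, hz, rfl⟩
        have h9 : (⟨s • z.2, h8⟩ : JB) ∈ ((pw D n).sub JB).H0 := by
          rw [VB.mem_H0]
          intro P
          rw [VB.mem_sub, mem_pw]
          intro i
          have h10 := mem_line.1 (VB.mem_H0.1 hs' P)
          have h11 := mul_mem_filt P h10 (algebraMap_mem_filt P (c i))
          rw [add_zero] at h11
          show s * z.2 i ∈ _
          rw [hz2']
          exact h11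
        obtain ⟨e, he⟩ := hps ⟨_, h9⟩
        refine ⟨e, e.2.1, ?_⟩
        have h10 : (e : K × (Fin n → K)).2 = s • z.2 :=
          congrArg (fun q : ((pw D n).sub JB).H0 => ((q : JB) : Fin n → K)) he
        have h11 : (e : K × (Fin n → K)) - s • z ∈ J := J.sub_mem e.2.2 (J.smul_mem s hz)
        have h12 : ((e : K × (Fin n → K)) - s • z).1 ∈
            J.comap (LinearMap.inl K K (Fin n → K)) := by
          rw [Submodule.mem_comap]
          have h4 : (LinearMap.inl K K (Fin n → K)) ((e : K × (Fin n → K)) - s • z).1 =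
              (e : K × (Fin n → K)) - s • z := by
            refine Prod.ext rfl ?_
            show (0 : Fin n → K) = (e : K × (Fin n → K)).2 - s • z.2
            rw [h10, sub_self]
          rw [h4]
          exact h11
        rw [hJA, Submodule.mem_bot] at h12
        refine Prod.ext ?_ h10
        have h13 : (e : K × (Fin n → K)).1 - (s • z).1 = 0 := h12
        exact sub_eq_zero.1 h13
      have hl : z.1 ∈ (line M).H0 := by
        rw [VB.mem_H0]
        intro P
        obtain ⟨s, hs1, hs0, hsP⟩ := hbase P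
        obtain ⟨e, he, heq'⟩ := key s hs1
        obtain ⟨h8, -, -⟩ := mem_RegV.1 he
        rw [heq'] at h8
        have h9 : s * z.1 ∈ P.filt (-(D + M) P) := mem_line.1 (VB.mem_H0.1 h8 P)
        have h10 := mem_filt_iff_of_ord P hs0 hsP (x := z.1) (-M P)
        have e2 : -M P + -D P = -(D + M) P := by rw [Finsupp.add_apply]; ring
        rw [e2] at h10
        exact mem_line.2 (h10.1 h9)
      have hfinal : ∑ i, c i • ψ i ∈ LinearMap.range μ := by
        refine ⟨⟨z.1, hl⟩, ?_⟩
        apply LinearMap.ext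
        intro s
        obtain ⟨e, he, heq'⟩ := key s s.2
        obtain ⟨h8, h9, h10⟩ := mem_RegV.1 he
        rw [hμ, LinearMap.sum_apply]
        have e1 : (⟨(s : K) * z.1, hmul z.1 hl s s.2⟩ : S) = ⟨e.1, h8⟩ := by
          apply Subtype.ext
          show (s : K) * z.1 = e.1
          rw [heq']
          rfl
        have e2 : ∀ i, (c i • ψ i) s = ψ i ⟨e.2 i, h9 i⟩ := by
          intro i
          rw [LinearMap.smul_apply, ← map_smul]
          congr 1
          apply Subtype.ext
          show c i • (s : K) = e.2 i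
          rw [heq']
          show c i • (s : K) = (s : K) * z.2 i
          rw [hz2', Algebra.smul_def]
          ring
        rw [Finset.sum_congr rfl fun i _ => e2 i, ← h10]
        exact congrArg φ e1
      exact hc0 (hψ c hfinal)

end Pool.Agent.MP_09eaec.GG
end

section

/-!
# Stable systems of degree `2 j n + t` with `(j + 1) n - u` sections
-/

set_option autoImplicit false

namespace Pool.Agent.MP_09eaec.GG

open Module

universe u v

variable {k : Type u} {K : Type v} [Field k] [Field K] [Algebra k K]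

variable [CurveG k K]

theorem reg_num {d v w n j t u δ : ℤ} {α β : ℝ} (hβ : 0 < β) (hαβ : β ≤ α)
    (hαu : α * u = t + β) (hd : d = (j + 1) * n - u) (hw : w < n) (hn : 0 < n)
    (h : (δ ≤ 2 * j * w ∧ v ≤ (j + 1) * w - 1) ∨
      (δ ≤ 2 * j * w + t ∧ v ≤ (j + 1) * w - u)) :
    ((δ : ℝ) + α * v) * n < ((2 * j * n + t : ℤ) + α * d) * w := by
  have hα : 0 < α := lt_of_lt_of_le hβ hαβ
  have hn' : (0 : ℝ) < n := by exact_mod_cast hn
  have hw' : (w : ℝ) < n := by exact_mod_cast hw
  have hd' : (d : ℝ) = (j + 1) * n - u := by rw [hd]; push_cast; ring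
  rw [hd']
  push_cast
  rcases h with ⟨h1, h2⟩ | ⟨h1, h2⟩
  · have h1' : (δ : ℝ) ≤ 2 * j * w := by exact_mod_cast h1
    have h2' : (v : ℝ) ≤ (j + 1) * w - 1 := by exact_mod_cast h2
    have h3 : ((δ : ℝ) + α * v) * n ≤ (2 * j * w + α * ((j + 1) * w - 1)) * n := by gcongr
    have h4 : β * w < α * n := by
      calc β * w < β * n := mul_lt_mul_of_pos_left hw' hβ
        _ ≤ α * n := mul_le_mul_of_nonneg_right hαβ hn'.le
    have h5 : α * ((j + 1) * n - u) * w = α * (j + 1) * n * w - (t + β) * w := by
      rw [← hαu]; ring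
    have h6 : (2 * j * n + t + α * ((j + 1) * n - u)) * (w : ℝ) =
        (2 * j * n + t) * w + α * ((j + 1) * n - u) * w := by ring
    rw [h6, h5]
    linarith
  · have h1' : (δ : ℝ) ≤ 2 * j * w + t := by exact_mod_cast h1
    have h2' : (v : ℝ) ≤ (j + 1) * w - u := by exact_mod_cast h2
    have h3 : ((δ : ℝ) + α * v) * n ≤ (2 * j * w + t + α * ((j + 1) * w - u)) * n := by gcongr
    have h4 : β * w < β * n := mul_lt_mul_of_pos_left hw' hβ
    have h5 : α * ((j + 1) * n - u) * w = α * (j + 1) * n * w - (t + β) * w := by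
      rw [← hαu]; ring
    have h5' : α * ((j + 1) * w - u) * n = α * (j + 1) * n * w - (t + β) * n := by
      rw [← hαu]; ring
    have h6 : (2 * j * n + t + α * ((j + 1) * n - u)) * (w : ℝ) =
        (2 * j * n + t) * w + α * ((j + 1) * n - u) * w := by ring
    have h7 : (2 * j * w + t + α * ((j + 1) * w - u)) * (n : ℝ) =
        (2 * j * w + t) * n + α * ((j + 1) * w - u) * n := by ring
    rw [h7, h5'] at h3
    rw [h6, h5]
    linarith

theorem reg_mem {H : Dv k K} {x y : K} (hp : Pencil H x y) {j u m0 N n' t : ℕ} {M L : Dv k K}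
    (hj : (j : ℤ) ≤ gen k K - 1) (hu : 1 ≤ u) (huj : u ≤ j + 1) (hN : N + 1 = u + m0)
    (hm : (line M).h0 = m0)
    (hs : (line ((j : ℤ) • H + M)).h0 = ((j + m0 : ℕ) : ℤ))
    (hNn : n' + m0 ≤ (j + 1) * N) (hL : ∀ P, ((j : ℤ) • H + M) P ≤ L P)
    (hLd : ddeg L = 2 * j + t) (ht : 1 ≤ t) {d : ℕ} (hd : d + u = (j + 1) * (n' + 1)) :
    (2 * j * (n' + 1) + t : ℤ) ∈ stableDegrees k K (n' + 1) d := by
  set D : Dv k K := (j : ℤ) • H with hD
  have hdegD : ddeg D = 2 * j := by rw [hD, ddeg_zsmul, hp.deg]; ring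
  have hh0 : (line D).h0 = ((j + 1 : ℕ) : ℤ) := by
    rw [hD, h0_smul hp (by positivity) hj]; push_cast; ring
  obtain ⟨V, hV, hfV, hJV⟩ := exists_reg (D := D) (M := M) (L := L)
    (fun P => base_smul hp j P) (n := n') (N := N) hh0 hm hs (by omega) hNn hL
  have hfV' : finrank k V = d := by nlinarith
  set E := ext (line L) (pw D n') 0 with hE
  have hdegE : E.deg = 2 * j * (n' + 1) + t := by
    rw [hE, deg_ext, VB.deg_line, deg_pw, hLd, hdegD]; ring
  have hfW : finrank K (K × (Fin n' → K)) = n' + 1 := by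
    rw [Module.finrank_prod, Module.finrank_self, Module.finrank_fin_fun]; ring
  have hu' : (0 : ℝ) < u := by exact_mod_cast hu
  have ht' : (0 : ℝ) < t := by exact_mod_cast ht
  set β : ℝ := (t : ℝ) / u with hβ
  have hβ0 : 0 < β := div_pos ht' hu'
  have hβu : β * u = t := by rw [hβ]; field_simp
  set α : ℝ := β + β / u with hα
  have hαβ : β ≤ α := by
    have : 0 < β / u := div_pos hβ0 hu'
    linarith
  have hαu : α * u = t + β := by
    rw [hα, add_mul, hβu, div_mul_cancel₀ _ hu'.ne']
  have hα0 : 0 < α := lt_of_lt_of_le hβ0 hαβ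
  have hst : E.StableSys α V := by
    intro J hJ hJ'
    obtain ⟨F', hF1, hF2, -⟩ := ext_sub_image (line L) (pw D n') 0 J
    have hF3 := VB.deg_le_of_le hF1
    have hF4 := pw_sub_le D (J.map (LinearMap.snd K K (Fin n' → K)))
    rw [hdegD] at hF4
    have hfr := finrank_ext_sub J
    have hJlt : finrank K J < n' + 1 := by
      rw [← hfW]
      exact Submodule.finrank_lt hJ'
    have hw0 : 0 < finrank K J := Submodule.one_le_finrank_iff.2 hJ
    obtain ⟨hv1, hv2⟩ := hJV J
    rw [hfV', hfW, div_lt_div_iff₀ (by exact_mod_cast hw0) (by positivity), hdegE]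
    have key := reg_num (d := (d : ℤ)) (v := (vd V J : ℤ)) (w := (finrank K J : ℤ))
      (n := ((n' + 1 : ℕ) : ℤ)) (j := j) (t := t) (u := u) (δ := (E.sub J).deg) (α := α)
      (β := β) hβ0 hαβ (by push_cast; exact hαu) (by
        have : ((d : ℤ) + u) = (j + 1) * ((n' : ℤ) + 1) := by exact_mod_cast hd
        push_cast
        linarith) (by exact_mod_cast hJlt) (by positivity) ?_
    · push_cast at key ⊢
      exact key
    · rcases Ideal.eq_bot_or_top (J.comap (LinearMap.inl K K (Fin n' → K))) with hA | hA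
      · left
        rw [hA, finrank_bot, zero_add] at hfr
        rw [hA, VB.deg_sub_bot] at hF2
        have hv3 := hv2 hJ hA
        rw [← hfr] at hv3 hF4
        refine ⟨?_, ?_⟩
        · linarith
        · have : (vd V J : ℤ) < (((j + 1) * finrank K J : ℕ) : ℤ) := by exact_mod_cast hv3
          push_cast at this
          linarith
      · right
        rw [hA, finrank_top, Module.finrank_self] at hfr
        rw [hA, VB.deg_sub_top, VB.deg_line, hLd] at hF2
        obtain ⟨wB, hwB⟩ : ∃ wB, finrank K (J.map (LinearMap.snd K K (Fin n' → K))) = wB :=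
          ⟨_, rfl⟩
        rw [hwB] at hfr hv1 hF4
        rw [hfr]
        refine ⟨?_, ?_⟩
        · push_cast
          linarith
        · have h1 : vd V J + (u + m0) ≤ (j + 1) * wB + (j + m0) + 1 := by omega
          have h2 : ((vd V J : ℤ) + (u + m0)) ≤ (j + 1) * wB + (j + m0) + 1 := by
            exact_mod_cast h1
          push_cast
          linarith
  obtain ⟨E', f, hE', hdE', -⟩ := exists_transport E hfW
  have hst' := stableSys_map hst f
  rw [← hE'] at hst'
  have hV' := mapV_le_H0 hV f
  rw [← hE'] at hV'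
  have h1 := mem_stableDegrees (n := n' + 1) (d := d) (by omega) hα0 hV'
    (by rw [finrank_mapV, hfV']) hst'
  rw [hdE', hdegE] at h1
  exact h1

/-- Degree `2 j n + 2 y`. -/
theorem he_upper_F {H : Dv k K} {x y : K} (hp : Pencil H x y) {n j u d y0 : ℕ}
    (hn : 1 ≤ n) (hjy : (j : ℤ) + y0 ≤ gen k K - 1) (hu : 1 ≤ u) (huj : u ≤ j + 1)
    (hy : 1 ≤ y0) (hny : n ≤ (j + 1) * u + j * y0) (hd : d + u = (j + 1) * n) :
    (2 * j * n + 2 * y0 : ℤ) ∈ stableDegrees k K n d := by
  obtain ⟨n', rfl⟩ : ∃ n', n = n' + 1 := ⟨n - 1, by omega⟩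
  have h1 := reg_mem hp (j := j) (u := u) (m0 := y0 + 1) (N := u + y0) (n' := n') (t := 2 * y0)
    (M := (y0 : ℤ) • H) (L := ((j : ℤ) + y0) • H) (by omega) hu huj (by omega)
    (by rw [h0_smul hp (by positivity) (by omega)]; push_cast; ring)
    (by rw [← add_smul, h0_smul hp (by positivity) (by omega)]; push_cast; ring)
    (by nlinarith) (fun P => by rw [← add_smul])
    (by rw [ddeg_zsmul, hp.deg]; push_cast; ring) (by omega) hd
  push_cast at h1 ⊢
  exact h1

/-- Degree `2 j n + 1`. -/
theorem he_upper_F0 {H : Dv k K} {x y : K} (hp : Pencil H x y) {n j u d : ℕ}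
    (hn : 1 ≤ n) (hj : (j : ℤ) ≤ gen k K - 1) (hu : 1 ≤ u) (huj : u ≤ j + 1)
    (hny : n ≤ (j + 1) * u) (hd : d + u = (j + 1) * n) :
    (2 * j * n + 1 : ℤ) ∈ stableDegrees k K n d := by
  classical
  obtain ⟨n', rfl⟩ : ∃ n', n = n' + 1 := ⟨n - 1, by omega⟩
  obtain ⟨P⟩ : Nonempty (Place k K) := by
    have : Infinite (Place k K) := infinite_places
    infer_instance
  have hg := CurveG.two_le (k := k) (K := K)
  have h1 := reg_mem hp (j := j) (u := u) (m0 := 1) (N := u) (n' := n') (t := 1)
    (M := 0) (L := (j : ℤ) • H + Finsupp.single P 1) hj hu huj (by omega)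
    (by
      have := h0_smul hp (s := 0) le_rfl (by omega)
      rw [zero_smul] at this
      rw [this]; norm_num)
    (by rw [add_zero, h0_smul hp (by positivity) hj]; push_cast; ring)
    hny (fun Q => by
      rw [add_zero, Finsupp.add_apply, Finsupp.single_apply]
      split_ifs <;> omega)
    (by rw [ddeg_add, ddeg_zsmul, hp.deg, ddeg_single]; push_cast; ring) le_rfl hd
  push_cast at h1 ⊢
  exact h1

end Pool.Agent.MP_09eaec.GG
end

section

/-!
# Sections of bundles whose quotients have slope at least `2 a`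
-/

set_option autoImplicit false

namespace Pool.Agent.MP_09eaec.GG

open Module

universe u v

variable {k : Type u} {K : Type v} [Field k] [Field K] [Algebra k K]
variable {W : Type v} [AddCommGroup W] [Module K W] [Module k W] [IsScalarTower k K W]

variable [CurveG k K]

theorem stable_excess {H : Dv k K} {x y : K} (hp : Pencil H x y) [FiniteDimensional K W]
    {Q : VB k K W} (hQ : Q.Stable) (hr : 1 ≤ finrank K W) {a : ℤ} (ha : 0 ≤ a)
    (ha' : a ≤ gen k K) (h1 : 2 * a * finrank K W ≤ Q.deg) :
    2 * Q.h0 ≤ 2 * finrank K W + Q.deg ∨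
      Q.h0 ≤ Q.deg - (gen k K - 1) * finrank K W + (gen k K - a) * ((finrank K W : ℤ) - 1) := by
  have hg := CurveG.two_le (k := k) (K := K)
  have hr0 : (1 : ℤ) ≤ finrank K W := by exact_mod_cast hr
  rcases le_or_gt Q.deg (2 * gen k K * finrank K W) with h2 | h2
  · left
    exact stable_clifford hp hQ hr (le_trans (by positivity) h1) h2
  · right
    have h3 := fH_eq hp Q 0
    rw [fH_zero, stable_hom_zero hQ hr (by
      rw [ddeg_zsmul, hp.deg]
      nlinarith)] at h3
    have h4 : 0 ≤ (gen k K - a) * ((finrank K W : ℤ) - 1) := mul_nonneg (by omega) (by omega)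
    linarith

private theorem excess_aux {H : Dv k K} {x y : K} (hp : Pencil H x y) {a : ℤ} (ha : 0 ≤ a)
    (ha' : a ≤ gen k K) (n : ℕ) :
    ∀ (W : Type v) [AddCommGroup W] [Module K W] [Module k W]
    [IsScalarTower k K W] [FiniteDimensional K W] (B : VB k K W), finrank K W = n →
    (∀ J : Submodule K W, J ≠ ⊤ → 2 * a * finrank K (W ⧸ J) ≤ (B.quo J).deg) →
    2 * B.h0 ≤ 2 * finrank K W + B.deg ∨
      B.h0 ≤ B.deg - (gen k K - 1) * finrank K W + (gen k K - a) * ((finrank K W : ℤ) - 1) := by
  induction n using Nat.strong_induction_on with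
  | _ n ih =>
  intro W _ _ _ _ _ B hn h1
  rcases Nat.eq_zero_or_pos n with h0 | hpos
  · left
    have hW : finrank K W = 0 := by omega
    have : Subsingleton W := Module.finrank_zero_iff.1 hW
    rw [VB.deg_of_finrank_zero B hW, hW]
    have e : B.h0 = 0 := by
      unfold VB.h0
      rw [finrank_zero_of_subsingleton]
      rfl
    rw [e]
    simp
  have : Nontrivial W := Module.finrank_pos_iff.1 (by omega : 0 < finrank K W)
  obtain ⟨J, hJ, hst, hmin⟩ := exists_min_quo B
  have hr := finrank_quo_pos hJ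
  have hfr : finrank K J + finrank K (W ⧸ J) = finrank K W := by
    have := Submodule.finrank_quotient_add_finrank J
    omega
  have hd := VB.deg_add B J
  have hd1 := h1 J hJ
  have hr0 : (1 : ℤ) ≤ finrank K (W ⧸ J) := by exact_mod_cast hr
  have hc := stable_excess hp hst hr ha ha' hd1
  have hV := finrank_image_le (le_refl B.H0) J
  rw [← VB.h0_sub_eq] at hV
  have hV' : B.h0 ≤ (B.quo J).h0 + (B.sub J).h0 := hV
  have hquo : ∀ T : Submodule K J, T ≠ ⊤ →
      2 * a * finrank K (J ⧸ T) ≤ ((B.sub J).quo T).deg := by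
    intro T hT
    have h3 := VB.deg_add (B.sub J) T
    rw [VB.deg_sub_sub] at h3
    set T' := T.map J.subtype with hT'
    have hT1 : T' ≠ ⊤ := by
      intro h
      apply hT
      rw [eq_top_iff]
      intro z _
      have h4 : (z : W) ∈ T' := by rw [h]; trivial
      obtain ⟨z', hz', e⟩ := h4
      have : z' = z := Subtype.ext e
      rwa [← this]
    have h4 := hmin T' hT1
    have h5 := VB.deg_add B T'
    have h6 : finrank K T' = finrank K T := by
      rw [hT']
      exact Submodule.finrank_map_subtype_eq J T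
    have h7 := Submodule.finrank_quotient_add_finrank T'
    have h8 := Submodule.finrank_quotient_add_finrank T
    have h9 : (finrank K (W ⧸ T') : ℤ) = finrank K (W ⧸ J) + finrank K (J ⧸ T) := by
      rw [← Nat.cast_add]
      congr 1
      omega
    rw [h9] at h4
    obtain ⟨r, hrr⟩ : ∃ r : ℤ, r = finrank K (W ⧸ J) := ⟨_, rfl⟩
    obtain ⟨s, hss⟩ : ∃ s : ℤ, s = finrank K (J ⧸ T) := ⟨_, rfl⟩
    rw [← hrr] at h4 hd1 hr0
    rw [← hss] at h4 ⊢
    have hs0 : 0 ≤ s := by rw [hss]; positivity
    -- `deg Q (r + s) ≤ deg (B/T') r`, `2 a r ≤ deg Q`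
    have h10 : (2 * a * s) * r ≤ ((B.quo T').deg - (B.quo J).deg) * r := by
      have := mul_le_mul_of_nonneg_right hd1 hs0
      nlinarith
    have h11 : 2 * a * s ≤ (B.quo T').deg - (B.quo J).deg :=
      le_of_mul_le_mul_right h10 (by omega)
    linarith
  have hsub := ih (finrank K J) (by omega) J (B.sub J) rfl hquo
  have hJd : 2 * a * finrank K J ≤ (B.sub J).deg := by
    rcases eq_or_ne (⊥ : Submodule K J) ⊤ with h | h
    · have h3 : finrank K J = 0 := by
        have := finrank_bot K J
        rw [h, finrank_top] at this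
        exact this
      rw [VB.deg_of_finrank_zero _ h3, h3]
      simp
    · have h3 := hquo ⊥ h
      rw [VB.deg_quo_bot] at h3
      have h4 : finrank K (J ⧸ (⊥ : Submodule K J)) = finrank K J := by
        have := Submodule.finrank_quotient_add_finrank (⊥ : Submodule K J)
        rw [finrank_bot] at this
        omega
      rwa [h4] at h3
  obtain ⟨r, hrr⟩ : ∃ r : ℤ, r = finrank K (W ⧸ J) := ⟨_, rfl⟩
  obtain ⟨s, hss⟩ : ∃ s : ℤ, s = finrank K J := ⟨_, rfl⟩
  have hfr' : (finrank K W : ℤ) = s + r := by rw [hrr, hss]; exact_mod_cast hfr.symm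
  rw [hfr', hd]
  rw [← hrr] at hc hd1 hr0
  rw [← hss] at hsub hJd
  have hga : 0 ≤ gen k K - a := by omega
  rcases hc with hc | hc <;> rcases hsub with hsub | hsub
  · left; linarith
  · right
    have h5 : 0 ≤ (B.quo J).deg - 2 * a * r := by linarith
    nlinarith
  · right
    have h5 : 0 ≤ (B.sub J).deg - 2 * a * s := by linarith
    nlinarith
  · right
    nlinarith

/-- Bundles whose quotients have slope at least `2 a`. -/
theorem excess {H : Dv k K} {x y : K} (hp : Pencil H x y) [FiniteDimensional K W]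
    {B : VB k K W} {a : ℤ} (ha : 0 ≤ a) (ha' : a ≤ gen k K)
    (h1 : ∀ J : Submodule K W, J ≠ ⊤ → 2 * a * finrank K (W ⧸ J) ≤ (B.quo J).deg) :
    2 * B.h0 ≤ 2 * finrank K W + B.deg ∨
      B.h0 ≤ B.deg - (gen k K - 1) * finrank K W + (gen k K - a) * ((finrank K W : ℤ) - 1) :=
  excess_aux hp ha ha' _ W B rfl h1

end Pool.Agent.MP_09eaec.GG
end
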