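import Pool.Agent.Lib.MP_09eaec_ag.Mg.G014
import Pool.Agent.Lib.MP_09eaec_ag.Mg.G007
import Pool.Agent.Lib.MP_09eaec_ag.Mg.G021

section

/-!
# Stable bundles of slope between one and two on the extremal line (helper20)

Universal extensions `0 → F' → E' → O ⊗ H¹(F') → 0` of stable bundles `F'` of rank `i` and degree `g i - n < 0`, twisted by `H`.
-/

set_option autoImplicit false

namespace Pool.Agent.MP_09eaec.GG

open Module

universe u v

variable {k : Type u} {K : Type v} [Field k] [Field K] [Algebra k K]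

variable [CurveG k K]

theorem exists_ramp {H : Dv k K} {x y : K} (hp : Pencil H x y) {n i : ℕ} (hi : 1 ≤ i)
    (hgi : gen k K * i < n) :
    ∃ E : VB k K (Fin n → K), E.Stable ∧ E.deg = n + gen k K * i ∧ ((n + i : ℕ) : ℤ) ≤ E.h0 := by
  have h1 := le_h0_smul hp (s := 1) zero_le_one
  rw [one_smul] at h1
  obtain ⟨E, e1, e2, e3⟩ := exists_ramp_aux hp.deg (by linarith) hi hgi
  exact ⟨E, e1, e2, by push_cast; exact e3⟩

end Pool.Agent.MP_09eaec.GG
end

section

/-!
# Decomposition of bundles whose quotients have slope greater than `2 (j - 1)`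
-/

set_option autoImplicit false

namespace Pool.Agent.MP_09eaec.GG

open Module

universe u v

variable {k : Type u} {K : Type v} [Field k] [Field K] [Algebra k K]
variable {W : Type v} [AddCommGroup W] [Module K W] [Module k W] [IsScalarTower k K W]

/-- `V ∩ J` as a space of vectors of `J`. -/
def subV (V : Submodule k W) (J : Submodule K W) : Submodule k J :=
  V.comap (J.subtype.restrictScalars k)

theorem mem_subV {V : Submodule k W} {J : Submodule K W} {x : J} :
    x ∈ subV V J ↔ (x : W) ∈ V := Iff.rfl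

theorem finrank_subV (V : Submodule k W) (J : Submodule K W) :
    finrank k (subV V J) = vd V J := by
  have hinj : Function.Injective (J.subtype.restrictScalars k) := Subtype.val_injective
  have e : (subV V J).map (J.subtype.restrictScalars k) = V ⊓ J.restrictScalars k := by
    ext x
    constructor
    · rintro ⟨y, hy, rfl⟩
      exact ⟨hy, y.2⟩
    · rintro ⟨h1, h2⟩
      exact ⟨⟨x, h2⟩, h1, rfl⟩
  rw [(Submodule.equivMapOfInjective _ hinj (subV V J)).finrank_eq, e]

theorem vd_subV (V : Submodule k W) (J : Submodule K W) (T : Submodule K J) :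
    vd (subV V J) T = vd V (T.map J.subtype) := by
  have hinj : Function.Injective (J.subtype.restrictScalars k) := Subtype.val_injective
  have e : (subV V J ⊓ T.restrictScalars k).map (J.subtype.restrictScalars k) =
      V ⊓ (T.map J.subtype).restrictScalars k := by
    ext x
    constructor
    · rintro ⟨y, hy, rfl⟩
      exact ⟨hy.1, ⟨y, hy.2, rfl⟩⟩
    · rintro ⟨h1, ⟨y, hy, rfl⟩⟩
      exact ⟨y, ⟨h1, hy⟩, rfl⟩
  show finrank k ↥(subV V J ⊓ T.restrictScalars k) = _
  rw [(Submodule.equivMapOfInjective _ hinj (subV V J ⊓ T.restrictScalars k)).finrank_eq, e]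

theorem subV_le {V : Submodule k W} {E : VB k K W} (hV : V ≤ E.H0) (J : Submodule K W) :
    subV V J ≤ (E.sub J).H0 := by
  intro x hx
  rw [VB.mem_H0]
  intro P
  exact VB.mem_sub.2 (VB.mem_H0.1 (hV hx) P)

theorem subV_H0 (E : VB k K W) (J : Submodule K W) : subV E.H0 J = (E.sub J).H0 := by
  ext x
  rw [mem_subV, VB.mem_H0, VB.mem_H0]
  rfl

variable [CurveG k K]

/-- A stable bundle of slope in `(2 (j - 1), 2 j)`. -/
theorem stable_c {H : Dv k K} {x y : K} (hp : Pencil H x y) [FiniteDimensional K W]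
    {Q : VB k K W} (hQ : Q.Stable) (hr : 1 ≤ finrank K W) {j : ℤ} (hj : 1 ≤ j)
    (hj' : j ≤ gen k K) (h : Q.deg < 2 * j * finrank K W)
    (hlow : 2 * (j - 1) * finrank K W < Q.deg) {c : ℤ} (hc : j * (c - 1) < Q.h0) :
    Q.h0 + (gen k K - j) * c ≤ Q.deg + (gen k K + 1 - 2 * j) * finrank K W := by
  obtain ⟨g, hgdef⟩ : ∃ g : ℤ, g = gen k K := ⟨_, rfl⟩
  obtain ⟨r, hrdef⟩ : ∃ r : ℤ, r = (finrank K W : ℤ) := ⟨_, rfl⟩
  have hr1 : 1 ≤ r := by rw [hrdef]; exact_mod_cast hr
  rw [← hgdef, ← hrdef]
  rw [← hgdef] at hj'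
  rw [← hrdef] at h hlow
  have hf0 : fH H Q (-j) = 0 := by
    unfold fH VB.h0
    rw [neg_smul, stable_twist_bot hQ hr, finrank_bot]
    · rfl
    · rw [ddeg_zsmul, hp.deg, ← hrdef]
      linarith
  have hfg : fH H Q (g - j) = Q.deg + (g + 1 - 2 * j) * r := by
    rw [fH_eq hp, stable_hom_zero hQ hr]
    · rw [← hgdef, ← hrdef]; ring
    · rw [ddeg_zsmul, hp.deg, ← hgdef, ← hrdef]
      have e : g - 1 - (g - j) = j - 1 := by ring
      rw [e]
      linarith
  have h1 := fH_ineq hp Q (a := -j) (b := 0) (c := 1) (by omega) (by omega)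
  rw [hf0, fH_zero] at h1
  have h2 : Q.h0 + c ≤ fH H Q 1 := by
    by_contra hcon
    push Not at hcon
    have h3 : j * fH H Q 1 ≤ j * (Q.h0 + (c - 1)) :=
      mul_le_mul_of_nonneg_left (by omega) (by omega)
    nlinarith
  rw [← hfg]
  rcases eq_or_lt_of_le hj' with e | e
  · rw [e, sub_self, fH_zero, zero_mul, add_zero]
  · have h3 := fH_ineq hp Q (a := 0) (b := 1) (c := g - j) (by omega) (by omega)
    rw [fH_zero] at h3
    have h4 : (g - j) * (Q.h0 + c) ≤ (g - j) * fH H Q 1 :=
      mul_le_mul_of_nonneg_left h2 (by omega)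
    linarith

private theorem ramp_dec_aux {H : Dv k K} {x y : K} (hp : Pencil H x y) {j : ℤ} (hj : 1 ≤ j)
    (hj' : j ≤ gen k K) (n : ℕ) :
    ∀ (W : Type v) [AddCommGroup W] [Module K W] [Module k W]
    [IsScalarTower k K W] [FiniteDimensional K W] (E : VB k K W) (V : Submodule k W),
    V ≤ E.H0 → finrank K W = n →
    (∀ J : Submodule K W, J ≠ ⊤ → 2 * (j - 1) * finrank K (W ⧸ J) < (E.quo J).deg) →
    ∃ J : Submodule K W, 2 * j * finrank K J ≤ (E.sub J).deg ∧
      ∀ c : ℤ, j * (c - 1) < (finrank k V : ℤ) - vd V J →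
        (finrank k V : ℤ) - vd V J + (gen k K - j) * c ≤
          E.deg - (E.sub J).deg + (gen k K + 1 - 2 * j) * (finrank K W - finrank K J) := by
  induction n using Nat.strong_induction_on with
  | _ n ih =>
  intro W _ _ _ _ _ E V hV hn h1
  have hgj : 0 ≤ gen k K - j := by omega
  rcases Nat.eq_zero_or_pos n with h0 | hpos
  · have hW : finrank K W = 0 := by omega
    have : Subsingleton W := Module.finrank_zero_iff.1 hW
    refine ⟨⊥, by rw [VB.deg_sub_bot, finrank_bot]; simp, fun c hc => ?_⟩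
    have e : finrank k V = 0 := finrank_zero_of_subsingleton
    rw [vd_bot, e] at hc ⊢
    rw [VB.deg_sub_bot, VB.deg_of_finrank_zero E hW, hW, finrank_bot]
    have hc0 : c ≤ 0 := by
      by_contra hcon
      push Not at hcon
      have : 0 ≤ j * (c - 1) := mul_nonneg (by omega) (by omega)
      push_cast at hc
      omega
    have := mul_nonpos_of_nonneg_of_nonpos hgj hc0
    push_cast
    linarith
  have : Nontrivial W := Module.finrank_pos_iff.1 (by omega : 0 < finrank K W)
  obtain ⟨J1, hJ1, hst, hmin⟩ := exists_min_quo E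
  have hr := finrank_quo_pos hJ1
  have hfr := Submodule.finrank_quotient_add_finrank J1
  have hr0 : (1 : ℤ) ≤ finrank K (W ⧸ J1) := by exact_mod_cast hr
  have hlow := h1 J1 hJ1
  have hd := VB.deg_add E J1
  rcases le_or_gt (2 * j * finrank K (W ⧸ J1)) (E.quo J1).deg with hcase | hcase
  · refine ⟨⊤, ?_, fun c hc => ?_⟩
    · rw [VB.deg_sub_top, finrank_top]
      have h3 := hmin ⊥ bot_ne_top
      rw [VB.deg_quo_bot] at h3
      have h5 : finrank K (W ⧸ (⊥ : Submodule K W)) = finrank K W := by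
        have := Submodule.finrank_quotient_add_finrank (⊥ : Submodule K W)
        rw [finrank_bot] at this
        omega
      rw [h5] at h3
      have h6 : (2 * j * finrank K W) * finrank K (W ⧸ J1) ≤ E.deg * finrank K (W ⧸ J1) := by
        have := mul_le_mul_of_nonneg_right hcase (by positivity : (0 : ℤ) ≤ finrank K W)
        linarith
      exact le_of_mul_le_mul_right h6 (by omega)
    · rw [vd_top, sub_self] at hc ⊢
      rw [VB.deg_sub_top, finrank_top, sub_self, sub_self, mul_zero]
      have hc0 : c ≤ 0 := by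
        by_contra hcon
        push Not at hcon
        have : 0 ≤ j * (c - 1) := mul_nonneg (by omega) (by omega)
        omega
      have := mul_nonpos_of_nonneg_of_nonpos hgj hc0
      linarith
  · have hquo : ∀ T : Submodule K J1, T ≠ ⊤ →
        2 * (j - 1) * finrank K (J1 ⧸ T) < ((E.sub J1).quo T).deg := by
      intro T hT
      have h3 := VB.deg_add (E.sub J1) T
      rw [VB.deg_sub_sub] at h3
      set T' := T.map J1.subtype with hT'
      have hT1 : T' ≠ ⊤ := by
        intro h
        apply hT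
        rw [eq_top_iff]
        intro z _
        have h4 : (z : W) ∈ T' := by rw [h]; trivial
        obtain ⟨z', hz', e⟩ := h4
        have : z' = z := Subtype.ext e
        rwa [← this]
      have h4 := hmin T' hT1
      have h5 := VB.deg_add E T'
      have h6 : finrank K T' = finrank K T := by
        rw [hT']
        exact Submodule.finrank_map_subtype_eq J1 T
      have h7 := Submodule.finrank_quotient_add_finrank T'
      have h8 := Submodule.finrank_quotient_add_finrank T
      have h9 : (finrank K (W ⧸ T') : ℤ) = finrank K (W ⧸ J1) + finrank K (J1 ⧸ T) := by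
        rw [← Nat.cast_add]
        congr 1
        omega
      rw [h9] at h4
      have hs1 : (1 : ℤ) ≤ finrank K (J1 ⧸ T) := by exact_mod_cast finrank_quo_pos hT
      obtain ⟨r, hrr⟩ : ∃ r : ℤ, r = finrank K (W ⧸ J1) := ⟨_, rfl⟩
      obtain ⟨s, hss⟩ : ∃ s : ℤ, s = finrank K (J1 ⧸ T) := ⟨_, rfl⟩
      rw [← hrr] at h4 hlow hr0
      rw [← hss] at h4 hs1 ⊢
      have h10 : (2 * (j - 1) * s) * r < ((E.quo T').deg - (E.quo J1).deg) * r := by
        have := mul_lt_mul_of_pos_right hlow (by omega : 0 < s)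
        nlinarith
      have h11 : 2 * (j - 1) * s < (E.quo T').deg - (E.quo J1).deg :=
        lt_of_mul_lt_mul_right h10 (by omega)
      linarith
    obtain ⟨T, hT1, hT2⟩ := ih (finrank K J1) (by omega) J1 (E.sub J1) (subV V J1)
      (subV_le hV J1) rfl hquo
    rw [finrank_subV, vd_subV] at hT2
    rw [VB.deg_sub_sub] at hT1 hT2
    have h6 : finrank K (T.map J1.subtype) = finrank K T :=
      Submodule.finrank_map_subtype_eq J1 T
    refine ⟨T.map J1.subtype, by rw [h6]; exact hT1, fun c hc => ?_⟩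
    rw [h6]
    have hk := finrank_image_le hV J1
    obtain ⟨κ1, hκ1⟩ : ∃ κ1 : ℤ, κ1 = vd V J1 - vd V (T.map J1.subtype) := ⟨_, rfl⟩
    have hceil : ∀ z : ℤ, ∃ c : ℤ, j * (c - 1) < z ∧ z ≤ j * c := by
      intro z
      refine ⟨(z + j - 1) / j, ?_, ?_⟩
      · have := Int.mul_ediv_self_le (x := z + j - 1) (k := j) (by omega)
        linarith
      · have := Int.lt_mul_ediv_self_add (x := z + j - 1) (k := j) (by omega)
        linarith
    obtain ⟨c1, hc1, hc1'⟩ := hceil κ1
    obtain ⟨c2, hc2, hc2'⟩ := hceil (E.quo J1).h0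
    have a1 := hT2 c1 (by rw [← hκ1]; exact hc1)
    have a2 := stable_c hp hst hr hj hj' hcase hlow hc2
    have a3 : c ≤ c1 + c2 := by
      have h8 : j * (c - 1) < j * (c1 + c2) := by linarith
      have := lt_of_mul_lt_mul_left h8 (by omega)
      omega
    have a4 : (gen k K - j) * c ≤ (gen k K - j) * (c1 + c2) :=
      mul_le_mul_of_nonneg_left a3 hgj
    have a5 : (finrank K W : ℤ) = finrank K (W ⧸ J1) + finrank K J1 := by exact_mod_cast hfr.symm
    rw [a5]
    nlinarith

theorem ramp_dec {H : Dv k K} {x y : K} (hp : Pencil H x y) {j : ℤ} (hj : 1 ≤ j)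
    (hj' : j ≤ gen k K) [FiniteDimensional K W] {E : VB k K W} {V : Submodule k W}
    (hV : V ≤ E.H0)
    (h : ∀ J : Submodule K W, J ≠ ⊤ → 2 * (j - 1) * finrank K (W ⧸ J) < (E.quo J).deg) :
    ∃ J : Submodule K W, 2 * j * finrank K J ≤ (E.sub J).deg ∧
      ∀ c : ℤ, j * (c - 1) < (finrank k V : ℤ) - vd V J →
        (finrank k V : ℤ) - vd V J + (gen k K - j) * c ≤
          E.deg - (E.sub J).deg + (gen k K + 1 - 2 * j) * (finrank K W - finrank K J) :=
  ramp_dec_aux hp hj hj' _ W E V hV rfl h

end Pool.Agent.MP_09eaec.GG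
end
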