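import Pool.Agent.Lib.MP_09eaec_ag.Mg.G026
import Pool.Agent.Lib.MP_09eaec_ag.Mg.G034
import Pool.Agent.Lib.MP_09eaec_ag.Mg.G023
import Pool.Agent.Lib.MP_09eaec_ag.Mg.G035

section

/-!
# The lower bound for `(j + 1) n - u` sections, `u ≤ j`
-/

set_option autoImplicit false

namespace Pool.Agent.MP_09eaec.GG

open Module

universe u v

variable {k : Type u} {K : Type v} [Field k] [Field K] [Algebra k K]
variable {W : Type v} [AddCommGroup W] [Module K W] [Module k W] [IsScalarTower k K W]

variable [CurveG k K]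

/-- The lower bound for all ranks. -/
theorem lower_G {H : Dv k K} {x y : K} (hp : Pencil H x y) [FiniteDimensional K W]
    {E : VB k K W} {V : Submodule k W} (hV : V ≤ E.H0) {α : ℝ} (hα : 0 < α)
    (hn : 2 ≤ finrank K W) (hst : E.StableSys α V) {j u : ℕ} {y0 : ℤ} (hj : 1 ≤ j)
    (huj : u ≤ j) (hk : (finrank k V : ℤ) + u = (j + 1) * finrank K W)
    (hy0 : 1 ≤ y0) (hyg : (j : ℤ) + 2 ≤ gen k K)
    (hy : j * (y0 - 1) < finrank K W - (j + 1) * u) :
    2 * j * finrank K W + min (min (2 * y0) (y0 + gen k K - 1 - j)) ((finrank K W : ℤ) - u) ≤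
      E.deg := by
  by_contra hcon
  push Not at hcon
  obtain ⟨n, hnn⟩ : ∃ n : ℤ, n = (finrank K W : ℤ) := ⟨_, rfl⟩
  obtain ⟨g, hgg⟩ : ∃ g : ℤ, g = gen k K := ⟨_, rfl⟩
  obtain ⟨t, ht⟩ : ∃ t : ℤ, E.deg = 2 * j * n + t := ⟨E.deg - 2 * j * n, by ring⟩
  rw [← hnn] at hcon hk hy
  rw [← hgg] at hyg hcon
  have hn2 : 2 ≤ n := by rw [hnn]; exact_mod_cast hn
  have hj1 : (1 : ℤ) ≤ j := by exact_mod_cast hj
  have hu0 : (0 : ℤ) ≤ u := by positivity
  have huj' : (u : ℤ) ≤ j := by exact_mod_cast huj
  have ht1 : t < 2 * y0 := by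
    have := min_le_left (min (2 * y0) (y0 + g - 1 - j)) (n - (u : ℤ))
    have := min_le_left (2 * y0) (y0 + g - 1 - j)
    linarith
  have ht1' : t < y0 + g - 1 - j := by
    have := min_le_left (min (2 * y0) (y0 + g - 1 - j)) (n - (u : ℤ))
    have := min_le_right (2 * y0) (y0 + g - 1 - j)
    linarith
  have ht2 : t < n - u := by
    have := min_le_right (min (2 * y0) (y0 + g - 1 - j)) (n - (u : ℤ))
    linarith
  have hjy : (0 : ℤ) ≤ j * (y0 - 1) := mul_nonneg (by omega) (by omega)
  have hnu : (j + 1) * (u : ℤ) < n := by linarith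
  have hk' : j * (g + 1) * n ≤ g * (finrank k V : ℤ) := by
    have e1 : (finrank k V : ℤ) = (j + 1) * n - u := by linarith
    rw [e1]
    have e2 : g ≤ (g - j) * (j + 1) := by nlinarith
    have e3 : g * (u : ℤ) ≤ (g - j) * (j + 1) * u := mul_le_mul_of_nonneg_right e2 hu0
    have e4 : (g - j) * ((j + 1) * (u : ℤ)) ≤ (g - j) * n :=
      mul_le_mul_of_nonneg_left hnu.le (by omega)
    nlinarith
  have hk'' : (j : ℤ) * (gen k K + 1) * finrank K W ≤ gen k K * finrank k V := by
    rw [← hgg, ← hnn]; exact hk'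
  have hquo : ∀ J : Submodule K W, J ≠ ⊤ → 2 * (j : ℤ) * finrank K (W ⧸ J) ≤ (E.quo J).deg :=
    fun J hJ => quo_deg_ge hp hV hα (by omega) hst hj1 (by rw [← hgg]; omega) hk'' hJ
  have hpl : 2 * (j : ℤ) * finrank K W ≤ E.deg :=
    lower_plateau hp hV hα (by omega) hst hj1 (by rw [← hgg]; omega) hk''
  rw [← hnn] at hpl
  have hfr : ∀ J : Submodule K W, (finrank K J : ℤ) + finrank K (W ⧸ J) = n := by
    intro J
    have := Submodule.finrank_quotient_add_finrank J
    rw [hnn]
    omega
  rcases le_or_gt ((t : ℝ)) (α * u) with hcase | hcase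
  · -- regime I
    have hb := divs_eq_bot hp hV hα hn hst (j := j) (by
      have e1 : (E.deg : ℝ) = 2 * j * n + t := by rw [ht]; push_cast; ring
      have e2 : (finrank k V : ℝ) = (j + 1) * n - u := by
        have : ((finrank k V : ℤ) : ℝ) = ((j + 1) * n - u : ℤ) := by
          congr 1
          linarith
        push_cast at this
        exact this
      have e3 : (finrank K W : ℝ) = n := by rw [hnn]; norm_cast
      rw [e1, e2, e3]
      linarith)
    have h1 := mul_finrank_le hp hV hb
    have h2 := excess hp (B := E.twist H) (a := j + 1) (by omega) (by rw [← hgg]; omega) (by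
        intro J hJ
        rw [VB.twist_quo, VB.deg_twist, hp.deg]
        have := hquo J hJ
        linarith)
    rw [VB.deg_twist, hp.deg, ht, ← hnn, ← hgg] at h2
    have h3 : (E.twist H).h0 ≤ (j + 2) * n + (y0 - 1) := by
      rcases h2 with h2 | h2
      · have h4 : 2 * (E.twist H).h0 ≤ 2 * ((j + 2) * n + (y0 - 1)) + 1 := by linarith
        omega
      · have h4 : t ≤ y0 + g - 1 - j - 1 := by omega
        linarith
    have h4 : (j : ℤ) * (E.twist H).h0 ≤ j * ((j + 2) * n + (y0 - 1)) :=
      mul_le_mul_of_nonneg_left h3 (by omega)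
    have h5 : (finrank k V : ℤ) = (j + 1) * n - u := by linarith
    rw [h5] at h1
    nlinarith
  · -- regime II
    have ht0 : (0 : ℝ) < t := lt_of_le_of_lt (by positivity) hcase
    have ht0' : 0 < t := by exact_mod_cast ht0
    obtain ⟨J, hJ, hQ, h1, h2, -⟩ := exists_sys_quo hV hα (by omega) hst
    have hr := finrank_quo_pos hJ
    have h3 := hquo J hJ
    obtain ⟨r, hrr⟩ : ∃ r : ℤ, r = (finrank K (W ⧸ J) : ℤ) := ⟨_, rfl⟩
    have hr1 : 1 ≤ r := by rw [hrr]; exact_mod_cast hr
    have hfJ := hfr J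
    rw [← hrr] at h1 h2 h3 hfJ
    rw [← hnn] at h1 h2
    have hrn : r ≤ n := by
      have : (0 : ℤ) ≤ finrank K J := by positivity
      linarith
    have hk1 : (finrank k V : ℤ) = (j + 1) * n - u := by linarith
    rcases h3.eq_or_lt with h3 | h3
    · -- slope `2 j`
      have h4 : (E.quo J).h0 ≤ (j + 1) * finrank K (W ⧸ J) :=
        stable_even hp hQ hr (i := j) (by omega) (by rw [← hgg]; omega) (by rw [← hrr, h3])
      rw [← hrr] at h4
      have h5 := VB.deg_add E J
      rcases eq_or_ne J ⊥ with hJb | hJb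
      · have h6 : (E.sub J).deg = 0 := by rw [hJb]; exact VB.deg_sub_bot E
        have h7 : (finrank K J : ℤ) = 0 := by rw [hJb, finrank_bot]; rfl
        have h8 : r = n := by linarith
        rw [h6, ← h3, h8, ht] at h5
        linarith
      · have h6 := hst J hJb hJ
        have h7 := finrank_image_le hV J
        have hw1 : 0 < finrank K J := Submodule.one_le_finrank_iff.2 hJb
        rw [div_lt_div_iff₀ (by exact_mod_cast hw1) (by exact_mod_cast (by omega : 0 < finrank K W))]
          at h6
        have e1 : (finrank K W : ℝ) = n := by rw [hnn]; norm_cast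
        have e2 : (finrank K J : ℝ) = n - r := by
          have : (finrank K J : ℤ) = n - r := by linarith
          have h8 : ((finrank K J : ℤ) : ℝ) = ((n - r : ℤ) : ℝ) := by rw [this]
          push_cast at h8
          exact h8
        have e3 : (E.deg : ℝ) = 2 * j * n + t := by rw [ht]; push_cast; ring
        have e4 : ((E.sub J).deg : ℝ) = 2 * j * n + t - 2 * j * r := by
          have : (E.sub J).deg = 2 * j * n + t - 2 * j * r := by linarith
          rw [this]; push_cast; ring
        have e5 : (finrank k V : ℝ) = (j + 1) * n - u := by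
          have h8 : ((finrank k V : ℤ) : ℝ) = (((j + 1) * n - u : ℤ) : ℝ) := by rw [hk1]
          push_cast at h8
          exact h8
        have e6 : ((j + 1) * n - u - (j + 1) * r : ℝ) ≤
            (finrank k ↥(V ⊓ J.restrictScalars k) : ℝ) := by
          have h8 : (j + 1) * n - u - (j + 1) * r ≤ (vd V J : ℤ) := by linarith
          have h9 : (((j + 1) * n - u - (j + 1) * r : ℤ) : ℝ) ≤ ((vd V J : ℤ) : ℝ) := by
            exact_mod_cast h8
          push_cast at h9
          exact h9
        rw [e1, e2, e3, e4, e5] at h6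
        have hn0 : (0 : ℝ) < n := by exact_mod_cast (by omega : 0 < n)
        have hr0 : (0 : ℝ) < r := by exact_mod_cast (by omega : 0 < r)
        have h8 := mul_le_mul_of_nonneg_left e6 hα.le
        have h9 := mul_le_mul_of_nonneg_right h8 hn0.le
        have h10 : r * (t - α * u) < 0 := by nlinarith
        have h11 : 0 < r * (t - α * u) := mul_pos hr0 (by linarith)
        linarith
    · rcases le_or_gt (2 * (j + 1) * r) (E.quo J).deg with h4 | h4
      · have h5 : (2 * (j + 1) * n) * r ≤ E.deg * r := by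
          have := mul_le_mul_of_nonneg_right h4 (by omega : 0 ≤ n)
          linarith
        have h6 : 2 * (j + 1) * n ≤ E.deg := le_of_mul_le_mul_right h5 (by omega)
        linarith
      · have h5 : (j + 1) * (r - 1) < (E.quo J).h0 := by
          have h6 : ((j + 1) * (r - 1)) * n < (E.quo J).h0 * n := by
            rw [hk1] at h1
            have h7 : (u : ℤ) * r ≤ j * n := mul_le_mul huj' hrn (by omega) (by omega)
            nlinarith
          exact lt_of_mul_lt_mul_right h6 (by omega)
        have h6 := stable_step hp hQ hr (j := j) (by omega) (by rw [← hgg]; omega)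
          (by rw [← hrr]; exact h3) (by rw [← hrr]; exact h4) (by rw [← hrr]; exact h5)
        rw [← hrr] at h6
        have h7 : ((finrank k V : ℤ) + j * n) * r ≤ E.deg * r := by
          have := mul_le_mul_of_nonneg_right h6 (by omega : 0 ≤ n)
          linarith
        have h8 : (finrank k V : ℤ) + j * n ≤ E.deg := le_of_mul_le_mul_right h7 (by omega)
        linarith

end Pool.Agent.MP_09eaec.GG
end

section

/-!
# Non-split extensions of `O(D)^n` by a line bundle `O(L)` without `H¹`
-/

set_option autoImplicit false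

namespace Pool.Agent.MP_09eaec.GG

open Module

universe u v

variable {k : Type u} {K : Type v} [Field k] [Field K] [Algebra k K]

section

variable {S T : Submodule k K} {N n : ℕ}

/-- The inclusion twisted by `lam`. -/
def RegI2 (S T : Submodule k K) {n : ℕ} (lam : Fin n → (T →ₗ[k] K)) :
    (S × (Fin n → T)) →ₗ[k] (K × (Fin n → K)) where
  toFun p := ((p.1 : K) + ∑ i, lam i (p.2 i), fun i => (p.2 i : K))
  map_add' p q := by
    refine Prod.ext ?_ rfl
    simp only [Prod.fst_add, Prod.snd_add, map_add, Pi.add_apply, Finset.sum_add_distrib,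
      Submodule.coe_add]
    abel
  map_smul' c p := by
    refine Prod.ext ?_ rfl
    simp only [Prod.smul_fst, Prod.smul_snd, map_smul, Pi.smul_apply, ← Finset.smul_sum,
      RingHom.id_apply, smul_add, Submodule.coe_smul]

theorem RegI2_inj (lam : Fin n → (T →ₗ[k] K)) : Function.Injective (RegI2 S T lam) := by
  intro p q h
  have h1 : (p.1 : K) + ∑ i, lam i (p.2 i) = (q.1 : K) + ∑ i, lam i (q.2 i) :=
    congrArg Prod.fst h
  have h2 : (fun i => (p.2 i : K)) = fun i => (q.2 i : K) := congrArg Prod.snd h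
  have h3 : p.2 = q.2 := by
    funext i
    exact Subtype.ext (congrFun h2 i)
  rw [h3] at h1
  exact Prod.ext (Subtype.ext (add_right_cancel h1)) h3

/-- The space. -/
def RegV2 (lam : Fin n → (T →ₗ[k] K)) (φ : S →ₗ[k] (Fin N → k))
    (ψ : Fin n → (T →ₗ[k] (Fin N → k))) : Submodule k (K × (Fin n → K)) :=
  (LinearMap.ker (RegT φ ψ)).map (RegI2 S T lam)

theorem mem_RegV2 {lam : Fin n → (T →ₗ[k] K)} {φ : S →ₗ[k] (Fin N → k)}
    {ψ : Fin n → (T →ₗ[k] (Fin N → k))} {z : K × (Fin n → K)} :
    z ∈ RegV2 lam φ ψ ↔ ∃ (hv : ∀ i, z.2 i ∈ T) (hs : z.1 - ∑ i, lam i ⟨z.2 i, hv i⟩ ∈ S),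
      φ ⟨_, hs⟩ = ∑ i, ψ i ⟨z.2 i, hv i⟩ := by
  constructor
  · rintro ⟨p, hp, rfl⟩
    have e : ((RegI2 S T lam) p).1 - ∑ i, lam i ⟨((RegI2 S T lam) p).2 i, (p.2 i).2⟩ = p.1 :=
      add_sub_cancel_right _ _
    refine ⟨fun i => (p.2 i).2, by rw [e]; exact p.1.2, ?_⟩
    have h1 := sub_eq_zero.1 (LinearMap.mem_ker.1 hp)
    have h2 : (⟨((RegI2 S T lam) p).1 - ∑ i, lam i ⟨((RegI2 S T lam) p).2 i, (p.2 i).2⟩,
        by rw [e]; exact p.1.2⟩ : S) = p.1 := Subtype.ext e
    rw [h2]
    exact h1
  · rintro ⟨hv, hs, h⟩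
    refine ⟨(⟨_, hs⟩, fun i => ⟨z.2 i, hv i⟩), ?_, ?_⟩
    · exact LinearMap.mem_ker.2 (sub_eq_zero.2 h)
    · exact Prod.ext (sub_add_cancel _ _) rfl

theorem finrank_RegV2 [FiniteDimensional k S] [FiniteDimensional k T]
    (lam : Fin n → (T →ₗ[k] K)) {φ : S →ₗ[k] (Fin N → k)} (hφ : Function.Surjective φ)
    (ψ : Fin n → (T →ₗ[k] (Fin N → k))) :
    finrank k (RegV2 lam φ ψ) + N = finrank k S + n * finrank k T := by
  have h1 : finrank k (RegV2 lam φ ψ) = finrank k (LinearMap.ker (RegT φ ψ)) :=
    (Submodule.equivMapOfInjective _ (RegI2_inj lam) _).finrank_eq.symm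
  have h2 : finrank k (RegV φ ψ) = finrank k (LinearMap.ker (RegT φ ψ)) :=
    (Submodule.equivMapOfInjective _ RegI_inj _).finrank_eq.symm
  rw [h1, ← h2]
  exact finrank_RegV hφ ψ

end

variable [CurveG k K]

/-- A `k`-linear choice of solutions. -/
theorem exists_lam {D L : Dv k K} (hL : (line L).N = ⊤) (a : Place k K →₀ K) :
    ∃ lam : (line D).H0 →ₗ[k] K, ∀ (s : (line D).H0) P, (s : K) * a P - lam s ∈ (line L).M P := by
  classical
  let b := Module.finBasis k (line D).H0
  have h1 : ∀ i, ∃ w : K, ∀ P, (b i : K) * a P - w ∈ (line L).M P := by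
    intro i
    have h2 : (b i : K) • a ∈ (line L).N := by rw [hL]; trivial
    obtain ⟨w, hw⟩ := VB.mem_N.1 h2
    exact ⟨w, fun P => hw P⟩
  choose w hw using h1
  refine ⟨b.constr k w, fun s P => ?_⟩
  have h2 : (s : K) = ∑ i, b.repr s i • (b i : K) := by
    have h3 := congrArg (fun z : (line D).H0 => (z : K)) (b.sum_repr s)
    simp only [Submodule.coe_sum, Submodule.coe_smul] at h3
    exact h3.symm
  have h3 : b.constr k w s = ∑ i, b.repr s i • w i := by
    rw [Basis.constr_apply_fintype]
    rfl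
  have h4 : (s : K) * a P - b.constr k w s = ∑ i, b.repr s i • ((b i : K) * a P - w i) := by
    rw [h3]
    conv_lhs => rw [h2]
    rw [Finset.sum_mul, ← Finset.sum_sub_distrib]
    refine Finset.sum_congr rfl fun i _ => ?_
    rw [smul_sub, smul_mul_assoc]
  rw [h4]
  exact Submodule.sum_mem _ fun i _ => Submodule.smul_mem _ _ (hw i P)

omit [CurveG k K] in
/-- The class of an extension of `O(D)^n`. -/
theorem exists_rowclass {n : ℕ} (a : Fin n → (Place k K →₀ K)) :
    ∃ u : Place k K →₀ ((Fin n → K) →ₗ[K] K), ∀ P z, u P z = ∑ i, z i * a i P := by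
  classical
  refine ⟨Finsupp.onFinset (Finset.univ.biUnion fun i => (a i).support)
    (fun P => Fintype.linearCombination K (fun i => a i P)) ?_, fun P z => ?_⟩
  · intro P hP
    rw [Finset.mem_biUnion]
    by_contra hcon
    push Not at hcon
    apply hP
    apply LinearMap.ext
    intro z
    rw [Fintype.linearCombination_apply, LinearMap.zero_apply]
    refine Finset.sum_eq_zero fun i _ => ?_
    rw [Finsupp.notMem_support_iff.1 (hcon i (Finset.mem_univ i)), smul_zero]
  · rw [Finsupp.onFinset_apply, Fintype.linearCombination_apply]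
    rfl

theorem exists_regW {D L : Dv k K}
    (hbase : ∀ P : Place k K, ∃ s ∈ (line D).H0, s ≠ 0 ∧ P.ord s = -D P)
    (hL : (line L).N = ⊤) {a m0 κ s0 N n : ℕ}
    (ha : (line D).h0 = a) (hm : (line (L - D)).h0 = m0) (hκ : (line (L - D)).h1 = κ)
    (hs : (line L).h0 = s0) (hNs : N ≤ s0) (hNn : n + m0 ≤ a * N + κ) :
    ∃ (u : Place k K →₀ ((Fin n → K) →ₗ[K] K)) (V : Submodule k (K × (Fin n → K))),
      V ≤ (ext (line L) (pw D n) u).H0 ∧
      finrank k V + N = s0 + n * a ∧
      ∀ J : Submodule K (K × (Fin n → K)),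
        vd V J + N ≤ a * finrank K (J.map (LinearMap.snd K K (Fin n → K))) + s0 ∧
        (J ≠ ⊥ → J.comap (LinearMap.inl K K (Fin n → K)) = ⊥ →
          vd V J < a * finrank K (J.map (LinearMap.snd K K (Fin n → K)))) := by
  classical
  set S : Submodule k K := (line L).H0 with hS
  set T : Submodule k K := (line D).H0 with hT
  have fS : FiniteDimensional k S := inferInstance
  have fT : FiniteDimensional k T := inferInstance
  have hfS : finrank k S = s0 := by
    have : ((finrank k S : ℕ) : ℤ) = s0 := hs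
    exact_mod_cast this
  have hfT : finrank k T = a := by
    have : ((finrank k T : ℕ) : ℤ) = a := ha
    exact_mod_cast this
  obtain ⟨φ, hφ⟩ := exists_surj (F := k) (M := S) (N := N) (by omega)
  -- multiplication by sections of `L - D`
  have hmul : ∀ l ∈ (line (L - D)).H0, ∀ s ∈ T, s * l ∈ S := by
    intro l hl s hs'
    rw [hS, VB.mem_H0]
    intro P
    have h1 := mem_line.1 (VB.mem_H0.1 hl P)
    have h2 := mem_line.1 (VB.mem_H0.1 hs' P)
    have h3 := mul_mem_filt P h2 h1
    rw [mem_line]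
    have e : -D P + -(L - D) P = -L P := by rw [Finsupp.sub_apply]; ring
    rwa [e] at h3
  -- a basis of `H¹(L - D)`
  obtain ⟨f, hf⟩ := exists_linearIndependent_of_le_finrank (R := k) (M := (line (L - D)).H1)
    (n := κ) (by
      have : ((finrank k (line (L - D)).H1 : ℕ) : ℤ) = κ := hκ
      have h2 : finrank k (line (L - D)).H1 = κ := by exact_mod_cast this
      exact h2.ge)
  choose A hA using fun i => (line (L - D)).N.mkQ_surjective (f i)
  have hA' : ∀ c : Fin κ → k, (∑ b, c b • A b) ∈ (line (L - D)).N → c = 0 := by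
    intro c hc
    have h2 : ∑ b, c b • f b = 0 := by
      have h3 : (line (L - D)).N.mkQ (∑ b, c b • A b) = 0 := by
        rw [Submodule.mkQ_apply, Submodule.Quotient.mk_eq_zero]
        exact hc
      rw [map_sum] at h3
      rw [← h3]
      refine Finset.sum_congr rfl fun i _ => ?_
      rw [map_smul, hA]
    exact funext ((Fintype.linearIndependent_iff.1 hf) c h2)
  choose lam0 hlam0 using fun b => exists_lam (D := D) hL (A b)
  let μ : (line (L - D)).H0 →ₗ[k] ((Fin κ → k) × (T →ₗ[k] (Fin N → k))) :=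
    { toFun := fun l => (0,
        { toFun := fun s => φ ⟨(s : K) * (l : K), hmul l l.2 s s.2⟩
          map_add' := by
            intro s s'
            rw [← map_add]
            congr 1
            exact Subtype.ext (add_mul _ _ _)
          map_smul' := by
            intro c s
            rw [RingHom.id_apply, ← map_smul]
            congr 1
            exact Subtype.ext (smul_mul_assoc _ _ _) })
      map_add' := by
        intro l l'
        refine Prod.ext (add_zero _).symm ?_
        apply LinearMap.ext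
        intro s
        show φ _ = φ _ + φ _
        rw [← map_add]
        congr 1
        exact Subtype.ext (mul_add _ _ _)
      map_smul' := by
        intro c l
        refine Prod.ext (smul_zero _).symm ?_
        apply LinearMap.ext
        intro s
        show φ _ = c • φ _
        rw [← map_smul]
        congr 1
        exact Subtype.ext (mul_smul_comm _ _ _) }
  have hμ1 : ∀ (l : (line (L - D)).H0), (μ l).1 = 0 := fun l => rfl
  have hμ2 : ∀ (l : (line (L - D)).H0) (s : T),
      (μ l).2 s = φ ⟨(s : K) * (l : K), hmul l l.2 s s.2⟩ := fun l s => rfl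
  have hX : n + finrank k (LinearMap.range μ) ≤
      finrank k ((Fin κ → k) × (T →ₗ[k] (Fin N → k))) := by
    rw [Module.finrank_prod, Module.finrank_linearMap, Module.finrank_fin_fun,
      Module.finrank_fin_fun, hfT]
    have h1 := LinearMap.finrank_range_le μ
    have h2 : finrank k (line (L - D)).H0 = m0 := by
      have : ((finrank k (line (L - D)).H0 : ℕ) : ℤ) = m0 := hm
      exact_mod_cast this
    omega
  obtain ⟨Ψ, hΨ⟩ := exists_indep_mod (LinearMap.range μ) hX
  -- the classes
  set B : Fin n → (Place k K →₀ K) := fun i => ∑ b, (Ψ i).1 b • A b with hB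
  set lam : Fin n → (T →ₗ[k] K) := fun i => ∑ b, (Ψ i).1 b • lam0 b with hlam
  set ψ : Fin n → (T →ₗ[k] (Fin N → k)) := fun i => (Ψ i).2 with hψ
  have hlamB : ∀ i (s : T) P, (s : K) * B i P - lam i s ∈ (line L).M P := by
    intro i s P
    have e : (s : K) * B i P - lam i s = ∑ b, (Ψ i).1 b • ((s : K) * A b P - lam0 b s) := by
      simp only [hB, hlam, Finsupp.finsetSum_apply, Finsupp.smul_apply, LinearMap.sum_apply,
        LinearMap.smul_apply]
      rw [Finset.mul_sum, ← Finset.sum_sub_distrib]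
      refine Finset.sum_congr rfl fun b _ => ?_
      rw [smul_sub, mul_smul_comm]
    rw [e]
    exact Submodule.sum_mem _ fun b _ => Submodule.smul_mem _ _ (hlam0 b s P)
  obtain ⟨u, hu⟩ := exists_rowclass B
  refine ⟨u, RegV2 lam φ ψ, ?_, ?_, ?_⟩
  · intro z hz
    obtain ⟨hv, hs', -⟩ := mem_RegV2.1 hz
    rw [VB.mem_H0]
    intro P
    rw [mem_ext]
    refine ⟨fun i => mem_line.1 (VB.mem_H0.1 (hv i) P), ?_⟩
    rw [hu]
    have e : z.1 - ∑ i, z.2 i * B i P =
        (z.1 - ∑ i, lam i ⟨z.2 i, hv i⟩) - ∑ i, (z.2 i * B i P - lam i ⟨z.2 i, hv i⟩) := by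
      rw [Finset.sum_sub_distrib]
      ring
    rw [e]
    exact sub_mem (VB.mem_H0.1 hs' P)
      (Submodule.sum_mem _ fun i _ => hlamB i ⟨z.2 i, hv i⟩ P)
  · rw [finrank_RegV2 lam hφ ψ, hfS, hfT]
  · intro J
    set JB := J.map (LinearMap.snd K K (Fin n → K)) with hJB
    have hVfin : Module.Finite k (RegV2 lam φ ψ) := by
      unfold RegV2
      infer_instance
    have hfin : Module.Finite k ↥(RegV2 lam φ ψ ⊓ J.restrictScalars k) :=
      Submodule.finiteDimensional_of_le inf_le_left
    let p : ↥(RegV2 lam φ ψ ⊓ J.restrictScalars k) →ₗ[k] ((pw D n).sub JB).H0 :=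
      { toFun := fun e => ⟨⟨(e : K × (Fin n → K)).2, ⟨(e : K × (Fin n → K)), e.2.2, rfl⟩⟩, by
          rw [VB.mem_H0]
          intro P
          rw [VB.mem_sub]
          obtain ⟨h2, -, -⟩ := mem_RegV2.1 e.2.1
          exact fun i => mem_line.1 (VB.mem_H0.1 (h2 i) P)⟩
        map_add' := fun _ _ => rfl
        map_smul' := fun _ _ => rfl }
    have h1 := LinearMap.finrank_range_add_finrank_ker (K := k)
      (V := ↥(RegV2 lam φ ψ ⊓ J.restrictScalars k)) (V₂ := ((pw D n).sub JB).H0) p
    obtain ⟨hb1, hb2⟩ := h0_pw_sub hbase JB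
    rw [ha] at hb1 hb2
    have hrange : finrank k (LinearMap.range p) ≤ finrank k ((pw D n).sub JB).H0 :=
      Submodule.finrank_le _
    have hb1' : finrank k ((pw D n).sub JB).H0 ≤ finrank K JB * a := by
      have : ((finrank k ((pw D n).sub JB).H0 : ℕ) : ℤ) ≤ ((finrank K JB * a : ℕ) : ℤ) := by
        push_cast
        exact hb1
      exact_mod_cast this
    refine ⟨?_, ?_⟩
    · -- the kernel
      have hk : ∀ e : LinearMap.ker p, ((e : ↥(RegV2 lam φ ψ ⊓ J.restrictScalars k)) :
          K × (Fin n → K)).2 = 0 := by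
        intro e
        have h2 := LinearMap.mem_ker.1 e.2
        exact congrArg (fun q : ((pw D n).sub JB).H0 => ((q : JB) : Fin n → K)) h2
      have hk2 : ∀ e : LinearMap.ker p, ∃ hs' : ((e : ↥(RegV2 lam φ ψ ⊓ J.restrictScalars k)) :
          K × (Fin n → K)).1 ∈ S, φ ⟨_, hs'⟩ = 0 := by
        intro e
        obtain ⟨h1, h2, h3⟩ := mem_RegV2.1 (e : ↥(RegV2 lam φ ψ ⊓ J.restrictScalars k)).2.1
        have h5 : ∀ i, (⟨((e : ↥(RegV2 lam φ ψ ⊓ J.restrictScalars k)) :
            K × (Fin n → K)).2 i, h1 i⟩ : T) = 0 := fun i => Subtype.ext (congrFun (hk e) i)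
        have h6 : ((e : ↥(RegV2 lam φ ψ ⊓ J.restrictScalars k)) : K × (Fin n → K)).1 -
            ∑ i, lam i ⟨((e : ↥(RegV2 lam φ ψ ⊓ J.restrictScalars k)) : K × (Fin n → K)).2 i,
              h1 i⟩ = ((e : ↥(RegV2 lam φ ψ ⊓ J.restrictScalars k)) : K × (Fin n → K)).1 := by
          rw [Finset.sum_eq_zero fun i _ => by rw [h5 i, map_zero], sub_zero]
        have h7 : ((e : ↥(RegV2 lam φ ψ ⊓ J.restrictScalars k)) : K × (Fin n → K)).1 ∈ S := by
          rw [h6] at h2; exact h2
        refine ⟨h7, ?_⟩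
        have h8 : (⟨_, h2⟩ : S) = ⟨_, h7⟩ := Subtype.ext h6
        rw [← h8, h3]
        refine Finset.sum_eq_zero fun i _ => ?_
        rw [h5 i, map_zero]
      let q : LinearMap.ker p →ₗ[k] LinearMap.ker φ :=
        { toFun := fun e => ⟨⟨((e : ↥(RegV2 lam φ ψ ⊓ J.restrictScalars k)) :
            K × (Fin n → K)).1, (hk2 e).1⟩, LinearMap.mem_ker.2 (hk2 e).2⟩
          map_add' := fun _ _ => rfl
          map_smul' := fun _ _ => rfl }
      have hq : Function.Injective q := by
        rw [injective_iff_map_eq_zero]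
        intro e he
        have h2 := congrArg (fun z : LinearMap.ker φ => ((z : S) : K)) he
        apply Subtype.ext
        apply Subtype.ext
        exact Prod.ext h2 (hk e)
      have h2 := LinearMap.finrank_le_finrank_of_injective hq
      have h3 := LinearMap.finrank_range_add_finrank_ker φ
      rw [LinearMap.range_eq_top.2 hφ, finrank_top, Module.finrank_fin_fun, hfS] at h3
      show finrank k ↥(RegV2 lam φ ψ ⊓ J.restrictScalars k) + N ≤ _
      have h4 : finrank K JB * a = a * finrank K JB := mul_comm _ _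
      omega
    · intro hJ hJA
      have hpi : Function.Injective p := by
        rw [injective_iff_map_eq_zero]
        intro e he
        have h2 : (e : K × (Fin n → K)).2 = 0 :=
          congrArg (fun q : ((pw D n).sub JB).H0 => ((q : JB) : Fin n → K)) he
        have h3 : (e : K × (Fin n → K)).1 ∈ J.comap (LinearMap.inl K K (Fin n → K)) := by
          rw [Submodule.mem_comap]
          have h4 : (LinearMap.inl K K (Fin n → K)) (e : K × (Fin n → K)).1 =
              (e : K × (Fin n → K)) := Prod.ext rfl h2.symm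
          rw [h4]
          exact e.2.2
        rw [hJA, Submodule.mem_bot] at h3
        exact Subtype.ext (Prod.ext h3 h2)
      have h2 := LinearMap.finrank_le_finrank_of_injective hpi
      have h4 : finrank K JB * a = a * finrank K JB := mul_comm _ _
      show finrank k ↥(RegV2 lam φ ψ ⊓ J.restrictScalars k) < _
      rw [← h4]
      refine lt_of_le_of_ne (h2.trans hb1') fun heq => ?_
      have h5 : finrank k ↥(RegV2 lam φ ψ ⊓ J.restrictScalars k) =
          finrank k ((pw D n).sub JB).H0 := by omega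
      have hps : Function.Surjective p :=
        (LinearMap.injective_iff_surjective_of_finrank_eq_finrank (K := k)
          (V := ↥(RegV2 lam φ ψ ⊓ J.restrictScalars k)) (V₂ := ((pw D n).sub JB).H0)
          (f := p) h5).1 hpi
      have hdeg : (finrank K JB : ℤ) * ddeg D ≤ ((pw D n).sub JB).deg := by
        by_contra hlt
        push Not at hlt
        have h6 := hb2 hlt
        have h7 : (((pw D n).sub JB).h0) = ((finrank K JB * a : ℕ) : ℤ) := by
          unfold VB.h0
          rw [← h5, heq]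
        rw [h7] at h6
        push_cast at h6
        exact lt_irrefl _ h6
      obtain ⟨U, hU⟩ := pw_sub_eq D JB hdeg
      have hJBne : JB ≠ ⊥ := fun h => hJ (eq_bot_of hJA h)
      have hUne : U ≠ ⊥ := by
        rintro rfl
        apply hJBne
        rw [hU, ← Submodule.finrank_eq_zero (R := K), finrank_KU, finrank_bot]
      obtain ⟨c, hc, hc0⟩ := (Submodule.ne_bot_iff U).1 hUne
      have hcJ : (fun i => algebraMap k K (c i)) ∈ JB := by
        rw [hU]
        exact Submodule.subset_span ⟨c, hc, rfl⟩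
      obtain ⟨z, hz, hz2⟩ := hcJ
      have hz2' : z.2 = fun i => algebraMap k K (c i) := hz2
      have key : ∀ s ∈ T, s • z ∈ RegV2 lam φ ψ := by
        intro s hs'
        have h8 : s • z.2 ∈ JB := JB.smul_mem s ⟨z, hz, rfl⟩
        have h9 : (⟨s • z.2, h8⟩ : JB) ∈ ((pw D n).sub JB).H0 := by
          rw [VB.mem_H0]
          intro P
          rw [VB.mem_sub, mem_pw]
          intro i
          have h10 := mem_line.1 (VB.mem_H0.1 hs' P)
          have h11 := mul_mem_filt P h10 (algebraMap_mem_filt P (c i))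
          rw [add_zero] at h11
          show s * z.2 i ∈ _
          rw [hz2']
          exact h11
        obtain ⟨e, he⟩ := hps ⟨_, h9⟩
        have h10 : (e : K × (Fin n → K)).2 = s • z.2 :=
          congrArg (fun q : ((pw D n).sub JB).H0 => ((q : JB) : Fin n → K)) he
        have h11 : (e : K × (Fin n → K)) - s • z ∈ J := J.sub_mem e.2.2 (J.smul_mem s hz)
        have h12 : ((e : K × (Fin n → K)) - s • z).1 ∈
            J.comap (LinearMap.inl K K (Fin n → K)) := by
          rw [Submodule.mem_comap]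
          have h4 : (LinearMap.inl K K (Fin n → K)) ((e : K × (Fin n → K)) - s • z).1 =
              (e : K × (Fin n → K)) - s • z := by
            refine Prod.ext rfl ?_
            show (0 : Fin n → K) = (e : K × (Fin n → K)).2 - s • z.2
            rw [h10, sub_self]
          rw [h4]
          exact h11
        rw [hJA, Submodule.mem_bot] at h12
        have h14 : (e : K × (Fin n → K)) = s • z := by
          refine Prod.ext ?_ h10
          have h13 : (e : K × (Fin n → K)).1 - (s • z).1 = 0 := h12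
          exact sub_eq_zero.1 h13
        rw [← h14]
        exact e.2.1
      have hcT : ∀ (s : T) i, c i • (s : K) ∈ T := fun s i => T.smul_mem _ s.2
      have hval : ∀ (s : T) i, ((s : K) • z).2 i = c i • (s : K) := by
        intro s i
        show (s : K) * z.2 i = _
        rw [hz2', Algebra.smul_def]
        ring
      -- the class vanishes
      have hlamc : ∀ s : T, (s : K) * z.1 - ∑ i, c i • lam i s ∈ S ∧
          ∀ h : (s : K) * z.1 - ∑ i, c i • lam i s ∈ S, φ ⟨_, h⟩ = ∑ i, c i • ψ i s := by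
        intro s
        obtain ⟨h8, h9, h10⟩ := mem_RegV2.1 (key s s.2)
        have e1 : ∀ i, (⟨((s : K) • z).2 i, h8 i⟩ : T) = c i • s := fun i =>
          Subtype.ext (hval s i)
        have e2 : ((s : K) • z).1 - ∑ i, lam i ⟨((s : K) • z).2 i, h8 i⟩ =
            (s : K) * z.1 - ∑ i, c i • lam i s := by
          congr 1
          refine Finset.sum_congr rfl fun i _ => ?_
          rw [e1 i, map_smul]
        refine ⟨by rw [e2] at h9; exact h9, fun h => ?_⟩
        have e3 : (⟨_, h9⟩ : S) = ⟨_, h⟩ := Subtype.ext e2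
        rw [← e3, h10]
        refine Finset.sum_congr rfl fun i _ => ?_
        rw [e1 i, map_smul]
      have hcl : ∀ P, (∑ i, c i • B i) P - z.1 ∈ (line (L - D)).M P := by
        intro P
        obtain ⟨s, hs1, hs0', hsP⟩ := hbase P
        have h8 := VB.mem_H0.1 (hlamc ⟨s, hs1⟩).1 P
        have h9 : ∀ i, s * B i P - lam i ⟨s, hs1⟩ ∈ (line L).M P := fun i =>
          hlamB i ⟨s, hs1⟩ P
        have e1 : s * ((∑ i, c i • B i) P - z.1) =
            ∑ i, c i • (s * B i P - lam i ⟨s, hs1⟩) -
              (s * z.1 - ∑ i, c i • lam i ⟨s, hs1⟩) := by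
          rw [Finsupp.finsetSum_apply, mul_sub, Finset.mul_sum]
          have e2 : ∑ i, c i • (s * B i P - lam i ⟨s, hs1⟩) =
              ∑ i, s * (c i • B i) P - ∑ i, c i • lam i ⟨s, hs1⟩ := by
            rw [← Finset.sum_sub_distrib]
            refine Finset.sum_congr rfl fun i _ => ?_
            rw [smul_sub, Finsupp.smul_apply, mul_smul_comm]
          rw [e2]
          ring
        have h10 : s * ((∑ i, c i • B i) P - z.1) ∈ (line L).M P := by
          rw [e1]
          exact sub_mem (Submodule.sum_mem _ fun i _ => Submodule.smul_mem _ _ (h9 i)) h8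
        rw [mem_line] at h10 ⊢
        have h11 := mem_filt_iff_of_ord P hs0' hsP (x := (∑ i, c i • B i) P - z.1)
          (-(L - D) P)
        have e2 : -(L - D) P + -D P = -L P := by rw [Finsupp.sub_apply]; ring
        rw [e2] at h11
        exact h11.1 h10
      have hγ : (∑ i, c i • (Ψ i).1) = 0 := by
        apply hA'
        have e1 : ∑ b, (∑ i, c i • (Ψ i).1) b • A b = ∑ i, c i • B i := by
          simp only [hB, Finset.sum_apply, Pi.smul_apply, Finset.sum_smul, Finset.smul_sum]
          rw [Finset.sum_comm]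
          refine Finset.sum_congr rfl fun i _ => Finset.sum_congr rfl fun b _ => ?_
          rw [smul_assoc]
        rw [e1]
        exact VB.mem_N.2 ⟨z.1, hcl⟩
      have hBz : ∑ i, c i • B i = 0 := by
        have e1 : ∑ b, (∑ i, c i • (Ψ i).1) b • A b = ∑ i, c i • B i := by
          simp only [hB, Finset.sum_apply, Pi.smul_apply, Finset.sum_smul, Finset.smul_sum]
          rw [Finset.sum_comm]
          refine Finset.sum_congr rfl fun i _ => Finset.sum_congr rfl fun b _ => ?_
          rw [smul_assoc]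
        rw [← e1, hγ]
        simp
      have hlz : ∀ s : T, ∑ i, c i • lam i s = 0 := by
        intro s
        have e1 : ∑ b, (∑ i, c i • (Ψ i).1) b • lam0 b s = ∑ i, c i • lam i s := by
          simp only [hlam, Finset.sum_apply, Pi.smul_apply, Finset.sum_smul,
            LinearMap.sum_apply, LinearMap.smul_apply, Finset.smul_sum]
          rw [Finset.sum_comm]
          refine Finset.sum_congr rfl fun i _ => Finset.sum_congr rfl fun b _ => ?_
          rw [smul_assoc]
        rw [← e1, hγ]
        simp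
      have hl : z.1 ∈ (line (L - D)).H0 := by
        rw [VB.mem_H0]
        intro P
        have h8 := hcl P
        rw [hBz, Finsupp.coe_zero, Pi.zero_apply, zero_sub] at h8
        have h9 := Submodule.neg_mem _ h8
        rwa [neg_neg] at h9
      have hfinal : ∑ i, c i • Ψ i ∈ LinearMap.range μ := by
        refine ⟨⟨z.1, hl⟩, ?_⟩
        refine Prod.ext ?_ ?_
        · rw [hμ1, Prod.fst_sum]
          exact hγ.symm
        · apply LinearMap.ext
          intro s
          rw [hμ2, Prod.snd_sum, LinearMap.sum_apply]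
          have h8 : (s : K) * z.1 - ∑ i, c i • lam i s = (s : K) * z.1 := by
            rw [hlz s, sub_zero]
          obtain ⟨h9, h10⟩ := hlamc s
          have h11 := h10 h9
          have h12 : (⟨_, h9⟩ : S) = ⟨(s : K) * z.1, hmul z.1 hl s s.2⟩ := Subtype.ext h8
          rw [← h12, h11]
          rfl
      exact hc0 (hΨ c hfinal)

end Pool.Agent.MP_09eaec.GG
end

section

/-!
# Stable systems with a non-special line subbundle
-/

set_option autoImplicit false

namespace Pool.Agent.MP_09eaec.GG

open Module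

universe u v

variable {k : Type u} {K : Type v} [Field k] [Field K] [Algebra k K]

variable [CurveG k K]

theorem reg_core {D L : Dv k K} {j u n' t d : ℕ} (hdegD : ddeg D = 2 * j) (hu : 1 ≤ u)
    (hLd : ddeg L = 2 * j + t) (ht : 1 ≤ t) (hd : d + u = (j + 1) * (n' + 1))
    (cl : Place k K →₀ ((Fin n' → K) →ₗ[K] K)) (V : Submodule k (K × (Fin n' → K)))
    (hV : V ≤ (ext (line L) (pw D n') cl).H0) (hfV' : finrank k V = d)
    (hJV : ∀ J : Submodule K (K × (Fin n' → K)),
      vd V J + u ≤ (j + 1) * finrank K (J.map (LinearMap.snd K K (Fin n' → K))) + (j + 1) ∧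
      (J ≠ ⊥ → J.comap (LinearMap.inl K K (Fin n' → K)) = ⊥ →
        vd V J < (j + 1) * finrank K (J.map (LinearMap.snd K K (Fin n' → K))))) :
    (2 * j * (n' + 1) + t : ℤ) ∈ stableDegrees k K (n' + 1) d := by
  set E := ext (line L) (pw D n') cl with hE
  have hdegE : E.deg = 2 * j * (n' + 1) + t := by
    rw [hE, deg_ext, VB.deg_line, deg_pw, hLd, hdegD]; ring
  have hfW : finrank K (K × (Fin n' → K)) = n' + 1 := by
    rw [Module.finrank_prod, Module.finrank_self, Module.finrank_fin_fun]; ring
  have hu' : (0 : ℝ) < u := by exact_mod_cast hu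
  have ht' : (0 : ℝ) < t := by exact_mod_cast ht
  set β : ℝ := (t : ℝ) / u with hβ
  have hβ0 : 0 < β := div_pos ht' hu'
  have hβu : β * u = t := by rw [hβ]; field_simp
  set α : ℝ := β + β / u with hα
  have hαβ : β ≤ α := by
    have : 0 < β / u := div_pos hβ0 hu'
    linarith
  have hαu : α * u = t + β := by
    rw [hα, add_mul, hβu, div_mul_cancel₀ _ hu'.ne']
  have hα0 : 0 < α := lt_of_lt_of_le hβ0 hαβ
  have hst : E.StableSys α V := by
    intro J hJ hJ'
    obtain ⟨F', hF1, hF2, -⟩ := ext_sub_image (line L) (pw D n') cl J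
    have hF3 := VB.deg_le_of_le hF1
    have hF4 := pw_sub_le D (J.map (LinearMap.snd K K (Fin n' → K)))
    rw [hdegD] at hF4
    have hfr := finrank_ext_sub J
    have hJlt : finrank K J < n' + 1 := by
      rw [← hfW]
      exact Submodule.finrank_lt hJ'
    have hw0 : 0 < finrank K J := Submodule.one_le_finrank_iff.2 hJ
    obtain ⟨hv1, hv2⟩ := hJV J
    rw [hfV', hfW, div_lt_div_iff₀ (by exact_mod_cast hw0) (by positivity), hdegE]
    have key := reg_num (d := (d : ℤ)) (v := (vd V J : ℤ)) (w := (finrank K J : ℤ))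
      (n := ((n' + 1 : ℕ) : ℤ)) (j := j) (t := t) (u := u) (δ := (E.sub J).deg) (α := α)
      (β := β) hβ0 hαβ (by push_cast; exact hαu) (by
        have : ((d : ℤ) + u) = (j + 1) * ((n' : ℤ) + 1) := by exact_mod_cast hd
        push_cast
        linarith) (by exact_mod_cast hJlt) (by positivity) ?_
    · push_cast at key ⊢
      exact key
    · rcases Ideal.eq_bot_or_top (J.comap (LinearMap.inl K K (Fin n' → K))) with hA | hA
      · left
        rw [hA, finrank_bot, zero_add] at hfr
        rw [hA, VB.deg_sub_bot] at hF2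
        have hv3 := hv2 hJ hA
        rw [← hfr] at hv3 hF4
        refine ⟨?_, ?_⟩
        · linarith
        · have : (vd V J : ℤ) < (((j + 1) * finrank K J : ℕ) : ℤ) := by exact_mod_cast hv3
          push_cast at this
          linarith
      · right
        rw [hA, finrank_top, Module.finrank_self] at hfr
        rw [hA, VB.deg_sub_top, VB.deg_line, hLd] at hF2
        obtain ⟨wB, hwB⟩ : ∃ wB, finrank K (J.map (LinearMap.snd K K (Fin n' → K))) = wB :=
          ⟨_, rfl⟩
        rw [hwB] at hfr hv1 hF4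
        rw [hfr]
        refine ⟨?_, ?_⟩
        · push_cast
          linarith
        · have h2 : ((vd V J : ℤ) + u) ≤ (j + 1) * wB + (j + 1) := by exact_mod_cast hv1
          push_cast
          linarith
  obtain ⟨E', f, hE', hdE', -⟩ := exists_transport E hfW
  have hst' := stableSys_map hst f
  rw [← hE'] at hst'
  have hV' := mapV_le_H0 hV f
  rw [← hE'] at hV'
  have h1 := mem_stableDegrees (n := n' + 1) (d := d) (by omega) hα0 hV'
    (by rw [finrank_mapV, hfV']) hst'
  rw [hdE', hdegE] at h1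
  exact h1

/-- Line bundles of large degree are not special. -/
theorem line_nonspecial {H : Dv k K} {x y : K} (hp : Pencil H x y) {L : Dv k K}
    (hL : 2 * (gen k K - 1) < ddeg L) :
    (line L).h0 = ddeg L + 1 - gen k K ∧ (line L).N = ⊤ := by
  have hst : (line L : VB k K K).Stable := by
    intro J hJ hJ'
    rcases Ideal.eq_bot_or_top J with h | h
    · exact absurd h hJ
    · exact absurd h hJ'
  have h1 := fH_eq hp (line L) 0
  rw [fH_zero, stable_hom_zero hst (by rw [finrank_self]) (by
    rw [ddeg_zsmul, hp.deg, finrank_self, VB.deg_line]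
    push_cast
    linarith), VB.deg_line, finrank_self] at h1
  have h2 := VB.rr (line L)
  rw [VB.deg_line, finrank_self] at h2
  push_cast at h1 h2
  refine ⟨by linarith, ?_⟩
  rw [← VB.h1_eq_zero_iff]
  linarith

/-- Degree `2 j n + y + g - 1 - j` for `y ≥ g - j`. -/
theorem he_upper_G {H : Dv k K} {x y : K} (hp : Pencil H x y) {n j u d y0 t : ℕ}
    (hn : 1 ≤ n) (hj : (j : ℤ) + 1 ≤ gen k K) (hu : 1 ≤ u) (huj : u ≤ j + 1)
    (hy : gen k K ≤ y0 + j) (hny : n ≤ (j + 1) * u + j * y0) (hd : d + u = (j + 1) * n)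
    (ht : (t : ℤ) = y0 + gen k K - 1 - j) :
    (2 * j * n + t : ℤ) ∈ stableDegrees k K n d := by
  classical
  obtain ⟨n', rfl⟩ : ∃ n', n = n' + 1 := ⟨n - 1, by omega⟩
  obtain ⟨P⟩ : Nonempty (Place k K) := by
    have : Infinite (Place k K) := infinite_places
    infer_instance
  set D : Dv k K := (j : ℤ) • H with hD
  have hdegD : ddeg D = 2 * j := by rw [hD, ddeg_zsmul, hp.deg]; ring
  have hh0 : (line D).h0 = ((j + 1 : ℕ) : ℤ) := by
    rw [hD, h0_smul hp (by positivity) (by omega)]; push_cast; ring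
  set L : Dv k K := Finsupp.single P (2 * (j : ℤ) + t) with hLdef
  have hLd : ddeg L = 2 * j + t := ddeg_single _ _
  obtain ⟨hL0, hLN⟩ := line_nonspecial hp (L := L) (by rw [hLd]; omega)
  have hL0' : (line L).h0 = ((j + y0 : ℕ) : ℤ) := by
    rw [hL0, hLd]; push_cast; linarith
  obtain ⟨m0, hm0⟩ : ∃ m0 : ℕ, (line (L - D)).h0 = m0 :=
    ⟨_, (Int.toNat_of_nonneg (VB.h0_nonneg _)).symm⟩
  obtain ⟨κ, hκ⟩ : ∃ κ : ℕ, (line (L - D)).h1 = κ :=
    ⟨_, (Int.toNat_of_nonneg (VB.h1_nonneg _)).symm⟩
  have hrr := VB.rr (line (L - D))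
  rw [VB.deg_line, finrank_self, ddeg_sub, hLd, hdegD, hm0, hκ] at hrr
  push_cast at hrr
  have hy1 : 1 ≤ y0 := by
    have : (1 : ℤ) ≤ y0 := by omega
    exact_mod_cast this
  have hNn : n' + m0 ≤ (j + 1) * (u + y0 - 1) + κ := by
    have h1 : (m0 : ℤ) = κ + y0 - j := by linarith
    have h2 : ((n' + m0 : ℕ) : ℤ) ≤ (((j + 1) * (u + y0 - 1) + κ : ℕ) : ℤ) := by
      have e : ((u + y0 - 1 : ℕ) : ℤ) = u + y0 - 1 := by omega
      have h3 : ((n' : ℤ) + 1) ≤ (j + 1) * u + j * y0 := by exact_mod_cast hny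
      push_cast
      rw [e, h1]
      linarith
    exact_mod_cast h2
  obtain ⟨cl, V, hV, hfV, hJV⟩ := exists_regW (D := D) (L := L) (fun P => base_smul hp j P)
    hLN (n := n') (N := u + y0 - 1) hh0 hm0 hκ hL0' (by omega) hNn
  have hd' : ((d : ℤ) + u) = (j + 1) * ((n' : ℤ) + 1) := by exact_mod_cast hd
  have h1 := reg_core (D := D) (L := L) (j := j) (u := u) (n' := n') (t := t) (d := d) hdegD hu
    hLd (by omega) hd cl V hV (by
      have h2 : finrank k V + (u + y0) = j + y0 + n' * (j + 1) + 1 := by omega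
      have h3 : d + u = j + 1 + n' * (j + 1) := by rw [hd]; ring
      omega) (fun J => ⟨by
        have h4 := (hJV J).1
        omega, (hJV J).2⟩)
  push_cast at h1 ⊢
  exact h1

end Pool.Agent.MP_09eaec.GG
end

section

/-!
# The lower bound for `(j + 1) n - u` sections, all `u`
-/

set_option autoImplicit false

namespace Pool.Agent.MP_09eaec.GG

open Module

universe u v

variable {k : Type u} {K : Type v} [Field k] [Field K] [Algebra k K]
variable {W : Type v} [AddCommGroup W] [Module K W] [Module k W] [IsScalarTower k K W]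

variable [CurveG k K]

/-- The bound when all quotients of `E` have slope greater than `2 j`. -/
theorem lower_big {H : Dv k K} {x y : K} (hp : Pencil H x y) [FiniteDimensional K W]
    {E : VB k K W} {V : Submodule k W} (hV : V ≤ E.H0) {α : ℝ} (hα : 0 < α)
    (hn : 1 ≤ finrank K W) (hst : E.StableSys α V) {j u c0 : ℕ} {t : ℤ} (hj : 1 ≤ j)
    (hk : (finrank k V : ℤ) + u = (j + 1) * finrank K W) (hyg : (j : ℤ) + 2 ≤ gen k K)
    (ht : E.deg = 2 * j * finrank K W + t) (hc0 : u < (j + 1) * (c0 + 1))
    (hquo : ∀ J : Submodule K W, J ≠ ⊤ → 2 * (j : ℤ) * finrank K (W ⧸ J) < (E.quo J).deg) :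
    (finrank K W : ℤ) - ((gen k K - (j + 1)) * c0 + u) ≤ t := by
  by_contra hcon
  push Not at hcon
  obtain ⟨n, hnn⟩ : ∃ n : ℤ, n = (finrank K W : ℤ) := ⟨_, rfl⟩
  obtain ⟨g, hgg⟩ : ∃ g : ℤ, g = gen k K := ⟨_, rfl⟩
  have hc0' : (u : ℤ) < (j + 1) * (c0 + 1) := by exact_mod_cast hc0
  have hn1 : 1 ≤ n := by rw [hnn]; exact_mod_cast hn
  obtain ⟨J, hJ1, hJ2⟩ := ramp_dec hp (j := (j : ℤ) + 1) (by omega) (by omega) hV (by
    intro J hJ
    have := hquo J hJ
    rw [add_sub_cancel_right]
    exact this)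
  rw [← hgg] at hcon hyg hJ2
  rw [← hnn] at hcon hk ht hJ2
  have hj1 : (1 : ℤ) ≤ j := by exact_mod_cast hj
  have hu0 : (0 : ℤ) ≤ u := by positivity
  have hgj : 0 ≤ g - (j + 1) := by omega
  have hphi : 0 ≤ (g - (j + 1)) * (c0 : ℤ) := mul_nonneg hgj (by positivity)
  have hk1 : (finrank k V : ℤ) = (j + 1) * n - u := by linarith
  rcases eq_or_ne J ⊤ with hT | hT
  · rw [hT, VB.deg_sub_top, finrank_top, ← hnn, ht] at hJ1
    nlinarith
  rcases eq_or_ne J ⊥ with hB | hB
  · have h5 := hJ2 (n - c0) (by rw [hB, vd_bot, hk1]; push_cast; nlinarith)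
    rw [hB, vd_bot, VB.deg_sub_bot, finrank_bot, hk1, ht] at h5
    push_cast at h5
    nlinarith
  · have hw1 : 0 < finrank K J := Submodule.one_le_finrank_iff.2 hB
    have hwn : finrank K J < finrank K W := Submodule.finrank_lt hT
    obtain ⟨w, hwdef⟩ : ∃ w : ℤ, w = (finrank K J : ℤ) := ⟨_, rfl⟩
    have hw1' : 1 ≤ w := by rw [hwdef]; exact_mod_cast hw1
    have hwn' : w ≤ n - 1 := by
      have : w < n := by rw [hwdef, hnn]; exact_mod_cast hwn
      omega
    have h5 := hst J hB hT
    rw [div_lt_div_iff₀ (by exact_mod_cast hw1) (by exact_mod_cast (by omega : 0 < finrank K W))]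
      at h5
    have e1 : (finrank K W : ℝ) = n := by rw [hnn]; norm_cast
    have e2 : (finrank K J : ℝ) = w := by rw [hwdef]; norm_cast
    obtain ⟨z, hz⟩ : ∃ z : ℤ, z = (vd V J : ℤ) := ⟨_, rfl⟩
    have e3 : (finrank k ↥(V ⊓ J.restrictScalars k) : ℝ) = z := by rw [hz]; norm_cast
    have e4 : (finrank k V : ℝ) = (j + 1) * n - u := by
      have h8 : ((finrank k V : ℤ) : ℝ) = (((j + 1) * n - u : ℤ) : ℝ) := by rw [hk1]
      push_cast at h8
      exact h8
    rw [e1, e2, e3, e4] at h5
    rw [← hz, ← hwdef, hk1] at hJ2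
    rw [← hwdef] at hJ1
    obtain ⟨uQ, huQ⟩ : ∃ uQ : ℤ, uQ = (j + 1) * (n - w) - ((j + 1) * n - u - z) := ⟨_, rfl⟩
    obtain ⟨dJ, hdJ⟩ : ∃ dJ : ℤ, dJ = (E.sub J).deg := ⟨_, rfl⟩
    rw [← hdJ] at hJ1 hJ2 h5
    -- `uQ < u`
    have h6 : uQ < u := by
      have h7 : ((E.deg : ℝ)) = 2 * j * n + t := by rw [ht]; push_cast; ring
      rw [h7] at h5
      have h8 : (z : ℝ) = (j + 1) * w - u + uQ := by
        have : z = (j + 1) * w - u + uQ := by rw [huQ]; ring
        rw [this]; push_cast; ring
      rw [h8] at h5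
      have h9 : (2 * (j + 1) * w : ℝ) ≤ dJ := by
        have : ((2 * (j + 1) * w : ℤ) : ℝ) ≤ (dJ : ℝ) := by exact_mod_cast hJ1
        push_cast at this
        exact this
      have hn0 : (0 : ℝ) < n := by exact_mod_cast (by omega : 0 < n)
      have hw0 : (0 : ℝ) < w := by exact_mod_cast (by omega : 0 < w)
      have h10 : (t : ℝ) < 2 * n := by
        have : t < 2 * n := by linarith
        exact_mod_cast this
      have hu0' : (0 : ℝ) ≤ u := by positivity
      by_contra h11
      push Not at h11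
      have h12 : (u : ℝ) ≤ uQ := by exact_mod_cast h11
      have h13 : (0 : ℝ) ≤ α * n * (uQ - u) := mul_nonneg (by positivity) (by linarith)
      have h14 : (0 : ℝ) ≤ α * u * w := by positivity
      have h15 : (0 : ℝ) < w * (2 * n - t) := mul_pos hw0 (by linarith)
      have h16 := mul_le_mul_of_nonneg_right h9 hn0.le
      nlinarith
    obtain ⟨cQ, hcQ⟩ : ∃ cQ : ℤ, cQ = uQ / (j + 1) := ⟨_, rfl⟩
    have h7 : (j + 1) * cQ ≤ uQ := by
      rw [hcQ]
      exact Int.mul_ediv_self_le (by omega)
    have h8 : uQ < (j + 1) * cQ + (j + 1) := by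
      rw [hcQ]
      exact Int.lt_mul_ediv_self_add (by omega)
    have h9 : cQ ≤ c0 := by
      have h10 : (j + 1) * cQ < (j + 1) * (c0 + 1 : ℤ) := by linarith
      have := lt_of_mul_lt_mul_left h10 (by omega)
      omega
    have h10 := hJ2 ((n - w) - cQ) (by
      have : (j : ℤ) + 1 ≠ 0 := by omega
      rw [huQ] at h8
      nlinarith)
    have h11 : (g - (j + 1)) * cQ ≤ (g - (j + 1)) * c0 := mul_le_mul_of_nonneg_left h9 hgj
    rw [ht] at h10
    rw [huQ] at h6
    nlinarith

/-- The lower bound for all ranks. -/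
theorem lower_IV {H : Dv k K} {x y : K} (hp : Pencil H x y) [FiniteDimensional K W]
    {E : VB k K W} {V : Submodule k W} (hV : V ≤ E.H0) {α : ℝ} (hα : 0 < α)
    (hn : 2 ≤ finrank K W) (hst : E.StableSys α V) {j u c0 : ℕ} {y0 : ℤ} (hj : 1 ≤ j)
    (hc0 : u < (j + 1) * (c0 + 1)) (hk : (finrank k V : ℤ) + u = (j + 1) * finrank K W)
    (hy0 : 1 ≤ y0) (hyg : (j : ℤ) + 2 ≤ gen k K)
    (hy : j * (y0 - 1) < finrank K W - (j + 1) * u) :
    2 * j * finrank K W + min (min (2 * y0) (y0 + gen k K - 1 - j))
      ((finrank K W : ℤ) - ((gen k K - (j + 1)) * c0 + u)) ≤ E.deg := by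
  by_contra hcon
  push Not at hcon
  obtain ⟨n, hnn⟩ : ∃ n : ℤ, n = (finrank K W : ℤ) := ⟨_, rfl⟩
  obtain ⟨g, hgg⟩ : ∃ g : ℤ, g = gen k K := ⟨_, rfl⟩
  obtain ⟨t, ht⟩ : ∃ t : ℤ, E.deg = 2 * j * n + t := ⟨E.deg - 2 * j * n, by ring⟩
  rw [← hnn] at hcon hk hy
  rw [← hgg] at hyg hcon
  have hn2 : 2 ≤ n := by rw [hnn]; exact_mod_cast hn
  have hj1 : (1 : ℤ) ≤ j := by exact_mod_cast hj
  have hu0 : (0 : ℤ) ≤ u := by positivity
  obtain ⟨φ, hφ⟩ : ∃ φ : ℤ, φ = (g - (j + 1)) * c0 + u := ⟨_, rfl⟩
  rw [← hφ] at hcon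
  have ht1 : t < 2 * y0 := by
    have := min_le_left (min (2 * y0) (y0 + g - 1 - j)) (n - φ)
    have := min_le_left (2 * y0) (y0 + g - 1 - j)
    linarith
  have ht1' : t < y0 + g - 1 - j := by
    have := min_le_left (min (2 * y0) (y0 + g - 1 - j)) (n - φ)
    have := min_le_right (2 * y0) (y0 + g - 1 - j)
    linarith
  have ht2 : t < n - φ := by
    have := min_le_right (min (2 * y0) (y0 + g - 1 - j)) (n - φ)
    linarith
  have hjy : (0 : ℤ) ≤ j * (y0 - 1) := mul_nonneg (by omega) (by omega)
  have hnu : (j + 1) * (u : ℤ) < n := by linarith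
  have hk' : j * (g + 1) * n ≤ g * (finrank k V : ℤ) := by
    have e1 : (finrank k V : ℤ) = (j + 1) * n - u := by linarith
    rw [e1]
    have e2 : g ≤ (g - j) * (j + 1) := by nlinarith
    have e3 : g * (u : ℤ) ≤ (g - j) * (j + 1) * u := mul_le_mul_of_nonneg_right e2 hu0
    have e4 : (g - j) * ((j + 1) * (u : ℤ)) ≤ (g - j) * n :=
      mul_le_mul_of_nonneg_left hnu.le (by omega)
    nlinarith
  have hk'' : (j : ℤ) * (gen k K + 1) * finrank K W ≤ gen k K * finrank k V := by
    rw [← hgg, ← hnn]; exact hk'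
  have hquo : ∀ J : Submodule K W, J ≠ ⊤ → 2 * (j : ℤ) * finrank K (W ⧸ J) ≤ (E.quo J).deg :=
    fun J hJ => quo_deg_ge hp hV hα (by omega) hst hj1 (by rw [← hgg]; omega) hk'' hJ
  have hpl : 2 * (j : ℤ) * finrank K W ≤ E.deg :=
    lower_plateau hp hV hα (by omega) hst hj1 (by rw [← hgg]; omega) hk''
  rw [← hnn] at hpl
  have hfr : ∀ J : Submodule K W, (finrank K J : ℤ) + finrank K (W ⧸ J) = n := by
    intro J
    have := Submodule.finrank_quotient_add_finrank J
    rw [hnn]
    omega
  rcases le_or_gt ((t : ℝ)) (α * u) with hcase | hcase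
  · -- regime I
    have hb := divs_eq_bot hp hV hα hn hst (j := j) (by
      have e1 : (E.deg : ℝ) = 2 * j * n + t := by rw [ht]; push_cast; ring
      have e2 : (finrank k V : ℝ) = (j + 1) * n - u := by
        have : ((finrank k V : ℤ) : ℝ) = ((j + 1) * n - u : ℤ) := by
          congr 1
          linarith
        push_cast at this
        exact this
      have e3 : (finrank K W : ℝ) = n := by rw [hnn]; norm_cast
      rw [e1, e2, e3]
      linarith)
    have h1 := mul_finrank_le hp hV hb
    have h2 := excess hp (B := E.twist H) (a := j + 1) (by omega) (by rw [← hgg]; omega) (by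
        intro J hJ
        rw [VB.twist_quo, VB.deg_twist, hp.deg]
        have := hquo J hJ
        linarith)
    rw [VB.deg_twist, hp.deg, ht, ← hnn, ← hgg] at h2
    have h3 : (E.twist H).h0 ≤ (j + 2) * n + (y0 - 1) := by
      rcases h2 with h2 | h2
      · have h4 : 2 * (E.twist H).h0 ≤ 2 * ((j + 2) * n + (y0 - 1)) + 1 := by linarith
        omega
      · have h4 : t ≤ y0 + g - 1 - j - 1 := by omega
        linarith
    have h4 : (j : ℤ) * (E.twist H).h0 ≤ j * ((j + 2) * n + (y0 - 1)) :=
      mul_le_mul_of_nonneg_left h3 (by omega)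
    have h5 : (finrank k V : ℤ) = (j + 1) * n - u := by linarith
    rw [h5] at h1
    nlinarith
  · -- regime II
    have ht0 : (0 : ℝ) < t := lt_of_le_of_lt (by positivity) hcase
    have ht0' : 0 < t := by exact_mod_cast ht0
    obtain ⟨J, hJ, hQ, h1, h2, h2'⟩ := exists_sys_quo hV hα (by omega) hst
    have hr := finrank_quo_pos hJ
    have h3 := hquo J hJ
    obtain ⟨r, hrr⟩ : ∃ r : ℤ, r = (finrank K (W ⧸ J) : ℤ) := ⟨_, rfl⟩
    have hr1 : 1 ≤ r := by rw [hrr]; exact_mod_cast hr
    have hfJ := hfr J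
    rw [← hrr] at h1 h2 h3 hfJ
    rw [← hnn] at h1 h2
    have hrn : r ≤ n := by
      have : (0 : ℤ) ≤ finrank K J := by positivity
      linarith
    have hk1 : (finrank k V : ℤ) = (j + 1) * n - u := by linarith
    rcases h3.eq_or_lt with h3 | h3
    · -- slope `2 j`
      have h4 : (E.quo J).h0 ≤ (j + 1) * finrank K (W ⧸ J) :=
        stable_even hp hQ hr (i := j) (by omega) (by rw [← hgg]; omega) (by rw [← hrr, h3])
      rw [← hrr] at h4
      have h5 := VB.deg_add E J
      rcases eq_or_ne J ⊥ with hJb | hJb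
      · have h6 : (E.sub J).deg = 0 := by rw [hJb]; exact VB.deg_sub_bot E
        have h7 : (finrank K J : ℤ) = 0 := by rw [hJb, finrank_bot]; rfl
        have h8 : r = n := by linarith
        rw [h6, ← h3, h8, ht] at h5
        linarith
      · have h6 := hst J hJb hJ
        have h7 := finrank_image_le hV J
        have hw1 : 0 < finrank K J := Submodule.one_le_finrank_iff.2 hJb
        rw [div_lt_div_iff₀ (by exact_mod_cast hw1) (by exact_mod_cast (by omega : 0 < finrank K W))]
          at h6
        have e1 : (finrank K W : ℝ) = n := by rw [hnn]; norm_cast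
        have e2 : (finrank K J : ℝ) = n - r := by
          have : (finrank K J : ℤ) = n - r := by linarith
          have h8 : ((finrank K J : ℤ) : ℝ) = ((n - r : ℤ) : ℝ) := by rw [this]
          push_cast at h8
          exact h8
        have e3 : (E.deg : ℝ) = 2 * j * n + t := by rw [ht]; push_cast; ring
        have e4 : ((E.sub J).deg : ℝ) = 2 * j * n + t - 2 * j * r := by
          have : (E.sub J).deg = 2 * j * n + t - 2 * j * r := by linarith
          rw [this]; push_cast; ring
        have e5 : (finrank k V : ℝ) = (j + 1) * n - u := by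
          have h8 : ((finrank k V : ℤ) : ℝ) = (((j + 1) * n - u : ℤ) : ℝ) := by rw [hk1]
          push_cast at h8
          exact h8
        have e6 : ((j + 1) * n - u - (j + 1) * r : ℝ) ≤
            (finrank k ↥(V ⊓ J.restrictScalars k) : ℝ) := by
          have h8 : (j + 1) * n - u - (j + 1) * r ≤ (vd V J : ℤ) := by linarith
          have h9 : (((j + 1) * n - u - (j + 1) * r : ℤ) : ℝ) ≤ ((vd V J : ℤ) : ℝ) := by
            exact_mod_cast h8
          push_cast at h9
          exact h9
        rw [e1, e2, e3, e4, e5] at h6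
        have hn0 : (0 : ℝ) < n := by exact_mod_cast (by omega : 0 < n)
        have hr0 : (0 : ℝ) < r := by exact_mod_cast (by omega : 0 < r)
        have h8 := mul_le_mul_of_nonneg_left e6 hα.le
        have h9 := mul_le_mul_of_nonneg_right h8 hn0.le
        have h10 : r * (t - α * u) < 0 := by nlinarith
        have h11 : 0 < r * (t - α * u) := mul_pos hr0 (by linarith)
        linarith
    · refine absurd (lower_big hp hV hα (by omega) hst (u := u) (c0 := c0) (t := t) hj
        (by rw [← hnn]; exact hk) (by rw [← hgg]; exact hyg) (by rw [← hnn]; exact ht) hc0 ?_) ?_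
      · intro J' hJ'
        have h5 := h2' J' hJ'
        obtain ⟨s, hs⟩ : ∃ s : ℤ, s = (finrank K (W ⧸ J') : ℤ) := ⟨_, rfl⟩
        have hs' : (0 : ℤ) < s := by rw [hs]; exact_mod_cast finrank_quo_pos hJ'
        rw [← hrr, ← hs] at h5
        rw [← hs]
        have h6 : (2 * j * s) * r < (E.quo J').deg * r := by
          have := mul_lt_mul_of_pos_right h3 hs'
          nlinarith
        exact lt_of_mul_lt_mul_right h6 (by omega)
      · rw [← hnn, ← hgg, ← hφ]
        linarith

end Pool.Agent.MP_09eaec.GG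
end
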