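import Pool.Agent.Lib.MP_09eaec_ag.Mg.G022
import Pool.Agent.Lib.MP_09eaec_ag.Mg.G035
import Pool.Agent.Lib.MP_09eaec_ag.Mg.G010
import Pool.Agent.Lib.MP_09eaec_ag.Mg.G003
import Pool.Agent.Lib.MP_09eaec_ag.Mg.G007

section

/-!
# Systems of slope two with between `n + n / g` and `n + n / (g - 1)` sections

A relation `∑ x ^ i y ^ (g - 1 - i) v i = 0` with `v i ∈ V` gives sections `w i` of `E(-H)` with
`v i = y w (i - 1) - x w i`. If the `w i` span a space of dimension `ρ`, then the `v i` span a space
of dimension at least `ρ + 1`.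
-/

set_option autoImplicit false

namespace Pool.Agent.MP_09eaec.GG

open Module

universe u v

variable {k : Type u} {K : Type v} [Field k] [Field K] [Algebra k K]
variable {W : Type v} [AddCommGroup W] [Module K W] [Module k W] [IsScalarTower k K W]

variable [CurveG k K]

theorem pow_mem_smul {H : Dv k K} {x y : K} (hp : Pencil H x y) (a b : ℕ) :
    x ^ a * y ^ b ∈ (line (((a + b : ℕ) : ℤ) • H)).H0 := by
  rw [VB.mem_H0]
  intro P
  rw [mem_line]
  have hx := VB.mem_H0.1 hp.memx P
  have hy := VB.mem_H0.1 hp.memy P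
  rw [mem_line] at hx hy
  have key : ∀ (z : K), z ∈ P.filt (-H P) → ∀ a : ℕ, z ^ a ∈ P.filt (-(((a : ℕ) : ℤ) • H) P) := by
    intro z hz a
    induction a with
    | zero =>
      rw [pow_zero]
      simp only [Nat.cast_zero, zero_smul, Finsupp.coe_zero, Pi.zero_apply, neg_zero]
      exact Or.inr (by rw [P.ord_one])
    | succ a ih =>
      rw [pow_succ]
      have := mul_mem_filt P ih hz
      have e : -(((a + 1 : ℕ) : ℤ) • H) P = -(((a : ℕ) : ℤ) • H) P + -H P := by
        rw [Finsupp.smul_apply, Finsupp.smul_apply, smul_eq_mul, smul_eq_mul]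
        push_cast
        ring
      rw [e]
      exact this
  have h1 := mul_mem_filt P (key x hx a) (key y hy b)
  have e : -(((a + b : ℕ) : ℤ) • H) P = -(((a : ℕ) : ℤ) • H) P + -(((b : ℕ) : ℤ) • H) P := by
    rw [Finsupp.smul_apply, Finsupp.smul_apply, Finsupp.smul_apply, smul_eq_mul, smul_eq_mul,
      smul_eq_mul]
    push_cast
    ring
  rw [e]
  exact h1

/-- Division of a relation by `x - y Z`. -/
theorem exists_divided {H : Dv k K} {x y : K} (hp : Pencil H x y) {E : VB k K W} {m : ℕ}
    {v : ℕ → W} (hv : ∀ i, v i ∈ E.H0)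
    (hrel : ∑ i ∈ Finset.range (m + 1), (x ^ i * y ^ (m - i)) • v i = 0) :
    ∃ w : ℕ → W, v 0 = - (x • w 0) ∧ (∀ i, v (i + 1) = y • w i - x • w (i + 1)) ∧ w m = 0 ∧
      ∀ i ≤ m, w i ∈ (E.twist (-H)).H0 := by
  have hx := hp.x_ne
  have hy := hp.y_ne
  obtain ⟨w, hw0, hws⟩ : ∃ w : ℕ → W, w 0 = -(x⁻¹ • v 0) ∧
      ∀ i, w (i + 1) = x⁻¹ • (y • w i - v (i + 1)) :=
    ⟨fun i => Nat.rec (-(x⁻¹ • v 0)) (fun i wi => x⁻¹ • (y • wi - v (i + 1))) i, rfl, fun i => rfl⟩
  have h0 : v 0 = -(x • w 0) := by
    rw [hw0, smul_neg, neg_neg, smul_smul, mul_inv_cancel₀ hx, one_smul]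
  have h1 : ∀ i, v (i + 1) = y • w i - x • w (i + 1) := by
    intro i
    rw [hws, smul_smul, mul_inv_cancel₀ hx, one_smul]
    abel
  have h2 : ∀ i, x ^ (i + 1) • w i = -∑ l ∈ Finset.range (i + 1), (x ^ l * y ^ (i - l)) • v l := by
    intro i
    induction i with
    | zero =>
      rw [zero_add, pow_one, Finset.sum_range_one, pow_zero, Nat.sub_zero, pow_zero, mul_one,
        one_smul, h0, neg_neg]
    | succ i ih =>
      have e1 : x • w (i + 1) = y • w i - v (i + 1) := by
        rw [h1]; abel
      have e2 : x ^ (i + 1 + 1) • w (i + 1) = x ^ (i + 1) • (x • w (i + 1)) := by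
        rw [smul_smul, ← pow_succ]
      have e5 : x ^ (i + 1) • y • w i = y • x ^ (i + 1) • w i := by
        rw [smul_smul, smul_smul, mul_comm]
      rw [e2, e1, smul_sub, e5, ih, Finset.sum_range_succ (n := i + 1)]
      have e3 : y • (-∑ l ∈ Finset.range (i + 1), (x ^ l * y ^ (i - l)) • v l) =
          -∑ l ∈ Finset.range (i + 1), (x ^ l * y ^ (i + 1 - l)) • v l := by
        rw [smul_neg, Finset.smul_sum]
        congr 1
        refine Finset.sum_congr rfl fun l hl => ?_
        rw [Finset.mem_range] at hl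
        rw [smul_smul]
        congr 1
        have e4 : i + 1 - l = i - l + 1 := by omega
        rw [e4, pow_succ]
        ring
      rw [e3, Nat.sub_self, pow_zero, mul_one]
      abel
  have hm : w m = 0 := by
    have h3 := h2 m
    rw [hrel, neg_zero] at h3
    exact (smul_eq_zero.1 h3).resolve_left (pow_ne_zero _ hx)
  refine ⟨w, h0, h1, hm, fun i hi => ?_⟩
  rw [VB.mem_H0]
  intro P
  have hmul : ∀ z ∈ (line H).H0, ∀ a ∈ (E.twist (-H)).M P, z • a ∈ E.M P := by
    intro z hz a ha
    have h3 := VB.mem_H0.1 hz P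
    rw [mem_line] at h3
    exact VB.mem_twist.1 ha z (by rw [Finsupp.neg_apply]; exact h3)
  rcases hp.base P with hb | hb
  · clear hi
    have hiff : ∀ z : W, z ∈ (E.twist (-H)).M P ↔ x • z ∈ E.M P := fun z =>
      VB.mem_twist_iff hx (by rw [hb, Finsupp.neg_apply])
    induction i with
    | zero =>
      rw [hiff]
      have : x • w 0 = -v 0 := by rw [h0, neg_neg]
      rw [this]
      exact neg_mem (VB.mem_H0.1 (hv 0) P)
    | succ i ih =>
      rw [hiff]
      have : x • w (i + 1) = y • w i - v (i + 1) := by rw [h1]; abel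
      rw [this]
      exact sub_mem (hmul y hp.memy _ ih) (VB.mem_H0.1 (hv _) P)
  · have hiff : ∀ z : W, z ∈ (E.twist (-H)).M P ↔ y • z ∈ E.M P := fun z =>
      VB.mem_twist_iff hy (by rw [hb, Finsupp.neg_apply])
    obtain ⟨r, hr⟩ : ∃ r, i + r = m := ⟨m - i, by omega⟩
    clear hi
    induction r generalizing i with
    | zero =>
      have : i = m := by omega
      rw [this, hm]
      exact zero_mem _
    | succ r ihr =>
      have ih := ihr (i + 1) (by omega)
      rw [hiff]
      have : y • w i = x • w (i + 1) + v (i + 1) := by rw [h1]; abel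
      rw [this]
      exact add_mem (hmul x hp.memx _ ih) (VB.mem_H0.1 (hv _) P)

/-- The `v i` span more than the `w i`. -/
theorem succ_le_span {H : Dv k K} {x y : K} (hp : Pencil H x y) {m : ℕ} {v w : ℕ → W}
    (h0 : v 0 = - (x • w 0)) (h1 : ∀ i, v (i + 1) = y • w i - x • w (i + 1)) (hm : w m = 0)
    (hindep : ∀ b : Fin (finrank k (Submodule.span k (Set.range fun i : Fin m => w i))) → W,
      (∀ i, b i ∈ Submodule.span k (Set.range fun i : Fin m => w i)) → LinearIndependent k b →
        LinearIndependent K b)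
    (hne : ∃ i, i ≤ m ∧ v i ≠ 0) :
    finrank k (Submodule.span k (Set.range fun i : Fin m => w i)) + 1 ≤
      finrank k (Submodule.span k (Set.range fun i : Fin (m + 1) => v i)) := by
  classical
  set Ω := Submodule.span k (Set.range fun i : Fin m => w i) with hΩ
  have hfin : Module.Finite k Ω := Module.Finite.span_of_finite k (Set.finite_range _)
  have hwΩ : ∀ i ≤ m, w i ∈ Ω := by
    intro i hi
    rcases Nat.lt_or_eq_of_le hi with h | h
    · exact Submodule.subset_span ⟨⟨i, h⟩, rfl⟩
    · rw [h, hm]; exact zero_mem _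
  -- `y a = x b` for `a, b ∈ Ω` only if `a = b = 0`
  let bas := Module.finBasis k Ω
  have hK : LinearIndependent K (fun i => (bas i : W)) := by
    refine hindep _ (fun i => (bas i).2) ?_
    exact bas.linearIndependent.map' Ω.subtype (Submodule.ker_subtype _)
  let Θ : (Ω × Ω) →ₗ[k] W :=
    { toFun := fun p => y • (p.1 : W) - x • (p.2 : W)
      map_add' := by
        intro p q
        simp only [Prod.fst_add, Prod.snd_add, Submodule.coe_add, smul_add]
        abel
      map_smul' := by
        intro c p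
        simp only [Prod.smul_fst, Prod.smul_snd, Submodule.coe_smul, RingHom.id_apply, smul_sub]
        rw [smul_comm y c, smul_comm x c] }
  have hΘ : ∀ p, Θ p = y • (p.1 : W) - x • (p.2 : W) := fun p => rfl
  have hexp : ∀ a : Ω, (a : W) = ∑ i, algebraMap k K (bas.repr a i) • (bas i : W) := by
    intro a
    have h2 := congrArg Ω.subtype (bas.sum_repr a)
    rw [map_sum] at h2
    simp only [map_smul, Submodule.subtype_apply] at h2
    rw [← h2]
    refine Finset.sum_congr rfl fun i _ => ?_
    rw [algebraMap_smul]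
  have hΘinj : Function.Injective Θ := by
    rw [← LinearMap.ker_eq_bot, LinearMap.ker_eq_bot']
    rintro ⟨a, b⟩ hab
    rw [hΘ] at hab
    have h3 : ∑ i, (y * algebraMap k K (bas.repr a i) - x * algebraMap k K (bas.repr b i)) •
        (bas i : W) = 0 := by
      rw [← hab]
      simp only
      rw [hexp a, hexp b, Finset.smul_sum, Finset.smul_sum, ← Finset.sum_sub_distrib]
      refine Finset.sum_congr rfl fun i _ => ?_
      rw [sub_smul, smul_smul, smul_smul]
    have h4 := fun i => (Fintype.linearIndependent_iff.1 hK) _ h3 i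
    have h5 : ∀ i, bas.repr a i = 0 ∧ bas.repr b i = 0 := by
      intro i
      have h6 := h4 i
      have h7 := LinearIndependent.pair_iff.1 hp.li (-(bas.repr b i)) (bas.repr a i) (by
        rw [Algebra.smul_def, Algebra.smul_def, map_neg]
        linear_combination h6)
      exact ⟨h7.2, neg_eq_zero.1 h7.1⟩
    have ha : a = 0 := by
      apply bas.repr.injective
      ext i
      rw [(h5 i).1, map_zero]; rfl
    have hb : b = 0 := by
      apply bas.repr.injective
      ext i
      rw [(h5 i).2, map_zero]; rfl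
    rw [ha, hb]; rfl
  let wΩ : ℕ → Ω := fun i => if h : i ≤ m then ⟨w i, hwΩ i h⟩ else 0
  have hwΩv : ∀ i, i ≤ m → ((wΩ i : Ω) : W) = w i := by
    intro i hi
    simp only [wΩ, dif_pos hi]
  let τ : Fin (m + 1) → Ω × Ω := fun i =>
    (if (i : ℕ) = 0 then 0 else wΩ ((i : ℕ) - 1), wΩ i)
  have hτ : ∀ i : Fin (m + 1), Θ (τ i) = v i := by
    intro i
    rw [hΘ]
    simp only [τ]
    rcases Nat.eq_zero_or_pos (i : ℕ) with h | h
    · rw [if_pos h, hwΩv _ (by omega), h, h0]
      simp
    · obtain ⟨l, hl⟩ : ∃ l, (i : ℕ) = l + 1 := ⟨(i : ℕ) - 1, by omega⟩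
      have hl' := i.2
      rw [if_neg (by omega), hwΩv _ (by omega), hwΩv _ (by omega), hl, h1, Nat.add_sub_cancel]
  let T : Submodule k (Ω × Ω) := Submodule.span k (Set.range τ)
  have hTmap : T.map Θ = Submodule.span k (Set.range fun i : Fin (m + 1) => v i) := by
    rw [Submodule.map_span]
    congr 1
    ext z
    constructor
    · rintro ⟨_, ⟨i, rfl⟩, rfl⟩
      exact ⟨i, (hτ i).symm⟩
    · rintro ⟨i, rfl⟩
      exact ⟨τ i, ⟨i, rfl⟩, hτ i⟩
  rw [← hTmap, ← (Submodule.equivMapOfInjective Θ hΘinj T).finrank_eq]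
  by_contra hcon
  push Not at hcon
  let p1 : T →ₗ[k] Ω := LinearMap.fst k Ω Ω ∘ₗ T.subtype
  have hp1 : ∀ z : T, p1 z = (z : Ω × Ω).1 := fun z => rfl
  have hsurj : LinearMap.range p1 = ⊤ := by
    rw [eq_top_iff]
    have h2 : ∀ i : Fin m, wΩ i ∈ LinearMap.range p1 := by
      intro i
      refine ⟨⟨τ i.succ, Submodule.subset_span ⟨_, rfl⟩⟩, ?_⟩
      rw [hp1]
      simp only [τ, Fin.val_succ]
      rw [if_neg (by omega), Nat.add_sub_cancel]
    have h3 : Submodule.span k (Set.range fun i : Fin m => wΩ i) = ⊤ := by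
      rw [eq_top_iff]
      intro z _
      have h4 : (z : W) ∈ Ω := z.2
      have h5 : Ω ≤ (Submodule.span k (Set.range fun i : Fin m => wΩ i)).map Ω.subtype := by
        refine hΩ.le.trans (Submodule.span_le.2 ?_)
        rintro _ ⟨i, rfl⟩
        refine ⟨wΩ i, Submodule.subset_span ⟨i, rfl⟩, ?_⟩
        exact hwΩv _ i.2.le
      obtain ⟨z', hz', e⟩ := h5 h4
      have : z' = z := Subtype.ext e
      rwa [← this]
    rw [← h3, Submodule.span_le]
    rintro _ ⟨i, rfl⟩
    exact h2 i
  have hTfin : Module.Finite k T := Module.Finite.span_of_finite k (Set.finite_range _)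
  have hge := LinearMap.finrank_range_add_finrank_ker p1
  rw [hsurj, finrank_top] at hge
  have hker : LinearMap.ker p1 = ⊥ := by
    rw [← Submodule.finrank_eq_zero (R := k)]
    omega
  have hzero : ∀ i, i ≤ m → wΩ i = 0 := by
    intro i
    induction i with
    | zero =>
      intro _
      have h2 : (⟨τ 0, Submodule.subset_span ⟨_, rfl⟩⟩ : T) ∈ LinearMap.ker p1 := by
        rw [LinearMap.mem_ker, hp1]
        simp [τ]
      rw [hker, Submodule.mem_bot] at h2
      have h3 := congrArg (fun z : T => (z : Ω × Ω).2) h2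
      simpa [τ] using h3
    | succ i ih =>
      intro hi
      have hlt : i + 1 < m + 1 := by omega
      have h2 : (⟨τ ⟨i + 1, hlt⟩, Submodule.subset_span ⟨_, rfl⟩⟩ : T) ∈ LinearMap.ker p1 := by
        rw [LinearMap.mem_ker, hp1]
        simp only [τ]
        rw [if_neg (by omega), Nat.add_sub_cancel]
        exact ih (by omega)
      rw [hker, Submodule.mem_bot] at h2
      have h3 := congrArg (fun z : T => (z : Ω × Ω).2) h2
      simpa [τ] using h3
  obtain ⟨i, hi, hvi⟩ := hne
  apply hvi
  have h2 : ∀ i, i ≤ m → w i = 0 := by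
    intro i hi
    rw [← hwΩv i hi, hzero i hi]; rfl
  rcases Nat.eq_zero_or_pos i with h | h
  · rw [h, h0, h2 0 (by omega), smul_zero, neg_zero]
  · obtain ⟨l, rfl⟩ : ∃ l, i = l + 1 := ⟨i - 1, by omega⟩
    rw [h1, h2 l (by omega), h2 (l + 1) hi, smul_zero, smul_zero, sub_zero]

/-- No stable systems of degree `2 n` with `n + v` sections, `g v > n ≥ (g - 1) v`, `v ≥ 2`. -/
theorem strip_one {H : Dv k K} {x y : K} (hp : Pencil H x y) [FiniteDimensional K W]
    {E : VB k K W} {V : Submodule k W} (hV : V ≤ E.H0) {α : ℝ} (hα : 0 < α)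
    (hn : 1 ≤ finrank K W) (hst : E.StableSys α V) (hd : E.deg = 2 * finrank K W)
    (h1 : (gen k K + 1) * finrank K W < gen k K * finrank k V)
    (h2 : (gen k K - 1) * finrank k V ≤ gen k K * finrank K W)
    (h3 : (finrank K W : ℤ) + 2 ≤ finrank k V) : False := by
  classical
  have hg := CurveG.two_le (k := k) (K := K)
  obtain ⟨m, hm⟩ : ∃ m : ℕ, (m : ℤ) = gen k K - 1 :=
    ⟨(gen k K - 1).toNat, Int.toNat_of_nonneg (by omega)⟩
  have hgm : gen k K = m + 1 := by omega
  have hm1 : 1 ≤ m := by omega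
  have hquo : ∀ J : Submodule K W, J ≠ ⊤ → 2 * 1 * (finrank K (W ⧸ J) : ℤ) ≤ (E.quo J).deg :=
    fun J hJ => quo_deg_ge hp hV hα hn hst (j := 1) (by omega) (by omega)
      (by rw [one_mul]; exact h1.le) hJ
  have hsub : ∀ J : Submodule K W, (E.sub J).deg ≤ finrank K J * 2 := by
    intro J
    by_cases hJ : J = ⊤
    · subst hJ
      rw [VB.deg_sub_top, finrank_top, hd]
      exact le_of_eq (by ring)
    · have h4 := hquo J hJ
      have h5 := VB.deg_add E J
      have h6 : (finrank K (W ⧸ J) : ℤ) + finrank K J = finrank K W := by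
        exact_mod_cast Submodule.finrank_quotient_add_finrank J
      linarith
  -- the dimension of `H0 (E (m H))`
  have hhom : (hom E (line ((0 : ℤ) • H))).h0 = 0 := by
    have : (hom E (line ((0 : ℤ) • H))).H0 = ⊥ := by
      rw [Submodule.eq_bot_iff]
      intro φ hφ
      refine hom_eq_zero_of hsub (by rw [hd]; ring) ?_ φ (fun P z hz => VB.mem_H0.1 hφ P z hz)
      rw [ddeg_zsmul]
      norm_num
    rw [VB.h0, this, finrank_bot]; rfl
  have hf : fH H E m = (gen k K + 1) * finrank K W := by
    rw [fH_eq hp, hd]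
    have e : gen k K - 1 - (m : ℤ) = 0 := by omega
    rw [e, hhom, hm]
    ring
  -- a relation
  let Ψ : (Fin (m + 1) → V) →ₗ[k] W :=
    { toFun := fun c => ∑ i : Fin (m + 1), (x ^ (i : ℕ) * y ^ (m - (i : ℕ))) • (c i : W)
      map_add' := by
        intro c c'
        simp only [Pi.add_apply, Submodule.coe_add, smul_add, Finset.sum_add_distrib]
      map_smul' := by
        intro a c
        simp only [Pi.smul_apply, Submodule.coe_smul, RingHom.id_apply, Finset.smul_sum]
        refine Finset.sum_congr rfl fun i _ => ?_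
        rw [smul_comm] }
  have hΨ : ∀ c, Ψ c = ∑ i : Fin (m + 1), (x ^ (i : ℕ) * y ^ (m - (i : ℕ))) • (c i : W) :=
    fun c => rfl
  have hrange : LinearMap.range Ψ ≤ (E.twist ((m : ℤ) • H)).H0 := by
    rintro _ ⟨c, rfl⟩
    rw [hΨ]
    refine Submodule.sum_mem _ fun i _ => ?_
    have h4 := pow_mem_smul hp (i : ℕ) (m - (i : ℕ))
    have h5 : (i : ℕ) + (m - (i : ℕ)) = m := by have := i.2; omega
    rw [h5] at h4
    refine VB.smul_mem_H0_of_twist h4 ?_
    rw [VB.twist_twist, add_neg_cancel, VB.twist_zero]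
    exact hV (c i).2
  obtain ⟨hVfin, -⟩ := finrank_le_h0 hV
  have hrk : finrank k (LinearMap.range Ψ) ≤ finrank k (E.twist ((m : ℤ) • H)).H0 :=
    Submodule.finrank_mono hrange
  have hrk' : (finrank k (LinearMap.range Ψ) : ℤ) ≤ (gen k K + 1) * finrank K W := by
    rw [← hf]
    unfold fH VB.h0
    exact_mod_cast hrk
  have hker : LinearMap.ker Ψ ≠ ⊥ := by
    intro h
    have h4 := LinearMap.finrank_range_add_finrank_ker Ψ
    rw [h, finrank_bot, add_zero, Module.finrank_pi_fintype, Finset.sum_const, Finset.card_univ,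
      Fintype.card_fin, smul_eq_mul] at h4
    have h5 : (finrank k (LinearMap.range Ψ) : ℤ) = (m + 1) * finrank k V := by exact_mod_cast h4
    rw [h5, hgm] at hrk'
    rw [hgm] at h1
    linarith
  obtain ⟨c, hc, hc0⟩ := Submodule.exists_mem_ne_zero_of_ne_bot hker
  rw [LinearMap.mem_ker, hΨ] at hc
  let v : ℕ → W := fun i => if h : i < m + 1 then (c ⟨i, h⟩ : W) else 0
  have hvV : ∀ i, v i ∈ V := by
    intro i
    simp only [v]
    split_ifs with h
    · exact (c ⟨i, h⟩).2
    · exact zero_mem _
  have hvc : ∀ i : Fin (m + 1), v i = c i := by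
    intro i
    simp only [v, dif_pos i.2]
  have hrel : ∑ i ∈ Finset.range (m + 1), (x ^ i * y ^ (m - i)) • v i = 0 := by
    rw [Finset.sum_range, ← hc]
    exact Finset.sum_congr rfl fun i _ => by rw [hvc]
  obtain ⟨w, e0, e1, e2, e3⟩ := exists_divided hp (E := E) (fun i => hV (hvV i)) hrel
  have hne : ∃ i, i ≤ m ∧ v i ≠ 0 := by
    by_contra hcon
    push Not at hcon
    apply hc0
    funext i
    apply Subtype.ext
    rw [← hvc]
    exact hcon i (by have := i.2; omega)
  have hindep : ∀ b : Fin (finrank k (Submodule.span k (Set.range fun i : Fin m => w i))) → W,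
      (∀ i, b i ∈ Submodule.span k (Set.range fun i : Fin m => w i)) → LinearIndependent k b →
        LinearIndependent K b := by
    intro b hb hli
    refine sec_indep (E := E) (D := H) ?_ b ?_ hli
    · intro J hJ
      have h4 := hsub J
      rw [hJ] at h4
      rw [hp.deg]
      push_cast at h4
      linarith
    · intro i
      have h4 : Submodule.span k (Set.range fun i : Fin m => w i) ≤ (E.twist (-H)).H0 := by
        rw [Submodule.span_le]
        rintro _ ⟨l, rfl⟩
        exact e3 l l.2.le
      exact h4 (hb i)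
  have hdim := succ_le_span hp e0 e1 e2 hindep hne
  -- the subsystem
  obtain ⟨ρ, hρ⟩ : ∃ ρ : ℕ, ρ = finrank k (Submodule.span k (Set.range fun i : Fin m => w i)) :=
    ⟨_, rfl⟩
  have hfinΩ : Module.Finite k (Submodule.span k (Set.range fun i : Fin m => w i)) :=
    Module.Finite.span_of_finite k (Set.finite_range _)
  let bas := Module.finBasis k (Submodule.span k (Set.range fun i : Fin m => w i))
  have hbK : LinearIndependent K (fun i => (bas i : W)) := by
    refine hindep _ (fun i => (bas i).2) ?_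
    exact bas.linearIndependent.map' (Submodule.span k (Set.range fun i : Fin m => w i)).subtype
      (Submodule.ker_subtype _)
  have hbH : ∀ i, (bas i : W) ∈ (E.twist (-H)).H0 := by
    intro i
    have h4 : Submodule.span k (Set.range fun i : Fin m => w i) ≤ (E.twist (-H)).H0 := by
      rw [Submodule.span_le]
      rintro _ ⟨l, rfl⟩
      exact e3 l l.2.le
    exact h4 (bas i).2
  set J : Submodule K W := Submodule.span K (Set.range fun i => (bas i : W)) with hJ
  have hJr : finrank K J = ρ := by
    rw [hJ, finrank_span_eq_card hbK, Fintype.card_fin, hρ]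
  have hJd : (ρ : ℤ) * 2 ≤ (E.sub J).deg := by
    have := deg_span_ge hbH hbK
    rw [hp.deg] at this
    rw [hρ]
    exact this
  have hwJ : ∀ i, i ≤ m → w i ∈ J := by
    intro i hi
    rcases Nat.lt_or_eq_of_le hi with h | h
    · have h4 : w i ∈ Submodule.span k (Set.range fun i : Fin m => w i) :=
        Submodule.subset_span ⟨⟨i, h⟩, rfl⟩
      have h5 := congrArg (Submodule.subtype _) (bas.sum_repr ⟨w i, h4⟩)
      rw [map_sum] at h5
      simp only [map_smul, Submodule.subtype_apply] at h5
      rw [← h5]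
      refine Submodule.sum_mem _ fun l _ => ?_
      rw [← algebraMap_smul K]
      exact J.smul_mem _ (Submodule.subset_span ⟨l, rfl⟩)
    · rw [h, e2]; exact zero_mem _
  have hvJ : ∀ i, i ≤ m → v i ∈ J := by
    intro i hi
    rcases Nat.eq_zero_or_pos i with h | h
    · rw [h, e0]
      exact neg_mem (J.smul_mem _ (hwJ 0 (by omega)))
    · obtain ⟨l, rfl⟩ : ∃ l, i = l + 1 := ⟨i - 1, by omega⟩
      rw [e1]
      exact sub_mem (J.smul_mem _ (hwJ l (by omega))) (J.smul_mem _ (hwJ _ hi))
  have hvd : ρ + 1 ≤ vd V J := by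
    rw [hρ]
    refine hdim.trans ?_
    have hfJ : Module.Finite k ↥(V ⊓ J.restrictScalars k) :=
      Submodule.finiteDimensional_of_le inf_le_left
    refine Submodule.finrank_mono ?_
    rw [Submodule.span_le]
    rintro _ ⟨i, rfl⟩
    exact ⟨hvV i, hvJ i (by have := i.2; omega)⟩
  have hρm : ρ ≤ m := by
    rw [hρ]
    exact (finrank_range_le_card (R := k) (fun i : Fin m => w i)).trans (by simp)
  have hρ1 : 1 ≤ ρ := by
    by_contra hcon
    have h4 : ρ = 0 := by omega
    have h5 : J = ⊥ := by
      rw [← Submodule.finrank_eq_zero (R := K), hJr, h4]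
    have h6 : vd V J = 0 := by rw [h5]; exact vd_bot V
    omega
  have hρn : (ρ : ℤ) ≤ finrank K W := by
    rw [← hJr]
    exact_mod_cast Submodule.finrank_le J
  rcases eq_or_ne J ⊤ with hT | hT
  · rw [hT, finrank_top] at hJr
    rw [hgm, hJr] at h2
    rw [hJr] at h3
    have h4 : (ρ : ℤ) ≤ m := by exact_mod_cast hρm
    have h5 : (m : ℤ) * (ρ + 2) ≤ (m + 1 - 1) * (finrank k V : ℤ) := by
      rw [add_sub_cancel_right]
      exact mul_le_mul_of_nonneg_left h3 (by positivity)
    nlinarith
  · have hB : J ≠ ⊥ := by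
      intro h
      rw [h, finrank_bot] at hJr
      omega
    have h4 := hst J hB hT
    rw [hJr, div_lt_div_iff₀ (by exact_mod_cast hρ1) (by exact_mod_cast hn), hd] at h4
    have h5 : ((ρ : ℝ) + 1) ≤ (finrank k ↥(V ⊓ J.restrictScalars k) : ℝ) := by
      have : ((ρ + 1 : ℕ) : ℝ) ≤ ((vd V J : ℕ) : ℝ) := by exact_mod_cast hvd
      push_cast at this
      exact this
    have h6 : ((ρ : ℝ) * 2) ≤ ((E.sub J).deg : ℝ) := by exact_mod_cast hJd
    have hn0 : (0 : ℝ) < (finrank K W : ℝ) := by exact_mod_cast hn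
    have h7 : α * (((ρ : ℝ) + 1) * finrank K W) < α * ((finrank k V : ℝ) * ρ) := by
      have h8 := mul_le_mul_of_nonneg_right h6 hn0.le
      have h9 := mul_le_mul_of_nonneg_left h5 hα.le
      have h10 := mul_le_mul_of_nonneg_right h9 hn0.le
      push_cast at h4
      nlinarith
    have h8 := lt_of_mul_lt_mul_left h7 hα.le
    have h9 : ((ρ : ℤ) + 1) * finrank K W < (finrank k V : ℤ) * ρ := by exact_mod_cast h8
    have h10 : (ρ : ℤ) ≤ m := by exact_mod_cast hρm
    rw [hgm] at h2
    have h11 : (0 : ℤ) ≤ (finrank k V : ℤ) - finrank K W := by linarith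
    have h12 := mul_le_mul_of_nonneg_right h10 h11
    nlinarith

end Pool.Agent.MP_09eaec.GG
end

section

/-!
# TASK DEndo: a stable system has no endomorphism which is neither zero nor injective

`N = ker ψ`, `I = range ψ`, both proper and nonzero (`N ≠ ⊥`, `N ≠ ⊤` since `ψ ≠ 0`; `rank N + rank I = rank W`, so
`I ≠ ⊤`, `I ≠ ⊥`). `E.deg ≤ (E.sub N).deg + (E.sub I).deg`: `VB.deg_exact_le` with `i = N.subtype`, `p = ψ.rangeRestrict`,
`E1 = E.sub N`, `E2 = E.sub I`. `finrank V ≤ vd V N + vd V I`: rank-nullity for `ψ` on `V` (the image is in `V ⊓ I`; `vd V J`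
is `finrank k (V ⊓ J.restrictScalars k)`, see `finrank_image_le` and the end of the proof of `brick_scalar` in HY/Brick.lean).
Stability for `N` and `I`: `(deg N + α vd N) rank W < rank N (deg E + α dim V)` and the same for `I`; the sum is a
contradiction.
-/

set_option autoImplicit false

namespace Pool.Agent.MP_09eaec.GG

open Module

universe u v

variable {k : Type u} {K : Type v} [Field k] [Field K] [Algebra k K]
variable {W : Type v} [AddCommGroup W] [Module K W] [Module k W] [IsScalarTower k K W]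

variable [CurveG k K]

theorem dendo [FiniteDimensional K W] {E : VB k K W} {V : Submodule k W} (hV : V ≤ E.H0)
    {α : ℝ} (hα : 0 < α) (hst : E.StableSys α V) (ψ : W →ₗ[K] W)
    (hE : ∀ P w, w ∈ E.M P → ψ w ∈ E.M P) (hψV : ∀ w ∈ V, ψ w ∈ V) (hψ : ψ ≠ 0) :
    LinearMap.ker ψ = ⊥ := by
  classical
  by_contra hN0
  have : Module.Finite k V := Submodule.finiteDimensional_of_le hV
  set N := LinearMap.ker ψ with hNdef
  set I := LinearMap.range ψ with hIdef
  have hN1 : N ≠ ⊤ := by
    intro h
    exact hψ (LinearMap.ker_eq_top.1 h)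
  have hI0 : I ≠ ⊥ := by
    intro h
    exact hψ (LinearMap.range_eq_bot.1 h)
  have hI1 : I ≠ ⊤ := by
    intro h
    exact hN0 (LinearMap.ker_eq_bot_iff_range_eq_top.2 h)
  have hdim : finrank K I + finrank K N = finrank K W :=
    LinearMap.finrank_range_add_finrank_ker ψ
  have hdeg : E.deg ≤ (E.sub N).deg + (E.sub I).deg := by
    refine VB.deg_exact_le E (E.sub N) (E.sub I) N.subtype ψ.rangeRestrict
      N.injective_subtype (LinearMap.surjective_rangeRestrict ψ) ?_ ?_ ?_
    · rw [Submodule.range_subtype, LinearMap.ker_rangeRestrict]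
    · intro P x hx
      exact hx
    · intro P x hx
      exact hE P x hx
  -- rank-nullity on `V`
  let τ : V →ₗ[k] W := (ψ.restrictScalars k).comp V.subtype
  have hτ : ∀ v : V, τ v = ψ v := fun v => rfl
  have hrn := LinearMap.finrank_range_add_finrank_ker τ
  have f1 : Module.Finite k ↥(V ⊓ N.restrictScalars k) :=
    Submodule.finiteDimensional_inf_left _ _
  have f2 : Module.Finite k ↥(V ⊓ I.restrictScalars k) :=
    Submodule.finiteDimensional_inf_left _ _
  have hle1 : finrank k (LinearMap.ker τ) ≤ finrank k ↥(V ⊓ N.restrictScalars k) := by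
    have hmap : (LinearMap.ker τ).map V.subtype ≤ V ⊓ N.restrictScalars k := by
      rintro _ ⟨v, hv, rfl⟩
      have hv0 : ψ (v : W) = 0 := LinearMap.mem_ker.1 hv
      exact ⟨v.2, hv0⟩
    rw [(LinearEquiv.finrank_eq (Submodule.equivMapOfInjective V.subtype V.injective_subtype
      (LinearMap.ker τ)))]
    exact Submodule.finrank_mono hmap
  have hle2 : finrank k (LinearMap.range τ) ≤ finrank k ↥(V ⊓ I.restrictScalars k) := by
    refine Submodule.finrank_mono ?_
    rintro _ ⟨v, rfl⟩
    exact ⟨hψV v v.2, ⟨v, rfl⟩⟩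
  have hposN : 0 < finrank K N := Nat.pos_of_ne_zero fun h => hN0 (Submodule.finrank_eq_zero.1 h)
  have hposI : 0 < finrank K I := Nat.pos_of_ne_zero fun h => hI0 (Submodule.finrank_eq_zero.1 h)
  have hsN := hst N hN0 hN1
  have hsI := hst I hI0 hI1
  have hposN' : (0 : ℝ) < finrank K N := by exact_mod_cast hposN
  have hposI' : (0 : ℝ) < finrank K I := by exact_mod_cast hposI
  have hdim' : (finrank K I : ℝ) + finrank K N = finrank K W := by exact_mod_cast hdim
  have hposW' : (0 : ℝ) < finrank K W := by rw [← hdim']; positivity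
  rw [div_lt_div_iff₀ hposN' hposW'] at hsN
  rw [div_lt_div_iff₀ hposI' hposW'] at hsI
  have hdeg' : (E.deg : ℝ) ≤ (E.sub N).deg + (E.sub I).deg := by exact_mod_cast hdeg
  have hv' : (finrank k V : ℝ) ≤ finrank k ↥(V ⊓ N.restrictScalars k) +
      finrank k ↥(V ⊓ I.restrictScalars k) := by
    have : finrank k V ≤ finrank k ↥(V ⊓ N.restrictScalars k) +
      finrank k ↥(V ⊓ I.restrictScalars k) := by omega
    exact_mod_cast this
  have h1 : ((E.deg : ℝ) + α * finrank k V) * finrank K W ≤
      (((E.sub N).deg + (E.sub I).deg : ℝ) + α * (finrank k ↥(V ⊓ N.restrictScalars k) +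
      finrank k ↥(V ⊓ I.restrictScalars k))) * finrank K W := by
    refine mul_le_mul_of_nonneg_right ?_ hposW'.le
    exact add_le_add hdeg' (mul_le_mul_of_nonneg_left hv' hα.le)
  rw [← hdim'] at hsN hsI h1
  nlinarith [hsN, hsI, h1]

end Pool.Agent.MP_09eaec.GG
end

section

/-!
# TASK DMono: the sections of `m H` are spanned by the monomials `x^a y^(m - a)`, `m ≤ gen - 1`

The monomials are in `(line (m • H)).H0` (`pow_mem_smul` in HE/StripOne.lean), which has dimension `m + 1` (`h0_smul` in
HY/CanonH.lean). They are `k`-independent: a relation gives a nonzero polynomial over `k` with the zero `x / y`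
(`y ≠ 0`: `hp.y_ne`), so `x / y` is algebraic over the algebraically closed field `k` (`Curve.closed`), so it is
`algebraMap c` (`IsAlgClosed.algebraMap_surjective...`/ factor the polynomial: `IsAlgClosed.exists_eq_mul...`, or use that
an integral element of a domain over an algebraically closed field is in `k`), and `x - c y = 0` against `hp.li`. Then
span = H0 by dimension.
-/

set_option autoImplicit false

namespace Pool.Agent.MP_09eaec.GG

open Module

universe u v

variable {k : Type u} {K : Type v} [Field k] [Field K] [Algebra k K]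

variable [CurveG k K]

/-- The monomials are linearly independent over the constants. -/
private theorem DMono_li {H : Dv k K} {x y : K} (hp : Pencil H x y) (m : ℕ) :
    LinearIndependent k (fun a : Fin (m + 1) => x ^ (a : ℕ) * y ^ (m - (a : ℕ))) := by
  have hcl : IsAlgClosed k := Curve.closed (k := k) (K := K)
  have hy := hp.y_ne
  rw [Fintype.linearIndependent_iff]
  intro g hg
  have hP : (∑ a : Fin (m + 1), Polynomial.C (g a) * Polynomial.X ^ (a : ℕ)) = 0 := by
    by_contra hne
    have hz : Polynomial.aeval (x / y)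
        (∑ a : Fin (m + 1), Polynomial.C (g a) * Polynomial.X ^ (a : ℕ)) = 0 := by
      rw [map_sum]
      have h1 : ∀ a : Fin (m + 1), Polynomial.aeval (x / y)
          (Polynomial.C (g a) * Polynomial.X ^ (a : ℕ)) =
          (y ^ m)⁻¹ * (g a • (x ^ (a : ℕ) * y ^ (m - (a : ℕ)))) := by
        intro a
        have h2 : y ^ m = y ^ (a : ℕ) * y ^ (m - (a : ℕ)) := by
          rw [← pow_add]
          congr 1
          omega
        rw [map_mul, map_pow, Polynomial.aeval_C, Polynomial.aeval_X, h2, Algebra.smul_def,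
          div_pow]
        have h3 : y ^ (a : ℕ) ≠ 0 := pow_ne_zero _ hy
        have h4 : y ^ (m - (a : ℕ)) ≠ 0 := pow_ne_zero _ hy
        field_simp
      rw [Finset.sum_congr rfl (fun a _ => h1 a), ← Finset.mul_sum, hg, mul_zero]
    have hint : IsIntegral k (x / y) := by
      have halg : IsAlgebraic k (x / y) := ⟨_, hne, hz⟩
      exact halg.isIntegral
    have hdeg : (minpoly k (x / y)).degree = 1 :=
      IsAlgClosed.degree_eq_one_of_irreducible k (minpoly.irreducible hint)
    obtain ⟨c, hc⟩ := minpoly.mem_range_of_degree_eq_one k (x / y) hdeg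
    have hx : x = c • y := by
      rw [Algebra.smul_def, hc, div_mul_cancel₀ _ hy]
    have h5 := LinearIndependent.pair_iff.1 hp.li 1 (-c) (by
      rw [one_smul, neg_smul, ← hx, add_neg_cancel])
    exact one_ne_zero h5.1
  intro a
  have h6 := congrArg (fun q => Polynomial.coeff q (a : ℕ)) hP
  simp only [Polynomial.finsetSum_coeff, Polynomial.coeff_C_mul, Polynomial.coeff_X_pow,
    Polynomial.coeff_zero] at h6
  rw [Finset.sum_eq_single a] at h6
  · simpa using h6
  · intro b _ hb
    have : (a : ℕ) ≠ (b : ℕ) := fun h => hb (Fin.ext h.symm)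
    simp [this]
  · intro h
    exact absurd (Finset.mem_univ a) h

theorem mono_span {H : Dv k K} {x y : K} (hp : Pencil H x y) {m : ℕ}
    (hm : (m : ℤ) ≤ gen k K - 1) {s : K} (hs : s ∈ (line ((m : ℤ) • H)).H0) :
    s ∈ Submodule.span k (Set.range fun a : Fin (m + 1) => x ^ (a : ℕ) * y ^ (m - (a : ℕ))) := by
  have hli := DMono_li hp m
  have hmem : ∀ a : Fin (m + 1),
      x ^ (a : ℕ) * y ^ (m - (a : ℕ)) ∈ (line ((m : ℤ) • H)).H0 := by
    intro a
    have h1 := pow_mem_smul hp (a : ℕ) (m - (a : ℕ))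
    have h2 : (a : ℕ) + (m - (a : ℕ)) = m := by omega
    rw [h2] at h1
    exact h1
  have hle : Submodule.span k (Set.range fun a : Fin (m + 1) => x ^ (a : ℕ) * y ^ (m - (a : ℕ))) ≤
      (line ((m : ℤ) • H)).H0 := by
    rw [Submodule.span_le]
    rintro _ ⟨a, rfl⟩
    exact hmem a
  have h0 : (line ((m : ℤ) • H)).h0 = (m : ℤ) + 1 := h0_smul hp (by positivity) hm
  have hfr : finrank k (line ((m : ℤ) • H)).H0 = m + 1 := by
    unfold VB.h0 at h0
    exact_mod_cast h0
  have : Module.Finite k (line ((m : ℤ) • H)).H0 :=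
    Module.finite_of_finrank_pos (by omega)
  have hfs : finrank k (Submodule.span k
      (Set.range fun a : Fin (m + 1) => x ^ (a : ℕ) * y ^ (m - (a : ℕ)))) = m + 1 := by
    rw [finrank_span_eq_card hli, Fintype.card_fin]
  have heq := Submodule.eq_of_le_of_finrank_eq hle (by rw [hfs, hfr])
  rw [heq]
  exact hs

end Pool.Agent.MP_09eaec.GG
end
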