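import Pool.Agent.Lib.MP_09eaec_ag.Mg.G035
import Pool.Agent.Lib.MP_09eaec_ag.Mg.G030
import Pool.Agent.Lib.MP_09eaec_ag.Mg.G014
import Pool.Agent.Lib.MP_09eaec_ag.Mg.G019

section

/-!
# The lower bound in the ramps
-/

set_option autoImplicit false

namespace Pool.Agent.MP_09eaec.GG

open Module

universe u v

variable {k : Type u} {K : Type v} [Field k] [Field K] [Algebra k K]
variable {W : Type v} [AddCommGroup W] [Module K W] [Module k W] [IsScalarTower k K W]

theorem ramp_num {g j n v a δ r vF i : ℤ} (hj : 1 ≤ j) (hjg : j ≤ g) (hv : 1 ≤ v) (hvn : v ≤ n)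
    (ha : j * (a - 1) < v) (ha' : v ≤ j * a) (hg : g * v ≤ j * n) (hr : r ≤ n - 1)
    (hi : j * (i - 1) < vF) (hi' : vF ≤ j * i) (h1 : v * r < vF * n)
    (h2 : δ + vF + (g - j) * i ≤ r) :
    δ + v + (g - j) * a ≤ n ∨ v * (δ + g * (a - 1)) < (a - 1) * j * n := by
  rcases le_or_gt v vF with h3 | h3
  · left
    have h4 : a ≤ i := by
      have h5 : j * (a - 1) < j * i := by linarith
      have := lt_of_mul_lt_mul_left h5 (by omega)
      omega
    have h6 : (g - j) * a ≤ (g - j) * i := mul_le_mul_of_nonneg_left h4 (by omega)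
    linarith
  · rcases le_or_gt a i with h4 | h4
    · left
      have h5 : i ≤ a := by
        have h5 : j * (i - 1) < j * a := by linarith
        have := lt_of_mul_lt_mul_left h5 (by omega)
        omega
      have h6 : i = a := le_antisymm h5 h4
      subst h6
      obtain ⟨m, hm⟩ : ∃ m, m = v - vF := ⟨_, rfl⟩
      have hm1 : 1 ≤ m := by omega
      have h7 : m * v ≤ m * n := mul_le_mul_of_nonneg_left hvn (by omega)
      have h8 : v * (r + m) < v * n := by
        have e : vF = v - m := by omega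
        rw [e] at h1
        nlinarith
      have h9 : r + m < n := lt_of_mul_lt_mul_left h8 (by omega)
      linarith
    · right
      obtain ⟨m, hm⟩ : ∃ m, m = j * i - vF := ⟨_, rfl⟩
      have hm0 : 0 ≤ m := by omega
      have e : vF = j * i - m := by omega
      have h5 : v * (δ + g * i) ≤ v * (r + m) := by
        apply mul_le_mul_of_nonneg_left _ (by omega)
        rw [e] at h2
        linarith
      have h6 : v * m ≤ n * m := mul_le_mul_of_nonneg_right hvn hm0
      have h7 : v * (δ + g * i) < n * (j * i) := by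
        rw [e] at h1
        nlinarith
      have h8 : (g * v) * (a - 1 - i) ≤ (j * n) * (a - 1 - i) :=
        mul_le_mul_of_nonneg_right hg (by omega)
      nlinarith

variable [CurveG k K]

theorem ramp_lower_sys {H : Dv k K} {x y : K} (hp : Pencil H x y) [FiniteDimensional K W]
    {E : VB k K W} {V : Submodule k W} (hV : V ≤ E.H0) {α : ℝ} (hα : 0 < α)
    (hn : 1 ≤ finrank K W) (hst : E.StableSys α V) {j v a : ℤ} (hj : 1 ≤ j) (hj' : j ≤ gen k K)
    (hk : (finrank k V : ℤ) = j * finrank K W + v) (hv : 1 ≤ v) (hvn : v ≤ finrank K W)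
    (ha : j * (a - 1) < v) (ha' : v ≤ j * a) (hg : gen k K * v ≤ j * finrank K W)
    (hd : E.deg < 2 * j * finrank K W) :
    2 * j * finrank K W - E.deg + v + (gen k K - j) * a ≤ finrank K W ∨
      v * (2 * j * finrank K W - E.deg + gen k K * (a - 1)) < (a - 1) * j * finrank K W := by
  obtain ⟨J0, hJ0, hQ, h3, h4, hmin⟩ := exists_sys_quo hV hα hn hst
  have hr := finrank_quo_pos hJ0
  obtain ⟨n, hndef⟩ : ∃ n : ℤ, n = (finrank K W : ℤ) := ⟨_, rfl⟩
  have hn' : (0 : ℤ) < n := by rw [hndef]; exact_mod_cast hn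
  -- the minimal slope
  have hslope : 2 * (j - 1) * finrank K (W ⧸ J0) < (E.quo J0).deg := by
    have h7 : j * finrank K (W ⧸ J0) < (E.quo J0).h0 := by
      obtain ⟨r, hrdef⟩ : ∃ r : ℤ, r = (finrank K (W ⧸ J0) : ℤ) := ⟨_, rfl⟩
      have hr' : (0 : ℤ) < r := by rw [hrdef]; exact_mod_cast hr
      rw [← hrdef]
      rw [← hndef, ← hrdef, hk, ← hndef] at h3
      have a2 : (j * r) * n < (E.quo J0).h0 * n := by
        have : 0 < v * r := mul_pos (by omega) hr'
        nlinarith
      exact lt_of_mul_lt_mul_right a2 hn'.le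
    by_contra hcon
    push Not at hcon
    rcases eq_or_lt_of_le hcon with e | e
    · have h5 := stable_even hp hQ hr (i := j - 1) (by omega) (by omega) e
      have : (j - 1 + 1) * (finrank K (W ⧸ J0) : ℤ) = j * finrank K (W ⧸ J0) := by ring
      linarith
    · by_cases hj1 : j = 1
      · subst hj1
        have h0 : (E.quo J0).deg < 0 := by simpa using e
        rw [stable_neg hQ hr h0] at h7
        omega
      · have h5 := stable_lt hp hQ hr (j := j - 1) (by omega) (by omega) e
        obtain ⟨r, hrdef⟩ : ∃ r : ℤ, r = (finrank K (W ⧸ J0) : ℤ) := ⟨_, rfl⟩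
        have hr' : (0 : ℤ) < r := by rw [hrdef]; exact_mod_cast hr
        rw [← hrdef] at h5 h7
        have h6 := mul_lt_mul_of_pos_left h7 (show (0 : ℤ) < gen k K by omega)
        nlinarith
  have hquo : ∀ J : Submodule K W, J ≠ ⊤ →
      2 * (j - 1) * finrank K (W ⧸ J) < (E.quo J).deg := by
    intro J hJ
    have h5 := hmin J hJ
    obtain ⟨r, hrdef⟩ : ∃ r : ℤ, r = (finrank K (W ⧸ J0) : ℤ) := ⟨_, rfl⟩
    obtain ⟨s, hsdef⟩ : ∃ s : ℤ, s = (finrank K (W ⧸ J) : ℤ) := ⟨_, rfl⟩
    have hr' : (0 : ℤ) < r := by rw [hrdef]; exact_mod_cast hr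
    have hs' : (0 : ℤ) < s := by rw [hsdef]; exact_mod_cast finrank_quo_pos hJ
    rw [← hrdef] at h5 hslope
    rw [← hsdef] at h5 ⊢
    have h6 : (2 * (j - 1) * s) * r < (E.quo J).deg * r := by
      have := mul_lt_mul_of_pos_right hslope hs'
      nlinarith
    exact lt_of_mul_lt_mul_right h6 hr'.le
  obtain ⟨J, hJ1, hJ2⟩ := ramp_dec hp hj hj' hV hquo
  rw [← hndef] at hd hk hvn hg hJ2 ⊢
  rcases eq_or_ne J ⊤ with hT | hT
  · rw [hT, VB.deg_sub_top, finrank_top, ← hndef] at hJ1
    linarith
  rcases eq_or_ne J ⊥ with hB | hB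
  · left
    have h5 := hJ2 (n + a) (by rw [hB, vd_bot, hk]; push_cast; nlinarith)
    rw [hB, vd_bot, VB.deg_sub_bot, finrank_bot, hk] at h5
    push_cast at h5
    nlinarith
  · have hw1 : 0 < finrank K J := Submodule.one_le_finrank_iff.2 hB
    have hwn : finrank K J < finrank K W := Submodule.finrank_lt hT
    obtain ⟨w, hwdef⟩ : ∃ w : ℤ, w = (finrank K J : ℤ) := ⟨_, rfl⟩
    have hw1' : 1 ≤ w := by rw [hwdef]; exact_mod_cast hw1
    have hwn' : w ≤ n - 1 := by
      have : w < n := by rw [hwdef, hndef]; exact_mod_cast hwn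
      omega
    have h5 := hst J hB hT
    rw [div_lt_div_iff₀ (by exact_mod_cast hw1) (by exact_mod_cast (by omega : 0 < finrank K W))]
      at h5
    have e1 : (finrank K W : ℝ) = n := by rw [hndef]; norm_cast
    have e2 : (finrank K J : ℝ) = w := by rw [hwdef]; norm_cast
    obtain ⟨z, hz⟩ : ∃ z : ℤ, z = (vd V J : ℤ) := ⟨_, rfl⟩
    have e3 : (finrank k ↥(V ⊓ J.restrictScalars k) : ℝ) = z := by rw [hz]; norm_cast
    obtain ⟨κ, hκ⟩ : ∃ κ : ℤ, κ = (finrank k V : ℤ) := ⟨_, rfl⟩
    have e4 : (finrank k V : ℝ) = κ := by rw [hκ]; norm_cast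
    rw [e1, e2, e3, e4] at h5
    rw [← hz, ← hwdef] at hJ2
    rw [← hwdef] at hJ1
    rw [← hκ] at hk hJ2
    have h6 : z * n < κ * w := by
      have b1 : (2 * j * w : ℝ) ≤ (E.sub J).deg := by exact_mod_cast hJ1
      have b2 : (E.deg : ℝ) ≤ 2 * j * n := by exact_mod_cast hd.le
      have b3 : (0 : ℝ) < n := by exact_mod_cast hn'
      have b4 : (0 : ℝ) < w := by exact_mod_cast (by omega : 0 < w)
      have b5 := mul_le_mul_of_nonneg_right b1 b3.le
      have b6 := mul_le_mul_of_nonneg_right b2 b4.le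
      have b7 : α * ((z : ℝ) * n) < α * (κ * w) := by nlinarith
      have b8 := lt_of_mul_lt_mul_left b7 hα.le
      exact_mod_cast b8
    obtain ⟨r, hrdef⟩ : ∃ r : ℤ, r = n - w := ⟨_, rfl⟩
    obtain ⟨vF, hvF⟩ : ∃ vF : ℤ, vF = κ - z - j * r := ⟨_, rfl⟩
    obtain ⟨i, hi, hi'⟩ : ∃ i : ℤ, j * (i - 1) < vF ∧ vF ≤ j * i := by
      refine ⟨(vF + j - 1) / j, ?_, ?_⟩
      · have := Int.mul_ediv_self_le (x := vF + j - 1) (k := j) (by omega)
        linarith
      · have := Int.lt_mul_ediv_self_add (x := vF + j - 1) (k := j) (by omega)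
        linarith
    have h7 := hJ2 (r + i) (by
      have : j * (r + i - 1) = j * r + j * (i - 1) := by ring
      linarith)
    refine ramp_num (r := r) (vF := vF) (i := i) hj hj' hv hvn ha ha' hg (by omega)
      hi hi' ?_ ?_
    · rw [hvF, hrdef]
      nlinarith
    · have e5 : n - w = r := hrdef.symm
      rw [e5] at h7
      have e6 : w = n - r := by omega
      rw [e6] at hJ1
      nlinarith

end Pool.Agent.MP_09eaec.GG
end

section

/-!
# The second value in the ramps
-/

set_option autoImplicit false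

namespace Pool.Agent.MP_09eaec.GG

open Module

universe u v

variable {k : Type u} {K : Type v} [Field k] [Field K] [Algebra k K]

variable [CurveG k K]

/-- `v = j a`. -/
theorem ramp_second_mult {H : Dv k K} {x y : K} (hp : Pencil H x y) {j n a : ℕ} {δ : ℤ}
    (hj' : (j : ℤ) + 1 ≤ gen k K) (ha : 1 ≤ a) (hδ : 1 ≤ δ)
    (hn : (n : ℤ) = δ + gen k K * a) :
    (2 * j * n - δ : ℤ) ∈ stableDegrees k K n (j * n + j * a) := by
  have hg2 := CurveG.two_le (k := k) (K := K)
  have hga : (0 : ℤ) < gen k K * a := by positivity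
  have han : a ≤ n := by
    have : (a : ℤ) ≤ n := by rw [hn]; nlinarith
    exact_mod_cast this
  obtain ⟨E0, hE0, hdE0, -, hsec⟩ := exists_low_stable (k := k) (K := K) (n := n) (i := a)
    (d := -δ) ha han (by omega) (by omega) (Or.inr (by rw [hn]; ring))
  have h1 := hsec ((j : ℤ) • H)
  rw [ddeg_zsmul, hp.deg, h0_smul hp (by positivity) (by omega)] at h1
  have h2 := stable_mem (d := j * n + j * a) (by omega : 1 ≤ n)
    (VB.stable_twist hE0 ((j : ℤ) • H)) (by
      refine le_trans (le_of_eq ?_) h1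
      push_cast
      rw [hn]
      ring)
  rw [deg_twist_H hp, Module.finrank_fin_fun, hdE0] at h2
  have e : (2 * j * n - δ : ℤ) = -δ + 2 * j * n := by ring
  rw [e]
  exact h2

/-- `v = j a - w`. -/
theorem ramp_second_bgn {H : Dv k K} {x y : K} (hp : Pencil H x y) {j n a w v : ℕ} {δ : ℤ}
    (hj' : (j : ℤ) + 1 ≤ gen k K) (hn1 : 1 ≤ n) (hδn : δ < n) (hvw : v + w = j * a)
    (hn : (n : ℤ) = δ + gen k K * a - w)
    (hE : ∃ E : VB k K (Fin n → K), E.Stable ∧ E.deg = n * (2 * gen k K - 2) - δ ∧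
      (gen k K - 1) * ((n : ℤ) + a) - w ≤ E.h0) :
    (2 * j * n - δ : ℤ) ∈ stableDegrees k K n (j * n + v) := by
  obtain ⟨E, hE, hdE, hsE⟩ := hE
  have hfr : finrank K (Fin n → K) = n := Module.finrank_fin_fun K
  set E2 : VB k K (Fin n → K) := E.twist (-((gen k K - 1) • H)) with hE2
  have hst : E2.Stable := VB.stable_twist hE _
  have hdE2 : E2.deg = -δ := by
    rw [hE2, ← neg_smul, deg_twist_H hp, hfr, hdE]; ring
  have hf1 : (gen k K - 1) * ((n : ℤ) + a) - w ≤ fH H E2 (gen k K - 1) := by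
    unfold fH
    rw [hE2, VB.twist_twist, neg_add_cancel, VB.twist_zero]
    exact hsE
  have hf2 : fH H E2 (gen k K) = gen k K * ((n : ℤ) + a) - w := by
    rw [fH_eq hp, hfr, stable_hom_zero hst (by rw [hfr]; exact hn1) (D := (gen k K - 1 - gen k K) • H)
      (by rw [ddeg_zsmul, hp.deg, hfr, hdE2]; linarith), hdE2]
    have e : δ = (n : ℤ) - gen k K * a + w := by linarith
    rw [e]; ring
  have h3 := fH_ineq hp E2 (a := j) (b := gen k K - 1) (c := gen k K) (by omega) (by omega)
  rw [hf2] at h3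
  have h4 : (j : ℤ) * n + v ≤ fH H E2 j := by
    have h5 : (gen k K - j) * ((gen k K - 1) * ((n : ℤ) + a) - w) ≤
        (gen k K - j) * fH H E2 (gen k K - 1) := mul_le_mul_of_nonneg_left hf1 (by omega)
    have h6 : (v : ℤ) + w = j * a := by exact_mod_cast hvw
    nlinarith
  have h7 := stable_mem (d := j * n + v) hn1 (VB.stable_twist hst ((j : ℤ) • H)) (by
    push_cast
    exact h4)
  rw [deg_twist_H hp, hfr, hdE2] at h7
  have e : (2 * j * n - δ : ℤ) = -δ + 2 * j * n := by ring
  rw [e]
  exact h7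

end Pool.Agent.MP_09eaec.GG
end

section

/-!
# The systems in the third case of the ramps are stable for all `α`
-/

set_option autoImplicit false

namespace Pool.Agent.MP_09eaec.GG

open Module

universe u v

variable {k : Type u} {K : Type v} [Field k] [Field K] [Algebra k K]
variable {W : Type v} [AddCommGroup W] [Module K W] [Module k W] [IsScalarTower k K W]

variable [CurveG k K]

/-- Stable bundles of slope at most `2 (j - 1)` have at most `j` sections per rank. -/
theorem stable_le_low {H : Dv k K} {x y : K} (hp : Pencil H x y) [FiniteDimensional K W]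
    {Q : VB k K W} (hQ : Q.Stable) (hr : 1 ≤ finrank K W) {j : ℤ} (hj : 1 ≤ j)
    (hj' : j ≤ gen k K) (h : Q.deg ≤ 2 * (j - 1) * finrank K W) :
    Q.h0 ≤ j * finrank K W := by
  have hr' : (1 : ℤ) ≤ finrank K W := by exact_mod_cast hr
  rcases eq_or_lt_of_le h with e | e
  · have h3 := stable_even hp hQ hr (i := j - 1) (by omega) (by omega) e
    have : (j - 1 + 1) * (finrank K W : ℤ) = j * finrank K W := by ring
    linarith
  · by_cases hj1 : j = 1
    · subst hj1
      have h0 : Q.deg < 0 := by simpa using e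
      rw [stable_neg hQ hr h0]
      positivity
    · have h3 := stable_lt hp hQ hr (j := j - 1) (by omega) (by omega) e
      have hg : (0 : ℤ) < gen k K := by omega
      have h4 : gen k K * Q.h0 ≤ gen k K * (j * finrank K W) := by
        have : (j - 1) * (gen k K + 1) ≤ j * gen k K := by nlinarith
        have := mul_le_mul_of_nonneg_right this (by omega : (0 : ℤ) ≤ finrank K W)
        linarith
      exact le_of_mul_le_mul_left h4 hg

theorem quo_or_dec {H : Dv k K} {x y : K} (hp : Pencil H x y) {j : ℤ} (hj : 1 ≤ j)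
    (hj' : j ≤ gen k K) [FiniteDimensional K W] [Nontrivial W] {E : VB k K W}
    {V : Submodule k W} (hV : V ≤ E.H0) :
    (∃ T : Submodule K W, T ≠ ⊤ ∧ (finrank k V : ℤ) ≤ j * finrank K (W ⧸ T) + vd V T) ∨
    ∃ J : Submodule K W, 2 * j * finrank K J ≤ (E.sub J).deg ∧
      ∀ c : ℤ, j * (c - 1) < (finrank k V : ℤ) - vd V J →
        (finrank k V : ℤ) - vd V J + (gen k K - j) * c ≤
          E.deg - (E.sub J).deg + (gen k K + 1 - 2 * j) * (finrank K W - finrank K J) := by
  obtain ⟨J0, hJ0, hQ, hmin⟩ := exists_min_quo E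
  have hr := finrank_quo_pos hJ0
  rcases le_or_gt (E.quo J0).deg (2 * (j - 1) * finrank K (W ⧸ J0)) with hc | hc
  · left
    refine ⟨J0, hJ0, ?_⟩
    have h1 := stable_le_low hp hQ hr hj hj' hc
    have h2 := finrank_image_le hV J0
    linarith
  · right
    refine ramp_dec hp hj hj' hV fun J hJ => ?_
    have h5 := hmin J hJ
    obtain ⟨r, hrdef⟩ : ∃ r : ℤ, r = (finrank K (W ⧸ J0) : ℤ) := ⟨_, rfl⟩
    obtain ⟨s, hsdef⟩ : ∃ s : ℤ, s = (finrank K (W ⧸ J) : ℤ) := ⟨_, rfl⟩
    have hr' : (0 : ℤ) < r := by rw [hrdef]; exact_mod_cast hr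
    have hs' : (0 : ℤ) < s := by rw [hsdef]; exact_mod_cast finrank_quo_pos hJ
    rw [← hrdef] at h5 hc
    rw [← hsdef] at h5 ⊢
    have h6 : (2 * (j - 1) * s) * r < (E.quo J).deg * r := by
      have := mul_lt_mul_of_pos_right hc hs'
      nlinarith
    exact lt_of_mul_lt_mul_right h6 hr'.le

/-- The Kronecker part. -/
theorem kron_all {H : Dv k K} {x y : K} (hp : Pencil H x y) {j n v : ℕ} (hj : 1 ≤ j)
    (hj' : (j : ℤ) ≤ gen k K) (hu : (n : ℤ) - v ≤ gen k K - j + 1)
    {V : Submodule k (Fin n → K)} {α : ℝ} (hα : 0 < α)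
    (hV : V ≤ (pw ((j : ℤ) • H) n).H0) (hfV : finrank k V = j * n + v)
    (hst : (pw ((j : ℤ) • H) n).StableSys α V) (w : ℕ) :
    ∀ J : Submodule K (Fin n → K), finrank K J = w → J ≠ ⊥ → J ≠ ⊤ →
      (vd V J : ℤ) * n ≤ (j * n + v) * finrank K J ∧
      ((vd V J : ℤ) * n < (j * n + v) * finrank K J ∨
        ((pw ((j : ℤ) • H) n).sub J).deg < 2 * j * finrank K J) := by
  induction w using Nat.strong_induction_on with
  | _ w ih =>
  intro J hJw hJ hJ'
  set D : Dv k K := (j : ℤ) • H with hD
  have hdegD : ddeg D = 2 * j := by rw [hD, ddeg_zsmul, hp.deg]; ring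
  have hw0 : 0 < finrank K J := Submodule.one_le_finrank_iff.2 hJ
  have hwn : finrank K J < n := by
    have := Submodule.finrank_lt hJ'
    rwa [Module.finrank_fin_fun] at this
  have hn0 : 0 < n := by omega
  have hle := pw_sub_le D J
  rw [hdegD] at hle
  by_cases hcase : (finrank K J : ℤ) * (2 * j) ≤ ((pw D n).sub J).deg
  · -- constant subspaces
    have h1 := hst J hJ hJ'
    rw [Module.finrank_fin_fun, hfV, deg_pw, hdegD,
      div_lt_div_iff₀ (by exact_mod_cast hw0) (by exact_mod_cast hn0)] at h1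
    have e1 : (finrank k ↥(V ⊓ J.restrictScalars k) : ℝ) = (vd V J : ℝ) := rfl
    rw [e1] at h1
    have h2 : ((finrank K J : ℝ) * (2 * j)) ≤ (((pw D n).sub J).deg : ℝ) := by
      exact_mod_cast hcase
    have h3 : (0 : ℝ) < n := by exact_mod_cast hn0
    have h4 := mul_le_mul_of_nonneg_right h2 h3.le
    push_cast at h1
    have h5 : α * ((vd V J : ℝ) * n) < α * ((j * n + v) * finrank K J) := by nlinarith
    have h6 := lt_of_mul_lt_mul_left h5 hα.le
    have h7 : (vd V J : ℤ) * n < (j * n + v) * finrank K J := by exact_mod_cast h6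
    exact ⟨h7.le, Or.inl h7⟩
  push Not at hcase
  refine ⟨?_, Or.inr (by linarith)⟩
  have : Nontrivial J := Module.finrank_pos_iff.1 (by omega : 0 < finrank K J)
  rcases quo_or_dec hp (j := j) (by omega) hj' (subV_le hV J) with ⟨T, hT, h1⟩ | ⟨T, hT1, hT2⟩
  · rw [finrank_subV, vd_subV] at h1
    have hfr := Submodule.finrank_quotient_add_finrank T
    have h6 : finrank K (T.map J.subtype) = finrank K T := Submodule.finrank_map_subtype_eq J T
    have h7 := finrank_quo_pos hT
    have hTb : (vd V (T.map J.subtype) : ℤ) * n ≤ (j * n + v) * finrank K T := by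
      rcases eq_or_ne (T.map J.subtype) ⊥ with h8 | h8
      · rw [h8, vd_bot]
        have : (0 : ℤ) ≤ (j * n + v) * finrank K T := by positivity
        simpa using this
      · have h9 := (ih (finrank K T) (by omega) (T.map J.subtype) h6 h8 (by
          intro h10
          have : finrank K (T.map J.subtype) = n := by
            rw [h10, finrank_top, Module.finrank_fin_fun]
          omega)).1
        rwa [h6] at h9
    have hfr' : (finrank K J : ℤ) = finrank K (J ⧸ T) + finrank K T := by exact_mod_cast hfr.symm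
    rw [hfr']
    have h8 : (vd V J : ℤ) * n ≤ (j * finrank K (J ⧸ T) + vd V (T.map J.subtype)) * n :=
      mul_le_mul_of_nonneg_right h1 (by positivity)
    have h9 : (0 : ℤ) ≤ v * finrank K (J ⧸ T) := by positivity
    nlinarith
  · rw [finrank_subV, vd_subV] at hT2
    rw [VB.deg_sub_sub] at hT1 hT2
    have h6 : finrank K (T.map J.subtype) = finrank K T := Submodule.finrank_map_subtype_eq J T
    have h7 : finrank K T ≤ finrank K J := Submodule.finrank_le T
    obtain ⟨w1, hw1⟩ : ∃ w1 : ℤ, w1 = (finrank K T : ℤ) := ⟨_, rfl⟩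
    obtain ⟨w2, hw2⟩ : ∃ w2 : ℤ, w2 = (finrank K J : ℤ) := ⟨_, rfl⟩
    obtain ⟨z, hz⟩ : ∃ z : ℤ, z = (vd V J : ℤ) := ⟨_, rfl⟩
    obtain ⟨z1, hz1⟩ : ∃ z1 : ℤ, z1 = (vd V (T.map J.subtype) : ℤ) := ⟨_, rfl⟩
    have hTle := pw_sub_le D (T.map J.subtype)
    rw [hdegD, h6, ← hw1] at hTle
    have hw12 : w1 < w2 := by
      by_contra hcon
      have e : finrank K T = finrank K J := by omega
      have e2 : T = ⊤ := Submodule.eq_top_of_finrank_eq e
      have e3 : T.map J.subtype = J := by rw [e2, Submodule.map_top, Submodule.range_subtype]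
      rw [e3, ← hw1] at hT1
      have e4 : w1 = w2 := by rw [hw1, hw2, e]
      rw [← hw2] at hcase
      rw [e4] at hT1
      linarith
    have hTb : z1 * n ≤ (j * n + v) * w1 := by
      rw [hz1, hw1]
      rcases eq_or_ne (T.map J.subtype) ⊥ with h8 | h8
      · rw [h8, vd_bot]
        have : (0 : ℤ) ≤ (j * n + v) * finrank K T := by positivity
        simpa using this
      · have h9 := (ih (finrank K T) (by omega) (T.map J.subtype) h6 h8 (by
          intro h10
          have : finrank K (T.map J.subtype) = n := by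
            rw [h10, finrank_top, Module.finrank_fin_fun]
          omega)).1
        rwa [h6] at h9
    rw [← hz, ← hz1, ← hw2, ← hw1] at hT2
    rw [← hw1] at hT1
    rw [← hz, ← hw2]
    rw [← hw2] at hcase
    obtain ⟨r1, hr1⟩ : ∃ r1 : ℤ, r1 = w2 - w1 := ⟨_, rfl⟩
    obtain ⟨v1, hv1⟩ : ∃ v1 : ℤ, v1 = z - z1 - j * r1 := ⟨_, rfl⟩
    have hr1n : r1 < n := by
      have : w2 < n := by rw [hw2]; exact_mod_cast hwn
      have : 0 ≤ w1 := by rw [hw1]; positivity
      omega
    have hn0' : (0 : ℤ) < n := by exact_mod_cast hn0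
    have hv0' : (0 : ℤ) ≤ v := by positivity
    have hj0' : (1 : ℤ) ≤ j := by exact_mod_cast hj
    rcases le_or_gt v1 0 with h8 | h8
    · have h9 : z * n ≤ (z1 + j * r1) * n := mul_le_mul_of_nonneg_right (by omega) hn0'.le
      have h10 : 0 ≤ (v : ℤ) * r1 := mul_nonneg hv0' (by omega)
      have e : w2 = w1 + r1 := by omega
      rw [e]
      nlinarith
    · have h9 := hT2 (r1 + 1) (by
        have : (j : ℤ) * (r1 + 1 - 1) = j * r1 := by ring
        rw [this]
        omega)
      have h10 : v1 ≤ r1 - 1 - (gen k K - j) := by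
        have e : w2 - w1 = r1 := hr1.symm
        rw [e] at h9
        have e2 : w1 = w2 - r1 := by omega
        rw [e2] at hT1
        have e3 : z - z1 = v1 + j * r1 := by omega
        rw [e3] at h9
        have h11 : ((pw D n).sub J).deg ≤ 2 * j * w2 - 1 := by
          have : ((pw D n).sub J).deg < 2 * j * w2 := by linarith
          omega
        nlinarith
      have h11 : v1 * n ≤ (r1 - 1 - (gen k K - j)) * n :=
        mul_le_mul_of_nonneg_right h10 hn0'.le
      have h12 : r1 * ((n : ℤ) - v) ≤ (gen k K - j + 1) * n := by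
        rcases le_or_gt ((n : ℤ) - v) 0 with h13 | h13
        · have : r1 * ((n : ℤ) - v) ≤ 0 := mul_nonpos_of_nonneg_of_nonpos (by omega) h13
          have : 0 ≤ (gen k K - j + 1) * (n : ℤ) := mul_nonneg (by omega) hn0'.le
          linarith
        · have h14 : r1 * ((n : ℤ) - v) ≤ n * ((n : ℤ) - v) :=
            mul_le_mul_of_nonneg_right hr1n.le h13.le
          have h15 : (n : ℤ) * ((n : ℤ) - v) ≤ n * (gen k K - j + 1) :=
            mul_le_mul_of_nonneg_left hu hn0'.le
          linarith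
      have e3 : z = z1 + j * r1 + v1 := by omega
      have e : w2 = w1 + r1 := by omega
      rw [e3, e]
      nlinarith

end Pool.Agent.MP_09eaec.GG
end

section

/-!
# The bundle part of the systems in the third case of the ramps
-/

set_option autoImplicit false

namespace Pool.Agent.MP_09eaec.GG

open Module

universe u v

variable {k : Type u} {K : Type v} [Field k] [Field K] [Algebra k K]
variable {W : Type v} [AddCommGroup W] [Module K W] [Module k W] [IsScalarTower k K W]

variable [CurveG k K]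

/-- The systems of a stable bundle on the extremal line of a ramp. -/
theorem ramp_F_sub {H : Dv k K} {x y : K} (hp : Pencil H x y) [FiniteDimensional K W]
    {F : VB k K W} (hF : F.Stable) {V : Submodule k W} (hV : V ≤ F.H0) {j v δ : ℤ}
    (hj : 1 ≤ j) (hj' : j ≤ gen k K) (hv : 1 ≤ v) (hδ : 1 ≤ δ)
    (hdeg : F.deg = 2 * j * finrank K W - δ)
    (heq : gen k K * v = j * (finrank K W - δ)) (w : ℕ) :
    ∀ J : Submodule K W, finrank K J = w → J ≠ ⊥ → J ≠ ⊤ →
      (finrank K W : ℤ) * vd V J < (j * finrank K W + v) * finrank K J := by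
  induction w using Nat.strong_induction_on with
  | _ w ih =>
  intro J hJw hJ hJ'
  have hw0 : 0 < finrank K J := Submodule.one_le_finrank_iff.2 hJ
  have hwn : finrank K J < finrank K W := Submodule.finrank_lt hJ'
  have : Nontrivial J := Module.finrank_pos_iff.1 hw0
  have hg : (0 : ℤ) < gen k K := by omega
  obtain ⟨r, hr⟩ : ∃ r : ℤ, r = (finrank K W : ℤ) := ⟨_, rfl⟩
  obtain ⟨w2, hw2⟩ : ∃ w2 : ℤ, w2 = (finrank K J : ℤ) := ⟨_, rfl⟩
  obtain ⟨z, hz⟩ : ∃ z : ℤ, z = (vd V J : ℤ) := ⟨_, rfl⟩
  have hr0 : 0 < r := by rw [hr]; exact_mod_cast (by omega : 0 < finrank K W)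
  have hw20 : 0 < w2 := by rw [hw2]; exact_mod_cast hw0
  rcases quo_or_dec hp (j := j) hj hj' (subV_le hV J) with ⟨T, hT, h1⟩ | ⟨T, hT1, hT2⟩
  · rw [finrank_subV, vd_subV] at h1
    have hfr := Submodule.finrank_quotient_add_finrank T
    have h6 : finrank K (T.map J.subtype) = finrank K T := Submodule.finrank_map_subtype_eq J T
    have h7 := finrank_quo_pos hT
    have hTb : (finrank K W : ℤ) * vd V (T.map J.subtype) ≤
        (j * finrank K W + v) * finrank K T := by
      rcases eq_or_ne (T.map J.subtype) ⊥ with h8 | h8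
      · rw [h8, vd_bot]
        have : (0 : ℤ) ≤ (j * finrank K W + v) * finrank K T := by positivity
        simpa using this
      · have h9 := ih (finrank K T) (by omega) (T.map J.subtype) h6 h8 (by
          intro h10
          have : finrank K (T.map J.subtype) = finrank K W := by rw [h10, finrank_top]
          omega)
        rw [h6] at h9
        exact h9.le
    have hfr' : (finrank K J : ℤ) = finrank K (J ⧸ T) + finrank K T := by exact_mod_cast hfr.symm
    have h7' : (0 : ℤ) < finrank K (J ⧸ T) := by exact_mod_cast h7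
    rw [hfr']
    have h8 : (finrank K W : ℤ) * vd V J ≤
        finrank K W * (j * finrank K (J ⧸ T) + vd V (T.map J.subtype)) :=
      mul_le_mul_of_nonneg_left h1 (by positivity)
    have h9 : (0 : ℤ) < v * finrank K (J ⧸ T) := by positivity
    nlinarith
  · rw [finrank_subV, vd_subV] at hT2
    rw [VB.deg_sub_sub] at hT1 hT2
    have h6 : finrank K (T.map J.subtype) = finrank K T := Submodule.finrank_map_subtype_eq J T
    have h7 : finrank K T ≤ finrank K J := Submodule.finrank_le T
    have hTb : T.map J.subtype = ⊥ := by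
      by_contra h8
      have h9 := hF _ h8 (by
        intro h10
        have : finrank K (T.map J.subtype) = finrank K W := by rw [h10, finrank_top]
        omega)
      rw [h6, hdeg] at h9
      have h10 : (0 : ℤ) ≤ finrank K T := by positivity
      have h11 := mul_le_mul_of_nonneg_left hT1 hr0.le
      rw [← hr] at h9
      nlinarith
    have hT0 : finrank K T = 0 := by rw [← h6, hTb, finrank_bot]
    rw [hTb, vd_bot, VB.deg_sub_bot, hT0] at hT2
    simp only [Nat.cast_zero, sub_zero] at hT2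
    have h8 := hF J hJ hJ'
    rw [hdeg] at h8
    rw [← hz, ← hw2] at hT2
    rw [← hr, ← hw2] at h8
    rw [← hr, ← hz, ← hw2]
    rw [← hr] at heq
    by_contra hcon
    push Not at hcon
    obtain ⟨vJ, hvJ⟩ : ∃ vJ : ℤ, vJ = z - j * w2 := ⟨_, rfl⟩
    have h9 : v * w2 ≤ r * vJ := by rw [hvJ]; nlinarith
    obtain ⟨c, hc⟩ : ∃ c : ℤ, c = (vJ + (j - 1)) / j := ⟨_, rfl⟩
    have hc1 : j * c ≤ vJ + (j - 1) := by rw [hc]; exact Int.mul_ediv_self_le (by omega)
    have hc2 : vJ + (j - 1) < j * c + j := by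
      rw [hc]
      have := Int.lt_mul_ediv_self_add (x := vJ + (j - 1)) (k := j) (by omega)
      linarith
    have h10 := hT2 (w2 + c) (by
      have : j * (w2 + c - 1) = j * w2 + j * c - j := by ring
      rw [this]
      omega)
    obtain ⟨e, he⟩ : ∃ e : ℤ, e = (F.sub J).deg := ⟨_, rfl⟩
    rw [← he] at h8 h10
    have h11 : vJ ≤ j * c := by omega
    have h12 : (gen k K - j) * vJ ≤ (gen k K - j) * (j * c) :=
      mul_le_mul_of_nonneg_left h11 (by omega)
    have h13 : (gen k K - j) * c ≤ w2 - (2 * j * w2 - e) - vJ := by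
      rw [hvJ]; nlinarith
    have h14 : j * ((gen k K - j) * c) ≤ j * (w2 - (2 * j * w2 - e) - vJ) :=
      mul_le_mul_of_nonneg_left h13 (by omega)
    have h15 : gen k K * vJ ≤ j * (w2 - (2 * j * w2 - e)) := by nlinarith
    have h16 := mul_le_mul_of_nonneg_left h15 hr0.le
    have h17 : r * e < w2 * (2 * j * r - δ) := by linarith
    have h18 := mul_lt_mul_of_pos_left h17 (by omega : (0 : ℤ) < j)
    have h19 := mul_le_mul_of_nonneg_left h9 hg.le
    have h20 : w2 * (gen k K * v) = w2 * (j * (r - δ)) := by rw [heq]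
    nlinarith

/-- Homomorphisms to `O(jH)`. -/
theorem ramp_hom_le {H : Dv k K} {x y : K} (hp : Pencil H x y) [FiniteDimensional K W]
    {F : VB k K W} (hF : F.Stable) (hr : 1 ≤ finrank K W) {j δ : ℤ}
    (hδ : 1 ≤ δ) (hδ' : δ ≤ finrank K W) (hdeg : F.deg = 2 * j * finrank K W - δ) :
    gen k K * (hom F (line (j • H))).h0 ≤ (gen k K - 1) * finrank K W + δ := by
  have hg := CurveG.two_le (k := k) (K := K)
  have hr1 : (0 : ℤ) < finrank K W := by exact_mod_cast hr
  have hfm : fH H F (-j) = 0 := by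
    unfold fH VB.h0
    rw [neg_smul, stable_twist_bot hF hr, finrank_bot]
    · rfl
    · rw [ddeg_zsmul, hp.deg, hdeg]; nlinarith
  have hf : fH H F (gen k K - j) =
      F.deg + (2 * (gen k K - j) - (gen k K - 1)) * finrank K W := by
    rw [fH_eq hp]
    have e : gen k K - 1 - (gen k K - j) = j - 1 := by ring
    rw [e, stable_hom_zero hF hr (D := (j - 1) • H) (by
      rw [ddeg_zsmul, hp.deg, hdeg]; nlinarith)]
    ring
  have h2 := fH_eq hp F (gen k K - 1 - j)
  have e : gen k K - 1 - (gen k K - 1 - j) = j := by ring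
  rw [e] at h2
  have h3 := fH_ineq hp F (a := -j) (b := gen k K - 1 - j) (c := gen k K - j)
    (by omega) (by omega)
  rw [hfm, hf, h2, hdeg] at h3
  nlinarith

end Pool.Agent.MP_09eaec.GG
end
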