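import Mathlib

section

/-!
# Numerical lemma: non-roots are on the plateau
-/

set_option autoImplicit false

namespace Pool.Agent.MP_09eaec.GG

theorem hy_num {g : ℤ} {n d j : ℕ} (hj : 2 ≤ j) (hjg : (j : ℤ) + 3 ≤ g) (h1 : j * n < d)
    (hq : (j + 1) * n * d + 1 < (n : ℤ) ^ 2 + (d : ℤ) ^ 2) : j * g * n < (g - 1) * d := by
  by_contra hcon
  push Not at hcon
  obtain ⟨δ, hδ⟩ : ∃ δ : ℕ, d = j * n + δ := ⟨d - j * n, by omega⟩
  subst hδ
  push_cast at hcon hq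
  have hδ1 : (1 : ℤ) ≤ δ := by
    have : 1 ≤ δ := by omega
    exact_mod_cast this
  have hn0 : (0 : ℤ) ≤ n := by positivity
  have hj2 : (2 : ℤ) ≤ j := by exact_mod_cast hj
  have h3 : (g - 1) * δ ≤ j * n := by nlinarith
  have h4 : ((j : ℤ) + 2) * δ ≤ j * n := by nlinarith
  -- `δ² ≤ (j - 1) n (n - δ)`
  have h5 : (((j : ℤ) + 2) * δ) * (((j : ℤ) + 2) * δ) ≤ (j * n) * (j * n) :=
    mul_self_le_mul_self (by positivity) h4
  have h6 : 0 ≤ ((j : ℤ) + 2) * ((j - 1) * n) * (((j : ℤ) * n) - ((j : ℤ) + 2) * δ) :=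
    mul_nonneg (mul_nonneg (by linarith) (mul_nonneg (by linarith) hn0)) (by linarith)
  have h7 : 0 ≤ (((j : ℤ)) ^ 2 + 2 * j - 4) * (n : ℤ) ^ 2 := mul_nonneg (by nlinarith) (by positivity)
  have h8 : ((j : ℤ) + 2) ^ 2 * ((j - 1) * n * (n - δ) - (δ : ℤ) ^ 2) ≥ 0 := by nlinarith
  have h9 : (0 : ℤ) ≤ (j - 1) * n * (n - δ) - (δ : ℤ) ^ 2 := by
    by_contra hc
    push Not at hc
    have : ((j : ℤ) + 2) ^ 2 * ((j - 1) * n * (n - δ) - (δ : ℤ) ^ 2) < 0 :=
      mul_neg_of_pos_of_neg (by positivity) hc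
    linarith
  nlinarith

end Pool.Agent.MP_09eaec.GG
end

section

/-!
# TASK DCount: a count of solutions (pure linear algebra)

NOTE (helper3): the hypothesis `hXY'` (`X' Y' = Y' X'` on `M`) was added; without it the statement is false
(`M` need not lie in the range of `p`).

`p : W → R`, `X, Y : W → W`, `X', Y' : R → R` with `p X = X' p`, `p Y = Y' p`, `X Y = Y X` (think: sections of a bundle
`E` and of a quotient `R`, and multiplication by two sections). `VB = p (V)`, `M ≥ VB`, `B1 = p (W1)`, `𝓜` a space of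
endomorphisms of `R` which commute with `X', Y'` and preserve `M` and `B1`. A1 = `W1 ⊓ ker p`, A2 = `W2 ⊓ ker p`,
VA = `V ⊓ ker p`.
PROOF. `Z = {Φ ∈ 𝓜 | Φ (VB) ≤ VB}`, the kernel of `𝓜 → Hom (VB, M ⧸ VB)` (`M ⧸ VB` as in HY/Brick.lean: `VB` as a
submodule of `M` is `VB.submoduleOf M` or `comap M.subtype`), so `dim Z ≥ dim 𝓜 - dim VB (dim M - dim VB)`. Linear
sections `l : VB → V`, `l1 : B1 → W1` of `p` (`LinearMap.exists_rightInverse_of_surjective`). Unknowns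
`(Φ, g, h) ∈ Z × Hom (VB, VA) × Hom (B1, A1)`; put `f1 = l Φ + g : VB → V`, `f = l1 Φ + h : B1 → W1`, so `p f1 = Φ`,
`p f = Φ` on `VB`, `B1`. Linear conditions: (a) `v ↦ f (X' v) - X (f1 v)` and `v ↦ f (Y' v) - Y (f1 v)`, `VB → A1`, are
zero (the values are in `W1` and in `ker p`, since `p f (X' v) = Φ X' v = X' Φ v = p X f1 v`): `2 dim VB dim A1`
conditions; (b) `w ↦ Y (f (X' w)) - X (f (Y' w))`, `C → A2`, is zero, `C` a complement of `VB` in `M` (so
`dim C = dim M - dim VB`; alternatively restrict to the quotient `M ⧸ VB` after (a), since (a) implies (b) on `VB`):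
`(dim M - dim VB) dim A2` conditions. There are more unknowns than conditions, so there is a nonzero solution. It
satisfies (b) on all of `M` (on `VB`: `Y f (X' v) = Y X f1 v = X Y f1 v = X f (Y' v)`). If `f = 0` (hence
`Φ = p f = 0` on `B1`, and `Φ ∈ 𝓜` is zero on `B1` only if `Φ = 0`: hypothesis `hfaith`) and `f1 = 0` then
`g = h = 0`, so the solution would be zero; so `f ≠ 0` or `f1 ≠ 0`. (If you prefer, the maps may be given on all of
`W`, `R` as total functions; the statement below uses total linear maps `f : R → W`, `f1 : R → W`: extend by zero on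
a complement, `LinearMap.exists_extend`.)
-/

set_option autoImplicit false

namespace Pool.Agent.MP_09eaec.GG

open Module

private theorem dcount_section {k : Type*} [Field k] {W R : Type*} [AddCommGroup W] [Module k W]
    [AddCommGroup R] [Module k R] (p : W →ₗ[k] R) (V : Submodule k W) :
    ∃ l : R →ₗ[k] W, ∀ r ∈ V.map p, l r ∈ V ∧ p (l r) = r := by
  let q : V →ₗ[k] ↥(V.map p) := p.submoduleMap V
  have hq : Function.Surjective q := p.submoduleMap_surjective V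
  obtain ⟨s, hs⟩ := LinearMap.exists_rightInverse_of_surjective q (LinearMap.range_eq_top.2 hq)
  obtain ⟨l, hl⟩ := LinearMap.exists_extend (V.subtype ∘ₗ s)
  refine ⟨l, fun r hr => ?_⟩
  have h1 : l r = (s ⟨r, hr⟩ : W) := by
    have := LinearMap.congr_fun hl ⟨r, hr⟩
    simpa using this
  have h2 : q (s ⟨r, hr⟩) = ⟨r, hr⟩ := LinearMap.congr_fun hs ⟨r, hr⟩
  refine ⟨by rw [h1]; exact (s ⟨r, hr⟩).2, ?_⟩
  rw [h1]
  have := congrArg Subtype.val h2
  simpa [q] using this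

private theorem dcount_proj {k : Type*} [Field k] {W : Type*} [AddCommGroup W] [Module k W]
    (A : Submodule k W) : ∃ π : W →ₗ[k] A, ∀ a (h : a ∈ A), π a = ⟨a, h⟩ := by
  obtain ⟨π, hπ⟩ := LinearMap.exists_extend (LinearMap.id : A →ₗ[k] A)
  exact ⟨π, fun a h => LinearMap.congr_fun hπ ⟨a, h⟩⟩

theorem dcount {k : Type*} [Field k] {W R : Type*} [AddCommGroup W] [Module k W]
    [AddCommGroup R] [Module k R] (p : W →ₗ[k] R) (X Y : W →ₗ[k] W) (X' Y' : R →ₗ[k] R)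
    (hX : ∀ w, p (X w) = X' (p w)) (hY : ∀ w, p (Y w) = Y' (p w)) (hXY : ∀ w, X (Y w) = Y (X w))
    (V W1 W2 : Submodule k W) (M B1 : Submodule k R)
    [Module.Finite k V] [Module.Finite k W1] [Module.Finite k W2] [Module.Finite k M]
    (hVM : V.map p ≤ M) (hB1 : W1.map p = B1) (hXY' : ∀ r ∈ M, X' (Y' r) = Y' (X' r))
    (hMX : ∀ r ∈ M, X' r ∈ B1) (hMY : ∀ r ∈ M, Y' r ∈ B1)
    (hVX : ∀ w ∈ V, X w ∈ W1) (hVY : ∀ w ∈ V, Y w ∈ W1)
    (hWX : ∀ w ∈ W1, X w ∈ W2) (hWY : ∀ w ∈ W1, Y w ∈ W2)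
    (𝓜 : Submodule k (R →ₗ[k] R)) [Module.Finite k 𝓜]
    (hcX : ∀ Φ ∈ 𝓜, ∀ r, Φ (X' r) = X' (Φ r)) (hcY : ∀ Φ ∈ 𝓜, ∀ r, Φ (Y' r) = Y' (Φ r))
    (hM : ∀ Φ ∈ 𝓜, ∀ r ∈ M, Φ r ∈ M) (hB : ∀ Φ ∈ 𝓜, ∀ r ∈ B1, Φ r ∈ B1)
    (hfaith : ∀ Φ ∈ 𝓜, (∀ r ∈ B1, Φ r = 0) → Φ = 0)
    (hnum : 2 * finrank k (V.map p) * finrank k ↥(W1 ⊓ LinearMap.ker p) +
        (finrank k M - finrank k (V.map p)) * finrank k ↥(W2 ⊓ LinearMap.ker p) +
        finrank k (V.map p) * (finrank k M - finrank k (V.map p)) <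
      finrank k 𝓜 + finrank k (V.map p) * finrank k ↥(V ⊓ LinearMap.ker p) +
        finrank k B1 * finrank k ↥(W1 ⊓ LinearMap.ker p)) :
    ∃ (f1 f : R →ₗ[k] W), ((∃ v ∈ V.map p, f1 v ≠ 0) ∨ ∃ b ∈ B1, f b ≠ 0) ∧
      (∀ v ∈ V.map p, f1 v ∈ V) ∧ (∀ b ∈ B1, f b ∈ W1) ∧
      (∀ v ∈ V.map p, f (X' v) = X (f1 v)) ∧ (∀ v ∈ V.map p, f (Y' v) = Y (f1 v)) ∧
      ∀ r ∈ M, Y (f (X' r)) = X (f (Y' r)) := by
  subst hB1
  set VB : Submodule k R := V.map p with hVB
  set B1 : Submodule k R := W1.map p with hB1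
  set VA : Submodule k W := V ⊓ LinearMap.ker p with hVA
  set A1 : Submodule k W := W1 ⊓ LinearMap.ker p with hA1
  set A2 : Submodule k W := W2 ⊓ LinearMap.ker p with hA2
  have : Module.Finite k VB := Module.Finite.map V p
  have : Module.Finite k B1 := Module.Finite.map W1 p
  have : Module.Finite k VA := Submodule.finiteDimensional_of_le (inf_le_left : V ⊓ LinearMap.ker p ≤ V)
  have : Module.Finite k A1 := Submodule.finiteDimensional_of_le (inf_le_left : W1 ⊓ LinearMap.ker p ≤ W1)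
  have : Module.Finite k A2 := Submodule.finiteDimensional_of_le (inf_le_left : W2 ⊓ LinearMap.ker p ≤ W2)
  obtain ⟨l, hl⟩ := dcount_section p V
  obtain ⟨l1, hl1⟩ := dcount_section p W1
  obtain ⟨πVB, hπVB⟩ := dcount_proj VB
  obtain ⟨πB1, hπB1⟩ := dcount_proj B1
  obtain ⟨πA1, hπA1⟩ := dcount_proj A1
  obtain ⟨πA2, hπA2⟩ := dcount_proj A2
  let N : Submodule k M := VB.comap M.subtype
  have hNfin : finrank k N = finrank k VB := by
    have h1 : N.map M.subtype = VB := by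
      rw [Submodule.map_comap_subtype, inf_eq_right.2 hVM]
    rw [← h1]
    exact (LinearEquiv.finrank_eq (Submodule.equivMapOfInjective M.subtype
      (Submodule.injective_subtype M) N))
  have hQ : finrank k (M ⧸ N) = finrank k M - finrank k VB := by
    have := Submodule.finrank_quotient_add_finrank N
    omega
  obtain ⟨πQ, hπQ⟩ := LinearMap.exists_extend (p := M) N.mkQ
  obtain ⟨σ, hσ⟩ := LinearMap.exists_rightInverse_of_surjective N.mkQ
    (LinearMap.range_eq_top.2 N.mkQ_surjective)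
  let F1 : (𝓜 × (VB →ₗ[k] VA) × (B1 →ₗ[k] A1)) →ₗ[k] (R →ₗ[k] W) :=
    { toFun := fun u => l ∘ₗ (u.1 : R →ₗ[k] R) + VA.subtype ∘ₗ u.2.1 ∘ₗ πVB
      map_add' := by intro u v; ext x; simp; abel
      map_smul' := by intro c u; ext x; simp }
  let F : (𝓜 × (VB →ₗ[k] VA) × (B1 →ₗ[k] A1)) →ₗ[k] (R →ₗ[k] W) :=
    { toFun := fun u => l1 ∘ₗ (u.1 : R →ₗ[k] R) + A1.subtype ∘ₗ u.2.2 ∘ₗ πB1
      map_add' := by intro u v; ext x; simp; abel
      map_smul' := by intro c u; ext x; simp }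
  have hF1 : ∀ u x, F1 u x = l ((u.1 : R →ₗ[k] R) x) + (u.2.1 (πVB x) : W) := fun _ _ => rfl
  have hF : ∀ u x, F u x = l1 ((u.1 : R →ₗ[k] R) x) + (u.2.2 (πB1 x) : W) := fun _ _ => rfl
  let L : (𝓜 × (VB →ₗ[k] VA) × (B1 →ₗ[k] A1)) →ₗ[k]
      ((VB →ₗ[k] (M ⧸ N)) × (VB →ₗ[k] A1) × (VB →ₗ[k] A1) × ((M ⧸ N) →ₗ[k] A2)) :=
    { toFun := fun u => (πQ ∘ₗ (u.1 : R →ₗ[k] R) ∘ₗ VB.subtype,
        πA1 ∘ₗ (F u ∘ₗ X' - X ∘ₗ F1 u) ∘ₗ VB.subtype,
        πA1 ∘ₗ (F u ∘ₗ Y' - Y ∘ₗ F1 u) ∘ₗ VB.subtype,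
        πA2 ∘ₗ (Y ∘ₗ F u ∘ₗ X' - X ∘ₗ F u ∘ₗ Y') ∘ₗ M.subtype ∘ₗ σ)
      map_add' := by
        intro u v
        refine Prod.ext ?_ (Prod.ext ?_ (Prod.ext ?_ ?_)) <;>
        · apply LinearMap.ext; intro x
          simp only [map_add, Prod.fst_add, Prod.snd_add, LinearMap.comp_apply, LinearMap.add_apply,
            LinearMap.sub_apply, Submodule.coe_add, map_sub]
          try abel
      map_smul' := by
        intro c u
        refine Prod.ext ?_ (Prod.ext ?_ (Prod.ext ?_ ?_)) <;>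
        · apply LinearMap.ext; intro x
          simp only [map_smul, Prod.smul_fst, Prod.smul_snd, LinearMap.comp_apply,
            LinearMap.smul_apply, LinearMap.sub_apply, Submodule.coe_smul, map_sub, smul_sub,
            RingHom.id_apply] }
  have hdim : finrank k ((VB →ₗ[k] (M ⧸ N)) × (VB →ₗ[k] A1) × (VB →ₗ[k] A1) × ((M ⧸ N) →ₗ[k] A2))
      < finrank k (𝓜 × (VB →ₗ[k] VA) × (B1 →ₗ[k] A1)) := by
    rw [finrank_prod, finrank_prod, finrank_prod, finrank_prod, finrank_prod,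
      finrank_linearMap, finrank_linearMap, finrank_linearMap, finrank_linearMap,
      finrank_linearMap, hQ]
    nlinarith [hnum]
  have hker : LinearMap.ker L ≠ ⊥ := LinearMap.ker_ne_bot_of_finrank_lt hdim
  obtain ⟨u, hu, hu0⟩ := (Submodule.ne_bot_iff _).1 hker
  rw [LinearMap.mem_ker] at hu
  have e1 : ∀ v : VB, πQ ((u.1 : R →ₗ[k] R) v) = 0 := fun v =>
    LinearMap.congr_fun (congrArg Prod.fst hu) v
  have e2 : ∀ v : VB, πA1 (F u (X' v) - X (F1 u v)) = 0 := fun v =>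
    LinearMap.congr_fun (congrArg (fun z => z.2.1) hu) v
  have e3 : ∀ v : VB, πA1 (F u (Y' v) - Y (F1 u v)) = 0 := fun v =>
    LinearMap.congr_fun (congrArg (fun z => z.2.2.1) hu) v
  have e4 : ∀ q : M ⧸ N, πA2 (Y (F u (X' (σ q))) - X (F u (Y' (σ q)))) = 0 := fun q =>
    LinearMap.congr_fun (congrArg (fun z => z.2.2.2) hu) q
  have hΦ : (u.1 : R →ₗ[k] R) ∈ 𝓜 := u.1.2
  have hΦVB : ∀ v ∈ VB, (u.1 : R →ₗ[k] R) v ∈ VB := by
    intro v hv
    have h1 := hM _ hΦ v (hVM hv)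
    have h2 := e1 ⟨v, hv⟩
    have h3 : πQ ((u.1 : R →ₗ[k] R) v) = N.mkQ ⟨(u.1 : R →ₗ[k] R) v, h1⟩ :=
      LinearMap.congr_fun hπQ ⟨_, h1⟩
    have h4 : N.mkQ ⟨(u.1 : R →ₗ[k] R) v, h1⟩ = 0 := by rw [← h3]; exact h2
    exact (Submodule.Quotient.mk_eq_zero N).1 h4
  have a1 : ∀ v ∈ VB, F1 u v ∈ V := by
    intro v hv
    rw [hF1]
    exact V.add_mem (hl _ (hΦVB v hv)).1 (inf_le_left (a := V) (b := LinearMap.ker p) (u.2.1 (πVB v)).2)
  have a2 : ∀ v ∈ VB, p (F1 u v) = (u.1 : R →ₗ[k] R) v := by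
    intro v hv
    rw [hF1, map_add, (hl _ (hΦVB v hv)).2]
    have h1 : p (u.2.1 (πVB v) : W) = 0 := (u.2.1 (πVB v)).2.2
    rw [h1, add_zero]
  have b1 : ∀ b ∈ B1, F u b ∈ W1 := by
    intro b hb
    rw [hF]
    exact W1.add_mem (hl1 _ (hB _ hΦ b hb)).1
      (inf_le_left (a := W1) (b := LinearMap.ker p) (u.2.2 (πB1 b)).2)
  have b2 : ∀ b ∈ B1, p (F u b) = (u.1 : R →ₗ[k] R) b := by
    intro b hb
    rw [hF, map_add, (hl1 _ (hB _ hΦ b hb)).2]
    have h1 : p (u.2.2 (πB1 b) : W) = 0 := (u.2.2 (πB1 b)).2.2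
    rw [h1, add_zero]
  have c1 : ∀ v ∈ VB, F u (X' v) = X (F1 u v) := by
    intro v hv
    have hm : F u (X' v) - X (F1 u v) ∈ A1 := by
      refine ⟨W1.sub_mem (b1 _ (hMX v (hVM hv))) (hVX _ (a1 v hv)), ?_⟩
      change p _ = 0
      rw [map_sub, b2 _ (hMX v (hVM hv)), hX, a2 v hv, hcX _ hΦ, sub_self]
    have h1 := e2 ⟨v, hv⟩
    have h2 := hπA1 _ hm
    have h3 := congrArg Subtype.val (h2.symm.trans h1)
    exact sub_eq_zero.1 h3
  have c2 : ∀ v ∈ VB, F u (Y' v) = Y (F1 u v) := by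
    intro v hv
    have hm : F u (Y' v) - Y (F1 u v) ∈ A1 := by
      refine ⟨W1.sub_mem (b1 _ (hMY v (hVM hv))) (hVY _ (a1 v hv)), ?_⟩
      change p _ = 0
      rw [map_sub, b2 _ (hMY v (hVM hv)), hY, a2 v hv, hcY _ hΦ, sub_self]
    have h1 := e3 ⟨v, hv⟩
    have h2 := hπA1 _ hm
    have h3 := congrArg Subtype.val (h2.symm.trans h1)
    exact sub_eq_zero.1 h3
  have c3 : ∀ q : M ⧸ N, Y (F u (X' (σ q))) = X (F u (Y' (σ q))) := by
    intro q
    have hr : ((σ q : M) : R) ∈ M := (σ q).2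
    have hm : Y (F u (X' (σ q))) - X (F u (Y' (σ q))) ∈ A2 := by
      refine ⟨W2.sub_mem (hWY _ (b1 _ (hMX _ hr))) (hWX _ (b1 _ (hMY _ hr))), ?_⟩
      change p _ = 0
      rw [map_sub, hX, hY, b2 _ (hMX _ hr), b2 _ (hMY _ hr), ← hcX _ hΦ, ← hcY _ hΦ, hXY' _ hr,
        sub_self]
    have h1 := e4 q
    have h2 := hπA2 _ hm
    have h3 := congrArg Subtype.val (h2.symm.trans h1)
    exact sub_eq_zero.1 h3
  refine ⟨F1 u, F u, ?_, a1, b1, c1, c2, ?_⟩
  · by_contra hcon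
    push Not at hcon
    obtain ⟨z1, z2⟩ := hcon
    have hΦ0 : (u.1 : R →ₗ[k] R) = 0 := by
      apply hfaith _ hΦ
      intro r hr
      rw [← b2 r hr, z2 r hr, map_zero]
    have g0 : u.2.1 = 0 := by
      apply LinearMap.ext
      intro v
      have h1 := z1 v v.2
      rw [hF1, hΦ0, LinearMap.zero_apply, map_zero, zero_add, hπVB v v.2] at h1
      exact Subtype.ext h1
    have h0 : u.2.2 = 0 := by
      apply LinearMap.ext
      intro v
      have h1 := z2 v v.2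
      rw [hF, hΦ0, LinearMap.zero_apply, map_zero, zero_add, hπB1 v v.2] at h1
      exact Subtype.ext h1
    apply hu0
    exact Prod.ext (Subtype.ext hΦ0) (Prod.ext g0 h0)
  · intro r hr
    have h1 : (⟨r, hr⟩ : M) - σ (N.mkQ ⟨r, hr⟩) ∈ N := by
      have h2 : N.mkQ ((⟨r, hr⟩ : M) - σ (N.mkQ ⟨r, hr⟩)) = 0 := by
        rw [map_sub]
        have := LinearMap.congr_fun hσ (N.mkQ ⟨r, hr⟩)
        simp only [LinearMap.comp_apply, LinearMap.id_apply] at this
        rw [this, sub_self]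
      exact (Submodule.Quotient.mk_eq_zero N).1 h2
    have h2 : r - (σ (N.mkQ ⟨r, hr⟩) : R) ∈ VB := h1
    set v := r - (σ (N.mkQ ⟨r, hr⟩) : R) with hv
    have h3 : r = v + (σ (N.mkQ ⟨r, hr⟩) : R) := by rw [hv]; abel
    have h4 : Y (F u (X' v)) = X (F u (Y' v)) := by
      rw [c1 v h2, c2 v h2, hXY]
    rw [h3]
    simp only [map_add]
    rw [h4, c3]

end Pool.Agent.MP_09eaec.GG
end

section

/-!
# TASK DNum: the numbers

`J = j + 1 ≥ 3`, `n = r + m`, `r, m ≥ 1`, `q = n² - J n u + u² > 0`, `u ≤ n`, `0 ≤ uB`, `uB n < u r`, `u - uB ≤ J m`. Claim: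
`N := r² + J r m - J r u + uB (u - 2 m) > 0`.
PROOF. (0) `2 u < n` and `(J² - J + 1) u < J n`: otherwise put `a = n - u ≥ 0`, `b = (J² - J + 1) u - J n ≥ 0`; then
`J q + a b = u (n - (J-1)² u)`, and `n ≤ (J - 1 + 1/J) u ≤ (J-1)² u`, so `q ≤ 0`. And `2 u ≤ (J - 1 + 1/J) u`.
(1a) `2 m ≤ u`, `J m ≤ u`: `uB ≥ u - J m ≥ 0`, so `N ≥ r² + J r m - J r u + (u - J m)(u - 2 m)
 = q + m ((J - 2) r - 2 u + (2 J - 1) m)`, and `(J - 2) r + (2 J - 1) m ≥ r + m = n > 2 u`.
(1b) `2 m ≤ u < J m`: `N ≥ r (r + J m - J u)` and `J (r + J m - J u) = J (n + (J-1) m - J u) > J n + (J - 1) u - J² u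
 = J n - (J² - J + 1) u > 0`.
(2) `u < 2 m`: `n N ≥ n r² + J n r m - J n r u + u r (u - 2 m) = r (q + m ((J - 1) n - 2 u)) > 0`
 (since `n uB ≤ u r` and `u - 2 m < 0`).
-/

set_option autoImplicit false

namespace Pool.Agent.MP_09eaec.GG

theorem dnum {J n r m u uB : ℤ} (hJ : 3 ≤ J) (hn : n = r + m) (hr : 1 ≤ r) (hm : 1 ≤ m)
    (hq : 0 < n ^ 2 - J * n * u + u ^ 2) (hu : u ≤ n) (hu0 : 0 ≤ u) (huB : 0 ≤ uB)
    (h1 : uB * n < u * r) (h2 : u - uB ≤ J * m) :
    0 < r ^ 2 + J * r * m - J * r * u + uB * (u - 2 * m) := by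
  have hn0 : 0 < n := by linarith
  have hJ0 : (0 : ℤ) < J := by linarith
  have hS : (J ^ 2 - J + 1) * u < J * n := by
    by_contra hcon
    push Not at hcon
    have hid : J * (n ^ 2 - J * n * u + u ^ 2) + (n - u) * ((J ^ 2 - J + 1) * u - J * n) =
        u * (n - (J - 1) ^ 2 * u) := by ring
    have hab : 0 ≤ (n - u) * ((J ^ 2 - J + 1) * u - J * n) :=
      mul_nonneg (by linarith) (by linarith)
    have hJq : 0 < J * (n ^ 2 - J * n * u + u ^ 2) := mul_pos hJ0 hq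
    have h3 : 0 ≤ J * (J - 1) * (J - 2) - 1 := by
      have e1 : 0 ≤ (J - 3) * J * (J - 1) :=
        mul_nonneg (mul_nonneg (by linarith) (by linarith)) (by linarith)
      have e2 : 0 ≤ (J - 3) * (J - 1) := mul_nonneg (by linarith) (by linarith)
      nlinarith
    have h4 : 0 ≤ (J * (J - 1) * (J - 2) - 1) * u := mul_nonneg h3 hu0
    have h5 : J * (n - (J - 1) ^ 2 * u) ≤ 0 := by nlinarith
    have h6 : n - (J - 1) ^ 2 * u ≤ 0 := by
      by_contra h7
      push Not at h7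
      have := mul_pos hJ0 h7
      linarith
    have h8 : u * (n - (J - 1) ^ 2 * u) ≤ 0 := mul_nonpos_of_nonneg_of_nonpos hu0 h6
    linarith
  have h2u : 2 * u < n := by
    by_contra hcon
    push Not at hcon
    have e1 : J * n ≤ J * (2 * u) := mul_le_mul_of_nonneg_left hcon hJ0.le
    have e2 : 0 ≤ (J ^ 2 - 3 * J + 1) * u := mul_nonneg (by nlinarith) hu0
    nlinarith
  rcases le_or_gt (2 * m) u with hmu | hmu
  · rcases le_or_gt (J * m) u with hJm | hJm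
    · have e1 : (u - J * m) * (u - 2 * m) ≤ uB * (u - 2 * m) :=
        mul_le_mul_of_nonneg_right (by linarith) (by linarith)
      have e2 : 0 < m * ((J - 2) * r - 2 * u + (2 * J - 1) * m) := by
        apply mul_pos (by linarith)
        have e3 : 0 ≤ (J - 3) * r := mul_nonneg (by linarith) (by linarith)
        have e4 : 0 ≤ (2 * J - 2) * m := mul_nonneg (by linarith) (by linarith)
        nlinarith
      have e5 : r ^ 2 + J * r * m - J * r * u + (u - J * m) * (u - 2 * m) =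
          (n ^ 2 - J * n * u + u ^ 2) + m * ((J - 2) * r - 2 * u + (2 * J - 1) * m) := by
        subst hn
        ring
      linarith
    · have e1 : 0 ≤ uB * (u - 2 * m) := mul_nonneg huB (by linarith)
      have e2 : 0 < J * (r + J * m - J * u) := by
        have e3 : 0 < (J - 1) * (J * m - u) := mul_pos (by linarith) (by linarith)
        have e4 : J * (r + J * m - J * u) =
            (J * n - (J ^ 2 - J + 1) * u) + (J - 1) * (J * m - u) := by
          subst hn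
          ring
        rw [e4]
        linarith
      have e5 : 0 < r + J * m - J * u := by
        by_contra h7
        push Not at h7
        have := mul_nonpos_of_nonneg_of_nonpos hJ0.le h7
        linarith
      have e6 : 0 < r * (r + J * m - J * u) := mul_pos (by linarith) e5
      nlinarith
  · have e1 : u * r * (u - 2 * m) ≤ uB * n * (u - 2 * m) :=
      mul_le_mul_of_nonpos_right h1.le (by linarith)
    have e2 : 0 ≤ m * ((J - 1) * n - 2 * u) := by
      apply mul_nonneg (by linarith)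
      have e3 : 0 ≤ (J - 3) * n := mul_nonneg (by linarith) hn0.le
      nlinarith
    have e4 : 0 < r * ((n ^ 2 - J * n * u + u ^ 2) + m * ((J - 1) * n - 2 * u)) :=
      mul_pos (by linarith) (by linarith)
    have e5 : n * (r ^ 2 + J * r * m - J * r * u) + u * r * (u - 2 * m) =
        r * ((n ^ 2 - J * n * u + u ^ 2) + m * ((J - 1) * n - 2 * u)) := by
      subst hn
      ring
    have e6 : 0 < n * (r ^ 2 + J * r * m - J * r * u + uB * (u - 2 * m)) := by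
      have e7 : n * (r ^ 2 + J * r * m - J * r * u + uB * (u - 2 * m)) =
          n * (r ^ 2 + J * r * m - J * r * u) + uB * n * (u - 2 * m) := by ring
      rw [e7]
      linarith
    by_contra h7
    push Not at h7
    have := mul_nonpos_of_nonneg_of_nonpos hn0.le h7
    linarith

end Pool.Agent.MP_09eaec.GG
end
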