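import Pool.Agent.Lib.MP_09eaec_ag.Mg.G037
import Pool.Agent.Lib.MP_09eaec_ag.Mg.G038
import Pool.Agent.Lib.MP_09eaec_ag.HE.MainHE
import Pool.Agent.Lib.MP_09eaec_ag.Mg.G040
import Pool.Agent.Lib.MP_09eaec_ag.Mg.G011
import Pool.Agent.Lib.MP_09eaec_ag.Mg.G041

section

/-!
# The ramps
-/

set_option autoImplicit false

namespace Pool.Agent.MP_09eaec.GG

open Module

universe u v

variable {k : Type u} {K : Type v} [Field k] [Field K] [Algebra k K]

/-- In the ramps the Tits form is at most one. -/
theorem ramp_tits {g j n v : ℤ} (hj : 2 ≤ j) (hjg : j + 2 ≤ g) (hv : 1 ≤ v)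
    (hgv : g * v ≤ j * n) : n ^ 2 + (j * n + v) ^ 2 ≤ (j + 1) * n * (j * n + v) + 1 := by
  have hg : 0 < g := by omega
  have hn : 0 < n := by
    by_contra hcon
    have h1 : j * n ≤ 0 := mul_nonpos_of_nonneg_of_nonpos (by omega) (by omega)
    have h2 : 0 < g * v := mul_pos hg (by omega)
    linarith
  -- `v² ≤ (j - 1) n (n - v)`
  have h1 : g * (g * v) ≤ g * (j * n) := mul_le_mul_of_nonneg_left hgv hg.le
  have h2 : v * (g * v) ≤ v * (j * n) := mul_le_mul_of_nonneg_left hgv (by omega)
  -- `g v² ≤ j n v` and `g (n - v) ≥ (g - j) n`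
  have h3 : (g - j) * n ≤ g * (n - v) := by linarith
  have h4 : (j - 1) * n * ((g - j) * n) ≤ (j - 1) * n * (g * (n - v)) :=
    mul_le_mul_of_nonneg_left h3 (mul_nonneg (by omega) hn.le)
  -- `g · j n v ≤ j² n²`
  have h5 : j * n * (g * v) ≤ j * n * (j * n) :=
    mul_le_mul_of_nonneg_left hgv (mul_nonneg (by omega) hn.le)
  -- `j² ≤ g (j - 1) (g - j)`
  have h6 : j ^ 2 ≤ g * ((j - 1) * (g - j)) := by
    have h7 : (j + 2) * ((j - 1) * 2) ≤ g * ((j - 1) * (g - j)) := by
      apply mul_le_mul (by omega) _ (by nlinarith) hg.le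
      exact mul_le_mul_of_nonneg_left (by omega) (by omega)
    nlinarith
  have h8 : j ^ 2 * n ^ 2 ≤ g * ((j - 1) * (g - j)) * n ^ 2 :=
    mul_le_mul_of_nonneg_right h6 (sq_nonneg n)
  have h9 : g * (g * v ^ 2) ≤ g * (g * ((j - 1) * n * (n - v))) := by
    have h10 : g * (g * v ^ 2) ≤ j ^ 2 * n ^ 2 := by
      have := mul_le_mul_of_nonneg_left h2 hg.le
      nlinarith
    have h11 : g * ((j - 1) * (g - j)) * n ^ 2 ≤ g * (g * ((j - 1) * n * (n - v))) := by
      have := mul_le_mul_of_nonneg_left h4 hg.le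
      nlinarith
    linarith
  have h12 := le_of_mul_le_mul_left h9 hg
  have h13 := le_of_mul_le_mul_left h12 hg
  nlinarith

/-- The minimal degree in the ramps. -/
theorem he_ramp_all [CurveG k K] {H : Dv k K} {x y : K} (hp : Pencil H x y) {n j v : ℕ}
    {a T : ℤ} (hj : 1 ≤ j) (hjg : (j : ℤ) + 2 ≤ gen k K) (hv : 1 ≤ v)
    (hgv : gen k K * v < j * n) (ha : j * (a - 1) < v) (ha' : v ≤ j * a)
    (hT : v * (T + gen k K * (a - 1)) < (a - 1) * j * n)
    (hT' : (a - 1) * j * n ≤ v * (T + 1 + gen k K * (a - 1)))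
    (hB : ∀ (a' w : ℕ) (δ : ℤ), 2 ≤ a' → 1 ≤ w → (w : ℤ) ≤ gen k K - 2 → 1 ≤ δ →
      (n : ℤ) = δ + gen k K * a' - w →
      ∃ E : VB k K (Fin n → K), E.Stable ∧ E.deg = n * (2 * gen k K - 2) - δ ∧
        (gen k K - 1) * ((n : ℤ) + a') - w ≤ E.h0) :
    IsLeast (stableDegrees k K n (j * n + v))
      (2 * j * n - max 0 (max (n - gen k K * a + (j * a - v)) T)) := by
  have hg2 := CurveG.two_le (k := k) (K := K)
  have hvn : v < n := by
    have h1 : (j : ℤ) * v ≤ gen k K * v := mul_le_mul_of_nonneg_right (by omega) (by positivity)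
    have h2 : (j : ℤ) * v < j * n := by linarith
    exact_mod_cast lt_of_mul_lt_mul_left h2 (by positivity)
  have hn1 : 1 ≤ n := by omega
  have hj0 : (0 : ℤ) < j := by exact_mod_cast hj
  have ha0 : 1 ≤ a := by
    by_contra hcon
    have : (j : ℤ) * a ≤ 0 := mul_nonpos_of_nonneg_of_nonpos hj0.le (by omega)
    omega
  refine ⟨?_, ?_⟩
  · -- existence
    by_cases hvj : v ≤ j
    · have ha1 : a = 1 := by
        by_contra hcon
        have h1 : (j : ℤ) * 1 ≤ j * (a - 1) := mul_le_mul_of_nonneg_left (by omega) hj0.le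
        omega
      subst ha1
      have hT0 : T < 0 := by
        simp only [sub_self, mul_zero, add_zero, zero_mul] at hT
        by_contra hcon
        have : 0 ≤ (v : ℤ) * T := mul_nonneg (by positivity) (by omega)
        omega
      have h1 := (he_small hp (j := j) (by omega) hv hvj hvn).1
      have e : (2 * j * n - max 0 (max (n - gen k K * 1 + (j * 1 - v)) T) : ℤ) =
          min (2 * j * n : ℤ) ((2 * j - 1) * n + v + (gen k K - j)) := by
        have e2 : ((2 * j - 1) * n + v + (gen k K - j) : ℤ) =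
            2 * j * n - (n - gen k K * 1 + (j * 1 - v)) := by ring
        rw [e2]
        omega
      rw [e]
      exact h1
    push Not at hvj
    have ha2 : 2 ≤ a := by
      by_contra hcon
      have h1 : a = 1 := by omega
      rw [h1] at ha'
      omega
    obtain ⟨a', rfl⟩ : ∃ a' : ℕ, a = a' := ⟨a.toNat, (Int.toNat_of_nonneg (by omega)).symm⟩
    obtain ⟨w, hw⟩ : ∃ w : ℕ, (w : ℤ) = j * a' - v :=
      ⟨(j * a' - v : ℤ).toNat, Int.toNat_of_nonneg (by omega)⟩
    have hwj : (w : ℤ) < j := by rw [hw]; linarith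
    rcases le_or_gt T (n - gen k K * a' + (j * a' - v)) with hc | hc
    · rcases le_or_gt ((n : ℤ) - gen k K * a' + (j * a' - v)) 0 with hc2 | hc2
      · -- degree `2 j n`
        have hj2 : 2 ≤ j := by
          by_contra hcon
          have h1 : j = 1 := by omega
          subst h1
          have h2 : (a' : ℤ) = v := by push_cast at ha ha'; omega
          rw [h2] at hc2
          push_cast at hgv hc2
          linarith
        have h1 := upper_plateau hp (n := n) (d := j * n + v) (j := j) hn1 hj (by omega)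
          (by omega) (by rw [add_mul, one_mul]; omega) (by
            have := ramp_tits (g := gen k K) (j := j) (n := n) (v := v) (by exact_mod_cast hj2)
              hjg (by exact_mod_cast hv) hgv.le
            push_cast
            exact this)
        rw [max_eq_left (a := (0 : ℤ)) (by omega), sub_zero]
        exact h1
      · -- the second value
        obtain ⟨δ, hδ⟩ : ∃ δ : ℤ, δ = n - gen k K * a' + (j * a' - v) := ⟨_, rfl⟩
        rw [← hδ] at hc hc2
        rw [← hδ, max_eq_left hc, max_eq_right hc2.le]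
        rcases Nat.eq_zero_or_pos w with hw0 | hw0
        · have h1 : v = j * a' := by
            have : (v : ℤ) = j * a' := by rw [hw0] at hw; push_cast at hw; linarith
            exact_mod_cast this
          rw [h1]
          refine ramp_second_mult hp (by omega) (by omega) (by omega) ?_
          rw [hδ, h1]; push_cast; ring
        · refine ramp_second_bgn hp (a := a') (w := w) (by omega) hn1 ?_ ?_ ?_ ?_
          · rw [hδ]
            have h1 : (0 : ℤ) < (gen k K - j) * a' := mul_pos (by omega) (by omega)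
            have h2 : (0 : ℤ) < v := by exact_mod_cast hv
            linarith
          · have : (v : ℤ) + w = j * a' := by rw [hw]; ring
            exact_mod_cast this
          · rw [hδ, hw]; ring
          · exact hB a' w δ (by omega) hw0 (by omega) (by omega) (by rw [hδ, hw]; ring)
    · -- the third value
      rcases le_or_gt T 0 with hc2 | hc2
      · -- degree `2 j n`
        have hj2 : 2 ≤ j := by
          by_contra hcon
          have h1 : j = 1 := by omega
          subst h1
          have h2 : (a' : ℤ) = v := by push_cast at ha ha'; omega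
          rw [h2] at hc
          push_cast at hgv hc
          linarith
        have h1 := upper_plateau hp (n := n) (d := j * n + v) (j := j) hn1 hj (by omega)
          (by omega) (by rw [add_mul, one_mul]; omega) (by
            have := ramp_tits (g := gen k K) (j := j) (n := n) (v := v) (by exact_mod_cast hj2)
              hjg (by exact_mod_cast hv) hgv.le
            push_cast
            exact this)
        rw [max_eq_left (a := (0 : ℤ)) (by omega), sub_zero]
        exact h1
      · rw [max_eq_right (a := (n - gen k K * a' + (j * a' - v) : ℤ)) hc.le,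
          max_eq_right hc2.le]
        have hj2 : 2 ≤ j := by
          by_contra hcon
          have h1 : j = 1 := by omega
          subst h1
          have h2 : (a' : ℤ) = v := by push_cast at ha ha'; omega
          rw [h2] at hc hT
          push_cast at hgv hc hT
          have h3 : (v : ℤ) * (n - gen k K * v + 1 + gen k K * (v - 1)) ≤
              v * (T + gen k K * (v - 1)) :=
            mul_le_mul_of_nonneg_left (by linarith) (by positivity)
          have h4 : (0 : ℤ) < v := by exact_mod_cast hv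
          nlinarith
        obtain ⟨i, hi⟩ : ∃ i : ℕ, a' = i + 1 := ⟨a' - 1, by omega⟩
        have hi1 : 1 ≤ i := by omega
        have hi' : (a' : ℤ) - 1 = i := by rw [hi]; push_cast; ring
        rw [hi'] at hT hT' ha
        obtain ⟨v', hv'⟩ : ∃ v' : ℕ, v = j * i + v' := ⟨v - j * i, by
          have : j * i < v := by exact_mod_cast ha
          omega⟩
        obtain ⟨r, hr⟩ : ∃ r : ℕ, (r : ℤ) = T + gen k K * i :=
          ⟨(T + gen k K * i : ℤ).toNat, Int.toNat_of_nonneg (by positivity)⟩
        rw [← hr] at hT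
        have hrn : r < n := by
          have h1 : (v : ℤ) * r < v * n := by
            refine hT.trans_le ?_
            have : (i : ℤ) * j ≤ v := by rw [mul_comm]; exact ha.le
            exact mul_le_mul_of_nonneg_right this (by positivity)
          exact_mod_cast lt_of_mul_lt_mul_left h1 (by positivity)
        obtain ⟨m, hm⟩ : ∃ m : ℕ, n = m + r := ⟨n - r, by omega⟩
        have h1 := ramp_third hp (j := j) (m := m) (r := r) (i := i) (v' := v') (δ := T) hj2 hjg
          hi1 (by
            have : j * i < v := by exact_mod_cast ha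
            omega) (by
            have h2 : (v : ℤ) ≤ j * (i + 1) := by rw [← hi']; linarith
            have h3 : v ≤ j * (i + 1) := by exact_mod_cast h2
            rw [mul_add, mul_one] at h3
            omega) (by omega) hr (by
            have h2 : v * r < i * j * n := by exact_mod_cast hT
            rw [hm, hv'] at h2
            have e1 : (j * i + v') * r = j * i * r + v' * r := by ring
            have e2 : i * j * (m + r) = j * i * m + j * i * r := by ring
            omega) (by
            have h2 : ((n : ℕ) : ℤ) = m + r := by rw [hm]; push_cast; ring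
            have h3 : ((v : ℕ) : ℤ) = j * i + v' := by rw [hv']; push_cast; ring
            have h4 : (a' : ℤ) = i + 1 := by linarith
            rw [h2, h3, h4, hr] at hc
            linarith)
        rw [hm, hv']
        have e : (2 * j * ((m + r : ℕ) : ℤ) - T : ℤ) = 2 * j * (m + r) - T := by push_cast; ring
        rw [e]
        exact h1
  · -- the lower bound
    intro e he
    by_contra hcon
    push Not at hcon
    have he0 : e < 2 * j * n := by omega
    obtain ⟨E, V, α, hα, hV, hfV, hdE, hst⟩ := of_mem_stableDegrees he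
    have hfr : finrank K (Fin n → K) = n := Module.finrank_fin_fun K
    have h1 := ramp_lower_sys hp hV hα (by rw [hfr]; exact hn1) hst (j := (j : ℤ)) (v := (v : ℤ))
      (a := a) (by exact_mod_cast hj) (by omega) (by rw [hfV, hfr]; push_cast; ring)
      (by exact_mod_cast hv) (by rw [hfr]; exact_mod_cast hvn.le) ha ha'
      (by rw [hfr]; exact hgv.le) (by rw [hfr, hdE]; exact he0)
    rw [hfr, hdE] at h1
    rcases h1 with h1 | h1
    · have h2 : 2 * j * n - e ≤ n - gen k K * a + (j * a - v) := by linarith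
      omega
    · have h2 : (v : ℤ) * (2 * j * n - e + gen k K * (a - 1)) <
          v * (T + 1 + gen k K * (a - 1)) := h1.trans_le hT'
      have h3 := lt_of_mul_lt_mul_left h2 (by positivity)
      omega

end Pool.Agent.MP_09eaec.GG
end

section

/-!
# The minimal degree of stable coherent systems on hyperelliptic curves, all ranks
-/

set_option autoImplicit false

namespace Pool.Agent.MP_09eaec.GG

open Module

universe u v

variable {k : Type u} {K : Type v} [Field k] [Field K] [Algebra k K]

/-- The ramps. -/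
theorem he_ramp [CurveG k K] {H : Dv k K} {x y : K} (hp : Pencil H x y) {n j v : ℕ}
    {a T : ℤ} (hj : 1 ≤ j) (hjg : (j : ℤ) + 2 ≤ gen k K) (hv : 1 ≤ v)
    (hgv : gen k K * v < j * n) (ha : j * (a - 1) < v) (ha' : v ≤ j * a)
    (hT : v * (T + gen k K * (a - 1)) < (a - 1) * j * n)
    (hT' : (a - 1) * j * n ≤ v * (T + 1 + gen k K * (a - 1))) :
    IsLeast (stableDegrees k K n (j * n + v))
      (2 * j * n - max 0 (max (n - gen k K * a + (j * a - v)) T)) :=
  he_ramp_all hp hj hjg hv hgv ha ha' hT hT' fun a' w δ h1 h2 h3 h4 h5 =>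
    BG.exists_bgn (by omega) h1 h2 h3 h4 (by rw [h5])

/-- On the plateaus and above them: lower bounds. -/
theorem he_bounds [CurveG k K] {H : Dv k K} {x y : K} (hp : Pencil H x y) {n d j v u : ℕ}
    (hn : 2 ≤ n) (hj : 1 ≤ j) (hjg : (j : ℤ) + 2 ≤ gen k K) (hd : d = j * n + v)
    (hv : 1 ≤ v) (hu : u + v = n) {e : ℤ} (he : e ∈ stableDegrees k K n d) :
    ((j : ℤ) * n ≤ gen k K * v → 2 * j * n ≤ e) ∧
    (1 < (v : ℤ) ^ 2 - (j - 1) * n * u →
      ((j : ℤ) * n < (gen k K - 1) * v ∨ 2 ≤ j ∧ (j : ℤ) + 3 ≤ gen k K) →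
      2 * j * n + 1 ≤ e) := by
  have hd' : (d : ℤ) = j * n + v := by exact_mod_cast hd
  have hu' : (u : ℤ) = n - v := by omega
  have hq : (n : ℤ) ^ 2 + (d : ℤ) ^ 2 - (j + 1) * n * d = (v : ℤ) ^ 2 - (j - 1) * n * u := by
    rw [hd', hu']; ring
  refine ⟨fun h => ?_, fun h h' => ?_⟩
  · refine hy_plateau_lower hp (by omega) hj (by omega) ?_ he
    rw [hd']
    linarith
  · have hq' : (j + 1) * n * d + 1 < (n : ℤ) ^ 2 + (d : ℤ) ^ 2 := by linarith
    refine hy_top_lower hp (by omega) hj hjg ?_ hq' he
    rcases h' with h' | ⟨h1, h2⟩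
    · rw [hd']; linarith
    · exact hy_num h1 h2 (by omega) hq'

/-- Degree `2 j n + 1`. -/
theorem he_upper_one [CurveG k K] {H : Dv k K} {x y : K} (hp : Pencil H x y) {n d j u : ℕ}
    (hn : 2 ≤ n) (hjg : (j : ℤ) + 2 ≤ gen k K) (hd : d + u = (j + 1) * n)
    (hu : 1 ≤ u)
    (h : (n : ℤ) - 1 ≤ gen k K * ((u / (j + 1) : ℕ) : ℤ) ∨ (u ≤ j + 1 ∧ n ≤ (j + 1) * u)) :
    (2 * j * n + 1 : ℤ) ∈ stableDegrees k K n d := by
  have hg2 := CurveG.two_le (k := k) (K := K)
  rcases h with h | ⟨h1, h2⟩
  · obtain ⟨c0, hc0⟩ : ∃ c0 : ℕ, c0 = u / (j + 1) := ⟨_, rfl⟩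
    rw [← hc0] at h
    have h1 : 1 ≤ c0 := by
      by_contra hcon
      have : c0 = 0 := by omega
      rw [this] at h
      simp at h
      omega
    have h2 : c0 * (j + 1) ≤ u := by rw [hc0]; exact Nat.div_mul_le_self u (j + 1)
    by_cases h3 : c0 ≤ n
    · refine upper_top hp (c := n - c0) (by omega) ?_ ?_
      · rw [Nat.cast_sub h3]
        linarith
      · have h4 : (j + 1) * (n - c0) + c0 * (j + 1) = (j + 1) * n := by
          rw [mul_comm c0, ← mul_add, Nat.sub_add_cancel h3]
        omega
    · refine upper_top hp (c := 0) (by omega) ?_ ?_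
      · have : 0 ≤ (gen k K - 1) * (n : ℤ) := mul_nonneg (by omega) (by positivity)
        simp only [Nat.cast_zero, mul_zero]
        omega
      · have h4 : (j + 1) * n ≤ c0 * (j + 1) := by
          rw [mul_comm c0]; exact Nat.mul_le_mul_left _ (by omega)
        omega
  · exact he_upper_F0 hp (by omega) (by omega) hu h1 h2 hd

end Pool.Agent.MP_09eaec.GG
end

section

/-!
# TASK DHom: a map of sections which comes from a map of bundles

`f` is `k`-linear, maps sections of `O((j+1)H)^r` to sections of `E(H)`, and `y f(x w) = x f(y w)` for the sections `w` of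
`O(jH)^r`. CLAIM: there is a `K`-linear `φ` with `f b = φ b` on the sections of `O((j+1)H)^r`, which maps `O(jH)^r` to `E`.
PROOF. `e_i = Pi.single i 1`. For `a ≤ j`, `w = (x^a y^(j-a)) e_i` (in `(pw (jH) r).H0`, `pow_mem_smul`) gives
`y f(x^(a+1) y^(j-a) e_i) = x f(x^a y^(j+1-a) e_i)`. Put `θ_i = x^(-(j+1)) f(x^(j+1) e_i)`. By (downward) induction
`f(x^a y^(j+1-a) e_i) = x^a y^(j+1-a) θ_i` for all `a ≤ j + 1`. `φ z = ∑ z_i θ_i`. By `mono_span` (`j + 1 ≤ gen - 1`) and
`k`-linearity `f(s e_i) = s θ_i` for all `s` in `(line ((j+1)H)).H0`; `b = ∑ b_i e_i` gives `f b = φ b`.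
Bundles: at `P` one of `x`, `y` has order `-H P` (`hp.base`); call it `t`; `t^(j+1) θ_i = f(t^(j+1) e_i)` is in
`(E.twist H).M P`, so for `z_i ∈ P.filt (-(jH) P)`: `z_i θ_i = (z_i t^(-(j+1))) (t^(j+1) θ_i)` with
`z_i t^(-(j+1)) ∈ P.filt (- j H P + (j+1) H P) = P.filt (H P)`, so it is in `E.M P` (`VB.mem_twist`).
-/

set_option autoImplicit false

namespace Pool.Agent.MP_09eaec.GG

open Module

universe u v

variable {k : Type u} {K : Type v} [Field k] [Field K] [Algebra k K]
variable {W : Type v} [AddCommGroup W] [Module K W] [Module k W] [IsScalarTower k K W]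

variable [CurveG k K]

theorem dhom {H : Dv k K} {x y : K} (hp : Pencil H x y) {E : VB k K W} {j r : ℕ}
    (hj : (j : ℤ) + 1 ≤ gen k K - 1) (f : (Fin r → K) →ₗ[k] W)
    (hf : ∀ b ∈ (pw (((j + 1 : ℕ) : ℤ) • H) r).H0, f b ∈ (E.twist H).H0)
    (hrel : ∀ w ∈ (pw ((j : ℤ) • H) r).H0, y • f (x • w) = x • f (y • w)) :
    ∃ φ : (Fin r → K) →ₗ[K] W, (∀ b ∈ (pw (((j + 1 : ℕ) : ℤ) • H) r).H0, f b = φ b) ∧
      ∀ (P : Place k K) (z : Fin r → K), z ∈ (pw ((j : ℤ) • H) r).M P → φ z ∈ E.M P := by
  have hx0 := hp.x_ne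
  have hy0 := hp.y_ne
  -- sections
  have hsec : ∀ (m : ℕ) (i : Fin r) (s : K), s ∈ (line ((m : ℤ) • H)).H0 →
      (Pi.single i s : Fin r → K) ∈ (pw ((m : ℤ) • H) r).H0 := by
    intro m i s hs
    rw [VB.mem_H0]
    intro P
    rw [mem_pw]
    intro l
    by_cases hl : l = i
    · subst hl
      rw [Pi.single_eq_same]
      exact VB.mem_H0.1 hs P
    · rw [Pi.single_eq_of_ne hl]
      exact zero_mem _
  let θ : Fin r → W := fun i => (x ^ (j + 1))⁻¹ • f (Pi.single i (x ^ (j + 1)))
  have hstep : ∀ (i : Fin r) (a : ℕ), a ≤ j →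
      f (Pi.single i (x ^ a * y ^ (j + 1 - a))) =
        (x⁻¹ * y) • f (Pi.single i (x ^ (a + 1) * y ^ (j + 1 - (a + 1)))) := by
    intro i a ha
    have h1 := pow_mem_smul hp a (j - a)
    have e1 : a + (j - a) = j := by omega
    rw [e1] at h1
    have h2 := hrel _ (hsec j i _ h1)
    have e2 : x • (Pi.single i (x ^ a * y ^ (j - a)) : Fin r → K) =
        Pi.single i (x ^ (a + 1) * y ^ (j + 1 - (a + 1))) := by
      rw [← Pi.single_smul', smul_eq_mul]
      congr 1
      have : j + 1 - (a + 1) = j - a := by omega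
      rw [this]
      ring
    have e3 : y • (Pi.single i (x ^ a * y ^ (j - a)) : Fin r → K) =
        Pi.single i (x ^ a * y ^ (j + 1 - a)) := by
      rw [← Pi.single_smul', smul_eq_mul]
      congr 1
      have : j + 1 - a = (j - a) + 1 := by omega
      rw [this]
      ring
    rw [e2, e3] at h2
    rw [mul_smul, h2, smul_smul, inv_mul_cancel₀ hx0, one_smul]
  have hmon : ∀ (i : Fin r) (b : ℕ), b ≤ j + 1 →
      f (Pi.single i (x ^ (j + 1 - b) * y ^ (j + 1 - (j + 1 - b)))) =
        (x ^ (j + 1 - b) * y ^ (j + 1 - (j + 1 - b))) • θ i := by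
    intro i b
    induction b with
    | zero =>
      intro _
      have e1 : j + 1 - 0 = j + 1 := by omega
      have e2 : j + 1 - (j + 1) = 0 := by omega
      rw [e1, e2, pow_zero, mul_one]
      show _ = x ^ (j + 1) • ((x ^ (j + 1))⁻¹ • f (Pi.single i (x ^ (j + 1))))
      rw [smul_smul, mul_inv_cancel₀ (pow_ne_zero _ hx0), one_smul]
    | succ b ih =>
      intro hb
      have h1 := hstep i (j + 1 - (b + 1)) (by omega)
      have e1 : j + 1 - (b + 1) + 1 = j + 1 - b := by omega
      rw [e1] at h1
      rw [h1, ih (by omega), smul_smul]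
      congr 1
      have e2 : j + 1 - (j + 1 - (b + 1)) = j + 1 - (j + 1 - b) + 1 := by omega
      rw [e2, ← e1, pow_succ x, pow_succ y]
      field_simp
  have hmon' : ∀ (i : Fin r) (a : ℕ), a ≤ j + 1 →
      f (Pi.single i (x ^ a * y ^ (j + 1 - a))) = (x ^ a * y ^ (j + 1 - a)) • θ i := by
    intro i a ha
    have h1 := hmon i (j + 1 - a) (by omega)
    have e1 : j + 1 - (j + 1 - a) = a := by omega
    rw [e1] at h1
    exact h1
  have hline : ∀ (i : Fin r) (s : K), s ∈ (line (((j + 1 : ℕ) : ℤ) • H)).H0 →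
      f (Pi.single i s) = s • θ i := by
    intro i s hs
    have h1 := mono_span hp (m := j + 1) (by push_cast; exact hj) hs
    clear hs
    induction h1 using Submodule.span_induction with
    | mem s h =>
      obtain ⟨a, rfl⟩ := h
      exact hmon' i a (Nat.lt_succ_iff.1 a.2)
    | zero => rw [Pi.single_zero, map_zero, zero_smul]
    | add s t _ _ h1 h2 => rw [Pi.single_add, map_add, h1, h2, add_smul]
    | smul c s _ h1 =>
      rw [Pi.single_smul', map_smul, h1, smul_assoc]
  refine ⟨Fintype.linearCombination K θ, fun b hb => ?_, fun P z hz => ?_⟩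
  · rw [Fintype.linearCombination_apply]
    conv_lhs => rw [← Finset.univ_sum_single b, map_sum]
    refine Finset.sum_congr rfl fun i _ => hline i _ ?_
    rw [VB.mem_H0]
    intro P
    exact VB.mem_H0.1 hb P i
  · rw [Fintype.linearCombination_apply]
    refine Submodule.sum_mem _ fun i _ => ?_
    have key : ∀ t : K, t ≠ 0 → P.ord t = -H P → f (Pi.single i (t ^ (j + 1))) = t ^ (j + 1) • θ i →
        t ^ (j + 1) ∈ (line (((j + 1 : ℕ) : ℤ) • H)).H0 → z i • θ i ∈ E.M P := by
      intro t ht htP h1 h2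
      have h3 := VB.mem_H0.1 (hf _ (hsec (j + 1) i _ h2)) P
      rw [h1, VB.mem_twist] at h3
      have h4 : z i * (t ^ (j + 1))⁻¹ ∈ P.filt (H P) := by
        have h5 := mul_mem_filt P (hz i)
          (Or.inr (P.ord_inv (t ^ (j + 1))).ge : (t ^ (j + 1))⁻¹ ∈ P.filt (-P.ord (t ^ (j + 1))))
        have h6 : P.ord (t ^ (j + 1)) = ((j + 1 : ℕ) : ℤ) * P.ord t := by
          have h7 := P.ord_zpow ht ((j + 1 : ℕ) : ℤ)
          rw [zpow_natCast] at h7
          exact h7
        rw [h6, htP, Finsupp.smul_apply, smul_eq_mul] at h5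
        have e : -((j : ℤ) * H P) + -(((j + 1 : ℕ) : ℤ) * -H P) = H P := by
          push_cast
          ring
        rw [e] at h5
        exact h5
      have h5 := h3 _ h4
      rwa [smul_smul, mul_assoc, inv_mul_cancel₀ (pow_ne_zero _ ht), mul_one] at h5
    rcases hp.base P with h | h
    · refine key x hx0 h ?_ ?_
      · have h1 := hmon' i (j + 1) le_rfl
        rw [Nat.sub_self, pow_zero, mul_one] at h1
        exact h1
      · have h1 := pow_mem_smul hp (j + 1) 0
        rw [pow_zero, mul_one, add_zero] at h1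
        exact h1
    · refine key y hy0 h ?_ ?_
      · have h1 := hmon' i 0 (Nat.zero_le _)
        rw [Nat.sub_zero, pow_zero, one_mul] at h1
        exact h1
      · have h1 := pow_mem_smul hp 0 (j + 1)
        rw [pow_zero, one_mul, zero_add] at h1
        exact h1

end Pool.Agent.MP_09eaec.GG
end
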