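import Pool.Agent.Lib.MP_09eaec_ag.Mg.G041
import Pool.Agent.Lib.MP_09eaec_ag.Mg.G019
import Pool.Agent.Lib.MP_09eaec_ag.Mg.G018
import Pool.Agent.Lib.MP_09eaec_ag.HE.DDeg
import Pool.Agent.Lib.MP_09eaec_ag.Mg.G035
import Pool.Agent.Lib.MP_09eaec_ag.Mg.G003

section

/-!
# TASK DFun: functionals on the sections of `O((j+1)H)^r`

`S_i = (line (iH)).H0`, dimension `i + 1` for `i ≤ gen - 1` (`h0_smul`), spanned by monomials (`mono_span`).
`constL k K r c = (algebraMap k K (c i))_i` (Space.lean). `(pw D r).H0` is the space of the `b : Fin r → K` with all `b i` in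
`(line D).H0`, dimension `r * (line D).h0`.
* `dfun_codim`: `DU` is the kernel of the `j + 2` functionals `c ↦ ε (s_l • constL c)`, `s_l` the monomials of degree `j + 1`.
* `dfun_M1`: `M0 = (pw (jH) r).H0`, dimension `(j+1) r`. `DM` is the kernel of `(fx, fy) : M0 → k²`, `fx v = ε (x • v)`,
  `fy v = ε (y • v)`. If `(fx, fy)` is onto: dimension `(j+1) r - 2`. Otherwise there is `(a, c) ≠ 0` with `a fx + c fy = 0` on `M0`;
  `l = a x + c y ≠ 0` (`hp.li`); `ε (l s e) = 0` for `s ∈ S_j` and constant vectors `e` (`s e ∈ M0`); `l S_j ≤ S_(j+1)` has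
  codimension one, so `S_(j+1) = l S_j + k s*`, and `DU` contains the `e` with `ε (s* e) = 0`: codimension `≤ 1`. And `fx = fy = 0` is
  impossible: every `b` in `(pw ((j+1)H) r).H0` is a sum of `x v` and `y v`, `v ∈ M0` (its coordinates are combinations of
  monomials), so `ε b = 0`, against `hε`. So `dim DM ≤ (j+1) r - 1`.
* `dfun_sub`: `c_1, …, c_d` a basis of `DU`; the map `(Fin d → S_j) → K^r`, `(s_i) ↦ ∑ s_i • constL c_i` is injective
  (`const_independent`), has values in `M0`, in `KU K DU` (`KU` is the `K`-span of the constants) and in `DM`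
  (`ε (x s_i c_i) = 0` since `x s_i ∈ S_(j+1)`).
-/

set_option autoImplicit false

namespace Pool.Agent.MP_09eaec.GG

open Module

universe u v

variable {k : Type u} {K : Type v} [Field k] [Field K] [Algebra k K]

variable [CurveG k K]

/-- The constant vectors `c` with `ε (s c) = 0` for all sections `s` of `(j + 1) H`. -/
def DU (H : Dv k K) (j : ℕ) {r : ℕ} (ε : (Fin r → K) →ₗ[k] k) : Submodule k (Fin r → k) where
  carrier := {c | ∀ s ∈ (line (((j + 1 : ℕ) : ℤ) • H)).H0, ε (s • constL k K r c) = 0}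
  add_mem' := by
    intro a b ha hb s hs
    rw [map_add, smul_add, map_add, ha s hs, hb s hs, add_zero]
  zero_mem' := by
    intro s _
    rw [map_zero, smul_zero, map_zero]
  smul_mem' := by
    intro t a ha s hs
    rw [map_smul (constL k K r) t a, smul_comm s t, map_smul ε, ha s hs, smul_zero]

/-- The sections `v` of `O(jH)^r` with `ε (x v) = ε (y v) = 0`. -/
def DM (H : Dv k K) (x y : K) (j : ℕ) {r : ℕ} (ε : (Fin r → K) →ₗ[k] k) :
    Submodule k (Fin r → K) where
  carrier := {v | v ∈ (pw ((j : ℤ) • H) r).H0 ∧ ε (x • v) = 0 ∧ ε (y • v) = 0}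
  add_mem' := by
    rintro a b ⟨h1, h2, h3⟩ ⟨h4, h5, h6⟩
    refine ⟨add_mem h1 h4, ?_, ?_⟩
    · rw [smul_add, map_add, h2, h5, add_zero]
    · rw [smul_add, map_add, h3, h6, add_zero]
  zero_mem' := by
    refine ⟨zero_mem _, ?_, ?_⟩ <;> rw [smul_zero, map_zero]
  smul_mem' := by
    rintro t a ⟨h1, h2, h3⟩
    refine ⟨Submodule.smul_mem _ t h1, ?_, ?_⟩
    · rw [smul_comm x t, map_smul ε, h2, smul_zero]
    · rw [smul_comm y t, map_smul ε, h3, smul_zero]

private lemma DFun_mono_mem {H : Dv k K} {x y : K} (hp : Pencil H x y) {m : ℕ} (a : Fin (m + 1)) :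
    x ^ (a : ℕ) * y ^ (m - (a : ℕ)) ∈ (line ((m : ℤ) • H)).H0 := by
  have h := pow_mem_smul hp (a : ℕ) (m - (a : ℕ))
  have e : (a : ℕ) + (m - (a : ℕ)) = m := by
    have := a.isLt
    omega
  rwa [e] at h

private lemma DFun_fr {H : Dv k K} {x y : K} (hp : Pencil H x y) {m : ℕ}
    (hm : (m : ℤ) ≤ gen k K - 1) : finrank k (line ((m : ℤ) • H)).H0 = m + 1 := by
  have h := h0_smul hp (s := (m : ℤ)) (by omega) hm
  unfold VB.h0 at h
  exact_mod_cast h

private lemma DFun_mul {H : Dv k K} {z : K} (hz : z ∈ (line H).H0) {j : ℕ} {s : K}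
    (hs : s ∈ (line ((j : ℤ) • H)).H0) : z * s ∈ (line (((j + 1 : ℕ) : ℤ) • H)).H0 := by
  rw [VB.mem_H0]
  intro P
  have h1 := VB.mem_H0.1 hz P
  have h2 := VB.mem_H0.1 hs P
  rw [mem_line] at h1 h2 ⊢
  have h3 := mul_mem_filt P h1 h2
  have e : -(((j + 1 : ℕ) : ℤ) • H) P = -H P + -((j : ℤ) • H) P := by
    rw [Finsupp.smul_apply, Finsupp.smul_apply, smul_eq_mul, smul_eq_mul]
    push_cast
    ring
  rw [e]
  exact h3

private lemma DFun_const {D : Dv k K} {r : ℕ} {s : K} (hs : s ∈ (line D).H0) (c : Fin r → k) :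
    s • constL k K r c ∈ (pw D r).H0 := by
  rw [VB.mem_H0]
  intro P
  rw [mem_pw]
  intro i
  rw [Pi.smul_apply, constL_apply, smul_eq_mul, mul_comm, ← Algebra.smul_def]
  exact (P.filt (-D P)).smul_mem _ (mem_line.1 (VB.mem_H0.1 hs P))

private lemma DFun_split {H : Dv k K} {x y : K} (hp : Pencil H x y) {j : ℕ}
    (hj : (j : ℤ) + 1 ≤ gen k K - 1) {s : K} (hs : s ∈ (line (((j + 1 : ℕ) : ℤ) • H)).H0) :
    ∃ a ∈ (line ((j : ℤ) • H)).H0, ∃ b ∈ (line ((j : ℤ) • H)).H0, s = x * a + y * b := by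
  have hs' := mono_span hp (m := j + 1) (by push_cast; omega) hs
  clear hs
  induction hs' using Submodule.span_induction with
  | mem z hz =>
    obtain ⟨a, rfl⟩ := hz
    rcases Nat.eq_zero_or_pos (a : ℕ) with h0 | h0
    · refine ⟨0, zero_mem _, y ^ j, ?_, ?_⟩
      · have := pow_mem_smul hp 0 j
        rwa [zero_add, pow_zero, one_mul] at this
      · show x ^ (a : ℕ) * y ^ (j + 1 - (a : ℕ)) = _
        rw [h0, Nat.sub_zero, pow_zero, pow_succ]
        ring
    · obtain ⟨b, hb⟩ : ∃ b, (a : ℕ) = b + 1 := ⟨(a : ℕ) - 1, by omega⟩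
      refine ⟨x ^ b * y ^ (j - b), ?_, 0, zero_mem _, ?_⟩
      · have := pow_mem_smul hp b (j - b)
        have e : b + (j - b) = j := by
          have := a.isLt
          omega
        rwa [e] at this
      · show x ^ (a : ℕ) * y ^ (j + 1 - (a : ℕ)) = _
        rw [hb, Nat.add_sub_add_right, pow_succ]
        ring
  | zero => exact ⟨0, zero_mem _, 0, zero_mem _, by simp⟩
  | add z w _ _ hz hw =>
    obtain ⟨a, ha, b, hb, e⟩ := hz
    obtain ⟨c, hc, d, hd, f⟩ := hw
    exact ⟨a + c, add_mem ha hc, b + d, add_mem hb hd, by rw [e, f]; ring⟩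
  | smul t z _ hz =>
    obtain ⟨a, ha, b, hb, e⟩ := hz
    exact ⟨t • a, Submodule.smul_mem _ t ha, t • b, Submodule.smul_mem _ t hb, by
      rw [e, smul_add, mul_smul_comm, mul_smul_comm]⟩

private lemma DFun_pw_mem {D : Dv k K} {r : ℕ} {v : Fin r → K} (h : ∀ i, v i ∈ (line D).H0) :
    v ∈ (pw D r).H0 := by
  rw [VB.mem_H0]
  intro P
  rw [mem_pw]
  intro i
  exact mem_line.1 (VB.mem_H0.1 (h i) P)

private lemma DFun_pw_coord {D : Dv k K} {r : ℕ} {v : Fin r → K} (h : v ∈ (pw D r).H0) (i : Fin r) :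
    v i ∈ (line D).H0 := by
  rw [VB.mem_H0]
  intro P
  exact mem_line.2 (mem_pw.1 (VB.mem_H0.1 h P) i)

theorem dfun_codim {H : Dv k K} {x y : K} (hp : Pencil H x y) {j r : ℕ}
    (hj : (j : ℤ) + 1 ≤ gen k K - 1) (ε : (Fin r → K) →ₗ[k] k) :
    r ≤ finrank k (DU H j ε) + (j + 2) := by
  let Φ : (Fin r → k) →ₗ[k] (Fin (j + 2) → k) :=
    { toFun := fun c a => ε ((x ^ (a : ℕ) * y ^ (j + 1 - (a : ℕ))) • constL k K r c)
      map_add' := fun c d => by
        funext a
        rw [map_add, smul_add, map_add]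
        rfl
      map_smul' := fun t c => by
        funext a
        rw [map_smul (constL k K r), smul_comm _ t, map_smul ε]
        rfl }
  have hk : LinearMap.ker Φ ≤ DU H j ε := by
    intro c hc s hs
    have h1 : ∀ a : Fin (j + 2),
        ε ((x ^ (a : ℕ) * y ^ (j + 1 - (a : ℕ))) • constL k K r c) = 0 :=
      fun a => congrFun (LinearMap.mem_ker.1 hc) a
    have hs' := mono_span hp (m := j + 1) (by push_cast; omega) hs
    clear hs
    induction hs' using Submodule.span_induction with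
    | mem z hz =>
      obtain ⟨a, rfl⟩ := hz
      exact h1 a
    | zero => rw [zero_smul, map_zero]
    | add z w _ _ hz hw => rw [add_smul, map_add, hz, hw, add_zero]
    | smul t z _ hz => rw [smul_assoc, map_smul ε, hz, smul_zero]
  have h2 := LinearMap.finrank_range_add_finrank_ker Φ
  have h3 : finrank k (LinearMap.range Φ) ≤ j + 2 := by
    have := Submodule.finrank_le (LinearMap.range Φ)
    rwa [Module.finrank_fin_fun] at this
  have h4 := Submodule.finrank_mono hk
  rw [Module.finrank_fin_fun] at h2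
  omega

theorem dfun_M1 {H : Dv k K} {x y : K} (hp : Pencil H x y) {j r : ℕ}
    (hj : (j : ℤ) + 1 ≤ gen k K - 1) (ε : (Fin r → K) →ₗ[k] k)
    (hε : ∃ b ∈ (pw (((j + 1 : ℕ) : ℤ) • H) r).H0, ε b ≠ 0) :
    finrank k (DM H x y j ε) + 2 ≤ (j + 1) * r ∨
      finrank k (DM H x y j ε) + 1 ≤ (j + 1) * r ∧ r ≤ finrank k (DU H j ε) + 1 := by
  have hj0 : (j : ℤ) ≤ gen k K - 1 := by omega
  have hM0 : finrank k (pw ((j : ℤ) • H) r).H0 = (j + 1) * r := by
    have h1 := h0_pw ((j : ℤ) • H) r
    unfold VB.h0 at h1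
    rw [DFun_fr hp hj0] at h1
    have h2 : finrank k (pw ((j : ℤ) • H) r).H0 = r * (j + 1) := by exact_mod_cast h1
    rw [h2, mul_comm]
  let fz : K → ((pw ((j : ℤ) • H) r).H0 →ₗ[k] k) := fun z =>
    { toFun := fun v => ε (z • (v : Fin r → K))
      map_add' := fun v w => by
        rw [Submodule.coe_add, smul_add, map_add]
      map_smul' := fun t v => by
        rw [Submodule.coe_smul, smul_comm z t, map_smul ε]
        rfl }
  let f : (pw ((j : ℤ) • H) r).H0 →ₗ[k] (k × k) := (fz x).prod (fz y)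
  have hDM : DM H x y j ε = (LinearMap.ker f).map (pw ((j : ℤ) • H) r).H0.subtype := by
    ext v
    rw [Submodule.mem_map]
    constructor
    · rintro ⟨h1, h2, h3⟩
      exact ⟨⟨v, h1⟩, LinearMap.mem_ker.2 (Prod.ext h2 h3), rfl⟩
    · rintro ⟨w, hw, rfl⟩
      have h1 := LinearMap.mem_ker.1 hw
      exact ⟨w.2, congrArg Prod.fst h1, congrArg Prod.snd h1⟩
  have hDM' : finrank k (DM H x y j ε) = finrank k (LinearMap.ker f) := by
    rw [hDM, Submodule.finrank_map_subtype_eq]
  have hrn := LinearMap.finrank_range_add_finrank_ker f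
  rw [hM0, ← hDM'] at hrn
  by_cases hr : LinearMap.range f = ⊤
  · left
    rw [hr, finrank_top, Module.finrank_prod, Module.finrank_self] at hrn
    omega
  · right
    obtain ⟨φ, hφ0, hφ⟩ := Submodule.exists_le_ker_of_lt_top (LinearMap.range f)
      (lt_top_iff_ne_top.2 hr)
    have hφe : ∀ u w : k, φ (u, w) = u * φ (1, 0) + w * φ (0, 1) := by
      intro u w
      have h1 : ((u, w) : k × k) = u • ((1, 0) : k × k) + w • ((0, 1) : k × k) := by
        ext <;> simp
      rw [h1, map_add, map_smul, map_smul, smul_eq_mul, smul_eq_mul]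
    -- the functionals are not both zero
    have hpos : 0 < finrank k (LinearMap.range f) := by
      rw [Nat.pos_iff_ne_zero]
      intro h0
      have h1 : LinearMap.range f = ⊥ := Submodule.finrank_eq_zero.1 h0
      have h2 : f = 0 := LinearMap.range_eq_bot.1 h1
      obtain ⟨b, hb, hb0⟩ := hε
      have h3 := fun i => DFun_split hp hj (DFun_pw_coord hb i)
      choose v hv w hw e using h3
      apply hb0
      have h4 : b = x • v + y • w := by
        funext i
        rw [e i]
        rfl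
      have h5 := LinearMap.congr_fun h2 ⟨v, DFun_pw_mem hv⟩
      have h6 := LinearMap.congr_fun h2 ⟨w, DFun_pw_mem hw⟩
      have h7 : ε (x • v) = 0 := congrArg Prod.fst h5
      have h8 : ε (y • w) = 0 := congrArg Prod.snd h6
      rw [h4, map_add, h7, h8, add_zero]
    refine ⟨by omega, ?_⟩
    have hl0 : φ (1, 0) • x + φ (0, 1) • y ≠ 0 := by
      intro h0
      obtain ⟨h1, h2⟩ := LinearIndependent.pair_iff.1 hp.li _ _ h0
      apply hφ0
      apply LinearMap.ext
      rintro ⟨u, w⟩
      rw [hφe, h1, h2, mul_zero, mul_zero, add_zero, LinearMap.zero_apply]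
    have hlm : φ (1, 0) • x + φ (0, 1) • y ∈ (line H).H0 :=
      add_mem (Submodule.smul_mem _ _ hp.memx) (Submodule.smul_mem _ _ hp.memy)
    have hkill : ∀ w ∈ (pw ((j : ℤ) • H) r).H0,
        ε ((φ (1, 0) • x + φ (0, 1) • y) • w) = 0 := by
      intro w hw
      have h1 : φ (f ⟨w, hw⟩) = 0 := hφ ⟨_, rfl⟩
      have h2 : f ⟨w, hw⟩ = (ε (x • w), ε (y • w)) := rfl
      rw [h2, hφe] at h1
      rw [add_smul, map_add, smul_assoc, smul_assoc, map_smul ε, map_smul ε, smul_eq_mul,
        smul_eq_mul, mul_comm (φ (1, 0)), mul_comm (φ (0, 1))]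
      exact h1
    let Ψ : (Fin r → k) →ₗ[k] Module.Dual k (line (((j + 1 : ℕ) : ℤ) • H)).H0 :=
      { toFun := fun c =>
          { toFun := fun s => ε ((s : K) • constL k K r c)
            map_add' := fun s t => by
              rw [Submodule.coe_add, add_smul, map_add]
            map_smul' := fun t s => by
              rw [Submodule.coe_smul, smul_assoc, map_smul ε]
              rfl }
        map_add' := fun c d => by
          apply LinearMap.ext
          intro s
          show ε ((s : K) • constL k K r (c + d)) = _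
          rw [map_add, smul_add, map_add]
          rfl
        map_smul' := fun t c => by
          apply LinearMap.ext
          intro s
          show ε ((s : K) • constL k K r (t • c)) = _
          rw [map_smul (constL k K r), smul_comm _ t, map_smul ε]
          rfl }
    let T : (line ((j : ℤ) • H)).H0 →ₗ[k] (line (((j + 1 : ℕ) : ℤ) • H)).H0 :=
      { toFun := fun s => ⟨(φ (1, 0) • x + φ (0, 1) • y) * (s : K), DFun_mul hlm s.2⟩
        map_add' := fun s t => by
          apply Subtype.ext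
          show _ * ((s : K) + (t : K)) = _ * (s : K) + _ * (t : K)
          rw [mul_add]
        map_smul' := fun c s => by
          apply Subtype.ext
          show _ * (c • (s : K)) = c • (_ * (s : K))
          rw [mul_smul_comm] }
    have hT : Function.Injective T := by
      intro s t h
      apply Subtype.ext
      exact mul_left_cancel₀ hl0 (congrArg Subtype.val h)
    have hTr : finrank k (LinearMap.range T) = j + 1 := by
      rw [LinearMap.finrank_range_of_inj hT, DFun_fr hp hj0]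
    have hann := Subspace.finrank_add_finrank_dualAnnihilator_eq (LinearMap.range T)
    rw [hTr, DFun_fr hp (m := j + 1) (by push_cast; omega)] at hann
    have hR : LinearMap.range Ψ ≤ (LinearMap.range T).dualAnnihilator := by
      rintro _ ⟨c, rfl⟩
      rw [Submodule.mem_dualAnnihilator]
      rintro _ ⟨s, rfl⟩
      show ε (((φ (1, 0) • x + φ (0, 1) • y) * (s : K)) • constL k K r c) = 0
      rw [mul_smul]
      exact hkill _ (DFun_const s.2 c)
    have hk : LinearMap.ker Ψ ≤ DU H j ε := by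
      intro c hc s hs
      exact LinearMap.congr_fun (LinearMap.mem_ker.1 hc) ⟨s, hs⟩
    have h2 := LinearMap.finrank_range_add_finrank_ker Ψ
    have h3 := Submodule.finrank_mono hR
    have h4 := Submodule.finrank_mono hk
    rw [Module.finrank_fin_fun] at h2
    omega

theorem dfun_sub {H : Dv k K} {x y : K} (hp : Pencil H x y) {j r : ℕ}
    (hj : (j : ℤ) + 1 ≤ gen k K - 1) (ε : (Fin r → K) →ₗ[k] k) :
    (j + 1) * finrank k (DU H j ε) ≤
      finrank k ↥(DM H x y j ε ⊓ (KU K (DU H j ε)).restrictScalars k) := by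
  have hj0 : (j : ℤ) ≤ gen k K - 1 := by omega
  let b := Module.finBasis k (DU H j ε)
  have hli : LinearIndependent K (fun i => constL k K r (b i : Fin r → k)) := by
    refine const_independent (k := k) (K := K) (fun i => (b i : Fin r → k)) ?_
    exact b.linearIndependent.map' (DU H j ε).subtype (Submodule.ker_subtype _)
  let Θ : (Fin (finrank k (DU H j ε)) → (line ((j : ℤ) • H)).H0) →ₗ[k] (Fin r → K) :=
    { toFun := fun s => ∑ l, (s l : K) • constL k K r (b l : Fin r → k)
      map_add' := fun s t => by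
        rw [← Finset.sum_add_distrib]
        refine Finset.sum_congr rfl fun l _ => ?_
        rw [Pi.add_apply, Submodule.coe_add, add_smul]
      map_smul' := fun c s => by
        rw [RingHom.id_apply, Finset.smul_sum]
        refine Finset.sum_congr rfl fun l _ => ?_
        rw [Pi.smul_apply, Submodule.coe_smul, smul_assoc] }
  have hkill : ∀ z ∈ (line H).H0, ∀ s, ε (z • Θ s) = 0 := by
    intro z hz s
    show ε (z • ∑ l, (s l : K) • constL k K r (b l : Fin r → k)) = 0
    rw [Finset.smul_sum, map_sum]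
    refine Finset.sum_eq_zero fun l _ => ?_
    rw [← mul_smul]
    exact (b l).2 _ (DFun_mul hz (s l).2)
  have hΘ : ∀ s, Θ s ∈ DM H x y j ε ⊓ (KU K (DU H j ε)).restrictScalars k := by
    intro s
    refine ⟨⟨?_, hkill x hp.memx s, hkill y hp.memy s⟩, ?_⟩
    · show (∑ l, (s l : K) • constL k K r (b l : Fin r → k)) ∈ (pw ((j : ℤ) • H) r).H0
      exact Submodule.sum_mem _ fun l _ => DFun_const (s l).2 _
    · show (∑ l, (s l : K) • constL k K r (b l : Fin r → k)) ∈ KU K (DU H j ε)
      refine Submodule.sum_mem _ fun l _ => ?_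
      exact Submodule.smul_mem _ _ (Submodule.subset_span ⟨_, (b l).2, rfl⟩)
  have hinj : Function.Injective Θ := by
    rw [← LinearMap.ker_eq_bot, LinearMap.ker_eq_bot']
    intro s hs
    have h1 := Fintype.linearIndependent_iff.1 hli (fun l => (s l : K)) hs
    funext l
    exact Subtype.ext (h1 l)
  have hfin : Module.Finite k ↥(DM H x y j ε ⊓ (KU K (DU H j ε)).restrictScalars k) := by
    refine Submodule.finiteDimensional_of_le (S₂ := (pw ((j : ℤ) • H) r).H0) ?_
    exact fun v hv => hv.1.1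
  have h1 := LinearMap.finrank_le_finrank_of_injective
    (f := Θ.codRestrict _ hΘ) (fun s t h => hinj (congrArg Subtype.val h))
  rw [Module.finrank_pi_fintype] at h1
  simp only [Finset.sum_const, Finset.card_univ, Fintype.card_fin, smul_eq_mul] at h1
  rw [DFun_fr hp hj0] at h1
  rw [mul_comm]
  exact h1

end Pool.Agent.MP_09eaec.GG
end

section

/-!
# TASK DSurj: `x p(V) + y p(V)` is the space of all sections of `O((j+1)H)^r`

`(E, V)` stable of slope `2 j` (`n = rank`, `dim V = (j+1) n - u`), `p : E → O(jH)^r` onto with a nonzero kernel. The `p(v)`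
are sections of `O(jH)^r`. PROOF. Suppose the section `b` of `O((j+1)H)^r` is not in `U1 = {x p v1 + y p v2}` (the range of
a `k`-linear map on `V × V`). There is a `k`-linear `ε : K^r → k`, zero on `U1`, `ε b ≠ 0` (`Submodule.exists_le_ker_of_notMem`).
`U = DU H j ε`, `ρ = r - dim U` (`≥ 1`: if `U` is everything, then `ε (s • constL c) = 0` for all `c` and all sections `s` of
`(j+1)H`, and `b = ∑ b_i • constL (Pi.single i 1)`, so `ε b = 0`). `ρ ≤ j + 2` (`dfun_codim`). `J = (KU K U).comap p`,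
`rank (W ⧸ J) = ρ` and `(E.sub J).deg ≥ 2 j (n - ρ)` (`ddeg_comap`, `ddeg (jH) = 2 j`: `ddeg_zsmul`, `hp.deg`). `J ≠ ⊤` (`ρ ≥ 1`),
`J ≠ ⊥` (it contains `ker p`). Stability: `n vd V J < dim V (n - ρ)`, so `κ = dim V - vd V J` has `n κ > ρ dim V`.
`p(V) ≤ DM H x y j ε` (`ε = 0` on `U1`). `κ = dim p(V) - dim (p(V) ⊓ KU K U) ≤ dim DM - dim (DM ⊓ KU K U)` (rank-nullity for
`V → K^r ⧸ KU K U`, `v ↦ [p v]`, with kernel `V ⊓ J`; its range is in the range of `DM → K^r ⧸ KU K U`) `≤ dim DM - (j+1)(r - ρ)`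
(`dfun_sub`). `dfun_M1`: either `κ ≤ (j+1) ρ - 2`, then `n κ > ρ ((j+1) n - u)` gives `u ρ > 2 n`, against `ρ ≤ j + 2` and `hu`;
or `κ ≤ (j+1) ρ - 1` and `ρ ≤ 1`, then `u ρ > n`, against `hun`.
-/

set_option autoImplicit false

namespace Pool.Agent.MP_09eaec.GG

open Module

universe u v

variable {k : Type u} {K : Type v} [Field k] [Field K] [Algebra k K]
variable {W : Type v} [AddCommGroup W] [Module K W] [Module k W] [IsScalarTower k K W]

variable [CurveG k K]

omit [CurveG k K] in
private theorem DSurj_rank {F : Type u} [Field F] {M M' : Type v} [AddCommGroup M] [Module F M]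
    [AddCommGroup M'] [Module F M'] (g : M →ₗ[F] M') (A : Submodule F M) [Module.Finite F A] :
    finrank F (A.map g) + finrank F ↥(A ⊓ LinearMap.ker g) = finrank F A := by
  have h1 := LinearMap.finrank_range_add_finrank_ker (g.domRestrict A)
  have h2 : LinearMap.range (g.domRestrict A) = A.map g := by
    ext z
    rw [LinearMap.mem_range, Submodule.mem_map]
    constructor
    · rintro ⟨w, rfl⟩
      exact ⟨w, w.2, rfl⟩
    · rintro ⟨w, hw, rfl⟩
      exact ⟨⟨w, hw⟩, rfl⟩
  have h3 : (LinearMap.ker (g.domRestrict A)).map A.subtype = A ⊓ LinearMap.ker g := by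
    ext z
    rw [Submodule.mem_map, Submodule.mem_inf, LinearMap.mem_ker]
    constructor
    · rintro ⟨w, hw, rfl⟩
      exact ⟨w.2, LinearMap.mem_ker.1 hw⟩
    · rintro ⟨h1, h2⟩
      exact ⟨⟨z, h1⟩, LinearMap.mem_ker.2 h2, rfl⟩
  rw [h2] at h1
  rw [← h3, (Submodule.equivMapOfInjective _ A.injective_subtype
    (LinearMap.ker (g.domRestrict A))).symm.finrank_eq]
  exact h1

omit [CurveG k K] in
private theorem DSurj_num {n v u j r ρ U DMd κ : ℤ} (hk : v + u = (j + 1) * n)
    (hu : (j + 2) * u ≤ 2 * n) (hun : u < n) (hj : 0 ≤ j) (hu0 : 0 ≤ u)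
    (hr : ρ + U = r) (hρ : 1 ≤ ρ) (hρ2 : r ≤ U + (j + 2)) (hs : ρ * v < n * κ)
    (hκ : κ + (j + 1) * U ≤ DMd)
    (hM : DMd + 2 ≤ (j + 1) * r ∨ DMd + 1 ≤ (j + 1) * r ∧ r ≤ U + 1) : False := by
  have hn : 0 < n := by linarith
  have hρ3 : ρ ≤ j + 2 := by linarith
  have e1 : (j + 1) * r = (j + 1) * ρ + (j + 1) * U := by rw [← hr]; ring
  rcases hM with hM | ⟨hM, hr1⟩
  · have h1 : κ ≤ (j + 1) * ρ - 2 := by linarith
    have h2 : n * κ ≤ n * ((j + 1) * ρ - 2) := mul_le_mul_of_nonneg_left h1 hn.le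
    have h3 : ρ * v = ρ * ((j + 1) * n) - ρ * u := by rw [← hk]; ring
    have h4 : ρ * u ≤ (j + 2) * u := mul_le_mul_of_nonneg_right hρ3 hu0
    nlinarith
  · have hρ1 : ρ = 1 := by linarith
    subst hρ1
    have h1 : κ ≤ j := by linarith
    have h2 : n * κ ≤ n * j := mul_le_mul_of_nonneg_left h1 hn.le
    nlinarith

theorem dsurj {H : Dv k K} {x y : K} (hp : Pencil H x y) [FiniteDimensional K W]
    {E : VB k K W} {V : Submodule k W} (hV : V ≤ E.H0) {α : ℝ} (hα : 0 < α)
    (hst : E.StableSys α V) {j u : ℕ} (hjg : (j : ℤ) + 2 = gen k K)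
    (hk : (finrank k V : ℤ) + u = (j + 1) * finrank K W) (hd : E.deg = 2 * j * finrank K W)
    (hu : (j + 2) * u ≤ 2 * finrank K W) (hun : u < finrank K W) {r : ℕ}
    (p : W →ₗ[K] (Fin r → K)) (hps : Function.Surjective p)
    (hpE : ∀ (P : Place k K) (z : Fin r → K),
      z ∈ (pw ((j : ℤ) • H) r).M P ↔ ∃ w ∈ E.M P, p w = z)
    (hker : LinearMap.ker p ≠ ⊥) :
    ∀ b ∈ (pw (((j + 1 : ℕ) : ℤ) • H) r).H0, ∃ v1 ∈ V, ∃ v2 ∈ V, b = x • p v1 + y • p v2 := by
  classical
  intro b hb
  by_contra hcon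
  have hVfin : Module.Finite k V := (finrank_le_h0 hV).1
  -- the space `U1`
  set fx : W →ₗ[k] (Fin r → K) := (x • p).restrictScalars k with hfx
  set fy : W →ₗ[k] (Fin r → K) := (y • p).restrictScalars k with hfy
  have hbU : b ∉ V.map fx ⊔ V.map fy := by
    intro h
    obtain ⟨a1, ⟨v1, hv1, rfl⟩, a2, ⟨v2, hv2, rfl⟩, h3⟩ := Submodule.mem_sup.1 h
    exact hcon ⟨v1, hv1, v2, hv2, h3.symm⟩
  obtain ⟨ε, hεb, hεU⟩ := Submodule.exists_le_ker_of_notMem hbU
  have hεx : ∀ v ∈ V, ε (x • p v) = 0 := fun v hv =>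
    LinearMap.mem_ker.1 (hεU (Submodule.mem_sup_left ⟨v, hv, rfl⟩))
  have hεy : ∀ v ∈ V, ε (y • p v) = 0 := fun v hv =>
    LinearMap.mem_ker.1 (hεU (Submodule.mem_sup_right ⟨v, hv, rfl⟩))
  have hjg' : (j : ℤ) + 1 ≤ gen k K - 1 := by omega
  have hU2 := dfun_codim hp hjg' ε
  have hM := dfun_M1 hp hjg' ε ⟨b, hb, hεb⟩
  have hS := dfun_sub hp hjg' ε
  obtain ⟨hr, hdeg⟩ := ddeg_comap p hps hpE (DU H j ε)
  have hdj : ddeg ((j : ℤ) • H) = 2 * j := by rw [ddeg_zsmul, hp.deg]; ring
  rw [hdj, hd] at hdeg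
  -- `U` is not everything
  have hUr : finrank k (DU H j ε) < r := by
    have h1 : finrank k (DU H j ε) ≤ finrank k (Fin r → k) := Submodule.finrank_le _
    rw [finrank_fin_fun] at h1
    refine lt_of_le_of_ne h1 fun h2 => hεb ?_
    have h3 : DU H j ε = ⊤ := Submodule.eq_top_of_finrank_eq (by rw [h2, finrank_fin_fun])
    have h4 : b = ∑ i, b i • constL k K r (Pi.single i 1) := by
      funext l
      rw [Finset.sum_apply]
      simp only [Pi.smul_apply, constL_apply, smul_eq_mul, Pi.single_apply]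
      rw [Finset.sum_eq_single l]
      · simp
      · intro i _ hi
        rw [if_neg (fun h => hi h.symm), map_zero, mul_zero]
      · intro h
        exact absurd (Finset.mem_univ l) h
    rw [h4, map_sum]
    refine Finset.sum_eq_zero fun i _ => ?_
    have h5 : (Pi.single i (1 : k) : Fin r → k) ∈ DU H j ε := by rw [h3]; trivial
    refine h5 (b i) ?_
    rw [VB.mem_H0]
    intro P
    rw [mem_line]
    exact mem_pw.1 (VB.mem_H0.1 hb P) i
  set J : Submodule K W := (KU K (DU H j ε)).comap p with hJ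
  have hn := Submodule.finrank_quotient_add_finrank J
  have hJ1 : J ≠ ⊥ := by
    intro h
    refine hker (eq_bot_iff.2 ?_)
    rw [← h]
    intro w hw
    rw [hJ, Submodule.mem_comap, LinearMap.mem_ker.1 hw]
    exact zero_mem _
  have hJ2 : J ≠ ⊤ := by
    intro h
    rw [h, finrank_top] at hn
    rw [h] at hr
    omega
  have hJpos : 0 < finrank K J := by
    have : Nontrivial J := Submodule.nontrivial_iff_ne_bot.2 hJ1
    exact finrank_pos
  -- stability
  have hst' := hst J hJ1 hJ2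
  rw [hd] at hst'
  have hJ' : (0 : ℝ) < finrank K J := by exact_mod_cast hJpos
  have hn' : (0 : ℝ) < finrank K W := by
    have : 0 < finrank K W := by omega
    exact_mod_cast this
  rw [div_lt_div_iff₀ hJ' hn'] at hst'
  obtain ⟨ρ, hρ⟩ : ∃ ρ : ℕ, ρ = finrank K (W ⧸ J) := ⟨_, rfl⟩
  rw [← hρ] at hr hn
  have hdeg' : (2 * j * finrank K J : ℝ) ≤ (E.sub J).deg := by
    have h1 : (2 * j * finrank K J : ℤ) ≤ (E.sub J).deg := by
      have h2 : (r : ℤ) = ρ + finrank k (DU H j ε) := by exact_mod_cast hr.symm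
      have h3 : (finrank K W : ℤ) = ρ + finrank K J := by exact_mod_cast hn.symm
      rw [h2, h3] at hdeg
      linarith
    exact_mod_cast h1
  have h7 : α * ((vd V J : ℝ) * finrank K W) < α * ((finrank k V : ℝ) * finrank K J) := by
    push_cast at hst'
    have := mul_le_mul_of_nonneg_right hdeg' hn'.le
    have e1 : ((vd V J : ℕ) : ℝ) = (finrank k ↥(V ⊓ J.restrictScalars k) : ℝ) := rfl
    rw [e1]
    nlinarith
  have h8 : (vd V J : ℝ) * finrank K W < (finrank k V : ℝ) * finrank K J :=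
    lt_of_mul_lt_mul_left h7 hα.le
  have h9 : (vd V J : ℤ) * finrank K W < (finrank k V : ℤ) * finrank K J := by
    exact_mod_cast h8
  -- the dimension count
  set N : Submodule k (Fin r → K) := (KU K (DU H j ε)).restrictScalars k with hN
  have hDMle : DM H x y j ε ≤ (pw ((j : ℤ) • H) r).H0 := fun v hv => hv.1
  have hDMfin : Module.Finite k (DM H x y j ε) :=
    Submodule.finiteDimensional_of_le hDMle
  have r1 := DSurj_rank (N.mkQ) (DM H x y j ε)
  rw [Submodule.ker_mkQ] at r1
  have r2 := DSurj_rank (N.mkQ ∘ₗ p.restrictScalars k) V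
  have hkerg : LinearMap.ker (N.mkQ ∘ₗ p.restrictScalars k) = J.restrictScalars k := by
    rw [LinearMap.ker_comp, Submodule.ker_mkQ]
    rfl
  rw [hkerg] at r2
  have r3 : finrank k (V.map (N.mkQ ∘ₗ p.restrictScalars k)) ≤
      finrank k ((DM H x y j ε).map N.mkQ) := by
    have : Module.Finite k ((DM H x y j ε).map N.mkQ) := inferInstance
    refine Submodule.finrank_mono ?_
    rintro _ ⟨v, hv, rfl⟩
    refine ⟨p v, ⟨?_, hεx v hv, hεy v hv⟩, rfl⟩
    rw [VB.mem_H0]
    intro P
    exact (hpE P _).2 ⟨v, VB.mem_H0.1 (hV hv) P, rfl⟩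
  have e2 : vd V J = finrank k ↥(V ⊓ J.restrictScalars k) := rfl
  rw [← e2] at r2
  refine DSurj_num (n := finrank K W) (v := finrank k V) (u := u) (j := j) (r := r) (ρ := ρ)
    (U := finrank k (DU H j ε)) (DMd := finrank k (DM H x y j ε))
    (κ := finrank k V - vd V J) hk (by exact_mod_cast hu) (by exact_mod_cast hun) (by positivity)
    (by positivity) (by exact_mod_cast hr) (by omega) (by exact_mod_cast hU2) ?_ ?_
    (by exact_mod_cast hM)
  · have h3 : (finrank K W : ℤ) = ρ + finrank K J := by exact_mod_cast hn.symm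
    have h4 : (finrank K J : ℤ) = finrank K W - ρ := by linarith
    rw [h4] at h9
    nlinarith
  · have a1 : (finrank k V : ℤ) - vd V J ≤ finrank k ((DM H x y j ε).map N.mkQ) := by
      omega
    have a2 : ((j : ℤ) + 1) * finrank k (DU H j ε) ≤
        finrank k ↥(DM H x y j ε ⊓ N) := by exact_mod_cast hS
    have a3 : (finrank k ((DM H x y j ε).map N.mkQ) : ℤ) + finrank k ↥(DM H x y j ε ⊓ N) =
        finrank k (DM H x y j ε) := by exact_mod_cast r1
    linarith

end Pool.Agent.MP_09eaec.GG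
end
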