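import Pool.Agent.Lib.MP_09eaec_ag.Mg.G040
import Pool.Agent.Lib.MP_09eaec_ag.Mg.G041
import Pool.Agent.Lib.MP_09eaec_ag.Mg.G039
import Pool.Agent.Lib.MP_09eaec_ag.HE.DQuo
import Pool.Agent.Lib.MP_09eaec_ag.Mg.G042
import Pool.Agent.Lib.MP_09eaec_ag.HE.DDeg
import Pool.Agent.Lib.MP_09eaec_ag.Mg.G022
import Pool.Agent.Lib.MP_09eaec_ag.Mg.G018
import Pool.Agent.Lib.MP_09eaec_ag.HE.DualG
import Pool.Agent.Lib.MP_09eaec_ag.Mg.G031
import Pool.Agent.Lib.MP_09eaec_ag.Mg.G011
import Pool.Agent.Lib.MP_09eaec_ag.Mg.G007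
import Pool.Agent.Lib.MP_09eaec_ag.Mg.G009
import Pool.Agent.Lib.MP_09eaec_ag.Mg.G012
import Pool.Agent.Lib.MP_09eaec_ag.Mg.G014
import Pool.Agent.Lib.MP_09eaec_ag.Mg.G017
import Pool.Agent.Lib.MP_09eaec_ag.Mg.G002

section

/-!
# Systems of slope `2 (g - 2)`

Let `(E, V)` be stable of slope `2 j`, `j = g - 2`, with `(j + 1) n - u` sections, `n ≤ (j + 1) u`,
`n² - (j + 1) n u + u² > 0`. Then `E = O(jH)^n`.
-/

set_option autoImplicit false

namespace Pool.Agent.MP_09eaec.GG

open Module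

universe u v

variable {k : Type u} {K : Type v} [Field k] [Field K] [Algebra k K]
variable {W : Type v} [AddCommGroup W] [Module K W] [Module k W] [IsScalarTower k K W]

variable [CurveG k K]

theorem root_of_frame {H : Dv k K} {x y : K} (hp : Pencil H x y) [FiniteDimensional K W]
    {E : VB k K W} {V : Submodule k W} (hV : V ≤ E.H0) {α : ℝ} (hα : 0 < α)
    (hn : 1 ≤ finrank K W) (hst : E.StableSys α V) {j : ℤ} (hj : 1 ≤ j)
    (hj' : j + 2 ≤ gen k K) (hd : E.deg = 2 * j * finrank K W)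
    (hfr0 : ∃ w : Fin (finrank K W) → W, (∀ i, w i ∈ (E.twist (-(j • H))).H0) ∧
      LinearIndependent K w) :
    (finrank K W : ℤ) ^ 2 + (finrank k V : ℤ) ^ 2 ≤ (j + 1) * finrank K W * finrank k V + 1 := by
  have := Curve.closed (k := k) (K := K)
  have hg := CurveG.two_le (k := k) (K := K)
  obtain ⟨w, hw, hwK⟩ := hfr0
  have hdegj : ddeg (j • H) = 2 * j := by rw [ddeg_zsmul, hp.deg]; ring
  have hfr := exists_frame (by rw [hd, hdegj]; exact le_of_eq (by ring)) hw hwK
  obtain ⟨n, hndef⟩ : ∃ n : ℕ, n = finrank K W := ⟨_, rfl⟩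
  rw [← hndef] at hfr hn hd ⊢
  obtain ⟨f, hf⟩ := hfr
  have hst' := stableSys_map hst f
  have hV' := mapV_le_H0 hV f
  rw [hf] at hst' hV'
  set V' := V.map (f.toLinearMap.restrictScalars k) with hV'def
  have hfin : finrank k V' = finrank k V := finrank_mapV f
  have hS : (finrank k (line (j • H)).H0 : ℤ) = j + 1 := by
    have := h0_smul hp (s := j) (by omega) (by omega)
    unfold VB.h0 at this
    exact this
  have hdegE : (pw (j • H) n).deg = n * (2 * j) := by rw [deg_pw, hdegj]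
  have key := brick (S := (line (j • H)).H0) (V := V') hn ?_ ?_
  · rw [hfin, hS] at key
    exact key
  · intro v hv i
    rw [VB.mem_H0]
    intro P
    exact mem_pw.1 (VB.mem_H0.1 (hV' hv) P) i
  · intro U hU hU'
    have h1 := hst' (KU K U) (KU_ne_bot hU) (KU_ne_top hU')
    have h2 := deg_pw_KU (k := k) (K := K) (j • H) U
    rw [hdegj] at h2
    have h3 : 0 < finrank k U := by
      rw [Nat.pos_iff_ne_zero]
      intro h0
      exact hU (Submodule.finrank_eq_zero.1 h0)
    have h3' : (0 : ℝ) < finrank k U := by exact_mod_cast h3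
    have hn' : (0 : ℝ) < n := by exact_mod_cast hn
    rw [finrank_KU, hdegE, Module.finrank_fin_fun, div_lt_div_iff₀ h3' hn'] at h1
    have h4 : ((finrank k U : ℝ) * (2 * j)) ≤ (((pw (j • H) n).sub (KU K U)).deg : ℝ) := by
      exact_mod_cast h2
    push_cast at h1
    have h5 : α * ((n : ℝ) * finrank k ↥(V' ⊓ (KU K U).restrictScalars k)) <
        α * ((finrank k V' : ℝ) * finrank k U) := by
      have := mul_le_mul_of_nonneg_right h4 hn'.le
      nlinarith
    have h6 := lt_of_mul_lt_mul_left h5 hα.le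
    exact_mod_cast h6

/-- A frame, or some maps to `O(jH)`. -/
theorem strip_top_r {H : Dv k K} {x y : K} (hp : Pencil H x y) [FiniteDimensional K W]
    {E : VB k K W} {V : Submodule k W} (hV : V ≤ E.H0) {α : ℝ} (hα : 0 < α)
    (hn : 1 ≤ finrank K W) (hst : E.StableSys α V) {j u : ℕ} (hj : 1 ≤ j)
    (hjg : (j : ℤ) + 2 = gen k K)
    (hk : (finrank k V : ℤ) + u = (j + 1) * finrank K W) (hd : E.deg = 2 * j * finrank K W)
    (hsub : ∀ J : Submodule K W, (E.sub J).deg ≤ finrank K J * (2 * j))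
    (hu : finrank K W ≤ (j + 1) * u) (hun : u < finrank K W) :
    (∃ w : Fin (finrank K W) → W, (∀ i, w i ∈ (E.twist (-((j : ℤ) • H))).H0) ∧
      LinearIndependent K w) ∨ 1 ≤ (hom E (line ((j : ℤ) • H))).h0 := by
  obtain ⟨n, hndef⟩ : ∃ n : ℤ, n = (finrank K W : ℤ) := ⟨_, rfl⟩
  have hn1 : 1 ≤ n := by rw [hndef]; exact_mod_cast hn
  by_contra hcon
  push Not at hcon
  obtain ⟨hcon1, hcon2⟩ := hcon
  have hr0 : (hom E (line ((j : ℤ) • H))).h0 = 0 := by
    have := VB.h0_nonneg (hom E (line ((j : ℤ) • H)))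
    omega
  have hdegj : ddeg ((j : ℤ) • H) = 2 * j := by rw [ddeg_zsmul, hp.deg]; ring
  have hrank1 : ∀ J : Submodule K W, finrank K J = 1 →
      (E.sub J).deg ≤ ddeg ((j : ℤ) • H) := by
    intro J hJ
    have := hsub J
    rw [hJ] at this
    rw [hdegj]
    push_cast at this
    linarith
  have hf1 : fH H E 1 = (j + 1) * n := by
    rw [fH_eq hp, hd, ← hndef]
    have e : gen k K - 1 - 1 = (j : ℤ) := by omega
    rw [e, hr0, ← hjg]
    ring
  have hc := fH_ineq hp E (a := -(j : ℤ)) (b := 0) (c := 1) (by omega) (by omega)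
  rw [fH_zero, hf1] at hc
  obtain ⟨hVfin, hVle⟩ := finrank_le_h0 hV
  obtain ⟨w0, hw0⟩ : ∃ w0 : ℕ, w0 = finrank k (E.twist (-((j : ℤ) • H))).H0 := ⟨_, rfl⟩
  have hfw : fH H E (-(j : ℤ)) = w0 := by
    unfold fH VB.h0
    rw [neg_smul, hw0]
  rw [hfw] at hc
  let b := finBasisOfFinrankEq k (E.twist (-((j : ℤ) • H))).H0 hw0.symm
  let w : Fin w0 → W := fun i => (b i : W)
  have hw : ∀ i, w i ∈ (E.twist (-((j : ℤ) • H))).H0 := fun i => (b i).2
  have hwk : LinearIndependent k w :=
    b.linearIndependent.map' (E.twist (-((j : ℤ) • H))).H0.subtype (Submodule.ker_subtype _)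
  have hwK : LinearIndependent K w := sec_indep hrank1 w hw hwk
  have hwn : w0 ≤ finrank K W := by
    have := hwK.fintype_card_le_finrank
    simpa using this
  by_cases hwe : w0 = finrank K W
  · subst hwe
    exact hcon1 w hw hwK
  have hk1 : (finrank k V : ℤ) = (j + 1) * n - u := by rw [hndef]; linarith
  have hun' : (u : ℤ) < n := by rw [hndef]; exact_mod_cast hun
  have hu' : n ≤ (j + 1) * u := by rw [hndef]; exact_mod_cast hu
  have hj0 : (1 : ℤ) ≤ j := by exact_mod_cast hj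
  by_cases hw1 : w0 = 0
  · rw [hw1] at hc
    push_cast at hc
    have h1 : (j + 1) * E.h0 ≤ (j + 1) * (j * n) := by linarith
    have h2 : E.h0 ≤ j * n := le_of_mul_le_mul_left h1 (by omega)
    rw [hk1] at hVle
    linarith
  have hm := mul_sec hw hwK hV
  rw [h0_smul hp (by omega) (by omega)] at hm
  set J := Submodule.span K (Set.range w) with hJdef
  have hJr : finrank K J = w0 := by
    rw [hJdef, finrank_span_eq_card hwK, Fintype.card_fin]
  have hJ1 : J ≠ ⊥ := by
    intro h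
    rw [h, finrank_bot] at hJr
    exact hw1 hJr.symm
  have hJ2 : J ≠ ⊤ := by
    intro h
    rw [h, finrank_top] at hJr
    exact hwe hJr.symm
  have hdegJ : (w0 : ℤ) * (2 * j) ≤ (E.sub J).deg := by
    have := deg_span_ge hw hwK
    rwa [hdegj] at this
  have hst' := hst J hJ1 hJ2
  rw [hJr, hd] at hst'
  have hw' : (0 : ℝ) < w0 := by exact_mod_cast Nat.pos_of_ne_zero hw1
  have hn' : (0 : ℝ) < (finrank K W : ℝ) := by exact_mod_cast hn
  rw [div_lt_div_iff₀ hw' hn'] at hst'
  have hdegJ' : (w0 : ℝ) * (2 * j) ≤ ((E.sub J).deg : ℝ) := by exact_mod_cast hdegJ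
  have h7 : α * ((vd V J : ℝ) * finrank K W) < α * ((finrank k V : ℝ) * w0) := by
    push_cast at hst'
    have := mul_le_mul_of_nonneg_right hdegJ' hn'.le
    have e1 : ((vd V J : ℕ) : ℝ) = (finrank k ↥(V ⊓ J.restrictScalars k) : ℝ) := rfl
    rw [e1]
    nlinarith
  have h8 : (vd V J : ℝ) * finrank K W < (finrank k V : ℝ) * w0 := lt_of_mul_lt_mul_left h7 hα.le
  have h9 : (vd V J : ℤ) * n < (finrank k V : ℤ) * w0 := by
    rw [hndef]
    exact_mod_cast h8
  -- the numbers
  obtain ⟨z, hz⟩ : ∃ z : ℤ, z = (vd V J : ℤ) := ⟨_, rfl⟩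
  rw [← hz] at hm h9
  rw [hk1] at hm h9
  have hwz : (1 : ℤ) ≤ w0 := by
    have : 1 ≤ w0 := by omega
    exact_mod_cast this
  have a1 : ((j : ℤ) + 1) * ((j + 1) * n - u + w0 * (j + 1)) ≤
      w0 + j * ((j + 1) * n) + (j + 1) * z := by
    have := mul_le_mul_of_nonneg_left hm (show (0 : ℤ) ≤ (j : ℤ) + 1 by omega)
    linarith
  have a2 := mul_le_mul_of_nonneg_right a1 (show (0 : ℤ) ≤ n by omega)
  have a3 := mul_lt_mul_of_pos_left h9 (show (0 : ℤ) < (j : ℤ) + 1 by omega)
  have a4 : ((j : ℤ) + 1) * n * (n - u) < w0 * (n - (j + 1) * u) := by nlinarith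
  have a5 : (w0 : ℤ) * (n - (j + 1) * u) ≤ 0 :=
    mul_nonpos_of_nonneg_of_nonpos (by omega) (by omega)
  have a6 : 0 ≤ ((j : ℤ) + 1) * n * (n - u) :=
    mul_nonneg (mul_nonneg (by omega) (by omega)) (by omega)
  linarith

/-- Multiplication by an element of `K`. -/
def mulk (a : K) (B : Type v) [AddCommGroup B] [Module K B] [Module k B] [IsScalarTower k K B] :
    B →ₗ[k] B where
  toFun w := a • w
  map_add' := smul_add a
  map_smul' c w := smul_comm a c w

theorem finrank_map_add {k : Type u} [Field k] {W B : Type v} [AddCommGroup B] [Module k B]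
    [AddCommGroup W] [Module k W] (p : W →ₗ[k] B) (V : Submodule k W) [Module.Finite k V] :
    finrank k (V.map p) + finrank k ↥(V ⊓ LinearMap.ker p) = finrank k V := by
  have h1 := LinearMap.finrank_range_add_finrank_ker (p.domRestrict V)
  rw [LinearMap.range_domRestrict] at h1
  have h2 : finrank k (LinearMap.ker (p.domRestrict V)) =
      finrank k ↥(V ⊓ LinearMap.ker p) := by
    have e : (LinearMap.ker (p.domRestrict V)).map V.subtype = V ⊓ LinearMap.ker p := by
      ext z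
      constructor
      · rintro ⟨y, hy, rfl⟩
        exact ⟨y.2, hy⟩
      · rintro ⟨h1, h2⟩
        exact ⟨⟨z, h1⟩, h2, rfl⟩
    rw [← e]
    exact (Submodule.equivMapOfInjective V.subtype V.injective_subtype _).finrank_eq
  omega

theorem mem_pw_H0 {D : Dv k K} {r : ℕ} {z : Fin r → K} :
    z ∈ (pw D r).H0 ↔ ∀ i, z i ∈ (line D).H0 := by
  constructor
  · intro h i
    rw [VB.mem_H0]
    intro P
    exact mem_pw.1 (VB.mem_H0.1 h P) i
  · intro h
    rw [VB.mem_H0]
    intro P
    rw [mem_pw]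
    intro i
    exact VB.mem_H0.1 (h i) P

theorem finrank_pw_H0 (D : Dv k K) (r : ℕ) :
    (finrank k (pw D r).H0 : ℤ) = r * (line D).h0 := by
  let e : (pw D r).H0 ≃ₗ[k] (Fin r → ↥(line D).H0) :=
    { toFun := fun z i => ⟨(z : Fin r → K) i, mem_pw_H0.1 z.2 i⟩
      invFun := fun f => ⟨fun i => (f i : K), mem_pw_H0.2 fun i => (f i).2⟩
      map_add' := fun _ _ => rfl
      map_smul' := fun _ _ => rfl
      left_inv := fun _ => rfl
      right_inv := fun _ => rfl }
  rw [e.finrank_eq, Module.finrank_pi_fintype, Finset.sum_const, Finset.card_univ,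
    Fintype.card_fin, smul_eq_mul]
  unfold VB.h0
  push_cast
  rfl

/-- The endomorphisms of `K ^ r` given by the matrices over `k`. -/
def matk (k : Type u) (K : Type v) [Field k] [Field K] [Algebra k K] (r : ℕ) :
    Matrix (Fin r) (Fin r) k →ₗ[k] ((Fin r → K) →ₗ[k] (Fin r → K)) :=
  LinearMap.mk₂ k (fun A w i => ∑ j, A i j • w j)
    (fun A B w => by
      funext i
      simp only [Matrix.add_apply, add_smul, Finset.sum_add_distrib, Pi.add_apply])
    (fun c A w => by
      funext i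
      simp only [Matrix.smul_apply, Pi.smul_apply, Finset.smul_sum, smul_assoc])
    (fun A w w' => by
      funext i
      simp only [Pi.add_apply, smul_add, Finset.sum_add_distrib])
    (fun c A w => by
      funext i
      simp only [Pi.smul_apply, Finset.smul_sum]
      exact Finset.sum_congr rfl fun j _ => smul_comm _ _ _)

omit [CurveG k K] in
theorem matk_apply {r : ℕ} (A : Matrix (Fin r) (Fin r) k) (w : Fin r → K) (i : Fin r) :
    matk k K r A w i = ∑ j, A i j • w j := rfl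

omit [CurveG k K] in
theorem matk_zero {r : ℕ} {A : Matrix (Fin r) (Fin r) k} {s : K} (hs : s ≠ 0)
    (h : ∀ l : Fin r, matk k K r A (Pi.single l s) = 0) : A = 0 := by
  ext i l
  have h1 := congrFun (h l) i
  rw [matk_apply, Finset.sum_eq_single l] at h1
  · rw [Pi.single_eq_same, Pi.zero_apply] at h1
    exact (smul_eq_zero.1 h1).resolve_right hs
  · intro b _ hb
    rw [Pi.single_eq_of_ne hb, smul_zero]
  · intro h2
    exact absurd (Finset.mem_univ l) h2

omit [CurveG k K] in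
theorem finrank_matk (r : ℕ) : finrank k (LinearMap.range (matk k K r)) = r * r := by
  have hinj : Function.Injective (matk k K r) := by
    rw [← LinearMap.ker_eq_bot, LinearMap.ker_eq_bot']
    intro A hA
    refine matk_zero (K := K) (s := 1) one_ne_zero fun l => ?_
    rw [hA]; rfl
  rw [LinearMap.finrank_range_of_inj hinj, Module.finrank_matrix]
  simp

/-- The frame in the last strip. -/
theorem strip_top_frame {H : Dv k K} {x y : K} (hp : Pencil H x y) [FiniteDimensional K W]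
    {E : VB k K W} {V : Submodule k W} (hV : V ≤ E.H0) {α : ℝ} (hα : 0 < α)
    (hn : 1 ≤ finrank K W) (hst : E.StableSys α V) {j u : ℕ} (hj : 2 ≤ j)
    (hjg : (j : ℤ) + 2 = gen k K)
    (hk : (finrank k V : ℤ) + u = (j + 1) * finrank K W) (hd : E.deg = 2 * j * finrank K W)
    (hquo : ∀ J : Submodule K W, J ≠ ⊤ → 2 * (j : ℤ) * finrank K (W ⧸ J) ≤ (E.quo J).deg)
    (hu : finrank K W ≤ (j + 1) * u) (hun : u < finrank K W) (hu2 : (j + 2) * u ≤ 2 * finrank K W)
    (hq : 0 < (finrank K W : ℤ) ^ 2 - (j + 1) * finrank K W * u + u ^ 2) :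
    ∃ w : Fin (finrank K W) → W, (∀ i, w i ∈ (E.twist (-((j : ℤ) • H))).H0) ∧
      LinearIndependent K w := by
  classical
  obtain ⟨n, hndef⟩ : ∃ n : ℤ, n = (finrank K W : ℤ) := ⟨_, rfl⟩
  have hn1 : 1 ≤ n := by rw [hndef]; exact_mod_cast hn
  have hsub : ∀ J : Submodule K W, (E.sub J).deg ≤ finrank K J * (2 * j) := by
    intro J
    by_cases hJ : J = ⊤
    · subst hJ
      rw [VB.deg_sub_top, finrank_top, hd]
      exact le_of_eq (by ring)
    · have h1 := hquo J hJ
      have h2 := VB.deg_add E J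
      have h3 : (finrank K (W ⧸ J) : ℤ) + finrank K J = finrank K W := by
        exact_mod_cast Submodule.finrank_quotient_add_finrank J
      rw [← h3] at hd
      linarith
  have hdegj : ddeg ((j : ℤ) • H) = 2 * j := by rw [ddeg_zsmul, hp.deg]; ring
  rcases strip_top_r hp hV hα hn hst (by omega) hjg hk hd hsub hu hun with h | hr
  · exact h
  by_contra hcon
  obtain ⟨r, p, hrdef, hps, hpE⟩ := dquo (E := E) (D := (j : ℤ) • H) (c := 2 * j) hdegj
    (by rw [hd]; ring) hquo
  have hfr : finrank K (LinearMap.ker p) + r = finrank K W := by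
    have h1 := LinearMap.finrank_range_add_finrank_ker p
    rw [LinearMap.range_eq_top.2 hps, finrank_top, Module.finrank_fin_fun] at h1
    omega
  -- the kernel
  have hker : LinearMap.ker p ≠ ⊥ := by
    intro hbot
    apply hcon
    rw [hbot, finrank_bot, zero_add] at hfr
    rw [← hfr]
    have hinj : Function.Injective p := LinearMap.ker_eq_bot.1 hbot
    let f : W ≃ₗ[K] (Fin r → K) := LinearEquiv.ofBijective p ⟨hinj, hps⟩
    have hf : ∀ w, f w = p w := fun w => rfl
    refine ⟨fun i => f.symm (Pi.single i 1), fun i => ?_, ?_⟩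
    · rw [VB.mem_H0]
      intro P
      obtain ⟨t, ht, htm⟩ := exists_ord_eq P ((-((j : ℤ) • H)) P)
      rw [VB.mem_twist_iff ht htm]
      obtain ⟨w, hw, hpw⟩ := (hpE P (t • (Pi.single i 1 : Fin r → K))).1 (by
        rw [mem_pw]
        intro l
        rw [Pi.smul_apply, smul_eq_mul]
        by_cases hl : l = i
        · rw [hl, Pi.single_eq_same, mul_one]
          exact Or.inr (by rw [htm, Finsupp.neg_apply])
        · rw [Pi.single_eq_of_ne hl, mul_zero]
          exact Or.inl rfl)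
      have : w = t • f.symm (Pi.single i 1) := by
        apply f.injective
        rw [map_smul, f.apply_symm_apply, hf, hpw]
      rw [← this]
      exact hw
    · have h := (Pi.basisFun K (Fin r)).linearIndependent.map' f.symm.toLinearMap f.symm.ker
      have e : (fun i => f.symm (Pi.single i 1)) =
          ⇑f.symm.toLinearMap ∘ ⇑(Pi.basisFun K (Fin r)) := by
        funext i
        simp
      rw [e]
      exact h
  -- numbers
  obtain ⟨m, hmdef⟩ : ∃ m : ℕ, m = finrank K (LinearMap.ker p) := ⟨_, rfl⟩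
  rw [← hmdef] at hfr
  have hm1 : 1 ≤ m := by
    rw [hmdef]
    exact Submodule.one_le_finrank_iff.2 hker
  have hr1 : 1 ≤ r := by
    have : (1 : ℤ) ≤ r := by rw [hrdef]; exact hr
    exact_mod_cast this
  have hnr : n = (r : ℤ) + m := by rw [hndef]; omega
  have hkerT : LinearMap.ker p ≠ ⊤ := by
    intro h
    rw [h, finrank_top] at hmdef
    omega
  have hgen : gen k K = (j : ℤ) + 2 := hjg.symm
  have hj0 : (2 : ℤ) ≤ j := by exact_mod_cast hj
  have hgj : (j : ℤ) + 1 ≤ gen k K - 1 := by omega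
  have hk1 : (finrank k V : ℤ) = (j + 1) * n - u := by rw [hndef]; linarith
  obtain ⟨hVfin, hVle⟩ := finrank_le_h0 hV
  have hE1 : fH H E 1 = (j + 1) * n + r := by
    rw [fH_eq hp, hd, ← hndef]
    have e : gen k K - 1 - 1 = (j : ℤ) := by omega
    rw [e, ← hrdef, hgen]
    ring
  -- the kernel bundle
  have hfrW : finrank K (W ⧸ LinearMap.ker p) = r := by
    have := Submodule.finrank_quotient_add_finrank (LinearMap.ker p)
    omega
  have hA : (E.sub (LinearMap.ker p)).deg = 2 * j * m := by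
    have h1 := (ddeg_comap (E := E) p hps hpE (⊥ : Submodule k (Fin r → k))).2
    have h2 : KU K (⊥ : Submodule k (Fin r → k)) = ⊥ := by
      rw [← Submodule.finrank_eq_zero (R := K), finrank_KU, finrank_bot]
    rw [h2, Submodule.comap_bot, finrank_bot, hdegj, hd, ← hndef] at h1
    have h3 := hquo _ hkerT
    rw [hfrW] at h3
    have h4 := VB.deg_add E (LinearMap.ker p)
    rw [hd, ← hndef] at h4
    rw [hnr] at h1 h4
    push_cast at h1
    linarith
  have hone : (1 : ℤ) • H = H := one_smul ℤ H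
  -- the linear maps
  let p' : W →ₗ[k] (Fin r → K) := p.restrictScalars k
  have hp' : ∀ w, p' w = p w := fun w => rfl
  have hkerp' : LinearMap.ker p' = (LinearMap.ker p).restrictScalars k := rfl
  have hpH0 : ∀ w ∈ E.H0, p w ∈ (pw ((j : ℤ) • H) r).H0 := by
    intro w hw
    rw [VB.mem_H0]
    intro P
    exact (hpE P _).2 ⟨w, VB.mem_H0.1 hw P, rfl⟩
  have hpH1 : ∀ w ∈ (E.twist H).H0, p w ∈ (pw (((j + 1 : ℕ) : ℤ) • H) r).H0 := by
    intro w hw
    rw [VB.mem_H0]
    intro P
    obtain ⟨t, ht, htm⟩ := exists_ord_eq P (H P)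
    have h1 := (VB.mem_twist_iff ht htm).1 (VB.mem_H0.1 hw P)
    have h2 := mem_pw.1 ((hpE P _).2 ⟨_, h1, rfl⟩)
    rw [mem_pw]
    intro i
    have h3 := h2 i
    rw [map_smul, Pi.smul_apply, smul_eq_mul] at h3
    rw [← mem_filt_iff_of_ord P ht htm]
    have e : -(((j + 1 : ℕ) : ℤ) • H) P + H P = -(((j : ℤ) • H) P) := by
      rw [Finsupp.smul_apply, Finsupp.smul_apply, smul_eq_mul, smul_eq_mul]
      push_cast
      ring
    rw [e]
    exact h3
  have hsurj := dsurj hp hV hα hst (j := j) (u := u) hjg hk hd hu2 hun p hps hpE hker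
  have hmulx : ∀ {F : VB k K W} {s : K}, s ∈ (line H).H0 → ∀ w ∈ F.H0, s • w ∈ (F.twist H).H0 := by
    intro F s hs w hw
    refine VB.smul_mem_H0_of_twist hs ?_
    rw [VB.twist_twist, add_neg_cancel, VB.twist_zero]
    exact hw
  have hmulp : ∀ {s : K}, s ∈ (line H).H0 → ∀ w ∈ (pw ((j : ℤ) • H) r).H0,
      s • w ∈ (pw (((j + 1 : ℕ) : ℤ) • H) r).H0 := by
    intro s hs w hw
    rw [mem_pw_H0] at hw ⊢
    intro i
    rw [VB.mem_H0]
    intro P
    have h1 := VB.mem_H0.1 hs P
    have h2 := VB.mem_H0.1 (hw i) P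
    rw [mem_line] at h1 h2 ⊢
    have h3 := mul_mem_filt P h1 h2
    rw [Pi.smul_apply, smul_eq_mul]
    have e : -(((j + 1 : ℕ) : ℤ) • H) P = -H P + -(((j : ℤ) • H) P) := by
      rw [Finsupp.smul_apply, Finsupp.smul_apply, smul_eq_mul, smul_eq_mul]
      push_cast
      ring
    rw [e]
    exact h3
  have hB1 : (E.twist H).H0.map p' = (pw (((j + 1 : ℕ) : ℤ) • H) r).H0 := by
    apply le_antisymm
    · rintro _ ⟨w, hw, rfl⟩
      exact hpH1 w hw
    · intro b hb
      obtain ⟨v1, hv1, v2, hv2, e⟩ := hsurj b hb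
      refine ⟨x • v1 + y • v2, add_mem (hmulx hp.memx v1 (hV hv1)) (hmulx hp.memy v2 (hV hv2)), ?_⟩
      rw [hp', map_add, map_smul, map_smul, e]
  -- dimensions
  have hfM : finrank k (pw ((j : ℤ) • H) r).H0 = (j + 1) * r := by
    have := finrank_pw_H0 (k := k) ((j : ℤ) • H) r
    rw [h0_smul hp (by omega) (by omega)] at this
    have e : (finrank k (pw ((j : ℤ) • H) r).H0 : ℤ) = (((j + 1) * r : ℕ) : ℤ) := by
      rw [this]; push_cast; ring
    exact_mod_cast e
  have hfB : finrank k (pw (((j + 1 : ℕ) : ℤ) • H) r).H0 = (j + 2) * r := by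
    have := finrank_pw_H0 (k := k) (((j + 1 : ℕ) : ℤ) • H) r
    rw [h0_smul hp (by positivity) (by push_cast; omega)] at this
    have e : (finrank k (pw (((j + 1 : ℕ) : ℤ) • H) r).H0 : ℤ) = (((j + 2) * r : ℕ) : ℤ) := by
      rw [this]; push_cast; ring
    exact_mod_cast e
  obtain ⟨A1, hA1⟩ : ∃ A1 : ℕ, A1 = finrank k ↥((E.twist H).H0 ⊓ LinearMap.ker p') := ⟨_, rfl⟩
  obtain ⟨A2, hA2⟩ : ∃ A2 : ℕ, A2 = finrank k ↥(((E.twist H).twist H).H0 ⊓ LinearMap.ker p') :=
    ⟨_, rfl⟩
  have hA1' : (A1 : ℤ) = (j + 1) * m := by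
    have h1 := finrank_map_add p' (E.twist H).H0
    rw [hB1, hfB, ← hA1] at h1
    have h2 : (finrank k (E.twist H).H0 : ℤ) = (j + 1) * n + r := by
      rw [← hE1]
      unfold fH VB.h0
      rw [hone]
    have h3 : (((j + 2) * r + A1 : ℕ) : ℤ) = (j + 1) * n + r := by rw [h1, h2]
    push_cast at h3
    rw [hnr] at h3
    linarith
  have hA2' : (A2 : ℤ) ≤ (j + 3) * m := by
    have e1 : (A1 : ℤ) = ((E.sub (LinearMap.ker p)).twist H).h0 := by
      rw [hA1, ← VB.twist_sub, VB.h0_sub_eq]; rfl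
    have e2 : (A2 : ℤ) = (((E.sub (LinearMap.ker p)).twist H).twist H).h0 := by
      rw [hA2, ← VB.twist_sub, ← VB.twist_sub, VB.h0_sub_eq]; rfl
    have h1 := VB.rr ((E.sub (LinearMap.ker p)).twist H)
    have h2 := VB.rr (((E.sub (LinearMap.ker p)).twist H).twist H)
    rw [← e1, hA1', VB.deg_twist, hA, hp.deg, ← hmdef, hgen] at h1
    have h3 : ((E.sub (LinearMap.ker p)).twist H).h1 = 0 := by linarith
    have h4 : (((E.sub (LinearMap.ker p)).twist H).twist H).h1 ≤
        ((E.sub (LinearMap.ker p)).twist H).h1 := by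
      refine h1_le_of_map _ _ (LinearMap.lsmul K _ x) ?_ ?_
      · intro z
        exact ⟨x⁻¹ • z, by
          rw [LinearMap.lsmul_apply, smul_smul, mul_inv_cancel₀ hp.x_ne, one_smul]⟩
      · intro P z hz
        obtain ⟨t, ht, htm⟩ := exists_ord_eq P (H P)
        rw [VB.mem_twist_iff ht htm, LinearMap.lsmul_apply, smul_smul, mul_comm, ← smul_smul]
        have h5 := VB.mem_H0.1 hp.memx P
        rw [mem_line] at h5
        rw [smul_smul]
        refine VB.smul_mem _ P _ _ ?_ hz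
        have h6 := mul_mem_filt P h5 (Or.inr htm.ge : t ∈ P.filt (H P))
        rwa [neg_add_cancel] at h6
    have h5 := VB.h1_nonneg (((E.sub (LinearMap.ker p)).twist H).twist H)
    rw [← e2, VB.deg_twist, VB.deg_twist, hA, hp.deg, ← hmdef, hgen] at h2
    linarith
  have hVM : V.map p' ≤ (pw ((j : ℤ) • H) r).H0 := by
    rintro _ ⟨w, hw, rfl⟩
    exact hpH0 w (hV hw)
  have hMfin : Module.Finite k (pw ((j : ℤ) • H) r).H0 := VB.finite_H0 _
  have hVB := Submodule.finrank_mono hVM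
  obtain ⟨vB, hvB⟩ : ∃ vB : ℕ, vB = finrank k (V.map p') := ⟨_, rfl⟩
  obtain ⟨vA, hvA⟩ : ∃ vA : ℕ, vA = finrank k ↥(V ⊓ LinearMap.ker p') := ⟨_, rfl⟩
  have hvAB : vB + vA = finrank k V := by
    rw [hvB, hvA]
    exact finrank_map_add p' V
  rw [hfM, ← hvB] at hVB
  obtain ⟨uB, huB⟩ : ∃ uB : ℕ, vB + uB = (j + 1) * r := ⟨(j + 1) * r - vB, by omega⟩
  have huBZ : (vB : ℤ) + uB = (j + 1) * r := by exact_mod_cast huB
  have hvABZ : (vB : ℤ) + vA = (j + 1) * n - u := by rw [← hk1]; exact_mod_cast hvAB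
  have hvAZ : (vA : ℤ) = (j + 1) * m - (u - uB) := by
    rw [hnr] at hvABZ
    linarith
  -- stability of the kernel
  have hstk : (uB : ℤ) * n < u * r := by
    have h1 := hst _ hker hkerT
    have e1 : (finrank k ↥(V ⊓ (LinearMap.ker p).restrictScalars k) : ℝ) = vA := by rw [hvA]; rfl
    rw [e1, ← hmdef, hA, hd, div_lt_div_iff₀ (by exact_mod_cast hm1) (by exact_mod_cast hn)] at h1
    have e2 : (finrank K W : ℝ) = n := by rw [hndef]; norm_cast
    have e3 : (finrank k V : ℝ) = (j + 1) * n - u := by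
      have h8 : ((finrank k V : ℤ) : ℝ) = (((j + 1) * n - u : ℤ) : ℝ) := by rw [hk1]
      push_cast at h8
      exact h8
    push_cast at h1
    rw [e2, e3] at h1
    have h2 : α * ((vA : ℝ) * n) < α * (((j + 1) * n - u) * m) := by nlinarith
    have h3 := lt_of_mul_lt_mul_left h2 hα.le
    have h4 : (vA : ℤ) * n < ((j + 1) * n - u) * m := by exact_mod_cast h3
    rw [hvAZ] at h4
    rw [hnr] at h4 ⊢
    nlinarith
  have hvA0 : (0 : ℤ) ≤ vA := by positivity
  have hun' : (u : ℤ) < n := by rw [hndef]; exact_mod_cast hun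
  have hnum := dnum (J := (j : ℤ) + 1) (n := n) (r := r) (m := m) (u := u) (uB := uB)
    (by omega) hnr (by exact_mod_cast hr1) (by exact_mod_cast hm1) (by rw [hndef]; exact hq)
    hun'.le (by positivity) (by positivity) hstk (by rw [hvAZ] at hvA0; linarith)
  have hneed : 2 * vB * A1 + ((j + 1) * r - vB) * A2 + vB * ((j + 1) * r - vB) <
      r * r + vB * vA + (j + 2) * r * A1 := by
    have e0 : (j + 1) * r - vB = uB := by omega
    rw [e0]
    have h1 : (uB : ℤ) * A2 ≤ uB * ((j + 3) * m) := mul_le_mul_of_nonneg_left hA2' (by positivity)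
    have h2 : (vB : ℤ) = (j + 1) * r - uB := by linarith
    have h3 : (2 * vB * A1 + uB * A2 + vB * uB : ℤ) < r * r + vB * vA + (j + 2) * r * A1 := by
      rw [hA1', hvAZ, h2]
      nlinarith
    exact_mod_cast h3
  obtain ⟨f1, f, hne, g1, g2, g3, g4, g5⟩ := dcount p' (mulk x W) (mulk y W) (mulk x (Fin r → K))
    (mulk y (Fin r → K)) (fun w => p.map_smul x w) (fun w => p.map_smul y w)
    (fun w => smul_comm x y w) V (E.twist H).H0 ((E.twist H).twist H).H0
    (pw ((j : ℤ) • H) r).H0 (pw (((j + 1 : ℕ) : ℤ) • H) r).H0 hVM hB1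
    (fun z _ => smul_comm x y z)
    (fun z hz => hmulp hp.memx z hz) (fun z hz => hmulp hp.memy z hz)
    (fun w hw => hmulx hp.memx w (hV hw)) (fun w hw => hmulx hp.memy w (hV hw))
    (fun w hw => hmulx hp.memx w hw) (fun w hw => hmulx hp.memy w hw)
    (LinearMap.range (matk k K r))
    (by
      rintro _ ⟨A, rfl⟩ z
      funext i
      show ∑ l, A i l • (x • z l) = x • ∑ l, A i l • z l
      rw [Finset.smul_sum]
      exact Finset.sum_congr rfl fun l _ => smul_comm _ _ _)
    (by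
      rintro _ ⟨A, rfl⟩ z
      funext i
      show ∑ l, A i l • (y • z l) = y • ∑ l, A i l • z l
      rw [Finset.smul_sum]
      exact Finset.sum_congr rfl fun l _ => smul_comm _ _ _)
    (by
      rintro _ ⟨A, rfl⟩ z hz
      rw [mem_pw_H0] at hz ⊢
      intro i
      rw [matk_apply]
      exact Submodule.sum_mem _ fun l _ => Submodule.smul_mem _ _ (hz l))
    (by
      rintro _ ⟨A, rfl⟩ z hz
      rw [mem_pw_H0] at hz ⊢
      intro i
      rw [matk_apply]
      exact Submodule.sum_mem _ fun l _ => Submodule.smul_mem _ _ (hz l))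
    (by
      rintro _ ⟨A, rfl⟩ hz
      have hx0 : x ^ (j + 1) * y ^ 0 ≠ 0 :=
        mul_ne_zero (pow_ne_zero _ hp.x_ne) (pow_ne_zero _ hp.y_ne)
      have hA0 : A = 0 := matk_zero (K := K) (s := x ^ (j + 1) * y ^ 0) hx0 fun l => by
        apply hz
        rw [mem_pw_H0]
        intro i
        by_cases hi : i = l
        · rw [hi, Pi.single_eq_same]
          exact pow_mem_smul hp (j + 1) 0
        · rw [Pi.single_eq_of_ne hi]
          exact zero_mem _
      rw [hA0, map_zero])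
    (by
      rw [finrank_matk, hfM, hfB, ← hvB, ← hvA, ← hA1, ← hA2]
      exact hneed)
  obtain ⟨φ, hφ1, hφ2⟩ := dhom hp (E := E) (j := j) (r := r) hgj f
    (fun b hb => g2 b hb) (fun w hw => g5 w hw)
  have hφV : ∀ v ∈ V.map p', φ v = f1 v := by
    intro v hv
    have h1 := g3 v hv
    have h2 := hφ1 (x • v) (hmulp hp.memx v (hVM hv))
    have h3 : x • φ v = x • f1 v := by
      rw [← map_smul, ← h2]
      exact h1
    exact smul_right_injective _ hp.x_ne h3
  have hψ := dendo hV hα hst (φ ∘ₗ p)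
    (fun P w hw => hφ2 P _ ((hpE P _).2 ⟨w, hw, rfl⟩))
    (fun w hw => by
      have hm : p w ∈ V.map p' := ⟨w, hw, rfl⟩
      rw [LinearMap.comp_apply, hφV _ hm]
      exact g1 _ hm)
    (by
      intro h0
      have hφ0 : ∀ z, φ z = 0 := by
        intro z
        obtain ⟨w, rfl⟩ := hps z
        exact LinearMap.congr_fun h0 w
      rcases hne with ⟨v, hv, hv0⟩ | ⟨b, hb, hb0⟩
      · exact hv0 (by rw [← hφV v hv, hφ0])
      · exact hb0 (by rw [hφ1 b hb, hφ0]))
  apply hker
  rw [eq_bot_iff, ← hψ]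
  intro w hw
  rw [LinearMap.mem_ker, LinearMap.comp_apply, LinearMap.mem_ker.1 hw, map_zero]

end Pool.Agent.MP_09eaec.GG
end

section

/-!
# Stable bundles of degree `2 j n + t` with `(j + 1) (n - c) - u` sections, `n = t + g c + u`
-/

set_option autoImplicit false

namespace Pool.Agent.MP_09eaec.GG

open Module BG

universe u v

variable {k : Type u} {K : Type v} [Field k] [Field K] [Algebra k K]
variable {W : Type v} [AddCommGroup W] [Module K W] [Module k W] [IsScalarTower k K W]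
variable {A : Type v} [AddCommGroup A] [Module K A] [Module k A] [IsScalarTower k K A]

variable [CurveG k K]

private noncomputable def UpperE3_scal (q : A →ₗ[K] K) (c : K) : A →ₗ[k] K :=
  ((LinearMap.lsmul K K c) ∘ₗ q).restrictScalars k

/-- Independent classes for which `s q` extends. -/
theorem exists_classes_line (D : Dv k K) [FiniteDimensional K A] (G : VB k K A)
    (q : A →ₗ[K] K) (s : K) {j : ℕ} (hj : (j : ℤ) + (line D).h1 ≤ G.h1) :
    ∃ u : Place k K →₀ ((Fin j → K) →ₗ[K] A),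
      (∀ c : Fin j → k,
        (∃ w : A, ∀ P, u P (fun i => algebraMap k K (c i)) - w ∈ G.M P) → c = 0) ∧
      ∃ ψ : (Fin j → K) →ₗ[K] K, ∀ (P : Place k K) (y : Fin j → K),
        y ∈ (pw (0 : Dv k K) j).M P → s * q (u P y) + ψ y ∈ (line D).M P := by
  classical
  rcases Nat.eq_zero_or_pos j with h0 | hpos
  · subst h0
    refine ⟨0, fun c _ => Subsingleton.elim _ _, ⟨0, fun P y _ => ?_⟩⟩
    have h1 : s * q ((0 : Place k K →₀ ((Fin 0 → K) →ₗ[K] A)) P y)
        + (0 : (Fin 0 → K) →ₗ[K] K) y = 0 := by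
      simp
    rw [h1]
    exact zero_mem _
  have hj' : j + finrank k (line D).H1 ≤ finrank k G.H1 := by
    have h := hj
    unfold VB.h1 at h
    exact_mod_cast h
  have : Module.Finite k (line D).H1 := VB.finite_H1 _
  have : Module.Finite k G.H1 := Module.finite_of_finrank_pos (by omega)
  let Φ : (Place k K →₀ A) →ₗ[k] (line D).H1 :=
    (line D).N.mkQ ∘ₗ Finsupp.mapRange.linearMap (UpperE3_scal (k := k) q s)
  have hΦ : ∀ b, Φ b = (line D).N.mkQ
      (Finsupp.mapRange.linearMap (UpperE3_scal (k := k) q s) b) := fun b => rfl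
  let S' : Submodule k G.H1 := (LinearMap.ker Φ).map G.N.mkQ
  have hcod : finrank k (G.H1 ⧸ S') ≤ finrank k (line D).H1 := by
    have h1 : LinearMap.ker Φ ≤ LinearMap.ker (S'.mkQ ∘ₗ G.N.mkQ) := by
      intro b hb
      rw [LinearMap.mem_ker, LinearMap.comp_apply]
      exact (Submodule.Quotient.mk_eq_zero _).2 (Submodule.mem_map_of_mem hb)
    let f := (LinearMap.ker Φ).liftQ (S'.mkQ ∘ₗ G.N.mkQ) h1
    have hf : Function.Surjective f := by
      intro x
      obtain ⟨y, rfl⟩ := S'.mkQ_surjective x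
      obtain ⟨b, rfl⟩ := G.N.mkQ_surjective y
      exact ⟨(LinearMap.ker Φ).mkQ b, rfl⟩
    let e := Φ.quotKerEquivRange
    have : Module.Finite k ((Place k K →₀ A) ⧸ LinearMap.ker Φ) :=
      Module.Finite.equiv e.symm
    have h2 := LinearMap.finrank_le_finrank_of_surjective hf
    have h3 : finrank k ((Place k K →₀ A) ⧸ LinearMap.ker Φ) = finrank k (LinearMap.range Φ) :=
      e.finrank_eq
    have h4 : finrank k (LinearMap.range Φ) ≤ finrank k (line D).H1 :=
      Submodule.finrank_le _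
    omega
  have hS' : j ≤ finrank k S' := by
    have h1 := Submodule.finrank_quotient_add_finrank S'
    omega
  let bas := Module.finBasis k S'
  have hex : ∀ l : Fin j, ∃ b ∈ LinearMap.ker Φ, G.N.mkQ b = (bas (Fin.castLE hS' l) : G.H1) :=
    fun l => (bas (Fin.castLE hS' l)).2
  choose b hbS hb using hex
  have hli : LinearIndependent k (fun l : Fin j => G.N.mkQ (b l)) := by
    have h1 : (fun l : Fin j => G.N.mkQ (b l)) = S'.subtype ∘ bas ∘ (Fin.castLE hS') := by
      funext l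
      exact hb l
    rw [h1]
    exact (bas.linearIndependent.comp _ (Fin.castLE_injective hS')).map' _
      (Submodule.ker_subtype _)
  let S : Fin j → A → ((Fin j → K) →ₗ[K] A) := fun i a =>
    (LinearMap.proj i : (Fin j → K) →ₗ[K] K).smulRight a
  have hS : ∀ i, S i 0 = 0 := fun i => by
    ext x
    simp [S]
  have hval' : ∀ P (y : Fin j → K), (∑ i, (b i).mapRange (S i) (hS i)) P y
      = ∑ i, y i • b i P := by
    intro P y
    rw [Finsupp.finsetSum_apply, LinearMap.sum_apply]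
    refine Finset.sum_congr rfl fun i _ => ?_
    rw [Finsupp.mapRange_apply]
    rfl
  refine ⟨∑ i, (b i).mapRange (S i) (hS i), fun c hc => ?_, ?_⟩
  · have hval : ∀ P, (∑ i, (b i).mapRange (S i) (hS i)) P (fun i => algebraMap k K (c i))
        = (∑ i, c i • b i) P := by
      intro P
      rw [hval', Finsupp.finsetSum_apply]
      refine Finset.sum_congr rfl fun i _ => ?_
      rw [Finsupp.smul_apply, algebraMap_smul]
    have hmem : (∑ i, c i • b i) ∈ G.N := by
      obtain ⟨w, hw⟩ := hc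
      refine ⟨w, fun P => ?_⟩
      rw [← hval P]
      exact hw P
    have h0 : ∑ i, c i • G.N.mkQ (b i) = 0 := by
      have h2 : G.N.mkQ (∑ i, c i • b i) = 0 := (Submodule.Quotient.mk_eq_zero _).2 hmem
      rw [map_sum] at h2
      simpa only [map_smul] using h2
    funext i
    exact Fintype.linearIndependent_iff.1 hli c h0 i
  · have hc : ∀ l : Fin j, ∃ c : K, ∀ P, s * q (b l P) - c ∈ (line D).M P := by
      intro l
      have h1 : Φ (b l) = 0 := hbS l
      have h2 : (line D).N.mkQ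
          (Finsupp.mapRange.linearMap (UpperE3_scal (k := k) q s) (b l)) = 0 := by
        rw [← hΦ, h1]
      have h3 := (Submodule.Quotient.mk_eq_zero _).1 h2
      obtain ⟨c, hc⟩ := h3
      exact ⟨c, hc⟩
    choose c hc using hc
    refine ⟨-∑ l, (LinearMap.proj l : (Fin j → K) →ₗ[K] K).smulRight (c l), fun P y hy => ?_⟩
    have h1 : s * q ((∑ i, (b i).mapRange (S i) (hS i)) P y)
        + (-∑ l, (LinearMap.proj l : (Fin j → K) →ₗ[K] K).smulRight (c l)) y
        = ∑ l, y l * (s * q (b l P) - c l) := by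
      rw [hval', map_sum, LinearMap.neg_apply, LinearMap.sum_apply, Finset.mul_sum,
        ← sub_eq_add_neg, ← Finset.sum_sub_distrib]
      refine Finset.sum_congr rfl fun l _ => ?_
      rw [map_smul, LinearMap.smulRight_apply, LinearMap.proj_apply, smul_eq_mul, smul_eq_mul]
      ring
    rw [h1]
    refine Submodule.sum_mem _ fun l _ => ?_
    have h2 : y l ∈ P.filt 0 := by
      have h3 := mem_pw.1 hy l
      simpa using h3
    have h3 := (line D).smul_mem P (y l) _ h2 (hc l P)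
    rwa [smul_eq_mul] at h3

/-- The bundle `G` of rank `m` and degree `-δ`, with an explicit last line bundle. -/
theorem exists_G_single (hg : 3 ≤ gen k K) {m : ℕ} (hm : 2 ≤ m) {a δ : ℤ} (ha : 1 ≤ a)
    (ha' : a < gen k K) (hδ : 1 ≤ δ) {μ : ℝ}
    (hμ : μ * ((gen k K : ℝ) * m - a) = (gen k K : ℝ) * δ) :
    ∃ (G : VB k K (Fin m → K)) (q : (Fin m → K) →ₗ[K] K) (P0 : Place k K) (e : ℤ),
      e ≤ 0 ∧ G.deg = -δ ∧ KerX μ G q ∧
        TopX μ (μ * (a / (gen k K : ℝ))) G q (Finsupp.single P0 e) := by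
  obtain ⟨s, rfl⟩ : ∃ s, m = s + 1 := ⟨m - 1, by omega⟩
  have hs : 1 ≤ s := by omega
  have hgR : (0 : ℝ) < gen k K := by
    have : (0 : ℤ) < gen k K := by omega
    exact_mod_cast this
  have haR : (0 : ℝ) < a := by exact_mod_cast (by omega : (0 : ℤ) < a)
  have hagR : (a : ℝ) < gen k K := by exact_mod_cast ha'
  have hδR : (0 : ℝ) < δ := by exact_mod_cast (by omega : (0 : ℤ) < δ)
  have hsR : (1 : ℝ) ≤ s := by exact_mod_cast hs
  have hx : (0 : ℝ) < a / (gen k K : ℝ) := div_pos haR hgR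
  have hx1 : a / (gen k K : ℝ) < 1 := (div_lt_one hgR).2 hagR
  have hμ' : μ * (((s : ℝ) + 1) - a / (gen k K : ℝ)) = δ := by
    have h1 : (gen k K : ℝ) * (μ * (((s : ℝ) + 1) - a / (gen k K : ℝ))) = (gen k K : ℝ) * δ := by
      rw [← hμ]
      push_cast
      field_simp
    exact mul_left_cancel₀ hgR.ne' h1
  have hμ0 : 0 < μ := by
    have h1 : (0 : ℝ) < ((s : ℝ) + 1) - a / (gen k K : ℝ) := by linarith
    by_contra h2
    have h3 : μ * (((s : ℝ) + 1) - a / (gen k K : ℝ)) ≤ 0 :=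
      mul_nonpos_of_nonpos_of_nonneg (not_lt.1 h2) h1.le
    rw [hμ'] at h3
    linarith
  obtain ⟨h1, h2, h3⟩ := eBG_last hμ0 hx hx1 hs hμ'
  obtain ⟨P0⟩ : Nonempty (Place k K) := by
    have := infinite_places (k := k) (K := K)
    infer_instance
  obtain ⟨X, q, hT, hN⟩ := exists_chain hg P0 hμ0 hs
  obtain ⟨G, q', h4, h5, -⟩ := exists_step hg P0 hN hT (rBG_ge μ s) (e' := ⌊μ * s⌋ + 1 - δ)
    (by omega) (fun _ => h1) h3
  refine ⟨G, q', P0, _, h2, ?_, h5, h4⟩
  have h6 := h4.tot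
  rw [Module.finrank_fin_fun] at h6
  have h7 : ((G.deg : ℤ) : ℝ) = ((-δ : ℤ) : ℝ) := by
    push_cast at h6 ⊢
    linarith
  exact_mod_cast h7

/-- The sections of the dual of the extension. -/
theorem h0_hom_ext {κ D D' : Dv k K} [FiniteDimensional K A] {G : VB k K A} {q : A →ₗ[K] K}
    {s : K} {j : ℕ} {u : Place k K →₀ ((Fin j → K) →ₗ[K] A)} {ψ : (Fin j → K) →ₗ[K] K}
    {a0 : A} (ha0 : q a0 ≠ 0) (hs : s ≠ 0)
    (hqG : ∀ P x, x ∈ G.M P → s * q x ∈ (line D').M P)
    (hψ : ∀ (P : Place k K) (y : Fin j → K),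
      y ∈ (pw (0 : Dv k K) j).M P → s * q (u P y) + ψ y ∈ (line D').M P) :
    j * (line D).h0 + (line (D - D')).h0 ≤
      (hom (ext (G.twist κ) (pw κ j) u) (line (κ + D))).h0 := by
  classical
  set F := ext (G.twist κ) (pw κ j) u with hF
  let θ : (A × (Fin j → K)) →ₗ[K] K :=
    s • (q ∘ₗ LinearMap.fst K A (Fin j → K)) + ψ ∘ₗ LinearMap.snd K A (Fin j → K)
  have hθ : ∀ z, θ z = s * q z.1 + ψ z.2 := fun z => rfl
  have hθm : ∀ P z, z ∈ F.M P → θ z ∈ (line (κ + D')).M P := by
    intro P z hz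
    rw [hF, mem_ext] at hz
    obtain ⟨hz2, hz1⟩ := hz
    obtain ⟨t, ht, htm⟩ := exists_ord_eq P (κ P)
    have e1 : t • (z.1 - u P z.2) ∈ G.M P := (VB.mem_twist.1 hz1) t (Or.inr htm.ge)
    have e2 := hqG P _ e1
    have e3 : t • z.2 ∈ (pw (0 : Dv k K) j).M P := by
      rw [mem_pw]
      intro l
      have hy := mem_pw.1 hz2 l
      have := mul_mem_filt P (Or.inr htm.ge : t ∈ P.filt (κ P)) hy
      refine filt_mono P ?_ this
      simp
    have e4 := hψ P _ e3
    have e5 : t * θ z = s * q (t • (z.1 - u P z.2)) + (s * q (u P (t • z.2)) + ψ (t • z.2)) := by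
      rw [hθ, map_smul, map_smul, map_smul, map_smul, map_sub, smul_eq_mul, smul_eq_mul,
        smul_eq_mul]
      ring
    have e6 : t * θ z ∈ P.filt (- D' P) := by
      rw [e5]
      exact add_mem e2 e4
    rw [mem_line, ← mem_filt_iff_of_ord P ht htm, Finsupp.add_apply]
    have e7 : -(κ P + D' P) + κ P = -D' P := by ring
    rw [e7]
    exact e6
  let Φ : ((Fin j → ↥(line D).H0) × ↥(line (D - D')).H0) →ₗ[k]
      ((A × (Fin j → K)) →ₗ[K] K) :=
    { toFun := fun p => (∑ l, (p.1 l : K) •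
          (LinearMap.proj l ∘ₗ LinearMap.snd K A (Fin j → K) : (A × (Fin j → K)) →ₗ[K] K)) +
          (p.2 : K) • θ
      map_add' := by
        intro p p'
        simp only [Prod.fst_add, Prod.snd_add, Pi.add_apply, Submodule.coe_add, add_smul,
          Finset.sum_add_distrib]
        abel
      map_smul' := by
        intro c p
        simp only [Prod.smul_fst, Prod.smul_snd, Pi.smul_apply, Submodule.coe_smul, smul_assoc,
          RingHom.id_apply, smul_add, Finset.smul_sum] }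
  have hΦ : ∀ p z, Φ p z = (∑ l, (p.1 l : K) * z.2 l) + (p.2 : K) * θ z := by
    intro p z
    show (((∑ l, (p.1 l : K) •
          (LinearMap.proj l ∘ₗ LinearMap.snd K A (Fin j → K) : (A × (Fin j → K)) →ₗ[K] K)) +
          (p.2 : K) • θ) : (A × (Fin j → K)) →ₗ[K] K) z = _
    rw [LinearMap.add_apply, LinearMap.sum_apply, LinearMap.smul_apply, smul_eq_mul]
    rfl
  have hinj : Function.Injective Φ := by
    rw [← LinearMap.ker_eq_bot, LinearMap.ker_eq_bot']
    intro p hp
    have h1 : (p.2 : K) = 0 := by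
      have h2 := hΦ p (a0, 0)
      rw [hp, hθ] at h2
      simp only [Pi.zero_apply, mul_zero, Finset.sum_const_zero, map_zero, add_zero,
        LinearMap.zero_apply, zero_add] at h2
      rcases mul_eq_zero.1 h2.symm with h3 | h3
      · exact h3
      · exact absurd h3 (mul_ne_zero hs ha0)
    have h2 : ∀ l, (p.1 l : K) = 0 := by
      intro l
      have h3 := hΦ p (0, Pi.single l 1)
      rw [hp, h1, zero_mul, add_zero, LinearMap.zero_apply] at h3
      rw [Finset.sum_eq_single l] at h3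
      · simpa using h3.symm
      · intro i _ hi
        show (p.1 i : K) * (Pi.single l 1 : Fin j → K) i = 0
        rw [Pi.single_eq_of_ne hi, mul_zero]
      · intro h
        exact absurd (Finset.mem_univ l) h
    refine Prod.ext (funext fun l => Subtype.ext (h2 l)) (Subtype.ext h1)
  have hrange : LinearMap.range Φ ≤ (hom F (line (κ + D))).H0 := by
    rintro _ ⟨p, rfl⟩
    rw [VB.mem_H0]
    intro P
    rw [mem_hom]
    intro z hz
    rw [hΦ]
    refine add_mem (Submodule.sum_mem _ fun l _ => ?_) ?_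
    · have h1 := VB.mem_H0.1 (p.1 l).2 P
      rw [mem_line] at h1 ⊢
      rw [hF, mem_ext] at hz
      have h2 := mem_pw.1 hz.1 l
      have h3 := mul_mem_filt P h1 h2
      rw [Finsupp.add_apply]
      have e : -(κ P + D P) = -D P + -κ P := by ring
      rw [e]
      exact h3
    · have h1 := VB.mem_H0.1 p.2.2 P
      have h2 := hθm P z hz
      rw [mem_line] at h1 h2 ⊢
      have h3 := mul_mem_filt P h1 h2
      rw [Finsupp.sub_apply, Finsupp.add_apply] at h3
      rw [Finsupp.add_apply]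
      have e : -(κ P + D P) = -(D P - D' P) + -(κ P + D' P) := by ring
      rw [e]
      exact h3
  have : Module.Finite k (hom F (line (κ + D))).H0 := VB.finite_H0 _
  have : Module.Finite k (line D).H0 := VB.finite_H0 _
  have : Module.Finite k (line (D - D')).H0 := VB.finite_H0 _
  have h1 := LinearMap.finrank_range_of_inj hinj
  have h2 := Submodule.finrank_mono hrange
  rw [h1, Module.finrank_prod, Module.finrank_pi_fintype, Finset.sum_const, Finset.card_univ,
    Fintype.card_fin, smul_eq_mul] at h2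
  unfold VB.h0
  exact_mod_cast h2

private theorem UpperE3_H0 [FiniteDimensional K A] {G : VB k K A} {q : A →ₗ[K] K} {D : Dv k K}
    {μ ρ : ℝ} (hρ : ρ < μ) (hμ0 : 0 < μ) (hm : 2 ≤ finrank K A) (hKer : KerX μ G q)
    (hTop : TopX μ ρ G q D) : G.H0 = ⊥ := by
  rw [eq_bot_iff]
  intro s hs
  rw [Submodule.mem_bot]
  by_contra hs0
  have h1 : finrank K (Submodule.span K {s}) = 1 := finrank_span_singleton hs0
  have h2 : ddeg (0 : Dv k K) ≤ (G.sub (Submodule.span K {s})).deg :=
    ddeg_le_sub hs0 (by rw [neg_zero, VB.twist_zero]; exact hs)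
  rw [ddeg_zero] at h2
  have h3 : μ ≤ exs μ G (Submodule.span K {s}) := by
    unfold exs
    rw [h1]
    have h4 : (0 : ℝ) ≤ ((G.sub (Submodule.span K {s})).deg : ℝ) := by exact_mod_cast h2
    push_cast
    linarith
  have hne : Submodule.span K {s} ≠ ⊥ := by
    rw [Ne, Submodule.span_singleton_eq_bot]
    exact hs0
  by_cases hk : Submodule.span K {s} ≤ LinearMap.ker q
  · have h4 := hKer _ hne hk
    linarith
  · have hnt : Submodule.span K {s} ≠ ⊤ := by
      intro h
      rw [h, finrank_top] at h1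
      omega
    have h4 := hTop.top _ hnt hk
    linarith

/-- Degree `2 j n + t`, `n = t + g c + u`, `1 ≤ u ≤ j`. -/
theorem exists_E3 {H : Dv k K} {x y : K} (hp : Pencil H x y) {n j c u0 : ℕ} {t : ℤ}
    (hjg : (j : ℤ) + 2 ≤ gen k K) (hu0 : 1 ≤ u0) (hu0j : u0 ≤ j) (hc : 1 ≤ c) (ht : 1 ≤ t)
    (hn : (n : ℤ) = t + gen k K * c + u0) :
    ∃ E : VB k K (Fin n → K), E.Stable ∧ E.deg = 2 * j * n + t ∧
      (j + 1) * ((n : ℤ) - c) - u0 ≤ E.h0 := by
  classical
  have hg : 3 ≤ gen k K := by omega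
  obtain ⟨a, ha⟩ : ∃ a : ℕ, (a : ℤ) = gen k K - u0 :=
    ⟨(gen k K - u0).toNat, Int.toNat_of_nonneg (by omega)⟩
  have hcZ : (1 : ℤ) ≤ c := by exact_mod_cast hc
  have haZ : (1 : ℤ) ≤ a := by omega
  have hag : (a : ℤ) < gen k K := by omega
  have hgR : (0 : ℝ) < gen k K := by
    have : (0 : ℤ) < gen k K := by omega
    exact_mod_cast this
  have htR : (0 : ℝ) < t := by
    have : (0 : ℤ) < t := by omega
    exact_mod_cast this
  have hagR : (a : ℝ) < gen k K := by exact_mod_cast hag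
  have hgc : gen k K * 1 ≤ gen k K * (c : ℤ) := mul_le_mul_of_nonneg_left hcZ (by omega)
  have hden0 : (gen k K : ℝ) * ((c + 1 : ℕ) : ℝ) - a = ((gen k K * c + u0 : ℤ) : ℝ) := by
    have : gen k K * ((c + 1 : ℕ) : ℤ) - a = gen k K * c + u0 := by
      rw [ha]; push_cast; ring
    rw [← this]
    push_cast
    ring
  have hden : (0 : ℝ) < (gen k K : ℝ) * ((c + 1 : ℕ) : ℝ) - a := by
    rw [hden0]
    have : (0 : ℤ) < gen k K * c + u0 := by omega
    exact_mod_cast this
  obtain ⟨μ, hμd⟩ : ∃ μ : ℝ, μ = (gen k K : ℝ) * t / ((gen k K : ℝ) * ((c + 1 : ℕ) : ℝ) - a) :=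
    ⟨_, rfl⟩
  have hμ : μ * ((gen k K : ℝ) * ((c + 1 : ℕ) : ℝ) - a) = (gen k K : ℝ) * t := by
    rw [hμd, div_mul_cancel₀ _ hden.ne']
  have hμ0 : 0 < μ := by
    rw [hμd]
    exact div_pos (mul_pos hgR htR) hden
  obtain ⟨G, q, P0, e, he, hGd, hKer, hTop⟩ := exists_G_single (k := k) (K := K) hg
    (m := c + 1) (by omega) (a := (a : ℤ)) (δ := t) haZ hag ht (μ := μ) (by push_cast at hμ ⊢; exact hμ)
  rw [Int.cast_natCast] at hTop
  have hfm : finrank K (Fin (c + 1) → K) = c + 1 := Module.finrank_fin_fun K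
  have hG0 : G.H0 = ⊥ := by
    refine UpperE3_H0 (?_ : μ * (a / (gen k K : ℝ)) < μ) hμ0 (by rw [hfm]; omega) hKer hTop
    have h1 : (a : ℝ) / (gen k K : ℝ) < 1 := (div_lt_one hgR).2 hagR
    nlinarith
  have hκ := canon_H hp
  obtain ⟨κ, hκd⟩ : ∃ κ : Dv k K, κ = (gen k K - 1) • H := ⟨_, rfl⟩
  rw [← hκd] at hκ
  obtain ⟨i, hi⟩ : ∃ i : ℕ, n = (c + 1) + i := ⟨n - (c + 1), by
    have h2 : ((c + 1 : ℕ) : ℤ) ≤ n := by
      have h3 : 2 * (c : ℤ) ≤ gen k K * c := mul_le_mul_of_nonneg_right (by omega) (by omega)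
      push_cast
      omega
    have h3 : c + 1 ≤ n := by exact_mod_cast h2
    omega⟩
  have hiZ : (n : ℤ) = c + 1 + i := by exact_mod_cast hi
  have hfi : finrank K (Fin i → K) = i := Module.finrank_fin_fun K
  have hGh1 : G.h1 = t + (gen k K - 1) * (c + 1) := by
    have h1 := VB.rr G
    have h2 : G.h0 = 0 := by rw [VB.h0, hG0, finrank_bot]; rfl
    rw [h2, hGd, hfm] at h1
    push_cast at h1
    linarith
  have hiG : (i : ℤ) = t + (gen k K - 1) * ((c + 1 : ℕ) : ℤ) - a := by
    rw [ha]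
    push_cast
    have : (gen k K - 1) * ((c : ℤ) + 1) = gen k K * c + gen k K - c - 1 := by ring
    rw [this]
    omega
  -- `s` and the classes
  obtain ⟨s, hsH, hs0, -⟩ := base_smul hp u0 P0
  have hu1 : (line ((u0 : ℤ) • H)).h1 = a := by
    have h1 := VB.rr (line ((u0 : ℤ) • H))
    rw [h0_smul hp (by positivity) (by omega), VB.deg_line, ddeg_zsmul, hp.deg, finrank_self] at h1
    push_cast at h1
    omega
  obtain ⟨u, hu, ψ, hψ⟩ := exists_classes_line ((u0 : ℤ) • H) G q s (j := i) (by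
    rw [hu1, hGh1, hiG]; push_cast; linarith)
  have hqG : ∀ P z, z ∈ G.M P → s * q z ∈ (line ((u0 : ℤ) • H)).M P := by
    intro P z hz
    have h1 := (hTop.img P (q z)).2 ⟨z, hz, rfl⟩
    have h2 := VB.mem_H0.1 hsH P
    rw [mem_line] at h1 h2 ⊢
    have h3 := mul_mem_filt P h2 h1
    refine filt_mono P ?_ h3
    have h4 : (Finsupp.single P0 e : Dv k K) P ≤ 0 := by
      rw [Finsupp.single_apply]
      split_ifs <;> omega
    omega
  -- the sections `σ`
  have hσ0 : a ≤ finrank k (line ((gen k K - 1 - u0) • H)).H0 := by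
    have h1 := h0_smul hp (s := gen k K - 1 - u0) (by omega) (by omega)
    unfold VB.h0 at h1
    omega
  obtain ⟨f, hf⟩ := exists_linearIndependent_of_le_finrank (R := k) hσ0
  have hfl : LinearIndependent k (fun l => ((f l : (line ((gen k K - 1 - u0) • H)).H0) : K)) :=
    hf.map' (line ((gen k K - 1 - u0) • H)).H0.subtype (Submodule.ker_subtype _)
  let σ : Fin a → K := fun l => s * (f l : K)
  have hσ : LinearIndependent k σ := by
    have h1 : LinearMap.ker (LinearMap.mulLeft k s) = ⊥ := by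
      rw [LinearMap.ker_eq_bot']
      intro z hz
      exact (mul_eq_zero.1 hz).resolve_left hs0
    exact hfl.map' (LinearMap.mulLeft k s) h1
  have hκu : κ = (u0 : ℤ) • H + (gen k K - 1 - u0) • H := by
    rw [hκd, ← add_smul]
    congr 1
    ring
  have hσD : ∀ l, σ l ∈ (line (κ - Finsupp.single P0 e)).H0 := by
    intro l
    rw [VB.mem_H0]
    intro P
    have h1 := VB.mem_H0.1 hsH P
    have h2 := VB.mem_H0.1 (f l).2 P
    rw [mem_line] at h1 h2 ⊢
    have h3 := mul_mem_filt P h1 h2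
    refine filt_mono P ?_ h3
    have h4 : (Finsupp.single P0 e : Dv k K) P ≤ 0 := by
      rw [Finsupp.single_apply]
      split_ifs <;> omega
    rw [hκu, Finsupp.sub_apply, Finsupp.add_apply]
    omega
  have hψ' : ∀ l : Fin a, ∃ ψ' : (Fin i → K) →ₗ[K] K, ∀ (P : Place k K) (z : Fin i → K),
      z ∈ (pw (0 : Dv k K) i).M P → σ l * q (u P z) + ψ' z ∈ (line κ).M P := by
    intro l
    refine ⟨(f l : K) • ψ, fun P z hz => ?_⟩
    have h1 := hψ P z hz
    have h2 := VB.mem_H0.1 (f l).2 P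
    rw [mem_line] at h1 h2 ⊢
    have h3 := mul_mem_filt P h2 h1
    have e1 : σ l * q (u P z) + ((f l : K) • ψ) z = (f l : K) * (s * q (u P z) + ψ z) := by
      rw [LinearMap.smul_apply, smul_eq_mul]
      ring
    rw [e1, hκu, Finsupp.add_apply]
    have e2 : -(((u0 : ℤ) • H) P + ((gen k K - 1 - u0) • H) P) =
        -((gen k K - 1 - u0) • H) P + -((u0 : ℤ) • H) P := by ring
    rw [e2]
    exact h3
  have hback : (G.twist κ).twist (-κ) = G := by
    rw [VB.twist_twist, add_neg_cancel, VB.twist_zero]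
  have h0 : ((ext (G.twist κ) (pw κ i) u).twist (-κ)).H0 = ⊥ :=
    H0_twist_ext_bot u (by rw [hback]; exact hG0) (by rw [hback]; exact hu)
  obtain ⟨hst, hdeg⟩ := stable_E hκ (G := G) (q := q) (D := Finsupp.single P0 e) (a := a)
    (j := i) (δ := t) (μ := μ) (by rw [hfm]; omega) hag ht hGd (by rw [hfm]; exact hiG)
    (by rw [hfm]; exact hμ) hKer hTop hσ hσD u hψ' h0
  rw [hfm] at hdeg
  -- the dual
  obtain ⟨a0, ha0⟩ : ∃ a0, q a0 ≠ 0 := by
    obtain ⟨τ, hτ0, hτ⟩ := exists_ord_eq P0 (-(Finsupp.single P0 e : Dv k K) P0)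
    obtain ⟨a0, -, h1⟩ := (hTop.img P0 τ).1 (by rw [mem_line]; exact Or.inr hτ.ge)
    exact ⟨a0, by rw [h1]; exact hτ0⟩
  have h0s := h0_hom_ext (κ := κ) (D := (j : ℤ) • H) (D' := (u0 : ℤ) • H) (u := u) ha0 hs0 hqG hψ
  rw [← sub_smul, h0_smul hp (by positivity) (by omega), h0_smul hp (by omega) (by omega)] at h0s
  have hfr1 : finrank K ((Fin (c + 1) → K) × (Fin i → K)) = n := by
    rw [Module.finrank_prod, hfm, hfi, hi]
  have hfr : finrank K (((Fin (c + 1) → K) × (Fin i → K)) →ₗ[K] K) = n := by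
    rw [Module.finrank_linearMap, Module.finrank_self, mul_one, hfr1]
  obtain ⟨E', f', hE', h1, -, -, -, h2⟩ :=
    exists_transport (hom (ext (G.twist κ) (pw κ i) u) (line (κ + (j : ℤ) • H))) hfr
  refine ⟨E', h2 (stable_hom_line hst _), ?_, ?_⟩
  · rw [h1, deg_hom_line, hfr1, hdeg, ddeg_add, ddeg_zsmul, hp.deg, hκ.ddeg]
    push_cast
    rw [hiZ]
    ring
  · rw [hE', VB.h0_map]
    have : (j + 1) * ((n : ℤ) - c) - u0 = i * ((j : ℤ) + 1) + ((j : ℤ) - u0 + 1) := by
      rw [hiZ]; ring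
    rw [this]
    exact h0s

/-- Degree `2 j n + t`, `n = t + g c`. -/
theorem exists_E3_zero {H : Dv k K} {x y : K} (hp : Pencil H x y) {n j c : ℕ} {t : ℤ}
    (hjg : (j : ℤ) + 2 ≤ gen k K) (hc : 1 ≤ c) (ht : 1 ≤ t) (hn : (n : ℤ) = t + gen k K * c) :
    ∃ E : VB k K (Fin n → K), E.Stable ∧ E.deg = 2 * j * n + t ∧
      (j + 1) * ((n : ℤ) - c) ≤ E.h0 := by
  have hcZ : (1 : ℤ) ≤ c := by exact_mod_cast hc
  have hgc : gen k K * 1 ≤ gen k K * (c : ℤ) := mul_le_mul_of_nonneg_left hcZ (by omega)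
  have hgc2 : 2 * (c : ℤ) ≤ gen k K * c := mul_le_mul_of_nonneg_right (by omega) (by omega)
  obtain ⟨F, hF, hFd, -, hFs⟩ := exists_low_stable (k := k) (K := K) (n := n) (i := c) (d := -t)
    hc (by
      have : (c : ℤ) ≤ n := by omega
      exact_mod_cast this) (by omega) (by omega) (Or.inr (by rw [hn]; ring))
  have hfn : finrank K (Fin n → K) = n := Module.finrank_fin_fun K
  have hfr : finrank K ((Fin n → K) →ₗ[K] K) = n := by
    rw [Module.finrank_linearMap, Module.finrank_self, mul_one, hfn]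
  obtain ⟨E', f', hE', h1, -, -, -, h2⟩ :=
    exists_transport (hom F (line ((j : ℤ) • H))) hfr
  refine ⟨E', h2 (stable_hom_line hF _), ?_, ?_⟩
  · rw [h1, deg_hom_line, hfn, hFd, ddeg_zsmul, hp.deg]
    ring
  · rw [hE', VB.h0_map]
    have h3 := fH_eq hp F (gen k K - 1 - j)
    have h4 := hFs ((gen k K - 1 - j) • H)
    have e1 : gen k K - 1 - (gen k K - 1 - j) = (j : ℤ) := by ring
    rw [e1, hFd, hfn] at h3
    rw [ddeg_zsmul, hp.deg, h0_smul hp (by omega) (by omega)] at h4
    unfold fH at h3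
    rw [h3] at h4
    have e2 : (hom F (line ((j : ℤ) • H))).h0 ≥ -t + c * ((gen k K - 1 - j) * 2) -
        (gen k K - 1) * c + (n - c) * (gen k K - 1 - j + 1) + t -
        (2 * (gen k K - 1 - j) - (gen k K - 1)) * n := by linarith
    have e3 : -t + c * ((gen k K - 1 - j) * 2) -
        (gen k K - 1) * c + (n - c) * (gen k K - 1 - j + 1) + t -
        (2 * (gen k K - 1 - j) - (gen k K - 1)) * n = (j + 1) * ((n : ℤ) - c) := by ring
    linarith

/-- The upper bound `2 j n + max 1 (n - φ)`, `φ = g c + u0`, `u = (j + 1) c + u0`. -/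
theorem he_upper_phi {H : Dv k K} {x y : K} (hp : Pencil H x y) {n d j c u0 : ℕ}
    (hn : 2 ≤ n) (hj : 1 ≤ j) (hjg : (j : ℤ) + 2 ≤ gen k K) (hc : 1 ≤ c) (hu0 : u0 ≤ j)
    (hd : d + ((j + 1) * c + u0) = (j + 1) * n) :
    (2 * j * n + max 1 (n - (gen k K * c + u0)) : ℤ) ∈ stableDegrees k K n d := by
  have hdZ : (d : ℤ) + ((j + 1) * c + u0) = (j + 1) * n := by exact_mod_cast hd
  -- from a stable bundle
  have key : ∀ (v0 : ℕ) (t : ℤ), v0 ≤ u0 → 1 ≤ t → (n : ℤ) = t + gen k K * c + v0 →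
      (2 * j * n + t : ℤ) ∈ stableDegrees k K n d := by
    intro v0 t hv0 ht hnt
    rcases Nat.eq_zero_or_pos v0 with h | h
    · subst h
      obtain ⟨E, hE, hEd, hEs⟩ := exists_E3_zero hp (n := n) (j := j) (c := c) hjg hc ht
        (by rw [hnt]; push_cast; ring)
      rw [← hEd]
      refine stable_mem (by omega) hE (le_trans ?_ hEs)
      have : (0 : ℤ) ≤ u0 := by positivity
      nlinarith
    · obtain ⟨E, hE, hEd, hEs⟩ := exists_E3 hp (n := n) (j := j) (c := c) hjg h (by omega) hc ht hnt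
      rw [← hEd]
      refine stable_mem (by omega) hE (le_trans ?_ hEs)
      have : (v0 : ℤ) ≤ u0 := by exact_mod_cast hv0
      nlinarith
  rcases le_or_gt ((n : ℤ) - (gen k K * c + u0)) 1 with h | h
  · rw [max_eq_left h]
    rcases le_or_gt ((n : ℤ) - 1) (gen k K * c) with h1 | h1
    · have e : (j + 1) * c + u0 = u0 + (j + 1) * c := by ring
      refine he_upper_one hp hn hjg hd (by
        have : 1 * 1 ≤ (j + 1) * c := Nat.mul_le_mul (by omega) hc
        omega) (Or.inl ?_)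
      have e2 : ((j + 1) * c + u0) / (j + 1) = c := by
        rw [Nat.mul_add_div (by omega), Nat.div_eq_of_lt (by omega), add_zero]
      rw [e2]
      exact h1
    · obtain ⟨v0, hv0⟩ : ∃ v0 : ℕ, (v0 : ℤ) = n - gen k K * c - 1 :=
        ⟨((n : ℤ) - gen k K * c - 1).toNat, Int.toNat_of_nonneg (by omega)⟩
      refine key v0 1 ?_ le_rfl (by omega)
      have : (v0 : ℤ) ≤ u0 := by omega
      exact_mod_cast this
  · rw [max_eq_right h.le]
    exact key u0 _ le_rfl (by omega) (by ring)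

end Pool.Agent.MP_09eaec.GG
end
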