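import Pool.Agent.Lib.MP_09eaec_ag.Mg.G020
import Pool.Agent.Lib.MP_09eaec_ag.Mg.G022
import Pool.Agent.Lib.MP_09eaec_ag.Mg.G015
import Pool.Agent.Lib.MP_09eaec_ag.Mg.G002
import Pool.Agent.Lib.MP_09eaec_ag.Mg.G009
import Pool.Agent.Lib.MP_09eaec_ag.Mg.G014
import Pool.Agent.Lib.MP_09eaec_ag.Mg.G018
import Pool.Agent.Lib.MP_09eaec_ag.Mg.G010
import Pool.Agent.Lib.MP_09eaec_ag.Mg.G003
import Pool.Agent.Lib.MP_09eaec_ag.Mg.G023
import Pool.Agent.Lib.MP_09eaec_ag.Mg.G021
import Pool.Agent.Lib.MP_09eaec_ag.Mg.G017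
import Pool.Agent.Lib.MP_09eaec_ag.Mg.G026
import Pool.Agent.Lib.MP_09eaec_ag.Mg.G007

section

/-!
# TASK Base4: rank two, degree four, on a curve which is not hyperelliptic

Suppose `4 ≤ X.h0`. Let `P` be a place (`infinite_places`), `Y = X.twist (-single P 1)`. `Y.h0 ≥ X.h0 - 2 ≥ 2` (`VB.rr` for
both, `deg_twist`, and `Y.h1 ≥ X.h1`: `h1_le_of_le` in HY/ExtLow, or `Y ≤ X` with colength two). Let `w : Fin 2 → W`
be two sections of `Y`, independent over `k`.
 * dependent over `K`: `J = span K (range w)` has rank one, `(Y.sub J).h0 ≥ 2`, so `(Y.sub J).deg ≥ 3` (`three_sec`),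
   `(X.sub J).deg = (Y.sub J).deg + 1 ≥ 4` (`twist_sub`, `deg_twist`), against `hsub`.
 * independent: `exists_frame_le` (HE/LowerTop) with `D = 0`: `f` with `pw 0 2 ≤ Y.map f`, `deg = 0 < 2 = Y.deg`, so
   `exists_rank_one_of_lt` (HE/RankOne): `J` of rank one with `1 ≤ ((Y.map f).sub J).deg`; pull back (`deg_sub_map`):
   `J'` with `(X.sub J').deg ≥ 2`, so `= 2` (`hsub`). `X.h0 ≤ (X.sub J').h0 + (X.quo J').h0` (`finrank_image_le` in
   HY/SysQuo with `V = X.H0`, `h0_sub_eq`), both rank one of degree two (`VB.deg_add`), so `h0 ≤ 1` each (`three_sec`).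
-/

set_option autoImplicit false

namespace Pool.Agent.MP_09eaec.GG.G3

open Module

universe u v

variable {k : Type u} {K : Type v} [Field k] [Field K] [Algebra k K]
variable {W : Type v} [AddCommGroup W] [Module K W] [Module k W] [IsScalarTower k K W]
variable {A : Type v} [AddCommGroup A] [Module K A] [Module k A] [IsScalarTower k K A]
variable {B : Type v} [AddCommGroup B] [Module K B] [Module k B] [IsScalarTower k K B]

variable [CurveG k K]

theorem base4 (hg : 1 ≤ gen k K) (hnh : NonHyp k K) [FiniteDimensional K W] {X : VB k K W}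
    (h2 : finrank K W = 2) (hd : X.deg = 4)
    (hsub : ∀ J : Submodule K W, finrank K J = 1 → (X.sub J).deg ≤ 2) : X.h0 ≤ 3 := by
  by_contra hcon
  push Not at hcon
  obtain ⟨P⟩ : Nonempty (Place k K) := (infinite_places (k := k) (K := K)).nonempty
  set D : Dv k K := -Finsupp.single P 1 with hD
  have hdD : ddeg D = -1 := by
    rw [hD, ddeg_neg, ddeg_single]
  have hDle : ∀ Q, D Q ≤ 0 := fun Q => by
    classical
    rw [hD, Finsupp.neg_apply, Finsupp.single_apply]
    split_ifs <;> omega
  set Y : VB k K W := X.twist D with hY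
  have hYX : Y ≤ X := by
    intro Q x hx
    have h1 := VB.mem_twist.1 hx 1 (Or.inr (by rw [Q.ord_one]; exact hDle Q))
    rwa [one_smul] at h1
  have hYd : Y.deg = 2 := by
    rw [hY, VB.deg_twist, hdD, h2, hd]
    norm_num
  have hYh := h0_sub_deg_le hYX
  have hY2 : 2 ≤ Y.h0 := by omega
  have hYn : 2 ≤ finrank k Y.H0 := by
    unfold VB.h0 at hY2
    omega
  let b := Module.finBasis k Y.H0
  set w : Fin 2 → W := fun i => ((b (Fin.castLE hYn i) : Y.H0) : W) with hw
  have hwk : LinearIndependent k (fun i : Fin 2 => b (Fin.castLE hYn i)) :=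
    b.linearIndependent.comp _ (Fin.castLE_injective hYn)
  have hwW : LinearIndependent k w := hwk.map' Y.H0.subtype (Submodule.ker_subtype _)
  have hwY : ∀ i, w i ∈ Y.H0 := fun i => (b (Fin.castLE hYn i)).2
  have htw : ∀ J : Submodule K W, finrank K J = 1 → (Y.sub J).deg = (X.sub J).deg - 1 := by
    intro J hJ
    rw [hY, VB.twist_sub, VB.deg_twist, hdD, hJ]
    norm_num
    ring
  by_cases hli : LinearIndependent K w
  · -- independent over `K`
    obtain ⟨f, hf⟩ := exists_frame_le (E := Y) (D := 0) h2 (w := w) (fun i => by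
      rw [VB.mem_H0]
      intro Q c hc
      exact Y.smul_mem Q c _ (by simpa using hc) (VB.mem_H0.1 (hwY i) Q)) hli
    obtain ⟨J0, hJ0, hJ0d⟩ := exists_rank_one_of_lt hf (by
      rw [deg_pw, VB.deg_map, hYd, ddeg_zero]
      norm_num)
    rw [ddeg_zero] at hJ0d
    set J : Submodule K W := J0.comap f.toLinearMap with hJdef
    have hJm : J.map f.toLinearMap = J0 :=
      Submodule.map_comap_eq_of_surjective f.surjective J0
    have hJ1 : finrank K J = 1 := by
      rw [← hJ0, ← hJm]
      exact (LinearEquiv.finrank_map_eq f J).symm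
    rw [← hJm, VB.deg_sub_map] at hJ0d
    have h3 := htw J hJ1
    have h4 := hsub J hJ1
    have h5 := VB.deg_add X J
    have h6 := Submodule.finrank_quotient_add_finrank J
    have h7 := finrank_image_le (E := X) (V := X.H0) le_rfl J
    rw [← VB.h0_sub_eq] at h7
    have h8 : (X.sub J).h0 ≤ 1 := by
      by_contra hc
      have := three_sec hg hnh (E := X.sub J) hJ1 (by omega)
      omega
    have h9 : (X.quo J).h0 ≤ 1 := by
      by_contra hc
      have := three_sec hg hnh (E := X.quo J) (by omega) (by omega)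
      omega
    have h10 : X.h0 = (finrank k X.H0 : ℤ) := rfl
    omega
  · -- dependent over `K`
    set J : Submodule K W := Submodule.span K (Set.range w) with hJdef
    have hwJ : ∀ i, w i ∈ J := fun i => Submodule.subset_span ⟨i, rfl⟩
    have hJ1 : finrank K J = 1 := by
      have h3 : finrank K J ≤ 2 := by
        have := finrank_range_le_card (R := K) w
        rw [Fintype.card_fin] at this
        exact this
      have h4 : finrank K J ≠ 2 := fun h => by
        apply hli
        rw [linearIndependent_iff_card_eq_finrank_span, Fintype.card_fin]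
        exact h.symm
      have h5 : finrank K J ≠ 0 := fun h => by
        have h6 := Submodule.finrank_eq_zero.1 h
        have h7 : w 0 = 0 := by
          have := hwJ 0
          rw [h6] at this
          exact (Submodule.mem_bot K).1 this
        exact hwW.ne_zero 0 h7
      omega
    have h3 : 2 ≤ (Y.sub J).h0 := by
      let w' : Fin 2 → (Y.sub J).H0 := fun i => ⟨⟨w i, hwJ i⟩,
        VB.mem_H0.2 fun Q => VB.mem_sub.2 (VB.mem_H0.1 (hwY i) Q)⟩
      have h4 : LinearIndependent k w' := by
        refine LinearIndependent.of_comp ((J.subtype.restrictScalars k).comp (Y.sub J).H0.subtype) ?_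
        exact hwW
      have h5 := h4.fintype_card_le_finrank
      rw [Fintype.card_fin] at h5
      unfold VB.h0
      exact_mod_cast h5
    have h4 := three_sec hg hnh (E := Y.sub J) hJ1 h3
    have h5 := htw J hJ1
    have h6 := hsub J hJ1
    omega

end Pool.Agent.MP_09eaec.GG.G3
end

section

/-!
# TASK NHBound: slopes at most two on a curve of genus three which is not hyperelliptic

Strong induction on `finrank K W` (for all `W`). `finrank = 0`: `h0 = 0`.
 * If there is `φ ≠ 0` from `T` to `line 0`: `J = ker φ`, `ker_bounds` (GG/SysDefs) with `V = T.H0`, `D = 0`: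
   `T.h0 ≤ vd T.H0 J + 1 = (T.sub J).h0 + 1` (`h0_sub_eq`, `h0_line_zero`), induction for `T.sub J`
   (`deg_sub_sub`, the slopes of its subspaces are at most two).
 * Otherwise `pr_or` with `V = T.H0`: either `3 h0 ≤ deg + 2 n ≤ 4 n` (`hsub` for `⊤`, `deg_sub_top`), so
   `2 h0 ≤ 3 n`; or `J` of rank one with `deg ≥ 2`, so `= 2`, and two sections, against `three_sec`
   (`(T.sub J).h0 ≥ vd`, `vd_le_h0`); or `J` of rank two with `deg ≥ 4`, so `= 4`: `base4` for `T.sub J`
   (`deg_sub_sub`): `h0 ≤ 3`; the subspaces of `T.quo J` have slope at most two (`deg_quo_sub`,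
   `finrank_comap_mkQ` in HY/QuoSub), induction; `T.h0 ≤ (T.quo J).h0 + (T.sub J).h0` (`finrank_image_le`).
-/

set_option autoImplicit false

namespace Pool.Agent.MP_09eaec.GG.G3

open Module

universe u v

variable {k : Type u} {K : Type v} [Field k] [Field K] [Algebra k K]
variable {W : Type v} [AddCommGroup W] [Module K W] [Module k W] [IsScalarTower k K W]
variable {A : Type v} [AddCommGroup A] [Module K A] [Module k A] [IsScalarTower k K A]
variable {B : Type v} [AddCommGroup B] [Module K B] [Module k B] [IsScalarTower k K B]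

variable [CurveG k K]

private theorem NHBound_aux (hg : gen k K = 3) (hnh : NonHyp k K) {κ : Dv k K}
    (hκ : IsCanonical κ) (n : ℕ) :
    ∀ (W : Type v) [AddCommGroup W] [Module K W] [Module k W] [IsScalarTower k K W]
      [FiniteDimensional K W] (T : VB k K W), finrank K W = n →
      (∀ J : Submodule K W, (T.sub J).deg ≤ 2 * finrank K J) →
      2 * T.h0 ≤ 3 * finrank K W := by
  induction n using Nat.strong_induction_on with
  | _ n ih =>
    intro W _ _ _ _ _ T hn hsub
    have hH0 : T.h0 = (finrank k T.H0 : ℤ) := rfl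
    by_cases hφ : ∃ φ : W →ₗ[K] K, φ ≠ 0 ∧ ∀ P x, x ∈ T.M P → φ x ∈ (line 0).M P
    · obtain ⟨φ, hφ0, hφ⟩ := hφ
      obtain ⟨-, h2, h3⟩ := ker_bounds hφ0 hφ
      have h4 := h3 T.H0 le_rfl
      rw [h0_line_zero] at h4
      have h5 : (T.sub (LinearMap.ker φ)).h0 =
          finrank k ↥(T.H0 ⊓ (LinearMap.ker φ).restrictScalars k) := VB.h0_sub_eq T _
      have h6 := ih (finrank K (LinearMap.ker φ)) (by omega) (LinearMap.ker φ)
        (T.sub (LinearMap.ker φ)) rfl (fun J' => by
          rw [VB.deg_sub_sub, ← Submodule.finrank_map_subtype_eq (LinearMap.ker φ) J']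
          exact hsub _)
      omega
    · have h0 : ∀ φ : W →ₗ[K] K, (∀ P x, x ∈ T.M P → φ x ∈ (line 0).M P) → φ = 0 := by
        intro φ h
        by_contra hne
        exact hφ ⟨φ, hne, h⟩
      rcases pr_or hg hκ (F := T) (V := T.H0) le_rfl h0 with h1 | ⟨J, ⟨h1, h2, h3⟩ | ⟨h1, h2, h3⟩⟩
      · have h2 := hsub ⊤
        rw [VB.deg_sub_top, finrank_top] at h2
        omega
      · exfalso
        have h4 : (T.sub J).h0 = vd T.H0 J := VB.h0_sub_eq T J
        have h5 := three_sec (by omega) hnh (E := T.sub J) h1 (by omega)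
        have h6 := hsub J
        rw [h1] at h6
        push_cast at h6
        omega
      · have h4 : (T.sub J).h0 = vd T.H0 J := VB.h0_sub_eq T J
        have h6 := hsub J
        rw [h1] at h6
        push_cast at h6
        have h7 : (T.sub J).deg = 4 := by omega
        have h8 := base4 (by omega) hnh (X := T.sub J) h1 h7 (fun J' hJ' => by
          have h9 := hsub (J'.map J.subtype)
          rw [Submodule.finrank_map_subtype_eq, hJ', ← VB.deg_sub_sub] at h9
          push_cast at h9
          omega)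
        have h9 := Submodule.finrank_quotient_add_finrank J
        have h10 := ih (finrank K (W ⧸ J)) (by omega) (W ⧸ J) (T.quo J) rfl (fun J' => by
          have h11 := deg_quo_sub T J J'
          have h12 := finrank_comap_mkQ J J'
          have h13 := hsub (J'.comap J.mkQ)
          rw [h12, h1] at h13
          push_cast at h13
          omega)
        have h11 := finrank_image_le (E := T) (V := T.H0) le_rfl J
        omega

theorem nh_bound (hg : gen k K = 3) (hnh : NonHyp k K) [FiniteDimensional K W] {T : VB k K W}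
    (hsub : ∀ J : Submodule K W, (T.sub J).deg ≤ 2 * finrank K J) :
    2 * T.h0 ≤ 3 * finrank K W := by
  obtain ⟨κ, hκ⟩ := exists_canonical (k := k) (K := K)
  exact NHBound_aux hg hnh hκ _ W T rfl hsub

end Pool.Agent.MP_09eaec.GG.G3
end

section

/-!
# TASK QuoGt: all quotients have slope greater than two

Suppose `J1 ≠ ⊤` has `(E.quo J1).deg ≤ 2 rank`. `exists_min_quo` (HY/MinQuo; `W` is nontrivial): `J ≠ ⊤`, `Q = E.quo J`
stable, of minimal slope, so `Q.deg ≤ 2 rank Q`. Its subspaces have slope at most two (stable, `deg_sub_top`), so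
`2 Q.h0 ≤ 3 rank Q` (`quo_gt_nh`: `nh_bound`), resp. `Q.h0 ≤ 2 rank Q` (`quo_gt_h`: hyperelliptic; `Q.deg = 2 rank`:
`stable_even` with `i = 1`; `Q.deg < 2 rank`: `stable_lt` with `j = 1`, `gen = 3`: `3 h0 < 4 rank`).
`k ≤ Q.h0 + vd V J` (`finrank_image_le`). If `J = ⊥`: `vd = 0`, `d = Q.deg` (`deg_quo_bot`): against `hμ`. Otherwise the
stability inequality for `J`, `d = deg J + deg Q`, `n = rank J + rank Q`: `(d + α k) / n < (deg Q + α (k - vd)) / rank Q
≤ 2 + 3 α / 2` (resp. `2 + 2 α`), against `hμ`.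
-/

set_option autoImplicit false

namespace Pool.Agent.MP_09eaec.GG.G3

open Module

universe u v

variable {k : Type u} {K : Type v} [Field k] [Field K] [Algebra k K]
variable {W : Type v} [AddCommGroup W] [Module K W] [Module k W] [IsScalarTower k K W]
variable {A : Type v} [AddCommGroup A] [Module K A] [Module k A] [IsScalarTower k K A]
variable {B : Type v} [AddCommGroup B] [Module K B] [Module k B] [IsScalarTower k K B]

variable [CurveG k K]

/-- The common part: `c` bounds the number of sections per rank of the stable quotients of slope at most two. -/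
private theorem QuoGt_core [FiniteDimensional K W] {E : VB k K W}
    {V : Submodule k W} (hV : V ≤ E.H0) {α c : ℝ} (hα : 0 < α) (hn : 1 ≤ finrank K W)
    (hst : E.StableSys α V)
    (hμ : (2 + c * α) * finrank K W < (E.deg : ℝ) + α * finrank k V)
    (hc : ∀ J : Submodule K W, J ≠ ⊤ → (E.quo J).Stable →
      (E.quo J).deg ≤ 2 * (finrank K (W ⧸ J) : ℤ) → ((E.quo J).h0 : ℝ) ≤ c * finrank K (W ⧸ J))
    {J : Submodule K W} (hJ : J ≠ ⊤) : 2 * (finrank K (W ⧸ J) : ℤ) < (E.quo J).deg := by
  by_contra hcon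
  push Not at hcon
  have : Nontrivial W := by
    apply Module.nontrivial_of_finrank_pos (R := K)
    omega
  have hpos : ∀ J : Submodule K W, J ≠ ⊤ → 1 ≤ finrank K (W ⧸ J) := by
    intro J hJ
    have : Nontrivial (W ⧸ J) := Submodule.Quotient.nontrivial_iff.2 hJ
    exact Module.finrank_pos
  obtain ⟨I, hI, hIst, hmin⟩ := exists_min_quo E
  have h1 := hmin J hJ
  have hqJ : (1 : ℤ) ≤ finrank K (W ⧸ J) := by exact_mod_cast hpos J hJ
  have hqI : (1 : ℤ) ≤ finrank K (W ⧸ I) := by exact_mod_cast hpos I hI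
  have h2 : (E.quo I).deg ≤ 2 * (finrank K (W ⧸ I) : ℤ) := by
    have h3 : (E.quo I).deg * (finrank K (W ⧸ J) : ℤ) ≤
        2 * (finrank K (W ⧸ I) : ℤ) * finrank K (W ⧸ J) := by
      have := mul_le_mul_of_nonneg_right hcon (show (0 : ℤ) ≤ finrank K (W ⧸ I) by omega)
      linarith
    exact le_of_mul_le_mul_right h3 (by omega)
  have h3 := hc I hI hIst h2
  have h4 : (finrank k V : ℝ) ≤ (E.quo I).h0 + vd V I := by
    exact_mod_cast finrank_image_le hV I
  have h2' : ((E.quo I).deg : ℝ) ≤ 2 * finrank K (W ⧸ I) := by exact_mod_cast h2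
  have hqI' : (1 : ℝ) ≤ finrank K (W ⧸ I) := by exact_mod_cast hqI
  by_cases hb : I = ⊥
  · subst hb
    rw [vd_bot] at h4
    rw [VB.deg_quo_bot] at h2'
    have hbq := Submodule.finrank_quotient_add_finrank (⊥ : Submodule K W)
    rw [finrank_bot, add_zero] at hbq
    rw [hbq] at h3 h2'
    push_cast at h4
    nlinarith
  · have h5 := hst I hb hI
    have hr0 : 1 ≤ finrank K I := Submodule.one_le_finrank_iff.2 hb
    have hr0' : (0 : ℝ) < finrank K I := by exact_mod_cast hr0
    have hn' : (0 : ℝ) < finrank K W := by exact_mod_cast hn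
    rw [div_lt_div_iff₀ hr0' hn'] at h5
    have h6 : (((E.sub I).deg : ℝ) + α * (vd V I : ℝ)) * finrank K W <
        ((E.deg : ℝ) + α * finrank k V) * finrank K I := h5
    have h7 : (E.deg : ℝ) = (E.sub I).deg + (E.quo I).deg := by exact_mod_cast VB.deg_add E I
    have h8 : (finrank K (W ⧸ I) : ℝ) + finrank K I = finrank K W := by
      exact_mod_cast Submodule.finrank_quotient_add_finrank I
    have h9 : (E.quo I).deg + α * ((finrank k V : ℝ) - vd V I) ≤
        (2 + c * α) * finrank K (W ⧸ I) := by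
      have : α * ((finrank k V : ℝ) - vd V I) ≤ α * (c * finrank K (W ⧸ I)) :=
        mul_le_mul_of_nonneg_left (by linarith) hα.le
      linarith
    have h10 : ((E.deg : ℝ) + α * finrank k V) * finrank K (W ⧸ I) <
        ((E.quo I).deg + α * ((finrank k V : ℝ) - vd V I)) * finrank K W := by
      rw [← h8] at h6 ⊢
      rw [h7] at h6 ⊢
      nlinarith
    have h11 := mul_le_mul_of_nonneg_right h9 hn'.le
    have h12 := mul_lt_mul_of_pos_right hμ (show (0 : ℝ) < finrank K (W ⧸ I) by linarith)
    linarith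

/-- A stable bundle of slope at most two has subspaces of slope at most two. -/
private theorem QuoGt_sub [FiniteDimensional K W] {Q : VB k K W} (hQ : Q.Stable)
    (h : Q.deg ≤ 2 * (finrank K W : ℤ)) (hr : 1 ≤ finrank K W) (J : Submodule K W) :
    (Q.sub J).deg ≤ 2 * finrank K J := by
  by_cases hb : J = ⊥
  · subst hb
    rw [VB.deg_sub_bot, finrank_bot]
    simp
  by_cases ht : J = ⊤
  · subst ht
    rw [VB.deg_sub_top, finrank_top]
    exact h
  have h1 := hQ J hb ht
  have hr' : (1 : ℤ) ≤ finrank K W := by exact_mod_cast hr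
  have h2 := mul_le_mul_of_nonneg_left h (show (0 : ℤ) ≤ finrank K J by positivity)
  have h3 : (finrank K W : ℤ) * (Q.sub J).deg ≤ finrank K W * (2 * finrank K J) := by linarith
  exact le_of_mul_le_mul_left h3 (by omega)

private theorem QuoGt_pos [FiniteDimensional K W] {J : Submodule K W} (hJ : J ≠ ⊤) :
    1 ≤ finrank K (W ⧸ J) := by
  have : Nontrivial (W ⧸ J) := Submodule.Quotient.nontrivial_iff.2 hJ
  exact Module.finrank_pos

theorem quo_gt_nh (hg : gen k K = 3) (hnh : NonHyp k K) [FiniteDimensional K W] {E : VB k K W}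
    {V : Submodule k W} (hV : V ≤ E.H0) {α : ℝ} (hα : 0 < α) (hn : 1 ≤ finrank K W)
    (hst : E.StableSys α V)
    (hμ : (4 + 3 * α) * finrank K W < 2 * ((E.deg : ℝ) + α * finrank k V)) {J : Submodule K W}
    (hJ : J ≠ ⊤) : 2 * (finrank K (W ⧸ J) : ℤ) < (E.quo J).deg := by
  refine QuoGt_core hV (c := 3 / 2) hα hn hst (by linarith) ?_ hJ
  intro I hI hIst h
  have h1 := nh_bound hg hnh (T := E.quo I) (QuoGt_sub hIst h (QuoGt_pos hI))
  have h2 : (2 : ℝ) * (E.quo I).h0 ≤ 3 * finrank K (W ⧸ I) := by exact_mod_cast h1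
  linarith

theorem quo_gt_h (hg : gen k K = 3) {H : Dv k K} {x y : K} (hp : Pencil H x y)
    [FiniteDimensional K W] {E : VB k K W} {V : Submodule k W} (hV : V ≤ E.H0) {α : ℝ}
    (hα : 0 < α) (hn : 1 ≤ finrank K W) (hst : E.StableSys α V)
    (hμ : (2 + 2 * α) * finrank K W < (E.deg : ℝ) + α * finrank k V) {J : Submodule K W}
    (hJ : J ≠ ⊤) : 2 * (finrank K (W ⧸ J) : ℤ) < (E.quo J).deg := by
  refine QuoGt_core hV (c := 2) hα hn hst hμ ?_ hJ
  intro I hI hIst h
  have hr := QuoGt_pos hI
  have h1 : (E.quo I).h0 ≤ 2 * (finrank K (W ⧸ I) : ℤ) := by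
    rcases h.eq_or_lt with he | hlt
    · have := stable_even hp hIst hr (i := 1) (by omega) (by omega) (by rw [he]; ring)
      linarith
    · have := stable_lt hp hIst hr (j := 1) (by omega) (by omega) (by linarith)
      rw [hg] at this
      omega
  exact_mod_cast h1

end Pool.Agent.MP_09eaec.GG.G3
end

section

/-!
# TASK HypLow: `3 k ≤ 2 deg` on a hyperelliptic curve of genus three

If `(2 + 2 α) n < d + α k`: `quo_gt_h` and `two_deg`. Otherwise `divs_eq_bot` (HE/NoSub) with `j = 1`,
`mul_finrank_le` (HE/PencilV) with `j = 1`: `2 k ≤ (E.twist H).h0 = fH H E 1 = d + 0 * n + (hom E (line H)).h0` (`fH_eq` in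
HY/FHdual with `s = 1`, `gen = 3`, `1 • H = H`), and `2 (hom E (line H)).h0 ≤ k` (`hyp_surj`), so `4 k ≤ 2 d + k`.
-/

set_option autoImplicit false

namespace Pool.Agent.MP_09eaec.GG.G3

open Module

universe u v

variable {k : Type u} {K : Type v} [Field k] [Field K] [Algebra k K]
variable {W : Type v} [AddCommGroup W] [Module K W] [Module k W] [IsScalarTower k K W]
variable {A : Type v} [AddCommGroup A] [Module K A] [Module k A] [IsScalarTower k K A]
variable {B : Type v} [AddCommGroup B] [Module K B] [Module k B] [IsScalarTower k K B]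

variable [CurveG k K]

theorem hyp_low (hg : gen k K = 3) {H : Dv k K} {x y : K} (hp : Pencil H x y)
    [FiniteDimensional K W] {E : VB k K W} {V : Submodule k W} (hV : V ≤ E.H0) {α : ℝ}
    (hα : 0 < α) (hn : 2 ≤ finrank K W) (hst : E.StableSys α V)
    (hμ : (4 + 3 * α) * finrank K W < 2 * ((E.deg : ℝ) + α * finrank k V))
    (hk : finrank K W < finrank k V) (hk2 : finrank k V ≤ 2 * finrank K W)
    (h3 : finrank K W = 2 → 4 ≤ finrank k V) : 3 * (finrank k V : ℤ) ≤ 2 * E.deg := by
  by_cases hreg : (2 + 2 * α) * finrank K W < (E.deg : ℝ) + α * finrank k V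
  · exact two_deg hg hV hα (by omega) hst hk2 fun J hJ =>
      quo_gt_h hg hp hV hα (by omega) hst hreg hJ
  · have hb : divs x y V 1 = ⊥ := by
      refine divs_eq_bot hp hV hα hn hst ?_
      push_cast
      nlinarith [not_lt.1 hreg]
    have h1 := mul_finrank_le hp hV hb
    have h2 := fH_eq hp E 1
    have h4 := hyp_surj hg hp hV hα hn hst hμ hk h3
    have e1 : ((gen k K : ℤ) - 1 - 1) • H = H := by
      rw [hg]
      norm_num
    have e2 : fH H E 1 = (E.twist H).h0 := by
      unfold fH
      rw [one_smul]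
    rw [e1, e2, hg] at h2
    push_cast at h1 h2 h4
    linarith

end Pool.Agent.MP_09eaec.GG.G3
end

section

/-!
# The lower bounds in genus three (assembled by helper22)
-/

set_option autoImplicit false

namespace Pool.Agent.MP_09eaec.GG.G3

open Module

universe u v

variable {k : Type u} {K : Type v} [Field k] [Field K] [Algebra k K]
variable {W : Type v} [AddCommGroup W] [Module K W] [Module k W] [IsScalarTower k K W]
variable {A : Type v} [AddCommGroup A] [Module K A] [Module k A] [IsScalarTower k K A]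
variable {B : Type v} [AddCommGroup B] [Module K B] [Module k B] [IsScalarTower k K B]

variable [CurveG k K]

theorem three_k_le (hg : gen k K = 3) [FiniteDimensional K W] {E : VB k K W} {V : Submodule k W}
    (hV : V ≤ E.H0) {α : ℝ} (hα : 0 < α) (hn : 2 ≤ finrank K W) (hst : E.StableSys α V)
    (hk : finrank K W < finrank k V) (hk2 : finrank k V ≤ 2 * finrank K W)
    (h3 : finrank K W = 2 → 4 ≤ finrank k V) :
    3 * (finrank k V : ℤ) ≤ E.deg + 2 * finrank K W ∨
    (3 * (finrank k V : ℤ) ≤ 2 * E.deg ∧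
      (4 + 3 * α) * finrank K W < 2 * ((E.deg : ℝ) + α * finrank k V)) := by
  have key : (4 + 3 * α) * finrank K W < 2 * ((E.deg : ℝ) + α * finrank k V) →
      3 * (finrank k V : ℤ) ≤ 2 * E.deg := by
    intro hμ
    rcases pencil_or_nonhyp (k := k) (K := K) (by omega) with ⟨H, x, y, hp⟩ | hnh
    · exact hyp_low hg hp hV hα hn hst hμ hk hk2 h3
    · exact two_deg hg hV hα (by omega) hst hk2
        fun J hJ => quo_gt_nh hg hnh hV hα (by omega) hst hμ hJ
  rcases dich hg hV hα hn hst hk.le with h | h | ⟨h1, h2, h4⟩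
  · exact Or.inl h
  · exact Or.inr ⟨key h, h⟩
  · refine Or.inr ?_
    have hμ : (4 + 3 * α) * finrank K W < 2 * ((E.deg : ℝ) + α * finrank k V) := by
      have hk4 : finrank k V = 4 := by
        have := h3 h1
        omega
      have h4' : (4 : ℝ) ≤ E.deg := by exact_mod_cast h4
      rw [h1, hk4]
      push_cast
      nlinarith
    exact ⟨key hμ, hμ⟩

end Pool.Agent.MP_09eaec.GG.G3
end
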