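import Pool.Agent.Lib.MP_09eaec_ag.Mg.G016
import Pool.Agent.Lib.MP_09eaec_ag.Mg.G004
import Pool.Agent.Lib.MP_09eaec_ag.GG.LineBasic
import Pool.Agent.Lib.MP_09eaec_ag.Mg.G002
import Pool.Agent.Lib.MP_09eaec_ag.Mg.G005

section

/-!
# TASK G1Core: extensions of a line bundle by the canonical bundle

`X = ext (line κ) (line D1) u`, `u P y = y * a P`, on `K × K`, `s0 = (1, 0)`.
* `g1_mark`: `mem_ext`. * `g1_deg`: `deg_ext`, `deg_line`.
* `g1_sub`: `J ≠ ⊥, ⊤` has rank one. If `(1, 0) ∈ J` then `J = span {(1, 0)}`, of degree `ddeg κ` (`deg_sub_inl` in GG/SubInl with `T = ⊤`). Otherwise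
  `J.comap inl = ⊥`, `J.map snd = ⊤`; `ext_sub`: `F' ≤ (line D1).sub ⊤` with `(X.sub J).deg = 0 + F'.deg`, `Null (line κ) ⊥ F' u`; `sub_line` gives `T`;
  `null_line_bot_iff` (with `A = K`, `a`): `a ∈ ((line κ).twist (-(D1 - T))).N`, `twist_line`.
* `g1_unique`: `J`, `J'` as in the second case, `J = {(y * b, y)}`, `J' = {(y * b', y)}`. `(X.sub J).deg = ddeg D1 - ddeg T` for the same `T`; more precisely, for
  `y ∈ (line (D1 - T)).M P` both `(y * b, y)` and `(y * b', y)` are in `X.M P` (`F'` is `(line (D1 - T)).sub ⊤`), so `y * (b - b') ∈ (line κ).M P`, so `b - b'`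
  is in `(line (κ - D1 + T)).H0 = ⊥`.
-/

set_option autoImplicit false

namespace Pool.Agent.MP_09eaec.GG.G3

open Module

universe u v

variable {k : Type u} {K : Type v} [Field k] [Field K] [Algebra k K]
variable {W : Type v} [AddCommGroup W] [Module K W] [Module k W] [IsScalarTower k K W]
variable {A : Type v} [AddCommGroup A] [Module K A] [Module k A] [IsScalarTower k K A]
variable {B : Type v} [AddCommGroup B] [Module K B] [Module k B] [IsScalarTower k K B]

variable [CurveG k K]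

theorem g1_mark {κ D1 : Dv k K} {a : Place k K →₀ K} {u : Place k K →₀ (K →ₗ[K] K)}
    (hu : ∀ P y, u P y = y • a P) (P : Place k K) (c : K) :
    c • ((1, 0) : K × K) ∈ (ext (line κ) (line D1) u).M P ↔ c ∈ (line κ).M P := by
  rw [mem_ext]
  constructor
  · rintro ⟨_, h⟩
    simpa using h
  · intro h
    exact ⟨by simp, by simpa using h⟩

theorem g1_deg {κ D1 : Dv k K} (u : Place k K →₀ (K →ₗ[K] K)) :
    (ext (line κ) (line D1) u).deg = ddeg κ + ddeg D1 := by
  rw [deg_ext, VB.deg_line, VB.deg_line]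

/-- `J` is the graph of a map defined on `line (D1 - T)`. -/
def IsGr (κ D1 : Dv k K) (u : Place k K →₀ (K →ₗ[K] K)) (T : Dv k K) (J : Submodule K (K × K)) :
    Prop :=
  ∃ b : K, J = Submodule.span K {((b, 1) : K × K)} ∧ ∀ (P : Place k K) (y : K),
    y ∈ (line (D1 - T)).M P ↔ (y * b, y) ∈ (ext (line κ) (line D1) u).M P

theorem g1_sub {κ D1 : Dv k K} {a : Place k K →₀ K} {u : Place k K →₀ (K →ₗ[K] K)}
    (hu : ∀ P y, u P y = y • a P) {J : Submodule K (K × K)} (hJ : J ≠ ⊥) (hJ' : J ≠ ⊤) :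
    finrank K J = 1 ∧ (((1, 0) ∈ J ∧ ((ext (line κ) (line D1) u).sub J).deg = ddeg κ) ∨
      ((1, 0) ∉ J ∧ ∃ T : Dv k K, (∀ P, 0 ≤ T P) ∧ a ∈ (line (κ - D1 + T)).N ∧
        IsGr κ D1 u T J ∧ ((ext (line κ) (line D1) u).sub J).deg = ddeg D1 - ddeg T)) := by
  classical
  set X : VB k K (K × K) := ext (line κ) (line D1) u with hX
  have hr : finrank K J = 1 := by
    have h1 : finrank K J < finrank K (K × K) := Submodule.finrank_lt hJ'
    have h2 : 0 < finrank K J := by
      haveI := Submodule.nontrivial_iff_ne_bot.2 hJ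
      exact finrank_pos
    rw [finrank_prod, finrank_self] at h1
    omega
  refine ⟨hr, ?_⟩
  by_cases h10 : ((1, 0) : K × K) ∈ J
  · left
    refine ⟨h10, ?_⟩
    have hle : (⊤ : Submodule K K).map (LinearMap.inl K K K) ≤ J := by
      rintro _ ⟨x, _, rfl⟩
      have h1 : LinearMap.inl K K K x = x • ((1, 0) : K × K) := by
        ext <;> simp
      rw [h1]
      exact J.smul_mem x h10
    have hfr : finrank K ((⊤ : Submodule K K).map (LinearMap.inl K K K)) = 1 := by
      rw [← (Submodule.equivMapOfInjective (LinearMap.inl K K K) LinearMap.inl_injective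
        (⊤ : Submodule K K)).finrank_eq, finrank_top, finrank_self]
    have hJe : (⊤ : Submodule K K).map (LinearMap.inl K K K) = J :=
      Submodule.eq_of_le_of_finrank_eq hle (by rw [hfr, hr])
    rw [← hJe, hX, deg_sub_inl]
    exact (deg_sub_top_line κ).1
  · right
    refine ⟨h10, ?_⟩
    have hz : ∀ x ∈ J, x.2 = 0 → x = 0 := by
      intro x hx hx2
      by_contra hne
      have hx1 : x.1 ≠ 0 := fun h => hne (Prod.ext h hx2)
      apply h10
      have h1 : ((1, 0) : K × K) = x.1⁻¹ • x := by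
        refine Prod.ext ?_ ?_
        · show (1 : K) = x.1⁻¹ * x.1
          rw [inv_mul_cancel₀ hx1]
        · show (0 : K) = x.1⁻¹ * x.2
          rw [hx2, mul_zero]
      rw [h1]
      exact J.smul_mem _ hx
    obtain ⟨x, hx, hx0⟩ := J.ne_bot_iff.1 hJ
    have hx2 : x.2 ≠ 0 := fun h => hx0 (hz x hx h)
    obtain ⟨b, hb⟩ : ∃ b : K, ((b, 1) : K × K) ∈ J := by
      refine ⟨x.2⁻¹ * x.1, ?_⟩
      have h1 : ((x.2⁻¹ * x.1, 1) : K × K) = x.2⁻¹ • x := by
        refine Prod.ext rfl ?_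
        show (1 : K) = x.2⁻¹ * x.2
        rw [inv_mul_cancel₀ hx2]
      rw [h1]
      exact J.smul_mem _ hx
    have hyb : ∀ y : K, ((y * b, y) : K × K) ∈ J := by
      intro y
      have h1 : ((y * b, y) : K × K) = y • ((b, 1) : K × K) := by
        refine Prod.ext rfl ?_
        show y = y * 1
        rw [mul_one]
      rw [h1]
      exact J.smul_mem _ hb
    have hinj : Function.Injective ((LinearMap.snd K K K).comp J.subtype) := by
      rw [← LinearMap.ker_eq_bot, LinearMap.ker_eq_bot']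
      intro x hx
      exact Subtype.ext (hz x x.2 hx)
    have hsurj : Function.Surjective ((LinearMap.snd K K K).comp J.subtype) := fun y =>
      ⟨⟨(y * b, y), hyb y⟩, rfl⟩
    let e : J ≃ₗ[K] K := LinearEquiv.ofBijective _ ⟨hinj, hsurj⟩
    have he : ∀ y : K, e.symm y = ⟨(y * b, y), hyb y⟩ := by
      intro y
      rw [LinearEquiv.symm_apply_eq]
      rfl
    obtain ⟨D', hD'⟩ := exists_eq_line ((X.sub J).map e)
    have hmem : ∀ (P : Place k K) (y : K), y ∈ (line D').M P ↔ ((y * b, y) : K × K) ∈ X.M P := by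
      intro P y
      rw [← hD', VB.mem_map, he, VB.mem_sub]
    have hle : ∀ P, D' P ≤ D1 P := by
      rw [← line_le_line]
      intro P y hy
      exact (mem_ext.1 ((hmem P y).1 hy)).1
    have hT : D1 - (D1 - D') = D' := sub_sub_cancel _ _
    refine ⟨D1 - D', fun P => ?_, ?_, ?_, ?_⟩
    · have := hle P
      rw [Finsupp.sub_apply]
      omega
    · rw [VB.mem_N]
      refine ⟨b, fun P => ?_⟩
      obtain ⟨t, ht0, ht⟩ := exists_ord_eq P (-D' P)
      have h1 := (mem_ext.1 ((hmem P t).1 (Or.inr ht.ge))).2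
      have h2 : t * b - u P t = t * (b - a P) := by
        rw [hu, smul_eq_mul, mul_sub]
      have h3 : t * (b - a P) ∈ (line κ).M P := by
        rw [← h2]
        exact h1
      have h4 : b - a P ∈ P.filt (-(κ - D1 + (D1 - D') : Dv k K) P) := by
        rw [← mem_filt_iff_of_ord P ht0 ht]
        have h5 : -(κ - D1 + (D1 - D') : Dv k K) P + -D' P = -κ P := by
          rw [Finsupp.add_apply, Finsupp.sub_apply, Finsupp.sub_apply]
          ring
        rw [h5]
        exact h3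
      have h6 := neg_mem h4
      rw [neg_sub] at h6
      exact h6
    · refine ⟨b, ?_, fun P y => ?_⟩
      · symm
        refine Submodule.eq_of_le_of_finrank_eq ?_ ?_
        · rw [Submodule.span_singleton_le_iff_mem]
          exact hb
        · rw [hr, finrank_span_singleton]
          intro h
          exact one_ne_zero (Prod.ext_iff.1 h).2
      · rw [hT]
        exact hmem P y
    · rw [← VB.deg_map (X.sub J) e, hD', VB.deg_line, ddeg_sub]
      ring

theorem g1_unique {κ D1 T : Dv k K} {u : Place k K →₀ (K →ₗ[K] K)} {J J' : Submodule K (K × K)}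
    (h : IsGr κ D1 u T J) (h' : IsGr κ D1 u T J')
    (h0 : (line (κ - D1 + T) : VB k K K).H0 = ⊥) : J = J' := by
  obtain ⟨b, hJ, hb⟩ := h
  obtain ⟨b', hJ', hb'⟩ := h'
  have h1 : b - b' ∈ (line (κ - D1 + T) : VB k K K).H0 := by
    rw [VB.mem_H0]
    intro P
    obtain ⟨t, ht0, ht⟩ := exists_ord_eq P (-(D1 - T : Dv k K) P)
    have e1 := (mem_ext.1 ((hb P t).1 (Or.inr ht.ge))).2
    have e2 := (mem_ext.1 ((hb' P t).1 (Or.inr ht.ge))).2
    have e3 := sub_mem e1 e2
    have e4 : (t * b - u P t) - (t * b' - u P t) = t * (b - b') := by ring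
    have e5 : t * (b - b') ∈ (line κ).M P := by
      rw [← e4]
      exact e3
    rw [mem_line, ← mem_filt_iff_of_ord P ht0 ht]
    have h5 : -(κ - D1 + T : Dv k K) P + -(D1 - T : Dv k K) P = -κ P := by
      rw [Finsupp.add_apply, Finsupp.sub_apply, Finsupp.sub_apply]
      ring
    rw [h5]
    exact e5
  rw [h0, Submodule.mem_bot, sub_eq_zero] at h1
  rw [hJ, hJ', h1]

end Pool.Agent.MP_09eaec.GG.G3
end

section

/-!
# TASK G1Cases: the first line bundle of the chain

`t = ⌊x⌋`, `X = ext (line κ) (line D1) u`, `a = ∑ j, single (P j) (e j)` with `N'` distinct places `P j` and `(P j).ord (e j) = -(κ - D1) (P j) - 1`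
(`exists_ord_eq`, `infinite_places`, `exists_u`). `g1_sub`: a marked `J` has `exk = 4 - 3 x + 2 x - 4 = -x`; an unmarked `J` has
`exk = ddeg D1 - ddeg T - 3 x` with `T` as there. If `(line (κ - D1 + T + ∑ single (P j) 1)).H0 = ⊥` then `T (P j) ≥ 1` for all `j` (`pp_lemma`), so `ddeg T ≥ N'`,
with `T = ∑ single (P j) 1` if `ddeg T = N'` (`eq_of_ddeg_le`). The degree of `κ - D1 + T + ∑ single (P j) 1` is `4 - l + ddeg T + N'` (`l = ddeg D1`).
* `g1_strong` (conclusion: all unmarked `J` have `ddeg T ≥ t + 1`, so `exk ≤ l - t - 1 - 3 x < l - 4 x`; marked: `-x < l - 4 x` since `l ≥ 4 x - 1 > 3 x`):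
  `N' = t + 1`. Suppose `ddeg T ≤ t`. If `2 t + 6 ≤ l`: the degree is `≤ 4 - l + 2 t + 1 < 0` (`H0_line_of_neg`), so `ddeg T ≥ t + 1`, a contradiction. Any `D1` of
  degree `l` (`exists_ddeg'`). If `t = 2`, `l = 9`: `D1 = κ + ∑ single (P j) 1 + M`, `M` of degree two without sections (`exists_noneff`, `gen - 1 = 2`); the degree is
  `≤ 0`, and if it is `0` then `ddeg T = 2` and a nonzero section makes `κ - D1 + T + ∑ single (P j) 1` principal (a section `f` of a divisor `B` of degree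
  `0` has `dv f = -B`), i.e. `T - M` principal (`= -dv f`), and then `f⁻¹` is a section of `line M`, a contradiction; so no sections.
* `g1_exc`: `(t, l) = (2, 8)` (`2 < x ≤ 9/4`) or `x = 3`, `l = 11`, `t = 3`. `N' = t`. For `ddeg T ≤ t` the degree is `≤ 4 - l + 2 t`: `0` for `(2, 8)` (choose `D1 = κ +
  ∑ single (P j) 1 + M` with `M` of degree two without sections and argue as above) and `-1` for `(3, 11)`. So `ddeg T ≥ t`, and if `ddeg T = t` then `T = T0 :=
  ∑ single (P j) 1`. The `J` with `T = T0` is unique if it exists (`g1_unique`, `κ - D1 + T0` has degree `4 - l + t < 0`): call it `Y'`, otherwise `Y' = ⊥`. Its excess is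
  `l - t - 3 x`: for `(2, 8)`: `6 - 3 x < 0`; for `x = 3`: `11 - 3 - 9 = -1`. `(X.quo Y').deg = 4 + l - (l - t) = 4 + t ≤ 4 + x`.
  All other unmarked `J` have `ddeg T ≥ t + 1`, `exk < l - 4 x` as before.
* `exists_G1`: `l = ⌈4 x⌉ - 1`. `t ≥ 4`: `l ≥ 4 t - 1 ≥ 2 t + 6`. `t = 3`, `x > 3`: `l ≥ 12`. `x = 3`: `l = 11`. `t = 2`: `l ∈ {8, ..., 11}`, `l = 8` iff `x ≤ 9/4`.
* `exists_G1_one`: `l = 4 x = δ ≥ 9`: `δ ≥ 2 t + 6` or `δ = 9`, `g1_strong`.
-/

set_option autoImplicit false

namespace Pool.Agent.MP_09eaec.GG.G3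

open Module

universe u v

variable {k : Type u} {K : Type v} [Field k] [Field K] [Algebra k K]
variable {W : Type v} [AddCommGroup W] [Module K W] [Module k W] [IsScalarTower k K W]
variable {A : Type v} [AddCommGroup A] [Module K A] [Module k A] [IsScalarTower k K A]
variable {B : Type v} [AddCommGroup B] [Module K B] [Module k B] [IsScalarTower k K B]

variable [CurveG k K]

private theorem G1Cases_noneff {M T : Dv k K} (hM : (line M : VB k K K).H0 = ⊥)
    (hT : ∀ Q, 0 ≤ T Q) (hd : ddeg T ≤ ddeg M) : (line (T - M) : VB k K K).H0 = ⊥ := by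
  rcases hd.lt_or_eq with h | h
  · exact H0_line_of_neg (by rw [ddeg_sub]; omega)
  rw [eq_bot_iff]
  intro f hf
  rw [Submodule.mem_bot]
  by_contra hf0
  have h1 : ∀ Q : Place k K, (-(T - M) : Dv k K) Q ≤ (dv f : Dv k K) Q := by
    intro Q
    have h2 := VB.mem_H0.1 hf Q
    rw [mem_line] at h2
    rcases h2 with h2 | h2
    · exact absurd h2 hf0
    · rw [dv_apply]
      simpa using h2
  have h3 := eq_of_ddeg_le h1 (by rw [ddeg_dv, ddeg_neg, ddeg_sub, h]; simp)
  have h4 : f⁻¹ ∈ (line M : VB k K K).H0 := by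
    rw [VB.mem_H0]
    intro Q
    rw [mem_line]
    refine Or.inr ?_
    have h5 : (-(T - M) : Dv k K) Q = (dv f : Dv k K) Q := by rw [h3]
    rw [dv_apply] at h5
    have h6 := hT Q
    rw [Q.ord_inv]
    simp only [Finsupp.coe_neg, Finsupp.coe_sub, Pi.neg_apply, Pi.sub_apply] at h5
    omega
  rw [hM, Submodule.mem_bot] at h4
  exact hf0 (inv_eq_zero.1 h4)

/-- The bundle, and its subspaces. -/
private theorem G1Cases_core {κ D1 : Dv k K} {t N' : ℕ} {P : Fin N' → Place k K}
    (hP : Function.Injective P)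
    (hB : ∀ T : Dv k K, (∀ Q, 0 ≤ T Q) → ddeg T ≤ t →
      (line (κ - D1 + T + ∑ j, Finsupp.single (P j) 1) : VB k K K).H0 = ⊥) :
    ∃ u : Place k K →₀ (K →ₗ[K] K),
      (∀ (P : Place k K) (c : K), c • ((1, 0) : K × K) ∈ (ext (line κ) (line D1) u).M P ↔
        c ∈ (line κ).M P) ∧
      ∀ J : Submodule K (K × K), J ≠ ⊥ → J ≠ ⊤ → finrank K J = 1 ∧
        (((1, 0) ∈ J ∧ ((ext (line κ) (line D1) u).sub J).deg = ddeg κ) ∨
        ((1, 0) ∉ J ∧ ∃ T : Dv k K, (∀ P, 0 ≤ T P) ∧ IsGr κ D1 u T J ∧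
          ((ext (line κ) (line D1) u).sub J).deg = ddeg D1 - ddeg T ∧
          (ddeg T ≤ t → ∀ Q, (∑ j, Finsupp.single (P j) 1 : Dv k K) Q ≤ T Q))) := by
  classical
  choose e he0 he using fun j : Fin N' => exists_ord_eq (P j) (-(κ - D1 : Dv k K) (P j) - 1)
  obtain ⟨u, hu⟩ := exists_u (A := K) (∑ j, Finsupp.single (P j) (e j))
  refine ⟨u, g1_mark hu, fun J hJ hJ' => ?_⟩
  obtain ⟨h1, h2⟩ := g1_sub hu hJ hJ'
  refine ⟨h1, ?_⟩
  rcases h2 with h2 | ⟨h2, T, h3, h4, h5, h6⟩
  · exact Or.inl h2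
  refine Or.inr ⟨h2, T, h3, h5, h6, fun hT Q => ?_⟩
  have h7 := pp_lemma hP he0 he h3 (hB T h3 hT) h4
  by_cases hQ : ∃ j, P j = Q
  · obtain ⟨j, rfl⟩ := hQ
    rw [Finsupp.finsetSum_apply, Finset.sum_eq_single j]
    · rw [Finsupp.single_eq_same]
      exact h7 j
    · intro b _ hb
      rw [Finsupp.single_apply, if_neg (fun h => hb (hP h))]
    · intro h
      exact absurd (Finset.mem_univ j) h
  · push Not at hQ
    rw [Finsupp.finsetSum_apply, Finset.sum_eq_zero]
    · exact h3 Q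
    · intro j _
      rw [Finsupp.single_apply, if_neg (hQ j)]

private theorem G1Cases_ddeg_sum {N' : ℕ} (P : Fin N' → Place k K) :
    ddeg (∑ j, Finsupp.single (P j) 1 : Dv k K) = N' := by
  have h : ∀ s : Finset (Fin N'), ddeg (∑ j ∈ s, Finsupp.single (P j) 1 : Dv k K) = s.card := by
    intro s
    induction s using Finset.induction_on with
    | empty => simp
    | insert a s ha ih =>
      rw [Finset.sum_insert ha, ddeg_add, ddeg_single, ih, Finset.card_insert_of_notMem ha]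
      push_cast
      ring
  have := h Finset.univ
  rwa [Finset.card_univ, Fintype.card_fin] at this

/-- The exceptional cases. -/
private theorem G1Cases_exc (hg : gen k K = 3) {κ : Dv k K} (hκ : IsCanonical κ) {x : ℝ}
    {t : ℕ} (ht : (t : ℝ) ≤ x) (ht' : x < t + 1) {D1 : Dv k K} {P : Fin t → Place k K}
    (hP : Function.Injective P)
    (hB : ∀ T : Dv k K, (∀ Q, 0 ≤ T Q) → ddeg T ≤ t →
      (line (κ - D1 + T + ∑ j, Finsupp.single (P j) 1) : VB k K K).H0 = ⊥)
    (h1 : 3 * x < ddeg D1) (h2 : (ddeg D1 : ℝ) - t - 3 * x < 0) (h3 : (4 + t : ℤ) < ddeg D1) :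
    ∃ (X : VB k K (K × K)) (Y' : Submodule K (K × K)),
      (∀ (P : Place k K) (c : K), c • ((1, 0) : K × K) ∈ X.M P ↔ c ∈ (line κ).M P) ∧
      X.deg = 4 + ddeg D1 ∧
      (∀ J : Submodule K (K × K), J ≠ ⊥ → J ≠ ⊤ → J ≠ Y' →
        exk (-3 * x) (2 * x - 4) ((1, 0) : K × K) X J < ddeg D1 - 4 * x) ∧
      (Y' = ⊥ ∨ (finrank K Y' = 1 ∧ exk (-3 * x) (2 * x - 4) ((1, 0) : K × K) X Y' < 0 ∧
        ((X.quo Y').deg : ℝ) ≤ 4 + x)) := by
  have hκ4 : ddeg κ = 4 := by rw [hκ.ddeg, hg]; norm_num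
  obtain ⟨u, hmark, hsub⟩ := G1Cases_core hP hB
  set X := ext (line κ) (line D1) u with hX
  have hdeg : X.deg = 4 + ddeg D1 := by rw [hX, g1_deg, hκ4]
  set T0 : Dv k K := ∑ j, Finsupp.single (P j) 1 with hT0
  have hT0d : ddeg T0 = t := G1Cases_ddeg_sum P
  have hgood : ∀ J : Submodule K (K × K), J ≠ ⊥ → J ≠ ⊤ → ¬ ((1, 0) ∉ J ∧ IsGr κ D1 u T0 J) →
      exk (-3 * x) (2 * x - 4) ((1, 0) : K × K) X J < ddeg D1 - 4 * x := by
    intro J hJ hJ' hno
    obtain ⟨r1, r2⟩ := hsub J hJ hJ'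
    rcases r2 with ⟨r2, r3⟩ | ⟨r2, T, r3, r4, r5, r6⟩
    · rw [exk_of_mem r2, r3, r1, hκ4]
      push_cast
      linarith
    · rw [exk_of_notMem r2, r5, r1]
      have hT : (t : ℤ) + 1 ≤ ddeg T := by
        by_contra hcon
        have hle := r6 (by omega)
        have h5 := ddeg_mono hle
        rw [hT0d] at h5
        have h6 := eq_of_ddeg_le hle (by rw [hT0d]; omega)
        rw [← h6] at r4
        exact hno ⟨r2, r4⟩
      have hTR : (t : ℝ) + 1 ≤ ddeg T := by exact_mod_cast hT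
      push_cast
      linarith
  by_cases hex : ∃ Y' : Submodule K (K × K), Y' ≠ ⊥ ∧ Y' ≠ ⊤ ∧ (1, 0) ∉ Y' ∧ IsGr κ D1 u T0 Y'
  · obtain ⟨Y', y1, y2, y3, y4⟩ := hex
    refine ⟨X, Y', hmark, hdeg, fun J hJ hJ' hJY => hgood J hJ hJ' ?_, Or.inr ?_⟩
    · rintro ⟨-, h⟩
      refine hJY (g1_unique h y4 (H0_line_of_neg ?_))
      rw [ddeg_add, ddeg_sub, hκ4, hT0d]
      omega
    · obtain ⟨r1, r2⟩ := hsub Y' y1 y2
      rcases r2 with ⟨r2, -⟩ | ⟨-, T, r3, r4, r5, r6⟩
      · exact absurd r2 y3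
      have hTe : ddeg T = t := by
        obtain ⟨b, hb, hb'⟩ := r4
        obtain ⟨c, hc, hc'⟩ := y4
        have h5 : ((b, 1) : K × K) ∈ Submodule.span K {((c, 1) : K × K)} := by
          rw [← hc, hb]
          exact Submodule.mem_span_singleton_self _
        obtain ⟨r, hr⟩ := Submodule.mem_span_singleton.1 h5
        rw [Prod.smul_mk, Prod.mk.injEq, smul_eq_mul, smul_eq_mul, mul_one] at hr
        obtain ⟨hr1, rfl⟩ := hr
        rw [one_mul] at hr1
        subst hr1
        have h6 : (line (D1 - T) : VB k K K) = line (D1 - T0) :=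
          VB.ext' fun Q y => (hb' Q y).trans (hc' Q y).symm
        have h7 := line_inj.1 h6
        have h8 : T = T0 := by
          have := congrArg (fun D => D1 - D) h7
          simpa using this
        rw [h8, hT0d]
      have hdY : ((X.sub Y').deg : ℤ) = ddeg D1 - t := by rw [r5, hTe]
      refine ⟨r1, ?_, ?_⟩
      · rw [exk_of_notMem y3, hdY, r1]
        push_cast
        linarith
      · have h5 := VB.deg_add X Y'
        have h6 : (X.quo Y').deg = 4 + t := by
          rw [hdeg, hdY] at h5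
          linarith
        rw [h6]
        push_cast
        linarith
  · push Not at hex
    exact ⟨X, ⊥, hmark, hdeg, fun J hJ hJ' _ => hgood J hJ hJ' (fun h => hex J hJ hJ' h.1 h.2),
      Or.inl rfl⟩

theorem g1_strong (hg : gen k K = 3) {κ : Dv k K} (hκ : IsCanonical κ) {x : ℝ} (hx : 2 < x)
    {l : ℤ} (hl : 2 * ⌊x⌋ + 6 ≤ l ∨ (⌊x⌋ = 2 ∧ l = 9)) (hlx : (l : ℝ) ≤ 4 * x)
    (hlx' : 4 * x - 1 ≤ l) :
    ∃ X : VB k K (K × K), (∀ (P : Place k K) (c : K), c • ((1, 0) : K × K) ∈ X.M P ↔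
        c ∈ (line κ).M P) ∧ X.deg = 4 + l ∧
      ∀ J : Submodule K (K × K), J ≠ ⊥ → J ≠ ⊤ →
        exk (-3 * x) (2 * x - 4) ((1, 0) : K × K) X J < l - 4 * x := by
  have hκ4 : ddeg κ = 4 := by rw [hκ.ddeg, hg]; norm_num
  have hf1 : (⌊x⌋ : ℝ) ≤ x := Int.floor_le _
  have hf2 : x < ⌊x⌋ + 1 := Int.lt_floor_add_one _
  have hf3 : 2 ≤ ⌊x⌋ := by
    rw [Int.le_floor]
    push_cast
    exact hx.le
  obtain ⟨t, ht⟩ : ∃ t : ℕ, (t : ℤ) = ⌊x⌋ := ⟨⌊x⌋.toNat, by omega⟩
  rw [← ht] at hl hf1 hf2 hf3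
  push_cast at hf1 hf2
  have := infinite_places (k := k) (K := K)
  let P : Fin (t + 1) → Place k K := fun j => Infinite.natEmbedding (Place k K) j
  have hP : Function.Injective P := fun i j h =>
    Fin.ext ((Infinite.natEmbedding (Place k K)).injective h)
  have hD : ∃ D1 : Dv k K, ddeg D1 = l ∧ ∀ T : Dv k K, (∀ Q, 0 ≤ T Q) → ddeg T ≤ t →
      (line (κ - D1 + T + ∑ j, Finsupp.single (P j) 1) : VB k K K).H0 = ⊥ := by
    rcases hl with hl | ⟨ht2, hl9⟩
    · obtain ⟨D1, hD1d, -⟩ := exists_ddeg' (k := k) (K := K) l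
      refine ⟨D1, hD1d, fun T hT hTd => H0_line_of_neg ?_⟩
      rw [ddeg_add, ddeg_add, ddeg_sub, G1Cases_ddeg_sum, hκ4, hD1d]
      push_cast
      linarith
    · obtain ⟨M, hM1, hM2⟩ := exists_noneff (k := k) (K := K) (d := 2) (by rw [hg]; norm_num)
      refine ⟨κ + (∑ j, Finsupp.single (P j) 1) + M, ?_, fun T hT hTd => ?_⟩
      · rw [ddeg_add, ddeg_add, G1Cases_ddeg_sum, hκ4, hM1, hl9]
        push_cast
        rw [ht2]
        norm_num
      · have e1 : κ - (κ + (∑ j, Finsupp.single (P j) 1) + M) + T +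
            ∑ j, Finsupp.single (P j) 1 = T - M := by abel
        rw [e1]
        exact G1Cases_noneff hM2 hT (by rw [hM1, ← ht2]; exact hTd)
  obtain ⟨D1, hD1d, hB⟩ := hD
  obtain ⟨u, hmark, hsub⟩ := G1Cases_core hP hB
  refine ⟨ext (line κ) (line D1) u, hmark, by rw [g1_deg, hκ4, hD1d], fun J hJ hJ' => ?_⟩
  obtain ⟨r1, r2⟩ := hsub J hJ hJ'
  rcases r2 with ⟨r2, r3⟩ | ⟨r2, T, r3, r4, r5, r6⟩
  · rw [exk_of_mem r2, r3, r1, hκ4]
    push_cast
    linarith
  · rw [exk_of_notMem r2, r5, r1, hD1d]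
    have hT : (t : ℤ) + 1 ≤ ddeg T := by
      by_contra hcon
      have hle := r6 (by omega)
      have h5 := ddeg_mono hle
      rw [G1Cases_ddeg_sum] at h5
      push_cast at h5
      omega
    have hTR : (t : ℝ) + 1 ≤ ddeg T := by exact_mod_cast hT
    push_cast
    linarith


theorem exists_G1 (hg : gen k K = 3) {κ : Dv k K} (hκ : IsCanonical κ) {x : ℝ} (hx : 2 < x)
    {l : ℤ} (hl : l = ⌈4 * x⌉ - 1) :
    ∃ (X : VB k K (K × K)) (Y' : Submodule K (K × K)),
      (∀ (P : Place k K) (c : K), c • ((1, 0) : K × K) ∈ X.M P ↔ c ∈ (line κ).M P) ∧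
      X.deg = 4 + l ∧
      (∀ J : Submodule K (K × K), J ≠ ⊥ → J ≠ ⊤ → J ≠ Y' →
        exk (-3 * x) (2 * x - 4) ((1, 0) : K × K) X J < l - 4 * x) ∧
      (Y' = ⊥ ∨ (finrank K Y' = 1 ∧ exk (-3 * x) (2 * x - 4) ((1, 0) : K × K) X Y' < 0 ∧
        ((X.quo Y').deg : ℝ) ≤ 4 + x)) := by
  have hκ4 : ddeg κ = 4 := by rw [hκ.ddeg, hg]; norm_num
  have hc1 : 4 * x ≤ ⌈4 * x⌉ := Int.le_ceil _
  have hc2 : (⌈4 * x⌉ : ℝ) < 4 * x + 1 := Int.ceil_lt_add_one _
  have hl1 : (l : ℝ) ≤ 4 * x := by rw [hl]; push_cast; linarith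
  have hl2 : 4 * x - 1 ≤ l := by rw [hl]; push_cast; linarith
  have hf1 : (⌊x⌋ : ℝ) ≤ x := Int.floor_le _
  have hf2 : x < ⌊x⌋ + 1 := Int.lt_floor_add_one _
  have hf3 : 2 ≤ ⌊x⌋ := by
    rw [Int.le_floor]
    push_cast
    exact hx.le
  have hstrong : (2 * ⌊x⌋ + 6 ≤ l ∨ (⌊x⌋ = 2 ∧ l = 9)) →
    ∃ (X : VB k K (K × K)) (Y' : Submodule K (K × K)),
      (∀ (P : Place k K) (c : K), c • ((1, 0) : K × K) ∈ X.M P ↔ c ∈ (line κ).M P) ∧
      X.deg = 4 + l ∧
      (∀ J : Submodule K (K × K), J ≠ ⊥ → J ≠ ⊤ → J ≠ Y' →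
        exk (-3 * x) (2 * x - 4) ((1, 0) : K × K) X J < l - 4 * x) ∧
      (Y' = ⊥ ∨ (finrank K Y' = 1 ∧ exk (-3 * x) (2 * x - 4) ((1, 0) : K × K) X Y' < 0 ∧
        ((X.quo Y').deg : ℝ) ≤ 4 + x)) := by
    intro h
    obtain ⟨X, h1, h2, h3⟩ := g1_strong hg hκ hx h hl1 hl2
    exact ⟨X, ⊥, h1, h2, fun J hJ hJ' _ => h3 J hJ hJ', Or.inl rfl⟩
  by_cases hA : 2 * ⌊x⌋ + 6 ≤ l ∨ (⌊x⌋ = 2 ∧ l = 9)
  · exact hstrong hA
  push Not at hA
  obtain ⟨hA1, hA2⟩ := hA
  -- the exceptional cases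
  have hcases : (⌊x⌋ = 2 ∧ l = 8) ∨ (⌊x⌋ = 3 ∧ l = 11 ∧ x = 3) := by
    have g1 : (4 * ⌊x⌋ : ℤ) ≤ ⌈4 * x⌉ := by
      have : ((4 * ⌊x⌋ : ℤ) : ℝ) ≤ ((⌈4 * x⌉ : ℤ) : ℝ) := by
        push_cast
        linarith
      exact_mod_cast this
    have g2 : (8 : ℤ) < ⌈4 * x⌉ := by
      rw [Int.lt_ceil]
      push_cast
      linarith
    have g3 : ⌊x⌋ ≤ 3 := by omega
    rcases (by omega : ⌊x⌋ = 2 ∨ ⌊x⌋ = 3) with h | h
    · left
      refine ⟨h, ?_⟩
      have := hA2 h
      omega
    · right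
      have h11 : l = 11 := by omega
      refine ⟨h, h11, ?_⟩
      rw [h] at hf1
      rw [h11] at hl2
      push_cast at hf1 hl2
      linarith
  rcases hcases with ⟨ht, h8⟩ | ⟨ht, h11, hx3⟩
  · -- (2, 8)
    rw [ht] at hf1 hf2
    push_cast at hf1 hf2
    obtain ⟨M, hM1, hM2⟩ := exists_noneff (k := k) (K := K) (d := 2) (by rw [hg]; norm_num)
    have := infinite_places (k := k) (K := K)
    let P : Fin 2 → Place k K := fun j => Infinite.natEmbedding (Place k K) j
    have hP : Function.Injective P := fun i j h =>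
      Fin.ext ((Infinite.natEmbedding (Place k K)).injective h)
    set D1 : Dv k K := κ + (∑ j, Finsupp.single (P j) 1) + M with hD1
    have hD1d : ddeg D1 = 8 := by
      rw [hD1, ddeg_add, ddeg_add, G1Cases_ddeg_sum, hκ4, hM1]
      norm_num
    have h := G1Cases_exc hg hκ (x := x) (t := 2) (by push_cast; linarith)
      (by push_cast; linarith) (D1 := D1) hP (fun T hT hTd => by
        have e1 : κ - D1 + T + ∑ j, Finsupp.single (P j) 1 = T - M := by
          rw [hD1]
          abel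
        rw [e1]
        exact G1Cases_noneff hM2 hT (by rw [hM1]; exact_mod_cast hTd))
      (by rw [hD1d]; push_cast; rw [h8] at hl2; push_cast at hl2; linarith)
      (by rw [hD1d]; push_cast; linarith) (by rw [hD1d]; norm_num)
    rw [hD1d] at h
    rw [h8]
    exact h
  · -- (3, 11)
    obtain ⟨D1, hD1d, -⟩ := exists_ddeg' (k := k) (K := K) 11
    have := infinite_places (k := k) (K := K)
    let P : Fin 3 → Place k K := fun j => Infinite.natEmbedding (Place k K) j
    have hP : Function.Injective P := fun i j h =>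
      Fin.ext ((Infinite.natEmbedding (Place k K)).injective h)
    have h := G1Cases_exc hg hκ (x := x) (t := 3) (by rw [hx3]; push_cast; norm_num)
      (by rw [hx3]; push_cast; norm_num) (D1 := D1) hP (fun T hT hTd => by
        refine H0_line_of_neg ?_
        rw [ddeg_add, ddeg_add, ddeg_sub, G1Cases_ddeg_sum, hκ4, hD1d]
        push_cast at hTd ⊢
        linarith)
      (by rw [hD1d, hx3]; push_cast; norm_num)
      (by rw [hD1d, hx3]; push_cast; norm_num) (by rw [hD1d]; norm_num)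
    rw [hD1d] at h
    rw [h11]
    exact h

theorem exists_G1_one (hg : gen k K = 3) {κ : Dv k K} (hκ : IsCanonical κ) {δ : ℤ}
    (hδ : 9 ≤ δ) : ∃ X : VB k K (K × K),
      (∀ (P : Place k K) (c : K), c • ((1, 0) : K × K) ∈ X.M P ↔ c ∈ (line κ).M P) ∧
      X.deg = 4 + δ ∧ ∀ J : Submodule K (K × K), J ≠ ⊥ → J ≠ ⊤ →
        exk (-3 * ((δ : ℝ) / 4)) (2 * ((δ : ℝ) / 4) - 4) ((1, 0) : K × K) X J < 0 := by
  have hδR : (9 : ℝ) ≤ δ := by exact_mod_cast hδ
  have hf : ⌊(δ : ℝ) / 4⌋ = δ / 4 := by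
    have := Int.floor_div_natCast (δ : ℝ) 4
    simpa using this
  obtain ⟨X, h1, h2, h3⟩ := g1_strong hg hκ (x := (δ : ℝ) / 4) (by linarith) (l := δ)
    (by rw [hf]; omega) (by linarith) (by linarith)
  refine ⟨X, h1, h2, fun J hJ hJ' => ?_⟩
  have := h3 J hJ hJ'
  linarith

end Pool.Agent.MP_09eaec.GG.G3
end

section

/-!
# TASK StepK: one step of the chain, with a marked vector

This is `topX_step` (BG/StepC.lean, already proved: copy and adapt its proof) for the excess `exk`. `J ≤ A × K`, `JA = J.comap inl`: `(s0, 0) ∈ J`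
iff `s0 ∈ JA`, so the last term of the excess is the same for `J` and `JA`. `exk μ c s0 X ⊥ = 0` (`hs0`). The rest is as in `topX_step`.
(No sign condition on `c` is needed.)
-/

set_option autoImplicit false

namespace Pool.Agent.MP_09eaec.GG.G3

open Module

universe u v

variable {k : Type u} {K : Type v} [Field k] [Field K] [Algebra k K]
variable {W : Type v} [AddCommGroup W] [Module K W] [Module k W] [IsScalarTower k K W]
variable {A : Type v} [AddCommGroup A] [Module K A] [Module k A] [IsScalarTower k K A]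
variable {B : Type v} [AddCommGroup B] [Module K B] [Module k B] [IsScalarTower k K B]

variable [CurveG k K]

private theorem StepK_one (X : VB k K A) (q : A →ₗ[K] K) (D : Dv k K)
    (hq : ∀ P y, y ∈ (line D).M P ↔ ∃ x ∈ X.M P, q x = y) : ∃ a0 : A, q a0 = 1 := by
  have := infinite_places (k := k) (K := K)
  obtain ⟨P⟩ : Nonempty (Place k K) := inferInstance
  obtain ⟨t, ht0, ht⟩ := exists_ord_eq P (-D P)
  obtain ⟨x, _, hx⟩ := (hq P t).mp (Or.inr ht.ge)
  refine ⟨t⁻¹ • x, ?_⟩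
  rw [map_smul, hx, smul_eq_mul, inv_mul_cancel₀ ht0]

/-- The excess of a subspace in terms of the excess of its intersection with the old fibre. -/
private theorem StepK_exk {μ c : ℝ} {s0 : A} {X : VB k K A} {X' : VB k K (A × K)}
    (J : Submodule K (A × K)) {d r : ℤ}
    (h1 : (X'.sub J).deg = (X.sub (J.comap (LinearMap.inl K A K))).deg + d)
    (h2 : (finrank K J : ℤ) = finrank K (J.comap (LinearMap.inl K A K)) + r) :
    exk μ c (s0, 0) X' J = exk μ c s0 X (J.comap (LinearMap.inl K A K)) + d + μ * r := by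
  have h3 : ((s0, 0) : A × K) ∈ J ↔ s0 ∈ J.comap (LinearMap.inl K A K) := Iff.rfl
  have h2r : (finrank K J : ℝ) = finrank K (J.comap (LinearMap.inl K A K)) + r := by
    exact_mod_cast h2
  by_cases h : s0 ∈ J.comap (LinearMap.inl K A K)
  · rw [exk_of_mem h, exk_of_mem (h3.2 h), h1, h2r]
    push_cast
    ring
  · rw [exk_of_notMem h, exk_of_notMem (fun h' => h (h3.1 h')), h1, h2r]
    push_cast
    ring

private theorem StepK_bot [FiniteDimensional K A] {μ c : ℝ} {s0 : A} (hs0 : s0 ≠ 0) (X : VB k K A) :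
    exk μ c s0 X ⊥ = 0 := by
  rw [exk_of_notMem (by simpa using hs0), VB.deg_sub_bot, finrank_bot]
  simp

theorem topK_step [FiniteDimensional K A] {μ c ρ ρ' : ℝ} {s0 : A} (hs0 : s0 ≠ 0) {X : VB k K A}
    {q : A →ₗ[K] K} {D D' : Dv k K} (hN : NegK μ c s0 X) (hT : TopK μ c ρ s0 X q D)
    (hρ : -1 ≤ ρ) {b : Place k K →₀ K} (hb : b ∉ (line (D - D')).N)
    (hb' : ρ = -1 → ∀ P : Place k K, b ∉ (line (D - D' + Finsupp.single P 1)).N)
    (hρ' : ρ' = ρ + ddeg D' + μ) (h0 : ρ' ≤ 0) :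
    ∃ u : Place k K →₀ (K →ₗ[K] A),
      TopK μ c ρ' (s0, 0) (ext X (line D') u) (LinearMap.snd K A K) D' ∧
      PropK μ c (s0, 0) (ext X (line D') u) ∧
      (ρ' < 0 → NegK μ c (s0, 0) (ext X (line D') u)) := by
  classical
  obtain ⟨a0, ha0⟩ := StepK_one X q D hT.img
  let u : Place k K →₀ (K →ₗ[K] A) :=
    b.mapRange (fun a : K => LinearMap.toSpanSingleton K A (a • a0)) (by simp)
  have hu : ∀ P, q (u P 1) = b P := by
    intro P
    show q (LinearMap.toSpanSingleton K A (b P • a0) 1) = b P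
    rw [LinearMap.toSpanSingleton_apply, one_smul, map_smul, ha0, smul_eq_mul, mul_one]
  have hum : u.mapRange (fun f => q (f 1)) (by simp) = b := by
    ext P
    rw [Finsupp.mapRange_apply]
    exact hu P
  have hnull : ∀ D2 : Dv k K, Null X (LinearMap.ker q) ((line D2).sub (⊤ : Submodule K K)) u →
      b ∈ (line (D - D2)).N := by
    intro D2 h
    have h1 := (null_ker_iff X q D D2 hT.img u).1 h
    rwa [hum] at h1
  obtain ⟨hdD, hfr1⟩ := deg_sub_top_line D'
  refine ⟨u, ?_⟩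
  have htot : exk μ c (s0, 0) (ext X (line D') u) ⊤ = ρ' := by
    have h1 := StepK_exk (μ := μ) (c := c) (s0 := s0) (X := X) (X' := ext X (line D') u)
      (⊤ : Submodule K (A × K)) (d := ddeg D') (r := 1)
      (by rw [Submodule.comap_top, VB.deg_sub_top, VB.deg_sub_top, deg_ext, VB.deg_line])
      (by rw [Submodule.comap_top, finrank_top, finrank_top, Module.finrank_prod,
            Module.finrank_self]; push_cast; ring)
    rw [h1, Submodule.comap_top, hT.tot, hρ']
    push_cast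
    ring
  -- the subspaces of the kernel
  have hbot : ∀ J : Submodule K (A × K), J ≠ ⊥ → J.map (LinearMap.snd K A K) = ⊥ →
      exk μ c (s0, 0) (ext X (line D') u) J < 0 := by
    intro J hJ hJB
    have hJA : J.comap (LinearMap.inl K A K) ≠ ⊥ := fun h => hJ (eq_bot_of h hJB)
    have hext := ext_sub X (line D') u J
    have hrk := finrank_ext_sub J
    rw [hJB] at hext hrk
    obtain ⟨F', _, hF2, _⟩ := hext
    have hF0 : F'.deg = 0 := VB.deg_of_finrank_zero F' (finrank_bot _ _)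
    have h1 := hN _ hJA
    rw [StepK_exk (μ := μ) (c := c) (s0 := s0) (X := X) J (d := 0) (r := 0)
      (by rw [hF2, hF0]) (by rw [hrk, finrank_bot]; push_cast; ring)]
    push_cast
    linarith
  -- the subspaces which are onto the new line bundle
  have htop : ∀ J : Submodule K (A × K), J ≠ ⊤ → J.map (LinearMap.snd K A K) = ⊤ →
      exk μ c (s0, 0) (ext X (line D') u) J < ρ' := by
    intro J hJ hJB
    have hext := ext_sub X (line D') u J
    have hrk := finrank_ext_sub J
    rw [hJB] at hext hrk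
    obtain ⟨F', hF1, hF2, hF3⟩ := hext
    have h2 := VB.deg_le_of_le hF1
    rw [hdD] at h2
    have hex : exk μ c (s0, 0) (ext X (line D') u) J =
        exk μ c s0 X (J.comap (LinearMap.inl K A K)) + F'.deg + μ := by
      rw [StepK_exk (μ := μ) (c := c) (s0 := s0) (X := X) J (d := F'.deg) (r := 1)
        hF2 (by rw [hrk, hfr1]; push_cast; ring)]
      push_cast
      ring
    rw [hex, hρ']
    suffices hs : exk μ c s0 X (J.comap (LinearMap.inl K A K)) + F'.deg < ρ + ddeg D' by linarith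
    rcases h2.lt_or_eq with h3 | h3
    · have h3' : F'.deg + 1 ≤ ddeg D' := h3
      have h3r : (F'.deg : ℝ) + 1 ≤ ddeg D' := by exact_mod_cast h3'
      by_cases hJA : J.comap (LinearMap.inl K A K) = ⊥
      · rw [hJA, StepK_bot hs0, zero_add]
        rcases hρ.lt_or_eq with h4 | h4
        · linarith
        · rcases (show F'.deg = ddeg D' - 1 ∨ F'.deg + 2 ≤ ddeg D' by omega) with h5 | h5
          · exfalso
            obtain ⟨P, hP⟩ := sub_top_line hF1 h5
            rw [hP] at hF3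
            have h6 := hnull _ (Null.mono hF3 (by rw [hJA]; exact bot_le) (VB.le_refl' _))
            have h7 : D - (D' - Finsupp.single P 1) = D - D' + Finsupp.single P 1 := by abel
            rw [h7] at h6
            exact hb' h4.symm P h6
          · have h5r : (F'.deg : ℝ) + 2 ≤ ddeg D' := by exact_mod_cast h5
            linarith
      · have h4 := hN _ hJA
        linarith
    · have h4 : F' = (line D').sub ⊤ := VB.eq_of_le_of_deg_le hF1 (by rw [hdD, h3])
      rw [h4] at hF3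
      have h5 : ¬ J.comap (LinearMap.inl K A K) ≤ LinearMap.ker q := fun hle =>
        hb (hnull D' (Null.mono hF3 hle (VB.le_refl' _)))
      have h6 : J.comap (LinearMap.inl K A K) ≠ ⊤ := fun h => hJ (eq_top_of h hJB)
      have h7 := hT.top _ h6 h5
      have h8 : (F'.deg : ℝ) = ddeg D' := by exact_mod_cast h3
      rw [h8]
      linarith
  have hker : ∀ J : Submodule K (A × K), J.map (LinearMap.snd K A K) = ⊥ ↔
      J ≤ LinearMap.ker (LinearMap.snd K A K) := by
    intro J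
    rw [← le_bot_iff, Submodule.map_le_iff_le_comap, Submodule.comap_bot]
  refine ⟨⟨?_, htot, ?_⟩, ?_, ?_⟩
  · intro P y
    constructor
    · intro hy
      refine ⟨(u P y, y), ?_, rfl⟩
      rw [mem_ext]
      refine ⟨hy, ?_⟩
      rw [sub_self]
      exact zero_mem _
    · rintro ⟨x, hx, rfl⟩
      exact (mem_ext.1 hx).1
  · intro J hJ hJk
    rcases eq_bot_or_eq_top (J.map (LinearMap.snd K A K)) with hJB | hJB
    · exact absurd ((hker J).1 hJB) hJk
    · exact htop J hJ hJB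
  · intro J hJ hJt
    rcases eq_bot_or_eq_top (J.map (LinearMap.snd K A K)) with hJB | hJB
    · exact hbot J hJ hJB
    · exact (htop J hJt hJB).trans_le h0
  · intro hneg J hJ
    rcases eq_bot_or_eq_top (J.map (LinearMap.snd K A K)) with hJB | hJB
    · exact hbot J hJ hJB
    · by_cases ht : J = ⊤
      · rw [ht, htot]
        exact hneg
      · exact (htop J ht hJB).trans hneg

end Pool.Agent.MP_09eaec.GG.G3
end

section

/-!
# TASK StepR: one step of the chain, general witness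

Like `topK_step`, but now all proper nonzero subspaces of `X` except possibly `Y'` have an excess `< ρ`, and the extension class is
`a : Place →₀ A` (`exists_u`). For `J ≤ A × K`, `JA = J.comap inl`, `JB = J.map snd`, `F'` from `ext_sub`, `exk J = exk JA + ρ' - ρ - t`
(`t = ddeg D' - F'.deg ≥ 0`, when `JB = ⊤`).
 * `JB = ⊥`: `exk J = exk JA < 0`.
 * `t = 0`: `F' = (line D').sub ⊤`; `JA ≠ ⊥` (`h1`, `null_line_bot_iff`), `JA ≠ Y'` (`h2`, `null_line_iff`); `JA = ⊤` gives `J = ⊤`; otherwise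
   `exk JA < ρ` and `exk J < ρ'`.
 * `t ≥ 1`, `JA ≠ ⊥`: `exk JA < 0 ≤ 1 + ρ`.
 * `t ≥ 1`, `JA = ⊥`: `exk J = ρ' - ρ - t < ρ'` unless `ρ = -1`, `t = 1`: `sub_top_line` (GG/IntNull) and `h3`.
-/

set_option autoImplicit false

namespace Pool.Agent.MP_09eaec.GG.G3

open Module

universe u v

variable {k : Type u} {K : Type v} [Field k] [Field K] [Algebra k K]
variable {W : Type v} [AddCommGroup W] [Module K W] [Module k W] [IsScalarTower k K W]
variable {A : Type v} [AddCommGroup A] [Module K A] [Module k A] [IsScalarTower k K A]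
variable {B : Type v} [AddCommGroup B] [Module K B] [Module k B] [IsScalarTower k K B]

variable [CurveG k K]

/-- The excess of a subspace in terms of the excess of its intersection with the old fibre. -/
private theorem StepR_exk {μ c : ℝ} {s0 : A} {X : VB k K A} {X' : VB k K (A × K)}
    (J : Submodule K (A × K)) {d r : ℤ}
    (h1 : (X'.sub J).deg = (X.sub (J.comap (LinearMap.inl K A K))).deg + d)
    (h2 : (finrank K J : ℤ) = finrank K (J.comap (LinearMap.inl K A K)) + r) :
    exk μ c (s0, 0) X' J = exk μ c s0 X (J.comap (LinearMap.inl K A K)) + d + μ * r := by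
  have h3 : ((s0, 0) : A × K) ∈ J ↔ s0 ∈ J.comap (LinearMap.inl K A K) := Iff.rfl
  have h2r : (finrank K J : ℝ) = finrank K (J.comap (LinearMap.inl K A K)) + r := by
    exact_mod_cast h2
  by_cases h : s0 ∈ J.comap (LinearMap.inl K A K)
  · rw [exk_of_mem h, exk_of_mem (h3.2 h), h1, h2r]
    push_cast
    ring
  · rw [exk_of_notMem h, exk_of_notMem (fun h' => h (h3.1 h')), h1, h2r]
    push_cast
    ring

private theorem StepR_bot [FiniteDimensional K A] {μ c : ℝ} {s0 : A} (hs0 : s0 ≠ 0)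
    (X : VB k K A) : exk μ c s0 X ⊥ = 0 := by
  rw [exk_of_notMem (by simpa using hs0), VB.deg_sub_bot, finrank_bot]
  simp

theorem topR_step [FiniteDimensional K A] {μ c ρ ρ' : ℝ} {s0 : A} (hs0 : s0 ≠ 0) {X : VB k K A}
    {Y' : Submodule K A} {D' : Dv k K} (hN : NegK μ c s0 X) (htot : exk μ c s0 X ⊤ = ρ)
    (hall : ∀ J : Submodule K A, J ≠ ⊥ → J ≠ ⊤ → J ≠ Y' → exk μ c s0 X J < ρ)
    (hρ : -1 ≤ ρ) {a : Place k K →₀ A} (h1 : a ∉ (X.twist (-D')).N)
    (h2 : a.mapRange Y'.mkQ (map_zero _) ∉ ((X.quo Y').twist (-D')).N)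
    (h3 : ρ = -1 → ∀ P : Place k K, a ∉ (X.twist (-(D' - Finsupp.single P 1))).N)
    (hρ' : ρ' = ρ + ddeg D' + μ) (h0 : ρ' ≤ 0) :
    ∃ u : Place k K →₀ (K →ₗ[K] A),
      TopK μ c ρ' (s0, 0) (ext X (line D') u) (LinearMap.snd K A K) D' ∧
      PropK μ c (s0, 0) (ext X (line D') u) ∧
      (ρ' < 0 → NegK μ c (s0, 0) (ext X (line D') u)) := by
  classical
  obtain ⟨u, hu⟩ := exists_u (k := k) (K := K) a
  obtain ⟨hdD, hfr1⟩ := deg_sub_top_line D'
  refine ⟨u, ?_⟩
  have htot' : exk μ c (s0, 0) (ext X (line D') u) ⊤ = ρ' := by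
    have h1 := StepR_exk (μ := μ) (c := c) (s0 := s0) (X := X) (X' := ext X (line D') u)
      (⊤ : Submodule K (A × K)) (d := ddeg D') (r := 1)
      (by rw [Submodule.comap_top, VB.deg_sub_top, VB.deg_sub_top, deg_ext, VB.deg_line])
      (by rw [Submodule.comap_top, finrank_top, finrank_top, Module.finrank_prod,
            Module.finrank_self]; push_cast; ring)
    rw [h1, Submodule.comap_top, htot, hρ']
    push_cast
    ring
  -- the subspaces of the kernel
  have hbot : ∀ J : Submodule K (A × K), J ≠ ⊥ → J.map (LinearMap.snd K A K) = ⊥ →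
      exk μ c (s0, 0) (ext X (line D') u) J < 0 := by
    intro J hJ hJB
    have hJA : J.comap (LinearMap.inl K A K) ≠ ⊥ := fun h => hJ (eq_bot_of h hJB)
    have hext := ext_sub X (line D') u J
    have hrk := finrank_ext_sub J
    rw [hJB] at hext hrk
    obtain ⟨F', _, hF2, _⟩ := hext
    have hF0 : F'.deg = 0 := VB.deg_of_finrank_zero F' (finrank_bot _ _)
    have h1 := hN _ hJA
    rw [StepR_exk (μ := μ) (c := c) (s0 := s0) (X := X) J (d := 0) (r := 0)
      (by rw [hF2, hF0]) (by rw [hrk, finrank_bot]; push_cast; ring)]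
    push_cast
    linarith
  -- the subspaces which are onto the new line bundle
  have htop : ∀ J : Submodule K (A × K), J ≠ ⊤ → J.map (LinearMap.snd K A K) = ⊤ →
      exk μ c (s0, 0) (ext X (line D') u) J < ρ' := by
    intro J hJ hJB
    have hext := ext_sub X (line D') u J
    have hrk := finrank_ext_sub J
    rw [hJB] at hext hrk
    obtain ⟨F', hF1, hF2, hF3⟩ := hext
    have h2' := VB.deg_le_of_le hF1
    rw [hdD] at h2'
    have hex : exk μ c (s0, 0) (ext X (line D') u) J =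
        exk μ c s0 X (J.comap (LinearMap.inl K A K)) + F'.deg + μ := by
      rw [StepR_exk (μ := μ) (c := c) (s0 := s0) (X := X) J (d := F'.deg) (r := 1)
        hF2 (by rw [hrk, hfr1]; push_cast; ring)]
      push_cast
      ring
    rw [hex, hρ']
    suffices hs : exk μ c s0 X (J.comap (LinearMap.inl K A K)) + F'.deg < ρ + ddeg D' by linarith
    rcases h2'.lt_or_eq with h4 | h4
    · have h4' : F'.deg + 1 ≤ ddeg D' := h4
      have h4r : (F'.deg : ℝ) + 1 ≤ ddeg D' := by exact_mod_cast h4'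
      by_cases hJA : J.comap (LinearMap.inl K A K) = ⊥
      · rw [hJA] at hF3 ⊢
        rw [StepR_bot hs0, zero_add]
        rcases hρ.lt_or_eq with h5 | h5
        · linarith
        · rcases (show F'.deg = ddeg D' - 1 ∨ F'.deg + 2 ≤ ddeg D' by omega) with h6 | h6
          · exfalso
            obtain ⟨P, hP⟩ := sub_top_line hF1 h6
            rw [hP] at hF3
            exact h3 h5.symm P ((null_line_bot_iff X (D' - Finsupp.single P 1) hu).1 hF3)
          · have h6r : (F'.deg : ℝ) + 2 ≤ ddeg D' := by exact_mod_cast h6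
            linarith
      · have h5 := hN _ hJA
        linarith
    · have h5 : F' = (line D').sub ⊤ := VB.eq_of_le_of_deg_le hF1 (by rw [hdD, h4])
      rw [h5] at hF3
      have h8 : (F'.deg : ℝ) = ddeg D' := by exact_mod_cast h4
      have hb : J.comap (LinearMap.inl K A K) ≠ ⊥ := by
        intro h
        rw [h] at hF3
        exact h1 ((null_line_bot_iff X D' hu).1 hF3)
      have hy : J.comap (LinearMap.inl K A K) ≠ Y' := by
        intro h
        rw [h] at hF3
        exact h2 ((null_line_iff X Y' D' hu).1 hF3)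
      have h6 : J.comap (LinearMap.inl K A K) ≠ ⊤ := fun h => hJ (eq_top_of h hJB)
      have h7 := hall _ hb h6 hy
      rw [h8]
      linarith
  have hker : ∀ J : Submodule K (A × K), J.map (LinearMap.snd K A K) = ⊥ ↔
      J ≤ LinearMap.ker (LinearMap.snd K A K) := by
    intro J
    rw [← le_bot_iff, Submodule.map_le_iff_le_comap, Submodule.comap_bot]
  refine ⟨⟨?_, htot', ?_⟩, ?_, ?_⟩
  · intro P y
    constructor
    · intro hy
      refine ⟨(u P y, y), ?_, rfl⟩
      rw [mem_ext]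
      refine ⟨hy, ?_⟩
      rw [sub_self]
      exact zero_mem _
    · rintro ⟨x, hx, rfl⟩
      exact (mem_ext.1 hx).1
  · intro J hJ hJk
    rcases eq_bot_or_eq_top (J.map (LinearMap.snd K A K)) with hJB | hJB
    · exact absurd ((hker J).1 hJB) hJk
    · exact htop J hJ hJB
  · intro J hJ hJt
    rcases eq_bot_or_eq_top (J.map (LinearMap.snd K A K)) with hJB | hJB
    · exact hbot J hJ hJB
    · exact (htop J hJt hJB).trans_le h0
  · intro hneg J hJ
    rcases eq_bot_or_eq_top (J.map (LinearMap.snd K A K)) with hJB | hJB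
    · exact hbot J hJ hJB
    · by_cases ht : J = ⊤
      · rw [ht, htot']
        exact hneg
      · exact (htop J ht hJB).trans hneg

end Pool.Agent.MP_09eaec.GG.G3
end
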