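import Pool.Agent.Lib.MP_09eaec_ag.Mg.G022
import Pool.Agent.Lib.MP_09eaec_ag.Mg.G018
import Pool.Agent.Lib.MP_09eaec_ag.Mg.G017
import Pool.Agent.Lib.MP_09eaec_ag.Mg.G030
import Pool.Agent.Lib.MP_09eaec_ag.Mg.G035
import Pool.Agent.Lib.MP_09eaec_ag.HE.MainHE
import Pool.Agent.Lib.MP_09eaec_ag.Mg.G034

section

/-!
# Stable bundles of rank `n` and degree `3 n - 1` with `2 n - 1` sections
-/

set_option autoImplicit false

namespace Pool.Agent.MP_09eaec.GG

open Module

universe u v

variable {k : Type u} {K : Type v} [Field k] [Field K] [Algebra k K]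

variable [CurveG k K]

/-- Classes in the kernel of `H¹(O(D)) → H¹(O(D'))`. -/
theorem exists_ker_classes {D D' : Dv k K} (h : ∀ P, D P ≤ D' P) {c : ℕ}
    (hc : (c : ℤ) + (line D').h1 ≤ (line D).h1) :
    ∃ a : Fin c → (Place k K →₀ K), (∀ i, a i ∈ (line D').N) ∧
      ∀ b : Fin c → k, (∑ i, b i • a i) ∈ (line D).N → b = 0 := by
  have hN : (line D).N ≤ (line D').N := by
    intro a ha
    obtain ⟨w, hw⟩ := VB.mem_N.1 ha
    exact VB.mem_N.2 ⟨w, fun P => line_le_line.2 h P (hw P)⟩
  let π : (line D).H1 →ₗ[k] (line D').H1 := Submodule.mapQ _ _ LinearMap.id hN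
  have hπ : ∀ a : Place k K →₀ K, π ((line D).N.mkQ a) = (line D').N.mkQ a := fun a => rfl
  have h1 := LinearMap.finrank_range_add_finrank_ker π
  have h2 : finrank k (LinearMap.range π) ≤ finrank k (line D').H1 := Submodule.finrank_le _
  have h3 : c ≤ finrank k (LinearMap.ker π) := by
    unfold VB.h1 at hc
    omega
  obtain ⟨f, hf⟩ := exists_linearIndependent_of_le_finrank (R := k) (M := LinearMap.ker π)
    (n := c) h3
  choose a ha using fun i => (line D).N.mkQ_surjective (f i : (line D).H1)
  refine ⟨a, fun i => ?_, fun b hb => ?_⟩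
  · have h4 : π ((line D).N.mkQ (a i)) = 0 := by rw [ha]; exact LinearMap.mem_ker.1 (f i).2
    rw [hπ, Submodule.mkQ_apply, Submodule.Quotient.mk_eq_zero] at h4
    exact h4
  · have h4 : ∑ i, b i • f i = 0 := by
      apply Subtype.ext
      rw [Submodule.coe_sum]
      have h5 : (line D).N.mkQ (∑ i, b i • a i) = 0 := by
        rw [Submodule.mkQ_apply, Submodule.Quotient.mk_eq_zero]
        exact hb
      rw [map_sum] at h5
      rw [Submodule.coe_zero, ← h5]
      refine Finset.sum_congr rfl fun i _ => ?_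
      rw [Submodule.coe_smul, map_smul, ha]
    exact funext ((Fintype.linearIndependent_iff.1 hf) b h4)

omit [CurveG k K] in
/-- The classes as a class with values in `O^c`. -/
theorem exists_flip {c : ℕ} (a : Fin c → (Place k K →₀ K)) :
    ∃ u : Place k K →₀ (K →ₗ[K] (Fin c → K)), ∀ P z i, u P z i = z * a i P := by
  classical
  refine ⟨Finsupp.onFinset (Finset.univ.biUnion fun i => (a i).support)
    (fun P => LinearMap.toSpanSingleton K (Fin c → K) (fun i => a i P)) ?_, fun P z i => ?_⟩
  · intro P hP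
    rw [Finset.mem_biUnion]
    by_contra hcon
    push Not at hcon
    apply hP
    have : (fun i => a i P) = 0 := by
      funext i
      exact Finsupp.notMem_support_iff.1 (hcon i (Finset.mem_univ i))
    rw [this]
    ext
    simp
  · simp [LinearMap.toSpanSingleton_apply]

/-- A subset of a spanning family. -/
theorem exists_subfamily {W : Type v} [AddCommGroup W] [Module K W] [FiniteDimensional K W]
    {ι : Type} [Fintype ι] (w : ι → W) (hw : Submodule.span K (Set.range w) = ⊤) {m : ℕ}
    (hm : finrank K W = m) : ∃ s : Fin m → ι, LinearIndependent K (fun i => w (s i)) := by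
  classical
  obtain ⟨b, hb1, hb2, hb3⟩ := exists_linearIndependent K (Set.range w)
  have hb4 : Submodule.span K b = ⊤ := by rw [hb2, hw]
  let B : Basis b K W := Basis.mk hb3 (by rw [Subtype.range_coe]; exact hb4.ge)
  have : Finite b := Module.Finite.finite_basis B
  have : Fintype b := Fintype.ofFinite b
  have hcard : Fintype.card b = m := by rw [← hm, Module.finrank_eq_card_basis B]
  let e : Fin m ≃ b := (Fintype.equivFinOfCardEq hcard).symm
  choose s hs using fun i => hb1 (e i).2
  refine ⟨s, ?_⟩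
  have e1 : (fun i => w (s i)) = (fun z : b => (z : W)) ∘ e := by
    funext i
    exact hs i
  rw [e1]
  exact hb3.comp e e.injective

theorem exists_F2 {H : Dv k K} (hH : ddeg H = 2) (hH0 : (line H).h0 = 2) {c : ℕ}
    (hc : 1 ≤ c) : ∃ E : VB k K (Fin (c + 1) → K), E.Stable ∧ E.deg = 3 * (c + 1) - 1 ∧
      ((2 * c + 1 : ℕ) : ℤ) ≤ E.h0 := by
  classical
  obtain ⟨P0⟩ : Nonempty (Place k K) := by
    have : Infinite (Place k K) := infinite_places
    infer_instance
  set B : Dv k K := Finsupp.single P0 ((c : ℤ) + 2) with hB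
  have hBd : ddeg B = c + 2 := ddeg_single _ _
  have hB0 : ∀ P, 0 ≤ B P := by
    intro P
    rw [hB, Finsupp.single_apply]
    split_ifs <;> omega
  set D1 : Dv k K := B - H with hD1
  have hD1d : ddeg D1 = c := by rw [hD1, ddeg_sub, hBd, hH]; ring
  have hle : ∀ P, (-D1) P ≤ H P := by
    intro P
    have h1 := hB0 P
    have e : (-D1) P = H P - B P := by
      rw [hD1, Finsupp.neg_apply, Finsupp.sub_apply]; ring
    rw [e]
    linarith
  have hneg : (line (-D1)).H0 = ⊥ := H0_line_of_neg (by rw [ddeg_neg, hD1d]; omega)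
  obtain ⟨a, ha1, ha2⟩ := exists_ker_classes (c := c) hle (by
    have h1 := VB.rr (line H)
    have h2 := VB.rr (line (-D1))
    rw [VB.deg_line, finrank_self, hH, hH0] at h1
    rw [VB.deg_line, finrank_self, ddeg_neg, hD1d] at h2
    have h3 : (line (-D1)).h0 = 0 := by
      unfold VB.h0
      rw [hneg, finrank_bot]
      rfl
    rw [h3] at h2
    linarith)
  obtain ⟨u, hu⟩ := exists_flip a
  set E1 := ext (pw (0 : Dv k K) c) (line D1) u with hE1
  have hmem : ∀ (P : Place k K) (x : (Fin c → K) × K), x ∈ E1.M P ↔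
      x.2 ∈ P.filt (-D1 P) ∧ ∀ i, x.1 i - x.2 * a i P ∈ P.filt 0 := by
    intro P x
    rw [hE1, mem_ext, mem_line, mem_pw]
    have e : ∀ i, (x.1 - u P x.2) i = x.1 i - x.2 * a i P := by
      intro i
      rw [Pi.sub_apply, hu]
    simp only [e, Finsupp.coe_zero, Pi.zero_apply, neg_zero]
  have hdeg1 : E1.deg = c := by
    rw [hE1, deg_ext, deg_pw, ddeg_zero, VB.deg_line, hD1d]; ring
  have hrk : finrank K ((Fin c → K) × K) = c + 1 := by
    rw [Module.finrank_prod, finrank_fin_fun, finrank_self]
  -- no homomorphisms to `O`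
  have hhom : ∀ φ : ((Fin c → K) × K) →ₗ[K] K,
      (∀ P x, x ∈ E1.M P → φ x ∈ (line (0 : Dv k K)).M P) → φ = 0 := by
    intro φ hφ
    have h1 : ∀ i, ∃ b : k, algebraMap k K b = φ (Pi.single i 1, 0) := by
      intro i
      apply H0_line_zero
      rw [VB.mem_H0]
      intro P
      apply hφ
      rw [hmem]
      refine ⟨zero_mem _, fun l => ?_⟩
      rw [zero_mul, sub_zero]
      show (Pi.single i (1 : K) : Fin c → K) l ∈ _
      rw [Pi.single_apply]
      split_ifs
      · exact Or.inr (by rw [P.ord_one])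
      · exact zero_mem _
    choose b hb using h1
    set θ : K := φ (0, 1) with hθ
    have h2 : ∀ s : Fin c → K, φ (s, 0) = ∑ i, s i * algebraMap k K (b i) := by
      intro s
      have e1 : ((s, 0) : (Fin c → K) × K) = ∑ i, s i • ((Pi.single i 1, 0) : (Fin c → K) × K) := by
        refine Prod.ext ?_ ?_
        · rw [Prod.fst_sum]
          funext l
          rw [Finset.sum_apply, Finset.sum_eq_single l]
          · simp
          · intro i _ hil
            simp [Pi.single_eq_of_ne (Ne.symm hil)]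
          · intro h; exact absurd (Finset.mem_univ l) h
        · rw [Prod.snd_sum]
          simp
      rw [e1, map_sum]
      refine Finset.sum_congr rfl fun i _ => ?_
      rw [map_smul, hb, smul_eq_mul]
    have h3 : ∀ P, (∑ i, b i • a i) P - (-θ) ∈ (line (-D1)).M P := by
      intro P
      have e0 : (∑ i, b i • a i) P = ∑ i, a i P * algebraMap k K (b i) := by
        rw [Finsupp.finsetSum_apply]
        refine Finset.sum_congr rfl fun i _ => ?_
        rw [Finsupp.smul_apply, Algebra.smul_def, mul_comm]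
      obtain ⟨t, ht, htm⟩ := exists_ord_eq P (-D1 P)
      have h4 := hφ P ((fun i => t * a i P), t) (by
        rw [hmem]
        refine ⟨Or.inr htm.ge, fun i => ?_⟩
        show t * a i P - t * a i P ∈ _
        rw [sub_self]
        exact zero_mem _)
      have e1 : ((fun i => t * a i P), t) =
          (((fun i => t * a i P), 0) : (Fin c → K) × K) + t • ((0, 1) : (Fin c → K) × K) := by
        refine Prod.ext ?_ ?_ <;> simp
      rw [e1, map_add, map_smul, h2, ← hθ, smul_eq_mul, mem_line] at h4
      have e2 : ∑ i, t * a i P * algebraMap k K (b i) + t * θ =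
          t * ((∑ i, b i • a i) P - (-θ)) := by
        rw [e0, sub_neg_eq_add, mul_add, Finset.mul_sum]
        congr 1
        refine Finset.sum_congr rfl fun i _ => ?_
        ring
      rw [e2] at h4
      rw [mem_line]
      have h5 := mem_filt_iff_of_ord P ht htm (x := (∑ i, b i • a i) P - (-θ)) (-(-D1) P)
      apply h5.1
      have e3 : -(-D1) P + -D1 P = -(0 : Dv k K) P := by
        rw [Finsupp.neg_apply, Finsupp.coe_zero, Pi.zero_apply]; ring
      rw [e3]
      exact h4
    have h4 : b = 0 := ha2 b (VB.mem_N.2 ⟨-θ, h3⟩)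
    have h5 : θ = 0 := by
      have h6 : θ ∈ (line (-D1)).H0 := by
        rw [VB.mem_H0]
        intro P
        have h7 := h3 P
        rw [h4] at h7
        simpa using h7
      rw [hneg, Submodule.mem_bot] at h6
      exact h6
    apply LinearMap.ext
    intro x
    have e1 : x = (x.1, 0) + x.2 • ((0, 1) : (Fin c → K) × K) := by
      refine Prod.ext ?_ ?_ <;> simp
    rw [e1, map_add, map_smul, h2, ← hθ, h5, h4]
    simp
  obtain ⟨κ, hκ⟩ := exists_canonical (k := k) (K := K)
  have hh1 : (E1.twist κ).h1 = 0 := by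
    by_contra hne
    obtain ⟨φ, hφ, hφ'⟩ := h1_twist_hom hκ hne
    exact hφ (hhom φ hφ')
  have hst1 : E1.Stable := by
    intro J hJ hJ'
    rw [hdeg1, hrk]
    have hw0 : 0 < finrank K J := Submodule.one_le_finrank_iff.2 hJ
    have hw0' : (0 : ℤ) < finrank K J := by exact_mod_cast hw0
    have hc' : (0 : ℤ) < c := by exact_mod_cast hc
    by_cases hB : J.map (LinearMap.snd K (Fin c → K) K) = ⊥
    · obtain ⟨F', e1, e2, -⟩ := ext_sub (pw (0 : Dv k K) c) (line D1) u J
      have e3 := deg_le_zero_of_le_pw _ _ (VB.le_refl' ((pw (0 : Dv k K) c).sub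
        (J.comap (LinearMap.inl K (Fin c → K) K))))
      have e4 : F'.deg = 0 := VB.deg_of_finrank_zero F' (by rw [hB, finrank_bot])
      have e5 : (E1.sub J).deg ≤ 0 := by rw [e2, e4]; linarith
      have : (0 : ℤ) < finrank K J * c := mul_pos hw0' hc'
      have h6 : (((c + 1 : ℕ) : ℤ)) * (E1.sub J).deg ≤ 0 :=
        mul_nonpos_of_nonneg_of_nonpos (by positivity) e5
      linarith
    · have hBt : J.map (LinearMap.snd K (Fin c → K) K) = ⊤ :=
        (Ideal.eq_bot_or_top _).resolve_left hB
      set m := finrank K (((Fin c → K) × K) ⧸ J) with hm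
      have hfr := Submodule.finrank_quotient_add_finrank J
      rw [hrk, ← hm] at hfr
      -- the frame
      have hspan : Submodule.span K (Set.range fun i : Fin c =>
          J.mkQ ((Pi.single i 1, 0) : (Fin c → K) × K)) = ⊤ := by
        rw [eq_top_iff]
        intro q _
        obtain ⟨x, rfl⟩ := J.mkQ_surjective q
        obtain ⟨z, hz, hz'⟩ : x.2 ∈ J.map (LinearMap.snd K (Fin c → K) K) := by rw [hBt]; trivial
        have hz2 : z.2 = x.2 := hz'
        have e1 : J.mkQ x = J.mkQ (x.1 - z.1, 0) := by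
          rw [Submodule.mkQ_apply, Submodule.mkQ_apply, Submodule.Quotient.eq]
          have e2 : x - (x.1 - z.1, 0) = z := by
            refine Prod.ext ?_ ?_
            · simp
            · simp [hz2]
          rw [e2]
          exact hz
        have e3 : ((x.1 - z.1, 0) : (Fin c → K) × K) =
            ∑ i, (x.1 - z.1) i • ((Pi.single i 1, 0) : (Fin c → K) × K) := by
          refine Prod.ext ?_ ?_
          · rw [Prod.fst_sum]
            funext l
            rw [Finset.sum_apply, Finset.sum_eq_single l]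
            · simp
            · intro i _ hil
              simp [Pi.single_eq_of_ne (Ne.symm hil)]
            · intro h; exact absurd (Finset.mem_univ l) h
          · rw [Prod.snd_sum]
            simp
        rw [e1, e3, map_sum]
        refine Submodule.sum_mem _ fun i _ => ?_
        rw [map_smul]
        exact Submodule.smul_mem _ _ (Submodule.subset_span ⟨i, rfl⟩)
      obtain ⟨s, hs⟩ := exists_subfamily _ hspan hm.symm
      have hN1 : ((E1.quo J).twist κ).h1 = 0 := by
        refine le_antisymm ?_ (VB.h1_nonneg _)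
        rw [← hh1, ← VB.twist_quo]
        exact h1_le_of_map _ _ J.mkQ J.mkQ_surjective fun P x hx => ⟨x, hx, rfl⟩
      obtain ⟨f, hf⟩ := exists_frame_le (E := (E1.quo J).twist κ) (D := κ) (r := m) hm.symm
        (w := fun i => J.mkQ ((Pi.single (s i) 1, 0) : (Fin c → K) × K)) (by
          intro i
          rw [VB.twist_twist, add_neg_cancel, VB.twist_zero, VB.mem_H0]
          intro P
          refine ⟨(Pi.single (s i) 1, 0), (hmem P _).2 ⟨zero_mem _, fun l => ?_⟩, rfl⟩
          rw [zero_mul, sub_zero]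
          show (Pi.single (s i) (1 : K) : Fin c → K) l ∈ _
          rw [Pi.single_apply]
          split_ifs
          · exact Or.inr (by rw [P.ord_one])
          · exact zero_mem _) hs
      have h2 := h0_le_of_le hf
      rw [h0_pw, hκ.h0, VB.h0_map, VB.rr, hN1, VB.deg_twist, hκ.ddeg, ← hm] at h2
      have h3 := VB.deg_add E1 J
      rw [hdeg1] at h3
      have hm' : (m : ℤ) + finrank K J = c + 1 := by exact_mod_cast hfr
      have hm0 : (0 : ℤ) < m := by
        have : 0 < m := finrank_quo_pos hJ'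
        exact_mod_cast this
      have h4 : (m : ℤ) ≤ (E1.quo J).deg := by nlinarith
      have h5 : (E1.sub J).deg ≤ finrank K J - 1 := by linarith
      have h6 : ((c : ℤ) + 1) * (E1.sub J).deg ≤ (c + 1) * (finrank K J - 1) :=
        mul_le_mul_of_nonneg_left h5 (by positivity)
      push_cast
      nlinarith
  -- the twist
  have hst := VB.stable_twist hst1 H
  have hdeg : (E1.twist H).deg = 3 * (c + 1) - 1 := by
    rw [VB.deg_twist, hdeg1, hrk, hH]; push_cast; ring
  have hsec : ((2 * c + 1 : ℕ) : ℤ) ≤ (E1.twist H).h0 := by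
    choose w hw using fun i => VB.mem_N.1 (ha1 i)
    have hmemH : ∀ (P : Place k K) (x : (Fin c → K) × K), x ∈ (E1.twist H).M P ↔
        x.2 ∈ P.filt (-B P) ∧ ∀ i, x.1 i - x.2 * a i P ∈ P.filt (-H P) := by
      intro P x
      obtain ⟨t, ht, htm⟩ := exists_ord_eq P (H P)
      rw [VB.mem_twist_iff ht htm, hmem]
      refine and_congr ?_ (forall_congr' fun i => ?_)
      · show t * x.2 ∈ _ ↔ _
        have h1 := mem_filt_iff_of_ord P ht htm (x := x.2) (-B P)
        have e1 : -B P + H P = -D1 P := by rw [hD1, Finsupp.sub_apply]; ring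
        rw [e1] at h1
        exact h1
      · have e1 : (t • x).1 i - (t • x).2 * a i P = t * (x.1 i - x.2 * a i P) := by
          show t * x.1 i - t * x.2 * a i P = _
          ring
        rw [e1]
        have h1 := mem_filt_iff_of_ord P ht htm (x := x.1 i - x.2 * a i P) (-H P)
        rw [neg_add_cancel] at h1
        exact h1
    let F : ((pw H c).H0 × k) →ₗ[k] (E1.twist H).H0 :=
      { toFun := fun p => ⟨((p.1 : Fin c → K) + p.2 • w, p.2 • (1 : K)), by
          rw [VB.mem_H0]
          intro P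
          rw [hmemH]
          refine ⟨?_, fun i => ?_⟩
          · refine Submodule.smul_mem _ _ ?_
            refine Or.inr ?_
            have h1 := hB0 P
            rw [P.ord_one]
            linarith
          · show (p.1 : Fin c → K) i + p.2 • w i - p.2 • (1 : K) * a i P ∈ _
            have h1 : (p.1 : Fin c → K) i ∈ P.filt (-H P) := mem_pw.1 (VB.mem_H0.1 p.1.2 P) i
            have h2 := mem_line.1 (hw i P)
            have e1 : (p.1 : Fin c → K) i + p.2 • w i - p.2 • (1 : K) * a i P =
                (p.1 : Fin c → K) i - p.2 • (a i P - w i) := by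
              rw [smul_mul_assoc, one_mul, smul_sub]; ring
            rw [e1]
            exact sub_mem h1 (Submodule.smul_mem _ _ h2)⟩
        map_add' := by
          intro p q
          apply Subtype.ext
          refine Prod.ext ?_ ?_
          · show ((p.1 : Fin c → K) + q.1) + (p.2 + q.2) • w =
              ((p.1 : Fin c → K) + p.2 • w) + ((q.1 : Fin c → K) + q.2 • w)
            rw [add_smul]; abel
          · show (p.2 + q.2) • (1 : K) = p.2 • (1 : K) + q.2 • (1 : K)
            rw [add_smul]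
        map_smul' := by
          intro r p
          apply Subtype.ext
          refine Prod.ext ?_ ?_
          · show (r • (p.1 : Fin c → K)) + (r * p.2) • w = r • ((p.1 : Fin c → K) + p.2 • w)
            rw [smul_add, mul_smul]
          · show (r * p.2) • (1 : K) = r • p.2 • (1 : K)
            rw [mul_smul] }
    have hF : Function.Injective F := by
      rw [injective_iff_map_eq_zero]
      intro p hp
      have h1 := congrArg (fun z : (E1.twist H).H0 => (z : (Fin c → K) × K).1) hp
      have h2 := congrArg (fun z : (E1.twist H).H0 => (z : (Fin c → K) × K).2) hp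
      have h3 : p.2 • (1 : K) = 0 := h2
      have h4 : p.2 = 0 := (smul_eq_zero.1 h3).resolve_right one_ne_zero
      have h5 : (p.1 : Fin c → K) + p.2 • w = 0 := h1
      rw [h4, zero_smul, add_zero] at h5
      exact Prod.ext (Subtype.ext h5) h4
    have h1 := LinearMap.finrank_le_finrank_of_injective hF
    rw [Module.finrank_prod, finrank_self] at h1
    have h2 := h0_pw H c
    rw [hH0] at h2
    unfold VB.h0 at h2 ⊢
    push_cast
    have h3 : ((finrank k (pw H c).H0 + 1 : ℕ) : ℤ) ≤ finrank k (E1.twist H).H0 := by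
      exact_mod_cast h1
    push_cast at h3
    linarith
  obtain ⟨E', f, hE', hdeg', -, -, -, hst'⟩ := exists_transport (E1.twist H) hrk
  refine ⟨E', hst' hst, by rw [hdeg', hdeg], ?_⟩
  rw [hE', VB.h0_map]
  exact hsec

/-- Degree `3 n - 1`, `2 n - 1` sections. -/
theorem he_upper_F2 {H : Dv k K} {x y : K} (hp : Pencil H x y) {n d : ℕ} (hn : 2 ≤ n)
    (hd : d + 1 = 2 * n) : (3 * n - 1 : ℤ) ∈ stableDegrees k K n d := by
  obtain ⟨c, rfl⟩ : ∃ c, n = c + 1 := ⟨n - 1, by omega⟩
  have hg := CurveG.two_le (k := k) (K := K)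
  have h1 := h0_smul hp (s := 1) (by omega) (by omega)
  rw [one_smul] at h1
  obtain ⟨E, hE1, hE2, hE3⟩ := exists_F2 hp.deg (by rw [h1]; norm_num) (c := c) (by omega)
  have h2 := stable_mem (d := d) (by omega) hE1 (by
    have : (d : ℤ) = ((2 * c + 1 : ℕ) : ℤ) := by
      have : d = 2 * c + 1 := by omega
      rw [this]
    rw [this]
    exact hE3)
  rw [hE2] at h2
  push_cast
  exact h2

end Pool.Agent.MP_09eaec.GG
end

section

/-!
# Assembly: the minimal degree on hyperelliptic curves
-/

set_option autoImplicit false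

namespace Pool.Agent.MP_09eaec.GG

open Module

universe u v

variable {k : Type u} {K : Type v} [Field k] [Field K] [Algebra k K]

/-- (A), lower bound. -/
theorem hy_ramp_lower [CurveG k K] {H : Dv k K} {x y : K} (hp : Pencil H x y) {n d j : ℕ}
    (hn : 1 ≤ n) (hj : 1 ≤ j) (hjg : (j : ℤ) ≤ gen k K) (h1 : j * n < d)
    (hk : gen k K * d ≤ j * (gen k K + 1) * n) {e : ℤ} (he : e ∈ stableDegrees k K n d) :
    gen k K * d ≤ j * (e + (gen k K + 1 - 2 * j) * n) := by
  obtain ⟨E, V, α, hα, hV, hd, rfl, hst⟩ := of_mem_stableDegrees he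
  have hrank : finrank K (Fin n → K) = n := Module.finrank_fin_fun K
  have := lower_ramp hp hV hα (by rw [hrank]; exact hn) hst (j := j) (by omega) hjg
    (by rw [hrank, hd]; exact_mod_cast h1) (by rw [hrank, hd]; exact hk)
  rwa [hrank, hd] at this

/-- (A), existence. -/
theorem hy_ramp_upper [CurveG k K] {H : Dv k K} {x y : K} (hp : Pencil H x y) {n d j : ℕ}
    {c : ℤ} (hn : 1 ≤ n) (hj : 1 ≤ j) (h1 : j * n < d) (hc : (d : ℤ) ≤ j * c)
    (hcg : gen k K * c < (gen k K + 1) * n) :
    gen k K * c - (gen k K + 1 - 2 * j) * n ∈ stableDegrees k K n d := by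
  have hg := CurveG.two_le (k := k) (K := K)
  have hnc : (n : ℤ) < c := by
    have h2 : ((j * n : ℕ) : ℤ) < j * c := lt_of_lt_of_le (by exact_mod_cast h1) hc
    push_cast at h2
    exact lt_of_mul_lt_mul_left h2 (by positivity)
  obtain ⟨i, hi⟩ : ∃ i : ℕ, (i : ℤ) = c - n := ⟨(c - n).toNat, Int.toNat_of_nonneg (by omega)⟩
  have hi1 : 1 ≤ i := by omega
  have hc' : c = n + i := by omega
  subst hc'
  obtain ⟨E, h2, h3, h4⟩ := exists_ramp hp (n := n) hi1 (by nlinarith)
  obtain ⟨j', rfl⟩ : ∃ j', j = j' + 1 := ⟨j - 1, by omega⟩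
  have h5 := twist_mem hp (s := j') (c := n + i) hn h2 (by rw [h3]; nlinarith) h4 (d := d)
    (by exact_mod_cast hc)
  rw [h3] at h5
  convert h5 using 1
  push_cast
  ring

/-- (B), lower bound. -/
theorem hy_plateau_lower [CurveG k K] {H : Dv k K} {x y : K} (hp : Pencil H x y) {n d j : ℕ}
    (hn : 1 ≤ n) (hj : 1 ≤ j) (hjg : (j : ℤ) ≤ gen k K)
    (hk : j * (gen k K + 1) * n ≤ gen k K * d) {e : ℤ} (he : e ∈ stableDegrees k K n d) :
    2 * j * n ≤ e := by
  obtain ⟨E, V, α, hα, hV, hd, rfl, hst⟩ := of_mem_stableDegrees he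
  have hrank : finrank K (Fin n → K) = n := Module.finrank_fin_fun K
  have := lower_plateau hp hV hα (by rw [hrank]; exact hn) hst (j := j) (by omega) hjg
    (by rw [hrank, hd]; exact hk)
  rwa [hrank] at this

/-- (C), lower bound. -/
theorem hy_top_lower [CurveG k K] {H : Dv k K} {x y : K} (hp : Pencil H x y) {n d j : ℕ}
    (hn : 1 ≤ n) (hj : 1 ≤ j) (hjg : (j : ℤ) + 2 ≤ gen k K)
    (hk : j * gen k K * n < (gen k K - 1) * d)
    (hq : (j + 1) * n * d + 1 < (n : ℤ) ^ 2 + (d : ℤ) ^ 2) {e : ℤ}
    (he : e ∈ stableDegrees k K n d) : 2 * j * n + 1 ≤ e := by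
  have hg := CurveG.two_le (k := k) (K := K)
  have hk' : j * (gen k K + 1) * n ≤ gen k K * d := by
    have a1 : gen k K * (j * gen k K * n) < gen k K * ((gen k K - 1) * d) :=
      mul_lt_mul_of_pos_left hk (by omega)
    have a2 : (gen k K - 1) * (j * (gen k K + 1) * n) < (gen k K - 1) * (gen k K * d) := by
      have : (0 : ℤ) ≤ j * n := by positivity
      nlinarith
    exact (lt_of_mul_lt_mul_left a2 (by omega)).le
  have h1 := hy_plateau_lower hp hn hj (by omega) hk' he
  by_contra hcon
  have h2 : e = 2 * j * n := by omega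
  obtain ⟨E, V, α, hα, hV, hd, hdE, hst⟩ := of_mem_stableDegrees he
  have hrank : finrank K (Fin n → K) = n := Module.finrank_fin_fun K
  have := root_of_plateau hp hV hα (by rw [hrank]; exact hn) hst (j := j) (by omega) hjg
    (by rw [hrank, hdE, h2]) (by rw [hrank, hd]; exact hk)
  rw [hrank, hd] at this
  linarith

/-- The minimal degree of stable coherent systems on hyperelliptic curves. -/
theorem hy_main [IsAlgClosed k] [CharZero k] (hK : IsCurveField k K) {g : ℤ}
    (hg : IsGenus k K g) (hgon : gon k K 1 = 2) {n d j : ℕ} (hn : 2 ≤ n) (hj : 1 ≤ j)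
    (hjg : (j : ℤ) + 2 ≤ g) (h1 : j * n < d) (h2 : d ≤ (j + 1) * n) :
    (g * d ≤ j * (g + 1) * n →
      (∀ e ∈ stableDegrees k K n d, g * d ≤ j * (e + (g + 1 - 2 * j) * n)) ∧
      ∀ c : ℤ, (d : ℤ) ≤ j * c → g * c < (g + 1) * n →
        g * c - (g + 1 - 2 * j) * n ∈ stableDegrees k K n d) ∧
    (j * (g + 1) * n ≤ g * d →
      (∀ e ∈ stableDegrees k K n d, 2 * j * n ≤ e) ∧
      ((n : ℤ) ^ 2 + (d : ℤ) ^ 2 ≤ (j + 1) * n * d + 1 →
        IsLeast (stableDegrees k K n d) (2 * j * n))) ∧
    (j * g * n < (g - 1) * d → (j + 1) * n * d + 1 < (n : ℤ) ^ 2 + (d : ℤ) ^ 2 →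
      (∀ e ∈ stableDegrees k K n d, 2 * j * n + 1 ≤ e) ∧
      ∀ c : ℕ, c < n → g * c ≤ (g - 1) * n + 1 → d ≤ (j + 1) * c →
        IsLeast (stableDegrees k K n d) (2 * j * n + 1)) := by
  obtain ⟨inst, rfl⟩ := curveG_of_isGenus hK (by omega) hg
  obtain ⟨H, x, y, hp⟩ := exists_pencil (k := k) (K := K) hgon
  refine ⟨fun h3 => ⟨fun e he => hy_ramp_lower hp (by omega) hj (by omega) h1 h3 he,
    fun c hc hc' => hy_ramp_upper hp (by omega) hj h1 hc hc'⟩,
    fun h3 => ⟨fun e he => hy_plateau_lower hp (by omega) hj (by omega) h3 he,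
      fun h4 => ⟨upper_plateau hp (by omega) hj (by omega) h1 h2 h4,
        fun e he => hy_plateau_lower hp (by omega) hj (by omega) h3 he⟩⟩,
    fun h3 h4 => ⟨fun e he => hy_top_lower hp (by omega) hj hjg h3 h4 he,
      fun c hc hc' hd => ⟨upper_top hp hc hc' hd,
        fun e he => hy_top_lower hp (by omega) hj hjg h3 h4 he⟩⟩⟩

end Pool.Agent.MP_09eaec.GG
end

section

/-!
# The minimal degree of stable coherent systems of rank at most `g` on hyperelliptic curves
-/

set_option autoImplicit false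

namespace Pool.Agent.MP_09eaec.GG

open Module

universe u v

variable {k : Type u} {K : Type v} [Field k] [Field K] [Algebra k K]

/-- `(j + 1) n - u` sections, `1 ≤ u ≤ j`, `(j + 1) u < n`. -/
theorem he_F [CurveG k K] {H : Dv k K} {x y : K} (hp : Pencil H x y) {n d j u : ℕ} {y0 : ℤ}
    (hj : 1 ≤ j) (hu : 1 ≤ u) (huj : u ≤ j) (hd : d + u = (j + 1) * n) (hy0 : 1 ≤ y0)
    (hyg : y0 + j + 1 ≤ gen k K) (hy : j * (y0 - 1) < n - (j + 1) * u)
    (hy' : (n : ℤ) ≤ (j + 1) * u + j * y0) :
    IsLeast (stableDegrees k K n d) (2 * j * n + min (2 * y0) (n - u)) := by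
  have hj1 : (1 : ℤ) ≤ j := by exact_mod_cast hj
  have hu1 : (1 : ℤ) ≤ u := by exact_mod_cast hu
  have hjy : (0 : ℤ) ≤ j * (y0 - 1) := mul_nonneg (by omega) (by omega)
  have hn2 : 2 ≤ n := by
    have h1 : (1 + 1) * (1 : ℤ) ≤ (j + 1) * u := mul_le_mul (by omega) hu1 (by omega) (by omega)
    have : (2 : ℤ) ≤ n := by linarith
    exact_mod_cast this
  constructor
  · by_cases h : 2 * y0 ≤ n - u
    · rw [min_eq_left h]
      obtain ⟨y1, hy1⟩ : ∃ y1 : ℕ, y0 = y1 := ⟨y0.toNat, (Int.toNat_of_nonneg (by omega)).symm⟩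
      rw [hy1]
      refine he_upper_F hp (u := u) (by omega) (by rw [← hy1]; omega) hu (by omega) (by omega)
        ?_ hd
      rw [hy1] at hy'
      exact_mod_cast hy'
    · push Not at h
      rw [min_eq_right h.le]
      have hj2 : j = 1 := by
        by_contra hne
        have h2 : (2 : ℤ) ≤ j := by
          have : 2 ≤ j := by omega
          exact_mod_cast this
        have h3 : (2 : ℤ) * (y0 - 1 + u) ≤ j * (y0 - 1 + u) :=
          mul_le_mul_of_nonneg_right h2 (by omega)
        nlinarith
      subst hj2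
      have hu2 : u = 1 := by omega
      subst hu2
      have h1 := he_upper_F2 hp (n := n) (d := d) hn2 (by omega)
      have e : (2 * ((1 : ℕ) : ℤ) * n + (n - ((1 : ℕ) : ℤ)) : ℤ) = 3 * n - 1 := by
        push_cast; ring
      rw [e]
      exact h1
  · intro e he
    obtain ⟨E, V, α, hα, hV, hfV, rfl, hst⟩ := of_mem_stableDegrees he
    have hrank : finrank K (Fin n → K) = n := Module.finrank_fin_fun K
    have h1 := lower_F hp hV hα (by rw [hrank]; exact hn2) hst (j := j) (u := u) (y0 := y0) hj
      huj (by rw [hrank, hfV]; exact_mod_cast hd) hy0 hyg (by rw [hrank]; exact hy)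
    rw [hrank] at h1
    exact h1

/-- `n < (j + 1) u`, `u ≤ j < n - u`: the Tits form is at most one. -/
theorem tits_le {n j u : ℤ} (hu : 1 ≤ u) (huj : u ≤ j) (hv : j < n - u) (h : n < (j + 1) * u) :
    n * (n - (j + 1) * u) + u ^ 2 ≤ 1 := by
  have h1 : n * (n - (j + 1) * u) ≤ n * (-1) := mul_le_mul_of_nonneg_left (by omega) (by omega)
  rcases hu.eq_or_lt with hu1 | hu1
  · rw [← hu1] at h hv
    omega
  · -- convexity
    obtain ⟨a, ha⟩ : ∃ a, a = n - u - j := ⟨_, rfl⟩
    obtain ⟨b, hb⟩ : ∃ b, b = (j + 1) * u - 1 - n := ⟨_, rfl⟩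
    have ha0 : 0 ≤ a := by omega
    have hb0 : 0 ≤ b := by omega
    have hn : n = u + j + a := by omega
    have hbn : (j + 1) * u = n + 1 + b := by omega
    -- `a + b = j u - j - 1`
    have hab : a + b + 1 = j * (u - 1) := by
      have : (j + 1) * u = j * (u - 1) + j + u := by ring
      omega
    have e1 : n * (n - (j + 1) * u) = -(n * (b + 1)) := by rw [hbn]; ring
    rw [e1]
    have h2 : u ^ 2 ≤ n * (b + 1) + 1 := by
      have h3 : (b + 1) * (u + j + a) ≥ u * u := by
        have h4 : (b + 1) + a = j * (u - 1) := by linarith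
        -- `(b + 1) (u + j + a) ≥ u + j + a + b ≥ u + j (u - 1) + j - 1`
        have h5 : 0 ≤ b * (u + j + a - 1) := mul_nonneg hb0 (by omega)
        have h6 : u * (u - 1) ≤ j * (u - 1) := mul_le_mul_of_nonneg_right huj (by omega)
        nlinarith
      rw [hn]
      nlinarith
    linarith

/-- The complete answer for `n ≤ g`. -/
theorem he_complete [CurveG k K] {H : Dv k K} {x y : K} (hp : Pencil H x y) {n d j u v : ℕ}
    (hn : 2 ≤ n) (hng : (n : ℤ) ≤ gen k K) (hj : 1 ≤ j) (hjg : (j : ℤ) + 2 ≤ gen k K)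
    (hd : d + u = (j + 1) * n) (hv : d = j * n + v) (hv1 : 1 ≤ v) :
    (u = 0 → IsLeast (stableDegrees k K n d) ((2 * j + 1) * n + 1)) ∧
    (1 ≤ u → v ≤ j → IsLeast (stableDegrees k K n d)
      (min (2 * j * n : ℤ) ((2 * j - 1) * n + v + (gen k K - j)))) ∧
    (1 ≤ u → j < v → (n : ℤ) ^ 2 + (d : ℤ) ^ 2 ≤ (j + 1) * n * d + 1 →
      IsLeast (stableDegrees k K n d) (2 * j * n)) ∧
    (1 ≤ u → j < v → (j + 1) * n * d + 1 < (n : ℤ) ^ 2 + (d : ℤ) ^ 2 →
      (j < u ∨ n = (j + 1) * u → IsLeast (stableDegrees k K n d) (2 * j * n + 1)) ∧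
      (¬ (j < u ∨ n = (j + 1) * u) → ∀ y0 : ℤ, j * (y0 - 1) < n - (j + 1) * u →
        (n : ℤ) ≤ (j + 1) * u + j * y0 →
        IsLeast (stableDegrees k K n d) (2 * j * n + min (2 * y0) (n - u)))) := by
  have huv : u + v = n := by nlinarith
  have hj1 : (1 : ℤ) ≤ j := by exact_mod_cast hj
  have hdz : (d : ℤ) = j * n + v := by exact_mod_cast hv
  have huz : (u : ℤ) + v = n := by exact_mod_cast huv
  have hng' : ∀ a b : ℤ, b = a → b = a := fun _ _ h => h
  refine ⟨fun hu => ?_, fun hu hvj => ?_, fun hu hvj hq => ?_, fun hu hvj hq => ⟨fun h => ?_,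
    fun h y0 hy hy' => ?_⟩⟩
  · have : d = (j + 1) * n := by omega
    rw [this]
    exact he_mult hp hn hj hjg
  · rw [hv]
    exact he_small hp (by omega) hv1 hvj (by omega)
  · have hvj' : (j : ℤ) + 1 ≤ v := by exact_mod_cast hvj
    have h3 : j * (gen k K + 1) * n ≤ gen k K * d := by
      rw [hdz]
      have h4 : (n : ℤ) * (j + 1) ≤ gen k K * v := mul_le_mul hng hvj' (by omega) (by omega)
      nlinarith
    refine ⟨upper_plateau hp (by omega) hj (by omega) (by rw [hv]; omega) (by omega) hq,
      fun e he => hy_plateau_lower hp (by omega) hj (by omega) h3 he⟩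
  · have hvj' : (j : ℤ) + 1 ≤ v := by exact_mod_cast hvj
    have h3 : j * gen k K * n < (gen k K - 1) * d := by
      rw [hdz]
      have h4 : (gen k K - 1) * ((j : ℤ) + 1) ≤ (gen k K - 1) * v :=
        mul_le_mul_of_nonneg_left hvj' (by omega)
      have h5 : (j : ℤ) * n ≤ j * gen k K := mul_le_mul_of_nonneg_left hng (by omega)
      nlinarith
    refine ⟨?_, fun e he => hy_top_lower hp (by omega) hj hjg h3 hq he⟩
    rcases h with h | h
    · refine upper_top hp (c := n - 1) (by omega) ?_ ?_
      · have e : ((n - 1 : ℕ) : ℤ) = n - 1 := by omega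
        rw [e]
        nlinarith
      · have e1 : (j + 1) * n = (j + 1) * (n - 1) + (j + 1) := by
          obtain ⟨m, rfl⟩ : ∃ m, n = m + 1 := ⟨n - 1, by omega⟩
          rw [Nat.add_sub_cancel]
          ring
        omega
    · by_cases huj : u ≤ j
      · exact he_upper_F0 hp (by omega) (by omega) hu (by omega) h.le hd
      · push Not at huj
        refine upper_top hp (c := n - 1) (by omega) ?_ ?_
        · have e : ((n - 1 : ℕ) : ℤ) = n - 1 := by omega
          rw [e]
          nlinarith
        · have e1 : (j + 1) * n = (j + 1) * (n - 1) + (j + 1) := by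
            obtain ⟨m, rfl⟩ : ∃ m, n = m + 1 := ⟨n - 1, by omega⟩
            rw [Nat.add_sub_cancel]
            ring
          omega
  · push Not at h
    obtain ⟨h1, h2⟩ := h
    have h1' : (u : ℤ) ≤ j := by exact_mod_cast h1
    have hu' : (1 : ℤ) ≤ u := by exact_mod_cast hu
    have hvj' : (j : ℤ) + 1 ≤ v := by exact_mod_cast hvj
    have h3 : (j + 1) * (u : ℤ) < n := by
      by_contra hcon
      push Not at hcon
      have h2' : (n : ℤ) ≠ (j + 1) * u := by exact_mod_cast h2
      have h4 := tits_le hu' h1' (by omega) (lt_of_le_of_ne hcon h2')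
      have hdz' : (d : ℤ) = (j + 1) * n - u := by
        have : (d : ℤ) + u = (j + 1) * n := by exact_mod_cast hd
        linarith
      rw [hdz'] at hq
      nlinarith
    have hy0 : 1 ≤ y0 := by
      by_contra hcon
      push Not at hcon
      have : (j : ℤ) * y0 ≤ 0 := mul_nonpos_of_nonneg_of_nonpos (by omega) (by omega)
      linarith
    have hyg : y0 + j + 1 ≤ gen k K := by
      by_contra hcon
      push Not at hcon
      have h4 : ((j : ℤ) + 1) * 1 ≤ (j + 1) * u := mul_le_mul_of_nonneg_left hu' (by omega)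
      have h5 : (1 : ℤ) * (y0 - 1) ≤ j * (y0 - 1) := mul_le_mul_of_nonneg_right hj1 (by omega)
      linarith
    exact he_F hp hj hu h1 hd hy0 hyg hy hy'

end Pool.Agent.MP_09eaec.GG
end
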