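import Pool.Agent.Lib.MP_09eaec_ag.Mg.G033
import Pool.Agent.Lib.MP_09eaec_ag.Mg.G036
import Pool.Agent.Lib.MP_09eaec_ag.Mg.G038
import Pool.Agent.Lib.MP_09eaec_ag.Mg.G004
import Pool.Agent.Lib.MP_09eaec_ag.Mg.G030
import Pool.Agent.Lib.MP_09eaec_ag.Mg.G014
import Pool.Agent.Lib.MP_09eaec_ag.Mg.G002

section

/-!
# `(j + 1) n - u` sections, `u ≤ j`, all ranks
-/

set_option autoImplicit false

namespace Pool.Agent.MP_09eaec.GG

open Module

universe u v

variable {k : Type u} {K : Type v} [Field k] [Field K] [Algebra k K]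

/-- `(j + 1) n - u` sections, `1 ≤ u ≤ j`, `(j + 1) u < n`. -/
theorem he_F_all [CurveG k K] {H : Dv k K} {x y : K} (hp : Pencil H x y) {n d j u : ℕ} {y0 : ℤ}
    (hj : 1 ≤ j) (hjg : (j : ℤ) + 2 ≤ gen k K) (hu : 1 ≤ u) (huj : u ≤ j)
    (hd : d + u = (j + 1) * n) (hy0 : 1 ≤ y0)
    (hy : j * (y0 - 1) < n - (j + 1) * u) (hy' : (n : ℤ) ≤ (j + 1) * u + j * y0) :
    IsLeast (stableDegrees k K n d)
      (2 * j * n + min (min (2 * y0) (y0 + gen k K - 1 - j)) (n - u)) := by
  rcases le_or_gt (y0 + j + 1) (gen k K) with hyg | hyg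
  · rw [min_eq_left (a := 2 * y0) (by omega)]
    exact he_F hp hj hu huj hd hy0 hyg hy hy'
  have hj1 : (1 : ℤ) ≤ j := by exact_mod_cast hj
  have hu1 : (1 : ℤ) ≤ u := by exact_mod_cast hu
  have hjy : (0 : ℤ) ≤ j * (y0 - 1) := mul_nonneg (by omega) (by omega)
  have hn2 : 2 ≤ n := by
    have h1 : (1 + 1) * (1 : ℤ) ≤ (j + 1) * u := mul_le_mul (by omega) hu1 (by omega) (by omega)
    have : (2 : ℤ) ≤ n := by linarith
    exact_mod_cast this
  constructor
  · rw [min_eq_right (b := y0 + gen k K - 1 - j) (by omega)]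
    by_cases h : y0 + gen k K - 1 - j ≤ n - u
    · rw [min_eq_left h]
      obtain ⟨y1, hy1⟩ : ∃ y1 : ℕ, y0 = y1 := ⟨y0.toNat, (Int.toNat_of_nonneg (by omega)).symm⟩
      obtain ⟨t, ht⟩ : ∃ t : ℕ, (t : ℤ) = y0 + gen k K - 1 - j :=
        ⟨(y0 + gen k K - 1 - j).toNat, Int.toNat_of_nonneg (by omega)⟩
      rw [← ht]
      refine he_upper_G hp (u := u) (y0 := y1) (by omega) (by omega) hu (by omega)
        (by rw [← hy1]; omega) ?_ hd (by rw [ht, hy1])
      rw [hy1] at hy'
      exact_mod_cast hy'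
    · push Not at h
      rw [min_eq_right h.le]
      have hj2 : j = 1 := by
        by_contra hne
        have h2 : (2 : ℤ) ≤ j := by
          have : 2 ≤ j := by omega
          exact_mod_cast this
        have h3 : (2 : ℤ) * (y0 - 1 + u) ≤ j * (y0 - 1 + u) :=
          mul_le_mul_of_nonneg_right h2 (by omega)
        nlinarith
      subst hj2
      have hu2 : u = 1 := by omega
      subst hu2
      have h1 := he_upper_F2 hp (n := n) (d := d) hn2 (by omega)
      have e : (2 * ((1 : ℕ) : ℤ) * n + (n - ((1 : ℕ) : ℤ)) : ℤ) = 3 * n - 1 := by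
        push_cast; ring
      rw [e]
      exact h1
  · intro e he
    obtain ⟨E, V, α, hα, hV, hfV, rfl, hst⟩ := of_mem_stableDegrees he
    have hrank : finrank K (Fin n → K) = n := Module.finrank_fin_fun K
    have h1 := lower_G hp hV hα (by rw [hrank]; exact hn2) hst (j := j) (u := u) (y0 := y0) hj
      huj (by rw [hrank, hfV]; exact_mod_cast hd) hy0 hjg (by rw [hrank]; exact hy)
    rw [hrank] at h1
    exact h1

end Pool.Agent.MP_09eaec.GG
end

section

/-!
# Gluing the systems of `O(D)^m` and of a stable bundle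
-/

set_option autoImplicit false

namespace Pool.Agent.MP_09eaec.GG

open Module

universe u v

variable {k : Type u} {K : Type v} [Field k] [Field K] [Algebra k K]
variable {A : Type v} [AddCommGroup A] [Module K A] [Module k A] [IsScalarTower k K A]
variable {B : Type v} [AddCommGroup B] [Module K B] [Module k B] [IsScalarTower k K B]

/-- The dimensions of the intersections of a space of sections of an extension. -/
theorem vd_prod_le {V : Submodule k (A × B)} {V' : Submodule k A} {VF : Submodule k B}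
    [Module.Finite k V'] [Module.Finite k VF] (h1 : ∀ a : A, (a, (0 : B)) ∈ V → a ∈ V')
    (h2 : ∀ p ∈ V, p.2 ∈ VF) (J : Submodule K (A × B)) :
    vd V J ≤ vd V' (J.comap (LinearMap.inl K A B)) + vd VF (J.map (LinearMap.snd K A B)) := by
  classical
  by_cases h0 : finrank k ↥(V ⊓ J.restrictScalars k) = 0
  · show finrank k ↥(V ⊓ J.restrictScalars k) ≤ _
    rw [h0]; exact Nat.zero_le _
  have hfin : Module.Finite k ↥(V ⊓ J.restrictScalars k) :=
    Module.finite_of_finrank_pos (Nat.pos_of_ne_zero h0)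
  have hA : Module.Finite k ↥(V' ⊓ (J.comap (LinearMap.inl K A B)).restrictScalars k) :=
    Submodule.finiteDimensional_of_le (inf_le_left : _ ≤ V')
  have hB : Module.Finite k ↥(VF ⊓ (J.map (LinearMap.snd K A B)).restrictScalars k) :=
    Submodule.finiteDimensional_of_le (inf_le_left : _ ≤ VF)
  let f : ↥(V ⊓ J.restrictScalars k) →ₗ[k] B :=
    (LinearMap.snd k A B) ∘ₗ (V ⊓ J.restrictScalars k).subtype
  have hf : ∀ x, f x = (x : A × B).2 := fun _ => rfl
  have h3 := LinearMap.finrank_range_add_finrank_ker f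
  have h4 : finrank k (LinearMap.range f) ≤
      vd VF (J.map (LinearMap.snd K A B)) := by
    refine Submodule.finrank_mono ?_
    rintro _ ⟨x, rfl⟩
    rw [hf]
    refine ⟨h2 _ x.2.1, ?_⟩
    exact ⟨x, x.2.2, rfl⟩
  have h5 : finrank k (LinearMap.ker f) ≤
      vd V' (J.comap (LinearMap.inl K A B)) := by
    have hk : ∀ x : LinearMap.ker f, ((x : ↥(V ⊓ J.restrictScalars k)) : A × B) =
        ((((x : ↥(V ⊓ J.restrictScalars k)) : A × B).1, (0 : B))) := by
      intro x
      have := LinearMap.mem_ker.1 x.2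
      rw [hf] at this
      exact Prod.ext rfl this
    let g : LinearMap.ker f →ₗ[k] ↥(V' ⊓ (J.comap (LinearMap.inl K A B)).restrictScalars k) :=
      LinearMap.codRestrict _
        ((LinearMap.fst k A B) ∘ₗ (V ⊓ J.restrictScalars k).subtype ∘ₗ (LinearMap.ker f).subtype)
        (by
          intro x
          have h6 := (x : ↥(V ⊓ J.restrictScalars k)).2
          rw [hk x] at h6
          exact ⟨h1 _ h6.1, h6.2⟩)
    have hg : Function.Injective g := by
      intro x y hxy
      have h6 : ((x : ↥(V ⊓ J.restrictScalars k)) : A × B).1 =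
          ((y : ↥(V ⊓ J.restrictScalars k)) : A × B).1 := congrArg Subtype.val hxy
      apply Subtype.ext
      apply Subtype.ext
      rw [hk x, hk y, h6]
    exact LinearMap.finrank_le_finrank_of_injective hg
  show finrank k ↥(V ⊓ J.restrictScalars k) ≤ _
  omega

variable [CurveG k K]

/-- The dimension of `Hom(F, O(D)^m)`. -/
theorem finrank_hom_pw_le [FiniteDimensional K B] (F : VB k K B) (D : Dv k K) (m : ℕ) :
    ((hom F (pw D m)).h0 : ℤ) ≤ m * (hom F (line D)).h0 := by
  have : Module.Finite k (hom F (line D)).H0 := VB.finite_H0 _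
  let L : Fin m → ((B →ₗ[K] (Fin m → K)) →ₗ[k] (B →ₗ[K] K)) := fun i =>
    { toFun := fun f => (LinearMap.proj i) ∘ₗ f
      map_add' := fun f g => by ext; rfl
      map_smul' := fun c f => by ext; rfl }
  have hL : ∀ i f x, L i f x = f x i := fun _ _ _ => rfl
  let g : (hom F (pw D m)).H0 →ₗ[k] (Fin m → (hom F (line D)).H0) :=
    LinearMap.pi fun i => LinearMap.codRestrict _ ((L i) ∘ₗ (hom F (pw D m)).H0.subtype) (by
      intro f
      rw [VB.mem_H0]
      intro P
      rw [mem_hom]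
      intro x hx
      exact mem_pw.1 (mem_hom.1 (VB.mem_H0.1 f.2 P) x hx) i)
  have hg : Function.Injective g := by
    intro f f' h
    apply Subtype.ext
    ext x i
    have h1 := congrArg Subtype.val (congrFun h i)
    exact LinearMap.congr_fun h1 x
  have h1 := LinearMap.finrank_le_finrank_of_injective hg
  rw [Module.finrank_pi_fintype] at h1
  simp only [Finset.sum_const, Finset.card_univ, Fintype.card_fin, smul_eq_mul] at h1
  unfold VB.h0
  exact_mod_cast h1

/-- A linear map that is not induced by homomorphisms. -/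
theorem exists_not_hom [FiniteDimensional K B] {F : VB k K B} {D : Dv k K} {m : ℕ}
    {V' : Submodule k (Fin m → K)} {VF : Submodule k B} (hV' : V' ≤ (pw D m).H0)
    (hVF : VF ≤ F.H0)
    (hdim : m * (hom F (line D)).h0 <
      finrank k VF * ((pw D m).h0 - finrank k V')) :
    ∃ ψ : VF →ₗ[k] (Fin m → K), (∀ x, ψ x ∈ (pw D m).H0) ∧
      ∀ f : B →ₗ[K] (Fin m → K), (∀ P x, x ∈ F.M P → f x ∈ (pw D m).M P) →
        ∃ x : VF, f x - ψ x ∉ V' := by
  classical
  have hfF : Module.Finite k VF := (finrank_le_h0 hVF).1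
  have hfV : Module.Finite k V' := (finrank_le_h0 hV').1
  have hfS : Module.Finite k (pw D m).H0 := VB.finite_H0 _
  obtain ⟨C, hC⟩ := Submodule.exists_isCompl (V'.comap (pw D m).H0.subtype)
  have hfC : finrank k C + finrank k V' = finrank k (pw D m).H0 := by
    have h1 := Submodule.finrank_add_eq_of_isCompl hC
    have h2 : finrank k (V'.comap (pw D m).H0.subtype) = finrank k V' :=
      LinearEquiv.finrank_eq (Submodule.comapSubtypeEquivOfLe hV')
    omega
  let R : (B →ₗ[K] (Fin m → K)) →ₗ[k] (VF →ₗ[k] ((Fin m → K) ⧸ V')) :=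
    { toFun := fun f => V'.mkQ ∘ₗ (f.restrictScalars k) ∘ₗ VF.subtype
      map_add' := fun f g => by ext x; simp
      map_smul' := fun c f => by ext x; simp }
  have hR : ∀ f x, R f x = V'.mkQ (f x) := fun _ _ => rfl
  let T : (VF →ₗ[k] C) →ₗ[k] (VF →ₗ[k] ((Fin m → K) ⧸ V')) :=
    { toFun := fun c => (V'.mkQ ∘ₗ (pw D m).H0.subtype ∘ₗ C.subtype) ∘ₗ c
      map_add' := fun f g => by ext x; simp
      map_smul' := fun c f => by ext x; simp }
  have hT : ∀ c x, T c x = V'.mkQ (((c x : (pw D m).H0)) : Fin m → K) := fun _ _ => rfl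
  have hTinj : Function.Injective T := by
    intro c c' hc
    ext1 x
    have h1 := LinearMap.congr_fun hc x
    rw [hT, hT, ← sub_eq_zero, ← map_sub, Submodule.mkQ_apply,
      Submodule.Quotient.mk_eq_zero] at h1
    have h2 : ((c x : (pw D m).H0)) - (c' x : (pw D m).H0) ∈
        (V'.comap (pw D m).H0.subtype) ⊓ C := ⟨h1, sub_mem (c x).2 (c' x).2⟩
    rw [hC.inf_eq_bot, Submodule.mem_bot, sub_eq_zero] at h2
    exact Subtype.ext h2
  have hH : Module.Finite k (hom F (pw D m)).H0 := VB.finite_H0 _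
  have h3 : ¬ LinearMap.range T ≤ ((hom F (pw D m)).H0).map R := by
    intro h
    have h4 := Submodule.finrank_mono h
    rw [LinearMap.finrank_range_of_inj hTinj] at h4
    have hfr1 : Module.Free k C := Module.Free.of_divisionRing k C
    have hfr2 : Module.Finite k C := Submodule.finiteDimensional_of_le (le_top : C ≤ ⊤)
    have h40 : finrank k (VF →ₗ[k] C) = finrank k VF * finrank k C :=
      Module.finrank_linearMap k k VF C
    rw [h40] at h4
    have h5 := Submodule.finrank_map_le R (hom F (pw D m)).H0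
    have h6 := finrank_hom_pw_le F D m
    unfold VB.h0 at hdim h6
    have h7 : (finrank k VF * finrank k C : ℤ) ≤ finrank k (hom F (pw D m)).H0 := by
      exact_mod_cast h4.trans h5
    have h8 : (finrank k C : ℤ) = finrank k (pw D m).H0 - finrank k V' := by
      have : ((finrank k C + finrank k V' : ℕ) : ℤ) = finrank k (pw D m).H0 := by rw [hfC]
      push_cast at this
      linarith
    rw [h8] at h7
    linarith
  obtain ⟨_, ⟨c, rfl⟩, hc⟩ := Set.not_subset.1 h3
  refine ⟨((pw D m).H0.subtype ∘ₗ C.subtype) ∘ₗ c, fun x => (c x : (pw D m).H0).2,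
    fun f hf => ?_⟩
  by_contra hcon
  push Not at hcon
  apply hc
  refine ⟨f, VB.mem_H0.2 fun P => mem_hom.2 (hf P), ?_⟩
  ext1 x
  rw [hR, hT, ← sub_eq_zero, ← map_sub, Submodule.mkQ_apply, Submodule.Quotient.mk_eq_zero]
  exact hcon x

/-- The glued system. -/
theorem glue_sys [FiniteDimensional K B] {F : VB k K B} {D : Dv k K} {m : ℕ}
    {V' : Submodule k (Fin m → K)} {VF : Submodule k B} (hV' : V' ≤ (pw D m).H0)
    (hVF : VF ≤ F.H0)
    (hdim : m * (hom F (line D)).h0 <
      finrank k VF * ((pw D m).h0 - finrank k V')) :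
    ∃ V : Submodule k ((Fin m → K) × B), V ≤ (ext (pw D m) F 0).H0 ∧
      finrank k V = finrank k V' + finrank k VF ∧
      (∀ a : Fin m → K, (a, (0 : B)) ∈ V → a ∈ V') ∧ (∀ p ∈ V, p.2 ∈ VF) ∧
      ∀ J : Submodule K ((Fin m → K) × B), J.comap (LinearMap.inl K (Fin m → K) B) = ⊥ →
        J.map (LinearMap.snd K (Fin m → K) B) = ⊤ →
        vd V J < finrank k VF ∨ ((ext (pw D m) F 0).sub J).deg < F.deg := by
  classical
  have hfF : Module.Finite k VF := (finrank_le_h0 hVF).1
  have hfV : Module.Finite k V' := (finrank_le_h0 hV').1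
  obtain ⟨ψ, hψ, hψ'⟩ := exists_not_hom hV' hVF hdim
  let θ : (V' × VF) →ₗ[k] ((Fin m → K) × B) :=
    LinearMap.prod (V'.subtype ∘ₗ LinearMap.fst k V' VF + ψ ∘ₗ LinearMap.snd k V' VF)
      (VF.subtype ∘ₗ LinearMap.snd k V' VF)
  have hθ : ∀ p, θ p = ((p.1 : Fin m → K) + ψ p.2, (p.2 : B)) := fun _ => rfl
  have hθi : Function.Injective θ := by
    rw [← LinearMap.ker_eq_bot, LinearMap.ker_eq_bot']
    rintro ⟨a, x⟩ h
    rw [hθ] at h
    have h1 : (x : B) = 0 := congrArg Prod.snd h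
    have h2 : x = 0 := Subtype.ext h1
    have h3 : (a : Fin m → K) + ψ x = 0 := congrArg Prod.fst h
    rw [h2, map_zero, add_zero] at h3
    exact Prod.ext (Subtype.ext h3) h2
  have hm0 : ∀ P (x : (Fin m → K) × B), x ∈ (ext (pw D m) F 0).M P ↔
      x.2 ∈ F.M P ∧ x.1 ∈ (pw D m).M P := by
    intro P x
    rw [mem_ext]
    simp
  refine ⟨LinearMap.range θ, ?_, ?_, ?_, ?_, ?_⟩
  · rintro _ ⟨⟨a, x⟩, rfl⟩
    rw [VB.mem_H0]
    intro P
    rw [hm0, hθ]
    exact ⟨VB.mem_H0.1 (hVF x.2) P,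
      add_mem (VB.mem_H0.1 (hV' a.2) P) (VB.mem_H0.1 (hψ x) P)⟩
  · rw [LinearMap.finrank_range_of_inj hθi, Module.finrank_prod]
  · rintro a ⟨⟨a', x⟩, h⟩
    rw [hθ] at h
    have h1 : (x : B) = 0 := congrArg Prod.snd h
    have h2 : x = 0 := Subtype.ext h1
    have h3 : (a' : Fin m → K) + ψ x = a := congrArg Prod.fst h
    rw [h2, map_zero, add_zero] at h3
    rw [← h3]
    exact a'.2
  · rintro _ ⟨⟨a, x⟩, rfl⟩
    exact x.2
  · intro J hJA hJB
    by_contra hcon
    push Not at hcon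
    obtain ⟨hc1, hc2⟩ := hcon
    have hinj : ∀ p ∈ J, (p : (Fin m → K) × B).2 = 0 → p = 0 := by
      intro p hp h
      have h1 : p.1 ∈ J.comap (LinearMap.inl K (Fin m → K) B) := by
        rw [Submodule.mem_comap]
        have : LinearMap.inl K (Fin m → K) B p.1 = p := Prod.ext rfl h.symm
        rw [this]; exact hp
      rw [hJA] at h1
      exact Prod.ext (by simpa using h1) h
    let s : J →ₗ[K] B := (LinearMap.snd K (Fin m → K) B) ∘ₗ J.subtype
    have hs1 : Function.Injective s := by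
      rw [← LinearMap.ker_eq_bot, LinearMap.ker_eq_bot']
      intro p hp
      exact Subtype.ext (hinj p p.2 hp)
    have hs2 : Function.Surjective s := by
      intro b
      have : b ∈ J.map (LinearMap.snd K (Fin m → K) B) := by rw [hJB]; trivial
      obtain ⟨p, hp, h⟩ := this
      exact ⟨⟨p, hp⟩, h⟩
    let e : J ≃ₗ[K] B := LinearEquiv.ofBijective s ⟨hs1, hs2⟩
    have he : ∀ p : J, e p = (p : (Fin m → K) × B).2 := fun _ => rfl
    have he' : ∀ b : B, ((e.symm b : J) : (Fin m → K) × B).2 = b := fun b => by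
      rw [← he, e.apply_symm_apply]
    have hle : ((ext (pw D m) F 0).sub J).map e ≤ F := by
      intro P x hx
      rw [VB.mem_map, VB.mem_sub, hm0, he'] at hx
      exact hx.1
    have heq : ((ext (pw D m) F 0).sub J).map e = F :=
      VB.eq_of_le_of_deg_le hle (by rw [VB.deg_map]; exact hc2)
    let f : B →ₗ[K] (Fin m → K) :=
      (LinearMap.fst K (Fin m → K) B) ∘ₗ J.subtype ∘ₗ e.symm.toLinearMap
    have hf : ∀ b, f b = ((e.symm b : J) : (Fin m → K) × B).1 := fun _ => rfl
    obtain ⟨x0, hx0⟩ := hψ' f (by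
      intro P x hx
      rw [← heq, VB.mem_map, VB.mem_sub, hm0] at hx
      exact hx.2)
    apply hx0
    let g : ↥(LinearMap.range θ ⊓ J.restrictScalars k) →ₗ[k] VF :=
      LinearMap.codRestrict VF
        ((LinearMap.snd k (Fin m → K) B) ∘ₗ (LinearMap.range θ ⊓ J.restrictScalars k).subtype)
        (by
          rintro ⟨_, ⟨⟨a, x⟩, rfl⟩, _⟩
          exact x.2)
    have hg : Function.Injective g := by
      rw [← LinearMap.ker_eq_bot, LinearMap.ker_eq_bot']
      intro p hp
      have h1 : ((p : (Fin m → K) × B)).2 = 0 := congrArg Subtype.val hp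
      exact Subtype.ext (hinj p p.2.2 h1)
    have hfin : Module.Finite k ↥(LinearMap.range θ ⊓ J.restrictScalars k) :=
      Submodule.finiteDimensional_of_le (inf_le_left : _ ≤ LinearMap.range θ)
    have hfe : finrank k ↥(LinearMap.range θ ⊓ J.restrictScalars k) = finrank k VF :=
      le_antisymm (LinearMap.finrank_le_finrank_of_injective hg) hc1
    obtain ⟨⟨p, ⟨⟨a, x⟩, hp⟩, hpJ⟩, hp2⟩ :=
      (LinearMap.injective_iff_surjective_of_finrank_eq_finrank hfe).1 hg x0
    have h1 : (p : (Fin m → K) × B).2 = x0 := congrArg Subtype.val hp2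
    rw [hθ] at hp
    have h2 : (x : B) = x0 := by rw [← h1, ← hp]
    have h3 : x = x0 := Subtype.ext h2
    have h4 : e.symm (x0 : B) = (⟨p, hpJ⟩ : J) := by
      rw [LinearEquiv.symm_apply_eq, he]
      exact h1.symm
    rw [hf, h4]
    show p.1 - ψ x0 ∈ V'
    rw [← hp, h3]
    simp

end Pool.Agent.MP_09eaec.GG
end

section

/-!
# The systems in the third case of the ramps
-/

set_option autoImplicit false

namespace Pool.Agent.MP_09eaec.GG

open Module

universe u v

private theorem RampSys_alpha {D δ m : ℝ} (hD : 0 < D) (hδ : 0 < δ) (hm : 0 < m) :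
    ∃ α θ : ℝ, 0 < θ ∧ θ ≤ 1 ∧ θ ≤ α ∧ α * D = δ * m + θ := by
  have h0 : 0 < δ * m / D := by positivity
  refine ⟨(δ * m + min 1 (δ * m / D)) / D, min 1 (δ * m / D), lt_min one_pos h0,
    min_le_left _ _, ?_, ?_⟩
  · have h1 : δ * m / D ≤ (δ * m + min 1 (δ * m / D)) / D := by
      apply div_le_div_of_nonneg_right _ hD.le
      linarith [lt_min one_pos h0]
    exact (min_le_right _ _).trans h1
  · field_simp

private theorem RampSys_id {m r v' vF δ α θ wA wB vA vB δA δB : ℝ}
    (h : α * (vF * m - v' * r) = δ * m + θ) :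
    r * m * ((wA + wB) * (α * (v' + vF) - δ) - (m + r) * (α * vA - δA) -
      (m + r) * (α * vB - δB)) =
      (m + r) * r * (α * (v' * wA - m * vA) + m * δA) +
      (m + r) * m * (α * (vF * wB - r * vB) + (r * δB - δ * wB)) + θ * (r * wA - m * wB) := by
  linear_combination (r * wA - m * wB) * h

variable {k : Type u} {K : Type v} [Field k] [Field K] [Algebra k K]
variable {W : Type v} [AddCommGroup W] [Module K W] [Module k W] [IsScalarTower k K W]

variable [CurveG k K]

/-- The glued system is stable. -/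
theorem ramp_sys {H : Dv k K} {x y : K} (hp : Pencil H x y) [FiniteDimensional K W]
    {F : VB k K W} (hF : F.Stable) {j m v' vF : ℕ} {δ : ℤ} (hj : 1 ≤ j)
    (hj' : (j : ℤ) ≤ gen k K) (hm : 1 ≤ m) (hr : 1 ≤ finrank K W)
    {V' : Submodule k (Fin m → K)} {VF : Submodule k W} (hV' : V' ≤ (pw ((j : ℤ) • H) m).H0)
    (hVF : VF ≤ F.H0) {α' : ℝ} (hα' : 0 < α') (hfV' : finrank k V' = j * m + v')
    (hst : (pw ((j : ℤ) • H) m).StableSys α' V') (hu : (m : ℤ) - v' ≤ gen k K - j + 1)
    (hvF : 1 ≤ vF) (hδ : 1 ≤ δ) (hfVF : finrank k VF = j * finrank K W + vF)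
    (hdeg : F.deg = 2 * j * finrank K W - δ)
    (heq : gen k K * vF = j * (finrank K W - δ))
    (hD : (v' : ℤ) * finrank K W < vF * m)
    {V : Submodule k ((Fin m → K) × W)}
    (hfV : finrank k V = finrank k V' + finrank k VF)
    (h1 : ∀ a : Fin m → K, (a, (0 : W)) ∈ V → a ∈ V') (h2 : ∀ p ∈ V, p.2 ∈ VF)
    (h3 : ∀ J : Submodule K ((Fin m → K) × W), J.comap (LinearMap.inl K (Fin m → K) W) = ⊥ →
        J.map (LinearMap.snd K (Fin m → K) W) = ⊤ →
        vd V J < finrank k VF ∨ ((ext (pw ((j : ℤ) • H) m) F 0).sub J).deg < F.deg) :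
    ∃ α : ℝ, 0 < α ∧ (ext (pw ((j : ℤ) • H) m) F 0).StableSys α V := by
  classical
  have hfF : Module.Finite k VF := (finrank_le_h0 hVF).1
  have hfV0 : Module.Finite k V' := (finrank_le_h0 hV').1
  have hddeg : ddeg ((j : ℤ) • H) = 2 * j := by rw [ddeg_zsmul, hp.deg]; ring
  have hDR : (0 : ℝ) < (vF : ℝ) * m - v' * finrank K W := by
    have : ((v' : ℤ) : ℝ) * ((finrank K W : ℤ) : ℝ) < ((vF : ℤ) : ℝ) * ((m : ℤ) : ℝ) := by
      exact_mod_cast hD
    push_cast at this
    linarith
  have hδR : (1 : ℝ) ≤ (δ : ℝ) := by exact_mod_cast hδ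
  have hmR : (1 : ℝ) ≤ (m : ℝ) := by exact_mod_cast hm
  have hrR : (1 : ℝ) ≤ (finrank K W : ℝ) := by exact_mod_cast hr
  obtain ⟨α, θ, hθ, hθ1, hθα, hα⟩ := RampSys_alpha hDR (by linarith : (0 : ℝ) < δ)
    (by linarith : (0 : ℝ) < m)
  have hα0 : 0 < α := hθ.trans_le hθα
  refine ⟨α, hα0, fun J hJ hJ' => ?_⟩
  set JA := J.comap (LinearMap.inl K (Fin m → K) W) with hJA
  set JB := J.map (LinearMap.snd K (Fin m → K) W) with hJB
  have hw : finrank K J = finrank K JA + finrank K JB := finrank_ext_sub J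
  have hw0 : 0 < finrank K J := Submodule.one_le_finrank_iff.2 hJ
  have hn : finrank K ((Fin m → K) × W) = m + finrank K W := by
    rw [Module.finrank_prod, Module.finrank_fin_fun]
  have hvd := vd_prod_le h1 h2 J
  rw [← hJA, ← hJB] at hvd
  have hdJ : ((ext (pw ((j : ℤ) • H) m) F 0).sub J).deg ≤
      ((pw ((j : ℤ) • H) m).sub JA).deg + (F.sub JB).deg := by
    obtain ⟨F', hF', h4, -⟩ := ext_sub (pw ((j : ℤ) • H) m) F 0 J
    rw [h4]
    have := VB.deg_le_of_le hF'
    linarith
  have hdE : (ext (pw ((j : ℤ) • H) m) F 0).deg = m * (2 * j) + (2 * j * finrank K W - δ) := by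
    rw [deg_ext, deg_pw, hddeg, hdeg]
  rw [hn, hfV, hfV', hfVF, hdE, hw]
  have hw0' : (0 : ℝ) < ((finrank K JA + finrank K JB : ℕ) : ℝ) := by
    rw [← hw]; exact_mod_cast hw0
  have hn0' : (0 : ℝ) < ((m + finrank K W : ℕ) : ℝ) := by
    push_cast; linarith
  rw [div_lt_div_iff₀ hw0' hn0']
  -- the numbers
  obtain ⟨r, hrdef⟩ : ∃ r : ℝ, r = (finrank K W : ℝ) := ⟨_, rfl⟩
  obtain ⟨wA, hwA⟩ : ∃ wA : ℝ, wA = (finrank K JA : ℝ) := ⟨_, rfl⟩
  obtain ⟨wB, hwB⟩ : ∃ wB : ℝ, wB = (finrank K JB : ℝ) := ⟨_, rfl⟩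
  obtain ⟨dJ, hdJdef⟩ : ∃ dJ : ℝ, dJ = (((ext (pw ((j : ℤ) • H) m) F 0).sub J).deg : ℝ) :=
    ⟨_, rfl⟩
  obtain ⟨dA, hdA⟩ : ∃ dA : ℝ, dA = (((pw ((j : ℤ) • H) m).sub JA).deg : ℝ) := ⟨_, rfl⟩
  obtain ⟨dB, hdB⟩ : ∃ dB : ℝ, dB = ((F.sub JB).deg : ℝ) := ⟨_, rfl⟩
  obtain ⟨zJ, hzJ⟩ : ∃ zJ : ℝ, zJ = (vd V J : ℝ) := ⟨_, rfl⟩
  obtain ⟨zA, hzA⟩ : ∃ zA : ℝ, zA = (vd V' JA : ℝ) := ⟨_, rfl⟩
  obtain ⟨zB, hzB⟩ : ∃ zB : ℝ, zB = (vd VF JB : ℝ) := ⟨_, rfl⟩
  have e1 : (finrank k ↥(V ⊓ J.restrictScalars k) : ℝ) = zJ := hzJ.symm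
  have hdJ' : dJ ≤ dA + dB := by rw [hdJdef, hdA, hdB]; exact_mod_cast hdJ
  have hvd' : zJ ≤ zA + zB := by rw [hzJ, hzA, hzB]; exact_mod_cast hvd
  push_cast
  rw [e1, ← hdJdef, ← hwA, ← hwB, ← hrdef]
  rw [← hrdef] at hrR hα
  have hwA0 : 0 ≤ wA := by rw [hwA]; positivity
  have hwB0 : 0 ≤ wB := by rw [hwB]; positivity
  -- the bundle part
  have hB : (JB = ⊥ ∧ wB = 0 ∧ zB = 0 ∧ dB = 0) ∨
      (JB = ⊤ ∧ wB = r ∧ zB = j * r + vF ∧ dB = 2 * j * r - δ) ∨
      (wB < r ∧ α + 1 ≤ α * (vF * wB - r * (zB - j * wB)) +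
        (r * (2 * j * wB - dB) - δ * wB)) := by
    rcases eq_or_ne JB ⊥ with h | h
    · left
      refine ⟨h, ?_, ?_, ?_⟩
      · rw [hwB, h, finrank_bot]; simp
      · rw [hzB, h, vd_bot]; simp
      · rw [hdB, h, VB.deg_sub_bot]; simp
    rcases eq_or_ne JB ⊤ with h' | h'
    · right; left
      refine ⟨h', ?_, ?_, ?_⟩
      · rw [hwB, h', finrank_top, hrdef]
      · rw [hzB, h', vd_top, hfVF, hrdef]; push_cast; ring
      · rw [hdB, h', VB.deg_sub_top, hdeg, hrdef]; push_cast; ring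
    · right; right
      refine ⟨?_, ?_⟩
      · rw [hwB, hrdef]; exact_mod_cast Submodule.finrank_lt h'
      have h5 := ramp_F_sub hp hF hVF (j := j) (v := vF) (δ := δ) (by exact_mod_cast hj) hj'
        (by exact_mod_cast hvF) hδ hdeg heq (finrank K JB) JB rfl h h'
      have h6 := hF JB h h'
      rw [hdeg] at h6
      have h5' : (finrank K W : ℤ) * vd VF JB + 1 ≤ (j * finrank K W + vF) * finrank K JB := by
        omega
      have h6' : (finrank K W : ℤ) * (F.sub JB).deg + 1 ≤
          finrank K JB * (2 * j * finrank K W - δ) := by omega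
      have h7 : r * zB + 1 ≤ (j * r + vF) * wB := by
        rw [hrdef, hzB, hwB]; exact_mod_cast h5'
      have h8 : r * dB + 1 ≤ wB * (2 * j * r - δ) := by
        rw [hrdef, hdB, hwB]; exact_mod_cast h6'
      have h9 : α * 1 ≤ α * (vF * wB - r * (zB - j * wB)) :=
        mul_le_mul_of_nonneg_left (by linarith) hα0.le
      linarith
  -- the Kronecker part
  have hA : (JA = ⊥ ∧ wA = 0 ∧ zA = 0 ∧ dA = 0) ∨
      (JA = ⊤ ∧ wA = m ∧ zA = j * m + v' ∧ dA = m * (2 * j)) ∨
      (wA < m ∧ θ ≤ α * (v' * wA - m * (zA - j * wA)) + m * (2 * j * wA - dA)) := by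
    rcases eq_or_ne JA ⊥ with h | h
    · left
      refine ⟨h, ?_, ?_, ?_⟩
      · rw [hwA, h, finrank_bot]; simp
      · rw [hzA, h, vd_bot]; simp
      · rw [hdA, h, VB.deg_sub_bot]; simp
    rcases eq_or_ne JA ⊤ with h' | h'
    · right; left
      refine ⟨h', ?_, ?_, ?_⟩
      · rw [hwA, h', finrank_top, Module.finrank_fin_fun]
      · rw [hzA, h', vd_top, hfV']; push_cast; ring
      · rw [hdA, h', VB.deg_sub_top, deg_pw, hddeg]; push_cast; ring
    · right; right
      refine ⟨?_, ?_⟩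
      · have := Submodule.finrank_lt h'
        rw [Module.finrank_fin_fun] at this
        rw [hwA]; exact_mod_cast this
      obtain ⟨h5, h6⟩ := kron_all hp hj hj' hu hα' hV' hfV' hst (finrank K JA) JA rfl h h'
      have h7 := pw_sub_le ((j : ℤ) • H) JA
      rw [hddeg] at h7
      have h5' : zA * m ≤ (j * m + v') * wA := by rw [hzA, hwA]; exact_mod_cast h5
      have h7' : dA ≤ wA * (2 * j) := by rw [hdA, hwA]; exact_mod_cast h7
      have h8 : 0 ≤ α * (v' * wA - m * (zA - j * wA)) :=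
        mul_nonneg hα0.le (by linarith)
      have h9 : 0 ≤ m * (2 * j * wA - dA) := mul_nonneg (by linarith) (by linarith)
      rcases h6 with h6 | h6
      · have h6' : zA * m + 1 ≤ (j * m + v') * wA := by
          rw [hzA, hwA]
          exact_mod_cast (by omega : (vd V' JA : ℤ) * m + 1 ≤ (j * m + v') * finrank K JA)
        have h10 : α * 1 ≤ α * (v' * wA - m * (zA - j * wA)) :=
          mul_le_mul_of_nonneg_left (by linarith) hα0.le
        linarith
      · have h6' : dA + 1 ≤ 2 * j * wA := by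
          rw [hdA, hwA]
          exact_mod_cast (by omega : ((pw ((j : ℤ) • H) m).sub JA).deg + 1 ≤
            2 * j * (finrank K JA : ℤ))
        have h10 : (m : ℝ) * 1 ≤ m * (2 * j * wA - dA) :=
          mul_le_mul_of_nonneg_left (by linarith) (by linarith)
        linarith
  -- the graph case
  by_cases hcase : JA = ⊥ ∧ JB = ⊤
  · obtain ⟨hc1, hc2⟩ := hcase
    have hA' : wA = 0 ∧ zA = 0 ∧ dA = 0 := by
      refine ⟨?_, ?_, ?_⟩
      · rw [hwA, hc1, finrank_bot]; simp
      · rw [hzA, hc1, vd_bot]; simp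
      · rw [hdA, hc1, VB.deg_sub_bot]; simp
    have hB' : wB = r ∧ zB = j * r + vF ∧ dB = 2 * j * r - δ := by
      refine ⟨?_, ?_, ?_⟩
      · rw [hwB, hc2, finrank_top, hrdef]
      · rw [hzB, hc2, vd_top, hfVF, hrdef]; push_cast; ring
      · rw [hdB, hc2, VB.deg_sub_top, hdeg, hrdef]; push_cast; ring
    obtain ⟨hA1, hA2, hA3⟩ := hA'
    obtain ⟨hB1, hB2, hB3⟩ := hB'
    rw [hA2, hB2] at hvd'
    rw [hA3, hB3] at hdJ'
    rw [hA1, hB1]
    have hnr : (0 : ℝ) < m + r := by linarith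
    rcases h3 J hc1 hc2 with h4 | h4
    · have h4' : zJ + 1 ≤ j * r + vF := by
        rw [hfVF] at h4
        rw [hzJ, hrdef]
        exact_mod_cast (by omega : vd V J + 1 ≤ j * finrank K W + vF)
      have h5 : α * zJ ≤ α * (j * r + vF - 1) := mul_le_mul_of_nonneg_left (by linarith) hα0.le
      have h6 : (dJ + α * zJ) * (m + r) ≤ (0 + (2 * j * r - δ) + α * (j * r + vF - 1)) * (m + r) :=
        mul_le_mul_of_nonneg_right (by linarith) hnr.le
      have h70 : α * 2 ≤ α * (m + r) := mul_le_mul_of_nonneg_left (by linarith) hα0.le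
      have h7 : θ < α * (m + r) := by linarith
      linarith
    · have h4' : dJ + 1 ≤ 2 * j * r - δ := by
        rw [hdeg] at h4
        rw [hdJdef, hrdef]
        exact_mod_cast (by omega : ((ext (pw ((j : ℤ) • H) m) F 0).sub J).deg + 1 ≤
          2 * j * (finrank K W : ℤ) - δ)
      have h5 : α * zJ ≤ α * (0 + (j * r + vF)) := mul_le_mul_of_nonneg_left hvd' hα0.le
      have h6 : (dJ + α * zJ) * (m + r) ≤ ((2 * j * r - δ - 1) + α * (0 + (j * r + vF))) * (m + r) :=
        mul_le_mul_of_nonneg_right (by linarith) hnr.le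
      linarith
  -- the other cases
  have hid := RampSys_id (wA := wA) (wB := wB) (vA := zA - j * wA) (vB := zB - j * wB)
    (δA := 2 * j * wA - dA) (δB := 2 * j * wB - dB) hα
  have hrm : 0 < r * m := by positivity
  have hnr : (0 : ℝ) < m + r := by linarith
  have hkey : 0 < (m + r) * r * (α * (v' * wA - m * (zA - j * wA)) + m * (2 * j * wA - dA)) +
      (m + r) * m * (α * (vF * wB - r * (zB - j * wB)) + (r * (2 * j * wB - dB) - δ * wB)) +
        θ * (r * wA - m * wB) := by
    have hPA : 0 ≤ α * (v' * wA - m * (zA - j * wA)) + m * (2 * j * wA - dA) := by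
      rcases hA with ⟨-, e1, e2, e3⟩ | ⟨-, e1, e2, e3⟩ | ⟨-, e2⟩
      · rw [e1, e2, e3]; simp
      · rw [e1, e2, e3]
        have : α * (v' * m - m * (j * m + v' - j * m)) + m * (2 * j * m - m * (2 * j)) = 0 := by
          ring
        rw [this]
      · exact hθ.le.trans e2
    have hPA' : 0 ≤ (m + r) * r * (α * (v' * wA - m * (zA - j * wA)) +
        m * (2 * j * wA - dA)) := mul_nonneg (by positivity) hPA
    rcases hB with ⟨hb0, e1, e2, e3⟩ | ⟨hb0, e1, e2, e3⟩ | ⟨e1, e2⟩
    · -- `JB = ⊥`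
      have hwpos : 0 < wA := by
        rcases hA with ⟨ha0, -, -, -⟩ | ⟨-, e4, -, -⟩ | ⟨-, e4⟩
        · exact absurd (eq_bot_of ha0 hb0) hJ
        · rw [e4]; linarith
        · rcases eq_or_lt_of_le hwA0 with h | h
          · exfalso
            have h5 : finrank K J = 0 := by
              have h6 : (finrank K JA : ℝ) = 0 := by rw [← hwA, ← h]
              have h7 : (finrank K JB : ℝ) = 0 := by rw [← hwB, e1]
              have h8 : finrank K JA = 0 := by exact_mod_cast h6
              have h9 : finrank K JB = 0 := by exact_mod_cast h7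
              omega
            omega
          · exact h
      have h5 : 0 < θ * (r * wA) := by positivity
      rw [e1, e2, e3]
      have h6 : (m + r) * m * (α * (vF * 0 - r * (0 - j * 0)) +
          (r * (2 * j * 0 - 0) - δ * 0)) = 0 := by ring
      rw [h6]
      linarith
    · -- `JB = ⊤`
      have h6 : α * (vF * wB - r * (zB - j * wB)) + (r * (2 * j * wB - dB) - δ * wB) = 0 := by
        rw [e1, e2, e3]; ring
      rw [h6, e1]
      rcases hA with ⟨ha0, -, -, -⟩ | ⟨ha0, -, -, -⟩ | ⟨e4, e5⟩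
      · exact absurd ⟨ha0, hb0⟩ hcase
      · exact absurd (eq_top_of ha0 hb0) hJ'
      · have h7 : (m + r) * r * θ ≤ (m + r) * r * (α * (v' * wA - m * (zA - j * wA)) +
            m * (2 * j * wA - dA)) := mul_le_mul_of_nonneg_left e5 (by positivity)
        have h8 : 0 < θ * (r * r + r * wA) := by positivity
        linarith
    · -- `JB` proper
      have h7 : (m + r) * m * (α + 1) ≤ (m + r) * m * (α * (vF * wB - r * (zB - j * wB)) +
          (r * (2 * j * wB - dB) - δ * wB)) := mul_le_mul_of_nonneg_left e2 (by positivity)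
      have h8 : θ * (m * wB) ≤ 1 * (m * wB) :=
        mul_le_mul_of_nonneg_right hθ1 (by positivity)
      have h9 : (m : ℝ) * wB < m * r := mul_lt_mul_of_pos_left e1 (by linarith)
      have h10 : 0 ≤ θ * (r * wA) := by positivity
      have h11 : 0 < (m + r) * m * α := by positivity
      have h12 : (0 : ℝ) < m * m := by positivity
      linarith
  rw [← hid] at hkey
  have hkey' := (mul_pos_iff_of_pos_left hrm).1 hkey
  have h5 : (dJ + α * zJ) * (m + r) ≤ ((dA + dB) + α * (zA + zB)) * (m + r) := by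
    apply mul_le_mul_of_nonneg_right _ hnr.le
    have := mul_le_mul_of_nonneg_left hvd' hα0.le
    linarith
  linarith

end Pool.Agent.MP_09eaec.GG
end

section

/-!
# The third value in the ramps
-/

set_option autoImplicit false

namespace Pool.Agent.MP_09eaec.GG

open Module

universe u v

variable {k : Type u} {K : Type v} [Field k] [Field K] [Algebra k K]

/-- Subspaces of a given dimension. -/
theorem exists_sub_finrank {W : Type v} [AddCommGroup W] [Module k W] (V0 : Submodule k W)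
    {d : ℕ} (h : d ≤ finrank k V0) : ∃ V : Submodule k W, V ≤ V0 ∧ finrank k V = d := by
  obtain ⟨f, hf⟩ := exists_linearIndependent_of_le_finrank h
  refine ⟨Submodule.span k (Set.range (V0.subtype ∘ f)), ?_, ?_⟩
  · rw [Submodule.span_le]
    rintro _ ⟨i, rfl⟩
    exact (f i).2
  · have hli : LinearIndependent k (V0.subtype ∘ f) :=
      hf.map' V0.subtype (Submodule.ker_subtype _)
    rw [finrank_span_eq_card hli, Fintype.card_fin]

private theorem RampThird_q {j m v' : ℤ} (hj : 1 ≤ j) (hv' : 1 ≤ v') (hv'j : v' ≤ j)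
    (hvm : v' + 1 ≤ m) :
    m ^ 2 + (j * m + v') ^ 2 ≤ (j + 1) * m * (j * m + v') + 1 := by
  have h1 : (j - 1) * (v' + 1) * 1 ≤ (j - 1) * m * (m - v') := by
    have h2 : (j - 1) * (v' + 1) ≤ (j - 1) * m := mul_le_mul_of_nonneg_left hvm (by omega)
    have h3 : 0 ≤ (j - 1) * m := mul_nonneg (by omega) (by omega)
    exact mul_le_mul h2 (by omega) (by norm_num) h3
  have h4 : (v' - 1) * (v' + 1) ≤ (j - 1) * (v' + 1) :=
    mul_le_mul_of_nonneg_right (by omega) (by omega)
  nlinarith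

private theorem RampThird_dim {g j m r i v' h : ℤ} (hj : 2 ≤ j) (hj' : j + 2 ≤ g)
    (hi : 1 ≤ i) (hr : 1 ≤ r) (hm : 1 ≤ m) (hgv : g * v' < j * m)
    (hh : g * h ≤ g * (r - i)) :
    m * h < (j * r + j * i) * (m - v') := by
  have hg : 0 < g := by omega
  have h1 : h ≤ r - i := le_of_mul_le_mul_left hh hg
  have h2 : m * h ≤ m * (r - i) := mul_le_mul_of_nonneg_left h1 (by omega)
  have h3 : m * (r - i) < m * (r + i) := by nlinarith
  have h4 : g ≤ j * (g - j) := by nlinarith
  have h5 : (r + i) * (m * g) ≤ (r + i) * (m * (j * (g - j))) :=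
    mul_le_mul_of_nonneg_left (mul_le_mul_of_nonneg_left h4 (by omega)) (by omega)
  have h6 : m * (g - j) < g * (m - v') := by nlinarith
  have h7 : (j * (r + i)) * (m * (g - j)) < (j * (r + i)) * (g * (m - v')) := by
    apply mul_lt_mul_of_pos_left h6
    have : 0 < r + i := by omega
    positivity
  have h8 : g * (m * (r + i)) < g * ((j * r + j * i) * (m - v')) := by nlinarith
  exact lt_of_le_of_lt h2 (h3.trans (lt_of_mul_lt_mul_left h8 hg.le))

variable [CurveG k K]

/-- The third value. -/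
theorem ramp_third {H : Dv k K} {x y : K} (hp : Pencil H x y) {j m r i v' : ℕ} {δ : ℤ}
    (hj : 2 ≤ j) (hj' : (j : ℤ) + 2 ≤ gen k K) (hi : 1 ≤ i) (hv' : 1 ≤ v') (hv'j : v' ≤ j)
    (hδ : 1 ≤ δ) (hr : (r : ℤ) = δ + gen k K * i) (hD : v' * r < j * i * m)
    (hm : (m : ℤ) + (j - v') < gen k K) :
    (2 * j * (m + r) - δ : ℤ) ∈ stableDegrees k K (m + r) (j * (m + r) + (j * i + v')) := by
  classical
  have hg2 := CurveG.two_le (k := k) (K := K)
  have hgi : (0 : ℤ) < gen k K * i := by positivity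
  have hr1 : 1 ≤ r := by
    have : (0 : ℤ) < r := by rw [hr]; linarith
    exact_mod_cast this
  have hm1 : 1 ≤ m := by
    rcases Nat.eq_zero_or_pos m with h | h
    · rw [h] at hD; simp at hD
    · exact h
  -- `g v' < j m`
  have hgv : gen k K * v' < j * m := by
    have h1 : (v' : ℤ) * r < j * i * m := by exact_mod_cast hD
    rw [hr] at h1
    have h2 : 0 ≤ (v' : ℤ) * δ := by positivity
    have h3 : (i : ℤ) * (gen k K * v') < i * (j * m) := by linarith
    exact lt_of_mul_lt_mul_left h3 (by positivity)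
  have hvm : v' + 1 ≤ m := by
    by_contra hcon
    have h1 : m ≤ v' := by omega
    have h2 : (j : ℤ) * m ≤ j * v' := by exact_mod_cast Nat.mul_le_mul_left j h1
    have h3 : (j : ℤ) * v' ≤ gen k K * v' :=
      mul_le_mul_of_nonneg_right (by omega) (by positivity)
    linarith
  -- the bundle
  obtain ⟨E0, hE0, hdE0, -, hsec⟩ := exists_low_stable (k := k) (K := K) (n := r) (i := i)
    (d := -δ) hi (by
      have : (i : ℤ) ≤ r := by rw [hr]; nlinarith
      exact_mod_cast this) (by omega) (by omega) (Or.inr (by rw [hr]; ring))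
  set F : VB k K (Fin r → K) := E0.twist ((j : ℤ) • H) with hFdef
  have hfr : finrank K (Fin r → K) = r := Module.finrank_fin_fun K
  have hF : F.Stable := VB.stable_twist hE0 _
  have hdF : F.deg = 2 * j * finrank K (Fin r → K) - δ := by
    rw [hFdef, deg_twist_H hp, hdE0]; ring
  have hsF : ((j * r + j * i : ℕ) : ℤ) ≤ F.h0 := by
    have h1 := hsec ((j : ℤ) • H)
    rw [ddeg_zsmul, hp.deg, h0_smul hp (by positivity) (by omega)] at h1
    refine le_trans (le_of_eq ?_) h1
    rw [hr]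
    push_cast
    rw [hr]
    ring
  obtain ⟨VF, hVF, hfVF⟩ := exists_sub_finrank F.H0 (d := j * r + j * i) (by
    unfold VB.h0 at hsF
    exact_mod_cast hsF)
  -- the Kronecker part
  have hkst : KSt k (j + 1) m (j * m + v') := by
    refine kst_of_root (by omega) hm1 ?_ ?_ ?_
    · simp only [Nat.add_sub_cancel]; omega
    · have : (j + 1) * m = j * m + m := by ring
      omega
    · have := RampThird_q (j := j) (m := m) (v' := v') (by exact_mod_cast (by omega : 1 ≤ j))
        (by exact_mod_cast hv') (by exact_mod_cast hv'j) (by exact_mod_cast hvm)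
      push_cast
      exact this
  obtain ⟨V', α', hα', hV', hfV', hst⟩ := kron_sys hp hm1 (by omega) hkst
  -- gluing
  have hhom := ramp_hom_le hp hF (by rw [hfr]; exact hr1) (j := (j : ℤ)) (δ := δ) hδ
    (by rw [hfr, hr]; omega) hdF
  rw [hfr] at hhom
  have hpw := le_h0_pw (k := k) (K := K) (D := (j : ℤ) • H) m
  rw [h0_smul hp (by positivity) (by omega)] at hpw
  have hdim : m * (hom F (line ((j : ℤ) • H))).h0 <
      finrank k VF * ((pw ((j : ℤ) • H) m).h0 - finrank k V') := by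
    have h1 := RampThird_dim (g := gen k K) (j := j) (m := m) (r := r) (i := i) (v' := v')
      (h := (hom F (line ((j : ℤ) • H))).h0) (by exact_mod_cast hj) hj'
      (by exact_mod_cast hi) (by exact_mod_cast hr1) (by exact_mod_cast hm1) hgv (by
        refine hhom.trans (le_of_eq ?_)
        rw [hr]; ring)
    rw [hfVF, hfV']
    have h2 : (m : ℤ) - v' ≤ (pw ((j : ℤ) • H) m).h0 - ((j * m + v' : ℕ) : ℤ) := by
      push_cast
      linarith
    have h3 : (0 : ℤ) ≤ ((j * r + j * i : ℕ) : ℤ) := by positivity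
    have h4 := mul_le_mul_of_nonneg_left h2 h3
    refine lt_of_lt_of_le ?_ h4
    push_cast
    exact h1
  obtain ⟨V, hV, hfV, h1, h2, h3⟩ := glue_sys hV' hVF hdim
  obtain ⟨α, hα, hstab⟩ := ramp_sys hp hF (j := j) (m := m) (v' := v') (vF := j * i) (δ := δ)
    (by omega) (by omega) hm1 (by rw [hfr]; exact hr1) hV' hVF hα' hfV' hst (by omega)
    (Nat.mul_pos (by omega) hi) hδ (by rw [hfVF, hfr]) hdF
    (by rw [hfr, hr]; push_cast; ring) (by rw [hfr]; exact_mod_cast hD) hfV h1 h2 h3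
  have hfW : finrank K ((Fin m → K) × (Fin r → K)) = m + r := by
    rw [Module.finrank_prod, Module.finrank_fin_fun, Module.finrank_fin_fun]
  obtain ⟨E', f, hE', hdE', -⟩ := exists_transport (ext (pw ((j : ℤ) • H) m) F 0) hfW
  have hst' := stableSys_map hstab f
  rw [← hE'] at hst'
  have hV'' := mapV_le_H0 hV f
  rw [← hE'] at hV''
  have h4 := mem_stableDegrees (n := m + r) (d := j * (m + r) + (j * i + v')) (by omega) hα hV''
    (by rw [finrank_mapV, hfV, hfV', hfVF]; ring) hst'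
  rw [hdE', deg_ext, deg_pw, ddeg_zsmul, hp.deg, hdF, hfr] at h4
  have e : (2 * j * (m + r) - δ : ℤ) = m * (j * 2) + (2 * j * r - δ) := by ring
  rw [e]
  exact h4

end Pool.Agent.MP_09eaec.GG
end
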