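import Pool.Agent.Lib.MP_09eaec_ag.Place
import Pool.Agent.Lib.MP_09eaec_ag.Defs

section

/-!
# Places and maximal ideals of Dedekind domains
-/

set_option autoImplicit false

namespace Pool.Agent.MP_09eaec

open IsDedekindDomain WithZero

universe u v w

variable {k : Type u} {K : Type v} [Field k] [Field K] [Algebra k K]
variable {B : Type w} [CommRing B] [IsDedekindDomain B] [Algebra B K] [IsFractionRing B K]

namespace Place

/-- The place attached to a maximal ideal. -/
noncomputable def ofPrime [Algebra k B] [IsScalarTower k B K] (v : HeightOneSpectrum B) :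
    Place k K where
  ord x := - WithZero.log (v.valuation K x)
  ord_zero := by simp
  ord_mul x y hx hy := by
    rw [map_mul, WithZero.log_mul ((Valuation.ne_zero_iff _).2 hx) ((Valuation.ne_zero_iff _).2 hy)]
    ring
  ord_add x y hx hy hxy := by
    have h := (v.valuation K).map_add x y
    have hx' := (Valuation.ne_zero_iff (v.valuation K)).2 hx
    have hy' := (Valuation.ne_zero_iff (v.valuation K)).2 hy
    have hxy' := (Valuation.ne_zero_iff (v.valuation K)).2 hxy
    rcases le_max_iff.1 h with h | h
    · exact le_trans (min_le_left _ _) (neg_le_neg ((WithZero.log_le_log hxy' hx').2 h))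
    · exact le_trans (min_le_right _ _) (neg_le_neg ((WithZero.log_le_log hxy' hy').2 h))
  ord_algebraMap c := by
    by_cases hc : c = 0
    · simp [hc]
    have h1 : v.valuation K (algebraMap B K (algebraMap k B c)) = 1 := by
      rw [HeightOneSpectrum.valuation_eq_one_iff_notMem]
      intro hmem
      apply v.isPrime.ne_top
      apply Ideal.eq_top_of_isUnit_mem _ hmem
      exact (IsUnit.mk0 c hc).map _
    rw [IsScalarTower.algebraMap_apply k B K, h1]
    simp
  exists_ord_eq_one := by
    obtain ⟨π, hπ⟩ := v.valuation_exists_uniformizer K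
    refine ⟨π, ?_, ?_⟩
    · intro h
      rw [h, map_zero] at hπ
      exact WithZero.exp_ne_zero hπ.symm
    · rw [hπ, WithZero.log_exp]; ring

variable (P : Place k K)

/-- The centre of a place on a Dedekind domain whose elements are regular at the place. -/
def center (hB : ∀ b : B, P.IsInt (algebraMap B K b)) : HeightOneSpectrum B where
  asIdeal :=
    { carrier := {b | b = 0 ∨ 0 < P.ord (algebraMap B K b)}
      zero_mem' := Or.inl rfl
      add_mem' := by
        intro a b ha hb
        by_cases ha0 : a = 0
        · simpa [ha0] using hb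
        by_cases hb0 : b = 0
        · simpa [hb0] using ha
        by_cases hab : a + b = 0
        · left; exact hab
        have hinj := IsFractionRing.injective B K
        have ha' : algebraMap B K a ≠ 0 := (map_ne_zero_iff _ hinj).2 ha0
        have hb' : algebraMap B K b ≠ 0 := (map_ne_zero_iff _ hinj).2 hb0
        have hab' : algebraMap B K a + algebraMap B K b ≠ 0 := by
          rw [← map_add]; exact (map_ne_zero_iff _ hinj).2 hab
        right
        rw [map_add]
        refine lt_of_lt_of_le (lt_min ?_ ?_) (P.ord_add _ _ ha' hb' hab')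
        · exact ha.resolve_left ha0
        · exact hb.resolve_left hb0
      smul_mem' := by
        intro c b hb
        by_cases hc0 : c = 0
        · left; simp [hc0]
        by_cases hb0 : b = 0
        · left; simp [hb0]
        have hinj := IsFractionRing.injective B K
        have hc' : algebraMap B K c ≠ 0 := (map_ne_zero_iff _ hinj).2 hc0
        have hb' : algebraMap B K b ≠ 0 := (map_ne_zero_iff _ hinj).2 hb0
        right
        rw [smul_eq_mul, map_mul, P.ord_mul _ _ hc' hb']
        have h1 := (P.isInt_iff hc').1 (hB c)
        have h2 := hb.resolve_left hb0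
        omega }
  isPrime := by
    constructor
    · intro h
      have h1 : (1 : B) ∈ ({b | b = 0 ∨ 0 < P.ord (algebraMap B K b)} : Set B) := by
        have : (1 : B) ∈ (⊤ : Ideal B) := trivial
        rw [← h] at this
        exact this
      rcases h1 with h1 | h1
      · exact one_ne_zero h1
      · rw [map_one, P.ord_one] at h1; omega
    · intro a b hab
      have hinj := IsFractionRing.injective B K
      by_cases ha0 : a = 0
      · left; left; exact ha0
      by_cases hb0 : b = 0
      · right; left; exact hb0
      have ha' : algebraMap B K a ≠ 0 := (map_ne_zero_iff _ hinj).2 ha0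
      have hb' : algebraMap B K b ≠ 0 := (map_ne_zero_iff _ hinj).2 hb0
      have h := hab.resolve_left (mul_ne_zero ha0 hb0)
      rw [map_mul, P.ord_mul _ _ ha' hb'] at h
      have h1 := (P.isInt_iff ha').1 (hB a)
      have h2 := (P.isInt_iff hb').1 (hB b)
      by_cases h3 : 0 < P.ord (algebraMap B K a)
      · left; right; exact h3
      · right; right; omega
  ne_bot := by
    intro h
    obtain ⟨x, hx, hx1⟩ := P.exists_ord_eq_one
    have hinj := IsFractionRing.injective B K
    have key : ∀ b : B, b ≠ 0 → P.ord (algebraMap B K b) = 0 := by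
      intro b hb
      have hb' : algebraMap B K b ≠ 0 := (map_ne_zero_iff _ hinj).2 hb
      have h1 := (P.isInt_iff hb').1 (hB b)
      by_contra hne
      have h2 : b ∈ ({b | b = 0 ∨ 0 < P.ord (algebraMap B K b)} : Set B) := by
        right; omega
      have h3 : b ∈ (⊥ : Ideal B) := by
        rw [← h]; exact h2
      exact hb h3
    obtain ⟨a, b, hb, hab⟩ := IsFractionRing.div_surjective (A := B) x
    have hb0 : b ≠ 0 := nonZeroDivisors.ne_zero hb
    have ha0 : a ≠ 0 := by
      rintro rfl
      rw [map_zero, zero_div] at hab
      exact hx hab.symm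
    rw [← hab, P.ord_div _ _ ((map_ne_zero_iff _ hinj).2 ha0) ((map_ne_zero_iff _ hinj).2 hb0),
      key a ha0, key b hb0] at hx1
    omega

lemma mem_center (hB : ∀ b : B, P.IsInt (algebraMap B K b)) (b : B) :
    b ∈ (P.center hB).asIdeal ↔ b = 0 ∨ 0 < P.ord (algebraMap B K b) := Iff.rfl

lemma isInt_of_valuation_le_one (hB : ∀ b : B, P.IsInt (algebraMap B K b)) (x : K)
    (hx : (P.center hB).valuation K x ≤ 1) : P.IsInt x := by
  obtain ⟨n, d, hnd⟩ := (P.center hB).exists_primeCompl_mul_eq_of_integer x hx
  by_cases hx0 : x = 0
  · left; exact hx0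
  have hd : (d : B) ∉ (P.center hB).asIdeal := d.2
  rw [mem_center, not_or] at hd
  have hinj := IsFractionRing.injective B K
  have hd' : algebraMap B K d ≠ 0 := (map_ne_zero_iff _ hinj).2 hd.1
  have hn' : algebraMap B K n ≠ 0 := by rw [← hnd]; exact mul_ne_zero hx0 hd'
  have h1 := P.ord_mul x _ hx0 hd'
  rw [hnd] at h1
  have h2 := (P.isInt_iff hn').1 (hB n)
  right; omega

lemma ofPrime_center [Algebra k B] [IsScalarTower k B K]
    (hB : ∀ b : B, P.IsInt (algebraMap B K b)) :
    (ofPrime (P.center hB) : Place k K) = P := by
  set v := P.center hB with hv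
  -- units
  have hunit : ∀ x : K, x ≠ 0 → v.valuation K x = 1 → P.ord x = 0 := by
    intro x hx hvx
    have h1 := (P.isInt_iff hx).1 (P.isInt_of_valuation_le_one hB x (le_of_eq hvx))
    have h2 := (P.isInt_iff (inv_ne_zero hx)).1 (P.isInt_of_valuation_le_one hB x⁻¹
      (le_of_eq (by rw [map_inv₀, ← hv, hvx, inv_one])))
    rw [P.ord_inv] at h2
    omega
  obtain ⟨π, hπ⟩ := v.valuation_exists_uniformizer K
  have hπ0 : π ≠ 0 := by
    intro h
    rw [h, map_zero] at hπ
    exact WithZero.exp_ne_zero hπ.symm
  have key : ∀ x : K, x ≠ 0 → P.ord x = (ofPrime v : Place k K).ord x * P.ord π := by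
    intro x hx
    set n := (ofPrime v : Place k K).ord x with hn
    have hn' : v.valuation K x = WithZero.exp (-n) := by
      have : -n = WithZero.log (v.valuation K x) := by
        rw [hn]; simp [ofPrime]
      rw [this, WithZero.exp_log ((Valuation.ne_zero_iff _).2 hx)]
    have h1 : v.valuation K (x * π ^ (-n)) = 1 := by
      rw [map_mul, map_zpow₀, hπ, hn', ← WithZero.exp_zsmul, ← WithZero.exp_add]
      simp
    have hz : π ^ (-n) ≠ 0 := zpow_ne_zero _ hπ0
    have h2 := hunit _ (mul_ne_zero hx hz) h1
    rw [P.ord_mul _ _ hx hz] at h2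
    have h3 : ∀ m : ℤ, P.ord (π ^ m) = m * P.ord π := by
      intro m
      cases m with
      | ofNat m => simpa using P.ord_pow π hπ0 m
      | negSucc m =>
        rw [zpow_negSucc, P.ord_inv, P.ord_pow π hπ0]
        push_cast
        rw [Int.negSucc_eq]
        ring
    rw [h3] at h2
    linarith
  have hπpos : 0 < P.ord π := by
    have h1 := (P.isInt_iff hπ0).1 (P.isInt_of_valuation_le_one hB π (by
      rw [← hv, hπ]
      rw [← WithZero.exp_zero]
      exact WithZero.exp_le_exp.2 (by norm_num)))
    rcases h1.lt_or_eq with h | h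
    · exact h
    · exfalso
      obtain ⟨x, hx, hx1⟩ := P.exists_ord_eq_one
      have := key x hx
      rw [← h, mul_zero] at this
      omega
  have hπ1 : P.ord π = 1 := by
    obtain ⟨x, hx, hx1⟩ := P.exists_ord_eq_one
    have := key x hx
    rw [hx1] at this
    have h2 : P.ord π ∣ 1 := ⟨(ofPrime v : Place k K).ord x, by linarith⟩
    exact Int.eq_one_of_dvd_one hπpos.le h2
  ext x
  by_cases hx : x = 0
  · rw [hx, P.ord_zero, (ofPrime v : Place k K).ord_zero]
  · rw [key x hx, hπ1, mul_one]

lemma center_ofPrime [Algebra k B] [IsScalarTower k B K] (v : HeightOneSpectrum B)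
    (hB : ∀ b : B, (ofPrime v : Place k K).IsInt (algebraMap B K b)) :
    (ofPrime v : Place k K).center hB = v := by
  apply HeightOneSpectrum.ext
  ext b
  rw [mem_center]
  by_cases hb : b = 0
  · simp [hb]
  have hinj := IsFractionRing.injective B K
  have hb' : algebraMap B K b ≠ 0 := (map_ne_zero_iff _ hinj).2 hb
  have h0 := (Valuation.ne_zero_iff (v.valuation K)).2 hb'
  constructor
  · rintro (h | h)
    · exact absurd h hb
    · rw [← HeightOneSpectrum.valuation_lt_one_iff_mem (K := K)]
      have h1 : WithZero.log (v.valuation K (algebraMap B K b)) < 0 := by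
        have : 0 < - WithZero.log (v.valuation K (algebraMap B K b)) := h
        omega
      rw [← WithZero.log_one, WithZero.log_lt_log h0 one_ne_zero] at h1
      exact h1
  · intro h
    right
    rw [← HeightOneSpectrum.valuation_lt_one_iff_mem (K := K)] at h
    have h1 : WithZero.log (v.valuation K (algebraMap B K b)) < 0 := by
      rw [← WithZero.log_one, WithZero.log_lt_log h0 one_ne_zero]
      exact h
    show 0 < - WithZero.log (v.valuation K (algebraMap B K b))
    omega

lemma isInt_ofPrime [Algebra k B] [IsScalarTower k B K] (v : HeightOneSpectrum B) (b : B) :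
    (ofPrime v : Place k K).IsInt (algebraMap B K b) := by
  by_cases hb : b = 0
  · left; simp [hb]
  have hinj := IsFractionRing.injective B K
  have hb' : algebraMap B K b ≠ 0 := (map_ne_zero_iff _ hinj).2 hb
  have h0 := (Valuation.ne_zero_iff (v.valuation K)).2 hb'
  right
  have h1 : WithZero.log (v.valuation K (algebraMap B K b)) ≤ 0 := by
    rw [← WithZero.log_one, WithZero.log_le_log h0 one_ne_zero]
    exact v.valuation_le_one b
  show 0 ≤ - WithZero.log (v.valuation K (algebraMap B K b))
  omega

end Place

end Pool.Agent.MP_09eaec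
end

section

/-!
# The degree of the divisor of zeros
-/

set_option autoImplicit false

namespace Pool.Agent.MP_09eaec

open IsDedekindDomain WithZero

universe u v w

lemma zeroSum_aux {k : Type u} {K : Type v} [Field k] [Field K] [Algebra k K] [IsAlgClosed k]
    [CharZero k]
    {A : Type*} [CommRing A] [IsDomain A] [IsPrincipalIdealRing A] [Algebra k A]
    (L : Type*) [Field L] [Algebra A L] [IsFractionRing A L] [Algebra k L] [IsScalarTower k A L]
    [Algebra L K] [Algebra A K] [IsScalarTower A L K] [FiniteDimensional L K] [IsScalarTower k A K]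
    {B : Type*} [CommRing B] [IsDomain B] [Algebra A B] [Algebra B K] [IsScalarTower A B K]
    [IsIntegralClosure B A K] [Algebra k B] [IsScalarTower k A B] [IsScalarTower k B K]
    (x : A) (hx0 : x ≠ 0) (hsurj : Function.Surjective (algebraMap k (A ⧸ Ideal.span {x})))
    (hne : Ideal.span {x} ≠ ⊤)
    (hA : ∀ P : Place k K, 0 < P.ord (algebraMap A K x) → ∀ a, P.IsInt (algebraMap A K a)) :
    {P : Place k K | 0 < P.ord (algebraMap A K x)}.Finite ∧
      ∑ᶠ P ∈ {P : Place k K | 0 < P.ord (algebraMap A K x)}, P.ord (algebraMap A K x) =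
        Module.finrank L K := by
  classical
  have hcharL : CharZero L := charZero_of_injective_algebraMap (algebraMap k L).injective
  have : Algebra.IsSeparable L K := Algebra.IsAlgebraic.isSeparable_of_perfectField
  have hded : IsDedekindDomain B := IsIntegralClosure.isDedekindDomain A L K B
  have hfr : IsFractionRing B K := IsIntegralClosure.isFractionRing_of_finite_extension A L K B
  have hfin : Module.Finite A B := IsIntegralClosure.finite A L K B
  have hAK : Function.Injective (algebraMap A K) := by
    rw [IsScalarTower.algebraMap_eq A L K]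
    exact (algebraMap L K).injective.comp (IsFractionRing.injective A L)
  have htfK : Module.IsTorsionFree A K := by
    exact (Module.isTorsionFree_iff_algebraMap_injective).2 hAK
  have hfree : Module.Free A B := IsIntegralClosure.module_free A L K B
  set p : Ideal A := Ideal.span {x} with hp
  have hnt : Nontrivial (A ⧸ p) := Ideal.Quotient.nontrivial_iff.2 hne
  have hbij : Function.Bijective (algebraMap k (A ⧸ p)) := ⟨RingHom.injective _, hsurj⟩
  let e : k ≃+* (A ⧸ p) := RingEquiv.ofBijective _ hbij
  have hfield : IsField (A ⧸ p) := e.symm.isField (Field.toIsField k)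
  have hmax : p.IsMaximal := Ideal.Quotient.maximal_of_isField p hfield
  have hprime : p.IsPrime := hmax.isPrime
  have hxK : algebraMap A K x ≠ 0 := (map_ne_zero_iff _ hAK).2 hx0
  have hAB : Function.Injective (algebraMap A B) := by
    intro a b hab
    apply hAK
    rw [IsScalarTower.algebraMap_apply A B K, hab, ← IsScalarTower.algebraMap_apply A B K]
  have hpbot : p ≠ ⊥ := by
    rw [hp, Ne, Ideal.span_singleton_eq_bot]; exact hx0
  have hfs : FaithfulSMul A B := (faithfulSMul_iff_algebraMap_injective A B).2 hAB
  have hfinp : (p.primesOver B).Finite := Algebra.QuasiFinite.finite_primesOver p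
  let _ : Fintype (p.primesOver B) := hfinp.fintype
  have hsum := Ideal.sum_ramification_inertia_eq_finrank p B
  -- the places
  have hmap : p.map (algebraMap A B) = Ideal.span {algebraMap A B x} := by
    rw [hp, Ideal.map_span, Set.image_singleton]
  have hxB : algebraMap A B x ≠ 0 := (map_ne_zero_iff _ hAB).2 hx0
  have hmapbot : p.map (algebraMap A B) ≠ ⊥ := by
    rw [hmap, Ne, Ideal.span_singleton_eq_bot]; exact hxB
  let pl : p.primesOver B → HeightOneSpectrum B := fun Q =>
    ⟨Q.1, inferInstance, Ideal.ne_bot_of_mem_primesOver hpbot Q.2⟩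
  have hinert : ∀ Q : p.primesOver B, Q.1.inertiaDeg A = 1 := by
    intro Q
    have hQm : Q.1.IsMaximal :=
      (inferInstance : Q.1.IsPrime).isMaximal (Ideal.ne_bot_of_mem_primesOver hpbot Q.2)
    rw [Ideal.inertiaDeg_eq_of_isMaximal p Q.1]
    let _ : Field (A ⧸ p) := Ideal.Quotient.field p
    have halg : IsAlgClosed (A ⧸ p) := by
      apply IsAlgClosed.of_exists_root
      intro f hf hirr
      have hdeg : (f.map e.symm.toRingHom).degree ≠ 0 := by
        rw [Polynomial.degree_map]
        exact (hirr.degree_pos).ne'
      obtain ⟨y, hy⟩ := IsAlgClosed.exists_root _ hdeg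
      refine ⟨e y, ?_⟩
      rw [Polynomial.IsRoot, Polynomial.eval_map] at hy
      have h2 := congrArg e hy
      rw [map_zero] at h2
      rw [← h2]
      have h3 := Polynomial.hom_eval₂ f e.symm.toRingHom e.toRingHom y
      have h4 : e.toRingHom.comp e.symm.toRingHom = RingHom.id _ := by
        ext z; simp
      rw [h4, Polynomial.eval₂_id] at h3
      exact h3.symm
    have hint : Algebra.IsIntegral (A ⧸ p) (B ⧸ Q.1) := inferInstance
    have hb := IsAlgClosed.algebraMap_bijective_of_isIntegral (k := A ⧸ p) (K := B ⧸ Q.1)
    exact (LinearEquiv.finrank_eq (LinearEquiv.ofBijective (Algebra.linearMap (A ⧸ p) (B ⧸ Q.1))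
      hb)).symm.trans (Module.finrank_self _)
  have hord : ∀ Q : p.primesOver B, (Place.ofPrime (pl Q) : Place k K).ord (algebraMap A K x) =
      (Q.1.ramificationIdx A : ℤ) := by
    intro Q
    rw [Ideal.IsDedekindDomain.ramificationIdx_eq_multiplicity p Q.1 hmapbot, hmap]
    show - WithZero.log ((pl Q).valuation K (algebraMap A K x)) = _
    rw [IsScalarTower.algebraMap_apply A B K, HeightOneSpectrum.valuation_of_algebraMap,
      HeightOneSpectrum.intValuation_eq_exp_neg_multiplicity _ hxB, WithZero.log_exp]
    ring
  have hposord : ∀ Q : p.primesOver B,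
      0 < (Place.ofPrime (pl Q) : Place k K).ord (algebraMap A K x) := by
    intro Q
    have hmem : algebraMap A B x ∈ (pl Q).asIdeal := by
      have h1 : p.map (algebraMap A B) ≤ Q.1 := by
        rw [Ideal.map_le_iff_le_comap]
        exact (Q.2.2.over).le
      apply h1
      rw [hmap]
      exact Ideal.mem_span_singleton_self _
    rw [← HeightOneSpectrum.valuation_lt_one_iff_mem (K := K)] at hmem
    have h0 := (Valuation.ne_zero_iff ((pl Q).valuation K)).2 hxK
    rw [IsScalarTower.algebraMap_apply A B K] at h0 ⊢
    have h1 : WithZero.log ((pl Q).valuation K (algebraMap B K (algebraMap A B x))) < 0 := by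
      rw [← WithZero.log_one, WithZero.log_lt_log h0 one_ne_zero]
      exact hmem
    show 0 < - WithZero.log ((pl Q).valuation K (algebraMap B K (algebraMap A B x)))
    omega
  have hinj : Function.Injective (fun Q : p.primesOver B => (Place.ofPrime (pl Q) : Place k K)) := by
    intro Q Q' h
    have h1 := Place.center_ofPrime (k := k) (K := K) (pl Q) (Place.isInt_ofPrime (pl Q))
    have h2 := Place.center_ofPrime (k := k) (K := K) (pl Q') (Place.isInt_ofPrime (pl Q'))
    have h3 : pl Q = pl Q' := by
      rw [← h1, ← h2]
      apply HeightOneSpectrum.ext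
      ext b
      rw [Place.mem_center, Place.mem_center]
      have h4 : (Place.ofPrime (pl Q) : Place k K) = Place.ofPrime (pl Q') := h
      rw [h4]
    exact Subtype.ext (congrArg HeightOneSpectrum.asIdeal h3)
  have hrange : {P : Place k K | 0 < P.ord (algebraMap A K x)} =
      Set.range (fun Q : p.primesOver B => (Place.ofPrime (pl Q) : Place k K)) := by
    ext P
    constructor
    · intro hP
      have hPB : ∀ b : B, P.IsInt (algebraMap B K b) := by
        intro b
        apply P.isInt_of_isIntegral (A := A) (hA P hP)
        exact (IsIntegralClosure.isIntegral A K b).map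
          (IsScalarTower.toAlgHom A B K)
      have hc : (P.center hPB).asIdeal ∈ p.primesOver B := by
        refine ⟨(P.center hPB).isPrime, ⟨?_⟩⟩
        have hle : p ≤ (P.center hPB).asIdeal.under A := by
          rw [hp, Ideal.span_le, Set.singleton_subset_iff]
          show algebraMap A B x ∈ (P.center hPB).asIdeal
          rw [Place.mem_center]
          right
          rw [← IsScalarTower.algebraMap_apply A B K]
          exact hP
        refine hmax.eq_of_le ?_ hle
        exact (Ideal.IsPrime.comap (algebraMap A B) (hK := (P.center hPB).isPrime)).ne_top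
      refine ⟨⟨_, hc⟩, ?_⟩
      show (Place.ofPrime (pl ⟨_, hc⟩) : Place k K) = P
      exact P.ofPrime_center hPB
    · rintro ⟨Q, rfl⟩
      exact hposord Q
  refine ⟨?_, ?_⟩
  · rw [hrange]; exact Set.finite_range _
  · rw [hrange, finsum_mem_range hinj, finsum_eq_sum_of_fintype]
    rw [IsFractionRing.finrank_eq A L B K, ← hsum]
    push_cast
    apply Finset.sum_congr rfl
    intro Q _
    rw [hord, hinert]
    simp

end Pool.Agent.MP_09eaec
end

section

/-!
# The product formula for function fields of curves
-/

set_option autoImplicit false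

namespace Pool.Agent.MP_09eaec

open IntermediateField IntermediateField.algebraAdjoinAdjoin Polynomial

universe u v

variable {k : Type u} {K : Type v} [Field k] [Field K] [Algebra k K]

lemma IsCurveField.finiteDimensional (hK : IsCurveField k K) {x : K} (hx : Transcendental k x) :
    FiniteDimensional k⟮x⟯ K := by
  have hai : AlgebraicIndependent k (fun _ : Fin 1 => x) :=
    algebraicIndependent_unique_type_iff.mpr hx
  have htb : IsTranscendenceBasis k (fun _ : Fin 1 => x) := by
    apply hai.isTranscendenceBasis_of_lift_trdeg_le_of_finite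
    rw [hK.trdeg_eq_one]; simp
  have halg := htb.isAlgebraic_field
  have hr : Set.range (fun _ : Fin 1 => x) = {x} := by simp
  rw [hr] at halg
  obtain ⟨S, hS⟩ := hK.fg
  have h1 : IntermediateField.adjoin k⟮x⟯ (S : Set K) = ⊤ := by
    rw [eq_top_iff]
    intro y _
    have hy : y ∈ IntermediateField.adjoin k (S : Set K) := by rw [hS]; trivial
    have h2 : IntermediateField.adjoin k (S : Set K) ≤
        (IntermediateField.adjoin k⟮x⟯ (S : Set K)).restrictScalars k := by
      rw [IntermediateField.adjoin_le_iff]
      exact IntermediateField.subset_adjoin _ _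
    exact h2 hy
  have h3 : FiniteDimensional k⟮x⟯ (IntermediateField.adjoin k⟮x⟯ (S : Set K)) := by
    have : Finite (S : Set K) := S.finite_toSet
    exact IntermediateField.finiteDimensional_adjoin fun y _ =>
      (Algebra.IsAlgebraic.isAlgebraic y).isIntegral
  rw [h1] at h3
  exact Module.Finite.equiv (IntermediateField.topEquiv (F := k⟮x⟯) (E := K)).toLinearEquiv

lemma IsCurveField.exists_transcendental (hK : IsCurveField k K) : ∃ x : K, Transcendental k x := by
  by_contra h
  push Not at h
  have : Algebra.IsAlgebraic k K := ⟨fun x => by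
    have := h x
    rwa [Transcendental, not_not] at this⟩
  have h0 := trdeg_eq_zero (R := k) (A := K)
  rw [hK.trdeg_eq_one] at h0
  exact one_ne_zero h0

variable [IsAlgClosed k] [CharZero k]

theorem zeroSum (hK : IsCurveField k K) {x : K} (hx : Transcendental k x) :
    {P : Place k K | 0 < P.ord x}.Finite ∧
      ∑ᶠ P ∈ {P : Place k K | 0 < P.ord x}, P.ord x = Module.finrank k⟮x⟯ K := by
  have hfd := hK.finiteDimensional hx
  let A := Algebra.adjoin k {x}
  let xA : A := ⟨x, Algebra.self_mem_adjoin_singleton k x⟩
  have hrep : ∀ a : A, ∃ p : k[X], (aeval x p : K) = a := by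
    intro a
    have h := a.2
    change (a : K) ∈ Algebra.adjoin k {x} at h
    rw [Algebra.adjoin_singleton_eq_range_aeval] at h
    exact h
  have hpid : IsPrincipalIdealRing A := by
    let f : k[X] →+* A := ((aeval xA : k[X] →ₐ[k] A) : k[X] →+* A)
    apply IsPrincipalIdealRing.of_surjective f
    intro a
    obtain ⟨p, hp⟩ := hrep a
    refine ⟨p, ?_⟩
    apply Subtype.ext
    rw [← hp]
    show ((aeval xA p : A) : K) = aeval x p
    have := (Polynomial.aeval_algHom_apply (Algebra.adjoin k {x}).val xA p)
    exact this.symm
  have hx0 : xA ≠ 0 := by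
    intro h
    have h1 : x = 0 := congrArg Subtype.val h
    exact hx (by rw [h1]; exact isAlgebraic_zero)
  have hsurj : Function.Surjective (algebraMap k (A ⧸ Ideal.span {xA})) := by
    intro q
    obtain ⟨a, rfl⟩ := Ideal.Quotient.mk_surjective q
    obtain ⟨p, hp⟩ := hrep a
    refine ⟨p.coeff 0, ?_⟩
    have h1 : algebraMap k (A ⧸ Ideal.span {xA}) (p.coeff 0) =
        Ideal.Quotient.mk (Ideal.span {xA}) (algebraMap k A (p.coeff 0)) := rfl
    rw [h1, Ideal.Quotient.eq, Ideal.mem_span_singleton]
    refine ⟨- aeval xA p.divX, ?_⟩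
    apply Subtype.ext
    have h2 : (aeval x p : K) = x * aeval x p.divX + algebraMap k K (p.coeff 0) := by
      have h9 := congrArg (aeval x) (Polynomial.X_mul_divX_add p)
      rw [map_add, map_mul, aeval_X, aeval_C] at h9
      exact h9.symm
    have h3 : ((aeval xA p.divX : A) : K) = aeval x p.divX :=
      (Polynomial.aeval_algHom_apply (Algebra.adjoin k {x}).val xA p.divX).symm
    have h4 : ((algebraMap k A (p.coeff 0) : A) : K) = algebraMap k K (p.coeff 0) := rfl
    show ((algebraMap k A (p.coeff 0) : A) : K) - (a : K) = x * - ((aeval xA p.divX : A) : K)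
    rw [h3, ← hp, h2, h4]
    ring
  have hne : Ideal.span {xA} ≠ ⊤ := by
    rw [Ne, Ideal.span_singleton_eq_top]
    intro hu
    obtain ⟨b, hb⟩ := hu.exists_right_inv
    obtain ⟨p, hp⟩ := hrep b
    have h1 : (aeval x (X * p - 1) : K) = 0 := by
      have := congrArg Subtype.val hb
      have h2 : x * (b : K) = 1 := this
      simp [hp, h2]
    have h3 := (transcendental_iff.1 hx) _ h1
    have h4 := congrArg (Polynomial.eval 0) h3
    simp at h4
  have hA : ∀ P : Place k K, 0 < P.ord (algebraMap A K xA) → ∀ a, P.IsInt (algebraMap A K a) := by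
    intro P hP a
    have hle : Algebra.adjoin k {x} ≤
        { P.valuationSubring.toSubring with
          algebraMap_mem' := fun c => P.isInt_algebraMap c } := by
      rw [Algebra.adjoin_le_iff, Set.singleton_subset_iff]
      exact Or.inr hP.le
    exact hle a.2
  have := zeroSum_aux (k := k) (K := K) (A := A) k⟮x⟯ (B := integralClosure A K) xA hx0 hsurj hne hA
  exact this

omit [CharZero k] in
lemma ord_eq_zero_of_isAlgebraic {x : K} (hx : ¬ Transcendental k x) (P : Place k K) :
    P.ord x = 0 := by
  rw [Transcendental, not_not] at hx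
  have hint : IsIntegral k x := hx.isIntegral
  have : x ∈ (⊥ : Subalgebra k K) := by
    have h1 : Algebra.adjoin k {x} = ⊥ := by
      have hi : Algebra.IsIntegral k (Algebra.adjoin k {x}) :=
        Algebra.IsIntegral.adjoin (by simpa using hint)
      have hb := IsAlgClosed.algebraMap_bijective_of_isIntegral (k := k)
        (K := Algebra.adjoin k {x})
      rw [eq_bot_iff]
      intro y hy
      obtain ⟨c, hc⟩ := hb.2 ⟨y, hy⟩
      refine Algebra.mem_bot.2 ⟨c, ?_⟩
      have := congrArg Subtype.val hc
      exact this
    rw [← h1]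
    exact Algebra.self_mem_adjoin_singleton k x
  obtain ⟨c, rfl⟩ := Algebra.mem_bot.1 this
  exact P.ord_algebraMap c

theorem finite_ord_ne_zero (hK : IsCurveField k K) (x : K) :
    {P : Place k K | P.ord x ≠ 0}.Finite := by
  by_cases hx : Transcendental k x
  · have hxi : Transcendental k x⁻¹ := by
      intro h; exact hx (by simpa using h.inv)
    refine ((zeroSum hK hx).1.union (zeroSum hK hxi).1).subset ?_
    intro P hP
    have hP' : P.ord x ≠ 0 := hP
    rcases lt_or_gt_of_ne hP' with h | h
    · right
      show 0 < P.ord x⁻¹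
      rw [P.ord_inv]; omega
    · left; exact h
  · have : {P : Place k K | P.ord x ≠ 0} = ∅ := by
      ext P; simp [ord_eq_zero_of_isAlgebraic hx P]
    rw [this]; exact Set.finite_empty

/-- The product formula: a nonzero function has as many zeros as poles. -/
theorem finsum_ord (hK : IsCurveField k K) (x : K) :
    ∑ᶠ P : Place k K, P.ord x = 0 := by
  by_cases hx : Transcendental k x
  · have hxi : Transcendental k x⁻¹ := by
      intro h; exact hx (by simpa using h.inv)
    have h1 := zeroSum hK hx
    have h2 := zeroSum hK hxi
    have hadj : k⟮x⁻¹⟯ = k⟮x⟯ := by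
      apply le_antisymm
      · rw [IntermediateField.adjoin_le_iff, Set.singleton_subset_iff]
        exact inv_mem (IntermediateField.mem_adjoin_simple_self k x)
      · rw [IntermediateField.adjoin_le_iff, Set.singleton_subset_iff]
        have := inv_mem (IntermediateField.mem_adjoin_simple_self k x⁻¹)
        rwa [inv_inv] at this
    rw [hadj] at h2
    have hfin := finite_ord_ne_zero hK x
    have hdec : ∀ P : Place k K, P.ord x =
        (Set.indicator {P : Place k K | 0 < P.ord x} (fun P => P.ord x) P) -
          (Set.indicator {P : Place k K | 0 < P.ord x⁻¹} (fun P => P.ord x⁻¹) P) := by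
      intro P
      by_cases ha : 0 < P.ord x
      · have hb : ¬ 0 < P.ord x⁻¹ := by rw [P.ord_inv]; omega
        rw [Set.indicator_of_mem (s := {P : Place k K | 0 < P.ord x}) ha,
          Set.indicator_of_notMem (s := {P : Place k K | 0 < P.ord x⁻¹}) hb]
        simp
      · by_cases hb : 0 < P.ord x⁻¹
        · rw [Set.indicator_of_notMem (s := {P : Place k K | 0 < P.ord x}) ha,
            Set.indicator_of_mem (s := {P : Place k K | 0 < P.ord x⁻¹}) hb, P.ord_inv]
          simp
        · rw [Set.indicator_of_notMem (s := {P : Place k K | 0 < P.ord x}) ha,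
            Set.indicator_of_notMem (s := {P : Place k K | 0 < P.ord x⁻¹}) hb]
          rw [P.ord_inv] at hb
          omega
    rw [finsum_congr hdec, finsum_sub_distrib]
    · rw [← finsum_mem_def, ← finsum_mem_def, h1.2, h2.2, sub_self]
    · exact h1.1.subset (Set.support_indicator_subset)
    · exact h2.1.subset (Set.support_indicator_subset)
  · have : ∀ P : Place k K, P.ord x = 0 := ord_eq_zero_of_isAlgebraic hx
    rw [finsum_congr this, finsum_zero]

end Pool.Agent.MP_09eaec
end
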