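import Pool.Agent.Lib.MP_09eaec_ag.Mg.G045

section

/-!
# Upper bounds for the degrees of subsheaves; the coherent system of degree `d_n`
-/

set_option autoImplicit false

namespace Pool.Agent.MP_09eaec

open Function Matrix

universe u v

variable {k : Type u} {K : Type v} [Field k] [Field K] [Algebra k K]

/-- The rows given by an injective homomorphism. -/
noncomputable def startRows {n m t : ℕ} (e' : Fin m ⊕ Fin t ≃ Fin n)
    (j : (Fin m → K) →ₗ[K] (Fin n → K)) : Fin n → Fin n → K :=
  fun i => Sum.elim (fun a => j (Pi.single a 1)) (fun _ => 0) (e'.symm i)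

/-- The corresponding index set. -/
def startSet {n m t : ℕ} (e' : Fin m ⊕ Fin t ≃ Fin n) : Finset (Fin n) :=
  Finset.univ.image (fun a => e' (Sum.inl a))

lemma startRows_inl {n m t : ℕ} (e' : Fin m ⊕ Fin t ≃ Fin n)
    (j : (Fin m → K) →ₗ[K] (Fin n → K)) (a : Fin m) :
    startRows e' j (e' (Sum.inl a)) = j (Pi.single a 1) := by
  simp [startRows]

lemma mem_startSet {n m t : ℕ} (e' : Fin m ⊕ Fin t ≃ Fin n) (a : Fin m) :
    e' (Sum.inl a) ∈ startSet e' := Finset.mem_image_of_mem _ (Finset.mem_univ a)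

lemma not_mem_startSet {n m t : ℕ} (e' : Fin m ⊕ Fin t ≃ Fin n) (b : Fin t) :
    e' (Sum.inr b) ∉ startSet e' := by
  intro h
  obtain ⟨a, _, ha⟩ := Finset.mem_image.1 h
  have := e'.injective ha
  cases this

lemma inl_injective' {n m t : ℕ} (e' : Fin m ⊕ Fin t ≃ Fin n) :
    Injective (fun a => e' (Sum.inl a)) := e'.injective.comp Sum.inl_injective

lemma card_startSet {n m t : ℕ} (e' : Fin m ⊕ Fin t ≃ Fin n) : (startSet e').card = m := by
  unfold startSet
  rw [Finset.card_image_of_injective _ (inl_injective' e'), Finset.card_univ,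
    Fintype.card_fin]

lemma single_independent (n : ℕ) :
    LinearIndependent K (fun i : Fin n => (Pi.single i 1 : Fin n → K)) := by
  have := (Pi.basisFun K (Fin n)).linearIndependent
  convert this using 1
  funext i
  rw [Pi.basisFun_apply]

lemma startRows_indep {n m t : ℕ} (e' : Fin m ⊕ Fin t ≃ Fin n)
    (j : (Fin m → K) →ₗ[K] (Fin n → K)) (hj : Injective j) :
    LinearIndepOn K (startRows e' j) (startSet e' : Set (Fin n)) := by
  have h1 : (startSet e' : Set (Fin n)) = Set.range (fun a => e' (Sum.inl a)) := by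
    unfold startSet
    rw [Finset.coe_image, Finset.coe_univ, Set.image_univ]
  rw [h1, linearIndepOn_range_iff (inl_injective' e')]
  have h2 : startRows e' j ∘ (fun a => e' (Sum.inl a)) =
      fun a => j (Pi.single a 1) := by
    funext a
    exact startRows_inl e' j a
  rw [h2]
  exact (single_independent m).map' j (LinearMap.ker_eq_bot.2 hj)

/-- **Degree bound from a splitting.** -/
theorem deg_bound_split {n m t : ℕ} (E : Bundle k K n)
    (V : Submodule k (Fin n → K)) (hsys : IsSystem E V) (F : Bundle k K m)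
    (j : (Fin m → K) →ₗ[K] (Fin n → K)) (hmap : ∀ P x, F.Mem P x → E.Mem P (j x))
    (e' : Fin m ⊕ Fin t ≃ Fin n) (x : ℝ) (T : Finset (Fin n)) (f : Fin n → Fin n → K)
    (G : Place k K → Fin n → Fin n → K) (H : Place k K → K)
    (S : IsSplit V x (startSet e') (startRows e' j) T f G H)
    (τ : Place k K → Fin n → Fin n → K) (hτ : ∀ P, ∀ i ∈ T, E.Mem P (τ P i))
    (hdet : ∀ P, (Matrix.of (T.piecewise (τ P) f)).det ≠ 0)
    (hfs : HasFiniteSupport fun P : Place k K => P.ord (Matrix.of (T.piecewise (τ P) f)).det) :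
    F.deg ≤ E.deg + ∑ᶠ P : Place k K, P.ord (H P) +
      ∑ᶠ P : Place k K, P.ord (Matrix.of (T.piecewise (τ P) f)).det := by
  have hord : ∀ P : Place k K, P.ord (Matrix.of (T.piecewise (τ P) (G P))).det =
      P.ord (H P) + P.ord (Matrix.of (T.piecewise (τ P) f)).det := by
    intro P
    rw [S.det_eq, P.ord_mul _ _ (S.H_ne P) (hdet P)]
  have h1 := deg_le_deg_add E F j hmap e' (fun P => T.piecewise (τ P) (G P)) ?_ ?_ ?_ ?_
  · rw [finsum_congr hord, finsum_add_distrib S.H_fin hfs] at h1
    omega
  · intro P a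
    have h2 := mem_startSet e' a
    have h3 : e' (Sum.inl a) ∉ T := fun hT => Finset.disjoint_left.1 S.disj h2 hT
    show T.piecewise (τ P) (G P) (e' (Sum.inl a)) = _
    rw [Finset.piecewise_eq_of_notMem _ _ _ h3, S.G_eq P _ h2, startRows_inl]
  · intro P b
    show E.Mem P (T.piecewise (τ P) (G P) (e' (Sum.inr b)))
    by_cases hT : e' (Sum.inr b) ∈ T
    · rw [Finset.piecewise_eq_of_mem _ _ _ hT]
      exact hτ P _ hT
    · rw [Finset.piecewise_eq_of_notMem _ _ _ hT]
      exact hsys _ (S.G_mem P _ (not_mem_startSet e' b)) P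
  · intro P
    rw [S.det_eq]
    exact mul_ne_zero (S.H_ne P) (hdet P)
  · have : (fun P : Place k K => P.ord (Matrix.of (T.piecewise (τ P) (G P))).det) =
        fun P => P.ord (H P) + P.ord (Matrix.of (T.piecewise (τ P) f)).det := funext hord
    rw [this]
    exact S.H_fin.fun_add hfs

lemma det_of_indep {n : ℕ} (f : Fin n → Fin n → K) (hf : LinearIndependent K f) :
    (Matrix.of f).det ≠ 0 := by
  have h1 : LinearIndependent K (Matrix.of f).row := hf
  have h2 := Matrix.linearIndependent_rows_iff_isUnit.1 h1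
  rw [isUnit_iff_isUnit_det] at h2
  exact h2.ne_zero

lemma le_rank_of_injective {n m : ℕ} (j : (Fin m → K) →ₗ[K] (Fin n → K)) (hj : Injective j) :
    m ≤ n := by
  have h1 := LinearMap.finrank_le_finrank_of_injective hj
  rwa [Module.finrank_fin_fun, Module.finrank_fin_fun] at h1

lemma finrank_range_of_injective {n m : ℕ} (j : (Fin m → K) →ₗ[K] (Fin n → K)) (hj : Injective j) :
    Module.finrank K (LinearMap.range j) = m := by
  rw [LinearMap.finrank_range_of_inj hj, Module.finrank_fin_fun]

lemma exists_sum_equiv {n m : ℕ} (hmn : m ≤ n) : Nonempty (Fin m ⊕ Fin (n - m) ≃ Fin n) :=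
  ⟨finSumFinEquiv.trans (finCongr (by omega))⟩

section

variable [IsAlgClosed k] [CharZero k]

/-- Subsystems of full rank. -/
theorem slope_full (hK : IsCurveField k K) {n : ℕ} (hn : 0 < n) (E : Bundle k K n)
    (V : Submodule k (Fin n → K)) (hVf : Module.Finite k V) (α : ℝ) (hα : 0 < α)
    (F : Bundle k K n) (j : (Fin n → K) →ₗ[K] (Fin n → K)) (W : Submodule k (Fin n → K))
    (hsub : IsSubsystem E V F j W) (hnw : ¬ IsWhole E V F j W) :
    ((F.deg : ℝ) + α * Module.finrank k W) / n < ((E.deg : ℝ) + α * Module.finrank k V) / n := by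
  have hn0 : (0 : ℝ) < n := by exact_mod_cast hn
  rw [div_lt_div_iff_of_pos_right hn0]
  have h1 := deg_le_deg_full hK E F j hsub.injective hsub.map_mem
  have h2 := Submodule.finrank_mono hsub.le
  have h1' : (F.deg : ℝ) ≤ E.deg := by exact_mod_cast h1
  have h2' : (Module.finrank k W : ℝ) ≤ Module.finrank k V := by exact_mod_cast h2
  by_cases h3 : F.deg < E.deg
  · have h3' : (F.deg : ℝ) < E.deg := by exact_mod_cast h3
    nlinarith
  · have h4 : W ≠ V := by
      intro hWV
      exact hnw ⟨fun P y hy => whole_of_deg_le hK E F j hsub.injective hsub.map_mem (not_lt.1 h3)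
        P y hy, hWV⟩
    have h5 := Submodule.finrank_lt_finrank_of_lt (lt_of_le_of_ne hsub.le h4)
    have h5' : (Module.finrank k W : ℝ) < Module.finrank k V := by exact_mod_cast h5
    nlinarith

omit [IsAlgClosed k] [CharZero k] in
lemma isSystem_secV {r s n : ℕ} {e : Fin r ⊕ Fin s ≃ Fin n} {h : Fin (r + 1) → K}
    (E : Bundle k K n) (hEint : ∀ P x, (∀ i, P.IsInt (x i)) → E.Mem P x)
    (hEd : ∀ P, E.Mem P (dualVec e h)) : IsSystem E (secV k e h) := by
  rintro _ ⟨⟨c0, c⟩, rfl⟩ P
  rw [Phi_apply, ← algebraMap_smul K c0 (dualVec e h)]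
  apply E.mem_add P
  · exact E.mem_smul P (hEd P) (P.isInt_algebraMap _)
  · exact hEint P _ (fun i => P.isInt_algebraMap _)

omit [IsAlgClosed k] [CharZero k] in
lemma finrank_sub_le {r s n m : ℕ} {e : Fin r ⊕ Fin s ≃ Fin n} {h : Fin (r + 1) → K}
    {E : Bundle k K n} {F : Bundle k K m} {j : (Fin m → K) →ₗ[K] (Fin n → K)}
    {W : Submodule k (Fin n → K)} (hsub : IsSubsystem E (secV k e h) F j W) :
    Module.finrank k W ≤ Module.finrank k
      (secV k e h ⊓ (LinearMap.range j).restrictScalars k : Submodule k (Fin n → K)) := by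
  have hfin : Module.Finite k
      (secV k e h ⊓ (LinearMap.range j).restrictScalars k : Submodule k (Fin n → K)) :=
    Submodule.finiteDimensional_inf_left _ _
  apply Submodule.finrank_mono
  intro w hw
  obtain ⟨x, hx, -⟩ := hsub.sections w hw
  exact ⟨hsub.le hw, ⟨x, hx⟩⟩

omit [Field K] in
lemma piecewise_self {n : ℕ} (T : Finset (Fin n)) (f : Fin n → Fin n → K) :
    T.piecewise f f = f := by
  funext i
  by_cases hi : i ∈ T
  · rw [Finset.piecewise_eq_of_mem _ _ _ hi]
  · rw [Finset.piecewise_eq_of_notMem _ _ _ hi]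

omit [IsAlgClosed k] [CharZero k] in
lemma isSystem_split_mem {n m t : ℕ} {E : Bundle k K n}
    {V : Submodule k (Fin n → K)} (hsys : IsSystem E V)
    {j : (Fin m → K) →ₗ[K] (Fin n → K)}
    {e' : Fin m ⊕ Fin t ≃ Fin n} {x : ℝ} {T : Finset (Fin n)} {f : Fin n → Fin n → K}
    {G : Place k K → Fin n → Fin n → K} {H : Place k K → K}
    (S : IsSplit V x (startSet e') (startRows e' j) T f G H) (P : Place k K) :
    ∀ i ∈ T, E.Mem P (f i) := by
  intro i hi
  exact hsys _ (S.f_mem i fun hA => Finset.disjoint_left.1 S.disj hA hi) P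

/-- The degree bound without modifications. -/
theorem deg_bound_plain (hK : IsCurveField k K) {n m t : ℕ} (E : Bundle k K n)
    (V : Submodule k (Fin n → K)) (hsys : IsSystem E V) (F : Bundle k K m)
    (j : (Fin m → K) →ₗ[K] (Fin n → K)) (hmap : ∀ P x, F.Mem P x → E.Mem P (j x))
    (e' : Fin m ⊕ Fin t ≃ Fin n) (x : ℝ) (T : Finset (Fin n)) (f : Fin n → Fin n → K)
    (G : Place k K → Fin n → Fin n → K) (H : Place k K → K)
    (S : IsSplit V x (startSet e') (startRows e' j) T f G H) :
    (F.deg : ℝ) ≤ E.deg - x * (n - m - T.card) := by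
  have h1 := deg_bound_split E V hsys F j hmap e' x T f G H S (fun _ => f)
    (isSystem_split_mem hsys S) (fun P => by
      rw [piecewise_self]; exact det_of_indep f S.indep) (by
      rw [piecewise_self]; exact hasFiniteSupport_ord hK _)
  rw [piecewise_self, finsum_ord hK, add_zero] at h1
  have h2 := S.H_sum
  rw [card_startSet] at h2
  have h3 : (F.deg : ℝ) ≤ E.deg + ((∑ᶠ P : Place k K, P.ord (H P) : ℤ) : ℝ) := by
    exact_mod_cast h1
  linarith

theorem gon_nonneg (hK : IsCurveField k K) (r : ℕ) : 0 ≤ gon k K r :=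
  nonneg_of_mem hK r _ (Int.csInf_mem (nonempty_linearSeriesDegrees hK r)
    (bddBelow_linearSeriesDegrees hK r))

/-- There is a stable coherent system of degree `d_n`. -/
theorem gon_mem_stableDegrees (hK : IsCurveField k K) {n : ℕ} (hn : 1 ≤ n) :
    gon k K n ∈ stableDegrees k K n (n + 1) := by
  obtain ⟨h, hh, hg⟩ := exists_gon hK (k := k) n
  let e : Fin n ⊕ Fin 0 ≃ Fin n := Equiv.sumEmpty (Fin n) (Fin 0)
  obtain ⟨E, hEdeg, hEint, hEd, -, -⟩ := exists_bundle hK e h hh (m := 0)
    (fun q => q.elim0) (fun q => q.elim0) (fun q => q.elim0) (fun q => q.elim0) ⟨0, hn⟩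
    (fun q => q.elim0) (fun q => q.elim0) (fun q => q.elim0)
  have hdeg : E.deg = gon k K n := by
    rw [hEdeg, hg]; push_cast; ring
  have hsys := isSystem_secV E hEint hEd
  have hD : (0 : ℝ) ≤ gon k K n := by exact_mod_cast gon_nonneg hK n
  have hn0 : (0 : ℝ) < n := by exact_mod_cast hn
  refine ⟨n * gon k K n + 1, by positivity, E, secV k e h, hsys, finrank_secV hn hh, hdeg, ?_⟩
  intro m F j W hm hsub hnw
  have hmn := le_rank_of_injective j hsub.injective
  rcases hmn.lt_or_eq with hlt | heq
  · obtain ⟨e'⟩ := exists_sum_equiv hmn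
    obtain ⟨T, f, G, H, S⟩ := exists_split hK (secV k e h) inferInstance span_secV 0
      (fun r _ _ => by rw [zero_mul]; exact_mod_cast gon_nonneg hK r) _ (startSet e')
      (startRows e' j) rfl (startRows_indep e' j hsub.injective)
    have h1 := deg_bound_plain hK E _ hsys F j hsub.map_mem e' 0 T f G H S
    rw [zero_mul, sub_zero, hdeg] at h1
    have h2 := finrank_sub_le hsub
    have h3 := factA (e := e) (h := h) (k := k) hn hh (LinearMap.range j)
    have h4 := finrank_range_of_injective j hsub.injective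
    have h5 : Module.finrank k W ≤ m := by
      by_contra hcon
      push Not at hcon
      have h6 := (factA' (e := e) (h := h) (k := k) hn hh (LinearMap.range j) (by omega)).2.2
      omega
    rw [finrank_secV hn hh, hdeg]
    have hm0 : (0 : ℝ) < m := by exact_mod_cast hm
    have hm1 : (1 : ℝ) ≤ m := by exact_mod_cast hm
    have h5' : (Module.finrank k W : ℝ) ≤ m := by exact_mod_cast h5
    have hmn' : (m : ℝ) + 1 ≤ n := by exact_mod_cast hlt
    rw [div_lt_div_iff₀ hm0 hn0]
    set D : ℝ := (gon k K n : ℝ) with hDdef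
    have h7 : ((F.deg : ℝ) + (n * D + 1) * Module.finrank k W) ≤ D + (n * D + 1) * m := by
      have : (0 : ℝ) ≤ n * D + 1 := by positivity
      nlinarith
    have h8 : ((F.deg : ℝ) + (n * D + 1) * Module.finrank k W) * n ≤ (D + (n * D + 1) * m) * n :=
      mul_le_mul_of_nonneg_right h7 hn0.le
    push_cast
    nlinarith [mul_nonneg hD hn0.le, mul_nonneg (mul_nonneg hD hn0.le) (sub_nonneg.2 hm1)]
  · subst heq
    exact slope_full hK (by omega) E _ inferInstance _ (by positivity) F j W hsub hnw

end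

end Pool.Agent.MP_09eaec
end

section

/-!
# Subsheaves with a trivial quotient
-/

set_option autoImplicit false

namespace Pool.Agent.MP_09eaec

open Function Matrix

universe u v

variable {k : Type u} {K : Type v} [Field k] [Field K] [Algebra k K]

/-- Independent polynomials of degree less than `s` have few common roots. -/
lemma card_bad {s : ℕ} {ι : Type*} [Fintype ι] [Nonempty ι] (mm : ι → Fin s → k)
    (hmm : LinearIndependent k mm) {m : ℕ} (a : Fin m → k) (ha : Injective a)
    (Q : Finset (Fin m)) (hQ : ∀ q ∈ Q, ∀ i, ∑ j, mm i j * a q ^ (j : ℕ) = 0) :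
    Q.card + Fintype.card ι ≤ s := by
  classical
  by_contra hcon
  push Not at hcon
  set b := Fintype.card ι with hb
  have hb1 : 1 ≤ b := Fintype.card_pos
  have hbs : b ≤ s := by
    have h1 := hmm.fintype_card_le_finrank
    rw [Module.finrank_fin_fun] at h1
    exact h1
  let g : Fin (b - 1) → Fin s := fun i => ⟨s - b + 1 + i, by have := i.2; omega⟩
  let Λ : (ι → k) →ₗ[k] (Fin (b - 1) → k) :=
    (LinearMap.funLeft k k g) ∘ₗ (Fintype.linearCombination k mm)
  have hker : LinearMap.ker Λ ≠ ⊥ := by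
    apply LinearMap.ker_ne_bot_of_finrank_lt
    rw [Module.finrank_fin_fun, Module.finrank_fintype_fun_eq_card]
    omega
  obtain ⟨c, hc, hc0⟩ := Submodule.exists_mem_ne_zero_of_ne_bot hker
  set y : Fin s → k := Fintype.linearCombination k mm c with hy
  have hy0 : y ≠ 0 := by
    intro h
    apply hc0
    apply hmm.fintypeLinearCombination_injective
    rw [← hy, h, map_zero]
  have hytop : ∀ j : Fin s, s - b < (j : ℕ) → y j = 0 := by
    intro j hj
    have h1 : Λ c = 0 := hc
    have h2 := congrFun h1 ⟨j - (s - b + 1), by have := j.2; omega⟩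
    have h3 : g ⟨j - (s - b + 1), by have := j.2; omega⟩ = j := by
      apply Fin.ext
      show s - b + 1 + (j - (s - b + 1)) = (j : ℕ)
      omega
    have h4 : y (g ⟨j - (s - b + 1), by have := j.2; omega⟩) = 0 := h2
    rwa [h3] at h4
  let pp : Polynomial k := ∑ j : Fin s, Polynomial.C (y j) * Polynomial.X ^ (j : ℕ)
  have hcoeff : ∀ j : Fin s, pp.coeff j = y j := by
    intro j
    simp only [pp, Polynomial.finsetSum_coeff, Polynomial.coeff_C_mul_X_pow]
    rw [Finset.sum_eq_single j]
    · rw [if_pos rfl]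
    · intro i _ hij
      rw [if_neg]
      intro h
      exact hij (Fin.ext h.symm)
    · intro h; exact absurd (Finset.mem_univ j) h
  have hdeg : pp.natDegree ≤ s - b := by
    apply Polynomial.natDegree_sum_le_of_forall_le
    intro j _
    by_cases hj : s - b < (j : ℕ)
    · rw [hytop j hj]; simp
    · exact le_trans (Polynomial.natDegree_C_mul_X_pow_le _ _) (by omega)
  have hzero : pp = 0 := by
    apply Polynomial.eq_zero_of_natDegree_lt_card_of_eval_eq_zero pp
      (f := fun q : Q => a q) (ha.comp Subtype.val_injective)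
    · rintro ⟨q, hq⟩
      simp only [pp, Polynomial.eval_finsetSum, Polynomial.eval_mul, Polynomial.eval_C,
        Polynomial.eval_pow, Polynomial.eval_X]
      have h1 : ∀ j, y j = ∑ i, c i * mm i j := by
        intro j
        rw [hy, Fintype.linearCombination_apply, Finset.sum_apply]
        rfl
      simp only [h1, Finset.sum_mul]
      rw [Finset.sum_comm]
      apply Finset.sum_eq_zero
      intro i _
      have h2 := hQ q hq i
      have h3 : ∑ j : Fin s, c i * mm i j * a q ^ (j : ℕ) =
          c i * ∑ j : Fin s, mm i j * a q ^ (j : ℕ) := by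
        rw [Finset.mul_sum]
        apply Finset.sum_congr rfl
        intro j _; ring
      rw [h3, h2, mul_zero]
    · rw [Fintype.card_coe]; omega
  apply hy0
  funext j
  rw [← hcoeff, hzero, Polynomial.coeff_zero]; rfl

/-- The special vectors. -/
noncomputable def zvec {r s n : ℕ} (e : Fin r ⊕ Fin s ≃ Fin n) (π : K) (τ : Fin r → k)
    (c : Fin s → k) : Fin n → K :=
  fun i => Sum.elim (fun l => π⁻¹ * algebraMap k K (τ l)) (fun j => π⁻¹ * algebraMap k K (c j))
    (e.symm i)

lemma zvec_inl {r s n : ℕ} (e : Fin r ⊕ Fin s ≃ Fin n) (π : K) (τ : Fin r → k)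
    (c : Fin s → k) (l : Fin r) : zvec e π τ c (e (Sum.inl l)) = π⁻¹ * algebraMap k K (τ l) := by
  simp [zvec]

lemma zvec_inr {r s n : ℕ} (e : Fin r ⊕ Fin s ≃ Fin n) (π : K) (τ : Fin r → k)
    (c : Fin s → k) (l : Fin s) : zvec e π τ c (e (Sum.inr l)) = π⁻¹ * algebraMap k K (c l) := by
  simp [zvec]

lemma functional_zvec {r s n : ℕ} (e : Fin r ⊕ Fin s ≃ Fin n) (π : K) (τ : Fin r → k)
    (c : Fin s → k) (μ : (Fin n → K) →ₗ[K] K)
    (h1 : ∀ l, μ (Pi.single (e (Sum.inl l)) 1) = 0) (mm : Fin s → k)
    (h2 : ∀ j, μ (Pi.single (e (Sum.inr j)) 1) = algebraMap k K (mm j)) :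
    μ (zvec e π τ c) = π⁻¹ * algebraMap k K (∑ j, mm j * c j) := by
  conv_lhs => rw [sum_smul_single (zvec e π τ c), map_sum]
  rw [← e.sum_comp, Fintype.sum_sum_type]
  simp only [map_smul, h1, h2, mul_zero, Finset.sum_const_zero, zero_add, zvec_inr, smul_eq_mul]
  rw [map_sum, Finset.mul_sum]
  apply Finset.sum_congr rfl
  intro j _
  rw [map_mul]; ring

lemma functional_eq_zero {r s n : ℕ} (e : Fin r ⊕ Fin s ≃ Fin n) (μ : (Fin n → K) →ₗ[K] K)
    (h1 : ∀ l, μ (Pi.single (e (Sum.inl l)) 1) = 0)
    (h2 : ∀ j, μ (Pi.single (e (Sum.inr j)) 1) = 0) (x : Fin n → K) : μ x = 0 := by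
  conv_lhs => rw [sum_smul_single x, map_sum]
  rw [← e.sum_comp, Fintype.sum_sum_type]
  simp only [map_smul, h1, h2, smul_zero, Finset.sum_const_zero, add_zero]

/-- Replacing a row. -/
lemma det_update_row {n : ℕ} (f : Fin n → Fin n → K) (i : Fin n) (c : Fin n → K) (v : Fin n → K)
    (hv : v = ∑ l, c l • f l) : (Matrix.of (update f i v)).det = c i * (Matrix.of f).det := by
  have h1 : Matrix.of (update f i v) = (Matrix.of f).updateRow i v := rfl
  have h2 : v = ∑ l, c l • (Matrix.of f) l := hv
  rw [h1, h2, det_updateRow_sum, smul_eq_mul]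

theorem case_A [IsAlgClosed k] [CharZero k] (hK : IsCurveField k K) {r s n : ℕ}
    {e : Fin r ⊕ Fin s ≃ Fin n} {h : Fin (r + 1) → K} (hh : LinearIndependent k h)
    (E : Bundle k K n) (hsys : IsSystem E (secV k e h)) {m : ℕ} (p : Fin m → Place k K)
    (hp : Injective p) (π : Fin m → K) (hπ0 : ∀ q, π q ≠ 0) (hπ : ∀ q, (p q).ord (π q) = 1)
    (a : Fin m → k) (ha : Injective a) (τ : Fin m → Fin r → k)
    (hEz : ∀ q, E.Mem (p q) (zvec e (π q) (τ q) (fun j => a q ^ (j : ℕ))))
    {M t : ℕ} (F : Bundle k K M) (j : (Fin M → K) →ₗ[K] (Fin n → K))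
    (hmap : ∀ P x, F.Mem P x → E.Mem P (j x)) (e' : Fin M ⊕ Fin t ≃ Fin n) (x : ℝ)
    (T : Finset (Fin n)) (f : Fin n → Fin n → K)
    (G : Place k K → Fin n → Fin n → K) (H : Place k K → K)
    (S : IsSplit (secV k e h) x (startSet e') (startRows e' j) T f G H) (hT : T.Nonempty) :
    T.card ≤ s ∧ (F.deg : ℝ) ≤ E.deg - x * (n - M - T.card) - (m - (s - T.card)) := by
  classical
  obtain ⟨i00, hi00⟩ := hT
  have hne : Nonempty (Fin n) := ⟨i00⟩
  have hneT : Nonempty T := ⟨⟨i00, hi00⟩⟩
  let bK := basisOfLinearIndependentOfCardEqFinrank S.indep (by simp)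
  have hbK : ∀ i, bK i = f i := fun i => by
    simp [bK, coe_basisOfLinearIndependentOfCardEqFinrank]
  let lam : Fin n → (Fin n → K) →ₗ[K] K := fun i => bK.coord i
  have hlamf : ∀ i l, lam i (f l) = if l = i then 1 else 0 := by
    intro i l
    rw [← hbK l]
    show bK.repr (bK l) i = _
    rw [bK.repr_self_apply]
  have hlamV : ∀ i ∈ T, ∀ v ∈ secV k e h, lam i v ∈ Set.range (algebraMap k K) := by
    intro i hi v hv
    obtain ⟨c, hc, hcT⟩ := S.coord v hv
    have h1 : lam i v = c i := by
      rw [hc, map_sum, Finset.sum_eq_single i]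
      · rw [map_smul, hlamf, if_pos rfl, smul_eq_mul, mul_one]
      · intro l _ hl
        rw [map_smul, hlamf, if_neg hl, smul_zero]
      · intro h; exact absurd (Finset.mem_univ i) h
    rw [h1]; exact hcT i hi
  have hinl : ∀ i ∈ T, ∀ l, lam i (Pi.single (e (Sum.inl l)) 1) = 0 := fun i hi =>
    (functional_zero' hh (lam i) (hlamV i hi)).2
  have hmm : ∀ i : T, ∀ l : Fin s, ∃ c : k,
      lam i (Pi.single (e (Sum.inr l)) 1) = algebraMap k K c := by
    intro i l
    obtain ⟨c, hc⟩ := hlamV i i.2 _ (single_mem_secV (e (Sum.inr l)))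
    exact ⟨c, hc.symm⟩
  choose mm hmm using hmm
  have hind : LinearIndependent k mm := by
    rw [Fintype.linearIndependent_iff]
    intro c hc i0
    let μ : (Fin n → K) →ₗ[K] K := ∑ i : T, algebraMap k K (c i) • lam i
    have hμ : ∀ z, μ z = ∑ i : T, algebraMap k K (c i) * lam i z := by
      intro z
      rw [show μ z = ∑ i : T, (algebraMap k K (c i) • lam i) z from LinearMap.sum_apply _ _ _]
      rfl
    have h1 := functional_eq_zero e μ (by
      intro l
      rw [hμ]
      apply Finset.sum_eq_zero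
      intro i _
      rw [hinl i i.2, mul_zero]) (by
      intro l
      rw [hμ]
      have h2 := congrFun hc l
      rw [Finset.sum_apply, Pi.zero_apply] at h2
      have h3 := congrArg (algebraMap k K) h2
      rw [map_sum, map_zero] at h3
      rw [← h3]
      apply Finset.sum_congr rfl
      intro i _
      rw [hmm, Pi.smul_apply, smul_eq_mul, map_mul]) (f i0)
    rw [hμ, Finset.sum_eq_single i0] at h1
    · rw [hlamf, if_pos rfl, mul_one] at h1
      exact (map_eq_zero_iff _ (algebraMap k K).injective).1 h1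
    · intro i _ hi
      rw [hlamf, if_neg, mul_zero]
      intro h; exact hi (Subtype.ext h.symm)
    · intro h; exact absurd (Finset.mem_univ i0) h
  let Q : Finset (Fin m) := Finset.univ.filter
    (fun q => ∀ i : T, ∑ l : Fin s, mm i l * a q ^ (l : ℕ) = 0)
  have hcard : Q.card + T.card ≤ s := by
    have := card_bad mm hind a ha Q (fun q hq => (Finset.mem_filter.1 hq).2)
    rwa [Fintype.card_coe] at this
  have hdetf : (Matrix.of f).det ≠ 0 := det_of_indep f S.indep
  have hloc : ∀ P : Place k K, ∃ τP : Fin n → Fin n → K, (∀ i ∈ T, E.Mem P (τP i)) ∧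
      (Matrix.of (T.piecewise τP f)).det ≠ 0 ∧
      P.ord (Matrix.of (T.piecewise τP f)).det =
        P.ord (Matrix.of f).det - (if P ∈ Qᶜ.image p then 1 else 0) := by
    intro P
    by_cases hP : P ∈ Qᶜ.image p
    · obtain ⟨q, hq, rfl⟩ := Finset.mem_image.1 hP
      have hq' : ¬ ∀ i : T, ∑ l : Fin s, mm i l * a q ^ (l : ℕ) = 0 := by
        intro hcon
        exact (Finset.mem_compl.1 hq) (Finset.mem_filter.2 ⟨Finset.mem_univ q, hcon⟩)
      push Not at hq'
      obtain ⟨i, hi⟩ := hq'
      set z := zvec e (π q) (τ q) (fun j => a q ^ (j : ℕ)) with hz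
      have h1 : T.piecewise (update f (i : Fin n) z) f = update f (i : Fin n) z := by
        funext l
        by_cases hl : l ∈ T
        · rw [Finset.piecewise_eq_of_mem _ _ _ hl]
        · rw [Finset.piecewise_eq_of_notMem _ _ _ hl, update_of_ne]
          rintro rfl
          exact hl i.2
      have h2 : z = ∑ l, lam l z • f l := by
        have h3 := bK.sum_repr z
        simp only [hbK] at h3
        exact h3.symm
      have h3 := det_update_row f (i : Fin n) (fun l => lam l z) z h2
      have h4 : lam i z = (π q)⁻¹ * algebraMap k K (∑ l : Fin s, mm i l * a q ^ (l : ℕ)) :=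
        functional_zvec e (π q) (τ q) _ (lam i) (hinl i i.2) (mm i) (hmm i)
      have h5 : algebraMap k K (∑ l : Fin s, mm i l * a q ^ (l : ℕ)) ≠ 0 := by
        rw [Ne, map_eq_zero_iff _ (algebraMap k K).injective]; exact hi
      have h6 : lam i z ≠ 0 := by
        rw [h4]; exact mul_ne_zero (inv_ne_zero (hπ0 q)) h5
      refine ⟨update f (i : Fin n) z, ?_, ?_, ?_⟩
      · intro l hl
        by_cases hli : l = i
        · rw [hli, update_self]; exact hEz q
        · rw [update_of_ne hli]; exact isSystem_split_mem hsys S _ l hl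
      · rw [h1, h3]; exact mul_ne_zero h6 hdetf
      · rw [h1, h3, if_pos hP]
        show (p q).ord (lam i z * _) = _
        rw [Place.ord_mul _ _ _ h6 hdetf, h4,
          Place.ord_mul _ _ _ (inv_ne_zero (hπ0 q)) h5, Place.ord_inv, hπ q,
          Place.ord_algebraMap]
        ring
    · refine ⟨f, isSystem_split_mem hsys S P, ?_, ?_⟩
      · rw [piecewise_self]; exact hdetf
      · rw [piecewise_self, if_neg hP, sub_zero]
  choose τ' hτ1 hτ2 hτ3 using hloc
  have hfs1 : HasFiniteSupport
      (fun P : Place k K => if P ∈ Qᶜ.image p then (1 : ℤ) else 0) := by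
    refine (Finset.finite_toSet (Qᶜ.image p)).subset ?_
    intro P hP
    by_contra h2
    apply hP
    exact if_neg h2
  have hfs : HasFiniteSupport
      (fun P : Place k K => P.ord (Matrix.of (T.piecewise (τ' P) f)).det) := by
    have : (fun P : Place k K => P.ord (Matrix.of (T.piecewise (τ' P) f)).det) =
      fun P => P.ord (Matrix.of f).det - (if P ∈ Qᶜ.image p then (1 : ℤ) else 0) := funext hτ3
    rw [this]
    exact (hasFiniteSupport_ord hK _).fun_sub hfs1
  have h1 := deg_bound_split E _ hsys F j hmap e' x T f G H S τ' hτ1 hτ2 hfs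
  have h2 : ∑ᶠ P : Place k K, (if P ∈ Qᶜ.image p then (1 : ℤ) else 0) = m - Q.card := by
    rw [finsum_eq_sum_of_support_subset (s := Qᶜ.image p)]
    · rw [Finset.sum_ite_mem, Finset.inter_self, Finset.sum_const,
        Finset.card_image_of_injective _ hp, Finset.card_compl, Fintype.card_fin]
      have h3 : Q.card ≤ m := by
        have := Q.card_le_univ
        rwa [Fintype.card_fin] at this
      simp
      omega
    · intro P hP
      by_contra h2
      apply hP
      exact if_neg h2
  rw [finsum_congr hτ3, finsum_sub_distrib (hasFiniteSupport_ord hK _) hfs1, finsum_ord hK, h2] at h1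
  have h3 := S.H_sum
  rw [card_startSet] at h3
  refine ⟨by omega, ?_⟩
  have h4 : (F.deg : ℝ) ≤ E.deg + ((∑ᶠ P : Place k K, P.ord (H P) : ℤ) : ℝ) +
      (0 - (m - (Q.card : ℝ))) := by
    exact_mod_cast h1
  have h5 : (Q.card : ℝ) + T.card ≤ s := by exact_mod_cast hcard
  linarith

end Pool.Agent.MP_09eaec
end

section

/-!
# The special subsheaves of rank `s`
-/

set_option autoImplicit false

namespace Pool.Agent.MP_09eaec

open Function Matrix

universe u v

variable {k : Type u} {K : Type v} [Field k] [Field K] [Algebra k K]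

/-- The special directions can be chosen in general position. -/
lemma exists_tau {r s m : ℕ} (c : Fin m → Fin s → k) (ub : Fin m → Fin r → k)
    (hdim : s * (r + 1) < m * r) : ∃ τ : Fin m → Fin r → k,
      ∀ (σ1 : Fin s → k) (σ2 : Fin s → Fin r → k), ∃ q l,
        τ q l ≠ ∑ i, c q i * (σ2 i l + σ1 i * ub q l) := by
  let Ψ : ((Fin s → k) × (Fin s → Fin r → k)) →ₗ[k] (Fin m → Fin r → k) :=
    { toFun := fun σ q l => ∑ i, c q i * (σ.2 i l + σ.1 i * ub q l)
      map_add' := by
        intro x y
        funext q l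
        simp only [Prod.fst_add, Prod.snd_add, Pi.add_apply]
        rw [← Finset.sum_add_distrib]
        apply Finset.sum_congr rfl
        intro i _; ring
      map_smul' := by
        intro a x
        funext q l
        simp only [Prod.smul_fst, Prod.smul_snd, Pi.smul_apply, smul_eq_mul, RingHom.id_apply]
        rw [Finset.mul_sum]
        apply Finset.sum_congr rfl
        intro i _; ring }
  have hns : LinearMap.range Ψ ≠ ⊤ := by
    intro htop
    have h1 := LinearMap.finrank_range_le Ψ
    have hf : ∀ a : ℕ, Module.finrank k (Fin a → Fin r → k) = a * r := by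
      intro a
      rw [Module.finrank_pi_fintype]
      simp
    rw [htop, finrank_top, Module.finrank_prod, hf, hf, Module.finrank_fin_fun] at h1
    have h2 : s * (r + 1) = s + s * r := by ring
    omega
  obtain ⟨τ, hτ⟩ : ∃ τ, τ ∉ LinearMap.range Ψ := by
    by_contra hcon
    push Not at hcon
    exact hns (eq_top_iff.2 fun x _ => hcon x)
  refine ⟨τ, ?_⟩
  intro σ1 σ2
  by_contra hcon
  push Not at hcon
  apply hτ
  exact ⟨(σ1, σ2), by funext q l; exact (hcon q l).symm⟩

lemma ord_sub_eq_zero (P : Place k K) {c : k} (hc : c ≠ 0) {b : K} (hb : b = 0 ∨ 0 < P.ord b) :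
    algebraMap k K c - b ≠ 0 ∧ P.ord (algebraMap k K c - b) = 0 := by
  have hc' : algebraMap k K c ≠ 0 := by
    rw [Ne, map_eq_zero_iff _ (algebraMap k K).injective]; exact hc
  have hb' : b ∈ P.filt 1 := by
    rcases hb with h | h
    · left; exact h
    · right; omega
  have h1 : algebraMap k K c - b ∉ P.filt 1 := by
    intro h
    have h2 := (P.filt 1).add_mem h hb'
    rw [sub_add_cancel] at h2
    rcases h2 with h2 | h2
    · exact hc' h2
    · rw [P.ord_algebraMap] at h2; omega
  rw [P.mem_filt, not_or] at h1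
  refine ⟨h1.1, ?_⟩
  have h2 : P.IsInt (algebraMap k K c - b) := by
    rw [sub_eq_add_neg]
    apply P.isInt_add (P.isInt_algebraMap c)
    apply P.isInt_neg
    rcases hb with h | h
    · left; exact h
    · right; omega
  have h3 := (P.isInt_iff h1.1).1 h2
  omega

theorem special_bound [IsAlgClosed k] [CharZero k] (hK : IsCurveField k K) {r s n : ℕ}
    {e : Fin r ⊕ Fin s ≃ Fin n} {h : Fin (r + 1) → K} (hh : LinearIndependent k h)
    (E : Bundle k K n) (hEint : ∀ P x, (∀ i, P.IsInt (x i)) → E.Mem P x)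
    (hEd : ∀ P, E.Mem P (dualVec e h)) {m : ℕ} (p : Fin m → Place k K)
    (hpm : ∀ q, (p q).minOrd h = (p q).ord (h 0))
    (π : Fin m → K) (hπ0 : ∀ q, π q ≠ 0) (hπ : ∀ q, (p q).ord (π q) = 1)
    (c : Fin m → Fin s → k) (τ : Fin m → Fin r → k) (ub : Fin m → Fin r → k)
    (hub : ∀ q l, - h (Fin.succ l) / h 0 - algebraMap k K (ub q l) = 0 ∨
      0 < (p q).ord (- h (Fin.succ l) / h 0 - algebraMap k K (ub q l)))
    (hEz : ∀ q, E.Mem (p q) (zvec e (π q) (τ q) (c q)))
    {M : ℕ} (F : Bundle k K M) (j : (Fin M → K) →ₗ[K] (Fin n → K))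
    (hmap : ∀ P x, F.Mem P x → E.Mem P (j x)) (e' : Fin M ⊕ Fin r ≃ Fin n)
    (σ : Fin s → k × (Fin n → k))
    (hσ : ∀ i, Phi k e h (σ i) ∈ LinearMap.range j ∧
      ∀ i', (σ i).2 (e (Sum.inr i')) = if i = i' then 1 else 0)
    (hτ : ∃ q l, τ q l ≠ ∑ i, c q i * ((σ i).2 (e (Sum.inl l)) + (σ i).1 * ub q l)) :
    F.deg ≤ E.deg + ∑ᶠ P : Place k K, P.minOrd h - 1 := by
  classical
  have h00 : h 0 ≠ 0 := hh.ne_zero 0
  obtain ⟨q0, l0, hql⟩ := hτ
  let M0 : Fin n → Fin n → K := fun i => Sum.elim (fun a => j (Pi.single a 1))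
    (fun l => Pi.single (e (Sum.inl l)) 1) (e'.symm i)
  have hM1 : ∀ a, M0 (e' (Sum.inl a)) = j (Pi.single a 1) := fun a => by simp [M0]
  have hM2 : ∀ l, M0 (e' (Sum.inr l)) = Pi.single (e (Sum.inl l)) 1 := fun l => by simp [M0]
  have hsumM : ∀ (C1 : Fin M → K) (C2 : Fin r → K),
      ∑ i, (Sum.elim C1 C2 (e'.symm i) : K) • M0 i =
        j C1 + ∑ l, C2 l • (Pi.single (e (Sum.inl l)) 1 : Fin n → K) := by
    intro C1 C2
    rw [← e'.sum_comp, Fintype.sum_sum_type]
    congr 1
    · conv_rhs => rw [sum_smul_single C1, map_sum]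
      apply Finset.sum_congr rfl
      intro a _
      rw [Equiv.symm_apply_apply, hM1, map_smul]
      rfl
    · apply Finset.sum_congr rfl
      intro l _
      rw [Equiv.symm_apply_apply, hM2]
      rfl
  -- decomposition of a vector
  have hdec : ∀ x : Fin n → K, x = ∑ l, x (e (Sum.inl l)) • (Pi.single (e (Sum.inl l)) 1 : Fin n → K) +
      ∑ i, x (e (Sum.inr i)) • (Pi.single (e (Sum.inr i)) 1 : Fin n → K) := by
    intro x
    conv_lhs => rw [sum_smul_single x, ← e.sum_comp, Fintype.sum_sum_type]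
  have hPhi : ∀ i, (Pi.single (e (Sum.inr i)) 1 : Fin n → K) = Phi k e h (σ i) -
      ∑ l, Phi k e h (σ i) (e (Sum.inl l)) • (Pi.single (e (Sum.inl l)) 1 : Fin n → K) := by
    intro i
    have h1 : ∀ i', Phi k e h (σ i) (e (Sum.inr i')) = if i = i' then 1 else 0 := by
      intro i'
      have h2 : Phi k e h (σ i) (e (Sum.inr i')) =
          (σ i).1 • dualVec e h (e (Sum.inr i')) + algebraMap k K ((σ i).2 (e (Sum.inr i'))) := rfl
      rw [h2, dualVec_inr, smul_zero, zero_add, (hσ i).2 i']
      split_ifs <;> simp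
    rw [eq_sub_iff_add_eq]
    conv_rhs => rw [hdec (Phi k e h (σ i))]
    simp only [h1, ite_smul, one_smul, zero_smul, Finset.sum_ite_eq, Finset.mem_univ, if_true]
    rw [add_comm]
  -- expansion of any vector in the rows
  have hexp : ∀ x : Fin n → K, ∃ C1 : Fin M → K, x = ∑ i, (Sum.elim C1 (fun l : Fin r =>
      x (e (Sum.inl l)) - ∑ i : Fin s, x (e (Sum.inr i)) * Phi k e h (σ i) (e (Sum.inl l)))
      (e'.symm i) : K) • M0 i := by
    intro x
    have h1 : ∑ i, x (e (Sum.inr i)) • Phi k e h (σ i) ∈ LinearMap.range j := by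
      apply Submodule.sum_mem
      intro i _
      exact Submodule.smul_mem _ _ (hσ i).1
    obtain ⟨C1, hC1⟩ := h1
    refine ⟨C1, ?_⟩
    rw [hsumM, hC1]
    conv_lhs => rw [hdec x]
    have h2 : ∑ i, x (e (Sum.inr i)) • (Pi.single (e (Sum.inr i)) 1 : Fin n → K) =
        ∑ i, x (e (Sum.inr i)) • Phi k e h (σ i) - ∑ l : Fin r, (∑ i : Fin s, x (e (Sum.inr i)) *
          Phi k e h (σ i) (e (Sum.inl l))) • (Pi.single (e (Sum.inl l)) 1 : Fin n → K) := by
      have h3 : ∀ i, x (e (Sum.inr i)) • (Pi.single (e (Sum.inr i)) 1 : Fin n → K) =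
          x (e (Sum.inr i)) • Phi k e h (σ i) - ∑ l : Fin r, (x (e (Sum.inr i)) *
          Phi k e h (σ i) (e (Sum.inl l))) • (Pi.single (e (Sum.inl l)) 1 : Fin n → K) := by
        intro i
        rw [hPhi i, smul_sub, Finset.smul_sum]
        congr 1
        apply Finset.sum_congr rfl
        intro l _
        rw [smul_smul]
      rw [Finset.sum_congr rfl (fun i _ => h3 i), Finset.sum_sub_distrib]
      congr 1
      rw [Finset.sum_comm]
      apply Finset.sum_congr rfl
      intro l _
      rw [Finset.sum_smul]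
    rw [h2]
    have h4 : ∑ l : Fin r, (x (e (Sum.inl l)) - ∑ i : Fin s, x (e (Sum.inr i)) *
        Phi k e h (σ i) (e (Sum.inl l))) • (Pi.single (e (Sum.inl l)) 1 : Fin n → K) =
        ∑ l : Fin r, x (e (Sum.inl l)) • (Pi.single (e (Sum.inl l)) 1 : Fin n → K) -
        ∑ l : Fin r, (∑ i : Fin s, x (e (Sum.inr i)) *
          Phi k e h (σ i) (e (Sum.inl l))) • (Pi.single (e (Sum.inl l)) 1 : Fin n → K) := by
      rw [← Finset.sum_sub_distrib]
      apply Finset.sum_congr rfl
      intro l _
      rw [sub_smul]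
    rw [h4]
    abel
  have hindep : LinearIndependent K M0 := by
    apply linearIndependent_of_top_le_span_of_card_eq_finrank
    · intro x _
      obtain ⟨C1, hC1⟩ := hexp x
      rw [hC1]
      apply Submodule.sum_mem
      intro i _
      exact Submodule.smul_mem _ _ (Submodule.subset_span ⟨i, rfl⟩)
    · simp
  have hdet0 : (Matrix.of M0).det ≠ 0 := det_of_indep M0 hindep
  have hune : ∀ l : Fin r, - h l.succ / h 0 ≠ 0 := fun l =>
    div_ne_zero (neg_ne_zero.2 (hh.ne_zero _)) h00
  have hu : ∀ P : Place k K, ∀ l : Fin r, P.ord (- h l.succ / h 0) = P.ord (h l.succ) - P.ord (h 0) := by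
    intro P l
    rw [P.ord_div _ _ (neg_ne_zero.2 (hh.ne_zero _)) h00, P.ord_neg]
  have hmemM : ∀ P : Place k K, ∀ b, E.Mem P (M0 (e' (Sum.inr b))) := by
    intro P b
    rw [hM2]
    apply hEint
    intro i
    rw [Pi.single_apply]
    split_ifs
    · exact P.isInt_one
    · exact P.isInt_zero
  have hupd : ∀ P : Place k K, ∀ (l : Fin r) (z : Fin n → K), E.Mem P z →
      (∀ a, update M0 (e' (Sum.inr l)) z (e' (Sum.inl a)) = j (Pi.single a 1)) ∧
      (∀ b, E.Mem P (update M0 (e' (Sum.inr l)) z (e' (Sum.inr b)))) := by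
    intro P l z hz
    constructor
    · intro a
      rw [update_of_ne, hM1]
      intro hcon
      have := e'.injective hcon
      cases this
    · intro b
      by_cases hb : b = l
      · rw [hb, update_self]; exact hz
      · rw [update_of_ne]
        · exact hmemM P b
        · intro hcon
          exact hb (Sum.inr_injective (e'.injective hcon))
  have hloc : ∀ P : Place k K, ∃ GP : Fin n → Fin n → K,
      (∀ a, GP (e' (Sum.inl a)) = j (Pi.single a 1)) ∧
      (∀ b, E.Mem P (GP (e' (Sum.inr b)))) ∧ (Matrix.of GP).det ≠ 0 ∧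
      P.ord (Matrix.of GP).det = P.ord (Matrix.of M0).det + (P.minOrd h - P.ord (h 0)) -
        (if P = p q0 then 1 else 0) := by
    intro P
    by_cases hP : P = p q0
    · subst hP
      set z := zvec e (π q0) (τ q0) (c q0) with hz
      obtain ⟨C1, hC1⟩ := hexp z
      have h1 := det_update_row M0 (e' (Sum.inr l0)) _ z hC1
      obtain ⟨h2, h3⟩ := hupd (p q0) l0 z (hEz q0)
      rw [Equiv.symm_apply_apply] at h1
      set d0 : k := τ q0 l0 - ∑ i, c q0 i * ((σ i).2 (e (Sum.inl l0)) + (σ i).1 * ub q0 l0) with hd0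
      set d1 : k := ∑ i, c q0 i * (σ i).1 with hd1
      set w : K := - h l0.succ / h 0 - algebraMap k K (ub q0 l0) with hw
      have h4 : (Sum.elim C1 (fun l : Fin r =>
          z (e (Sum.inl l)) - ∑ i : Fin s, z (e (Sum.inr i)) * Phi k e h (σ i) (e (Sum.inl l)))
          (Sum.inr l0) : K) = (π q0)⁻¹ * (algebraMap k K d0 - algebraMap k K d1 * w) := by
        show z (e (Sum.inl l0)) - ∑ i : Fin s, z (e (Sum.inr i)) * Phi k e h (σ i) (e (Sum.inl l0)) = _
        have h5 : ∀ i, Phi k e h (σ i) (e (Sum.inl l0)) =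
            algebraMap k K (σ i).1 * (- h l0.succ / h 0) +
              algebraMap k K ((σ i).2 (e (Sum.inl l0))) := by
          intro i
          have h6 : Phi k e h (σ i) (e (Sum.inl l0)) =
            (σ i).1 • dualVec e h (e (Sum.inl l0)) + algebraMap k K ((σ i).2 (e (Sum.inl l0))) := rfl
          rw [h6, dualVec_inl, Algebra.smul_def]
        simp only [h5, hz, zvec_inl, zvec_inr]
        rw [hd0, hd1, map_sub, map_sum, map_sum, Finset.sum_mul, mul_sub, mul_sub, Finset.mul_sum,
          Finset.mul_sum, sub_sub, ← Finset.sum_add_distrib]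
        congr 1
        apply Finset.sum_congr rfl
        intro i _
        rw [hw]
        simp only [map_mul, map_add]
        ring
      rw [h4] at h1
      have hd0ne : d0 ≠ 0 := sub_ne_zero.2 hql
      have hb : algebraMap k K d1 * w = 0 ∨ 0 < (p q0).ord (algebraMap k K d1 * w) := by
        rcases hub q0 l0 with h5 | h5
        · left; rw [← hw] at h5; rw [h5, mul_zero]
        · by_cases hd10 : d1 = 0
          · left; rw [hd10, map_zero, zero_mul]
          · right
            have h6 : algebraMap k K d1 ≠ 0 := by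
              rw [Ne, map_eq_zero_iff _ (algebraMap k K).injective]; exact hd10
            have h7 : w ≠ 0 := by
              intro h
              rw [← hw, h, Place.ord_zero] at h5
              omega
            rw [Place.ord_mul _ _ _ h6 h7, Place.ord_algebraMap, zero_add]
            exact h5
      obtain ⟨h5, h6⟩ := ord_sub_eq_zero (p q0) hd0ne hb
      refine ⟨_, h2, h3, ?_, ?_⟩
      · rw [h1]
        exact mul_ne_zero (mul_ne_zero (inv_ne_zero (hπ0 q0)) h5) hdet0
      · rw [h1, if_pos rfl, Place.ord_mul _ _ _ (mul_ne_zero (inv_ne_zero (hπ0 q0)) h5) hdet0,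
          Place.ord_mul _ _ _ (inv_ne_zero (hπ0 q0)) h5, h6, Place.ord_inv, hπ q0, hpm q0]
        ring
    · by_cases hm : P.minOrd h = P.ord (h 0)
      · refine ⟨M0, hM1, hmemM P, hdet0, ?_⟩
        rw [if_neg hP, hm]; ring
      · obtain ⟨i, hi⟩ := P.exists_minOrd h
        obtain ⟨l, rfl⟩ : ∃ l : Fin r, i = l.succ := by
          rcases Fin.eq_zero_or_eq_succ i with h1 | h1
          · exact absurd (by rw [hi, h1]) hm
          · exact h1
        have h1 : dualVec e h = ∑ i, (Sum.elim (0 : Fin M → K) (fun l : Fin r => - h l.succ / h 0)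
            (e'.symm i) : K) • M0 i := by
          rw [hsumM, map_zero, zero_add]
          conv_lhs => rw [hdec (dualVec e h)]
          have h2 : ∑ i, dualVec e h (e (Sum.inr i)) • (Pi.single (e (Sum.inr i)) 1 : Fin n → K) = 0 := by
            apply Finset.sum_eq_zero
            intro i _
            rw [dualVec_inr, zero_smul]
          rw [h2, add_zero]
          apply Finset.sum_congr rfl
          intro l _
          rw [dualVec_inl]
        have h2 := det_update_row M0 (e' (Sum.inr l)) _ (dualVec e h) h1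
        rw [Equiv.symm_apply_apply] at h2
        obtain ⟨h3, h4⟩ := hupd P l (dualVec e h) (hEd P)
        have h5 : (Sum.elim (0 : Fin M → K) (fun l : Fin r => - h l.succ / h 0) (Sum.inr l) : K) =
            - h l.succ / h 0 := rfl
        rw [h5] at h2
        refine ⟨_, h3, h4, ?_, ?_⟩
        · rw [h2]; exact mul_ne_zero (hune l) hdet0
        · rw [h2, if_neg hP, P.ord_mul _ _ (hune l) hdet0, hu, hi]
          ring
  choose GP hG1 hG2 hG3 hG4 using hloc
  have hfs1 : HasFiniteSupport (fun P : Place k K => if P = p q0 then (1 : ℤ) else 0) := by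
    refine (Set.finite_singleton (p q0)).subset ?_
    intro P hP
    by_contra h2
    apply hP
    exact if_neg h2
  have hfs2 : HasFiniteSupport (fun P : Place k K => P.minOrd h - P.ord (h 0)) :=
    (hasFiniteSupport_minOrd hK h).fun_sub (hasFiniteSupport_ord hK (h 0))
  have hfs3 : HasFiniteSupport (fun P : Place k K => P.ord (Matrix.of M0).det +
      (P.minOrd h - P.ord (h 0))) := (hasFiniteSupport_ord hK _).fun_add hfs2
  have h1 := deg_le_deg_add E F j hmap e' GP hG1 hG2 hG3 (by
    have : (fun P : Place k K => P.ord (Matrix.of (GP P)).det) = fun P : Place k K =>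
        P.ord (Matrix.of M0).det + (P.minOrd h - P.ord (h 0)) - (if P = p q0 then 1 else 0) :=
      funext hG4
    rw [this]
    exact hfs3.fun_sub hfs1)
  have h2 : ∑ᶠ P : Place k K, (if P = p q0 then (1 : ℤ) else 0) = 1 := by
    rw [finsum_eq_single _ (p q0)]
    · exact if_pos rfl
    · intro P hP; exact if_neg hP
  rw [finsum_congr hG4, finsum_sub_distrib hfs3 hfs1,
    finsum_add_distrib (hasFiniteSupport_ord hK _) hfs2,
    finsum_sub_distrib (hasFiniteSupport_minOrd hK h) (hasFiniteSupport_ord hK (h 0)),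
    finsum_ord hK, finsum_ord hK, h2] at h1
  omega

end Pool.Agent.MP_09eaec
end
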